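import Mathlib

/-!
# MP_70e04f_ag, plane linear systems: merged library part M01

Concatenation of smaller files (each in its own section), only to save build time.
-/

/-! ### from `Lib_MP_70e04f_dich.Line` -/

section

/-!
# The second alternative of the SHGH conjecture, given by a line through two points
-/

namespace Pool.MP_70e04f_ag.Dich

open MvPolynomial

/-- The alternative of the SHGH conjecture for degree `d` and multiplicities `m`. -/
def SHGH {n : ℕ} (d : ℕ) (m : Fin n → ℕ) : Prop :=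
  ∃ g : MvPolynomial (Fin n × Fin 2) ℂ, g ≠ 0 ∧
    ∀ p : Fin n → Fin 2 → ℂ,
      MvPolynomial.eval (fun q : Fin n × Fin 2 => p q.1 q.2) g ≠ 0 →
        ((2 : ℤ) * ((Module.finrank ℂ
            ↥(MvPolynomial.restrictTotalDegree (Fin 2) ℂ d ⊓
              ⨅ i : Fin n, Submodule.restrictScalars ℂ
                ((RingHom.ker (MvPolynomial.eval (p i)) :
                    Ideal (MvPolynomial (Fin 2) ℂ)) ^ m i)) : ℕ) : ℤ)
          = max 0 (((d : ℤ) + 1) * ((d : ℤ) + 2) - ∑ i, (m i : ℤ) * ((m i : ℤ) + 1)))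
        ∨ ∃ f : MvPolynomial (Fin 2) ℂ, ∃ e : ℕ, ∃ a : Fin n → ℕ,
            Irreducible f ∧ f.totalDegree = e ∧
            (∀ i, f ∈ (RingHom.ker (MvPolynomial.eval (p i)) :
                      Ideal (MvPolynomial (Fin 2) ℂ)) ^ a i ∧
                  f ∉ (RingHom.ker (MvPolynomial.eval (p i)) :
                      Ideal (MvPolynomial (Fin 2) ℂ)) ^ (a i + 1)) ∧
            (e : ℤ) ^ 2 - ∑ i, (a i : ℤ) ^ 2 = -1 ∧
            3 * (e : ℤ) - ∑ i, (a i : ℤ) = 1 ∧
            (d : ℤ) * (e : ℤ) - ∑ i, (a i : ℤ) * (m i : ℤ) ≤ -2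

/-- Elements of the square of the ideal of a point have derivatives which vanish at the point. -/
lemma eval_pderiv_of_mem_sq {q : Fin 2 → ℂ} {f : MvPolynomial (Fin 2) ℂ} (k : Fin 2)
    (hf : f ∈ (RingHom.ker (MvPolynomial.eval q) : Ideal (MvPolynomial (Fin 2) ℂ)) ^ 2) :
    MvPolynomial.eval q (pderiv k f) = 0 := by
  rw [pow_two] at hf
  refine Submodule.mul_induction_on hf ?_ ?_
  · intro a ha b hb
    rw [RingHom.mem_ker] at ha hb
    rw [Derivation.leibniz, smul_eq_mul, smul_eq_mul, map_add, map_mul, map_mul, ha, hb]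
    ring
  · intro a b ha hb
    rw [map_add, map_add, ha, hb, add_zero]

/-- The line through two points. -/
noncomputable def ln (u v : Fin 2 → ℂ) : MvPolynomial (Fin 2) ℂ :=
  C (v 0 - u 0) * X 1 + C (u 1 - v 1) * X 0 + C (u 0 * v 1 - u 1 * v 0)

lemma eval_ln (u v w : Fin 2 → ℂ) : MvPolynomial.eval w (ln u v) =
    (v 0 - u 0) * w 1 + (u 1 - v 1) * w 0 + (u 0 * v 1 - u 1 * v 0) := by
  simp [ln]

lemma pderiv_ln (u v : Fin 2 → ℂ) : pderiv 1 (ln u v) = C (v 0 - u 0) := by
  simp [ln]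

lemma coeff_ln (u v : Fin 2 → ℂ) : coeff (Finsupp.single 1 1) (ln u v) = v 0 - u 0 := by
  have h1 : (Finsupp.single 0 1 : Fin 2 →₀ ℕ) ≠ Finsupp.single 1 1 := by
    rw [Ne, Finsupp.single_left_inj one_ne_zero]
    decide
  have h2 : (0 : Fin 2 →₀ ℕ) ≠ Finsupp.single 1 1 := by
    intro h
    have := congrArg (fun s : Fin 2 →₀ ℕ => s 1) h
    simp at this
  unfold ln
  rw [coeff_add, coeff_add, coeff_C_mul, coeff_C_mul, coeff_C, if_neg h2]
  simp [coeff_X, h1]

lemma totalDegree_ln {u v : Fin 2 → ℂ} (h : v 0 - u 0 ≠ 0) : (ln u v).totalDegree = 1 := by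
  apply le_antisymm
  · unfold ln
    refine (totalDegree_add _ _).trans (max_le ((totalDegree_add _ _).trans (max_le ?_ ?_)) ?_)
    · exact (totalDegree_mul _ _).trans (by rw [totalDegree_C, totalDegree_X])
    · exact (totalDegree_mul _ _).trans (by rw [totalDegree_C, totalDegree_X])
    · rw [totalDegree_C]
      exact Nat.zero_le _
  · have h1 : Finsupp.single 1 1 ∈ (ln u v).support := by
      rw [mem_support_iff, coeff_ln]
      exact h
    have h2 := le_totalDegree h1
    simpa using h2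

lemma irreducible_ln {u v : Fin 2 → ℂ} (h : v 0 - u 0 ≠ 0) : Irreducible (ln u v) := by
  apply irreducible_of_totalDegree_eq_one (totalDegree_ln h)
  intro x hx
  have h1 := hx (Finsupp.single 1 1)
  rw [coeff_ln] at h1
  rw [isUnit_iff_ne_zero]
  rintro rfl
  exact h (zero_dvd_iff.1 h1)

/-- The determinant which vanishes when three points are on a line. -/
noncomputable def dt {n : ℕ} (i j k : Fin n) : MvPolynomial (Fin n × Fin 2) ℂ :=
  (X (j, 0) - X (i, 0)) * X (k, 1) + (X (i, 1) - X (j, 1)) * X (k, 0) +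
    (X (i, 0) * X (j, 1) - X (i, 1) * X (j, 0))

lemma eval_dt {n : ℕ} (i j k : Fin n) (p : Fin n → Fin 2 → ℂ) :
    MvPolynomial.eval (fun q : Fin n × Fin 2 => p q.1 q.2) (dt i j k) =
      MvPolynomial.eval (p k) (ln (p i) (p j)) := by
  rw [eval_ln]
  simp [dt]

/-- A line through two points which meets the system in at most `-2`. -/
theorem line_alt {n D : ℕ} (mult : Fin n → ℕ) (i j : Fin n) (hij : i ≠ j)
    (h : D + 2 ≤ mult i + mult j) : SHGH D mult := by
  classical
  refine ⟨(X (j, 0) - X (i, 0)) *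
    ∏ k ∈ Finset.univ.filter (fun k => k ≠ i ∧ k ≠ j), dt i j k, ?_, ?_⟩
  · -- evaluate at a suitable configuration
    intro h0
    have h1 := congrArg (MvPolynomial.eval (fun q : Fin n × Fin 2 =>
      (if q.2 = 0 then (if q.1 = j then 1 else 0) else (if q.1 = i ∨ q.1 = j then 0 else 1) : ℂ))) h0
    rw [map_mul, map_prod, map_zero, mul_eq_zero, Finset.prod_eq_zero_iff] at h1
    rcases h1 with h1 | ⟨k, hk, h1⟩
    · simp [hij] at h1
    · rw [Finset.mem_filter] at hk
      obtain ⟨_, hki, hkj⟩ := hk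
      simp [dt, hij, hki, hkj] at h1
  · intro p hp
    right
    rw [map_mul, map_prod] at hp
    have hp1 := left_ne_zero_of_mul hp
    have hp2 := right_ne_zero_of_mul hp
    rw [Finset.prod_ne_zero_iff] at hp2
    have hd : p j 0 - p i 0 ≠ 0 := by simpa using hp1
    refine ⟨ln (p i) (p j), 1, fun k => if k = i ∨ k = j then 1 else 0, irreducible_ln hd,
      totalDegree_ln hd, ?_, ?_, ?_, ?_⟩
    · intro k
      by_cases hk : k = i ∨ k = j
      · have hv : (fun k => if k = i ∨ k = j then 1 else 0 : Fin n → ℕ) k = 1 := if_pos hk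
        rw [hv]
        constructor
        · rw [pow_one, RingHom.mem_ker, eval_ln]
          rcases hk with rfl | rfl <;> ring
        · intro hm
          have h1 := eval_pderiv_of_mem_sq 1 hm
          rw [pderiv_ln, eval_C] at h1
          exact hd h1
      · have hv : (fun k => if k = i ∨ k = j then 1 else 0 : Fin n → ℕ) k = 0 := if_neg hk
        rw [hv]
        push Not at hk
        constructor
        · simp
        · rw [zero_add, pow_one, RingHom.mem_ker, ← eval_dt]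
          exact hp2 k (Finset.mem_filter.2 ⟨Finset.mem_univ k, hk⟩)
    · have e1 : ∑ k, (((if k = i ∨ k = j then 1 else 0 : ℕ)) : ℤ) ^ 2 = 2 := by
        have e2 : ∀ k, (((if k = i ∨ k = j then 1 else 0 : ℕ)) : ℤ) ^ 2 =
            (if k = i then 1 else 0) + (if k = j then 1 else 0) := by
          intro k
          by_cases hk : k = i
          · subst hk
            simp [hij]
          · by_cases hk' : k = j
            · subst hk'
              simp [hk]
            · simp [hk, hk']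
        rw [Finset.sum_congr rfl fun k _ => e2 k, Finset.sum_add_distrib]
        simp
      rw [e1]
      norm_num
    · have e1 : ∑ k, (((if k = i ∨ k = j then 1 else 0 : ℕ)) : ℤ) = 2 := by
        have e2 : ∀ k, (((if k = i ∨ k = j then 1 else 0 : ℕ)) : ℤ) =
            (if k = i then 1 else 0) + (if k = j then 1 else 0) := by
          intro k
          by_cases hk : k = i
          · subst hk
            simp [hij]
          · by_cases hk' : k = j
            · subst hk'
              simp [hk]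
            · simp [hk, hk']
        rw [Finset.sum_congr rfl fun k _ => e2 k, Finset.sum_add_distrib]
        simp
      rw [e1]
      norm_num
    · have e1 : ∑ k, (((if k = i ∨ k = j then 1 else 0 : ℕ)) : ℤ) * (mult k : ℤ) =
          mult i + mult j := by
        have e2 : ∀ k, (((if k = i ∨ k = j then 1 else 0 : ℕ)) : ℤ) * (mult k : ℤ) =
            (if k = i then (mult k : ℤ) else 0) + (if k = j then (mult k : ℤ) else 0) := by
          intro k
          by_cases hk : k = i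
          · subst hk
            simp [hij]
          · by_cases hk' : k = j
            · subst hk'
              simp [hk]
            · simp [hk, hk']
        rw [Finset.sum_congr rfl fun k _ => e2 k, Finset.sum_add_distrib]
        simp
      rw [e1]
      push_cast
      omega

end Pool.MP_70e04f_ag.Dich

end

/-! ### from `Lib_MP_70e04f_cre.Defs` -/

section

/-!
# Quadratic transformations of plane linear systems: definitions
-/

namespace Pool.MP_70e04f_ag.Cre

open MvPolynomial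

/-- Polynomials in two variables. -/
abbrev R2 := MvPolynomial (Fin 2) ℂ

/-- Polynomials in three variables. -/
abbrev R3 := MvPolynomial (Fin 3) ℂ

/-- The maximal ideal of a point. -/
noncomputable abbrev mi {k : ℕ} (q : Fin k → ℂ) : Ideal (MvPolynomial (Fin k) ℂ) :=
  RingHom.ker (MvPolynomial.eval q)

/-- The curves of degree at most `d` with multiplicities `m` at the points `p`. -/
noncomputable def V {n : ℕ} (d : ℕ) (m : Fin n → ℕ) (p : Fin n → Fin 2 → ℂ) : Submodule ℂ R2 :=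
  MvPolynomial.restrictTotalDegree (Fin 2) ℂ d ⊓
    ⨅ i : Fin n, Submodule.restrictScalars ℂ (mi (p i) ^ m i)

/-- The forms of degree `d` with multiplicities `m` at the points `q`. -/
noncomputable def W {n : ℕ} (d : ℕ) (m : Fin n → ℕ) (q : Fin n → Fin 3 → ℂ) : Submodule ℂ R3 :=
  homogeneousSubmodule (Fin 3) ℂ d ⊓
    ⨅ i : Fin n, Submodule.restrictScalars ℂ (mi (q i) ^ m i)

/-- The dimension `N` is the expected one. -/
def Dim {n : ℕ} (d : ℕ) (m : Fin n → ℕ) (N : ℕ) : Prop :=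
  (2 : ℤ) * (N : ℤ) = max 0 (((d : ℤ) + 1) * ((d : ℤ) + 2) - ∑ i, (m i : ℤ) * ((m i : ℤ) + 1))

/-- The numerical conditions on a `(-1)`-curve of degree `e` and multiplicities `a` which
intersects the system in at most `-2`. -/
def Neg {n : ℕ} (d : ℕ) (m : Fin n → ℕ) (e : ℕ) (a : Fin n → ℕ) : Prop :=
  (e : ℤ) ^ 2 - ∑ i, (a i : ℤ) ^ 2 = -1 ∧ 3 * (e : ℤ) - ∑ i, (a i : ℤ) = 1 ∧
    (d : ℤ) * (e : ℤ) - ∑ i, (a i : ℤ) * (m i : ℤ) ≤ -2

/-- The alternative of the conjecture at a given configuration of points of the plane. -/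
def S {n : ℕ} (d : ℕ) (m : Fin n → ℕ) (p : Fin n → Fin 2 → ℂ) : Prop :=
  Dim d m (Module.finrank ℂ ↥(V d m p)) ∨
    ∃ f : R2, ∃ e : ℕ, ∃ a : Fin n → ℕ, Irreducible f ∧ f.totalDegree = e ∧
      (∀ i, f ∈ mi (p i) ^ a i ∧ f ∉ mi (p i) ^ (a i + 1)) ∧ Neg d m e a

/-- The alternative of the conjecture at a given configuration of points with homogeneous
coordinates. -/
def HS {n : ℕ} (d : ℕ) (m : Fin n → ℕ) (q : Fin n → Fin 3 → ℂ) : Prop :=
  Dim d m (Module.finrank ℂ ↥(W d m q)) ∨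
    ∃ F : R3, ∃ e : ℕ, ∃ a : Fin n → ℕ, Irreducible F ∧ F.IsHomogeneous e ∧
      (∀ i, F ∈ mi (q i) ^ a i ∧ F ∉ mi (q i) ^ (a i + 1)) ∧ Neg d m e a

lemma shgh_iff {n : ℕ} (d : ℕ) (m : Fin n → ℕ) : Dich.SHGH d m ↔
    ∃ g : MvPolynomial (Fin n × Fin 2) ℂ, g ≠ 0 ∧ ∀ p : Fin n → Fin 2 → ℂ,
      MvPolynomial.eval (fun q : Fin n × Fin 2 => p q.1 q.2) g ≠ 0 → S d m p :=
  Iff.rfl

/-! ### Homogeneous coordinates -/

/-- Homogeneous coordinates of a point of the plane. -/
def hat (p : Fin 2 → ℂ) : Fin 3 → ℂ := ![p 0, p 1, 1]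

/-- The substitution `X 2 = 1`. -/
noncomputable def deh : R3 →ₐ[ℂ] R2 := aeval ![X 0, X 1, 1]

/-- The form of degree `e` given by a polynomial (of degree at most `e`). -/
noncomputable def hom (e : ℕ) : R2 →ₗ[ℂ] R3 :=
  (MvPolynomial.basisMonomials (Fin 2) ℂ).constr ℂ
    fun s => X 0 ^ s 0 * X 1 ^ s 1 * X 2 ^ (e - (s 0 + s 1))

lemma hom_monomial (e : ℕ) (s : Fin 2 →₀ ℕ) (c : ℂ) : hom e (monomial s c) =
    C c * (X 0 ^ s 0 * X 1 ^ s 1 * X 2 ^ (e - (s 0 + s 1))) := by
  have h : (monomial s c : R2) = c • MvPolynomial.basisMonomials (Fin 2) ℂ s := by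
    rw [MvPolynomial.coe_basisMonomials, MvPolynomial.smul_monomial, smul_eq_mul, mul_one]
  rw [h, map_smul, hom, Module.Basis.constr_basis, MvPolynomial.smul_eq_C_mul]

/-- Linear substitutions. -/
noncomputable def lin (A : Matrix (Fin 3) (Fin 3) ℂ) : R3 →ₐ[ℂ] R3 :=
  aeval (fun i => ∑ j, C (A i j) * X j)

/-! ### The standard quadratic transformation -/

/-- The standard quadratic transformation of the plane. -/
def sg (x : Fin 3 → ℂ) : Fin 3 → ℂ := ![x 1 * x 2, x 0 * x 2, x 0 * x 1]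

/-- The substitution given by the standard quadratic transformation. -/
noncomputable def sub : R3 →ₐ[ℂ] R3 := aeval ![X 1 * X 2, X 0 * X 2, X 0 * X 1]

/-- The form with the opposite exponents. -/
noncomputable def rev (ν : Fin 3 →₀ ℕ) : R3 →ₗ[ℂ] R3 :=
  (MvPolynomial.basisMonomials (Fin 3) ℂ).constr ℂ fun s => monomial (ν - s) 1

lemma rev_monomial (ν s : Fin 3 →₀ ℕ) (c : ℂ) : rev ν (monomial s c) = monomial (ν - s) c := by
  have h : (monomial s c : R3) = c • MvPolynomial.basisMonomials (Fin 3) ℂ s := by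
    rw [MvPolynomial.coe_basisMonomials, MvPolynomial.smul_monomial, smul_eq_mul, mul_one]
  rw [h, map_smul, rev, Module.Basis.constr_basis, MvPolynomial.smul_monomial, smul_eq_mul,
    mul_one]

/-- The multiplicities after a quadratic transformation with excess `δ` at the points `ι`. -/
def cm {n : ℕ} (m : Fin n → ℕ) (ι : Fin 3 → Fin n) (δ : ℕ) : Fin n → ℕ :=
  fun i => if i ∈ Finset.univ.image ι then m i - δ else m i

end Pool.MP_70e04f_ag.Cre

end

/-! ### from `Lib_MP_70e04f_cre.Mi` -/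

section

/-!
# Powers of the ideal of a point (piece CRMI)

PAPER PROOF. `mi q` is maximal (`RingHom.ker_isMaximal_of_surjective`, `eval q` is surjective onto
`ℂ`), so its powers are primary: `Ideal.isPrimary_of_isMaximal_radical`, `Ideal.radical_pow`
(`j = 0` is trivial). `mem_pow_map`: `mi q ≤ (mi q').comap φ`, `Ideal.map_pow`,
`Ideal.map_le_iff_le_comap`, `Ideal.pow_right_mono`. `mem_mi_smul`: apply `mem_pow_map` to the
substitution `X i ↦ C c⁻¹ * X i`, which multiplies a form of degree `e` by `c⁻¹ ^ e`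
(compare values or monomials; `MvPolynomial.funext`, `IsHomogeneous.eval₂`, or
`MvPolynomial.induction`), and multiply with the constant `c ^ e`.

`mem_mi_single_iff`: (right to left) every monomial `X ^ s` of `F` has `∑ l ≠ j, s l = e - s j ≥ a`
factors `X l`, `l ≠ j`, in `mi (Pi.single j 1)`. (left to right) The substitution `φ` with
`X j ↦ 1`, `X l ↦ X l` (`l ≠ j`) maps `mi (Pi.single j 1)` to `mi 0 = idealOfVars`; by
`MvPolynomial.mem_pow_idealOfVars_iff'` all coefficients of `φ F` of degree `< a` vanish. The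
monomial `X ^ s` of `F` goes to the monomial with exponent `t = s` except `t j = 0`, and different
monomials of `F` go to different monomials because `s j = e - ∑ l ≠ j, s l`. So the coefficient of
`φ F` at `t` is the coefficient of `F` at `s`.
-/

namespace Pool.MP_70e04f_ag.Cre

open MvPolynomial

/-- Powers of the ideal of a point are primary. -/
theorem mem_pow_of_mul_mem {k : ℕ} {q : Fin k → ℂ} {A F : MvPolynomial (Fin k) ℂ} {j : ℕ}
    (hA : MvPolynomial.eval q A ≠ 0) (h : A * F ∈ mi q ^ j) : F ∈ mi q ^ j := by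
  set B : MvPolynomial (Fin k) ℂ := C (MvPolynomial.eval q A)⁻¹ with hB
  have h1 : 1 - B * A ∈ mi q := by
    rw [RingHom.mem_ker, map_sub, map_mul, map_one, hB, MvPolynomial.eval_C, inv_mul_cancel₀ hA, sub_self]
  have h2 : (1 - B * A) ^ j ∈ mi q ^ j := Ideal.pow_mem_pow h1 j
  obtain ⟨E, hE⟩ : B * A ∣ 1 - (1 - B * A) ^ j := by
    have h3 := sub_dvd_pow_sub_pow (1 : MvPolynomial (Fin k) ℂ) (1 - B * A) j
    rwa [one_pow, sub_sub_cancel] at h3
  have h4 : F = (1 - B * A) ^ j * F + (B * E) * (A * F) := by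
    have h5 : F = (1 - B * A) ^ j * F + (1 - (1 - B * A) ^ j) * F := by ring
    rw [hE] at h5
    calc F = (1 - B * A) ^ j * F + (B * A * E) * F := h5
      _ = _ := by ring
  rw [h4]
  exact Ideal.add_mem _ (Ideal.mul_mem_right _ _ h2) (Ideal.mul_mem_left _ _ h)

/-- Functoriality of the multiplicity. -/
theorem mem_pow_map {k l : ℕ} {q : Fin k → ℂ} {q' : Fin l → ℂ}
    (φ : MvPolynomial (Fin k) ℂ →ₐ[ℂ] MvPolynomial (Fin l) ℂ)
    (h : ∀ F, MvPolynomial.eval q' (φ F) = MvPolynomial.eval q F) {F : MvPolynomial (Fin k) ℂ}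
    {j : ℕ} (hF : F ∈ mi q ^ j) : φ F ∈ mi q' ^ j := by
  have h1 : Ideal.map φ.toRingHom (mi q) ≤ mi q' := by
    rw [Ideal.map_le_iff_le_comap]
    intro G hG
    rw [Ideal.mem_comap, RingHom.mem_ker]
    have := h G
    rw [RingHom.mem_ker.1 hG] at this
    exact this
  have h2 : φ.toRingHom F ∈ Ideal.map φ.toRingHom (mi q ^ j) := Ideal.mem_map_of_mem _ hF
  rw [Ideal.map_pow] at h2
  exact Ideal.pow_right_mono h1 j h2

lemma mi_deg {F : R3} {e : ℕ} (hF : F.IsHomogeneous e) {s : Fin 3 →₀ ℕ} (hs : s ∈ F.support) :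
    s.degree = e := by
  have h1 := hF (mem_support_iff.1 hs)
  rw [Finsupp.degree_eq_weight_one]
  exact h1

/-- scaling the variables multiplies a form by a power -/
lemma mi_scale (c : ℂ) {F : R3} {e : ℕ} (hF : F.IsHomogeneous e) :
    aeval (fun i => C c * X i : Fin 3 → R3) F = C (c ^ e) * F := by
  conv_lhs => rw [F.as_sum]
  conv_rhs => rw [F.as_sum]
  rw [map_sum, Finset.mul_sum]
  refine Finset.sum_congr rfl fun s hs => ?_
  have h1 : s.degree = e := mi_deg hF hs
  rw [aeval_monomial, MvPolynomial.algebraMap_eq, monomial_eq, Finsupp.prod_fintype _ _ (fun i => pow_zero _),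
    Finsupp.prod_fintype _ _ (fun i => pow_zero _)]
  simp only [mul_pow]
  rw [Finset.prod_mul_distrib, Finset.prod_pow_eq_pow_sum, ← h1, Finsupp.degree_eq_sum, map_pow]
  ring

/-- The multiplicity does not depend on the homogeneous coordinates. -/
theorem mem_mi_smul {q : Fin 3 → ℂ} {c : ℂ} (hc : c ≠ 0) {F : R3} {e j : ℕ}
    (hF : F.IsHomogeneous e) (h : F ∈ mi q ^ j) : F ∈ mi (c • q) ^ j := by
  have h1 : aeval (fun i => C c⁻¹ * X i : Fin 3 → R3) F ∈ mi (c • q) ^ j := by
    refine mem_pow_map _ (fun G => ?_) h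
    rw [← MvPolynomial.coe_aeval_eq_eval, ← MvPolynomial.coe_aeval_eq_eval, RingHom.coe_coe, RingHom.coe_coe,
      ← AlgHom.comp_apply, MvPolynomial.comp_aeval]
    have h2 : (fun i => (aeval (c • q)) (C c⁻¹ * X i : R3)) = q := by
      funext i
      rw [map_mul, aeval_C, aeval_X]
      simp [hc]
    rw [h2]
  rw [mi_scale c⁻¹ hF] at h1
  have h2 : F = C (c ^ e) * (C (c⁻¹ ^ e) * F) := by
    rw [← mul_assoc, ← C_mul, ← mul_pow, mul_inv_cancel₀ hc, one_pow, C_1, one_mul]
  rw [h2]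
  exact Ideal.mul_mem_left _ _ h1

/-- setting a variable equal to one -/
lemma mi_dehom (j : Fin 3) (s : Fin 3 →₀ ℕ) (c : ℂ) :
    aeval (fun l => if l = j then 1 else X l : Fin 3 → R3) (monomial s c) = monomial (s.erase j) c := by
  rw [aeval_monomial, MvPolynomial.algebraMap_eq, monomial_eq, Finsupp.prod_fintype _ _ (fun i => pow_zero _),
    Finsupp.prod_fintype _ _ (fun i => pow_zero _)]
  congr 1
  refine Finset.prod_congr rfl fun i _ => ?_
  by_cases hi : i = j
  · rw [if_pos hi, one_pow, hi, Finsupp.erase_same, pow_zero]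
  · rw [if_neg hi, Finsupp.erase_ne hi]

lemma mi_degree_erase (j : Fin 3) (s : Fin 3 →₀ ℕ) : (s.erase j).degree + s j = s.degree := by
  rw [Finsupp.degree_eq_sum, Finsupp.degree_eq_sum]
  rw [← Finset.add_sum_erase Finset.univ _ (Finset.mem_univ j), ← Finset.add_sum_erase Finset.univ (fun i => s i)
    (Finset.mem_univ j), Finsupp.erase_same, zero_add, add_comm]
  congr 1
  refine Finset.sum_congr rfl fun i hi => ?_
  rw [Finsupp.erase_ne (Finset.ne_of_mem_erase hi)]

lemma mi_zero_le : mi (0 : Fin 3 → ℂ) ≤ idealOfVars (Fin 3) ℂ := by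
  intro g hg
  rw [RingHom.mem_ker] at hg
  have h1 := (mem_pow_idealOfVars_iff' (σ := Fin 3) (R := ℂ) 1 g).2 (fun x hx => ?_)
  · rwa [pow_one] at h1
  · have h2 : x = 0 := by
      have : x.degree = 0 := by omega
      exact (Finsupp.degree_eq_zero_iff x).1 this
    rw [h2, ← MvPolynomial.constantCoeff_eq, ← MvPolynomial.eval_zero]
    exact hg

/-- The multiplicity at a coordinate point. -/
theorem mem_mi_single_iff {F : R3} {e : ℕ} (hF : F.IsHomogeneous e) (j : Fin 3) (a : ℕ) :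
    F ∈ mi (Pi.single j 1) ^ a ↔ ∀ s ∈ F.support, s j + a ≤ e := by
  classical
  constructor
  · intro h s hs
    by_contra hlt
    push Not at hlt
    have h1 : aeval (fun l => if l = j then 1 else X l : Fin 3 → R3) F ∈ mi (0 : Fin 3 → ℂ) ^ a := by
      refine mem_pow_map _ (fun G => ?_) h
      rw [← MvPolynomial.coe_aeval_eq_eval, ← MvPolynomial.coe_aeval_eq_eval, RingHom.coe_coe, RingHom.coe_coe,
        ← AlgHom.comp_apply, MvPolynomial.comp_aeval]
      have h2 : (fun i => (aeval (0 : Fin 3 → ℂ)) (if i = j then 1 else X i : R3)) = Pi.single j 1 := by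
        funext i
        by_cases hi : i = j
        · subst hi
          simp
        · rw [if_neg hi, aeval_X, Pi.single_eq_of_ne hi]
          rfl
      rw [h2]
    have h3 := Ideal.pow_right_mono mi_zero_le a h1
    rw [mem_pow_idealOfVars_iff'] at h3
    have hdeg : s.degree = e := mi_deg hF hs
    have h4 := mi_degree_erase j s
    have h5 := h3 (s.erase j) (by omega)
    have h6 : (aeval (fun l => if l = j then 1 else X l : Fin 3 → R3) F).coeff (s.erase j) = F.coeff s := by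
      conv_lhs => rw [F.as_sum]
      rw [map_sum, coeff_sum, Finset.sum_eq_single s]
      · rw [mi_dehom, coeff_monomial, if_pos rfl]
      · intro u hu hus
        rw [mi_dehom, coeff_monomial, if_neg]
        intro he
        apply hus
        have hdu : u.degree = e := mi_deg hF hu
        have h7 := mi_degree_erase j u
        rw [he] at h7
        ext i
        by_cases hi : i = j
        · rw [hi]
          omega
        · have := DFunLike.congr_fun he i
          rwa [Finsupp.erase_ne hi, Finsupp.erase_ne hi] at this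
      · intro hs'
        exact absurd hs hs'
    rw [h5] at h6
    exact (mem_support_iff.1 hs) h6.symm
  · intro h
    rw [F.as_sum]
    refine Ideal.sum_mem _ fun s hs => ?_
    have h1 := h s hs
    have hdeg : s.degree = e := mi_deg hF hs
    have h4 := mi_degree_erase j s
    have h2 : (s.erase j).degree = ∑ l ∈ Finset.univ.erase j, s l := by
      rw [Finsupp.degree_eq_sum, ← Finset.add_sum_erase Finset.univ _ (Finset.mem_univ j), Finsupp.erase_same, zero_add]
      refine Finset.sum_congr rfl fun i hi => ?_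
      rw [Finsupp.erase_ne (Finset.ne_of_mem_erase hi)]
    have h3 : ∏ l ∈ Finset.univ.erase j, (X l : R3) ^ s l ∈ mi (Pi.single j 1) ^ (∑ l ∈ Finset.univ.erase j, s l) := by
      rw [← Finset.prod_pow_eq_pow_sum]
      refine Ideal.prod_mem_prod fun l hl => Ideal.pow_mem_pow ?_ _
      rw [RingHom.mem_ker, eval_X, Pi.single_eq_of_ne (Finset.ne_of_mem_erase hl)]
    have h5 : a ≤ ∑ l ∈ Finset.univ.erase j, s l := by omega
    have h6 := Ideal.pow_le_pow_right h5 h3
    rw [monomial_eq, Finsupp.prod_fintype _ _ (fun i => pow_zero _),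
      ← Finset.mul_prod_erase Finset.univ _ (Finset.mem_univ j), ← mul_assoc]
    exact Ideal.mul_mem_left _ _ h6

end Pool.MP_70e04f_ag.Cre

end

/-! ### from `Lib_MP_70e04f_cre.Homog` -/

section

/-!
# Homogenisation (piece CRHOM)

PAPER PROOF. Everything is linear, so it is checked on monomials (`hom_monomial`;
`MvPolynomial.induction_on'`, or `f = ∑ s ∈ f.support, monomial s (coeff s f)`,
`MvPolynomial.as_sum`; `MvPolynomial.le_totalDegree` bounds `s 0 + s 1` for `s ∈ f.support`).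
`hom_deh`: a monomial of `F` of degree `e` is `X 0 ^ a * X 1 ^ b * X 2 ^ c` with `a + b + c = e`,
`deh` maps it to `X 0 ^ a * X 1 ^ b`, and `hom e` back. `hom_mul`: both sides are bilinear in `f`,
`g`; for monomials `s`, `t` of degrees `≤ a`, `≤ b` it is
`(a + b) - (|s| + |t|) = (a - |s|) + (b - |t|)`. `hom_add_deg`: `(e + k) - |s| = (e - |s|) + k` for
`|s| ≤ e`. `eval_hom`: the third coordinate of `hat p` is `1`.
-/

namespace Pool.MP_70e04f_ag.Cre

open MvPolynomial

lemma homog_sum_le {e : ℕ} {f : R2} (hf : f.totalDegree ≤ e) {s : Fin 2 →₀ ℕ} (hs : s ∈ f.support) :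
    s 0 + s 1 ≤ e := by
  have h1 := le_totalDegree hs
  rw [Finsupp.sum_fintype _ _ (fun _ => rfl), Fin.sum_univ_two] at h1
  omega

lemma homog_mono2 (s : Fin 2 →₀ ℕ) (c : ℂ) : (monomial s c : R2) = C c * (X 0 ^ s 0 * X 1 ^ s 1) := by
  rw [monomial_eq, Finsupp.prod_fintype _ _ (fun _ => pow_zero _), Fin.prod_univ_two]

lemma homog_mono3 (s : Fin 3 →₀ ℕ) (c : ℂ) : (monomial s c : R3) = C c * (X 0 ^ s 0 * X 1 ^ s 1 * X 2 ^ s 2) := by
  rw [monomial_eq, Finsupp.prod_fintype _ _ (fun _ => pow_zero _), Fin.prod_univ_three]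

/-- the exponents of the first two variables -/
noncomputable def homogT (s : Fin 3 →₀ ℕ) : Fin 2 →₀ ℕ := Finsupp.equivFunOnFinite.symm ![s 0, s 1]

lemma homog_deh_monomial (s : Fin 3 →₀ ℕ) (c : ℂ) : deh (monomial s c) = monomial (homogT s) c := by
  rw [homog_mono3, homog_mono2]
  simp [deh, homogT]

lemma homog_deg3 {e : ℕ} {F : R3} (hF : F.IsHomogeneous e) {s : Fin 3 →₀ ℕ} (hs : s ∈ F.support) :
    s 0 + s 1 + s 2 = e := by
  have h1 := hF (mem_support_iff.1 hs)
  have h2 : s.degree = e := by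
    rw [Finsupp.degree_eq_weight_one]
    exact h1
  rw [Finsupp.degree_eq_sum, Fin.sum_univ_three] at h2
  exact h2

theorem hom_isHomogeneous {e : ℕ} {f : R2} (hf : f.totalDegree ≤ e) :
    (hom e f).IsHomogeneous e := by
  rw [f.as_sum, map_sum]
  refine IsHomogeneous.sum _ _ _ fun s hs => ?_
  have h1 := homog_sum_le hf hs
  rw [hom_monomial]
  have h2 : ((C (f.coeff s) : R3) * (X 0 ^ s 0 * X 1 ^ s 1 * X 2 ^ (e - (s 0 + s 1)))).IsHomogeneous
      (0 + (s 0 + s 1 + (e - (s 0 + s 1)))) :=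
    (isHomogeneous_C _ _).mul (((isHomogeneous_X_pow _ _).mul (isHomogeneous_X_pow _ _)).mul
      (isHomogeneous_X_pow _ _))
  have h3 : 0 + (s 0 + s 1 + (e - (s 0 + s 1))) = e := by omega
  rwa [h3] at h2

theorem deh_hom (e : ℕ) (f : R2) : deh (hom e f) = f := by
  induction f using MvPolynomial.induction_on' with
  | monomial s c =>
    rw [hom_monomial, homog_mono2]
    simp [deh]
  | add p q hp hq => rw [map_add, map_add, hp, hq]

theorem hom_deh {e : ℕ} {F : R3} (hF : F.IsHomogeneous e) : hom e (deh F) = F := by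
  conv_lhs => rw [F.as_sum]
  conv_rhs => rw [F.as_sum]
  rw [map_sum, map_sum]
  refine Finset.sum_congr rfl fun s hs => ?_
  have h1 := homog_deg3 hF hs
  have h2 : e - (s 0 + s 1) = s 2 := by omega
  have h3 : homogT s 0 = s 0 := rfl
  have h4 : homogT s 1 = s 1 := rfl
  rw [homog_deh_monomial, hom_monomial, homog_mono3, h3, h4, h2]

theorem totalDegree_deh {e : ℕ} {F : R3} (hF : F.IsHomogeneous e) : (deh F).totalDegree ≤ e := by
  rw [← MvPolynomial.mem_restrictTotalDegree]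
  conv => arg 2; rw [F.as_sum]
  rw [map_sum]
  refine Submodule.sum_mem _ fun s hs => ?_
  have h1 := homog_deg3 hF hs
  rw [homog_deh_monomial, MvPolynomial.mem_restrictTotalDegree]
  refine (totalDegree_monomial_le _ _).trans ?_
  rw [Finsupp.sum_fintype _ _ (fun _ => rfl), Fin.sum_univ_two]
  have h3 : homogT s 0 = s 0 := rfl
  have h4 : homogT s 1 = s 1 := rfl
  simp only [h3, h4, id]
  omega

theorem hom_mul {a b : ℕ} {f g : R2} (hf : f.totalDegree ≤ a) (hg : g.totalDegree ≤ b) :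
    hom (a + b) (f * g) = hom a f * hom b g := by
  conv_lhs => rw [f.as_sum, g.as_sum]
  conv_rhs => rw [f.as_sum, g.as_sum]
  rw [map_sum, map_sum, Finset.sum_mul_sum, Finset.sum_mul_sum, map_sum]
  refine Finset.sum_congr rfl fun s hs => ?_
  rw [map_sum]
  refine Finset.sum_congr rfl fun t ht => ?_
  have h1 := homog_sum_le hf hs
  have h2 := homog_sum_le hg ht
  rw [monomial_mul, hom_monomial, hom_monomial, hom_monomial]
  have h3 : a + b - ((s + t) 0 + (s + t) 1) = (a - (s 0 + s 1)) + (b - (t 0 + t 1)) := by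
    simp only [Finsupp.add_apply]
    omega
  rw [h3, C_mul]
  simp only [Finsupp.add_apply, pow_add]
  ring

theorem hom_add_deg {e : ℕ} {f : R2} (hf : f.totalDegree ≤ e) (k : ℕ) :
    hom (e + k) f = X 2 ^ k * hom e f := by
  conv_lhs => rw [f.as_sum]
  conv_rhs => rw [f.as_sum]
  rw [map_sum, map_sum, Finset.mul_sum]
  refine Finset.sum_congr rfl fun s hs => ?_
  have h1 := homog_sum_le hf hs
  rw [hom_monomial, hom_monomial]
  have h3 : e + k - (s 0 + s 1) = (e - (s 0 + s 1)) + k := by omega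
  rw [h3, pow_add]
  ring

theorem eval_hom (e : ℕ) (f : R2) (p : Fin 2 → ℂ) :
    MvPolynomial.eval (hat p) (hom e f) = MvPolynomial.eval p f := by
  induction f using MvPolynomial.induction_on' with
  | monomial s c =>
    rw [hom_monomial, homog_mono2]
    simp [hat]
  | add p q hp hq => rw [map_add, map_add, map_add, hp, hq]

theorem eval_deh (F : R3) (p : Fin 2 → ℂ) :
    MvPolynomial.eval p (deh F) = MvPolynomial.eval (hat p) F := by
  induction F using MvPolynomial.induction_on' with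
  | monomial s c =>
    rw [homog_deh_monomial, homog_mono2, homog_mono3]
    simp [hat, homogT]
  | add p q hp hq => rw [map_add, map_add, map_add, hp, hq]

end Pool.MP_70e04f_ag.Cre

end

/-! ### from `Lib_MP_70e04f_cre.HomMi` -/

section

/-!
# Homogenisation and multiplicities (piece CRHMI)

PAPER PROOF. `deh_mem` is `mem_pow_map` with `eval_deh`. `hom_mem`: it is enough to prove, by
induction on `j`, that for every `f ∈ mi p ^ j` there is `N0` with `hom N f ∈ mi (hat p) ^ j` for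
all `N ≥ N0` and `f.totalDegree ≤ N0`: then, by `hom_add_deg`, `X 2 ^ k * hom e f` is in
`mi (hat p) ^ j` for some `k`, and `mem_pow_of_mul_mem` (the value of `X 2 ^ k` at `hat p` is `1`)
gives the claim. Step `j → j + 1`: `mi p ^ (j + 1) = mi p ^ j * mi p`, `Submodule.mul_induction_on`:
sums are clear; for a product `f * g`, `f ∈ mi p ^ j`, `g ∈ mi p`, with `b = g.totalDegree` and `N0`
for `f` take `N0 + b`: `hom N (f * g) = hom (N - b) f * hom b g` (`hom_mul`), and
`hom b g ∈ mi (hat p)` by `eval_hom`.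
-/

namespace Pool.MP_70e04f_ag.Cre

open MvPolynomial

theorem deh_mem {F : R3} {p : Fin 2 → ℂ} {j : ℕ} (h : F ∈ mi (hat p) ^ j) :
    deh F ∈ mi p ^ j :=
  mem_pow_map deh (fun F => eval_deh F p) h

private lemma hom_mem_aux {p : Fin 2 → ℂ} (j : ℕ) : ∀ f : R2, f ∈ mi p ^ j →
    ∃ N0 : ℕ, f.totalDegree ≤ N0 ∧ ∀ N, N0 ≤ N → hom N f ∈ mi (hat p) ^ j := by
  induction j with
  | zero =>
    intro f _
    refine ⟨f.totalDegree, le_rfl, fun N _ => ?_⟩
    rw [pow_zero, Ideal.one_eq_top]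
    exact Submodule.mem_top
  | succ j ih =>
    intro f hf
    rw [pow_succ] at hf
    refine Submodule.mul_induction_on hf ?_ ?_
    · intro a ha b hb
      obtain ⟨N0, h0, h1⟩ := ih a ha
      refine ⟨N0 + b.totalDegree, ?_, ?_⟩
      · exact (totalDegree_mul a b).trans (Nat.add_le_add_right h0 _)
      · intro N hN
        obtain ⟨k, rfl⟩ := Nat.exists_eq_add_of_le hN
        have e1 : N0 + b.totalDegree + k = (N0 + k) + b.totalDegree := by omega
        rw [e1, hom_mul (h0.trans (Nat.le_add_right _ _)) le_rfl, pow_succ]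
        refine Ideal.mul_mem_mul (h1 _ (Nat.le_add_right _ _)) ?_
        have hb' : MvPolynomial.eval p b = 0 := hb
        show hom b.totalDegree b ∈ mi (hat p)
        rw [RingHom.mem_ker, eval_hom, hb']
    · intro x y hx hy
      obtain ⟨N0, h0, h1⟩ := hx
      obtain ⟨N1, h2, h3⟩ := hy
      refine ⟨max N0 N1, ?_, ?_⟩
      · exact (totalDegree_add x y).trans (max_le_max h0 h2)
      · intro N hN
        rw [map_add]
        exact Ideal.add_mem _ (h1 N ((le_max_left _ _).trans hN))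
          (h3 N ((le_max_right _ _).trans hN))

theorem hom_mem {e : ℕ} {f : R2} (hf : f.totalDegree ≤ e) {p : Fin 2 → ℂ} {j : ℕ}
    (h : f ∈ mi p ^ j) : hom e f ∈ mi (hat p) ^ j := by
  obtain ⟨N0, _, h1⟩ := hom_mem_aux j f h
  have h2 := h1 (e + N0) (Nat.le_add_left _ _)
  rw [hom_add_deg hf] at h2
  refine mem_pow_of_mul_mem ?_ h2
  simp [hat]

end Pool.MP_70e04f_ag.Cre

end

/-! ### from `Lib_MP_70e04f_cre.HomIrr` -/

section

/-!
# Homogenisation and irreducibility (piece CRHIR)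

PAPER PROOF. `deh_irreducible`: let `f = deh F`, so `F = hom e f` (`hom_deh`) and `f ≠ 0`, `t =
f.totalDegree ≤ e` (`totalDegree_deh`). By `hom_add_deg` `F = X 2 ^ (e - t) * hom t f`, so
`¬ X 2 ∣ F` gives `t = e`. `f` is not a unit: otherwise `f = C c`
(`MvPolynomial.isUnit_iff_eq_C_of_isReduced` or `isUnit_iff_totalDegree_of_isReduced`), `t = 0`,
`F = C c` is a unit. If `f = g * h`, `a = g.totalDegree`, `b = h.totalDegree`, then `a + b = t`
(`MvPolynomial.totalDegree_mul_of_isDomain`) and `F = hom a g * hom b h` (`hom_mul`), so one factor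
is a unit, and its image under the ring homomorphism `deh` (`deh_hom`) too.

`hom_irreducible`: `F = hom e f` is not a unit as `f = deh F` is not. Let `F = G * H`,
`a = G.totalDegree`, `b = H.totalDegree`; `a + b = e` as `F` is homogeneous of degree `e`
(`IsHomogeneous.totalDegree`). Let `G' = homogeneousComponent a G`,
`H' = homogeneousComponent b H`. Then `F = G' * H'`: the coefficients of degree `a + b` of `G * H`
and `G' * H'` are the same (`coeff_mul`: in a product of monomials of degrees `≤ a` and `≤ b` the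
degree `a + b` is reached only if both degrees are maximal), the other ones vanish. So
`f = deh G' * deh H'` and one of the factors, say `deh G'`, is a unit, so `deh G' = C c`, `c ≠ 0`,
and by `hom_deh` `G' = hom a (C c) = C c * X 2 ^ a`. So `X 2 ^ a ∣ F`; if `a ≥ 1` then
`F = X 2 * K` with `K` homogeneous of degree `e - 1` (`X 2 ^ (a - 1) * C c * H'`), `f = deh K` has
total degree `≤ e - 1` (`totalDegree_deh`), and `e ≥ 1`, a contradiction. So `a = 0`, `G` is a
constant (`MvPolynomial.totalDegree_eq_zero_iff_eq_C`), not zero, a unit.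
-/

namespace Pool.MP_70e04f_ag.Cre

open MvPolynomial

private lemma hom_C (e : ℕ) (c : ℂ) : hom e (C c) = C c * X 2 ^ e := by
  rw [← MvPolynomial.monomial_zero', hom_monomial]
  simp

private lemma deh_X2_pow (a : ℕ) : deh (X 2 ^ a) = 1 := by
  simp [deh]

private lemma coeff_top_mul {G H : R3} {a b : ℕ} (hG : G.totalDegree ≤ a)
    (hH : H.totalDegree ≤ b) (hF : (G * H).IsHomogeneous (a + b)) :
    G * H = homogeneousComponent a G * homogeneousComponent b H := by
  classical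
  ext d
  by_cases hd : d.degree = a + b
  · rw [coeff_mul, coeff_mul]
    refine Finset.sum_congr rfl ?_
    rintro ⟨x, y⟩ hxy
    rw [Finset.HasAntidiagonal.mem_antidiagonal] at hxy
    dsimp only at hxy ⊢
    have hdeg : x.degree + y.degree = a + b := by
      rw [← hd, ← hxy, map_add]
    rw [coeff_homogeneousComponent, coeff_homogeneousComponent]
    by_cases hx : coeff x G = 0
    · simp [hx]
    by_cases hy : coeff y H = 0
    · simp [hy]
    have h1 : x.degree ≤ a := by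
      have := le_totalDegree (mem_support_iff.mpr hx)
      exact le_trans this hG
    have h2 : y.degree ≤ b := by
      have := le_totalDegree (mem_support_iff.mpr hy)
      exact le_trans this hH
    have h3 : x.degree = a := by omega
    have h4 : y.degree = b := by omega
    rw [if_pos h3, if_pos h4]
  · rw [hF.coeff_eq_zero hd]
    exact (((homogeneousComponent_isHomogeneous a G).mul
      (homogeneousComponent_isHomogeneous b H)).coeff_eq_zero hd).symm

/-- The main step: if `deh` of the top component of `G` is a unit, then `G` is a unit. -/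
private lemma key {e : ℕ} {f : R2} (hf0 : f ≠ 0) (he : f.totalDegree = e) {G H : R3}
    (hGH : hom e f = G * H)
    (hu : IsUnit (deh (homogeneousComponent G.totalDegree G))) : IsUnit G := by
  have hF0 : hom e f ≠ 0 := by
    intro h
    apply hf0
    rw [← deh_hom e f, h, map_zero]
  have hhom : (hom e f).IsHomogeneous e := hom_isHomogeneous he.le
  have hG0 : G ≠ 0 := by
    rintro rfl
    exact hF0 (by rw [hGH, zero_mul])
  have hH0 : H ≠ 0 := by
    rintro rfl
    exact hF0 (by rw [hGH, mul_zero])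
  have hab : G.totalDegree + H.totalDegree = e := by
    rw [← totalDegree_mul_of_isDomain hG0 hH0, ← hGH]
    exact hhom.totalDegree hF0
  have hF' : (G * H).IsHomogeneous (G.totalDegree + H.totalDegree) := by
    rw [hab, ← hGH]
    exact hhom
  have h1 := coeff_top_mul le_rfl le_rfl hF'
  set a := G.totalDegree with ha
  set b := H.totalDegree with hb
  obtain ⟨c, hc, hcC⟩ := isUnit_iff_eq_C_of_isReduced.mp hu
  have hG' : homogeneousComponent a G = C c * X 2 ^ a := by
    rw [← hom_deh (homogeneousComponent_isHomogeneous a G), hcC, hom_C]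
  have ha0 : a = 0 := by
    by_contra hne
    obtain ⟨k, hk⟩ := Nat.exists_eq_succ_of_ne_zero hne
    -- `f` is the dehomogenisation of a form of smaller degree
    have hf : f = deh (C c * X 2 ^ k * homogeneousComponent b H) := by
      have h2 : deh (hom e f) = deh (homogeneousComponent a G) *
          deh (homogeneousComponent b H) := by
        rw [hGH, h1, map_mul]
      rw [deh_hom] at h2
      rw [h2, hG', map_mul, map_mul, map_mul, deh_X2_pow, deh_X2_pow]
    have h3 : (C c * X 2 ^ k * homogeneousComponent b H : R3).IsHomogeneous (0 + 1 * k + b) :=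
      ((isHomogeneous_C _ c).mul ((isHomogeneous_X ℂ (2 : Fin 3)).pow k)).mul
        (homogeneousComponent_isHomogeneous b H)
    have h4 := totalDegree_deh h3
    rw [← hf, he] at h4
    omega
  have h5 : G = C (coeff 0 G) := totalDegree_eq_zero_iff_eq_C.mp (by rw [← ha, ha0])
  rw [h5]
  refine IsUnit.map C ?_
  rw [isUnit_iff_ne_zero]
  intro h6
  rw [h6, map_zero] at h5
  exact hG0 h5

theorem hom_irreducible {e : ℕ} {f : R2} (hf : Irreducible f) (he : f.totalDegree = e) :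
    Irreducible (hom e f) := by
  refine ⟨?_, ?_⟩
  · intro h
    apply hf.not_isUnit
    have := h.map deh
    rwa [deh_hom] at this
  · intro G H hGH
    have hf0 : f ≠ 0 := hf.ne_zero
    have hF0 : hom e f ≠ 0 := by
      intro h
      apply hf0
      rw [← deh_hom e f, h, map_zero]
    have hhom : (hom e f).IsHomogeneous e := hom_isHomogeneous he.le
    have hG0 : G ≠ 0 := by
      rintro rfl
      exact hF0 (by rw [hGH, zero_mul])
    have hH0 : H ≠ 0 := by
      rintro rfl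
      exact hF0 (by rw [hGH, mul_zero])
    have hab : G.totalDegree + H.totalDegree = e := by
      rw [← totalDegree_mul_of_isDomain hG0 hH0, ← hGH]
      exact hhom.totalDegree hF0
    have hF' : (G * H).IsHomogeneous (G.totalDegree + H.totalDegree) := by
      rw [hab, ← hGH]
      exact hhom
    have h1 := coeff_top_mul le_rfl le_rfl hF'
    have h2 : f = deh (homogeneousComponent G.totalDegree G) *
        deh (homogeneousComponent H.totalDegree H) := by
      have h3 : deh (hom e f) = deh (homogeneousComponent G.totalDegree G) *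
          deh (homogeneousComponent H.totalDegree H) := by
        rw [hGH, ← map_mul]
        exact congrArg deh h1
      rwa [deh_hom] at h3
    rcases hf.isUnit_or_isUnit h2 with h | h
    · exact Or.inl (key hf0 he hGH h)
    · exact Or.inr (key hf0 he (hGH.trans (mul_comm G H)) h)

theorem deh_irreducible {e : ℕ} {F : R3} (hF : Irreducible F) (he : F.IsHomogeneous e)
    (h2 : ¬ (X 2 : R3) ∣ F) : Irreducible (deh F) ∧ (deh F).totalDegree = e := by
  have hFe : hom e (deh F) = F := hom_deh he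
  have hf0 : deh F ≠ 0 := by
    intro h
    rw [h, map_zero] at hFe
    exact hF.ne_zero hFe.symm
  have hle : (deh F).totalDegree ≤ e := totalDegree_deh he
  have hte : (deh F).totalDegree = e := by
    by_contra hne
    obtain ⟨k, hk⟩ := Nat.exists_eq_add_of_lt (lt_of_le_of_ne hle hne)
    apply h2
    rw [← hFe]
    have h3 : hom e (deh F) = X 2 ^ (k + 1) * hom (deh F).totalDegree (deh F) := by
      have h4 := hom_add_deg (le_refl (deh F).totalDegree) (k + 1)
      rw [← h4]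
      congr 1
      congr 1
    rw [h3, pow_succ', mul_assoc]
    exact dvd_mul_right _ _
  refine ⟨⟨?_, ?_⟩, hte⟩
  · intro hu
    obtain ⟨c, hc, hcC⟩ := isUnit_iff_eq_C_of_isReduced.mp hu
    have he0 : e = 0 := by
      rw [← hte, hcC, totalDegree_C]
    apply hF.not_isUnit
    rw [← hFe, hcC, he0, hom_C, pow_zero, mul_one]
    exact hc.map C
  · intro g h hgh
    have hg0 : g ≠ 0 := by
      rintro rfl
      exact hf0 (by rw [hgh, zero_mul])
    have hh0 : h ≠ 0 := by
      rintro rfl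
      exact hf0 (by rw [hgh, mul_zero])
    have hab : g.totalDegree + h.totalDegree = e := by
      rw [← totalDegree_mul_of_isDomain hg0 hh0, ← hgh, hte]
    have h5 : F = hom g.totalDegree g * hom h.totalDegree h := by
      rw [← hom_mul le_rfl le_rfl, hab, ← hgh, hFe]
    rcases hF.isUnit_or_isUnit h5 with hu | hu
    · left
      have := hu.map deh
      rwa [deh_hom] at this
    · right
      have := hu.map deh
      rwa [deh_hom] at this

end Pool.MP_70e04f_ag.Cre

end

/-! ### from `Lib_MP_70e04f_cre.HomS` -/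

section

/-!
# The alternative in homogeneous coordinates (piece CRHS)

PAPER PROOF. Dimension: `deh` and `hom d` give inverse bijections between `V d m p` and
`W d m (hat p)` (`hom_isHomogeneous`, `deh_hom`, `hom_deh`, `totalDegree_deh`, `hom_mem`,
`deh_mem`; `mem_restrictTotalDegree`, `mem_homogeneousSubmodule`), so the two spaces have the same
dimension (`LinearEquiv.finrank_eq`, or `Submodule.map` with an injective restriction).

The second alternative. `HS_of_S`: given `f`, `e`, `a` take `F = hom e f` (`hom_irreducible`,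
`hom_isHomogeneous`); `F ∈ mi (hat p) ^ k ↔ f ∈ mi p ^ k` by `hom_mem`, `deh_mem`, `deh_hom`.
`S_of_HS`: given `F`, `e`, `a`; `X 2` does not divide `F`: otherwise, as `F` is irreducible,
`F = C c * X 2` (`c ≠ 0`), `e = 1` (`IsHomogeneous.inj_right`) and
`eval (hat (p i)) F = c ≠ 0`, so `F ∉ mi (hat (p i))` and `a i = 0` for all `i`, in contradiction to
`e ^ 2 - ∑ a i ^ 2 = -1`. So `f = deh F` is as required (`deh_irreducible`, `hom_deh`).
-/

namespace Pool.MP_70e04f_ag.Cre

open MvPolynomial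

theorem CRHS_mem_W {n d : ℕ} {m : Fin n → ℕ} {q : Fin n → Fin 3 → ℂ} {F : R3} :
    F ∈ W d m q ↔ F.IsHomogeneous d ∧ ∀ i, F ∈ mi (q i) ^ m i := by
  rw [W, Submodule.mem_inf, Submodule.mem_iInf, mem_homogeneousSubmodule]
  rfl

theorem CRHS_mem_V {n d : ℕ} {m : Fin n → ℕ} {p : Fin n → Fin 2 → ℂ} {f : R2} :
    f ∈ V d m p ↔ f.totalDegree ≤ d ∧ ∀ i, f ∈ mi (p i) ^ m i := by
  rw [V, Submodule.mem_inf, Submodule.mem_iInf, mem_restrictTotalDegree]
  rfl

theorem CRHS_hom_mem_iff {e : ℕ} {f : R2} (hf : f.totalDegree ≤ e) {p : Fin 2 → ℂ} {j : ℕ} :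
    hom e f ∈ mi (hat p) ^ j ↔ f ∈ mi p ^ j := by
  constructor
  · intro h
    have h1 := deh_mem h
    rwa [deh_hom] at h1
  · exact hom_mem hf

theorem CRHS_deh_mem_iff {e : ℕ} {F : R3} (hF : F.IsHomogeneous e) {p : Fin 2 → ℂ} {j : ℕ} :
    deh F ∈ mi p ^ j ↔ F ∈ mi (hat p) ^ j := by
  rw [← CRHS_hom_mem_iff (totalDegree_deh hF), hom_deh hF]

theorem finrank_W_hat {n : ℕ} (d : ℕ) (m : Fin n → ℕ) (p : Fin n → Fin 2 → ℂ) :
    Module.finrank ℂ ↥(W d m (fun i => hat (p i))) = Module.finrank ℂ ↥(V d m p) := by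
  have hinj : Function.Injective (hom d) := Function.LeftInverse.injective (deh_hom d)
  have e1 : W d m (fun i => hat (p i)) = (V d m p).map (hom d) := by
    ext G
    rw [Submodule.mem_map, CRHS_mem_W]
    constructor
    · rintro ⟨h1, h2⟩
      exact ⟨deh G, CRHS_mem_V.mpr ⟨totalDegree_deh h1, fun i => deh_mem (h2 i)⟩, hom_deh h1⟩
    · rintro ⟨f, hf, rfl⟩
      obtain ⟨h1, h2⟩ := CRHS_mem_V.mp hf
      exact ⟨hom_isHomogeneous h1, fun i => hom_mem h1 (h2 i)⟩
  rw [e1]
  exact (LinearEquiv.finrank_eq (Submodule.equivMapOfInjective (hom d) hinj (V d m p))).symm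

theorem HS_of_S {n d : ℕ} {m : Fin n → ℕ} {p : Fin n → Fin 2 → ℂ} (h : S d m p) :
    HS d m (fun i => hat (p i)) := by
  rcases h with h | ⟨f, e, a, hf, he, ha, hneg⟩
  · left
    rw [finrank_W_hat]
    exact h
  · right
    refine ⟨hom e f, e, a, hom_irreducible hf he, hom_isHomogeneous he.le, fun i => ?_, hneg⟩
    rw [CRHS_hom_mem_iff he.le, CRHS_hom_mem_iff he.le]
    exact ha i

theorem CRHS_not_dvd {n d : ℕ} {m a : Fin n → ℕ} {p : Fin n → Fin 2 → ℂ} {F : R3} {e : ℕ}
    (hF : Irreducible F) (he : F.IsHomogeneous e)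
    (ha : ∀ i, F ∈ mi (hat (p i)) ^ a i) (hneg : Neg d m e a) : ¬ (X 2 : R3) ∣ F := by
  rintro ⟨K, hK⟩
  have h2 : ¬ IsUnit (X 2 : R3) := (MvPolynomial.X_prime (σ := Fin 3) (R := ℂ) (i := 2)).not_isUnit
  have hKu : IsUnit K := (hF.isUnit_or_isUnit hK).resolve_left h2
  obtain ⟨c, hc, rfl⟩ := MvPolynomial.isUnit_iff_eq_C_of_isReduced.mp hKu
  have hc0 : c ≠ 0 := hc.ne_zero
  have h1 : F.IsHomogeneous 1 := by
    rw [hK, mul_comm]
    exact isHomogeneous_C_mul_X c 2
  have he1 : e = 1 := IsHomogeneous.inj_right he h1 hF.ne_zero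
  have ha0 : ∀ i, a i = 0 := by
    intro i
    by_contra hai
    have h3 : F ∈ mi (hat (p i)) := by
      have h4 := Ideal.pow_le_pow_right (I := mi (hat (p i))) (Nat.one_le_iff_ne_zero.mpr hai)
        (ha i)
      rwa [pow_one] at h4
    have h5 : MvPolynomial.eval (hat (p i)) F = 0 := h3
    rw [hK, map_mul, eval_X, eval_C] at h5
    have h6 : hat (p i) 2 = 1 := rfl
    rw [h6, one_mul] at h5
    exact hc0 h5
  have h7 := hneg.1
  rw [he1] at h7
  have h8 : ∑ i, (a i : ℤ) ^ 2 = 0 := Finset.sum_eq_zero fun i _ => by rw [ha0 i]; norm_num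
  rw [h8] at h7
  norm_num at h7

theorem S_of_HS {n d : ℕ} {m : Fin n → ℕ} {p : Fin n → Fin 2 → ℂ}
    (h : HS d m (fun i => hat (p i))) : S d m p := by
  rcases h with h | ⟨F, e, a, hF, he, ha, hneg⟩
  · left
    rw [finrank_W_hat] at h
    exact h
  · right
    obtain ⟨h1, h2⟩ := deh_irreducible hF he (CRHS_not_dvd hF he (fun i => (ha i).1) hneg)
    refine ⟨deh F, e, a, h1, h2, fun i => ?_, hneg⟩
    rw [CRHS_deh_mem_iff he, CRHS_deh_mem_iff he]
    exact ha i

end Pool.MP_70e04f_ag.Cre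

end

/-! ### from `Lib_MP_70e04f_cre.Lin` -/

section

/-!
# Linear changes of coordinates (piece CRLIN)

PAPER PROOF. `HS.smul`: by `mem_mi_smul` (with `c` and with `c⁻¹`; `c⁻¹ • (c • q) = q`) a form is in
`mi (q i) ^ k` if and only if it is in `mi (c i • q i) ^ k`; so `W d m q = W d m (c • q)` and the
second alternative is the same.

`eval_lin`: both sides are algebra homomorphisms in `F` (`MvPolynomial.aeval`, `eval₂Hom` ext,
`MvPolynomial.induction_on`). `lin_comp`: ext on variables. `HS.mat`: let `B = A⁻¹`; `lin A` and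
`lin B` are inverse algebra homomorphisms (`Matrix.mul_nonsing_inv`, `lin_comp`, `lin_one`), they
preserve homogeneity (`IsHomogeneous.aeval` with linear forms), and
`F ∈ mi (q i) ^ k → lin B F ∈ mi (A.mulVec (q i)) ^ k` by `mem_pow_map`, as
`eval (A q) (lin B F) = F (B A q) = F (q)`; conversely
`G ∈ mi (A.mulVec (q i)) ^ k → lin A G ∈ mi (q i) ^ k`. So `lin B` gives an isomorphism
`W d m q ≃ W d m (A q)` and transports the second alternative (an algebra equivalence preserves
irreducible elements, `MulEquiv.irreducible_iff`).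
-/

namespace Pool.MP_70e04f_ag.Cre

open MvPolynomial

theorem eval_lin (A : Matrix (Fin 3) (Fin 3) ℂ) (F : R3) (x : Fin 3 → ℂ) :
    MvPolynomial.eval x (lin A F) = MvPolynomial.eval (A.mulVec x) F := by
  induction F using MvPolynomial.induction_on with
  | C c => rw [lin, aeval_C, MvPolynomial.algebraMap_eq, eval_C, eval_C]
  | add F G hF hG => rw [map_add, map_add, map_add, hF, hG]
  | mul_X F i hF =>
    rw [map_mul, map_mul, map_mul, hF, eval_X]
    congr 1
    rw [lin, aeval_X, map_sum]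
    show _ = ∑ j, A i j * x j
    refine Finset.sum_congr rfl fun j _ => ?_
    rw [map_mul, eval_C, eval_X]

theorem CRLIN_mem_W {n d : ℕ} {m : Fin n → ℕ} {q : Fin n → Fin 3 → ℂ} {F : R3} :
    F ∈ W d m q ↔ F.IsHomogeneous d ∧ ∀ i, F ∈ mi (q i) ^ m i := by
  rw [W, Submodule.mem_inf, Submodule.mem_iInf, mem_homogeneousSubmodule]
  rfl

/-- The alternative depends only on the ideals. -/
theorem CRLIN_transfer {n d : ℕ} {m : Fin n → ℕ} {q q' : Fin n → Fin 3 → ℂ}
    (φ : R3 ≃ₐ[ℂ] R3) (h1 : ∀ F : R3, ∀ e, (φ F).IsHomogeneous e ↔ F.IsHomogeneous e)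
    (h2 : ∀ F : R3, ∀ e, F.IsHomogeneous e → ∀ i j, φ F ∈ mi (q' i) ^ j ↔ F ∈ mi (q i) ^ j)
    (h : HS d m q) : HS d m q' := by
  rcases h with h | ⟨F, e, a, hF, he, ha, hneg⟩
  · left
    have e1 : W d m q' = (W d m q).map (φ.toLinearEquiv : R3 →ₗ[ℂ] R3) := by
      ext G
      rw [Submodule.mem_map, CRLIN_mem_W]
      constructor
      · rintro ⟨hG, hG'⟩
        refine ⟨φ.symm G, ?_, φ.apply_symm_apply G⟩
        have h3 : (φ.symm G).IsHomogeneous d := by
          rw [← h1, φ.apply_symm_apply]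
          exact hG
        refine CRLIN_mem_W.mpr ⟨h3, fun i => ?_⟩
        rw [← h2 _ d h3, φ.apply_symm_apply]
        exact hG' i
      · rintro ⟨F, hF, rfl⟩
        obtain ⟨hF1, hF2⟩ := CRLIN_mem_W.mp hF
        exact ⟨(h1 F d).mpr hF1, fun i => (h2 F d hF1 i _).mpr (hF2 i)⟩
    rw [e1, LinearEquiv.finrank_map_eq]
    exact h
  · right
    refine ⟨φ F, e, a, (MulEquiv.irreducible_iff (φ : R3 ≃* R3)).mpr hF, (h1 F e).mpr he,
      fun i => ⟨(h2 F e he i _).mpr (ha i).1, fun h3 => (ha i).2 ((h2 F e he i _).mp h3)⟩, hneg⟩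

theorem HS.smul {n d : ℕ} {m : Fin n → ℕ} {q : Fin n → Fin 3 → ℂ} (c : Fin n → ℂ)
    (hc : ∀ i, c i ≠ 0) (h : HS d m q) : HS d m (fun i => c i • q i) := by
  refine CRLIN_transfer AlgEquiv.refl (fun F e => Iff.rfl) (fun F e he i j => ?_) h
  show F ∈ mi (c i • q i) ^ j ↔ F ∈ mi (q i) ^ j
  constructor
  · intro h1
    have h2 := mem_mi_smul (inv_ne_zero (hc i)) he h1
    rwa [smul_smul, inv_mul_cancel₀ (hc i), one_smul] at h2
  · exact mem_mi_smul (hc i) he

theorem CRLIN_hom (A : Matrix (Fin 3) (Fin 3) ℂ) {F : R3} {e : ℕ} (hF : F.IsHomogeneous e) :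
    (lin A F).IsHomogeneous e := by
  have h := IsHomogeneous.aeval hF (fun i => ∑ j, C (A i j) * X j : Fin 3 → R3) (n := 1)
    (fun i => IsHomogeneous.sum _ _ _ fun j _ => isHomogeneous_C_mul_X _ _)
  rw [one_mul] at h
  exact h

theorem CRLIN_lin_lin {A B : Matrix (Fin 3) (Fin 3) ℂ} (h : B * A = 1) (F : R3) :
    lin A (lin B F) = F := by
  refine MvPolynomial.funext fun x => ?_
  rw [eval_lin, eval_lin, Matrix.mulVec_mulVec, h, Matrix.one_mulVec]

theorem HS.mat {n d : ℕ} {m : Fin n → ℕ} {q : Fin n → Fin 3 → ℂ} (A : Matrix (Fin 3) (Fin 3) ℂ)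
    (hA : A.det ≠ 0) (h : HS d m q) : HS d m (fun i => A.mulVec (q i)) := by
  have hu : IsUnit A.det := isUnit_iff_ne_zero.mpr hA
  have h1 : A * A⁻¹ = 1 := Matrix.mul_nonsing_inv A hu
  have h2 : A⁻¹ * A = 1 := Matrix.nonsing_inv_mul A hu
  let φ : R3 ≃ₐ[ℂ] R3 := AlgEquiv.ofAlgHom (lin A⁻¹) (lin A)
    (AlgHom.ext fun F => CRLIN_lin_lin h1 F) (AlgHom.ext fun F => CRLIN_lin_lin h2 F)
  have hφ : ∀ F, φ F = lin A⁻¹ F := fun F => rfl
  refine CRLIN_transfer φ (fun F e => ⟨fun h3 => ?_, fun h3 => ?_⟩)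
    (fun F e he i j => ⟨fun h3 => ?_, fun h3 => ?_⟩) h
  · have h4 := CRLIN_hom A h3
    rwa [hφ, CRLIN_lin_lin h2] at h4
  · rw [hφ]
    exact CRLIN_hom _ h3
  · have h4 := mem_pow_map (q' := q i) (lin A) (fun G => eval_lin A G (q i)) h3
    rwa [hφ, CRLIN_lin_lin h2] at h4
  · rw [hφ]
    refine mem_pow_map (lin A⁻¹) (fun G => ?_) h3
    rw [eval_lin, Matrix.mulVec_mulVec, h2, Matrix.one_mulVec]

end Pool.MP_70e04f_ag.Cre

end

/-! ### from `Lib_MP_70e04f_cre.Rev` -/

section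

/-!
# Forms and the standard quadratic transformation (piece CRREV)

PAPER PROOF. All statements about `rev` are checked on monomials (`rev_monomial`; write
`F = ∑ s ∈ F.support, monomial s (coeff s F)`). `coeff_rev`: `s ↦ ν - s` is an involution of the
`s ≤ ν`, so only the monomial `ν - t` of `F` contributes to the coefficient `t`, `t ≤ ν`; and
all exponents of `rev ν F` are `≤ ν`. `sub_mul`: for a monomial `s ≤ ν` of degree `d`,
`sub (X ^ s) = X 0 ^ (s 1 + s 2) * X 1 ^ (s 0 + s 2) * X 2 ^ (s 0 + s 1)` and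
`s 1 + s 2 = d - s 0`, so both sides are the monomial with exponents `d - s j + ν j`.

`rev_mem` (for `x` with no zero coordinate and `F ∈ mi (sg x) ^ k`): `sub F ∈ mi x ^ k` by
`mem_pow_map` and `eval_sub`, so `(X 0 * X 1 * X 2) ^ d * rev ν F = sub F * monomial ν 1` is in
`mi x ^ k`, and `mem_pow_of_mul_mem` gives `rev ν F ∈ mi x ^ k`.
`rev_mem'` (for `F ∈ mi x ^ k`): `sg (sg x) = (x 0 * x 1 * x 2) • x`, so by `mem_mi_smul`
`F ∈ mi (sg (sg x)) ^ k`, and `rev_mem` for `sg x` (which has no zero coordinate) gives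
`rev ν F ∈ mi (sg x) ^ k`.
-/

namespace Pool.MP_70e04f_ag.Cre

open MvPolynomial

private theorem rev_eq_sum (ν : Fin 3 →₀ ℕ) (F : R3) :
    rev ν F = ∑ s ∈ F.support, monomial (ν - s) (coeff s F) := by
  conv_lhs => rw [F.as_sum]
  rw [map_sum]
  exact Finset.sum_congr rfl fun s _ => rev_monomial ν s _

theorem coeff_rev {ν : Fin 3 →₀ ℕ} {F : R3} (hν : ∀ s ∈ F.support, s ≤ ν) (t : Fin 3 →₀ ℕ)
    (ht : t ≤ ν) : coeff t (rev ν F) = coeff (ν - t) F := by
  classical
  rw [rev_eq_sum, coeff_sum]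
  simp only [coeff_monomial]
  have key : ∀ s ∈ F.support, (if ν - s = t then coeff s F else 0) =
      if s = ν - t then coeff s F else 0 := by
    intro s hs
    have hsν := hν s hs
    refine if_congr ⟨fun h => ?_, fun h => ?_⟩ rfl rfl
    · rw [← h, tsub_tsub_cancel_of_le hsν]
    · rw [h, tsub_tsub_cancel_of_le ht]
  rw [Finset.sum_congr rfl key, Finset.sum_ite_eq']
  split_ifs with h
  · rfl
  · exact (notMem_support_iff.mp h).symm

theorem support_rev_le {ν : Fin 3 →₀ ℕ} {F : R3} : ∀ s ∈ (rev ν F).support, s ≤ ν := by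
  classical
  intro s hs
  rw [rev_eq_sum] at hs
  obtain ⟨t, -, ht⟩ := Finset.mem_biUnion.mp (support_sum hs)
  have := support_monomial_subset ht
  rw [Finset.mem_singleton] at this
  rw [this]
  exact tsub_le_self

theorem rev_rev {ν : Fin 3 →₀ ℕ} {F : R3} (hν : ∀ s ∈ F.support, s ≤ ν) :
    rev ν (rev ν F) = F := by
  ext t
  by_cases ht : t ≤ ν
  · rw [coeff_rev support_rev_le t ht, coeff_rev hν _ tsub_le_self,
      tsub_tsub_cancel_of_le ht]
  · rw [notMem_support_iff.mp fun h => ht (support_rev_le t h),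
      notMem_support_iff.mp fun h => ht (hν t h)]

private theorem deg3 (s : Fin 3 →₀ ℕ) : s.degree = s 0 + s 1 + s 2 := by
  rw [Finsupp.degree_eq_sum, Fin.sum_univ_three]

private theorem deg_of_mem {d : ℕ} {F : R3} (hF : F.IsHomogeneous d) {s : Fin 3 →₀ ℕ}
    (hs : s ∈ F.support) : s 0 + s 1 + s 2 = d := by
  rw [← deg3]
  by_contra h
  exact mem_support_iff.mp hs (hF.coeff_eq_zero h)

theorem rev_isHomogeneous {ν : Fin 3 →₀ ℕ} {d d' : ℕ} (h : d + d' = ν 0 + ν 1 + ν 2) {F : R3}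
    (hF : F.IsHomogeneous d) (hν : ∀ s ∈ F.support, s ≤ ν) : (rev ν F).IsHomogeneous d' := by
  rw [rev_eq_sum]
  refine IsHomogeneous.sum _ _ _ fun s hs => isHomogeneous_monomial _ ?_
  have h1 := deg_of_mem hF hs
  have h2 := hν s hs
  have h20 := h2 0
  have h21 := h2 1
  have h22 := h2 2
  rw [deg3]
  simp only [Finsupp.tsub_apply]
  omega

theorem eval_sub (F : R3) (x : Fin 3 → ℂ) :
    MvPolynomial.eval x (sub F) = MvPolynomial.eval (sg x) F := by
  rw [sub, ← coe_aeval_eq_eval, ← coe_aeval_eq_eval]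
  change (aeval x) ((aeval ![X 1 * X 2, X 0 * X 2, X 0 * X 1]) F) = _
  rw [← AlgHom.comp_apply, comp_aeval]
  change _ = aeval (sg x) F
  congr 2
  funext i
  fin_cases i <;> simp [sg]

private theorem mon3 (s : Fin 3 →₀ ℕ) (c : ℂ) : (monomial s c : R3) =
    C c * (X 0 ^ s 0 * X 1 ^ s 1 * X 2 ^ s 2) := by
  rw [monomial_eq, Finsupp.prod_fintype _ _ (fun i => pow_zero _), Fin.prod_univ_three]

theorem sub_mul {ν : Fin 3 →₀ ℕ} {d : ℕ} {F : R3} (hF : F.IsHomogeneous d)
    (hν : ∀ s ∈ F.support, s ≤ ν) :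
    sub F * monomial ν 1 = (X 0 * X 1 * X 2) ^ d * rev ν F := by
  rw [rev_eq_sum]
  conv_lhs => rw [F.as_sum]
  rw [map_sum, Finset.sum_mul, Finset.mul_sum]
  refine Finset.sum_congr rfl fun s hs => ?_
  have h1 := deg_of_mem hF hs
  have h2 := hν s hs
  have h20 := h2 0
  have h21 := h2 1
  have h22 := h2 2
  rw [mon3, mon3, mon3, map_mul, map_mul, map_mul, map_pow, map_pow, map_pow]
  have hC : sub (C (coeff s F)) = C (coeff s F) := by
    rw [sub]; exact aeval_C _ _
  have hX0 : sub (X 0) = X 1 * X 2 := by rw [sub, aeval_X]; rfl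
  have hX1 : sub (X 1) = X 0 * X 2 := by rw [sub, aeval_X]; rfl
  have hX2 : sub (X 2) = X 0 * X 1 := by rw [sub, aeval_X]; rfl
  rw [hC, hX0, hX1, hX2]
  simp only [Finsupp.tsub_apply, map_one, one_mul]
  obtain ⟨a, ha⟩ := Nat.exists_eq_add_of_le h20
  obtain ⟨b, hb⟩ := Nat.exists_eq_add_of_le h21
  obtain ⟨c, hc⟩ := Nat.exists_eq_add_of_le h22
  rw [ha, hb, hc, Nat.add_sub_cancel_left, Nat.add_sub_cancel_left, Nat.add_sub_cancel_left,
    ← h1]
  ring

theorem rev_mem {ν : Fin 3 →₀ ℕ} {d : ℕ} {F : R3} (hF : F.IsHomogeneous d)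
    (hν : ∀ s ∈ F.support, s ≤ ν) {x : Fin 3 → ℂ} (hx : ∀ c, x c ≠ 0) {k : ℕ}
    (h : F ∈ mi (sg x) ^ k) : rev ν F ∈ mi x ^ k := by
  have h1 : sub F ∈ mi x ^ k := mem_pow_map sub (fun G => eval_sub G x) h
  refine mem_pow_of_mul_mem (A := (X 0 * X 1 * X 2) ^ d) ?_ ?_
  · simp only [map_pow, map_mul, eval_X]
    exact pow_ne_zero _ (mul_ne_zero (mul_ne_zero (hx 0) (hx 1)) (hx 2))
  · rw [← sub_mul hF hν]
    exact Ideal.mul_mem_right _ _ h1

theorem rev_mem' {ν : Fin 3 →₀ ℕ} {d : ℕ} {F : R3} (hF : F.IsHomogeneous d)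
    (hν : ∀ s ∈ F.support, s ≤ ν) {x : Fin 3 → ℂ} (hx : ∀ c, x c ≠ 0) {k : ℕ}
    (h : F ∈ mi x ^ k) : rev ν F ∈ mi (sg x) ^ k := by
  have hs : sg (sg x) = (x 0 * x 1 * x 2) • x := by
    funext i
    fin_cases i <;> simp [sg] <;> ring
  refine rev_mem hF hν (x := sg x) ?_ ?_
  · intro c
    fin_cases c <;> simp [sg, hx]
  · rw [hs]
    exact mem_mi_smul (mul_ne_zero (mul_ne_zero (hx 0) (hx 1)) (hx 2)) hF h

end Pool.MP_70e04f_ag.Cre

end

/-! ### from `Lib_MP_70e04f_cre.RevDim` -/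

section

/-!
# The dimension of a system after a quadratic transformation (piece CRDIM)

PAPER PROOF. Let `ν` be the finitely supported function with `ν j = d - m (ι j)`
(`Finsupp.equivFunOnFinite.symm`); `ν 0 + ν 1 + ν 2 = 3 d - (d + δ) = d + d'`.
(1) `F ∈ W d m q` is homogeneous of degree `d`, and by `mem_mi_single_iff` the conditions at the
points `ι j` say that all exponents of `F` are `≤ ν`. (2) `G ∈ W d' (cm m ι δ) q'` is homogeneous of
degree `d'` and the conditions at the points `ι j` say `s j + (m (ι j) - δ) ≤ d'` for all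
`s ∈ G.support`: if `m (ι j) ≥ δ` this is `s j ≤ ν j`; if `m (ι j) = δ - 1` it is `s j ≤ d'`, which
is always true (as `s j ≤ s 0 + s 1 + s 2 = d'`), and `ν j = d' + 1`; so in all cases it is
equivalent to `s j ≤ ν j`. (3) So `rev ν` maps the one space to the other and back, with inverse
`rev ν` (`rev_rev`, `rev_isHomogeneous`, `support_rev_le`; at the other points `l` use `rev_mem'`
from `q l` to `sg (q l)` and `rev_mem` back). Equal dimensions: `LinearEquiv.finrank_eq`, or two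
inequalities from injective linear maps.
-/

namespace Pool.MP_70e04f_ag.Cre

open MvPolynomial

theorem CRDIM_le {d : ℕ} {F : R3} (hF : F.IsHomogeneous d) {s : Fin 3 →₀ ℕ}
    (hs : s ∈ F.support) (j : Fin 3) : s j ≤ d := by
  have h : s.degree = d := by
    rw [Finsupp.degree_eq_weight_one]
    exact hF (MvPolynomial.mem_support_iff.1 hs)
  have h2 := Finsupp.le_degree j s
  omega

theorem CRDIM_mem {n d : ℕ} {m : Fin n → ℕ} {q : Fin n → Fin 3 → ℂ} {F : R3} :
    F ∈ W d m q ↔ F.IsHomogeneous d ∧ ∀ i, F ∈ mi (q i) ^ m i := by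
  simp [W, mem_homogeneousSubmodule]

theorem CRDIM_mem1 {n d : ℕ} {m : Fin n → ℕ} {ι : Fin 3 → Fin n}
    (hup : ∀ j, m (ι j) ≤ d) {q : Fin n → Fin 3 → ℂ}
    (hq : ∀ j, q (ι j) = Pi.single j 1) {ν : Fin 3 →₀ ℕ} (hν : ∀ j, ν j = d - m (ι j)) {F : R3} :
    F ∈ W d m q ↔ F.IsHomogeneous d ∧ (∀ s ∈ F.support, s ≤ ν) ∧
      ∀ l, l ∉ Finset.univ.image ι → F ∈ mi (q l) ^ m l := by
  rw [CRDIM_mem]
  constructor
  · rintro ⟨h1, h2⟩
    refine ⟨h1, fun s hs => Finsupp.le_def.2 fun j => ?_, fun l _ => h2 l⟩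
    have h3 := h2 (ι j)
    rw [hq j, mem_mi_single_iff h1] at h3
    have := h3 s hs
    rw [hν j]
    omega
  · rintro ⟨h1, h2, h3⟩
    refine ⟨h1, fun i => ?_⟩
    by_cases hi : i ∈ Finset.univ.image ι
    · obtain ⟨j, -, rfl⟩ := Finset.mem_image.1 hi
      rw [hq j, mem_mi_single_iff h1]
      intro s hs
      have h4 := Finsupp.le_def.1 (h2 s hs) j
      rw [hν j] at h4
      have := hup j
      omega
    · exact h3 i hi

theorem CRDIM_mem2 {n d d' δ : ℕ} {m : Fin n → ℕ} {ι : Fin 3 → Fin n} (hd : d' + δ = d)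
    (hlow : ∀ j, δ ≤ m (ι j) + 1) (hup : ∀ j, m (ι j) ≤ d) {q : Fin n → Fin 3 → ℂ}
    (hq : ∀ j, q (ι j) = Pi.single j 1) {ν : Fin 3 →₀ ℕ} (hν : ∀ j, ν j = d - m (ι j)) {F : R3} :
    F ∈ W d' (cm m ι δ) q ↔ F.IsHomogeneous d' ∧ (∀ s ∈ F.support, s ≤ ν) ∧
      ∀ l, l ∉ Finset.univ.image ι → F ∈ mi (q l) ^ m l := by
  rw [CRDIM_mem]
  constructor
  · rintro ⟨h1, h2⟩
    refine ⟨h1, fun s hs => Finsupp.le_def.2 fun j => ?_, fun l hl => ?_⟩
    · have h3 := h2 (ι j)
      rw [hq j, mem_mi_single_iff h1] at h3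
      have h4 := h3 s hs
      have h5 : cm m ι δ (ι j) = m (ι j) - δ := by
        simp [cm]
      rw [h5] at h4
      have h6 := CRDIM_le h1 hs j
      have := hlow j
      have := hup j
      rw [hν j]
      omega
    · have h3 := h2 l
      have h5 : cm m ι δ l = m l := by
        simp only [cm, if_neg hl]
      rwa [h5] at h3
  · rintro ⟨h1, h2, h3⟩
    refine ⟨h1, fun i => ?_⟩
    by_cases hi : i ∈ Finset.univ.image ι
    · have h5 : cm m ι δ i = m i - δ := by
        simp only [cm, if_pos hi]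
      rw [h5]
      obtain ⟨j, -, rfl⟩ := Finset.mem_image.1 hi
      rw [hq j, mem_mi_single_iff h1]
      intro s hs
      have h4 := Finsupp.le_def.1 (h2 s hs) j
      rw [hν j] at h4
      have h6 := CRDIM_le h1 hs j
      have := hup j
      have := hlow j
      omega
    · have h5 : cm m ι δ i = m i := by
        simp only [cm, if_neg hi]
      rw [h5]
      exact h3 i hi

theorem finrank_cremona {n d d' δ : ℕ} {m : Fin n → ℕ} {ι : Fin 3 → Fin n}
    (hι : Function.Injective ι) (hd : d' + δ = d) (hsum : ∑ j, m (ι j) = d + δ)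
    (hlow : ∀ j, δ ≤ m (ι j) + 1) (hup : ∀ j, m (ι j) ≤ d) {q q' : Fin n → Fin 3 → ℂ}
    (hq : ∀ j, q (ι j) = Pi.single j 1) (hq' : ∀ j, q' (ι j) = Pi.single j 1)
    (hx : ∀ l, l ∉ Finset.univ.image ι → (∀ c, q l c ≠ 0) ∧ q' l = sg (q l)) :
    Module.finrank ℂ ↥(W d' (cm m ι δ) q') = Module.finrank ℂ ↥(W d m q) := by
  classical
  set ν : Fin 3 →₀ ℕ := Finsupp.equivFunOnFinite.symm (fun j => d - m (ι j)) with hνdef
  have hν : ∀ j, ν j = d - m (ι j) := fun j => rfl
  have hsum' : d + d' = ν 0 + ν 1 + ν 2 := by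
    rw [Fin.sum_univ_three] at hsum
    rw [hν, hν, hν]
    have := hup 0
    have := hup 1
    have := hup 2
    omega
  have h12 : ∀ F ∈ W d' (cm m ι δ) q', rev ν F ∈ W d m q := by
    intro F hF
    rw [CRDIM_mem2 hd hlow hup hq' hν] at hF
    rw [CRDIM_mem1 hup hq hν]
    obtain ⟨h1, h2, h3⟩ := hF
    refine ⟨rev_isHomogeneous (by omega) h1 h2, support_rev_le, fun l hl => ?_⟩
    refine rev_mem h1 h2 (hx l hl).1 ?_
    rw [← (hx l hl).2]
    exact h3 l hl
  have h21 : ∀ F ∈ W d m q, rev ν F ∈ W d' (cm m ι δ) q' := by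
    intro F hF
    rw [CRDIM_mem1 hup hq hν] at hF
    rw [CRDIM_mem2 hd hlow hup hq' hν]
    obtain ⟨h1, h2, h3⟩ := hF
    refine ⟨rev_isHomogeneous (by omega) h1 h2, support_rev_le, fun l hl => ?_⟩
    rw [(hx l hl).2]
    exact rev_mem' h1 h2 (hx l hl).1 (h3 l hl)
  refine LinearEquiv.finrank_eq (LinearEquiv.ofLinearMap ((rev ν).restrict h12)
    ((rev ν).restrict h21) ?_ ?_)
  · refine LinearMap.ext fun F => Subtype.ext ?_
    have hF := (CRDIM_mem1 hup hq hν).1 F.2
    exact rev_rev hF.2.1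
  · refine LinearMap.ext fun F => Subtype.ext ?_
    have hF := (CRDIM_mem2 hd hlow hup hq' hν).1 F.2
    exact rev_rev hF.2.1

end Pool.MP_70e04f_ag.Cre

end

/-! ### from `Lib_MP_70e04f_cre.RevIrr` -/

section

/-!
# The quadratic transformation of an irreducible form (piece CRRI)

PAPER PROOF. Let `G` be irreducible of degree `d`, not divisible by a variable, all exponents
`≤ ν`, and for each `j` some monomial of `G` has exponent `ν j` of `X j`. Let `F = rev ν G`.

(1) No variable `X j` divides `F`: take `s ∈ G.support` with `s j = ν j`; then `ν - s` is in the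
support of `F` (`coeff_rev`, `ν - (ν - s) = s`) and its exponent at `j` is `0`
(`MvPolynomial.X_dvd_iff_modMonomial_eq_zero`, or: `X j ∣ F` means that all exponents at `j` are
positive).

(2) `F` is not zero (`rev_rev`) and not a unit: if `F = C c` then `G = rev ν F = monomial ν c`
(`rev_rev`), a monomial; as no variable divides `G`, `ν = 0` and `G = C c`, a unit, contradiction.

(3) Let `F = A * B`, `F` is homogeneous of degree `d'`. By `sub_mul` for `F` (and `rev_rev`)
`sub A * sub B * monomial ν 1 = (X 0 * X 1 * X 2) ^ d' * G`. `G` is prime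
(`Irreducible.prime`, `MvPolynomial` over a field is a UFD) and does not divide the monomial
(`G` would be a divisor of a monomial, so a monomial, see (4), so a constant by the assumption on
the variables), so `G ∣ sub A` or `G ∣ sub B`, say `sub A = G * K`. Cancel `G`:
`K * sub B * monomial ν 1 = (X 0 * X 1 * X 2) ^ d'` is a monomial, so by (4) `sub B` is a monomial
`monomial t c`, `c ≠ 0`.

(4) A divisor `B` of a monomial `monomial μ c`, `c ≠ 0`, is a monomial: induction on the degree of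
`μ`: if `K * B = monomial μ c` and `μ j > 0` then `X j` (prime, `MvPolynomial.prime_X`) divides `K`
or `B`; cancel it. If `μ = 0` then `B` is a unit, a constant.

(5) `B` is a monomial: `sub` maps the monomial `s` to the monomial with exponents
`(s 1 + s 2, s 0 + s 2, s 0 + s 1)`, this map of exponents is injective, so the coefficients of
`sub B` are those of `B`, and if `sub B` has only one monomial then `B` too.

(6) `B = monomial b c` and `B ∣ F`, so `b = 0` by (1), and `B = C c` is a unit.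
-/

namespace Pool.MP_70e04f_ag.Cre

open MvPolynomial

/-- A divisor of a monomial is a monomial. -/
theorem eq_monomial_of_mul_eq {K B : R3} {μ : Fin 3 →₀ ℕ} {c : ℂ} (hc : c ≠ 0)
    (h : K * B = monomial μ c) : ∃ b : Fin 3 →₀ ℕ, ∃ u : ℂ, u ≠ 0 ∧ B = monomial b u := by
  have h1 : B ∣ monomial μ c := ⟨K, by rw [← h, mul_comm]⟩
  rw [dvd_monomial_iff_exists hc] at h1
  obtain ⟨b, u, -, hu, hB⟩ := h1
  refine ⟨b, u, ?_, hB⟩
  rintro rfl
  exact hc (zero_dvd_iff.1 hu)

namespace RevIrr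

/-- The exponents of the transform of a monomial. -/
noncomputable def ph (s : Fin 3 →₀ ℕ) : Fin 3 →₀ ℕ :=
  Finsupp.single 0 (s 1 + s 2) + Finsupp.single 1 (s 0 + s 2) + Finsupp.single 2 (s 0 + s 1)

theorem ph_apply (s : Fin 3 →₀ ℕ) :
    ph s 0 = s 1 + s 2 ∧ ph s 1 = s 0 + s 2 ∧ ph s 2 = s 0 + s 1 := by
  refine ⟨?_, ?_, ?_⟩ <;> simp [ph]

theorem ph_inj {s t : Fin 3 →₀ ℕ} (h : ph s = ph t) : s = t := by
  obtain ⟨a1, a2, a3⟩ := ph_apply s
  obtain ⟨b1, b2, b3⟩ := ph_apply t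
  rw [h] at a1 a2 a3
  ext j
  fin_cases j <;> simp only [Fin.zero_eta, Fin.mk_one, Fin.reduceFinMk] <;> omega

theorem sub_monomial (s : Fin 3 →₀ ℕ) (c : ℂ) :
    sub (monomial s c) = monomial (ph s) c := by
  unfold sub
  rw [aeval_monomial, Finsupp.prod_fintype _ _ (fun i => pow_zero _)]
  simp only [Fin.prod_univ_three, Matrix.cons_val_zero, Matrix.cons_val_one, Matrix.cons_val_two,
    Matrix.head_cons, Matrix.tail_cons, algebraMap_eq]
  have h1 : (monomial (ph s) c : R3) = C c * (X 0 ^ (s 1 + s 2) * X 1 ^ (s 0 + s 2) *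
      X 2 ^ (s 0 + s 1)) := by
    simp only [X_pow_eq_monomial, monomial_mul, C_mul_monomial, mul_one]
    rfl
  rw [h1]
  ring

theorem coeff_sub (B : R3) (t : Fin 3 →₀ ℕ) : coeff (ph t) (sub B) = coeff t B := by
  classical
  induction B using MvPolynomial.induction_on' with
  | monomial u a =>
    rw [sub_monomial, coeff_monomial, coeff_monomial]
    by_cases h : u = t
    · rw [if_pos h, if_pos (by rw [h])]
    · rw [if_neg h, if_neg (fun h' => h (ph_inj h'))]
  | add p q hp hq => rw [map_add, coeff_add, coeff_add, hp, hq]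

theorem monomial_of_sub {B : R3} {t : Fin 3 →₀ ℕ} {c : ℂ} (hc : c ≠ 0)
    (h : sub B = monomial t c) : ∃ b : Fin 3 →₀ ℕ, ∃ u : ℂ, u ≠ 0 ∧ B = monomial b u := by
  classical
  have hB : B ≠ 0 := by
    rintro rfl
    rw [map_zero] at h
    exact hc (monomial_eq_zero.1 h.symm)
  obtain ⟨b, hb⟩ := Finset.nonempty_of_ne_empty (fun h0 => hB (support_eq_empty.1 h0))
  rw [mem_support_iff] at hb
  have key : ∀ s, coeff s B ≠ 0 → ph s = t := by
    intro s hs
    rw [← coeff_sub, h, coeff_monomial] at hs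
    by_contra hne
    exact hs (if_neg (fun h' => hne h'.symm))
  refine ⟨b, coeff b B, hb, ?_⟩
  ext s
  rw [coeff_monomial]
  by_cases h1 : b = s
  · rw [if_pos h1, h1]
  · rw [if_neg h1]
    by_contra hs
    exact h1 (ph_inj ((key b hb).trans (key s hs).symm))

theorem not_X_dvd {F : R3} {j : Fin 3} (h : ∃ s ∈ F.support, s j = 0) : ¬ (X j : R3) ∣ F := by
  classical
  rintro ⟨q, hq⟩
  obtain ⟨s, hs, hj⟩ := h
  rw [mem_support_iff, hq, coeff_X_mul', if_neg (by simpa using hj)] at hs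
  exact hs rfl

theorem eq_zero_of_not_X_dvd {b : Fin 3 →₀ ℕ} {u : ℂ}
    (h : ∀ j, ¬ (X j : R3) ∣ monomial b u) : b = 0 := by
  ext j
  by_contra hj
  exact h j (X_dvd_monomial.2 (Or.inr hj))

end RevIrr

open RevIrr in
/-- The transform of an irreducible form is irreducible and not divisible by a variable. -/
theorem rev_irreducible {ν : Fin 3 →₀ ℕ} {d d' : ℕ} (h : d + d' = ν 0 + ν 1 + ν 2) {G : R3}
    (hG : Irreducible G) (hd : G.IsHomogeneous d) (hν : ∀ s ∈ G.support, s ≤ ν)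
    (hmax : ∀ j, ∃ s ∈ G.support, s j = ν j) (hX : ∀ j, ¬ (X j : R3) ∣ G) :
    Irreducible (rev ν G) ∧ ∀ j, ∃ s ∈ (rev ν G).support, s j = 0 := by
  have h1 : ∀ j, ∃ s ∈ (rev ν G).support, s j = 0 := by
    intro j
    obtain ⟨s, hs, hj⟩ := hmax j
    refine ⟨ν - s, ?_, ?_⟩
    · rw [mem_support_iff, coeff_rev hν _ tsub_le_self, tsub_tsub_cancel_of_le (hν s hs)]
      exact mem_support_iff.1 hs
    · rw [Finsupp.tsub_apply, hj, Nat.sub_self]
  have h2 : ∀ j, ¬ (X j : R3) ∣ rev ν G := fun j => not_X_dvd (h1 j)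
  have hrr : rev ν (rev ν G) = G := rev_rev hν
  -- `G` does not divide a monomial
  have hGm : ∀ (μ : Fin 3 →₀ ℕ) (c : ℂ), c ≠ 0 → ¬ G ∣ monomial μ c := by
    intro μ c hc hdvd
    rw [dvd_monomial_iff_exists hc] at hdvd
    obtain ⟨b, u, -, hu, hGb⟩ := hdvd
    have hb : b = 0 := eq_zero_of_not_X_dvd (u := u) (by rw [← hGb]; exact hX)
    have hu0 : u ≠ 0 := by
      rintro rfl
      exact hc (zero_dvd_iff.1 hu)
    apply hG.not_isUnit
    rw [hGb, hb, monomial_zero']
    exact (isUnit_iff_ne_zero.2 hu0).map C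
  refine ⟨⟨?_, ?_⟩, h1⟩
  · -- not a unit
    intro hu
    rw [isUnit_iff_eq_C_of_isReduced] at hu
    obtain ⟨c, hc, hF⟩ := hu
    have h3 : G = monomial ν c := by
      rw [← hrr, hF, ← monomial_zero', rev_monomial, tsub_zero]
    exact hGm ν c (IsUnit.ne_zero hc) (by rw [← h3])
  · -- factors
    have hdF : (rev ν G).IsHomogeneous d' := rev_isHomogeneous h hd hν
    have hsm := sub_mul hdF (support_rev_le (ν := ν) (F := G))
    rw [hrr] at hsm
    have hprime : Prime G := hG.prime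
    have hmon : ((X 0 * X 1 * X 2) ^ d' : R3) = monomial
        (d' • (Finsupp.single 0 1 + Finsupp.single 1 1 + Finsupp.single 2 1)) 1 := by
      simp only [X, monomial_mul, monomial_pow, one_mul, one_pow]
    -- one side
    have key : ∀ A B : R3, rev ν G = A * B → G ∣ sub A → IsUnit B := by
      rintro A B hAB ⟨K, hK⟩
      rw [hAB, map_mul, hK] at hsm
      have hG0 : G ≠ 0 := hG.ne_zero
      have h3 : (K * monomial ν 1) * sub B = monomial
          (d' • (Finsupp.single 0 1 + Finsupp.single 1 1 + Finsupp.single 2 1)) 1 := by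
        rw [← hmon]
        apply mul_left_cancel₀ hG0
        linear_combination hsm
      obtain ⟨t, c, hc, hB⟩ := eq_monomial_of_mul_eq one_ne_zero h3
      obtain ⟨b, u, hu, hBm⟩ := monomial_of_sub hc hB
      have hb : b = 0 := by
        apply eq_zero_of_not_X_dvd (u := u)
        intro j hj
        apply h2 j
        rw [hAB, hBm]
        exact Dvd.dvd.mul_left hj _
      rw [hBm, hb, monomial_zero']
      exact (isUnit_iff_ne_zero.2 hu).map C
    intro A B hAB
    have hdvd : G ∣ sub A * sub B * monomial ν 1 := by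
      rw [← map_mul, ← hAB, hsm]
      exact Dvd.intro_left _ rfl
    rcases hprime.dvd_or_dvd hdvd with h3 | h3
    · rcases hprime.dvd_or_dvd h3 with h4 | h4
      · exact Or.inr (key A B hAB h4)
      · exact Or.inl (key B A (by rw [hAB, mul_comm]) h4)
    · exact absurd h3 (hGm ν 1 one_ne_zero)

end Pool.MP_70e04f_ag.Cre

end

/-! ### from `Lib_MP_70e04f_cre.Num` -/

section

/-!
# Numerical lemmas on quadratic transformations (piece CRNUM)

Let `x j = m (ι j)`; the new degree is `d' = d - δ`, the new multiplicities at the three points are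
`x j - δ` (natural subtraction; by `hlow` the integer `x j - δ` is at least `-1`).

PAPER PROOF. Split all sums over `Fin n` into the sum over the image of `ι`
(`Finset.sum_image`, `ι` injective; `Fin.sum_univ_three`) and the rest. Work in the integers.

`dim_cm`: `cm * (cm + 1) = (x j - δ) * (x j - δ + 1)` also if `x j = δ - 1` (both are `0`), and
`∑ j, (x j * (x j + 1) - (x j - δ) * (x j - δ + 1)) = 2 δ (d + δ) + 3 δ - 3 δ ^ 2
= (d + 1) * (d + 2) - (d - δ + 1) * (d - δ + 2)`.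
`sq_cm`: `cm ^ 2 ≤ (x j - δ) ^ 2`, `∑ j, (x j - δ) ^ 2 = ∑ x j ^ 2 - 2 δ d + δ ^ 2`.
`light`: if `a i ≥ 1` let `b` be `a` with `b i = a i - 1`; `∑ b ^ 2 = e ^ 2 + 2 - 2 a i ≤ e ^ 2`, so
by Cauchy-Schwarz `(∑ m b) ^ 2 ≤ (∑ m ^ 2) (∑ b ^ 2) ≤ (d e) ^ 2`, and `∑ m b = ∑ m a` as
`m i = 0`, so `∑ a m ≤ d e`, in contradiction to the third condition of `Neg`.
`neg_cm`: let `b j = a' (ι j)`, `B = ∑ b j`. If `x j = δ - 1` then `cm (ι j) = 0` and `b j = 0` by
`light`, so `cm (ι j) * b j = (x j - δ) * b j` for all `j`. With `e = 2 e' - B`,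
`a (ι j) = e' - B + b j`: `e ^ 2 - ∑ a (ι j) ^ 2 = e' ^ 2 - ∑ b j ^ 2`,
`3 e - ∑ a (ι j) = 3 e' - B`, `d e - ∑ a (ι j) x j = (d - δ) e' - ∑ b j (x j - δ)`.
`not_line`: let `{j0, j1, j2} = {0, 1, 2}`; `a' (ι j1) = a' (ι j2) = 1`, so by `light`
`x j1 ≥ δ` and `x j2 ≥ δ` and `d' - ∑ a' cm = d - δ - (x j1 - δ) - (x j2 - δ) = x j0 ≥ 0`.
-/

namespace Pool.MP_70e04f_ag.Cre

variable {n d d' δ : ℕ} {m : Fin n → ℕ} {ι : Fin 3 → Fin n}

lemma sum_split (hι : Function.Injective ι) (f : Fin n → ℤ) :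
    ∑ i, f i = f (ι 0) + f (ι 1) + f (ι 2) + ∑ i ∈ (Finset.univ.image ι)ᶜ, f i := by
  rw [← Finset.sum_add_sum_compl (Finset.univ.image ι) f,
    Finset.sum_image (fun a _ b _ hab => hι hab), Fin.sum_univ_three]

lemma cm_ι (j : Fin 3) : cm m ι δ (ι j) = m (ι j) - δ :=
  if_pos (Finset.mem_image_of_mem ι (Finset.mem_univ j))

lemma cm_of_notMem {l : Fin n} (h : l ∉ Finset.univ.image ι) : cm m ι δ l = m l := if_neg h

/-- A `(-1)`-class does not pass through a point of multiplicity `0` of a system with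
nonnegative self-intersection which it meets negatively. -/
theorem light {e : ℕ} {a : Fin n → ℕ} (hsq : ∑ i, m i ^ 2 ≤ d ^ 2) (h : Neg d m e a) {i : Fin n}
    (hi : m i = 0) : a i = 0 := by
  by_contra hne
  obtain ⟨h1, -, h3⟩ := h
  obtain ⟨b, hb⟩ : ∃ b : Fin n → ℤ, b = Function.update (fun k => (a k : ℤ)) i ((a i : ℤ) - 1) :=
    ⟨_, rfl⟩
  have hbi : b i = (a i : ℤ) - 1 := by rw [hb]; simp
  have hbk : ∀ k, k ≠ i → b k = (a k : ℤ) := by
    intro k hk
    rw [hb]
    simp [hk]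
  have e1 : ∑ k, b k ^ 2 = ∑ k, (a k : ℤ) ^ 2 + (1 - 2 * (a i : ℤ)) := by
    rw [← Finset.add_sum_erase _ _ (Finset.mem_univ i),
      ← Finset.add_sum_erase (Finset.univ) (fun k => (a k : ℤ) ^ 2) (Finset.mem_univ i), hbi]
    have : ∑ k ∈ Finset.univ.erase i, b k ^ 2 = ∑ k ∈ Finset.univ.erase i, (a k : ℤ) ^ 2 :=
      Finset.sum_congr rfl fun k hk => by rw [hbk k (Finset.ne_of_mem_erase hk)]
    rw [this]
    ring
  have e2 : ∑ k, b k * (m k : ℤ) = ∑ k, (a k : ℤ) * (m k : ℤ) := by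
    refine Finset.sum_congr rfl fun k _ => ?_
    by_cases hk : k = i
    · rw [hk, hi]; simp
    · rw [hbk k hk]
  have hai : (1 : ℤ) ≤ a i := by
    have : 1 ≤ a i := Nat.one_le_iff_ne_zero.2 hne
    exact_mod_cast this
  have e3 : ∑ k, b k ^ 2 ≤ (e : ℤ) ^ 2 := by rw [e1]; linarith
  have hsq' : ∑ k, (m k : ℤ) ^ 2 ≤ (d : ℤ) ^ 2 := by exact_mod_cast hsq
  have cs := Finset.sum_mul_sq_le_sq_mul_sq Finset.univ b (fun k => (m k : ℤ))
  have e4 : (∑ k, b k * (m k : ℤ)) ^ 2 ≤ ((d : ℤ) * e) ^ 2 := by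
    refine cs.trans ?_
    rw [mul_pow, mul_comm ((d : ℤ) ^ 2)]
    exact mul_le_mul e3 hsq' (Finset.sum_nonneg fun k _ => sq_nonneg _) (sq_nonneg _)
  have e5 : ∑ k, b k * (m k : ℤ) ≤ (d : ℤ) * e :=
    (abs_le_of_sq_le_sq' e4 (by positivity)).2
  rw [e2] at e5
  linarith

theorem dim_cm (hι : Function.Injective ι) (hd : d' + δ = d) (hsum : ∑ j, m (ι j) = d + δ)
    (hlow : ∀ j, δ ≤ m (ι j) + 1) (N : ℕ) : Dim d' (cm m ι δ) N ↔ Dim d m N := by
  have key : ∀ j, (cm m ι δ (ι j) : ℤ) * ((cm m ι δ (ι j) : ℤ) + 1) =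
      ((m (ι j) : ℤ) - δ) * ((m (ι j) : ℤ) - δ + 1) := by
    intro j
    rw [cm_ι]
    rcases Nat.lt_or_ge (m (ι j)) δ with h | h
    · have h1 := hlow j
      have h2 : (δ : ℤ) = m (ι j) + 1 := by omega
      have h3 : m (ι j) - δ = 0 := by omega
      rw [h3, h2]
      push_cast
      ring
    · push_cast [Nat.cast_sub h]
      ring
  have hchi : ((d' : ℤ) + 1) * ((d' : ℤ) + 2) -
      ∑ i, (cm m ι δ i : ℤ) * ((cm m ι δ i : ℤ) + 1) =
      ((d : ℤ) + 1) * ((d : ℤ) + 2) - ∑ i, (m i : ℤ) * ((m i : ℤ) + 1) := by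
    rw [sum_split hι, sum_split hι (fun i => (m i : ℤ) * ((m i : ℤ) + 1))]
    have h1 : ∑ i ∈ (Finset.univ.image ι)ᶜ, (cm m ι δ i : ℤ) * ((cm m ι δ i : ℤ) + 1) =
        ∑ i ∈ (Finset.univ.image ι)ᶜ, (m i : ℤ) * ((m i : ℤ) + 1) :=
      Finset.sum_congr rfl fun i hi => by rw [cm_of_notMem (Finset.mem_compl.1 hi)]
    rw [h1, key 0, key 1, key 2]
    rw [Fin.sum_univ_three] at hsum
    have h2 : (m (ι 0) : ℤ) + m (ι 1) + m (ι 2) = d + δ := by exact_mod_cast hsum
    have h3 : (d : ℤ) = d' + δ := by rw [← hd]; push_cast; ring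
    have h4 : (m (ι 2) : ℤ) = d' + 2 * δ - m (ι 0) - m (ι 1) := by linarith
    rw [h4, h3]
    ring
  unfold Dim
  rw [hchi]

theorem sq_cm (hι : Function.Injective ι) (hd : d' + δ = d) (hsum : ∑ j, m (ι j) = d + δ)
    (hlow : ∀ j, δ ≤ m (ι j) + 1) {c : ℕ} (hsq : ∑ i, m i ^ 2 + c ≤ d ^ 2) :
    ∑ i, cm m ι δ i ^ 2 + c ≤ d' ^ 2 := by
  have key : ∀ j, (cm m ι δ (ι j) : ℤ) ^ 2 ≤ ((m (ι j) : ℤ) - δ) ^ 2 := by
    intro j
    rw [cm_ι]
    rcases Nat.lt_or_ge (m (ι j)) δ with h | h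
    · have h3 : m (ι j) - δ = 0 := by omega
      rw [h3]
      simpa using sq_nonneg ((m (ι j) : ℤ) - δ)
    · push_cast [Nat.cast_sub h]
      exact le_rfl
  have h0 : (∑ i, (m i : ℤ) ^ 2) + c ≤ (d : ℤ) ^ 2 := by exact_mod_cast hsq
  have goal : (∑ i, (cm m ι δ i : ℤ) ^ 2) + c ≤ (d' : ℤ) ^ 2 := by
    rw [sum_split hι] at h0 ⊢
    have h1 : ∑ i ∈ (Finset.univ.image ι)ᶜ, (cm m ι δ i : ℤ) ^ 2 =
        ∑ i ∈ (Finset.univ.image ι)ᶜ, (m i : ℤ) ^ 2 :=
      Finset.sum_congr rfl fun i hi => by rw [cm_of_notMem (Finset.mem_compl.1 hi)]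
    rw [h1]
    have k0 := key 0
    have k1 := key 1
    have k2 := key 2
    rw [Fin.sum_univ_three] at hsum
    have h2 : (m (ι 0) : ℤ) + m (ι 1) + m (ι 2) = d + δ := by exact_mod_cast hsum
    have h3 : (d : ℤ) = d' + δ := by rw [← hd]; push_cast; ring
    have h4 : ((m (ι 0) : ℤ) - δ) ^ 2 + ((m (ι 1) : ℤ) - δ) ^ 2 + ((m (ι 2) : ℤ) - δ) ^ 2 =
        (m (ι 0) : ℤ) ^ 2 + (m (ι 1) : ℤ) ^ 2 + (m (ι 2) : ℤ) ^ 2 - 2 * δ * (d + δ) +
          3 * (δ : ℤ) ^ 2 := by
      rw [← h2]; ring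
    have h5 : (d : ℤ) ^ 2 - 2 * δ * (d + δ) + 3 * (δ : ℤ) ^ 2 = (d' : ℤ) ^ 2 := by
      rw [h3]; ring
    linarith
  exact_mod_cast goal

lemma cm_mul (hlow : ∀ j, δ ≤ m (ι j) + 1)
    (hsq : ∑ i, cm m ι δ i ^ 2 ≤ d' ^ 2) {e' : ℕ} {a' : Fin n → ℕ}
    (h : Neg d' (cm m ι δ) e' a') (j : Fin 3) :
    (a' (ι j) : ℤ) * (cm m ι δ (ι j) : ℤ) = a' (ι j) * ((m (ι j) : ℤ) - δ) := by
  rcases Nat.lt_or_ge (m (ι j)) δ with h1 | h1
  · have h3 : cm m ι δ (ι j) = 0 := by rw [cm_ι]; omega
    rw [light hsq h h3, h3]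
    simp
  · rw [cm_ι]
    push_cast [Nat.cast_sub h1]
    ring

theorem neg_cm (hι : Function.Injective ι) (hd : d' + δ = d) (hsum : ∑ j, m (ι j) = d + δ)
    (hlow : ∀ j, δ ≤ m (ι j) + 1) (hsq : ∑ i, cm m ι δ i ^ 2 ≤ d' ^ 2) {e e' : ℕ}
    {a a' : Fin n → ℕ} (h : Neg d' (cm m ι δ) e' a') (he : e + ∑ j, a' (ι j) = 2 * e')
    (ha : ∀ j, a (ι j) + ∑ k, a' (ι k) = e' + a' (ι j))
    (ha' : ∀ l, l ∉ Finset.univ.image ι → a l = a' l) : Neg d m e a := by
  have hmul := cm_mul hlow hsq h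
  obtain ⟨h1, h2, h3⟩ := h
  rw [sum_split hι] at h1 h2 h3
  beta_reduce at h1 h2 h3
  rw [hmul 0, hmul 1, hmul 2] at h3
  have s3 : ∑ i ∈ (Finset.univ.image ι)ᶜ, (a' i : ℤ) * (cm m ι δ i : ℤ) =
      ∑ i ∈ (Finset.univ.image ι)ᶜ, (a i : ℤ) * (m i : ℤ) :=
    Finset.sum_congr rfl fun i hi => by
      rw [cm_of_notMem (Finset.mem_compl.1 hi), ha' i (Finset.mem_compl.1 hi)]
  have s2 : ∑ i ∈ (Finset.univ.image ι)ᶜ, (a' i : ℤ) = ∑ i ∈ (Finset.univ.image ι)ᶜ, (a i : ℤ) :=
    Finset.sum_congr rfl fun i hi => by rw [ha' i (Finset.mem_compl.1 hi)]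
  have s1 : ∑ i ∈ (Finset.univ.image ι)ᶜ, (a' i : ℤ) ^ 2 =
      ∑ i ∈ (Finset.univ.image ι)ᶜ, (a i : ℤ) ^ 2 :=
    Finset.sum_congr rfl fun i hi => by rw [ha' i (Finset.mem_compl.1 hi)]
  rw [s1] at h1
  rw [s2] at h2
  rw [s3] at h3
  rw [Fin.sum_univ_three] at hsum he
  have ha0 := ha 0
  have ha1 := ha 1
  have ha2 := ha 2
  rw [Fin.sum_univ_three] at ha0 ha1 ha2
  have q0 : (m (ι 2) : ℤ) = d + δ - m (ι 0) - m (ι 1) := by
    have : (m (ι 0) : ℤ) + m (ι 1) + m (ι 2) = d + δ := by exact_mod_cast hsum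
    linarith
  have q1 : (d' : ℤ) = d - δ := by rw [← hd]; push_cast; ring
  have q2 : (e : ℤ) = 2 * e' - (a' (ι 0) + a' (ι 1) + a' (ι 2)) := by
    have : (e : ℤ) + (a' (ι 0) + a' (ι 1) + a' (ι 2)) = 2 * e' := by exact_mod_cast he
    linarith
  have r0 : (a (ι 0) : ℤ) = e' - a' (ι 1) - a' (ι 2) := by
    have : (a (ι 0) : ℤ) + (a' (ι 0) + a' (ι 1) + a' (ι 2)) = e' + a' (ι 0) := by
      exact_mod_cast ha0
    linarith
  have r1 : (a (ι 1) : ℤ) = e' - a' (ι 0) - a' (ι 2) := by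
    have : (a (ι 1) : ℤ) + (a' (ι 0) + a' (ι 1) + a' (ι 2)) = e' + a' (ι 1) := by
      exact_mod_cast ha1
    linarith
  have r2 : (a (ι 2) : ℤ) = e' - a' (ι 0) - a' (ι 1) := by
    have : (a (ι 2) : ℤ) + (a' (ι 0) + a' (ι 1) + a' (ι 2)) = e' + a' (ι 2) := by
      exact_mod_cast ha2
    linarith
  refine ⟨?_, ?_, ?_⟩
  · rw [sum_split hι]
    beta_reduce
    rw [r0, r1, r2, q2]
    linear_combination h1
  · rw [sum_split hι]
    beta_reduce
    rw [r0, r1, r2, q2]
    linear_combination h2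
  · rw [sum_split hι]
    beta_reduce
    rw [r0, r1, r2, q2]
    rw [q1, q0] at h3
    rw [q0]
    linarith [h3]

theorem not_line (hι : Function.Injective ι) (hd : d' + δ = d) (hsum : ∑ j, m (ι j) = d + δ)
    (hlow : ∀ j, δ ≤ m (ι j) + 1) (hsq : ∑ i, cm m ι δ i ^ 2 ≤ d' ^ 2) {a' : Fin n → ℕ}
    (j0 : Fin 3) (h0 : a' (ι j0) = 0) (h1 : ∀ j, j ≠ j0 → a' (ι j) = 1)
    (h2 : ∀ l, l ∉ Finset.univ.image ι → a' l = 0) : ¬ Neg d' (cm m ι δ) 1 a' := by
  intro h
  have hmul := cm_mul hlow hsq h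
  obtain ⟨-, -, h3⟩ := h
  rw [sum_split hι] at h3
  beta_reduce at h3
  rw [hmul 0, hmul 1, hmul 2] at h3
  have s3 : ∑ i ∈ (Finset.univ.image ι)ᶜ, (a' i : ℤ) * (cm m ι δ i : ℤ) = 0 :=
    Finset.sum_eq_zero fun i hi => by rw [h2 i (Finset.mem_compl.1 hi)]; simp
  rw [s3] at h3
  rw [Fin.sum_univ_three] at hsum
  have q0 : (m (ι 0) : ℤ) + m (ι 1) + m (ι 2) = d + δ := by exact_mod_cast hsum
  have q1 : (d' : ℤ) = d - δ := by rw [← hd]; push_cast; ring
  fin_cases j0
  · have e0 : a' (ι 0) = 0 := h0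
    have e1 := h1 1 (by decide)
    have e2 := h1 2 (by decide)
    rw [e0, e1, e2] at h3
    push_cast at h3
    omega
  · have e0 : a' (ι 1) = 0 := h0
    have e1 := h1 0 (by decide)
    have e2 := h1 2 (by decide)
    rw [e0, e1, e2] at h3
    push_cast at h3
    omega
  · have e0 : a' (ι 2) = 0 := h0
    have e1 := h1 0 (by decide)
    have e2 := h1 1 (by decide)
    rw [e0, e1, e2] at h3
    push_cast at h3
    omega

end Pool.MP_70e04f_ag.Cre

end

/-! ### from `Lib_MP_70e04f_cre.RevAlt` -/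

section

/-!
# The second alternative after a quadratic transformation (piece CRALT)

PAPER PROOF. (1) No variable `X j0` divides `G`: otherwise `G = C c * X j0`, `c ≠ 0`
(`G` is irreducible), `e' = 1` (`IsHomogeneous.inj_right`), and by `mem_mi_single_iff`
(`G.support = {single j0 1}`) `G ∈ mi (Pi.single j 1) ^ k` iff `k ≤ 1` for `j ≠ j0` and iff `k = 0`
for `j = j0`; so `a' (ι j) = 1` for `j ≠ j0` and `a' (ι j0) = 0`; for `l` not in the image of `ι`
the value of `G` at `q' l = sg (q l)` is not zero, so `a' l = 0`. This contradicts `not_line`.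

(2) Let `ν j` be the largest exponent of `X j` in `G` (`MvPolynomial.degreeOf j G`, or
`Finset.sup`). By `mem_mi_single_iff` `ν j + a' (ι j) = e'` (`G ≠ 0`). A monomial of `G` has degree
`e'` and exponents `≤ ν`, so `e' ≤ ν 0 + ν 1 + ν 2`; let `e = ν 0 + ν 1 + ν 2 - e'`, so
`e + ∑ a' (ι j) = 2 e'`. Let `F = rev ν G`: irreducible (`rev_irreducible`), homogeneous of degree
`e` (`rev_isHomogeneous`). As `X j` does not divide `G`, some monomial `s` of `G` has `s j = 0`, and
`ν - s` is a monomial of `F` (`coeff_rev`) with exponent `ν j`; all exponents of `F` are `≤ ν`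
(`support_rev_le`). So `ν j ≤ e`, and by `mem_mi_single_iff` `F ∈ mi (Pi.single j 1) ^ k` iff
`ν j + k ≤ e`: put `a (ι j) = e - ν j`. Then
`a (ι j) + ∑ a' (ι k) = (∑ ν - e' - ν j) + (3 e' - ∑ ν) = e' + a' (ι j)`.

(3) For `l` not in the image, `a l = a' l`: `G ∈ mi (sg (q l)) ^ k → F ∈ mi (q l) ^ k` (`rev_mem`),
`F ∈ mi (q l) ^ k → rev ν F = G ∈ mi (sg (q l)) ^ k` (`rev_mem'` for `F`, `rev_rev`).

(4) `neg_cm`.
-/

namespace Pool.MP_70e04f_ag.Cre

open MvPolynomial

/-- The multiplicity at a coordinate point and the largest exponent. -/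
theorem alt_mult {F : R3} {e : ℕ} (hF : F.IsHomogeneous e) {j : Fin 3} {a : ℕ}
    (h1 : F ∈ mi (Pi.single j 1) ^ a) (h2 : F ∉ mi (Pi.single j 1) ^ (a + 1)) :
    (∀ s ∈ F.support, s j + a ≤ e) ∧ ∃ s ∈ F.support, s j + a = e := by
  have h3 := (mem_mi_single_iff hF j a).1 h1
  refine ⟨h3, ?_⟩
  by_contra h
  push Not at h
  refine h2 ((mem_mi_single_iff hF j (a + 1)).2 fun s hs => ?_)
  have := h3 s hs
  have := h s hs
  omega

theorem alt_dvd {F : R3} {j : Fin 3} (h : ∀ s ∈ F.support, s j ≠ 0) : (X j : R3) ∣ F := by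
  rw [MvPolynomial.X_dvd_iff_modMonomial_eq_zero]
  ext s
  by_cases hs : Finsupp.single j 1 ≤ s
  · rw [MvPolynomial.coeff_modMonomial_of_le _ hs, MvPolynomial.coeff_zero]
  · rw [MvPolynomial.coeff_modMonomial_of_not_le _ hs, MvPolynomial.coeff_zero]
    by_contra hc
    refine hs ?_
    rw [Finsupp.single_le_iff]
    exact Nat.one_le_iff_ne_zero.2 (h s (MvPolynomial.mem_support_iff.2 hc))

theorem alt_degree {F : R3} {e : ℕ} (hF : F.IsHomogeneous e) {s : Fin 3 →₀ ℕ}
    (hs : s ∈ F.support) : s 0 + s 1 + s 2 = e := by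
  have h := hF (MvPolynomial.mem_support_iff.1 hs)
  rw [Finsupp.weight_apply, Finsupp.sum_fintype _ _ (by simp)] at h
  simpa [Fin.sum_univ_three] using h

theorem alt_not_dvd {n d d' δ : ℕ} {m : Fin n → ℕ} {ι : Fin 3 → Fin n}
    (hι : Function.Injective ι) (hd : d' + δ = d) (hsum : ∑ j, m (ι j) = d + δ)
    (hlow : ∀ j, δ ≤ m (ι j) + 1) (hsq : ∑ i, cm m ι δ i ^ 2 ≤ d' ^ 2)
    {q q' : Fin n → Fin 3 → ℂ}
    (hq' : ∀ j, q' (ι j) = Pi.single j 1)
    (hx : ∀ l, l ∉ Finset.univ.image ι → (∀ c, q l c ≠ 0) ∧ q' l = sg (q l))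
    {G : R3} {e' : ℕ} {a' : Fin n → ℕ} (hG : Irreducible G) (he : G.IsHomogeneous e')
    (ha : ∀ i, G ∈ mi (q' i) ^ a' i ∧ G ∉ mi (q' i) ^ (a' i + 1))
    (hneg : Neg d' (cm m ι δ) e' a') (j0 : Fin 3) : ¬ (X j0 : R3) ∣ G := by
  rintro ⟨K, hK⟩
  have hXu : ¬ IsUnit (X j0 : R3) := (MvPolynomial.X_prime (R := ℂ) (i := j0)).not_isUnit
  have hKu : IsUnit K := (hG.isUnit_or_isUnit hK).resolve_left hXu
  rw [MvPolynomial.isUnit_iff_eq_C_of_isReduced] at hKu
  obtain ⟨c, hc, rfl⟩ := hKu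
  have hc0 : c ≠ 0 := hc.ne_zero
  have hGm : G = monomial (Finsupp.single j0 1) c := by
    rw [hK, mul_comm, MvPolynomial.C_mul_X_eq_monomial]
  have hsupp : Finsupp.single j0 1 ∈ G.support := by
    rw [MvPolynomial.mem_support_iff, hGm, MvPolynomial.coeff_monomial, if_pos rfl]
    exact hc0
  have honly : ∀ s ∈ G.support, s = Finsupp.single j0 1 := by
    intro s hs
    rw [MvPolynomial.mem_support_iff, hGm, MvPolynomial.coeff_monomial] at hs
    by_contra h
    exact hs (if_neg (fun h' => h h'.symm))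
  have he1 : e' = 1 := by
    have := alt_degree he hsupp
    rw [← this]
    fin_cases j0 <;> simp
  subst he1
  have hmul : ∀ j, (Finsupp.single j0 1 : Fin 3 →₀ ℕ) j + a' (ι j) = 1 := by
    intro j
    obtain ⟨h1, h2⟩ := ha (ι j)
    rw [hq' j] at h1 h2
    obtain ⟨-, s, hs, h3⟩ := alt_mult he h1 h2
    rw [honly s hs] at h3
    exact h3
  refine not_line hι hd hsum hlow hsq j0 (a' := a') ?_ ?_ ?_ hneg
  · have := hmul j0
    rw [Finsupp.single_eq_same] at this
    omega
  · intro j hj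
    have := hmul j
    rw [Finsupp.single_eq_of_ne hj] at this
    omega
  · intro l hl
    obtain ⟨h1, h2⟩ := hx l hl
    by_contra h3
    have h4 : G ∈ mi (q' l) := by
      have := Ideal.pow_le_pow_right (I := mi (q' l)) (Nat.one_le_iff_ne_zero.2 h3) (ha l).1
      rwa [pow_one] at this
    rw [RingHom.mem_ker, h2, hK, map_mul, MvPolynomial.eval_X, MvPolynomial.eval_C] at h4
    rcases mul_eq_zero.1 h4 with h5 | h5
    · fin_cases j0
      · exact mul_ne_zero (h1 1) (h1 2) h5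
      · exact mul_ne_zero (h1 0) (h1 2) h5
      · exact mul_ne_zero (h1 0) (h1 1) h5
    · exact hc0 h5

theorem alt_cremona {n d d' δ : ℕ} {m : Fin n → ℕ} {ι : Fin 3 → Fin n}
    (hι : Function.Injective ι) (hd : d' + δ = d) (hsum : ∑ j, m (ι j) = d + δ)
    (hlow : ∀ j, δ ≤ m (ι j) + 1) (hsq : ∑ i, cm m ι δ i ^ 2 ≤ d' ^ 2)
    {q q' : Fin n → Fin 3 → ℂ}
    (hq : ∀ j, q (ι j) = Pi.single j 1) (hq' : ∀ j, q' (ι j) = Pi.single j 1)
    (hx : ∀ l, l ∉ Finset.univ.image ι → (∀ c, q l c ≠ 0) ∧ q' l = sg (q l))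
    {G : R3} {e' : ℕ} {a' : Fin n → ℕ} (hG : Irreducible G) (he : G.IsHomogeneous e')
    (ha : ∀ i, G ∈ mi (q' i) ^ a' i ∧ G ∉ mi (q' i) ^ (a' i + 1))
    (hneg : Neg d' (cm m ι δ) e' a') :
    ∃ F : R3, ∃ e : ℕ, ∃ a : Fin n → ℕ, Irreducible F ∧ F.IsHomogeneous e ∧
      (∀ i, F ∈ mi (q i) ^ a i ∧ F ∉ mi (q i) ^ (a i + 1)) ∧ Neg d m e a := by
  have hX := fun j => alt_not_dvd hι hd hsum hlow hsq hq' hx hG he ha hneg j
  have hG0 : G ≠ 0 := hG.ne_zero
  have hmul : ∀ j, (∀ s ∈ G.support, s j + a' (ι j) ≤ e') ∧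
      ∃ s ∈ G.support, s j + a' (ι j) = e' := by
    intro j
    obtain ⟨h1, h2⟩ := ha (ι j)
    rw [hq' j] at h1 h2
    exact alt_mult he h1 h2
  obtain ⟨ν, hνdef⟩ : ∃ ν : Fin 3 →₀ ℕ, ∀ j, ν j + a' (ι j) = e' := by
    refine ⟨Finsupp.equivFunOnFinite.symm fun j => e' - a' (ι j), fun j => ?_⟩
    obtain ⟨s, hs, h⟩ := (hmul j).2
    simp only [Finsupp.equivFunOnFinite_symm_apply_apply]
    omega
  have hν : ∀ s ∈ G.support, s ≤ ν := by
    intro s hs j
    have := (hmul j).1 s hs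
    have := hνdef j
    omega
  have hmax : ∀ j, ∃ s ∈ G.support, s j = ν j := by
    intro j
    obtain ⟨s, hs, h⟩ := (hmul j).2
    have := hνdef j
    exact ⟨s, hs, by omega⟩
  have hzero : ∀ j, ∃ s ∈ G.support, s j = 0 := by
    intro j
    by_contra h
    push Not at h
    exact hX j (alt_dvd h)
  obtain ⟨e, hee⟩ : ∃ e, e' + e = ν 0 + ν 1 + ν 2 := by
    obtain ⟨s, hs, -⟩ := hzero 0
    have h1 := alt_degree he hs
    have h2 := hν s hs
    have := h2 0
    have := h2 1
    have := h2 2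
    exact ⟨ν 0 + ν 1 + ν 2 - e', by omega⟩
  obtain ⟨hFirr, -⟩ := rev_irreducible hee hG he hν hmax hX
  have hFhom : (rev ν G).IsHomogeneous e := rev_isHomogeneous hee he hν
  have hFν : ∀ s ∈ (rev ν G).support, s ≤ ν := support_rev_le
  have hFmax : ∀ j, ∃ s ∈ (rev ν G).support, s j = ν j := by
    intro j
    obtain ⟨s, hs, h⟩ := hzero j
    refine ⟨ν - s, ?_, ?_⟩
    · rw [MvPolynomial.mem_support_iff, coeff_rev hν _ tsub_le_self,
        tsub_tsub_cancel_of_le (hν s hs)]
      exact MvPolynomial.mem_support_iff.1 hs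
    · rw [Finsupp.tsub_apply, h, Nat.sub_zero]
  have hνe : ∀ j, ν j ≤ e := by
    intro j
    obtain ⟨s, hs, h⟩ := hFmax j
    have := alt_degree hFhom hs
    rw [← h]
    fin_cases j
    · show s 0 ≤ e
      omega
    · show s 1 ≤ e
      omega
    · show s 2 ≤ e
      omega
  have hsumν : e + ∑ j, a' (ι j) = 2 * e' := by
    rw [Fin.sum_univ_three]
    have := hνdef 0
    have := hνdef 1
    have := hνdef 2
    omega
  refine ⟨rev ν G, e, fun i => if i ∈ Finset.univ.image ι then e + a' i - e' else a' i,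
    hFirr, hFhom, ?_, ?_⟩
  · intro i
    by_cases hi : i ∈ Finset.univ.image ι
    · obtain ⟨j, -, rfl⟩ := Finset.mem_image.1 hi
      simp only [if_pos hi]
      rw [hq j]
      have h1 := hνdef j
      have h2 := hνe j
      constructor
      · rw [mem_mi_single_iff hFhom]
        intro s hs
        have := hFν s hs j
        omega
      · rw [mem_mi_single_iff hFhom]
        intro h
        obtain ⟨s, hs, h3⟩ := hFmax j
        have := h s hs
        omega
    · simp only [if_neg hi]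
      obtain ⟨h1, h2⟩ := hx i hi
      obtain ⟨h3, h4⟩ := ha i
      rw [h2] at h3 h4
      refine ⟨rev_mem he hν h1 h3, fun h => h4 ?_⟩
      have := rev_mem' hFhom hFν h1 h
      rwa [rev_rev hν] at this
  · refine neg_cm hι hd hsum hlow hsq hneg hsumν ?_ ?_
    · intro j
      have hi : ι j ∈ Finset.univ.image ι := Finset.mem_image_of_mem ι (Finset.mem_univ j)
      simp only [if_pos hi]
      have h1 := hνdef j
      have h2 := hνe j
      omega
    · intro l hl
      simp only [if_neg hl]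

end Pool.MP_70e04f_ag.Cre

end

/-! ### from `Lib_MP_70e04f_cre.Conf` -/

section

/-!
# The quadratic transformation with three given fundamental points (definitions and assembly)
-/

namespace Pool.MP_70e04f_ag.Cre

open MvPolynomial

/-- The matrix whose columns are homogeneous coordinates of three points. -/
def mat {n : ℕ} (ι : Fin 3 → Fin n) (p : Fin n → Fin 2 → ℂ) : Matrix (Fin 3) (Fin 3) ℂ :=
  Matrix.of fun c j => hat (p (ι j)) c

/-- Coordinates of the point `l` with respect to the three points (up to a scalar). -/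
noncomputable def bar {n : ℕ} (ι : Fin 3 → Fin n) (p : Fin n → Fin 2 → ℂ) (l : Fin n) :
    Fin 3 → ℂ :=
  (mat ι p).adjugate.mulVec (hat (p l))

/-- Homogeneous coordinates of the transformed point. -/
noncomputable def img {n : ℕ} (ι : Fin 3 → Fin n) (p : Fin n → Fin 2 → ℂ) (l : Fin n) :
    Fin 3 → ℂ :=
  (mat ι p).mulVec (sg (bar ι p l))

/-- The transformed configuration. -/
noncomputable def crm {n : ℕ} (ι : Fin 3 → Fin n) (p : Fin n → Fin 2 → ℂ) : Fin n → Fin 2 → ℂ :=
  fun l => if l ∈ Finset.univ.image ι then p l else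
    ![img ι p l 0 / img ι p l 2, img ι p l 1 / img ι p l 2]

/-- The configurations for which the transformation is defined. -/
def Good {n : ℕ} (ι : Fin 3 → Fin n) (p : Fin n → Fin 2 → ℂ) : Prop :=
  (mat ι p).det ≠ 0 ∧ ∀ l, l ∉ Finset.univ.image ι → (∀ c, bar ι p l c ≠ 0) ∧ img ι p l 2 ≠ 0

/-- The standard quadratic transformation. -/
theorem HS.cremona {n d d' δ : ℕ} {m : Fin n → ℕ} {ι : Fin 3 → Fin n}
    (hι : Function.Injective ι) (hd : d' + δ = d) (hsum : ∑ j, m (ι j) = d + δ)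
    (hlow : ∀ j, δ ≤ m (ι j) + 1) (hup : ∀ j, m (ι j) ≤ d)
    (hsq : ∑ i, cm m ι δ i ^ 2 ≤ d' ^ 2)
    {q q' : Fin n → Fin 3 → ℂ}
    (hq : ∀ j, q (ι j) = Pi.single j 1) (hq' : ∀ j, q' (ι j) = Pi.single j 1)
    (hx : ∀ l, l ∉ Finset.univ.image ι → (∀ c, q l c ≠ 0) ∧ q' l = sg (q l))
    (h : HS d' (cm m ι δ) q') : HS d m q := by
  rcases h with h | ⟨G, e', a', hG, he, ha, hneg⟩
  · left
    rw [finrank_cremona hι hd hsum hlow hup hq hq' hx] at h
    exact (dim_cm hι hd hsum hlow _).1 h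
  · right
    exact alt_cremona hι hd hsum hlow hsq hq hq' hx hG he ha hneg

end Pool.MP_70e04f_ag.Cre

end

/-! ### from `Lib_MP_70e04f_cre.ConfS` -/

section

/-!
# The quadratic transformation with three given fundamental points (piece CRCONF)

PAPER PROOF. Let `A = mat ι p`, `D = A.det ≠ 0`, `p' = crm ι p`. Start from `S d' (cm m ι δ) p'`.
By `HS_of_S` `HS d' (cm m ι δ) (fun i => hat (p' i))`; apply `HS.mat` with `A.adjugate` (its
determinant is `D ^ 2`, `Matrix.det_adjugate`). For `i = ι j`: `hat (p' (ι j)) = hat (p (ι j))` is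
the column `j` of `A`, i.e. `A.mulVec (Pi.single j 1)`, so
`A.adjugate.mulVec (hat (p' (ι j))) = D • Pi.single j 1` (`Matrix.adjugate_mul`). For `l` not in the
image of `ι`: `hat (p' l) = (img ι p l 2)⁻¹ • img ι p l`, so
`A.adjugate.mulVec (hat (p' l)) = (D / img ι p l 2) • sg (bar ι p l)`. `HS.smul` with the inverses of
the scalars gives `HS d' (cm m ι δ) q'` with `q' (ι j) = Pi.single j 1`, `q' l = sg (bar ι p l)`.
Now `HS.cremona` with `q (ι j) = Pi.single j 1`, `q l = bar ι p l`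
(`hlow`: `d + δ = m (ι j) + (sum of the other two) ≤ m (ι j) + d + 1`; `hup`: from `hsq`;
`∑ cm ^ 2 ≤ d' ^ 2` by `sq_cm` with `c = 0`). Then `HS.mat` with `A`: `A.mulVec (Pi.single j 1) =
hat (p (ι j))`, `A.mulVec (bar ι p l) = D • hat (p l)` (`Matrix.mul_adjugate`), `HS.smul` with `D⁻¹`
at the `l` not in the image (and `1` at the `ι j`), and `S_of_HS`.
(The families of points are given by `if ... then ... else ...`: choose for `i` in the image of
`ι` the index `j` with `ι j = i`, e.g. with `Function.extend ι` or `Function.invFun`; or state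
that `q` satisfies the properties and use `funext` for the comparison.)
-/

namespace Pool.MP_70e04f_ag.Cre

open MvPolynomial

lemma confS_col {n : ℕ} (ι : Fin 3 → Fin n) (p : Fin n → Fin 2 → ℂ) (j : Fin 3) :
    bar ι p (ι j) = (mat ι p).det • Pi.single j 1 := by
  have h1 : (mat ι p).mulVec (Pi.single j 1) = hat (p (ι j)) := by
    rw [Matrix.mulVec_single_one]
    rfl
  unfold bar
  rw [← h1, Matrix.mulVec_mulVec, Matrix.adjugate_mul, Matrix.smul_mulVec, Matrix.one_mulVec]

theorem S.cremona {n d d' δ : ℕ} {m : Fin n → ℕ} {ι : Fin 3 → Fin n}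
    (hι : Function.Injective ι) (hd : d' + δ = d) (hsum : ∑ j, m (ι j) = d + δ)
    (hpair : ∀ j k, j ≠ k → m (ι j) + m (ι k) ≤ d + 1) (hsq : ∑ i, m i ^ 2 ≤ d ^ 2)
    {p : Fin n → Fin 2 → ℂ} (hp : Good ι p) (h : S d' (cm m ι δ) (crm ι p)) : S d m p := by
  classical
  obtain ⟨hD, hl⟩ := hp
  have hlow : ∀ j, δ ≤ m (ι j) + 1 := by
    intro j
    rw [Fin.sum_univ_three] at hsum
    have h01 := hpair 0 1 (by decide)
    have h02 := hpair 0 2 (by decide)
    have h12 := hpair 1 2 (by decide)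
    fin_cases j
    · change δ ≤ m (ι 0) + 1; omega
    · change δ ≤ m (ι 1) + 1; omega
    · change δ ≤ m (ι 2) + 1; omega
  have hup : ∀ j, m (ι j) ≤ d := by
    intro j
    have h1 : m (ι j) ^ 2 ≤ ∑ i, m i ^ 2 :=
      Finset.single_le_sum (f := fun i => m i ^ 2) (fun _ _ => Nat.zero_le _)
        (Finset.mem_univ (ι j))
    exact (Nat.pow_le_pow_iff_left two_ne_zero).1 (h1.trans hsq)
  have hsq' : ∑ i, cm m ι δ i ^ 2 ≤ d' ^ 2 := by
    have h1 := sq_cm hι hd hsum hlow (c := 0) (by rw [add_zero]; exact hsq)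
    rw [add_zero] at h1
    exact h1
  have h2 := (HS_of_S h).mat (mat ι p).adjugate (by
    rw [Matrix.det_adjugate]
    exact pow_ne_zero _ hD)
  let c1 : Fin n → ℂ := fun i => if i ∈ Finset.univ.image ι then (mat ι p).det⁻¹ else
    img ι p i 2 / (mat ι p).det
  have hc1 : ∀ i, c1 i ≠ 0 := by
    intro i
    change (if i ∈ Finset.univ.image ι then (mat ι p).det⁻¹ else
      img ι p i 2 / (mat ι p).det) ≠ 0
    by_cases hi : i ∈ Finset.univ.image ι
    · rw [if_pos hi]
      exact inv_ne_zero hD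
    · rw [if_neg hi]
      exact div_ne_zero (hl i hi).2 hD
  have h3 := h2.smul c1 hc1
  let c2 : Fin n → ℂ := fun i => if i ∈ Finset.univ.image ι then (mat ι p).det⁻¹ else 1
  have hc2 : ∀ i, c2 i ≠ 0 := by
    intro i
    change (if i ∈ Finset.univ.image ι then (mat ι p).det⁻¹ else (1 : ℂ)) ≠ 0
    by_cases hi : i ∈ Finset.univ.image ι
    · rw [if_pos hi]
      exact inv_ne_zero hD
    · rw [if_neg hi]
      exact one_ne_zero
  have hmem : ∀ j, ι j ∈ Finset.univ.image ι := fun j =>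
    Finset.mem_image_of_mem ι (Finset.mem_univ j)
  have h4 := HS.cremona hι hd hsum hlow hup hsq' (q := fun i => c2 i • bar ι p i)
    (q' := fun i => c1 i • (mat ι p).adjugate.mulVec (hat (crm ι p i)))
    (by
      intro j
      change (if ι j ∈ Finset.univ.image ι then (mat ι p).det⁻¹ else (1 : ℂ)) • bar ι p (ι j) = _
      rw [if_pos (hmem j), confS_col, smul_smul, inv_mul_cancel₀ hD, one_smul])
    (by
      intro j
      change (if ι j ∈ Finset.univ.image ι then (mat ι p).det⁻¹ else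
        img ι p (ι j) 2 / (mat ι p).det) • (mat ι p).adjugate.mulVec (hat (crm ι p (ι j))) = _
      have e1 : crm ι p (ι j) = p (ι j) := by
        unfold crm
        rw [if_pos (hmem j)]
      rw [if_pos (hmem j), e1]
      have e2 := confS_col ι p j
      unfold bar at e2
      rw [e2, smul_smul, inv_mul_cancel₀ hD, one_smul])
    (by
      intro l hl'
      obtain ⟨k1, k2⟩ := hl l hl'
      have e0 : c2 l • bar ι p l = bar ι p l := by
        change (if l ∈ Finset.univ.image ι then (mat ι p).det⁻¹ else (1 : ℂ)) • bar ι p l = _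
        rw [if_neg hl', one_smul]
      have e1 : hat (crm ι p l) = (img ι p l 2)⁻¹ • img ι p l := by
        unfold crm
        rw [if_neg hl']
        funext c
        fin_cases c
        · change img ι p l 0 / img ι p l 2 = (img ι p l 2)⁻¹ * img ι p l 0
          rw [div_eq_inv_mul]
        · change img ι p l 1 / img ι p l 2 = (img ι p l 2)⁻¹ * img ι p l 1
          rw [div_eq_inv_mul]
        · change (1 : ℂ) = (img ι p l 2)⁻¹ * img ι p l 2
          rw [inv_mul_cancel₀ k2]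
      refine ⟨fun c => ?_, ?_⟩
      · change (c2 l • bar ι p l) c ≠ 0
        rw [e0]
        exact k1 c
      · change c1 l • (mat ι p).adjugate.mulVec (hat (crm ι p l)) = sg (c2 l • bar ι p l)
        rw [e0, e1, Matrix.mulVec_smul]
        have e3 : (mat ι p).adjugate.mulVec (img ι p l) = (mat ι p).det • sg (bar ι p l) := by
          unfold img
          rw [Matrix.mulVec_mulVec, Matrix.adjugate_mul, Matrix.smul_mulVec, Matrix.one_mulVec]
        change (if l ∈ Finset.univ.image ι then (mat ι p).det⁻¹ else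
          img ι p l 2 / (mat ι p).det) • _ = _
        rw [if_neg hl', e3, smul_smul, smul_smul]
        have e4 : img ι p l 2 / (mat ι p).det * (img ι p l 2)⁻¹ * (mat ι p).det = 1 := by
          field_simp
        rw [e4, one_smul]) h3
  have h5 := h4.mat (mat ι p) hD
  have h6 := h5.smul (fun i => (c2 i * (mat ι p).det)⁻¹)
    (fun i => inv_ne_zero (mul_ne_zero (hc2 i) hD))
  apply S_of_HS
  have e : (fun i => hat (p i)) = (fun i => (fun i => (c2 i * (mat ι p).det)⁻¹) i •
      (fun i => (mat ι p).mulVec ((fun i => c2 i • bar ι p i) i)) i) := by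
    funext i
    change hat (p i) = (c2 i * (mat ι p).det)⁻¹ • (mat ι p).mulVec (c2 i • bar ι p i)
    have e3 : (mat ι p).mulVec (bar ι p i) = (mat ι p).det • hat (p i) := by
      unfold bar
      rw [Matrix.mulVec_mulVec, Matrix.mul_adjugate, Matrix.smul_mulVec, Matrix.one_mulVec]
    rw [Matrix.mulVec_smul, e3, smul_smul, smul_smul, mul_assoc,
      inv_mul_cancel₀ (mul_ne_zero (hc2 i) hD), one_smul]
  rw [e]
  exact h6

end Pool.MP_70e04f_ag.Cre

end

/-! ### from `Lib_MP_70e04f_cre.Gen` -/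

section

/-!
# The quadratic transformation of a general configuration (piece CRGEN)

PAPER PROOF. (A) `exists_clear`: substitution of rational functions with a common denominator.
Induction on `g'` (`MvPolynomial.induction_on`): constants `N = 0`; sums: multiply the one with the
smaller exponent by a power of `w`; product with `X i`: `N + 1`, `G * u i`.

(B) `Good ι p` is the nonvanishing of a polynomial `h0` in the coordinates of `p`: the product of
`(mat ι p).det`, and of `bar ι p l c` and `img ι p l 2` over `c` and over `l` not in the image of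
`ι`. (Write the matrix `mat` with polynomial entries `X (ι j, 0)`, `X (ι j, 1)`, `1`, its adjugate,
and so on; evaluation is a ring homomorphism, `RingHom.map_det`, `RingHom.map_adjugate`,
`RingHom.map_mulVec`.) `h0 ≠ 0`: at the configuration `p (ι 0) = (0, 0)`, `p (ι 1) = (1, 0)`,
`p (ι 2) = (0, 1)`, `p l = (1 / 3, 1 / 3)` the matrix is `!![0, 1, 0; 0, 0, 1; 1, 1, 1]`, its
determinant is `1` or `-1`, and `bar ι p l` is `± (1 / 3, 1 / 3, 1 / 3)`, `img ι p l 2` is the sum of
the coordinates of `sg (bar ι p l)`, `1 / 3`.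

(C) `crm_good`, `crm_crm` (in `Inv.lean`).

(D) Let `w = ∏ l ∉ image, img ι _ l 2` as a polynomial and apply (A) to `crm ι p` (coordinates
`p l c` or `img ι p l c / img ι p l 2`, written with the common denominator `w`): there are `G`, `N`
with `eval p G = (w p) ^ N * eval (crm ι p) g'` for all `p` with `w p ≠ 0`. Let `g = h0 * G`. If
`g p ≠ 0` then `p` is good, `w p ≠ 0` and `eval (crm ι p) g' ≠ 0`. `g ≠ 0`: `g' * h0 ≠ 0`, so there
is `p0` with `g' p0 ≠ 0` and `h0 p0 ≠ 0` (`MvPolynomial.funext`, contraposition); let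
`p = crm ι p0`; `p` is good and `crm ι p = p0` by (C), so `h0 p ≠ 0` and
`G p = (w p) ^ N * g' p0 ≠ 0`.
-/

namespace Pool.MP_70e04f_ag.Cre

open MvPolynomial

/-- Clearing denominators. -/
theorem exists_clear {σ τ : Type*} (u : σ → MvPolynomial τ ℂ) (w : MvPolynomial τ ℂ)
    (g' : MvPolynomial σ ℂ) : ∃ G : MvPolynomial τ ℂ, ∃ N : ℕ, ∀ x : τ → ℂ,
      MvPolynomial.eval x w ≠ 0 → MvPolynomial.eval x G =
        MvPolynomial.eval x w ^ N *
          MvPolynomial.eval (fun i => MvPolynomial.eval x (u i) / MvPolynomial.eval x w) g' := by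
  induction g' using MvPolynomial.induction_on with
  | C c =>
    refine ⟨C c, 0, fun x _ => ?_⟩
    rw [eval_C, eval_C, pow_zero, one_mul]
  | add g h hg hh =>
    obtain ⟨G, N, hG⟩ := hg
    obtain ⟨G', N', hG'⟩ := hh
    refine ⟨w ^ N' * G + w ^ N * G', N + N', fun x hx => ?_⟩
    rw [map_add, map_mul, map_mul, map_pow, map_pow, hG x hx, hG' x hx, map_add]
    ring
  | mul_X g i hg =>
    obtain ⟨G, N, hG⟩ := hg
    refine ⟨G * u i, N + 1, fun x hx => ?_⟩
    rw [map_mul, map_mul, hG x hx, eval_X, pow_succ]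
    field_simp

section

variable {n : ℕ}

/-- `hat`, with polynomial entries. -/
noncomputable def CRGEN_hat (l : Fin n) : Fin 3 → MvPolynomial (Fin n × Fin 2) ℂ :=
  ![X (l, 0), X (l, 1), 1]

/-- `mat`, with polynomial entries. -/
noncomputable def CRGEN_mat (ι : Fin 3 → Fin n) :
    Matrix (Fin 3) (Fin 3) (MvPolynomial (Fin n × Fin 2) ℂ) :=
  Matrix.of fun c j => CRGEN_hat (ι j) c

/-- `bar`, with polynomial entries. -/
noncomputable def CRGEN_bar (ι : Fin 3 → Fin n) (l : Fin n) :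
    Fin 3 → MvPolynomial (Fin n × Fin 2) ℂ :=
  (CRGEN_mat ι).adjugate.mulVec (CRGEN_hat l)

/-- `sg`, with polynomial entries. -/
noncomputable def CRGEN_sg (x : Fin 3 → MvPolynomial (Fin n × Fin 2) ℂ) :
    Fin 3 → MvPolynomial (Fin n × Fin 2) ℂ := ![x 1 * x 2, x 0 * x 2, x 0 * x 1]

/-- `img`, with polynomial entries. -/
noncomputable def CRGEN_img (ι : Fin 3 → Fin n) (l : Fin n) :
    Fin 3 → MvPolynomial (Fin n × Fin 2) ℂ :=
  (CRGEN_mat ι).mulVec (CRGEN_sg (CRGEN_bar ι l))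

theorem CRGEN_eval_hat (p : Fin n → Fin 2 → ℂ) (l : Fin n) (c : Fin 3) :
    MvPolynomial.eval (fun q : Fin n × Fin 2 => p q.1 q.2) (CRGEN_hat l c) = hat (p l) c := by
  fin_cases c
  · exact eval_X _
  · exact eval_X _
  · exact map_one _

theorem CRGEN_eval_mat (ι : Fin 3 → Fin n) (p : Fin n → Fin 2 → ℂ) :
    (CRGEN_mat ι).map (MvPolynomial.eval (fun q : Fin n × Fin 2 => p q.1 q.2)) = mat ι p := by
  ext c j
  exact CRGEN_eval_hat p (ι j) c

theorem CRGEN_eval_det (ι : Fin 3 → Fin n) (p : Fin n → Fin 2 → ℂ) :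
    MvPolynomial.eval (fun q : Fin n × Fin 2 => p q.1 q.2) (CRGEN_mat ι).det =
      (mat ι p).det := by
  rw [RingHom.map_det, RingHom.mapMatrix_apply, CRGEN_eval_mat]

theorem CRGEN_eval_bar (ι : Fin 3 → Fin n) (p : Fin n → Fin 2 → ℂ) (l : Fin n) (c : Fin 3) :
    MvPolynomial.eval (fun q : Fin n × Fin 2 => p q.1 q.2) (CRGEN_bar ι l c) = bar ι p l c := by
  unfold CRGEN_bar bar
  have h1 : (CRGEN_mat ι).adjugate.map
      (MvPolynomial.eval (fun q : Fin n × Fin 2 => p q.1 q.2)) = (mat ι p).adjugate := by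
    rw [← CRGEN_eval_mat]
    exact RingHom.map_adjugate _ _
  have h2 : ⇑(MvPolynomial.eval (fun q : Fin n × Fin 2 => p q.1 q.2)) ∘ CRGEN_hat l =
      hat (p l) := _root_.funext fun c => CRGEN_eval_hat p l c
  rw [RingHom.map_mulVec, h1, h2]

theorem CRGEN_eval_sg (p : Fin n → Fin 2 → ℂ) {x : Fin 3 → MvPolynomial (Fin n × Fin 2) ℂ}
    {y : Fin 3 → ℂ}
    (h : ∀ c, MvPolynomial.eval (fun q : Fin n × Fin 2 => p q.1 q.2) (x c) = y c) (c : Fin 3) :
    MvPolynomial.eval (fun q : Fin n × Fin 2 => p q.1 q.2) (CRGEN_sg x c) = sg y c := by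
  fin_cases c
  · show MvPolynomial.eval _ (x 1 * x 2) = y 1 * y 2
    rw [map_mul, h, h]
  · show MvPolynomial.eval _ (x 0 * x 2) = y 0 * y 2
    rw [map_mul, h, h]
  · show MvPolynomial.eval _ (x 0 * x 1) = y 0 * y 1
    rw [map_mul, h, h]

theorem CRGEN_eval_img (ι : Fin 3 → Fin n) (p : Fin n → Fin 2 → ℂ) (l : Fin n) (c : Fin 3) :
    MvPolynomial.eval (fun q : Fin n × Fin 2 => p q.1 q.2) (CRGEN_img ι l c) = img ι p l c := by
  unfold CRGEN_img img
  have h2 : ⇑(MvPolynomial.eval (fun q : Fin n × Fin 2 => p q.1 q.2)) ∘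
      CRGEN_sg (CRGEN_bar ι l) = sg (bar ι p l) :=
    _root_.funext fun c => CRGEN_eval_sg p (CRGEN_eval_bar ι p l) c
  rw [RingHom.map_mulVec, CRGEN_eval_mat, h2]

theorem CRGEN_example (ι : Fin 3 → Fin n) (hι : Function.Injective ι) :
    ∃ p : Fin n → Fin 2 → ℂ, Good ι p := by
  classical
  let p : Fin n → Fin 2 → ℂ := fun l => if l = ι 0 then ![0, 0] else if l = ι 1 then ![1, 0] else
    if l = ι 2 then ![0, 1] else ![1 / 3, 1 / 3]
  have p0 : p (ι 0) = ![0, 0] := if_pos rfl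
  have p1 : p (ι 1) = ![1, 0] := by
    show (if ι 1 = ι 0 then _ else _) = _
    rw [if_neg (fun h => by simpa using hι h), if_pos rfl]
  have p2 : p (ι 2) = ![0, 1] := by
    show (if ι 2 = ι 0 then _ else _) = _
    rw [if_neg (fun h => by simpa using hι h), if_neg (fun h => by simpa using hι h), if_pos rfl]
  have pl : ∀ l, l ∉ Finset.univ.image ι → p l = ![1 / 3, 1 / 3] := by
    intro l hl
    have h : ∀ j, l ≠ ι j := fun j e => hl (Finset.mem_image.mpr ⟨j, Finset.mem_univ j, e.symm⟩)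
    show (if l = ι 0 then _ else _) = _
    rw [if_neg (h 0), if_neg (h 1), if_neg (h 2)]
  have hA : mat ι p = !![0, 1, 0; 0, 0, 1; 1, 1, 1] := by
    ext c j
    show hat (p (ι j)) c = _
    fin_cases j
    · show hat (p (ι 0)) c = _
      rw [p0]
      fin_cases c <;> rfl
    · show hat (p (ι 1)) c = _
      rw [p1]
      fin_cases c <;> rfl
    · show hat (p (ι 2)) c = _
      rw [p2]
      fin_cases c <;> rfl
  have hdet : (mat ι p).det = 1 := by
    rw [hA, Matrix.det_fin_three]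
    simp
  have hv : ∀ x : Fin 3 → ℂ, (mat ι p).mulVec x = ![x 1, x 2, x 0 + x 1 + x 2] := by
    intro x
    rw [hA]
    ext c
    fin_cases c <;> simp [Matrix.mulVec, dotProduct, Fin.sum_univ_three]
  have hbar : ∀ l, l ∉ Finset.univ.image ι → bar ι p l = ![1 / 3, 1 / 3, 1 / 3] := by
    intro l hl
    have h1 : hat (p l) = (mat ι p).mulVec ![1 / 3, 1 / 3, 1 / 3] := by
      rw [hv, pl l hl]
      ext c
      fin_cases c
      · rfl
      · rfl
      · show (1 : ℂ) = 1 / 3 + 1 / 3 + 1 / 3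
        norm_num
    unfold bar
    rw [h1, Matrix.mulVec_mulVec, Matrix.adjugate_mul, hdet, one_smul, Matrix.one_mulVec]
  refine ⟨p, ?_, fun l hl => ⟨fun c => ?_, ?_⟩⟩
  · rw [hdet]
    exact one_ne_zero
  · rw [hbar l hl]
    fin_cases c <;> simp
  · unfold img
    rw [hv, hbar l hl]
    show (1 / 3 * (1 / 3) + 1 / 3 * (1 / 3) + 1 / 3 * (1 / 3) : ℂ) ≠ 0
    norm_num

end

/-- The good configurations are given by the nonvanishing of a polynomial. -/
theorem exists_good {n : ℕ} (ι : Fin 3 → Fin n) (hι : Function.Injective ι) :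
    ∃ h0 : MvPolynomial (Fin n × Fin 2) ℂ, h0 ≠ 0 ∧ ∀ p : Fin n → Fin 2 → ℂ,
      (MvPolynomial.eval (fun q : Fin n × Fin 2 => p q.1 q.2) h0 ≠ 0 ↔ Good ι p) := by
  have key : ∀ p : Fin n → Fin 2 → ℂ,
      (MvPolynomial.eval (fun q : Fin n × Fin 2 => p q.1 q.2) ((CRGEN_mat ι).det *
        ∏ l ∈ Finset.univ.filter (fun l => l ∉ Finset.univ.image ι),
          ((∏ c, CRGEN_bar ι l c) * CRGEN_img ι l 2)) ≠ 0 ↔ Good ι p) := by
    intro p
    rw [map_mul, CRGEN_eval_det, map_prod, mul_ne_zero_iff, Finset.prod_ne_zero_iff]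
    refine and_congr Iff.rfl ?_
    have h1 : ∀ l, MvPolynomial.eval (fun q : Fin n × Fin 2 => p q.1 q.2)
        ((∏ c, CRGEN_bar ι l c) * CRGEN_img ι l 2) = (∏ c, bar ι p l c) * img ι p l 2 := by
      intro l
      rw [map_mul, map_prod, CRGEN_eval_img]
      congr 1
      exact Finset.prod_congr rfl fun c _ => CRGEN_eval_bar ι p l c
    refine forall_congr' fun l => ?_
    rw [Finset.mem_filter, h1, mul_ne_zero_iff, Finset.prod_ne_zero_iff]
    constructor
    · intro h hl
      obtain ⟨h2, h3⟩ := h ⟨Finset.mem_univ l, hl⟩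
      exact ⟨fun c => h2 c (Finset.mem_univ c), h3⟩
    · intro h hl
      obtain ⟨h2, h3⟩ := h hl.2
      exact ⟨fun c _ => h2 c, h3⟩
  refine ⟨_, fun h => ?_, key⟩
  obtain ⟨p, hp⟩ := CRGEN_example ι hι
  have h2 := (key p).mpr hp
  rw [h] at h2
  exact h2 (map_zero _)

end Pool.MP_70e04f_ag.Cre

end

/-! ### from `Lib_MP_70e04f_cre.Inv` -/

section

/-!
# The quadratic transformation is an involution (piece CRINV)

PAPER PROOF. Let `A = mat ι p`, `D = A.det ≠ 0`. `crm ι p` and `p` agree at the points `ι j`, so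
`mat ι (crm ι p) = A`. For `l` not in the image of `ι` let `r = bar ι p l`, `t = img ι p l`,
`t 2 ≠ 0`, so `hat (crm ι p l) = (t 2)⁻¹ • t`, `t = A.mulVec (sg r)` and
`bar ι (crm ι p) l = (t 2)⁻¹ • A.adjugate.mulVec (A.mulVec (sg r)) = (D / t 2) • sg r`
(`Matrix.adjugate_mul`, `Matrix.mulVec_mulVec`), no coordinate is zero as no coordinate of `r` is.
`sg (c • x) = c ^ 2 • sg x` and `sg (sg r) = (r 0 * r 1 * r 2) • r`, so with
`k = (D / t 2) ^ 2 * (r 0 * r 1 * r 2) ≠ 0`
`img ι (crm ι p) l = k • A.mulVec r = (k * D) • hat (p l)` (`Matrix.mul_adjugate`), whose last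
coordinate is `k * D ≠ 0`; so `crm ι p` is good, and the quotients of coordinates give
`crm ι (crm ι p) l = p l`.
-/

namespace Pool.MP_70e04f_ag.Cre

theorem inv_sg_smul (c : ℂ) (x : Fin 3 → ℂ) : sg (c • x) = c ^ 2 • sg x := by
  funext i
  fin_cases i <;> simp [sg] <;> ring

theorem inv_sg_sg (r : Fin 3 → ℂ) : sg (sg r) = (r 0 * r 1 * r 2) • r := by
  funext i
  fin_cases i <;> simp [sg] <;> ring

theorem inv_mat {n : ℕ} (ι : Fin 3 → Fin n) (p : Fin n → Fin 2 → ℂ) :
    mat ι (crm ι p) = mat ι p := by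
  ext c j
  have h : crm ι p (ι j) = p (ι j) := by
    unfold crm
    rw [if_pos (Finset.mem_image_of_mem ι (Finset.mem_univ j))]
  simp only [mat, Matrix.of_apply, h]

theorem inv_hat {n : ℕ} {ι : Fin 3 → Fin n} {p : Fin n → Fin 2 → ℂ} {l : Fin n}
    (hl : l ∉ Finset.univ.image ι) (ht : img ι p l 2 ≠ 0) :
    hat (crm ι p l) = (img ι p l 2)⁻¹ • img ι p l := by
  have h : crm ι p l = ![img ι p l 0 / img ι p l 2, img ι p l 1 / img ι p l 2] := by
    unfold crm
    rw [if_neg hl]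
  funext i
  rw [h]
  fin_cases i
  · simp [hat, div_eq_inv_mul]
  · simp [hat, div_eq_inv_mul]
  · simp [hat, inv_mul_cancel₀ ht]

theorem inv_bar {n : ℕ} {ι : Fin 3 → Fin n} {p : Fin n → Fin 2 → ℂ} {l : Fin n}
    (hl : l ∉ Finset.univ.image ι) (ht : img ι p l 2 ≠ 0) :
    bar ι (crm ι p) l = ((img ι p l 2)⁻¹ * (mat ι p).det) • sg (bar ι p l) := by
  unfold bar
  rw [inv_mat, inv_hat hl ht, Matrix.mulVec_smul]
  have h : (mat ι p).adjugate.mulVec (img ι p l) = (mat ι p).det • sg (bar ι p l) := by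
    unfold img
    rw [Matrix.mulVec_mulVec, Matrix.adjugate_mul, Matrix.smul_mulVec, Matrix.one_mulVec]
  rw [h, smul_smul]
  rfl

theorem inv_img {n : ℕ} {ι : Fin 3 → Fin n} {p : Fin n → Fin 2 → ℂ} {l : Fin n}
    (hl : l ∉ Finset.univ.image ι) (ht : img ι p l 2 ≠ 0) :
    img ι (crm ι p) l = (((img ι p l 2)⁻¹ * (mat ι p).det) ^ 2 *
      (bar ι p l 0 * bar ι p l 1 * bar ι p l 2) * (mat ι p).det) • hat (p l) := by
  unfold img
  rw [inv_mat, inv_bar hl ht, inv_sg_smul, inv_sg_sg, smul_smul, Matrix.mulVec_smul]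
  have h : (mat ι p).mulVec (bar ι p l) = (mat ι p).det • hat (p l) := by
    unfold bar
    rw [Matrix.mulVec_mulVec, Matrix.mul_adjugate, Matrix.smul_mulVec, Matrix.one_mulVec]
  rw [h, smul_smul]
  rfl

theorem inv_const {n : ℕ} {ι : Fin 3 → Fin n} {p : Fin n → Fin 2 → ℂ} {l : Fin n}
    (hd : (mat ι p).det ≠ 0) (hb : ∀ c, bar ι p l c ≠ 0) (ht : img ι p l 2 ≠ 0) :
    ((img ι p l 2)⁻¹ * (mat ι p).det) ^ 2 *
      (bar ι p l 0 * bar ι p l 1 * bar ι p l 2) * (mat ι p).det ≠ 0 :=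
  mul_ne_zero (mul_ne_zero (pow_ne_zero _ (mul_ne_zero (inv_ne_zero ht) hd))
    (mul_ne_zero (mul_ne_zero (hb 0) (hb 1)) (hb 2))) hd

theorem crm_good {n : ℕ} {ι : Fin 3 → Fin n} (hι : Function.Injective ι) {p : Fin n → Fin 2 → ℂ}
    (hp : Good ι p) : Good ι (crm ι p) := by
  obtain ⟨hd, hp⟩ := hp
  refine ⟨by rw [inv_mat]; exact hd, fun l hl => ?_⟩
  obtain ⟨hb, ht⟩ := hp l hl
  refine ⟨fun c => ?_, ?_⟩
  · rw [inv_bar hl ht, Pi.smul_apply, smul_eq_mul]
    refine mul_ne_zero (mul_ne_zero (inv_ne_zero ht) hd) ?_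
    fin_cases c
    · exact mul_ne_zero (hb 1) (hb 2)
    · exact mul_ne_zero (hb 0) (hb 2)
    · exact mul_ne_zero (hb 0) (hb 1)
  · rw [inv_img hl ht, Pi.smul_apply, smul_eq_mul]
    refine mul_ne_zero (inv_const hd hb ht) ?_
    simp [hat]

theorem crm_crm {n : ℕ} {ι : Fin 3 → Fin n} (hι : Function.Injective ι) {p : Fin n → Fin 2 → ℂ}
    (hp : Good ι p) : crm ι (crm ι p) = p := by
  obtain ⟨hd, hp⟩ := hp
  funext l
  by_cases hl : l ∈ Finset.univ.image ι
  · have h1 : crm ι (crm ι p) l = crm ι p l := by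
      conv_lhs => unfold crm
      rw [if_pos hl]
      rfl
    rw [h1]
    unfold crm
    rw [if_pos hl]
  · obtain ⟨hb, ht⟩ := hp l hl
    have h1 : crm ι (crm ι p) l = ![img ι (crm ι p) l 0 / img ι (crm ι p) l 2,
        img ι (crm ι p) l 1 / img ι (crm ι p) l 2] := by
      conv_lhs => unfold crm
      rw [if_neg hl]
      rfl
    have hk := inv_const hd hb ht
    rw [h1, inv_img hl ht]
    funext i
    fin_cases i
    · simp only [Pi.smul_apply, smul_eq_mul, Fin.zero_eta, Matrix.cons_val_zero]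
      rw [mul_div_mul_left _ _ hk]
      simp [hat]
    · simp only [Pi.smul_apply, smul_eq_mul, Fin.mk_one, Matrix.cons_val_one,
        Matrix.cons_val_fin_one]
      rw [mul_div_mul_left _ _ hk]
      simp [hat]

end Pool.MP_70e04f_ag.Cre

end

/-! ### from `Lib_MP_70e04f_cre.GenD` -/

section

/-!
# The quadratic transformation of a general configuration (piece CRGEND)

PAPER PROOF. Part (D) of the docstring of `Gen.lean`. Take `h0` from `exists_good`. For `(A)` let
`τ = σ = Fin n × Fin 2`, and let `T l c` be the polynomial with `eval p (T l c) = img ι p l c` (write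
`mat`, `bar`, `img` for the generic configuration with coordinates `X (l, c)` in the ring
`MvPolynomial (Fin n × Fin 2) ℂ`, and map with `eval`), `w = ∏ l, (if l is in the image then 1 else
T l 2)`, `u (l, c) = X (l, c) * w` if `l` is in the image and
`T l c * ∏ l' ≠ l, (if l' is in the image then 1 else T l' 2)` otherwise; so `eval p (u i) / eval p w`
is the coordinate `i` of `crm ι p` if `eval p w ≠ 0`.
-/

namespace Pool.MP_70e04f_ag.Cre

open MvPolynomial

/-- polynomials in the coordinates of a configuration -/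
abbrev GenD.RC (n : ℕ) := MvPolynomial (Fin n × Fin 2) ℂ

/-- evaluation at a configuration -/
noncomputable def GenD.ev {n : ℕ} (p : Fin n → Fin 2 → ℂ) : GenD.RC n →+* ℂ :=
  MvPolynomial.eval (fun q : Fin n × Fin 2 => p q.1 q.2)

/-- the generic point -/
noncomputable def GenD.hatP {n : ℕ} (l : Fin n) : Fin 3 → GenD.RC n := ![X (l, 0), X (l, 1), 1]

/-- the generic matrix -/
noncomputable def GenD.matP {n : ℕ} (ι : Fin 3 → Fin n) : Matrix (Fin 3) (Fin 3) (GenD.RC n) :=
  Matrix.of fun c j => GenD.hatP (ι j) c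

noncomputable def GenD.barP {n : ℕ} (ι : Fin 3 → Fin n) (l : Fin n) : Fin 3 → GenD.RC n :=
  (GenD.matP ι).adjugate.mulVec (GenD.hatP l)

noncomputable def GenD.imgP {n : ℕ} (ι : Fin 3 → Fin n) (l : Fin n) : Fin 3 → GenD.RC n :=
  (GenD.matP ι).mulVec ![GenD.barP ι l 1 * GenD.barP ι l 2, GenD.barP ι l 0 * GenD.barP ι l 2,
    GenD.barP ι l 0 * GenD.barP ι l 1]

lemma GenD.ev_hatP {n : ℕ} (p : Fin n → Fin 2 → ℂ) (l : Fin n) (c : Fin 3) :
    GenD.ev p (GenD.hatP l c) = hat (p l) c := by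
  fin_cases c <;> simp [GenD.ev, GenD.hatP, hat]

lemma GenD.ev_matP {n : ℕ} (ι : Fin 3 → Fin n) (p : Fin n → Fin 2 → ℂ) :
    (GenD.matP ι).map (GenD.ev p) = mat ι p := by
  ext c j
  simp only [Matrix.map_apply, GenD.matP, mat, Matrix.of_apply]
  exact GenD.ev_hatP p (ι j) c

lemma GenD.ev_barP {n : ℕ} (ι : Fin 3 → Fin n) (p : Fin n → Fin 2 → ℂ) (l : Fin n) (c : Fin 3) :
    GenD.ev p (GenD.barP ι l c) = bar ι p l c := by
  unfold GenD.barP bar
  rw [RingHom.map_mulVec]
  have h1 : (GenD.matP ι).adjugate.map (GenD.ev p) = (mat ι p).adjugate := by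
    rw [← GenD.ev_matP ι p]
    exact RingHom.map_adjugate (GenD.ev p) (GenD.matP ι)
  have h2 : (GenD.ev p) ∘ GenD.hatP l = hat (p l) := _root_.funext fun c => GenD.ev_hatP p l c
  rw [h1, h2]

lemma GenD.ev_imgP {n : ℕ} (ι : Fin 3 → Fin n) (p : Fin n → Fin 2 → ℂ) (l : Fin n) (c : Fin 3) :
    GenD.ev p (GenD.imgP ι l c) = img ι p l c := by
  unfold GenD.imgP img
  rw [RingHom.map_mulVec, GenD.ev_matP]
  have h2 : (GenD.ev p) ∘ ![GenD.barP ι l 1 * GenD.barP ι l 2,
      GenD.barP ι l 0 * GenD.barP ι l 2, GenD.barP ι l 0 * GenD.barP ι l 1] =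
      sg (bar ι p l) := by
    funext c
    fin_cases c <;> simp [sg, GenD.ev_barP]
  rw [h2]

/-- the factors of the common denominator -/
noncomputable def GenD.fac {n : ℕ} (ι : Fin 3 → Fin n) (l : Fin n) : GenD.RC n :=
  if l ∈ Finset.univ.image ι then 1 else GenD.imgP ι l 2

lemma GenD.ev_fac {n : ℕ} (ι : Fin 3 → Fin n) (p : Fin n → Fin 2 → ℂ) (l : Fin n) :
    GenD.ev p (GenD.fac ι l) = if l ∈ Finset.univ.image ι then 1 else img ι p l 2 := by
  unfold GenD.fac
  split_ifs
  · exact map_one _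
  · exact GenD.ev_imgP ι p l 2

/-- the numerators -/
noncomputable def GenD.num {n : ℕ} (ι : Fin 3 → Fin n) (i : Fin n × Fin 2) : GenD.RC n :=
  if i.1 ∈ Finset.univ.image ι then X i * ∏ l, GenD.fac ι l else
    GenD.imgP ι i.1 i.2.castSucc * ∏ l ∈ Finset.univ.erase i.1, GenD.fac ι l

lemma GenD.ev_w {n : ℕ} (ι : Fin 3 → Fin n) (p : Fin n → Fin 2 → ℂ) :
    GenD.ev p (∏ l, GenD.fac ι l) =
      ∏ l, (if l ∈ Finset.univ.image ι then 1 else img ι p l 2) := by
  rw [map_prod]
  exact Finset.prod_congr rfl fun l _ => GenD.ev_fac ι p l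

lemma GenD.quot {n : ℕ} (ι : Fin 3 → Fin n) (p : Fin n → Fin 2 → ℂ)
    (hw : GenD.ev p (∏ l, GenD.fac ι l) ≠ 0) (i : Fin n × Fin 2) :
    GenD.ev p (GenD.num ι i) / GenD.ev p (∏ l, GenD.fac ι l) = crm ι p i.1 i.2 := by
  unfold GenD.num crm
  by_cases h : i.1 ∈ Finset.univ.image ι
  · rw [if_pos h, if_pos h, map_mul, mul_div_assoc, div_self hw, mul_one]
    exact MvPolynomial.eval_X i
  · rw [if_neg h, if_neg h]
    have h1 := Finset.mul_prod_erase Finset.univ (GenD.fac ι) (Finset.mem_univ i.1)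
    have h2 : GenD.ev p (GenD.fac ι i.1) = img ι p i.1 2 := by
      rw [GenD.ev_fac, if_neg h]
    rw [← h1, map_mul, h2] at hw
    rw [← h1, map_mul, map_mul, h2, GenD.ev_imgP]
    obtain ⟨ha, hb⟩ := mul_ne_zero_iff.1 hw
    rw [mul_div_mul_right _ _ hb]
    obtain ⟨l, c⟩ := i
    fin_cases c <;> simp

lemma GenD.w_ne {n : ℕ} (ι : Fin 3 → Fin n) (p : Fin n → Fin 2 → ℂ) (hp : Good ι p) :
    GenD.ev p (∏ l, GenD.fac ι l) ≠ 0 := by
  rw [GenD.ev_w, Finset.prod_ne_zero_iff]
  intro l _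
  split_ifs with h
  · exact one_ne_zero
  · exact (hp.2 l h).2

theorem exists_generic {n : ℕ} (ι : Fin 3 → Fin n) (hι : Function.Injective ι)
    (g' : MvPolynomial (Fin n × Fin 2) ℂ) (hg' : g' ≠ 0) :
    ∃ g : MvPolynomial (Fin n × Fin 2) ℂ, g ≠ 0 ∧ ∀ p : Fin n → Fin 2 → ℂ,
      MvPolynomial.eval (fun q : Fin n × Fin 2 => p q.1 q.2) g ≠ 0 →
        Good ι p ∧ MvPolynomial.eval (fun q : Fin n × Fin 2 => crm ι p q.1 q.2) g' ≠ 0 := by
  obtain ⟨h0, hh0, hgood⟩ := exists_good ι hι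
  obtain ⟨G, N, hG⟩ := exists_clear (GenD.num ι) (∏ l, GenD.fac ι l) g'
  have key : ∀ p : Fin n → Fin 2 → ℂ, Good ι p →
      MvPolynomial.eval (fun q : Fin n × Fin 2 => p q.1 q.2) G =
        GenD.ev p (∏ l, GenD.fac ι l) ^ N *
          MvPolynomial.eval (fun q : Fin n × Fin 2 => crm ι p q.1 q.2) g' := by
    intro p hp
    have h1 := hG (fun q : Fin n × Fin 2 => p q.1 q.2) (GenD.w_ne ι p hp)
    rw [h1]
    have h2 : (fun i => MvPolynomial.eval (fun q : Fin n × Fin 2 => p q.1 q.2) (GenD.num ι i) /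
        MvPolynomial.eval (fun q : Fin n × Fin 2 => p q.1 q.2) (∏ l, GenD.fac ι l)) =
        fun q : Fin n × Fin 2 => crm ι p q.1 q.2 :=
      _root_.funext fun i => GenD.quot ι p (GenD.w_ne ι p hp) i
    rw [h2]
    rfl
  refine ⟨h0 * G, ?_, ?_⟩
  · have h1 : g' * h0 ≠ 0 := mul_ne_zero hg' hh0
    have h2 : ∃ x : Fin n × Fin 2 → ℂ, MvPolynomial.eval x (g' * h0) ≠ 0 := by
      by_contra hcon
      push Not at hcon
      exact h1 (MvPolynomial.funext fun x => by rw [hcon x, map_zero])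
    obtain ⟨x, hx⟩ := h2
    rw [map_mul] at hx
    obtain ⟨hx1, hx2⟩ := mul_ne_zero_iff.1 hx
    let p0 : Fin n → Fin 2 → ℂ := fun l c => x (l, c)
    have hp0 : (fun q : Fin n × Fin 2 => p0 q.1 q.2) = x := rfl
    have hg0 : Good ι p0 := (hgood p0).1 (by rw [hp0]; exact hx2)
    have hg1 : Good ι (crm ι p0) := crm_good hι hg0
    intro hz
    have h3 : MvPolynomial.eval (fun q : Fin n × Fin 2 => crm ι p0 q.1 q.2) (h0 * G) = 0 := by
      rw [hz, map_zero]
    rw [map_mul, key _ hg1, crm_crm hι hg0, hp0] at h3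
    have h4 := (hgood _).2 hg1
    have h5 := GenD.w_ne ι _ hg1
    exact mul_ne_zero h4 (mul_ne_zero (pow_ne_zero _ h5) hx1) h3
  · intro p hp
    rw [map_mul] at hp
    obtain ⟨h1, h2⟩ := mul_ne_zero_iff.1 hp
    have hg := (hgood p).1 h1
    refine ⟨hg, ?_⟩
    rw [key p hg] at h2
    exact (mul_ne_zero_iff.1 h2).2

end Pool.MP_70e04f_ag.Cre

end

/-! ### from `Lib_MP_70e04f_thin.TCreA` -/

section

/-!
# Piece TCREA: the dimension of a system after a linear substitution
-/

set_option autoImplicit false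

namespace Pool.MP_70e04f_ag.Cre

open MvPolynomial

/-- The space is transported by an algebra equivalence which respects degrees and ideals. -/
theorem TCreA_map {n d : ℕ} {m : Fin n → ℕ} {q q' : Fin n → Fin 3 → ℂ}
    (φ : R3 ≃ₐ[ℂ] R3) (h1 : ∀ F : R3, ∀ e, (φ F).IsHomogeneous e ↔ F.IsHomogeneous e)
    (h2 : ∀ F : R3, ∀ e, F.IsHomogeneous e → ∀ i j, φ F ∈ mi (q' i) ^ j ↔ F ∈ mi (q i) ^ j) :
    W d m q' = (W d m q).map (φ.toLinearEquiv : R3 →ₗ[ℂ] R3) := by
  ext G
  rw [Submodule.mem_map, CRLIN_mem_W]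
  constructor
  · rintro ⟨hG, hG'⟩
    refine ⟨φ.symm G, ?_, φ.apply_symm_apply G⟩
    have h3 : (φ.symm G).IsHomogeneous d := by
      rw [← h1, φ.apply_symm_apply]
      exact hG
    refine CRLIN_mem_W.mpr ⟨h3, fun i => ?_⟩
    rw [← h2 _ d h3, φ.apply_symm_apply]
    exact hG' i
  · rintro ⟨F, hF, rfl⟩
    obtain ⟨hF1, hF2⟩ := CRLIN_mem_W.mp hF
    exact ⟨(h1 F d).mpr hF1, fun i => (h2 F d hF1 i _).mpr (hF2 i)⟩

/-- PROOF. `F ↦ lin A⁻¹ F` and `F ↦ lin A F` are inverse bijections between `W d m q` and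
`W d m (A q)` (see the proofs of `CRLIN_transfer`, `HS.mat` in `Lib_MP_70e04f_cre/Lin.lean`). -/
theorem finrank_W_mat {n d : ℕ} {m : Fin n → ℕ} {q : Fin n → Fin 3 → ℂ}
    (A : Matrix (Fin 3) (Fin 3) ℂ) (hA : A.det ≠ 0) :
    Module.finrank ℂ ↥(W d m (fun i => A.mulVec (q i))) = Module.finrank ℂ ↥(W d m q) := by
  have hu : IsUnit A.det := isUnit_iff_ne_zero.mpr hA
  have h1 : A * A⁻¹ = 1 := Matrix.mul_nonsing_inv A hu
  have h2 : A⁻¹ * A = 1 := Matrix.nonsing_inv_mul A hu
  let φ : R3 ≃ₐ[ℂ] R3 := AlgEquiv.ofAlgHom (lin A⁻¹) (lin A)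
    (AlgHom.ext fun F => CRLIN_lin_lin h1 F) (AlgHom.ext fun F => CRLIN_lin_lin h2 F)
  have hφ : ∀ F, φ F = lin A⁻¹ F := fun F => rfl
  have e1 : W d m (fun i => A.mulVec (q i)) = (W d m q).map (φ.toLinearEquiv : R3 →ₗ[ℂ] R3) := by
    refine TCreA_map φ (fun F e => ⟨fun h3 => ?_, fun h3 => ?_⟩)
      (fun F e he i j => ⟨fun h3 => ?_, fun h3 => ?_⟩)
    · have h4 := CRLIN_hom A h3
      rwa [hφ, CRLIN_lin_lin h2] at h4
    · rw [hφ]
      exact CRLIN_hom _ h3
    · have h4 := mem_pow_map (q' := q i) (lin A) (fun G => eval_lin A G (q i)) h3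
      rwa [hφ, CRLIN_lin_lin h2] at h4
    · rw [hφ]
      refine mem_pow_map (lin A⁻¹) (fun G => ?_) h3
      rw [eval_lin, Matrix.mulVec_mulVec, h2, Matrix.one_mulVec]
  rw [e1]
  exact LinearEquiv.finrank_map_eq _ _

/-- PROOF. The two spaces are equal (as in `HS.smul`, for `c` and `c⁻¹`). -/
theorem W_smul {n d : ℕ} {m : Fin n → ℕ} {q : Fin n → Fin 3 → ℂ} (c : Fin n → ℂ)
    (hc : ∀ i, c i ≠ 0) : W d m (fun i => c i • q i) = W d m q := by
  ext F
  rw [CRLIN_mem_W, CRLIN_mem_W]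
  refine and_congr_right fun he => forall_congr' fun i => ?_
  constructor
  · intro h1
    have h2 := mem_mi_smul (inv_ne_zero (hc i)) he h1
    rwa [smul_smul, inv_mul_cancel₀ (hc i), one_smul] at h2
  · exact mem_mi_smul (hc i) he

end Pool.MP_70e04f_ag.Cre

end

/-! ### from `Lib_MP_70e04f_thin.TCreB` -/

section

/-!
# Piece TCREB: the dimension of a system and of its quadratic transform
-/

set_option autoImplicit false

namespace Pool.MP_70e04f_ag.Cre

open MvPolynomial

/-- PROOF. As the proof of `S.cremona` (`Lib_MP_70e04f_cre/ConfS.lean`), with the dimensions instead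
of the alternative: `finrank_W_hat`, `finrank_W_mat` with the adjugate of `mat ι p`, `W_smul`,
`finrank_cremona`, `finrank_W_mat` with `mat ι p`, `W_smul`, `finrank_W_hat`. -/
theorem finrank_V_crm {n d d' δ : ℕ} {m : Fin n → ℕ} {ι : Fin 3 → Fin n}
    (hι : Function.Injective ι) (hd : d' + δ = d) (hsum : ∑ j, m (ι j) = d + δ)
    (hlow : ∀ j, δ ≤ m (ι j) + 1) (hup : ∀ j, m (ι j) ≤ d)
    {p : Fin n → Fin 2 → ℂ} (hp : Good ι p) :
    Module.finrank ℂ ↥(V d' (cm m ι δ) (crm ι p)) = Module.finrank ℂ ↥(V d m p) := by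
  classical
  obtain ⟨hD, hl⟩ := hp
  have hDa : (mat ι p).adjugate.det ≠ 0 := by
    rw [Matrix.det_adjugate]
    exact pow_ne_zero _ hD
  let c1 : Fin n → ℂ := fun i => if i ∈ Finset.univ.image ι then (mat ι p).det⁻¹ else
    img ι p i 2 / (mat ι p).det
  have hc1 : ∀ i, c1 i ≠ 0 := by
    intro i
    change (if i ∈ Finset.univ.image ι then (mat ι p).det⁻¹ else
      img ι p i 2 / (mat ι p).det) ≠ 0
    by_cases hi : i ∈ Finset.univ.image ι
    · rw [if_pos hi]
      exact inv_ne_zero hD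
    · rw [if_neg hi]
      exact div_ne_zero (hl i hi).2 hD
  let c2 : Fin n → ℂ := fun i => if i ∈ Finset.univ.image ι then (mat ι p).det⁻¹ else 1
  have hc2 : ∀ i, c2 i ≠ 0 := by
    intro i
    change (if i ∈ Finset.univ.image ι then (mat ι p).det⁻¹ else (1 : ℂ)) ≠ 0
    by_cases hi : i ∈ Finset.univ.image ι
    · rw [if_pos hi]
      exact inv_ne_zero hD
    · rw [if_neg hi]
      exact one_ne_zero
  have hmem : ∀ j, ι j ∈ Finset.univ.image ι := fun j =>
    Finset.mem_image_of_mem ι (Finset.mem_univ j)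
  have h4 := finrank_cremona hι hd hsum hlow hup (q := fun i => c2 i • bar ι p i)
    (q' := fun i => c1 i • (mat ι p).adjugate.mulVec (hat (crm ι p i)))
    (by
      intro j
      change (if ι j ∈ Finset.univ.image ι then (mat ι p).det⁻¹ else (1 : ℂ)) • bar ι p (ι j) = _
      rw [if_pos (hmem j), confS_col, smul_smul, inv_mul_cancel₀ hD, one_smul])
    (by
      intro j
      change (if ι j ∈ Finset.univ.image ι then (mat ι p).det⁻¹ else
        img ι p (ι j) 2 / (mat ι p).det) • (mat ι p).adjugate.mulVec (hat (crm ι p (ι j))) = _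
      have e1 : crm ι p (ι j) = p (ι j) := by
        unfold crm
        rw [if_pos (hmem j)]
      rw [if_pos (hmem j), e1]
      have e2 := confS_col ι p j
      unfold bar at e2
      rw [e2, smul_smul, inv_mul_cancel₀ hD, one_smul])
    (by
      intro l hl'
      obtain ⟨k1, k2⟩ := hl l hl'
      have e0 : c2 l • bar ι p l = bar ι p l := by
        change (if l ∈ Finset.univ.image ι then (mat ι p).det⁻¹ else (1 : ℂ)) • bar ι p l = _
        rw [if_neg hl', one_smul]
      have e1 : hat (crm ι p l) = (img ι p l 2)⁻¹ • img ι p l := by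
        unfold crm
        rw [if_neg hl']
        funext c
        fin_cases c
        · change img ι p l 0 / img ι p l 2 = (img ι p l 2)⁻¹ * img ι p l 0
          rw [div_eq_inv_mul]
        · change img ι p l 1 / img ι p l 2 = (img ι p l 2)⁻¹ * img ι p l 1
          rw [div_eq_inv_mul]
        · change (1 : ℂ) = (img ι p l 2)⁻¹ * img ι p l 2
          rw [inv_mul_cancel₀ k2]
      refine ⟨fun c => ?_, ?_⟩
      · change (c2 l • bar ι p l) c ≠ 0
        rw [e0]
        exact k1 c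
      · change c1 l • (mat ι p).adjugate.mulVec (hat (crm ι p l)) = sg (c2 l • bar ι p l)
        rw [e0, e1, Matrix.mulVec_smul]
        have e3 : (mat ι p).adjugate.mulVec (img ι p l) = (mat ι p).det • sg (bar ι p l) := by
          unfold img
          rw [Matrix.mulVec_mulVec, Matrix.adjugate_mul, Matrix.smul_mulVec, Matrix.one_mulVec]
        change (if l ∈ Finset.univ.image ι then (mat ι p).det⁻¹ else
          img ι p l 2 / (mat ι p).det) • _ = _
        rw [if_neg hl', e3, smul_smul, smul_smul]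
        have e4 : img ι p l 2 / (mat ι p).det * (img ι p l 2)⁻¹ * (mat ι p).det = 1 := by
          field_simp
        rw [e4, one_smul])
  have a1 : W d' (cm m ι δ) (fun i => c1 i • (mat ι p).adjugate.mulVec (hat (crm ι p i))) =
      W d' (cm m ι δ) (fun i => (mat ι p).adjugate.mulVec (hat (crm ι p i))) :=
    W_smul (q := fun i => (mat ι p).adjugate.mulVec (hat (crm ι p i))) c1 hc1
  have a2 := finrank_W_mat (d := d') (m := cm m ι δ) (q := fun i => hat (crm ι p i))
    (mat ι p).adjugate hDa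
  have a3 := finrank_W_hat d' (cm m ι δ) (crm ι p)
  have b1 := finrank_W_mat (d := d) (m := m) (q := fun i => c2 i • bar ι p i) (mat ι p) hD
  have b2 := finrank_W_hat d m p
  have e : (fun i => (mat ι p).mulVec (c2 i • bar ι p i)) =
      fun i => (c2 i * (mat ι p).det) • hat (p i) := by
    funext i
    have e3 : (mat ι p).mulVec (bar ι p i) = (mat ι p).det • hat (p i) := by
      unfold bar
      rw [Matrix.mulVec_mulVec, Matrix.mul_adjugate, Matrix.smul_mulVec, Matrix.one_mulVec]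
    rw [Matrix.mulVec_smul, e3, smul_smul]
  have b3 : W d m (fun i => (mat ι p).mulVec (c2 i • bar ι p i)) =
      W d m (fun i => hat (p i)) := by
    rw [e]
    exact W_smul (q := fun i => hat (p i)) (fun i => c2 i * (mat ι p).det)
      (fun i => mul_ne_zero (hc2 i) hD)
  rw [a1, a2, a3] at h4
  rw [b3, b2] at b1
  rw [h4, ← b1]

end Pool.MP_70e04f_ag.Cre

end
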