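import Mathlib

/-!
# MP_70e04f_ag, plane linear systems: merged library part M02

Concatenation of smaller files (each in its own section), only to save build time.
-/

/-! ### from `Lib_MP_70e04f_ag.Lin` -/

section

/-!
Linear algebra: matrices of full rank, and openness of this condition.
-/

namespace Pool.MP_70e04f_ag

open Matrix

section
variable {I J K : Type*} [Fintype I] [Fintype J] [Field K]

/-- The kernel of `A` has the smallest dimension that the shape of `A` allows. -/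
def Good (A : Matrix J I K) : Prop :=
  Module.finrank K (LinearMap.ker A.mulVecLin) ≤ Fintype.card I - Fintype.card J

lemma good_of_left [DecidableEq I] (L : Matrix I J K) (X : Matrix J I K)
    (h : (L * X).det ≠ 0) : Good X := by
  have hk : LinearMap.ker X.mulVecLin = ⊥ := by
    rw [LinearMap.ker_eq_bot']
    intro v hv
    rw [Matrix.mulVecLin_apply] at hv
    have h1 : (L * X).mulVec v = 0 := by
      rw [← Matrix.mulVec_mulVec, hv, Matrix.mulVec_zero]
    exact Matrix.eq_zero_of_mulVec_eq_zero h h1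
  unfold Good
  rw [hk, finrank_bot]
  exact Nat.zero_le _

lemma good_of_right [DecidableEq J] (R : Matrix I J K) (X : Matrix J I K)
    (h : (X * R).det ≠ 0) : Good X := by
  have hr : LinearMap.range X.mulVecLin = ⊤ := by
    rw [LinearMap.range_eq_top]
    intro w
    have hu : IsUnit (X * R) := (Matrix.isUnit_iff_isUnit_det _).2 (isUnit_iff_ne_zero.2 h)
    refine ⟨R.mulVec ((X * R)⁻¹.mulVec w), ?_⟩
    rw [Matrix.mulVecLin_apply, Matrix.mulVec_mulVec, Matrix.mulVec_mulVec,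
      Matrix.mul_nonsing_inv _ ((Matrix.isUnit_iff_isUnit_det _).1 hu), Matrix.one_mulVec]
  have := LinearMap.finrank_range_add_finrank_ker X.mulVecLin
  rw [hr, finrank_top, Module.finrank_fintype_fun_eq_card, Module.finrank_fintype_fun_eq_card] at this
  unfold Good
  omega

lemma Good.exists_left [DecidableEq I] [DecidableEq J] {A : Matrix J I K} (h : Good A)
    (hc : Fintype.card I ≤ Fintype.card J) : ∃ L : Matrix I J K, L * A = 1 := by
  unfold Good at h
  rw [Nat.sub_eq_zero_of_le hc] at h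
  have hk : LinearMap.ker A.mulVecLin = ⊥ := by
    exact Submodule.finrank_eq_zero.1 (Nat.le_zero.1 h)
  obtain ⟨g, hg⟩ := A.mulVecLin.exists_leftInverse_of_injective hk
  refine ⟨LinearMap.toMatrix' g, ?_⟩
  have h1 : LinearMap.toMatrix' (g ∘ₗ Matrix.toLin' A) = 1 := by
    rw [Matrix.toLin'_apply', hg, LinearMap.toMatrix'_id]
  rw [LinearMap.toMatrix'_comp, LinearMap.toMatrix'_toLin'] at h1
  exact h1

lemma Good.exists_right [DecidableEq I] [DecidableEq J] {A : Matrix J I K} (h : Good A)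
    (hc : Fintype.card J ≤ Fintype.card I) : ∃ R : Matrix I J K, A * R = 1 := by
  unfold Good at h
  have h0 := LinearMap.finrank_range_add_finrank_ker A.mulVecLin
  rw [Module.finrank_fintype_fun_eq_card] at h0
  have hr : LinearMap.range A.mulVecLin = ⊤ := by
    apply Submodule.eq_top_of_finrank_eq
    have h2 := Submodule.finrank_le (LinearMap.range A.mulVecLin)
    rw [Module.finrank_fintype_fun_eq_card] at h2 ⊢
    omega
  obtain ⟨g, hg⟩ := A.mulVecLin.exists_rightInverse_of_surjective hr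
  refine ⟨LinearMap.toMatrix' g, ?_⟩
  have h1 : LinearMap.toMatrix' (Matrix.toLin' A ∘ₗ g) = 1 := by
    rw [Matrix.toLin'_apply', hg, LinearMap.toMatrix'_id]
  rw [LinearMap.toMatrix'_comp, LinearMap.toMatrix'_toLin'] at h1
  exact h1

/-- Being of full rank is an open condition. -/
theorem exists_detpoly [DecidableEq I] [DecidableEq J] {S : Type*} [CommRing S]
    (c : K →+* S) (F : Matrix J I S) (φ0 : S →+* K) (hφ0 : φ0.comp c = RingHom.id K)
    (h : Good (F.map φ0)) :
    ∃ g : S, φ0 g ≠ 0 ∧ ∀ φ : S →+* K, φ.comp c = RingHom.id K → φ g ≠ 0 → Good (F.map φ) := by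
  have hmap : ∀ (φ : S →+* K), φ.comp c = RingHom.id K → ∀ {P Q : Type _} (L : Matrix P Q K),
      (L.map c).map φ = L := by
    intro φ hφ P Q L
    ext i j
    simp only [Matrix.map_apply]
    exact congrArg (fun ψ : K →+* K => ψ (L i j)) hφ
  rcases le_total (Fintype.card I) (Fintype.card J) with hc | hc
  · obtain ⟨L, hL⟩ := h.exists_left hc
    have hd : ∀ φ : S →+* K, φ.comp c = RingHom.id K →
        φ ((L.map c * F).det) = (L * F.map φ).det := by
      intro φ hφ
      rw [RingHom.map_det, RingHom.mapMatrix_apply, Matrix.map_mul, hmap φ hφ]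
    refine ⟨(L.map c * F).det, ?_, ?_⟩
    · rw [hd φ0 hφ0, hL, Matrix.det_one]; exact one_ne_zero
    · intro φ hφ hne
      rw [hd φ hφ] at hne
      exact good_of_left L _ hne
  · obtain ⟨R, hR⟩ := h.exists_right hc
    have hd : ∀ φ : S →+* K, φ.comp c = RingHom.id K →
        φ ((F * R.map c).det) = (F.map φ * R).det := by
      intro φ hφ
      rw [RingHom.map_det, RingHom.mapMatrix_apply, Matrix.map_mul, hmap φ hφ]
    refine ⟨(F * R.map c).det, ?_, ?_⟩
    · rw [hd φ0 hφ0, hR, Matrix.det_one]; exact one_ne_zero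
    · intro φ hφ hne
      rw [hd φ hφ] at hne
      exact good_of_right R _ hne

/-- Full rank is preserved by field extension. -/
lemma Good.map [DecidableEq I] [DecidableEq J] {K' : Type*} [Field K'] (f : K →+* K')
    {A : Matrix J I K} (h : Good A) : Good (A.map f) := by
  rcases le_total (Fintype.card I) (Fintype.card J) with hc | hc
  · obtain ⟨L, hL⟩ := h.exists_left hc
    apply good_of_left (L.map f)
    rw [← Matrix.map_mul, hL, Matrix.map_one f (map_zero f) (map_one f), Matrix.det_one]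
    exact one_ne_zero
  · obtain ⟨R, hR⟩ := h.exists_right hc
    apply good_of_right (R.map f)
    rw [← Matrix.map_mul, hR, Matrix.map_one f (map_zero f) (map_one f), Matrix.det_one]
    exact one_ne_zero

/-- Full rank gives the exact dimension of the kernel. -/
lemma Good.finrank_eq {A : Matrix J I K} (h : Good A) :
    Module.finrank K (LinearMap.ker A.mulVecLin) = Fintype.card I - Fintype.card J := by
  have h0 := LinearMap.finrank_range_add_finrank_ker A.mulVecLin
  rw [Module.finrank_fintype_fun_eq_card] at h0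
  have h2 := Submodule.finrank_le (LinearMap.range A.mulVecLin)
  rw [Module.finrank_fintype_fun_eq_card] at h2
  unfold Good at h
  omega

/-- To bound the dimension of a kernel it is enough to kill it by few further conditions. -/
lemma finrank_ker_le {E : Type*} [Fintype E] (A : Matrix J I K) (θ : (I → K) →ₗ[K] (E → K))
    (h : ∀ v, A.mulVec v = 0 → θ v = 0 → v = 0) :
    Module.finrank K (LinearMap.ker A.mulVecLin) ≤ Fintype.card E := by
  have hinj : Function.Injective (θ.domRestrict (LinearMap.ker A.mulVecLin)) := by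
    rw [← LinearMap.ker_eq_bot, LinearMap.ker_eq_bot']
    rintro ⟨v, hv⟩ hv2
    have h1 : A.mulVec v = 0 := by simpa using hv
    have h2 : θ v = 0 := hv2
    exact Subtype.ext (h v h1 h2)
  have := LinearMap.finrank_le_finrank_of_injective hinj
  rwa [Module.finrank_fintype_fun_eq_card] at this

end

end Pool.MP_70e04f_ag

end

/-! ### from `Lib_MP_70e04f_strip.SMinor` -/

section

/-!
# Piece SMINOR: maximal minors
-/

set_option autoImplicit false

namespace Pool.MP_70e04f_ag.Strip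

open MvPolynomial

/-- The determinant of a product in terms of the minors of the second factor. -/
theorem SMinor_det_mul {K J I : Type*} [Field K] [Fintype J] [Fintype I] [DecidableEq I]
    (L : Matrix I J K) (A : Matrix J I K) :
    (L * A).det = ∑ f : I → J, (∏ i, L i (f i)) * (A.submatrix f id).det := by
  have h1 : (L * A) = fun i => ∑ j : J, L i j • A j := by
    funext i k
    simp [Matrix.mul_apply, Finset.sum_apply]
  have h2 := (Matrix.detRowAlternating (n := I) (R := K)).toMultilinearMap.map_sum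
    (fun (i : I) (j : J) => L i j • A j)
  have h3 : (L * A).det = (Matrix.detRowAlternating (n := I) (R := K)).toMultilinearMap
      (fun i => ∑ j : J, L i j • A j) := by
    rw [h1]; rfl
  rw [h3, h2]
  refine Finset.sum_congr rfl fun f _ => ?_
  have h4 := (Matrix.detRowAlternating (n := I) (R := K)).toMultilinearMap.map_smul_univ
    (fun i => L i (f i)) (fun i => A (f i))
  rw [h4]
  rfl

/-- Some minor of the second factor does not vanish. -/
theorem SMinor_exists {K J I : Type*} [Field K] [Fintype J] [Fintype I] [DecidableEq I]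
    (L : Matrix I J K) (A : Matrix J I K) (h : (L * A).det ≠ 0) :
    ∃ f : I → J, (A.submatrix f id).det ≠ 0 := by
  by_contra hc
  push Not at hc
  apply h
  rw [SMinor_det_mul]
  exact Finset.sum_eq_zero fun f _ => by rw [hc f, mul_zero]

/-- A matrix of maximal rank has a maximal minor which is not zero.
PROOF. `Good.exists_left`: `L * A = 1`, so the columns of `A` are linearly independent and its rows span
`I → K`; `exists_linearIndependent'` for the family of the rows gives a basis among the rows.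
`Matrix.linearIndependent_rows_iff_isUnit`. -/
theorem exists_minor_left {K J I : Type*} [Field K] [Fintype J] [Fintype I] [DecidableEq I]
    [DecidableEq J] {A : Matrix J I K} (h : Good A) (hc : Fintype.card I ≤ Fintype.card J) :
    ∃ f : I → J, (A.submatrix f id).det ≠ 0 := by
  obtain ⟨L, hL⟩ := h.exists_left hc
  refine SMinor_exists L A ?_
  rw [hL, Matrix.det_one]
  exact one_ne_zero

/-- PROOF. The same for the columns (or transpose). -/
theorem exists_minor_right {K J I : Type*} [Field K] [Fintype J] [Fintype I] [DecidableEq I]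
    [DecidableEq J] {A : Matrix J I K} (h : Good A) (hc : Fintype.card J ≤ Fintype.card I) :
    ∃ f : J → I, (A.submatrix id f).det ≠ 0 := by
  obtain ⟨R, hR⟩ := h.exists_right hc
  obtain ⟨f, hf⟩ := SMinor_exists R.transpose A.transpose (by
    rw [← Matrix.transpose_mul, hR, Matrix.det_transpose, Matrix.det_one]
    exact one_ne_zero)
  refine ⟨f, ?_⟩
  rw [← Matrix.det_transpose]
  exact hf

/-- PROOF. Let `k` be the rank condition: if the minor with rows `f` is not zero then the kernel of `A` is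
zero. (`good_of_left` with `L = (Matrix.submatrix 1 f id)`: `L * A = A.submatrix f id`.) -/
theorem good_of_minor_left {K J I : Type*} [Field K] [Fintype J] [Fintype I] [DecidableEq I]
    [DecidableEq J] {A : Matrix J I K} (f : I → J) (h : (A.submatrix f id).det ≠ 0) : Good A := by
  refine good_of_left ((1 : Matrix J J K).submatrix f id) A ?_
  have : (1 : Matrix J J K).submatrix f id * A = A.submatrix f id := by
    ext i j
    simp [Matrix.mul_apply, Matrix.one_apply]
  rw [this]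
  exact h

theorem good_of_minor_right {K J I : Type*} [Field K] [Fintype J] [Fintype I] [DecidableEq I]
    [DecidableEq J] {A : Matrix J I K} (f : J → I) (h : (A.submatrix id f).det ≠ 0) : Good A := by
  refine good_of_right ((1 : Matrix I I K).submatrix id f) A ?_
  have : A * (1 : Matrix I I K).submatrix id f = A.submatrix id f := by
    ext i j
    simp [Matrix.mul_apply, Matrix.one_apply]
  rw [this]
  exact h

end Pool.MP_70e04f_ag.Strip

end

/-! ### from `Lib_MP_70e04f_thin.TNumE` -/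

section

/-!
# Piece TNUME: a real inequality
-/

set_option autoImplicit false

namespace Pool.MP_70e04f_ag.Strip

/-- PROOF. Let `s = √q`, `x = l X ≥ m - s > 0`. `l ^ 2 ν ≤ q` and `hC` give
`q ^ 2 (l D) ≥ l ^ 5 ν ^ 2 D ≥ 1000000 x ^ 5`, and `ν ≤ X ^ 2` gives (`ν ^ 2 ≤ X ^ 4`) `D ≥ 1000000 X`,
`l D ≥ 1000000 x`. If `m ≤ 3` then `x ≥ 0.5857`, resp. `x ≥ 1.2679`, and
`1000000 x ≥ 9400 m ^ 3`. If `m ≥ 4`, `r = √m ≥ 2`: `x ≥ r ^ 2 - r ≥ r ^ 2 / 2`, `q ≤ r ^ 2`, so
`l D ≥ 1000000 r ^ 10 / (32 r ^ 4) ≥ 31000 r ^ 6`. -/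
theorem thin_real2 (m : ℕ) (l X ν D q : ℝ) (hm : 2 ≤ m) (hl : 0 ≤ l) (hX : 0 < X) (hν : 0 < ν)
    (hD : 0 ≤ D) (hq1 : 1 ≤ q) (hqm : q ≤ m) (hν1 : l ^ 2 * ν ≤ q) (hν2 : ν ≤ X ^ 2)
    (hC : 1000000 * X ^ 5 ≤ ν ^ 2 * D) (h1 : (m : ℝ) ≤ l * X + Real.sqrt q) :
    9400 * (m : ℝ) ^ 3 ≤ l * D := by
  have hm2 : (2 : ℝ) ≤ (m : ℝ) := by exact_mod_cast hm
  have hm0 : (0 : ℝ) < (m : ℝ) := by linarith
  have hq0 : (0 : ℝ) ≤ q := by linarith
  obtain ⟨s, hs⟩ : ∃ s, s = Real.sqrt q := ⟨_, rfl⟩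
  have hs0 : 0 ≤ s := hs ▸ Real.sqrt_nonneg q
  have hs2 : s ^ 2 = q := by rw [hs]; exact Real.sq_sqrt hq0
  rw [← hs] at h1
  obtain ⟨x, hx⟩ : ∃ x, x = l * X := ⟨_, rfl⟩
  rw [← hx] at h1
  have hx0 : 0 ≤ x := by rw [hx]; positivity
  have hlD : 0 ≤ l * D := by positivity
  -- (1) `l D ≥ 1000000 x`
  have hν4 : ν ^ 2 ≤ X ^ 4 := by
    calc ν ^ 2 ≤ (X ^ 2) ^ 2 := pow_le_pow_left₀ hν.le hν2 2
      _ = X ^ 4 := by ring
  have hD1 : 1000000 * X ≤ D := by
    have h2 : X ^ 4 * (1000000 * X) ≤ X ^ 4 * D := by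
      calc X ^ 4 * (1000000 * X) = 1000000 * X ^ 5 := by ring
        _ ≤ ν ^ 2 * D := hC
        _ ≤ X ^ 4 * D := mul_le_mul_of_nonneg_right hν4 hD
    exact le_of_mul_le_mul_left h2 (by positivity)
  have hlin : 1000000 * x ≤ l * D := by
    calc 1000000 * x = l * (1000000 * X) := by rw [hx]; ring
      _ ≤ l * D := mul_le_mul_of_nonneg_left hD1 hl
  -- (2) `q ^ 2 (l D) ≥ 1000000 x ^ 5`
  have hquint : 1000000 * x ^ 5 ≤ q ^ 2 * (l * D) := by
    have h3 : (l ^ 2 * ν) ^ 2 ≤ q ^ 2 := pow_le_pow_left₀ (by positivity) hν1 2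
    calc 1000000 * x ^ 5 = l ^ 5 * (1000000 * X ^ 5) := by rw [hx]; ring
      _ ≤ l ^ 5 * (ν ^ 2 * D) := mul_le_mul_of_nonneg_left hC (by positivity)
      _ = (l ^ 2 * ν) ^ 2 * (l * D) := by ring
      _ ≤ q ^ 2 * (l * D) := mul_le_mul_of_nonneg_right h3 hlD
  by_cases hm4 : 4 ≤ m
  · have hm4' : (4 : ℝ) ≤ (m : ℝ) := by exact_mod_cast hm4
    -- `s ≤ m / 2`
    have hsm : s ≤ (m : ℝ) / 2 := by
      by_contra hcon
      push Not at hcon
      have h5 : ((m : ℝ) / 2) ^ 2 < s ^ 2 := pow_lt_pow_left₀ hcon (by positivity) (by norm_num)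
      rw [hs2] at h5
      nlinarith
    have hxm : (m : ℝ) / 2 ≤ x := by linarith
    have h6 : ((m : ℝ) / 2) ^ 5 ≤ x ^ 5 := pow_le_pow_left₀ (by positivity) hxm 5
    have h7 : q ^ 2 ≤ (m : ℝ) ^ 2 := pow_le_pow_left₀ hq0 hqm 2
    have h8 : (m : ℝ) ^ 2 * (9400 * (m : ℝ) ^ 3) ≤ (m : ℝ) ^ 2 * (l * D) := by
      calc (m : ℝ) ^ 2 * (9400 * (m : ℝ) ^ 3) = 9400 * (m : ℝ) ^ 5 := by ring
        _ ≤ 1000000 * ((m : ℝ) / 2) ^ 5 := by
            have : (0 : ℝ) ≤ (m : ℝ) ^ 5 := by positivity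
            calc 9400 * (m : ℝ) ^ 5 ≤ 31250 * (m : ℝ) ^ 5 := by nlinarith
              _ = 1000000 * ((m : ℝ) / 2) ^ 5 := by ring
        _ ≤ 1000000 * x ^ 5 := by linarith
        _ ≤ q ^ 2 * (l * D) := hquint
        _ ≤ (m : ℝ) ^ 2 * (l * D) := mul_le_mul_of_nonneg_right h7 hlD
    exact le_of_mul_le_mul_left h8 (by positivity)
  · have hm' : m = 2 ∨ m = 3 := by omega
    rcases hm' with rfl | rfl
    · norm_num at h1 hqm ⊢
      have hs3 : s ≤ 3 / 2 := by
        by_contra hcon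
        push Not at hcon
        nlinarith
      linarith
    · norm_num at h1 hqm ⊢
      have hs3 : s ≤ 2 := by
        by_contra hcon
        push Not at hcon
        nlinarith
      linarith

end Pool.MP_70e04f_ag.Strip

end

/-! ### from `Lib_MP_70e04f_gon.GReal` -/

section

/-!
# Piece GREAL: real inequalities
-/

set_option autoImplicit false

namespace Pool.MP_70e04f_ag.Strip

/-- PROOF. `y ^ 2 ≤ x ^ 2 < 7 a`, so `(m - y) ^ 2 + y ^ 2 / 7 < q`, and
`(m - y) ^ 2 + y ^ 2 / 7 = m ^ 2 / 8 + (8 / 7) (y - 7 m / 8) ^ 2`. So `m ^ 2 < 8 q`. If `q ≤ m - 2`: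
`(m - 4) ^ 2 < 0`. If `q ≤ m - 1`, `m ≥ 7`: `m ^ 2 - 8 m + 8 < 0`, impossible. -/
theorem real_seven (m q x y a : ℝ) (hy : 0 ≤ y) (hyx : y ≤ x) (h : (m - y) ^ 2 + a ≤ q)
    (hq : q ≤ m - 2 ∨ (q ≤ m - 1 ∧ 7 ≤ m)) (h7 : x ^ 2 < 7 * a) : False := by
  have hy2 : y ^ 2 ≤ x ^ 2 := by nlinarith
  rcases hq with hq | ⟨hq, hm⟩
  · nlinarith [sq_nonneg (y - 7 * m / 8), sq_nonneg (m - 4)]
  · nlinarith [sq_nonneg (y - 7 * m / 8), mul_nonneg (sub_nonneg.mpr hm) (sub_nonneg.mpr hm)]

theorem GReal_case (m q c y a : ℝ) (hm : 0 < m) (h : (m - y) ^ 2 + a ≤ q)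
    (hc : 0 ≤ 4 * c ^ 3 * m * (63 / 100 * m ^ 3) - 3 * c ^ 4 * (63 / 100 * m ^ 3)
      - (63 / 100 * m ^ 3) ^ 2 * q - 4 * c ^ 6) : 63 / 100 * a * m ^ 3 ≤ y ^ 4 := by
  have hA : 0 < 63 / 100 * m ^ 3 := by positivity
  generalize hAm : 63 / 100 * m ^ 3 = A at hA hc
  have h1 : 0 ≤ (y - c) ^ 2 * (y ^ 2 + 2 * c * y + 3 * c ^ 2) :=
    mul_nonneg (sq_nonneg _) (by nlinarith [sq_nonneg (y + c), sq_nonneg c])
  have h2 : 0 ≤ A * (4 * c ^ 3 * y - 3 * c ^ 4 + A * ((m - y) ^ 2 - q)) := by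
    nlinarith [sq_nonneg (A * (y - m) + 2 * c ^ 3)]
  have h3 : 0 ≤ 4 * c ^ 3 * y - 3 * c ^ 4 + A * ((m - y) ^ 2 - q) :=
    (mul_nonneg_iff_of_pos_left hA).mp h2
  have h4 : A * a ≤ A * (q - (m - y) ^ 2) := mul_le_mul_of_nonneg_left (by linarith) hA.le
  have h5 : 63 / 100 * a * m ^ 3 = A * a := by rw [← hAm]; ring
  rw [h5]
  nlinarith [h1, h3, h4]

/-- PROOF. If `y ≥ m` then `a ≤ q ≤ m - 1 ≤ m` and `a m ^ 3 ≤ m ^ 4 ≤ x ^ 4`. Otherwise put `t = m - y`,
`0 < t ≤ m`; `a ≤ q - t ^ 2` and `x ^ 4 ≥ (m - t) ^ 4`. If `m ≥ 16`: `(m - t) ^ 4 ≥ m ^ 4 - 4 t m ^ 3` (Bernoulli) and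
`m - 4 t - (63 / 100) (m - 1 - t ^ 2) ≥ 0` (discriminant). For `3 ≤ m ≤ 15` (`interval_cases m`), with
`q = m - 2` if `m ≤ 6` and `q = m - 1` otherwise, the polynomial
`(m - t) ^ 4 - (63 / 100) (q - t ^ 2) m ^ 3` in `t` is positive everywhere (`nlinarith` with a square
`(t ^ 2 + α t + β) ^ 2`, and `(t - γ) ^ 2`); e.g. for `m = 7` its minimum is at `t = 1.45`. -/
theorem real_four (m : ℕ) (q x y a : ℝ) (hm : 3 ≤ m) (hy : 0 ≤ y) (hyx : y ≤ x) (ha : 0 < a)
    (h : (m - y) ^ 2 + a ≤ q) (hq : q ≤ m - 2 ∨ (q ≤ m - 1 ∧ 7 ≤ m)) :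
    63 / 100 * a * (m : ℝ) ^ 3 ≤ x ^ 4 := by
  have hm3 : (3 : ℝ) ≤ (m : ℝ) := by exact_mod_cast hm
  have hq1 : q ≤ (m : ℝ) - 1 := by
    rcases hq with hq | ⟨hq, _⟩ <;> linarith
  have hyx4 : y ^ 4 ≤ x ^ 4 := pow_le_pow_left₀ hy hyx 4
  refine le_trans ?_ hyx4
  have hm0 : (0 : ℝ) < (m : ℝ) := by linarith
  rcases le_or_gt (m : ℝ) y with hmy | hmy
  · have h1 : (m : ℝ) ^ 4 ≤ y ^ 4 := pow_le_pow_left₀ hm0.le hmy 4
    have h2 : a ≤ (m : ℝ) := by nlinarith [sq_nonneg ((m : ℝ) - y)]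
    have h3 : 63 / 100 * a * (m : ℝ) ^ 3 ≤ 1 * (m : ℝ) * (m : ℝ) ^ 3 := by
      apply mul_le_mul_of_nonneg_right _ (by positivity)
      nlinarith
    nlinarith
  · rcases le_or_gt 16 m with h16 | h16
    · have h16' : (16 : ℝ) ≤ (m : ℝ) := by exact_mod_cast h16
      have hm3' : (0 : ℝ) < (m : ℝ) ^ 3 := by positivity
      have hb : (m : ℝ) ^ 3 * (4 * y - 3 * (m : ℝ)) ≤ y ^ 4 := by
        have : 0 ≤ (y - (m : ℝ)) ^ 2 * (y ^ 2 + 2 * (m : ℝ) * y + 3 * (m : ℝ) ^ 2) := by
          positivity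
        nlinarith
      have hd : 63 / 100 * a ≤ 4 * y - 3 * (m : ℝ) := by
        nlinarith [sq_nonneg ((m : ℝ) - y - 200 / 63)]
      calc 63 / 100 * a * (m : ℝ) ^ 3 = (m : ℝ) ^ 3 * (63 / 100 * a) := by ring
        _ ≤ (m : ℝ) ^ 3 * (4 * y - 3 * (m : ℝ)) := mul_le_mul_of_nonneg_left hd hm3'.le
        _ ≤ y ^ 4 := hb
    · interval_cases m
      · exact GReal_case _ 1 (2) y a (by norm_num) (by rcases hq with hq | ⟨hq, h7⟩ <;> norm_num at * <;> linarith) (by norm_num)
      · exact GReal_case _ 2 (29 / 10) y a (by norm_num) (by rcases hq with hq | ⟨hq, h7⟩ <;> norm_num at * <;> linarith) (by norm_num)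
      · exact GReal_case _ 3 (37 / 10) y a (by norm_num) (by rcases hq with hq | ⟨hq, h7⟩ <;> norm_num at * <;> linarith) (by norm_num)
      · exact GReal_case _ 4 (23 / 5) y a (by norm_num) (by rcases hq with hq | ⟨hq, h7⟩ <;> norm_num at * <;> linarith) (by norm_num)
      · exact GReal_case _ 6 (11 / 2) y a (by norm_num) (by rcases hq with hq | ⟨hq, h7⟩ <;> norm_num at * <;> linarith) (by norm_num)
      · exact GReal_case _ 7 (32 / 5) y a (by norm_num) (by rcases hq with hq | ⟨hq, h7⟩ <;> norm_num at * <;> linarith) (by norm_num)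
      · exact GReal_case _ 8 (73 / 10) y a (by norm_num) (by rcases hq with hq | ⟨hq, h7⟩ <;> norm_num at * <;> linarith) (by norm_num)
      · exact GReal_case _ 9 (41 / 5) y a (by norm_num) (by rcases hq with hq | ⟨hq, h7⟩ <;> norm_num at * <;> linarith) (by norm_num)
      · exact GReal_case _ 10 (46 / 5) y a (by norm_num) (by rcases hq with hq | ⟨hq, h7⟩ <;> norm_num at * <;> linarith) (by norm_num)
      · exact GReal_case _ 11 (101 / 10) y a (by norm_num) (by rcases hq with hq | ⟨hq, h7⟩ <;> norm_num at * <;> linarith) (by norm_num)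
      · exact GReal_case _ 12 (111 / 10) y a (by norm_num) (by rcases hq with hq | ⟨hq, h7⟩ <;> norm_num at * <;> linarith) (by norm_num)
      · exact GReal_case _ 13 (12) y a (by norm_num) (by rcases hq with hq | ⟨hq, h7⟩ <;> norm_num at * <;> linarith) (by norm_num)
      · exact GReal_case _ 14 (13) y a (by norm_num) (by rcases hq with hq | ⟨hq, h7⟩ <;> norm_num at * <;> linarith) (by norm_num)

end Pool.MP_70e04f_ag.Strip

end
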