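import Mathlib

/-!
# MP_70e04f_ag, plane linear systems: merged library part M03

Concatenation of smaller files (each in its own section), only to save build time.
-/

namespace Pool.MP_70e04f_ag.Hex
end Pool.MP_70e04f_ag.Hex

namespace Pool.MP_70e04f_ag.Add
end Pool.MP_70e04f_ag.Add

/-! ### from `Lib_MP_70e04f_ag.Poly` -/

section

/-!
Bivariate polynomials, vanishing order at a point, and Taylor coefficients.
-/

namespace Pool.MP_70e04f_ag

open MvPolynomial

/-- The pairs `(a, b)` with `a + b < m`. -/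
def tri (m : ℕ) : Finset (ℕ × ℕ) :=
  (Finset.range m ×ˢ Finset.range m).filter (fun q => q.1 + q.2 < m)

lemma mem_tri {m : ℕ} {q : ℕ × ℕ} : q ∈ tri m ↔ q.1 + q.2 < m := by
  unfold tri
  rw [Finset.mem_filter, Finset.mem_product, Finset.mem_range, Finset.mem_range]
  omega

/-- The exponent vector `(a, b)`. -/
noncomputable def mon (a b : ℕ) : Fin 2 →₀ ℕ := Finsupp.single 0 a + Finsupp.single 1 b

lemma mon_zero' (a b : ℕ) : mon a b 0 = a := by simp [mon]
lemma mon_one' (a b : ℕ) : mon a b 1 = b := by simp [mon]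

lemma mon_inj {a b a' b' : ℕ} : mon a b = mon a' b' ↔ a = a' ∧ b = b' := by
  constructor
  · intro h
    exact ⟨by rw [← mon_zero' a b, h, mon_zero'], by rw [← mon_one' a b, h, mon_one']⟩
  · rintro ⟨rfl, rfl⟩; rfl

lemma mon_eta (s : Fin 2 →₀ ℕ) : mon (s 0) (s 1) = s := by
  ext i
  fin_cases i
  · exact mon_zero' _ _
  · exact mon_one' _ _

lemma degree_mon (a b : ℕ) : (mon a b).degree = a + b := by
  simp [mon]

/-- Translation of the variables. -/
noncomputable def shift {R : Type*} [CommRing R] (p : Fin 2 → R) :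
    MvPolynomial (Fin 2) R →ₐ[R] MvPolynomial (Fin 2) R :=
  aeval (fun i => X i + C (p i))

lemma shift_shift_neg {R : Type*} [CommRing R] (p : Fin 2 → R) (f : MvPolynomial (Fin 2) R) :
    shift (fun i => - p i) (shift p f) = f := by
  have : (shift (fun i => - p i)).comp (shift p) = AlgHom.id R _ := by
    apply MvPolynomial.algHom_ext
    intro i
    simp [shift]
  exact congrArg (fun ψ : MvPolynomial (Fin 2) R →ₐ[R] MvPolynomial (Fin 2) R => ψ f) this

/-- Univariate times univariate. -/
lemma coeff_sep {R : Type*} [CommRing R] (f g : Polynomial R) (α β : ℕ) :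
    coeff (mon α β) (Polynomial.aeval (X 0 : MvPolynomial (Fin 2) R) f *
      Polynomial.aeval (X 1 : MvPolynomial (Fin 2) R) g) = f.coeff α * g.coeff β := by
  classical
  induction f using Polynomial.induction_on' with
  | add f1 f2 h1 h2 => rw [map_add, add_mul, coeff_add, h1, h2, Polynomial.coeff_add, add_mul]
  | monomial a c =>
    induction g using Polynomial.induction_on' with
    | add g1 g2 h1 h2 => rw [map_add, mul_add, coeff_add, h1, h2, Polynomial.coeff_add, mul_add]
    | monomial b d =>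
      rw [Polynomial.aeval_monomial, Polynomial.aeval_monomial, Polynomial.coeff_monomial,
        Polynomial.coeff_monomial]
      have : algebraMap R (MvPolynomial (Fin 2) R) c * X 0 ^ a *
          (algebraMap R (MvPolynomial (Fin 2) R) d * X 1 ^ b) =
          monomial (mon a b) (c * d) := by
        rw [MvPolynomial.algebraMap_eq, mon, monomial_eq, Finsupp.prod_add_index', C_mul]
        · rw [Finsupp.prod_single_index (by simp), Finsupp.prod_single_index (by simp)]; ring
        · intro; simp
        · intro _ _ _; rw [pow_add]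
      rw [this, coeff_monomial]
      by_cases h1 : a = α
      · by_cases h2 : b = β
        · rw [if_pos (mon_inj.2 ⟨h1, h2⟩), if_pos h1, if_pos h2]
        · rw [if_neg (fun h => h2 (mon_inj.1 h).2), if_neg h2, mul_zero]
      · rw [if_neg (fun h => h1 (mon_inj.1 h).1), if_neg h1, zero_mul]

/-- The Taylor coefficient of index `(α, β)` at `(p, q)` of the monomial `x^a y^b`. -/
noncomputable def ec {R : Type*} [CommRing R] (p q : R) (a b α β : ℕ) : R :=
  ((Polynomial.X + Polynomial.C p) ^ a : Polynomial R).coeff α *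
    ((Polynomial.X + Polynomial.C q) ^ b : Polynomial R).coeff β

lemma coeff_shift_mon {R : Type*} [CommRing R] (p : Fin 2 → R) (a b α β : ℕ) :
    coeff (mon α β) (shift p (X 0 ^ a * X 1 ^ b)) = ec (p 0) (p 1) a b α β := by
  have : shift p (X 0 ^ a * X 1 ^ b) =
      Polynomial.aeval (X 0 : MvPolynomial (Fin 2) R) ((Polynomial.X + Polynomial.C (p 0)) ^ a) *
      Polynomial.aeval (X 1 : MvPolynomial (Fin 2) R)
        ((Polynomial.X + Polynomial.C (p 1)) ^ b) := by
    simp [shift]
  rw [this, coeff_sep]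
  rfl

lemma ec_map {R S : Type*} [CommRing R] [CommRing S] (φ : R →+* S) (p q : R) (a b α β : ℕ) :
    φ (ec p q a b α β) = ec (φ p) (φ q) a b α β := by
  unfold ec
  rw [map_mul, ← Polynomial.coeff_map, ← Polynomial.coeff_map]
  simp

/-- Membership in a power of the maximal ideal of a point, by Taylor coefficients. -/
theorem mem_ker_pow_iff {K : Type*} [Field K] (p : Fin 2 → K) (m : ℕ)
    (f : MvPolynomial (Fin 2) K) :
    f ∈ (RingHom.ker (MvPolynomial.eval p) : Ideal (MvPolynomial (Fin 2) K)) ^ m ↔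
      ∀ q ∈ tri m, coeff (mon q.1 q.2) (shift p f) = 0 := by
  have hker : ∀ g : MvPolynomial (Fin 2) K, g ∈ idealOfVars (Fin 2) K ↔ coeff 0 g = 0 := by
    intro g
    have := mem_pow_idealOfVars_iff' (σ := Fin 2) (R := K) 1 g
    rw [pow_one] at this
    rw [this]
    constructor
    · intro h; exact h 0 (by simp)
    · intro h x hx
      have : x = 0 := by
        rw [Nat.lt_one_iff] at hx
        exact (Finsupp.degree_eq_zero_iff x).1 hx
      rw [this]; exact h
  have hev : ∀ g : MvPolynomial (Fin 2) K, coeff 0 (shift p g) = eval p g := by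
    intro g
    have : (constantCoeff : MvPolynomial (Fin 2) K →+* K).comp (shift p).toRingHom
        = (eval p : MvPolynomial (Fin 2) K →+* K) := by
      apply MvPolynomial.ringHom_ext
      · intro r; simp [shift]
      · intro i; simp [shift]
    have := congrArg (fun ψ : MvPolynomial (Fin 2) K →+* K => ψ g) this
    exact this
  have hev' : ∀ g : MvPolynomial (Fin 2) K, eval p (shift (fun i => - p i) g) = coeff 0 g := by
    intro g
    rw [← hev]
    have := shift_shift_neg (fun i => - p i) g
    simp only [neg_neg] at this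
    rw [this]
  have h1 : Ideal.map (shift p).toRingHom (RingHom.ker (MvPolynomial.eval p)) ≤
      idealOfVars (Fin 2) K := by
    rw [Ideal.map_le_iff_le_comap]
    intro g hg
    rw [Ideal.mem_comap, hker]
    change coeff 0 (shift p g) = 0
    rw [hev]; exact hg
  have h2 : Ideal.map (shift (fun i => - p i)).toRingHom (idealOfVars (Fin 2) K) ≤
      RingHom.ker (MvPolynomial.eval p) := by
    rw [Ideal.map_le_iff_le_comap]
    intro g hg
    rw [Ideal.mem_comap, RingHom.mem_ker]
    change eval p (shift (fun i => - p i) g) = 0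
    rw [hev', ← hker]; exact hg
  have h3 : f ∈ (RingHom.ker (MvPolynomial.eval p) : Ideal (MvPolynomial (Fin 2) K)) ^ m ↔
      shift p f ∈ idealOfVars (Fin 2) K ^ m := by
    constructor
    · intro hf
      have := Ideal.mem_map_of_mem (shift p).toRingHom hf
      rw [Ideal.map_pow] at this
      exact Ideal.pow_right_mono h1 m this
    · intro hf
      have := Ideal.mem_map_of_mem (shift (fun i => - p i)).toRingHom hf
      rw [Ideal.map_pow] at this
      have := Ideal.pow_right_mono h2 m this
      have h4 := shift_shift_neg p f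
      change shift (fun i => - p i) (shift p f) ∈ _ at this
      rwa [h4] at this
  rw [h3, mem_pow_idealOfVars_iff']
  constructor
  · intro h q hq
    apply h
    rw [degree_mon]; exact mem_tri.1 hq
  · intro h x hx
    have := h (x 0, x 1) (mem_tri.2 (by rw [← mon_eta x, degree_mon] at hx; exact hx))
    rwa [mon_eta] at this

end Pool.MP_70e04f_ag

end

/-! ### from `Lib_MP_70e04f_ag.Mat` -/

section

/-!
The matrix of conditions, and the linear system of curves.
-/

namespace Pool.MP_70e04f_ag

open MvPolynomial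

/-- The matrix of the vanishing conditions on the polynomials of degree `< N`. -/
noncomputable def condMat {R : Type*} [CommRing R] {n : ℕ} (N : ℕ) (m : Fin n → ℕ)
    (p : Fin n → Fin 2 → R) : Matrix (Σ i : Fin n, ↥(tri (m i))) ↥(tri N) R :=
  fun c q => ec (p c.1 0) (p c.1 1) q.1.1 q.1.2 c.2.1.1 c.2.1.2

lemma condMat_map {R S : Type*} [CommRing R] [CommRing S] {n : ℕ} (N : ℕ) (m : Fin n → ℕ)
    (p : Fin n → Fin 2 → R) (φ : R →+* S) :
    (condMat N m p).map φ = condMat N m (fun i j => φ (p i j)) := by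
  ext c q
  exact ec_map φ _ _ _ _ _ _

/-- The polynomial with given coefficients. -/
noncomputable def toPoly (K : Type*) [Field K] (N : ℕ) :
    (↥(tri N) → K) →ₗ[K] MvPolynomial (Fin 2) K :=
  Fintype.linearCombination K (fun q : ↥(tri N) => (X 0 ^ q.1.1 * X 1 ^ q.1.2 : MvPolynomial (Fin 2) K))

lemma toPoly_apply {K : Type*} [Field K] {N : ℕ} (v : ↥(tri N) → K) :
    toPoly K N v = ∑ q : ↥(tri N), v q • (X 0 ^ q.1.1 * X 1 ^ q.1.2 : MvPolynomial (Fin 2) K) := rfl

lemma X_pow_mul_X_pow {K : Type*} [Field K] (a b : ℕ) :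
    (X 0 ^ a * X 1 ^ b : MvPolynomial (Fin 2) K) = monomial (mon a b) 1 := by
  rw [mon, monomial_eq, Finsupp.prod_add_index']
  · rw [Finsupp.prod_single_index (by simp), Finsupp.prod_single_index (by simp)]; simp
  · intro; simp
  · intro _ _ _; rw [pow_add]

lemma coeff_toPoly {K : Type*} [Field K] {N : ℕ} (v : ↥(tri N) → K) (q : ↥(tri N)) :
    coeff (mon q.1.1 q.1.2) (toPoly K N v) = v q := by
  classical
  rw [toPoly_apply, coeff_sum]
  simp only [coeff_smul, X_pow_mul_X_pow, coeff_monomial, smul_eq_mul, mul_ite, mul_one, mul_zero]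
  rw [Finset.sum_eq_single q]
  · simp
  · intro b _ hb
    rw [if_neg]
    intro h
    apply hb
    have := mon_inj.1 h
    exact Subtype.ext (Prod.ext this.1 this.2)
  · intro h; exact absurd (Finset.mem_univ q) h

lemma toPoly_injective (K : Type*) [Field K] (N : ℕ) : Function.Injective (toPoly K N) := by
  intro v w h
  funext q
  rw [← coeff_toPoly v q, h, coeff_toPoly]

lemma mem_range_toPoly {K : Type*} [Field K] (d : ℕ) (f : MvPolynomial (Fin 2) K) :
    f ∈ restrictTotalDegree (Fin 2) K d ↔ ∃ v, toPoly K (d + 1) v = f := by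
  classical
  rw [mem_restrictTotalDegree]
  constructor
  · intro h
    refine ⟨fun q => coeff (mon q.1.1 q.1.2) f, ?_⟩
    ext s
    by_cases hs : s 0 + s 1 < d + 1
    · have := coeff_toPoly (K := K) (N := d + 1) (fun q => coeff (mon q.1.1 q.1.2) f)
        ⟨(s 0, s 1), mem_tri.2 hs⟩
      simpa only [mon_eta] using this
    · have h1 : coeff s f = 0 := by
        apply coeff_eq_zero_of_totalDegree_lt
        have : s.degree = s 0 + s 1 := by rw [← mon_eta s, degree_mon]; simp [mon]
        have h2 : ∑ i ∈ s.support, s i = s.degree := rfl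
        rw [h2, this]; omega
      rw [h1, toPoly_apply, coeff_sum]
      apply Finset.sum_eq_zero
      intro q _
      rw [coeff_smul, X_pow_mul_X_pow, coeff_monomial, if_neg, smul_zero]
      intro h
      apply hs
      rw [← h, mon_zero', mon_one']
      exact mem_tri.1 q.2
  · rintro ⟨v, rfl⟩
    rw [toPoly_apply]
    apply (totalDegree_finsetSum _ _).trans
    apply Finset.sup_le
    intro q _
    refine (totalDegree_smul_le _ _).trans ?_
    rw [X_pow_mul_X_pow]
    refine (totalDegree_monomial_le _ _).trans ?_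
    have : (mon q.1.1 q.1.2).sum (fun _ => id) = q.1.1 + q.1.2 := degree_mon _ _
    rw [this]
    have := mem_tri.1 q.2
    omega

/-- The conditions on `toPoly v` at all points are the equations `condMat v = 0`. -/
lemma toPoly_mem_iff {K : Type*} [Field K] {n : ℕ} (N : ℕ) (m : Fin n → ℕ)
    (p : Fin n → Fin 2 → K) (v : ↥(tri N) → K) :
    (∀ i, toPoly K N v ∈ (RingHom.ker (MvPolynomial.eval (p i)) :
      Ideal (MvPolynomial (Fin 2) K)) ^ m i) ↔ (condMat N m p).mulVec v = 0 := by
  have key : ∀ (i : Fin n) (q : ℕ × ℕ), coeff (mon q.1 q.2) (shift (p i) (toPoly K N v)) =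
      ∑ r : ↥(tri N), ec (p i 0) (p i 1) r.1.1 r.1.2 q.1 q.2 * v r := by
    intro i q
    rw [toPoly_apply, map_sum, coeff_sum]
    refine Finset.sum_congr rfl fun r _ => ?_
    rw [map_smul, coeff_smul, coeff_shift_mon, smul_eq_mul, mul_comm]
  constructor
  · intro h
    funext c
    have := (mem_ker_pow_iff (p c.1) (m c.1) _).1 (h c.1) c.2.1 c.2.2
    rw [key] at this
    exact this
  · intro h i
    rw [mem_ker_pow_iff]
    intro q hq
    rw [key]
    exact congrFun h ⟨i, ⟨q, hq⟩⟩

/-- The linear system `L(d; m)` at the points `p`. -/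
noncomputable def system (K : Type*) [Field K] {n : ℕ} (d : ℕ) (m : Fin n → ℕ)
    (p : Fin n → Fin 2 → K) : Submodule K (MvPolynomial (Fin 2) K) :=
  restrictTotalDegree (Fin 2) K d ⊓
    ⨅ i : Fin n, Submodule.restrictScalars K
      ((RingHom.ker (MvPolynomial.eval (p i)) : Ideal (MvPolynomial (Fin 2) K)) ^ m i)

lemma system_eq_map (K : Type*) [Field K] {n : ℕ} (d : ℕ) (m : Fin n → ℕ)
    (p : Fin n → Fin 2 → K) :
    system K d m p = (LinearMap.ker (condMat (d + 1) m p).mulVecLin).map (toPoly K (d + 1)) := by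
  ext f
  rw [system, Submodule.mem_inf, Submodule.mem_iInf, mem_range_toPoly, Submodule.mem_map]
  constructor
  · rintro ⟨⟨v, rfl⟩, h⟩
    refine ⟨v, ?_, rfl⟩
    rw [LinearMap.mem_ker, Matrix.mulVecLin_apply, ← toPoly_mem_iff]
    exact h
  · rintro ⟨v, hv, rfl⟩
    refine ⟨⟨v, rfl⟩, ?_⟩
    rw [LinearMap.mem_ker, Matrix.mulVecLin_apply, ← toPoly_mem_iff] at hv
    exact hv

lemma finrank_system (K : Type*) [Field K] {n : ℕ} (d : ℕ) (m : Fin n → ℕ)
    (p : Fin n → Fin 2 → K) :
    Module.finrank K (system K d m p) =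
      Module.finrank K (LinearMap.ker (condMat (d + 1) m p).mulVecLin) := by
  rw [system_eq_map]
  exact (LinearEquiv.finrank_eq (Submodule.equivMapOfInjective _ (toPoly_injective K (d + 1)) _)).symm

end Pool.MP_70e04f_ag

end

/-! ### from `Lib_MP_70e04f_add.Defs` -/

section

/-!
# Adding small points to a linear system: definitions

`Lsys N mT q` is the space of real polynomials of degree `< N` with multiplicity `mT t` at `q t`.
-/

namespace Pool.MP_70e04f_ag.Add

open MvPolynomial Pool.MP_70e04f_ag.Hex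

/-- The polynomial with exponents in `S` and given coefficients. -/
noncomputable def toPS (S : Finset (ℕ × ℕ)) : (↥S → ℝ) →ₗ[ℝ] MvPolynomial (Fin 2) ℝ :=
  Fintype.linearCombination ℝ
    (fun q : ↥S => (X 0 ^ q.1.1 * X 1 ^ q.1.2 : MvPolynomial (Fin 2) ℝ))

/-- The polynomials vanishing to order `m t` at `q t`. -/
noncomputable def vanish {τ : Type*} (m : τ → ℕ) (q : τ → Fin 2 → ℝ) :
    Submodule ℝ (MvPolynomial (Fin 2) ℝ) :=
  ⨅ t, Submodule.restrictScalars ℝ
    ((RingHom.ker (MvPolynomial.eval (q t)) : Ideal (MvPolynomial (Fin 2) ℝ)) ^ m t)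

lemma mem_vanish {τ : Type*} {m : τ → ℕ} {q : τ → Fin 2 → ℝ} {F : MvPolynomial (Fin 2) ℝ} :
    F ∈ vanish m q ↔ ∀ t, F ∈ (RingHom.ker (MvPolynomial.eval (q t)) :
      Ideal (MvPolynomial (Fin 2) ℝ)) ^ m t := by
  unfold vanish
  rw [Submodule.mem_iInf]
  rfl

/-- The system of polynomials of degree `< N`. -/
noncomputable def Lsys {τ : Type*} (N : ℕ) (m : τ → ℕ) (q : τ → Fin 2 → ℝ) :
    Submodule ℝ (MvPolynomial (Fin 2) ℝ) :=
  LinearMap.range (toPS (tri N)) ⊓ vanish m q

/-- The dimension of the system. -/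
noncomputable def hT {τ : Type*} (N : ℕ) (m : τ → ℕ) (q : τ → Fin 2 → ℝ) : ℕ :=
  Module.finrank ℝ (Lsys N m q)

/-- The equation of the curve `y = x ^ k`. -/
noncomputable def fk (k : ℕ) : MvPolynomial (Fin 2) ℝ := X 1 - X 0 ^ k

/-- The substitution `y = u + x ^ k`. -/
noncomputable def psi (k : ℕ) : MvPolynomial (Fin 2) ℝ →ₐ[ℝ] MvPolynomial (Fin 2) ℝ :=
  aeval ![X 0, X 1 + X 0 ^ k]

/-- A box containing the exponents of `psi k F` for `F` of degree `< N`. -/
def box (k N : ℕ) : Finset (ℕ × ℕ) := Finset.range ((k + 1) * N) ×ˢ Finset.range N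

lemma mem_box {k N : ℕ} {q : ℕ × ℕ} : q ∈ box k N ↔ q.1 < (k + 1) * N ∧ q.2 < N := by
  unfold box
  rw [Finset.mem_product, Finset.mem_range, Finset.mem_range]

/-- The weight of an exponent: small second coordinate first, then large first coordinate. -/
def wt (N0 : ℕ) (q : ℕ × ℕ) : ℤ := (q.1 : ℤ) - (N0 : ℤ) * (q.2 : ℤ)

/-- The leading indices of a space of vectors, for the weight `ω`. -/
noncomputable def lead {I : Type*} [Fintype I] (ω : I → ℤ) (V : Submodule ℝ (I → ℝ)) :
    Finset I := by
  classical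
  exact Finset.univ.filter (fun q => ∃ w ∈ V, w q ≠ 0 ∧ ∀ r, ω q < ω r → w r = 0)

lemma mem_lead {I : Type*} [Fintype I] {ω : I → ℤ} {V : Submodule ℝ (I → ℝ)} {q : I} :
    q ∈ lead ω V ↔ ∃ w ∈ V, w q ≠ 0 ∧ ∀ r, ω q < ω r → w r = 0 := by
  classical
  unfold lead
  rw [Finset.mem_filter]
  simp

/-- The vectors whose support has second coordinates `≥ j`. -/
def low (S : Finset (ℕ × ℕ)) (j : ℕ) : Submodule ℝ (↥S → ℝ) where
  carrier := {v | ∀ q : ↥S, q.1.2 < j → v q = 0}
  add_mem' := by
    intro v w hv hw q hq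
    rw [Pi.add_apply, hv q hq, hw q hq, add_zero]
  zero_mem' := fun _ _ => rfl
  smul_mem' := by
    intro a v hv q hq
    rw [Pi.smul_apply, hv q hq, smul_zero]

lemma mem_low {S : Finset (ℕ × ℕ)} {j : ℕ} {v : ↥S → ℝ} :
    v ∈ low S j ↔ ∀ q : ↥S, q.1.2 < j → v q = 0 := Iff.rfl

/-- The points of the cuspidal cubic `y ^ 2 = x ^ 3`. -/
def cpt {τ : Type*} (e : τ → ℝ) (t : τ) : Fin 2 → ℝ := ![e t ^ 2, e t ^ 3]

end Pool.MP_70e04f_ag.Add

end

/-! ### from `Lib_MP_70e04f_nine.Defs` -/

section

/-!
# Adding small points along a curve of any class: definitions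

`pt p` is the maximal ideal of the point `p` of the real plane. `IsCurve k c q f P` says that `f` is
an irreducible curve of degree `k` with multiplicity exactly `c t` at `q t`, smooth at `P`. `br` is
the restriction to a branch of the curve at `P` (power series), `phi` is the corresponding
polynomial change of coordinates, with the branch truncated. `InitMon N0 q H` says that the
monomial `q` is the unique monomial of least weight `a + N0 * b` of `H`.
-/

namespace Pool.MP_70e04f_ag.Nine

open MvPolynomial Pool.MP_70e04f_ag.Hex Pool.MP_70e04f_ag.Add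

/-- The maximal ideal of a point. -/
noncomputable abbrev pt (p : Fin 2 → ℝ) : Ideal (MvPolynomial (Fin 2) ℝ) :=
  RingHom.ker (MvPolynomial.eval p)

/-- An irreducible curve with exact degree and multiplicities, smooth at the point `P`. -/
structure IsCurve {τ : Type*} (k : ℕ) (c : τ → ℕ) (q : τ → Fin 2 → ℝ)
    (f : MvPolynomial (Fin 2) ℝ) (P : Fin 2 → ℝ) : Prop where
  mem : f ∈ Lsys (k + 1) c q
  irr : Irreducible f
  deg : f.totalDegree = k
  top : coeff (mon 0 k) f ≠ 0
  exact : ∀ t, f ∉ pt (q t) ^ (c t + 1)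
  zero : MvPolynomial.eval P f = 0
  smooth : MvPolynomial.eval P (pderiv 0 f) ≠ 0 ∨ MvPolynomial.eval P (pderiv 1 f) ≠ 0

/-- The translation of `P` to the origin, followed by a shear. -/
noncomputable def shear (P : Fin 2 → ℝ) (lam : ℝ) :
    MvPolynomial (Fin 2) ℝ →ₐ[ℝ] MvPolynomial (Fin 2) ℝ :=
  aeval ![C (P 0) + X 0 + C lam * X 1, C (P 1) + X 1]

/-- The restriction to a branch through `P`. -/
noncomputable def br (P : Fin 2 → ℝ) (lam : ℝ) (η : PowerSeries ℝ) :
    MvPolynomial (Fin 2) ℝ →ₐ[ℝ] PowerSeries ℝ :=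
  aeval ![PowerSeries.C (P 0) + PowerSeries.X + PowerSeries.C lam * η, PowerSeries.C (P 1) + η]

/-- The change of coordinates straightening the truncated branch. -/
noncomputable def phi (P : Fin 2 → ℝ) (lam : ℝ) (η : Polynomial ℝ) :
    MvPolynomial (Fin 2) ℝ →ₐ[ℝ] MvPolynomial (Fin 2) ℝ :=
  aeval ![C (P 0) + X 0 + C lam * (Polynomial.aeval (X 0) η + X 1),
    C (P 1) + (Polynomial.aeval (X 0) η + X 1)]

/-- The corresponding map of the points. -/
noncomputable def phiPt (P : Fin 2 → ℝ) (lam : ℝ) (η : Polynomial ℝ) (p : Fin 2 → ℝ) :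
    Fin 2 → ℝ :=
  ![P 0 + p 0 + lam * (η.eval (p 0) + p 1), P 1 + (η.eval (p 0) + p 1)]

/-- The monomial `q` is the unique monomial of least weight of `H`. -/
def InitMon (N0 : ℕ) (q : ℕ × ℕ) (H : MvPolynomial (Fin 2) ℝ) : Prop :=
  coeff (mon q.1 q.2) H ≠ 0 ∧
    ∀ a b : ℕ, (a, b) ≠ q → a + N0 * b ≤ q.1 + N0 * q.2 → coeff (mon a b) H = 0

end Pool.MP_70e04f_ag.Nine

end
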