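import Mathlib

/-!
# MP_70e04f_ag, plane linear systems: merged library part M04

Concatenation of smaller files (each in its own section), only to save build time.
-/

namespace Pool.MP_70e04f_ag.Hex
end Pool.MP_70e04f_ag.Hex

namespace Pool.MP_70e04f_ag.Add
end Pool.MP_70e04f_ag.Add

namespace Pool.MP_70e04f_ag.Nine
end Pool.MP_70e04f_ag.Nine

/-! ### from `Lib_MP_70e04f_ag.Descartes` -/

section

/-!
Descartes' rule of signs in the form used below, and the elimination lemma.
-/

namespace Pool.MP_70e04f_ag

open Polynomial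

/-- The number of sign variations is less than the number of terms. -/
lemma signVariations_lt_card_support :
    ∀ (n : ℕ) (P : ℝ[X]), P ≠ 0 → P.support.card = n → P.signVariations + 1 ≤ n := by
  intro n
  induction n with
  | zero =>
    intro P hP hc
    exact absurd (Polynomial.support_eq_empty.1 (Finset.card_eq_zero.1 hc)) hP
  | succ n ih =>
    intro P hP hc
    by_cases he : P.eraseLead = 0
    · have : P = monomial P.natDegree P.leadingCoeff := by
        have := Polynomial.eraseLead_add_monomial_natDegree_leadingCoeff P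
        rw [he, zero_add] at this
        exact this.symm
      rw [this, Polynomial.signVariations_monomial]
      omega
    · have h1 : P.eraseLead.support.card = n := by
        have := Polynomial.card_support_eraseLead' (f := P) (c := n) hc
        exact this
      have h2 := ih P.eraseLead he h1
      have h3 := Polynomial.signVariations_le_eraseLead_succ P
      omega

/-- A real polynomial with at most `∑ w i` terms cannot vanish to order `w i` at distinct
positive reals `x i`, unless it is zero. -/
theorem descartes {ι : Type*} (f : ℝ[X]) (s : Finset ι) (x : ι → ℝ) (w : ι → ℕ)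
    (hx : ∀ i ∈ s, 0 < x i) (hinj : Set.InjOn x s)
    (hdvd : ∀ i ∈ s, (X - C (x i)) ^ (w i) ∣ f) (hcard : f.support.card ≤ ∑ i ∈ s, w i) :
    f = 0 := by
  classical
  by_contra hf
  have hprod : (∏ i ∈ s, (X - C (x i)) ^ (w i)) ∣ f := by
    apply Finset.prod_dvd_of_coprime
    · intro i hi j hj hij
      apply IsCoprime.pow
      apply Polynomial.isCoprime_X_sub_C_of_isUnit_sub
      have : x i ≠ x j := fun h => hij (hinj hi hj h)
      exact (sub_ne_zero.2 this).isUnit
    · exact hdvd
  have hne : (∏ i ∈ s, (X - C (x i)) ^ (w i)) ≠ 0 := by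
    apply Finset.prod_ne_zero_iff.2
    intro i _
    exact pow_ne_zero _ (X_sub_C_ne_zero _)
  have hroots : (∏ i ∈ s, (X - C (x i)) ^ (w i)).roots ≤ f.roots :=
    Polynomial.roots.le_of_dvd hf hprod
  have hr : (∏ i ∈ s, (X - C (x i)) ^ (w i)).roots = ∑ i ∈ s, (w i) • {x i} := by
    rw [Polynomial.roots_prod _ _ hne]
    simp [Polynomial.roots_pow, Multiset.bind, Multiset.join]
  have hcnt : ∑ i ∈ s, w i ≤ f.roots.countP (0 < ·) := by
    calc ∑ i ∈ s, w i = Multiset.card (∑ i ∈ s, (w i) • ({x i} : Multiset ℝ)) := by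
          rw [Multiset.card_sum]; simp
      _ = (∑ i ∈ s, (w i) • ({x i} : Multiset ℝ)).countP (0 < ·) := by
          symm
          rw [Multiset.countP_eq_card]
          intro a ha
          rw [Multiset.mem_sum] at ha
          obtain ⟨i, hi, ha⟩ := ha
          have := Multiset.mem_of_mem_nsmul ha
          rw [Multiset.mem_singleton] at this
          rw [this]; exact hx i hi
      _ ≤ f.roots.countP (0 < ·) := by
          rw [← hr]
          exact Multiset.countP_le_of_le _ hroots
  have h1 := Polynomial.roots_countP_pos_le_signVariations f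
  have h2 := signVariations_lt_card_support _ f hf rfl
  omega

end Pool.MP_70e04f_ag

end

/-! ### from `Lib_MP_70e04f_ag.Elim` -/

section

/-!
The elimination lemma: a family of univariate polynomials `T j` (the rows) with few terms,
subject to vanishing conditions at points on the axis and at points off the axis, is zero.
-/

namespace Pool.MP_70e04f_ag

open Polynomial

lemma pow_dvd_iff_taylor (x : ℝ) (n : ℕ) (f : ℝ[X]) :
    (X - C x) ^ n ∣ f ↔ ∀ d < n, (taylor x f).coeff d = 0 := by
  rw [Polynomial.X_sub_C_pow_dvd_iff, Polynomial.X_pow_dvd_iff]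
  rfl

lemma off_step {ι : Type*} (x : ι → ℝ) (mu : ι → ℕ) (i : ι)
    (T : ℕ → ℝ[X]) (R : ℕ) (hR : ∀ j, R ≤ j → T j = 0)
    (hoff : ∀ al be, al + be < mu i →
      ∑ j ∈ Finset.range R, (taylor (x i) (T j)).coeff al * ((X + C 1 : ℝ[X]) ^ j).coeff be = 0)
    (l : ℕ) (hl : l < mu i) (hdvd : ∀ j, (X - C (x i)) ^ l ∣ T j)
    (S : Finset ℕ) (hS : ∀ j, j ∉ S → T j = 0) (hcard : S.card ≤ mu i - l) :
    ∀ j, (X - C (x i)) ^ (l + 1) ∣ T j := by
  classical
  set q : ℝ[X] := ∑ j ∈ Finset.range R, C ((taylor (x i) (T j)).coeff l) * X ^ j with hq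
  have hcomp : ∀ be, (q.comp (X + C 1)).coeff be =
      ∑ j ∈ Finset.range R, (taylor (x i) (T j)).coeff l * ((X + C 1 : ℝ[X]) ^ j).coeff be := by
    intro be
    rw [hq, Polynomial.sum_comp, Polynomial.finsetSum_coeff]
    refine Finset.sum_congr rfl fun j _ => ?_
    simp only [mul_comp, C_comp, pow_comp, X_comp, coeff_C_mul]
  have hqc : ∀ j, q.coeff j = (taylor (x i) (T j)).coeff l := by
    intro j
    rw [hq, Polynomial.finsetSum_coeff]
    simp only [coeff_C_mul, coeff_X_pow, mul_ite, mul_one, mul_zero]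
    rw [Finset.sum_ite_eq]
    split_ifs with h
    · rfl
    · rw [Finset.mem_range, not_lt] at h
      rw [hR j h]; simp
  have hdq : (X - C (1 : ℝ)) ^ (mu i - l) ∣ q := by
    rw [Polynomial.X_sub_C_pow_dvd_iff, Polynomial.X_pow_dvd_iff]
    intro d hd
    rw [hcomp]
    exact hoff l d (by omega)
  have hsup : q.support ⊆ S := by
    intro j hj
    by_contra hjS
    rw [Polynomial.mem_support_iff, hqc, hS j hjS] at hj
    simp at hj
  have hq0 : q = 0 := by
    apply descartes q (Finset.univ : Finset Unit) (fun _ => (1 : ℝ)) (fun _ => mu i - l)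
    · intro _ _; norm_num
    · intro a _ b _ _; rfl
    · intro _ _; exact hdq
    · simp only [Finset.univ_unique, Finset.sum_const, Finset.card_singleton, one_smul]
      exact (Finset.card_le_card hsup).trans hcard
  intro j
  rw [pow_dvd_iff_taylor]
  intro d hd
  rcases Nat.lt_succ_iff_lt_or_eq.1 hd with h | h
  · exact (pow_dvd_iff_taylor _ _ _).1 (hdvd j) d h
  · rw [h, ← hqc, hq0, coeff_zero]

theorem elim {ι : Type*} [DecidableEq ι] (x : ι → ℝ) (hx : ∀ i, 0 < x i)
    (hinj : Function.Injective x) (y : ℝ) (hy : 0 < y) (hyx : ∀ i, x i ≠ y)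
    (mu : ι → ℕ) (O A B : Finset ι) (hOA : Disjoint O A) (hOB : Disjoint O B)
    (hAB : Disjoint A B) (M jst : ℕ) (hA : ∀ i ∈ A, M + 1 ≤ mu i) (hB : ∀ i ∈ B, M ≤ mu i)
    (T : ℕ → ℝ[X]) (R : ℕ) (hR : ∀ j, R ≤ j → T j = 0)
    (nn t : ℕ → ℕ) (hsupp : ∀ j, (T j).support.card ≤ nn j)
    (hO : ∀ i ∈ O, ∀ j, (X - C (x i)) ^ (mu i - j) ∣ T j)
    (hoff : ∀ i, i ∈ A ∨ i ∈ B → ∀ al be, al + be < mu i →
      ∑ j ∈ Finset.range R, (taylor (x i) (T j)).coeff al * ((X + C 1 : ℝ[X]) ^ j).coeff be = 0)
    (hty : ∀ j, (X - C y) ^ (t j) ∣ T j)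
    (H1 : ∀ j < M, nn j ≤ (∑ i ∈ O, (mu i - j)) + t j + (M - 1 - j) * B.card + (M - j) * A.card)
    (H2 : ∀ j, M ≤ j → j ≠ jst → nn j ≤ (∑ i ∈ O, (mu i - j)) + t j)
    (H3 : nn jst ≤ (∑ i ∈ O, (mu i - jst)) + t jst + (M + 1) * A.card + M * B.card) :
    ∀ j, T j = 0 := by
  classical
  -- Descartes with all the points
  have D1 : ∀ (j lA lB : ℕ), (∀ i ∈ A, (X - C (x i)) ^ lA ∣ T j) →
      (∀ i ∈ B, (X - C (x i)) ^ lB ∣ T j) →
      nn j ≤ (∑ i ∈ O, (mu i - j)) + t j + lA * A.card + lB * B.card → T j = 0 := by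
    intro j lA lB h1 h2 h3
    -- use index type Option ι
    let s : Finset (Option ι) := insert none ((O ∪ (A ∪ B)).map Function.Embedding.some)
    let xx : Option ι → ℝ := fun o => o.elim y x
    let w : Option ι → ℕ := fun o => o.elim (t j) (fun i =>
      if i ∈ O then mu i - j else if i ∈ A then lA else lB)
    have hnone : none ∉ ((O ∪ (A ∪ B)).map Function.Embedding.some) := by simp
    apply descartes (T j) s xx w
    · intro o _
      cases o with
      | none => exact hy
      | some i => exact hx i
    · intro o1 _ o2 _ h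
      cases o1 with
      | none =>
        cases o2 with
        | none => rfl
        | some i => exact absurd h.symm (hyx i)
      | some i =>
        cases o2 with
        | none => exact absurd h (hyx i)
        | some i' => rw [hinj h]
    · intro o ho
      cases o with
      | none => exact hty j
      | some i =>
        have hi : i ∈ O ∨ i ∈ A ∨ i ∈ B := by
          simpa [s] using ho
        change (X - C (x i)) ^ (if i ∈ O then mu i - j else if i ∈ A then lA else lB) ∣ T j
        split_ifs with h4 h5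
        · exact hO i h4 j
        · exact h1 i h5
        · rcases hi with h | h | h
          · exact absurd h h4
          · exact absurd h h5
          · exact h2 i h
    · refine (hsupp j).trans (h3.trans (le_of_eq ?_))
      rw [Finset.sum_insert hnone, Finset.sum_map, Finset.sum_union, Finset.sum_union hAB]
      · have e1 : ∑ i ∈ O, w (Function.Embedding.some i) = ∑ i ∈ O, (mu i - j) := by
          refine Finset.sum_congr rfl fun i hi => ?_
          change (if i ∈ O then mu i - j else if i ∈ A then lA else lB) = _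
          rw [if_pos hi]
        have e2 : ∑ i ∈ A, w (Function.Embedding.some i) = lA * A.card := by
          rw [Finset.sum_congr rfl (g := fun _ => lA), Finset.sum_const, smul_eq_mul, mul_comm]
          intro i hi
          change (if i ∈ O then mu i - j else if i ∈ A then lA else lB) = _
          rw [if_neg (Finset.disjoint_right.1 hOA hi), if_pos hi]
        have e3 : ∑ i ∈ B, w (Function.Embedding.some i) = lB * B.card := by
          rw [Finset.sum_congr rfl (g := fun _ => lB), Finset.sum_const, smul_eq_mul, mul_comm]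
          intro i hi
          change (if i ∈ O then mu i - j else if i ∈ A then lA else lB) = _
          rw [if_neg (Finset.disjoint_right.1 hOB hi), if_neg (Finset.disjoint_right.1 hAB hi)]
        have e4 : w none = t j := rfl
        rw [e1, e2, e3, e4]; ring
      · rw [Finset.disjoint_union_right]; exact ⟨hOA, hOB⟩
  -- the induction
  have key : ∀ l ≤ M, ∀ i, i ∈ A ∨ i ∈ B → ∀ j, (X - C (x i)) ^ l ∣ T j := by
    intro l
    induction l with
    | zero => intro _ i _ j; simp
    | succ l ih =>
      intro hl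
      have ih := ih (by omega)
      have stepA : ∀ i ∈ A, ∀ j, (X - C (x i)) ^ (l + 1) ∣ T j := by
        intro i hi
        have hmu := hA i hi
        apply off_step x mu i T R hR (hoff i (Or.inl hi)) l (by omega) (ih i (Or.inl hi))
          (insert jst (Finset.range (M - l)))
        · intro j hj
          rw [Finset.mem_insert, Finset.mem_range, not_or, not_lt] at hj
          apply D1 j l l (fun i hi => ih i (Or.inl hi) j) (fun i hi => ih i (Or.inr hi) j)
          by_cases hjM : j < M
          · refine (H1 j hjM).trans ?_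
            have h1 : M - 1 - j ≤ l := by omega
            have h2 : M - j ≤ l := by omega
            have h3 := Nat.mul_le_mul_right B.card h1
            have h4 := Nat.mul_le_mul_right A.card h2
            omega
          · refine (H2 j (by omega) hj.1).trans ?_
            omega
        · refine (Finset.card_insert_le _ _).trans ?_
          rw [Finset.card_range]; omega
      have stepB : ∀ i ∈ B, ∀ j, (X - C (x i)) ^ (l + 1) ∣ T j := by
        intro i hi
        have hmu := hB i hi
        apply off_step x mu i T R hR (hoff i (Or.inr hi)) l (by omega) (ih i (Or.inr hi))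
          (insert jst (Finset.range (M - 1 - l)))
        · intro j hj
          rw [Finset.mem_insert, Finset.mem_range, not_or, not_lt] at hj
          apply D1 j (l + 1) l (fun i hi => stepA i hi j) (fun i hi => ih i (Or.inr hi) j)
          by_cases hjM : j < M
          · refine (H1 j hjM).trans ?_
            have h1 : M - 1 - j ≤ l := by omega
            have h2 : M - j ≤ l + 1 := by omega
            have h3 := Nat.mul_le_mul_right B.card h1
            have h4 := Nat.mul_le_mul_right A.card h2
            omega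
          · refine (H2 j (by omega) hj.1).trans ?_
            omega
        · refine (Finset.card_insert_le _ _).trans ?_
          rw [Finset.card_range]; omega
      intro i hi
      rcases hi with hi | hi
      · exact stepA i hi
      · exact stepB i hi
  have keyA : ∀ i ∈ A, ∀ j, (X - C (x i)) ^ (M + 1) ∣ T j := by
    intro i hi
    have hmu := hA i hi
    apply off_step x mu i T R hR (hoff i (Or.inl hi)) M (by omega) (key M le_rfl i (Or.inl hi))
      {jst}
    · intro j hj
      rw [Finset.mem_singleton] at hj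
      apply D1 j M M (fun i hi => key M le_rfl i (Or.inl hi) j)
        (fun i hi => key M le_rfl i (Or.inr hi) j)
      by_cases hjM : j < M
      · refine (H1 j hjM).trans ?_
        have h1 : M - 1 - j ≤ M := by omega
        have h2 : M - j ≤ M := by omega
        have h3 := Nat.mul_le_mul_right B.card h1
        have h4 := Nat.mul_le_mul_right A.card h2
        omega
      · refine (H2 j (by omega) hj).trans ?_
        omega
    · rw [Finset.card_singleton]; omega
  intro j
  apply D1 j (M + 1) M (fun i hi => keyA i hi j) (fun i hi => key M le_rfl i (Or.inr hi) j)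
  by_cases hj : j = jst
  · rw [hj]; exact H3
  · by_cases hjM : j < M
    · refine (H1 j hjM).trans ?_
      have h1 : M - 1 - j ≤ M := by omega
      have h2 : M - j ≤ M + 1 := by omega
      have h3 := Nat.mul_le_mul_right B.card h1
      have h4 := Nat.mul_le_mul_right A.card h2
      omega
    · refine (H2 j (by omega) hj).trans ?_
      omega

end Pool.MP_70e04f_ag

end

/-! ### from `Lib_MP_70e04f_hal.Defs` -/

section

/-!
# Nine points of order `ν` on an acnodal cubic: definitions

`ncu` is the equation of the acnodal cubic `y ^ 2 = x ^ 2 (x - 1)`, parametrised by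
`(S ^ 2 + 1, S (S ^ 2 + 1))`; the node `(0, 0)` is the image of `S = i` and of `S = - i`. `nod` is
the restriction of polynomials to the curve, `nv P` is the imaginary part of `P (i)`; it vanishes
for all restrictions (`nv_nod` in `NodA`). `Tors ν s` says that the nine points with parameters
`s t` are in the position of a Halphen pencil of index `ν`: the divisor `ν ∑ q t` is cut out by
curves of degree `3 ν`, and no smaller combination `∑ a t q t`, `a t ≤ ν`, satisfies the condition
at the node.
-/

namespace Pool.MP_70e04f_ag.Hal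

open MvPolynomial Pool.MP_70e04f_ag.Hex Pool.MP_70e04f_ag.Add Pool.MP_70e04f_ag.Nine

/-- The acnodal cubic `y ^ 2 = x ^ 2 (x - 1)`. -/
noncomputable def ncu : MvPolynomial (Fin 2) ℝ := X 1 ^ 2 - X 0 ^ 3 + X 0 ^ 2

/-- The points of the acnodal cubic with parameters `s t`. -/
noncomputable def npt {τ : Type*} (s : τ → ℝ) (t : τ) : Fin 2 → ℝ :=
  ![s t ^ 2 + 1, s t * (s t ^ 2 + 1)]

/-- Restriction to the acnodal cubic. -/
noncomputable def nod : MvPolynomial (Fin 2) ℝ →ₐ[ℝ] Polynomial ℝ :=
  aeval ![Polynomial.X ^ 2 + 1, Polynomial.X * (Polynomial.X ^ 2 + 1)]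

/-- The imaginary part of the value at `i`. -/
noncomputable def nv (P : Polynomial ℝ) : ℝ := (Polynomial.aeval Complex.I P).im

/-- The monic polynomial with roots `s t` of multiplicities `a t`. -/
noncomputable def lin {τ : Type*} [Fintype τ] (s : τ → ℝ) (a : τ → ℕ) : Polynomial ℝ :=
  ∏ t, (Polynomial.X - Polynomial.C (s t)) ^ a t

/-- Nine points in the position of a Halphen pencil of index `ν`. -/
structure Tors (ν : ℕ) (s : Fin 9 → ℝ) : Prop where
  inj : Function.Injective s
  full : nv (lin s (fun _ => ν)) = 0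
  only : ∀ a : Fin 9 → ℕ, (∀ t, a t ≤ ν) → nv (lin s a) = 0 → (∀ t, a t = 0) ∨ (∀ t, a t = ν)

end Pool.MP_70e04f_ag.Hal

end

/-! ### from `Lib_MP_70e04f_hal.Ang` -/

section

/-!
# The parameters (piece ANG)

PAPER PROOF. Let `φ t = π (t + 1) / (45 ν)` for `t : Fin 9`, so `0 < φ t < π`, `sin (φ t) > 0`, and
`s t = - cos (φ t) / sin (φ t)`. Then `I - s t = (sin (φ t))⁻¹ * exp (I φ t)`, hence
`aeval I (lin s a) = (∏ t, (sin (φ t))⁻¹ ^ a t) * exp (I * ∑ t, a t * φ t)` and
`nv (lin s a) = (∏ t, (sin (φ t))⁻¹ ^ a t) * sin (∑ t, a t * φ t)`. The first factor is positive. If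
`a t ≤ ν` then `θ = ∑ t, a t * φ t = (π / (45 ν)) * ∑ t, a t (t + 1)` is in `[0, π]` because
`∑ t, (t + 1) = 45`; `sin θ = 0` only for `θ = 0` (all `a t = 0`) or `θ = π` (all `a t = ν`), see
`Real.sin_pos_of_pos_of_lt_pi`. For `a = ν` one has `θ = π`. `s` is injective: if `s t = s t'` then
`sin (φ t - φ t') = 0` (or: `cos / sin` is strictly decreasing on `(0, π)`; `Real.cot` or the
addition formula `sin (x - y) = sin x cos y - cos x sin y` and `|φ t - φ t'| < π`).
-/

namespace Pool.MP_70e04f_ag.Hal

open MvPolynomial Pool.MP_70e04f_ag.Hex Pool.MP_70e04f_ag.Add Pool.MP_70e04f_ag.Nine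

/-- The value of `nv` on a product of linear forms, in trigonometric form. -/
theorem ang_nv_lin (φ : Fin 9 → ℝ) (hs : ∀ t, 0 < Real.sin (φ t)) (a : Fin 9 → ℕ) :
    nv (lin (fun t => - Real.cos (φ t) / Real.sin (φ t)) a) =
      (∏ t, ((Real.sin (φ t))⁻¹) ^ a t) * Real.sin (∑ t, (a t : ℝ) * φ t) := by
  unfold nv lin
  have h1 : ∀ t, (Polynomial.aeval Complex.I)
      ((Polynomial.X - Polynomial.C (- Real.cos (φ t) / Real.sin (φ t))) ^ a t) =
      ((((Real.sin (φ t))⁻¹) ^ a t : ℝ) : ℂ) *
        Complex.exp (((a t : ℝ) * φ t : ℝ) * Complex.I) := by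
    intro t
    rw [map_pow, map_sub, Polynomial.aeval_X, Polynomial.aeval_C]
    have h2 : Complex.I - algebraMap ℝ ℂ (- Real.cos (φ t) / Real.sin (φ t)) =
        (((Real.sin (φ t))⁻¹ : ℝ) : ℂ) * Complex.exp ((φ t : ℝ) * Complex.I) := by
      have hne : ((Real.sin (φ t) : ℝ) : ℂ) ≠ 0 := by
        exact_mod_cast (hs t).ne'
      rw [Complex.exp_mul_I, ← Complex.ofReal_cos, ← Complex.ofReal_sin]
      show Complex.I - ((- Real.cos (φ t) / Real.sin (φ t) : ℝ) : ℂ) = _
      rw [Complex.ofReal_div, Complex.ofReal_neg, Complex.ofReal_inv, mul_add, ← mul_assoc,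
        inv_mul_cancel₀ hne, one_mul, neg_div, sub_neg_eq_add, div_eq_inv_mul, add_comm]
    rw [h2, mul_pow, Complex.ofReal_pow, ← Complex.exp_nat_mul]
    congr 2
    push_cast
    ring
  rw [map_prod, Finset.prod_congr rfl (fun t _ => h1 t), Finset.prod_mul_distrib,
    ← Complex.exp_sum, ← Complex.ofReal_prod, ← Finset.sum_mul, ← Complex.ofReal_sum,
    Complex.im_ofReal_mul, Complex.exp_ofReal_mul_I_im]

/-- Nine points in the position of a Halphen pencil of index `ν`. -/
theorem exists_tors (ν : ℕ) (hν : 1 ≤ ν) : ∃ s : Fin 9 → ℝ, Tors ν s := by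
  have hν0 : (0 : ℝ) < ν := by exact_mod_cast hν
  have hπ := Real.pi_pos
  let φ : Fin 9 → ℝ := fun t => Real.pi * ((t : ℕ) + 1) / (45 * ν)
  have hφ : ∀ t, φ t = Real.pi * ((t : ℕ) + 1) / (45 * ν) := fun t => rfl
  have hpos : ∀ t, 0 < φ t := by
    intro t
    rw [hφ]
    positivity
  have hlt : ∀ t, φ t < Real.pi := by
    intro t
    rw [hφ, div_lt_iff₀ (by positivity)]
    have h1 : ((t : ℕ) : ℝ) + 1 ≤ 9 := by
      have := t.2
      exact_mod_cast (by omega : (t : ℕ) + 1 ≤ 9)
    have h2 : (1 : ℝ) ≤ ν := by exact_mod_cast hν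
    have h3 : ((t : ℕ) : ℝ) + 1 < 45 * ν := by linarith
    exact mul_lt_mul_of_pos_left h3 hπ
  have hsin : ∀ t, 0 < Real.sin (φ t) := fun t => Real.sin_pos_of_pos_of_lt_pi (hpos t) (hlt t)
  have hsum : ∑ t, (ν : ℝ) * φ t = Real.pi := by
    have h1 : ∀ t, (ν : ℝ) * φ t = (Real.pi / 45) * (((t : ℕ) : ℝ) + 1) := by
      intro t
      rw [hφ]
      field_simp
    rw [Finset.sum_congr rfl (fun t _ => h1 t), ← Finset.mul_sum]
    have h2 : ∑ t : Fin 9, (((t : ℕ) : ℝ) + 1) = 45 := by
      simp only [Fin.sum_univ_succ, Fin.sum_univ_zero, Fin.val_zero, Fin.val_succ]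
      norm_num
    rw [h2]
    field_simp
  have hprod : ∀ a : Fin 9 → ℕ, 0 < ∏ t, ((Real.sin (φ t))⁻¹) ^ a t := by
    intro a
    exact Finset.prod_pos fun t _ => pow_pos (inv_pos.2 (hsin t)) _
  refine ⟨fun t => - Real.cos (φ t) / Real.sin (φ t), ⟨?_, ?_, ?_⟩⟩
  · intro t t' h
    have h : - Real.cos (φ t) / Real.sin (φ t) = - Real.cos (φ t') / Real.sin (φ t') := h
    rw [div_eq_div_iff (hsin t).ne' (hsin t').ne'] at h
    have h1 : Real.sin (φ t - φ t') = 0 := by
      rw [Real.sin_sub]
      linarith
    have h2 : φ t - φ t' = 0 := by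
      rw [Real.sin_eq_zero_iff_of_lt_of_lt] at h1
      · exact h1
      · linarith [hpos t, hlt t']
      · linarith [hpos t', hlt t]
    have h3 : φ t = φ t' := by linarith
    rw [hφ, hφ, div_left_inj' (by positivity)] at h3
    have h4 : ((t : ℕ) : ℝ) + 1 = ((t' : ℕ) : ℝ) + 1 := mul_left_cancel₀ hπ.ne' h3
    have h5 : (t : ℕ) = (t' : ℕ) := by
      have : ((t : ℕ) : ℝ) = ((t' : ℕ) : ℝ) := by linarith
      exact_mod_cast this
    exact Fin.ext h5
  · rw [ang_nv_lin φ hsin, hsum, Real.sin_pi, mul_zero]
  · intro a ha h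
    rw [ang_nv_lin φ hsin, mul_eq_zero] at h
    have h0 : Real.sin (∑ t, (a t : ℝ) * φ t) = 0 := by
      rcases h with h | h
      · exact ((hprod a).ne' h).elim
      · exact h
    have hnn : ∀ t, 0 ≤ (a t : ℝ) * φ t := fun t => mul_nonneg (Nat.cast_nonneg _) (hpos t).le
    have hle : ∀ t, (a t : ℝ) * φ t ≤ (ν : ℝ) * φ t := fun t =>
      mul_le_mul_of_nonneg_right (by exact_mod_cast ha t) (hpos t).le
    have hθ0 : 0 ≤ ∑ t, (a t : ℝ) * φ t := Finset.sum_nonneg fun t _ => hnn t
    have hθ1 : ∑ t, (a t : ℝ) * φ t ≤ Real.pi := by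
      rw [← hsum]
      exact Finset.sum_le_sum fun t _ => hle t
    rcases hθ0.eq_or_lt with h1 | h1
    · left
      intro t
      have h2 := (Finset.sum_eq_zero_iff_of_nonneg (fun t _ => hnn t)).1 h1.symm t
        (Finset.mem_univ t)
      rcases mul_eq_zero.1 h2 with h3 | h3
      · exact_mod_cast h3
      · exact ((hpos t).ne' h3).elim
    · rcases hθ1.eq_or_lt with h2 | h2
      · right
        intro t
        have h3 : ∑ t, ((ν : ℝ) * φ t - (a t : ℝ) * φ t) = 0 := by
          rw [Finset.sum_sub_distrib, hsum, h2, sub_self]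
        have h4 := (Finset.sum_eq_zero_iff_of_nonneg (fun t _ => by
          have := hle t
          linarith)).1 h3 t (Finset.mem_univ t)
        have h5 : ((ν : ℝ) - a t) * φ t = 0 := by
          rw [sub_mul]
          exact h4
        rcases mul_eq_zero.1 h5 with h6 | h6
        · have h7 : (a t : ℝ) = ν := by linarith
          exact_mod_cast h7
        · exact ((hpos t).ne' h6).elim
      · exact ((Real.sin_pos_of_pos_of_lt_pi h1 h2).ne' h0).elim

end Pool.MP_70e04f_ag.Hal

end
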