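import Pool.Agent.Lib_MP_70e04f_m.M02
import Pool.Agent.Lib_MP_70e04f_m.M03
import Pool.Agent.Lib_MP_70e04f_m.M04

/-!
# MP_70e04f_ag, plane linear systems: merged library part M05

Concatenation of smaller files (each in its own section), only to save build time.
-/

/-! ### from `Lib_MP_70e04f_ag.Degen` -/

section

/-!
The degeneration `y = x^k + e u`.
-/

namespace Pool.MP_70e04f_ag

open MvPolynomial

/-- The matrix of the conditions in the coordinates `(x, u)`, `y = x^k + e u`, with respect to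
the basis `u^(A/k) x^(A%k) (x^k + e u)^b`. -/
noncomputable def degMat {R : Type*} [CommRing R] {n : ℕ} (k N : ℕ) (m : Fin n → ℕ)
    (x u : Fin n → R) (e : R) : Matrix (Σ i : Fin n, ↥(tri (m i))) ↥(tri N) R :=
  fun c q => ∑ t ∈ Finset.range (q.1.2 + 1), ((q.1.2.choose t : ℕ) : R) * e ^ t *
    ec (x c.1) (u c.1) (q.1.1 % k + k * (q.1.2 - t)) (q.1.1 / k + t) c.2.1.1 c.2.1.2

lemma degMat_map {R S : Type*} [CommRing R] [CommRing S] {n : ℕ} (k N : ℕ) (m : Fin n → ℕ)
    (x u : Fin n → R) (e : R) (φ : R →+* S) :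
    (degMat k N m x u e).map φ = degMat k N m (fun i => φ (x i)) (fun i => φ (u i)) (φ e) := by
  ext c q
  simp only [Matrix.map_apply, degMat, map_sum, map_mul, map_pow, map_natCast, ec_map]

section
variable {K : Type*} [Field K]

/-- The substitution `y = x^k + e u`. -/
noncomputable def subst (k : ℕ) (e : K) : MvPolynomial (Fin 2) K →ₐ[K] MvPolynomial (Fin 2) K :=
  aeval ![X 0, X 0 ^ k + C e * X 1]

lemma subst_X0 (k : ℕ) (e : K) : subst k e (X 0) = X 0 := by simp [subst]
lemma subst_X1 (k : ℕ) (e : K) : subst k e (X 1) = X 0 ^ k + C e * X 1 := by simp [subst]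

lemma subst_mem (k : ℕ) (e : K) (x u : K) (m : ℕ) (f : MvPolynomial (Fin 2) K)
    (hf : f ∈ (RingHom.ker (MvPolynomial.eval ![x, x ^ k + e * u]) :
      Ideal (MvPolynomial (Fin 2) K)) ^ m) :
    subst k e f ∈ (RingHom.ker (MvPolynomial.eval ![x, u]) :
      Ideal (MvPolynomial (Fin 2) K)) ^ m := by
  have h1 : Ideal.map (subst k e).toRingHom
      (RingHom.ker (MvPolynomial.eval ![x, x ^ k + e * u])) ≤
      RingHom.ker (MvPolynomial.eval ![x, u]) := by
    rw [Ideal.map_le_iff_le_comap]
    intro g hg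
    rw [Ideal.mem_comap, RingHom.mem_ker]
    rw [RingHom.mem_ker] at hg
    rw [← hg]
    have : (eval ![x, u] : MvPolynomial (Fin 2) K →+* K).comp (subst k e).toRingHom
        = eval ![x, x ^ k + e * u] := by
      apply MvPolynomial.ringHom_ext
      · intro r; simp [subst]
      · intro i
        fin_cases i <;> simp [subst]
    exact congrArg (fun ψ : MvPolynomial (Fin 2) K →+* K => ψ g) this
  have := Ideal.mem_map_of_mem (subst k e).toRingHom hf
  rw [Ideal.map_pow] at this
  exact Ideal.pow_right_mono h1 m this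

/-- The adapted basis elements, before the substitution. -/
noncomputable def gen (k : ℕ) (e : K) (q : ℕ × ℕ) : MvPolynomial (Fin 2) K :=
  C ((e⁻¹) ^ (q.1 / k)) * (X 1 - X 0 ^ k) ^ (q.1 / k) * X 0 ^ (q.1 % k) * X 1 ^ q.2

noncomputable def toG (k N : ℕ) (e : K) : (↥(tri N) → K) →ₗ[K] MvPolynomial (Fin 2) K :=
  Fintype.linearCombination K (fun q : ↥(tri N) => gen k e q.1)

lemma toG_apply (k N : ℕ) (e : K) (v : ↥(tri N) → K) :
    toG k N e v = ∑ q : ↥(tri N), v q • gen k e q.1 := rfl

lemma toPoly_le_toG (k N : ℕ) (hk : 0 < k) (e : K) (he : e ≠ 0) :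
    LinearMap.range (toPoly K N) ≤ LinearMap.range (toG k N e) := by
  classical
  have hgen : ∀ q ∈ tri N, gen k e q ∈ LinearMap.range (toG k N e) := by
    intro q hq
    refine ⟨Pi.single ⟨q, hq⟩ 1, ?_⟩
    rw [toG, Fintype.linearCombination_apply_single, one_smul]
  have main : ∀ (a j b : ℕ), k * j + a + b < N →
      ((X 1 - X 0 ^ k) ^ j * X 0 ^ a * X 1 ^ b : MvPolynomial (Fin 2) K) ∈
        LinearMap.range (toG k N e) := by
    intro a
    induction a using Nat.strong_induction_on with
    | _ a ih =>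
      intro j b h
      by_cases hak : a < k
      · have h1 := hgen (k * j + a, b) (mem_tri.2 h)
        have hd : (k * j + a) / k = j := by
          rw [Nat.mul_add_div hk, Nat.div_eq_of_lt hak, add_zero]
        have hm : (k * j + a) % k = a := by
          rw [Nat.mul_add_mod, Nat.mod_eq_of_lt hak]
        have h2 : ((X 1 - X 0 ^ k) ^ j * X 0 ^ a * X 1 ^ b : MvPolynomial (Fin 2) K) =
            (e ^ j) • gen k e (k * j + a, b) := by
          simp only [gen]
          rw [hd, hm, smul_eq_C_mul, ← mul_assoc, ← mul_assoc, ← mul_assoc, ← C_mul, ← mul_pow,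
            mul_inv_cancel₀ he, one_pow, C_1, one_mul]
        rw [h2]
        exact Submodule.smul_mem _ _ h1
      · rw [not_lt] at hak
        obtain ⟨a', rfl⟩ := Nat.exists_eq_add_of_le hak
        have h1 := ih a' (by omega) j (b + 1) (by omega)
        have h2 := ih a' (by omega) (j + 1) b (by
          have : k * (j + 1) = k * j + k := by ring
          omega)
        have h3 : ((X 1 - X 0 ^ k) ^ j * X 0 ^ (k + a') * X 1 ^ b : MvPolynomial (Fin 2) K) =
            (X 1 - X 0 ^ k) ^ j * X 0 ^ a' * X 1 ^ (b + 1) -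
            (X 1 - X 0 ^ k) ^ (j + 1) * X 0 ^ a' * X 1 ^ b := by ring
        rw [h3]
        exact Submodule.sub_mem _ h1 h2
  rintro _ ⟨v, rfl⟩
  rw [toPoly_apply]
  apply Submodule.sum_mem
  intro q _
  apply Submodule.smul_mem
  have := main q.1.1 0 q.1.2 (by have := mem_tri.1 q.2; omega)
  simpa using this

lemma coeff_shift_subst_gen (k : ℕ) (e : K) (he : e ≠ 0) (x u : K) (q : ℕ × ℕ) (α β : ℕ) :
    coeff (mon α β) (shift ![x, u] (subst k e (gen k e q))) =
      ∑ t ∈ Finset.range (q.2 + 1), ((q.2.choose t : ℕ) : K) * e ^ t *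
        ec x u (q.1 % k + k * (q.2 - t)) (q.1 / k + t) α β := by
  have h1 : subst k e (gen k e q) = ∑ t ∈ Finset.range (q.2 + 1),
      (((q.2.choose t : ℕ) : K) * e ^ t) •
        (X 0 ^ (q.1 % k + k * (q.2 - t)) * X 1 ^ (q.1 / k + t) : MvPolynomial (Fin 2) K) := by
    have h2 : subst k e (gen k e q) = X 1 ^ (q.1 / k) * X 0 ^ (q.1 % k) *
        (C e * X 1 + X 0 ^ k) ^ q.2 := by
      simp only [gen, map_mul, map_pow, map_sub, subst_X0, subst_X1]
      have h3 : subst k e (C e⁻¹) = C e⁻¹ := by simp [subst]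
      have h4 : (X 0 ^ k + C e * X 1 - X 0 ^ k : MvPolynomial (Fin 2) K) = C e * X 1 := by ring
      rw [h3, h4, mul_pow, ← mul_assoc, ← mul_pow, ← C_mul, inv_mul_cancel₀ he, C_1, one_pow,
        one_mul, add_comm (X 0 ^ k) (C e * X 1)]
    rw [h2, add_pow, Finset.mul_sum]
    refine Finset.sum_congr rfl fun t ht => ?_
    rw [smul_eq_C_mul, C_mul, C_pow, mul_pow, pow_add, pow_add, pow_mul]
    have : (C ((q.2.choose t : ℕ) : K) : MvPolynomial (Fin 2) K) = ((q.2.choose t : ℕ) :
      MvPolynomial (Fin 2) K) := by simp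
    rw [this]
    ring
  rw [h1, map_sum, coeff_sum]
  refine Finset.sum_congr rfl fun t _ => ?_
  rw [map_smul, coeff_smul, coeff_shift_mon, smul_eq_mul]
  rfl

/-- For `e ≠ 0` the kernel of the original conditions is no larger than that of `degMat`. -/
theorem finrank_condMat_le {n : ℕ} (k N : ℕ) (hk : 0 < k) (m : Fin n → ℕ) (x u : Fin n → K)
    (e : K) (he : e ≠ 0) :
    Module.finrank K (LinearMap.ker (condMat N m
      (fun i => ![x i, x i ^ k + e * u i])).mulVecLin) ≤
    Module.finrank K (LinearMap.ker (degMat k N m x u e).mulVecLin) := by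
  have h1 : (LinearMap.ker (condMat N m
      (fun i => ![x i, x i ^ k + e * u i])).mulVecLin).map (toPoly K N) ≤
      (LinearMap.ker (degMat k N m x u e).mulVecLin).map (toG k N e) := by
    rintro f ⟨v, hv, rfl⟩
    obtain ⟨w, hw⟩ := toPoly_le_toG k N hk e he ⟨v, rfl⟩
    refine ⟨w, ?_, hw⟩
    rw [SetLike.mem_coe, LinearMap.mem_ker, Matrix.mulVecLin_apply, ← toPoly_mem_iff] at hv
    rw [SetLike.mem_coe, LinearMap.mem_ker, Matrix.mulVecLin_apply]
    funext c
    have h2 := subst_mem k e (x c.1) (u c.1) (m c.1) _ (hv c.1)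
    rw [← hw, mem_ker_pow_iff] at h2
    have h3 := h2 c.2.1 c.2.2
    rw [toG_apply, map_sum, map_sum, coeff_sum] at h3
    refine Eq.trans ?_ h3
    change ∑ q : ↥(tri N), degMat k N m x u e c q * w q = _
    refine Finset.sum_congr rfl fun q _ => ?_
    rw [map_smul, map_smul, coeff_smul, coeff_shift_subst_gen k e he, smul_eq_mul, mul_comm]
    rfl
  have e1 := LinearEquiv.finrank_eq (Submodule.equivMapOfInjective (toPoly K N)
    (toPoly_injective K N) (LinearMap.ker (condMat N m
      (fun i => ![x i, x i ^ k + e * u i])).mulVecLin))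
  have e2 := Submodule.finrank_map_le (toG k N e) (LinearMap.ker (degMat k N m x u e).mulVecLin)
  have e3 := Submodule.finrank_mono h1
  omega

end

end Pool.MP_70e04f_ag

end

/-! ### from `Lib_MP_70e04f_ag.Mono` -/

section

/-!
The limit system is spanned by monomials; its dimension is computed by the elimination lemma.
-/

namespace Pool.MP_70e04f_ag

open Polynomial

/-- The number of basis elements in row `j`. -/
def nrow (k N j : ℕ) : ℕ := ((tri N).filter (fun q => q.1 / k = j)).card

/-- The rows of a coefficient vector. -/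
noncomputable def rowPoly (k N : ℕ) (v : ↥(tri N) → ℝ) (j : ℕ) : ℝ[X] :=
  ∑ q : ↥(tri N), if q.1.1 / k = j then C (v q) * X ^ (q.1.1 % k + k * q.1.2) else 0

lemma taylor_rowPoly (k N : ℕ) (v : ↥(tri N) → ℝ) (j : ℕ) (x : ℝ) (α : ℕ) :
    (taylor x (rowPoly k N v j)).coeff α = ∑ q : ↥(tri N), if q.1.1 / k = j then
      v q * ((X + C x) ^ (q.1.1 % k + k * q.1.2) : ℝ[X]).coeff α else 0 := by
  rw [rowPoly, map_sum, Polynomial.finsetSum_coeff]
  refine Finset.sum_congr rfl fun q _ => ?_
  split_ifs with h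
  · rw [Polynomial.taylor_apply, mul_comp, C_comp, pow_comp, X_comp, coeff_C_mul]
  · simp

lemma degMat_zero_mulVec {n : ℕ} (k N : ℕ) (m : Fin n → ℕ) (x u : Fin n → ℝ)
    (v : ↥(tri N) → ℝ) (c : Σ i : Fin n, ↥(tri (m i))) :
    (degMat k N m x u 0).mulVec v c = ∑ j ∈ Finset.range N,
      (taylor (x c.1) (rowPoly k N v j)).coeff c.2.1.1 *
        ((X + C (u c.1)) ^ j : ℝ[X]).coeff c.2.1.2 := by
  have h1 : ∀ q : ↥(tri N), degMat k N m x u 0 c q =
      ec (x c.1) (u c.1) (q.1.1 % k + k * q.1.2) (q.1.1 / k) c.2.1.1 c.2.1.2 := by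
    intro q
    unfold degMat
    rw [Finset.sum_eq_single 0]
    · simp
    · intro t _ ht
      rw [zero_pow ht]; simp
    · intro h
      exact absurd (Finset.mem_range.2 (Nat.succ_pos _)) h
  have h2 : (degMat k N m x u 0).mulVec v c = ∑ q : ↥(tri N), degMat k N m x u 0 c q * v q := rfl
  rw [h2]
  simp only [taylor_rowPoly, Finset.sum_mul]
  rw [Finset.sum_comm]
  refine Finset.sum_congr rfl fun q _ => ?_
  rw [h1, Finset.sum_eq_single (q.1.1 / k)]
  · rw [if_pos rfl]; unfold ec; ring
  · intro j _ hj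
    rw [if_neg (Ne.symm hj), zero_mul]
  · intro h
    exfalso
    apply h
    rw [Finset.mem_range]
    have := mem_tri.1 q.2
    have := Nat.div_le_self q.1.1 k
    omega

lemma rowPoly_eq_zero (k N : ℕ) (v : ↥(tri N) → ℝ) (j : ℕ) (hj : N ≤ j) :
    rowPoly k N v j = 0 := by
  rw [rowPoly]
  apply Finset.sum_eq_zero
  intro q _
  rw [if_neg]
  intro h
  have := mem_tri.1 q.2
  have := Nat.div_le_self q.1.1 k
  omega

lemma card_support_rowPoly (k N : ℕ) (v : ↥(tri N) → ℝ) (j : ℕ) :
    (rowPoly k N v j).support.card ≤ nrow k N j := by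
  classical
  unfold nrow
  have hsub : (rowPoly k N v j).support ⊆
      ((tri N).filter (fun q => q.1 / k = j)).image (fun q => q.1 % k + k * q.2) := by
    intro s hs
    rw [Polynomial.mem_support_iff, rowPoly, Polynomial.finsetSum_coeff] at hs
    obtain ⟨q, _, hq⟩ := Finset.exists_ne_zero_of_sum_ne_zero hs
    rw [Finset.mem_image]
    by_cases h : q.1.1 / k = j
    · refine ⟨q.1, Finset.mem_filter.2 ⟨q.2, h⟩, ?_⟩
      rw [if_pos h, coeff_C_mul, coeff_X_pow] at hq
      by_contra hne
      apply hq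
      rw [if_neg (fun h' => hne h'.symm), mul_zero]
    · rw [if_neg h] at hq
      simp at hq
  exact (Finset.card_le_card hsub).trans Finset.card_image_le

lemma coeff_rowPoly (k N : ℕ) (hk : 0 < k) (v : ↥(tri N) → ℝ) (q : ↥(tri N)) :
    (rowPoly k N v (q.1.1 / k)).coeff (q.1.1 % k + k * q.1.2) = v q := by
  rw [rowPoly, Polynomial.finsetSum_coeff, Finset.sum_eq_single q]
  · rw [if_pos rfl, coeff_C_mul, coeff_X_pow, if_pos rfl, mul_one]
  · intro r _ hr
    split_ifs with h
    · rw [coeff_C_mul, coeff_X_pow, if_neg, mul_zero]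
      intro he
      apply hr
      have hm : r.1.1 % k = q.1.1 % k := by
        have h1 : (q.1.1 % k + k * q.1.2) % k = q.1.1 % k := by simp
        have h2 : (r.1.1 % k + k * r.1.2) % k = r.1.1 % k := by simp
        rw [← h1, he, h2]
      have hb : r.1.2 = q.1.2 := by
        rw [hm] at he
        have : k * q.1.2 = k * r.1.2 := by omega
        exact (Nat.eq_of_mul_eq_mul_left hk this).symm
      have ha : r.1.1 = q.1.1 := by
        rw [← Nat.div_add_mod r.1.1 k, ← Nat.div_add_mod q.1.1 k, h, hm]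
      exact Subtype.ext (Prod.ext ha hb)
    · simp
  · intro h; exact absurd (Finset.mem_univ q) h

/-- The dimension of the limit system. -/
theorem finrank_degMat_zero_le {n : ℕ} (k N : ℕ) (hk : 0 < k) (m : Fin n → ℕ)
    (A B : Finset (Fin n)) (hAB : Disjoint A B) (M jst : ℕ)
    (hA : ∀ i ∈ A, M + 1 ≤ m i) (hB : ∀ i ∈ B, M ≤ m i) (t : ℕ → ℕ)
    (H1 : ∀ j < M, nrow k N j ≤ (∑ i ∈ (A ∪ B)ᶜ, (m i - j)) + t j +
      (M - 1 - j) * B.card + (M - j) * A.card)
    (H2 : ∀ j, M ≤ j → j ≠ jst → nrow k N j ≤ (∑ i ∈ (A ∪ B)ᶜ, (m i - j)) + t j)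
    (H3 : nrow k N jst ≤ (∑ i ∈ (A ∪ B)ᶜ, (m i - jst)) + t jst + (M + 1) * A.card +
      M * B.card) :
    Module.finrank ℝ (LinearMap.ker (degMat k N m (fun i : Fin n => ((i : ℕ) : ℝ) + 2)
      (fun i => if i ∈ A ∪ B then 1 else 0) 0).mulVecLin) ≤ ∑ j ∈ Finset.range N, t j := by
  classical
  let θ : (↥(tri N) → ℝ) →ₗ[ℝ] ((Σ j : Fin N, Fin (t j)) → ℝ) :=
    { toFun := fun v c => (taylor 1 (rowPoly k N v c.1)).coeff c.2
      map_add' := by
        intro v w
        funext c
        simp only [taylor_rowPoly, Pi.add_apply]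
        rw [← Finset.sum_add_distrib]
        refine Finset.sum_congr rfl fun q _ => ?_
        split_ifs <;> ring
      map_smul' := by
        intro a v
        funext c
        simp only [taylor_rowPoly, Pi.smul_apply, smul_eq_mul, RingHom.id_apply, Finset.mul_sum]
        refine Finset.sum_congr rfl fun q _ => ?_
        split_ifs <;> ring }
  have hcard : Fintype.card (Σ j : Fin N, Fin (t j)) = ∑ j ∈ Finset.range N, t j := by
    rw [Fintype.card_sigma, Finset.sum_range]
    simp
  rw [← hcard]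
  apply finrank_ker_le _ θ
  intro v hv hθ
  have hT : ∀ j, rowPoly k N v j = 0 := by
    apply elim (fun i : Fin n => ((i : ℕ) : ℝ) + 2) (fun i => by positivity) ?_ 1 one_pos ?_ m
      ((A ∪ B)ᶜ) A B ?_ ?_ hAB M jst hA hB (rowPoly k N v) N
      (fun j hj => rowPoly_eq_zero k N v j hj) (nrow k N) t (card_support_rowPoly k N v) ?_ ?_ ?_
      H1 H2 H3
    · intro i j hij
      have : ((i : ℕ) : ℝ) = ((j : ℕ) : ℝ) := by simpa using hij
      exact Fin.ext (Nat.cast_injective this)
    · intro i h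
      have : (0 : ℝ) ≤ ((i : ℕ) : ℝ) := Nat.cast_nonneg _
      have h' : ((i : ℕ) : ℝ) + 2 = 1 := h
      linarith
    · rw [Finset.disjoint_left]
      intro i hi hi'
      rw [Finset.mem_compl] at hi
      exact hi (Finset.mem_union_left _ hi')
    · rw [Finset.disjoint_left]
      intro i hi hi'
      rw [Finset.mem_compl] at hi
      exact hi (Finset.mem_union_right _ hi')
    · intro i hi j
      rw [pow_dvd_iff_taylor]
      intro d hd
      have hc := congrFun hv ⟨i, ⟨(d, j), mem_tri.2 (by show d + j < m i; omega)⟩⟩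
      rw [degMat_zero_mulVec] at hc
      simp only [Pi.zero_apply] at hc
      rw [if_neg (Finset.mem_compl.1 hi)] at hc
      simp only [C_0, add_zero, coeff_X_pow, mul_ite, mul_one, mul_zero] at hc
      rw [Finset.sum_ite_eq] at hc
      split_ifs at hc with h
      · exact hc
      · rw [Finset.mem_range, not_lt] at h
        rw [rowPoly_eq_zero k N v j h]; simp
    · intro i hi al be hab
      have hc := congrFun hv ⟨i, ⟨(al, be), mem_tri.2 hab⟩⟩
      rw [degMat_zero_mulVec] at hc
      simp only [Pi.zero_apply] at hc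
      rw [if_pos (Finset.mem_union.2 hi)] at hc
      exact hc
    · intro j
      rw [pow_dvd_iff_taylor]
      intro d hd
      by_cases hj : j < N
      · exact congrFun hθ ⟨⟨j, hj⟩, ⟨d, hd⟩⟩
      · rw [rowPoly_eq_zero k N v j (by omega)]; simp
  funext q
  rw [← coeff_rowPoly k N hk v q, hT]
  simp

end Pool.MP_70e04f_ag

end

/-! ### from `Lib_MP_70e04f_ag.Count` -/

section

/-!
Counting the rows.
-/

namespace Pool.MP_70e04f_ag

/-- `∑_{r<k} (w - r)` with truncated subtraction. -/
def S (k w : ℕ) : ℕ := ∑ r ∈ Finset.range k, (w - r)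

lemma S_succ (k w : ℕ) : S (k + 1) w = S k w + (w - k) := Finset.sum_range_succ _ _

lemma S_large (k w : ℕ) (h : k ≤ w + 1) : 2 * S k w + k * (k - 1) = 2 * k * w := by
  induction k with
  | zero => simp [S]
  | succ k ih =>
    have h1 := ih (by omega)
    rw [S_succ]
    obtain ⟨c, rfl⟩ := Nat.exists_eq_add_of_le (show k ≤ w by omega)
    rw [Nat.add_sub_cancel_left, Nat.add_sub_cancel]
    cases k with
    | zero => simp [S]
    | succ k =>
      rw [Nat.add_sub_cancel] at h1
      nlinarith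

lemma S_small (k w : ℕ) (h : w ≤ k) : 2 * S k w = w * (w + 1) := by
  induction k with
  | zero =>
    have : w = 0 := by omega
    subst this; simp [S]
  | succ k ih =>
    rcases Nat.lt_or_ge w (k + 1) with h1 | h1
    · rw [S_succ, Nat.sub_eq_zero_of_le (by omega), add_zero]
      exact ih (by omega)
    · have : w = k + 1 := by omega
      subst this
      have := S_large (k + 1) (k + 1) (by omega)
      rw [Nat.add_sub_cancel] at this
      nlinarith

lemma S_mono (k : ℕ) {w w' : ℕ} (h : w ≤ w') : S k w ≤ S k w' :=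
  Finset.sum_le_sum fun r _ => Nat.sub_le_sub_right h r

lemma nrow_eq (k N j : ℕ) (hk : 0 < k) : nrow k N j = S k (N - k * j) := by
  classical
  have : nrow k N j = ((Finset.range k).sigma (fun r => Finset.range (N - k * j - r))).card := by
    unfold nrow
    symm
    apply Finset.card_bij (fun (c : Σ _ : ℕ, ℕ) _ => ((k * j + c.1, c.2) : ℕ × ℕ))
    · rintro ⟨r, b⟩ h
      rw [Finset.mem_sigma, Finset.mem_range, Finset.mem_range] at h
      simp only at h
      rw [Finset.mem_filter, mem_tri]
      refine ⟨by show k * j + r + b < N; omega, ?_⟩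
      show (k * j + r) / k = j
      rw [Nat.mul_add_div hk, Nat.div_eq_of_lt h.1, add_zero]
    · rintro ⟨r, b⟩ _ ⟨r', b'⟩ _ h
      have h1 : k * j + r = k * j + r' := congrArg Prod.fst h
      have h2 : b = b' := congrArg Prod.snd h
      have h3 : r = r' := by omega
      subst h2; subst h3; rfl
    · rintro ⟨A, b⟩ h
      rw [Finset.mem_filter, mem_tri] at h
      have h1 : A / k = j := h.2
      have h2 : A + b < N := h.1
      have h3 := Nat.div_add_mod A k
      rw [h1] at h3
      have h4 := Nat.mod_lt A hk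
      refine ⟨⟨A % k, b⟩, ?_, ?_⟩
      · rw [Finset.mem_sigma, Finset.mem_range, Finset.mem_range]
        refine ⟨h4, ?_⟩
        show b < N - k * j - A % k
        omega
      · show (k * j + A % k, b) = (A, b)
        rw [h3]
  rw [this, Finset.card_sigma]
  simp [S]

lemma two_card_tri (m : ℕ) : 2 * (tri m).card = m * (m + 1) := by
  have h1 : nrow (m + 1) m 0 = (tri m).card := by
    unfold nrow
    congr 1
    apply Finset.filter_true_of_mem
    intro q hq
    have := mem_tri.1 hq
    exact Nat.div_eq_of_lt (by omega)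
  rw [← h1, nrow_eq _ _ _ (Nat.succ_pos m), mul_zero, Nat.sub_zero, S_small _ _ (Nat.le_succ m)]

lemma sum_nrow (k N : ℕ) : ∑ j ∈ Finset.range N, nrow k N j = (tri N).card := by
  classical
  unfold nrow
  symm
  apply Finset.card_eq_sum_card_fiberwise
  intro q hq
  have := mem_tri.1 hq
  have := Nat.div_le_self q.1 k
  exact Finset.mem_coe.2 (Finset.mem_range.2 (show q.1 / k < N by omega))

lemma sum_sub_range (m N : ℕ) (h : m ≤ N) : 2 * ∑ j ∈ Finset.range N, (m - j) = m * (m + 1) :=
  S_small N m h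

end Pool.MP_70e04f_ag

end

/-! ### from `Lib_MP_70e04f_ag.Scale` -/

section

/-!
Points of the ruled surface approaching one of the two curves `u = 0` and `u = infinity`.
-/

namespace Pool.MP_70e04f_ag

open Polynomial Filter Topology

section
variable (k N : ℕ)

/-- Scaling the rows. -/
def sc (s : ℕ → ℝ) (v : ↥(tri N) → ℝ) : ↥(tri N) → ℝ := fun q => s (q.1.1 / k) * v q

lemma rowPoly_sc (s : ℕ → ℝ) (v : ↥(tri N) → ℝ) (j : ℕ) :
    rowPoly k N (sc k N s v) j = C (s j) * rowPoly k N v j := by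
  rw [rowPoly, rowPoly, Finset.mul_sum]
  refine Finset.sum_congr rfl fun q _ => ?_
  split_ifs with h
  · rw [sc, h, C_mul, mul_assoc]
  · simp

/-- The rows as linear maps. -/
noncomputable def rowLin (j : ℕ) : (↥(tri N) → ℝ) →ₗ[ℝ] ℝ[X] where
  toFun v := rowPoly k N v j
  map_add' v w := by
    simp only [rowPoly, ← Finset.sum_add_distrib]
    refine Finset.sum_congr rfl fun q _ => ?_
    split_ifs
    · rw [Pi.add_apply, C_add, add_mul]
    · simp
  map_smul' a v := by
    simp only [rowPoly, RingHom.id_apply, Finset.smul_sum]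
    refine Finset.sum_congr rfl fun q _ => ?_
    split_ifs
    · rw [Pi.smul_apply, smul_eq_mul, C_mul, smul_eq_C_mul, mul_assoc]
    · simp

lemma rowLin_apply (j : ℕ) (v : ↥(tri N) → ℝ) : rowLin k N j v = rowPoly k N v j := rfl

lemma rowPoly_congr (j : ℕ) (v v' : ↥(tri N) → ℝ) (h : ∀ q, q.1.1 / k = j → v q = v' q) :
    rowPoly k N v j = rowPoly k N v' j := by
  rw [rowPoly, rowPoly]
  refine Finset.sum_congr rfl fun q _ => ?_
  split_ifs with hq
  · rw [h q hq]
  · rfl

/-- The vectors whose row `j` is divisible by `(X - x) ^ c`. -/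
noncomputable def divSub (x : ℝ) (c j : ℕ) : Submodule ℝ (↥(tri N) → ℝ) :=
  ((Ideal.span {(X - C x) ^ c}).restrictScalars ℝ).comap (rowLin k N j)

lemma mem_divSub (x : ℝ) (c j : ℕ) (v : ↥(tri N) → ℝ) :
    v ∈ divSub k N x c j ↔ (X - C x) ^ c ∣ rowPoly k N v j := by
  rw [divSub, Submodule.mem_comap, Submodule.restrictScalars_mem, Ideal.mem_span_singleton]
  rfl

/-- The vectors vanishing to order `m` at the point `(x, u)`. -/
noncomputable def offSub (m : ℕ) (x u : ℝ) : Submodule ℝ (↥(tri N) → ℝ) where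
  carrier := {v | ∀ al be, al + be < m → ∑ j ∈ Finset.range N,
    (taylor x (rowPoly k N v j)).coeff al * ((X + C u : ℝ[X]) ^ j).coeff be = 0}
  add_mem' := by
    intro v w hv hw al be h
    have h1 := hv al be h
    have h2 := hw al be h
    rw [← add_zero (0 : ℝ)]
    nth_rewrite 1 [← h1]
    rw [← h2, ← Finset.sum_add_distrib]
    refine Finset.sum_congr rfl fun j _ => ?_
    rw [← rowLin_apply, map_add, map_add, coeff_add, rowLin_apply, rowLin_apply, add_mul]
  zero_mem' := by
    intro al be _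
    apply Finset.sum_eq_zero
    intro j _
    rw [← rowLin_apply, map_zero, map_zero, coeff_zero, zero_mul]
  smul_mem' := by
    intro a v hv al be h
    have h1 := hv al be h
    rw [← mul_zero a, ← h1, Finset.mul_sum]
    refine Finset.sum_congr rfl fun j _ => ?_
    rw [← rowLin_apply, map_smul, map_smul, coeff_smul, rowLin_apply, smul_eq_mul, mul_assoc]

lemma mem_offSub (m : ℕ) (x u : ℝ) (v : ↥(tri N) → ℝ) :
    v ∈ offSub k N m x u ↔ ∀ al be, al + be < m → ∑ j ∈ Finset.range N,
    (taylor x (rowPoly k N v j)).coeff al * ((X + C u : ℝ[X]) ^ j).coeff be = 0 := Iff.rfl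

lemma sc_mem_offSub (m : ℕ) (x u c : ℝ) (v : ↥(tri N) → ℝ) (s : ℕ → ℝ)
    (hs : ∀ j, s j = c * u ^ j) (hv : v ∈ offSub k N m x u) :
    sc k N s v ∈ offSub k N m x 1 := by
  intro al be h
  have h1 := hv al be h
  rw [← mul_zero (c * u ^ be), ← h1, Finset.mul_sum]
  refine Finset.sum_congr rfl fun j _ => ?_
  rw [rowPoly_sc, taylor_mul, taylor_C, coeff_C_mul, hs, coeff_X_add_C_pow, coeff_X_add_C_pow,
    one_pow, one_mul]
  rcases Nat.lt_or_ge j be with hj | hj
  · rw [Nat.choose_eq_zero_of_lt hj]; simp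
  · obtain ⟨e, rfl⟩ := Nat.exists_eq_add_of_le hj
    rw [Nat.add_sub_cancel_left, pow_add]
    ring

/-- The projection to the rows `j` with `e * (j - j0) ≤ 0`. -/
noncomputable def prj (e : ℤ) (j0 : ℕ) : (↥(tri N) → ℝ) →ₗ[ℝ] (↥(tri N) → ℝ) where
  toFun v := fun q => if e * (((q.1.1 / k : ℕ) : ℤ) - j0) ≤ 0 then v q else 0
  map_add' v w := by
    funext q
    simp only [Pi.add_apply]
    split_ifs <;> simp
  map_smul' a v := by
    funext q
    simp only [Pi.smul_apply, RingHom.id_apply]
    split_ifs <;> simp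

/-- The limit lemma. -/
theorem exists_scale (m : ℕ) (x : ℝ) (G V : Submodule ℝ (↥(tri N) → ℝ))
    (hG : ∀ s, ∀ v ∈ G, sc k N s v ∈ G) (hVG : V ≤ G) (w : ℕ → ℕ) (e : ℤ) (he : e = 1 ∨ e = -1)
    (helim : ∀ j0 : ℕ, ∀ v ∈ G, (∀ q : ↥(tri N), e * (((q.1.1 / k : ℕ) : ℤ) - j0) < 0 → v q = 0) →
      v ∈ offSub k N m x 1 → (X - C x) ^ (w j0) ∣ rowPoly k N v j0)
    (hV : ∀ v ∈ V, (∀ j, (X - C x) ^ (w j) ∣ rowPoly k N v j) → v = 0) :
    ∃ u : ℝ, 0 < u ∧ ∀ v ∈ V, v ∈ offSub k N m x u → v = 0 := by
  classical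
  by_contra hcon
  push Not at hcon
  have hpos : ∀ n : ℕ, (0 : ℝ) < ((n : ℝ) + 1) := fun n => by positivity
  have hne : ∀ n : ℕ, ((n : ℝ) + 1) ≠ 0 := fun n => (hpos n).ne'
  have h1 : ∀ n : ℕ, ∃ v ∈ V, v ∈ offSub k N m x (((n : ℝ) + 1) ^ e) ∧ ‖v‖ = 1 := by
    intro n
    obtain ⟨v, hvV, hvo, hv0⟩ := hcon (((n : ℝ) + 1) ^ e) (zpow_pos (hpos n) e)
    refine ⟨‖v‖⁻¹ • v, Submodule.smul_mem _ _ hvV, Submodule.smul_mem _ _ hvo, ?_⟩
    rw [norm_smul, norm_inv, norm_norm, inv_mul_cancel₀ (norm_ne_zero_iff.2 hv0)]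
  choose z hzV hzo hz1 using h1
  obtain ⟨a, ha, φ, hφ, hlim⟩ := (isCompact_sphere (0 : ↥(tri N) → ℝ) 1).tendsto_subseq
    (x := z) (fun n => by rw [mem_sphere_zero_iff_norm]; exact hz1 n)
  have haV : a ∈ V := by
    have hc : IsClosed (V : Set (↥(tri N) → ℝ)) := Submodule.closed_of_finiteDimensional V
    exact hc.mem_of_tendsto hlim (Eventually.of_forall fun n => hzV (φ n))
  have ha0 : a ≠ 0 := by
    rintro rfl
    rw [mem_sphere_zero_iff_norm, norm_zero] at ha
    exact zero_ne_one ha
  apply ha0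
  apply hV a haV
  intro j0
  set Q : Submodule ℝ (↥(tri N) → ℝ) := (G ⊓ offSub k N m x 1).map (prj k N e j0) with hQ
  have hQc : IsClosed (Q : Set (↥(tri N) → ℝ)) := Submodule.closed_of_finiteDimensional Q
  set s : ℕ → ℕ → ℝ := fun n j => ((n : ℝ) + 1) ^ (e * ((j : ℤ) - j0)) with hs
  have hmem : ∀ n, prj k N e j0 (sc k N (s (φ n)) (z (φ n))) ∈ Q := by
    intro n
    refine Submodule.mem_map_of_mem ⟨hG _ _ (hVG (hzV (φ n))), ?_⟩
    apply sc_mem_offSub k N m x (((φ n : ℝ) + 1) ^ e) (((φ n : ℝ) + 1) ^ (-(e * j0))) _ _ _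
      (hzo (φ n))
    intro j
    rw [hs]
    simp only
    rw [← zpow_natCast, ← zpow_mul, ← zpow_add₀ (hne (φ n))]
    congr 1
    ring
  have hlim2 : Tendsto (fun n => prj k N e j0 (sc k N (s (φ n)) (z (φ n)))) atTop
      (𝓝 (fun q : ↥(tri N) => if q.1.1 / k = j0 then a q else 0)) := by
    rw [tendsto_pi_nhds]
    intro q
    have hq := (tendsto_pi_nhds.1 hlim) q
    by_cases h2 : q.1.1 / k = j0
    · rw [if_pos h2]
      refine hq.congr fun n => ?_
      simp only [prj, LinearMap.coe_mk, AddHom.coe_mk, sc, hs, h2, sub_self, mul_zero, le_refl,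
        if_true, zpow_zero, one_mul, Function.comp_apply]
    · rw [if_neg h2]
      by_cases h3 : e * (((q.1.1 / k : ℕ) : ℤ) - j0) ≤ 0
      · have h4 : e * (((q.1.1 / k : ℕ) : ℤ) - j0) < 0 := by
          refine lt_of_le_of_ne h3 ?_
          intro h5
          rcases mul_eq_zero.1 h5 with h6 | h6
          · rcases he with h | h <;> omega
          · apply h2; omega
        have h5 : Tendsto (fun n => s (φ n) (q.1.1 / k)) atTop (𝓝 0) := by
          have h6 : Tendsto (fun n : ℕ => ((n : ℝ) + 1)) atTop atTop :=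
            tendsto_atTop_add_const_right _ _ tendsto_natCast_atTop_atTop
          have h7 : Tendsto (fun n : ℕ => (((φ n : ℕ) : ℝ) + 1)) atTop atTop :=
            h6.comp hφ.tendsto_atTop
          obtain ⟨c, hc⟩ : ∃ c : ℕ, e * (((q.1.1 / k : ℕ) : ℤ) - j0) = -((c : ℤ) + 1) :=
            ⟨(-(e * (((q.1.1 / k : ℕ) : ℤ) - j0)) - 1).toNat, by omega⟩
          have h8 : (fun n => s (φ n) (q.1.1 / k)) =
              fun n => ((((φ n : ℕ) : ℝ) + 1) ^ (c + 1))⁻¹ := by
            funext n
            rw [hs]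
            simp only
            rw [hc, zpow_neg]
            congr 1
          rw [h8]
          exact (tendsto_pow_atTop (Nat.succ_ne_zero c)).comp h7 |>.inv_tendsto_atTop
        have h6 := h5.mul hq
        rw [zero_mul] at h6
        refine h6.congr fun n => ?_
        simp only [prj, LinearMap.coe_mk, AddHom.coe_mk, sc, if_pos h3, Function.comp_apply]
      · refine tendsto_const_nhds.congr fun n => ?_
        simp only [prj, LinearMap.coe_mk, AddHom.coe_mk, if_neg h3]
  have hQm := hQc.mem_of_tendsto hlim2 (Eventually.of_forall hmem)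
  obtain ⟨v, ⟨hvG, hvo⟩, hv⟩ := hQm
  have hvq : ∀ q : ↥(tri N), e * (((q.1.1 / k : ℕ) : ℤ) - j0) ≤ 0 →
      v q = if q.1.1 / k = j0 then a q else 0 := by
    intro q hq
    have := congrFun hv q
    simp only [prj, LinearMap.coe_mk, AddHom.coe_mk, if_pos hq] at this
    exact this
  have h2 := helim j0 v hvG (by
    intro q hq
    rw [hvq q hq.le, if_neg]
    intro h
    rw [h, sub_self, mul_zero] at hq
    exact lt_irrefl _ hq) hvo
  rwa [rowPoly_congr k N j0 v a] at h2
  intro q hq
  rw [hvq q (by rw [hq]; simp), if_pos hq]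

end

end Pool.MP_70e04f_ag

end

/-! ### from `Lib_MP_70e04f_ag.Cert` -/

section

/-!
Combinatorial certificates for the dimension of the limit system.
-/

namespace Pool.MP_70e04f_ag

open Polynomial

/-- Descartes' rule for one row. -/
lemma row_zero {ι : Type*} [DecidableEq ι] (x : ι → ℝ) (hx : ∀ i, 0 < x i)
    (hinj : Function.Injective x) (y : ℝ) (hy : 0 < y) (hyx : ∀ i, x i ≠ y)
    (f : ℝ[X]) (s : Finset ι) (c : ι → ℕ) (h : ∀ i ∈ s, (X - C (x i)) ^ (c i) ∣ f) (t : ℕ)
    (ht : (X - C y) ^ t ∣ f) (hcard : f.support.card ≤ (∑ i ∈ s, c i) + t) : f = 0 := by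
  classical
  let s' : Finset (Option ι) := insert none (s.map Function.Embedding.some)
  let xx : Option ι → ℝ := fun o => o.elim y x
  let w : Option ι → ℕ := fun o => o.elim t c
  have hnone : none ∉ s.map Function.Embedding.some := by simp
  apply descartes f s' xx w
  · intro o _
    cases o with
    | none => exact hy
    | some i => exact hx i
  · intro o1 _ o2 _ h
    cases o1 with
    | none =>
      cases o2 with
      | none => rfl
      | some i => exact absurd h.symm (hyx i)
    | some i =>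
      cases o2 with
      | none => exact absurd h (hyx i)
      | some i' => rw [hinj h]
  · intro o ho
    cases o with
    | none => exact ht
    | some i =>
      have hi : i ∈ s := by simpa [s'] using ho
      exact h i hi
  · refine hcard.trans (le_of_eq ?_)
    rw [Finset.sum_insert hnone, Finset.sum_map]
    have e2 : w none = t := rfl
    rw [e2, add_comm]
    rfl

section
variable (k N : ℕ)

/-- The number of large entries of a pattern. -/
def PatOK (m : ℕ) (w : ℕ → ℕ) : Prop :=
  ∀ l, ∀ F : Finset ℕ, (∀ j ∈ F, l < w j) → F.card ≤ m - l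

lemma PatOK.le {m : ℕ} {w : ℕ → ℕ} (h : PatOK m w) (j : ℕ) : w j ≤ m := by
  by_contra hcon
  have := h m {j} (by intro i hi; rw [Finset.mem_singleton] at hi; subst hi; omega)
  rw [Finset.card_singleton] at this
  omega

/-- Elimination at one point. -/
lemma elim_one (m : ℕ) (x : ℝ) (w : ℕ → ℕ) (hw : PatOK m w) (v : ↥(tri N) → ℝ)
    (hoff : v ∈ offSub k N m x 1) (j0 : ℕ)
    (hex : ∀ j, rowPoly k N v j = 0 ∨ w j0 ≤ w j ∨
      ((X - C x) ^ (w j) ∣ rowPoly k N v j → rowPoly k N v j = 0)) :
    ∀ l ≤ w j0, ∀ j, (X - C x) ^ l ∣ rowPoly k N v j := by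
  intro l
  induction l with
  | zero => intro _ j; simp
  | succ l ih =>
    intro hl
    have ih := ih (by omega)
    have hm : w j0 ≤ m := hw.le j0
    apply off_step (fun _ : Unit => x) (fun _ => m) () (rowPoly k N v) N
      (fun j hj => rowPoly_eq_zero k N v j hj) hoff l (by show l < m; omega) ih
      ((Finset.range N).filter (fun j => l < w j))
    · intro j hj
      rw [Finset.mem_filter, Finset.mem_range, not_and, not_lt] at hj
      rcases Nat.lt_or_ge j N with h1 | h1
      · have h2 := hj h1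
        rcases hex j with h | h | h
        · exact h
        · omega
        · exact h ((pow_dvd_pow _ h2).trans (ih j))
      · exact rowPoly_eq_zero k N v j h1
    · exact hw l _ (fun j hj => (Finset.mem_filter.1 hj).2)

/-- The certificates. -/
structure IsCert {n : ℕ} (m : Fin n → ℕ) (V : Fin n → ℕ → ℕ) (σ : Fin n → ℤ) (ord : Fin n → ℕ)
    (Γ : Finset (Fin n)) (w : ℕ → ℕ) (Mc : ℕ) : Prop where
  hσ : ∀ i, σ i = 1 ∨ σ i = -1
  hΓm : ∀ i ∈ Γ, Mc ≤ m i
  hΓV : ∀ i ∈ Γ, V i = w
  hw : PatOK Mc w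
  hV : ∀ i, i ∉ Γ → PatOK (m i) (V i)
  hex : ∀ i, i ∉ Γ → ∀ j0 j : ℕ, 0 < σ i * ((j : ℤ) - j0) → V i j < V i j0 →
    ∀ p, p ≠ i → (p ∈ Γ ∨ ord i ≤ ord p) → V p j = 0

variable {n : ℕ}

/-- The positions in the `x` direction. -/
noncomputable def xpos (i : Fin n) : ℝ := ((i : ℕ) : ℝ) + 2

lemma xpos_pos (i : Fin n) : 0 < xpos i := by unfold xpos; positivity

lemma xpos_inj : Function.Injective (xpos (n := n)) := by
  intro i j hij
  have : ((i : ℕ) : ℝ) = ((j : ℕ) : ℝ) := by simpa [xpos] using hij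
  exact Fin.ext (Nat.cast_injective this)

lemma xpos_ne (i : Fin n) : xpos i ≠ 1 := by
  intro h
  have : (0 : ℝ) ≤ ((i : ℕ) : ℝ) := Nat.cast_nonneg _
  unfold xpos at h
  linarith

/-- A row all of whose points are used up vanishes. -/
lemma row_zero' (V : Fin n → ℕ → ℕ) (t : ℕ → ℕ) (v : ↥(tri N) → ℝ) (j : ℕ)
    (S : Finset (Fin n)) (c : Fin n → ℕ) (h : ∀ i ∈ S, (X - C (xpos i)) ^ (c i) ∣ rowPoly k N v j)
    (ht : (X - C (1 : ℝ)) ^ (t j) ∣ rowPoly k N v j)
    (hcard : nrow k N j ≤ (∑ i ∈ S, c i) + t j) : rowPoly k N v j = 0 :=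
  row_zero xpos xpos_pos xpos_inj 1 one_pos xpos_ne _ S c h (t j) ht
    ((card_support_rowPoly k N v j).trans hcard)

theorem cert_pos (hk : 0 < k) (m : Fin n → ℕ) (V : Fin n → ℕ → ℕ) (σ : Fin n → ℤ)
    (ord : Fin n → ℕ) (Γ : Finset (Fin n)) (w : ℕ → ℕ) (Mc : ℕ)
    (hC : IsCert m V σ ord Γ w Mc) (t : ℕ → ℕ)
    (hcap : ∀ j, nrow k N j ≤ (∑ i, V i j) + t j) :
    ∀ (c : ℕ) (S : Finset (Fin n)), Disjoint S Γ → ((S ∪ Γ)ᶜ).card = c →
      (∀ p ∈ S, ∀ q, q ∉ Γ → ord q < ord p → q ∈ S) →
      ∃ u : Fin n → ℝ, ∀ v : ↥(tri N) → ℝ,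
        (∀ j, (X - C (1 : ℝ)) ^ (t j) ∣ rowPoly k N v j) →
        (∀ i ∈ S, ∀ j, (X - C (xpos i)) ^ (V i j) ∣ rowPoly k N v j) →
        (∀ i, i ∉ S → v ∈ offSub k N (m i) (xpos i) (u i)) → ∀ j, rowPoly k N v j = 0 := by
  classical
  intro c
  induction c with
  | zero =>
    intro S hSΓ hc _
    refine ⟨fun _ => 1, ?_⟩
    intro v ht hS hoff
    have hcov : ∀ i, i ∈ S ∨ i ∈ Γ := by
      intro i
      by_contra hcon
      rw [Finset.card_eq_zero, Finset.eq_empty_iff_forall_notMem] at hc
      exact hc i (by rw [Finset.mem_compl, Finset.mem_union]; exact hcon)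
    have huniv : S ∪ Γ = Finset.univ := by
      rw [Finset.eq_univ_iff_forall]
      intro i; rw [Finset.mem_union]; exact hcov i
    have hdead : ∀ l j, (∀ i ∈ Γ, (X - C (xpos i)) ^ l ∣ rowPoly k N v j) → w j ≤ l →
        rowPoly k N v j = 0 := by
      intro l j h hl
      apply row_zero' k N V t v j (S ∪ Γ) (fun i => if i ∈ S then V i j else w j)
      · intro i hi
        split_ifs with h1
        · exact hS i h1 j
        · exact (pow_dvd_pow _ hl).trans (h i ((hcov i).resolve_left h1))
      · exact ht j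
      · refine (hcap j).trans (le_of_eq ?_)
        congr 1
        rw [huniv]
        refine Finset.sum_congr rfl fun i _ => ?_
        split_ifs with h1
        · rfl
        · rw [hC.hΓV i ((hcov i).resolve_left h1)]
    have key : ∀ l ≤ Mc, ∀ i ∈ Γ, ∀ j, (X - C (xpos i)) ^ l ∣ rowPoly k N v j := by
      intro l
      induction l with
      | zero => intro _ i _ j; simp
      | succ l ih =>
        intro hl i hi
        have ih := ih (by omega)
        have hmi := hC.hΓm i hi
        apply off_step (xpos (n := n)) m i (rowPoly k N v) N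
          (fun j hj => rowPoly_eq_zero k N v j hj)
          (hoff i (Finset.disjoint_right.1 hSΓ hi)) l (by omega) (ih i hi)
          ((Finset.range N).filter (fun j => l < w j))
        · intro j hj
          rw [Finset.mem_filter, Finset.mem_range, not_and, not_lt] at hj
          rcases Nat.lt_or_ge j N with h1 | h1
          · exact hdead l j (fun i hi => ih i hi j) (hj h1)
          · exact rowPoly_eq_zero k N v j h1
        · refine (hC.hw l _ (fun j hj => (Finset.mem_filter.1 hj).2)).trans ?_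
          omega
    intro j
    exact hdead Mc j (fun i hi => key Mc le_rfl i hi j) (hC.hw.le j)
  | succ c ih =>
    intro S hSΓ hc hdown
    have hne : ((S ∪ Γ)ᶜ).Nonempty := by
      rw [← Finset.card_pos, hc]; omega
    obtain ⟨i, hi, hmin⟩ := Finset.exists_min_image _ ord hne
    rw [Finset.mem_compl, Finset.mem_union, not_or] at hi
    obtain ⟨hiS, hiΓ⟩ := hi
    have hmin' : ∀ p, p ∉ S → p ∉ Γ → ord i ≤ ord p := by
      intro p h1 h2
      exact hmin p (by rw [Finset.mem_compl, Finset.mem_union]; tauto)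
    obtain ⟨u, hu⟩ := ih (insert i S)
      (by rw [Finset.disjoint_insert_left]; exact ⟨hiΓ, hSΓ⟩)
      (by
        have h1 : insert i S ∪ Γ = insert i (S ∪ Γ) := by rw [Finset.insert_union]
        rw [h1, Finset.compl_insert, Finset.card_erase_of_mem, hc]
        · omega
        · rw [Finset.mem_compl, Finset.mem_union]; tauto)
      (by
        intro p hp q hq hqp
        rw [Finset.mem_insert] at hp ⊢
        by_cases hqS : q ∈ S
        · exact Or.inr hqS
        · have h1 := hmin' q hqS hq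
          rcases hp with rfl | hp
          · omega
          · exact absurd (hdown p hp q hq hqp) hqS)
    set G : Submodule ℝ (↥(tri N) → ℝ) := (⨅ j, divSub k N 1 (t j) j) ⊓
      (⨅ p ∈ S, ⨅ j, divSub k N (xpos p) (V p j) j) with hG
    have memG : ∀ v, v ∈ G ↔ (∀ j, (X - C (1 : ℝ)) ^ (t j) ∣ rowPoly k N v j) ∧
        (∀ p ∈ S, ∀ j, (X - C (xpos p)) ^ (V p j) ∣ rowPoly k N v j) := by
      intro v
      rw [hG, Submodule.mem_inf, Submodule.mem_iInf, Submodule.mem_iInf]
      simp only [Submodule.mem_iInf, mem_divSub]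
    set W : Submodule ℝ (↥(tri N) → ℝ) := G ⊓
      (⨅ p ∈ (insert i S)ᶜ, offSub k N (m p) (xpos p) (u p)) with hW
    have memW : ∀ v, v ∈ W ↔ v ∈ G ∧ ∀ p, p ∉ insert i S →
        v ∈ offSub k N (m p) (xpos p) (u p) := by
      intro v
      rw [hW, Submodule.mem_inf]
      simp only [Submodule.mem_iInf, Finset.mem_compl]
    obtain ⟨ui, hui, hui2⟩ := exists_scale k N (m i) (xpos i) G W (by
        intro s v hv
        rw [memG] at hv ⊢
        refine ⟨fun j => ?_, fun p hp j => ?_⟩
        · rw [rowPoly_sc]; exact (hv.1 j).mul_left _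
        · rw [rowPoly_sc]; exact (hv.2 p hp j).mul_left _) inf_le_left (V i) (σ i) (hC.hσ i) (by
        intro j0 v hv hz hoff
        apply elim_one k N (m i) (xpos i) (V i) (hC.hV i hiΓ) v hoff j0 _ (V i j0) le_rfl
        intro j
        rcases lt_or_ge (σ i * ((j : ℤ) - j0)) 0 with h1 | h1
        · left
          rw [rowPoly]
          apply Finset.sum_eq_zero
          intro q _
          split_ifs with hq
          · rw [hz q (by rw [hq]; exact h1)]; simp
          · rfl
        · right
          rcases Nat.lt_or_ge (V i j) (V i j0) with h2 | h2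
          swap
          · exact Or.inl h2
          · right
            intro hd
            have h3 : 0 < σ i * ((j : ℤ) - j0) := by
              refine lt_of_le_of_ne h1 ?_
              intro h4
              rcases mul_eq_zero.1 h4.symm with h5 | h5
              · rcases hC.hσ i with h | h <;> omega
              · have : j = j0 := by omega
                rw [this] at h2
                exact lt_irrefl _ h2
            have h4 := hC.hex i hiΓ j0 j h3 h2
            rw [memG] at hv
            apply row_zero' k N V t v j (insert i S) (fun p => V p j)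
            · intro p hp
              rw [Finset.mem_insert] at hp
              rcases hp with rfl | hp
              · exact hd
              · exact hv.2 p hp j
            · exact hv.1 j
            · refine (hcap j).trans (le_of_eq ?_)
              congr 1
              symm
              apply Finset.sum_subset (Finset.subset_univ _)
              intro p _ hp
              rw [Finset.mem_insert, not_or] at hp
              by_cases hpΓ : p ∈ Γ
              · exact h4 p hp.1 (Or.inl hpΓ)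
              · exact h4 p hp.1 (Or.inr (hmin' p hp.2 hpΓ))) (by
        intro v hv hd
        rw [memW, memG] at hv
        have h1 := hu v hv.1.1 (by
          intro p hp j
          rw [Finset.mem_insert] at hp
          rcases hp with rfl | hp
          · exact hd j
          · exact hv.1.2 p hp j) hv.2
        funext q
        rw [← coeff_rowPoly k N hk v q, h1]
        simp)
    refine ⟨Function.update u i ui, ?_⟩
    intro v h1 h2 h3 j
    have h4 : v = 0 := by
      apply hui2 v
      · rw [memW, memG]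
        refine ⟨⟨h1, h2⟩, ?_⟩
        intro p hp
        rw [Finset.mem_insert, not_or] at hp
        have := h3 p hp.2
        rwa [Function.update_of_ne hp.1] at this
      · have := h3 i hiS
        rwa [Function.update_self] at this
    rw [h4]
    exact (rowLin k N j).map_zero

end

end Pool.MP_70e04f_ag

end

/-! ### from `Lib_MP_70e04f_ag.Front` -/

section

/-!
The patterns of the front: a point of multiplicity `μ` whose order on the rows is
`b, b - 1, ..., c, b + 1, c - 1, ..., 0, b + 2, b + 3, ...`.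
-/

namespace Pool.MP_70e04f_ag

/-- The number of conditions on row `j` of a point of multiplicity `μ` at the front position
`(b, c)`. -/
def vp (μ b c j : ℕ) : ℕ :=
  if j ≤ b then μ + j - (b + if j < c then 1 else 0) else if j = b + 1 then μ + c - j else μ - j

lemma vp_le_iff {μ b c j : ℕ} (h : j ≤ b) : vp μ b c j = μ + j - (b + if j < c then 1 else 0) := by
  unfold vp; rw [if_pos h]

lemma vp_succ (μ b c : ℕ) : vp μ b c (b + 1) = μ + c - (b + 1) := by
  unfold vp; rw [if_neg (by omega), if_pos rfl]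

lemma vp_gt {μ b c j : ℕ} (h : b + 2 ≤ j) : vp μ b c j = μ - j := by
  unfold vp; rw [if_neg (by omega), if_neg (by omega)]

lemma vp_mono {μ b c j : ℕ} (h : j + 1 ≤ b) : vp μ b c j ≤ vp μ b c (j + 1) := by
  rw [vp_le_iff h, vp_le_iff (by omega)]
  split_ifs <;> omega

/-- The pattern is a permutation of `μ, μ - 1, ..., 1`. -/
lemma patOK_vp (μ b c : ℕ) (hc : c ≤ b + 1) : PatOK μ (vp μ b c) := by
  intro l F hF
  have h1 : ∀ j ∈ F, vp μ b c j ∈ Finset.Ioc l μ := by
    intro j hj
    rw [Finset.mem_Ioc]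
    refine ⟨hF j hj, ?_⟩
    unfold vp
    split_ifs <;> omega
  have h2 : Set.InjOn (vp μ b c) (F : Set ℕ) := by
    intro i hi j hj hij
    have hi' := hF i hi
    have hj' := hF j hj
    unfold vp at hij hi' hj'
    split_ifs at hij hi' hj' <;> omega
  have h3 := Finset.card_le_card_of_injOn (vp μ b c) h1 h2
  rwa [Nat.card_Ioc] at h3

/-- Moving across a wall. -/
lemma sum_vp_step (μ b c L : ℕ) (hc : c ≤ b) (hL : b + 2 ≤ L) :
    ∑ j ∈ Finset.range L, vp μ b (c + 1) j = ∑ j ∈ Finset.range L, vp μ b c j := by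
  have key : ∀ j ∈ Finset.range L,
      vp μ b (c + 1) j + (if j = c then (if b + 1 ≤ μ + c then 1 else 0) else 0) =
      vp μ b c j + (if j = b + 1 then (if b + 1 ≤ μ + c then 1 else 0) else 0) := by
    intro j _
    unfold vp
    split_ifs <;> omega
  have h := Finset.sum_congr rfl key
  rw [Finset.sum_add_distrib, Finset.sum_add_distrib, Finset.sum_ite_eq', Finset.sum_ite_eq',
    if_pos (Finset.mem_range.2 (by omega)), if_pos (Finset.mem_range.2 (by omega))] at h
  omega

lemma vp_roll (μ b j : ℕ) : vp μ b (b + 1) j = vp μ (b + 1) 0 j := by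
  unfold vp
  split_ifs <;> omega

lemma sum_vp (μ b c L : ℕ) (hc : c ≤ b + 1) (hb : b + 2 ≤ L) (hμ : μ ≤ L) :
    2 * ∑ j ∈ Finset.range L, vp μ b c j = μ * (μ + 1) := by
  have h1 : ∀ b c, c ≤ b + 1 → b + 2 ≤ L → ∑ j ∈ Finset.range L, vp μ b c j =
      ∑ j ∈ Finset.range L, vp μ b 0 j := by
    intro b c
    induction c with
    | zero => intro _ _; rfl
    | succ c ih =>
      intro hc hb
      rw [sum_vp_step μ b c L (by omega) hb, ih (by omega) hb]
  have h2 : ∀ b, b + 2 ≤ L → ∑ j ∈ Finset.range L, vp μ b 0 j =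
      ∑ j ∈ Finset.range L, (μ - j) := by
    intro b
    induction b with
    | zero =>
      intro _
      refine Finset.sum_congr rfl fun j _ => ?_
      unfold vp
      split_ifs <;> omega
    | succ b ih =>
      intro hb
      rw [← ih (by omega), ← h1 b (b + 1) le_rfl (by omega)]
      refine Finset.sum_congr rfl fun j _ => ?_
      rw [vp_roll]
  rw [h1 b c hc hb, h2 b hb]
  exact sum_sub_range μ L hμ

end Pool.MP_70e04f_ag

end

/-! ### from `Lib_MP_70e04f_ag.Pot` -/

section

/-!
Certificates by potentials: the row `j` carries a real potential `w j`, the point `i` a real slope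
`s i`, and the conditions imposed by the point `i` on the rows are sorted by `s i * j - w j`.
-/

namespace Pool.MP_70e04f_ag

open Polynomial Filter Topology

/-- The coefficients in `F` are determined by the others. -/
lemma exists_interp (N r : ℕ) (F : Finset ℕ) (hF : F.card ≤ r) (j0 : ℕ) :
    ∃ g : ℕ → ℝ, ∀ q : ℝ[X], (X - C (1 : ℝ)) ^ r ∣ q → (∀ j, N ≤ j → q.coeff j = 0) →
      q.coeff j0 = ∑ j ∈ Finset.range N \ F, g j * q.coeff j := by
  classical
  let K : Submodule ℝ ℝ[X] :=
    (Ideal.span {(X - C (1 : ℝ)) ^ r}).restrictScalars ℝ ⊓ degreeLT ℝ N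
  have hK : ∀ q : ℝ[X], q ∈ K ↔ (X - C (1 : ℝ)) ^ r ∣ q ∧ ∀ j, N ≤ j → q.coeff j = 0 := by
    intro q
    rw [Submodule.mem_inf, Submodule.restrictScalars_mem, Ideal.mem_span_singleton,
      Polynomial.mem_degreeLT, Polynomial.degree_lt_iff_coeff_zero]
  let L : ↥(Finset.range N \ F) → K →ₗ[ℝ] ℝ := fun j => (lcoeff ℝ j.1).comp K.subtype
  let L0 : K →ₗ[ℝ] ℝ := (lcoeff ℝ j0).comp K.subtype
  have hker : ⨅ i, LinearMap.ker (L i) ≤ LinearMap.ker L0 := by
    intro q hq
    rw [Submodule.mem_iInf] at hq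
    have hq' := (hK q.1).1 q.2
    have h0 : q.1 = 0 := by
      apply descartes q.1 (Finset.univ : Finset Unit) (fun _ => (1 : ℝ)) (fun _ => r)
      · intro _ _; norm_num
      · intro a _ b _ _; rfl
      · intro _ _; exact hq'.1
      · simp only [Finset.univ_unique, Finset.sum_const, Finset.card_singleton, one_smul]
        refine le_trans (Finset.card_le_card ?_) hF
        intro j hj
        by_contra hjF
        rw [Polynomial.mem_support_iff] at hj
        apply hj
        by_cases hjN : j < N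
        · exact hq ⟨j, Finset.mem_sdiff.2 ⟨Finset.mem_range.2 hjN, hjF⟩⟩
        · exact hq'.2 j (by omega)
    rw [LinearMap.mem_ker]
    change q.1.coeff j0 = 0
    rw [h0, coeff_zero]
  have hmem := mem_span_of_iInf_ker_le_ker hker
  rw [Submodule.mem_span_range_iff_exists_fun] at hmem
  obtain ⟨c, hc⟩ := hmem
  refine ⟨fun j => if h : j ∈ Finset.range N \ F then c ⟨j, h⟩ else 0, ?_⟩
  intro q h1 h2
  have h3 := LinearMap.congr_fun hc ⟨q, (hK q).2 ⟨h1, h2⟩⟩
  rw [LinearMap.sum_apply] at h3
  have h4 : L0 ⟨q, (hK q).2 ⟨h1, h2⟩⟩ = q.coeff j0 := rfl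
  rw [← h4, ← h3, ← Finset.sum_coe_sort (Finset.range N \ F)]
  refine Finset.sum_congr rfl fun j _ => ?_
  change _ = (if h : j.1 ∈ Finset.range N \ F then c ⟨j.1, h⟩ else 0) * _
  rw [dif_pos j.2]
  rfl

section
variable (k N : ℕ)

/-- The vanishing conditions in terms of one polynomial for each order in `x`. -/
lemma off_dvd (m : ℕ) (x : ℝ) (v : ↥(tri N) → ℝ) (hv : v ∈ offSub k N m x 1) (al : ℕ) :
    (X - C (1 : ℝ)) ^ (m - al) ∣
      ∑ j ∈ Finset.range N, C ((taylor x (rowPoly k N v j)).coeff al) * X ^ j := by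
  rw [Polynomial.X_sub_C_pow_dvd_iff, Polynomial.X_pow_dvd_iff]
  intro d hd
  rw [Polynomial.sum_comp, Polynomial.finsetSum_coeff]
  have h := hv al d (by omega)
  rw [← h]
  refine Finset.sum_congr rfl fun j _ => ?_
  simp only [mul_comp, C_comp, pow_comp, X_comp, coeff_C_mul]

/-- The limit argument. -/
theorem pot_pos {n : ℕ} (hk : 0 < k) (m : Fin n → ℕ) (V : Fin n → ℕ → ℕ) (w : ℕ → ℝ)
    (s : Fin n → ℝ) (hV : ∀ i, PatOK (m i) (V i))
    (hθ : ∀ i j0 j, j0 < N → j < N → V i j < V i j0 → s i * j - w j < s i * j0 - w j0)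
    (t : ℕ → ℕ) (hcap : ∀ j, nrow k N j ≤ (∑ i, V i j) + t j) :
    ∃ u : Fin n → ℝ, ∀ v : ↥(tri N) → ℝ, (∀ j, (X - C (1 : ℝ)) ^ (t j) ∣ rowPoly k N v j) →
      (∀ i, v ∈ offSub k N (m i) (xpos i) (u i)) → ∀ j, rowPoly k N v j = 0 := by
  classical
  by_contra hcon
  push Not at hcon
  have hpos : ∀ p : ℕ, (0 : ℝ) < ((p : ℝ) + 1) := fun p => by positivity
  have h1 : ∀ p : ℕ, ∃ z : ↥(tri N) → ℝ, ‖z‖ = 1 ∧
      (∀ j, (X - C (1 : ℝ)) ^ (t j) ∣ rowPoly k N z j) ∧
      ∀ i, sc k N (fun j => ((p : ℝ) + 1) ^ (s i * j - w j)) z ∈ offSub k N (m i) (xpos i) 1 := by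
    intro p
    obtain ⟨v, hv1, hv2, j, hj⟩ := hcon (fun i => ((p : ℝ) + 1) ^ (s i))
    set v' := sc k N (fun j => ((p : ℝ) + 1) ^ (w j)) v with hv'
    have hv0 : v' ≠ 0 := by
      intro h0
      apply hj
      have h2 := rowPoly_sc k N (fun j => ((p : ℝ) + 1) ^ (w j)) v j
      rw [← hv', h0] at h2
      have h3 : rowPoly k N (0 : ↥(tri N) → ℝ) j = 0 := by
        rw [← rowLin_apply, map_zero]
      rw [h3] at h2
      rcases mul_eq_zero.1 h2.symm with h4 | h4
      · rw [C_eq_zero] at h4
        exact absurd h4 (Real.rpow_pos_of_pos (hpos p) _).ne'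
      · exact h4
    refine ⟨‖v'‖⁻¹ • v', ?_, ?_, ?_⟩
    · rw [norm_smul, norm_inv, norm_norm, inv_mul_cancel₀ (norm_ne_zero_iff.2 hv0)]
    · intro j
      rw [← mem_divSub]
      apply Submodule.smul_mem
      rw [mem_divSub, hv', rowPoly_sc]
      exact (hv1 j).mul_left _
    · intro i
      have h2 : sc k N (fun j => ((p : ℝ) + 1) ^ (s i * j - w j)) (‖v'‖⁻¹ • v') =
          sc k N (fun j => ‖v'‖⁻¹ * (((p : ℝ) + 1) ^ (s i)) ^ j) v := by
        funext q
        simp only [sc, Pi.smul_apply, smul_eq_mul, hv']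
        rw [← Real.rpow_natCast, ← Real.rpow_mul (hpos p).le, Real.rpow_sub (hpos p)]
        have := (Real.rpow_pos_of_pos (hpos p) (w (q.1.1 / k))).ne'
        field_simp
      rw [h2]
      exact sc_mem_offSub k N (m i) (xpos i) (((p : ℝ) + 1) ^ (s i)) ‖v'‖⁻¹ v _ (fun j => rfl)
        (hv2 i)
  choose z hz1 hz2 hz3 using h1
  obtain ⟨a, ha, φ, hφ, hlim⟩ := (isCompact_sphere (0 : ↥(tri N) → ℝ) 1).tendsto_subseq
    (x := z) (fun p => by rw [mem_sphere_zero_iff_norm]; exact hz1 p)
  have ha0 : a ≠ 0 := by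
    rintro rfl
    rw [mem_sphere_zero_iff_norm, norm_zero] at ha
    exact zero_ne_one ha
  apply ha0
  have hat : ∀ j, (X - C (1 : ℝ)) ^ (t j) ∣ rowPoly k N a j := by
    intro j
    rw [← mem_divSub]
    have hc : IsClosed (divSub k N 1 (t j) j : Set (↥(tri N) → ℝ)) :=
      Submodule.closed_of_finiteDimensional _
    exact hc.mem_of_tendsto hlim
      (Eventually.of_forall fun p => (mem_divSub k N 1 (t j) j _).2 (hz2 (φ p) j))
  have hlam : Tendsto (fun p : ℕ => (((φ p : ℕ) : ℝ) + 1)) atTop atTop :=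
    (tendsto_atTop_add_const_right _ _ tendsto_natCast_atTop_atTop).comp hφ.tendsto_atTop
  have hcoef : ∀ (x : ℝ) (j al : ℕ), Tendsto
      (fun p => (taylor x (rowPoly k N (z (φ p)) j)).coeff al) atTop
      (𝓝 ((taylor x (rowPoly k N a j)).coeff al)) := by
    intro x j al
    simp only [taylor_rowPoly]
    apply tendsto_finsetSum
    intro q _
    split_ifs
    · exact ((tendsto_pi_nhds.1 hlim) q).mul_const _
    · exact tendsto_const_nhds
  have hdiv : ∀ i j0, (X - C (xpos i)) ^ (V i j0) ∣ rowPoly k N a j0 := by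
    intro i j0
    by_cases hj0 : j0 < N
    swap
    · rw [rowPoly_eq_zero k N a j0 (by omega)]; exact dvd_zero _
    rw [pow_dvd_iff_taylor]
    intro al hal
    obtain ⟨g, hg⟩ := exists_interp N (m i - al) ((Finset.range N).filter (fun j => al < V i j))
      (hV i al _ (fun j hj => (Finset.mem_filter.1 hj).2)) j0
    have h2 : ∀ p, (taylor (xpos i) (rowPoly k N (z (φ p)) j0)).coeff al =
        ∑ j ∈ Finset.range N \ (Finset.range N).filter (fun j => al < V i j),
          g j * ((taylor (xpos i) (rowPoly k N (z (φ p)) j)).coeff al *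
            ((((φ p : ℕ) : ℝ) + 1) ^ (-((s i * j0 - w j0) - (s i * j - w j))))) := by
      intro p
      have h3 := off_dvd k N (m i) (xpos i) _ (hz3 (φ p) i) al
      have h4 := hg _ h3 (by
        intro j hj
        rw [Polynomial.finsetSum_coeff]
        apply Finset.sum_eq_zero
        intro r hr
        rw [Finset.mem_range] at hr
        rw [coeff_C_mul, coeff_X_pow, if_neg (by omega), mul_zero])
      have h5 : ∀ j < N, (∑ r ∈ Finset.range N, C ((taylor (xpos i) (rowPoly k N
          (sc k N (fun j => (((φ p : ℕ) : ℝ) + 1) ^ (s i * j - w j)) (z (φ p))) r)).coeff al) *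
            X ^ r : ℝ[X]).coeff j = (((φ p : ℕ) : ℝ) + 1) ^ (s i * j - w j) *
            (taylor (xpos i) (rowPoly k N (z (φ p)) j)).coeff al := by
        intro j hj
        rw [Polynomial.finsetSum_coeff]
        simp only [coeff_C_mul, coeff_X_pow, mul_ite, mul_one, mul_zero]
        rw [Finset.sum_ite_eq, if_pos (Finset.mem_range.2 hj), rowPoly_sc, taylor_mul, taylor_C,
          coeff_C_mul]
      rw [h5 j0 hj0] at h4
      have h6 := (Real.rpow_pos_of_pos (hpos (φ p)) (s i * j0 - w j0)).ne'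
      have h7 : (taylor (xpos i) (rowPoly k N (z (φ p)) j0)).coeff al =
          ((((φ p : ℕ) : ℝ) + 1) ^ (s i * j0 - w j0))⁻¹ *
          ∑ j ∈ Finset.range N \ (Finset.range N).filter (fun j => al < V i j),
            g j * (∑ r ∈ Finset.range N, C ((taylor (xpos i) (rowPoly k N
          (sc k N (fun j => (((φ p : ℕ) : ℝ) + 1) ^ (s i * j - w j)) (z (φ p))) r)).coeff al) *
            X ^ r : ℝ[X]).coeff j := by
        rw [← h4, ← mul_assoc, inv_mul_cancel₀ h6, one_mul]
      rw [h7, Finset.mul_sum]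
      refine Finset.sum_congr rfl fun j hj => ?_
      rw [Finset.mem_sdiff, Finset.mem_range] at hj
      rw [h5 j hj.1, neg_sub, Real.rpow_sub (hpos (φ p)) (s i * j - w j) (s i * j0 - w j0)]
      field_simp
    have h3 : Tendsto (fun p => ∑ j ∈ Finset.range N \ (Finset.range N).filter
        (fun j => al < V i j), g j * ((taylor (xpos i) (rowPoly k N (z (φ p)) j)).coeff al *
            ((((φ p : ℕ) : ℝ) + 1) ^ (-((s i * j0 - w j0) - (s i * j - w j)))))) atTop
        (𝓝 (∑ j ∈ Finset.range N \ (Finset.range N).filter (fun j => al < V i j),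
          g j * ((taylor (xpos i) (rowPoly k N a j)).coeff al * 0))) := by
      apply tendsto_finsetSum
      intro j hj
      rw [Finset.mem_sdiff, Finset.mem_range, Finset.mem_filter, Finset.mem_range, not_and,
        not_lt] at hj
      refine ((hcoef (xpos i) j al).mul ?_).const_mul _
      have h4 := hθ i j0 j hj0 hj.1 (lt_of_le_of_lt (hj.2 hj.1) hal)
      exact (tendsto_rpow_neg_atTop (by linarith)).comp hlam
    simp only [mul_zero, Finset.sum_const_zero] at h3
    exact tendsto_nhds_unique ((hcoef (xpos i) j0 al).congr fun p => h2 p) h3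
  have hzero : ∀ j, rowPoly k N a j = 0 := by
    intro j
    exact row_zero' k N V t a j Finset.univ (fun i => V i j) (fun i _ => hdiv i j) (hat j)
      (hcap j)
  funext q
  rw [← coeff_rowPoly k N hk a q, hzero]
  simp

end

end Pool.MP_70e04f_ag

end

/-! ### from `Lib_MP_70e04f_ag.Mix1` -/

section

/-!
Second differences of the front patterns, and the filling of one row.
-/

namespace Pool.MP_70e04f_ag

/-- Summation by parts. -/
lemma second_sum (e : ℕ → ℤ) (j : ℕ) :
    ∑ t ∈ Finset.range j, ((t : ℤ) + 1) * (t + 2) * (e t - 2 * e (t + 1) + e (t + 2)) =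
      2 * ∑ t ∈ Finset.range (j + 1), e t - (j + 1) * (j + 2) * e j + j * (j + 1) * e (j + 1) := by
  induction j with
  | zero => simp
  | succ j ih =>
    rw [Finset.sum_range_succ, ih, Finset.sum_range_succ _ (j + 1)]
    push_cast
    ring

lemma frac_sum (c j : ℕ) :
    ∑ t ∈ Finset.range j, ((t : ℤ) + 1) * (t + 2) *
      ((if t + 2 = c then 1 else 0) - (if t + 1 = c then 1 else 0)) =
      if c ≤ j then -(2 * (c : ℤ)) else if c = j + 1 then (j : ℤ) * (j + 1) else 0 := by
  induction j with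
  | zero =>
    rw [Finset.sum_range_zero]
    split_ifs with h1 h2
    · have : c = 0 := by omega
      rw [this]; simp
    · simp
    · rfl
  | succ j ih =>
    rw [Finset.sum_range_succ, ih]
    by_cases h1 : c = j + 2
    · subst h1
      rw [if_neg (by omega), if_neg (by omega), if_pos rfl, if_neg (by omega), if_neg (by omega),
        if_pos rfl]
      push_cast; ring
    · rw [if_neg (show ¬ j + 2 = c by omega), if_neg (show ¬ c = j + 1 + 1 by omega)]
      by_cases h2 : c = j + 1
      · subst h2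
        rw [if_neg (by omega), if_pos rfl, if_pos rfl, if_pos le_rfl]
        push_cast; ring
      · rw [if_neg h2, if_neg (show ¬ j + 1 = c by omega)]
        by_cases h3 : c ≤ j
        · rw [if_pos h3, if_pos (by omega)]; ring
        · rw [if_neg h3, if_neg (by omega)]; ring

/-- The second difference functional of a front pattern. -/
def Wf (μ b c j : ℕ) : ℤ :=
  2 * ∑ t ∈ Finset.range (j + 1), (vp μ b c t : ℤ) - (j + 1) * (j + 2) * vp μ b c j +
    j * (j + 1) * vp μ b c (j + 1)

lemma Wf_eq (μ b c j : ℕ) : Wf μ b c j = ∑ t ∈ Finset.range j, ((t : ℤ) + 1) * (t + 2) *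
    ((vp μ b c t : ℤ) - 2 * vp μ b c (t + 1) + vp μ b c (t + 2)) := by
  rw [second_sum (fun t => (vp μ b c t : ℤ)) j]
  rfl

/-- Points at rest. -/
lemma Wf_rest (μ j : ℕ) : 0 ≤ Wf μ 0 0 j := by
  rw [Wf_eq]
  apply Finset.sum_nonneg
  intro t _
  apply mul_nonneg (by positivity)
  unfold vp
  split_ifs <;> omega

/-- Points placed at the row `R` far above. -/
lemma Wf_far (μ R c j : ℕ) (hR : j + 2 ≤ R) (hc : c ≤ R) (hc' : R ≤ c + μ) :
    ∑ t ∈ Finset.range j, ((t : ℤ) + 1) * (t + 2) * (if R = μ + (t + 1) then 1 else 0) -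
      (if c ≤ j then 2 * (j : ℤ) else 0) ≤ Wf μ (R - 1) c j := by
  have h1 : ∀ t ∈ Finset.range j, ((t : ℤ) + 1) * (t + 2) *
      (if R = μ + (t + 1) then 1 else 0) + ((t : ℤ) + 1) * (t + 2) *
      ((if t + 2 = c then 1 else 0) - (if t + 1 = c then 1 else 0)) ≤
      ((t : ℤ) + 1) * (t + 2) * ((vp μ (R - 1) c t : ℤ) - 2 * vp μ (R - 1) c (t + 1) +
        vp μ (R - 1) c (t + 2)) := by
    intro t ht
    rw [Finset.mem_range] at ht
    rw [← mul_add]
    apply mul_le_mul_of_nonneg_left _ (by positivity)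
    unfold vp
    split_ifs <;> omega
  have h2 := Finset.sum_le_sum h1
  rw [Finset.sum_add_distrib, frac_sum c j] at h2
  rw [Wf_eq]
  have h3 : -(if c ≤ j then 2 * (j : ℤ) else 0) ≤
      if c ≤ j then -(2 * (c : ℤ)) else if c = j + 1 then (j : ℤ) * (j + 1) else 0 := by
    split_ifs
    · omega
    · positivity
    · simp
  linarith

/-- Points placed at the row `j + 1`. -/
lemma Wf_near (μ c j : ℕ) (hj : 1 ≤ j) (hμ : j < μ) (hc : c ≤ j + 1) :
    -((j : ℤ) * (j + 1) * (j + 1 - c : ℕ)) - (if c ≤ j then (j : ℤ) * (j + 1) + 2 * j else 0) ≤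
      Wf μ j c j := by
  have h1 : ∀ t ∈ Finset.range j, ((t : ℤ) + 1) * (t + 2) *
      ((if t + 2 = c then 1 else 0) - (if t + 1 = c then 1 else 0)) +
      (if t = j - 1 then -((j : ℤ) * (j + 1) * (j + 2 - c : ℕ)) else 0) ≤
      ((t : ℤ) + 1) * (t + 2) * ((vp μ j c t : ℤ) - 2 * vp μ j c (t + 1) +
        vp μ j c (t + 2)) := by
    intro t ht
    rw [Finset.mem_range] at ht
    by_cases h : t = j - 1
    · rw [if_pos h]
      have e1 : (j : ℤ) * (j + 1) = ((t : ℤ) + 1) * (t + 2) := by
        have : (j : ℤ) = t + 1 := by omega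
        rw [this]; ring
      rw [e1, ← mul_neg, ← mul_add]
      apply mul_le_mul_of_nonneg_left _ (by positivity)
      unfold vp
      split_ifs <;> omega
    · rw [if_neg h, add_zero]
      apply mul_le_mul_of_nonneg_left _ (by positivity)
      unfold vp
      split_ifs <;> omega
  have h2 := Finset.sum_le_sum h1
  rw [Finset.sum_add_distrib, frac_sum c j, Finset.sum_ite_eq' (Finset.range j) (j - 1)
    (fun _ => -((j : ℤ) * (j + 1) * (j + 2 - c : ℕ))),
    if_pos (Finset.mem_range.2 (by omega))] at h2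
  rw [Wf_eq]
  refine le_trans ?_ h2
  have e2 : ((j + 2 - c : ℕ) : ℤ) = ((j + 1 - c : ℕ) : ℤ) + 1 := by omega
  rw [e2]
  by_cases h3 : c ≤ j
  · rw [if_pos h3, if_pos h3]
    have : (c : ℤ) ≤ j := by exact_mod_cast h3
    nlinarith
  · rw [if_neg h3, if_neg h3, if_pos (by omega)]
    nlinarith

/-- Filling one row by points of antitone weights, with at most two incomplete points. -/
theorem row_fill (w : ℕ → ℕ) (hw : Antitone w) (q n : ℕ) (hqn : q ≤ n) (g : ℕ)
    (hg : g ≤ ∑ i ∈ Finset.Ico q n, w i) (free : Prop) (hf : free ∨ w q ≤ 2 * g ∨ g = 0) :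
    ∃ q' : ℕ, ∃ d : ℕ → ℕ, q ≤ q' ∧ q' ≤ n ∧ (∀ i, d i ≤ w i) ∧
      (free ∨ ∀ i, 2 * d i ≤ w i) ∧ ∑ i ∈ Finset.Ico q q', (w i - d i) = g ∧
      ((Finset.Ico q q').filter (fun i => d i ≠ 0)).card ≤ 2 ∧
      ∑ i ∈ Finset.Ico q q', d i ≤ w q := by
  classical
  set P : ℕ → Prop := fun s => q ≤ s → ∑ i ∈ Finset.Ico q s, w i ≤ g with hP
  set s := Nat.findGreatest P n with hs
  have hPq : P q := by intro _; simp
  have hsq : q ≤ s := Nat.le_findGreatest hqn hPq
  have hsn : s ≤ n := Nat.findGreatest_le n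
  have hPs : ∑ i ∈ Finset.Ico q s, w i ≤ g := Nat.findGreatest_spec hqn hPq hsq
  obtain ⟨ρ, hρ⟩ := Nat.exists_eq_add_of_le hPs
  rcases Nat.eq_zero_or_pos ρ with h0 | h0
  · refine ⟨s, fun _ => 0, hsq, hsn, fun _ => Nat.zero_le _, Or.inr fun _ => Nat.zero_le _, ?_, ?_,
      ?_⟩
    · simp only [Nat.sub_zero]; omega
    · simp
    · simp
  have hsn' : s < n := by
    rcases Nat.eq_or_lt_of_le hsn with h | h
    · rw [h] at hρ; omega
    · exact h
  have hlt : ρ < w s := by
    have h1 : ¬ P (s + 1) :=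
      Nat.findGreatest_is_greatest (P := P) (k := s + 1) (n := n) (Nat.lt_succ_self s) (by omega)
    simp only [hP, Classical.not_imp, not_le] at h1
    rw [Finset.sum_Ico_succ_top hsq] at h1
    omega
  have hws : w s ≤ w q := hw hsq
  by_cases hcase : free ∨ w s ≤ 2 * ρ
  · -- one incomplete point
    refine ⟨s + 1, fun i => if i = s then w s - ρ else 0, by omega, by omega, ?_, ?_, ?_, ?_, ?_⟩
    · intro i
      simp only
      split_ifs with h
      · rw [h]; omega
      · omega
    · rcases hcase with h | h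
      · exact Or.inl h
      · right
        intro i
        simp only
        split_ifs with h'
        · rw [h']; omega
        · omega
    · rw [Finset.sum_Ico_succ_top hsq]
      beta_reduce
      rw [if_pos rfl]
      have : ∑ i ∈ Finset.Ico q s, (w i - if i = s then w s - ρ else 0) =
          ∑ i ∈ Finset.Ico q s, w i := by
        refine Finset.sum_congr rfl fun i hi => ?_
        rw [Finset.mem_Ico] at hi
        rw [if_neg (by omega), Nat.sub_zero]
      rw [this]; omega
    · refine (Finset.card_le_card (t := {s}) ?_).trans (by simp)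
      intro i hi
      rw [Finset.mem_filter] at hi
      rw [Finset.mem_singleton]
      by_contra h
      exact hi.2 (if_neg h)
    · rw [Finset.sum_ite_eq' (Finset.Ico q (s + 1)) s (fun _ => w s - ρ),
        if_pos (Finset.mem_Ico.2 ⟨hsq, by omega⟩)]
      omega
  · -- two incomplete points
    rw [not_or, not_le] at hcase
    have hs1 : q < s := by
      rcases Nat.eq_or_lt_of_le hsq with h | h
      · exfalso
        rw [← h, Finset.Ico_self, Finset.sum_empty] at hρ
        rcases hf with hf | hf | hf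
        · exact hcase.1 hf
        · rw [h] at hf; omega
        · omega
      · exact h
    have hws1 : w s ≤ w (s - 1) := hw (by omega)
    refine ⟨s + 1, fun i => if i = s then w s / 2 else if i = s - 1 then (w s + 1) / 2 - ρ else 0,
      by omega, by omega, ?_, ?_, ?_, ?_, ?_⟩
    · intro i
      simp only
      split_ifs with h h'
      · rw [h]; omega
      · rw [h']; omega
      · omega
    · right
      intro i
      simp only
      split_ifs with h h'
      · rw [h]; omega
      · rw [h']; omega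
      · omega
    · have e1 : s = s - 1 + 1 := by omega
      have e2 : ∑ i ∈ Finset.Ico q s, (w i - if i = s then w s / 2 else
          if i = s - 1 then (w s + 1) / 2 - ρ else 0) = ∑ i ∈ Finset.Ico q (s - 1), w i +
          (w (s - 1) - ((w s + 1) / 2 - ρ)) := by
        have : Finset.Ico q s = Finset.Ico q (s - 1 + 1) := by rw [← e1]
        rw [this, Finset.sum_Ico_succ_top (by omega), if_neg (by omega), if_pos rfl]
        congr 1
        refine Finset.sum_congr rfl fun i hi => ?_
        rw [Finset.mem_Ico] at hi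
        rw [if_neg (by omega), if_neg (by omega), Nat.sub_zero]
      have e3 : ∑ i ∈ Finset.Ico q s, w i = ∑ i ∈ Finset.Ico q (s - 1), w i + w (s - 1) := by
        have : Finset.Ico q s = Finset.Ico q (s - 1 + 1) := by rw [← e1]
        rw [this, Finset.sum_Ico_succ_top (by omega)]
      rw [Finset.sum_Ico_succ_top hsq]
      beta_reduce
      rw [e2, if_pos rfl]
      omega
    · refine (Finset.card_le_card (t := {s, s - 1}) ?_).trans Finset.card_le_two
      intro i hi
      rw [Finset.mem_filter] at hi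
      rw [Finset.mem_insert, Finset.mem_singleton]
      by_contra h
      rw [not_or] at h
      apply hi.2
      beta_reduce
      rw [if_neg h.1, if_neg h.2]
    · have e2 : ∑ i ∈ Finset.Ico q s, (if i = s then w s / 2 else
          if i = s - 1 then (w s + 1) / 2 - ρ else 0) = (w s + 1) / 2 - ρ := by
        have e3 : ∀ i ∈ Finset.Ico q s, (if i = s then w s / 2 else
          if i = s - 1 then (w s + 1) / 2 - ρ else 0) =
          if i = s - 1 then (w s + 1) / 2 - ρ else 0 := by
          intro i hi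
          rw [Finset.mem_Ico] at hi
          rw [if_neg (by omega)]
        rw [Finset.sum_congr rfl e3, Finset.sum_ite_eq' (Finset.Ico q s) (s - 1)
          (fun _ => (w s + 1) / 2 - ρ), if_pos (Finset.mem_Ico.2 ⟨by omega, by omega⟩)]
      rw [Finset.sum_Ico_succ_top hsq]
      rw [e2, if_pos rfl]
      omega

end Pool.MP_70e04f_ag

end
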