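import Pool.Agent.Lib_MP_70e04f_m.M05

/-!
# MP_70e04f_ag, plane linear systems: merged library part M06

Concatenation of smaller files (each in its own section), only to save build time.
-/

/-! ### from `Lib_MP_70e04f_ag.General` -/

section

/-!
From a certificate to the expected dimension for general points.
-/

namespace Pool.MP_70e04f_ag

section
open Polynomial

/-- The dimension bound given by a certificate. -/
theorem finrank_of_cert {n : ℕ} (k N : ℕ) (hk : 0 < k) (m : Fin n → ℕ) (V : Fin n → ℕ → ℕ)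
    (σ : Fin n → ℤ) (ord : Fin n → ℕ) (Γ : Finset (Fin n)) (w : ℕ → ℕ) (Mc : ℕ)
    (hC : IsCert m V σ ord Γ w Mc) (t : ℕ → ℕ)
    (hcap : ∀ j, nrow k N j ≤ (∑ i, V i j) + t j) :
    ∃ u : Fin n → ℝ, Module.finrank ℝ (LinearMap.ker (degMat k N m xpos u 0).mulVecLin) ≤
      ∑ j ∈ Finset.range N, t j := by
  classical
  obtain ⟨u, hu⟩ := cert_pos k N hk m V σ ord Γ w Mc hC t hcap _ ∅
    (Finset.disjoint_empty_left _) rfl (by simp)
  refine ⟨u, ?_⟩
  let θ : (↥(tri N) → ℝ) →ₗ[ℝ] ((Σ j : Fin N, Fin (t j)) → ℝ) :=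
    { toFun := fun v c => (taylor 1 (rowPoly k N v c.1)).coeff c.2
      map_add' := by
        intro v w
        funext c
        simp only [taylor_rowPoly, Pi.add_apply]
        rw [← Finset.sum_add_distrib]
        refine Finset.sum_congr rfl fun q _ => ?_
        split_ifs <;> ring
      map_smul' := by
        intro a v
        funext c
        simp only [taylor_rowPoly, Pi.smul_apply, smul_eq_mul, RingHom.id_apply, Finset.mul_sum]
        refine Finset.sum_congr rfl fun q _ => ?_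
        split_ifs <;> ring }
  have hcard : Fintype.card (Σ j : Fin N, Fin (t j)) = ∑ j ∈ Finset.range N, t j := by
    rw [Fintype.card_sigma, Finset.sum_range]
    simp
  rw [← hcard]
  apply finrank_ker_le _ θ
  intro v hv hθ
  have hT : ∀ j, rowPoly k N v j = 0 := by
    apply hu v
    · intro j
      rw [pow_dvd_iff_taylor]
      intro d hd
      by_cases hj : j < N
      · exact congrFun hθ ⟨⟨j, hj⟩, ⟨d, hd⟩⟩
      · rw [rowPoly_eq_zero k N v j (by omega)]; simp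
    · simp
    · intro i _ al be hab
      have hc := congrFun hv ⟨i, ⟨(al, be), mem_tri.2 hab⟩⟩
      rw [degMat_zero_mulVec] at hc
      exact hc
  funext q
  rw [← coeff_rowPoly k N hk v q, hT]
  simp

/-- Certificates for emptiness. -/
theorem good_of_cert_le {n : ℕ} (k N : ℕ) (hk : 0 < k) (m : Fin n → ℕ) (V : Fin n → ℕ → ℕ)
    (σ : Fin n → ℤ) (ord : Fin n → ℕ) (Γ : Finset (Fin n)) (w : ℕ → ℕ) (Mc : ℕ)
    (hC : IsCert m V σ ord Γ w Mc) (hcap : ∀ j, nrow k N j ≤ ∑ i, V i j) :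
    ∃ u : Fin n → ℝ, Good (degMat k N m xpos u 0) := by
  obtain ⟨u, hu⟩ := finrank_of_cert k N hk m V σ ord Γ w Mc hC (fun _ => 0) hcap
  refine ⟨u, ?_⟩
  unfold Good
  rw [Finset.sum_const_zero] at hu
  omega

/-- Certificates for independence. -/
theorem good_of_cert_ge {n : ℕ} (k N : ℕ) (hk : 0 < k) (m : Fin n → ℕ) (V : Fin n → ℕ → ℕ)
    (σ : Fin n → ℤ) (ord : Fin n → ℕ) (Γ : Finset (Fin n)) (w : ℕ → ℕ) (Mc : ℕ)
    (hC : IsCert m V σ ord Γ w Mc) (hcap : ∀ j, ∑ i, V i j ≤ nrow k N j)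
    (htot : ∀ i L, (∀ j, L ≤ j → V i j = 0) → 2 * ∑ j ∈ Finset.range L, V i j = m i * (m i + 1)) :
    ∃ u : Fin n → ℝ, Good (degMat k N m xpos u 0) := by
  obtain ⟨u, hu⟩ := finrank_of_cert k N hk m V σ ord Γ w Mc hC
    (fun j => nrow k N j - ∑ i, V i j) (fun j => by have := hcap j; omega)
  refine ⟨u, ?_⟩
  have h1 : ∑ j ∈ Finset.range N, (nrow k N j - ∑ i, V i j) + ∑ j ∈ Finset.range N, ∑ i, V i j =
      (tri N).card := by
    rw [← sum_nrow k, ← Finset.sum_add_distrib]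
    refine Finset.sum_congr rfl fun j _ => ?_
    have := hcap j
    omega
  have h0 : ∀ j, N ≤ j → nrow k N j = 0 := by
    intro j hj
    rw [nrow_eq k N j hk]
    have h2 : N - k * j = 0 := by
      have := Nat.le_mul_of_pos_left j hk
      omega
    rw [h2]
    have := S_small k 0 (Nat.zero_le _)
    omega
  have h2 : ∑ j ∈ Finset.range N, ∑ i, V i j = Fintype.card (Σ i : Fin n, ↥(tri (m i))) := by
    rw [Finset.sum_comm, Fintype.card_sigma]
    refine Finset.sum_congr rfl fun i _ => ?_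
    have h3 := htot i N (by
      intro j hj
      have h4 := hcap j
      rw [h0 j hj, Nat.le_zero] at h4
      exact (Finset.sum_eq_zero_iff.1 h4) i (Finset.mem_univ i))
    have h5 := two_card_tri (m i)
    rw [Fintype.card_coe]
    omega
  unfold Good
  rw [Fintype.card_coe]
  omega

end

section
open MvPolynomial

/-- A real configuration of points with the expected dimension. -/
theorem real_of_good {n : ℕ} (k N : ℕ) (m : Fin n → ℕ) (hk : 0 < k) (x u : Fin n → ℝ)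
    (hg : Good (degMat k N m x u 0)) : ∃ p : Fin n → Fin 2 → ℝ, Good (condMat N m p) := by
  classical
  set F : Matrix (Σ i : Fin n, ↥(tri (m i))) ↥(tri N) (Polynomial ℝ) :=
    degMat k N m (fun i => Polynomial.C (x i)) (fun i => Polynomial.C (u i)) Polynomial.X with hF
  have hFe : ∀ e : ℝ, F.map (Polynomial.evalRingHom e) = degMat k N m x u e := by
    intro e
    rw [hF, degMat_map]
    simp
  have hc : ∀ e : ℝ, (Polynomial.evalRingHom e).comp (Polynomial.C : ℝ →+* Polynomial ℝ) =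
      RingHom.id ℝ := by
    intro e
    ext r
    simp
  obtain ⟨g, hg0, hgg⟩ := exists_detpoly (Polynomial.C : ℝ →+* Polynomial ℝ) F
    (Polynomial.evalRingHom 0) (hc 0) (by rw [hFe]; exact hg)
  have hgX : g * Polynomial.X ≠ 0 := by
    apply mul_ne_zero
    · rintro rfl
      simp at hg0
    · exact Polynomial.X_ne_zero
  obtain ⟨e, he⟩ : ∃ e : ℝ, (g * Polynomial.X).eval e ≠ 0 := by
    by_contra hcon
    push Not at hcon
    apply hgX
    apply Polynomial.funext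
    intro r
    rw [hcon r]; simp
  rw [Polynomial.eval_mul, Polynomial.eval_X] at he
  have he1 : g.eval e ≠ 0 := left_ne_zero_of_mul he
  have he2 : e ≠ 0 := right_ne_zero_of_mul he
  have h1 : Good (degMat k N m x u e) := by
    rw [← hFe]
    exact hgg _ (hc e) he1
  refine ⟨fun i => ![x i, x i ^ k + e * u i], ?_⟩
  have h2 := finrank_condMat_le k N hk m x u e he2
  unfold Good at h1 ⊢
  omega

/-- From one real configuration to general complex points. -/
theorem generic_of_real {n : ℕ} (d : ℕ) (m : Fin n → ℕ)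
    (h : ∃ p : Fin n → Fin 2 → ℝ, Good (condMat (d + 1) m p)) :
    ∃ g : MvPolynomial (Fin n × Fin 2) ℂ, g ≠ 0 ∧
      ∀ p : Fin n → Fin 2 → ℂ,
        MvPolynomial.eval (fun q : Fin n × Fin 2 => p q.1 q.2) g ≠ 0 →
          ((2 : ℤ) * ((Module.finrank ℂ
              ↥(MvPolynomial.restrictTotalDegree (Fin 2) ℂ d ⊓
                ⨅ i : Fin n, Submodule.restrictScalars ℂ
                  ((RingHom.ker (MvPolynomial.eval (p i)) :
                      Ideal (MvPolynomial (Fin 2) ℂ)) ^ m i)) : ℕ) : ℤ)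
            = max 0 (((d : ℤ) + 1) * ((d : ℤ) + 2) - ∑ i, (m i : ℤ) * ((m i : ℤ) + 1))) := by
  classical
  obtain ⟨p0, hp0⟩ := h
  have hC : Good (condMat (d + 1) m (fun i j => ((p0 i j : ℝ) : ℂ))) := by
    have := hp0.map Complex.ofRealHom
    rw [condMat_map] at this
    exact this
  set F : Matrix (Σ i : Fin n, ↥(tri (m i))) ↥(tri (d + 1)) (MvPolynomial (Fin n × Fin 2) ℂ) :=
    condMat (d + 1) m (fun i j => X (i, j)) with hF
  have hFe : ∀ p : Fin n → Fin 2 → ℂ, F.map (eval (fun q : Fin n × Fin 2 => p q.1 q.2)) =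
      condMat (d + 1) m p := by
    intro p
    rw [hF, condMat_map]
    simp
  have hc : ∀ p : Fin n → Fin 2 → ℂ, (eval (fun q : Fin n × Fin 2 => p q.1 q.2)).comp
      (C : ℂ →+* MvPolynomial (Fin n × Fin 2) ℂ) = RingHom.id ℂ := by
    intro p
    ext r
    simp
  obtain ⟨g, hg0, hgg⟩ := exists_detpoly (C : ℂ →+* MvPolynomial (Fin n × Fin 2) ℂ) F
    (eval (fun q : Fin n × Fin 2 => ((p0 q.1 q.2 : ℝ) : ℂ)))
    (hc (fun i j => ((p0 i j : ℝ) : ℂ)))
    (by
      have := hFe (fun i j => ((p0 i j : ℝ) : ℂ))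
      rw [this]; exact hC)
  refine ⟨g, ?_, ?_⟩
  · rintro rfl
    simp at hg0
  · intro p hp
    have h1 : Good (condMat (d + 1) m p) := by
      rw [← hFe p]
      exact hgg _ (hc p) hp
    have h2 := h1.finrank_eq
    have h3 := finrank_system ℂ d m p
    have h4 : Module.finrank ℂ ↥(MvPolynomial.restrictTotalDegree (Fin 2) ℂ d ⊓
                ⨅ i : Fin n, Submodule.restrictScalars ℂ
                  ((RingHom.ker (MvPolynomial.eval (p i)) :
                      Ideal (MvPolynomial (Fin 2) ℂ)) ^ m i)) =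
        Fintype.card ↥(tri (d + 1)) - Fintype.card (Σ i : Fin n, ↥(tri (m i))) := by
      rw [← h2, ← h3]; rfl
    rw [h4]
    have h5 : ((2 * Fintype.card ↥(tri (d + 1)) : ℕ) : ℤ) = ((d : ℤ) + 1) * ((d : ℤ) + 2) := by
      rw [Fintype.card_coe, two_card_tri]
      push_cast; ring
    have h6 : ((2 * Fintype.card (Σ i : Fin n, ↥(tri (m i))) : ℕ) : ℤ) =
        ∑ i, (m i : ℤ) * ((m i : ℤ) + 1) := by
      rw [Fintype.card_sigma, Finset.mul_sum]
      push_cast
      refine Finset.sum_congr rfl fun i _ => ?_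
      have := two_card_tri (m i)
      rw [Fintype.card_coe]
      exact_mod_cast this
    rw [← h5, ← h6]
    push_cast
    omega

end

end Pool.MP_70e04f_ag

end

/-! ### from `Lib_MP_70e04f_nine.PosRoot` -/

section

/-!
# Real polynomials all of whose roots are positive (piece POSROOT)

Let `v = (∏ t, (X - C (e t)) ^ c t) * (X - C 1) ^ s`, `e t > 1`, `e` injective.

PAPER PROOFS. `coeff_prod_pos`: by induction on the number of factors: if `a = coeff 0`,
`b = coeff 1` of `v` and `x > 0` then those of `v * (X - C x)` are `- x * a`, `a - x * b`, with product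
`- x * a ^ 2 + x ^ 2 * a * b < 0` if `a ≠ 0` and `a * b ≤ 0`. (State it for a product over a multiset
or list of positive numbers.)

`natDegree_eq_zero_of_dvd`: let `p ∣ v`, `p.coeff 1 = 0`, and suppose `natDegree p ≥ 1`. The
multiset `p.roots` is contained in `v.roots`, `p` splits (a divisor of a product of linear
factors), so `natDegree p = ∑ t, rootMultiplicity (e t) p + rootMultiplicity 1 p`. The support of
`p` is contained in `range (natDegree p + 1)` without `1`, so it has at most `natDegree p`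
elements. By `row_zero` (Descartes, `Lib_MP_70e04f_ag/Cert.lean`) `p = 0`, a contradiction.
(Another way: `p` is a constant times a product of `natDegree p ≥ 1` factors `X - C x`, `x > 0`,
and `coeff_prod_pos` for this product gives `coeff 1 p ≠ 0`.)
-/

namespace Pool.MP_70e04f_ag.Nine

open Polynomial

/-- The product of linear factors with positive roots. -/
noncomputable def posProd {τ : Type*} [Fintype τ] (e : τ → ℝ) (c : τ → ℕ) (s : ℕ) :
    Polynomial ℝ :=
  (∏ t, (X - C (e t)) ^ c t) * (X - C 1) ^ s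

/-- Coefficients of a product of linear factors with positive roots. -/
lemma posRoot_multiset (S : Multiset ℝ) (hS : ∀ x ∈ S, 0 < x) :
    (S.map (fun x => X - C x)).prod.coeff 0 ≠ 0 ∧
    (S.map (fun x => X - C x)).prod.coeff 0 * (S.map (fun x => X - C x)).prod.coeff 1 ≤ 0 ∧
    (S ≠ 0 →
      (S.map (fun x => X - C x)).prod.coeff 0 * (S.map (fun x => X - C x)).prod.coeff 1 < 0) := by
  induction S using Multiset.induction_on with
  | empty =>
    refine ⟨by simp, by simp [coeff_one], fun h => absurd rfl h⟩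
  | cons x S ih =>
    obtain ⟨h1, h2, _⟩ := ih (fun y hy => hS y (Multiset.mem_cons_of_mem hy))
    have hx : 0 < x := hS x (Multiset.mem_cons_self x S)
    set p : Polynomial ℝ := (S.map (fun x => X - C x)).prod with hp
    have e0 : ((x ::ₘ S).map (fun x => X - C x)).prod = (X - C x) * p := by
      rw [Multiset.map_cons, Multiset.prod_cons]
    have e1 : ((X - C x) * p).coeff 0 = - x * p.coeff 0 := by
      rw [sub_mul, coeff_sub, coeff_C_mul, mul_coeff_zero]
      simp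
    have e2 : ((X - C x) * p).coeff 1 = p.coeff 0 - x * p.coeff 1 := by
      rw [sub_mul, coeff_sub, coeff_C_mul]
      have : (X * p).coeff 1 = p.coeff 0 := coeff_X_mul p 0
      rw [this]
    have e3 : ((X - C x) * p).coeff 0 * ((X - C x) * p).coeff 1 < 0 := by
      rw [e1, e2]
      have h3 : 0 < x * p.coeff 0 ^ 2 := by positivity
      have h4 : x ^ 2 * (p.coeff 0 * p.coeff 1) ≤ 0 :=
        mul_nonpos_of_nonneg_of_nonpos (by positivity) h2
      nlinarith
    rw [e0]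
    refine ⟨?_, e3.le, fun _ => e3⟩
    intro h0
    rw [h0, zero_mul] at e3
    exact lt_irrefl _ e3

lemma posProd_eq {τ : Type*} [Fintype τ] (e : τ → ℝ) (c : τ → ℕ) (s : ℕ) :
    posProd e c s =
      ((∑ t, Multiset.replicate (c t) (e t) + Multiset.replicate s 1).map
        (fun x => X - C x)).prod := by
  unfold posProd
  rw [Multiset.map_add, Multiset.prod_add, Multiset.map_replicate, Multiset.prod_replicate]
  congr 1
  have h1 : (∑ t, Multiset.replicate (c t) (e t)).map (fun x : ℝ => (X - C x : Polynomial ℝ)) =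
      ∑ t, (Multiset.replicate (c t) (e t)).map (fun x : ℝ => (X - C x : Polynomial ℝ)) :=
    map_sum (Multiset.mapAddMonoidHom (fun x : ℝ => (X - C x : Polynomial ℝ))) _ _
  rw [h1, Multiset.prod_sum]
  refine Finset.prod_congr rfl (fun t _ => ?_)
  rw [Multiset.map_replicate, Multiset.prod_replicate]

lemma posRoot_pos {τ : Type*} [Fintype τ] {e : τ → ℝ} (he1 : ∀ t, 1 < e t) (c : τ → ℕ)
    (s : ℕ) : ∀ x ∈ (∑ t, Multiset.replicate (c t) (e t) + Multiset.replicate s 1), 0 < x := by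
  intro x hx
  rw [Multiset.mem_add] at hx
  rcases hx with hx | hx
  · rw [Multiset.mem_sum] at hx
    obtain ⟨t, _, ht⟩ := hx
    rw [Multiset.eq_of_mem_replicate ht]
    linarith [he1 t]
  · rw [Multiset.eq_of_mem_replicate hx]
    exact one_pos

theorem natDegree_posProd {τ : Type*} [Fintype τ] (e : τ → ℝ) (c : τ → ℕ) (s : ℕ) :
    (posProd e c s).natDegree = ∑ t, c t + s := by
  unfold posProd
  rw [natDegree_mul, natDegree_prod, natDegree_pow, natDegree_X_sub_C, mul_one]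
  · congr 1
    refine Finset.sum_congr rfl (fun t _ => ?_)
    rw [natDegree_pow, natDegree_X_sub_C, mul_one]
  · exact fun t _ => pow_ne_zero _ (X_sub_C_ne_zero _)
  · exact Finset.prod_ne_zero_iff.2 (fun t _ => pow_ne_zero _ (X_sub_C_ne_zero _))
  · exact pow_ne_zero _ (X_sub_C_ne_zero _)

theorem coeff_posProd {τ : Type*} [Fintype τ] {e : τ → ℝ} (he1 : ∀ t, 1 < e t) (c : τ → ℕ)
    (s : ℕ) (hs : 1 ≤ ∑ t, c t + s) :
    (posProd e c s).coeff 0 * (posProd e c s).coeff 1 < 0 := by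
  have h1 := (posRoot_multiset _ (posRoot_pos he1 c s)).2.2
  rw [← posProd_eq] at h1
  apply h1
  intro h0
  have h2 := natDegree_posProd e c s
  rw [posProd_eq, h0] at h2
  simp at h2
  omega

theorem natDegree_eq_zero_of_dvd {τ : Type*} [Fintype τ] {e : τ → ℝ}
    (he : Function.Injective e) (he1 : ∀ t, 1 < e t) {c : τ → ℕ} {s : ℕ} {p : Polynomial ℝ}
    (hp : p ∣ posProd e c s) (h1 : p.coeff 1 = 0) : p.natDegree = 0 := by
  have hv0 : posProd e c s ≠ 0 := by
    unfold posProd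
    exact mul_ne_zero (Finset.prod_ne_zero_iff.2 (fun t _ => pow_ne_zero _ (X_sub_C_ne_zero _)))
      (pow_ne_zero _ (X_sub_C_ne_zero _))
  have hsp : (posProd e c s).Splits := by
    rw [posProd_eq]
    apply Splits.multisetProd
    intro f hf
    rw [Multiset.mem_map] at hf
    obtain ⟨x, _, rfl⟩ := hf
    exact Splits.X_sub_C x
  have hp0 : p ≠ 0 := ne_zero_of_dvd_ne_zero hv0 hp
  have hps : p.Splits := hsp.of_dvd hv0 hp
  have hroots : ∀ x ∈ p.roots, 0 < x := by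
    intro x hx
    have h2 : x ∈ (posProd e c s).roots := Multiset.mem_of_le (roots.le_of_dvd hv0 hp) hx
    rw [posProd_eq, roots_multiset_prod_X_sub_C] at h2
    exact posRoot_pos he1 c s x h2
  by_contra hdeg
  have h3 := (posRoot_multiset p.roots hroots).2.2 (hps.roots_ne_zero hdeg)
  have h4 := hps.eq_prod_roots
  have h5 : p.coeff 1 = p.leadingCoeff * (p.roots.map (fun x => X - C x)).prod.coeff 1 := by
    conv_lhs => rw [h4]
    rw [coeff_C_mul]
  rw [h1] at h5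
  have h6 : (p.roots.map (fun x => X - C x)).prod.coeff 1 = 0 := by
    rcases mul_eq_zero.1 h5.symm with h7 | h7
    · exact absurd (leadingCoeff_eq_zero.1 h7) hp0
    · exact h7
  rw [h6, mul_zero] at h3
  exact lt_irrefl _ h3

end Pool.MP_70e04f_ag.Nine

end

/-! ### from `Lib_MP_70e04f_thin.TNumA` -/

section

/-!
# Piece TNUMA: a curve which is not positive is close to the given class

`N = (D; M)` with `N ^ 2 = ν`, `F = (e; a)` with `F ^ 2 = - q`, `N F ≤ 0`. Put `l = e / D`.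
-/

set_option autoImplicit false

namespace Pool.MP_70e04f_ag.Strip

/-- PROOF. `∑ (l M - a) ^ 2 = l ^ 2 ∑ M ^ 2 - 2 l ∑ M a + ∑ a ^ 2 ≤
l ^ 2 (D ^ 2 - ν) - 2 l D e + e ^ 2 + q`, and `l D = e`. -/
theorem close {n : ℕ} (e D ν q : ℕ) (a M : Fin n → ℕ) (hD : 0 < D)
    (hν : ∑ i, M i ^ 2 + ν = D ^ 2) (hq : ∑ i, a i ^ 2 = e ^ 2 + q)
    (hNF : D * e ≤ ∑ i, M i * a i) :
    ∑ i, ((e : ℝ) / D * M i - a i) ^ 2 + ((e : ℝ) / D) ^ 2 * ν ≤ q := by
  have hD' : (D : ℝ) ≠ 0 := by positivity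
  obtain ⟨l, hl⟩ : ∃ l : ℝ, l = (e : ℝ) / D := ⟨_, rfl⟩
  have hlD : l * D = e := by rw [hl]; field_simp
  have hl0 : 0 ≤ l := by rw [hl]; positivity
  rw [← hl]
  have h1 : ∑ i, (l * M i - a i) ^ 2 =
      l ^ 2 * ∑ i, (M i : ℝ) ^ 2 - 2 * l * ∑ i, (M i : ℝ) * a i + ∑ i, (a i : ℝ) ^ 2 := by
    rw [Finset.mul_sum, Finset.mul_sum, ← Finset.sum_sub_distrib, ← Finset.sum_add_distrib]
    exact Finset.sum_congr rfl fun i _ => by ring
  have h2 : ∑ i, (M i : ℝ) ^ 2 + ν = (D : ℝ) ^ 2 := by exact_mod_cast hν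
  have h3 : ∑ i, (a i : ℝ) ^ 2 = (e : ℝ) ^ 2 + q := by exact_mod_cast hq
  have h4 : (D : ℝ) * e ≤ ∑ i, (M i : ℝ) * a i := by exact_mod_cast hNF
  have h5 : l * ((D : ℝ) * e) ≤ l * ∑ i, (M i : ℝ) * a i := mul_le_mul_of_nonneg_left h4 hl0
  have h6 : l * ((D : ℝ) * e) = (e : ℝ) ^ 2 := by rw [← mul_assoc, hlD]; ring
  have h7 : l ^ 2 * (∑ i, (M i : ℝ) ^ 2 + ν) = (e : ℝ) ^ 2 := by
    rw [h2, ← mul_pow, hlD]
  rw [h1, h3]
  nlinarith

/-- PROOF. `close` and `a i - l M i ≤ |l M i - a i| ≤ √q`, `M i ≤ X`. -/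
theorem close_one {n : ℕ} (e D ν q X : ℕ) (a M : Fin n → ℕ) (hD : 0 < D)
    (hν : ∑ i, M i ^ 2 + ν = D ^ 2) (hq : ∑ i, a i ^ 2 = e ^ 2 + q)
    (hNF : D * e ≤ ∑ i, M i * a i) (i : Fin n) (hi : M i ≤ X) :
    (a i : ℝ) ≤ (e : ℝ) / D * X + Real.sqrt q := by
  have h1 := close e D ν q a M hD hν hq hNF
  obtain ⟨l, hl⟩ : ∃ l : ℝ, l = (e : ℝ) / D := ⟨_, rfl⟩
  have hl0 : 0 ≤ l := by rw [hl]; positivity
  rw [← hl] at h1 ⊢
  have h2 : (l * M i - a i) ^ 2 ≤ ∑ i, (l * M i - a i) ^ 2 :=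
    Finset.single_le_sum (f := fun i => (l * M i - a i) ^ 2) (fun _ _ => sq_nonneg _)
      (Finset.mem_univ i)
  have h3 : 0 ≤ l ^ 2 * ν := by positivity
  have h4 : (a i - l * M i) ^ 2 ≤ (q : ℝ) := by
    have : (a i - l * M i) ^ 2 = (l * M i - a i) ^ 2 := by ring
    rw [this]
    linarith
  have h5 : a i - l * M i ≤ Real.sqrt q := Real.le_sqrt_of_sq_le h4
  have h6 : l * M i ≤ l * X := mul_le_mul_of_nonneg_left (by exact_mod_cast hi) hl0
  linarith

/-- PROOF. The triangle inequality in `ℓ²` for the family indexed by `T`: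
`l √(∑ M ^ 2) ≤ √(∑ a ^ 2) + √(∑ (l M - a) ^ 2) ≤ √(∑ a ^ 2) + √q` (`close`). (E.g. with
`EuclideanSpace ℝ ↥T`, or from Cauchy-Schwarz `Finset.sum_mul_sq_le_sq_mul_sq` by squaring.) -/
theorem close_norm {n : ℕ} (e D ν q : ℕ) (a M : Fin n → ℕ) (hD : 0 < D)
    (hν : ∑ i, M i ^ 2 + ν = D ^ 2) (hq : ∑ i, a i ^ 2 = e ^ 2 + q)
    (hNF : D * e ≤ ∑ i, M i * a i) (T : Finset (Fin n)) :
    (e : ℝ) / D * Real.sqrt (∑ i ∈ T, (M i : ℝ) ^ 2) ≤
      Real.sqrt (∑ i ∈ T, (a i : ℝ) ^ 2) + Real.sqrt q := by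
  have h1 := close e D ν q a M hD hν hq hNF
  obtain ⟨l, hl⟩ : ∃ l : ℝ, l = (e : ℝ) / D := ⟨_, rfl⟩
  have hl0 : 0 ≤ l := by rw [hl]; positivity
  rw [← hl] at h1 ⊢
  have h2 : ∑ i ∈ T, (l * M i - a i) ^ 2 ≤ ∑ i, (l * M i - a i) ^ 2 :=
    Finset.sum_le_sum_of_subset_of_nonneg (Finset.subset_univ T) (fun _ _ _ => sq_nonneg _)
  have h3 : 0 ≤ l ^ 2 * ν := by positivity
  set A : ℝ := ∑ i ∈ T, (a i : ℝ) ^ 2 with hA
  set C : ℝ := ∑ i ∈ T, (l * M i - a i) ^ 2 with hC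
  have hA0 : 0 ≤ A := Finset.sum_nonneg fun i _ => sq_nonneg _
  have hC0 : 0 ≤ C := Finset.sum_nonneg fun i _ => sq_nonneg _
  have hCq : Real.sqrt C ≤ Real.sqrt q := Real.sqrt_le_sqrt (by linarith)
  have hcs : ∑ i ∈ T, (a i : ℝ) * (l * M i - a i) ≤ Real.sqrt A * Real.sqrt C :=
    Real.sum_mul_le_sqrt_mul_sqrt T _ _
  have h4 : l ^ 2 * ∑ i ∈ T, (M i : ℝ) ^ 2 =
      A + 2 * ∑ i ∈ T, (a i : ℝ) * (l * M i - a i) + C := by
    rw [hA, hC, Finset.mul_sum, Finset.mul_sum, ← Finset.sum_add_distrib,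
      ← Finset.sum_add_distrib]
    exact Finset.sum_congr rfl fun i _ => by ring
  have h5 : l * Real.sqrt (∑ i ∈ T, (M i : ℝ) ^ 2) =
      Real.sqrt (l ^ 2 * ∑ i ∈ T, (M i : ℝ) ^ 2) := by
    rw [Real.sqrt_mul (sq_nonneg l), Real.sqrt_sq hl0]
  rw [h5]
  have h6 : l ^ 2 * ∑ i ∈ T, (M i : ℝ) ^ 2 ≤ (Real.sqrt A + Real.sqrt C) ^ 2 := by
    rw [h4, add_sq, Real.sq_sqrt hA0, Real.sq_sqrt hC0]
    linarith
  have h7 : Real.sqrt (l ^ 2 * ∑ i ∈ T, (M i : ℝ) ^ 2) ≤ Real.sqrt A + Real.sqrt C :=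
    Real.sqrt_le_iff.2 ⟨by positivity, h6⟩
  linarith

end Pool.MP_70e04f_ag.Strip

end

/-! ### from `Lib_MP_70e04f_thin.TNumB` -/

section

/-!
# Piece TNUMB: a real inequality
-/

set_option autoImplicit false

namespace Pool.MP_70e04f_ag.Strip

private theorem TNumB_core (m : ℕ) (x t s : ℝ) (hm : 2 ≤ m) (hs1 : 1 ≤ s) (hsm : s ^ 2 ≤ m)
    (ht : 0 ≤ t) (h316 : 316 * x ≤ t) (hst : 316 * x ^ 2 ≤ s * t) (h1 : (m : ℝ) ≤ x + s) :
    s ≤ t ∧ 3110 * (m : ℝ) ^ 3 ≤ (t - s) ^ 2 := by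
  rcases Nat.lt_or_ge m 4 with h4 | h4
  · rcases Nat.lt_or_ge m 3 with h3 | h3
    · have hm2 : m = 2 := by omega
      subst hm2
      push_cast at hsm h1 ⊢
      have hs : s ≤ 1.4143 := by
        by_contra hcon
        push Not at hcon
        nlinarith
      have ht' : 185 ≤ t := by norm_num at hs; linarith
      norm_num at hs
      refine ⟨by linarith, ?_⟩
      have h5 : 183 ≤ t - s := by linarith
      nlinarith
    · have hm3 : m = 3 := by omega
      subst hm3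
      push_cast at hsm h1 ⊢
      have hs : s ≤ 1.7321 := by
        by_contra hcon
        push Not at hcon
        nlinarith
      have ht' : 400 ≤ t := by norm_num at hs; linarith
      norm_num at hs
      refine ⟨by linarith, ?_⟩
      have h5 : 398 ≤ t - s := by linarith
      nlinarith
  · have hm4 : (4 : ℝ) ≤ m := by exact_mod_cast h4
    have hm0 : (0 : ℝ) ≤ m := by linarith
    obtain ⟨r, hr⟩ : ∃ r : ℝ, r = Real.sqrt m := ⟨_, rfl⟩
    have hr0 : 0 ≤ r := hr ▸ Real.sqrt_nonneg _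
    have hr2 : r ^ 2 = m := by rw [hr]; exact Real.sq_sqrt hm0
    have hr' : 2 ≤ r := by
      by_contra hcon
      push Not at hcon
      nlinarith
    have hsr : s ≤ r := by
      rw [← hr2] at hsm
      exact le_of_sq_le_sq hsm hr0
    rw [← hr2] at h1
    have hx : r ^ 2 / 2 ≤ x := by nlinarith
    have hx2 : r ^ 4 / 4 ≤ x ^ 2 := by
      have h5 : 0 ≤ r ^ 2 / 2 := by positivity
      have h6 := mul_self_le_mul_self h5 hx
      nlinarith
    have h7 : 79 * r ^ 4 ≤ s * t := by linarith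
    have h8 : 79 * r ^ 3 ≤ t := by
      by_contra hcon
      push Not at hcon
      have h9 : s * t < s * (79 * r ^ 3) := mul_lt_mul_of_pos_left hcon (by linarith)
      have h10 : s * (79 * r ^ 3) ≤ r * (79 * r ^ 3) :=
        mul_le_mul_of_nonneg_right hsr (by positivity)
      have h11 : r * (79 * r ^ 3) = 79 * r ^ 4 := by ring
      linarith
    have h12 : r ≤ r ^ 3 := by
      have h13 : 1 * r ≤ r ^ 2 * r := mul_le_mul_of_nonneg_right (by nlinarith) hr0
      calc r = 1 * r := by ring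
        _ ≤ r ^ 2 * r := h13
        _ = r ^ 3 := by ring
    have h14 : 78 * r ^ 3 ≤ t - s := by linarith
    have h15 : 0 ≤ 78 * r ^ 3 := by positivity
    refine ⟨by linarith, ?_⟩
    have h16 := mul_self_le_mul_self h15 h14
    rw [← hr2]
    have h17 : 0 ≤ r ^ 6 := by positivity
    calc 3110 * (r ^ 2) ^ 3 = 3110 * r ^ 6 := by ring
      _ ≤ 6084 * r ^ 6 := by linarith
      _ = 78 * r ^ 3 * (78 * r ^ 3) := by ring
      _ ≤ (t - s) * (t - s) := h16
      _ = (t - s) ^ 2 := by ring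

/-- PROOF. Let `s = √q`, so `1 ≤ s`, `s ^ 2 ≤ m`, and `x = l X`, `t = l √S` (`t ^ 2 = l ^ 2 S`).
`hν1` and `hC` give `q t ^ 2 ≥ l ^ 4 ν S ≥ 100000 x ^ 4`, and `hC` with `hν2` gives
`S ≥ 100000 X ^ 2`, `t ^ 2 ≥ 100000 x ^ 2`. So `t ≥ 316 x` and `s t ≥ 316 x ^ 2`; `x ≥ m - s > 0`.
Claim: `(t - s) ^ 2 ≥ 3110 m ^ 3` and `t ≥ s` (and `h2` gives `√A ≥ t - s`).
If `m = 2`: `s ≤ √2 < 1.4143`, `x ≥ 0.5857`, `t ≥ 185`, `t - s ≥ 183`, `183 ^ 2 ≥ 3110 * 8`. If `m = 3`:
`s ≤ √3 < 1.7321`, `x ≥ 1.2679`, `t ≥ 400`, `t - s ≥ 398`, `398 ^ 2 ≥ 3110 * 27`. If `m ≥ 4`, with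
`r = √m ≥ 2`: `s ≤ r`, `x ≥ r ^ 2 - r ≥ r ^ 2 / 2`, `t ≥ 316 x ^ 2 / s ≥ 79 r ^ 3`,
`t - s ≥ 79 r ^ 3 - r ≥ 78 r ^ 3` and `78 ^ 2 ≥ 3110`. -/
theorem thin_real (m : ℕ) (l X ν S q A : ℝ) (hm : 2 ≤ m) (hl : 0 ≤ l) (hX : 0 < X) (hν : 0 < ν)
    (hS : 0 ≤ S) (hq1 : 1 ≤ q) (hqm : q ≤ m) (hA : 0 ≤ A) (hν1 : l ^ 2 * ν ≤ q)
    (hν2 : ν ≤ X ^ 2) (hC : 100000 * X ^ 4 ≤ ν * S) (h1 : (m : ℝ) ≤ l * X + Real.sqrt q)
    (h2 : l * Real.sqrt S ≤ Real.sqrt A + Real.sqrt q) : 3110 * (m : ℝ) ^ 3 ≤ A := by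
  have hq0 : 0 ≤ q := by linarith
  have hs2 : Real.sqrt q ^ 2 = q := Real.sq_sqrt hq0
  have hs1 : 1 ≤ Real.sqrt q := by
    rw [Real.one_le_sqrt]
    exact hq1
  have hT2 : Real.sqrt S ^ 2 = S := Real.sq_sqrt hS
  have ht0 : 0 ≤ l * Real.sqrt S := mul_nonneg hl (Real.sqrt_nonneg _)
  have ht2 : (l * Real.sqrt S) ^ 2 = l ^ 2 * S := by rw [mul_pow, hT2]
  have hl2 : 0 ≤ l ^ 2 := by positivity
  -- S is large
  have hS1 : 100000 * X ^ 2 ≤ S := by
    have h3 : ν * S ≤ X ^ 2 * S := mul_le_mul_of_nonneg_right hν2 hS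
    have h4 : X ^ 2 * (100000 * X ^ 2) ≤ X ^ 2 * S := by
      calc X ^ 2 * (100000 * X ^ 2) = 100000 * X ^ 4 := by ring
        _ ≤ X ^ 2 * S := hC.trans h3
    exact le_of_mul_le_mul_left h4 (by positivity)
  have h316 : 316 * (l * X) ≤ l * Real.sqrt S := by
    have h3 : (316 * (l * X)) ^ 2 ≤ (l * Real.sqrt S) ^ 2 := by
      rw [ht2]
      calc (316 * (l * X)) ^ 2 = l ^ 2 * (99856 * X ^ 2) := by ring
        _ ≤ l ^ 2 * S := mul_le_mul_of_nonneg_left (by nlinarith [sq_nonneg X]) hl2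
    exact le_of_sq_le_sq h3 ht0
  have hst : 316 * (l * X) ^ 2 ≤ Real.sqrt q * (l * Real.sqrt S) := by
    have h3 : (316 * (l * X) ^ 2) ^ 2 ≤ (Real.sqrt q * (l * Real.sqrt S)) ^ 2 := by
      rw [mul_pow (Real.sqrt q), hs2, ht2]
      have h4 : l ^ 4 * (100000 * X ^ 4) ≤ l ^ 4 * (ν * S) :=
        mul_le_mul_of_nonneg_left hC (by positivity)
      have h5 : l ^ 2 * ν * (l ^ 2 * S) ≤ q * (l ^ 2 * S) :=
        mul_le_mul_of_nonneg_right hν1 (mul_nonneg hl2 hS)
      calc (316 * (l * X) ^ 2) ^ 2 = 99856 * (l ^ 4 * X ^ 4) := by ring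
        _ ≤ 100000 * (l ^ 4 * X ^ 4) := by
            have : 0 ≤ l ^ 4 * X ^ 4 := by positivity
            linarith
        _ = l ^ 4 * (100000 * X ^ 4) := by ring
        _ ≤ l ^ 4 * (ν * S) := h4
        _ = l ^ 2 * ν * (l ^ 2 * S) := by ring
        _ ≤ q * (l ^ 2 * S) := h5
    exact le_of_sq_le_sq h3 (mul_nonneg (by linarith) ht0)
  obtain ⟨h5, h6⟩ := TNumB_core m (l * X) (l * Real.sqrt S) (Real.sqrt q) hm hs1
    (by rw [hs2]; exact hqm) ht0 h316 hst h1
  have h7 : (l * Real.sqrt S - Real.sqrt q) ^ 2 ≤ Real.sqrt A ^ 2 :=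
    pow_le_pow_left₀ (by linarith) (by linarith) 2
  rw [Real.sq_sqrt hA] at h7
  exact h6.trans h7

end Pool.MP_70e04f_ag.Strip

end
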