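import Pool.Agent.Lib_MP_70e04f_m.M02
import Pool.Agent.Lib_MP_70e04f_m.M03

/-!
# MP_70e04f_ag, plane linear systems: merged library part M07

Concatenation of smaller files (each in its own section), only to save build time.
-/

namespace Pool.MP_70e04f_ag.Hex
end Pool.MP_70e04f_ag.Hex

namespace Pool.MP_70e04f_ag.Add
end Pool.MP_70e04f_ag.Add

/-! ### from `Lib_MP_70e04f_hex.Defs` -/

section

/-!
# Linear systems with an arbitrary finite set of exponents

`OK P m` says that for suitable real points the vanishing conditions of multiplicities `m`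
on the polynomials with exponents in `P` have the rank one expects (`Good`).
The full triangle `tri (d + 1)` gives the plane curves of degree `d`.
-/

namespace Pool.MP_70e04f_ag.Hex

open Polynomial

/-- The matrix of the vanishing conditions on the polynomials with exponents in `P`. -/
noncomputable def condP {R ι : Type*} [CommRing R] (P : Finset (ℕ × ℕ)) (m : ι → ℕ)
    (p : ι → Fin 2 → R) : Matrix (Σ i : ι, ↥(tri (m i))) ↥P R :=
  fun c q => ec (p c.1 0) (p c.1 1) q.1.1 q.1.2 c.2.1.1 c.2.1.2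

/-- Some real points give the expected rank. -/
def OK {ι : Type*} [Fintype ι] (P : Finset (ℕ × ℕ)) (m : ι → ℕ) : Prop :=
  ∃ p : ι → Fin 2 → ℝ, Good (condP P m p)

lemma condP_tri {R : Type*} [CommRing R] {n : ℕ} (N : ℕ) (m : Fin n → ℕ) (p : Fin n → Fin 2 → R) :
    condP (tri N) m p = condMat N m p := rfl

/-- The number of elements of `Q` in the row `j`. -/
def rowc (Q : Finset (ℕ × ℕ)) (j : ℕ) : ℕ := (Q.filter (fun q => q.2 = j)).card

/-- The hexagon `a ≤ A`, `b ≤ B`, `g ≤ a + b`, `a + b + e ≤ A + B`. -/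
def hex (A B g e : ℕ) : Finset (ℕ × ℕ) :=
  (Finset.range (A + 1) ×ˢ Finset.range (B + 1)).filter
    (fun q => g ≤ q.1 + q.2 ∧ q.1 + q.2 + e ≤ A + B)

lemma mem_hex {A B g e : ℕ} {q : ℕ × ℕ} :
    q ∈ hex A B g e ↔ q.1 ≤ A ∧ q.2 ≤ B ∧ g ≤ q.1 + q.2 ∧ q.1 + q.2 + e ≤ A + B := by
  unfold hex
  rw [Finset.mem_filter, Finset.mem_product, Finset.mem_range, Finset.mem_range]
  omega

/-- The elements `q` of the hexagon with `q + j (-k, l)` in the hexagon. -/
def hexJ (k l A B g e j : ℕ) : Finset (ℕ × ℕ) :=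
  (hex A B g e).filter (fun q => j * k ≤ q.1 ∧ (q.1 - j * k, q.2 + j * l) ∈ hex A B g e)

/-- Twice the triangular number. -/
def T2 (x : ℤ) : ℤ := if 0 ≤ x then x * (x + 1) else 0

/-- Twice the number of points of the hexagon. -/
def F2 (A B g e : ℤ) : ℤ :=
  2 * (A + 1) * (B + 1) - T2 g - T2 e + T2 (g - A - 1) + T2 (e - A - 1)

/-- The exponents of the curves of degree `d` with multiplicities at the coordinate points. -/
def zed (d al be ga : ℕ) : Finset (ℕ × ℕ) :=
  (tri (d + 1)).filter (fun q => q.1 + al ≤ d ∧ q.2 + be ≤ d ∧ ga ≤ q.1 + q.2)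

lemma mem_zed {d al be ga : ℕ} {q : ℕ × ℕ} :
    q ∈ zed d al be ga ↔ q.1 + q.2 ≤ d ∧ q.1 + al ≤ d ∧ q.2 + be ≤ d ∧ ga ≤ q.1 + q.2 := by
  unfold zed
  rw [Finset.mem_filter, mem_tri, Nat.lt_succ_iff]

end Pool.MP_70e04f_ag.Hex

end

/-! ### from `Lib_MP_70e04f_add.Sys` -/

section

/-!
# Basic facts on the systems (piece SYS)

`toPS (tri N)` is `toPoly ℝ N` of `Lib_MP_70e04f_ag/Mat.lean`; `coeff_toPoly`,
`toPoly_injective`, `mem_range_toPoly`, `toPoly_mem_iff`, `finrank_system` there have the same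
proofs as the first four statements here (replace `tri N` by `S`, `condMat` by `condP`).
-/

namespace Pool.MP_70e04f_ag.Add

open MvPolynomial Pool.MP_70e04f_ag.Hex

lemma toPS_apply {S : Finset (ℕ × ℕ)} (v : ↥S → ℝ) :
    toPS S v = ∑ q : ↥S, v q • (X 0 ^ q.1.1 * X 1 ^ q.1.2 : MvPolynomial (Fin 2) ℝ) := rfl

lemma coeff_toPS {S : Finset (ℕ × ℕ)} (v : ↥S → ℝ) (q : ↥S) :
    coeff (mon q.1.1 q.1.2) (toPS S v) = v q := by
  classical
  rw [toPS_apply, coeff_sum]
  simp only [coeff_smul, X_pow_mul_X_pow, coeff_monomial, smul_eq_mul, mul_ite, mul_one, mul_zero]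
  rw [Finset.sum_eq_single q]
  · simp
  · intro b _ hb
    rw [if_neg]
    intro h
    apply hb
    have := mon_inj.1 h
    exact Subtype.ext (Prod.ext this.1 this.2)
  · intro h; exact absurd (Finset.mem_univ q) h

lemma toPS_injective (S : Finset (ℕ × ℕ)) : Function.Injective (toPS S) := by
  intro v w h
  funext q
  rw [← coeff_toPS v q, h, coeff_toPS]

lemma coeff_toPS_of_notMem {S : Finset (ℕ × ℕ)} (v : ↥S → ℝ) {s : Fin 2 →₀ ℕ}
    (hs : (s 0, s 1) ∉ S) : coeff s (toPS S v) = 0 := by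
  classical
  rw [toPS_apply, coeff_sum]
  apply Finset.sum_eq_zero
  intro q _
  rw [coeff_smul, X_pow_mul_X_pow, coeff_monomial, if_neg, smul_zero]
  intro h
  apply hs
  rw [← h, mon_zero', mon_one']
  exact q.2

lemma mem_range_toPS {S : Finset (ℕ × ℕ)} {F : MvPolynomial (Fin 2) ℝ} :
    F ∈ LinearMap.range (toPS S) ↔ ∀ s, coeff s F ≠ 0 → (s 0, s 1) ∈ S := by
  classical
  constructor
  · rintro ⟨v, rfl⟩ s hs
    by_contra h
    exact hs (coeff_toPS_of_notMem v h)
  · intro h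
    refine ⟨fun q => coeff (mon q.1.1 q.1.2) F, ?_⟩
    ext s
    by_cases hs : (s 0, s 1) ∈ S
    · have := coeff_toPS (S := S) (fun q => coeff (mon q.1.1 q.1.2) F) ⟨(s 0, s 1), hs⟩
      simpa only [mon_eta] using this
    · rw [coeff_toPS_of_notMem _ hs]
      by_contra h1
      exact hs (h s (fun h2 => h1 h2.symm))

lemma mem_range_tri {N : ℕ} {F : MvPolynomial (Fin 2) ℝ} :
    F ∈ LinearMap.range (toPS (tri (N + 1))) ↔ F.totalDegree ≤ N := by
  rw [← mem_restrictTotalDegree, mem_range_toPoly]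
  rfl

/-- The conditions in terms of the matrix `condP`. -/
lemma toPS_mem_iff {ι : Type*} {S : Finset (ℕ × ℕ)} (m : ι → ℕ) (p : ι → Fin 2 → ℝ)
    (v : ↥S → ℝ) : toPS S v ∈ vanish m p ↔ (condP S m p).mulVec v = 0 := by
  have key : ∀ (i : ι) (q : ℕ × ℕ), coeff (mon q.1 q.2) (shift (p i) (toPS S v)) =
      ∑ r : ↥S, ec (p i 0) (p i 1) r.1.1 r.1.2 q.1 q.2 * v r := by
    intro i q
    rw [toPS_apply, map_sum, coeff_sum]
    refine Finset.sum_congr rfl fun r _ => ?_
    rw [map_smul, coeff_smul, coeff_shift_mon, smul_eq_mul, mul_comm]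
  rw [mem_vanish]
  constructor
  · intro h
    funext c
    have := (mem_ker_pow_iff (p c.1) (m c.1) _).1 (h c.1) c.2.1 c.2.2
    rw [key] at this
    exact this
  · intro h i
    rw [mem_ker_pow_iff]
    intro q hq
    rw [key]
    exact congrFun h ⟨i, ⟨q, hq⟩⟩

lemma Lsys_eq_map {τ : Type*} (N : ℕ) (m : τ → ℕ) (q : τ → Fin 2 → ℝ) :
    Lsys N m q = (LinearMap.ker (condP (tri N) m q).mulVecLin).map (toPS (tri N)) := by
  ext f
  unfold Lsys
  rw [Submodule.mem_inf, Submodule.mem_map]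
  constructor
  · rintro ⟨⟨v, rfl⟩, h⟩
    refine ⟨v, ?_, rfl⟩
    rw [LinearMap.mem_ker, Matrix.mulVecLin_apply, ← toPS_mem_iff]
    exact h
  · rintro ⟨v, hv, rfl⟩
    refine ⟨⟨v, rfl⟩, ?_⟩
    rw [LinearMap.mem_ker, Matrix.mulVecLin_apply, ← toPS_mem_iff] at hv
    exact hv

/-- The dimension as the dimension of a kernel. -/
lemma hT_eq {τ : Type*} [Fintype τ] (N : ℕ) (m : τ → ℕ) (q : τ → Fin 2 → ℝ) :
    hT N m q = Module.finrank ℝ (LinearMap.ker (condP (tri N) m q).mulVecLin) := by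
  unfold hT
  rw [Lsys_eq_map]
  exact (LinearEquiv.finrank_eq (Submodule.equivMapOfInjective _ (toPS_injective (tri N)) _)).symm

lemma Lsys_mono {τ : Type*} {N N' : ℕ} (h : N ≤ N') (m : τ → ℕ) (q : τ → Fin 2 → ℝ) :
    Lsys N m q ≤ Lsys N' m q := by
  intro F hF
  refine ⟨?_, hF.2⟩
  have h1 := hF.1
  rw [SetLike.mem_coe, mem_range_toPS] at h1
  rw [SetLike.mem_coe, mem_range_toPS]
  intro s hs
  have := mem_tri.1 (h1 s hs)
  exact mem_tri.2 (this.trans_le h)

/-- Multiplication by a polynomial of degree `≤ a`. -/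
lemma mul_mem_Lsys {τ : Type*} {N a : ℕ} {m : τ → ℕ} {q : τ → Fin 2 → ℝ}
    {A G : MvPolynomial (Fin 2) ℝ} (hA : A.totalDegree ≤ a) (hG : G ∈ Lsys N m q) :
    A * G ∈ Lsys (N + a) m q := by
  have hv : A * G ∈ vanish m q := by
    rw [mem_vanish]
    intro t
    exact Ideal.mul_mem_left _ _ (mem_vanish.1 hG.2 t)
  rcases N with _ | M
  · have h1 := hG.1
    rw [SetLike.mem_coe, mem_range_toPS] at h1
    have h2 : G = 0 := by
      ext s
      by_contra hs
      have := mem_tri.1 (h1 s hs)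
      omega
    rw [h2, mul_zero]
    exact Submodule.zero_mem _
  · refine ⟨?_, hv⟩
    have h1 := hG.1
    rw [SetLike.mem_coe, mem_range_tri] at h1
    have e : M + 1 + a = (M + a) + 1 := by ring
    rw [e, SetLike.mem_coe, mem_range_tri]
    refine (totalDegree_mul _ _).trans ?_
    omega

/-- The systems are finite dimensional. -/
instance Lsys_finite {τ : Type*} (N : ℕ) (m : τ → ℕ) (q : τ → Fin 2 → ℝ) :
    Module.Finite ℝ (Lsys N m q) := by
  unfold Lsys
  exact Submodule.finiteDimensional_inf_left _ _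

end Pool.MP_70e04f_ag.Add

end

/-! ### from `Lib_MP_70e04f_add.Lead` -/

section

/-!
# Leading indices of a space of vectors (piece LEAD)

PAPER PROOF. `ω` is injective, so every nonzero `w` has exactly one leading index (the index of
largest weight in the support of `w`), and `lead ω V` is the set of leading indices of the nonzero
elements of `V`. Choose for `q ∈ lead ω V` an element `v q ∈ V` with leading index `q` and
`v q q = 1`. The `v q` are linearly independent (look at the largest index in a relation) and span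
`V` (strong induction on the weight of the leading index of `w ∈ V`: subtract `w q • v q`; the
weights form a finite set). This gives `exists_lead_basis` and `card_lead`.
-/

namespace Pool.MP_70e04f_ag.Add

/-- A nonzero vector of `V` has a leading index. -/
lemma exists_lead_of_ne {I : Type*} [Fintype I] {ω : I → ℤ} {V : Submodule ℝ (I → ℝ)}
    {w : I → ℝ} (hw : w ∈ V) (h0 : w ≠ 0) :
    ∃ q ∈ lead ω V, w q ≠ 0 ∧ ∀ r, ω q < ω r → w r = 0 := by
  classical
  obtain ⟨s, hs⟩ := Function.ne_iff.mp h0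
  obtain ⟨q, hq, hmax⟩ := (Finset.univ.filter fun r => w r ≠ 0).exists_max_image ω
    ⟨s, Finset.mem_filter.mpr ⟨Finset.mem_univ _, hs⟩⟩
  have hq0 : w q ≠ 0 := (Finset.mem_filter.mp hq).2
  have hz : ∀ r, ω q < ω r → w r = 0 := by
    intro r hr
    by_contra hr0
    exact absurd (hmax r (Finset.mem_filter.mpr ⟨Finset.mem_univ _, hr0⟩)) (not_le.mpr hr)
  exact ⟨q, mem_lead.mpr ⟨w, hw, hq0, hz⟩, hq0, hz⟩

/-- Normalised elements with given leading indices. -/
lemma exists_lead_family {I : Type*} [Fintype I] (ω : I → ℤ) (V : Submodule ℝ (I → ℝ)) :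
    ∃ v : I → I → ℝ, (∀ q ∈ lead ω V, v q ∈ V) ∧ (∀ q ∈ lead ω V, v q q = 1) ∧
      (∀ q ∈ lead ω V, ∀ r, ω q < ω r → v q r = 0) := by
  classical
  have key : ∀ q : I, ∃ v : I → ℝ, q ∈ lead ω V → (v ∈ V ∧ v q = 1 ∧
      ∀ r, ω q < ω r → v r = 0) := by
    intro q
    by_cases hq : q ∈ lead ω V
    · obtain ⟨w, hw, h0, hz⟩ := mem_lead.mp hq
      refine ⟨(w q)⁻¹ • w, fun _ => ⟨V.smul_mem _ hw, ?_, ?_⟩⟩
      · rw [Pi.smul_apply, smul_eq_mul, inv_mul_cancel₀ h0]
      · intro r hr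
        rw [Pi.smul_apply, hz r hr, smul_zero]
    · exact ⟨0, fun h => absurd h hq⟩
  choose v hv using key
  exact ⟨v, fun q hq => (hv q hq).1, fun q hq => (hv q hq).2.1, fun q hq => (hv q hq).2.2⟩

/-- The combinations of a family with different leading indices. -/
lemma lead_family_injective {I : Type*} [Fintype I] {ω : I → ℤ} (hω : Function.Injective ω)
    {V : Submodule ℝ (I → ℝ)} {v : I → I → ℝ} (h1 : ∀ q ∈ lead ω V, v q q = 1)
    (h2 : ∀ q ∈ lead ω V, ∀ r, ω q < ω r → v q r = 0) (a : ↥(lead ω V) → ℝ)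
    (ha : ∑ q : ↥(lead ω V), a q • v q = 0) : a = 0 := by
  classical
  by_contra hne
  obtain ⟨s, hs⟩ := Function.ne_iff.mp hne
  obtain ⟨q, hq, hmax⟩ := ((Finset.univ : Finset ↥(lead ω V)).filter fun r => a r ≠ 0).exists_max_image
    (fun r => ω r) ⟨s, Finset.mem_filter.mpr ⟨Finset.mem_univ _, hs⟩⟩
  have hq0 : a q ≠ 0 := (Finset.mem_filter.mp hq).2
  apply hq0
  have h3 := congrFun ha q
  rw [Finset.sum_apply, Pi.zero_apply, Finset.sum_eq_single q] at h3
  · rwa [Pi.smul_apply, h1 q q.2, smul_eq_mul, mul_one] at h3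
  · intro r _ hrq
    rw [Pi.smul_apply, smul_eq_mul]
    rcases lt_trichotomy (ω r) (ω q) with h | h | h
    · rw [h2 r r.2 q h, mul_zero]
    · exact absurd (Subtype.ext (hω h)) hrq
    · have : a r = 0 := by
        by_contra hr0
        exact absurd (hmax r (Finset.mem_filter.mpr ⟨Finset.mem_univ _, hr0⟩)) (not_le.mpr h)
      rw [this, zero_mul]
  · intro h
    exact absurd (Finset.mem_univ _) h

/-- The number of leading indices. -/
theorem card_lead {I : Type*} [Fintype I] (ω : I → ℤ) (hω : Function.Injective ω)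
    (V : Submodule ℝ (I → ℝ)) : (lead ω V).card = Module.finrank ℝ V := by
  classical
  obtain ⟨v, hv, h1, h2⟩ := exists_lead_family ω V
  apply le_antisymm
  · have hli : LinearIndependent ℝ (fun q : ↥(lead ω V) => (⟨v q, hv q q.2⟩ : V)) := by
      rw [Fintype.linearIndependent_iff]
      intro a ha q
      have h3 := congrArg (V.subtype) ha
      rw [map_sum, map_zero] at h3
      have h4 := lead_family_injective hω h1 h2 a (by
        rw [← h3]
        rfl)
      rw [h4]
      rfl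
    have := hli.fintype_card_le_finrank
    rwa [Fintype.card_coe] at this
  · let f : V →ₗ[ℝ] (↥(lead ω V) → ℝ) :=
      (LinearMap.funLeft ℝ ℝ (Subtype.val : ↥(lead ω V) → I)).comp V.subtype
    have hf : Function.Injective f := by
      rw [← LinearMap.ker_eq_bot, LinearMap.ker_eq_bot']
      rintro ⟨w, hw⟩ h0
      by_contra hne
      have hne' : w ≠ 0 := fun h => hne (Subtype.ext h)
      obtain ⟨q, hq, hq0, -⟩ := exists_lead_of_ne (ω := ω) hw hne'
      exact hq0 (congrFun h0 ⟨q, hq⟩)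
    have := LinearMap.finrank_le_finrank_of_injective hf
    rwa [Module.finrank_fintype_fun_eq_card, Fintype.card_coe] at this

/-- A basis of `V` with the leading indices. -/
theorem exists_lead_basis {I : Type*} [Fintype I] (ω : I → ℤ) (hω : Function.Injective ω)
    (V : Submodule ℝ (I → ℝ)) :
    ∃ v : I → I → ℝ, (∀ q ∈ lead ω V, v q ∈ V) ∧ (∀ q ∈ lead ω V, v q q = 1) ∧
      (∀ q ∈ lead ω V, ∀ r, ω q < ω r → v q r = 0) ∧
      (∀ w ∈ V, ∃ a : I → ℝ, w = ∑ q ∈ lead ω V, a q • v q) := by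
  classical
  obtain ⟨v, hv, h1, h2⟩ := exists_lead_family ω V
  refine ⟨v, hv, h1, h2, ?_⟩
  let Φ : (↥(lead ω V) → ℝ) →ₗ[ℝ] V :=
    Fintype.linearCombination ℝ (fun q : ↥(lead ω V) => (⟨v q, hv q q.2⟩ : V))
  have hΦ : ∀ a, ((Φ a : V) : I → ℝ) = ∑ q : ↥(lead ω V), a q • v q := by
    intro a
    have h3 : Φ a = ∑ q : ↥(lead ω V), a q • (⟨v q, hv q q.2⟩ : V) :=
      Fintype.linearCombination_apply ..
    rw [h3]
    have h4 := map_sum V.subtype (fun q : ↥(lead ω V) => a q • (⟨v q, hv q q.2⟩ : V)) Finset.univ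
    exact h4
  have hinj : Function.Injective Φ := by
    rw [← LinearMap.ker_eq_bot, LinearMap.ker_eq_bot']
    intro a ha
    apply lead_family_injective hω h1 h2
    rw [← hΦ, ha]
    rfl
  have hsurj : Function.Surjective Φ := by
    rw [← LinearMap.injective_iff_surjective_of_finrank_eq_finrank]
    · exact hinj
    · rw [Module.finrank_fintype_fun_eq_card, Fintype.card_coe, card_lead ω hω V]
  intro w hw
  obtain ⟨a, ha⟩ := hsurj ⟨w, hw⟩
  have h3 := hΦ a
  rw [ha] at h3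
  refine ⟨fun q => if h : q ∈ lead ω V then a ⟨q, h⟩ else 0, ?_⟩
  rw [← Finset.sum_coe_sort]
  refine h3.trans (Finset.sum_congr rfl fun q _ => ?_)
  show a q • v q = (if h : (q : I) ∈ lead ω V then a ⟨q, h⟩ else 0) • v q
  rw [dif_pos q.2]

/-- The leading indices of the part of `V` where the weights are at most `c`. -/
theorem lead_inf {I : Type*} [Fintype I] (ω : I → ℤ) (hω : Function.Injective ω)
    (V : Submodule ℝ (I → ℝ)) (c : ℤ) (W : Submodule ℝ (I → ℝ))
    (hW : ∀ w, w ∈ W ↔ ∀ r, c < ω r → w r = 0) :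
    ((lead ω V).filter (fun q => ω q ≤ c)).card = Module.finrank ℝ ↥(V ⊓ W) := by
  rw [← card_lead ω hω (V ⊓ W)]
  congr 1
  ext q
  rw [Finset.mem_filter, mem_lead, mem_lead]
  constructor
  · rintro ⟨⟨w, hw, h0, hz⟩, hc⟩
    exact ⟨w, ⟨hw, (hW w).mpr fun r hr => hz r (hc.trans_lt hr)⟩, h0, hz⟩
  · rintro ⟨w, ⟨hw, hw2⟩, h0, hz⟩
    refine ⟨⟨w, hw, h0, hz⟩, ?_⟩
    by_contra hc
    exact h0 ((hW w).mp hw2 q (not_le.mp hc))

end Pool.MP_70e04f_ag.Add

end

/-! ### from `Lib_MP_70e04f_add.Init` -/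

section

/-!
# Degeneration of a space of polynomials to its leading exponents (piece INIT)

`V` is a space of coefficient vectors on `S`, `q.1 < N0` for `q ∈ S`, so that `wt N0` is injective
on `S`. `Q` is the set of leading exponents.

PAPER PROOF. Let `v q`, `q ∈ lead`, be the basis of `exists_lead_basis`, and let `p i = (x, u)` be
good for `Q`. For a commutative ring `R`, `e : R` and `x, u : ι → R` let `D e` be the matrix with
rows `(i, (α, β))`, columns `q ∈ Q` and entries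
`∑ r : S, (v q r) * e ^ (wt q - wt r).toNat * ec (x i) (u i) r.1 r.2 α β`.
For `e = 0` only `r = q` remains (`wt` injective, `v q r = 0` if `wt r > wt q`), so
`D 0 = condP Q m p` is good; by `exists_detpoly` over `ℝ[e]` (see `real_of_good` in
`Lib_MP_70e04f_ag/General.lean`) `D e` is good for some `e ≠ 0`; by taking `g * X` with `g` the
polynomial of `exists_detpoly`. For `e ≠ 0` put `p' i = ![x i / e, e ^ N0 * u i]`. As
`ec (c x) (c' u) a b α β * c ^ α * c' ^ β = c ^ a * c' ^ b * ec x u a b α β`, for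
`w = ∑ a q • v q ∈ V` the conditions `condP S m p' *ᵥ w = 0` say (multiply by
`(x-scale) e ^ (-α) * e ^ (N0 β)`) `∑ q, a q * ∑ r, v q r * e ^ (-wt r) * ec (x i) (u i) r.1 r.2 α β = 0`
(`zpow`), i.e. `D e *ᵥ b = 0` with `b q = a q * e ^ (-wt q)`. So
`finrank (V ⊓ ker (condP S m p')) ≤ finrank (ker (D e)) ≤ card Q - card (Σ i, tri (m i))`.
-/

namespace Pool.MP_70e04f_ag.Add

open MvPolynomial Pool.MP_70e04f_ag.Hex

/-- The leading exponents as a set of exponents. -/
noncomputable def leadQ (N0 : ℕ) (S : Finset (ℕ × ℕ)) (V : Submodule ℝ (↥S → ℝ)) :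
    Finset (ℕ × ℕ) :=
  (lead (fun q : ↥S => wt N0 q.1) V).map (Function.Embedding.subtype _)

lemma mem_leadQ {N0 : ℕ} {S : Finset (ℕ × ℕ)} {V : Submodule ℝ (↥S → ℝ)} {q : ℕ × ℕ} :
    q ∈ leadQ N0 S V ↔ ∃ h : q ∈ S, (⟨q, h⟩ : ↥S) ∈ lead (fun q : ↥S => wt N0 q.1) V := by
  unfold leadQ
  rw [Finset.mem_map]
  constructor
  · rintro ⟨r, hr, rfl⟩
    exact ⟨r.2, hr⟩
  · rintro ⟨h, hq⟩
    exact ⟨⟨q, h⟩, hq, rfl⟩

lemma wt_injective {N0 : ℕ} {S : Finset (ℕ × ℕ)} (hS : ∀ q ∈ S, q.1 < N0) :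
    Function.Injective (fun q : ↥S => wt N0 q.1) := by
  rintro ⟨⟨a, b⟩, h1⟩ ⟨⟨a', b'⟩, h2⟩ h
  have e1 : a < N0 := hS _ h1
  have e2 : a' < N0 := hS _ h2
  have h' : (a : ℤ) - (N0 : ℤ) * (b : ℤ) = (a' : ℤ) - (N0 : ℤ) * (b' : ℤ) := h
  have hb : b = b' := by
    rcases lt_trichotomy b b' with hlt | hlt | hlt
    · exfalso
      have : (b : ℤ) + 1 ≤ (b' : ℤ) := by exact_mod_cast hlt
      have h3 : (N0 : ℤ) * ((b : ℤ) + 1) ≤ (N0 : ℤ) * (b' : ℤ) := by gcongr
      have h4 : (a' : ℤ) < (N0 : ℤ) := by exact_mod_cast e2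
      have h5 : (0 : ℤ) ≤ (a : ℤ) := Int.natCast_nonneg a
      linarith
    · exact hlt
    · exfalso
      have : (b' : ℤ) + 1 ≤ (b : ℤ) := by exact_mod_cast hlt
      have h3 : (N0 : ℤ) * ((b' : ℤ) + 1) ≤ (N0 : ℤ) * (b : ℤ) := by gcongr
      have h4 : (a : ℤ) < (N0 : ℤ) := by exact_mod_cast e1
      have h5 : (0 : ℤ) ≤ (a' : ℤ) := Int.natCast_nonneg a'
      linarith
  subst hb
  have ha : a = a' := by
    have : (a : ℤ) = (a' : ℤ) := by linarith
    exact_mod_cast this
  subst ha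
  rfl

/-- Scaling of the coordinates in a Taylor coefficient. -/
lemma ec_scale (c d x u : ℝ) (a b α β : ℕ) :
    ec (c * x) (d * u) a b α β * (c ^ α * d ^ β) = c ^ a * d ^ b * ec x u a b α β := by
  have key : ∀ (c x : ℝ) (a α : ℕ),
      ((Polynomial.X + Polynomial.C (c * x)) ^ a : Polynomial ℝ).coeff α * c ^ α =
        c ^ a * ((Polynomial.X + Polynomial.C x) ^ a : Polynomial ℝ).coeff α := by
    intro c x a α
    rw [Polynomial.coeff_X_add_C_pow, Polynomial.coeff_X_add_C_pow]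
    rcases le_or_gt α a with h | h
    · have e : c ^ a = c ^ (a - α) * c ^ α := by
        rw [← pow_add, Nat.sub_add_cancel h]
      rw [e, mul_pow]
      ring
    · rw [Nat.choose_eq_zero_of_lt h]
      simp
  unfold ec
  have h1 := key c x a α
  have h2 := key d u b β
  calc _ = (((Polynomial.X + Polynomial.C (c * x)) ^ a : Polynomial ℝ).coeff α * c ^ α) *
        (((Polynomial.X + Polynomial.C (d * u)) ^ b : Polynomial ℝ).coeff β * d ^ β) := by ring
    _ = _ := by
      rw [h1, h2]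
      ring

/-- The degeneration to the leading exponents. -/
theorem init_degen {ι : Type*} [Fintype ι] {N0 : ℕ} {S : Finset (ℕ × ℕ)}
    (hS : ∀ q ∈ S, q.1 < N0) (V : Submodule ℝ (↥S → ℝ)) {m : ι → ℕ} (h : OK (leadQ N0 S V) m) :
    ∃ p : ι → Fin 2 → ℝ,
      Module.finrank ℝ ↥(V ⊓ LinearMap.ker (condP S m p).mulVecLin) ≤
        (leadQ N0 S V).card - Fintype.card (Σ i : ι, ↥(tri (m i))) := by
  classical
  obtain ⟨p, hp⟩ := h
  set ω : ↥S → ℤ := fun q => wt N0 q.1 with hω
  have hinj : Function.Injective ω := wt_injective hS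
  obtain ⟨v, hv, h1, h2, h3⟩ := exists_lead_basis ω hinj V
  let c : ↥(leadQ N0 S V) → ↥S := fun q => ⟨q.1, (mem_leadQ.mp q.2).1⟩
  have hc : ∀ q, c q ∈ lead ω V := fun q => (mem_leadQ.mp q.2).2
  let F : Matrix (Σ i : ι, ↥(tri (m i))) ↥(leadQ N0 S V) (Polynomial ℝ) := fun y q =>
    ∑ r : ↥S, Polynomial.C (v (c q) r) * Polynomial.X ^ (ω (c q) - ω r).toNat *
      ec (Polynomial.C (p y.1 0)) (Polynomial.C (p y.1 1)) r.1.1 r.1.2 y.2.1.1 y.2.1.2
  let D : ℝ → Matrix (Σ i : ι, ↥(tri (m i))) ↥(leadQ N0 S V) ℝ := fun e y q =>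
    ∑ r : ↥S, v (c q) r * e ^ (ω (c q) - ω r).toNat *
      ec (p y.1 0) (p y.1 1) r.1.1 r.1.2 y.2.1.1 y.2.1.2
  have hFe : ∀ e : ℝ, F.map (Polynomial.evalRingHom e) = D e := by
    intro e
    ext y q
    show Polynomial.evalRingHom e (∑ r : ↥S, Polynomial.C (v (c q) r) *
      Polynomial.X ^ (ω (c q) - ω r).toNat *
      ec (Polynomial.C (p y.1 0)) (Polynomial.C (p y.1 1)) r.1.1 r.1.2 y.2.1.1 y.2.1.2) = _
    rw [map_sum]
    refine Finset.sum_congr rfl fun r _ => ?_
    rw [map_mul, map_mul, map_pow, ec_map]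
    simp
  have hD0 : D 0 = condP (leadQ N0 S V) m p := by
    ext y q
    show ∑ r : ↥S, v (c q) r * (0 : ℝ) ^ (ω (c q) - ω r).toNat *
      ec (p y.1 0) (p y.1 1) r.1.1 r.1.2 y.2.1.1 y.2.1.2 = _
    rw [Finset.sum_eq_single (c q)]
    · rw [h1 _ (hc q), sub_self, Int.toNat_zero, pow_zero, one_mul, one_mul]
      rfl
    · intro r _ hr
      rcases lt_trichotomy (ω r) (ω (c q)) with hlt | heq | hgt
      · have : (ω (c q) - ω r).toNat ≠ 0 := by omega
        rw [zero_pow this, mul_zero, zero_mul]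
      · exact absurd (hinj heq) hr
      · rw [h2 _ (hc q) r hgt, zero_mul, zero_mul]
    · intro hn
      exact absurd (Finset.mem_univ _) hn
  have hcc : ∀ e : ℝ, (Polynomial.evalRingHom e).comp (Polynomial.C : ℝ →+* Polynomial ℝ) =
      RingHom.id ℝ := by
    intro e
    ext r
    simp
  obtain ⟨g, hg0, hgg⟩ := exists_detpoly (Polynomial.C : ℝ →+* Polynomial ℝ) F
    (Polynomial.evalRingHom 0) (hcc 0) (by rw [hFe, hD0]; exact hp)
  have hgX : g * Polynomial.X ≠ 0 := by
    apply mul_ne_zero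
    · rintro rfl
      simp at hg0
    · exact Polynomial.X_ne_zero
  obtain ⟨e, he⟩ : ∃ e : ℝ, (g * Polynomial.X).eval e ≠ 0 := by
    by_contra hcon
    push Not at hcon
    apply hgX
    apply Polynomial.funext
    intro r
    rw [hcon r]
    simp
  rw [Polynomial.eval_mul, Polynomial.eval_X] at he
  have he1 : g.eval e ≠ 0 := left_ne_zero_of_mul he
  have he2 : e ≠ 0 := right_ne_zero_of_mul he
  have hDe : Good (D e) := by
    rw [← hFe]
    exact hgg _ (hcc e) he1
  refine ⟨fun i => ![e⁻¹ * p i 0, e ^ N0 * p i 1], ?_⟩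
  -- the parametrisation
  let θ : (↥(leadQ N0 S V) → ℝ) →ₗ[ℝ] (↥S → ℝ) :=
    Fintype.linearCombination ℝ (fun q : ↥(leadQ N0 S V) => (e ^ ω (c q) : ℝ) • v (c q))
  have hsum : ∀ G : ↥S → (↥S → ℝ), ∑ q ∈ lead ω V, G q = ∑ q : ↥(leadQ N0 S V), G (c q) := by
    intro G
    symm
    apply Finset.sum_bij (fun (q : ↥(leadQ N0 S V)) _ => c q)
    · intro q _
      exact hc q
    · intro q _ q' _ hqq
      exact Subtype.ext (congrArg (fun z : ↥S => z.1) hqq)
    · intro s hs
      exact ⟨⟨s.1, mem_leadQ.mpr ⟨s.2, hs⟩⟩, Finset.mem_univ _, rfl⟩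
    · intro q _
      rfl
  have hle : V ⊓ LinearMap.ker (condP S m (fun i => ![e⁻¹ * p i 0, e ^ N0 * p i 1])).mulVecLin ≤
      (LinearMap.ker (D e).mulVecLin).map θ := by
    rintro w ⟨hwV, hwK⟩
    obtain ⟨a, ha⟩ := h3 w hwV
    rw [hsum] at ha
    refine ⟨fun q => a (c q) * e ^ (-ω (c q)), ?_, ?_⟩
    · rw [SetLike.mem_coe, LinearMap.mem_ker, Matrix.mulVecLin_apply]
      funext y
      rw [SetLike.mem_coe, LinearMap.mem_ker, Matrix.mulVecLin_apply] at hwK
      have hy := congrFun hwK y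
      have hy' : ∑ r : ↥S, ec (e⁻¹ * p y.1 0) (e ^ N0 * p y.1 1) r.1.1 r.1.2 y.2.1.1 y.2.1.2 *
          w r = 0 := hy
      have hw : ∀ r, w r = ∑ q : ↥(leadQ N0 S V), a (c q) * v (c q) r := by
        intro r
        rw [ha, Finset.sum_apply]
        rfl
      have hsc : ∀ r : ↥S, ec (e⁻¹ * p y.1 0) (e ^ N0 * p y.1 1) r.1.1 r.1.2 y.2.1.1 y.2.1.2 *
          ((e⁻¹) ^ y.2.1.1 * (e ^ N0) ^ y.2.1.2) =
          e ^ (-ω r) * ec (p y.1 0) (p y.1 1) r.1.1 r.1.2 y.2.1.1 y.2.1.2 := by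
        intro r
        rw [ec_scale]
        congr 1
        have : -ω r = -(r.1.1 : ℤ) + ((N0 * r.1.2 : ℕ) : ℤ) := by
          show -((r.1.1 : ℤ) - (N0 : ℤ) * (r.1.2 : ℤ)) = _
          push_cast
          ring
        rw [this, zpow_add₀ he2, zpow_neg, zpow_natCast, zpow_natCast, inv_pow, pow_mul]
      show ∑ q : ↥(leadQ N0 S V), D e y q * (a (c q) * e ^ (-ω (c q))) = 0
      have hterm : ∀ q : ↥(leadQ N0 S V), D e y q * (a (c q) * e ^ (-ω (c q))) =
          ∑ r : ↥S, a (c q) * v (c q) r *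
            (e ^ (-ω r) * ec (p y.1 0) (p y.1 1) r.1.1 r.1.2 y.2.1.1 y.2.1.2) := by
        intro q
        show (∑ r : ↥S, v (c q) r * e ^ (ω (c q) - ω r).toNat *
          ec (p y.1 0) (p y.1 1) r.1.1 r.1.2 y.2.1.1 y.2.1.2) * (a (c q) * e ^ (-ω (c q))) = _
        rw [Finset.sum_mul]
        refine Finset.sum_congr rfl fun r _ => ?_
        rcases lt_or_ge (ω (c q)) (ω r) with hlt | hge
        · rw [h2 _ (hc q) r hlt]
          simp
        · have e3 : (e : ℝ) ^ (ω (c q) - ω r).toNat = e ^ (ω (c q) - ω r) := by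
            rw [← zpow_natCast, Int.toNat_of_nonneg (by omega)]
          have e4 : (e : ℝ) ^ (-ω r) = e ^ (ω (c q) - ω r) * e ^ (-ω (c q)) := by
            rw [← zpow_add₀ he2]
            congr 1
            ring
          rw [e3, e4]
          ring
      rw [Finset.sum_congr rfl fun q _ => hterm q, Finset.sum_comm]
      have hfin : ∀ r : ↥S, ∑ q : ↥(leadQ N0 S V), a (c q) * v (c q) r *
            (e ^ (-ω r) * ec (p y.1 0) (p y.1 1) r.1.1 r.1.2 y.2.1.1 y.2.1.2) =
          (ec (e⁻¹ * p y.1 0) (e ^ N0 * p y.1 1) r.1.1 r.1.2 y.2.1.1 y.2.1.2 * w r) *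
            ((e⁻¹) ^ y.2.1.1 * (e ^ N0) ^ y.2.1.2) := by
        intro r
        rw [← Finset.sum_mul, ← hw r, ← hsc r]
        ring
      rw [Finset.sum_congr rfl fun r _ => hfin r, ← Finset.sum_mul, hy', zero_mul]
    · show θ _ = w
      rw [Fintype.linearCombination_apply, ha]
      refine Finset.sum_congr rfl fun q _ => ?_
      rw [smul_smul]
      congr 1
      rw [mul_assoc, ← zpow_add₀ he2, neg_add_cancel, zpow_zero, mul_one]
  have h4 := Submodule.finrank_mono hle
  have h5 := Submodule.finrank_map_le θ (LinearMap.ker (D e).mulVecLin)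
  have h6 : Module.finrank ℝ (LinearMap.ker (D e).mulVecLin) ≤
      (leadQ N0 S V).card - Fintype.card (Σ i : ι, ↥(tri (m i))) := by
    have := hDe
    unfold Good at this
    rwa [Fintype.card_coe] at this
  exact h4.trans (h5.trans h6)

end Pool.MP_70e04f_ag.Add

end

/-! ### from `Lib_MP_70e04f_add.Psi` -/

section

/-!
# The substitution `y = u + x ^ k` (piece PSI)

PAPER PROOFS. `psi k` is an automorphism with inverse `aeval ![X 0, X 1 - X 0 ^ k]`; it maps
`fk k` to `X 1`. It maps the ideal of the point `(x, u + x ^ k)` onto the ideal of `(x, u)`.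
`psi (X 0 ^ a * X 1 ^ b) = ∑ t ≤ b, choose b t • X 0 ^ (a + k (b - t)) * X 1 ^ t`, whose exponents
`(a + k (b - t), t)` lie in `box k N` if `a + b < N`.
-/

namespace Pool.MP_70e04f_ag.Add

open MvPolynomial Pool.MP_70e04f_ag.Hex

/-- The inverse substitution. -/
noncomputable def psiInv (k : ℕ) : MvPolynomial (Fin 2) ℝ →ₐ[ℝ] MvPolynomial (Fin 2) ℝ :=
  aeval ![X 0, X 1 - X 0 ^ k]

lemma psi_X0 (k : ℕ) : psi k (X 0) = X 0 := by
  unfold psi
  rw [aeval_X]
  rfl

lemma psi_X1 (k : ℕ) : psi k (X 1) = X 1 + X 0 ^ k := by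
  unfold psi
  rw [aeval_X]
  rfl

lemma psiInv_X0 (k : ℕ) : psiInv k (X 0) = X 0 := by
  unfold psiInv
  rw [aeval_X]
  rfl

lemma psiInv_X1 (k : ℕ) : psiInv k (X 1) = X 1 - X 0 ^ k := by
  unfold psiInv
  rw [aeval_X]
  rfl

lemma psiInv_psi (k : ℕ) (F : MvPolynomial (Fin 2) ℝ) : psiInv k (psi k F) = F := by
  have h : (psiInv k).comp (psi k) = AlgHom.id ℝ _ := by
    apply MvPolynomial.algHom_ext
    intro i
    fin_cases i
    · show psiInv k (psi k (X 0)) = X 0
      rw [psi_X0, psiInv_X0]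
    · show psiInv k (psi k (X 1)) = X 1
      rw [psi_X1, map_add, map_pow, psiInv_X0, psiInv_X1, sub_add_cancel]
  exact DFunLike.congr_fun h F

lemma psi_psiInv (k : ℕ) (F : MvPolynomial (Fin 2) ℝ) : psi k (psiInv k F) = F := by
  have h : (psi k).comp (psiInv k) = AlgHom.id ℝ _ := by
    apply MvPolynomial.algHom_ext
    intro i
    fin_cases i
    · show psi k (psiInv k (X 0)) = X 0
      rw [psiInv_X0, psi_X0]
    · show psi k (psiInv k (X 1)) = X 1
      rw [psiInv_X1, map_sub, map_pow, psi_X0, psi_X1, add_sub_cancel_right]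
  exact DFunLike.congr_fun h F

lemma psi_injective (k : ℕ) : Function.Injective (psi k) :=
  Function.LeftInverse.injective (psiInv_psi k)

lemma psi_fk (k : ℕ) : psi k (fk k) = X 1 := by
  unfold fk
  rw [map_sub, map_pow, psi_X0, psi_X1, add_sub_cancel_right]

lemma psi_surjective (k : ℕ) : Function.Surjective (psi k) :=
  Function.RightInverse.surjective (psi_psiInv k)

lemma eval_psi (k : ℕ) (x u : ℝ) (F : MvPolynomial (Fin 2) ℝ) :
    MvPolynomial.eval ![x, u] (psi k F) = MvPolynomial.eval ![x, u + x ^ k] F := by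
  have h : ((aeval ![x, u] : MvPolynomial (Fin 2) ℝ →ₐ[ℝ] ℝ)).comp (psi k) =
      aeval ![x, u + x ^ k] := by
    apply MvPolynomial.algHom_ext
    intro i
    fin_cases i
    · show aeval ![x, u] (psi k (X 0)) = aeval ![x, u + x ^ k] (X 0)
      rw [psi_X0, aeval_X, aeval_X]
      rfl
    · show aeval ![x, u] (psi k (X 1)) = aeval ![x, u + x ^ k] (X 1)
      rw [psi_X1, map_add, map_pow, aeval_X, aeval_X, aeval_X]
      rfl
  have h2 := DFunLike.congr_fun h F
  rw [← MvPolynomial.coe_aeval_eq_eval, ← MvPolynomial.coe_aeval_eq_eval]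
  exact h2

lemma psi_mem_pow_aux {f : MvPolynomial (Fin 2) ℝ →ₐ[ℝ] MvPolynomial (Fin 2) ℝ}
    {I J : Ideal (MvPolynomial (Fin 2) ℝ)} (h : ∀ F ∈ I, f F ∈ J) (m : ℕ)
    {F : MvPolynomial (Fin 2) ℝ} (hF : F ∈ I ^ m) : f F ∈ J ^ m := by
  have h1 : Ideal.map f.toRingHom I ≤ J := by
    rw [Ideal.map_le_iff_le_comap]
    intro G hG
    exact h G hG
  have h2 : f.toRingHom F ∈ Ideal.map f.toRingHom (I ^ m) := Ideal.mem_map_of_mem _ hF
  rw [Ideal.map_pow] at h2
  exact Ideal.pow_right_mono h1 m h2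

/-- The substitution and the vanishing order. -/
lemma psi_mem_iff (k m : ℕ) (x u : ℝ) (F : MvPolynomial (Fin 2) ℝ) :
    psi k F ∈ (RingHom.ker (MvPolynomial.eval ![x, u]) : Ideal (MvPolynomial (Fin 2) ℝ)) ^ m ↔
      F ∈ (RingHom.ker (MvPolynomial.eval ![x, u + x ^ k]) :
        Ideal (MvPolynomial (Fin 2) ℝ)) ^ m := by
  constructor
  · intro h
    have h1 := psi_mem_pow_aux (f := psiInv k)
      (J := RingHom.ker (MvPolynomial.eval ![x, u + x ^ k])) (by
        intro G hG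
        rw [RingHom.mem_ker] at hG ⊢
        rw [← eval_psi, psi_psiInv, hG]) m h
    rwa [psiInv_psi] at h1
  · intro h
    exact psi_mem_pow_aux (f := psi k) (by
        intro G hG
        rw [RingHom.mem_ker] at hG ⊢
        rw [eval_psi, hG]) m h

/-- The monomials of the set of exponents. -/
lemma monomial_mem_range {S : Finset (ℕ × ℕ)} {q : ℕ × ℕ} (hq : q ∈ S) :
    (X 0 ^ q.1 * X 1 ^ q.2 : MvPolynomial (Fin 2) ℝ) ∈ LinearMap.range (toPS S) := by
  classical
  refine ⟨Pi.single ⟨q, hq⟩ 1, ?_⟩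
  unfold toPS
  rw [Fintype.linearCombination_apply_single, one_smul]

/-- The exponents after the substitution. -/
lemma psi_mem_range (k N : ℕ) (F : MvPolynomial (Fin 2) ℝ)
    (h : F ∈ LinearMap.range (toPS (tri N))) : psi k F ∈ LinearMap.range (toPS (box k N)) := by
  obtain ⟨v, rfl⟩ := h
  unfold toPS
  rw [Fintype.linearCombination_apply, map_sum]
  apply Submodule.sum_mem
  intro q _
  rw [map_smul]
  apply Submodule.smul_mem
  rw [map_mul, map_pow, map_pow, psi_X0, psi_X1, add_pow, Finset.mul_sum]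
  apply Submodule.sum_mem
  intro t ht
  have ht' : t ≤ q.1.2 := Nat.lt_succ_iff.mp (Finset.mem_range.mp ht)
  have hq := mem_tri.mp q.2
  have e : (X 0 ^ q.1.1 * (X 1 ^ t * (X 0 ^ k) ^ (q.1.2 - t) *
      ((q.1.2.choose t : ℕ) : MvPolynomial (Fin 2) ℝ)) : MvPolynomial (Fin 2) ℝ) =
      (q.1.2.choose t : ℝ) • (X 0 ^ (q.1.1 + k * (q.1.2 - t)) * X 1 ^ t) := by
    rw [MvPolynomial.smul_eq_C_mul, map_natCast, ← pow_mul, pow_add]
    ring
  rw [e]
  apply Submodule.smul_mem
  refine monomial_mem_range (q := (q.1.1 + k * (q.1.2 - t), t)) (mem_box.mpr ⟨?_, ?_⟩)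
  · have h1 : k * (q.1.2 - t) ≤ k * N := by
      apply Nat.mul_le_mul_left
      omega
    have h2 : (k + 1) * N = k * N + N := by ring
    show q.1.1 + k * (q.1.2 - t) < (k + 1) * N
    omega
  · show t < N
    omega

/-- Divisibility by `X 1 ^ j` in terms of the coefficients. -/
lemma X1_pow_dvd_iff (j : ℕ) (F : MvPolynomial (Fin 2) ℝ) :
    (X 1 : MvPolynomial (Fin 2) ℝ) ^ j ∣ F ↔ ∀ s, s 1 < j → coeff s F = 0 := by
  rw [X_pow_eq_monomial, monomial_one_dvd_iff_modMonomial_eq_zero]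
  constructor
  · intro h s hs
    have h1 : ¬ Finsupp.single 1 j ≤ s := by
      rw [Finsupp.single_le_iff]
      omega
    rw [← coeff_modMonomial_of_not_le F h1, h, coeff_zero]
  · intro h
    ext s
    rw [coeff_zero]
    by_cases h1 : Finsupp.single 1 j ≤ s
    · exact coeff_modMonomial_of_le F h1
    · rw [coeff_modMonomial_of_not_le F h1]
      apply h
      rw [Finsupp.single_le_iff] at h1
      omega

end Pool.MP_70e04f_ag.Add

end

/-! ### from `Lib_MP_70e04f_add.Div` -/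

section

/-!
# Dividing by the equation of the curve (piece DIV)

PAPER PROOF. `totalDegree (fk k) = k` for `1 ≤ k`, and the total degree is additive on products
of nonzero polynomials (`MvPolynomial.totalDegree_mul_of_isDomain`). So `fk k ^ j * G` of degree
`< N` with `G ≠ 0` gives `G` of degree `< N - j k`. If `fk k` does not vanish at `q t` then
`fk k ^ j` is not in the maximal ideal of `q t`, and the powers of a maximal ideal are primary,
so `fk k ^ j * G ∈ I ^ m` implies `G ∈ I ^ m`.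
-/

namespace Pool.MP_70e04f_ag.Add

open MvPolynomial Pool.MP_70e04f_ag.Hex

lemma coeff_fk (k : ℕ) (s : Fin 2 →₀ ℕ) :
    coeff s (fk k) = (if mon 0 1 = s then 1 else 0) - (if mon k 0 = s then 1 else 0) := by
  classical
  unfold fk
  have e1 : (X 1 : MvPolynomial (Fin 2) ℝ) = monomial (mon 0 1) 1 := by
    rw [← X_pow_mul_X_pow]
    simp
  have e2 : (X 0 ^ k : MvPolynomial (Fin 2) ℝ) = monomial (mon k 0) 1 := by
    rw [← X_pow_mul_X_pow]
    simp
  rw [e1, e2, coeff_sub, coeff_monomial, coeff_monomial]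

lemma totalDegree_fk {k : ℕ} (hk : 1 ≤ k) : (fk k).totalDegree = k := by
  classical
  apply le_antisymm
  · unfold fk
    refine (totalDegree_sub _ _).trans ?_
    rw [totalDegree_X, totalDegree_X_pow]
    exact max_le hk le_rfl
  · have h1 : mon k 0 ∈ (fk k).support := by
      rw [mem_support_iff, coeff_fk, if_pos rfl, if_neg]
      · norm_num
      · intro h
        have := (mon_inj.1 h).1
        omega
    have h2 := le_totalDegree h1
    have h3 : (mon k 0).sum (fun _ => id) = k + 0 := degree_mon _ _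
    have h4 : ((mon k 0).sum fun _ e => e) = k + 0 := h3
    rw [h4] at h2
    exact h2

lemma fk_ne_zero (k : ℕ) : fk k ≠ 0 := by
  intro h
  have h1 := coeff_fk k (mon 0 1)
  rw [h, coeff_zero, if_pos rfl, if_neg] at h1
  · norm_num at h1
  · intro h2
    have := (mon_inj.1 h2).2
    omega

lemma totalDegree_fk_pow {k : ℕ} (hk : 1 ≤ k) (j : ℕ) : (fk k ^ j).totalDegree = j * k := by
  induction j with
  | zero => simp
  | succ j ih =>
    rw [pow_succ, totalDegree_mul_of_isDomain (pow_ne_zero j (fk_ne_zero k)) (fk_ne_zero k), ih,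
      totalDegree_fk hk]
    ring

/-- Multiplying by a power of the equation. -/
lemma fk_mul_mem {τ : Type*} {k N j : ℕ} (hk : 1 ≤ k) {m : τ → ℕ} {q : τ → Fin 2 → ℝ}
    {G : MvPolynomial (Fin 2) ℝ} (hj : j * k ≤ N) (hG : G ∈ Lsys (N - j * k) m q) :
    fk k ^ j * G ∈ Lsys N m q := by
  have h := mul_mem_Lsys (totalDegree_fk_pow hk j).le hG
  rwa [Nat.sub_add_cancel hj] at h

/-- The degree of the quotient. -/
lemma degree_of_fk_mul_mem {τ : Type*} {k N j : ℕ} (hk : 1 ≤ k) {m : τ → ℕ} {q : τ → Fin 2 → ℝ}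
    {G : MvPolynomial (Fin 2) ℝ} (hG : G ≠ 0)
    (h : fk k ^ j * G ∈ Lsys N m q) : j * k + G.totalDegree + 1 ≤ N := by
  have h0 : fk k ^ j * G ≠ 0 := mul_ne_zero (pow_ne_zero j (fk_ne_zero k)) hG
  have h1 := h.1
  rcases N with _ | M
  · exfalso
    rw [SetLike.mem_coe, mem_range_toPS] at h1
    apply h0
    ext s
    by_contra hs
    have := mem_tri.1 (h1 s hs)
    omega
  · rw [SetLike.mem_coe, mem_range_tri,
      totalDegree_mul_of_isDomain (pow_ne_zero j (fk_ne_zero k)) hG, totalDegree_fk_pow hk] at h1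
    omega

/-- Powers of a maximal ideal are primary. -/
lemma mem_pow_of_mul_mem {p : Fin 2 → ℝ} {n : ℕ} {A G : MvPolynomial (Fin 2) ℝ}
    (hA : MvPolynomial.eval p A ≠ 0)
    (h : A * G ∈ (RingHom.ker (MvPolynomial.eval p) : Ideal (MvPolynomial (Fin 2) ℝ)) ^ n) :
    G ∈ (RingHom.ker (MvPolynomial.eval p) : Ideal (MvPolynomial (Fin 2) ℝ)) ^ n := by
  set B : MvPolynomial (Fin 2) ℝ := C (MvPolynomial.eval p A)⁻¹ with hB
  have h1 : 1 - A * B ∈ (RingHom.ker (MvPolynomial.eval p) : Ideal (MvPolynomial (Fin 2) ℝ)) := by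
    rw [RingHom.mem_ker, map_sub, map_one, map_mul, hB, eval_C, mul_inv_cancel₀ hA, sub_self]
  have h2 := Ideal.pow_mem_pow h1 n
  have h3 : 1 - (1 - A * B) ∣ 1 ^ n - (1 - A * B) ^ n := sub_dvd_pow_sub_pow 1 (1 - A * B) n
  obtain ⟨D, hD⟩ := h3
  have e : G = (1 - A * B) ^ n * G + B * D * (A * G) := by
    have h4 : (1 - A * B) ^ n = 1 - (1 - (1 - A * B)) * D := by
      rw [← hD, one_pow]
      ring
    rw [h4]
    ring
  rw [e]
  exact Ideal.add_mem _ (Ideal.mul_mem_right _ _ h2) (Ideal.mul_mem_left _ _ h)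

/-- Dividing by a power of the equation. -/
lemma mem_of_fk_mul_mem {τ : Type*} {k N j : ℕ} (hk : 1 ≤ k) {m : τ → ℕ} {q : τ → Fin 2 → ℝ}
    (hq : ∀ t, q t 1 ≠ q t 0 ^ k) {G : MvPolynomial (Fin 2) ℝ}
    (h : fk k ^ j * G ∈ Lsys N m q) : G ∈ Lsys (N - j * k) m q := by
  by_cases hG : G = 0
  · rw [hG]
    exact Submodule.zero_mem _
  have hd := degree_of_fk_mul_mem hk hG h
  refine ⟨?_, ?_⟩
  · have e : N - j * k = (N - j * k - 1) + 1 := by omega
    rw [e, SetLike.mem_coe, mem_range_tri]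
    omega
  · rw [SetLike.mem_coe, mem_vanish]
    intro t
    refine mem_pow_of_mul_mem (A := fk k ^ j) ?_ (mem_vanish.1 h.2 t)
    rw [map_pow]
    apply pow_ne_zero
    unfold fk
    rw [map_sub, map_pow, eval_X, eval_X]
    exact sub_ne_zero.2 (hq t)

/-- No room for a multiple of the equation. -/
lemma eq_zero_of_fk_mul_mem {τ : Type*} {k N j : ℕ} (hk : 1 ≤ k) {m : τ → ℕ}
    {q : τ → Fin 2 → ℝ} {G : MvPolynomial (Fin 2) ℝ} (hj : N ≤ j * k)
    (h : fk k ^ j * G ∈ Lsys N m q) : G = 0 := by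
  by_contra hG
  have hd := degree_of_fk_mul_mem hk hG h
  omega

end Pool.MP_70e04f_ag.Add

end

/-! ### from `Lib_MP_70e04f_add.Filt` -/

section

/-!
# The filtration by the order along the curve (pieces FILT and STEP)

`Vt k N m q` is the space of coefficient vectors of the polynomials `psi k F`, `F ∈ Lsys N m q`.

PAPER PROOF of `finrank_Vt` and `finrank_Vt_low`. `toPS (box k N)` is injective and, by
`psi_mem_range`, maps `Vt` isomorphically onto `psi k (Lsys N m q)`. The vectors in `low _ j`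
are those with `X 1 ^ j ∣ psi k F` (`X1_pow_dvd_iff`), i.e. (`psi_fk`, `psi_surjective`,
`psi_injective`) `fk k ^ j ∣ F`, `F = fk k ^ j * G`. If `j k ≤ N` then `G ↦ F` is an isomorphism
from `Lsys (N - j k) m q` onto them (`fk_mul_mem`, `mem_of_fk_mul_mem`); if `N ≤ j k` then `G = 0`
(`eq_zero_of_fk_mul_mem`) and `Lsys 0 m q = ⊥`.

PAPER PROOF of `leadQ_step`. Let `F' = psi k F` have the leading exponent `(δ, j + 1)`. All
coefficients of `F'` with second exponent `≤ j` vanish, so `F' = X 1 ^ (j + 1) * G'`,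
`F = fk k ^ (j + 1) * G`, `G' = psi k G`, and `G ∈ Lsys (N - (j + 1) k)`, `G ≠ 0`, so
`(j + 1) k < N`. The polynomial `G' (X, 0)` has degree `δ` (it is the coefficient of
`X 1 ^ (j + 1)` in `F'`). Put `F2 = fk k ^ j * (X 0 ^ a * X 1 ^ b * G)`; by `mul_mem_Lsys`,
`Lsys_mono` and `fk_mul_mem` it is in `Lsys N m q` as `a + b ≤ k`. Now
`psi k F2 = X 1 ^ j * (X 0 ^ a * (X 1 + X 0 ^ k) ^ b * G')`, whose lowest power of `X 1` is `j`
with coefficient `X 0 ^ (a + k b) * G' (X, 0)` of degree `δ + a + k b`: its leading exponent is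
`(δ + a + k b, j)`. (Useful: for `H = X 1 ^ j * K`, `coeff (mon c j) H = coeff (mon c 0) K`, and
`coeff (mon c 0) K = (aeval ![X, 0] K : ℝ[X]).coeff c`, a ring homomorphism in `K`.)
-/

namespace Pool.MP_70e04f_ag.Add

open MvPolynomial Pool.MP_70e04f_ag.Hex

/-- The coefficient vectors of `psi k F`, `F ∈ Lsys N m q`. -/
noncomputable def Vt {τ : Type*} (k N : ℕ) (m : τ → ℕ) (q : τ → Fin 2 → ℝ) :
    Submodule ℝ (↥(box k N) → ℝ) :=
  ((Lsys N m q).map (psi k).toLinearMap).comap (toPS (box k N))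

lemma mem_Vt {τ : Type*} {k N : ℕ} {m : τ → ℕ} {q : τ → Fin 2 → ℝ} {v : ↥(box k N) → ℝ} :
    v ∈ Vt k N m q ↔ ∃ F ∈ Lsys N m q, psi k F = toPS (box k N) v := by
  unfold Vt
  rw [Submodule.mem_comap, Submodule.mem_map]
  rfl

/-- Coefficients of the polynomial with given coefficients. -/
lemma coeff_toPS_eq_zero_of_low {S : Finset (ℕ × ℕ)} {j : ℕ} {v : ↥S → ℝ} (hv : v ∈ low S j)
    {s : Fin 2 →₀ ℕ} (hs : s 1 < j) : coeff s (toPS S v) = 0 := by
  by_contra hne
  have h1 : (s 0, s 1) ∈ S := mem_range_toPS.mp ⟨v, rfl⟩ s hne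
  have h2 := coeff_toPS v ⟨(s 0, s 1), h1⟩
  rw [mon_eta] at h2
  exact hne (h2.trans (mem_low.mp hv ⟨(s 0, s 1), h1⟩ hs))

/-- The system of polynomials of degree `< 0`. -/
lemma eq_zero_of_mem_Lsys_zero {τ : Type*} {m : τ → ℕ} {q : τ → Fin 2 → ℝ}
    {G : MvPolynomial (Fin 2) ℝ} (hG : G ∈ Lsys 0 m q) : G = 0 := by
  obtain ⟨v, rfl⟩ := hG.1
  have h : v = 0 := by
    funext r
    have := mem_tri.mp r.2
    omega
  rw [h, map_zero]

/-- The linear map `G ↦ psi k (fk k ^ j * G)`. -/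
noncomputable def psiMul (k j : ℕ) : MvPolynomial (Fin 2) ℝ →ₗ[ℝ] MvPolynomial (Fin 2) ℝ :=
  (psi k).toLinearMap.comp (LinearMap.mulLeft ℝ (fk k ^ j))

lemma psiMul_apply (k j : ℕ) (G : MvPolynomial (Fin 2) ℝ) :
    psiMul k j G = psi k (fk k ^ j * G) := rfl

lemma psiMul_injective (k j : ℕ) : Function.Injective (psiMul k j) := by
  intro G G' h
  rw [psiMul_apply, psiMul_apply] at h
  exact mul_left_cancel₀ (pow_ne_zero j (fk_ne_zero k)) (psi_injective k h)

lemma map_Vt_low {τ : Type*} {k N : ℕ} (hk : 1 ≤ k) {m : τ → ℕ} {q : τ → Fin 2 → ℝ}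
    (hq : ∀ t, q t 1 ≠ q t 0 ^ k) (j : ℕ) :
    (Vt k N m q ⊓ low (box k N) j).map (toPS (box k N)) =
      (Lsys (N - j * k) m q).map (psiMul k j) := by
  apply le_antisymm
  · rintro _ ⟨v, ⟨hv1, hv2⟩, rfl⟩
    obtain ⟨F, hF, he⟩ := mem_Vt.mp hv1
    have h1 : (X 1 : MvPolynomial (Fin 2) ℝ) ^ j ∣ psi k F := by
      rw [X1_pow_dvd_iff, he]
      intro s hs
      exact coeff_toPS_eq_zero_of_low hv2 hs
    obtain ⟨H, hH⟩ := h1
    obtain ⟨G, rfl⟩ := psi_surjective k H
    have h2 : F = fk k ^ j * G := by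
      apply psi_injective k
      rw [hH, map_mul, map_pow, psi_fk]
    rw [h2] at hF
    refine ⟨G, mem_of_fk_mul_mem hk hq hF, ?_⟩
    rw [psiMul_apply, ← h2, he]
  · rintro _ ⟨G, hG, rfl⟩
    have hF : fk k ^ j * G ∈ Lsys N m q := by
      rcases le_or_gt (j * k) N with h | h
      · exact fk_mul_mem hk h hG
      · have h0 : N - j * k = 0 := by omega
        rw [h0] at hG
        rw [eq_zero_of_mem_Lsys_zero hG, mul_zero]
        exact Submodule.zero_mem _
    obtain ⟨v, hv⟩ := psi_mem_range k N _ hF.1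
    refine ⟨v, ⟨mem_Vt.mpr ⟨_, hF, hv.symm⟩, ?_⟩, hv⟩
    rw [SetLike.mem_coe, mem_low]
    intro r hr
    rw [← coeff_toPS v r, hv, map_mul, map_pow, psi_fk]
    apply (X1_pow_dvd_iff j _).mp ⟨_, rfl⟩
    rwa [mon_one']

/-- The dimension of the part of order `≥ j` along the curve. -/
theorem finrank_Vt_low {τ : Type*} {k N : ℕ} (hk : 1 ≤ k) {m : τ → ℕ} {q : τ → Fin 2 → ℝ}
    (hq : ∀ t, q t 1 ≠ q t 0 ^ k) (j : ℕ) :
    Module.finrank ℝ ↥(Vt k N m q ⊓ low (box k N) j) = hT (N - j * k) m q := by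
  rw [(Submodule.equivMapOfInjective (toPS (box k N)) (toPS_injective _)
    (Vt k N m q ⊓ low (box k N) j)).finrank_eq, map_Vt_low hk hq j]
  exact (Submodule.equivMapOfInjective (psiMul k j) (psiMul_injective k j)
    (Lsys (N - j * k) m q)).finrank_eq.symm

end Pool.MP_70e04f_ag.Add

end

/-! ### from `Lib_MP_70e04f_add.Step` -/

section

/-!
# Multiplying the leading exponents (piece STEP)

The paper proof is in the header of `Filt.lean`.
-/

namespace Pool.MP_70e04f_ag.Add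

open MvPolynomial Pool.MP_70e04f_ag.Hex

/-- Coefficients of a multiple of a power of the second variable. -/
lemma coeff_X1_pow_mul (c j i : ℕ) (K : MvPolynomial (Fin 2) ℝ) :
    coeff (mon c (j + i)) ((X 1 : MvPolynomial (Fin 2) ℝ) ^ j * K) = coeff (mon c i) K := by
  have h1 : mon c (j + i) = Finsupp.single 1 j + mon c i := by
    ext x
    fin_cases x <;> simp [mon]
  rw [h1, X_pow_eq_monomial, coeff_monomial_mul, one_mul]

/-- The coefficients of the restriction to the line `X 1 = 0`. -/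
lemma coeff_mon_zero (c : ℕ) (K : MvPolynomial (Fin 2) ℝ) :
    coeff (mon c 0) K = (aeval ![(Polynomial.X : Polynomial ℝ), 0] K).coeff c := by
  induction K using MvPolynomial.induction_on' with
  | monomial s r =>
    rw [coeff_monomial, aeval_monomial, Finsupp.prod_fintype _ _ (fun i => pow_zero _),
      Fin.prod_univ_two]
    simp only [Matrix.cons_val_zero, Matrix.cons_val_one]
    by_cases h1 : s 1 = 0
    · rw [h1, pow_zero, mul_one]
      simp only [Polynomial.algebraMap_eq, Polynomial.coeff_C_mul, Polynomial.coeff_X_pow]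
      by_cases h0 : s 0 = c
      · rw [if_pos, if_pos h0.symm, mul_one]
        rw [← mon_eta s, h0, h1]
      · rw [if_neg, if_neg (fun h => h0 h.symm), mul_zero]
        intro h
        apply h0
        rw [h, mon_zero']
    · rw [zero_pow h1, mul_zero, mul_zero, Polynomial.coeff_zero, if_neg]
      intro h
      apply h1
      rw [h, mon_one']
  | add p q hp hq =>
    rw [coeff_add, map_add, Polynomial.coeff_add, hp, hq]

/-- The lowest coefficients after the multiplication. -/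
lemma coeff_step (k a b c : ℕ) (G' : MvPolynomial (Fin 2) ℝ) :
    coeff (mon c 0) (X 0 ^ a * (X 1 + X 0 ^ k) ^ b * G') =
      if a + k * b ≤ c then coeff (mon (c - (a + k * b)) 0) G' else 0 := by
  rw [coeff_mon_zero, map_mul, map_mul, map_pow, map_pow, map_add, map_pow, aeval_X, aeval_X]
  simp only [Matrix.cons_val_zero, Matrix.cons_val_one, zero_add]
  rw [← pow_mul, ← pow_add, Polynomial.coeff_X_pow_mul', coeff_mon_zero]

/-- Multiplying by a polynomial of degree `≤ k`. -/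
theorem leadQ_step {τ : Type*} {k N N0 : ℕ} (hk : 1 ≤ k) (hN0 : (k + 1) * N ≤ N0) {m : τ → ℕ}
    {q : τ → Fin 2 → ℝ} (hq : ∀ t, q t 1 ≠ q t 0 ^ k) {j δ a b : ℕ}
    (h : (δ, j + 1) ∈ leadQ N0 (box k N) (Vt k N m q)) (hab : a + b ≤ k) :
    (δ + a + k * b, j) ∈ leadQ N0 (box k N) (Vt k N m q) := by
  rw [mem_leadQ] at h
  obtain ⟨hbox, hlead⟩ := h
  rw [mem_lead] at hlead
  obtain ⟨w, hw, hw0, hwz⟩ := hlead
  obtain ⟨F, hF, hFw⟩ := mem_Vt.1 hw
  have hδ : δ < N0 := lt_of_lt_of_le (mem_box.1 hbox).1 hN0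
  -- the coefficients of `psi k F`
  have hrange : psi k F ∈ LinearMap.range (toPS (box k N)) := ⟨w, hFw.symm⟩
  have hcoef : ∀ c i : ℕ, (i < j + 1 ∨ (i = j + 1 ∧ δ < c)) → coeff (mon c i) (psi k F) = 0 := by
    intro c i hci
    by_contra hne
    have hmem := mem_range_toPS.1 hrange (mon c i) hne
    rw [mon_zero', mon_one'] at hmem
    apply hne
    rw [hFw]
    have h1 := coeff_toPS w (⟨(c, i), hmem⟩ : ↥(box k N))
    rw [h1]
    apply hwz
    show wt N0 (δ, j + 1) < wt N0 (c, i)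
    unfold wt
    push_cast
    rcases hci with hi | ⟨rfl, hc⟩
    · have hi' : (i : ℤ) ≤ j := by omega
      have h2 : (N0 : ℤ) * i ≤ N0 * j := mul_le_mul_of_nonneg_left hi' (by positivity)
      have h3 : (δ : ℤ) < N0 := by exact_mod_cast hδ
      have h4 : (0 : ℤ) ≤ c := by positivity
      have h5 : (N0 : ℤ) * (j + 1) = N0 * j + N0 := by ring
      linarith
    · have h3 : (δ : ℤ) < c := by exact_mod_cast hc
      push_cast
      linarith
  have hdvd : (X 1 : MvPolynomial (Fin 2) ℝ) ^ (j + 1) ∣ psi k F := by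
    rw [X1_pow_dvd_iff]
    intro s hs
    have := hcoef (s 0) (s 1) (Or.inl hs)
    rwa [mon_eta] at this
  obtain ⟨G', hG'⟩ := hdvd
  obtain ⟨G, hG⟩ := psi_surjective k G'
  have hFG : F = fk k ^ (j + 1) * G := by
    apply psi_injective k
    rw [map_mul, map_pow, psi_fk, hG, hG']
  -- the coefficients of `G'`
  have hG'c : ∀ c, coeff (mon c 0) G' = coeff (mon c (j + 1)) (psi k F) := by
    intro c
    have := coeff_X1_pow_mul c (j + 1) 0 G'
    rw [add_zero] at this
    rw [hG', this]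
  have hG'δ : coeff (mon δ 0) G' ≠ 0 := by
    rw [hG'c, hFw]
    have h1 := coeff_toPS w (⟨(δ, j + 1), hbox⟩ : ↥(box k N))
    rw [h1]
    exact hw0
  have hG0 : G ≠ 0 := by
    intro h0
    apply hG'δ
    rw [← hG, h0, map_zero, coeff_zero]
  have hGL : G ∈ Lsys (N - (j + 1) * k) m q := by
    apply mem_of_fk_mul_mem hk hq
    rwa [← hFG]
  have hjN : (j + 1) * k < N := by
    by_contra hcon
    push Not at hcon
    apply hG0
    apply eq_zero_of_fk_mul_mem hk (j := j + 1) hcon (m := m) (q := q)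
    rwa [← hFG]
  -- the new polynomial
  have hdeg : (X 0 ^ a * X 1 ^ b : MvPolynomial (Fin 2) ℝ).totalDegree ≤ k := by
    refine le_trans (totalDegree_mul _ _) ?_
    rw [totalDegree_X_pow, totalDegree_X_pow]
    exact hab
  have hjk : j * k ≤ N := by nlinarith
  have hF2 : fk k ^ j * (X 0 ^ a * X 1 ^ b * G) ∈ Lsys N m q := by
    apply fk_mul_mem hk hjk
    have h1 := mul_mem_Lsys hdeg hGL
    have h2 : N - (j + 1) * k + k = N - j * k := by
      have : (j + 1) * k = j * k + k := by ring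
      omega
    rwa [h2] at h1
  have hpsi : psi k (fk k ^ j * (X 0 ^ a * X 1 ^ b * G)) =
      X 1 ^ j * (X 0 ^ a * (X 1 + X 0 ^ k) ^ b * G') := by
    rw [map_mul, map_pow, psi_fk, map_mul, map_mul, map_pow, map_pow, hG]
    congr 3
    · congr 1
      simp [psi]
    · congr 1
      simp [psi]
  have hr2 : psi k (fk k ^ j * (X 0 ^ a * X 1 ^ b * G)) ∈ LinearMap.range (toPS (box k N)) := by
    apply psi_mem_range
    have := hF2
    unfold Lsys at this
    exact this.1
  obtain ⟨w2, hw2⟩ := hr2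
  have hc2 : ∀ c, coeff (mon c j) (toPS (box k N) w2) =
      if a + k * b ≤ c then coeff (mon (c - (a + k * b)) 0) G' else 0 := by
    intro c
    have := coeff_X1_pow_mul c j 0 (X 0 ^ a * (X 1 + X 0 ^ k) ^ b * G')
    rw [add_zero] at this
    rw [hw2, hpsi, this, coeff_step]
  have hne2 : coeff (mon (δ + a + k * b) j) (toPS (box k N) w2) ≠ 0 := by
    rw [hc2, if_pos (by omega)]
    have : δ + a + k * b - (a + k * b) = δ := by omega
    rw [this]
    exact hG'δ
  have hbox2 : (δ + a + k * b, j) ∈ box k N := by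
    have := mem_range_toPS.1 (⟨w2, rfl⟩ : toPS (box k N) w2 ∈ LinearMap.range (toPS (box k N)))
      _ hne2
    rwa [mon_zero', mon_one'] at this
  rw [mem_leadQ]
  refine ⟨hbox2, ?_⟩
  rw [mem_lead]
  refine ⟨w2, mem_Vt.2 ⟨_, hF2, hw2.symm⟩, ?_, ?_⟩
  · rw [← coeff_toPS w2 ⟨(δ + a + k * b, j), hbox2⟩]
    exact hne2
  · rintro ⟨⟨c, i⟩, hr⟩ hlt
    rw [← coeff_toPS w2 ⟨(c, i), hr⟩]
    have hlt' : wt N0 (δ + a + k * b, j) < wt N0 (c, i) := hlt
    unfold wt at hlt'
    simp only at hlt'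
    show coeff (mon c i) (toPS (box k N) w2) = 0
    have hcN : c < N0 := lt_of_lt_of_le (mem_box.1 hr).1 hN0
    rcases lt_trichotomy i j with hij | rfl | hij
    · have hd : (X 1 : MvPolynomial (Fin 2) ℝ) ^ j ∣ toPS (box k N) w2 := by
        rw [hw2, hpsi]
        exact dvd_mul_right _ _
      rw [X1_pow_dvd_iff] at hd
      apply hd
      rw [mon_one']
      exact hij
    · rw [hc2]
      split_ifs with hle
      · rw [hG'c]
        apply hcoef
        right
        refine ⟨rfl, ?_⟩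
        push_cast at hlt'
        have : (δ + a + k * b : ℤ) < c := by linarith
        have h2 : δ + a + k * b < c := by exact_mod_cast this
        omega
      · rfl
    · exfalso
      have h1 : ((j : ℤ) + 1) ≤ i := by omega
      have h2 : (N0 : ℤ) * (j + 1) ≤ N0 * i := mul_le_mul_of_nonneg_left h1 (by positivity)
      have h3 : (c : ℤ) < N0 := by exact_mod_cast hcN
      have h4 : (0 : ℤ) ≤ ((δ + a + k * b : ℕ) : ℤ) := by positivity
      have h5 : (N0 : ℤ) * (j + 1) = N0 * j + N0 := by ring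
      linarith

end Pool.MP_70e04f_ag.Add

end

/-! ### from `Lib_MP_70e04f_add.Rows` -/

section

/-!
# The set of leading exponents and its rows (piece ROWS)

PAPER PROOF of `card_step`. Let `A` be the set of `δ` with `(δ, j + 1) ∈ Q` and
`S = {a + k b | (a, b) ∈ tri k}`; the map `(a, b) ↦ a + k b` is injective on `tri k` (`a < k`), so
`card S = card (tri k)`. By hypothesis `A + S` is contained in the set of `δ` with `(δ, j) ∈ Q`,
and `card (A + S) ≥ card A + card S - 1` (Cauchy-Davenport for ordered groups or monoids, in Mathlib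
`cauchy_davenport_add_of_linearOrder_isCancelAdd` or similar; or by hand: `min A + S` and
`A + max S` share one element).

PAPER PROOF of `exists_rows`. `N0 = (k + 1) * N`, `Q = leadQ N0 (box k N) (Vt k N m q)`.
For `r ∈ box k N` one has `r.1 < N0`, so `r.2 < j ↔ c < wt N0 r` with
`c = N0 - 1 - N0 * j`, and `low (box k N) j` is the space `W` of `lead_inf`; with
`finrank_Vt_low` this gives `#{q ∈ Q | j ≤ q.2} = hT (N - j * k)` for all `j`, hence the first two
claims (`j = 0`: `low _ 0 = ⊤`). The third claim is `leadQ_step` and `card_step`. For the last one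
let `p0` be the points of `init_degen` and `p i = ![p0 i 0, p0 i 1 + p0 i 0 ^ k]`; by
`psi_mem_iff`, `toPS_mem_iff` and `mem_Vt` the map `F ↦` (coefficient vector of `psi k F`) embeds
`Lsys N m q ⊓ vanish mm p` into `Vt k N m q ⊓ ker (condP (box k N) mm p0)`.
-/

namespace Pool.MP_70e04f_ag.Add

open MvPolynomial Pool.MP_70e04f_ag.Hex

open Pointwise in
/-- The sumset bound: multiplying a row by the monomials of degree `< k`. -/
lemma card_step {k : ℕ} (hk : 1 ≤ k) (Q : Finset (ℕ × ℕ)) (j : ℕ)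
    (h : ∀ δ a b, (δ, j + 1) ∈ Q → a + b ≤ k → (δ + a + k * b, j) ∈ Q)
    (h1 : 1 ≤ rowc Q (j + 1)) : rowc Q (j + 1) + (tri k).card ≤ rowc Q j + 1 := by
  classical
  set A : Finset ℕ := (Q.filter (fun q => q.2 = j + 1)).image Prod.fst with hA
  set S : Finset ℕ := (tri k).image (fun q => q.1 + k * q.2) with hS
  have hAc : A.card = rowc Q (j + 1) := by
    rw [hA, Finset.card_image_of_injOn]
    · rfl
    · intro x hx y hy hxy
      rw [Finset.mem_coe, Finset.mem_filter] at hx hy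
      exact Prod.ext hxy (hx.2.trans hy.2.symm)
  have hSc : S.card = (tri k).card := by
    rw [hS, Finset.card_image_of_injOn]
    intro x hx y hy hxy
    rw [Finset.mem_coe, mem_tri] at hx hy
    have hxy' : x.1 + k * x.2 = y.1 + k * y.2 := hxy
    have e1 : x.1 = y.1 := by
      have g1 : (x.1 + k * x.2) % k = x.1 := by
        rw [Nat.add_mul_mod_self_left, Nat.mod_eq_of_lt (by omega)]
      have g2 : (y.1 + k * y.2) % k = y.1 := by
        rw [Nat.add_mul_mod_self_left, Nat.mod_eq_of_lt (by omega)]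
      rw [← g1, ← g2, hxy']
    have e2 : x.2 = y.2 := by
      rw [e1] at hxy'
      exact Nat.eq_of_mul_eq_mul_left (by omega) (Nat.add_left_cancel hxy')
    exact Prod.ext e1 e2
  have hAne : A.Nonempty := by
    rw [← Finset.card_pos, hAc]
    omega
  have hSne : S.Nonempty := by
    rw [← Finset.card_pos, hSc, Finset.card_pos]
    exact ⟨(0, 0), mem_tri.2 (by change 0 + 0 < k; omega)⟩
  have h2 := cauchy_davenport_add_of_linearOrder_isCancelAdd hAne hSne
  have h3 : (A + S).card ≤ rowc Q j := by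
    have h4 : A + S ⊆ (Q.filter (fun q => q.2 = j)).image Prod.fst := by
      intro x hx
      obtain ⟨δ, hδ, c, hc, rfl⟩ := Finset.mem_add.1 hx
      obtain ⟨q, hq, rfl⟩ := Finset.mem_image.1 hδ
      obtain ⟨r, hr, rfl⟩ := Finset.mem_image.1 hc
      rw [Finset.mem_filter] at hq
      rw [mem_tri] at hr
      have hq' : (q.1, j + 1) ∈ Q := by
        rw [← hq.2]
        exact hq.1
      have h5 := h q.1 r.1 r.2 hq' (by omega)
      refine Finset.mem_image.2 ⟨(q.1 + r.1 + k * r.2, j), ?_, ?_⟩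
      · rw [Finset.mem_filter]
        exact ⟨h5, rfl⟩
      · change q.1 + r.1 + k * r.2 = q.1 + (r.1 + k * r.2)
        ring
    exact (Finset.card_le_card h4).trans Finset.card_image_le
  rw [hAc, hSc] at h2
  omega

namespace RowsAux

/-- The weight separates the rows. -/
lemma wt_lt {N0 j : ℕ} {r : ℕ × ℕ} (h : r.1 < N0) :
    ((N0 : ℤ) - 1 - (N0 : ℤ) * (j : ℤ) < wt N0 r) ↔ r.2 < j := by
  unfold wt
  have h0 : (r.1 : ℤ) < N0 := by exact_mod_cast h
  have h1 : (0 : ℤ) ≤ r.1 := Int.natCast_nonneg _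
  constructor
  · intro h2
    by_contra hcon
    have h3 : (j : ℤ) ≤ r.2 := by exact_mod_cast not_lt.1 hcon
    have h4 : (N0 : ℤ) * j ≤ (N0 : ℤ) * r.2 := mul_le_mul_of_nonneg_left h3 (by positivity)
    linarith
  · intro h2
    have h3 : (r.2 : ℤ) + 1 ≤ j := by exact_mod_cast h2
    have h4 : (N0 : ℤ) * (r.2 + 1) ≤ (N0 : ℤ) * j := mul_le_mul_of_nonneg_left h3 (by positivity)
    linarith

/-- The number of leading exponents in the rows `≥ j`. -/
lemma count_ge {τ : Type*} {k N : ℕ} (hk : 1 ≤ k) {m : τ → ℕ}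
    {q : τ → Fin 2 → ℝ} (hq : ∀ t, q t 1 ≠ q t 0 ^ k) (j : ℕ) :
    ((leadQ ((k + 1) * N) (box k N) (Vt k N m q)).filter (fun r => j ≤ r.2)).card =
      hT (N - j * k) m q := by
  classical
  have hS : ∀ r ∈ box k N, r.1 < (k + 1) * N := fun r hr => (mem_box.1 hr).1
  have h1 := lead_inf (fun r : ↥(box k N) => wt ((k + 1) * N) r.1) (wt_injective hS) (Vt k N m q)
    ((((k + 1) * N : ℕ) : ℤ) - 1 - (((k + 1) * N : ℕ) : ℤ) * (j : ℤ)) (low (box k N) j) (by
      intro w
      rw [mem_low]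
      constructor
      · intro h r hr
        exact h r ((wt_lt (hS r.1 r.2)).1 hr)
      · intro h r hr
        exact h r ((wt_lt (hS r.1 r.2)).2 hr))
  rw [finrank_Vt_low hk hq j] at h1
  rw [← h1]
  unfold leadQ
  rw [Finset.filter_map, Finset.card_map]
  congr 1
  apply Finset.filter_congr
  intro r _
  have h2 := wt_lt (j := j) (hS r.1 r.2)
  change j ≤ r.1.2 ↔ wt ((k + 1) * N) r.1 ≤ _
  rw [← not_lt, ← h2, not_lt]

end RowsAux

open RowsAux

/-- The rows of the leading exponents. -/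
theorem exists_rows {τ : Type*} [Fintype τ] {k N : ℕ} (hk : 1 ≤ k) {m : τ → ℕ}
    {q : τ → Fin 2 → ℝ} (hq : ∀ t, q t 1 ≠ q t 0 ^ k) :
    ∃ Q : Finset (ℕ × ℕ), Q.card = hT N m q ∧
      (∀ j, rowc Q j + hT (N - (j + 1) * k) m q = hT (N - j * k) m q) ∧
      (∀ j, 1 ≤ rowc Q (j + 1) → rowc Q (j + 1) + (tri k).card ≤ rowc Q j + 1) ∧
      (∀ (n : ℕ) (mm : Fin n → ℕ), OK Q mm → ∃ p : Fin n → Fin 2 → ℝ,
        Module.finrank ℝ ↥(Lsys N m q ⊓ vanish mm p) ≤
          hT N m q - Fintype.card (Σ i : Fin n, ↥(tri (mm i)))) := by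
  classical
  have hS : ∀ r ∈ box k N, r.1 < (k + 1) * N := fun r hr => (mem_box.1 hr).1
  set Q := leadQ ((k + 1) * N) (box k N) (Vt k N m q) with hQ
  have hcard : Q.card = hT N m q := by
    have := count_ge hk hq (N := N) (m := m) 0
    rw [Finset.filter_true_of_mem (fun r _ => Nat.zero_le _), Nat.zero_mul, Nat.sub_zero] at this
    exact this
  refine ⟨Q, hcard, ?_, ?_, ?_⟩
  · intro j
    have h1 := count_ge hk hq (N := N) (m := m) j
    have h2 := count_ge hk hq (N := N) (m := m) (j + 1)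
    rw [← h1, ← h2, ← hQ]
    unfold rowc
    rw [← Finset.card_union_of_disjoint]
    · congr 1
      ext r
      rw [Finset.mem_union, Finset.mem_filter, Finset.mem_filter, Finset.mem_filter]
      constructor
      · rintro (⟨h3, h4⟩ | ⟨h3, h4⟩)
        · exact ⟨h3, h4.ge⟩
        · exact ⟨h3, by omega⟩
      · rintro ⟨h3, h4⟩
        rcases h4.eq_or_lt with h5 | h5
        · exact Or.inl ⟨h3, h5.symm⟩
        · exact Or.inr ⟨h3, h5⟩
    · rw [Finset.disjoint_left]
      intro r h3 h4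
      rw [Finset.mem_filter] at h3 h4
      omega
  · intro j h1
    exact card_step hk Q j (fun δ a b h2 h3 => leadQ_step hk le_rfl hq h2 h3) h1
  · intro n mm hOK
    obtain ⟨p0, hp0⟩ := init_degen hS (Vt k N m q) hOK
    refine ⟨fun i => ![p0 i 0, p0 i 1 + p0 i 0 ^ k], ?_⟩
    rw [← hQ, hcard] at hp0
    refine le_trans ?_ hp0
    set U := Lsys N m q ⊓ vanish mm (fun i => ![p0 i 0, p0 i 1 + p0 i 0 ^ k]) with hU
    set Z := Vt k N m q ⊓ LinearMap.ker (condP (box k N) mm p0).mulVecLin with hZ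
    have hle : U.map (psi k).toLinearMap ≤ Z.map (toPS (box k N)) := by
      intro F' hF'
      obtain ⟨F, hF, rfl⟩ := Submodule.mem_map.1 hF'
      obtain ⟨hF1, hF2⟩ := Submodule.mem_inf.1 hF
      have hF3 := (Submodule.mem_inf.1 hF1).1
      obtain ⟨v, hv⟩ := psi_mem_range k N F hF3
      refine Submodule.mem_map.2 ⟨v, ?_, hv⟩
      refine Submodule.mem_inf.2 ⟨?_, ?_⟩
      · exact mem_Vt.2 ⟨F, hF1, hv.symm⟩
      · rw [LinearMap.mem_ker, Matrix.mulVecLin_apply, ← toPS_mem_iff, mem_vanish]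
        intro i
        rw [hv]
        have h1 := (mem_vanish.1 hF2) i
        have h2 := (psi_mem_iff k (mm i) (p0 i 0) (p0 i 1) F).2 h1
        have h3 : p0 i = ![p0 i 0, p0 i 1] := by
          ext t
          fin_cases t <;> rfl
        rw [h3]
        exact h2
    have e1 : Module.finrank ℝ ↥(U.map (psi k).toLinearMap) = Module.finrank ℝ ↥U :=
      (LinearEquiv.finrank_eq (Submodule.equivMapOfInjective (psi k).toLinearMap
        (psi_injective k) U)).symm
    calc Module.finrank ℝ ↥U = Module.finrank ℝ ↥(U.map (psi k).toLinearMap) := e1.symm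
      _ ≤ Module.finrank ℝ ↥(Z.map (toPS (box k N))) := Submodule.finrank_mono hle
      _ ≤ Module.finrank ℝ ↥Z := Submodule.finrank_map_le _ _

end Pool.MP_70e04f_ag.Add

end

/-! ### from `Lib_MP_70e04f_hex.Pos` -/

section

/-!
# Points with positive coordinates (piece POS)

PAPER PROOF. Apply `exists_detpoly` (file `Lin.lean`) with `S = MvPolynomial (ι × Fin 2) ℝ`,
`c = C`, `F = condP P m (fun i j => X (i, j))`, `φ0 = eval (fun q => p q.1 q.2)` where `p` comes
from `OK P m` (compare the proof of `generic_of_real` in `General.lean`; one needs the analogue of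
`condMat_map` for `condP`, which is `ec_map`). One gets a polynomial `g` which is not zero and such
that `eval (fun q => p' q.1 q.2) g ≠ 0` implies `Good (condP P m p')`. A nonzero polynomial cannot
vanish on the product of the infinite sets `Set.Ioi 0` (Mathlib: `MvPolynomial.funext_set`), so some
positive `p'` works.
-/

namespace Pool.MP_70e04f_ag.Hex

lemma condP_map {R S ι : Type*} [CommRing R] [CommRing S] (P : Finset (ℕ × ℕ)) (m : ι → ℕ)
    (p : ι → Fin 2 → R) (φ : R →+* S) :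
    (condP P m p).map φ = condP P m (fun i j => φ (p i j)) := by
  ext c q
  exact ec_map φ _ _ _ _ _ _

/-- If some real points are good then so are some points with positive coordinates. -/
theorem OK.pos {ι : Type*} [Fintype ι] {P : Finset (ℕ × ℕ)} {m : ι → ℕ} (h : OK P m) :
    ∃ p : ι → Fin 2 → ℝ, (∀ i j, 0 < p i j) ∧ Good (condP P m p) := by
  classical
  obtain ⟨p0, hp0⟩ := h
  set F : Matrix (Σ i : ι, ↥(tri (m i))) ↥P (MvPolynomial (ι × Fin 2) ℝ) :=
    condP P m (fun i j => MvPolynomial.X (i, j)) with hF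
  have hFe : ∀ p : ι → Fin 2 → ℝ, F.map (MvPolynomial.eval (fun q : ι × Fin 2 => p q.1 q.2)) =
      condP P m p := by
    intro p
    rw [hF, condP_map]
    simp
  have hc : ∀ p : ι → Fin 2 → ℝ, (MvPolynomial.eval (fun q : ι × Fin 2 => p q.1 q.2)).comp
      (MvPolynomial.C : ℝ →+* MvPolynomial (ι × Fin 2) ℝ) = RingHom.id ℝ := by
    intro p
    ext r
    simp
  obtain ⟨g, hg0, hgg⟩ := exists_detpoly (MvPolynomial.C : ℝ →+* MvPolynomial (ι × Fin 2) ℝ) F
    (MvPolynomial.eval (fun q : ι × Fin 2 => p0 q.1 q.2)) (hc p0) (by rw [hFe]; exact hp0)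
  obtain ⟨x, hx, hgx⟩ : ∃ x : ι × Fin 2 → ℝ, (∀ q, 0 < x q) ∧ MvPolynomial.eval x g ≠ 0 := by
    by_contra hcon
    push Not at hcon
    apply hg0
    have h0 : g = 0 := by
      apply MvPolynomial.funext_set (fun _ => Set.Ioi (0 : ℝ)) (fun _ => Set.Ioi_infinite 0)
      intro x hx
      rw [hcon x (fun q => hx q (Set.mem_univ q)), map_zero]
    rw [h0, map_zero]
  refine ⟨fun i j => x (i, j), fun i j => hx (i, j), ?_⟩
  rw [← hFe]
  exact hgg _ (hc (fun i j => x (i, j))) hgx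

end Pool.MP_70e04f_ag.Hex

end

/-! ### from `Lib_MP_70e04f_hex.Slopes` -/

section

/-!
# The slopes of the row profile
-/

namespace Pool.MP_70e04f_ag.Hex

lemma T2_of_nonneg {x : ℤ} (h : 0 ≤ x) : T2 x = x * (x + 1) := if_pos h

lemma T2_of_neg_one {x : ℤ} (h : -1 ≤ x) : T2 x = x * (x + 1) := by
  unfold T2
  split_ifs with h1
  · rfl
  · have : x = -1 := by omega
    rw [this]; norm_num

lemma T2_of_nonpos {x : ℤ} (h : x ≤ 0) : T2 x = 0 := by
  unfold T2
  split_ifs with h1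
  · have : x = 0 := by omega
    rw [this]; norm_num
  · rfl

lemma T2_nonneg (x : ℤ) : 0 ≤ T2 x := by
  unfold T2
  split_ifs with h1
  · positivity
  · exact le_rfl

/-- The second difference of `T2`. -/
lemma T2_conv (x c : ℤ) (hc : 0 ≤ c) : 0 ≤ T2 x - 2 * T2 (x - c) + T2 (x - 2 * c) ∧
    T2 x - 2 * T2 (x - c) + T2 (x - 2 * c) ≤ 2 * c ^ 2 := by
  unfold T2
  split_ifs <;> constructor <;> nlinarith

/-- The second difference of `T2` is monotone: one step. -/
lemma T2_step (x c : ℤ) : T2 x - 2 * T2 (x - c) + T2 (x - 2 * c) ≤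
    T2 (x + 1) - 2 * T2 (x + 1 - c) + T2 (x + 1 - 2 * c) := by
  have key : ∀ y : ℤ, T2 (y + 1) - T2 y = 2 * max 0 (y + 1) := by
    intro y
    rcases le_or_gt 0 y with h | h
    · rw [T2_of_nonneg h, T2_of_nonneg (by omega), max_eq_right (by omega)]; ring
    · rw [T2_of_nonpos (show y + 1 ≤ 0 by omega), T2_of_nonpos (by omega),
        max_eq_left (by omega)]; ring
  have h1 := key x
  have h2 := key (x - c)
  have h3 := key (x - 2 * c)
  rw [show x - c + 1 = x + 1 - c by ring] at h2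
  rw [show x - 2 * c + 1 = x + 1 - 2 * c by ring] at h3
  have h4 : 2 * max 0 (x + 1 - c) ≤ max 0 (x + 1) + max 0 (x + 1 - 2 * c) := by
    rcases le_or_gt 0 (x + 1 - c) with h | h
    · rw [max_eq_right h]
      have := le_max_right 0 (x + 1)
      have := le_max_right 0 (x + 1 - 2 * c)
      linarith
    · rw [max_eq_left h.le]
      have := le_max_left 0 (x + 1)
      have := le_max_left 0 (x + 1 - 2 * c)
      linarith
  linarith

lemma T2_mono (c : ℤ) : Monotone fun x : ℤ =>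
    T2 x - 2 * T2 (x - c) + T2 (x - 2 * c) :=
  monotone_int_of_le_succ fun x => T2_step x c

/-- The second difference of `F2`. -/
def S2 (k l A B g e : ℤ) : ℤ :=
  F2 A B g e - 2 * F2 (A - k) (B - l) (g - l) (e - l) +
    F2 (A - 2 * k) (B - 2 * l) (g - 2 * l) (e - 2 * l)

lemma S2_eq (k l A B g e : ℤ) : S2 k l A B g e = 4 * k * l -
    (T2 g - 2 * T2 (g - l) + T2 (g - 2 * l)) - (T2 e - 2 * T2 (e - l) + T2 (e - 2 * l)) +
    (T2 (g - 2 * l - (A - 2 * k) - 1) - 2 * T2 (g - 2 * l - (A - 2 * k) - 1 - (k - l)) +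
      T2 (g - 2 * l - (A - 2 * k) - 1 - 2 * (k - l))) +
    (T2 (e - 2 * l - (A - 2 * k) - 1) - 2 * T2 (e - 2 * l - (A - 2 * k) - 1 - (k - l)) +
      T2 (e - 2 * l - (A - 2 * k) - 1 - 2 * (k - l))) := by
  unfold S2 F2
  rw [show g - 2 * l - (A - 2 * k) - 1 - (k - l) = g - l - (A - k) - 1 by ring,
    show g - 2 * l - (A - 2 * k) - 1 - 2 * (k - l) = g - A - 1 by ring,
    show e - 2 * l - (A - 2 * k) - 1 - (k - l) = e - l - (A - k) - 1 by ring,
    show e - 2 * l - (A - 2 * k) - 1 - 2 * (k - l) = e - A - 1 by ring]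
  ring

/-- The slopes are at least `2 l (k - l)`. -/
lemma S2_ge (k l A B g e : ℤ) (hl : 0 ≤ l) (hlk : l ≤ k) : 4 * l * (k - l) ≤ S2 k l A B g e := by
  rw [S2_eq]
  have h1 := (T2_conv g l hl).2
  have h2 := (T2_conv e l hl).2
  have h3 := (T2_conv (g - 2 * l - (A - 2 * k) - 1) (k - l) (by omega)).1
  have h4 := (T2_conv (e - 2 * l - (A - 2 * k) - 1) (k - l) (by omega)).1
  nlinarith

/-- The slopes increase. -/
lemma S2_mono (k l A B g e : ℤ) (hl : 0 ≤ l) (hlk : l ≤ k) :
    S2 k l A B g e ≤ S2 k l (A - k) (B - l) (g - l) (e - l) := by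
  rw [S2_eq, S2_eq]
  have h1 := T2_mono l (show g - l ≤ g by omega)
  have h2 := T2_mono l (show e - l ≤ e by omega)
  have h3 := T2_mono (k - l) (show g - 2 * l - (A - 2 * k) - 1 ≤
    g - l - 2 * l - (A - k - 2 * k) - 1 by omega)
  have h4 := T2_mono (k - l) (show e - 2 * l - (A - 2 * k) - 1 ≤
    e - l - 2 * l - (A - k - 2 * k) - 1 by omega)
  simp only at h1 h2 h3 h4
  linarith

lemma T2_monotone {x y : ℤ} (h : x ≤ y) : T2 x ≤ T2 y := by
  rcases le_or_gt 0 x with h1 | h1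
  · rw [T2_of_nonneg h1, T2_of_nonneg (by omega)]
    nlinarith
  · rw [T2_of_nonpos h1.le]
    exact T2_nonneg y

lemma F2_symm (A B g e : ℤ) : F2 A B g e = F2 A B e g := by
  unfold F2
  ring

/-- The end slope, a far corner. -/
lemma end_slopeA_far (p X Y g e : ℤ) (hp : 0 ≤ p) (hX1 : 1 ≤ X) (hX2 : X ≤ 2 * p + 1)
    (hY : X + p ≤ Y) (hYe : e ≤ Y) (hge : g + e ≤ X - 1) (he : X < e) :
    4 * p * (p + 1) ≤ F2 (X - 1 + (2 * p + 1)) (Y - 1 + (p + 1)) (g + (p + 1)) (e + (p + 1)) -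
      2 * F2 (X - 1) (Y - 1) g e := by
  obtain ⟨z, rfl⟩ : ∃ z, e = X + z := ⟨e - X, by ring⟩
  have hz : 1 ≤ z := by omega
  have h1 : T2 g = 0 := T2_of_nonpos (by omega)
  have h2 : T2 (g - (X - 1) - 1) = 0 := T2_of_nonpos (by omega)
  have h3 := T2_nonneg (g + (p + 1) - (X - 1 + (2 * p + 1)) - 1)
  have h4 : T2 (g + (p + 1)) ≤ T2 (p - z) := T2_monotone (by omega)
  have h5 : T2 (X + z + (p + 1)) = (X + z + (p + 1)) * (X + z + (p + 1) + 1) :=
    T2_of_nonneg (by omega)
  have h6 : T2 (X + z) = (X + z) * (X + z + 1) := T2_of_nonneg (by omega)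
  have h7 : T2 (X + z - (X - 1) - 1) = z * (z + 1) := by
    rw [show X + z - (X - 1) - 1 = z by ring]; exact T2_of_nonneg (by omega)
  have h8 : T2 (X + z + (p + 1) - (X - 1 + (2 * p + 1)) - 1) = T2 (z - p) := by
    congr 1; ring
  unfold F2
  rw [h1, h2, h5, h6, h7, h8]
  rcases le_or_gt z p with hzp | hzp
  · have h9 : T2 (p - z) = (p - z) * (p - z + 1) := T2_of_nonneg (by omega)
    have h10 : T2 (z - p) = 0 := T2_of_nonpos (by omega)
    rw [h9] at h4
    rw [h10]
    have h11 : (2 * p + 1 - X) * (X + p) ≤ (2 * p + 1 - X) * Y :=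
      mul_le_mul_of_nonneg_left hY (by omega)
    have h12 : 0 ≤ z * (X - 1) := mul_nonneg (by omega) (by omega)
    have h13 : 0 ≤ (p - z) * (p + z) := mul_nonneg (by omega) (by omega)
    have h14 : 0 ≤ X * (2 * p + 1 - X) := mul_nonneg (by omega) (by omega)
    nlinarith
  · have h9 : T2 (p - z) = 0 := T2_of_nonpos (by omega)
    have h10 : T2 (z - p) = (z - p) * (z - p + 1) := T2_of_nonneg (by omega)
    rw [h9] at h4
    rw [h10]
    have h11 : (2 * p + 1 - X) * (X + z) ≤ (2 * p + 1 - X) * Y :=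
      mul_le_mul_of_nonneg_left hYe (by omega)
    have h14 : 0 ≤ X * (2 * p + 1 - X) := mul_nonneg (by omega) (by omega)
    have h15 : 0 ≤ (p + 1) * (X - 1) := mul_nonneg (by omega) (by omega)
    nlinarith

/-- The end slope. -/
lemma end_slopeA (p X Y g e : ℤ) (hp : 0 ≤ p) (hX1 : 1 ≤ X) (hX2 : X ≤ 2 * p + 1)
    (hY : X + p ≤ Y) (hYg : g ≤ Y) (hYe : e ≤ Y) (hge : g + e ≤ X - 1) :
    4 * p * (p + 1) ≤ F2 (X - 1 + (2 * p + 1)) (Y - 1 + (p + 1)) (g + (p + 1)) (e + (p + 1)) -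
      2 * F2 (X - 1) (Y - 1) g e := by
  rcases lt_or_ge X e with he | he
  · exact end_slopeA_far p X Y g e hp hX1 hX2 hY hYe hge he
  rcases lt_or_ge X g with hg | hg
  · rw [F2_symm _ _ (g + (p + 1)), F2_symm _ _ g]
    exact end_slopeA_far p X Y e g hp hX1 hX2 hY hYg (by omega) hg
  have key : ∀ x : ℤ, x ≤ X → -(2 * (p + 1) ^ 2) ≤ -T2 (x + (p + 1)) + 2 * T2 x := by
    intro x _
    have h1 := (T2_conv (x + (p + 1)) (p + 1) (by omega)).2
    have h2 := T2_nonneg (x + (p + 1) - 2 * (p + 1))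
    rw [show x + (p + 1) - (p + 1) = x by ring] at h1
    linarith
  have h1 := key g hg
  have h2 := key e he
  have h3 : T2 (g - (X - 1) - 1) = 0 := T2_of_nonpos (by omega)
  have h4 : T2 (e - (X - 1) - 1) = 0 := T2_of_nonpos (by omega)
  have h5 := T2_nonneg (g + (p + 1) - (X - 1 + (2 * p + 1)) - 1)
  have h6 := T2_nonneg (e + (p + 1) - (X - 1 + (2 * p + 1)) - 1)
  have h7 : (2 * p + 1 - X) * (X + p) ≤ (2 * p + 1 - X) * Y :=
    mul_le_mul_of_nonneg_left hY (by omega)
  have h8 : 0 ≤ (X - 1) * (2 * p + 1 - X) := mul_nonneg (by omega) (by omega)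
  unfold F2
  rw [h3, h4]
  nlinarith

end Pool.MP_70e04f_ag.Hex

end

/-! ### from `Lib_MP_70e04f_hex.SlopesL` -/

section

/-!
# The slopes of the row profile for the curve `y = x ^ k`
-/

namespace Pool.MP_70e04f_ag.Hex

/-- The expansion of the end slope. -/
lemma endL_eq (k X Y w g : ℤ) (hk : 1 ≤ k) (hX1 : 1 ≤ X) (hw : k - 1 ≤ w) :
    F2 (X - 1 + k) (Y - 1 + w + 1) (g + 1) (X - 1 + w + 1) -
      2 * F2 (X - 1) (Y - 1 + w) g (X - 1 + w) =
    2 * (k - X) * Y + X ^ 2 - X + k ^ 2 + k +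
      (-T2 (g + 1) + 2 * T2 g + T2 (g + 1 - X - k) - 2 * T2 (g - X)) := by
  have h1 : T2 (X - 1 + w + 1) = (X - 1 + w + 1) * (X - 1 + w + 1 + 1) :=
    T2_of_nonneg (by omega)
  have h2 : T2 (X - 1 + w) = (X - 1 + w) * (X - 1 + w + 1) := T2_of_nonneg (by omega)
  have h3 : T2 (X - 1 + w + 1 - (X - 1 + k) - 1) = (w - k) * (w - k + 1) := by
    rw [show X - 1 + w + 1 - (X - 1 + k) - 1 = w - k by ring]
    exact T2_of_neg_one (by omega)
  have h4 : T2 (X - 1 + w - (X - 1) - 1) = (w - 1) * (w - 1 + 1) := by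
    rw [show X - 1 + w - (X - 1) - 1 = w - 1 by ring]
    exact T2_of_neg_one (by omega)
  have h5 : T2 (g + 1 - (X - 1 + k) - 1) = T2 (g + 1 - X - k) := by congr 1; ring
  have h6 : T2 (g - (X - 1) - 1) = T2 (g - X) := by congr 1; ring
  unfold F2
  rw [h1, h2, h3, h4, h5, h6]
  ring

/-- The end slope. -/
lemma end_slopeL (k X Y w g : ℤ) (hk : 1 ≤ k) (hX1 : 1 ≤ X) (hX2 : X ≤ k) (hw : k - 1 ≤ w)
    (hY : X ≤ Y) (hYg : g + X + 1 ≤ Y) :
    k ^ 2 + k - 2 ≤ F2 (X - 1 + k) (Y - 1 + w + 1) (g + 1) (X - 1 + w + 1) -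
      2 * F2 (X - 1) (Y - 1 + w) g (X - 1 + w) ∧
    (X = k → 2 * k ^ 2 - 2 ≤ F2 (X - 1 + k) (Y - 1 + w + 1) (g + 1) (X - 1 + w + 1) -
      2 * F2 (X - 1) (Y - 1 + w) g (X - 1 + w)) ∧
    (X = k → g < 0 → 2 * k ^ 2 ≤ F2 (X - 1 + k) (Y - 1 + w + 1) (g + 1) (X - 1 + w + 1) -
      2 * F2 (X - 1) (Y - 1 + w) g (X - 1 + w)) := by
  rw [endL_eq k X Y w g hk hX1 hw]
  have a1 : 0 ≤ (k - X) * (Y - X) := mul_nonneg (by omega) (by omega)
  have a2 : 0 ≤ (k - X) * (Y - (g + X + 1)) := mul_nonneg (by omega) (by omega)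
  have a3 : 0 ≤ (k - X) * (X - 1) := mul_nonneg (by omega) (by omega)
  have a4 : 0 ≤ (X - 1) * X := mul_nonneg (by omega) (by omega)
  have a5 : 0 ≤ (k - 1) * k := mul_nonneg (by omega) (by omega)
  rcases lt_or_ge g 0 with hg | hg
  · rw [T2_of_nonpos (show g + 1 ≤ 0 by omega), T2_of_nonpos hg.le,
      T2_of_nonpos (show g + 1 - X - k ≤ 0 by omega), T2_of_nonpos (show g - X ≤ 0 by omega)]
    refine ⟨by nlinarith, ?_, ?_⟩
    · rintro rfl; nlinarith
    · rintro rfl _; nlinarith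
  rw [T2_of_nonneg (show 0 ≤ g + 1 by omega), T2_of_nonneg hg]
  refine ⟨?_, ?_, fun _ h => absurd h (by omega)⟩
  · rcases le_or_gt g X with h1 | h1
    · rw [T2_of_nonpos (show g + 1 - X - k ≤ 0 by omega), T2_of_nonpos (show g - X ≤ 0 by omega)]
      have : 0 ≤ g * (g + 1) := mul_nonneg hg (by omega)
      nlinarith
    · rw [T2_of_nonneg (show 0 ≤ g - X by omega)]
      obtain ⟨z, rfl⟩ : ∃ z, g = X + z := ⟨g - X, by ring⟩
      rcases le_or_gt (z + 1) k with h2 | h2
      · rw [T2_of_nonpos (show X + z + 1 - X - k ≤ 0 by omega)]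
        have b1 : 0 ≤ z * (k - 1 - z) := mul_nonneg (by omega) (by omega)
        have b2 : 0 ≤ z * (k - 1) := mul_nonneg (by omega) (by omega)
        nlinarith
      · rw [T2_of_nonneg (show 0 ≤ X + z + 1 - X - k by omega)]
        nlinarith
  · rintro rfl
    rcases le_or_gt g X with h1 | h1
    · rw [T2_of_nonpos (show g + 1 - X - X ≤ 0 by omega), T2_of_nonpos (show g - X ≤ 0 by omega)]
      have : 0 ≤ g * (g - 1) := by
        rcases lt_or_ge g 1 with h | h
        · have : g = 0 := by omega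
          rw [this]; norm_num
        · exact mul_nonneg hg (by omega)
      nlinarith
    · rw [T2_of_nonneg (show 0 ≤ g - X by omega)]
      obtain ⟨z, rfl⟩ : ∃ z, g = X + z := ⟨g - X, by ring⟩
      rcases le_or_gt (z + 1) X with h2 | h2
      · rw [T2_of_nonpos (show X + z + 1 - X - X ≤ 0 by omega)]
        have b1 : 0 ≤ z * (X - 1 - z) := mul_nonneg (by omega) (by omega)
        have b2 : 0 ≤ z * (X - 1) := mul_nonneg (by omega) (by omega)
        nlinarith
      · rw [T2_of_nonneg (show 0 ≤ X + z + 1 - X - X by omega)]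
        nlinarith

/-- The last row when it is complete. -/
lemma lastL (X Y w g : ℤ) (hX1 : 1 ≤ X) (hw : 0 ≤ w)
    (hY : X ≤ Y) (hYg : g + X + 1 ≤ Y) :
    X * (X + 1) ≤ F2 (X - 1) (Y - 1 + w) g (X - 1 + w) := by
  have h2 : T2 (X - 1 + w) = (X - 1 + w) * (X - 1 + w + 1) := T2_of_nonneg (by omega)
  have h4 : T2 (X - 1 + w - (X - 1) - 1) = (w - 1) * (w - 1 + 1) := by
    rw [show X - 1 + w - (X - 1) - 1 = w - 1 by ring]
    exact T2_of_neg_one (by omega)
  have h6 : T2 (g - (X - 1) - 1) = T2 (g - X) := by congr 1; ring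
  unfold F2
  rw [h2, h4, h6]
  rcases lt_or_ge g 0 with hg | hg
  · rw [T2_of_nonpos hg.le, T2_of_nonpos (show g - X ≤ 0 by omega)]
    nlinarith
  · rw [T2_of_nonneg hg]
    rcases le_or_gt g X with h1 | h1
    · rw [T2_of_nonpos (show g - X ≤ 0 by omega)]
      have : 0 ≤ g * (X - g) := mul_nonneg hg (by omega)
      nlinarith
    · rw [T2_of_nonneg (show 0 ≤ g - X by omega)]
      nlinarith

/-- The middle slopes. -/
lemma midL (k A B g j : ℤ) (hk : 1 ≤ k) (hj : 0 ≤ j) :
    2 * k ^ 2 - 2 ≤ S2 k 1 (A - j * k) (B - j) (g - j) (A - j) ∧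
      (g - j ≤ 0 → 2 * k ^ 2 ≤ S2 k 1 (A - j * k) (B - j) (g - j) (A - j)) := by
  rw [S2_eq]
  have hjk : 0 ≤ j * (k - 1) := mul_nonneg hj (by omega)
  have e1 : A - j - 2 * 1 - (A - j * k - 2 * k) - 1 = (j + 2) * (k - 1) - 1 := by ring
  have h1 : T2 (A - j - 2 * 1 - (A - j * k - 2 * k) - 1) -
      2 * T2 (A - j - 2 * 1 - (A - j * k - 2 * k) - 1 - (k - 1)) +
      T2 (A - j - 2 * 1 - (A - j * k - 2 * k) - 1 - 2 * (k - 1)) = 2 * (k - 1) ^ 2 := by
    rw [e1, T2_of_neg_one (show -1 ≤ (j + 2) * (k - 1) - 1 by nlinarith),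
      T2_of_neg_one (show -1 ≤ (j + 2) * (k - 1) - 1 - (k - 1) by nlinarith),
      T2_of_neg_one (show -1 ≤ (j + 2) * (k - 1) - 1 - 2 * (k - 1) by nlinarith)]
    ring
  have h2 := (T2_conv (g - j - 2 * 1 - (A - j * k - 2 * k) - 1) (k - 1) (by omega)).1
  have h3 := (T2_conv (A - j) 1 (by norm_num)).2
  have h4 := (T2_conv (g - j) 1 (by norm_num)).2
  rw [h1]
  refine ⟨by nlinarith, fun hg => ?_⟩
  rw [T2_of_nonpos hg, T2_of_nonpos (show g - j - 1 ≤ 0 by omega),
    T2_of_nonpos (show g - j - 2 * 1 ≤ 0 by omega)]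
  nlinarith

end Pool.MP_70e04f_ag.Hex

end

/-! ### from `Lib_MP_70e04f_hex.Cut` -/

section

/-!
# A point at the origin, and change of the index set (piece CUT)

PAPER PROOF of `OK.cut`. Let `p` be good for `P \ tri μ` and put `p' none = ![0, 0]`,
`p' (some i) = p i`. If `v ∈ ker (condP P _ p')` then the conditions at `none` say
`v (α, β) = 0` for `(α, β) ∈ tri μ` (since `ec 0 0 a b α β = 1` if `(a, b) = (α, β)`, else `0`;
note `tri μ ⊆ P`). So the restriction map `ker (condP P _ p') → ker (condP (P \ tri μ) m p)` is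
injective, hence `finrank ≤ card (P \ tri μ) - ∑ card (tri (m i))`, and
`card (P \ tri μ) = card P - card (tri μ)`, `card (Σ o : Option ι, tri ..) =
card (tri μ) + card (Σ i, tri (m i))`.

PAPER PROOF of `OK.restrict`. Take the points `p ∘ f`. A vector `v` satisfies the conditions for
`(m, p ∘ f)` iff it satisfies those for `(m', p)`, because `tri 0 = ∅`. The cardinalities agree.
-/

namespace Pool.MP_70e04f_ag.Hex

lemma ec_zero_zero (a b α β : ℕ) :
    ec (0 : ℝ) 0 a b α β = if a = α ∧ b = β then 1 else 0 := by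
  unfold ec
  rw [map_zero, add_zero, Polynomial.coeff_X_pow, Polynomial.coeff_X_pow]
  by_cases h1 : α = a
  · by_cases h2 : β = b
    · subst h1 h2
      simp
    · have h3 : ¬ (a = α ∧ b = β) := fun h => h2 h.2.symm
      rw [if_neg h2, if_neg h3, mul_zero]
  · have h3 : ¬ (a = α ∧ b = β) := fun h => h1 h.1.symm
    rw [if_neg h1, if_neg h3, zero_mul]

/-- Adding a point at the origin. -/
theorem OK.cut {ι : Type*} [Fintype ι] {P : Finset (ℕ × ℕ)} {μ : ℕ} (hμ : tri μ ⊆ P)
    {m : ι → ℕ} (h : OK (P \ tri μ) m) : OK P (fun o : Option ι => o.elim μ m) := by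
  classical
  obtain ⟨p, hp⟩ := h
  set p' : Option ι → Fin 2 → ℝ := fun o j => o.elim 0 (fun i => p i j) with hp'
  refine ⟨p', ?_⟩
  set A : Matrix (Σ i : ι, ↥(tri (m i))) ↥(P \ tri μ) ℝ := condP (P \ tri μ) m p with hA
  set A' : Matrix (Σ o : Option ι, ↥(tri (o.elim μ m))) ↥P ℝ :=
    condP P (fun o : Option ι => o.elim μ m) p' with hA'
  -- the conditions at the origin
  have hnone : ∀ v : ↥P → ℝ, v ∈ LinearMap.ker A'.mulVecLin →
      ∀ q : ↥P, q.1 ∈ tri μ → v q = 0 := by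
    intro v hv q hq
    have h1 : A'.mulVec v = 0 := hv
    have h2 := congrFun h1 ⟨none, ⟨q.1, hq⟩⟩
    have h3 : A'.mulVec v ⟨none, ⟨q.1, hq⟩⟩ = v q := by
      show ∑ q' : ↥P, ec (0 : ℝ) 0 q'.1.1 q'.1.2 q.1.1 q.1.2 * v q' = v q
      rw [Finset.sum_eq_single q]
      · rw [ec_zero_zero, if_pos ⟨rfl, rfl⟩, one_mul]
      · intro q' _ hne
        rw [ec_zero_zero, if_neg, zero_mul]
        rintro ⟨h4, h5⟩
        exact hne (Subtype.ext (Prod.ext h4 h5))
      · intro h4
        exact absurd (Finset.mem_univ q) h4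
    rw [h3] at h2
    exact h2
  have hsub : ∀ q : ↥(P \ tri μ), q.1 ∈ P := fun q => (Finset.mem_sdiff.mp q.2).1
  have hker : ∀ v : ↥P → ℝ, v ∈ LinearMap.ker A'.mulVecLin →
      (fun q : ↥(P \ tri μ) => v ⟨q.1, hsub q⟩) ∈ LinearMap.ker A.mulVecLin := by
    intro v hv
    show A.mulVec (fun q : ↥(P \ tri μ) => v ⟨q.1, hsub q⟩) = 0
    funext c
    have h1 : A'.mulVec v = 0 := hv
    have h2 : A'.mulVec v ⟨some c.1, c.2⟩ = 0 := congrFun h1 ⟨some c.1, c.2⟩
    show A.mulVec (fun q : ↥(P \ tri μ) => v ⟨q.1, hsub q⟩) c = 0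
    rw [← h2]
    show ∑ q : ↥(P \ tri μ), ec (p c.1 0) (p c.1 1) q.1.1 q.1.2 c.2.1.1 c.2.1.2 *
        v ⟨q.1, hsub q⟩ =
      ∑ q : ↥P, ec (p c.1 0) (p c.1 1) q.1.1 q.1.2 c.2.1.1 c.2.1.2 * v q
    let φ : ↥(P \ tri μ) → ↥P := fun q => ⟨q.1, hsub q⟩
    have hφ : Function.Injective φ := by
      intro q q' hqq
      exact Subtype.ext (congrArg (fun z : ↥P => z.1) hqq)
    apply Fintype.sum_of_injective φ hφ
    · intro q hq
      have h4 : q.1 ∈ tri μ := by
        by_contra h5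
        exact hq ⟨⟨q.1, Finset.mem_sdiff.mpr ⟨q.2, h5⟩⟩, rfl⟩
      rw [hnone v hv q h4, mul_zero]
    · intro q
      rfl
  let f : LinearMap.ker A'.mulVecLin →ₗ[ℝ] LinearMap.ker A.mulVecLin :=
    { toFun := fun v => ⟨fun q => v.1 ⟨q.1, hsub q⟩, hker v.1 v.2⟩
      map_add' := fun _ _ => rfl
      map_smul' := fun _ _ => rfl }
  have hf : Function.Injective f := by
    intro v w hvw
    apply Subtype.ext
    funext q
    by_cases hq : q.1 ∈ tri μ
    · rw [hnone v.1 v.2 q hq, hnone w.1 w.2 q hq]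
    · exact congrFun (congrArg (fun z : LinearMap.ker A.mulVecLin => z.1) hvw)
        ⟨q.1, Finset.mem_sdiff.mpr ⟨q.2, hq⟩⟩
  have h1 := LinearMap.finrank_le_finrank_of_injective hf
  have h2 : Module.finrank ℝ (LinearMap.ker A.mulVecLin) ≤
      Fintype.card ↥(P \ tri μ) - Fintype.card (Σ i : ι, ↥(tri (m i))) := hp
  have h3 : Fintype.card ↥(P \ tri μ) = Fintype.card ↥P - (tri μ).card := by
    rw [Fintype.card_coe, Fintype.card_coe, Finset.card_sdiff_of_subset hμ]
  have h4 : Fintype.card (Σ o : Option ι, ↥(tri (o.elim μ m))) =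
      (tri μ).card + Fintype.card (Σ i : ι, ↥(tri (m i))) := by
    rw [Fintype.card_sigma, Fintype.card_sigma, Fintype.sum_option]
    congr 1
    exact Fintype.card_coe _
  show Module.finrank ℝ (LinearMap.ker A'.mulVecLin) ≤
    Fintype.card ↥P - Fintype.card (Σ o : Option ι, ↥(tri (o.elim μ m)))
  omega

/-- Leaving out points of multiplicity `0`, and renaming the points. -/
theorem OK.restrict {ι κ : Type*} [Fintype ι] [Fintype κ] (f : ι → κ) (hf : Function.Injective f)
    {P : Finset (ℕ × ℕ)} {m : ι → ℕ} {m' : κ → ℕ} (hm : ∀ i, m' (f i) = m i)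
    (h0 : ∀ j, j ∉ Set.range f → m' j = 0) (h : OK P m') : OK P m := by
  classical
  obtain ⟨p, hp⟩ := h
  refine ⟨fun i => p (f i), ?_⟩
  have h1 : LinearMap.ker (condP P m (fun i => p (f i))).mulVecLin ≤
      LinearMap.ker (condP P m' p).mulVecLin := by
    intro v hv
    show (condP P m' p).mulVec v = 0
    have hv' : (condP P m (fun i => p (f i))).mulVec v = 0 := hv
    funext c
    obtain ⟨j, ab, hab⟩ := c
    by_cases hj : j ∈ Set.range f
    · obtain ⟨i, rfl⟩ := hj
      have hab' : ab ∈ tri (m i) := by rw [← hm i]; exact hab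
      exact congrFun hv' ⟨i, ⟨ab, hab'⟩⟩
    · exfalso
      rw [h0 j hj, mem_tri] at hab
      exact Nat.not_lt_zero _ hab
  have h2 := Submodule.finrank_mono h1
  have h3 : Fintype.card (Σ i : ι, ↥(tri (m i))) = Fintype.card (Σ j : κ, ↥(tri (m' j))) := by
    rw [Fintype.card_sigma, Fintype.card_sigma]
    apply Fintype.sum_of_injective f hf
    · intro j hj
      rw [Fintype.card_coe, h0 j hj]
      rfl
    · intro i
      rw [Fintype.card_coe, Fintype.card_coe, hm i]
  unfold Good at hp ⊢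
  rw [h3]
  exact h2.trans hp

end Pool.MP_70e04f_ag.Hex

end

/-! ### from `Lib_MP_70e04f_nine.Orders` -/

section

/-!
# The orders of the elements of a finite dimensional space of power series (piece ORD)

PAPER PROOF. Let `U` be finite dimensional, `U n = {w ∈ U | n ≤ order w}` (the first `n`
coefficients vanish). Choose `n` with `finrank (U n)` minimal; if `U n` had a nonzero element, of
order `a`, then `U (a + 1) < U n` (it does not contain that element) would have smaller dimension.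
So `U n = ⊥` for some `n` and the map `T : U → (Fin n → ℝ)`, `w ↦` (the first `n` coefficients) is
injective. For `ω i = -i` on `Fin n`, `lead ω (range T)` is the set of orders of the nonzero
elements of `U`, and it has `finrank (range T) = finrank U` elements by `card_lead`
(`Lib_MP_70e04f_add/Lead.lean`). (`PowerSeries.order_eq_nat`, `PowerSeries.X_pow_dvd_iff`.)
`orders_add`: if the orders of two spaces are `A`, `B` and the products lie in a third space with
orders `S`, then `A + B ⊆ S` (`PowerSeries.order_mul`), and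
`card A + card B ≤ card (A + B) + 1 ≤ card S + 1` if `A`, `B` are not empty
(`cauchy_davenport_add_of_linearOrder_isCancelAdd`, see `card_step` in
`Lib_MP_70e04f_add/Rows.lean`).
-/

namespace Pool.MP_70e04f_ag.Nine

open Pool.MP_70e04f_ag.Add

/-- The first coefficients. -/
noncomputable def firstC (U : Submodule ℝ (PowerSeries ℝ)) (n : ℕ) : U →ₗ[ℝ] (Fin n → ℝ) :=
  LinearMap.pi fun i => (PowerSeries.coeff (R := ℝ) (i : ℕ)).comp U.subtype

lemma firstC_apply (U : Submodule ℝ (PowerSeries ℝ)) (n : ℕ) (w : U) (i : Fin n) :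
    firstC U n w i = PowerSeries.coeff (i : ℕ) (w : PowerSeries ℝ) := rfl

lemma firstC_mem_ker (U : Submodule ℝ (PowerSeries ℝ)) (n : ℕ) (w : U) :
    w ∈ LinearMap.ker (firstC U n) ↔
      ∀ i : ℕ, i < n → PowerSeries.coeff i (w : PowerSeries ℝ) = 0 := by
  rw [LinearMap.mem_ker]
  constructor
  · intro h i hi
    have := congrFun h ⟨i, hi⟩
    exact this
  · intro h
    funext i
    exact h i i.2

lemma exists_firstC_injective (U : Submodule ℝ (PowerSeries ℝ)) [Module.Finite ℝ U] :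
    ∃ n : ℕ, Function.Injective (firstC U n) := by
  classical
  obtain ⟨n, hn⟩ : ∃ n : ℕ, ∀ m : ℕ,
      Module.finrank ℝ (LinearMap.ker (firstC U n)) ≤
        Module.finrank ℝ (LinearMap.ker (firstC U m)) := by
    refine ⟨Function.argmin (fun n => Module.finrank ℝ (LinearMap.ker (firstC U n))), fun m => ?_⟩
    exact Function.argmin_le (fun n => Module.finrank ℝ (LinearMap.ker (firstC U n))) m
  refine ⟨n, ?_⟩
  rw [← LinearMap.ker_eq_bot, LinearMap.ker_eq_bot']
  intro w hw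
  by_contra hne
  have hw0 : (w : PowerSeries ℝ) ≠ 0 := fun h => hne (Subtype.ext h)
  obtain ⟨a, ha⟩ : ∃ a : ℕ, PowerSeries.coeff a (w : PowerSeries ℝ) ≠ 0 := by
    by_contra hcon
    push Not at hcon
    apply hw0
    ext a
    simpa using hcon a
  have hlt : LinearMap.ker (firstC U (max n (a + 1))) < LinearMap.ker (firstC U n) := by
    rw [SetLike.lt_iff_le_and_exists]
    refine ⟨?_, w, hw, ?_⟩
    · intro v hv
      rw [firstC_mem_ker] at hv ⊢
      exact fun i hi => hv i (lt_of_lt_of_le hi (le_max_left _ _))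
    · intro h
      rw [firstC_mem_ker] at h
      exact ha (h a (lt_of_lt_of_le (Nat.lt_succ_self a) (le_max_right _ _)))
  have h1 := Submodule.finrank_lt_finrank_of_lt hlt
  exact absurd (hn (max n (a + 1))) (not_le.mpr h1)

/-- The set of the orders of the nonzero elements of a space of power series. -/
theorem exists_orders (U : Submodule ℝ (PowerSeries ℝ)) [Module.Finite ℝ U] :
    ∃ A : Finset ℕ, A.card = Module.finrank ℝ U ∧
      ∀ a : ℕ, a ∈ A ↔ ∃ w ∈ U, PowerSeries.order w = (a : ℕ∞) := by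
  classical
  obtain ⟨n, hn⟩ := exists_firstC_injective U
  set ω : Fin n → ℤ := fun i => -((i : ℕ) : ℤ) with hω
  have hωi : Function.Injective ω := by
    intro i j hij
    apply Fin.ext
    simp only [hω] at hij
    omega
  refine ⟨(lead ω (LinearMap.range (firstC U n))).map Fin.valEmbedding, ?_, ?_⟩
  · rw [Finset.card_map, card_lead ω hωi, LinearMap.finrank_range_of_inj hn]
  · intro a
    rw [Finset.mem_map]
    constructor
    · rintro ⟨q, hq, rfl⟩
      obtain ⟨v, ⟨w, rfl⟩, h0, hz⟩ := mem_lead.mp hq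
      refine ⟨w, w.2, ?_⟩
      change PowerSeries.order (w : PowerSeries ℝ) = ((q : ℕ) : ℕ∞)
      rw [PowerSeries.order_eq_nat]
      refine ⟨h0, fun i hi => ?_⟩
      exact hz ⟨i, hi.trans q.2⟩ (by simp only [hω]; omega)
    · rintro ⟨w, hw, ho⟩
      rw [PowerSeries.order_eq_nat] at ho
      have han : a < n := by
        by_contra hna
        have h1 : (⟨w, hw⟩ : U) ∈ LinearMap.ker (firstC U n) := by
          rw [firstC_mem_ker]
          exact fun i hi => ho.2 i (by omega)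
        rw [LinearMap.ker_eq_bot.mpr hn] at h1
        have h2 : (⟨w, hw⟩ : U) = 0 := (Submodule.mem_bot ℝ).mp h1
        have h3 : w = 0 := congrArg Subtype.val h2
        apply ho.1
        rw [h3, map_zero]
      refine ⟨⟨a, han⟩, ?_, rfl⟩
      refine mem_lead.mpr ⟨firstC U n ⟨w, hw⟩, ⟨_, rfl⟩, ho.1, ?_⟩
      intro r hr
      simp only [hω] at hr
      exact ho.2 r (by omega)

open Pointwise in
/-- The orders of products. -/
theorem orders_add {U V W : Submodule ℝ (PowerSeries ℝ)} {A B S : Finset ℕ}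
    (hA : ∀ a : ℕ, a ∈ A ↔ ∃ w ∈ U, PowerSeries.order w = (a : ℕ∞))
    (hB : ∀ a : ℕ, a ∈ B ↔ ∃ w ∈ V, PowerSeries.order w = (a : ℕ∞))
    (hS : ∀ a : ℕ, a ∈ S ↔ ∃ w ∈ W, PowerSeries.order w = (a : ℕ∞))
    (hUV : ∀ u ∈ U, ∀ v ∈ V, u * v ∈ W) (h1 : 1 ≤ A.card) (h2 : 1 ≤ B.card) :
    A.card + B.card ≤ S.card + 1 := by
  classical
  have hAne : A.Nonempty := Finset.card_pos.1 h1
  have hBne : B.Nonempty := Finset.card_pos.1 h2
  have h3 := cauchy_davenport_add_of_linearOrder_isCancelAdd hAne hBne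
  have h4 : A + B ⊆ S := by
    intro x hx
    obtain ⟨a, ha, b, hb, rfl⟩ := Finset.mem_add.1 hx
    obtain ⟨u, hu, hu'⟩ := (hA a).1 ha
    obtain ⟨v, hv, hv'⟩ := (hB b).1 hb
    refine (hS (a + b)).2 ⟨u * v, hUV u hu v hv, ?_⟩
    rw [PowerSeries.order_mul, hu', hv']
    push_cast
    rfl
  have h5 := Finset.card_le_card h4
  omega

end Pool.MP_70e04f_ag.Nine

end

/-! ### from `Lib_MP_70e04f_nine.PhiA` -/

section

/-!
# The polynomial change of coordinates and initial monomials (piece PHIA)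

PAPER PROOFS. `phi_vanish`: `phi P lam η` maps the ideal of the point `phiPt P lam η p` into the
ideal of `p` because `eval p (phi P lam η F) = eval (phiPt P lam η p) F` (compare on `C` and on the
variables), hence also the powers (`Ideal.map_pow`; compare `psi_mem_pow_aux` in
`Lib_MP_70e04f_add/Psi.lean`).

`InitMon.mul`: the coefficient of `mon a b` in `H * H'` is a sum over `(a1, b1) + (a2, b2) = (a, b)`
(`MvPolynomial.coeff_mul`); if `a + N0 b ≤` the weight of `q + q'` and both coefficients are not zero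
then the weights are at least, hence equal to, those of `q`, `q'`, so `(a1, b1) = q`,
`(a2, b2) = q'`.
-/

namespace Pool.MP_70e04f_ag.Nine

open MvPolynomial Pool.MP_70e04f_ag.Hex Pool.MP_70e04f_ag.Add

lemma phiA_eval (P : Fin 2 → ℝ) (lam : ℝ) (η : Polynomial ℝ) (p : Fin 2 → ℝ)
    (F : MvPolynomial (Fin 2) ℝ) :
    MvPolynomial.eval p (phi P lam η F) = MvPolynomial.eval (phiPt P lam η p) F := by
  have hη : (aeval p : MvPolynomial (Fin 2) ℝ →ₐ[ℝ] ℝ)
      (Polynomial.aeval (X 0 : MvPolynomial (Fin 2) ℝ) η) = η.eval (p 0) := by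
    rw [← Polynomial.aeval_algHom_apply, aeval_X, Polynomial.coe_aeval_eq_eval]
  have h : ((aeval p : MvPolynomial (Fin 2) ℝ →ₐ[ℝ] ℝ)).comp (phi P lam η) =
      aeval (phiPt P lam η p) := by
    apply MvPolynomial.algHom_ext
    intro i
    fin_cases i
    · show aeval p (phi P lam η (X 0)) = aeval (phiPt P lam η p) (X 0)
      unfold phi phiPt
      rw [aeval_X, aeval_X]
      simp only [Matrix.cons_val_zero, map_add, map_mul, hη, aeval_X, MvPolynomial.aeval_C,
        Algebra.algebraMap_self, RingHom.id_apply]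
    · show aeval p (phi P lam η (X 1)) = aeval (phiPt P lam η p) (X 1)
      unfold phi phiPt
      rw [aeval_X, aeval_X]
      show aeval p (C (P 1) + (Polynomial.aeval (X 0) η + X 1)) = P 1 + (η.eval (p 0) + p 1)
      simp only [map_add, hη, aeval_X, MvPolynomial.aeval_C,
        Algebra.algebraMap_self, RingHom.id_apply]
  have h2 := DFunLike.congr_fun h F
  rw [← MvPolynomial.coe_aeval_eq_eval, ← MvPolynomial.coe_aeval_eq_eval]
  exact h2

theorem phi_vanish {P : Fin 2 → ℝ} {lam : ℝ} {η : Polynomial ℝ} {p : Fin 2 → ℝ} {m : ℕ}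
    {F : MvPolynomial (Fin 2) ℝ} (h : F ∈ pt (phiPt P lam η p) ^ m) :
    phi P lam η F ∈ pt p ^ m := by
  refine psi_mem_pow_aux (f := phi P lam η) ?_ m h
  intro G hG
  rw [RingHom.mem_ker] at hG ⊢
  rw [phiA_eval, hG]

theorem InitMon.mul {N0 : ℕ} {q q' : ℕ × ℕ} {H H' : MvPolynomial (Fin 2) ℝ}
    (h : InitMon N0 q H) (h' : InitMon N0 q' H') :
    InitMon N0 (q.1 + q'.1, q.2 + q'.2) (H * H') := by
  classical
  have key : ∀ a b : ℕ, a + N0 * b ≤ (q.1 + q'.1) + N0 * (q.2 + q'.2) →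
      ∀ x ∈ Finset.HasAntidiagonal.antidiagonal (mon a b), coeff x.1 H * coeff x.2 H' ≠ 0 →
        x = (mon q.1 q.2, mon q'.1 q'.2) := by
    intro a b hab x hx hne
    rw [Finset.HasAntidiagonal.mem_antidiagonal] at hx
    have h1 : coeff x.1 H ≠ 0 := left_ne_zero_of_mul hne
    have h2 : coeff x.2 H' ≠ 0 := right_ne_zero_of_mul hne
    have e1 : x.1 = mon (x.1 0) (x.1 1) := (mon_eta x.1).symm
    have e2 : x.2 = mon (x.2 0) (x.2 1) := (mon_eta x.2).symm
    have s0 : x.1 0 + x.2 0 = a := by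
      have := DFunLike.congr_fun hx 0
      rw [Finsupp.add_apply, mon_zero'] at this
      exact this
    have s1 : x.1 1 + x.2 1 = b := by
      have := DFunLike.congr_fun hx 1
      rw [Finsupp.add_apply, mon_one'] at this
      exact this
    have hle : N0 * b = N0 * x.1 1 + N0 * x.2 1 := by rw [← s1, Nat.mul_add]
    have hle2 : N0 * (q.2 + q'.2) = N0 * q.2 + N0 * q'.2 := Nat.mul_add _ _ _
    by_cases c1 : ((x.1 0, x.1 1) : ℕ × ℕ) = q
    · by_cases c2 : ((x.2 0, x.2 1) : ℕ × ℕ) = q'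
      · apply Prod.ext
        · show x.1 = mon q.1 q.2
          rw [← c1]; exact e1
        · show x.2 = mon q'.1 q'.2
          rw [← c2]; exact e2
      · exfalso
        have w2 : ¬ (x.2 0 + N0 * x.2 1 ≤ q'.1 + N0 * q'.2) := by
          intro hc
          apply h2
          rw [e2]
          exact h'.2 _ _ c2 hc
        have : x.1 0 + N0 * x.1 1 = q.1 + N0 * q.2 := by rw [← c1]
        omega
    · exfalso
      have w1 : ¬ (x.1 0 + N0 * x.1 1 ≤ q.1 + N0 * q.2) := by
        intro hc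
        apply h1
        rw [e1]
        exact h.2 _ _ c1 hc
      have w2 : q'.1 + N0 * q'.2 ≤ x.2 0 + N0 * x.2 1 := by
        by_contra hc
        push Not at hc
        apply h2
        rw [e2]
        apply h'.2 _ _ _ hc.le
        intro hcc
        rw [← hcc] at hc
        exact lt_irrefl _ hc
      omega
  constructor
  · show coeff (mon (q.1 + q'.1) (q.2 + q'.2)) (H * H') ≠ 0
    rw [MvPolynomial.coeff_mul, Finset.sum_eq_single (mon q.1 q.2, mon q'.1 q'.2)]
    · exact mul_ne_zero h.1 h'.1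
    · intro x hx hne
      by_contra hc
      exact hne (key _ _ le_rfl x hx hc)
    · intro hc
      exfalso
      apply hc
      rw [Finset.HasAntidiagonal.mem_antidiagonal]
      ext i
      fin_cases i
      · show mon q.1 q.2 0 + mon q'.1 q'.2 0 = mon (q.1 + q'.1) (q.2 + q'.2) 0
        rw [mon_zero', mon_zero', mon_zero']
      · show mon q.1 q.2 1 + mon q'.1 q'.2 1 = mon (q.1 + q'.1) (q.2 + q'.2) 1
        rw [mon_one', mon_one', mon_one']
  · intro a b hne hab
    rw [MvPolynomial.coeff_mul]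
    apply Finset.sum_eq_zero
    intro x hx
    by_contra hc
    have hx2 := key a b hab x hx hc
    apply hne
    rw [Finset.HasAntidiagonal.mem_antidiagonal, hx2] at hx
    have s0 : q.1 + q'.1 = a := by
      have := DFunLike.congr_fun hx 0
      rw [Finsupp.add_apply, mon_zero', mon_zero', mon_zero'] at this
      exact this
    have s1 : q.2 + q'.2 = b := by
      have := DFunLike.congr_fun hx 1
      rw [Finsupp.add_apply, mon_one', mon_one', mon_one'] at this
      exact this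
    rw [s0, s1]

/-- Powers of the curve times a polynomial. -/
theorem InitMon.pow_mul {N0 a : ℕ} {H G : MvPolynomial (Fin 2) ℝ} (h : InitMon N0 (0, 1) H)
    (h' : InitMon N0 (a, 0) G) (j : ℕ) : InitMon N0 (a, j) (H ^ j * G) := by
  induction j with
  | zero => simpa using h'
  | succ j ih =>
    have h1 := h.mul ih
    rw [pow_succ, mul_comm (H ^ j), mul_assoc]
    simpa [add_comm] using h1

end Pool.MP_70e04f_ag.Nine

end
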