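import Pool.Agent.Lib_MP_70e04f_m.M05

/-!
# MP_70e04f_ag, plane linear systems: merged library part M08

Concatenation of smaller files (each in its own section), only to save build time.
-/

namespace Pool.MP_70e04f_ag.Hex
end Pool.MP_70e04f_ag.Hex

namespace Pool.MP_70e04f_ag.Add
end Pool.MP_70e04f_ag.Add

namespace Pool.MP_70e04f_ag.Nine
end Pool.MP_70e04f_ag.Nine

/-! ### from `Lib_MP_70e04f_add.CubA` -/

section

/-!
# Restriction to the cuspidal cubic (piece CUBA)

PAPER PROOF. `cub F = F (X ^ 2, X ^ 3)`. A monomial `x ^ a y ^ b` with `a + b < N` goes to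
`X ^ (2 a + 3 b)`, and `2 a + 3 b ≤ 3 (N - 1)`, `2 a + 3 b ≠ 1`; so the support of `cub F` has at
most `3 (N - 1)` elements (`N ≥ 2`). The homomorphism `cub` maps the ideal of the point
`(t ^ 2, t ^ 3)` into the ideal `(X - t)`, hence its `m`-th power into `((X - t) ^ m)`. So the
image `W` of `Lsys N m (cpt e)` consists of polynomials with support in a set of `3 (N - 1)`
exponents and divisible by `∏ (X - e t) ^ m t`. Choose `y > 0` different from all `e t` and
`s = 3 (N - 1) - ∑ m t`: an element of `W` divisible moreover by `(X - y) ^ s` is zero by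
`descartes` (or `row_zero` in `Lib_MP_70e04f_ag/Cert.lean`). So `W` is embedded in `ℝ ^ s`
by the Taylor coefficients at `y`: `finrank W ≤ s`.
-/

namespace Pool.MP_70e04f_ag.Add

open MvPolynomial Pool.MP_70e04f_ag.Hex

/-- Restriction to the cuspidal cubic. -/
noncomputable def cub : MvPolynomial (Fin 2) ℝ →ₐ[ℝ] Polynomial ℝ :=
  aeval ![Polynomial.X ^ 2, Polynomial.X ^ 3]

namespace CubA

lemma eval_cub (e : ℝ) (G : MvPolynomial (Fin 2) ℝ) :
    (cub G).eval e = MvPolynomial.eval ![e ^ 2, e ^ 3] G := by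
  have h : (Polynomial.evalRingHom e).comp (cub : MvPolynomial (Fin 2) ℝ →+* Polynomial ℝ) =
      MvPolynomial.eval ![e ^ 2, e ^ 3] := by
    apply MvPolynomial.ringHom_ext
    · intro r
      simp [cub]
    · intro i
      fin_cases i <;> simp [cub]
  exact congrArg (fun ψ : MvPolynomial (Fin 2) ℝ →+* ℝ => ψ G) h

lemma dvd_cub {e : ℝ} {m : ℕ} {F : MvPolynomial (Fin 2) ℝ}
    (h : F ∈ (RingHom.ker (MvPolynomial.eval ![e ^ 2, e ^ 3]) :
      Ideal (MvPolynomial (Fin 2) ℝ)) ^ m) :
    (Polynomial.X - Polynomial.C e) ^ m ∣ cub F := by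
  have h1 : Ideal.map (cub : MvPolynomial (Fin 2) ℝ →+* Polynomial ℝ)
      (RingHom.ker (MvPolynomial.eval ![e ^ 2, e ^ 3])) ≤
      Ideal.span {Polynomial.X - Polynomial.C e} := by
    rw [Ideal.map_le_iff_le_comap]
    intro G hG
    rw [Ideal.mem_comap, Ideal.mem_span_singleton, Polynomial.dvd_iff_isRoot, Polynomial.IsRoot.def]
    rw [RingHom.mem_ker] at hG
    change (cub G).eval e = 0
    rw [eval_cub, hG]
  have h2 := Ideal.mem_map_of_mem (cub : MvPolynomial (Fin 2) ℝ →+* Polynomial ℝ) h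
  rw [Ideal.map_pow] at h2
  have h3 := Ideal.pow_right_mono h1 m h2
  rw [Ideal.span_singleton_pow, Ideal.mem_span_singleton] at h3
  exact h3

/-- The exponents of the restrictions. -/
lemma support_cub {N : ℕ} (hN : 2 ≤ N) {F : MvPolynomial (Fin 2) ℝ}
    (h : F ∈ LinearMap.range (toPS (tri N))) : (cub F).support.card ≤ 3 * (N - 1) := by
  obtain ⟨v, rfl⟩ := h
  have h1 : (cub (toPS (tri N) v)).support ⊆ (Finset.range (3 * (N - 1) + 1)).erase 1 := by
    intro n hn
    rw [Polynomial.mem_support_iff] at hn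
    by_contra hcon
    apply hn
    rw [toPS, Fintype.linearCombination_apply, map_sum, Polynomial.finsetSum_coeff]
    apply Finset.sum_eq_zero
    intro q _
    have h2 := mem_tri.1 q.2
    have h3 : cub ((v q) • (X 0 ^ q.1.1 * X 1 ^ q.1.2 : MvPolynomial (Fin 2) ℝ)) =
        (v q) • Polynomial.X ^ (2 * q.1.1 + 3 * q.1.2) := by
      rw [map_smul, map_mul, map_pow, map_pow, pow_add, pow_mul, pow_mul]
      simp [cub]
    rw [h3, Polynomial.coeff_smul, Polynomial.coeff_X_pow, if_neg, smul_zero]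
    rintro rfl
    apply hcon
    rw [Finset.mem_erase, Finset.mem_range]
    omega
  refine (Finset.card_le_card h1).trans ?_
  rw [Finset.card_erase_of_mem (by rw [Finset.mem_range]; omega), Finset.card_range]
  omega

end CubA

open CubA

/-- The dimension of the restricted system. -/
theorem finrank_cub {τ : Type*} [Fintype τ] {e : τ → ℝ} (he : Function.Injective e)
    (he0 : ∀ t, 0 < e t) {N : ℕ} (hN : 2 ≤ N) {m : τ → ℕ} (hm : ∑ t, m t ≤ 3 * (N - 1)) :
    Module.finrank ℝ ↥((Lsys N m (cpt e)).map cub.toLinearMap) + ∑ t, m t ≤ 3 * (N - 1) := by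
  classical
  set s : ℕ := 3 * (N - 1) - ∑ t, m t with hs
  set y : ℝ := ∑ t, e t + 1 with hy
  have hy0 : 0 < y := by
    have : 0 ≤ ∑ t, e t := Finset.sum_nonneg fun t _ => (he0 t).le
    linarith
  have hye : ∀ t, e t ≠ y := by
    intro t
    have : e t ≤ ∑ t, e t := Finset.single_le_sum (fun t _ => (he0 t).le) (Finset.mem_univ t)
    intro h
    linarith
  set W := (Lsys N m (cpt e)).map cub.toLinearMap with hW
  let T : Polynomial ℝ →ₗ[ℝ] (Fin s → ℝ) :=
    LinearMap.pi fun i => (Polynomial.lcoeff ℝ i).comp (Polynomial.taylor y)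
  have hT : ∀ f i, T f i = (Polynomial.taylor y f).coeff i := fun f i => rfl
  have hker : ∀ f ∈ W, T f = 0 → f = 0 := by
    rintro f hf hTf
    obtain ⟨F, hF, rfl⟩ := Submodule.mem_map.1 hf
    obtain ⟨hF1, hF2⟩ := Submodule.mem_inf.1 hF
    rw [mem_vanish] at hF2
    have h1 : (Polynomial.X - Polynomial.C y) ^ s ∣ cub F := by
      rw [Polynomial.X_sub_C_pow_dvd_iff, Polynomial.X_pow_dvd_iff]
      intro d hd
      have := congrFun hTf ⟨d, hd⟩
      rw [hT] at this
      exact this
    exact row_zero e he0 he y hy0 hye (cub F) Finset.univ m (fun t _ => dvd_cub (hF2 t)) s h1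
      ((support_cub hN hF1).trans (by omega))
  have hinj : Function.Injective (T.domRestrict W) := by
    rw [← LinearMap.ker_eq_bot, LinearMap.ker_eq_bot']
    intro f hf
    apply Subtype.ext
    exact hker f.1 f.2 hf
  have h1 := LinearMap.finrank_le_finrank_of_injective hinj
  rw [Module.finrank_fintype_fun_eq_card, Fintype.card_fin] at h1
  omega

end Pool.MP_70e04f_ag.Add

end

/-! ### from `Lib_MP_70e04f_nine.CubFact` -/

section

/-!
# Degrees and derivatives of restrictions to the cuspidal cubic (piece CUBFACT)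

PAPER PROOFS. A monomial `x ^ a * y ^ b` restricts to `X ^ (2 a + 3 b)`, and `2 a + 3 b ≤ 3 (a + b)`
with equality only for `a = 0`; `2 a + 3 b ≠ 1`. The chain rule:
`derivative (cub F) = 2 X cub (pderiv 0 F) + 3 X ^ 2 cub (pderiv 1 F)` (both sides are derivations
along `cub`; induction on `F`, or compare on monomials).
-/

namespace Pool.MP_70e04f_ag.Nine

open MvPolynomial Pool.MP_70e04f_ag.Hex Pool.MP_70e04f_ag.Add

lemma cub_eq_sum (F : MvPolynomial (Fin 2) ℝ) :
    cub F = ∑ s ∈ F.support, Polynomial.C (coeff s F) * Polynomial.X ^ (2 * s 0 + 3 * s 1) := by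
  conv_lhs => rw [F.as_sum]
  rw [map_sum]
  refine Finset.sum_congr rfl (fun s _ => ?_)
  unfold cub
  rw [aeval_monomial, Finsupp.prod_fintype _ _ (fun _ => pow_zero _), Fin.prod_univ_two]
  simp only [Matrix.cons_val_zero, Matrix.cons_val_one, Polynomial.algebraMap_eq]
  rw [← pow_mul, ← pow_mul, ← pow_add]

lemma coeff_cub (F : MvPolynomial (Fin 2) ℝ) (n : ℕ) :
    (cub F).coeff n = ∑ s ∈ F.support, if n = 2 * s 0 + 3 * s 1 then coeff s F else 0 := by
  rw [cub_eq_sum, Polynomial.finsetSum_coeff]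
  refine Finset.sum_congr rfl (fun s _ => ?_)
  rw [Polynomial.coeff_C_mul_X_pow]

lemma supp_le {F : MvPolynomial (Fin 2) ℝ} {s : Fin 2 →₀ ℕ} (hs : s ∈ F.support) :
    s 0 + s 1 ≤ F.totalDegree := by
  have h := le_totalDegree hs
  rw [Finsupp.sum_fintype _ _ (fun _ => rfl), Fin.sum_univ_two] at h
  exact h

theorem natDegree_cub_le (F : MvPolynomial (Fin 2) ℝ) :
    (cub F).natDegree ≤ 3 * F.totalDegree := by
  rw [cub_eq_sum]
  refine Polynomial.natDegree_sum_le_of_forall_le _ _ (fun s hs => ?_)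
  refine (Polynomial.natDegree_C_mul_X_pow_le _ _).trans ?_
  have := supp_le hs
  omega

theorem coeff_cub_top {k : ℕ} {F : MvPolynomial (Fin 2) ℝ} (h : F.totalDegree ≤ k) :
    (cub F).coeff (3 * k) = coeff (mon 0 k) F := by
  rw [coeff_cub]
  have h1 : ∀ s ∈ F.support, (if 3 * k = 2 * s 0 + 3 * s 1 then coeff s F else 0) =
      if s = mon 0 k then coeff s F else 0 := by
    intro s hs
    have h2 := (supp_le hs).trans h
    by_cases h3 : s = mon 0 k
    · have h4 : s 0 = 0 := by rw [h3, mon_zero']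
      have h5 : s 1 = k := by rw [h3, mon_one']
      rw [if_pos h3, if_pos (by omega)]
    · rw [if_neg h3, if_neg]
      intro h4
      apply h3
      have h5 : s 0 = 0 := by omega
      have h6 : s 1 = k := by omega
      rw [← mon_eta s, h5, h6]
  rw [Finset.sum_congr rfl h1, Finset.sum_ite_eq' F.support (mon 0 k) (fun s => coeff s F)]
  split_ifs with h7
  · rfl
  · exact (notMem_support_iff.1 h7).symm

theorem coeff_cub_one (F : MvPolynomial (Fin 2) ℝ) : (cub F).coeff 1 = 0 := by
  rw [coeff_cub]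
  refine Finset.sum_eq_zero (fun s _ => ?_)
  rw [if_neg (by omega)]

theorem derivative_cub (F : MvPolynomial (Fin 2) ℝ) :
    Polynomial.derivative (cub F) =
      2 * Polynomial.X * cub (pderiv 0 F) + 3 * Polynomial.X ^ 2 * cub (pderiv 1 F) := by
  induction F using MvPolynomial.induction_on with
  | C a =>
    rw [pderiv_C, pderiv_C, map_zero, mul_zero, mul_zero, add_zero]
    have : cub (C a : MvPolynomial (Fin 2) ℝ) = Polynomial.C a := by
      simp [cub]
    rw [this, Polynomial.derivative_C]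
  | add p q hp hq =>
    simp only [map_add, hp, hq]
    ring
  | mul_X p i hp =>
    have h0 : cub (X 0 : MvPolynomial (Fin 2) ℝ) = Polynomial.X ^ 2 := by simp [cub]
    have h1 : cub (X 1 : MvPolynomial (Fin 2) ℝ) = Polynomial.X ^ 3 := by simp [cub]
    have e01 : (pderiv 0 (X 1 : MvPolynomial (Fin 2) ℝ)) = 0 := by
      rw [pderiv_X_of_ne]; decide
    have e10 : (pderiv 1 (X 0 : MvPolynomial (Fin 2) ℝ)) = 0 := by
      rw [pderiv_X_of_ne]; decide
    have d2 : Polynomial.derivative (Polynomial.X ^ 2 : Polynomial ℝ) = 2 * Polynomial.X := by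
      rw [Polynomial.derivative_X_pow]
      norm_num
      rfl
    have d3 : Polynomial.derivative (Polynomial.X ^ 3 : Polynomial ℝ) = 3 * Polynomial.X ^ 2 := by
      rw [Polynomial.derivative_X_pow]
      norm_num
      rfl
    rw [map_mul, Polynomial.derivative_mul, hp, pderiv_mul, pderiv_mul, map_add, map_add,
      map_mul, map_mul, map_mul, map_mul]
    fin_cases i
    · simp only [Fin.zero_eta, Fin.isValue, pderiv_X_self, e10, map_one, map_zero, h0, d2]
      ring
    · simp only [Fin.mk_one, Fin.isValue, pderiv_X_self, e01, map_one, map_zero, h1, d3]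
      ring

end Pool.MP_70e04f_ag.Nine

end

/-! ### from `Lib_MP_70e04f_hal.NodA` -/

section

/-!
# Restriction to the acnodal cubic: first properties (piece NODA)

PAPER PROOF. `eval_nod`: ring homomorphisms agreeing on constants and variables (as `eval_cub` in
`Lib_MP_70e04f_add/CubA.lean`). `dvd_nod`: as `CubA.dvd_cub`. `natDegree_nod_le`,
`coeff_nod_top`: a monomial `x ^ a y ^ b` goes to `(S ^ 2 + 1) ^ (a + b) S ^ b`, of degree
`2 a + 3 b ≤ 3 (a + b)`, with equality only if `a = 0`, and then it is monic; (compare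
`natDegree_cub_le`, `coeff_cub_top` in `Lib_MP_70e04f_nine/CubFact.lean` and `CubSur.lean`). `nv_nod`:
`aeval I (nod F)` is `MvPolynomial.aeval ![0, 0] F` because `I ^ 2 + 1 = 0`, the image of the real
number `eval ![0, 0] F` (`MvPolynomial.induction_on` or comparison of the algebra homomorphisms
`MvPolynomial → ℂ` on the variables). `lin_dvd_nod`: the factors `(X - C (s t)) ^ m t` are
pairwise coprime (`Finset.prod_dvd_of_coprime`, `Polynomial.isCoprime_X_sub_C_of_isUnit_sub`,
`IsCoprime.pow`). `aeval_lin_ne`: `I - s t ≠ 0` because its imaginary part is `1`.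
-/

namespace Pool.MP_70e04f_ag.Hal

open MvPolynomial Pool.MP_70e04f_ag.Hex Pool.MP_70e04f_ag.Add Pool.MP_70e04f_ag.Nine

lemma eval_nod (e : ℝ) (G : MvPolynomial (Fin 2) ℝ) :
    (nod G).eval e = MvPolynomial.eval ![e ^ 2 + 1, e * (e ^ 2 + 1)] G := by
  have h : (Polynomial.evalRingHom e).comp (nod : MvPolynomial (Fin 2) ℝ →+* Polynomial ℝ) =
      MvPolynomial.eval ![e ^ 2 + 1, e * (e ^ 2 + 1)] := by
    apply MvPolynomial.ringHom_ext
    · intro r
      simp [nod]
    · intro i
      fin_cases i <;> simp [nod]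
  exact congrArg (fun ψ : MvPolynomial (Fin 2) ℝ →+* ℝ => ψ G) h

lemma dvd_nod {τ : Type*} {s : τ → ℝ} {t : τ} {m : ℕ} {F : MvPolynomial (Fin 2) ℝ}
    (h : F ∈ pt (npt s t) ^ m) : (Polynomial.X - Polynomial.C (s t)) ^ m ∣ nod F := by
  have h1 : Ideal.map (nod : MvPolynomial (Fin 2) ℝ →+* Polynomial ℝ)
      (RingHom.ker (MvPolynomial.eval (npt s t))) ≤
      Ideal.span {Polynomial.X - Polynomial.C (s t)} := by
    rw [Ideal.map_le_iff_le_comap]
    intro G hG
    rw [Ideal.mem_comap, Ideal.mem_span_singleton, Polynomial.dvd_iff_isRoot, Polynomial.IsRoot.def]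
    rw [RingHom.mem_ker] at hG
    change (nod G).eval (s t) = 0
    rw [eval_nod]
    exact hG
  have h2 := Ideal.mem_map_of_mem (nod : MvPolynomial (Fin 2) ℝ →+* Polynomial ℝ) h
  rw [Ideal.map_pow] at h2
  have h3 := Ideal.pow_right_mono h1 m h2
  rw [Ideal.span_singleton_pow, Ideal.mem_span_singleton] at h3
  exact h3

private lemma noda_sq_monic : (Polynomial.X ^ 2 + 1 : Polynomial ℝ).Monic := by
  have := Polynomial.monic_X_pow_add_C (1 : ℝ) (n := 2) (by norm_num)
  rwa [Polynomial.C_1] at this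

private lemma noda_sq_deg : (Polynomial.X ^ 2 + 1 : Polynomial ℝ).natDegree = 2 := by
  have := Polynomial.natDegree_X_pow_add_C (n := 2) (r := (1 : ℝ))
  rwa [Polynomial.C_1] at this

private lemma noda_mon_monic (a b : ℕ) :
    ((Polynomial.X ^ 2 + 1) ^ (a + b) * Polynomial.X ^ b : Polynomial ℝ).Monic :=
  (noda_sq_monic.pow _).mul (Polynomial.monic_X_pow _)

private lemma noda_mon_deg (a b : ℕ) :
    ((Polynomial.X ^ 2 + 1) ^ (a + b) * Polynomial.X ^ b : Polynomial ℝ).natDegree =
      2 * a + 3 * b := by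
  rw [(noda_sq_monic.pow _).natDegree_mul (Polynomial.monic_X_pow _),
    noda_sq_monic.natDegree_pow, noda_sq_deg, Polynomial.natDegree_X_pow]
  ring

private lemma nod_eq_sum (F : MvPolynomial (Fin 2) ℝ) :
    nod F = ∑ s ∈ F.support, Polynomial.C (coeff s F) *
      ((Polynomial.X ^ 2 + 1) ^ (s 0 + s 1) * Polynomial.X ^ (s 1)) := by
  conv_lhs => rw [F.as_sum]
  rw [map_sum]
  refine Finset.sum_congr rfl (fun s _ => ?_)
  unfold nod
  rw [aeval_monomial, Finsupp.prod_fintype _ _ (fun _ => pow_zero _), Fin.prod_univ_two]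
  simp only [Matrix.cons_val_zero, Matrix.cons_val_one, Polynomial.algebraMap_eq]
  rw [mul_pow, pow_add]
  ring

lemma natDegree_nod_le (F : MvPolynomial (Fin 2) ℝ) : (nod F).natDegree ≤ 3 * F.totalDegree := by
  rw [nod_eq_sum]
  refine Polynomial.natDegree_sum_le_of_forall_le _ _ (fun s hs => ?_)
  refine (Polynomial.natDegree_C_mul_le _ _).trans ?_
  rw [noda_mon_deg]
  have := supp_le hs
  omega

lemma coeff_nod_top {k : ℕ} {F : MvPolynomial (Fin 2) ℝ} (h : F.totalDegree ≤ k) :
    (nod F).coeff (3 * k) = coeff (mon 0 k) F := by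
  rw [nod_eq_sum, Polynomial.finsetSum_coeff]
  have h1 : ∀ s ∈ F.support, (Polynomial.C (coeff s F) *
      ((Polynomial.X ^ 2 + 1) ^ (s 0 + s 1) * Polynomial.X ^ (s 1))).coeff (3 * k) =
      if s = mon 0 k then coeff s F else 0 := by
    intro s hs
    have h2 := (supp_le hs).trans h
    rw [Polynomial.coeff_C_mul]
    by_cases h3 : s = mon 0 k
    · have h4 : s 0 = 0 := by rw [h3, mon_zero']
      have h5 : s 1 = k := by rw [h3, mon_one']
      rw [if_pos h3]
      have h6 : ((Polynomial.X ^ 2 + 1) ^ (s 0 + s 1) * Polynomial.X ^ (s 1) :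
          Polynomial ℝ).coeff (3 * k) = 1 := by
        have h7 := (noda_mon_monic (s 0) (s 1)).coeff_natDegree
        rw [noda_mon_deg] at h7
        rwa [show 2 * s 0 + 3 * s 1 = 3 * k by omega] at h7
      rw [h6, mul_one]
    · rw [if_neg h3, Polynomial.coeff_eq_zero_of_natDegree_lt, mul_zero]
      rw [noda_mon_deg]
      by_contra h4
      apply h3
      have h5 : s 0 = 0 := by omega
      have h6 : s 1 = k := by omega
      rw [← mon_eta s, h5, h6]
  rw [Finset.sum_congr rfl h1, Finset.sum_ite_eq' F.support (mon 0 k) (fun s => coeff s F)]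
  split_ifs with h2
  · rfl
  · rw [notMem_support_iff.1 h2]

/-- The condition at the node. -/
lemma nv_nod (F : MvPolynomial (Fin 2) ℝ) : nv (nod F) = 0 := by
  have h : ((Polynomial.aeval Complex.I).comp nod : MvPolynomial (Fin 2) ℝ →ₐ[ℝ] ℂ) =
      (Algebra.ofId ℝ ℂ).comp (MvPolynomial.aeval ![(0 : ℝ), 0]) := by
    apply MvPolynomial.algHom_ext
    intro i
    fin_cases i <;> simp [nod]
  have h1 : Polynomial.aeval Complex.I (nod F) =
      ((MvPolynomial.aeval ![(0 : ℝ), 0] F : ℝ) : ℂ) :=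
    congrArg (fun ψ : MvPolynomial (Fin 2) ℝ →ₐ[ℝ] ℂ => ψ F) h
  unfold nv
  rw [h1, Complex.ofReal_im]

lemma lin_monic {τ : Type*} [Fintype τ] (s : τ → ℝ) (a : τ → ℕ) : (lin s a).Monic :=
  Polynomial.monic_prod_of_monic _ _ fun t _ => (Polynomial.monic_X_sub_C (s t)).pow (a t)

lemma natDegree_lin {τ : Type*} [Fintype τ] (s : τ → ℝ) (a : τ → ℕ) :
    (lin s a).natDegree = ∑ t, a t := by
  unfold lin
  rw [Polynomial.natDegree_prod_of_monic _ _
    fun t _ => (Polynomial.monic_X_sub_C (s t)).pow (a t)]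
  refine Finset.sum_congr rfl fun t _ => ?_
  rw [(Polynomial.monic_X_sub_C (s t)).natDegree_pow, Polynomial.natDegree_X_sub_C, mul_one]

lemma aeval_lin_ne {τ : Type*} [Fintype τ] (s : τ → ℝ) (a : τ → ℕ) :
    Polynomial.aeval Complex.I (lin s a) ≠ 0 := by
  unfold lin
  rw [map_prod, Finset.prod_ne_zero_iff]
  intro t _
  rw [map_pow]
  apply pow_ne_zero
  rw [map_sub, Polynomial.aeval_X, Polynomial.aeval_C]
  intro h
  have h1 := congrArg Complex.im h
  simp at h1

lemma lin_dvd_nod {τ : Type*} [Fintype τ] {s : τ → ℝ} (hs : Function.Injective s) {N : ℕ}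
    {m : τ → ℕ} {F : MvPolynomial (Fin 2) ℝ} (h : F ∈ Lsys N m (npt s)) : lin s m ∣ nod F := by
  obtain ⟨_, h2⟩ := Submodule.mem_inf.1 h
  rw [mem_vanish] at h2
  refine Finset.prod_dvd_of_coprime ?_ fun t _ => dvd_nod (h2 t)
  intro t _ t' _ htt
  refine IsCoprime.pow ?_
  refine Polynomial.isCoprime_X_sub_C_of_isUnit_sub ?_
  exact (sub_ne_zero.2 fun he => htt (hs he)).isUnit

end Pool.MP_70e04f_ag.Hal

end
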