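import Pool.Agent.Lib_MP_70e04f_m.M06
import Pool.Agent.Lib_MP_70e04f_m.M07
import Pool.Agent.Lib_MP_70e04f_m.M08

/-!
# MP_70e04f_ag, plane linear systems: merged library part M09

Concatenation of smaller files (each in its own section), only to save build time.
-/

namespace Pool.MP_70e04f_ag.Hex
end Pool.MP_70e04f_ag.Hex

namespace Pool.MP_70e04f_ag.Add
end Pool.MP_70e04f_ag.Add

namespace Pool.MP_70e04f_ag.Nine
end Pool.MP_70e04f_ag.Nine

/-! ### from `Lib_MP_70e04f_add.CubB` -/

section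

/-!
# The kernel of the restriction to the cuspidal cubic (piece CUBB)

PAPER PROOF. Let `f = X 1 ^ 2 - X 0 ^ 3`. If `cub F = 0` then `f ∣ F`: modulo `f` every
polynomial is congruent to `A (x) + y B (x)`, and `A (X ^ 2) + X ^ 3 B (X ^ 2) = 0` gives
`A = B = 0` (even and odd exponents). If `F = f G` has degree `< N` and `G ≠ 0` then `G` has degree
`< N - 3` (`totalDegree f = 3`, degrees add). If `f G` vanishes to order `m` at
`p = (e ^ 2, e ^ 3)`, `e ≠ 0`, then `G` vanishes to order `m - 1`: after the translation `shift p`,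
`f` has zero constant term and a nonzero linear part (`2 e ^ 3 Y - 3 e ^ 4 X`); if `G` had a
nonzero coefficient of degree `< m - 1`, take its homogeneous component `G_g` of least degree `g`;
the homogeneous component of degree `g + 1 < m` of `f G` is (linear part) * `G_g ≠ 0`, a
contradiction (`mem_ker_pow_iff` in `Lib_MP_70e04f_ag/Poly.lean` translates the vanishing order).
So the kernel of `cub` on `Lsys N m` is contained in `f * Lsys (N - 3) (m - 1)`.
-/

namespace Pool.MP_70e04f_ag.Add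

open MvPolynomial Pool.MP_70e04f_ag.Hex

namespace CubB

/-- Normal form modulo the cubic. -/
lemma normal_form (F : MvPolynomial (Fin 2) ℝ) : ∃ A B : Polynomial ℝ,
    (X 1 ^ 2 - X 0 ^ 3 : MvPolynomial (Fin 2) ℝ) ∣
      F - (Polynomial.aeval (X 0 : MvPolynomial (Fin 2) ℝ) A +
        X 1 * Polynomial.aeval (X 0 : MvPolynomial (Fin 2) ℝ) B) := by
  induction F using MvPolynomial.induction_on with
  | C a =>
    refine ⟨Polynomial.C a, 0, ?_⟩
    rw [Polynomial.aeval_C, map_zero, mul_zero, add_zero, MvPolynomial.algebraMap_eq, sub_self]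
    exact dvd_zero _
  | add F G hF hG =>
    obtain ⟨A, B, h⟩ := hF
    obtain ⟨A', B', h'⟩ := hG
    refine ⟨A + A', B + B', ?_⟩
    have := dvd_add h h'
    rw [map_add, map_add]
    convert this using 1
    ring
  | mul_X F i hF =>
    obtain ⟨A, B, h⟩ := hF
    fin_cases i
    · refine ⟨A * Polynomial.X, B * Polynomial.X, ?_⟩
      rw [map_mul, map_mul, Polynomial.aeval_X]
      have := h.mul_right (X 0)
      convert this using 1
      simp only [Fin.zero_eta, Fin.isValue]
      ring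
    · refine ⟨B * Polynomial.X ^ 3, A, ?_⟩
      rw [map_mul, map_pow, Polynomial.aeval_X]
      have h1 := h.mul_right (X 1)
      have h2 : (X 1 ^ 2 - X 0 ^ 3 : MvPolynomial (Fin 2) ℝ) ∣
          (X 1 ^ 2 - X 0 ^ 3) * Polynomial.aeval (X 0 : MvPolynomial (Fin 2) ℝ) B :=
        dvd_mul_right _ _
      have := dvd_add h1 h2
      convert this using 1
      simp only [Fin.mk_one, Fin.isValue]
      ring

lemma cub_aeval (A : Polynomial ℝ) :
    cub (Polynomial.aeval (X 0 : MvPolynomial (Fin 2) ℝ) A) = Polynomial.expand ℝ 2 A := by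
  have h : cub.comp (Polynomial.aeval (X 0 : MvPolynomial (Fin 2) ℝ)) =
      Polynomial.expand ℝ 2 := by
    apply Polynomial.algHom_ext
    simp [cub]
  exact congrArg (fun ψ : Polynomial ℝ →ₐ[ℝ] Polynomial ℝ => ψ A) h

lemma cub_f : cub (X 1 ^ 2 - X 0 ^ 3 : MvPolynomial (Fin 2) ℝ) = 0 := by
  simp only [cub, map_sub, map_pow, aeval_X, Matrix.cons_val_zero, Matrix.cons_val_one]
  ring

lemma even_odd {A B : Polynomial ℝ}
    (h : Polynomial.expand ℝ 2 A + Polynomial.X ^ 3 * Polynomial.expand ℝ 2 B = 0) :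
    A = 0 ∧ B = 0 := by
  have hc : ∀ n, (Polynomial.expand ℝ 2 A + Polynomial.X ^ 3 * Polynomial.expand ℝ 2 B).coeff n
      = 0 := by
    intro n
    rw [h, Polynomial.coeff_zero]
  simp only [Polynomial.coeff_add, Polynomial.coeff_X_pow_mul', Polynomial.coeff_expand two_pos]
    at hc
  constructor
  · ext n
    have h1 := hc (2 * n)
    rw [if_pos (dvd_mul_right 2 n), Nat.mul_div_cancel_left n two_pos] at h1
    rw [Polynomial.coeff_zero]
    split_ifs at h1 with h2 h3
    · omega
    · linarith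
    · linarith
  · ext n
    have h1 := hc (2 * n + 3)
    rw [if_neg (by omega), if_pos (by omega), Nat.add_sub_cancel, if_pos (dvd_mul_right 2 n),
      Nat.mul_div_cancel_left n two_pos, zero_add] at h1
    rw [h1, Polynomial.coeff_zero]

/-- Coefficients of a product with a monomial. -/
lemma coeff_mul_mon (a b i j : ℕ) (p : MvPolynomial (Fin 2) ℝ) :
    coeff (mon a b) (X 0 ^ i * X 1 ^ j * p) =
      if i ≤ a ∧ j ≤ b then coeff (mon (a - i) (b - j)) p else 0 := by
  have h : (X 0 ^ i * X 1 ^ j : MvPolynomial (Fin 2) ℝ) = monomial (mon i j) 1 := by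
    rw [mon, monomial_eq, Finsupp.prod_add_index']
    · rw [Finsupp.prod_single_index (by simp), Finsupp.prod_single_index (by simp)]
      simp
    · intro; simp
    · intro _ _ _; rw [pow_add]
  rw [h, coeff_monomial_mul', one_mul]
  have h1 : mon i j ≤ mon a b ↔ i ≤ a ∧ j ≤ b := by
    constructor
    · intro hle
      have h0 := hle 0
      have h1 := hle 1
      rw [mon_zero', mon_zero'] at h0
      rw [mon_one', mon_one'] at h1
      exact ⟨h0, h1⟩
    · rintro ⟨h0, h1⟩ t
      fin_cases t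
      · change mon i j 0 ≤ mon a b 0
        rwa [mon_zero', mon_zero']
      · change mon i j 1 ≤ mon a b 1
        rwa [mon_one', mon_one']
  by_cases h2 : i ≤ a ∧ j ≤ b
  · rw [if_pos (h1.2 h2), if_pos h2]
    congr 1
    ext t
    fin_cases t
    · change (mon a b - mon i j) 0 = mon (a - i) (b - j) 0
      rw [Finsupp.tsub_apply, mon_zero', mon_zero', mon_zero']
    · change (mon a b - mon i j) 1 = mon (a - i) (b - j) 1
      rw [Finsupp.tsub_apply, mon_one', mon_one', mon_one']
  · rw [if_neg (fun h3 => h2 (h1.1 h3)), if_neg h2]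

/-- The cubic after the translation. -/
lemma shift_f (e : ℝ) :
    shift (![e ^ 2, e ^ 3] : Fin 2 → ℝ) (X 1 ^ 2 - X 0 ^ 3 : MvPolynomial (Fin 2) ℝ) =
      X 0 ^ 0 * X 1 ^ 2 + C (2 * e ^ 3) * (X 0 ^ 0 * X 1 ^ 1) - X 0 ^ 3 * X 1 ^ 0 -
        C (3 * e ^ 2) * (X 0 ^ 2 * X 1 ^ 0) - C (3 * e ^ 4) * (X 0 ^ 1 * X 1 ^ 0) := by
  simp only [shift, map_sub, map_pow, aeval_X, Matrix.cons_val_zero, Matrix.cons_val_one, map_mul,
    map_ofNat]
  ring

lemma f_ne : (X 1 ^ 2 - X 0 ^ 3 : MvPolynomial (Fin 2) ℝ) ≠ 0 ∧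
    3 ≤ (X 1 ^ 2 - X 0 ^ 3 : MvPolynomial (Fin 2) ℝ).totalDegree := by
  have h : coeff (mon 3 0) (X 1 ^ 2 - X 0 ^ 3 : MvPolynomial (Fin 2) ℝ) = -1 := by
    have h1 := coeff_mul_mon 3 0 0 2 1
    have h2 := coeff_mul_mon 3 0 3 0 1
    simp only [pow_zero, one_mul, mul_one] at h1 h2
    rw [coeff_sub, h1, h2]
    have h3 : mon 0 0 = 0 := by simp [mon]
    simp [h3]
  constructor
  · intro h0
    rw [h0, coeff_zero] at h
    norm_num at h
  · have h1 : mon 3 0 ∈ (X 1 ^ 2 - X 0 ^ 3 : MvPolynomial (Fin 2) ℝ).support := by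
      rw [mem_support_iff, h]
      norm_num
    have h2 := le_totalDegree h1
    have h3 : ((mon 3 0).sum fun _ n => n) = 3 := by
      have := degree_mon 3 0
      rw [Finsupp.degree_apply] at this
      exact this
    rwa [h3] at h2

end CubB

open CubB

lemma dvd_of_cub {F : MvPolynomial (Fin 2) ℝ} (h : cub F = 0) :
    (X 1 ^ 2 - X 0 ^ 3 : MvPolynomial (Fin 2) ℝ) ∣ F := by
  obtain ⟨A, B, h1⟩ := normal_form F
  have h2 : cub (F - (Polynomial.aeval (X 0 : MvPolynomial (Fin 2) ℝ) A +
        X 1 * Polynomial.aeval (X 0 : MvPolynomial (Fin 2) ℝ) B)) = 0 := by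
    obtain ⟨G, hG⟩ := h1
    rw [hG, map_mul, cub_f, zero_mul]
  rw [map_sub, h, zero_sub, neg_eq_zero, map_add, map_mul, cub_aeval, cub_aeval] at h2
  have h3 : cub (X 1 : MvPolynomial (Fin 2) ℝ) = Polynomial.X ^ 3 := by
    simp [cub]
  rw [h3] at h2
  obtain ⟨rfl, rfl⟩ := even_odd h2
  simpa using h1

lemma order_drop {e : ℝ} (he : e ≠ 0) {m : ℕ} {G : MvPolynomial (Fin 2) ℝ}
    (h : (X 1 ^ 2 - X 0 ^ 3 : MvPolynomial (Fin 2) ℝ) * G ∈
      (RingHom.ker (MvPolynomial.eval ![e ^ 2, e ^ 3]) : Ideal (MvPolynomial (Fin 2) ℝ)) ^ m) :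
    G ∈ (RingHom.ker (MvPolynomial.eval ![e ^ 2, e ^ 3]) :
      Ideal (MvPolynomial (Fin 2) ℝ)) ^ (m - 1) := by
  rw [mem_ker_pow_iff] at h ⊢
  set g := shift (![e ^ 2, e ^ 3] : Fin 2 → ℝ) G with hg
  have key : ∀ n, n < m - 1 → ∀ b a, a + b = n → coeff (mon a b) g = 0 := by
    intro n
    induction n using Nat.strong_induction_on with
    | _ n ih =>
      intro hn b
      induction b with
      | zero =>
        intro a hab
        have h1 := h (a + 1, 0) (mem_tri.2 (by change a + 1 + 0 < m; omega))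
        rw [map_mul, shift_f, ← hg] at h1
        simp only [sub_mul, add_mul, mul_assoc (C _), coeff_sub, coeff_add, coeff_C_mul,
          coeff_mul_mon] at h1
        have e1 : ¬ (0 ≤ a + 1 ∧ 2 ≤ 0) := by omega
        have e2 : ¬ (0 ≤ a + 1 ∧ 1 ≤ 0) := by omega
        have e3 : (1 ≤ a + 1 ∧ 0 ≤ 0) := by omega
        rw [if_neg e1, if_neg e2, if_pos e3] at h1
        have e4 : (if 3 ≤ a + 1 ∧ 0 ≤ 0 then coeff (mon (a + 1 - 3) (0 - 0)) g else 0) = 0 := by
          split_ifs with h5
          · exact ih (a + 1 - 3 + 0) (by omega) (by omega) _ _ rfl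
          · rfl
        have e5 : (if 2 ≤ a + 1 ∧ 0 ≤ 0 then coeff (mon (a + 1 - 2) (0 - 0)) g else 0) = 0 := by
          split_ifs with h5
          · exact ih (a + 1 - 2 + 0) (by omega) (by omega) _ _ rfl
          · rfl
        rw [e4, e5, Nat.add_sub_cancel, Nat.sub_zero] at h1
        have h6 : 3 * e ^ 4 * coeff (mon a 0) g = 0 := by linarith
        rcases mul_eq_zero.1 h6 with h7 | h7
        · exfalso
          have : (3 : ℝ) * e ^ 4 ≠ 0 := mul_ne_zero (by norm_num) (pow_ne_zero _ he)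
          exact this h7
        · exact h7
      | succ b ihb =>
        intro a hab
        have h1 := h (a + 1, b + 1) (mem_tri.2 (by change a + 1 + (b + 1) < m; omega))
        rw [map_mul, shift_f, ← hg] at h1
        simp only [sub_mul, add_mul, mul_assoc (C _), coeff_sub, coeff_add, coeff_C_mul,
          coeff_mul_mon] at h1
        have e2 : (0 ≤ a + 1 ∧ 1 ≤ b + 1) := by omega
        have e3 : (1 ≤ a + 1 ∧ 0 ≤ b + 1) := by omega
        rw [if_pos e2, if_pos e3] at h1
        have e1 : (if 0 ≤ a + 1 ∧ 2 ≤ b + 1 then coeff (mon (a + 1 - 0) (b + 1 - 2)) g else 0)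
            = 0 := by
          split_ifs with h5
          · exact ih (a + 1 - 0 + (b + 1 - 2)) (by omega) (by omega) _ _ rfl
          · rfl
        have e4 : (if 3 ≤ a + 1 ∧ 0 ≤ b + 1 then coeff (mon (a + 1 - 3) (b + 1 - 0)) g else 0)
            = 0 := by
          split_ifs with h5
          · exact ih (a + 1 - 3 + (b + 1 - 0)) (by omega) (by omega) _ _ rfl
          · rfl
        have e5 : (if 2 ≤ a + 1 ∧ 0 ≤ b + 1 then coeff (mon (a + 1 - 2) (b + 1 - 0)) g else 0)
            = 0 := by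
          split_ifs with h5
          · exact ih (a + 1 - 2 + (b + 1 - 0)) (by omega) (by omega) _ _ rfl
          · rfl
        have e6 : coeff (mon (a + 1 - 0) (b + 1 - 1)) g = 0 := by
          apply ihb
          omega
        rw [e1, e4, e5, e6, Nat.add_sub_cancel, Nat.sub_zero] at h1
        have h6 : 3 * e ^ 4 * coeff (mon a (b + 1)) g = 0 := by linarith
        rcases mul_eq_zero.1 h6 with h7 | h7
        · exfalso
          have : (3 : ℝ) * e ^ 4 ≠ 0 := mul_ne_zero (by norm_num) (pow_ne_zero _ he)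
          exact this h7
        · exact h7
  intro q hq
  exact key (q.1 + q.2) (mem_tri.1 hq) q.2 q.1 rfl

/-- The dimension of the kernel of the restriction. -/
theorem finrank_cub_ker {τ : Type*} [Fintype τ] {e : τ → ℝ} (he0 : ∀ t, 0 < e t) {N : ℕ}
    (m : τ → ℕ) :
    Module.finrank ℝ ↥(Lsys N m (cpt e) ⊓ LinearMap.ker cub.toLinearMap) ≤
      hT (N - 3) (fun t => m t - 1) (cpt e) := by
  let M : MvPolynomial (Fin 2) ℝ →ₗ[ℝ] MvPolynomial (Fin 2) ℝ :=
    LinearMap.mulLeft ℝ (X 1 ^ 2 - X 0 ^ 3 : MvPolynomial (Fin 2) ℝ)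
  have h : Lsys N m (cpt e) ⊓ LinearMap.ker cub.toLinearMap ≤
      (Lsys (N - 3) (fun t => m t - 1) (cpt e)).map M := by
    intro F hF
    obtain ⟨hF1, hF2⟩ := Submodule.mem_inf.1 hF
    obtain ⟨hF3, hF4⟩ := Submodule.mem_inf.1 hF1
    obtain ⟨G, hG⟩ := dvd_of_cub (F := F) hF2
    rw [mem_vanish] at hF4
    refine Submodule.mem_map.2 ⟨G, ?_, hG.symm⟩
    refine Submodule.mem_inf.2 ⟨?_, ?_⟩
    · by_cases hG0 : G = 0
      · rw [hG0]
        exact Submodule.zero_mem _
      · have hFne : F ≠ 0 := by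
          rw [hG]
          exact mul_ne_zero f_ne.1 hG0
        have hN : N ≠ 0 := by
          rintro rfl
          apply hFne
          obtain ⟨v, rfl⟩ := hF3
          rw [toPS, Fintype.linearCombination_apply]
          apply Finset.sum_eq_zero
          intro q _
          have := mem_tri.1 q.2
          omega
        obtain ⟨N', rfl⟩ := Nat.exists_eq_succ_of_ne_zero hN
        have h1 := mem_range_tri.1 hF3
        rw [hG, totalDegree_mul_of_isDomain f_ne.1 hG0] at h1
        have h2 := f_ne.2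
        have h3 : N' + 1 - 3 = (N' - 3) + 1 := by omega
        rw [Nat.succ_eq_add_one, h3]
        rw [mem_range_tri]
        omega
    · rw [mem_vanish]
      intro t
      have h1 := hF4 t
      rw [hG] at h1
      exact order_drop (he0 t).ne' h1
  calc Module.finrank ℝ ↥(Lsys N m (cpt e) ⊓ LinearMap.ker cub.toLinearMap)
      ≤ Module.finrank ℝ ↥((Lsys (N - 3) (fun t => m t - 1) (cpt e)).map M) :=
        Submodule.finrank_mono h
    _ ≤ Module.finrank ℝ ↥(Lsys (N - 3) (fun t => m t - 1) (cpt e)) :=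
        Submodule.finrank_map_le _ _
    _ = hT (N - 3) (fun t => m t - 1) (cpt e) := rfl

end Pool.MP_70e04f_ag.Add

end

/-! ### from `Lib_MP_70e04f_add.TwoP` -/

section

/-!
# At most two points (piece TWOP)

The statement holds for any number of points: if `∑ m t ≤ N` then the conditions are independent
on the polynomials of degree `< N`.

PAPER PROOF. Choose polynomials `A t` of degree at most `∑ s ≠ t, m s` with
`A t ∈ (ker (eval (q s))) ^ m s` for `s ≠ t` and `A t` not vanishing at `q t`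
(a product of powers of linear forms). The map
`(F, c) ↦ F + ∑ t, A t * G t`, `F ∈ Lsys N m q`, `G t` of degree `< m t`, is injective: modulo
`(ker (eval (q t))) ^ m t` everything but `A t * G t` vanishes, so
`A t * G t ∈ (ker (eval (q t))) ^ m t`, hence `G t ∈ (ker (eval (q t))) ^ m t` and `G t = 0` by its
degree. All the values are of degree `< N`. So `hT N m q + ∑ card (tri (m t)) ≤ card (tri N)`.
-/

namespace Pool.MP_70e04f_ag.Add

open MvPolynomial Pool.MP_70e04f_ag.Hex

/-- Cancelling a factor which is not in the maximal ideal. -/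
lemma mem_pow_of_mul_mem_two {p : Fin 2 → ℝ} {m : ℕ} {A G : MvPolynomial (Fin 2) ℝ}
    (hA : eval p A ≠ 0)
    (h : A * G ∈ (RingHom.ker (MvPolynomial.eval p) : Ideal (MvPolynomial (Fin 2) ℝ)) ^ m) :
    G ∈ (RingHom.ker (MvPolynomial.eval p) : Ideal (MvPolynomial (Fin 2) ℝ)) ^ m := by
  have h1 : (1 - A * C (eval p A)⁻¹ : MvPolynomial (Fin 2) ℝ) ∈
      (RingHom.ker (MvPolynomial.eval p) : Ideal (MvPolynomial (Fin 2) ℝ)) := by
    rw [RingHom.mem_ker, map_sub, map_mul, map_one, eval_C, mul_inv_cancel₀ hA, sub_self]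
  have h2 := Ideal.pow_mem_pow h1 m
  obtain ⟨B, hB⟩ : A ∣ 1 - (1 - A * C (eval p A)⁻¹) ^ m := by
    have h3 : (1 - (1 - A * C (eval p A)⁻¹ : MvPolynomial (Fin 2) ℝ)) ∣
        1 ^ m - (1 - A * C (eval p A)⁻¹) ^ m := sub_dvd_pow_sub_pow _ _ _
    rw [one_pow] at h3
    refine dvd_trans ?_ h3
    exact ⟨C (eval p A)⁻¹, by ring⟩
  have h4 : G = B * (A * G) + G * (1 - A * C (eval p A)⁻¹) ^ m := by
    have : B * (A * G) = (A * B) * G := by ring
    rw [this, ← hB]
    ring
  rw [h4]
  exact Ideal.add_mem _ (Ideal.mul_mem_left _ _ h) (Ideal.mul_mem_left _ _ h2)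

/-- A polynomial of small degree vanishing to high order is zero. -/
lemma toPS_eq_zero_of_mem {p : Fin 2 → ℝ} {m : ℕ} (v : ↥(tri m) → ℝ)
    (h : toPS (tri m) v ∈
      (RingHom.ker (MvPolynomial.eval p) : Ideal (MvPolynomial (Fin 2) ℝ)) ^ m) : v = 0 := by
  classical
  rw [mem_ker_pow_iff] at h
  have h1 : shift p (toPS (tri m) v) = 0 := by
    ext s
    rw [coeff_zero]
    by_cases hs : s 0 + s 1 < m
    · have := h (s 0, s 1) (mem_tri.2 hs)
      rwa [mon_eta] at this
    · unfold toPS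
      rw [Fintype.linearCombination_apply, map_sum, coeff_sum]
      refine Finset.sum_eq_zero fun r _ => ?_
      rw [map_smul, coeff_smul, ← mon_eta s, coeff_shift_mon]
      have hr := mem_tri.1 r.2
      have h2 : ec (p 0) (p 1) r.1.1 r.1.2 (s 0) (s 1) = 0 := by
        unfold ec
        by_cases h3 : r.1.1 < s 0
        · have : ((Polynomial.X + Polynomial.C (p 0)) ^ r.1.1 : Polynomial ℝ).coeff (s 0) = 0 := by
            apply Polynomial.coeff_eq_zero_of_natDegree_lt
            rw [Polynomial.natDegree_pow, Polynomial.natDegree_X_add_C]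
            omega
          rw [this, zero_mul]
        · have : ((Polynomial.X + Polynomial.C (p 1)) ^ r.1.2 : Polynomial ℝ).coeff (s 1) = 0 := by
            apply Polynomial.coeff_eq_zero_of_natDegree_lt
            rw [Polynomial.natDegree_pow, Polynomial.natDegree_X_add_C]
            omega
          rw [this, mul_zero]
      rw [h2, smul_zero]
  have h2 : toPS (tri m) v = 0 := by
    have := shift_shift_neg p (toPS (tri m) v)
    rw [← this, h1, map_zero]
  exact toPS_injective (tri m) (h2.trans (map_zero _).symm)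

/-- The factor which vanishes at the other points. -/
lemma exists_factor {τ : Type*} {q : τ → Fin 2 → ℝ} (hq : Function.Injective q)
    (m : τ → ℕ) (t : τ) (S : Finset τ) (hS : t ∉ S) :
    ∃ A : MvPolynomial (Fin 2) ℝ, A.totalDegree ≤ ∑ s ∈ S, m s ∧ eval (q t) A ≠ 0 ∧
      ∀ s ∈ S, A ∈ (RingHom.ker (MvPolynomial.eval (q s)) :
        Ideal (MvPolynomial (Fin 2) ℝ)) ^ m s := by
  classical
  induction S using Finset.induction_on with
  | empty => exact ⟨1, by simp, by simp, by simp⟩
  | insert a S ha ih =>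
    obtain ⟨A, hA1, hA2, hA3⟩ := ih (fun h => hS (Finset.mem_insert_of_mem h))
    have hta : q t ≠ q a := fun h => hS (by rw [hq h]; exact Finset.mem_insert_self _ _)
    obtain ⟨i, hi⟩ : ∃ i, q t i ≠ q a i := by
      by_contra hcon
      push Not at hcon
      exact hta (funext hcon)
    have hL : (X i - C (q a i) : MvPolynomial (Fin 2) ℝ) ∈
        (RingHom.ker (MvPolynomial.eval (q a)) : Ideal (MvPolynomial (Fin 2) ℝ)) := by
      rw [RingHom.mem_ker, map_sub, eval_X, eval_C, sub_self]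
    refine ⟨(X i - C (q a i)) ^ m a * A, ?_, ?_, ?_⟩
    · rw [Finset.sum_insert ha]
      refine (totalDegree_mul _ _).trans (add_le_add ?_ hA1)
      refine (totalDegree_pow _ _).trans ?_
      have : (X i - C (q a i) : MvPolynomial (Fin 2) ℝ).totalDegree ≤ 1 := by
        refine (totalDegree_sub _ _).trans ?_
        rw [totalDegree_X, totalDegree_C]
        simp
      calc m a * _ ≤ m a * 1 := Nat.mul_le_mul_left _ this
        _ = m a := mul_one _
    · rw [map_mul, map_pow, map_sub, eval_X, eval_C]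
      exact mul_ne_zero (pow_ne_zero _ (sub_ne_zero.2 hi)) hA2
    · intro s hs
      rcases Finset.mem_insert.1 hs with rfl | hs
      · exact Ideal.mul_mem_right _ _ (Ideal.pow_mem_pow hL _)
      · exact Ideal.mul_mem_left _ _ (hA3 s hs)

/-- The product with a polynomial of small degree. -/
lemma mul_toPS_mem {N n a : ℕ} {A G : MvPolynomial (Fin 2) ℝ} (hA : A.totalDegree ≤ a)
    (hG : G ∈ LinearMap.range (toPS (tri n))) (h : n + a ≤ N) :
    A * G ∈ LinearMap.range (toPS (tri N)) := by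
  have h0 : ∀ (M : ℕ) (F : MvPolynomial (Fin 2) ℝ), F ∈ LinearMap.range (toPS (tri M)) ↔
      F ∈ Lsys M (fun _ : Empty => 0) (fun _ => 0) := by
    intro M F
    unfold Lsys
    rw [Submodule.mem_inf, mem_vanish]
    exact ⟨fun h => ⟨h, fun t => t.elim⟩, fun h => h.1⟩
  rw [h0] at hG ⊢
  exact Lsys_mono h _ _ (mul_mem_Lsys hA hG)

/-- Points of small total multiplicity. -/
theorem hT_general {τ : Type*} [Fintype τ] {q : τ → Fin 2 → ℝ} (hq : Function.Injective q) (N : ℕ)
    (m : τ → ℕ) (hm : ∑ t, m t ≤ N) : 2 * hT N m q + ∑ t, m t * (m t + 1) ≤ N * (N + 1) := by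
  classical
  choose A hA1 hA2 hA3 using fun t => exists_factor hq m t (Finset.univ.erase t)
    (Finset.notMem_erase _ _)
  let E : ((Σ t, ↥(tri (m t))) → ℝ) →ₗ[ℝ] MvPolynomial (Fin 2) ℝ :=
    ∑ t, (LinearMap.mulLeft ℝ (A t)) ∘ₗ (toPS (tri (m t))) ∘ₗ
      (LinearMap.funLeft ℝ ℝ (fun r : ↥(tri (m t)) => (⟨t, r⟩ : Σ t, ↥(tri (m t)))))
  have hE : ∀ c, E c = ∑ t, A t * toPS (tri (m t)) (fun r => c ⟨t, r⟩) := by
    intro c
    simp only [E, LinearMap.sum_apply, LinearMap.comp_apply, LinearMap.mulLeft_apply]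
    rfl
  let Φ : (↥(Lsys N m q) × ((Σ t, ↥(tri (m t))) → ℝ)) →ₗ[ℝ] MvPolynomial (Fin 2) ℝ :=
    LinearMap.coprod (Submodule.subtype (Lsys N m q)) E
  have hΦ : ∀ x, Φ x = (x.1 : MvPolynomial (Fin 2) ℝ) +
      ∑ t, A t * toPS (tri (m t)) (fun r => x.2 ⟨t, r⟩) := by
    intro x
    rw [← hE]
    rfl
  have hdeg : ∀ t, m t + ∑ s ∈ Finset.univ.erase t, m s ≤ N := by
    intro t
    rw [Finset.add_sum_erase _ _ (Finset.mem_univ t)]
    exact hm
  have hrange : ∀ x, Φ x ∈ LinearMap.range (toPS (tri N)) := by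
    intro x
    rw [hΦ]
    refine Submodule.add_mem _ x.1.2.1 (Submodule.sum_mem _ fun t _ => ?_)
    exact mul_toPS_mem (hA1 t) ⟨_, rfl⟩ (hdeg t)
  have hinj : Function.Injective Φ := by
    rw [← LinearMap.ker_eq_bot, LinearMap.ker_eq_bot']
    intro x hx
    rw [hΦ] at hx
    have h1 : ∀ t, (fun r : ↥(tri (m t)) => x.2 ⟨t, r⟩) = 0 := by
      intro t
      refine toPS_eq_zero_of_mem (p := q t) _ (mem_pow_of_mul_mem_two (hA2 t) ?_)
      have h2 : A t * toPS (tri (m t)) (fun r => x.2 ⟨t, r⟩) =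
          -((x.1 : MvPolynomial (Fin 2) ℝ) + ∑ s ∈ Finset.univ.erase t,
            A s * toPS (tri (m s)) (fun r => x.2 ⟨s, r⟩)) := by
        rw [← Finset.add_sum_erase _ _ (Finset.mem_univ t)] at hx
        linear_combination hx
      rw [h2]
      refine Submodule.neg_mem _ (Submodule.add_mem _ ?_ (Submodule.sum_mem _ fun s hs => ?_))
      · exact mem_vanish.1 x.1.2.2 t
      · refine Ideal.mul_mem_right _ _ (hA3 s t ?_)
        rw [Finset.mem_erase]
        exact ⟨fun h => (Finset.mem_erase.1 hs).1 h.symm, Finset.mem_univ _⟩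
    have h3 : x.2 = 0 := by
      funext r
      exact congrFun (h1 r.1) r.2
    have h4 : x.1 = 0 := by
      rw [h3] at hx
      have h5 : ∑ t, A t * toPS (tri (m t)) (fun r => (0 : (Σ t, ↥(tri (m t))) → ℝ) ⟨t, r⟩) =
          0 := by
        refine Finset.sum_eq_zero fun t _ => ?_
        have : (fun r : ↥(tri (m t)) => (0 : (Σ t, ↥(tri (m t))) → ℝ) ⟨t, r⟩) = 0 := rfl
        rw [this, map_zero, mul_zero]
      rw [h5, add_zero] at hx
      exact Subtype.ext hx
    exact Prod.ext h4 h3
  have h1 : Module.finrank ℝ (↥(Lsys N m q) × ((Σ t, ↥(tri (m t))) → ℝ)) ≤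
      Module.finrank ℝ ↥(LinearMap.range (toPS (tri N))) :=
    LinearMap.finrank_le_finrank_of_injective
      (f := Φ.codRestrict (LinearMap.range (toPS (tri N))) hrange)
      (fun x y h => hinj (congrArg Subtype.val h))
  have h2 : Module.finrank ℝ ↥(LinearMap.range (toPS (tri N))) ≤ (tri N).card := by
    refine (LinearMap.finrank_range_le _).trans ?_
    rw [Module.finrank_fintype_fun_eq_card, Fintype.card_coe]
  rw [Module.finrank_prod, Module.finrank_fintype_fun_eq_card, Fintype.card_sigma] at h1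
  have h3 := two_card_tri N
  have h4 : ∑ t, m t * (m t + 1) = 2 * ∑ t, Fintype.card ↥(tri (m t)) := by
    rw [Finset.mul_sum]
    refine Finset.sum_congr rfl fun t _ => ?_
    rw [Fintype.card_coe, two_card_tri]
  rw [h4, ← h3]
  have h5 : hT N m q = Module.finrank ℝ ↥(Lsys N m q) := rfl
  omega

/-- At most two points with nonzero multiplicity. -/
theorem hT_two {τ : Type*} [Fintype τ] {q : τ → Fin 2 → ℝ} (hq : Function.Injective q) (N : ℕ)
    (m : τ → ℕ) (U : Finset τ) (hU : U.card ≤ 2) (h0 : ∀ t, t ∉ U → m t = 0)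
    (hm : ∑ t ∈ U, m t ≤ N) : 2 * hT N m q + ∑ t, m t * (m t + 1) ≤ N * (N + 1) := by
  refine hT_general hq N m ?_
  rw [← Finset.sum_subset (Finset.subset_univ U) (fun t _ ht => h0 t ht)]
  exact hm

end Pool.MP_70e04f_ag.Add

end

/-! ### from `Lib_MP_70e04f_add.Cubic` -/

section

/-!
# Points on the cuspidal cubic: exact dimensions for systems in standard position
-/

namespace Pool.MP_70e04f_ag.Add

open MvPolynomial Pool.MP_70e04f_ag.Hex

/-- Every three multiplicities have sum `< N`, and the total is at most `3 (N - 1)`. -/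
def Std {τ : Type*} [Fintype τ] (N : ℕ) (m : τ → ℕ) : Prop :=
  (∀ U : Finset τ, U.card ≤ 3 → ∑ t ∈ U, m t + 1 ≤ N) ∧ ∑ t, m t + 3 ≤ 3 * N

lemma Std.pos {τ : Type*} [Fintype τ] {N : ℕ} {m : τ → ℕ} (h : Std N m) : 1 ≤ N := by
  have := h.1 ∅ (by simp)
  simpa using this

lemma Std.mono {τ : Type*} [Fintype τ] {N N' : ℕ} {m : τ → ℕ} (h : Std N m) (hN : N ≤ N') :
    Std N' m :=
  ⟨fun U hU => (h.1 U hU).trans hN, by have := h.2; omega⟩

/-- Nine numbers. -/
lemma sum_nine {τ : Type*} [DecidableEq τ] (Z : Finset τ) (hZ : Z.card ≤ 9) (f : τ → ℕ) (D : ℕ)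
    (h : ∀ U : Finset τ, U.card ≤ 3 → ∑ t ∈ U, f t ≤ D) : ∑ t ∈ Z, f t ≤ 3 * D := by
  have key : ∀ Z : Finset τ, ∃ Z1 ⊆ Z, Z1.card ≤ 3 ∧ (Z \ Z1).card ≤ Z.card - 3 := by
    intro Z
    rcases Nat.lt_or_ge Z.card 3 with h | h
    · exact ⟨Z, subset_rfl, by omega, by simp⟩
    · obtain ⟨Z1, h1, h2⟩ := Finset.exists_subset_card_eq h
      exact ⟨Z1, h1, by omega, by rw [Finset.card_sdiff_of_subset h1]; omega⟩
  obtain ⟨Z1, a1, b1, c1⟩ := key Z
  obtain ⟨Z2, a2, b2, c2⟩ := key (Z \ Z1)
  have e1 := Finset.sum_sdiff a1 (f := f)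
  have e2 := Finset.sum_sdiff a2 (f := f)
  have h1 := h Z1 b1
  have h2 := h Z2 b2
  have h3 := h ((Z \ Z1) \ Z2) (by omega)
  omega

section
variable {τ : Type*} [Fintype τ] {N : ℕ} {m : τ → ℕ}

/-- The system after subtracting the cubic. -/
lemma Std.sub (h : Std N m) (h3 : 3 ≤ (Finset.univ.filter (fun t => m t ≠ 0)).card) :
    4 ≤ N ∧ Std (N - 3) (fun t => m t - 1) := by
  classical
  set Z := Finset.univ.filter (fun t => m t ≠ 0) with hZ
  have hZm : ∀ t ∈ Z, 1 ≤ m t := by
    intro t ht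
    rw [hZ, Finset.mem_filter] at ht
    omega
  have hsum1 : ∀ U ⊆ Z, ∑ t ∈ U, (m t - 1) + U.card = ∑ t ∈ U, m t := by
    intro U hU
    rw [Finset.card_eq_sum_ones, ← Finset.sum_add_distrib]
    refine Finset.sum_congr rfl fun t ht => ?_
    have := hZm t (hU ht)
    omega
  have hN : 4 ≤ N := by
    obtain ⟨U, hU, hc⟩ := Finset.exists_subset_card_eq h3
    have h1 := h.1 U (by omega)
    have h2 := hsum1 U hU
    omega
  have hout : ∀ U : Finset τ, ∑ t ∈ U, (m t - 1) = ∑ t ∈ U ∩ Z, (m t - 1) := by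
    intro U
    symm
    apply Finset.sum_subset Finset.inter_subset_left
    intro t ht ht2
    have : m t = 0 := by
      by_contra hcon
      apply ht2
      rw [Finset.mem_inter, hZ, Finset.mem_filter]
      exact ⟨ht, Finset.mem_univ t, hcon⟩
    omega
  have hA : ∀ U : Finset τ, U.card ≤ 3 → ∑ t ∈ U, (m t - 1) + 1 ≤ N - 3 := by
    intro U hU
    rw [hout]
    have hc : (U ∩ Z).card ≤ 3 := (Finset.card_le_card Finset.inter_subset_left).trans hU
    obtain ⟨W, hW1, hW2, hW3⟩ := Finset.exists_subsuperset_card_eq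
      (Finset.inter_subset_right (s₁ := U) (s₂ := Z)) hc h3
    have h1 := h.1 W (by omega)
    have h2 := hsum1 W hW2
    have h4 : ∑ t ∈ U ∩ Z, (m t - 1) ≤ ∑ t ∈ W, (m t - 1) := Finset.sum_le_sum_of_subset hW1
    omega
  refine ⟨hN, hA, ?_⟩
  have h2 : ∑ t, (m t - 1) = ∑ t ∈ Z, (m t - 1) := by
    rw [hout Finset.univ, Finset.univ_inter]
  rw [h2]
  rcases Nat.lt_or_ge Z.card 9 with h9 | h9
  · have := sum_nine Z (by omega) (fun t => m t - 1) (N - 4) (fun U hU => by
      have := hA U hU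
      omega)
    omega
  · have h4 := hsum1 Z subset_rfl
    have h5 := h.2
    have h6 : ∑ t, m t = ∑ t ∈ Z, m t := by
      symm
      apply Finset.sum_subset (Finset.subset_univ _)
      intro t _ ht
      by_contra hcon
      apply ht
      rw [hZ, Finset.mem_filter]
      exact ⟨Finset.mem_univ t, hcon⟩
    omega

lemma sum_sub_one (m : τ → ℕ) : ∑ t, m t * (m t + 1) =
    ∑ t, (m t - 1) * (m t - 1 + 1) + 2 * ∑ t, m t := by
  rw [Finset.mul_sum, ← Finset.sum_add_distrib]
  refine Finset.sum_congr rfl fun t _ => ?_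
  rcases Nat.eq_zero_or_pos (m t) with h | h
  · rw [h]; norm_num
  · obtain ⟨x, hx⟩ : ∃ x, m t = x + 1 := ⟨m t - 1, by omega⟩
    rw [hx, Nat.add_sub_cancel]
    ring

/-- The expected dimension is positive. -/
lemma Std.chi_pos (h : Std N m) : ∑ t, m t * (m t + 1) + 2 ≤ N * (N + 1) := by
  classical
  induction N using Nat.strong_induction_on generalizing m with
  | _ N ih =>
    rcases Nat.lt_or_ge (Finset.univ.filter (fun t => m t ≠ 0)).card 3 with h3 | h3
    · set Z := Finset.univ.filter (fun t => m t ≠ 0) with hZ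
      have h1 := h.1 Z (by omega)
      have h2 : ∑ t, m t * (m t + 1) = ∑ t ∈ Z, m t * (m t + 1) := by
        symm
        apply Finset.sum_subset (Finset.subset_univ _)
        intro t _ ht
        have : m t = 0 := by
          by_contra hcon
          apply ht
          rw [hZ, Finset.mem_filter]
          exact ⟨Finset.mem_univ t, hcon⟩
        rw [this, Nat.zero_mul]
      have h4 : ∑ t ∈ Z, m t * (m t + 1) ≤ (∑ t ∈ Z, m t) * (∑ t ∈ Z, m t + 1) := by
        rw [Finset.sum_mul]
        apply Finset.sum_le_sum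
        intro t ht
        apply Nat.mul_le_mul_left
        have := Finset.single_le_sum (f := m) (fun _ _ => Nat.zero_le _) ht
        omega
      have h5 := h.pos
      rw [h2]
      obtain ⟨x, hx⟩ : ∃ x, N = x + 1 := ⟨N - 1, by omega⟩
      subst hx
      have h6 : (∑ t ∈ Z, m t) * (∑ t ∈ Z, m t + 1) ≤ x * (x + 1) :=
        Nat.mul_le_mul (by omega) (by omega)
      nlinarith
    · obtain ⟨hN, hs⟩ := h.sub h3
      have h1 := ih (N - 3) (by omega) hs
      have h2 := h.2
      rw [sum_sub_one m]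
      obtain ⟨x, hx⟩ : ∃ x, N = x + 4 := ⟨N - 4, by omega⟩
      subst hx
      rw [show x + 4 - 3 = x + 1 by omega] at h1
      nlinarith

/-- The dimension is at most the expected one. -/
theorem Std.hT_le {e : τ → ℝ} (he : Function.Injective e) (he0 : ∀ t, 0 < e t) (h : Std N m) :
    2 * hT N m (cpt e) + ∑ t, m t * (m t + 1) ≤ N * (N + 1) := by
  classical
  have hq : Function.Injective (cpt e) := by
    intro t t' htt
    apply he
    have h1 : e t ^ 2 = e t' ^ 2 := congrFun htt 0
    exact (sq_eq_sq₀ (he0 t).le (he0 t').le).1 h1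
  induction N using Nat.strong_induction_on generalizing m with
  | _ N ih =>
    rcases Nat.lt_or_ge (Finset.univ.filter (fun t => m t ≠ 0)).card 3 with h3 | h3
    · apply hT_two hq N m _ (Nat.le_of_lt_succ h3)
      · intro t ht
        by_contra hcon
        apply ht
        rw [Finset.mem_filter]
        exact ⟨Finset.mem_univ t, hcon⟩
      · have := h.1 _ (show (Finset.univ.filter (fun t => m t ≠ 0)).card ≤ 3 by omega)
        omega
    · obtain ⟨hN, hs⟩ := h.sub h3
      have h1 := ih (N - 3) (by omega) hs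
      have h2 := h.2
      have h4 := finrank_cub he he0 (N := N) (by omega) (m := m) (by omega)
      have h5 := finrank_cub_ker he0 (N := N) m
      have h6 : hT N m (cpt e) ≤ Module.finrank ℝ ↥((Lsys N m (cpt e)).map cub.toLinearMap) +
          Module.finrank ℝ ↥(Lsys N m (cpt e) ⊓ LinearMap.ker cub.toLinearMap) := by
        have h7 := LinearMap.finrank_range_add_finrank_ker
          (cub.toLinearMap.domRestrict (Lsys N m (cpt e)))
        rw [LinearMap.range_domRestrict] at h7
        have h8 : Module.finrank ℝ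
            ↥(LinearMap.ker (cub.toLinearMap.domRestrict (Lsys N m (cpt e)))) ≤
            Module.finrank ℝ ↥(Lsys N m (cpt e) ⊓ LinearMap.ker cub.toLinearMap) := by
          have : Module.Finite ℝ ↥(Lsys N m (cpt e) ⊓ LinearMap.ker cub.toLinearMap) :=
            Submodule.finiteDimensional_inf_left _ _
          apply LinearMap.finrank_le_finrank_of_injective
            (f := (((Lsys N m (cpt e)).subtype).domRestrict
              (LinearMap.ker (cub.toLinearMap.domRestrict (Lsys N m (cpt e))))).codRestrict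
              (Lsys N m (cpt e) ⊓ LinearMap.ker cub.toLinearMap) (fun x => ⟨x.1.2, x.2⟩))
          intro x y hxy
          have := congrArg Subtype.val hxy
          exact Subtype.ext (Subtype.ext this)
        unfold hT
        omega
      rw [sum_sub_one m]
      obtain ⟨x, hx⟩ : ∃ x, N = x + 4 := ⟨N - 4, by omega⟩
      subst hx
      rw [show x + 4 - 3 = x + 1 by omega] at h1 h5
      have h9 : x + 4 - 1 = x + 3 := rfl
      rw [h9] at h4
      nlinarith

/-- The dimension is at least the expected one. -/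
lemma hT_ge (N : ℕ) (m : τ → ℕ) (q : τ → Fin 2 → ℝ) :
    N * (N + 1) ≤ 2 * hT N m q + ∑ t, m t * (m t + 1) := by
  classical
  rw [hT_eq]
  have h0 := LinearMap.finrank_range_add_finrank_ker (condP (tri N) m q).mulVecLin
  have h2 := Submodule.finrank_le (LinearMap.range (condP (tri N) m q).mulVecLin)
  rw [Module.finrank_fintype_fun_eq_card] at h0 h2
  rw [Fintype.card_coe] at h0
  have h5 := two_card_tri N
  have h6 : 2 * Fintype.card (Σ t : τ, ↥(tri (m t))) = ∑ t, m t * (m t + 1) := by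
    rw [Fintype.card_sigma, Finset.mul_sum]
    refine Finset.sum_congr rfl fun t _ => ?_
    rw [Fintype.card_coe, two_card_tri]
  omega

end

end Pool.MP_70e04f_ag.Add

end

/-! ### from `Lib_MP_70e04f_nine.CubSur` -/

section

/-!
# Curves with given restriction to the cuspidal cubic (piece CUBSUR)

PAPER PROOF. Let `Z` be the space of real polynomials `w` with support in `{0, ..., 3 k}` without
`1`, divisible by `(X - C (e t)) ^ c t` for all `t`. As in the proof of `finrank_cub`
(`Lib_MP_70e04f_add/CubA.lean`): choose `y > 0` different from the `e t`; an element of `Z`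
divisible by `(X - C y) ^ s`, `s = 3 k - ∑ c t`, is zero by Descartes (`row_zero`), so
`finrank Z ≤ s`. Let `W = (Lsys (k + 1) c (cpt e)).map cub`; `W ≤ Z` (`CubA.support_cub` gives the
cardinality only, its proof gives the support; `CubA.dvd_cub`). Now
`finrank W = hT (k + 1) c - finrank (kernel)`, the kernel has dimension at most
`hT (k + 1 - 3) (c - 1)` (`finrank_cub_ker`), and
`2 hT (k + 1) c ≥ (k + 1) (k + 2) - ∑ c (c + 1)` (`hT_ge`),
`2 hT (k - 2) (c - 1) + ∑ (c - 1) c ≤ (k - 2) (k - 1)`: if at least three `c t` are not zero this is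
`Std.sub` and `Std.hT_le` (`Lib_MP_70e04f_add/Cubic.lean`, `Std (k + 1) c` holds); otherwise it is
`hT_two` with the set `U` of the `t` with `c t ≠ 0`: `∑ t ∈ U, (c t - 1) ≤ k - 2` since the sum of two
is at most `k`, resp. `c t ≤ k - 1` if there is only one, because `c t ^ 2 < k ^ 2`. (If `k = 1` then
all `c t = 0` because of `∑ c t ^ 2 < 1`.) Hence `finrank W ≥ 3 k - ∑ c t ≥ finrank Z`, `W = Z`.
-/

namespace Pool.MP_70e04f_ag.Nine

open MvPolynomial Pool.MP_70e04f_ag.Hex Pool.MP_70e04f_ag.Add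

/-- The space of the possible restrictions. -/
noncomputable def cubSpace {τ : Type*} (e : τ → ℝ) (k : ℕ) (c : τ → ℕ) :
    Submodule ℝ (Polynomial ℝ) where
  carrier := {w | w.natDegree ≤ 3 * k ∧ w.coeff 1 = 0 ∧
    ∀ t, (Polynomial.X - Polynomial.C (e t)) ^ c t ∣ w}
  add_mem' := by
    rintro v w ⟨h1, h2, h3⟩ ⟨h1', h2', h3'⟩
    refine ⟨(Polynomial.natDegree_add_le _ _).trans (max_le h1 h1'), ?_, fun t => ?_⟩
    · rw [Polynomial.coeff_add, h2, h2', add_zero]
    · exact dvd_add (h3 t) (h3' t)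
  zero_mem' := ⟨by simp, by simp, fun t => dvd_zero _⟩
  smul_mem' := by
    rintro a w ⟨h1, h2, h3⟩
    refine ⟨(Polynomial.natDegree_smul_le _ _).trans h1, ?_, fun t => ?_⟩
    · rw [Polynomial.coeff_smul, h2, smul_zero]
    · rw [Polynomial.smul_eq_C_mul]
      exact Dvd.dvd.mul_left (h3 t) _

lemma mem_cubSpace {τ : Type*} {e : τ → ℝ} {k : ℕ} {c : τ → ℕ} {w : Polynomial ℝ} :
    w ∈ cubSpace e k c ↔ w.natDegree ≤ 3 * k ∧ w.coeff 1 = 0 ∧
      ∀ t, (Polynomial.X - Polynomial.C (e t)) ^ c t ∣ w := Iff.rfl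

lemma cubSpace_finrank {τ : Type*} [Fintype τ] {e : τ → ℝ} (he : Function.Injective e)
    (he0 : ∀ t, 0 < e t) {k : ℕ} (hk : 1 ≤ k) {c : τ → ℕ} (hK : ∑ t, c t ≤ 3 * k) :
    Module.Finite ℝ ↥(cubSpace e k c) ∧
      Module.finrank ℝ ↥(cubSpace e k c) + ∑ t, c t ≤ 3 * k := by
  classical
  set s : ℕ := 3 * k - ∑ t, c t with hs
  set y : ℝ := ∑ t, e t + 1 with hy
  have hy0 : 0 < y := by
    have : 0 ≤ ∑ t, e t := Finset.sum_nonneg fun t _ => (he0 t).le
    linarith
  have hye : ∀ t, e t ≠ y := by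
    intro t
    have : e t ≤ ∑ t, e t := Finset.single_le_sum (fun t _ => (he0 t).le) (Finset.mem_univ t)
    intro h
    linarith
  let T : Polynomial ℝ →ₗ[ℝ] (Fin s → ℝ) :=
    LinearMap.pi fun i => (Polynomial.lcoeff ℝ i).comp (Polynomial.taylor y)
  have hT : ∀ f i, T f i = (Polynomial.taylor y f).coeff i := fun f i => rfl
  have hker : ∀ f ∈ cubSpace e k c, T f = 0 → f = 0 := by
    intro f hf hTf
    obtain ⟨hf1, hf2, hf3⟩ := mem_cubSpace.1 hf
    have h1 : (Polynomial.X - Polynomial.C y) ^ s ∣ f := by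
      rw [Polynomial.X_sub_C_pow_dvd_iff, Polynomial.X_pow_dvd_iff]
      intro d hd
      have := congrFun hTf ⟨d, hd⟩
      rw [hT] at this
      exact this
    have hsupp : f.support.card ≤ 3 * k := by
      have h2 : f.support ⊆ (Finset.range (3 * k + 1)).erase 1 := by
        intro n hn
        rw [Finset.mem_erase, Finset.mem_range]
        refine ⟨?_, ?_⟩
        · rintro rfl
          exact (Polynomial.mem_support_iff.1 hn) hf2
        · exact Nat.lt_succ_of_le ((Polynomial.le_natDegree_of_mem_supp n hn).trans hf1)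
      refine (Finset.card_le_card h2).trans ?_
      rw [Finset.card_erase_of_mem (by rw [Finset.mem_range]; omega), Finset.card_range]
      omega
    exact row_zero e he0 he y hy0 hye f Finset.univ c (fun t _ => hf3 t) s h1
      (hsupp.trans (by omega))
  have hinj : Function.Injective (T.domRestrict (cubSpace e k c)) := by
    rw [← LinearMap.ker_eq_bot, LinearMap.ker_eq_bot']
    intro f hf
    apply Subtype.ext
    exact hker f.1 f.2 hf
  refine ⟨Module.Finite.of_injective _ hinj, ?_⟩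
  have h1 := LinearMap.finrank_le_finrank_of_injective hinj
  rw [Module.finrank_fintype_fun_eq_card, Fintype.card_fin] at h1
  omega

/-- The restriction of a polynomial of degree at most `k`. -/
lemma cub_natDegree {k : ℕ} {F : MvPolynomial (Fin 2) ℝ}
    (h : F ∈ LinearMap.range (toPS (tri (k + 1)))) :
    (cub F).natDegree ≤ 3 * k ∧ (cub F).coeff 1 = 0 := by
  have key : ∀ n, (3 * k < n ∨ n = 1) → (cub F).coeff n = 0 := by
    intro n hn
    obtain ⟨v, rfl⟩ := h
    rw [toPS, Fintype.linearCombination_apply, map_sum, Polynomial.finsetSum_coeff]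
    apply Finset.sum_eq_zero
    intro q _
    have h2 := mem_tri.1 q.2
    have h3 : cub ((v q) • (X 0 ^ q.1.1 * X 1 ^ q.1.2 : MvPolynomial (Fin 2) ℝ)) =
        (v q) • Polynomial.X ^ (2 * q.1.1 + 3 * q.1.2) := by
      rw [map_smul, map_mul, map_pow, map_pow, pow_add, pow_mul, pow_mul]
      simp [cub]
    rw [h3, Polynomial.coeff_smul, Polynomial.coeff_X_pow, if_neg, smul_zero]
    omega
  refine ⟨?_, key 1 (Or.inr rfl)⟩
  rw [Polynomial.natDegree_le_iff_coeff_eq_zero]
  intro n hn
  exact key n (Or.inl hn)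

/-- The dimension of the kernel is at most the expected one. -/
lemma cub_ker_le {τ : Type*} [Fintype τ] {e : τ → ℝ} (he : Function.Injective e)
    (he0 : ∀ t, 0 < e t) {k : ℕ} {c : τ → ℕ} (h3 : ∀ U : Finset τ, U.card ≤ 3 → ∑ t ∈ U, c t ≤ k)
    (hK : ∑ t, c t ≤ 3 * k) (hsq : ∑ t, c t ^ 2 < k ^ 2) :
    2 * hT (k - 2) (fun t => c t - 1) (cpt e) + ∑ t, (c t - 1) * (c t - 1 + 1) ≤
      (k - 2) * (k - 2 + 1) := by
  classical
  have hq : Function.Injective (cpt e) := by
    intro t t' htt
    apply he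
    have h1 : e t ^ 2 = e t' ^ 2 := congrFun htt 0
    exact (sq_eq_sq₀ (he0 t).le (he0 t').le).1 h1
  have hstd : Std (k + 1) c :=
    ⟨fun U hU => by have := h3 U hU; omega, by omega⟩
  have hlt : ∀ t, c t < k := by
    intro t
    have h1 : c t ^ 2 ≤ ∑ t, c t ^ 2 :=
      Finset.single_le_sum (f := fun t => c t ^ 2) (fun t _ => Nat.zero_le _) (Finset.mem_univ t)
    exact lt_of_pow_lt_pow_left₀ 2 (Nat.zero_le _) (h1.trans_lt hsq)
  set U := Finset.univ.filter (fun t => c t ≠ 0) with hU
  rcases Nat.lt_or_ge U.card 3 with h4 | h4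
  · apply hT_two hq (k - 2) (fun t => c t - 1) U (Nat.le_of_lt_succ h4)
    · intro t ht
      by_contra hcon
      apply ht
      rw [hU, Finset.mem_filter]
      refine ⟨Finset.mem_univ t, ?_⟩
      intro h0
      apply hcon
      show c t - 1 = 0
      omega
    · have hsum1 : ∑ t ∈ U, (c t - 1) + U.card = ∑ t ∈ U, c t := by
        rw [Finset.card_eq_sum_ones, ← Finset.sum_add_distrib]
        refine Finset.sum_congr rfl fun t ht => ?_
        rw [hU, Finset.mem_filter] at ht
        omega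
      have h5 := h3 U (by omega)
      rcases Nat.lt_or_ge U.card 2 with h6 | h6
      · rcases Nat.lt_or_ge U.card 1 with h7 | h7
        · have h8 : U = ∅ := Finset.card_eq_zero.1 (by omega)
          rw [h8]
          simp
        · obtain ⟨t, ht⟩ := Finset.card_eq_one.1 (show U.card = 1 by omega)
          rw [ht, Finset.sum_singleton]
          have := hlt t
          omega
      · omega
  · have h5 := hstd.sub h4
    rw [show k + 1 - 3 = k - 2 by omega] at h5
    exact h5.2.hT_le he he0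

/-- Curves with given restriction to the cuspidal cubic. -/
theorem exists_cub_eq {τ : Type*} [Fintype τ] {e : τ → ℝ} (he : Function.Injective e)
    (he0 : ∀ t, 0 < e t) {k : ℕ} {c : τ → ℕ} (h3 : ∀ U : Finset τ, U.card ≤ 3 → ∑ t ∈ U, c t ≤ k)
    (hK : ∑ t, c t ≤ 3 * k) (hsq : ∑ t, c t ^ 2 < k ^ 2) (w : Polynomial ℝ)
    (hw : w.natDegree ≤ 3 * k) (hw1 : w.coeff 1 = 0)
    (hdvd : ∀ t, (Polynomial.X - Polynomial.C (e t)) ^ c t ∣ w) :
    ∃ f ∈ Lsys (k + 1) c (cpt e), cub f = w := by
  classical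
  have hk : 1 ≤ k := by
    rcases Nat.eq_zero_or_pos k with h0 | h0
    · subst h0
      simp at hsq
    · exact h0
  obtain ⟨hfin, hZ⟩ := cubSpace_finrank he he0 hk hK
  set W := (Lsys (k + 1) c (cpt e)).map cub.toLinearMap with hW
  have hle : W ≤ cubSpace e k c := by
    rintro _ ⟨F, hF, rfl⟩
    obtain ⟨hF1, hF2⟩ := Submodule.mem_inf.1 hF
    rw [mem_vanish] at hF2
    obtain ⟨a1, a2⟩ := cub_natDegree hF1
    exact ⟨a1, a2, fun t => CubA.dvd_cub (hF2 t)⟩
  have hker := cub_ker_le he he0 h3 hK hsq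
  have h5 := finrank_cub_ker he0 (N := k + 1) c
  rw [show k + 1 - 3 = k - 2 by omega] at h5
  have : Module.Finite ℝ ↥(Lsys (k + 1) c (cpt e)) := by
    have h1 : Module.Finite ℝ ↥(LinearMap.range (toPS (tri (k + 1)))) := inferInstance
    rw [Lsys]
    exact Submodule.finiteDimensional_inf_left _ _
  have h6 : hT (k + 1) c (cpt e) ≤ Module.finrank ℝ ↥W +
      Module.finrank ℝ ↥(Lsys (k + 1) c (cpt e) ⊓ LinearMap.ker cub.toLinearMap) := by
    have h7 := LinearMap.finrank_range_add_finrank_ker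
      (cub.toLinearMap.domRestrict (Lsys (k + 1) c (cpt e)))
    rw [LinearMap.range_domRestrict, ← hW] at h7
    have h8 : Module.finrank ℝ
        ↥(LinearMap.ker (cub.toLinearMap.domRestrict (Lsys (k + 1) c (cpt e)))) ≤
        Module.finrank ℝ ↥(Lsys (k + 1) c (cpt e) ⊓ LinearMap.ker cub.toLinearMap) := by
      have : Module.Finite ℝ ↥(Lsys (k + 1) c (cpt e) ⊓ LinearMap.ker cub.toLinearMap) :=
        Submodule.finiteDimensional_inf_left _ _
      apply LinearMap.finrank_le_finrank_of_injective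
        (f := (((Lsys (k + 1) c (cpt e)).subtype).domRestrict
          (LinearMap.ker (cub.toLinearMap.domRestrict (Lsys (k + 1) c (cpt e))))).codRestrict
          (Lsys (k + 1) c (cpt e) ⊓ LinearMap.ker cub.toLinearMap) (fun x => ⟨x.1.2, x.2⟩))
      intro x y hxy
      have := congrArg Subtype.val hxy
      exact Subtype.ext (Subtype.ext this)
    unfold hT
    omega
  have h7 := hT_ge (k + 1) c (cpt e)
  have h8 := sum_sub_one c
  have hdim : 3 * k ≤ Module.finrank ℝ ↥W + ∑ t, c t := by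
    rw [h8] at h7
    rcases Nat.lt_or_ge k 2 with h9 | h9
    · have h10 : k = 1 := by omega
      subst h10
      omega
    · obtain ⟨x, rfl⟩ : ∃ x, k = x + 2 := ⟨k - 2, by omega⟩
      rw [show x + 2 - 2 = x by omega] at hker h5
      nlinarith
  have heq : W = cubSpace e k c :=
    Submodule.eq_of_le_of_finrank_le hle (by omega)
  have hwm : w ∈ W := by
    rw [heq]
    exact ⟨hw, hw1, hdvd⟩
  obtain ⟨F, hF, hFw⟩ := hwm
  exact ⟨F, hF, hFw⟩

end Pool.MP_70e04f_ag.Nine

end

/-! ### from `Lib_MP_70e04f_nine.Curve` -/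

section

/-!
# An irreducible curve of the given class (piece CURVE)

PAPER PROOF. Let `s = 3 k - ∑ c t - 1` and `v = posProd e c s`, `natDegree v = 3 k - 1 ≥ 1`. By
`coeff_posProd` `ρ = - v.coeff 0 / v.coeff 1 > 0`, and `w = v * (X + C ρ)` has degree `3 k`, leading
coefficient `1`, `w.coeff 1 = v.coeff 0 + ρ * v.coeff 1 = 0`, and is divisible by
`(X - C (e t)) ^ c t`. Take `f` from `exists_cub_eq`, `cub f = w`, and `P = ![(-ρ) ^ 2, (-ρ) ^ 3]`.

`top`: `coeff_cub_top`: the coefficient is `w.coeff (3 k) = 1`; `deg`: `totalDegree f ≤ k`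
(`mem_range_tri`), and `mon 0 k` is in the support. `exact`: otherwise
`(X - C (e t)) ^ (c t + 1) ∣ w` (`CubA.dvd_cub`); cancel `(X - C (e t)) ^ c t` and evaluate at
`e t`: the other factors `e t - e t'`, `e t - 1`, `e t + ρ` are not zero. `zero`: `CubA.eval_cub`.
`smooth`: if both partial derivatives vanish at `P` then `derivative w` vanishes at `-ρ`
(`derivative_cub`, `CubA.eval_cub`), but `derivative w = derivative v * (X + C ρ) + v` has the value
`v.eval (-ρ) ≠ 0` (all roots of `v` are positive).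

`irr`: `f` is not a unit (it vanishes at `P`). Let `f = g * h`. Then
`totalDegree g + totalDegree h = k` (`totalDegree_mul_of_isDomain`),
`natDegree (cub g) + natDegree (cub h) = 3 k`, so `natDegree_cub_le` is an equality for both.
`X + C ρ` is prime, so it divides `cub g` or `cub h`; if `cub g = (X + C ρ) * g'` then
`g' * cub h = v`, so `cub h ∣ v`, and `coeff_cub_one`, `natDegree_eq_zero_of_dvd` give
`natDegree (cub h) = 0`, so `totalDegree h = 0` and `h` is a nonzero constant, a unit. The other case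
is symmetric.
-/

namespace Pool.MP_70e04f_ag.Nine

open MvPolynomial Pool.MP_70e04f_ag.Hex Pool.MP_70e04f_ag.Add

/-- One half of the irreducibility. -/
private lemma curve_unit {τ : Type*} [Fintype τ] {e : τ → ℝ} (he : Function.Injective e)
    (he1 : ∀ t, 1 < e t) {c : τ → ℕ} {s : ℕ} {ρ : ℝ} {g h : MvPolynomial (Fin 2) ℝ}
    (hgh : cub g * cub h = posProd e c s * (Polynomial.X + Polynomial.C ρ))
    (hg : (Polynomial.X + Polynomial.C ρ) ∣ cub g)
    (hh0 : h ≠ 0) (hdeg : (cub h).natDegree = 3 * h.totalDegree) : IsUnit h := by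
  obtain ⟨g', hg'⟩ := hg
  have hX : (Polynomial.X + Polynomial.C ρ : Polynomial ℝ) ≠ 0 :=
    (Polynomial.monic_X_add_C ρ).ne_zero
  have h1 : g' * cub h = posProd e c s := by
    apply mul_left_cancel₀ hX
    rw [← mul_assoc, ← hg', hgh, mul_comm]
  have h2 : cub h ∣ posProd e c s := ⟨g', by rw [← h1, mul_comm]⟩
  have h3 := natDegree_eq_zero_of_dvd he he1 h2 (coeff_cub_one h)
  have h4 : h.totalDegree = 0 := by omega
  rw [totalDegree_eq_zero_iff_eq_C] at h4
  rw [h4]
  have h5 : coeff 0 h ≠ 0 := by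
    intro h6
    apply hh0
    rw [h4, h6, C_0]
  exact (isUnit_iff_ne_zero.mpr h5).map C

/-- An irreducible curve of the given class, smooth at a point. -/
theorem exists_curve {τ : Type*} [Fintype τ] {e : τ → ℝ} (he : Function.Injective e)
    (he1 : ∀ t, 1 < e t) {k : ℕ} {c : τ → ℕ} (h3 : ∀ U : Finset τ, U.card ≤ 3 → ∑ t ∈ U, c t ≤ k)
    (hK : ∑ t, c t + 1 ≤ 3 * k) (hsq : ∑ t, c t ^ 2 < k ^ 2) :
    ∃ (f : MvPolynomial (Fin 2) ℝ) (P : Fin 2 → ℝ), IsCurve k c (cpt e) f P := by
  classical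
  have hk : 1 ≤ k := by
    rcases Nat.eq_zero_or_pos k with h | h
    · subst h
      simp at hsq
    · exact h
  obtain ⟨s, hs⟩ : ∃ s : ℕ, ∑ t, c t + s = 3 * k - 1 := ⟨3 * k - 1 - ∑ t, c t, by omega⟩
  set v : Polynomial ℝ := posProd e c s with hv
  have hvmonic : v.Monic := by
    rw [hv, posProd]
    refine Polynomial.Monic.mul ?_ ((Polynomial.monic_X_sub_C 1).pow s)
    exact Polynomial.monic_prod_of_monic _ _ (fun t _ => (Polynomial.monic_X_sub_C (e t)).pow _)
  have hv01 := coeff_posProd he1 c s (by omega : 1 ≤ ∑ t, c t + s)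
  rw [← hv] at hv01
  have hv1 : v.coeff 1 ≠ 0 := by
    intro h
    rw [h, mul_zero] at hv01
    exact lt_irrefl _ hv01
  have hvdeg : v.natDegree = 3 * k - 1 := by rw [hv, natDegree_posProd, hs]
  obtain ⟨ρ, hρ⟩ : ∃ ρ : ℝ, ρ = - v.coeff 0 / v.coeff 1 := ⟨_, rfl⟩
  have hρ0 : 0 < ρ := by
    have h1 : ρ = -(v.coeff 0 * v.coeff 1) / (v.coeff 1) ^ 2 := by
      rw [hρ]
      field_simp
    rw [h1]
    apply div_pos (by linarith)
    positivity
  set w : Polynomial ℝ := v * (Polynomial.X + Polynomial.C ρ) with hw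
  have hwmonic : w.Monic := hvmonic.mul (Polynomial.monic_X_add_C ρ)
  have hwdeg : w.natDegree = 3 * k := by
    rw [hw, hvmonic.natDegree_mul (Polynomial.monic_X_add_C ρ), hvdeg,
      Polynomial.natDegree_X_add_C]
    omega
  have hw1 : w.coeff 1 = 0 := by
    rw [hw, mul_add, Polynomial.coeff_add, Polynomial.coeff_mul_C,
      show (1 : ℕ) = 0 + 1 from rfl, Polynomial.coeff_mul_X, hρ]
    field_simp
    ring
  have hdvd : ∀ t, (Polynomial.X - Polynomial.C (e t)) ^ c t ∣ w := by
    intro t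
    rw [hw, hv, posProd]
    exact ((Finset.dvd_prod_of_mem (fun t => (Polynomial.X - Polynomial.C (e t)) ^ c t)
      (Finset.mem_univ t)).mul_right _).mul_right _
  obtain ⟨f, hf, hfw⟩ := exists_cub_eq he (fun t => zero_lt_one.trans (he1 t)) h3 (by omega) hsq w
    hwdeg.le hw1 hdvd
  have hfdeg : f.totalDegree ≤ k := mem_range_tri.1 (Submodule.mem_inf.1 hf).1
  have htop : coeff (mon 0 k) f = 1 := by
    rw [← coeff_cub_top hfdeg, hfw, ← hwdeg]
    exact hwmonic
  have hveval : v.eval (-ρ) ≠ 0 := by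
    rw [hv, posProd, Polynomial.eval_mul, Polynomial.eval_prod, Polynomial.eval_pow]
    refine mul_ne_zero (Finset.prod_ne_zero_iff.mpr ?_) (pow_ne_zero _ ?_)
    · intro t _
      rw [Polynomial.eval_pow]
      apply pow_ne_zero
      rw [Polynomial.eval_sub, Polynomial.eval_X, Polynomial.eval_C]
      have := he1 t
      intro h
      linarith
    · rw [Polynomial.eval_sub, Polynomial.eval_X, Polynomial.eval_C]
      intro h
      linarith
  refine ⟨f, ![(-ρ) ^ 2, (-ρ) ^ 3], hf, ?_, ?_, ?_, ?_, ?_, ?_⟩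
  · -- irreducible
    refine ⟨?_, ?_⟩
    · intro hu
      have h1 : IsUnit (cub f) := hu.map cub
      rw [hfw] at h1
      have h2 := Polynomial.natDegree_eq_zero_of_isUnit h1
      omega
    · intro g h hgh
      have hf0 : f ≠ 0 := by
        rintro rfl
        simp at htop
      have hg0 : g ≠ 0 := by
        rintro rfl
        exact hf0 (by rw [hgh, zero_mul])
      have hh0 : h ≠ 0 := by
        rintro rfl
        exact hf0 (by rw [hgh, mul_zero])
      have hmul : cub g * cub h = w := by rw [← map_mul, ← hgh, hfw]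
      have hw0 : w ≠ 0 := hwmonic.ne_zero
      have hcg : cub g ≠ 0 := by
        intro h0
        rw [h0, zero_mul] at hmul
        exact hw0 hmul.symm
      have hch : cub h ≠ 0 := by
        intro h0
        rw [h0, mul_zero] at hmul
        exact hw0 hmul.symm
      have hd1 : (cub g).natDegree + (cub h).natDegree = 3 * k := by
        rw [← Polynomial.natDegree_mul hcg hch, hmul, hwdeg]
      have hd2 : g.totalDegree + h.totalDegree ≤ k := by
        rw [← totalDegree_mul_of_isDomain hg0 hh0, ← hgh]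
        exact hfdeg
      have hd3 := natDegree_cub_le g
      have hd4 := natDegree_cub_le h
      have hprime : Prime (Polynomial.X + Polynomial.C ρ : Polynomial ℝ) := by
        have := Polynomial.prime_X_sub_C (-ρ)
        rwa [map_neg, sub_neg_eq_add] at this
      have hdiv : (Polynomial.X + Polynomial.C ρ : Polynomial ℝ) ∣ cub g * cub h := by
        rw [hmul, hw]
        exact Dvd.intro_left _ rfl
      rcases hprime.dvd_or_dvd hdiv with h1 | h1
      · right
        exact curve_unit he he1 (by rw [hmul, hw]) h1 hh0 (by omega)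
      · left
        exact curve_unit he he1 (by rw [mul_comm, hmul, hw]) h1 hg0 (by omega)
  · -- degree
    apply le_antisymm hfdeg
    have h1 : mon 0 k ∈ f.support := by
      rw [mem_support_iff, htop]
      exact one_ne_zero
    have h2 := le_totalDegree h1
    have h4 : (mon 0 k).sum (fun _ e => e) = (mon 0 k).degree := rfl
    rw [h4, degree_mon, zero_add] at h2
    exact h2
  · rw [htop]
    exact one_ne_zero
  · -- exact multiplicities
    intro t ht
    have h1 : (Polynomial.X - Polynomial.C (e t)) ^ (c t + 1) ∣ cub f := CubA.dvd_cub ht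
    rw [hfw, hw, hv, posProd, ← Finset.mul_prod_erase Finset.univ _ (Finset.mem_univ t), pow_succ,
      mul_assoc, mul_assoc] at h1
    have h2 := (mul_dvd_mul_iff_left (pow_ne_zero _ (Polynomial.X_sub_C_ne_zero (e t)))).1 h1
    rw [Polynomial.dvd_iff_isRoot, Polynomial.IsRoot.def, Polynomial.eval_mul,
      Polynomial.eval_prod, Polynomial.eval_mul, Polynomial.eval_pow] at h2
    revert h2
    refine mul_ne_zero (Finset.prod_ne_zero_iff.mpr ?_) (mul_ne_zero (pow_ne_zero _ ?_) ?_)
    · intro t' ht'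
      rw [Polynomial.eval_pow]
      apply pow_ne_zero
      rw [Polynomial.eval_sub, Polynomial.eval_X, Polynomial.eval_C]
      intro h
      exact (Finset.ne_of_mem_erase ht') (he (by linarith))
    · rw [Polynomial.eval_sub, Polynomial.eval_X, Polynomial.eval_C]
      have := he1 t
      intro h
      linarith
    · rw [Polynomial.eval_add, Polynomial.eval_X, Polynomial.eval_C]
      have := he1 t
      intro h
      linarith
  · -- the point
    rw [← CubA.eval_cub, hfw, hw, Polynomial.eval_mul, Polynomial.eval_add, Polynomial.eval_X,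
      Polynomial.eval_C, neg_add_cancel, mul_zero]
  · -- smooth
    by_contra hcon
    push Not at hcon
    have h1 := congrArg (Polynomial.eval (-ρ)) (derivative_cub f)
    rw [hfw, hw] at h1
    simp only [Polynomial.derivative_mul, Polynomial.derivative_add, Polynomial.derivative_X,
      Polynomial.derivative_C, Polynomial.eval_add, Polynomial.eval_mul, Polynomial.eval_X,
      Polynomial.eval_C, Polynomial.eval_pow, add_zero, mul_one, CubA.eval_cub] at h1
    rw [hcon.1, hcon.2] at h1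
    simp only [mul_zero, add_zero, neg_add_cancel, zero_add] at h1
    exact hveval h1

end Pool.MP_70e04f_ag.Nine

end

/-! ### from `Lib_MP_70e04f_hal.NodB` -/

section

/-!
# The kernel of the restriction to the acnodal cubic (piece NODB)

HOW TO: adapt `Lib_MP_70e04f_add/CubB.lean` (`normal_form`, `coeff_mul_mon` can be reused or
copied). Modulo `ncu` every polynomial is congruent to `A (x) + y B (x)`
(`y ^ 2 = x ^ 3 - x ^ 2`), and
`A (S ^ 2 + 1) + S (S ^ 2 + 1) B (S ^ 2 + 1) = 0` gives `A = B = 0`: even and odd parts, i.e. replace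
`S` by `- S`, add and subtract (`A.comp (X ^ 2 + 1) = 0` implies `A = 0`, `natDegree_comp` or
`Polynomial.comp_eq_zero_iff`). The cubic after the translation to `p = (x, y) =
(e ^ 2 + 1, e (e ^ 2 + 1))` is `Y ^ 2 + 2 y Y - X ^ 3 - (3 x - 1) X ^ 2 - (3 x ^ 2 - 2 x) X`, where
the coefficient `3 x ^ 2 - 2 x = x (3 x - 2)` is not zero as `x ≥ 1`; so `order_drop` has the same
proof as in `CubB.lean` (there the coefficient of `X` is `3 e ^ 4`). `finrank_nod_ker`: as
`finrank_cub_ker`. `hT_le_nod` is the rank-nullity step in the proof of `Std.hT_le`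
(`Lib_MP_70e04f_add/Cubic.lean`). `hT_ncu_mul`: multiplication by `ncu ^ j` is injective and maps
`Lsys N m` into `Lsys (N + 3 j) (m + j)` (`ncu ∈ pt (npt s t)`, `Ideal.mul_mem_mul`, and
`mul_mem_Lsys` in `Lib_MP_70e04f_add/Sys.lean` for the degree).
-/

namespace Pool.MP_70e04f_ag.Hal

open MvPolynomial Pool.MP_70e04f_ag.Hex Pool.MP_70e04f_ag.Add Pool.MP_70e04f_ag.Nine

namespace NodB

/-- Coefficients of a product with a monomial. -/
lemma coeff_mul_mon (a b i j : ℕ) (p : MvPolynomial (Fin 2) ℝ) :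
    coeff (mon a b) (X 0 ^ i * X 1 ^ j * p) =
      if i ≤ a ∧ j ≤ b then coeff (mon (a - i) (b - j)) p else 0 :=
  CubB.coeff_mul_mon a b i j p

/-- Normal form modulo the cubic. -/
lemma normal_form (F : MvPolynomial (Fin 2) ℝ) : ∃ A B : Polynomial ℝ,
    ncu ∣ F - (Polynomial.aeval (X 0 : MvPolynomial (Fin 2) ℝ) A +
        X 1 * Polynomial.aeval (X 0 : MvPolynomial (Fin 2) ℝ) B) := by
  induction F using MvPolynomial.induction_on with
  | C a =>
    refine ⟨Polynomial.C a, 0, ?_⟩
    rw [Polynomial.aeval_C, map_zero, mul_zero, add_zero, MvPolynomial.algebraMap_eq, sub_self]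
    exact dvd_zero _
  | add F G hF hG =>
    obtain ⟨A, B, h⟩ := hF
    obtain ⟨A', B', h'⟩ := hG
    refine ⟨A + A', B + B', ?_⟩
    have := dvd_add h h'
    rw [map_add, map_add]
    convert this using 1
    ring
  | mul_X F i hF =>
    obtain ⟨A, B, h⟩ := hF
    fin_cases i
    · refine ⟨A * Polynomial.X, B * Polynomial.X, ?_⟩
      rw [map_mul, map_mul, Polynomial.aeval_X]
      have := h.mul_right (X 0)
      convert this using 1
      simp only [Fin.zero_eta, Fin.isValue]
      ring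
    · refine ⟨B * (Polynomial.X ^ 3 - Polynomial.X ^ 2), A, ?_⟩
      rw [map_mul, map_sub, map_pow, map_pow, Polynomial.aeval_X]
      have h1 := h.mul_right (X 1)
      have h2 : ncu ∣ ncu * Polynomial.aeval (X 0 : MvPolynomial (Fin 2) ℝ) B :=
        dvd_mul_right _ _
      have := dvd_add h1 h2
      convert this using 1
      simp only [Fin.mk_one, Fin.isValue, ncu]
      ring

lemma nod_aeval (A : Polynomial ℝ) :
    nod (Polynomial.aeval (X 0 : MvPolynomial (Fin 2) ℝ) A) = A.comp (Polynomial.X ^ 2 + 1) := by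
  have h : nod.comp (Polynomial.aeval (X 0 : MvPolynomial (Fin 2) ℝ)) =
      Polynomial.aeval (Polynomial.X ^ 2 + 1 : Polynomial ℝ) := by
    apply Polynomial.algHom_ext
    simp [nod]
  have h1 := congrArg (fun ψ : Polynomial ℝ →ₐ[ℝ] Polynomial ℝ => ψ A) h
  simp only [AlgHom.comp_apply] at h1
  rw [h1, Polynomial.aeval_def, Polynomial.comp, Polynomial.algebraMap_eq]

lemma comp_zero {A : Polynomial ℝ} (h : A.comp (Polynomial.X ^ 2 + 1) = 0) : A = 0 := by
  rcases Polynomial.comp_eq_zero_iff.1 h with h1 | ⟨-, h2⟩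
  · exact h1
  · exfalso
    have h3 := congrArg (fun P : Polynomial ℝ => P.coeff 2) h2
    simp [Polynomial.coeff_one, Polynomial.coeff_X_pow] at h3

lemma even_odd {A B : Polynomial ℝ}
    (h : A.comp (Polynomial.X ^ 2 + 1) +
      Polynomial.X * (Polynomial.X ^ 2 + 1) * B.comp (Polynomial.X ^ 2 + 1) = 0) :
    A = 0 ∧ B = 0 := by
  have h1 := congrArg (fun P : Polynomial ℝ => P.comp (-Polynomial.X)) h
  simp only [Polynomial.add_comp, Polynomial.mul_comp, Polynomial.comp_assoc,
    Polynomial.X_comp, Polynomial.pow_comp, Polynomial.one_comp, Polynomial.zero_comp,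
    neg_sq] at h1
  have h2 : A.comp (Polynomial.X ^ 2 + 1) = 0 := by
    have h3 : (2 : Polynomial ℝ) * A.comp (Polynomial.X ^ 2 + 1) = 0 := by
      linear_combination h + h1
    exact (mul_eq_zero.1 h3).resolve_left two_ne_zero
  rw [h2, zero_add] at h
  refine ⟨comp_zero h2, comp_zero ((mul_eq_zero.1 h).resolve_left ?_)⟩
  intro h3
  have h4 := congrArg (fun P : Polynomial ℝ => P.eval 1) h3
  simp only [Polynomial.eval_mul, Polynomial.eval_X, Polynomial.eval_add, Polynomial.eval_pow,
    Polynomial.eval_one, Polynomial.eval_zero] at h4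
  norm_num at h4

/-- The cubic after the translation. -/
lemma shift_f (e : ℝ) :
    shift (![e ^ 2 + 1, e * (e ^ 2 + 1)] : Fin 2 → ℝ) ncu =
      X 0 ^ 0 * X 1 ^ 2 + C (2 * (e * (e ^ 2 + 1))) * (X 0 ^ 0 * X 1 ^ 1) - X 0 ^ 3 * X 1 ^ 0 -
        C (3 * (e ^ 2 + 1) - 1) * (X 0 ^ 2 * X 1 ^ 0) -
        C (3 * (e ^ 2 + 1) ^ 2 - 2 * (e ^ 2 + 1)) * (X 0 ^ 1 * X 1 ^ 0) := by
  simp only [ncu, shift, map_sub, map_add, map_pow, aeval_X, Matrix.cons_val_zero,
    Matrix.cons_val_one, map_mul, map_ofNat, map_one]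
  ring

lemma coeff_ncu : coeff (mon 3 0) ncu = -1 := by
  have h1 := coeff_mul_mon 3 0 0 2 1
  have h2 := coeff_mul_mon 3 0 3 0 1
  have h4 := coeff_mul_mon 3 0 2 0 1
  simp only [pow_zero, one_mul, mul_one] at h1 h2 h4
  rw [ncu, coeff_add, coeff_sub, h1, h2, h4]
  have h3 : mon 0 0 = 0 := by simp [mon]
  have h5 : coeff (mon 1 0) (1 : MvPolynomial (Fin 2) ℝ) = 0 := by
    rw [coeff_one, if_neg]
    intro h6
    have := congrArg (fun f : Fin 2 →₀ ℕ => f 0) h6
    simp [mon_zero'] at this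
  simp [h3, h5]

end NodB

open NodB

lemma nod_ncu : nod ncu = 0 := by
  simp only [nod, ncu, map_sub, map_add, map_pow, aeval_X, Matrix.cons_val_zero,
    Matrix.cons_val_one]
  ring

lemma ncu_ne_zero : ncu ≠ 0 := by
  intro h0
  have h := coeff_ncu
  rw [h0, coeff_zero] at h
  norm_num at h

lemma totalDegree_ncu : ncu.totalDegree = 3 := by
  apply le_antisymm
  · unfold ncu
    refine (totalDegree_add _ _).trans (max_le ((totalDegree_sub _ _).trans (max_le ?_ ?_)) ?_)
    · rw [totalDegree_X_pow]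
      omega
    · rw [totalDegree_X_pow]
    · rw [totalDegree_X_pow]
      omega
  · have h1 : mon 3 0 ∈ ncu.support := by
      rw [mem_support_iff, coeff_ncu]
      norm_num
    have h2 := le_totalDegree h1
    have h3 : ((mon 3 0).sum fun _ n => n) = 3 := by
      have := degree_mon 3 0
      rw [Finsupp.degree_apply] at this
      exact this
    rwa [h3] at h2

lemma ncu_mem {τ : Type*} (s : τ → ℝ) (t : τ) : ncu ∈ pt (npt s t) := by
  rw [RingHom.mem_ker]
  simp only [ncu, npt, map_sub, map_add, map_pow, eval_X, Matrix.cons_val_zero,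
    Matrix.cons_val_one]
  ring

lemma dvd_of_nod {F : MvPolynomial (Fin 2) ℝ} (h : nod F = 0) : ncu ∣ F := by
  obtain ⟨A, B, h1⟩ := normal_form F
  have h2 : nod (F - (Polynomial.aeval (X 0 : MvPolynomial (Fin 2) ℝ) A +
        X 1 * Polynomial.aeval (X 0 : MvPolynomial (Fin 2) ℝ) B)) = 0 := by
    obtain ⟨G, hG⟩ := h1
    rw [hG, map_mul, nod_ncu, zero_mul]
  rw [map_sub, h, zero_sub, neg_eq_zero, map_add, map_mul, nod_aeval, nod_aeval] at h2
  have h3 : nod (X 1 : MvPolynomial (Fin 2) ℝ) = Polynomial.X * (Polynomial.X ^ 2 + 1) := by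
    simp [nod]
  rw [h3] at h2
  obtain ⟨rfl, rfl⟩ := even_odd h2
  simpa using h1

lemma order_drop {e : ℝ} {m : ℕ} {G : MvPolynomial (Fin 2) ℝ}
    (h : ncu * G ∈ pt ![e ^ 2 + 1, e * (e ^ 2 + 1)] ^ m) :
    G ∈ pt ![e ^ 2 + 1, e * (e ^ 2 + 1)] ^ (m - 1) := by
  rw [mem_ker_pow_iff] at h ⊢
  set g := shift (![e ^ 2 + 1, e * (e ^ 2 + 1)] : Fin 2 → ℝ) G with hg
  have hc : (3 * (e ^ 2 + 1) ^ 2 - 2 * (e ^ 2 + 1) : ℝ) ≠ 0 := by
    have h1 : (3 * (e ^ 2 + 1) ^ 2 - 2 * (e ^ 2 + 1) : ℝ) = (e ^ 2 + 1) * (3 * e ^ 2 + 1) := by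
      ring
    rw [h1]
    positivity
  have key : ∀ n, n < m - 1 → ∀ b a, a + b = n → coeff (mon a b) g = 0 := by
    intro n
    induction n using Nat.strong_induction_on with
    | _ n ih =>
      intro hn b
      induction b with
      | zero =>
        intro a hab
        have h1 := h (a + 1, 0) (mem_tri.2 (by change a + 1 + 0 < m; omega))
        rw [map_mul, shift_f, ← hg] at h1
        simp only [sub_mul, add_mul, mul_assoc (C _), coeff_sub, coeff_add, coeff_C_mul,
          coeff_mul_mon] at h1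
        have e1 : ¬ (0 ≤ a + 1 ∧ 2 ≤ 0) := by omega
        have e2 : ¬ (0 ≤ a + 1 ∧ 1 ≤ 0) := by omega
        have e3 : (1 ≤ a + 1 ∧ 0 ≤ 0) := by omega
        rw [if_neg e1, if_neg e2, if_pos e3] at h1
        have e4 : (if 3 ≤ a + 1 ∧ 0 ≤ 0 then coeff (mon (a + 1 - 3) (0 - 0)) g else 0) = 0 := by
          split_ifs with h5
          · exact ih (a + 1 - 3 + 0) (by omega) (by omega) _ _ rfl
          · rfl
        have e5 : (if 2 ≤ a + 1 ∧ 0 ≤ 0 then coeff (mon (a + 1 - 2) (0 - 0)) g else 0) = 0 := by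
          split_ifs with h5
          · exact ih (a + 1 - 2 + 0) (by omega) (by omega) _ _ rfl
          · rfl
        rw [e4, e5, Nat.add_sub_cancel, Nat.sub_zero] at h1
        have h6 : (3 * (e ^ 2 + 1) ^ 2 - 2 * (e ^ 2 + 1)) * coeff (mon a 0) g = 0 := by
          linarith
        exact (mul_eq_zero.1 h6).resolve_left hc
      | succ b ihb =>
        intro a hab
        have h1 := h (a + 1, b + 1) (mem_tri.2 (by change a + 1 + (b + 1) < m; omega))
        rw [map_mul, shift_f, ← hg] at h1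
        simp only [sub_mul, add_mul, mul_assoc (C _), coeff_sub, coeff_add, coeff_C_mul,
          coeff_mul_mon] at h1
        have e2 : (0 ≤ a + 1 ∧ 1 ≤ b + 1) := by omega
        have e3 : (1 ≤ a + 1 ∧ 0 ≤ b + 1) := by omega
        rw [if_pos e2, if_pos e3] at h1
        have e1 : (if 0 ≤ a + 1 ∧ 2 ≤ b + 1 then coeff (mon (a + 1 - 0) (b + 1 - 2)) g else 0)
            = 0 := by
          split_ifs with h5
          · exact ih (a + 1 - 0 + (b + 1 - 2)) (by omega) (by omega) _ _ rfl
          · rfl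
        have e4 : (if 3 ≤ a + 1 ∧ 0 ≤ b + 1 then coeff (mon (a + 1 - 3) (b + 1 - 0)) g else 0)
            = 0 := by
          split_ifs with h5
          · exact ih (a + 1 - 3 + (b + 1 - 0)) (by omega) (by omega) _ _ rfl
          · rfl
        have e5 : (if 2 ≤ a + 1 ∧ 0 ≤ b + 1 then coeff (mon (a + 1 - 2) (b + 1 - 0)) g else 0)
            = 0 := by
          split_ifs with h5
          · exact ih (a + 1 - 2 + (b + 1 - 0)) (by omega) (by omega) _ _ rfl
          · rfl
        have e6 : coeff (mon (a + 1 - 0) (b + 1 - 1)) g = 0 := by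
          apply ihb
          omega
        rw [e1, e4, e5, e6, Nat.add_sub_cancel, Nat.sub_zero] at h1
        have h6 : (3 * (e ^ 2 + 1) ^ 2 - 2 * (e ^ 2 + 1)) * coeff (mon a (b + 1)) g = 0 := by
          linarith
        exact (mul_eq_zero.1 h6).resolve_left hc
  intro q hq
  exact key (q.1 + q.2) (mem_tri.1 hq) q.2 q.1 rfl

/-- The dimension of the kernel of the restriction. -/
theorem finrank_nod_ker {τ : Type*} [Fintype τ] {s : τ → ℝ} {N : ℕ} (m : τ → ℕ) :
    Module.finrank ℝ ↥(Lsys N m (npt s) ⊓ LinearMap.ker nod.toLinearMap) ≤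
      hT (N - 3) (fun t => m t - 1) (npt s) := by
  let M : MvPolynomial (Fin 2) ℝ →ₗ[ℝ] MvPolynomial (Fin 2) ℝ := LinearMap.mulLeft ℝ ncu
  have h : Lsys N m (npt s) ⊓ LinearMap.ker nod.toLinearMap ≤
      (Lsys (N - 3) (fun t => m t - 1) (npt s)).map M := by
    intro F hF
    obtain ⟨hF1, hF2⟩ := Submodule.mem_inf.1 hF
    obtain ⟨hF3, hF4⟩ := Submodule.mem_inf.1 hF1
    obtain ⟨G, hG⟩ := dvd_of_nod (F := F) hF2
    rw [mem_vanish] at hF4
    refine Submodule.mem_map.2 ⟨G, ?_, hG.symm⟩
    refine Submodule.mem_inf.2 ⟨?_, ?_⟩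
    · by_cases hG0 : G = 0
      · rw [hG0]
        exact Submodule.zero_mem _
      · have hFne : F ≠ 0 := by
          rw [hG]
          exact mul_ne_zero ncu_ne_zero hG0
        have hN : N ≠ 0 := by
          rintro rfl
          apply hFne
          obtain ⟨v, rfl⟩ := hF3
          rw [toPS, Fintype.linearCombination_apply]
          apply Finset.sum_eq_zero
          intro q _
          have := mem_tri.1 q.2
          omega
        obtain ⟨N', rfl⟩ := Nat.exists_eq_succ_of_ne_zero hN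
        have h1 := mem_range_tri.1 hF3
        rw [hG, totalDegree_mul_of_isDomain ncu_ne_zero hG0, totalDegree_ncu] at h1
        have h3 : N' + 1 - 3 = (N' - 3) + 1 := by omega
        rw [Nat.succ_eq_add_one, h3]
        rw [mem_range_tri]
        omega
    · rw [mem_vanish]
      intro t
      have h1 := hF4 t
      rw [hG] at h1
      exact order_drop h1
  calc Module.finrank ℝ ↥(Lsys N m (npt s) ⊓ LinearMap.ker nod.toLinearMap)
      ≤ Module.finrank ℝ ↥((Lsys (N - 3) (fun t => m t - 1) (npt s)).map M) :=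
        Submodule.finrank_mono h
    _ ≤ Module.finrank ℝ ↥(Lsys (N - 3) (fun t => m t - 1) (npt s)) :=
        Submodule.finrank_map_le _ _
    _ = hT (N - 3) (fun t => m t - 1) (npt s) := rfl

/-- Rank and nullity. -/
theorem hT_le_nod {τ : Type*} [Fintype τ] (s : τ → ℝ) (N : ℕ) (m : τ → ℕ) :
    hT N m (npt s) ≤ Module.finrank ℝ ↥((Lsys N m (npt s)).map nod.toLinearMap) +
      Module.finrank ℝ ↥(Lsys N m (npt s) ⊓ LinearMap.ker nod.toLinearMap) := by
  have h7 := LinearMap.finrank_range_add_finrank_ker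
    (nod.toLinearMap.domRestrict (Lsys N m (npt s)))
  rw [LinearMap.range_domRestrict] at h7
  have h8 : Module.finrank ℝ
      ↥(LinearMap.ker (nod.toLinearMap.domRestrict (Lsys N m (npt s)))) ≤
      Module.finrank ℝ ↥(Lsys N m (npt s) ⊓ LinearMap.ker nod.toLinearMap) := by
    have : Module.Finite ℝ ↥(Lsys N m (npt s) ⊓ LinearMap.ker nod.toLinearMap) :=
      Submodule.finiteDimensional_inf_left _ _
    apply LinearMap.finrank_le_finrank_of_injective
      (f := (((Lsys N m (npt s)).subtype).domRestrict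
        (LinearMap.ker (nod.toLinearMap.domRestrict (Lsys N m (npt s))))).codRestrict
        (Lsys N m (npt s) ⊓ LinearMap.ker nod.toLinearMap) (fun x => ⟨x.1.2, x.2⟩))
    intro x y hxy
    have := congrArg Subtype.val hxy
    exact Subtype.ext (Subtype.ext this)
  unfold hT
  omega

/-- Multiplication by powers of the cubic. -/
theorem hT_ncu_mul {τ : Type*} [Fintype τ] (s : τ → ℝ) (N : ℕ) (m : τ → ℕ) (j : ℕ) :
    hT N m (npt s) ≤ hT (N + 3 * j) (fun t => m t + j) (npt s) := by
  let M : MvPolynomial (Fin 2) ℝ →ₗ[ℝ] MvPolynomial (Fin 2) ℝ :=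
    LinearMap.mulLeft ℝ (ncu ^ j)
  have hM : Function.Injective M := by
    intro F G hFG
    exact mul_left_cancel₀ (pow_ne_zero j ncu_ne_zero) hFG
  have h : (Lsys N m (npt s)).map M ≤ Lsys (N + 3 * j) (fun t => m t + j) (npt s) := by
    rintro _ ⟨F, hF, rfl⟩
    have hdeg : (ncu ^ j).totalDegree ≤ 3 * j := by
      refine (totalDegree_pow _ _).trans ?_
      rw [totalDegree_ncu]
      omega
    have h1 := mul_mem_Lsys hdeg hF
    refine Submodule.mem_inf.2 ⟨(Submodule.mem_inf.1 h1).1, ?_⟩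
    rw [mem_vanish]
    intro t
    have h2 := mem_vanish.1 (Submodule.mem_inf.1 hF).2 t
    have h3 : ncu ^ j ∈ pt (npt s t) ^ j := Ideal.pow_mem_pow (ncu_mem s t) j
    have h4 := Ideal.mul_mem_mul h3 h2
    rw [← pow_add, add_comm j (m t)] at h4
    exact h4
  unfold hT
  rw [LinearEquiv.finrank_eq (Submodule.equivMapOfInjective M hM (Lsys N m (npt s)))]
  exact Submodule.finrank_mono h

end Pool.MP_70e04f_ag.Hal

end

/-! ### from `Lib_MP_70e04f_hal.NodE` -/

section

/-!
# The Halphen pencil has dimension two (piece NODE)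

PAPER PROOF. Let `m' t = ν` for `t ≠ 8` and `m' 8 = ν - 1`. By `hT_ge`
`2 hT (3 ν + 1) m' ≥ (3 ν + 1)(3 ν + 2) - 8 ν (ν + 1) - (ν - 1) ν = 2 ν + 2`. Let
`q = npt s 8 = (x, y)`, `e = s 8`, and `Λ F i = coeff (mon i (ν - 1 - i)) (shift q F)` for
`i < ν` (a linear map `Lsys (3 ν + 1) m' → (Fin ν → ℝ)`). By `mem_ker_pow_iff`
(`Lib_MP_70e04f_ag/Poly.lean`) its kernel is contained in `Lsys (3 ν + 1) ν` (the coefficients of
degree `< ν - 1` of `shift q F` vanish already). So it is enough to prove that the rank of `Λ` is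
at most `ν - 1`, and for this that its image is in the kernel of the functional
`v ↦ ∑ i, v i * (2 e) ^ i * (3 e ^ 2 + 1) ^ (ν - 1 - i)`, which is not zero (coefficient of `v 0`).

(1) `(X - C e) ^ ν ∣ nod F` for `F ∈ Lsys (3 ν + 1) m'`: by `lin_dvd_nod`, `natDegree_nod_le`
`nod F = lin s m' * Q` with `natDegree Q ≤ 1`. By `Tors.full` the number
`R = aeval I (lin s ν) = aeval I (lin s m') * (I - e)` is real (and not zero, `aeval_lin_ne`), and
`aeval I (nod F) = aeval I (lin s m') * Q (I)` is real, so `Q (I) / (I - e)` is real: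
`Q = a X + b`, `a I + b = r (I - e)` with `r` real, so `a = r`, `b = - r e` and
`Q = r (X - C e)`; and `(X - C e) ^ ν ∣ lin s m' * (X - C e)`.

(2) `nod F = ∑ (a, b), coeff (mon a b) (shift q F) * u ^ a * v ^ b` with
`u = X ^ 2 - C e ^ 2 = (X - C e) (X + C e)` and
`v = X (X ^ 2 + 1) - C (e (e ^ 2 + 1)) = (X - C e) (X ^ 2 + C e X + C e ^ 2 + 1)`
(`nod F = aeval ![u, v] (shift q F)`: compare the two algebra homomorphisms on the variables;
`MvPolynomial.aeval_eq_sum` or `as_sum`). The terms with `a + b < ν - 1` vanish, the ones with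
`a + b ≥ ν` are divisible by `(X - C e) ^ ν`, so (cancel `(X - C e) ^ (ν - 1)`) `X - C e` divides
`∑ i < ν, Λ F i * (X + C e) ^ i * (X ^ 2 + C e X + C e ^ 2 + 1) ^ (ν - 1 - i)`; evaluate at `e`.
-/

namespace Pool.MP_70e04f_ag.Hal

open MvPolynomial Pool.MP_70e04f_ag.Hex Pool.MP_70e04f_ag.Add Pool.MP_70e04f_ag.Nine

/-- The multiplicities, one less at the ninth point. -/
def mE (ν : ℕ) : Fin 9 → ℕ := fun t => if t = 8 then ν - 1 else ν

lemma mE_cast (n : ℕ) (i : Fin 8) : mE (n + 1) i.castSucc = n + 1 := by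
  unfold mE
  rw [if_neg]
  intro h
  have h1 := congrArg Fin.val h
  have h2 : i.castSucc.val = i.val := rfl
  have h3 : ((8 : Fin 9) : ℕ) = 8 := rfl
  have h4 := i.2
  omega

lemma mE_last (n : ℕ) : mE (n + 1) (Fin.last 8) = n := by
  unfold mE
  rw [if_pos (show (Fin.last 8 : Fin 9) = 8 from rfl)]
  rfl

lemma sum_mE_sq (n : ℕ) :
    ∑ t, mE (n + 1) t * (mE (n + 1) t + 1) = 8 * ((n + 1) * (n + 2)) + n * (n + 1) := by
  rw [Fin.sum_univ_castSucc, mE_last]
  simp only [mE_cast]
  rw [Finset.sum_const, Finset.card_univ, Fintype.card_fin, smul_eq_mul]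

lemma sum_mE (n : ℕ) : ∑ t, mE (n + 1) t = 9 * n + 8 := by
  rw [Fin.sum_univ_castSucc, mE_last]
  simp only [mE_cast]
  rw [Finset.sum_const, Finset.card_univ, Fintype.card_fin, smul_eq_mul]
  ring

lemma lin_mE (n : ℕ) (s : Fin 9 → ℝ) :
    lin s (mE (n + 1)) * (Polynomial.X - Polynomial.C (s 8)) = lin s (fun _ => n + 1) := by
  unfold lin
  rw [Fin.prod_univ_castSucc, Fin.prod_univ_castSucc (n := 8)
    (f := fun t => (Polynomial.X - Polynomial.C (s t)) ^ (n + 1)), mE_last]
  simp only [mE_cast]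
  have h8 : (Fin.last 8 : Fin 9) = 8 := rfl
  rw [h8, pow_succ (Polynomial.X - Polynomial.C (s 8)), mul_assoc]

/-- Step one. -/
lemma pow_dvd_nod {n : ℕ} {s : Fin 9 → ℝ} (h : Tors (n + 1) s) {F : MvPolynomial (Fin 2) ℝ}
    (hF : F ∈ Lsys (3 * (n + 1) + 1) (mE (n + 1)) (npt s)) :
    (Polynomial.X - Polynomial.C (s 8)) ^ (n + 1) ∣ nod F := by
  obtain ⟨Q, hQ⟩ := lin_dvd_nod h.inj hF
  by_cases h0 : nod F = 0
  · rw [h0]; exact dvd_zero _
  have hQ0 : Q ≠ 0 := by
    rintro rfl
    exact h0 (by rw [hQ, mul_zero])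
  have hd : Q.natDegree ≤ 1 := by
    have h1 : (nod F).natDegree = (lin s (mE (n + 1))).natDegree + Q.natDegree := by
      rw [hQ, (lin_monic s _).natDegree_mul' hQ0]
    rw [natDegree_lin, sum_mE] at h1
    have h2 := natDegree_nod_le F
    have h3 : F.totalDegree ≤ 3 * (n + 1) := mem_range_tri.1 hF.1
    omega
  obtain ⟨a, b, hab⟩ : ∃ a b : ℝ, Q = Polynomial.C a * Polynomial.X + Polynomial.C b :=
    ⟨_, _, Polynomial.eq_X_add_C_of_natDegree_le_one hd⟩
  obtain ⟨L, hL⟩ : ∃ L, Polynomial.aeval Complex.I (lin s (mE (n + 1))) = L := ⟨_, rfl⟩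
  have hL0 : L ≠ 0 := by
    rw [← hL]
    exact aeval_lin_ne s _
  have h1 : (L * (Complex.I - (s 8 : ℂ))).im = 0 := by
    have h2 := h.full
    rw [← lin_mE] at h2
    unfold nv at h2
    rw [map_mul, map_sub, Polynomial.aeval_X, Polynomial.aeval_C, hL] at h2
    exact h2
  have h2 : (L * ((a : ℂ) * Complex.I + (b : ℂ))).im = 0 := by
    have h3 := nv_nod F
    rw [hQ, hab] at h3
    unfold nv at h3
    rw [map_mul, map_add, map_mul, Polynomial.aeval_X, Polynomial.aeval_C, Polynomial.aeval_C,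
      hL] at h3
    exact h3
  have h1' : L.re - L.im * s 8 = 0 := by
    have := h1
    simp [Complex.mul_im] at this
    linarith
  have h2' : L.re * a + L.im * b = 0 := by
    have := h2
    simp [Complex.mul_im] at this
    linarith
  have h3 : L.im ≠ 0 := by
    intro h4
    rw [h4] at h1'
    apply hL0
    apply Complex.ext
    · rw [Complex.zero_re]; linarith
    · rw [Complex.zero_im]; exact h4
  have h4 : b = - a * s 8 := by
    have h5 : L.re = L.im * s 8 := by linarith
    rw [h5] at h2'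
    have h6 : L.im * (s 8 * a + b) = 0 := by linarith
    rcases mul_eq_zero.1 h6 with h7 | h7
    · exact absurd h7 h3
    · linarith
  have h5 : nod F = Polynomial.C a * lin s (fun _ => n + 1) := by
    rw [hQ, hab, h4, ← lin_mE, Polynomial.C_mul, Polynomial.C_neg]
    ring
  rw [h5]
  apply Dvd.dvd.mul_left
  unfold lin
  exact Finset.dvd_prod_of_mem (fun t => (Polynomial.X - Polynomial.C (s t)) ^ (n + 1))
    (Finset.mem_univ (8 : Fin 9))

/-- The leading form of a substitution. -/
lemma aeval_split (n : ℕ) (p u v : Polynomial ℝ) (G : MvPolynomial (Fin 2) ℝ)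
    (hG : ∀ q ∈ tri n, coeff (mon q.1 q.2) G = 0) :
    p ^ (n + 1) ∣ aeval ![p * u, p * v] G - p ^ n * ∑ i ∈ Finset.range (n + 1),
      Polynomial.C (coeff (mon i (n - i)) G) * (u ^ i * v ^ (n - i)) := by
  classical
  have hA : ∑ i ∈ Finset.range (n + 1),
      Polynomial.C (coeff (mon i (n - i)) G) * (u ^ i * v ^ (n - i)) =
      ∑ d ∈ G.support.filter (fun d => d 0 + d 1 = n),
        Polynomial.C (coeff d G) * (u ^ d 0 * v ^ d 1) := by
    have h1 : ∑ i ∈ Finset.range (n + 1),
        Polynomial.C (coeff (mon i (n - i)) G) * (u ^ i * v ^ (n - i)) =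
        ∑ d ∈ (Finset.range (n + 1)).image (fun i => mon i (n - i)),
          Polynomial.C (coeff d G) * (u ^ d 0 * v ^ d 1) := by
      rw [Finset.sum_image]
      · refine Finset.sum_congr rfl fun i _ => ?_
        rw [mon_zero', mon_one']
      · intro i _ j _ hij
        exact (mon_inj.1 hij).1
    rw [h1]
    symm
    apply Finset.sum_subset
    · intro d hd
      rw [Finset.mem_filter] at hd
      rw [Finset.mem_image]
      refine ⟨d 0, ?_, ?_⟩
      · rw [Finset.mem_range]; omega
      · rw [show n - d 0 = d 1 by omega]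
        exact mon_eta d
    · intro d hd hd2
      rw [Finset.mem_image] at hd
      obtain ⟨i, hi, rfl⟩ := hd
      rw [Finset.mem_range] at hi
      have h3 : coeff (mon i (n - i)) G = 0 := by
        by_contra h4
        apply hd2
        rw [Finset.mem_filter, mon_zero', mon_one']
        exact ⟨mem_support_iff.2 h4, by omega⟩
      rw [h3, Polynomial.C_0, zero_mul]
  rw [hA, Finset.sum_filter, Finset.mul_sum, aeval_def, eval₂_eq', ← Finset.sum_sub_distrib]
  apply Finset.dvd_sum
  intro d hd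
  rw [Fin.prod_univ_two]
  have e0 : (![p * u, p * v] : Fin 2 → Polynomial ℝ) 0 = p * u := rfl
  have e1 : (![p * u, p * v] : Fin 2 → Polynomial ℝ) 1 = p * v := rfl
  rw [e0, e1, Polynomial.algebraMap_eq]
  by_cases hdn : d 0 + d 1 = n
  · rw [if_pos hdn]
    have : Polynomial.C (coeff d G) * ((p * u) ^ d 0 * (p * v) ^ d 1) =
        p ^ n * (Polynomial.C (coeff d G) * (u ^ d 0 * v ^ d 1)) := by
      rw [← hdn, pow_add, mul_pow, mul_pow]
      ring
    rw [this, sub_self]
    exact dvd_zero _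
  · rw [if_neg hdn, mul_zero, sub_zero]
    have h2 : n < d 0 + d 1 := by
      by_contra h3
      have h4 := hG (d 0, d 1) (by rw [mem_tri]; show d 0 + d 1 < n; omega)
      have h5 : coeff (mon (d 0) (d 1)) G = 0 := h4
      rw [mon_eta] at h5
      exact (mem_support_iff.1 hd) h5
    have : Polynomial.C (coeff d G) * ((p * u) ^ d 0 * (p * v) ^ d 1) =
        p ^ (d 0 + d 1) * (Polynomial.C (coeff d G) * (u ^ d 0 * v ^ d 1)) := by
      rw [pow_add, mul_pow, mul_pow]
      ring
    rw [this]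
    exact Dvd.dvd.mul_right (pow_dvd_pow p h2) _

/-- Step two. -/
lemma lead_form {n : ℕ} {e : ℝ} {F : MvPolynomial (Fin 2) ℝ}
    (hF : F ∈ pt ![e ^ 2 + 1, e * (e ^ 2 + 1)] ^ n)
    (hd : (Polynomial.X - Polynomial.C e) ^ (n + 1) ∣ nod F) :
    ∑ i ∈ Finset.range (n + 1), coeff (mon i (n - i))
      (shift ![e ^ 2 + 1, e * (e ^ 2 + 1)] F) * ((2 * e) ^ i * (3 * e ^ 2 + 1) ^ (n - i)) = 0 := by
  have h1 := (mem_ker_pow_iff _ n F).1 hF
  obtain ⟨p, hp⟩ : ∃ p : Polynomial ℝ, Polynomial.X - Polynomial.C e = p := ⟨_, rfl⟩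
  obtain ⟨u, hu⟩ : ∃ u : Polynomial ℝ, Polynomial.X + Polynomial.C e = u := ⟨_, rfl⟩
  obtain ⟨v, hv⟩ : ∃ v : Polynomial ℝ, Polynomial.X ^ 2 + Polynomial.C e * Polynomial.X +
    Polynomial.C e ^ 2 + 1 = v := ⟨_, rfl⟩
  have h2 := aeval_split n p u v _ h1
  have h3 : aeval ![p * u, p * v] (shift ![e ^ 2 + 1, e * (e ^ 2 + 1)] F) = nod F := by
    have : (aeval ![p * u, p * v]).comp (shift ![e ^ 2 + 1, e * (e ^ 2 + 1)]) = nod := by
      apply MvPolynomial.algHom_ext
      intro i
      fin_cases i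
      · simp [shift, nod, ← hp, ← hu]
        ring
      · simp [shift, nod, ← hp, ← hv]
        ring
    exact congrArg (fun ψ : MvPolynomial (Fin 2) ℝ →ₐ[ℝ] Polynomial ℝ => ψ F) this
  rw [h3] at h2
  rw [hp] at hd
  have h4 := (dvd_sub_right hd).1 h2
  have hp0 : p ≠ 0 := by
    rw [← hp]
    exact Polynomial.X_sub_C_ne_zero e
  rw [pow_succ] at h4
  have h5 := (mul_dvd_mul_iff_left (pow_ne_zero n hp0)).1 h4
  rw [← hp, Polynomial.dvd_iff_isRoot, Polynomial.IsRoot.def, Polynomial.eval_finset_sum] at h5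
  rw [← h5]
  refine Finset.sum_congr rfl fun i _ => ?_
  rw [Polynomial.eval_mul, Polynomial.eval_C, Polynomial.eval_mul, Polynomial.eval_pow,
    Polynomial.eval_pow, ← hu, ← hv]
  congr 2
  · congr 1
    simp
    ring
  · congr 1
    simp
    ring

/-- The Halphen pencil. -/
theorem two_le_hT {ν : ℕ} {s : Fin 9 → ℝ} (h : Tors ν s) (hν : 1 ≤ ν) :
    2 ≤ hT (3 * ν + 1) (fun _ => ν) (npt s) := by
  classical
  obtain ⟨n, rfl⟩ : ∃ n, ν = n + 1 := ⟨ν - 1, by omega⟩
  have h1 := hT_ge (3 * (n + 1) + 1) (mE (n + 1)) (npt s)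
  rw [sum_mE_sq] at h1
  have h2 : n + 2 ≤ hT (3 * (n + 1) + 1) (mE (n + 1)) (npt s) := by nlinarith
  let Λ0 : MvPolynomial (Fin 2) ℝ →ₗ[ℝ] (Fin (n + 1) → ℝ) :=
    LinearMap.pi fun i => (MvPolynomial.lcoeff ℝ (mon i.1 (n - i.1))).comp
      (shift (npt s 8)).toLinearMap
  let Λ := Λ0.domRestrict (Lsys (3 * (n + 1) + 1) (mE (n + 1)) (npt s))
  let φ : (Fin (n + 1) → ℝ) →ₗ[ℝ] ℝ :=
    Fintype.linearCombination ℝ (fun i : Fin (n + 1) =>
      ((2 * s 8) ^ i.1 * (3 * s 8 ^ 2 + 1) ^ (n - i.1)))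
  have hφ : φ ≠ 0 := by
    intro h3
    have h4 : φ (Pi.single 0 1) = 0 := by rw [h3]; rfl
    rw [Fintype.linearCombination_apply_single] at h4
    rw [one_smul] at h4
    simp at h4
    have h5 : (0 : ℝ) < 3 * s 8 ^ 2 + 1 := by positivity
    exact absurd h4.1 h5.ne'
  have hfin : Module.Finite ℝ ↥(Lsys (3 * (n + 1) + 1) (mE (n + 1)) (npt s)) :=
    Submodule.finiteDimensional_inf_left _ _
  have hfin2 : Module.Finite ℝ ↥(Lsys (3 * (n + 1) + 1) (fun _ : Fin 9 => n + 1) (npt s)) :=
    Submodule.finiteDimensional_inf_left _ _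
  have hle : LinearMap.range Λ ≤ LinearMap.ker φ := by
    rintro _ ⟨F, rfl⟩
    rw [LinearMap.mem_ker]
    have hF8 : (F.1 : MvPolynomial (Fin 2) ℝ) ∈
        pt ![s 8 ^ 2 + 1, s 8 * (s 8 ^ 2 + 1)] ^ n := by
      have := mem_vanish.1 F.2.2 8
      exact this
    have h3 := lead_form hF8 (pow_dvd_nod h F.2)
    rw [← Fin.sum_univ_eq_sum_range (fun i => coeff (mon i (n - i))
      (shift ![s 8 ^ 2 + 1, s 8 * (s 8 ^ 2 + 1)] F.1) *
        ((2 * s 8) ^ i * (3 * s 8 ^ 2 + 1) ^ (n - i))) (n + 1)] at h3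
    exact h3
  have hr : Module.finrank ℝ (LinearMap.range Λ) ≤ n := by
    have h3 := Submodule.finrank_mono hle
    have h4 := LinearMap.finrank_range_add_finrank_ker φ
    rw [Module.finrank_fintype_fun_eq_card, Fintype.card_fin] at h4
    have h5 : Module.finrank ℝ (LinearMap.range φ) ≠ 0 := by
      intro h6
      rw [Submodule.finrank_eq_zero, LinearMap.range_eq_bot] at h6
      exact hφ h6
    omega
  have hk := LinearMap.finrank_range_add_finrank_ker Λ
  have hk2 : 2 ≤ Module.finrank ℝ (LinearMap.ker Λ) := by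
    unfold hT at h2
    omega
  refine hk2.trans ?_
  unfold hT
  apply LinearMap.finrank_le_finrank_of_injective
    (f := (((Lsys (3 * (n + 1) + 1) (mE (n + 1)) (npt s)).subtype).domRestrict
      (LinearMap.ker Λ)).codRestrict
      (Lsys (3 * (n + 1) + 1) (fun _ : Fin 9 => n + 1) (npt s)) (fun x => ⟨x.1.2.1, by
        change (x.1.1 : MvPolynomial (Fin 2) ℝ) ∈ vanish (fun _ : Fin 9 => n + 1) (npt s)
        rw [mem_vanish]
        intro t
        by_cases ht : t = 8
        · subst ht
          rw [mem_ker_pow_iff]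
          rintro ⟨a, b⟩ hab
          rw [mem_tri] at hab
          change a + b < n + 1 at hab
          change coeff (mon a b) _ = 0
          by_cases hab2 : a + b < n
          · have h3 := mem_vanish.1 x.1.2.2 8
            rw [mem_ker_pow_iff] at h3
            exact h3 (a, b) (by rw [mem_tri]; exact hab2)
          · have h3 : Λ x.1 = 0 := x.2
            have h4 := congrFun h3 ⟨a, by omega⟩
            have h5 : b = n - a := by omega
            rw [h5]
            exact h4
        · have h3 := mem_vanish.1 x.1.2.2 t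
          have h4 : mE (n + 1) t = n + 1 := if_neg ht
          rw [h4] at h3
          exact h3⟩))
  intro x y hxy
  have := congrArg Subtype.val hxy
  exact Subtype.ext (Subtype.ext this)

end Pool.MP_70e04f_ag.Hal

end

/-! ### from `Lib_MP_70e04f_hal.NodF` -/

section

/-!
# The members of the Halphen pencil are irreducible (piece NODF)

PAPER PROOF. `totalDegree f ≤ 3 ν` (`mem_range_tri`), and `coeff_nod_top` with `k = 3 ν`:
`coeff (mon 0 (3 ν)) f = (nod f).coeff (9 ν) = c ≠ 0` (`natDegree_lin`, `lin_monic`); hence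
`totalDegree f = 3 ν` (`le_totalDegree`, see the end of `exists_curve` in
`Lib_MP_70e04f_nine/Curve.lean`).

Exact multiplicities: otherwise `(X - C (s t)) ^ (ν + 1) ∣ nod f = C c * lin s ν` by `dvd_nod`;
cancel `(X - C (s t)) ^ ν` and evaluate at `s t`: the other factors do not vanish.

Irreducible: `f` is not a unit (`natDegree (nod f) = 9 ν > 0`). Let `f = g * h`. Then
`totalDegree g + totalDegree h = 3 ν`, `natDegree (nod g) + natDegree (nod h) = 9 ν`, so
`natDegree (nod g) = 3 totalDegree g` by `natDegree_nod_le`. As `nod g ∣ C c * lin s ν`, one has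
`nod g = C c' * lin s a` with `c' ≠ 0`, `a t ≤ ν` (`exists_lin_of_dvd`; compare
`natDegree_eq_zero_of_dvd` in `Lib_MP_70e04f_nine`). By `nv_nod`
`0 = nv (C c' * lin s a) = c' * nv (lin s a)`, so by `Tors.only` all `a t = 0`, and then
`totalDegree g = 0`, `g` is a nonzero constant, a unit; or all `a t = ν`, and then
`totalDegree g = 3 ν`, `totalDegree h = 0`, `h` is a unit (`totalDegree_eq_zero_iff_eq_C`).

`exists_lin_of_dvd`: for instance by `Polynomial.prod_multiset_root_eq_finset_root` or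
`(Finset.univ.prod ..)` and unique factorisation: the divisors of a product of powers of primes
(`exists_dvd_and_dvd_of_dvd_mul`, `(dvd_prime_pow ..)`) by induction on the finite set.
-/

namespace Pool.MP_70e04f_ag.Hal

open MvPolynomial Pool.MP_70e04f_ag.Hex Pool.MP_70e04f_ag.Add Pool.MP_70e04f_ag.Nine

/-- The divisors of a product of linear factors, over a finite set. -/
private lemma exists_lin_aux {τ : Type*} [DecidableEq τ] {s : τ → ℝ} {b : τ → ℕ} {c : ℝ}
    (hc : c ≠ 0) (S : Finset τ) :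
    ∀ P : Polynomial ℝ,
      P ∣ Polynomial.C c * ∏ t ∈ S, (Polynomial.X - Polynomial.C (s t)) ^ b t →
      ∃ (c' : ℝ) (a : τ → ℕ), c' ≠ 0 ∧ (∀ t, a t ≤ b t) ∧
        P = Polynomial.C c' * ∏ t ∈ S, (Polynomial.X - Polynomial.C (s t)) ^ a t := by
  induction S using Finset.induction_on with
  | empty =>
    intro P hP
    rw [Finset.prod_empty, mul_one] at hP
    have hu : IsUnit P := isUnit_of_dvd_unit hP ((isUnit_iff_ne_zero.mpr hc).map Polynomial.C)
    obtain ⟨c', hc', hcP⟩ := Polynomial.isUnit_iff.1 hu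
    refine ⟨c', fun _ => 0, hc'.ne_zero, fun t => Nat.zero_le _, ?_⟩
    rw [Finset.prod_empty, mul_one, hcP]
  | insert t0 S ht0 ih =>
    intro P hP
    rw [Finset.prod_insert ht0, ← mul_assoc, mul_comm (Polynomial.C c), mul_assoc] at hP
    obtain ⟨P1, P2, h1, h2, h12⟩ := exists_dvd_and_dvd_of_dvd_mul hP
    obtain ⟨c2, a, hc2, ha, hP2⟩ := ih P2 h2
    obtain ⟨i, hi, has⟩ := (dvd_prime_pow (Polynomial.prime_X_sub_C (s t0)) _).1 h1
    obtain ⟨u, hu⟩ := has.symm
    obtain ⟨c1, hc1, hcu⟩ := Polynomial.isUnit_iff.1 u.isUnit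
    refine ⟨c1 * c2, Function.update a t0 i, mul_ne_zero hc1.ne_zero hc2, ?_, ?_⟩
    · intro t
      rcases eq_or_ne t t0 with rfl | ht
      · rw [Function.update_self]
        exact hi
      · rw [Function.update_of_ne ht]
        exact ha t
    · have h3 : ∏ t ∈ S, (Polynomial.X - Polynomial.C (s t)) ^ (Function.update a t0 i) t =
          ∏ t ∈ S, (Polynomial.X - Polynomial.C (s t)) ^ a t := by
        refine Finset.prod_congr rfl fun t ht => ?_
        rw [Function.update_of_ne]
        rintro rfl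
        exact ht0 ht
      rw [Finset.prod_insert ht0, Function.update_self, h3, h12, hP2, ← hu, ← hcu,
        Polynomial.C_mul]
      ring

/-- The divisors of a product of linear factors. -/
lemma exists_lin_of_dvd {τ : Type*} [Fintype τ] {s : τ → ℝ} {b : τ → ℕ} {c : ℝ} (hc : c ≠ 0)
    {P : Polynomial ℝ} (h : P ∣ Polynomial.C c * lin s b) :
    ∃ (c' : ℝ) (a : τ → ℕ), c' ≠ 0 ∧ (∀ t, a t ≤ b t) ∧ P = Polynomial.C c' * lin s a := by
  classical
  exact exists_lin_aux hc Finset.univ P h

/-- A constant factor of a polynomial. -/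
private lemma nv_C_mul (c : ℝ) (P : Polynomial ℝ) : nv (Polynomial.C c * P) = c * nv P := by
  simp [nv]

/-- One half of the irreducibility. -/
private lemma halphen_unit {ν : ℕ} {s : Fin 9 → ℝ} (h : Tors ν s)
    {g : MvPolynomial (Fin 2) ℝ} {c : ℝ} (hc : c ≠ 0)
    (hg : nod g ∣ Polynomial.C c * lin s (fun _ => ν)) :
    (nod g).natDegree = 0 ∨ (nod g).natDegree = 9 * ν := by
  obtain ⟨c', a, hc', ha, hga⟩ := exists_lin_of_dvd hc hg
  have h1 : nv (lin s a) = 0 := by
    have h2 := nv_nod g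
    rw [hga, nv_C_mul] at h2
    exact (mul_eq_zero.1 h2).resolve_left hc'
  have h3 : (nod g).natDegree = ∑ t, a t := by
    rw [hga, Polynomial.natDegree_C_mul hc', natDegree_lin]
  rcases h.only a ha h1 with h4 | h4
  · left
    rw [h3]
    exact Finset.sum_eq_zero fun t _ => h4 t
  · right
    rw [h3, Finset.sum_congr rfl fun t _ => h4 t]
    simp

/-- A polynomial of total degree zero is a unit. -/
private lemma isUnit_of_totalDegree {g : MvPolynomial (Fin 2) ℝ} (hg : g ≠ 0)
    (h : g.totalDegree = 0) : IsUnit g := by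
  rw [totalDegree_eq_zero_iff_eq_C] at h
  rw [h]
  have h5 : coeff 0 g ≠ 0 := by
    intro h6
    apply hg
    rw [h, h6, C_0]
  exact (isUnit_iff_ne_zero.mpr h5).map C

/-- The members of the pencil are irreducible. -/
theorem halphen_irr {ν : ℕ} {s : Fin 9 → ℝ} (h : Tors ν s) (hν : 1 ≤ ν)
    {f : MvPolynomial (Fin 2) ℝ} {c : ℝ} (hf : f ∈ Lsys (3 * ν + 1) (fun _ => ν) (npt s))
    (hc : c ≠ 0) (hn : nod f = Polynomial.C c * lin s (fun _ => ν)) :
    Irreducible f ∧ f.totalDegree = 3 * ν ∧ coeff (mon 0 (3 * ν)) f ≠ 0 ∧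
      ∀ t, f ∉ pt (npt s t) ^ (ν + 1) := by
  classical
  have hlin : (lin s (fun _ => ν)).Monic := lin_monic s _
  have hlindeg : (lin s (fun _ => ν)).natDegree = 9 * ν := by
    rw [natDegree_lin]
    simp
  have hfdeg : f.totalDegree ≤ 3 * ν := mem_range_tri.1 (Submodule.mem_inf.1 hf).1
  have htop : coeff (mon 0 (3 * ν)) f = c := by
    rw [← coeff_nod_top hfdeg, hn, Polynomial.coeff_C_mul,
      show 3 * (3 * ν) = (lin s (fun _ => ν)).natDegree by rw [hlindeg]; ring]
    have h1 : (lin s (fun _ => ν)).coeff (lin s (fun _ => ν)).natDegree = 1 := hlin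
    rw [h1, mul_one]
  have hndeg : (nod f).natDegree = 9 * ν := by
    rw [hn, Polynomial.natDegree_C_mul hc, hlindeg]
  have hn0 : nod f ≠ 0 := by
    intro h0
    rw [h0, Polynomial.natDegree_zero] at hndeg
    omega
  have htd : f.totalDegree = 3 * ν := by
    apply le_antisymm hfdeg
    have h1 : mon 0 (3 * ν) ∈ f.support := by
      rw [mem_support_iff, htop]
      exact hc
    have h2 := le_totalDegree h1
    have h4 : (mon 0 (3 * ν)).sum (fun _ e => e) = (mon 0 (3 * ν)).degree := rfl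
    rw [h4, degree_mon, zero_add] at h2
    exact h2
  refine ⟨⟨?_, ?_⟩, htd, ?_, ?_⟩
  · intro hu
    have h1 : IsUnit (nod f) := hu.map nod
    have h2 := Polynomial.natDegree_eq_zero_of_isUnit h1
    omega
  · intro g g' hgg
    have hf0 : f ≠ 0 := by
      rintro rfl
      simp at htop
      exact hc htop.symm
    have hg0 : g ≠ 0 := by
      rintro rfl
      exact hf0 (by rw [hgg, zero_mul])
    have hg'0 : g' ≠ 0 := by
      rintro rfl
      exact hf0 (by rw [hgg, mul_zero])
    have hmul : nod g * nod g' = nod f := by rw [← map_mul, ← hgg]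
    have hcg : nod g ≠ 0 := by
      intro h0
      rw [h0, zero_mul] at hmul
      exact hn0 hmul.symm
    have hch : nod g' ≠ 0 := by
      intro h0
      rw [h0, mul_zero] at hmul
      exact hn0 hmul.symm
    have hd1 : (nod g).natDegree + (nod g').natDegree = 9 * ν := by
      rw [← Polynomial.natDegree_mul hcg hch, hmul, hndeg]
    have hd2 : g.totalDegree + g'.totalDegree = 3 * ν := by
      rw [← totalDegree_mul_of_isDomain hg0 hg'0, ← hgg]
      exact htd
    have hd3 := natDegree_nod_le g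
    have hd4 := natDegree_nod_le g'
    have hdiv : nod g ∣ Polynomial.C c * lin s (fun _ => ν) := by
      rw [← hn, ← hmul]
      exact Dvd.intro _ rfl
    rcases halphen_unit h hc hdiv with h5 | h5
    · left
      exact isUnit_of_totalDegree hg0 (by omega)
    · right
      exact isUnit_of_totalDegree hg'0 (by omega)
  · rw [htop]
    exact hc
  · intro t ht
    have h1 : (Polynomial.X - Polynomial.C (s t)) ^ (ν + 1) ∣ nod f := dvd_nod ht
    rw [hn, lin, ← Finset.mul_prod_erase Finset.univ _ (Finset.mem_univ t), ← mul_assoc,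
      mul_comm (Polynomial.C c), pow_succ, mul_assoc] at h1
    have h2 := (mul_dvd_mul_iff_left (pow_ne_zero _ (Polynomial.X_sub_C_ne_zero (s t)))).1 h1
    rw [Polynomial.dvd_iff_isRoot, Polynomial.IsRoot.def, Polynomial.eval_mul,
      Polynomial.eval_prod, Polynomial.eval_C] at h2
    revert h2
    refine mul_ne_zero hc (Finset.prod_ne_zero_iff.mpr ?_)
    intro t' ht'
    rw [Polynomial.eval_pow]
    apply pow_ne_zero
    rw [Polynomial.eval_sub, Polynomial.eval_X, Polynomial.eval_C]
    intro h3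
    exact (Finset.ne_of_mem_erase ht') (h.inj (by linarith))

end Pool.MP_70e04f_ag.Hal

end
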