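import Pool.Agent.Lib_MP_70e04f_m.M05
import Pool.Agent.Lib_MP_70e04f_m.M07

/-!
# MP_70e04f_ag, plane linear systems: merged library part M10

Concatenation of smaller files (each in its own section), only to save build time.
-/

namespace Pool.MP_70e04f_ag.Hex
end Pool.MP_70e04f_ag.Hex

namespace Pool.MP_70e04f_ag.Add
end Pool.MP_70e04f_ag.Add

namespace Pool.MP_70e04f_ag.Nine
end Pool.MP_70e04f_ag.Nine

/-! ### from `Lib_MP_70e04f_hex.Change` -/

section

/-!
# Affine change of the exponents (piece CHANGE)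

PAPER PROOF. By `OK.pos` there are points `p' i = (x', y')` with positive coordinates and
`Good (condP P' m p')`. Put `p i = ![x' ^ u1 * y' ^ v1, x' ^ u2 * y' ^ v2]` (real powers,
`Real.rpow`), so that for `q ∈ P`, `(a', b') = e q`:
`(p i 0) ^ q.1 * (p i 1) ^ q.2 = x' ^ (a' - u0) * y' ^ (b' - v0)`.

CLAIM: if `v ∈ ker (condP P m p)` then `v ∘ e.symm ∈ ker (condP P' m p')`. As `e` is a bijection
this gives `finrank (ker (condP P m p)) ≤ finrank (ker (condP P' m p'))`, and the cardinalities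
of `P`, `P'` agree, so `Good` follows.

Proof of the claim. `ec x y a b α β = choose a α * x ^ (a - α) * (choose b β * y ^ (b - β))`
(`Polynomial.coeff_X_add_C_pow`). For positive `x, y` the conditions on `v` at the point `i` say
`∑ q, v q * (choose q.1 α * choose q.2 β) * x ^ q.1 * y ^ q.2 = 0` for all `α + β < m i`.
Let `Bin M` be the real span of the functions `q ↦ choose q.1 α * choose q.2 β` on `ℕ × ℕ`
with `α + β < M`. From `a * choose a α = (α + 1) * choose a (α + 1) + α * choose a α` one gets: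
the product of an affine function `q ↦ s0 + s1 * q.1 + s2 * q.2` with an element of `Bin M` lies
in `Bin (M + 1)`. Hence a product of `α + β` affine functions lies in `Bin (α + β + 1)`. Now for
`q ∈ P`, `α! * β! * choose a' α * choose b' β = ∏ i < α, (a' - i) * ∏ i < β, (b' - i)` where
`a' = u0 + u1 * q.1 + u2 * q.2`, `b' = v0 + v1 * q.1 + v2 * q.2`: it is the restriction to `P` of
an element of `Bin (α + β + 1)`. Therefore
`∑ q, v q * choose a' α * choose b' β * x ^ q.1 * y ^ q.2 = 0`, and multiplying by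
`x' ^ u0 * y' ^ v0 * x' ^ (-α) * y' ^ (-β)` one gets the condition `(i, (α, β))` of
`condP P' m p'` for `v ∘ e.symm`.
-/

namespace Pool.MP_70e04f_ag.Hex

namespace ChangeAux

/-- The span of the binomial functions of degree `< M` on `P`. -/
def Bin (P : Finset (ℕ × ℕ)) (M : ℕ) : Submodule ℝ (↥P → ℝ) :=
  Submodule.span ℝ {g | ∃ α β : ℕ, α + β < M ∧
    g = fun q : ↥P => (Nat.choose q.1.1 α : ℝ) * (Nat.choose q.1.2 β : ℝ)}

lemma Bin_mono {P : Finset (ℕ × ℕ)} {M N : ℕ} (h : M ≤ N) : Bin P M ≤ Bin P N := by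
  apply Submodule.span_mono
  rintro g ⟨α, β, hab, rfl⟩
  exact ⟨α, β, by omega, rfl⟩

lemma choose_rec (a α : ℕ) : (a : ℝ) * (Nat.choose a α : ℝ) =
    (α + 1 : ℝ) * (Nat.choose a (α + 1) : ℝ) + α * (Nat.choose a α : ℝ) := by
  rcases le_or_gt α a with h | h
  · have h1 := Nat.choose_succ_right_eq a α
    have h2 : ((Nat.choose a (α + 1) : ℕ) : ℝ) * (α + 1) = (Nat.choose a α : ℝ) * (a - α) := by
      have h3 : ((Nat.choose a (α + 1) * (α + 1) : ℕ) : ℝ) =
          ((Nat.choose a α * (a - α) : ℕ) : ℝ) := by rw [h1]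
      rw [Nat.cast_mul, Nat.cast_mul, Nat.cast_sub h] at h3
      push_cast at h3
      exact h3
    linear_combination -h2
  · rw [Nat.choose_eq_zero_of_lt h, Nat.choose_eq_zero_of_lt (by omega)]
    simp

lemma mul_one' {P : Finset (ℕ × ℕ)} {M : ℕ} {g : ↥P → ℝ} (hg : g ∈ Bin P M) :
    (fun q : ↥P => (q.1.1 : ℝ) * g q) ∈ Bin P (M + 1) := by
  unfold Bin at hg
  induction hg using Submodule.span_induction with
  | mem g hg =>
    obtain ⟨α, β, hab, rfl⟩ := hg
    have h1 : (fun q : ↥P => (q.1.1 : ℝ) *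
        ((Nat.choose q.1.1 α : ℝ) * (Nat.choose q.1.2 β : ℝ))) =
        (α + 1 : ℝ) • (fun q : ↥P => (Nat.choose q.1.1 (α + 1) : ℝ) *
          (Nat.choose q.1.2 β : ℝ)) +
        (α : ℝ) • (fun q : ↥P => (Nat.choose q.1.1 α : ℝ) * (Nat.choose q.1.2 β : ℝ)) := by
      funext q
      simp only [Pi.add_apply, Pi.smul_apply, smul_eq_mul]
      linear_combination (Nat.choose q.1.2 β : ℝ) * choose_rec q.1.1 α
    rw [h1]
    apply Submodule.add_mem
    · apply Submodule.smul_mem
      exact Submodule.subset_span ⟨α + 1, β, by omega, rfl⟩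
    · apply Submodule.smul_mem
      exact Submodule.subset_span ⟨α, β, by omega, rfl⟩
  | zero =>
    have h1 : (fun q : ↥P => (q.1.1 : ℝ) * (0 : ↥P → ℝ) q) = 0 := by
      funext q
      simp
    rw [h1]
    exact Submodule.zero_mem _
  | add f g _ _ hf hg =>
    have h1 : (fun q : ↥P => (q.1.1 : ℝ) * (f + g) q) =
        (fun q : ↥P => (q.1.1 : ℝ) * f q) + (fun q : ↥P => (q.1.1 : ℝ) * g q) := by
      funext q
      simp only [Pi.add_apply]
      ring
    rw [h1]
    exact Submodule.add_mem _ hf hg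
  | smul r f _ hf =>
    have h1 : (fun q : ↥P => (q.1.1 : ℝ) * (r • f) q) =
        r • (fun q : ↥P => (q.1.1 : ℝ) * f q) := by
      funext q
      simp only [Pi.smul_apply, smul_eq_mul]
      ring
    rw [h1]
    exact Submodule.smul_mem _ _ hf

lemma mul_two' {P : Finset (ℕ × ℕ)} {M : ℕ} {g : ↥P → ℝ} (hg : g ∈ Bin P M) :
    (fun q : ↥P => (q.1.2 : ℝ) * g q) ∈ Bin P (M + 1) := by
  unfold Bin at hg
  induction hg using Submodule.span_induction with
  | mem g hg =>
    obtain ⟨α, β, hab, rfl⟩ := hg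
    have h1 : (fun q : ↥P => (q.1.2 : ℝ) *
        ((Nat.choose q.1.1 α : ℝ) * (Nat.choose q.1.2 β : ℝ))) =
        (β + 1 : ℝ) • (fun q : ↥P => (Nat.choose q.1.1 α : ℝ) *
          (Nat.choose q.1.2 (β + 1) : ℝ)) +
        (β : ℝ) • (fun q : ↥P => (Nat.choose q.1.1 α : ℝ) * (Nat.choose q.1.2 β : ℝ)) := by
      funext q
      simp only [Pi.add_apply, Pi.smul_apply, smul_eq_mul]
      linear_combination (Nat.choose q.1.1 α : ℝ) * choose_rec q.1.2 β
    rw [h1]
    apply Submodule.add_mem
    · apply Submodule.smul_mem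
      exact Submodule.subset_span ⟨α, β + 1, by omega, rfl⟩
    · apply Submodule.smul_mem
      exact Submodule.subset_span ⟨α, β, by omega, rfl⟩
  | zero =>
    have h1 : (fun q : ↥P => (q.1.2 : ℝ) * (0 : ↥P → ℝ) q) = 0 := by
      funext q
      simp
    rw [h1]
    exact Submodule.zero_mem _
  | add f g _ _ hf hg =>
    have h1 : (fun q : ↥P => (q.1.2 : ℝ) * (f + g) q) =
        (fun q : ↥P => (q.1.2 : ℝ) * f q) + (fun q : ↥P => (q.1.2 : ℝ) * g q) := by
      funext q
      simp only [Pi.add_apply]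
      ring
    rw [h1]
    exact Submodule.add_mem _ hf hg
  | smul r f _ hf =>
    have h1 : (fun q : ↥P => (q.1.2 : ℝ) * (r • f) q) =
        r • (fun q : ↥P => (q.1.2 : ℝ) * f q) := by
      funext q
      simp only [Pi.smul_apply, smul_eq_mul]
      ring
    rw [h1]
    exact Submodule.smul_mem _ _ hf

lemma mul_affine {P : Finset (ℕ × ℕ)} {M : ℕ} {g : ↥P → ℝ} (hg : g ∈ Bin P M)
    (s0 s1 s2 : ℝ) :
    (fun q : ↥P => (s0 + s1 * (q.1.1 : ℝ) + s2 * (q.1.2 : ℝ)) * g q) ∈ Bin P (M + 1) := by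
  have h1 : (fun q : ↥P => (s0 + s1 * (q.1.1 : ℝ) + s2 * (q.1.2 : ℝ)) * g q) =
      s0 • g + s1 • (fun q : ↥P => (q.1.1 : ℝ) * g q) +
        s2 • (fun q : ↥P => (q.1.2 : ℝ) * g q) := by
    funext q
    simp only [Pi.add_apply, Pi.smul_apply, smul_eq_mul]
    ring
  rw [h1]
  exact Submodule.add_mem _ (Submodule.add_mem _
    (Submodule.smul_mem _ _ (Bin_mono (Nat.le_succ M) hg))
    (Submodule.smul_mem _ _ (mul_one' hg))) (Submodule.smul_mem _ _ (mul_two' hg))

/-- Multiplication by the binomial function of an affine function. -/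
lemma mul_choose {P : Finset (ℕ × ℕ)} {M : ℕ} {g : ↥P → ℝ} (hg : g ∈ Bin P M)
    (c : ↥P → ℕ) (s0 s1 s2 : ℝ)
    (hc : ∀ q : ↥P, (c q : ℝ) = s0 + s1 * (q.1.1 : ℝ) + s2 * (q.1.2 : ℝ)) (α : ℕ) :
    (fun q : ↥P => (Nat.choose (c q) α : ℝ) * g q) ∈ Bin P (M + α) := by
  induction α with
  | zero => simpa using hg
  | succ α ih =>
    have h1 := mul_affine ih (s0 - α) s1 s2
    have h2 : (fun q : ↥P => (Nat.choose (c q) (α + 1) : ℝ) * g q) =
        ((α + 1 : ℝ)⁻¹) • (fun q : ↥P => (s0 - α + s1 * (q.1.1 : ℝ) + s2 * (q.1.2 : ℝ)) *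
          ((Nat.choose (c q) α : ℝ) * g q)) := by
      funext q
      have h3 := choose_rec (c q) α
      rw [hc q] at h3
      have h4 : (α + 1 : ℝ) ≠ 0 := by positivity
      simp only [Pi.smul_apply, smul_eq_mul]
      rw [eq_inv_mul_iff_mul_eq₀ h4]
      linear_combination -g q * h3
    rw [h2]
    exact Submodule.smul_mem _ _ h1

lemma one_mem (P : Finset (ℕ × ℕ)) : (fun _ : ↥P => (1 : ℝ)) ∈ Bin P 1 := by
  apply Submodule.subset_span
  exact ⟨0, 0, by omega, by funext q; simp⟩

/-- The entry of the matrix of conditions for positive coordinates. -/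
lemma ec_pos {x y : ℝ} (hx : 0 < x) (hy : 0 < y) (a b α β : ℕ) :
    ec x y a b α β * (x ^ α * y ^ β) =
      (Nat.choose a α : ℝ) * (Nat.choose b β : ℝ) * (x ^ a * y ^ b) := by
  have key : ∀ (z : ℝ) (n k : ℕ),
      ((Polynomial.X + Polynomial.C z) ^ n : Polynomial ℝ).coeff k * z ^ k =
        (Nat.choose n k : ℝ) * z ^ n := by
    intro z n k
    rw [Polynomial.coeff_X_add_C_pow]
    rcases le_or_gt k n with h | h
    · have h1 : z ^ (n - k) * z ^ k = z ^ n := by rw [← pow_add, Nat.sub_add_cancel h]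
      linear_combination (Nat.choose n k : ℝ) * h1
    · rw [Nat.choose_eq_zero_of_lt h]
      simp
  unfold ec
  have h1 := key x a α
  have h2 := key y b β
  calc ((Polynomial.X + Polynomial.C x) ^ a : Polynomial ℝ).coeff α *
        ((Polynomial.X + Polynomial.C y) ^ b : Polynomial ℝ).coeff β * (x ^ α * y ^ β)
      = (((Polynomial.X + Polynomial.C x) ^ a : Polynomial ℝ).coeff α * x ^ α) *
        (((Polynomial.X + Polynomial.C y) ^ b : Polynomial ℝ).coeff β * y ^ β) := by ring
    _ = ((Nat.choose a α : ℝ) * x ^ a) * ((Nat.choose b β : ℝ) * y ^ b) := by rw [h1, h2]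
    _ = _ := by ring

end ChangeAux

open ChangeAux

/-- A bijection of the exponents that is the restriction of an affine map preserves `OK`. -/
theorem OK.change {ι : Type*} [Fintype ι] {P P' : Finset (ℕ × ℕ)} (e : ↥P ≃ ↥P')
    (u0 u1 u2 v0 v1 v2 : ℝ)
    (h1 : ∀ q : ↥P, (((e q).1.1 : ℕ) : ℝ) = u0 + u1 * (q.1.1 : ℝ) + u2 * (q.1.2 : ℝ))
    (h2 : ∀ q : ↥P, (((e q).1.2 : ℕ) : ℝ) = v0 + v1 * (q.1.1 : ℝ) + v2 * (q.1.2 : ℝ))
    {m : ι → ℕ} (h : OK P' m) : OK P m := by
  classical
  obtain ⟨p', hp', hg⟩ := h.pos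
  set p : ι → Fin 2 → ℝ := fun i =>
    ![p' i 0 ^ u1 * p' i 1 ^ v1, p' i 0 ^ u2 * p' i 1 ^ v2] with hp
  have hp0 : ∀ i, p i 0 = p' i 0 ^ u1 * p' i 1 ^ v1 := fun i => rfl
  have hp1 : ∀ i, p i 1 = p' i 0 ^ u2 * p' i 1 ^ v2 := fun i => rfl
  have hp0' : ∀ i, 0 < p i 0 := fun i =>
    mul_pos (Real.rpow_pos_of_pos (hp' i 0) _) (Real.rpow_pos_of_pos (hp' i 1) _)
  have hp1' : ∀ i, 0 < p i 1 := fun i =>
    mul_pos (Real.rpow_pos_of_pos (hp' i 0) _) (Real.rpow_pos_of_pos (hp' i 1) _)
  -- the monomials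
  have hmon : ∀ (i : ι) (q : ↥P), p' i 0 ^ (e q).1.1 * p' i 1 ^ (e q).1.2 =
      (p' i 0 ^ u0 * p' i 1 ^ v0) * (p i 0 ^ q.1.1 * p i 1 ^ q.1.2) := by
    intro i q
    have hx := hp' i 0
    have hy := hp' i 1
    rw [hp0 i, hp1 i, ← Real.rpow_natCast (p' i 0) (e q).1.1,
      ← Real.rpow_natCast (p' i 1) (e q).1.2, h1 q, h2 q, mul_pow, mul_pow,
      ← Real.rpow_mul_natCast hx.le, ← Real.rpow_mul_natCast hy.le,
      ← Real.rpow_mul_natCast hx.le, ← Real.rpow_mul_natCast hy.le,
      Real.rpow_add hx, Real.rpow_add hx, Real.rpow_add hy, Real.rpow_add hy]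
    ring
  refine ⟨p, ?_⟩
  set A : Matrix (Σ i : ι, ↥(tri (m i))) ↥P ℝ := condP P m p with hA
  set A' : Matrix (Σ i : ι, ↥(tri (m i))) ↥P' ℝ := condP P' m p' with hA'
  have hker : ∀ v : ↥P → ℝ, v ∈ LinearMap.ker A.mulVecLin →
      (fun q' : ↥P' => v (e.symm q')) ∈ LinearMap.ker A'.mulVecLin := by
    intro v hv
    have hv' : A.mulVec v = 0 := hv
    show A'.mulVec (fun q' : ↥P' => v (e.symm q')) = 0
    funext c
    obtain ⟨i, ⟨α, β⟩, hab⟩ := c
    have hab' : α + β < m i := mem_tri.1 hab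
    -- the functional
    let Lf : (↥P → ℝ) →ₗ[ℝ] ℝ :=
      { toFun := fun g => ∑ q : ↥P, v q * g q * (p i 0 ^ q.1.1 * p i 1 ^ q.1.2)
        map_add' := by
          intro f g
          rw [← Finset.sum_add_distrib]
          refine Finset.sum_congr rfl fun q _ => ?_
          simp only [Pi.add_apply]
          ring
        map_smul' := by
          intro r f
          simp only [RingHom.id_apply, smul_eq_mul, Finset.mul_sum]
          refine Finset.sum_congr rfl fun q _ => ?_
          simp only [Pi.smul_apply, smul_eq_mul]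
          ring }
    have hL : Bin P (m i) ≤ LinearMap.ker Lf := by
      unfold Bin
      rw [Submodule.span_le]
      rintro g ⟨γ, δ, hgd, rfl⟩
      show ∑ q : ↥P, v q * ((Nat.choose q.1.1 γ : ℝ) * (Nat.choose q.1.2 δ : ℝ)) *
        (p i 0 ^ q.1.1 * p i 1 ^ q.1.2) = 0
      have h3 := congrFun hv' ⟨i, ⟨(γ, δ), mem_tri.2 hgd⟩⟩
      have h4 : ∑ q : ↥P, ec (p i 0) (p i 1) q.1.1 q.1.2 γ δ * v q = 0 := h3
      have h5 : ∑ q : ↥P, v q * ((Nat.choose q.1.1 γ : ℝ) * (Nat.choose q.1.2 δ : ℝ)) *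
          (p i 0 ^ q.1.1 * p i 1 ^ q.1.2) =
          (p i 0 ^ γ * p i 1 ^ δ) * ∑ q : ↥P, ec (p i 0) (p i 1) q.1.1 q.1.2 γ δ * v q := by
        rw [Finset.mul_sum]
        refine Finset.sum_congr rfl fun q _ => ?_
        linear_combination (-v q) * ec_pos (hp0' i) (hp1' i) q.1.1 q.1.2 γ δ
      rw [h5, h4, mul_zero]
    have hF : (fun q : ↥P => (Nat.choose (e q).1.1 α : ℝ) *
        ((Nat.choose (e q).1.2 β : ℝ) * 1)) ∈ Bin P (m i) := by
      have h3 := mul_choose (mul_choose (one_mem P) (fun q => (e q).1.2) v0 v1 v2 h2 β)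
        (fun q => (e q).1.1) u0 u1 u2 h1 α
      exact Bin_mono (by omega) h3
    have h3 : ∑ q : ↥P, v q * ((Nat.choose (e q).1.1 α : ℝ) *
        ((Nat.choose (e q).1.2 β : ℝ) * 1)) * (p i 0 ^ q.1.1 * p i 1 ^ q.1.2) = 0 := hL hF
    have h4 : A'.mulVec (fun q' : ↥P' => v (e.symm q')) ⟨i, ⟨(α, β), hab⟩⟩ =
        ∑ q : ↥P, ec (p' i 0) (p' i 1) (e q).1.1 (e q).1.2 α β * v q := by
      show ∑ q' : ↥P', ec (p' i 0) (p' i 1) q'.1.1 q'.1.2 α β * v (e.symm q') = _
      rw [← Equiv.sum_comp e]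
      refine Finset.sum_congr rfl fun q _ => ?_
      rw [Equiv.symm_apply_apply]
    have h5 : (∑ q : ↥P, ec (p' i 0) (p' i 1) (e q).1.1 (e q).1.2 α β * v q) *
        (p' i 0 ^ α * p' i 1 ^ β) = (p' i 0 ^ u0 * p' i 1 ^ v0) *
        ∑ q : ↥P, v q * ((Nat.choose (e q).1.1 α : ℝ) *
        ((Nat.choose (e q).1.2 β : ℝ) * 1)) * (p i 0 ^ q.1.1 * p i 1 ^ q.1.2) := by
      rw [Finset.sum_mul, Finset.mul_sum]
      refine Finset.sum_congr rfl fun q _ => ?_
      linear_combination v q * ec_pos (hp' i 0) (hp' i 1) (e q).1.1 (e q).1.2 α β +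
        v q * (Nat.choose (e q).1.1 α : ℝ) * (Nat.choose (e q).1.2 β : ℝ) * hmon i q
    rw [h3, mul_zero] at h5
    have h6 : p' i 0 ^ α * p' i 1 ^ β ≠ 0 :=
      (mul_pos (pow_pos (hp' i 0) α) (pow_pos (hp' i 1) β)).ne'
    rw [h4]
    exact (mul_eq_zero.mp h5).resolve_right h6
  let f : LinearMap.ker A.mulVecLin →ₗ[ℝ] LinearMap.ker A'.mulVecLin :=
    { toFun := fun v => ⟨fun q' => v.1 (e.symm q'), hker v.1 v.2⟩
      map_add' := fun _ _ => rfl
      map_smul' := fun _ _ => rfl }
  have hf : Function.Injective f := by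
    intro v w hvw
    apply Subtype.ext
    funext q
    have h3 := congrFun (congrArg (fun z : LinearMap.ker A'.mulVecLin => z.1) hvw) (e q)
    have h4 : v.1 (e.symm (e q)) = w.1 (e.symm (e q)) := h3
    rwa [Equiv.symm_apply_apply] at h4
  have h3 := LinearMap.finrank_le_finrank_of_injective hf
  have h4 : Fintype.card ↥P = Fintype.card ↥P' := Fintype.card_congr e
  unfold Good at hg ⊢
  rw [h4]
  exact h3.trans hg

end Pool.MP_70e04f_ag.Hex

end

/-! ### from `Lib_MP_70e04f_hex.Zed` -/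

section

/-!
# Three points at the coordinate points (piece ZED)

PAPER PROOF.
`zed_swap1`: `(a, b) ↦ (d - a - b, b)` is a bijection `zed d al be ga ≃ zed d ga be al`, affine;
use `OK.change` with `u0 = d, u1 = u2 = -1, v0 = v1 = 0, v2 = 1`.
`zed_swap2`: the same with `(a, b) ↦ (a, d - a - b)`, `zed d al be ga ≃ zed d al ga be`.
`zed_cut`: `OK.cut` with `P = zed d al be 0`, `μ = ga`: `tri ga ⊆ zed d al be 0` by the three
inequalities, and `zed d al be 0 \ tri ga = zed d al be ga`.
`tri_of_zed`: `zed_cut` puts the point `ga`; then `zed_swap1` moves `al` to the third place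
(`zed d al be 0` from `zed d 0 be al`), `zed_cut` puts the point `al`, and `zed_swap2` and
`zed_cut` put the point `be`; finally `zed d 0 0 0 = tri (d + 1)`. (`zed_cut` is applied with the
other two places `(al, be)`, then `(0, be)`, then `(0, 0)`.)
-/

namespace Pool.MP_70e04f_ag.Hex

variable {ι : Type*} [Fintype ι]

/-- The bijection of `zed_swap1`. -/
private def zedE1 (d al be ga : ℕ) : ↥(zed d al be ga) ≃ ↥(zed d ga be al) where
  toFun q := ⟨(d - q.1.1 - q.1.2, q.1.2), by
    have h := mem_zed.mp q.2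
    rw [mem_zed]
    dsimp only
    omega⟩
  invFun q := ⟨(d - q.1.1 - q.1.2, q.1.2), by
    have h := mem_zed.mp q.2
    rw [mem_zed]
    dsimp only
    omega⟩
  left_inv q := by
    have h := mem_zed.mp q.2
    apply Subtype.ext
    apply Prod.ext
    · dsimp only
      omega
    · rfl
  right_inv q := by
    have h := mem_zed.mp q.2
    apply Subtype.ext
    apply Prod.ext
    · dsimp only
      omega
    · rfl

/-- The bijection of `zed_swap2`. -/
private def zedE2 (d al be ga : ℕ) : ↥(zed d al be ga) ≃ ↥(zed d al ga be) where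
  toFun q := ⟨(q.1.1, d - q.1.1 - q.1.2), by
    have h := mem_zed.mp q.2
    rw [mem_zed]
    dsimp only
    omega⟩
  invFun q := ⟨(q.1.1, d - q.1.1 - q.1.2), by
    have h := mem_zed.mp q.2
    rw [mem_zed]
    dsimp only
    omega⟩
  left_inv q := by
    have h := mem_zed.mp q.2
    apply Subtype.ext
    apply Prod.ext
    · rfl
    · dsimp only
      omega
  right_inv q := by
    have h := mem_zed.mp q.2
    apply Subtype.ext
    apply Prod.ext
    · rfl
    · dsimp only
      omega

theorem zed_swap1 {d al be ga : ℕ} {m : ι → ℕ} (h : OK (zed d ga be al) m) :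
    OK (zed d al be ga) m := by
  refine OK.change (zedE1 d al be ga) d (-1) (-1) 0 0 1 ?_ ?_ h
  · intro q
    have h1 := mem_zed.mp q.2
    show (((d - q.1.1 - q.1.2 : ℕ)) : ℝ) = _
    have h2 : d - q.1.1 - q.1.2 + (q.1.1 + q.1.2) = d := by omega
    have h3 : (((d - q.1.1 - q.1.2 : ℕ)) : ℝ) + ((q.1.1 : ℝ) + (q.1.2 : ℝ)) = d := by
      exact_mod_cast h2
    linarith
  · intro q
    show ((q.1.2 : ℕ) : ℝ) = _
    ring

theorem zed_swap2 {d al be ga : ℕ} {m : ι → ℕ} (h : OK (zed d al ga be) m) :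
    OK (zed d al be ga) m := by
  refine OK.change (zedE2 d al be ga) 0 1 0 d (-1) (-1) ?_ ?_ h
  · intro q
    show ((q.1.1 : ℕ) : ℝ) = _
    ring
  · intro q
    have h1 := mem_zed.mp q.2
    show (((d - q.1.1 - q.1.2 : ℕ)) : ℝ) = _
    have h2 : d - q.1.1 - q.1.2 + (q.1.1 + q.1.2) = d := by omega
    have h3 : (((d - q.1.1 - q.1.2 : ℕ)) : ℝ) + ((q.1.1 : ℝ) + (q.1.2 : ℝ)) = d := by
      exact_mod_cast h2
    linarith

theorem zed_cut {d al be ga : ℕ} (h1 : ga ≤ d + 1) (h2 : al + ga ≤ d + 1) (h3 : be + ga ≤ d + 1)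
    {m : ι → ℕ} (h : OK (zed d al be ga) m) :
    OK (zed d al be 0) (fun o : Option ι => o.elim ga m) := by
  apply OK.cut
  · intro q hq
    rw [mem_tri] at hq
    rw [mem_zed]
    omega
  · have e : zed d al be 0 \ tri ga = zed d al be ga := by
      ext q
      rw [Finset.mem_sdiff, mem_zed, mem_zed, mem_tri]
      omega
    rw [e]
    exact h

/-- From the hexagon to the triangle with three more points. -/
theorem tri_of_zed {d al be ga : ℕ} (h1 : al ≤ d + 1) (h2 : be ≤ d + 1) (h3 : ga ≤ d + 1)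
    (h12 : al + be ≤ d + 1) (h13 : al + ga ≤ d + 1) (h23 : be + ga ≤ d + 1) {m : ι → ℕ}
    (h : OK (zed d al be ga) m) :
    OK (tri (d + 1)) (fun o : Option (Option (Option ι)) =>
      o.elim be (fun o => o.elim al (fun o => o.elim ga m))) := by
  have k1 := zed_cut h3 h13 h23 h
  have k2 := zed_cut (d := d) (al := 0) (be := be) (ga := al) h1 (by omega) (by omega)
    (zed_swap1 k1)
  have k3 := zed_cut (d := d) (al := 0) (be := 0) (ga := be) h2 (by omega) (by omega)
    (zed_swap2 k2)
  have e : zed d 0 0 0 = tri (d + 1) := by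
    ext q
    rw [mem_zed, mem_tri]
    omega
  rw [e] at k3
  exact k3

/-- `zed` is a hexagon. -/
theorem zed_eq_hex {d al be ga : ℕ} (h1 : al ≤ d) (h2 : be ≤ d) :
    zed d al be ga = hex (d - al) (d - be) ga (d - al - be) := by
  ext q
  rw [mem_zed, mem_hex]
  omega

end Pool.MP_70e04f_ag.Hex

end

/-! ### from `Lib_MP_70e04f_hex.Slots` -/

section

/-!
# Distributing the large points to the three coordinate points
-/

namespace Pool.MP_70e04f_ag.Hex

section
variable {n : ℕ} (mm : Fin n → ℕ) (T : Finset (Fin n)) (f : ↥T ↪ Fin 3)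

/-- The multiplicity at the coordinate point `j`. -/
def slotv (j : Fin 3) : ℕ := ∑ t : ↥T, if f t = j then mm t.1 else 0

lemma slotv_apply (t : ↥T) : slotv mm T f (f t) = mm t.1 := by
  classical
  unfold slotv
  rw [Finset.sum_eq_single t]
  · rw [if_pos rfl]
  · intro b _ hb
    rw [if_neg (fun h => hb (f.injective h))]
  · intro h; exact absurd (Finset.mem_univ t) h

lemma slotv_zero (j : Fin 3) (hj : ∀ t, f t ≠ j) : slotv mm T f j = 0 := by
  unfold slotv
  apply Finset.sum_eq_zero
  intro t _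
  rw [if_neg (hj t)]

lemma slotv_val (j : Fin 3) : slotv mm T f j = 0 ∨ ∃ i ∈ T, slotv mm T f j = mm i := by
  by_cases hj : ∃ t, f t = j
  · obtain ⟨t, rfl⟩ := hj
    exact Or.inr ⟨t.1, t.2, slotv_apply mm T f t⟩
  · push Not at hj
    exact Or.inl (slotv_zero mm T f j hj)

lemma slotv_le (d : ℕ) (hdT : ∀ i ∈ T, mm i ≤ d) (j : Fin 3) : slotv mm T f j ≤ d := by
  rcases slotv_val mm T f j with h | ⟨i, hi, h⟩
  · omega
  · rw [h]; exact hdT i hi

lemma slotv_pair (d : ℕ) (hdT : ∀ i ∈ T, mm i ≤ d)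
    (hpair : ∀ i ∈ T, ∀ j ∈ T, i ≠ j → mm i + mm j ≤ d) (j j' : Fin 3) (hjj : j ≠ j') :
    slotv mm T f j + slotv mm T f j' ≤ d := by
  by_cases hj : ∃ t, f t = j
  · by_cases hj' : ∃ t, f t = j'
    · obtain ⟨t, rfl⟩ := hj
      obtain ⟨t', rfl⟩ := hj'
      rw [slotv_apply, slotv_apply]
      apply hpair t.1 t.2 t'.1 t'.2
      intro h
      exact hjj (congrArg f (Subtype.ext h))
    · push Not at hj'
      rw [slotv_zero mm T f j' hj', add_zero]
      exact slotv_le mm T f d hdT j
  · push Not at hj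
    rw [slotv_zero mm T f j hj, zero_add]
    exact slotv_le mm T f d hdT j'

/-- Distributing the points: from three coordinate points and the others to a family. -/
theorem tri_of_emb (d : ℕ) (hdT : ∀ i ∈ T, mm i ≤ d + 1)
    (hpair : ∀ i ∈ T, ∀ j ∈ T, i ≠ j → mm i + mm j ≤ d + 1)
    (h : OK (zed d (slotv mm T f 0) (slotv mm T f 1) (slotv mm T f 2))
      (fun i => if i ∈ T then 0 else mm i)) :
    OK (tri (d + 1)) mm := by
  classical
  have hle := slotv_le mm T f (d + 1) hdT
  have hpr := slotv_pair mm T f (d + 1) hdT hpair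
  have h1 := tri_of_zed (hle 0) (hle 1) (hle 2) (hpr 0 1 (by decide)) (hpr 0 2 (by decide))
    (hpr 1 2 (by decide)) h
  let slot : Fin 3 → Option (Option (Option (Fin n))) := ![some none, none, some (some none)]
  have hslot : Function.Injective slot := by
    intro a b hab
    fin_cases a <;> fin_cases b <;> simp_all [slot]
  have hslotv : ∀ j, (slot j).elim (slotv mm T f 1) (fun o => o.elim (slotv mm T f 0)
      (fun o => o.elim (slotv mm T f 2)
      (fun i => if i ∈ T then 0 else mm i))) = slotv mm T f j := by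
    intro j
    fin_cases j <;> rfl
  have hslotn : ∀ j i, slot j ≠ some (some (some i)) := by
    intro j i
    fin_cases j <;> simp [slot]
  refine OK.restrict (fun i : Fin n => if h : i ∈ T then slot (f ⟨i, h⟩) else some (some (some i)))
    ?_ ?_ ?_ h1
  · intro i i' hii
    simp only at hii
    by_cases hi : i ∈ T
    · by_cases hi' : i' ∈ T
      · rw [dif_pos hi, dif_pos hi'] at hii
        have := f.injective (hslot hii)
        exact congrArg Subtype.val this
      · rw [dif_pos hi, dif_neg hi'] at hii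
        exact absurd hii (hslotn _ _)
    · by_cases hi' : i' ∈ T
      · rw [dif_neg hi, dif_pos hi'] at hii
        exact absurd hii.symm (hslotn _ _)
      · rw [dif_neg hi, dif_neg hi'] at hii
        simpa using hii
  · intro i
    by_cases hi : i ∈ T
    · simp only [dif_pos hi]
      rw [hslotv, slotv_apply]
    · simp only [dif_neg hi]
      simp [hi]
  · intro o ho
    have hz : ∀ j, slot j = o → slotv mm T f j = 0 := by
      intro j hj
      apply slotv_zero
      intro t ht
      apply ho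
      refine ⟨t.1, ?_⟩
      simp only [dif_pos t.2]
      change slot (f t) = _
      rw [ht, hj]
    rcases o with _ | (_ | (_ | i))
    · exact hz 1 rfl
    · exact hz 0 rfl
    · exact hz 2 rfl
    · by_cases hi : i ∈ T
      · simp [hi]
      · exfalso
        apply ho
        exact ⟨i, by simp only [dif_neg hi]⟩

end

end Pool.MP_70e04f_ag.Hex

end

/-! ### from `Lib_MP_70e04f_nine.PhiB` -/

section

/-!
# The initial monomials after the change of coordinates (piece PHIB)

PAPER PROOFS. (1) Putting `X 1 = 0` in `phi P lam η G` one gets `br P lam η G` with the polynomial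
`η`: `coeff (mon a 0) (phi P lam η G) = PowerSeries.coeff a (br P lam (η : PowerSeries ℝ) G)`
(compare `coeff_mon_zero` in `Lib_MP_70e04f_add/Step.lean`; both sides are coefficients of values of
algebra homomorphisms, to be compared on the variables). (2) `br P lam η G` and `br P lam η' G` are
congruent modulo `X ^ n` if `η`, `η'` are (induction on `G`, or algebra homomorphisms to the quotient
by `Ideal.span {X ^ n}`); `η` and `trunc n η` are congruent modulo `X ^ n`.

`init_phi_curve`: put `η0 = trunc n η`. By (1), (2) the coefficient of `mon a 0` in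
`phi P lam η0 f` is that of `br P lam η f = 0` for `a < n`; the exponents of weight `≤ N0`
different from `(0, 1)` are `(a, 0)` with `a ≤ N0 < n`, and `(a, b)` with `b ≥ 2`, or `b = 1`, `a ≥ 1`
have larger weight (`1 ≤ N0`). The coefficient of `mon 0 1` is
`eval 0 (pderiv 1 (phi P lam η0 f)) = lam * eval P (pderiv 0 f) + eval P (pderiv 1 f)` by the chain
rule, as `η0.eval 0 = 0`.

`init_phi_mem`: the exponents of weight `≤ a` are `(a', 0)` with `a' ≤ a` as `a < N0`, and
the coefficients of `br P lam η0 G` in degrees `≤ a < n` are those of `br P lam η G`, which vanish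
below `a`, and not at `a` (`PowerSeries.order_eq_nat`).
-/

namespace Pool.MP_70e04f_ag.Nine

open MvPolynomial Pool.MP_70e04f_ag.Hex Pool.MP_70e04f_ag.Add

lemma phiB_phi_X0 (P : Fin 2 → ℝ) (lam : ℝ) (η : Polynomial ℝ) :
    phi P lam η (X 0) = C (P 0) + X 0 + C lam * (Polynomial.aeval (X 0) η + X 1) := by
  unfold phi
  rw [aeval_X]
  rfl

lemma phiB_phi_X1 (P : Fin 2 → ℝ) (lam : ℝ) (η : Polynomial ℝ) :
    phi P lam η (X 1) = C (P 1) + (Polynomial.aeval (X 0) η + X 1) := by
  unfold phi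
  rw [aeval_X]
  rfl

lemma phiB_br_X0 (P : Fin 2 → ℝ) (lam : ℝ) (η : PowerSeries ℝ) :
    br P lam η (X 0) = PowerSeries.C (P 0) + PowerSeries.X + PowerSeries.C lam * η := by
  unfold br
  rw [aeval_X]
  rfl

lemma phiB_br_X1 (P : Fin 2 → ℝ) (lam : ℝ) (η : PowerSeries ℝ) :
    br P lam η (X 1) = PowerSeries.C (P 1) + η := by
  unfold br
  rw [aeval_X]
  rfl

/-- the coefficients of the powers of `X 1` -/
lemma phiB_coeff_zero_mon (c : ℕ) (K : MvPolynomial (Fin 2) ℝ) :
    coeff (mon 0 c) K = (aeval ![(0 : Polynomial ℝ), Polynomial.X] K).coeff c := by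
  induction K using MvPolynomial.induction_on' with
  | monomial s r =>
    rw [coeff_monomial, aeval_monomial, Finsupp.prod_fintype _ _ (fun i => pow_zero _),
      Fin.prod_univ_two]
    simp only [Matrix.cons_val_zero, Matrix.cons_val_one]
    by_cases h1 : s 0 = 0
    · rw [h1, pow_zero, one_mul]
      simp only [Polynomial.algebraMap_eq, Polynomial.coeff_C_mul, Polynomial.coeff_X_pow]
      by_cases h0 : s 1 = c
      · rw [if_pos, if_pos h0.symm, mul_one]
        rw [← mon_eta s, h0, h1]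
      · rw [if_neg, if_neg (fun h => h0 h.symm), mul_zero]
        intro h
        apply h0
        rw [h, mon_one']
    · rw [zero_pow h1, zero_mul, mul_zero, Polynomial.coeff_zero, if_neg]
      intro h
      apply h1
      rw [h, mon_zero']
  | add p q hp hq =>
    rw [coeff_add, map_add, Polynomial.coeff_add, hp, hq]

lemma phiB_aeval_zero (P : Fin 2 → ℝ) (lam : ℝ) (η : Polynomial ℝ)
    (G : MvPolynomial (Fin 2) ℝ) :
    ((aeval ![(Polynomial.X : Polynomial ℝ), 0] (phi P lam η G) : Polynomial ℝ) : PowerSeries ℝ) =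
      br P lam (η : PowerSeries ℝ) G := by
  have hη : (aeval ![(Polynomial.X : Polynomial ℝ), 0] : MvPolynomial (Fin 2) ℝ →ₐ[ℝ] Polynomial ℝ)
      (Polynomial.aeval (X 0 : MvPolynomial (Fin 2) ℝ) η) = η := by
    rw [← Polynomial.aeval_algHom_apply, aeval_X]
    show Polynomial.aeval (Polynomial.X : Polynomial ℝ) η = η
    exact Polynomial.aeval_X_left_apply η
  induction G using MvPolynomial.induction_on with
  | C a =>
    have h1 : phi P lam η (C a) = C a := by
      rw [← MvPolynomial.algebraMap_eq, AlgHom.commutes]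
    have h2 : br P lam (η : PowerSeries ℝ) (C a) = PowerSeries.C a := by
      rw [← MvPolynomial.algebraMap_eq, AlgHom.commutes]
      rfl
    rw [h1, h2, MvPolynomial.aeval_C, Polynomial.algebraMap_eq, Polynomial.coe_C]
  | add p q hp hq =>
    rw [map_add, map_add, Polynomial.coe_add, hp, hq, map_add]
  | mul_X p i hp =>
    rw [map_mul, map_mul, Polynomial.coe_mul, hp, map_mul]
    congr 1
    fin_cases i
    · show ((aeval ![(Polynomial.X : Polynomial ℝ), 0] (phi P lam η (X 0)) : Polynomial ℝ) :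
        PowerSeries ℝ) = br P lam (η : PowerSeries ℝ) (X 0)
      rw [phiB_phi_X0, phiB_br_X0]
      simp only [map_add, map_mul, hη, aeval_X, MvPolynomial.aeval_C, Polynomial.algebraMap_eq]
      show ((Polynomial.C (P 0) + Polynomial.X + Polynomial.C lam * (η + 0) : Polynomial ℝ) :
        PowerSeries ℝ) = _
      rw [add_zero, Polynomial.coe_add, Polynomial.coe_add, Polynomial.coe_mul, Polynomial.coe_C,
        Polynomial.coe_C, Polynomial.coe_X]
    · show ((aeval ![(Polynomial.X : Polynomial ℝ), 0] (phi P lam η (X 1)) : Polynomial ℝ) :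
        PowerSeries ℝ) = br P lam (η : PowerSeries ℝ) (X 1)
      rw [phiB_phi_X1, phiB_br_X1]
      simp only [map_add, hη, aeval_X, MvPolynomial.aeval_C, Polynomial.algebraMap_eq]
      show ((Polynomial.C (P 1) + (η + 0) : Polynomial ℝ) : PowerSeries ℝ) = _
      rw [add_zero, Polynomial.coe_add, Polynomial.coe_C]

lemma phiB_one (P : Fin 2 → ℝ) (lam : ℝ) (η : Polynomial ℝ) (a : ℕ)
    (G : MvPolynomial (Fin 2) ℝ) :
    coeff (mon a 0) (phi P lam η G) = PowerSeries.coeff a (br P lam (η : PowerSeries ℝ) G) := by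
  rw [coeff_mon_zero, ← phiB_aeval_zero, Polynomial.coeff_coe]

lemma phiB_two (P : Fin 2 → ℝ) (lam : ℝ) {η η' : PowerSeries ℝ} {n : ℕ}
    (h : (PowerSeries.X : PowerSeries ℝ) ^ n ∣ η - η') (G : MvPolynomial (Fin 2) ℝ) :
    (PowerSeries.X : PowerSeries ℝ) ^ n ∣ br P lam η G - br P lam η' G := by
  induction G using MvPolynomial.induction_on with
  | C a =>
    have h2 : ∀ ζ : PowerSeries ℝ, br P lam ζ (C a) = PowerSeries.C a := by
      intro ζ
      rw [← MvPolynomial.algebraMap_eq, AlgHom.commutes]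
      rfl
    rw [h2, h2, sub_self]
    exact dvd_zero _
  | add p q hp hq =>
    rw [map_add, map_add]
    have : br P lam η p + br P lam η q - (br P lam η' p + br P lam η' q) =
      (br P lam η p - br P lam η' p) + (br P lam η q - br P lam η' q) := by ring
    rw [this]
    exact dvd_add hp hq
  | mul_X p i hp =>
    rw [map_mul, map_mul]
    have hi : (PowerSeries.X : PowerSeries ℝ) ^ n ∣ br P lam η (X i) - br P lam η' (X i) := by
      fin_cases i
      · show (PowerSeries.X : PowerSeries ℝ) ^ n ∣ br P lam η (X 0) - br P lam η' (X 0)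
        rw [phiB_br_X0, phiB_br_X0]
        have : PowerSeries.C (P 0) + PowerSeries.X + PowerSeries.C lam * η -
            (PowerSeries.C (P 0) + PowerSeries.X + PowerSeries.C lam * η') =
            PowerSeries.C lam * (η - η') := by ring
        rw [this]
        exact Dvd.dvd.mul_left h _
      · show (PowerSeries.X : PowerSeries ℝ) ^ n ∣ br P lam η (X 1) - br P lam η' (X 1)
        rw [phiB_br_X1, phiB_br_X1]
        have : PowerSeries.C (P 1) + η - (PowerSeries.C (P 1) + η') = η - η' := by ring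
        rw [this]
        exact h
    have : br P lam η p * br P lam η (X i) - br P lam η' p * br P lam η' (X i) =
        (br P lam η p - br P lam η' p) * br P lam η (X i) +
        br P lam η' p * (br P lam η (X i) - br P lam η' (X i)) := by ring
    rw [this]
    exact dvd_add (Dvd.dvd.mul_right hp _) (Dvd.dvd.mul_left hi _)

lemma phiB_coeff (P : Fin 2 → ℝ) (lam : ℝ) (η : PowerSeries ℝ) {n a : ℕ} (ha : a < n)
    (G : MvPolynomial (Fin 2) ℝ) :
    coeff (mon a 0) (phi P lam (PowerSeries.trunc n η) G) =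
      PowerSeries.coeff a (br P lam η G) := by
  rw [phiB_one]
  have h : (PowerSeries.X : PowerSeries ℝ) ^ n ∣
      ((PowerSeries.trunc n η : Polynomial ℝ) : PowerSeries ℝ) - η := by
    rw [PowerSeries.X_pow_dvd_iff]
    intro m hm
    rw [map_sub, Polynomial.coeff_coe, PowerSeries.coeff_trunc, if_pos hm, sub_self]
  have h2 := phiB_two P lam h G
  rw [PowerSeries.X_pow_dvd_iff] at h2
  have h3 := h2 a ha
  rw [map_sub, sub_eq_zero] at h3
  exact h3

/-- chain rule in one variable -/
lemma phiB_chain (P : Fin 2 → ℝ) (lam : ℝ) (f : MvPolynomial (Fin 2) ℝ) :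
    (aeval ![(Polynomial.C (P 0) + Polynomial.C lam * Polynomial.X : Polynomial ℝ),
        Polynomial.C (P 1) + Polynomial.X] f).coeff 0 = MvPolynomial.eval P f ∧
    (aeval ![(Polynomial.C (P 0) + Polynomial.C lam * Polynomial.X : Polynomial ℝ),
        Polynomial.C (P 1) + Polynomial.X] f).coeff 1 =
      lam * MvPolynomial.eval P (pderiv 0 f) + MvPolynomial.eval P (pderiv 1 f) := by
  induction f using MvPolynomial.induction_on with
  | C a =>
    rw [MvPolynomial.aeval_C, Polynomial.algebraMap_eq, pderiv_C, pderiv_C]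
    simp [Polynomial.coeff_C]
  | add p q hp hq =>
    rw [map_add, Polynomial.coeff_add, Polynomial.coeff_add, hp.1, hp.2, hq.1, hq.2, map_add,
      map_add, map_add, map_add, map_add]
    exact ⟨rfl, by ring⟩
  | mul_X p i hp =>
    rw [map_mul, Polynomial.mul_coeff_zero, Polynomial.mul_coeff_one, hp.1, hp.2, map_mul,
      pderiv_mul, pderiv_mul, map_add, map_add, map_mul, map_mul, map_mul, map_mul]
    have e : ∀ i : Fin 2, (aeval ![(Polynomial.C (P 0) + Polynomial.C lam * Polynomial.X :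
        Polynomial ℝ), Polynomial.C (P 1) + Polynomial.X] (X i : MvPolynomial (Fin 2) ℝ) : Polynomial ℝ).coeff 0 = P i ∧
        (aeval ![(Polynomial.C (P 0) + Polynomial.C lam * Polynomial.X :
        Polynomial ℝ), Polynomial.C (P 1) + Polynomial.X] (X i : MvPolynomial (Fin 2) ℝ) : Polynomial ℝ).coeff 1 =
        lam * MvPolynomial.eval P (pderiv 0 (X i : MvPolynomial (Fin 2) ℝ)) + MvPolynomial.eval P (pderiv 1 (X i : MvPolynomial (Fin 2) ℝ)) := by
      intro i
      fin_cases i
      · have e0 : (aeval ![(Polynomial.C (P 0) + Polynomial.C lam * Polynomial.X : Polynomial ℝ),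
          Polynomial.C (P 1) + Polynomial.X] (X 0 : MvPolynomial (Fin 2) ℝ) : Polynomial ℝ) =
          Polynomial.C (P 0) + Polynomial.C lam * Polynomial.X := by rw [aeval_X]; rfl
        show (aeval ![(Polynomial.C (P 0) + Polynomial.C lam * Polynomial.X : Polynomial ℝ),
          Polynomial.C (P 1) + Polynomial.X] (X 0 : MvPolynomial (Fin 2) ℝ) : Polynomial ℝ).coeff 0 = P 0 ∧
          (aeval ![(Polynomial.C (P 0) + Polynomial.C lam * Polynomial.X : Polynomial ℝ),
          Polynomial.C (P 1) + Polynomial.X] (X 0 : MvPolynomial (Fin 2) ℝ) : Polynomial ℝ).coeff 1 =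
          lam * MvPolynomial.eval P (pderiv 0 (X 0 : MvPolynomial (Fin 2) ℝ)) + MvPolynomial.eval P (pderiv 1 (X 0 : MvPolynomial (Fin 2) ℝ))
        rw [e0, pderiv_X_self, pderiv_X_of_ne (by decide)]
        simp [Polynomial.coeff_C]
      · have e0 : (aeval ![(Polynomial.C (P 0) + Polynomial.C lam * Polynomial.X : Polynomial ℝ),
          Polynomial.C (P 1) + Polynomial.X] (X 1 : MvPolynomial (Fin 2) ℝ) : Polynomial ℝ) =
          Polynomial.C (P 1) + Polynomial.X := by rw [aeval_X]; rfl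
        show (aeval ![(Polynomial.C (P 0) + Polynomial.C lam * Polynomial.X : Polynomial ℝ),
          Polynomial.C (P 1) + Polynomial.X] (X 1 : MvPolynomial (Fin 2) ℝ) : Polynomial ℝ).coeff 0 = P 1 ∧
          (aeval ![(Polynomial.C (P 0) + Polynomial.C lam * Polynomial.X : Polynomial ℝ),
          Polynomial.C (P 1) + Polynomial.X] (X 1 : MvPolynomial (Fin 2) ℝ) : Polynomial ℝ).coeff 1 =
          lam * MvPolynomial.eval P (pderiv 0 (X 1 : MvPolynomial (Fin 2) ℝ)) + MvPolynomial.eval P (pderiv 1 (X 1 : MvPolynomial (Fin 2) ℝ))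
        rw [e0, pderiv_X_self, pderiv_X_of_ne (by decide)]
        simp [Polynomial.coeff_C]
    rw [(e i).1, (e i).2, MvPolynomial.eval_X]
    exact ⟨rfl, by ring⟩

lemma phiB_coeff_one (P : Fin 2 → ℝ) (lam : ℝ) {η : Polynomial ℝ} (hη : η.coeff 0 = 0)
    (f : MvPolynomial (Fin 2) ℝ) :
    coeff (mon 0 1) (phi P lam η f) =
      lam * MvPolynomial.eval P (pderiv 0 f) + MvPolynomial.eval P (pderiv 1 f) := by
  rw [← (phiB_chain P lam f).2, phiB_coeff_zero_mon]
  congr 1
  have hη2 : (aeval ![(0 : Polynomial ℝ), Polynomial.X] : MvPolynomial (Fin 2) ℝ →ₐ[ℝ] Polynomial ℝ)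
      (Polynomial.aeval (X 0 : MvPolynomial (Fin 2) ℝ) η) = 0 := by
    rw [← Polynomial.aeval_algHom_apply, aeval_X]
    show Polynomial.aeval (0 : Polynomial ℝ) η = 0
    rw [← Polynomial.coeff_zero_eq_aeval_zero', hη, map_zero]
  have h : ((aeval ![(0 : Polynomial ℝ), Polynomial.X] :
      MvPolynomial (Fin 2) ℝ →ₐ[ℝ] Polynomial ℝ)).comp (phi P lam η) =
      aeval ![(Polynomial.C (P 0) + Polynomial.C lam * Polynomial.X : Polynomial ℝ),
        Polynomial.C (P 1) + Polynomial.X] := by
    apply MvPolynomial.algHom_ext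
    intro i
    fin_cases i
    · show aeval ![(0 : Polynomial ℝ), Polynomial.X] (phi P lam η (X 0)) = aeval _ (X 0)
      rw [phiB_phi_X0, aeval_X]
      simp only [map_add, map_mul, hη2, aeval_X, MvPolynomial.aeval_C, Polynomial.algebraMap_eq]
      show Polynomial.C (P 0) + 0 + Polynomial.C lam * (0 + Polynomial.X) =
        Polynomial.C (P 0) + Polynomial.C lam * Polynomial.X
      rw [add_zero, zero_add]
    · show aeval ![(0 : Polynomial ℝ), Polynomial.X] (phi P lam η (X 1)) = aeval _ (X 1)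
      rw [phiB_phi_X1, aeval_X]
      simp only [map_add, map_mul, hη2, aeval_X, MvPolynomial.aeval_C, Polynomial.algebraMap_eq]
      show Polynomial.C (P 1) + (0 + Polynomial.X) = Polynomial.C (P 1) + Polynomial.X
      rw [zero_add]
  exact DFunLike.congr_fun h f

/-- The initial monomial of the curve. -/
theorem init_phi_curve {P : Fin 2 → ℝ} {lam : ℝ} {η : PowerSeries ℝ} {n N0 : ℕ}
    {f : MvPolynomial (Fin 2) ℝ} (hη : PowerSeries.constantCoeff η = 0) (h : br P lam η f = 0)
    (hd : lam * MvPolynomial.eval P (pderiv 0 f) + MvPolynomial.eval P (pderiv 1 f) ≠ 0)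
    (hn : N0 < n) (hN0 : 1 ≤ N0) :
    InitMon N0 (0, 1) (phi P lam (PowerSeries.trunc n η) f) := by
  constructor
  · show coeff (mon 0 1) (phi P lam (PowerSeries.trunc n η) f) ≠ 0
    rw [phiB_coeff_one]
    · exact hd
    · rw [PowerSeries.coeff_trunc, if_pos (by omega), PowerSeries.coeff_zero_eq_constantCoeff_apply,
        hη]
  · intro a b hne hab
    have hab' : a + N0 * b ≤ 0 + N0 * 1 := hab
    rcases Nat.lt_or_ge b 1 with hb | hb
    · obtain rfl : b = 0 := by omega
      rw [phiB_coeff P lam η (by omega), h, map_zero]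
    · rcases hb.eq_or_lt with hb1 | hb1
      · obtain rfl : b = 1 := hb1.symm
        exfalso
        apply hne
        have : a = 0 := by omega
        rw [this]
      · exfalso
        have : N0 * 2 ≤ N0 * b := Nat.mul_le_mul_left _ hb1
        omega

/-- The initial monomial of a polynomial which does not vanish on the curve. -/
theorem init_phi_mem {P : Fin 2 → ℝ} {lam : ℝ} {η : PowerSeries ℝ} {n N0 a : ℕ}
    {G : MvPolynomial (Fin 2) ℝ} (h : PowerSeries.order (br P lam η G) = (a : ℕ∞)) (hn : a < n)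
    (hN0 : a < N0) : InitMon N0 (a, 0) (phi P lam (PowerSeries.trunc n η) G) := by
  rw [PowerSeries.order_eq_nat] at h
  constructor
  · show coeff (mon a 0) (phi P lam (PowerSeries.trunc n η) G) ≠ 0
    rw [phiB_coeff P lam η hn]
    exact h.1
  · intro a' b hne hab
    have hab' : a' + N0 * b ≤ a + N0 * 0 := hab
    rcases Nat.eq_zero_or_pos b with hb | hb
    · subst hb
      have ha' : a' < a := by
        rcases Nat.lt_or_ge a' a with h1 | h1
        · exact h1
        · exfalso
          apply hne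
          have : a' = a := by omega
          rw [this]
      rw [phiB_coeff P lam η (by omega)]
      exact h.2 a' ha'
    · exfalso
      have : N0 * 1 ≤ N0 * b := Nat.mul_le_mul_left _ hb
      omega

end Pool.MP_70e04f_ag.Nine

end

/-! ### from `Lib_MP_70e04f_hal.SumOK` -/

section

/-!
# Adding points to a system of known dimension (piece SUMOK)

PAPER PROOF. `sum_ok` is the end of the proof of `class_small` in `Lib_MP_70e04f_nine/Class.lean`
(after `refine ⟨Sum.elim q p, ?_⟩`).

`ok_of_le_one`: apply `sum_ok` with suitable `p`. If all `mm i = 0` any `p` will do (the second term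
on the right is `0`). If `hT N mT q = 0` any `p` will do. Otherwise `hT N mT q = 1` and some
`mm i0 ≥ 1`: let `F0 ≠ 0` be in `Lsys N mT q`; every element is a multiple of `F0`. Choose a point
`P` with `eval P F0 ≠ 0` (`MvPolynomial.funext`) and `p i = P` for all `i`. An element
`F = a • F0` of `vanish mm p` vanishes at `P` (it is in `pt P ^ mm i0 ≤ pt P`), so `a = 0`:
`Lsys N mT q ⊓ vanish mm p = ⊥` has dimension `0`.
-/

namespace Pool.MP_70e04f_ag.Hal

open MvPolynomial Pool.MP_70e04f_ag.Hex Pool.MP_70e04f_ag.Add Pool.MP_70e04f_ag.Nine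

/-- Joining the points. -/
theorem sum_ok {τ : Type*} [Fintype τ] {n N : ℕ} {mT : τ → ℕ} {q : τ → Fin 2 → ℝ} (mm : Fin n → ℕ)
    (h0 : 2 * hT N mT q + ∑ t, mT t * (mT t + 1) = N * (N + 1)) (p : Fin n → Fin 2 → ℝ)
    (hp : Module.finrank ℝ ↥(Lsys N mT q ⊓ vanish mm p) ≤
      hT N mT q - Fintype.card (Σ i : Fin n, ↥(tri (mm i)))) :
    OK (tri N) (Sum.elim mT mm) := by
  classical
  refine ⟨Sum.elim q p, ?_⟩
  have h1 := hT_eq N (Sum.elim mT mm) (Sum.elim q p)
  have h2 : Lsys N (Sum.elim mT mm) (Sum.elim q p) = Lsys N mT q ⊓ vanish mm p := by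
    ext F
    unfold Lsys
    rw [Submodule.mem_inf, Submodule.mem_inf, Submodule.mem_inf, mem_vanish, mem_vanish,
      mem_vanish]
    constructor
    · rintro ⟨h1, h2⟩
      exact ⟨⟨h1, fun t => h2 (Sum.inl t)⟩, fun i => h2 (Sum.inr i)⟩
    · rintro ⟨⟨h1, h2⟩, h3⟩
      refine ⟨h1, ?_⟩
      rintro (t | i)
      · exact h2 t
      · exact h3 i
  have h3 : hT N (Sum.elim mT mm) (Sum.elim q p) ≤
      hT N mT q - Fintype.card (Σ i : Fin n, ↥(tri (mm i))) := by
    unfold hT
    rw [h2]
    exact hp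
  have h5 := two_card_tri N
  have h6 : 2 * Fintype.card (Σ t : τ, ↥(tri (mT t))) = ∑ t, mT t * (mT t + 1) := by
    rw [Fintype.card_sigma, Finset.mul_sum]
    refine Finset.sum_congr rfl fun t _ => ?_
    rw [Fintype.card_coe, two_card_tri]
  have h7 : Fintype.card (Σ x : τ ⊕ Fin n, ↥(tri (Sum.elim mT mm x))) =
      Fintype.card (Σ t : τ, ↥(tri (mT t))) + Fintype.card (Σ i : Fin n, ↥(tri (mm i))) := by
    rw [Fintype.card_sigma, Fintype.card_sigma, Fintype.card_sigma, Fintype.sum_sum_type]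
    rfl
  unfold Good
  rw [← h1, Fintype.card_coe, h7]
  omega

/-- A system of dimension at most one. -/
theorem ok_of_le_one {τ : Type*} [Fintype τ] {n N : ℕ} {mT : τ → ℕ} {q : τ → Fin 2 → ℝ}
    (mm : Fin n → ℕ) (h0 : 2 * hT N mT q + ∑ t, mT t * (mT t + 1) = N * (N + 1))
    (h1 : hT N mT q ≤ 1) : OK (tri N) (Sum.elim mT mm) := by
  classical
  haveI hfd : FiniteDimensional ℝ ↥(Lsys N mT q) := by
    unfold Lsys
    infer_instance
  by_cases hz : ∀ i, mm i = 0
  · apply sum_ok mm h0 (fun _ => 0)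
    have e : Fintype.card (Σ i : Fin n, ↥(tri (mm i))) = 0 := by
      rw [Fintype.card_sigma]
      refine Finset.sum_eq_zero fun i _ => ?_
      have := two_card_tri (mm i)
      rw [Fintype.card_coe]
      rw [hz i] at this ⊢
      omega
    rw [e, Nat.sub_zero]
    unfold hT
    exact Submodule.finrank_mono (t := Lsys N mT q) inf_le_left
  · push_neg at hz
    obtain ⟨i0, hi0⟩ := hz
    rcases Nat.eq_zero_or_pos (hT N mT q) with h2 | h2
    · apply sum_ok mm h0 (fun _ => 0)
      rw [h2, Nat.zero_sub, Nat.le_zero]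
      have h3 : Module.finrank ℝ ↥(Lsys N mT q ⊓ vanish mm (fun _ => 0)) ≤
          Module.finrank ℝ ↥(Lsys N mT q) := Submodule.finrank_mono inf_le_left
      unfold hT at h2
      omega
    · have h3 : Module.finrank ℝ ↥(Lsys N mT q) = 1 := by
        unfold hT at h1 h2
        omega
      obtain ⟨F0, hF0, hspan⟩ := finrank_eq_one_iff'.1 h3
      have hF0' : (F0 : MvPolynomial (Fin 2) ℝ) ≠ 0 := by
        intro h
        exact hF0 (Subtype.ext h)
      obtain ⟨P, hP⟩ : ∃ P : Fin 2 → ℝ, eval P (F0 : MvPolynomial (Fin 2) ℝ) ≠ 0 := by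
        by_contra hcon
        push_neg at hcon
        apply hF0'
        apply MvPolynomial.funext
        intro x
        rw [hcon x, map_zero]
      apply sum_ok mm h0 (fun _ => P)
      have h4 : Lsys N mT q ⊓ vanish mm (fun _ => P) = ⊥ := by
        rw [eq_bot_iff]
        intro F hF
        rw [Submodule.mem_bot]
        obtain ⟨hF1, hF2⟩ := Submodule.mem_inf.1 hF
        obtain ⟨a, ha⟩ := hspan ⟨F, hF1⟩
        have ha' : a • (F0 : MvPolynomial (Fin 2) ℝ) = F := congrArg Subtype.val ha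
        have h5 := mem_vanish.1 hF2 i0
        have h6 : eval P F = 0 := RingHom.mem_ker.1 (Ideal.pow_le_self hi0 h5)
        rw [← ha', MvPolynomial.smul_eval] at h6
        rcases mul_eq_zero.1 h6 with h7 | h7
        · rw [← ha', h7, zero_smul]
        · exact absurd h7 hP
      rw [h4, finrank_bot]
      exact Nat.zero_le _

end Pool.MP_70e04f_ag.Hal

end
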