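import Pool.Agent.Lib_MP_70e04f_m.M07

/-!
# MP_70e04f_ag, plane linear systems: merged library part M12

Concatenation of smaller files (each in its own section), only to save build time.
-/

/-! ### from `Lib_MP_70e04f_hex.Fibres` -/

section

/-!
# The fibres of the hexagon (piece FIBRES)

Coordinates `t = l a + k b`, `r = l' a + k' b` with `l k' - k l' = 1`; the inverse map is
`a = k' t - k r`, `b = l r - l' t`. Increasing `r` by one at fixed `t` is `(a, b) ↦ (a - k, b + l)`.

PAPER PROOF. `P` is the image of `hex A B g e`, the map is injective (determinant 1). If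
`(a, b)` and `(a - i k, b + i l)` lie in the hexagon then so do the points
`(a - i' k, b + i' l)`, `i' ≤ i` (each of the inequalities defining the hexagon is linear, so it
holds between two points where it holds). So the fibre of `P` over `t` is an interval
`[r0 t, r0 t + c t)` with `c t` the number of its elements (`r0 t` = its minimum, `0` if empty).
`Q = {(t, j) | j < c t}` (a finset, e.g. a sigma/biUnion over the `t` in the image of `P`).
`q ∈ hexJ k l A B g e j` iff the points `q` and `q + j (-k, l)` are in the hexagon, i.e. iff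
`r q + j < r0 t + c t`; so `card (hexJ .. j) = ∑ t, (c t - j)` (truncated) and
`card (hexJ .. j) - card (hexJ .. (j + 1)) = #{t | j < c t} = rowc Q j`.
(Alternatively: `q ↦ (t q, j)` is a bijection from `hexJ j \ hexJ (j+1)` onto the row `j` of `Q`:
every `t` with `j < c t` has exactly one `r` with `r + j = r0 t + c t - 1`; and
`hexJ (j+1) ⊆ hexJ j`.)
-/

namespace Pool.MP_70e04f_ag.Hex

private lemma fib_inj (k l k' l' : ℕ) (hkl : l * k' = k * l' + 1) {a b c d i : ℕ}
    (h1 : l * a + k * b = l * c + k * d) (h2 : l' * c + k' * d = l' * a + k' * b + i) :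
    c + i * k = a ∧ d = b + i * l := by
  have hkl' : (l : ℤ) * k' = k * l' + 1 := by exact_mod_cast hkl
  have h1' : (l : ℤ) * a + k * b = l * c + k * d := by exact_mod_cast h1
  have h2' : (l' : ℤ) * c + k' * d = l' * a + k' * b + i := by exact_mod_cast h2
  constructor
  · have : (c : ℤ) + i * k = a := by
      linear_combination - k' * h1' - k * h2' + (a - c : ℤ) * hkl'
    exact_mod_cast this
  · have : (d : ℤ) = b + i * l := by
      linear_combination l' * h1' + l * h2' - (d - b : ℤ) * hkl'
    exact_mod_cast this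

/-- a convex finite set of naturals is an interval -/
private lemma fib_Ico (S : Finset ℕ) (hS : ∀ r i i' : ℕ, r ∈ S → r + i ∈ S → i' ≤ i → r + i' ∈ S) :
    ∃ r0 : ℕ, ∀ r, r ∈ S ↔ r0 ≤ r ∧ r < r0 + S.card := by
  rcases S.eq_empty_or_nonempty with h | h
  · subst h
    exact ⟨0, fun r => by simp⟩
  · refine ⟨S.min' h, ?_⟩
    have hm : S.min' h ∈ S := S.min'_mem h
    have hM : S.max' h ∈ S := S.max'_mem h
    have hle : S.min' h ≤ S.max' h := S.min'_le _ hM
    have hEq : S = Finset.Icc (S.min' h) (S.max' h) := by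
      apply Finset.Subset.antisymm
      · intro r hr
        exact Finset.mem_Icc.2 ⟨S.min'_le _ hr, S.le_max' _ hr⟩
      · intro r hr
        rw [Finset.mem_Icc] at hr
        have := hS (S.min' h) (S.max' h - S.min' h) (r - S.min' h) hm
          (by rw [Nat.add_sub_cancel' hle]; exact hM) (by omega)
        rwa [Nat.add_sub_cancel' hr.1] at this
    have hcard : S.card = S.max' h + 1 - S.min' h := by
      conv_lhs => rw [hEq]
      exact Nat.card_Icc _ _
    intro r
    constructor
    · intro hr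
      have h1 := S.min'_le _ hr
      have h2 := S.le_max' _ hr
      refine ⟨h1, ?_⟩
      rw [hcard]
      omega
    · rintro ⟨h1, h2⟩
      rw [hEq, Finset.mem_Icc]
      rw [hcard] at h2
      omega

/-- The fibres of the hexagon. -/
theorem exists_fibres (k l k' l' : ℕ) (hkl : l * k' = k * l' + 1) (A B g e : ℕ) :
    ∃ (r0 c : ℕ → ℕ) (P Q : Finset (ℕ × ℕ)) (φ : ↥(hex A B g e) ≃ ↥P),
      (∀ q : ↥(hex A B g e), (φ q).1.1 = l * q.1.1 + k * q.1.2 ∧
        (φ q).1.2 = l' * q.1.1 + k' * q.1.2) ∧
      (∀ t r, (t, r) ∈ P ↔ r0 t ≤ r ∧ r < r0 t + c t) ∧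
      (∀ t j, (t, j) ∈ Q ↔ j < c t) ∧
      (∀ j, rowc Q j + (hexJ k l A B g e (j + 1)).card = (hexJ k l A B g e j).card) := by
  classical
  set H := hex A B g e with hH
  let f : ℕ × ℕ → ℕ × ℕ := fun q => (l * q.1 + k * q.2, l' * q.1 + k' * q.2)
  have hf : Function.Injective f := by
    rintro ⟨a, b⟩ ⟨c, d⟩ h
    simp only [f, Prod.mk.injEq] at h
    obtain ⟨h1, h2⟩ := fib_inj k l k' l' hkl (i := 0) h.1 (by rw [add_zero]; exact h.2.symm)
    ext <;> simp <;> omega
  let P := H.image f
  -- the step lemma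
  have hstep : ∀ a b t r i : ℕ, (a, b) ∈ H → f (a, b) = (t, r) → (t, r + i) ∈ P →
      i * k ≤ a ∧ (a - i * k, b + i * l) ∈ H ∧ f (a - i * k, b + i * l) = (t, r + i) := by
    intro a b t r i _ hfab hP
    obtain ⟨⟨c, d⟩, hcd, hfcd⟩ := Finset.mem_image.1 hP
    simp only [f, Prod.mk.injEq] at hfab hfcd
    obtain ⟨h1, h2⟩ := fib_inj k l k' l' hkl (a := a) (b := b) (c := c) (d := d) (i := i)
      (by omega) (by omega)
    have e1 : a - i * k = c := by omega
    refine ⟨by omega, ?_, ?_⟩
    · rw [e1, ← h2]; exact hcd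
    · rw [e1, ← h2]
      simp only [f, Prod.mk.injEq]
      exact hfcd
  -- convexity
  have hconv : ∀ t r i i' : ℕ, (t, r) ∈ P → (t, r + i) ∈ P → i' ≤ i → (t, r + i') ∈ P := by
    intro t r i i' h1 h2 hi
    obtain ⟨⟨a, b⟩, hab, hfab⟩ := Finset.mem_image.1 h1
    obtain ⟨h3, h4, -⟩ := hstep a b t r i hab hfab h2
    rw [hH, mem_hex] at hab h4
    simp only at hab h4
    have hk : i' * k ≤ i * k := Nat.mul_le_mul_right _ hi
    have hl : i' * l ≤ i * l := Nat.mul_le_mul_right _ hi
    have key : (a - i' * k, b + i' * l) ∈ H := by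
      rw [hH, mem_hex]
      simp only
      refine ⟨by omega, by omega, ?_, ?_⟩
      · rcases le_total k l with hkl' | hkl'
        · have : i' * k ≤ i' * l := Nat.mul_le_mul_left _ hkl'
          omega
        · obtain ⟨w, hw⟩ := Nat.exists_eq_add_of_le hkl'
          have e1 : i * k = i * l + i * w := by rw [hw]; ring
          have e2 : i' * k = i' * l + i' * w := by rw [hw]; ring
          have e3 : i' * w ≤ i * w := Nat.mul_le_mul_right _ hi
          omega
      · rcases le_total k l with hkl' | hkl'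
        · obtain ⟨w, hw⟩ := Nat.exists_eq_add_of_le hkl'
          have e1 : i * l = i * k + i * w := by rw [hw]; ring
          have e2 : i' * l = i' * k + i' * w := by rw [hw]; ring
          have e3 : i' * w ≤ i * w := Nat.mul_le_mul_right _ hi
          omega
        · have : i' * l ≤ i' * k := Nat.mul_le_mul_left _ hkl'
          omega
    refine Finset.mem_image.2 ⟨_, key, ?_⟩
    simp only [f, Prod.mk.injEq] at hfab ⊢
    obtain ⟨w, hw⟩ := Nat.exists_eq_add_of_le (show i' * k ≤ a by omega)
    have e1 : a - i' * k = w := by omega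
    rw [e1]
    subst hw
    constructor
    · rw [← hfab.1]; ring
    · rw [← hfab.2]
      have : l' * (i' * k + w) + k' * b + i' = l' * w + k' * b + i' * (k * l' + 1) := by ring
      rw [this, ← hkl]; ring
  -- the fibres
  let S : ℕ → Finset ℕ := fun t => (P.filter (fun p => p.1 = t)).image Prod.snd
  have hS : ∀ t r, r ∈ S t ↔ (t, r) ∈ P := by
    intro t r
    simp only [S, Finset.mem_image, Finset.mem_filter]
    constructor
    · rintro ⟨⟨x, y⟩, ⟨h1, h2⟩, h3⟩
      simp only at h2 h3
      rw [← h2, ← h3]; exact h1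
    · intro h
      exact ⟨(t, r), ⟨h, rfl⟩, rfl⟩
  have hI : ∀ t, ∃ r0 : ℕ, ∀ r, r ∈ S t ↔ r0 ≤ r ∧ r < r0 + (S t).card := by
    intro t
    apply fib_Ico
    intro r i i' h1 h2 h3
    rw [hS] at h1 h2 ⊢
    exact hconv t r i i' h1 h2 h3
  choose r0 hr0 using hI
  let c : ℕ → ℕ := fun t => (S t).card
  have hP : ∀ t r, (t, r) ∈ P ↔ r0 t ≤ r ∧ r < r0 t + c t := by
    intro t r
    rw [← hS, hr0]
  let Q : Finset (ℕ × ℕ) := (P.image Prod.fst).biUnion
    (fun t => (Finset.range (c t)).image (fun j => (t, j)))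
  have hQ : ∀ t j, (t, j) ∈ Q ↔ j < c t := by
    intro t j
    simp only [Q, Finset.mem_biUnion, Finset.mem_image, Finset.mem_range, Prod.mk.injEq]
    constructor
    · rintro ⟨t', -, j', hj', rfl, rfl⟩
      exact hj'
    · intro h
      refine ⟨t, ⟨(t, r0 t), ?_, rfl⟩, j, h, rfl, rfl⟩
      exact (hP t (r0 t)).2 ⟨le_refl _, by omega⟩
  -- the equivalence
  let φ : ↥H ≃ ↥P := Equiv.ofBijective
    (fun q => ⟨f q.1, Finset.mem_image_of_mem f q.2⟩) (by
      constructor
      · intro q q' h
        exact Subtype.ext (hf (congrArg Subtype.val h))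
      · rintro ⟨p, hp⟩
        obtain ⟨q, hq, rfl⟩ := Finset.mem_image.1 hp
        exact ⟨⟨q, hq⟩, rfl⟩)
  refine ⟨r0, c, P, Q, φ, fun q => ⟨rfl, rfl⟩, hP, hQ, ?_⟩
  -- the counts
  have hJ : ∀ j, (hexJ k l A B g e j).card = (P.filter (fun p => (p.1, p.2 + j) ∈ P)).card := by
    intro j
    rw [← Finset.card_image_of_injective (hexJ k l A B g e j) hf]
    congr 1
    ext ⟨t, r⟩
    simp only [Finset.mem_image, Finset.mem_filter]
    constructor
    · rintro ⟨⟨a, b⟩, h1, h2⟩
      rw [hexJ, Finset.mem_filter] at h1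
      obtain ⟨h3, h4, h5⟩ := h1
      simp only at h4 h5
      refine ⟨Finset.mem_image.2 ⟨(a, b), h3, h2⟩, Finset.mem_image.2 ⟨_, h5, ?_⟩⟩
      simp only [f, Prod.mk.injEq] at h2 ⊢
      obtain ⟨w, hw⟩ := Nat.exists_eq_add_of_le h4
      have e1 : a - j * k = w := by omega
      rw [e1]
      subst hw
      constructor
      · rw [← h2.1]; ring
      · rw [← h2.2]
        have : l' * (j * k + w) + k' * b + j = l' * w + k' * b + j * (k * l' + 1) := by ring
        rw [this, ← hkl]; ring
    · rintro ⟨h1, h2⟩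
      obtain ⟨⟨a, b⟩, hab, hfab⟩ := Finset.mem_image.1 h1
      obtain ⟨h3, h4, -⟩ := hstep a b t r j hab hfab h2
      exact ⟨(a, b), by rw [hexJ, Finset.mem_filter]; exact ⟨hab, h3, h4⟩, hfab⟩
  intro j
  rw [hJ, hJ]
  have hsub : P.filter (fun p => (p.1, p.2 + (j + 1)) ∈ P) ⊆
      P.filter (fun p => (p.1, p.2 + j) ∈ P) := by
    rintro ⟨t, r⟩ h
    simp only [Finset.mem_filter, hP] at h ⊢
    omega
  have hcard : rowc Q j = (P.filter (fun p => (p.1, p.2 + j) ∈ P) \
      P.filter (fun p => (p.1, p.2 + (j + 1)) ∈ P)).card := by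
    unfold rowc
    refine Finset.card_bij' (fun q _ => (q.1, r0 q.1 + c q.1 - 1 - q.2)) (fun p _ => (p.1, j))
      ?_ ?_ ?_ ?_
    · rintro ⟨t, i⟩ h
      rw [Finset.mem_filter, hQ] at h
      simp only [Finset.mem_sdiff, Finset.mem_filter, hP]
      omega
    · rintro ⟨t, r⟩ h
      simp only [Finset.mem_sdiff, Finset.mem_filter, hP] at h
      rw [Finset.mem_filter, hQ]
      refine ⟨?_, rfl⟩
      change j < c t
      omega
    · rintro ⟨t, i⟩ h
      rw [Finset.mem_filter, hQ] at h
      exact Prod.ext rfl h.2.symm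
    · rintro ⟨t, r⟩ h
      simp only [Finset.mem_sdiff, Finset.mem_filter, hP] at h
      refine Prod.ext rfl ?_
      change r0 t + c t - 1 - j = r
      omega
  rw [hcard, Finset.card_sdiff_of_subset hsub]
  have := Finset.card_le_card hsub
  omega

end Pool.MP_70e04f_ag.Hex

end
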