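import Pool.Agent.Lib_MP_70e04f_m.M07

/-!
# MP_70e04f_ag, plane linear systems: merged library part M13

Concatenation of smaller files (each in its own section), only to save build time.
-/

namespace Pool.MP_70e04f_ag.Hex
end Pool.MP_70e04f_ag.Hex

namespace Pool.MP_70e04f_ag.Add
end Pool.MP_70e04f_ag.Add

/-! ### from `Lib_MP_70e04f_hex.CardHex` -/

section

/-!
# The number of points of the hexagon (piece CARDHEX)

PAPER PROOF of `card_hex`. The box `a ≤ A`, `b ≤ B` has `(A + 1) (B + 1)` points. The removed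
corners `{a + b < g}` and `{(A - a) + (B - b) < e}` are disjoint as `g + e ≤ A + B + 1`
(`g - 1 + e - 1 < A + B`). The corner `{a ≤ A, b ≤ B, a + b < g}` has (as `g ≤ B + 1`, so that
`b ≤ B` is automatic) `∑ a ≤ A, (g - a)` (truncated) points, and
`2 ∑ a ≤ A, (g - a) = T2 g - T2 (g - A - 1)`. The other corner is the same by the symmetry
`(a, b) ↦ (A - a, B - b)`. (Or count column by column:
the column `a` has `B + 1 - (g - a) - (e - (A - a))` points.)

PAPER PROOF of `two_card_hexJ`. `(a, b) ↦ (a - j k, b)` is a bijection from `hexJ k l A B g e j`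
onto `hex (A - j k) (B - j l) (g - j l) (e - j l)` (truncated subtractions): with `a' = a - j k`,
the conditions are `a' ≤ A - j k`, `b ≤ B - j l`; `g ≤ a' + b + j k` and `g ≤ a' + b + j l`, the
second implies the first as `l ≤ k`; `a' + b + j k + e ≤ A + B` and `a' + b + j l + e ≤ A + B`, the
first implies the second, and it says `a' + b + (e - j l) ≤ (A - j k) + (B - j l)`. Then use
`card_hex` (`T2` of a negative number is `0`, so the truncation does not matter).
-/

namespace Pool.MP_70e04f_ag.Hex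

/-- The columns. -/
private lemma cardHex_col (A B g e : ℕ) : (hex A B g e).card =
    ∑ a ∈ Finset.range (A + 1), ((B + 1 - (e - (A - a))) - (g - a)) := by
  unfold hex
  rw [Finset.card_filter, Finset.sum_product]
  refine Finset.sum_congr rfl fun a ha => ?_
  rw [Finset.mem_range] at ha
  rw [← Finset.card_filter]
  have h : (Finset.range (B + 1)).filter (fun b => g ≤ a + b ∧ a + b + e ≤ A + B) =
      Finset.Ico (g - a) (B + 1 - (e - (A - a))) := by
    ext b
    rw [Finset.mem_filter, Finset.mem_range, Finset.mem_Ico]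
    omega
  rw [h, Nat.card_Ico]

private lemma cardHex_T2_succ (x : ℤ) : T2 (x + 1) - T2 x = 2 * max (x + 1) 0 := by
  unfold T2
  split_ifs with h1 h2 h3
  · rw [max_eq_left h1]; ring
  · have : x = -1 := by omega
    subst this
    norm_num
  · omega
  · rw [max_eq_right (by omega)]; ring

/-- The sum of the truncated differences. -/
private lemma cardHex_sum (g n : ℕ) : 2 * ∑ a ∈ Finset.range n, ((g - a : ℕ) : ℤ) =
    T2 g - T2 ((g : ℤ) - n) := by
  induction n with
  | zero => simp
  | succ n ih =>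
    rw [Finset.sum_range_succ, mul_add, ih]
    have h := cardHex_T2_succ ((g : ℤ) - (n + 1 : ℕ))
    have h1 : (g : ℤ) - (n + 1 : ℕ) + 1 = (g : ℤ) - n := by push_cast; ring
    rw [h1] at h
    have h2 : ((g - n : ℕ) : ℤ) = max ((g : ℤ) - n) 0 := by omega
    rw [h2]
    linarith

/-- The number of points of the hexagon. -/
theorem card_hex (A B g e : ℕ) (hAB : A ≤ B) (hg : g ≤ B + 1) (he : e ≤ B + 1)
    (hge : g + e ≤ A + B + 1) : 2 * ((hex A B g e).card : ℤ) = F2 A B g e := by
  rw [cardHex_col]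
  push_cast
  have h1 : ∑ a ∈ Finset.range (A + 1), (((B + 1 - (e - (A - a)) - (g - a) : ℕ)) : ℤ) =
      ∑ a ∈ Finset.range (A + 1), (((B : ℤ) + 1) - ((e - (A + 1 - 1 - a) : ℕ) : ℤ) -
        ((g - a : ℕ) : ℤ)) := by
    refine Finset.sum_congr rfl fun a ha => ?_
    rw [Finset.mem_range] at ha
    omega
  rw [h1, Finset.sum_sub_distrib, Finset.sum_sub_distrib,
    Finset.sum_range_reflect (fun a => ((e - a : ℕ) : ℤ)) (A + 1), Finset.sum_const,
    Finset.card_range, nsmul_eq_mul, mul_sub, mul_sub, cardHex_sum, cardHex_sum]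
  unfold F2
  have h2 : (g : ℤ) - (A + 1 : ℕ) = (g : ℤ) - A - 1 := by push_cast; ring
  have h3 : (e : ℤ) - (A + 1 : ℕ) = (e : ℤ) - A - 1 := by push_cast; ring
  rw [h2, h3]
  push_cast
  ring

private lemma cardHex_T2_neg {x : ℤ} (h : x < 0) : T2 x = 0 := by
  unfold T2
  rw [if_neg (by omega)]

private lemma cardHex_bij' (A B g e K L : ℕ) (hL : L ≤ K) (hAB : A ≤ B) (hj : K ≤ A) :
    ((hex A B g e).filter (fun q => K ≤ q.1 ∧ (q.1 - K, q.2 + L) ∈ hex A B g e)).card =
      (hex (A - K) (B - L) (g - L) (e - L)).card := by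
  refine Finset.card_bij' (fun q _ => (q.1 - K, q.2)) (fun q _ => (q.1 + K, q.2)) ?_ ?_ ?_ ?_
  · intro q hq
    rw [Finset.mem_filter, mem_hex, mem_hex] at hq
    rw [mem_hex]
    dsimp only at hq ⊢
    omega
  · intro q hq
    rw [mem_hex] at hq
    rw [Finset.mem_filter, mem_hex, mem_hex]
    dsimp only
    omega
  · intro q hq
    rw [Finset.mem_filter] at hq
    apply Prod.ext
    · dsimp only
      omega
    · rfl
  · intro q _
    apply Prod.ext
    · dsimp only
      omega
    · rfl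

private lemma cardHex_T2_nat (g L : ℕ) : T2 ((g - L : ℕ) : ℤ) = T2 ((g : ℤ) - L) := by
  by_cases h : L ≤ g
  · rw [Nat.cast_sub h]
  · have h1 : g - L = 0 := by omega
    rw [h1, cardHex_T2_neg (by omega : (g : ℤ) - L < 0)]
    simp [T2]

private lemma cardHex_T2_nat' (g L : ℕ) {x : ℤ} (hx : 0 ≤ x) :
    T2 (((g - L : ℕ) : ℤ) - x - 1) = T2 ((g : ℤ) - L - x - 1) := by
  by_cases h : L ≤ g
  · rw [Nat.cast_sub h]
  · have h1 : g - L = 0 := by omega
    rw [h1, cardHex_T2_neg (by omega : (g : ℤ) - L - x - 1 < 0), cardHex_T2_neg (by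
      push_cast
      omega)]

private lemma cardHex_two (A B g e K L : ℕ) (hL : L ≤ K) (hAB : A ≤ B) (hj : K ≤ A)
    (hg : g ≤ B + 1) (he : e ≤ B + 1) (hdis : g + e + K ≤ A + B + 1 + L) :
    2 * (((hex (A - K) (B - L) (g - L) (e - L)).card : ℕ) : ℤ) =
      F2 ((A : ℤ) - K) ((B : ℤ) - L) ((g : ℤ) - L) ((e : ℤ) - L) := by
  rw [card_hex (A - K) (B - L) (g - L) (e - L) (by omega) (by omega) (by omega) (by omega)]
  unfold F2
  rw [cardHex_T2_nat, cardHex_T2_nat, Nat.cast_sub hj, Nat.cast_sub (by omega : L ≤ B),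
    cardHex_T2_nat' g L (by omega : (0 : ℤ) ≤ (A : ℤ) - K),
    cardHex_T2_nat' e L (by omega : (0 : ℤ) ≤ (A : ℤ) - K)]

/-- The number of points of the shrunken hexagon. -/
theorem two_card_hexJ (k l A B g e j : ℕ) (hlk : l ≤ k) (hAB : A ≤ B) (hj : j * k ≤ A)
    (hg : g ≤ B + 1) (he : e ≤ B + 1) (hdis : g + e + j * k ≤ A + B + 1 + j * l) :
    2 * ((hexJ k l A B g e j).card : ℤ) =
      F2 ((A : ℤ) - j * k) ((B : ℤ) - j * l) ((g : ℤ) - j * l) ((e : ℤ) - j * l) := by
  have hL : j * l ≤ j * k := Nat.mul_le_mul_left j hlk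
  have h1 : (hexJ k l A B g e j).card =
      (hex (A - j * k) (B - j * l) (g - j * l) (e - j * l)).card :=
    cardHex_bij' A B g e (j * k) (j * l) hL hAB hj
  rw [h1, cardHex_two A B g e (j * k) (j * l) hL hAB hj hg he hdis]
  push_cast
  rfl

/-- Beyond the last row. -/
theorem card_hexJ_zero (k l A B g e j : ℕ) (h : A < j * k) : (hexJ k l A B g e j).card = 0 := by
  rw [Finset.card_eq_zero, Finset.eq_empty_iff_forall_notMem]
  intro q hq
  unfold hexJ at hq
  rw [Finset.mem_filter, mem_hex] at hq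
  omega

end Pool.MP_70e04f_ag.Hex

end

/-! ### from `Lib_MP_70e04f_nine.Shear` -/

section

/-!
# Making the curve transversal to the vertical direction (piece SHEAR)

PAPER PROOF. `shear P lam` is an automorphism (inverse `aeval ![X 0 - C (P 0) - C lam * (X 1 - C
(P 1)), X 1 - C (P 1)]`), so it preserves irreducibility; it does not raise the total degree. Its
value at the origin is the value at `P`, and by the chain rule (check it on products and on the
variables, or `MvPolynomial.induction_on`)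
`eval 0 (pderiv 1 (shear P lam F)) = lam * eval P (pderiv 0 F) + eval P (pderiv 1 F)`.
If `totalDegree f ≤ k` then `coeff (mon 0 k) (shear P lam f) = ∑ a ≤ k, coeff (mon a (k - a)) f *
lam ^ a`, a polynomial in `lam` whose constant coefficient is `coeff (mon 0 k) f ≠ 0`. The
polynomials `T * eval P (pderiv 0 f) + eval P (pderiv 1 f)` and this one in `T` are not zero, so their
product does not vanish at some real `lam`.
-/

namespace Pool.MP_70e04f_ag.Nine

open MvPolynomial Pool.MP_70e04f_ag.Hex Pool.MP_70e04f_ag.Add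

lemma shear_X0 (P : Fin 2 → ℝ) (lam : ℝ) :
    shear P lam (X 0) = C (P 0) + X 0 + C lam * X 1 := by
  unfold shear
  rw [aeval_X]
  rfl

lemma shear_X1 (P : Fin 2 → ℝ) (lam : ℝ) : shear P lam (X 1) = C (P 1) + X 1 := by
  unfold shear
  rw [aeval_X]
  rfl

lemma shear_C (P : Fin 2 → ℝ) (lam r : ℝ) : shear P lam (C r) = C r := by
  unfold shear
  rw [aeval_C]
  rfl

/-- The inverse of the shear. -/
noncomputable def shearInv (P : Fin 2 → ℝ) (lam : ℝ) :
    MvPolynomial (Fin 2) ℝ →ₐ[ℝ] MvPolynomial (Fin 2) ℝ :=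
  aeval ![X 0 - C (P 0) - C lam * (X 1 - C (P 1)), X 1 - C (P 1)]

lemma shearInv_X0 (P : Fin 2 → ℝ) (lam : ℝ) :
    shearInv P lam (X 0) = X 0 - C (P 0) - C lam * (X 1 - C (P 1)) := by
  unfold shearInv
  rw [aeval_X]
  rfl

lemma shearInv_X1 (P : Fin 2 → ℝ) (lam : ℝ) : shearInv P lam (X 1) = X 1 - C (P 1) := by
  unfold shearInv
  rw [aeval_X]
  rfl

lemma shearInv_C (P : Fin 2 → ℝ) (lam r : ℝ) : shearInv P lam (C r) = C r := by
  unfold shearInv
  rw [aeval_C]
  rfl

lemma shearInv_shear (P : Fin 2 → ℝ) (lam : ℝ) (F : MvPolynomial (Fin 2) ℝ) :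
    shearInv P lam (shear P lam F) = F := by
  have h : (shearInv P lam).comp (shear P lam) = AlgHom.id ℝ _ := by
    apply MvPolynomial.algHom_ext
    intro i
    fin_cases i
    · show shearInv P lam (shear P lam (X 0)) = X 0
      rw [shear_X0, map_add, map_add, map_mul, shearInv_X0, shearInv_X1, shearInv_C, shearInv_C]
      ring
    · show shearInv P lam (shear P lam (X 1)) = X 1
      rw [shear_X1, map_add, shearInv_X1, shearInv_C]
      ring
  exact DFunLike.congr_fun h F

lemma shear_shearInv (P : Fin 2 → ℝ) (lam : ℝ) (F : MvPolynomial (Fin 2) ℝ) :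
    shear P lam (shearInv P lam F) = F := by
  have h : (shear P lam).comp (shearInv P lam) = AlgHom.id ℝ _ := by
    apply MvPolynomial.algHom_ext
    intro i
    fin_cases i
    · show shear P lam (shearInv P lam (X 0)) = X 0
      rw [shearInv_X0, map_sub, map_sub, map_mul, map_sub, shear_X0, shear_X1, shear_C, shear_C,
        shear_C]
      ring
    · show shear P lam (shearInv P lam (X 1)) = X 1
      rw [shearInv_X1, map_sub, shear_X1, shear_C]
      ring
  exact DFunLike.congr_fun h F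

theorem shear_bijective (P : Fin 2 → ℝ) (lam : ℝ) : Function.Bijective (shear P lam) :=
  ⟨Function.LeftInverse.injective (shearInv_shear P lam),
    Function.RightInverse.surjective (shear_shearInv P lam)⟩

/-- The shear as a sum. -/
lemma shear_eq_sum (P : Fin 2 → ℝ) (lam : ℝ) (F : MvPolynomial (Fin 2) ℝ) :
    shear P lam F = ∑ d ∈ F.support, C (coeff d F) *
      ((C (P 0) + X 0 + C lam * X 1) ^ d 0 * (C (P 1) + X 1) ^ d 1) := by
  unfold shear
  rw [aeval_def, eval₂_eq']
  refine Finset.sum_congr rfl (fun d _ => ?_)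
  rw [Fin.prod_univ_two]
  rfl

theorem totalDegree_shear_le (P : Fin 2 → ℝ) (lam : ℝ) (F : MvPolynomial (Fin 2) ℝ) :
    (shear P lam F).totalDegree ≤ F.totalDegree := by
  rw [shear_eq_sum]
  refine (totalDegree_finsetSum _ _).trans (Finset.sup_le (fun d hd => ?_))
  have h0 : (C (P 0) + X 0 + C lam * X 1 : MvPolynomial (Fin 2) ℝ).totalDegree ≤ 1 := by
    refine (totalDegree_add _ _).trans (max_le ((totalDegree_add _ _).trans (max_le ?_ ?_)) ?_)
    · rw [totalDegree_C]; exact Nat.zero_le _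
    · rw [totalDegree_X]
    · refine (totalDegree_mul _ _).trans ?_
      rw [totalDegree_C, totalDegree_X]
  have h1 : (C (P 1) + X 1 : MvPolynomial (Fin 2) ℝ).totalDegree ≤ 1 := by
    refine (totalDegree_add _ _).trans (max_le ?_ ?_)
    · rw [totalDegree_C]; exact Nat.zero_le _
    · rw [totalDegree_X]
  have h2 : d 0 + d 1 ≤ F.totalDegree := by
    have h3 := le_totalDegree hd
    rwa [Finsupp.sum_fintype _ _ (fun _ => rfl), Fin.sum_univ_two] at h3
  calc _ ≤ (C (coeff d F) : MvPolynomial (Fin 2) ℝ).totalDegree +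
        ((C (P 0) + X 0 + C lam * X 1 : MvPolynomial (Fin 2) ℝ) ^ d 0 *
          (C (P 1) + X 1) ^ d 1).totalDegree := totalDegree_mul _ _
    _ ≤ 0 + (((C (P 0) + X 0 + C lam * X 1 : MvPolynomial (Fin 2) ℝ) ^ d 0).totalDegree +
          ((C (P 1) + X 1 : MvPolynomial (Fin 2) ℝ) ^ d 1).totalDegree) :=
        add_le_add (totalDegree_C _).le (totalDegree_mul _ _)
    _ ≤ 0 + (d 0 * 1 + d 1 * 1) := by
        refine add_le_add le_rfl (add_le_add ?_ ?_)
        · exact (totalDegree_pow _ _).trans (Nat.mul_le_mul_left _ h0)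
        · exact (totalDegree_pow _ _).trans (Nat.mul_le_mul_left _ h1)
    _ ≤ F.totalDegree := by omega

theorem eval_shear (P : Fin 2 → ℝ) (lam : ℝ) (F : MvPolynomial (Fin 2) ℝ) :
    MvPolynomial.eval 0 (shear P lam F) = MvPolynomial.eval P F := by
  have h : (MvPolynomial.eval (0 : Fin 2 → ℝ)).comp
      (shear P lam : MvPolynomial (Fin 2) ℝ →+* MvPolynomial (Fin 2) ℝ) =
      MvPolynomial.eval P := by
    apply MvPolynomial.ringHom_ext
    · intro r
      simp [shear]
    · intro i
      fin_cases i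
      · show MvPolynomial.eval 0 (shear P lam (X 0)) = _
        rw [shear_X0]
        simp
      · show MvPolynomial.eval 0 (shear P lam (X 1)) = _
        rw [shear_X1]
        simp
  exact congrArg (fun ψ : MvPolynomial (Fin 2) ℝ →+* ℝ => ψ F) h

theorem pderiv_shear (P : Fin 2 → ℝ) (lam : ℝ) (F : MvPolynomial (Fin 2) ℝ) :
    MvPolynomial.eval 0 (pderiv 1 (shear P lam F)) =
      lam * MvPolynomial.eval P (pderiv 0 F) + MvPolynomial.eval P (pderiv 1 F) := by
  induction F using MvPolynomial.induction_on with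
  | C r =>
    simp only [shear_C, pderiv_C]
    simp
  | add p q hp hq =>
    rw [map_add, map_add, map_add, map_add, map_add, map_add, map_add, hp, hq]
    ring
  | mul_X p i hp =>
    rw [map_mul, pderiv_mul, pderiv_mul, pderiv_mul, map_add, map_mul, map_mul, hp, eval_shear,
      eval_shear, map_add, map_mul, map_mul, map_add, map_mul, map_mul]
    fin_cases i
    · have h1 : pderiv 1 (shear P lam (X 0)) = C lam := by
        rw [shear_X0, map_add, map_add, pderiv_C, pderiv_mul, pderiv_C, pderiv_X_self,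
          pderiv_X_of_ne (by decide)]
        simp
      simp only [Fin.zero_eta, Fin.isValue, h1, pderiv_X_self, eval_X, eval_C,
        pderiv_X_of_ne (show (0 : Fin 2) ≠ 1 by decide), map_one, map_zero]
      ring
    · have h1 : pderiv 1 (shear P lam (X 1)) = 1 := by
        rw [shear_X1, map_add, pderiv_C, pderiv_X_self, zero_add]
      simp only [Fin.mk_one, Fin.isValue, h1, pderiv_X_self, eval_X,
        pderiv_X_of_ne (show (1 : Fin 2) ≠ 0 by decide), map_one, map_zero]
      ring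

/-- The coefficients of the restriction to the line `X 0 = 0`. -/
lemma coeff_mon_zero_left (c : ℕ) (K : MvPolynomial (Fin 2) ℝ) :
    coeff (mon 0 c) K = (aeval ![0, (Polynomial.X : Polynomial ℝ)] K).coeff c := by
  induction K using MvPolynomial.induction_on' with
  | monomial s r =>
    rw [coeff_monomial, aeval_monomial, Finsupp.prod_fintype _ _ (fun i => pow_zero _),
      Fin.prod_univ_two]
    simp only [Matrix.cons_val_zero, Matrix.cons_val_one]
    by_cases h1 : s 0 = 0
    · rw [h1, pow_zero, one_mul]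
      simp only [Polynomial.algebraMap_eq, Polynomial.coeff_C_mul, Polynomial.coeff_X_pow]
      by_cases h0 : s 1 = c
      · rw [if_pos, if_pos h0.symm, mul_one]
        rw [← mon_eta s, h0, h1]
      · rw [if_neg, if_neg (fun h => h0 h.symm), mul_zero]
        intro h
        apply h0
        rw [h, mon_one']
    · rw [zero_pow h1, zero_mul, mul_zero, Polynomial.coeff_zero, if_neg]
      intro h
      apply h1
      rw [h, mon_zero']
  | add p q hp hq =>
    rw [coeff_add, map_add, Polynomial.coeff_add, hp, hq]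

lemma coeff_two_lin (p0 p1 lam : ℝ) (a b k : ℕ) (h : a + b ≤ k) :
    ((Polynomial.C p0 + Polynomial.C lam * Polynomial.X) ^ a *
      (Polynomial.C p1 + Polynomial.X) ^ b : Polynomial ℝ).coeff k =
      if a + b = k then lam ^ a else 0 := by
  have d0 : (Polynomial.C p0 + Polynomial.C lam * Polynomial.X : Polynomial ℝ).natDegree ≤ 1 := by
    refine (Polynomial.natDegree_add_le _ _).trans (max_le ?_ ?_)
    · rw [Polynomial.natDegree_C]; exact Nat.zero_le _
    · exact (Polynomial.natDegree_C_mul_le _ _).trans Polynomial.natDegree_X_le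
  have d1 : (Polynomial.C p1 + Polynomial.X : Polynomial ℝ).natDegree ≤ 1 := by
    refine (Polynomial.natDegree_add_le _ _).trans (max_le ?_ ?_)
    · rw [Polynomial.natDegree_C]; exact Nat.zero_le _
    · exact Polynomial.natDegree_X_le
  have e0 : ((Polynomial.C p0 + Polynomial.C lam * Polynomial.X : Polynomial ℝ) ^ a).natDegree
      ≤ a := by
    have := Polynomial.natDegree_pow_le_of_le a d0
    rwa [mul_one] at this
  have e1 : ((Polynomial.C p1 + Polynomial.X : Polynomial ℝ) ^ b).natDegree ≤ b := by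
    have := Polynomial.natDegree_pow_le_of_le b d1
    rwa [mul_one] at this
  split_ifs with hk
  · rw [← hk, Polynomial.coeff_mul_add_eq_of_natDegree_le e0 e1]
    have f0 := Polynomial.coeff_pow_of_natDegree_le (m := a) (n := 1) d0
    have f1 := Polynomial.coeff_pow_of_natDegree_le (m := b) (n := 1) d1
    rw [mul_one] at f0 f1
    rw [f0, f1]
    simp
  · apply Polynomial.coeff_eq_zero_of_natDegree_lt
    refine lt_of_le_of_lt Polynomial.natDegree_mul_le ?_
    omega

/-- A good shear. -/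
theorem exists_shear {k : ℕ} {f : MvPolynomial (Fin 2) ℝ} {P : Fin 2 → ℝ}
    (hdeg : f.totalDegree ≤ k) (htop : coeff (mon 0 k) f ≠ 0)
    (hsm : MvPolynomial.eval P (pderiv 0 f) ≠ 0 ∨ MvPolynomial.eval P (pderiv 1 f) ≠ 0) :
    ∃ lam : ℝ, lam * MvPolynomial.eval P (pderiv 0 f) + MvPolynomial.eval P (pderiv 1 f) ≠ 0 ∧
      coeff (mon 0 k) (shear P lam f) ≠ 0 := by
  classical
  set u : ℝ := MvPolynomial.eval P (pderiv 0 f) with hu
  set v : ℝ := MvPolynomial.eval P (pderiv 1 f) with hv
  set Q : Polynomial ℝ := ∑ d ∈ f.support,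
    if d 0 + d 1 = k then Polynomial.C (coeff d f) * Polynomial.X ^ d 0 else 0 with hQ
  have hcoef : ∀ lam : ℝ, coeff (mon 0 k) (shear P lam f) = Q.eval lam := by
    intro lam
    rw [coeff_mon_zero_left, shear_eq_sum, map_sum, Polynomial.finsetSum_coeff, hQ,
      Polynomial.eval_finsetSum]
    refine Finset.sum_congr rfl (fun d hd => ?_)
    have h2 : d 0 + d 1 ≤ k := by
      have h3 := le_totalDegree hd
      rw [Finsupp.sum_fintype _ _ (fun _ => rfl), Fin.sum_univ_two] at h3
      exact h3.trans hdeg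
    have h4 : aeval ![0, (Polynomial.X : Polynomial ℝ)] (C (coeff d f) *
        ((C (P 0) + X 0 + C lam * X 1) ^ d 0 * (C (P 1) + X 1) ^ d 1) :
          MvPolynomial (Fin 2) ℝ) = Polynomial.C (coeff d f) *
        ((Polynomial.C (P 0) + Polynomial.C lam * Polynomial.X) ^ d 0 *
          (Polynomial.C (P 1) + Polynomial.X) ^ d 1) := by
      rw [map_mul, map_mul, map_pow, map_pow, map_add, map_add, map_add, map_mul, aeval_C,
        aeval_C, aeval_C, aeval_C, aeval_X, aeval_X]
      simp only [Matrix.cons_val_zero, Matrix.cons_val_one, Polynomial.algebraMap_eq, add_zero]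
    rw [h4, Polynomial.coeff_C_mul, coeff_two_lin _ _ _ _ _ _ h2]
    split_ifs
    · simp
    · simp
  have hQ0 : Q ≠ 0 := by
    intro h0
    apply htop
    have h1 : Q.coeff 0 = 0 := by rw [h0]; simp
    rw [hQ, Polynomial.finsetSum_coeff] at h1
    have h2 : ∑ d ∈ f.support, (if d 0 + d 1 = k then
        Polynomial.C (coeff d f) * Polynomial.X ^ d 0 else (0 : Polynomial ℝ)).coeff 0 =
        ∑ d ∈ f.support, if d = mon 0 k then coeff d f else 0 := by
      refine Finset.sum_congr rfl (fun d _ => ?_)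
      by_cases h3 : d = mon 0 k
      · rw [if_pos h3, h3, mon_zero', mon_one', zero_add, if_pos rfl]
        simp
      · rw [if_neg h3]
        split_ifs with h4
        · rw [Polynomial.coeff_C_mul, Polynomial.coeff_X_pow, if_neg, mul_zero]
          intro h5
          apply h3
          rw [← mon_eta d, ← h5]
          rw [← h5, zero_add] at h4
          rw [h4]
        · simp
    rw [h2, Finset.sum_ite_eq'] at h1
    by_contra h3
    rw [if_pos (mem_support_iff.2 h3)] at h1
    exact h3 h1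
  set R : Polynomial ℝ := Polynomial.X * Polynomial.C u + Polynomial.C v with hR
  have hR0 : R ≠ 0 := by
    intro h0
    have h1 : R.coeff 0 = 0 := by rw [h0]; simp
    have h2 : R.coeff 1 = 0 := by rw [h0]; simp
    rw [hR] at h1 h2
    rw [Polynomial.coeff_add, Polynomial.coeff_C_zero] at h1
    rw [Polynomial.coeff_add, Polynomial.coeff_mul_C, Polynomial.coeff_X_one] at h2
    simp only [Polynomial.mul_coeff_zero, Polynomial.coeff_X_zero, zero_mul, zero_add] at h1
    rw [Polynomial.coeff_C, if_neg one_ne_zero, one_mul, add_zero] at h2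
    rcases hsm with h | h
    · exact h h2
    · exact h h1
  by_contra hcon
  push Not at hcon
  have hall : Q * R = 0 := by
    apply Polynomial.funext
    intro lam
    rw [Polynomial.eval_mul, Polynomial.eval_zero]
    by_cases h1 : lam * u + v = 0
    · have : R.eval lam = 0 := by
        rw [hR]
        simp only [Polynomial.eval_add, Polynomial.eval_mul, Polynomial.eval_X, Polynomial.eval_C]
        exact h1
      rw [this, mul_zero]
    · rw [← hcoef lam, hcon lam h1, zero_mul]
  rcases mul_eq_zero.1 hall with h | h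
  · exact hQ0 h
  · exact hR0 h

end Pool.MP_70e04f_ag.Nine

end

/-! ### from `Lib_MP_70e04f_nine.Hensel` -/

section

/-!
# The branch through the origin (piece HENSEL)

PAPER PROOF. Identify `MvPolynomial (Fin 2) ℝ` with `ℝ[x][y]` by the algebra isomorphism `θ` with
`θ (X 0) = C x`, `θ (X 1) = y` (e.g. `aeval ![Polynomial.C Polynomial.X, Polynomial.X]`, inverse
`eval₂`). As `totalDegree g ≤ k`, the coefficient of `y ^ k` in `θ g` is the constant
`u = coeff (mon 0 k) g ≠ 0`, and the higher ones vanish; so `G0 = u⁻¹ • θ g` is monic of degree `k`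
in `y`, and irreducible. Map it to `ℝ⟦x⟧[y]`: it has the simple root `0` modulo `(x)` (`g` vanishes
at the origin, `pderiv 1 g` does not). The ring `ℝ⟦x⟧` is complete for the ideal `(x)`
(instance in `Mathlib.RingTheory.AdicCompletion.Completeness`), so
`HenselianRing.is_henselian` gives a root `η` with `η - 0 ∈ (x)`, i.e. `constantCoeff η = 0`.
Now `η` is integral over `ℝ[x]` (algebra structure `ℝ[x] → ℝ⟦x⟧`, `PowerSeries.algebraPolynomial`),
and `ℝ[x]` is integrally closed, so `minpoly.isIntegrallyClosed_dvd` says: a polynomial of `ℝ[x][y]`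
vanishes at `η` iff it is divisible by `minpoly ℝ[x] η`. As `G0` is irreducible and divisible by
the minimal polynomial (not a unit), they are associated. So `G` vanishes at `η` iff `G0 ∣ G`.
-/

namespace Pool.MP_70e04f_ag.Nine

open MvPolynomial Pool.MP_70e04f_ag.Hex Pool.MP_70e04f_ag.Add

/-- Bivariate polynomials as polynomials in the second variable. -/
noncomputable def hTheta : MvPolynomial (Fin 2) ℝ →ₐ[ℝ] Polynomial (Polynomial ℝ) :=
  aeval ![Polynomial.C Polynomial.X, Polynomial.X]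

/-- The inverse of `hTheta`. -/
noncomputable def hPsi : Polynomial (Polynomial ℝ) →+* MvPolynomial (Fin 2) ℝ :=
  Polynomial.eval₂RingHom
    (Polynomial.aeval (X 0 : MvPolynomial (Fin 2) ℝ) : Polynomial ℝ →ₐ[ℝ] _).toRingHom (X 1)

lemma hTheta_C (r : ℝ) : hTheta (C r) = Polynomial.C (Polynomial.C r) := by
  rw [hTheta, ← MvPolynomial.algebraMap_eq, AlgHom.commutes]
  rfl

lemma hTheta_X0 : hTheta (X 0) = Polynomial.C Polynomial.X := by
  simp [hTheta]

lemma hTheta_X1 : hTheta (X 1) = Polynomial.X := by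
  simp [hTheta]

lemma hPsi_comp : hPsi.comp (hTheta : MvPolynomial (Fin 2) ℝ →+* _) = RingHom.id _ := by
  apply MvPolynomial.ringHom_ext
  · intro r
    rw [RingHom.comp_apply, RingHom.coe_coe, hTheta_C]
    simp [hPsi]
  · intro i
    fin_cases i
    · change hPsi (hTheta (X 0)) = X 0
      rw [hTheta_X0]
      simp [hPsi]
    · change hPsi (hTheta (X 1)) = X 1
      rw [hTheta_X1]
      simp [hPsi]

lemma hTheta_comp : (hTheta : MvPolynomial (Fin 2) ℝ →+* _).comp hPsi = RingHom.id _ := by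
  apply Polynomial.ringHom_ext
  · intro p
    have h1 : ((hTheta : MvPolynomial (Fin 2) ℝ →+* _).comp hPsi).comp
        (Polynomial.C : Polynomial ℝ →+* _) = Polynomial.C := by
      apply Polynomial.ringHom_ext
      · intro r
        change hTheta (hPsi (Polynomial.C (Polynomial.C r))) = _
        have : hPsi (Polynomial.C (Polynomial.C r)) = C r := by simp [hPsi]
        rw [this, hTheta_C]
      · change hTheta (hPsi (Polynomial.C Polynomial.X)) = _
        have : hPsi (Polynomial.C Polynomial.X) = X 0 := by simp [hPsi]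
        rw [this, hTheta_X0]
    exact congrArg (fun f : Polynomial ℝ →+* Polynomial (Polynomial ℝ) => f p) h1
  · change hTheta (hPsi Polynomial.X) = _
    have : hPsi Polynomial.X = X 1 := by simp [hPsi]
    rw [this, hTheta_X1]
    rfl

/-- The ring isomorphism. -/
noncomputable def hEquiv : MvPolynomial (Fin 2) ℝ ≃+* Polynomial (Polynomial ℝ) :=
  RingEquiv.ofRingHom (hTheta : MvPolynomial (Fin 2) ℝ →+* _) hPsi hTheta_comp hPsi_comp

lemma hEquiv_apply (g : MvPolynomial (Fin 2) ℝ) : hEquiv g = hTheta g := rfl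

/-- The coefficients. -/
lemma coeff_hTheta (g : MvPolynomial (Fin 2) ℝ) (i j : ℕ) :
    ((hTheta g).coeff j).coeff i = coeff (mon i j) g := by
  classical
  induction g using MvPolynomial.induction_on' with
  | monomial s r =>
    have h1 : hTheta (monomial s r) =
        Polynomial.C (Polynomial.C r * Polynomial.X ^ (s 0)) * Polynomial.X ^ (s 1) := by
      rw [hTheta, aeval_monomial, Finsupp.prod_fintype _ _ (fun i => pow_zero _),
        Fin.prod_univ_two, map_mul, map_pow, mul_assoc]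
      rfl
    rw [h1, Polynomial.coeff_C_mul_X_pow, coeff_monomial]
    by_cases hj : j = s 1
    · rw [if_pos hj, Polynomial.coeff_C_mul_X_pow]
      by_cases hi : i = s 0
      · rw [if_pos hi, if_pos (by rw [hi, hj, mon_eta])]
      · rw [if_neg hi, if_neg]
        intro h
        exact hi (by rw [h, mon_zero'])
    · rw [if_neg hj, Polynomial.coeff_zero, if_neg]
      intro h
      exact hj (by rw [h, mon_one'])
  | add p q hp hq =>
    rw [map_add, Polynomial.coeff_add, Polynomial.coeff_add, hp, hq, coeff_add]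

/-- Evaluation at a power series. -/
lemma aeval_hTheta (η : PowerSeries ℝ) (G : MvPolynomial (Fin 2) ℝ) :
    Polynomial.aeval (R := Polynomial ℝ) η (hTheta G) =
      aeval (R := ℝ) ![(PowerSeries.X : PowerSeries ℝ), η] G := by
  have h : (Polynomial.aeval (R := Polynomial ℝ) η :
      Polynomial (Polynomial ℝ) →+* PowerSeries ℝ).comp
      (hTheta : MvPolynomial (Fin 2) ℝ →+* _) =
      (aeval (R := ℝ) ![(PowerSeries.X : PowerSeries ℝ), η] :
        MvPolynomial (Fin 2) ℝ →+* PowerSeries ℝ) := by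
    apply MvPolynomial.ringHom_ext
    · intro r
      change Polynomial.aeval (R := Polynomial ℝ) η (hTheta (C r)) = aeval (R := ℝ) _ (C r)
      rw [hTheta_C, Polynomial.aeval_C, MvPolynomial.aeval_C, PowerSeries.algebraMap_apply']
      simp
    · intro i
      fin_cases i
      · change Polynomial.aeval (R := Polynomial ℝ) η (hTheta (X 0)) = aeval (R := ℝ) _ (X 0)
        rw [hTheta_X0, Polynomial.aeval_C, MvPolynomial.aeval_X, PowerSeries.algebraMap_apply']
        simp
      · change Polynomial.aeval (R := Polynomial ℝ) η (hTheta (X 1)) = aeval (R := ℝ) _ (X 1)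
        rw [hTheta_X1, Polynomial.aeval_X, MvPolynomial.aeval_X]
        rfl
  exact congrArg (fun f : MvPolynomial (Fin 2) ℝ →+* PowerSeries ℝ => f G) h

lemma hens_eval_zero (g : MvPolynomial (Fin 2) ℝ) :
    MvPolynomial.eval 0 g = coeff (mon 0 0) g := by
  have : mon 0 0 = 0 := by simp [mon]
  rw [this, ← constantCoeff_eq]
  simp [MvPolynomial.eval, constantCoeff]

lemma hens_eval_pderiv (g : MvPolynomial (Fin 2) ℝ) :
    MvPolynomial.eval 0 (pderiv 1 g) = coeff (mon 0 1) g := by
  classical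
  rw [hens_eval_zero]
  induction g using MvPolynomial.induction_on' with
  | monomial s r =>
    rw [pderiv_monomial, coeff_monomial, coeff_monomial]
    by_cases hs : s = mon 0 1
    · subst hs
      have h1 : mon 0 1 - Finsupp.single 1 1 = mon 0 0 := by
        ext i
        fin_cases i <;> simp [mon]
      rw [if_pos h1, if_pos rfl, mon_one']
      simp
    · rw [if_neg hs]
      split_ifs with h
      · have h0 : s 0 = 0 := by
          have := DFunLike.congr_fun h 0
          simpa [mon] using this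
        have h1 : s 1 - 1 = 0 := by
          have := DFunLike.congr_fun h 1
          simpa [mon] using this
        have h2 : s 1 = 0 := by
          by_contra h3
          apply hs
          rw [← mon_eta s, h0]
          congr 1
          omega
        rw [h2]
        simp
      · rfl
  | add p q hp hq => rw [map_add, coeff_add, coeff_add, hp, hq]

lemma hens_coeff_zero {g : MvPolynomial (Fin 2) ℝ} {i j : ℕ} (h : g.totalDegree < i + j) :
    coeff (mon i j) g = 0 := by
  by_contra hne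
  have h1 := le_totalDegree (mem_support_iff.mpr hne)
  have h2 : (mon i j).sum (fun _ e => e) = (mon i j).degree := rfl
  rw [h2, degree_mon] at h1
  omega

/-- The branch through the origin of an irreducible curve transversal to the vertical direction. -/
theorem exists_branch_zero {k : ℕ} {g : MvPolynomial (Fin 2) ℝ} (hk : 1 ≤ k)
    (hirr : Irreducible g) (hdeg : g.totalDegree ≤ k) (htop : coeff (mon 0 k) g ≠ 0)
    (h0 : MvPolynomial.eval 0 g = 0) (h1 : MvPolynomial.eval 0 (pderiv 1 g) ≠ 0) :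
    ∃ η : PowerSeries ℝ, PowerSeries.constantCoeff η = 0 ∧
      ∀ G : MvPolynomial (Fin 2) ℝ,
        aeval (R := ℝ) ![(PowerSeries.X : PowerSeries ℝ), η] G = 0 ↔ g ∣ G := by
  obtain ⟨u, hu⟩ : ∃ u : ℝ, u = coeff (mon 0 k) g := ⟨_, rfl⟩
  have hu0 : u ≠ 0 := by rw [hu]; exact htop
  obtain ⟨G0, hG0⟩ : ∃ G0 : Polynomial (Polynomial ℝ),
    G0 = Polynomial.C (Polynomial.C u⁻¹) * hTheta g := ⟨_, rfl⟩
  have hcoeff : ∀ i j, (G0.coeff j).coeff i = u⁻¹ * coeff (mon i j) g := by
    intro i j
    rw [hG0, Polynomial.coeff_C_mul, Polynomial.coeff_C_mul, coeff_hTheta]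
  have hdeg0 : G0.natDegree ≤ k := by
    rw [Polynomial.natDegree_le_iff_coeff_eq_zero]
    intro j hj
    ext i
    rw [hcoeff, hens_coeff_zero (by omega), mul_zero, Polynomial.coeff_zero]
  have hlead : G0.coeff k = 1 := by
    ext i
    rw [hcoeff, Polynomial.coeff_one]
    by_cases hi : i = 0
    · rw [if_pos hi, hi, ← hu, inv_mul_cancel₀ hu0]
    · rw [if_neg hi, hens_coeff_zero (by omega), mul_zero]
  have hmonic : G0.Monic := Polynomial.monic_of_natDegree_le_of_coeff_eq_one k hdeg0 hlead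
  have hunit : IsUnit (Polynomial.C (Polynomial.C u⁻¹) : Polynomial (Polynomial ℝ)) :=
    ((isUnit_iff_ne_zero.mpr (inv_ne_zero hu0)).map Polynomial.C).map Polynomial.C
  have hassoc : Associated (hTheta g) G0 := by
    rw [hG0]
    exact ⟨hunit.unit, by rw [IsUnit.unit_spec, mul_comm]⟩
  have hirr0 : Irreducible G0 := by
    apply hassoc.irreducible
    rw [← hEquiv_apply]
    exact (MulEquiv.irreducible_iff hEquiv).2 hirr
  have hconst : ∀ p : Polynomial ℝ, PowerSeries.constantCoeff
      (algebraMap (Polynomial ℝ) (PowerSeries ℝ) p) = p.coeff 0 := by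
    intro p
    rw [PowerSeries.algebraMap_apply']
    simp
  obtain ⟨F, hF⟩ : ∃ F : Polynomial (PowerSeries ℝ),
    F = G0.map (algebraMap (Polynomial ℝ) (PowerSeries ℝ)) := ⟨_, rfl⟩
  have hFm : F.Monic := by
    rw [hF]
    exact hmonic.map _
  have hF0 : PowerSeries.constantCoeff (F.eval 0) = 0 := by
    rw [← Polynomial.coeff_zero_eq_eval_zero, hF, Polynomial.coeff_map, hconst, hcoeff,
      ← hens_eval_zero, h0, mul_zero]
  have hF1 : PowerSeries.constantCoeff (F.derivative.eval 0) ≠ 0 := by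
    rw [← Polynomial.coeff_zero_eq_eval_zero, Polynomial.coeff_derivative, hF,
      Polynomial.coeff_map, map_mul, hconst, hcoeff, zero_add, ← hens_eval_pderiv]
    simp only [Nat.cast_zero, zero_add, map_one, mul_one]
    exact mul_ne_zero (inv_ne_zero hu0) h1
  have hhens : HenselianRing (PowerSeries ℝ) (Ideal.span {(PowerSeries.X : PowerSeries ℝ)}) :=
    inferInstance
  obtain ⟨η, hη, hη0⟩ := hhens.is_henselian F hFm 0
    (by rw [Ideal.mem_span_singleton, PowerSeries.X_dvd_iff, hF0])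
    ((PowerSeries.isUnit_iff_constantCoeff.mpr (isUnit_iff_ne_zero.mpr hF1)).map _)
  rw [sub_zero, Ideal.mem_span_singleton, PowerSeries.X_dvd_iff] at hη0
  refine ⟨η, hη0, ?_⟩
  have haev : Polynomial.aeval (R := Polynomial ℝ) η G0 = 0 := by
    rw [Polynomial.aeval_def, Polynomial.eval₂_eq_eval_map, ← hF]
    exact hη
  have hint : IsIntegral (Polynomial ℝ) η := ⟨G0, hmonic, haev⟩
  have hinj : Function.Injective (algebraMap (Polynomial ℝ) (PowerSeries ℝ)) := by
    intro p q hpq
    rw [PowerSeries.algebraMap_apply', PowerSeries.algebraMap_apply'] at hpq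
    ext n
    have := congrArg (PowerSeries.coeff n) hpq
    simpa using this
  have htf : Module.IsTorsionFree (Polynomial ℝ) (PowerSeries ℝ) :=
    Module.isTorsionFree_iff_algebraMap_injective.mpr hinj
  have hdvd : minpoly (Polynomial ℝ) η ∣ G0 := minpoly.isIntegrallyClosed_dvd hint haev
  have hassoc2 : Associated (minpoly (Polynomial ℝ) η) G0 := by
    obtain ⟨q, hq⟩ := hdvd
    rcases hirr0.isUnit_or_isUnit hq with h | h
    · exact absurd h (minpoly.not_isUnit _ _)
    · exact ⟨h.unit, by rw [IsUnit.unit_spec]; exact hq.symm⟩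
  intro G
  rw [← aeval_hTheta, minpoly.isIntegrallyClosed_dvd_iff hint, hassoc2.dvd_iff_dvd_left,
    ← hassoc.dvd_iff_dvd_left, ← hEquiv_apply, ← hEquiv_apply]
  exact map_dvd_iff hEquiv

end Pool.MP_70e04f_ag.Nine

end

/-! ### from `Lib_MP_70e04f_nine.Branch` -/

section

/-!
# The branch of the curve at its smooth point
-/

namespace Pool.MP_70e04f_ag.Nine

open MvPolynomial Pool.MP_70e04f_ag.Hex Pool.MP_70e04f_ag.Add

/-- The branch of the curve at `P`. -/
theorem exists_branch {τ : Type*} {k : ℕ} {c : τ → ℕ} {q : τ → Fin 2 → ℝ}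
    {f : MvPolynomial (Fin 2) ℝ} {P : Fin 2 → ℝ} (hk : 1 ≤ k) (hf : IsCurve k c q f P) :
    ∃ (lam : ℝ) (η : PowerSeries ℝ), PowerSeries.constantCoeff η = 0 ∧
      lam * MvPolynomial.eval P (pderiv 0 f) + MvPolynomial.eval P (pderiv 1 f) ≠ 0 ∧
      ∀ G, br P lam η G = 0 ↔ f ∣ G := by
  obtain ⟨lam, h1, h2⟩ := exists_shear hf.deg.le hf.top hf.smooth
  obtain ⟨η, h3, h4⟩ := exists_branch_zero (g := shear P lam f) hk
    ((MulEquiv.irreducible_iff (AlgEquiv.ofBijective (shear P lam) (shear_bijective P lam))).2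
      hf.irr)
    ((totalDegree_shear_le P lam f).trans hf.deg.le) h2 (by rw [eval_shear]; exact hf.zero)
    (by rw [pderiv_shear]; exact h1)
  refine ⟨lam, η, h3, h1, fun G => ?_⟩
  have hc : br P lam η = (aeval (R := ℝ) ![(PowerSeries.X : PowerSeries ℝ), η]).comp
      (shear P lam) := by
    apply MvPolynomial.algHom_ext
    intro i
    fin_cases i
    · simp [br, shear, MvPolynomial.algebraMap_eq, ← PowerSeries.algebraMap_eq]
    · simp [br, shear, MvPolynomial.algebraMap_eq, ← PowerSeries.algebraMap_eq]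
  rw [hc, AlgHom.comp_apply, h4]
  constructor
  · rintro ⟨H, hH⟩
    obtain ⟨H', rfl⟩ := (shear_bijective P lam).2 H
    refine ⟨H', (shear_bijective P lam).1 ?_⟩
    rw [hH, map_mul]
  · rintro ⟨H, rfl⟩
    exact ⟨shear P lam H, map_mul _ _ _⟩

end Pool.MP_70e04f_ag.Nine

end

/-! ### from `Lib_MP_70e04f_std.Card` -/

section

/-!
# The number of points of a shrunken hexagon, without the condition `A ≤ B`
-/

namespace Pool.MP_70e04f_ag.Std3

open Pool.MP_70e04f_ag.Hex

lemma hex_col (A B g e : ℕ) : (hex A B g e).card =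
    ∑ a ∈ Finset.range (A + 1), ((B + 1 - (e - (A - a))) - (g - a)) := by
  unfold hex
  rw [Finset.card_filter, Finset.sum_product]
  refine Finset.sum_congr rfl fun a ha => ?_
  rw [Finset.mem_range] at ha
  rw [← Finset.card_filter]
  have h : (Finset.range (B + 1)).filter (fun b => g ≤ (a, b).1 + (a, b).2 ∧
      (a, b).1 + (a, b).2 + e ≤ A + B) = Finset.Ico (g - a) (B + 1 - (e - (A - a))) := by
    ext b
    rw [Finset.mem_filter, Finset.mem_range, Finset.mem_Ico]
    dsimp only
    omega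
  rw [h, Nat.card_Ico]

lemma T2_succ' (x : ℤ) : T2 (x + 1) - T2 x = 2 * max (x + 1) 0 := by
  rcases le_or_gt 0 x with h | h
  · rw [T2_of_nonneg h, T2_of_nonneg (by omega), max_eq_left (by omega)]; ring
  · rw [T2_of_nonpos (show x + 1 ≤ 0 by omega), T2_of_nonpos (by omega),
      max_eq_right (by omega)]; ring

lemma sum_T2 (g n : ℕ) : 2 * ∑ a ∈ Finset.range n, ((g - a : ℕ) : ℤ) =
    T2 g - T2 ((g : ℤ) - n) := by
  induction n with
  | zero => simp
  | succ n ih =>
    rw [Finset.sum_range_succ, mul_add, ih]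
    have h := T2_succ' ((g : ℤ) - (n + 1 : ℕ))
    have e1 : (g : ℤ) - (n + 1 : ℕ) + 1 = (g : ℤ) - n := by push_cast; ring
    rw [e1] at h
    have h2 : ((g - n : ℕ) : ℤ) = max ((g : ℤ) - n) 0 := by
      rcases Nat.le_total n g with h3 | h3
      · rw [Nat.cast_sub h3, max_eq_left (by omega)]
      · rw [Nat.sub_eq_zero_of_le h3, max_eq_right (by omega)]; rfl
    rw [h2]
    linarith

/-- The number of points of the hexagon. -/
theorem card_hex' (A B g e : ℕ) (hg : g ≤ B + 1) (he : e ≤ B + 1)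
    (hge : g + e ≤ A + B + 1) : 2 * ((hex A B g e).card : ℤ) = F2 A B g e := by
  rw [hex_col]
  push_cast
  have h1 : ∑ a ∈ Finset.range (A + 1), (((B + 1 - (e - (A - a)) - (g - a) : ℕ)) : ℤ) =
      ∑ a ∈ Finset.range (A + 1), (((B : ℤ) + 1) - ((e - (A + 1 - 1 - a) : ℕ) : ℤ) -
        ((g - a : ℕ) : ℤ)) := by
    refine Finset.sum_congr rfl fun a ha => ?_
    rw [Finset.mem_range] at ha
    omega
  rw [h1, Finset.sum_sub_distrib, Finset.sum_sub_distrib,
    Finset.sum_range_reflect (fun a => ((e - a : ℕ) : ℤ)) (A + 1), Finset.sum_const,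
    Finset.card_range, nsmul_eq_mul, mul_sub, mul_sub, sum_T2, sum_T2]
  unfold F2
  have h2 : (g : ℤ) - (A + 1 : ℕ) = (g : ℤ) - A - 1 := by push_cast; ring
  have h3 : (e : ℤ) - (A + 1 : ℕ) = (e : ℤ) - A - 1 := by push_cast; ring
  rw [h2, h3]
  push_cast
  ring

lemma hexJ_bij (A B g e K L : ℕ) (hL : L ≤ K) (hj : K ≤ A) (hB : L ≤ B) :
    ((hex A B g e).filter (fun q => K ≤ q.1 ∧ (q.1 - K, q.2 + L) ∈ hex A B g e)).card =
      (hex (A - K) (B - L) (g - L) (e - L)).card := by
  refine Finset.card_bij' (fun q _ => (q.1 - K, q.2)) (fun q _ => (q.1 + K, q.2)) ?_ ?_ ?_ ?_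
  · intro q hq
    rw [Finset.mem_filter, mem_hex, mem_hex] at hq
    rw [mem_hex]
    dsimp only at hq ⊢
    omega
  · intro q hq
    rw [mem_hex] at hq
    rw [Finset.mem_filter, mem_hex, mem_hex]
    dsimp only
    omega
  · intro q hq
    rw [Finset.mem_filter] at hq
    apply Prod.ext
    · dsimp only
      omega
    · rfl
  · intro q _
    apply Prod.ext
    · dsimp only
      omega
    · rfl

lemma T2_natsub (g L : ℕ) : T2 ((g - L : ℕ) : ℤ) = T2 ((g : ℤ) - L) := by
  by_cases h : L ≤ g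
  · rw [Nat.cast_sub h]
  · have h1 : g - L = 0 := by omega
    rw [h1, T2_of_nonpos (by omega : (g : ℤ) - L ≤ 0)]
    simp [T2]

lemma T2_natsub' (g L : ℕ) {x : ℤ} (hx : 0 ≤ x) :
    T2 (((g - L : ℕ) : ℤ) - x - 1) = T2 ((g : ℤ) - L - x - 1) := by
  by_cases h : L ≤ g
  · rw [Nat.cast_sub h]
  · have h1 : g - L = 0 := by omega
    rw [h1, T2_of_nonpos (by omega : (g : ℤ) - L - x - 1 ≤ 0), T2_of_nonpos (by
      push_cast
      omega)]

/-- The number of points of the shrunken hexagon. -/
theorem two_card_hexJ' (k l A B g e j : ℕ) (hlk : l ≤ k) (hA : j * k ≤ A + 1) (hB : j * l ≤ B + 1)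
    (hg : g ≤ B + 1) (he : e ≤ B + 1) (hdis : g + e + j * k ≤ A + B + 1 + j * l) :
    2 * ((hexJ k l A B g e j).card : ℤ) =
      F2 ((A : ℤ) - j * k) ((B : ℤ) - j * l) ((g : ℤ) - j * l) ((e : ℤ) - j * l) := by
  have hL : j * l ≤ j * k := Nat.mul_le_mul_left j hlk
  have hgz : (g : ℤ) ≤ B + 1 := by exact_mod_cast hg
  have hez : (e : ℤ) ≤ B + 1 := by exact_mod_cast he
  rcases Nat.lt_or_ge B (j * l) with h1 | h1
  · -- `B - j l = -1`
    have hB' : j * l = B + 1 := by omega
    have hBz : (B : ℤ) - j * l = -1 := by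
      have : ((j * l : ℕ) : ℤ) = ((B + 1 : ℕ) : ℤ) := by rw [hB']
      push_cast at this
      linarith
    have h0 : (hexJ k l A B g e j).card = 0 := by
      rw [Finset.card_eq_zero, Finset.eq_empty_iff_forall_notMem]
      intro q hq
      unfold hexJ at hq
      rw [Finset.mem_filter, mem_hex, mem_hex] at hq
      dsimp only at hq
      omega
    have hAz : (-1 : ℤ) ≤ (A : ℤ) - j * k := by
      have : ((j * k : ℕ) : ℤ) ≤ ((A + 1 : ℕ) : ℤ) := by exact_mod_cast hA
      push_cast at this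
      linarith
    rw [h0]
    unfold F2
    rw [T2_of_nonpos (show (g : ℤ) - j * l ≤ 0 by linarith),
      T2_of_nonpos (show (e : ℤ) - j * l ≤ 0 by linarith),
      T2_of_nonpos (show (g : ℤ) - j * l - (A - j * k) - 1 ≤ 0 by linarith),
      T2_of_nonpos (show (e : ℤ) - j * l - (A - j * k) - 1 ≤ 0 by linarith), hBz]
    push_cast
    ring
  rcases Nat.lt_or_ge A (j * k) with h2 | h2
  · -- `A - j k = -1`
    have hA' : j * k = A + 1 := by omega
    have hAz : (A : ℤ) - j * k = -1 := by
      have : ((j * k : ℕ) : ℤ) = ((A + 1 : ℕ) : ℤ) := by rw [hA']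
      push_cast at this
      linarith
    rw [card_hexJ_zero k l A B g e j h2]
    unfold F2
    rw [hAz, show (g : ℤ) - j * l - (-1) - 1 = g - j * l by ring,
      show (e : ℤ) - j * l - (-1) - 1 = e - j * l by ring]
    push_cast
    ring
  · have h3 : (hexJ k l A B g e j).card =
        (hex (A - j * k) (B - j * l) (g - j * l) (e - j * l)).card :=
      hexJ_bij A B g e (j * k) (j * l) hL h2 h1
    rw [h3, card_hex' (A - j * k) (B - j * l) (g - j * l) (e - j * l) (by omega) (by omega)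
      (by omega)]
    unfold F2
    rw [T2_natsub, T2_natsub, Nat.cast_sub h2, Nat.cast_sub h1,
      T2_natsub' g (j * l) (by
        have : ((j * k : ℕ) : ℤ) ≤ (A : ℤ) := by exact_mod_cast h2
        linarith : (0 : ℤ) ≤ (A : ℤ) - ((j * k : ℕ) : ℤ)),
      T2_natsub' e (j * l) (by
        have : ((j * k : ℕ) : ℤ) ≤ (A : ℤ) := by exact_mod_cast h2
        linarith : (0 : ℤ) ≤ (A : ℤ) - ((j * k : ℕ) : ℤ))]
    push_cast
    rfl

end Pool.MP_70e04f_ag.Std3

end

/-! ### from `Lib_MP_70e04f_gon.GRealB` -/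

section

/-!
# Piece GREALB: real inequalities for the thin strip
-/

set_option autoImplicit false

namespace Pool.MP_70e04f_ag.Strip

/-- PROOF. By `real_four`, `a T ≥ 5000 x ^ 4 ≥ 3150 a m ^ 3`, so `T ≥ 3150 m ^ 3`. `q - a ≤ q ≤ m`, so
`√(q - a) ≤ √m`. If `A < 3110 m ^ 3` then `√T ≤ √(3110 m ^ 3) + √m`; squaring,
`3150 m ^ 3 ≤ 3110 m ^ 3 + 2 √3110 m ^ 2 + m ≤ (3110 + 37.2 + 0.12) m ^ 3` (`√(m ^ 3) √m = m ^ 2`, `√3110 < 55.77`,
`m ≥ 3`): contradiction. -/
theorem real_thin (m : ℕ) (q x y a T A : ℝ) (hm : 3 ≤ m) (hy : 0 ≤ y) (hyx : y ≤ x) (ha : 0 < a)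
    (h : (m - y) ^ 2 + a ≤ q) (hq : q ≤ m - 2 ∨ (q ≤ m - 1 ∧ 7 ≤ m)) (hA : 0 ≤ A) (hT : 0 ≤ T)
    (hC : 5000 * x ^ 4 ≤ a * T) (h2 : Real.sqrt T ≤ Real.sqrt A + Real.sqrt (q - a)) :
    3110 * (m : ℝ) ^ 3 ≤ A := by
  have hm3 : (3 : ℝ) ≤ (m : ℝ) := by exact_mod_cast hm
  have hm0 : (0 : ℝ) < (m : ℝ) := by linarith
  have hqm : q ≤ m := by
    rcases hq with h1 | h1
    · linarith
    · linarith [h1.1]
  have hf := real_four m q x y a hm hy hyx ha h hq
  have hT1 : 3150 * (m : ℝ) ^ 3 ≤ T := by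
    have h1 : a * (3150 * (m : ℝ) ^ 3) ≤ a * T := by
      calc a * (3150 * (m : ℝ) ^ 3) = 5000 * (63 / 100 * a * (m : ℝ) ^ 3) := by ring
        _ ≤ 5000 * x ^ 4 := by linarith
        _ ≤ a * T := hC
    exact le_of_mul_le_mul_left h1 ha
  by_contra hcon
  push Not at hcon
  obtain ⟨s, hs⟩ : ∃ s, s = Real.sqrt A := ⟨_, rfl⟩
  obtain ⟨u, hu⟩ : ∃ u, u = Real.sqrt (q - a) := ⟨_, rfl⟩
  obtain ⟨v, hv⟩ : ∃ v, v = Real.sqrt T := ⟨_, rfl⟩
  rw [← hs, ← hu, ← hv] at h2
  have hs0 : 0 ≤ s := hs ▸ Real.sqrt_nonneg A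
  have hu0 : 0 ≤ u := hu ▸ Real.sqrt_nonneg (q - a)
  have hv0 : 0 ≤ v := hv ▸ Real.sqrt_nonneg T
  have hs2 : s ^ 2 = A := by rw [hs]; exact Real.sq_sqrt hA
  have hv2 : v ^ 2 = T := by rw [hv]; exact Real.sq_sqrt hT
  have hu2 : u ^ 2 ≤ m := by
    rcases le_total 0 (q - a) with h1 | h1
    · rw [hu, Real.sq_sqrt h1]; linarith
    · rw [hu, Real.sqrt_eq_zero_of_nonpos h1]
      have : (0 : ℝ) ^ 2 = 0 := by norm_num
      rw [this]; exact hm0.le
  have hsu : s * u ≤ 5577 / 100 * (m : ℝ) ^ 2 := by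
    by_contra hc2
    push Not at hc2
    have h3 : (5577 / 100 * (m : ℝ) ^ 2) ^ 2 < (s * u) ^ 2 := pow_lt_pow_left₀ hc2 (by positivity) (by norm_num)
    have h4 : (s * u) ^ 2 ≤ 3110 * (m : ℝ) ^ 3 * m := by
      calc (s * u) ^ 2 = s ^ 2 * u ^ 2 := by ring
        _ ≤ 3110 * (m : ℝ) ^ 3 * m := by
            rw [hs2]
            exact mul_le_mul hcon.le hu2 (sq_nonneg u) (by positivity)
    have h5 : (0 : ℝ) < (m : ℝ) ^ 4 := by positivity
    nlinarith
  have h6 : v ^ 2 ≤ (s + u) ^ 2 := pow_le_pow_left₀ hv0 h2 2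
  have h7 : T ≤ 3110 * (m : ℝ) ^ 3 + 2 * (5577 / 100 * (m : ℝ) ^ 2) + m := by
    calc T = v ^ 2 := hv2.symm
      _ ≤ (s + u) ^ 2 := h6
      _ = s ^ 2 + 2 * (s * u) + u ^ 2 := by ring
      _ ≤ 3110 * (m : ℝ) ^ 3 + 2 * (5577 / 100 * (m : ℝ) ^ 2) + m := by
          rw [hs2]; linarith
  have h8 : (3 : ℝ) * (m : ℝ) ^ 2 ≤ (m : ℝ) ^ 3 := by
    have : (0 : ℝ) ≤ (m : ℝ) ^ 2 := sq_nonneg _
    nlinarith
  have h9 : (9 : ℝ) * m ≤ (m : ℝ) ^ 3 := by nlinarith
  linarith

/-- PROOF. `x ≥ a`: with `t = m - y`, `x ≥ y = m - t ≥ m - 1 - t ^ 2 ≥ a` (`t ^ 2 - t + 1 ≥ 0`, `q ≤ m - 1`). By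
`real_four` `a ^ 2 E ≥ 15000 x ^ 5 ≥ 9450 a m ^ 3 x ≥ 9450 a ^ 2 m ^ 3`. -/
theorem real_deg (m : ℕ) (q x y a E : ℝ) (hm : 3 ≤ m) (hy : 0 ≤ y) (hyx : y ≤ x) (ha : 0 < a)
    (h : (m - y) ^ 2 + a ≤ q) (hq : q ≤ m - 2 ∨ (q ≤ m - 1 ∧ 7 ≤ m))
    (hC : 15000 * x ^ 5 ≤ a ^ 2 * E) : 9400 * (m : ℝ) ^ 3 ≤ E := by
  have hm3 : (3 : ℝ) ≤ (m : ℝ) := by exact_mod_cast hm
  have hm0 : (0 : ℝ) < (m : ℝ) := by linarith
  have hqm : q ≤ m - 1 := by
    rcases hq with h1 | h1
    · linarith
    · exact h1.1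
  have hf := real_four m q x y a hm hy hyx ha h hq
  have hxa : a ≤ x := by nlinarith [sq_nonneg (2 * (m - y) - 1)]
  have hx0 : 0 ≤ x := hy.trans hyx
  have h1 : a ^ 2 * (9400 * (m : ℝ) ^ 3) ≤ a ^ 2 * E := by
    have hm3' : (0 : ℝ) ≤ (m : ℝ) ^ 3 := by positivity
    calc a ^ 2 * (9400 * (m : ℝ) ^ 3) ≤ a ^ 2 * (9450 * (m : ℝ) ^ 3) := by
            apply mul_le_mul_of_nonneg_left _ (sq_nonneg a)
            linarith
      _ = (9450 * a * (m : ℝ) ^ 3) * a := by ring
      _ ≤ (9450 * a * (m : ℝ) ^ 3) * x := mul_le_mul_of_nonneg_left hxa (by positivity)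
      _ = 15000 * (63 / 100 * a * (m : ℝ) ^ 3) * x := by ring
      _ ≤ 15000 * x ^ 4 * x := by
            apply mul_le_mul_of_nonneg_right _ hx0
            linarith
      _ = 15000 * x ^ 5 := by ring
      _ ≤ a ^ 2 * E := hC
  exact le_of_mul_le_mul_left h1 (by positivity)

end Pool.MP_70e04f_ag.Strip

end
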