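import Mathlib

/-!
# MP_70e04f_ag, plane linear systems: merged library part M15

Concatenation of smaller files (each in its own section), only to save build time.
-/

namespace Pool.MP_70e04f_ag.Hex
end Pool.MP_70e04f_ag.Hex

namespace Pool.MP_70e04f_ag.Add
end Pool.MP_70e04f_ag.Add

/-! ### from `Lib_MP_70e04f_nine.Num` -/

section

/-!
# The intersection form on the standard cone of nine points, and rounding down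
-/

namespace Pool.MP_70e04f_ag.Nine

/-- The self-intersection of a combination of the generators `H`, `H - E1`, `2 H - E1 - E2`,
`3 H - E1 - ... - Ei` (`3 ≤ i ≤ 9`) of the standard cone. -/
def PP (x0 x1 x2 x3 x4 x5 x6 x7 x8 x9 : ℕ) : ℕ :=
  x0 ^ 2 + 2 * x0 * x1 + 4 * x0 * x2 + 6 * x0 * (x3 + x4 + x5 + x6 + x7 + x8 + x9) +
    2 * x1 * x2 + 4 * x1 * (x3 + x4 + x5 + x6 + x7 + x8 + x9) +
    2 * x2 ^ 2 + 8 * x2 * (x3 + x4 + x5 + x6 + x7 + x8 + x9) +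
    6 * x3 ^ 2 + 12 * x3 * (x4 + x5 + x6 + x7 + x8 + x9) +
    5 * x4 ^ 2 + 10 * x4 * (x5 + x6 + x7 + x8 + x9) +
    4 * x5 ^ 2 + 8 * x5 * (x6 + x7 + x8 + x9) +
    3 * x6 ^ 2 + 6 * x6 * (x7 + x8 + x9) +
    2 * x7 ^ 2 + 4 * x7 * (x8 + x9) + x8 ^ 2 + 2 * x8 * x9

/-- The intersection with the sum of the generators. -/
def BB (x0 x1 x2 x3 x4 x5 x6 x7 x8 x9 : ℕ) : ℕ :=
  25 * x0 + 16 * x1 + 33 * x2 + 51 * x3 + 45 * x4 + 40 * x5 + 36 * x6 + 33 * x7 + 31 * x8 +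
    30 * x9

lemma PP_eq (x0 x1 x2 x3 x4 x5 x6 x7 x8 x9 : ℕ) :
    PP x0 x1 x2 x3 x4 x5 x6 x7 x8 x9 +
      ((x1 + x2 + x3 + x4 + x5 + x6 + x7 + x8 + x9) ^ 2 +
        (x2 + x3 + x4 + x5 + x6 + x7 + x8 + x9) ^ 2 + (x3 + x4 + x5 + x6 + x7 + x8 + x9) ^ 2 +
        (x4 + x5 + x6 + x7 + x8 + x9) ^ 2 + (x5 + x6 + x7 + x8 + x9) ^ 2 +
        (x6 + x7 + x8 + x9) ^ 2 + (x7 + x8 + x9) ^ 2 + (x8 + x9) ^ 2 + x9 ^ 2) =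
      (x0 + (x1 + x2 + x3 + x4 + x5 + x6 + x7 + x8 + x9) +
        (x2 + x3 + x4 + x5 + x6 + x7 + x8 + x9) + (x3 + x4 + x5 + x6 + x7 + x8 + x9)) ^ 2 := by
  unfold PP
  ring

/-- Rounding. -/
lemma PP_le (m a0 a1 a2 a3 a4 a5 a6 a7 a8 a9 c0 c1 c2 c3 c4 c5 c6 c7 c8 c9 : ℕ)
    (h0 : a0 ≤ (2 * m + 1) * c0 + 2 * m) (h1 : a1 ≤ (2 * m + 1) * c1 + 2 * m)
    (h2 : a2 ≤ (2 * m + 1) * c2 + 2 * m) (h3 : a3 ≤ (2 * m + 1) * c3 + 2 * m)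
    (h4 : a4 ≤ (2 * m + 1) * c4 + 2 * m) (h5 : a5 ≤ (2 * m + 1) * c5 + 2 * m)
    (h6 : a6 ≤ (2 * m + 1) * c6 + 2 * m) (h7 : a7 ≤ (2 * m + 1) * c7 + 2 * m)
    (h8 : a8 ≤ (2 * m + 1) * c8 + 2 * m) (h9 : a9 ≤ (2 * m + 1) * c9 + 2 * m) :
    PP a0 a1 a2 a3 a4 a5 a6 a7 a8 a9 ≤
      (2 * m + 1) ^ 2 * PP c0 c1 c2 c3 c4 c5 c6 c7 c8 c9 +
        4 * m * (2 * m + 1) * BB c0 c1 c2 c3 c4 c5 c6 c7 c8 c9 + 1360 * m ^ 2 := by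
  have e : (2 * m + 1) ^ 2 * PP c0 c1 c2 c3 c4 c5 c6 c7 c8 c9 +
        4 * m * (2 * m + 1) * BB c0 c1 c2 c3 c4 c5 c6 c7 c8 c9 + 1360 * m ^ 2 =
      PP ((2 * m + 1) * c0 + 2 * m) ((2 * m + 1) * c1 + 2 * m) ((2 * m + 1) * c2 + 2 * m)
        ((2 * m + 1) * c3 + 2 * m) ((2 * m + 1) * c4 + 2 * m) ((2 * m + 1) * c5 + 2 * m)
        ((2 * m + 1) * c6 + 2 * m) ((2 * m + 1) * c7 + 2 * m) ((2 * m + 1) * c8 + 2 * m)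
        ((2 * m + 1) * c9 + 2 * m) := by
    unfold PP BB
    ring
  rw [e]
  unfold PP
  gcongr

end Pool.MP_70e04f_ag.Nine

end

/-! ### from `Lib_MP_70e04f_nine.Num2` -/

section

/-!
# The numerical estimates
-/

namespace Pool.MP_70e04f_ag.Nine

lemma num8 (m c0 c1 c2 c3 c4 c5 c6 c7 c8 : ℕ) (hm : 1 ≤ m) (hr : 1 ≤ c8)
    (hP : PP c0 c1 c2 c3 c4 c5 c6 c7 c8 0 ≤ 7 * m + 1) :
    (2 * m + 1) ^ 2 * PP c0 c1 c2 c3 c4 c5 c6 c7 c8 0 + 4 * m * (2 * m + 1) * BB c0 c1 c2 c3 c4 c5 c6 c7 c8 0 +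
      1360 * m ^ 2 < 3100 * m ^ 3 := by
  obtain ⟨σ, hσ⟩ : ∃ σ, σ = 3 * c0 + 2 * c1 + 4 * c2 + 6 * c3 + 5 * c4 + 4 * c5 + 3 * c6 + 2 * c7 := ⟨_, rfl⟩
  have h1 : PP c0 c1 c2 c3 c4 c5 c6 c7 c8 0 = PP c0 c1 c2 c3 c4 c5 c6 c7 0 0 + 1 * c8 ^ 2 + 2 * c8 * σ := by
    rw [hσ]; unfold PP; ring
  have h2 : 4 * BB c0 c1 c2 c3 c4 c5 c6 c7 c8 0 ≤ 124 * c8 + 66 * σ := by
    rw [hσ]; unfold BB; omega
  have h3 : 1 * c8 ^ 2 + 2 * c8 * σ ≤ 7 * m + 1 := by omega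
  have h4 : σ ≤ c8 * σ := Nat.le_mul_of_pos_left σ hr
  have h5 : 4 * BB c0 c1 c2 c3 c4 c5 c6 c7 c8 0 ≤ 231 * m + 150 := by
    nlinarith [sq_nonneg (66 * (c8 : ℤ) - 124)]
  generalize BB c0 c1 c2 c3 c4 c5 c6 c7 c8 0 = B at *
  generalize PP c0 c1 c2 c3 c4 c5 c6 c7 c8 0 = P at *
  have h6 : (2 * m + 1) ^ 2 * P ≤ (2 * m + 1) ^ 2 * (7 * m + 1) := Nat.mul_le_mul_left _ hP
  have h7 : 4 * (4 * m * (2 * m + 1) * B) ≤ 4 * m * (2 * m + 1) * (231 * m + 150) := by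
    calc 4 * (4 * m * (2 * m + 1) * B) = 4 * m * (2 * m + 1) * (4 * B) := by ring
      _ ≤ _ := Nat.mul_le_mul_left _ h5
  obtain ⟨x, rfl⟩ : ∃ x, m = x + 1 := ⟨m - 1, by omega⟩
  have h8 : 4 * ((2 * (x + 1) + 1) ^ 2 * (7 * (x + 1) + 1)) +
      4 * (x + 1) * (2 * (x + 1) + 1) * (231 * (x + 1) + 150) +
      4 * (1360 * (x + 1) ^ 2) < 4 * (3100 * (x + 1) ^ 3) := by
    ring_nf
    nlinarith [Nat.zero_le x, Nat.zero_le (x ^ 2), Nat.zero_le (x ^ 3)]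
  omega

lemma num7 (m c0 c1 c2 c3 c4 c5 c6 c7 : ℕ) (hm : 1 ≤ m) (hr : 1 ≤ c7)
    (hP : PP c0 c1 c2 c3 c4 c5 c6 c7 0 0 ≤ 7 * m + 2) :
    (2 * m + 1) ^ 2 * PP c0 c1 c2 c3 c4 c5 c6 c7 0 0 + 4 * m * (2 * m + 1) * BB c0 c1 c2 c3 c4 c5 c6 c7 0 0 +
      1360 * m ^ 2 < 3100 * m ^ 3 := by
  obtain ⟨σ, hσ⟩ : ∃ σ, σ = 3 * c0 + 2 * c1 + 4 * c2 + 6 * c3 + 5 * c4 + 4 * c5 + 3 * c6 := ⟨_, rfl⟩
  have h1 : PP c0 c1 c2 c3 c4 c5 c6 c7 0 0 = PP c0 c1 c2 c3 c4 c5 c6 0 0 0 + 2 * c7 ^ 2 + 2 * c7 * σ := by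
    rw [hσ]; unfold PP; ring
  have h2 : 2 * BB c0 c1 c2 c3 c4 c5 c6 c7 0 0 ≤ 66 * c7 + 24 * σ := by
    rw [hσ]; unfold BB; omega
  have h3 : 2 * c7 ^ 2 + 2 * c7 * σ ≤ 7 * m + 2 := by omega
  have h4 : σ ≤ c7 * σ := Nat.le_mul_of_pos_left σ hr
  have h5 : 2 * BB c0 c1 c2 c3 c4 c5 c6 c7 0 0 ≤ 84 * m + 70 := by
    nlinarith [sq_nonneg (48 * (c7 : ℤ) - 66)]
  generalize BB c0 c1 c2 c3 c4 c5 c6 c7 0 0 = B at *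
  generalize PP c0 c1 c2 c3 c4 c5 c6 c7 0 0 = P at *
  have h6 : (2 * m + 1) ^ 2 * P ≤ (2 * m + 1) ^ 2 * (7 * m + 2) := Nat.mul_le_mul_left _ hP
  have h7 : 2 * (4 * m * (2 * m + 1) * B) ≤ 4 * m * (2 * m + 1) * (84 * m + 70) := by
    calc 2 * (4 * m * (2 * m + 1) * B) = 4 * m * (2 * m + 1) * (2 * B) := by ring
      _ ≤ _ := Nat.mul_le_mul_left _ h5
  obtain ⟨x, rfl⟩ : ∃ x, m = x + 1 := ⟨m - 1, by omega⟩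
  have h8 : 2 * ((2 * (x + 1) + 1) ^ 2 * (7 * (x + 1) + 2)) +
      4 * (x + 1) * (2 * (x + 1) + 1) * (84 * (x + 1) + 70) +
      2 * (1360 * (x + 1) ^ 2) < 2 * (3100 * (x + 1) ^ 3) := by
    ring_nf
    nlinarith [Nat.zero_le x, Nat.zero_le (x ^ 2), Nat.zero_le (x ^ 3)]
  omega

lemma num6 (m c0 c1 c2 c3 c4 c5 c6 : ℕ) (hm : 1 ≤ m) (hr : 1 ≤ c6)
    (hP : PP c0 c1 c2 c3 c4 c5 c6 0 0 0 ≤ 7 * m + 3) :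
    (2 * m + 1) ^ 2 * PP c0 c1 c2 c3 c4 c5 c6 0 0 0 + 4 * m * (2 * m + 1) * BB c0 c1 c2 c3 c4 c5 c6 0 0 0 +
      1360 * m ^ 2 < 3100 * m ^ 3 := by
  obtain ⟨σ, hσ⟩ : ∃ σ, σ = 3 * c0 + 2 * c1 + 4 * c2 + 6 * c3 + 5 * c4 + 4 * c5 := ⟨_, rfl⟩
  have h1 : PP c0 c1 c2 c3 c4 c5 c6 0 0 0 = PP c0 c1 c2 c3 c4 c5 0 0 0 0 + 3 * c6 ^ 2 + 2 * c6 * σ := by
    rw [hσ]; unfold PP; ring
  have h2 : 2 * BB c0 c1 c2 c3 c4 c5 c6 0 0 0 ≤ 72 * c6 + 20 * σ := by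
    rw [hσ]; unfold BB; omega
  have h3 : 3 * c6 ^ 2 + 2 * c6 * σ ≤ 7 * m + 3 := by omega
  have h4 : σ ≤ c6 * σ := Nat.le_mul_of_pos_left σ hr
  have h5 : 2 * BB c0 c1 c2 c3 c4 c5 c6 0 0 0 ≤ 70 * m + 74 := by
    nlinarith [sq_nonneg (60 * (c6 : ℤ) - 72)]
  generalize BB c0 c1 c2 c3 c4 c5 c6 0 0 0 = B at *
  generalize PP c0 c1 c2 c3 c4 c5 c6 0 0 0 = P at *
  have h6 : (2 * m + 1) ^ 2 * P ≤ (2 * m + 1) ^ 2 * (7 * m + 3) := Nat.mul_le_mul_left _ hP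
  have h7 : 2 * (4 * m * (2 * m + 1) * B) ≤ 4 * m * (2 * m + 1) * (70 * m + 74) := by
    calc 2 * (4 * m * (2 * m + 1) * B) = 4 * m * (2 * m + 1) * (2 * B) := by ring
      _ ≤ _ := Nat.mul_le_mul_left _ h5
  obtain ⟨x, rfl⟩ : ∃ x, m = x + 1 := ⟨m - 1, by omega⟩
  have h8 : 2 * ((2 * (x + 1) + 1) ^ 2 * (7 * (x + 1) + 3)) +
      4 * (x + 1) * (2 * (x + 1) + 1) * (70 * (x + 1) + 74) +
      2 * (1360 * (x + 1) ^ 2) < 2 * (3100 * (x + 1) ^ 3) := by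
    ring_nf
    nlinarith [Nat.zero_le x, Nat.zero_le (x ^ 2), Nat.zero_le (x ^ 3)]
  omega

lemma num5 (m c0 c1 c2 c3 c4 c5 : ℕ) (hm : 1 ≤ m) (hr : 1 ≤ c5)
    (hP : PP c0 c1 c2 c3 c4 c5 0 0 0 0 ≤ 7 * m + 4) :
    (2 * m + 1) ^ 2 * PP c0 c1 c2 c3 c4 c5 0 0 0 0 + 4 * m * (2 * m + 1) * BB c0 c1 c2 c3 c4 c5 0 0 0 0 +
      1360 * m ^ 2 < 3100 * m ^ 3 := by
  obtain ⟨σ, hσ⟩ : ∃ σ, σ = 3 * c0 + 2 * c1 + 4 * c2 + 6 * c3 + 5 * c4 := ⟨_, rfl⟩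
  have h1 : PP c0 c1 c2 c3 c4 c5 0 0 0 0 = PP c0 c1 c2 c3 c4 0 0 0 0 0 + 4 * c5 ^ 2 + 2 * c5 * σ := by
    rw [hσ]; unfold PP; ring
  have h2 : 2 * BB c0 c1 c2 c3 c4 c5 0 0 0 0 ≤ 80 * c5 + 18 * σ := by
    rw [hσ]; unfold BB; omega
  have h3 : 4 * c5 ^ 2 + 2 * c5 * σ ≤ 7 * m + 4 := by omega
  have h4 : σ ≤ c5 * σ := Nat.le_mul_of_pos_left σ hr
  have h5 : 2 * BB c0 c1 c2 c3 c4 c5 0 0 0 0 ≤ 63 * m + 81 := by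
    nlinarith [sq_nonneg (72 * (c5 : ℤ) - 80)]
  generalize BB c0 c1 c2 c3 c4 c5 0 0 0 0 = B at *
  generalize PP c0 c1 c2 c3 c4 c5 0 0 0 0 = P at *
  have h6 : (2 * m + 1) ^ 2 * P ≤ (2 * m + 1) ^ 2 * (7 * m + 4) := Nat.mul_le_mul_left _ hP
  have h7 : 2 * (4 * m * (2 * m + 1) * B) ≤ 4 * m * (2 * m + 1) * (63 * m + 81) := by
    calc 2 * (4 * m * (2 * m + 1) * B) = 4 * m * (2 * m + 1) * (2 * B) := by ring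
      _ ≤ _ := Nat.mul_le_mul_left _ h5
  obtain ⟨x, rfl⟩ : ∃ x, m = x + 1 := ⟨m - 1, by omega⟩
  have h8 : 2 * ((2 * (x + 1) + 1) ^ 2 * (7 * (x + 1) + 4)) +
      4 * (x + 1) * (2 * (x + 1) + 1) * (63 * (x + 1) + 81) +
      2 * (1360 * (x + 1) ^ 2) < 2 * (3100 * (x + 1) ^ 3) := by
    ring_nf
    nlinarith [Nat.zero_le x, Nat.zero_le (x ^ 2), Nat.zero_le (x ^ 3)]
  omega

lemma num4 (m c0 c1 c2 c3 c4 : ℕ) (hm : 1 ≤ m) (hr : 1 ≤ c4)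
    (hP : PP c0 c1 c2 c3 c4 0 0 0 0 0 ≤ 7 * m + 5) :
    (2 * m + 1) ^ 2 * PP c0 c1 c2 c3 c4 0 0 0 0 0 + 4 * m * (2 * m + 1) * BB c0 c1 c2 c3 c4 0 0 0 0 0 +
      1360 * m ^ 2 < 3100 * m ^ 3 := by
  obtain ⟨σ, hσ⟩ : ∃ σ, σ = 3 * c0 + 2 * c1 + 4 * c2 + 6 * c3 := ⟨_, rfl⟩
  have h1 : PP c0 c1 c2 c3 c4 0 0 0 0 0 = PP c0 c1 c2 c3 0 0 0 0 0 0 + 5 * c4 ^ 2 + 2 * c4 * σ := by
    rw [hσ]; unfold PP; ring
  have h2 : 4 * BB c0 c1 c2 c3 c4 0 0 0 0 0 ≤ 180 * c4 + 34 * σ := by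
    rw [hσ]; unfold BB; omega
  have h3 : 5 * c4 ^ 2 + 2 * c4 * σ ≤ 7 * m + 5 := by omega
  have h4 : σ ≤ c4 * σ := Nat.le_mul_of_pos_left σ hr
  have h5 : 4 * BB c0 c1 c2 c3 c4 0 0 0 0 0 ≤ 119 * m + 181 := by
    nlinarith [sq_nonneg (170 * (c4 : ℤ) - 180)]
  generalize BB c0 c1 c2 c3 c4 0 0 0 0 0 = B at *
  generalize PP c0 c1 c2 c3 c4 0 0 0 0 0 = P at *
  have h6 : (2 * m + 1) ^ 2 * P ≤ (2 * m + 1) ^ 2 * (7 * m + 5) := Nat.mul_le_mul_left _ hP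
  have h7 : 4 * (4 * m * (2 * m + 1) * B) ≤ 4 * m * (2 * m + 1) * (119 * m + 181) := by
    calc 4 * (4 * m * (2 * m + 1) * B) = 4 * m * (2 * m + 1) * (4 * B) := by ring
      _ ≤ _ := Nat.mul_le_mul_left _ h5
  obtain ⟨x, rfl⟩ : ∃ x, m = x + 1 := ⟨m - 1, by omega⟩
  have h8 : 4 * ((2 * (x + 1) + 1) ^ 2 * (7 * (x + 1) + 5)) +
      4 * (x + 1) * (2 * (x + 1) + 1) * (119 * (x + 1) + 181) +
      4 * (1360 * (x + 1) ^ 2) < 4 * (3100 * (x + 1) ^ 3) := by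
    ring_nf
    nlinarith [Nat.zero_le x, Nat.zero_le (x ^ 2), Nat.zero_le (x ^ 3)]
  omega

lemma num3 (m c0 c1 c2 c3 : ℕ) (hm : 1 ≤ m) (hr : 1 ≤ c3)
    (hP : PP c0 c1 c2 c3 0 0 0 0 0 0 ≤ 7 * m + 6) :
    (2 * m + 1) ^ 2 * PP c0 c1 c2 c3 0 0 0 0 0 0 + 4 * m * (2 * m + 1) * BB c0 c1 c2 c3 0 0 0 0 0 0 +
      1360 * m ^ 2 < 3100 * m ^ 3 := by
  obtain ⟨σ, hσ⟩ : ∃ σ, σ = 3 * c0 + 2 * c1 + 4 * c2 := ⟨_, rfl⟩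
  have h1 : PP c0 c1 c2 c3 0 0 0 0 0 0 = PP c0 c1 c2 0 0 0 0 0 0 0 + 6 * c3 ^ 2 + 2 * c3 * σ := by
    rw [hσ]; unfold PP; ring
  have h2 : 6 * BB c0 c1 c2 c3 0 0 0 0 0 0 ≤ 306 * c3 + 50 * σ := by
    rw [hσ]; unfold BB; omega
  have h3 : 6 * c3 ^ 2 + 2 * c3 * σ ≤ 7 * m + 6 := by omega
  have h4 : σ ≤ c3 * σ := Nat.le_mul_of_pos_left σ hr
  have h5 : 6 * BB c0 c1 c2 c3 0 0 0 0 0 0 ≤ 175 * m + 307 := by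
    nlinarith [sq_nonneg (300 * (c3 : ℤ) - 306)]
  generalize BB c0 c1 c2 c3 0 0 0 0 0 0 = B at *
  generalize PP c0 c1 c2 c3 0 0 0 0 0 0 = P at *
  have h6 : (2 * m + 1) ^ 2 * P ≤ (2 * m + 1) ^ 2 * (7 * m + 6) := Nat.mul_le_mul_left _ hP
  have h7 : 6 * (4 * m * (2 * m + 1) * B) ≤ 4 * m * (2 * m + 1) * (175 * m + 307) := by
    calc 6 * (4 * m * (2 * m + 1) * B) = 4 * m * (2 * m + 1) * (6 * B) := by ring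
      _ ≤ _ := Nat.mul_le_mul_left _ h5
  obtain ⟨x, rfl⟩ : ∃ x, m = x + 1 := ⟨m - 1, by omega⟩
  have h8 : 6 * ((2 * (x + 1) + 1) ^ 2 * (7 * (x + 1) + 6)) +
      4 * (x + 1) * (2 * (x + 1) + 1) * (175 * (x + 1) + 307) +
      6 * (1360 * (x + 1) ^ 2) < 6 * (3100 * (x + 1) ^ 3) := by
    ring_nf
    nlinarith [Nat.zero_le x, Nat.zero_le (x ^ 2), Nat.zero_le (x ^ 3)]
  omega

lemma num2 (m c0 c1 c2 : ℕ) (hm : 1 ≤ m) (hr : 1 ≤ c2)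
    (hP : PP c0 c1 c2 0 0 0 0 0 0 0 ≤ 7 * m + 7) :
    (2 * m + 1) ^ 2 * PP c0 c1 c2 0 0 0 0 0 0 0 + 4 * m * (2 * m + 1) * BB c0 c1 c2 0 0 0 0 0 0 0 +
      1360 * m ^ 2 < 3100 * m ^ 3 := by
  obtain ⟨σ, hσ⟩ : ∃ σ, σ = 2 * c0 + c1 := ⟨_, rfl⟩
  have h1 : PP c0 c1 c2 0 0 0 0 0 0 0 = PP c0 c1 0 0 0 0 0 0 0 0 + 2 * c2 ^ 2 + 2 * c2 * σ := by
    rw [hσ]; unfold PP; ring
  have h2 : 2 * BB c0 c1 c2 0 0 0 0 0 0 0 ≤ 66 * c2 + 32 * σ := by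
    rw [hσ]; unfold BB; omega
  have h3 : 2 * c2 ^ 2 + 2 * c2 * σ ≤ 7 * m + 7 := by omega
  have h4 : σ ≤ c2 * σ := Nat.le_mul_of_pos_left σ hr
  have h5 : 2 * BB c0 c1 c2 0 0 0 0 0 0 0 ≤ 112 * m + 147 := by
    nlinarith [sq_nonneg (64 * (c2 : ℤ) - 66)]
  generalize BB c0 c1 c2 0 0 0 0 0 0 0 = B at *
  generalize PP c0 c1 c2 0 0 0 0 0 0 0 = P at *
  have h6 : (2 * m + 1) ^ 2 * P ≤ (2 * m + 1) ^ 2 * (7 * m + 7) := Nat.mul_le_mul_left _ hP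
  have h7 : 2 * (4 * m * (2 * m + 1) * B) ≤ 4 * m * (2 * m + 1) * (112 * m + 147) := by
    calc 2 * (4 * m * (2 * m + 1) * B) = 4 * m * (2 * m + 1) * (2 * B) := by ring
      _ ≤ _ := Nat.mul_le_mul_left _ h5
  obtain ⟨x, rfl⟩ : ∃ x, m = x + 1 := ⟨m - 1, by omega⟩
  have h8 : 2 * ((2 * (x + 1) + 1) ^ 2 * (7 * (x + 1) + 7)) +
      4 * (x + 1) * (2 * (x + 1) + 1) * (112 * (x + 1) + 147) +
      2 * (1360 * (x + 1) ^ 2) < 2 * (3100 * (x + 1) ^ 3) := by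
    ring_nf
    nlinarith [Nat.zero_le x, Nat.zero_le (x ^ 2), Nat.zero_le (x ^ 3)]
  omega

lemma num9 (m c0 c1 c2 c3 c4 c5 c6 c7 c8 c9 : ℕ) (hm : 1 ≤ m) (hr : 1 ≤ c9)
    (hc : 1 ≤ c0 + c1 + c2 + c3 + c4 + c5 + c6 + c7 + c8)
    (hP : PP c0 c1 c2 c3 c4 c5 c6 c7 c8 c9 ≤ 7 * m) :
    (2 * m + 1) ^ 2 * PP c0 c1 c2 c3 c4 c5 c6 c7 c8 c9 +
      4 * m * (2 * m + 1) * BB c0 c1 c2 c3 c4 c5 c6 c7 c8 c9 + 1360 * m ^ 2 < 3100 * m ^ 3 := by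
  obtain ⟨σ, hσ⟩ : ∃ σ, σ = 3 * c0 + 2 * c1 + 4 * c2 + 6 * c3 + 5 * c4 + 4 * c5 + 3 * c6 +
    2 * c7 + c8 := ⟨_, rfl⟩
  have h1 : PP c0 c1 c2 c3 c4 c5 c6 c7 c8 c9 = PP c0 c1 c2 c3 c4 c5 c6 c7 c8 0 +
      2 * c9 * σ := by
    rw [hσ]; unfold PP; ring
  have h2 : BB c0 c1 c2 c3 c4 c5 c6 c7 c8 c9 ≤ 31 * (c9 + σ) := by
    rw [hσ]; unfold BB; omega
  have h3 : 2 * c9 * σ ≤ 7 * m := by omega
  have h4 : 1 ≤ σ := by omega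
  have h5 : 2 * BB c0 c1 c2 c3 c4 c5 c6 c7 c8 c9 ≤ 31 * (7 * m + 2) := by
    obtain ⟨a, rfl⟩ : ∃ a, c9 = a + 1 := ⟨c9 - 1, by omega⟩
    obtain ⟨b, hb⟩ : ∃ b, σ = b + 1 := ⟨σ - 1, by omega⟩
    rw [hb] at h2 h3
    nlinarith [Nat.zero_le (a * b)]
  generalize BB c0 c1 c2 c3 c4 c5 c6 c7 c8 c9 = B at *
  generalize PP c0 c1 c2 c3 c4 c5 c6 c7 c8 c9 = P at *
  have h6 : (2 * m + 1) ^ 2 * P ≤ (2 * m + 1) ^ 2 * (7 * m) := Nat.mul_le_mul_left _ hP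
  have h7 : 2 * (4 * m * (2 * m + 1) * B) ≤ 4 * m * (2 * m + 1) * (31 * (7 * m + 2)) := by
    calc 2 * (4 * m * (2 * m + 1) * B) = 4 * m * (2 * m + 1) * (2 * B) := by ring
      _ ≤ _ := Nat.mul_le_mul_left _ h5
  obtain ⟨x, rfl⟩ : ∃ x, m = x + 1 := ⟨m - 1, by omega⟩
  have h8 : 2 * ((2 * (x + 1) + 1) ^ 2 * (7 * (x + 1))) +
      4 * (x + 1) * (2 * (x + 1) + 1) * (31 * (7 * (x + 1) + 2)) +
      2 * (1360 * (x + 1) ^ 2) < 2 * (3100 * (x + 1) ^ 3) := by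
    ring_nf
    nlinarith [Nat.zero_le x, Nat.zero_le (x ^ 2), Nat.zero_le (x ^ 3)]
  omega

end Pool.MP_70e04f_ag.Nine

end

/-! ### from `Lib_MP_70e04f_nine.Big` -/

section

/-!
# The nine point theorem
-/

namespace Pool.MP_70e04f_ag.Nine

set_option linter.unusedSimpArgs false

open Pool.MP_70e04f_ag.Hex Pool.MP_70e04f_ag.Add

/-- The self-intersection in terms of the coefficients. -/
lemma PP_self {ν : ℕ → ℕ} (hν : Antitone ν) {d : ℕ} (hd : ν 0 + ν 1 + ν 2 ≤ d) :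
    PP (d - (ν 0 + ν 1 + ν 2)) (ν 0 - ν 1) (ν 1 - ν 2) (ν 2 - ν 3) (ν 3 - ν 4)
      (ν 4 - ν 5) (ν 5 - ν 6) (ν 6 - ν 7) (ν 7 - ν 8) (ν 8) +
      (ν 0 ^ 2 + ν 1 ^ 2 + ν 2 ^ 2 + ν 3 ^ 2 + ν 4 ^ 2 + ν 5 ^ 2 + ν 6 ^ 2 + ν 7 ^ 2 + ν 8 ^ 2) =
      d ^ 2 := by
  have h := PP_eq (d - (ν 0 + ν 1 + ν 2)) (ν 0 - ν 1) (ν 1 - ν 2) (ν 2 - ν 3) (ν 3 - ν 4)
      (ν 4 - ν 5) (ν 5 - ν 6) (ν 6 - ν 7) (ν 7 - ν 8) (ν 8)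
  have a0 := hν (show 0 ≤ 1 by norm_num)
  have a1 := hν (show 1 ≤ 2 by norm_num)
  have a2 := hν (show 2 ≤ 3 by norm_num)
  have a3 := hν (show 3 ≤ 4 by norm_num)
  have a4 := hν (show 4 ≤ 5 by norm_num)
  have a5 := hν (show 5 ≤ 6 by norm_num)
  have a6 := hν (show 6 ≤ 7 by norm_num)
  have a7 := hν (show 7 ≤ 8 by norm_num)
  have u1 : (ν 0 - ν 1) + (ν 1 - ν 2) + (ν 2 - ν 3) + (ν 3 - ν 4) + (ν 4 - ν 5) + (ν 5 - ν 6) + (ν 6 - ν 7) + (ν 7 - ν 8) + ν 8 = ν 0 := by omega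
  have u2 : (ν 1 - ν 2) + (ν 2 - ν 3) + (ν 3 - ν 4) + (ν 4 - ν 5) + (ν 5 - ν 6) + (ν 6 - ν 7) + (ν 7 - ν 8) + ν 8 = ν 1 := by omega
  have u3 : (ν 2 - ν 3) + (ν 3 - ν 4) + (ν 4 - ν 5) + (ν 5 - ν 6) + (ν 6 - ν 7) + (ν 7 - ν 8) + ν 8 = ν 2 := by omega
  have u4 : (ν 3 - ν 4) + (ν 4 - ν 5) + (ν 5 - ν 6) + (ν 6 - ν 7) + (ν 7 - ν 8) + ν 8 = ν 3 := by omega
  have u5 : (ν 4 - ν 5) + (ν 5 - ν 6) + (ν 6 - ν 7) + (ν 7 - ν 8) + ν 8 = ν 4 := by omega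
  have u6 : (ν 5 - ν 6) + (ν 6 - ν 7) + (ν 7 - ν 8) + ν 8 = ν 5 := by omega
  have u7 : (ν 6 - ν 7) + (ν 7 - ν 8) + ν 8 = ν 6 := by omega
  have u8 : (ν 7 - ν 8) + ν 8 = ν 7 := by omega
  have u9 : ν 8 = ν 8 := by omega
  rw [u1, u2, u3, u4, u5, u6, u7, u8, u9] at h
  rw [h]
  congr 1
  omega

/-- Rounding down each coefficient. -/
lemma PP_round {ν : ℕ → ℕ} (hν : Antitone ν) {m d : ℕ} (hd : ν 0 + ν 1 + ν 2 ≤ d)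
    (hsq : ν 0 ^ 2 + ν 1 ^ 2 + ν 2 ^ 2 + ν 3 ^ 2 + ν 4 ^ 2 + ν 5 ^ 2 + ν 6 ^ 2 + ν 7 ^ 2 +
      ν 8 ^ 2 + 3100 * m ^ 3 ≤ d ^ 2) :
    3100 * m ^ 3 ≤ (2 * m + 1) ^ 2 * PP ((d - (ν 0 + ν 1 + ν 2)) / (2 * m + 1)) ((ν 0 - ν 1) / (2 * m + 1)) ((ν 1 - ν 2) / (2 * m + 1)) ((ν 2 - ν 3) / (2 * m + 1)) ((ν 3 - ν 4) / (2 * m + 1)) ((ν 4 - ν 5) / (2 * m + 1)) ((ν 5 - ν 6) / (2 * m + 1)) ((ν 6 - ν 7) / (2 * m + 1)) ((ν 7 - ν 8) / (2 * m + 1)) (ν 8 / (2 * m + 1)) + 4 * m * (2 * m + 1) * BB ((d - (ν 0 + ν 1 + ν 2)) / (2 * m + 1)) ((ν 0 - ν 1) / (2 * m + 1)) ((ν 1 - ν 2) / (2 * m + 1)) ((ν 2 - ν 3) / (2 * m + 1)) ((ν 3 - ν 4) / (2 * m + 1)) ((ν 4 - ν 5) / (2 * m + 1)) ((ν 5 - ν 6) / (2 * m + 1)) ((ν 6 - ν 7) / (2 * m + 1)) ((ν 7 - ν 8) / (2 * m + 1)) (ν 8 / (2 * m + 1)) + 1360 * m ^ 2 := by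
  have h1 := PP_self hν hd
  have hdiv : ∀ a, a ≤ (2 * m + 1) * (a / (2 * m + 1)) + 2 * m := by
    intro a
    have h2 := Nat.div_add_mod a (2 * m + 1)
    have h3 := Nat.mod_lt a (show 0 < 2 * m + 1 by omega)
    omega
  have h2 := PP_le m _ _ _ _ _ _ _ _ _ _ _ _ _ _ _ _ _ _ _ _ (hdiv (d - (ν 0 + ν 1 + ν 2))) (hdiv (ν 0 - ν 1)) (hdiv (ν 1 - ν 2)) (hdiv (ν 2 - ν 3)) (hdiv (ν 3 - ν 4)) (hdiv (ν 4 - ν 5)) (hdiv (ν 5 - ν 6)) (hdiv (ν 6 - ν 7)) (hdiv (ν 7 - ν 8)) (hdiv (ν 8))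
  omega

lemma big9 {ν : ℕ → ℕ} (hν : Antitone ν) {m d : ℕ} (hm : 1 ≤ m)
    (hd : ν 0 + ν 1 + ν 2 ≤ d) (hr : 2 * m + 1 ≤ ν 8)
    (hs : 1 ≤ (d - (ν 0 + ν 1 + ν 2)) / (2 * m + 1) + (ν 0 - ν 1) / (2 * m + 1) + (ν 1 - ν 2) / (2 * m + 1) + (ν 2 - ν 3) / (2 * m + 1) + (ν 3 - ν 4) / (2 * m + 1) + (ν 4 - ν 5) / (2 * m + 1) + (ν 5 - ν 6) / (2 * m + 1) + (ν 6 - ν 7) / (2 * m + 1) + (ν 7 - ν 8) / (2 * m + 1))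
    (hsq : ν 0 ^ 2 + ν 1 ^ 2 + ν 2 ^ 2 + ν 3 ^ 2 + ν 4 ^ 2 + ν 5 ^ 2 + ν 6 ^ 2 + ν 7 ^ 2 +
      ν 8 ^ 2 + 3100 * m ^ 3 ≤ d ^ 2) :
    7 * m + (9 - 9) < PP ((d - (ν 0 + ν 1 + ν 2)) / (2 * m + 1)) ((ν 0 - ν 1) / (2 * m + 1)) ((ν 1 - ν 2) / (2 * m + 1)) ((ν 2 - ν 3) / (2 * m + 1)) ((ν 3 - ν 4) / (2 * m + 1)) ((ν 4 - ν 5) / (2 * m + 1)) ((ν 5 - ν 6) / (2 * m + 1)) ((ν 6 - ν 7) / (2 * m + 1)) ((ν 7 - ν 8) / (2 * m + 1)) (ν 8 / (2 * m + 1)) := by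
  have h1 := PP_round hν hd hsq
  by_contra hcon
  have hc : 1 ≤ ν 8 / (2 * m + 1) := (Nat.one_le_div_iff (by omega)).2 hr
  have h2 := num9 m _ _ _ _ _ _ _ _ _ _ hm hc hs (by omega)
  omega

lemma PP_small (m a0 a1 a2 a3 a4 a5 a6 a7 a8 a9 : ℕ)
    (h0 : a0 ≤ 2 * m) (h1 : a1 ≤ 2 * m) (h2 : a2 ≤ 2 * m) (h3 : a3 ≤ 2 * m)
    (h4 : a4 ≤ 2 * m) (h5 : a5 ≤ 2 * m) (h6 : a6 ≤ 2 * m) (h7 : a7 ≤ 2 * m)
    (h8 : a8 ≤ 2 * m) :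
    PP a0 a1 a2 a3 a4 a5 a6 a7 a8 a9 ≤ m * (1120 * m + 120 * a9) := by
  have e : m * (1120 * m + 120 * a9) =
      PP (2 * m) (2 * m) (2 * m) (2 * m) (2 * m) (2 * m) (2 * m) (2 * m) (2 * m) a9 := by
    unfold PP
    ring
  rw [e]
  unfold PP
  gcongr

lemma big9' {ν : ℕ → ℕ} (hν : Antitone ν) {m d : ℕ} (hm : 1 ≤ m)
    (hd : ν 0 + ν 1 + ν 2 ≤ d)
    (hs : ¬ 1 ≤ (d - (ν 0 + ν 1 + ν 2)) / (2 * m + 1) + (ν 0 - ν 1) / (2 * m + 1) + (ν 1 - ν 2) / (2 * m + 1) + (ν 2 - ν 3) / (2 * m + 1) + (ν 3 - ν 4) / (2 * m + 1) + (ν 4 - ν 5) / (2 * m + 1) + (ν 5 - ν 6) / (2 * m + 1) + (ν 6 - ν 7) / (2 * m + 1) + (ν 7 - ν 8) / (2 * m + 1))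
    (hsq : ν 0 ^ 2 + ν 1 ^ 2 + ν 2 ^ 2 + ν 3 ^ 2 + ν 4 ^ 2 + ν 5 ^ 2 + ν 6 ^ 2 + ν 7 ^ 2 +
      ν 8 ^ 2 + 3100 * m ^ 3 ≤ d ^ 2) :
    3100 * m ^ 2 ≤ 120 * ν 8 + 1360 * m := by
  have hlt : ∀ a, a / (2 * m + 1) = 0 → a ≤ 2 * m := by
    intro a ha
    rcases (Nat.div_eq_zero_iff).1 ha with h4 | h4 <;> omega
  have h4 := Nat.lt_one_iff.mp (not_le.mp hs)
  simp only [Nat.add_eq_zero_iff] at h4
  obtain ⟨⟨⟨⟨⟨⟨⟨⟨t0, t1⟩, t2⟩, t3⟩, t4⟩, t5⟩, t6⟩, t7⟩, t8⟩ := h4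
  have h5 := PP_small m _ _ _ _ _ _ _ _ _ (ν 8) (hlt _ t0) (hlt _ t1) (hlt _ t2) (hlt _ t3)
    (hlt _ t4) (hlt _ t5) (hlt _ t6) (hlt _ t7) (hlt _ t8)
  have h6 := PP_self hν hd
  have h7 : m * (3100 * m ^ 2) ≤ m * (1120 * m + 120 * ν 8) := by
    have e1 : m * (3100 * m ^ 2) = 3100 * m ^ 3 := by ring
    omega
  have h8 := Nat.le_of_mul_le_mul_left h7 (by omega)
  omega

lemma big8 {ν : ℕ → ℕ} (hν : Antitone ν) {m d : ℕ} (hm : 1 ≤ m)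
    (hd : ν 0 + ν 1 + ν 2 ≤ d) (hr : 2 * m + 1 ≤ ν 7)
    (hz : ∀ j, 8 ≤ j → ν j = 0)
    (hsq : ν 0 ^ 2 + ν 1 ^ 2 + ν 2 ^ 2 + ν 3 ^ 2 + ν 4 ^ 2 + ν 5 ^ 2 + ν 6 ^ 2 + ν 7 ^ 2 +
      ν 8 ^ 2 + 3100 * m ^ 3 ≤ d ^ 2) :
    7 * m + (9 - 8) < PP ((d - (ν 0 + ν 1 + ν 2)) / (2 * m + 1)) ((ν 0 - ν 1) / (2 * m + 1)) ((ν 1 - ν 2) / (2 * m + 1)) ((ν 2 - ν 3) / (2 * m + 1)) ((ν 3 - ν 4) / (2 * m + 1)) ((ν 4 - ν 5) / (2 * m + 1)) ((ν 5 - ν 6) / (2 * m + 1)) ((ν 6 - ν 7) / (2 * m + 1)) ((ν 7 - ν 8) / (2 * m + 1)) (ν 8 / (2 * m + 1)) := by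
  have h1 := PP_round hν hd hsq
  by_contra hcon
  have z8 : ν 8 = 0 := hz 8 (by norm_num)
  simp only [z8, Nat.sub_zero, Nat.zero_sub, Nat.zero_div, Nat.sub_self, Nat.add_zero] at h1 hcon
  have hc : 1 ≤ ν 7 / (2 * m + 1) := (Nat.one_le_div_iff (by omega)).2 hr
  have h2 := num8 m _ _ _ _ _ _ _ _ (ν 7 / (2 * m + 1)) hm hc (by simpa using hcon)
  omega

lemma big7 {ν : ℕ → ℕ} (hν : Antitone ν) {m d : ℕ} (hm : 1 ≤ m)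
    (hd : ν 0 + ν 1 + ν 2 ≤ d) (hr : 2 * m + 1 ≤ ν 6)
    (hz : ∀ j, 7 ≤ j → ν j = 0)
    (hsq : ν 0 ^ 2 + ν 1 ^ 2 + ν 2 ^ 2 + ν 3 ^ 2 + ν 4 ^ 2 + ν 5 ^ 2 + ν 6 ^ 2 + ν 7 ^ 2 +
      ν 8 ^ 2 + 3100 * m ^ 3 ≤ d ^ 2) :
    7 * m + (9 - 7) < PP ((d - (ν 0 + ν 1 + ν 2)) / (2 * m + 1)) ((ν 0 - ν 1) / (2 * m + 1)) ((ν 1 - ν 2) / (2 * m + 1)) ((ν 2 - ν 3) / (2 * m + 1)) ((ν 3 - ν 4) / (2 * m + 1)) ((ν 4 - ν 5) / (2 * m + 1)) ((ν 5 - ν 6) / (2 * m + 1)) ((ν 6 - ν 7) / (2 * m + 1)) ((ν 7 - ν 8) / (2 * m + 1)) (ν 8 / (2 * m + 1)) := by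
  have h1 := PP_round hν hd hsq
  by_contra hcon
  have z7 : ν 7 = 0 := hz 7 (by norm_num)
  have z8 : ν 8 = 0 := hz 8 (by norm_num)
  simp only [z7, z8, Nat.sub_zero, Nat.zero_sub, Nat.zero_div, Nat.sub_self, Nat.add_zero] at h1 hcon
  have hc : 1 ≤ ν 6 / (2 * m + 1) := (Nat.one_le_div_iff (by omega)).2 hr
  have h2 := num7 m _ _ _ _ _ _ _ (ν 6 / (2 * m + 1)) hm hc (by simpa using hcon)
  omega

lemma big6 {ν : ℕ → ℕ} (hν : Antitone ν) {m d : ℕ} (hm : 1 ≤ m)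
    (hd : ν 0 + ν 1 + ν 2 ≤ d) (hr : 2 * m + 1 ≤ ν 5)
    (hz : ∀ j, 6 ≤ j → ν j = 0)
    (hsq : ν 0 ^ 2 + ν 1 ^ 2 + ν 2 ^ 2 + ν 3 ^ 2 + ν 4 ^ 2 + ν 5 ^ 2 + ν 6 ^ 2 + ν 7 ^ 2 +
      ν 8 ^ 2 + 3100 * m ^ 3 ≤ d ^ 2) :
    7 * m + (9 - 6) < PP ((d - (ν 0 + ν 1 + ν 2)) / (2 * m + 1)) ((ν 0 - ν 1) / (2 * m + 1)) ((ν 1 - ν 2) / (2 * m + 1)) ((ν 2 - ν 3) / (2 * m + 1)) ((ν 3 - ν 4) / (2 * m + 1)) ((ν 4 - ν 5) / (2 * m + 1)) ((ν 5 - ν 6) / (2 * m + 1)) ((ν 6 - ν 7) / (2 * m + 1)) ((ν 7 - ν 8) / (2 * m + 1)) (ν 8 / (2 * m + 1)) := by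
  have h1 := PP_round hν hd hsq
  by_contra hcon
  have z6 : ν 6 = 0 := hz 6 (by norm_num)
  have z7 : ν 7 = 0 := hz 7 (by norm_num)
  have z8 : ν 8 = 0 := hz 8 (by norm_num)
  simp only [z6, z7, z8, Nat.sub_zero, Nat.zero_sub, Nat.zero_div, Nat.sub_self, Nat.add_zero] at h1 hcon
  have hc : 1 ≤ ν 5 / (2 * m + 1) := (Nat.one_le_div_iff (by omega)).2 hr
  have h2 := num6 m _ _ _ _ _ _ (ν 5 / (2 * m + 1)) hm hc (by simpa using hcon)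
  omega

lemma big5 {ν : ℕ → ℕ} (hν : Antitone ν) {m d : ℕ} (hm : 1 ≤ m)
    (hd : ν 0 + ν 1 + ν 2 ≤ d) (hr : 2 * m + 1 ≤ ν 4)
    (hz : ∀ j, 5 ≤ j → ν j = 0)
    (hsq : ν 0 ^ 2 + ν 1 ^ 2 + ν 2 ^ 2 + ν 3 ^ 2 + ν 4 ^ 2 + ν 5 ^ 2 + ν 6 ^ 2 + ν 7 ^ 2 +
      ν 8 ^ 2 + 3100 * m ^ 3 ≤ d ^ 2) :
    7 * m + (9 - 5) < PP ((d - (ν 0 + ν 1 + ν 2)) / (2 * m + 1)) ((ν 0 - ν 1) / (2 * m + 1)) ((ν 1 - ν 2) / (2 * m + 1)) ((ν 2 - ν 3) / (2 * m + 1)) ((ν 3 - ν 4) / (2 * m + 1)) ((ν 4 - ν 5) / (2 * m + 1)) ((ν 5 - ν 6) / (2 * m + 1)) ((ν 6 - ν 7) / (2 * m + 1)) ((ν 7 - ν 8) / (2 * m + 1)) (ν 8 / (2 * m + 1)) := by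
  have h1 := PP_round hν hd hsq
  by_contra hcon
  have z5 : ν 5 = 0 := hz 5 (by norm_num)
  have z6 : ν 6 = 0 := hz 6 (by norm_num)
  have z7 : ν 7 = 0 := hz 7 (by norm_num)
  have z8 : ν 8 = 0 := hz 8 (by norm_num)
  simp only [z5, z6, z7, z8, Nat.sub_zero, Nat.zero_sub, Nat.zero_div, Nat.sub_self, Nat.add_zero] at h1 hcon
  have hc : 1 ≤ ν 4 / (2 * m + 1) := (Nat.one_le_div_iff (by omega)).2 hr
  have h2 := num5 m _ _ _ _ _ (ν 4 / (2 * m + 1)) hm hc (by simpa using hcon)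
  omega

lemma big4 {ν : ℕ → ℕ} (hν : Antitone ν) {m d : ℕ} (hm : 1 ≤ m)
    (hd : ν 0 + ν 1 + ν 2 ≤ d) (hr : 2 * m + 1 ≤ ν 3)
    (hz : ∀ j, 4 ≤ j → ν j = 0)
    (hsq : ν 0 ^ 2 + ν 1 ^ 2 + ν 2 ^ 2 + ν 3 ^ 2 + ν 4 ^ 2 + ν 5 ^ 2 + ν 6 ^ 2 + ν 7 ^ 2 +
      ν 8 ^ 2 + 3100 * m ^ 3 ≤ d ^ 2) :
    7 * m + (9 - 4) < PP ((d - (ν 0 + ν 1 + ν 2)) / (2 * m + 1)) ((ν 0 - ν 1) / (2 * m + 1)) ((ν 1 - ν 2) / (2 * m + 1)) ((ν 2 - ν 3) / (2 * m + 1)) ((ν 3 - ν 4) / (2 * m + 1)) ((ν 4 - ν 5) / (2 * m + 1)) ((ν 5 - ν 6) / (2 * m + 1)) ((ν 6 - ν 7) / (2 * m + 1)) ((ν 7 - ν 8) / (2 * m + 1)) (ν 8 / (2 * m + 1)) := by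
  have h1 := PP_round hν hd hsq
  by_contra hcon
  have z4 : ν 4 = 0 := hz 4 (by norm_num)
  have z5 : ν 5 = 0 := hz 5 (by norm_num)
  have z6 : ν 6 = 0 := hz 6 (by norm_num)
  have z7 : ν 7 = 0 := hz 7 (by norm_num)
  have z8 : ν 8 = 0 := hz 8 (by norm_num)
  simp only [z4, z5, z6, z7, z8, Nat.sub_zero, Nat.zero_sub, Nat.zero_div, Nat.sub_self, Nat.add_zero] at h1 hcon
  have hc : 1 ≤ ν 3 / (2 * m + 1) := (Nat.one_le_div_iff (by omega)).2 hr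
  have h2 := num4 m _ _ _ _ (ν 3 / (2 * m + 1)) hm hc (by simpa using hcon)
  omega

lemma big3 {ν : ℕ → ℕ} (hν : Antitone ν) {m d : ℕ} (hm : 1 ≤ m)
    (hd : ν 0 + ν 1 + ν 2 ≤ d) (hr : 2 * m + 1 ≤ ν 2)
    (hz : ∀ j, 3 ≤ j → ν j = 0)
    (hsq : ν 0 ^ 2 + ν 1 ^ 2 + ν 2 ^ 2 + ν 3 ^ 2 + ν 4 ^ 2 + ν 5 ^ 2 + ν 6 ^ 2 + ν 7 ^ 2 +
      ν 8 ^ 2 + 3100 * m ^ 3 ≤ d ^ 2) :
    7 * m + (9 - 3) < PP ((d - (ν 0 + ν 1 + ν 2)) / (2 * m + 1)) ((ν 0 - ν 1) / (2 * m + 1)) ((ν 1 - ν 2) / (2 * m + 1)) ((ν 2 - ν 3) / (2 * m + 1)) ((ν 3 - ν 4) / (2 * m + 1)) ((ν 4 - ν 5) / (2 * m + 1)) ((ν 5 - ν 6) / (2 * m + 1)) ((ν 6 - ν 7) / (2 * m + 1)) ((ν 7 - ν 8) / (2 * m + 1)) (ν 8 / (2 * m + 1)) := by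
  have h1 := PP_round hν hd hsq
  by_contra hcon
  have z3 : ν 3 = 0 := hz 3 (by norm_num)
  have z4 : ν 4 = 0 := hz 4 (by norm_num)
  have z5 : ν 5 = 0 := hz 5 (by norm_num)
  have z6 : ν 6 = 0 := hz 6 (by norm_num)
  have z7 : ν 7 = 0 := hz 7 (by norm_num)
  have z8 : ν 8 = 0 := hz 8 (by norm_num)
  simp only [z3, z4, z5, z6, z7, z8, Nat.sub_zero, Nat.zero_sub, Nat.zero_div, Nat.sub_self, Nat.add_zero] at h1 hcon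
  have hc : 1 ≤ ν 2 / (2 * m + 1) := (Nat.one_le_div_iff (by omega)).2 hr
  have h2 := num3 m _ _ _ (ν 2 / (2 * m + 1)) hm hc (by simpa using hcon)
  omega

lemma big2 {ν : ℕ → ℕ} (hν : Antitone ν) {m d : ℕ} (hm : 1 ≤ m)
    (hd : ν 0 + ν 1 + ν 2 ≤ d) (hr : 2 * m + 1 ≤ ν 1)
    (hz : ∀ j, 2 ≤ j → ν j = 0)
    (hsq : ν 0 ^ 2 + ν 1 ^ 2 + ν 2 ^ 2 + ν 3 ^ 2 + ν 4 ^ 2 + ν 5 ^ 2 + ν 6 ^ 2 + ν 7 ^ 2 +
      ν 8 ^ 2 + 3100 * m ^ 3 ≤ d ^ 2) :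
    7 * m + (9 - 2) < PP ((d - (ν 0 + ν 1 + ν 2)) / (2 * m + 1)) ((ν 0 - ν 1) / (2 * m + 1)) ((ν 1 - ν 2) / (2 * m + 1)) ((ν 2 - ν 3) / (2 * m + 1)) ((ν 3 - ν 4) / (2 * m + 1)) ((ν 4 - ν 5) / (2 * m + 1)) ((ν 5 - ν 6) / (2 * m + 1)) ((ν 6 - ν 7) / (2 * m + 1)) ((ν 7 - ν 8) / (2 * m + 1)) (ν 8 / (2 * m + 1)) := by
  have h1 := PP_round hν hd hsq
  by_contra hcon
  have z2 : ν 2 = 0 := hz 2 (by norm_num)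
  have z3 : ν 3 = 0 := hz 3 (by norm_num)
  have z4 : ν 4 = 0 := hz 4 (by norm_num)
  have z5 : ν 5 = 0 := hz 5 (by norm_num)
  have z6 : ν 6 = 0 := hz 6 (by norm_num)
  have z7 : ν 7 = 0 := hz 7 (by norm_num)
  have z8 : ν 8 = 0 := hz 8 (by norm_num)
  simp only [z2, z3, z4, z5, z6, z7, z8, Nat.sub_zero, Nat.zero_sub, Nat.zero_div, Nat.sub_self, Nat.add_zero] at h1 hcon
  have hc : 1 ≤ ν 1 / (2 * m + 1) := (Nat.one_le_div_iff (by omega)).2 hr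
  have h2 := num2 m _ _ (ν 1 / (2 * m + 1)) hm hc (by simpa using hcon)
  omega

end Pool.MP_70e04f_ag.Nine

end

/-! ### from `Lib_MP_70e04f_strip.SNumA` -/

section

/-!
# Piece SNUMA: Abel summation for a class in standard form
-/

set_option autoImplicit false

namespace Pool.MP_70e04f_ag.Strip

/-- Abel summation for a class in standard form.
PROOF. Put `M' s = M s - M 8 ≥ 0` (decreasing, `M' 8 = 0`), `D' = D - 3 M 8 ≥ M' 0 + M' 1 + M' 2`. The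
claim is `∑ s < 8, M' s a s ≤ D' e`. Abel summation: with `c j = M' (j - 1) - M' j ≥ 0` and
`A j = a 0 + ... + a (j - 1)`: `∑ M' s a s = ∑ c j A j`, `A 1 ≤ e`, `A 2 ≤ 2 e`, `A j ≤ ∑ a ≤ 3 e` for
`j ≥ 3`, and `c 1 + 2 c 2 + 3 (c 3 + ... + c 8) = M' 0 + M' 1 + M' 2 ≤ D'`. (All is linear in the `a s`
once the products are introduced: `nlinarith` with the nine products `c j * (..) ≥ 0`.) -/
theorem abel_nine (e D : ℤ) (a M : Fin 9 → ℤ) (h0 : ∀ s, 0 ≤ a s) (hae : ∀ s, a s ≤ e)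
    (hsum : ∑ s, a s ≤ 3 * e) (hanti : Antitone M) (hstd : M 0 + M 1 + M 2 ≤ D) :
    ∑ s, M s * a s + M 8 * (3 * e - ∑ s, a s) ≤ D * e := by
  have hs : ∑ s, a s = a 0 + a 1 + a 2 + a 3 + a 4 + a 5 + a 6 + a 7 + a 8 := by
    simp [Fin.sum_univ_succ, Fin.succ]
    ring_nf
  have hm : ∑ s, M s * a s = M 0 * a 0 + M 1 * a 1 + M 2 * a 2 + M 3 * a 3 + M 4 * a 4
      + M 5 * a 5 + M 6 * a 6 + M 7 * a 7 + M 8 * a 8 := by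
    simp [Fin.sum_univ_succ, Fin.succ]
    ring_nf
  rw [hs] at hsum
  rw [hm, hs]
  have e0 : 0 ≤ e := (h0 0).trans (hae 0)
  have c1 : 0 ≤ M 0 - M 1 := sub_nonneg.2 (hanti (by decide))
  have c2 : 0 ≤ M 1 - M 2 := sub_nonneg.2 (hanti (by decide))
  have c3 : 0 ≤ M 2 - M 3 := sub_nonneg.2 (hanti (by decide))
  have c4 : 0 ≤ M 3 - M 4 := sub_nonneg.2 (hanti (by decide))
  have c5 : 0 ≤ M 4 - M 5 := sub_nonneg.2 (hanti (by decide))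
  have c6 : 0 ≤ M 5 - M 6 := sub_nonneg.2 (hanti (by decide))
  have c7 : 0 ≤ M 6 - M 7 := sub_nonneg.2 (hanti (by decide))
  have c8 : 0 ≤ M 7 - M 8 := sub_nonneg.2 (hanti (by decide))
  have a0 := h0 0
  have a1 := h0 1
  have a2 := h0 2
  have a3 := h0 3
  have a4 := h0 4
  have a5 := h0 5
  have a6 := h0 6
  have a7 := h0 7
  have a8 := h0 8
  have b0 := hae 0
  have b1 := hae 1
  have p0 := mul_nonneg (sub_nonneg.2 hstd) e0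
  have p1 := mul_nonneg c1 (show 0 ≤ e - a 0 by linarith)
  have p2 := mul_nonneg c2 (show 0 ≤ 2 * e - a 0 - a 1 by linarith)
  have p3 := mul_nonneg c3 (show 0 ≤ 3 * e - a 0 - a 1 - a 2 by linarith)
  have p4 := mul_nonneg c4 (show 0 ≤ 3 * e - a 0 - a 1 - a 2 - a 3 by linarith)
  have p5 := mul_nonneg c5 (show 0 ≤ 3 * e - a 0 - a 1 - a 2 - a 3 - a 4 by linarith)
  have p6 := mul_nonneg c6 (show 0 ≤ 3 * e - a 0 - a 1 - a 2 - a 3 - a 4 - a 5 by linarith)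
  have p7 := mul_nonneg c7
    (show 0 ≤ 3 * e - a 0 - a 1 - a 2 - a 3 - a 4 - a 5 - a 6 by linarith)
  have p8 := mul_nonneg c8
    (show 0 ≤ 3 * e - a 0 - a 1 - a 2 - a 3 - a 4 - a 5 - a 6 - a 7 by linarith)
  linarith

end Pool.MP_70e04f_ag.Strip

end

/-! ### from `Lib_MP_70e04f_strip.SNum` -/

section

/-!
# Piece SNUM: numerical positivity
-/

set_option autoImplicit false

namespace Pool.MP_70e04f_ag.Strip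

theorem SNum_cauchy {n : ℕ} (M b : Fin n → ℕ) (X y : ℕ) :
    (∑ i, M i * b i + X * y) ^ 2 ≤ (∑ i, M i ^ 2 + X ^ 2) * (∑ i, b i ^ 2 + y ^ 2) := by
  have h := Finset.sum_mul_sq_le_sq_mul_sq (Finset.univ : Finset (Fin (n + 1)))
    (Fin.cons X M : Fin (n + 1) → ℕ) (Fin.cons y b : Fin (n + 1) → ℕ)
  rw [Fin.sum_univ_succ, Fin.sum_univ_succ, Fin.sum_univ_succ] at h
  simp only [Fin.cons_zero, Fin.cons_succ] at h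
  rw [add_comm (∑ i, M i * b i), add_comm (∑ i, M i ^ 2), add_comm (∑ i, b i ^ 2)]
  exact h

theorem SNum_update {n : ℕ} (g : Fin n → ℕ → ℕ) (a : Fin n → ℕ) (i : Fin n) (c : ℕ) :
    ∑ j, g j (Function.update a i c j) + g i (a i) = ∑ j, g j (a j) + g i c := by
  have h1 := Finset.add_sum_erase Finset.univ (fun j => g j (Function.update a i c j))
    (Finset.mem_univ i)
  have h2 := Finset.add_sum_erase Finset.univ (fun j => g j (a j)) (Finset.mem_univ i)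
  have h3 : ∑ j ∈ Finset.univ.erase i, g j (Function.update a i c j)
      = ∑ j ∈ Finset.univ.erase i, g j (a j) := by
    refine Finset.sum_congr rfl fun j hj => ?_
    rw [Function.update_of_ne (Finset.ne_of_mem_erase hj)]
  simp only [Function.update_self] at h1
  rw [h3] at h1
  omega

theorem SNum_split {n : ℕ} (α : Fin 9 → Fin n) (hα : Function.Injective α) (f : Fin n → ℕ) :
    ∑ i, f i = ∑ s, f (α s) + ∑ i ∈ (Finset.univ.map ⟨α, hα⟩)ᶜ, f i := by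
  rw [← Finset.sum_add_sum_compl (Finset.univ.map ⟨α, hα⟩) f, Finset.sum_map]
  rfl

theorem SNum_parity {n : ℕ} (a : Fin n → ℕ) : (∑ i, a i ^ 2) % 2 = (∑ i, a i) % 2 := by
  rw [Finset.sum_nat_mod, Finset.sum_nat_mod Finset.univ 2 a]
  congr 1
  refine Finset.sum_congr rfl fun i _ => ?_
  rcases Nat.mod_two_eq_zero_or_one (a i) with h | h
  · rw [Nat.pow_mod, h]
  · rw [Nat.pow_mod, h]

/-- PROOF. (1) Suppose that `a i ≥ 2` for some `i ∉ range α`. Let `a' = a` except `a' i = a i - 1`. By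
`hxu i`, `∑ a' ^ 2 + 1 = ∑ a ^ 2 - 2 a i + 2 ≤ e ^ 2 - a i + 2 ≤ e ^ 2`. By Cauchy
`(∑ M a' + X * 1) ^ 2 ≤ (∑ M ^ 2 + X ^ 2) (∑ a' ^ 2 + 1) < D ^ 2 e ^ 2`, so `∑ M a' + X < D e` and
`∑ M a = ∑ M a' + M i ≤ ∑ M a' + X < D e`.
(2) Now `a i ≤ 1` outside `range α`; let `s` be the number of `i ∉ range α` with `a i = 1`, and
`T = ∑ a (α s)`. By `abel_nine` `∑ M a ≤ D e - M (α 8) (3 e - T) + X s`. If `s = 0` we are done (`hnine`). If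
`s ≥ 1` then `∑ a ^ 2 ≤ e ^ 2 + 1` by `hxu`. If `∑ a ^ 2 ≤ e ^ 2`: Cauchy,
`(∑ M a) ^ 2 ≤ ∑ M ^ 2 ∑ a ^ 2 < D ^ 2 e ^ 2`. Otherwise `∑ a ^ 2 = e ^ 2 + 1`, `∑ a = T + s`. If `s ≥ 2`
then `hts` gives `T + s + 1 ≤ 3 e` and `M (α 8) (3 e - T) ≥ X (s + 1) > X s`. If `s = 1` then
`e ^ 2 + 1 = ∑ a ^ 2 ≡ ∑ a = T + 1` modulo 2, so `3 e - T` is even and `≥ 1`, so `≥ 2`, and
`M (α 8) (3 e - T) ≥ 2 X > X`. -/
theorem num {n : ℕ} (e D X : ℕ) (a M : Fin n → ℕ) (α : Fin 9 → Fin n)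
    (hα : Function.Injective α) (he : 1 ≤ e) (hae : ∀ i, a i ≤ e)
    (hxu : ∀ j, 1 ≤ a j → ∑ i, a i ^ 2 ≤ e ^ 2 + a j)
    (hnine : ∑ s, a (α s) + 1 ≤ 3 * e)
    (hts : ∀ i j, i ≠ j → a i = 1 → a j = 1 → ∑ s, a s ^ 2 = e ^ 2 + 1 → ∑ s, a s + 1 ≤ 3 * e)
    (hanti : Antitone (fun s => M (α s))) (hX : 1 ≤ X) (hX8 : X ≤ M (α 8))
    (hother : ∀ i, i ∉ Set.range α → M i ≤ X) (hstd : M (α 0) + M (α 1) + M (α 2) ≤ D)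
    (hsq : ∑ i, M i ^ 2 + X ^ 2 < D ^ 2) :
    ∑ i, M i * a i < D * e := by
  have he2 : 0 < e ^ 2 := by positivity
  by_cases hcase : ∃ i, i ∉ Set.range α ∧ 2 ≤ a i
  · obtain ⟨i, hi, hai⟩ := hcase
    obtain ⟨t, ht⟩ : ∃ t, a i = t + 2 := ⟨a i - 2, by omega⟩
    have h1 := SNum_update (fun _ x => x ^ 2) a i (t + 1)
    have h2 := SNum_update (fun j x => M j * x) a i (t + 1)
    simp only [ht] at h1 h2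
    have h3 := hxu i (by omega)
    rw [ht] at h3
    have h4 : ∑ j, (Function.update a i (t + 1) j) ^ 2 + 1 ^ 2 ≤ e ^ 2 := by nlinarith
    have h5 := SNum_cauchy M (Function.update a i (t + 1)) X 1
    have h6 : ∑ j, M j * a j ≤ ∑ j, M j * Function.update a i (t + 1) j + X * 1 := by
      have := hother i hi
      nlinarith
    refine lt_of_le_of_lt h6 ?_
    have h7 : (∑ j, M j * Function.update a i (t + 1) j + X * 1) ^ 2 < (D * e) ^ 2 := by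
      calc _ ≤ _ := h5
        _ ≤ (∑ i, M i ^ 2 + X ^ 2) * e ^ 2 := Nat.mul_le_mul le_rfl h4
        _ < D ^ 2 * e ^ 2 := Nat.mul_lt_mul_of_pos_right hsq he2
        _ = (D * e) ^ 2 := (mul_pow D e 2).symm
    exact lt_of_pow_lt_pow_left₀ 2 (Nat.zero_le _) h7
  · push Not at hcase
    set O := (Finset.univ.map ⟨α, hα⟩)ᶜ with hO
    have memO : ∀ i, i ∈ O → i ∉ Set.range α := by
      rintro i hi ⟨s, hs⟩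
      rw [hO, Finset.mem_compl] at hi
      exact hi (Finset.mem_map.2 ⟨s, Finset.mem_univ s, hs⟩)
    have ha1 : ∀ i ∈ O, a i ≤ 1 := fun i hi => by
      have := hcase i (memO i hi)
      omega
    have hsa := SNum_split α hα a
    have hsM := SNum_split α hα (fun i => M i * a i)
    rw [← hO] at hsa hsM
    have hOM : ∑ i ∈ O, M i * a i ≤ X * ∑ i ∈ O, a i := by
      rw [Finset.mul_sum]
      exact Finset.sum_le_sum fun i hi => Nat.mul_le_mul (hother i (memO i hi)) le_rfl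
    have hab := abel_nine (e : ℤ) (D : ℤ) (fun s => (a (α s) : ℤ)) (fun s => (M (α s) : ℤ))
      (fun s => Int.natCast_nonneg _) (fun s => by exact_mod_cast hae (α s))
      (by have : ∑ s, a (α s) ≤ 3 * e := by omega
          exact_mod_cast this)
      (fun s t hst => Int.ofNat_le.2 (hanti hst)) (by exact_mod_cast hstd)
    obtain ⟨T, hT⟩ : ∃ T, T = ∑ s, a (α s) := ⟨_, rfl⟩
    obtain ⟨S, hS⟩ : ∃ S, S = ∑ i ∈ O, a i := ⟨_, rfl⟩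
    obtain ⟨P, hP⟩ : ∃ P, P = ∑ s, M (α s) * a (α s) := ⟨_, rfl⟩
    obtain ⟨Q, hQ⟩ : ∃ Q, Q = ∑ i ∈ O, M i * a i := ⟨_, rfl⟩
    have hab' : (P : ℤ) + (M (α 8) : ℤ) * (3 * e - T) ≤ D * e := by
      rw [hP, hT]
      push_cast
      exact hab
    rw [hsM, ← hP, ← hQ]
    rw [← hQ, ← hS] at hOM
    rw [← hT, ← hS] at hsa
    rw [← hT] at hnine
    have hsum_eq := hsM
    have key : ∀ w : ℕ, (w : ℤ) ≤ 3 * e - T → X * S < M (α 8) * w → P + Q < D * e := by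
      intro w hw hlt
      have h1 : (M (α 8) : ℤ) * w ≤ (M (α 8) : ℤ) * (3 * e - T) :=
        mul_le_mul_of_nonneg_left hw (Int.natCast_nonneg _)
      have h2 : ((X * S : ℕ) : ℤ) < ((M (α 8) * w : ℕ) : ℤ) := by exact_mod_cast hlt
      have h3 : (Q : ℤ) ≤ ((X * S : ℕ) : ℤ) := by exact_mod_cast hOM
      push_cast at h2 h3
      have h4 : (P : ℤ) + Q < D * e := by linarith
      exact_mod_cast h4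
    by_cases hS0 : S = 0
    · refine key 1 (by push_cast; omega) ?_
      rw [hS0]
      omega
    · -- an index outside with value one
      obtain ⟨j, hj, hj0⟩ : ∃ j ∈ O, a j ≠ 0 := by
        by_contra hno
        push Not at hno
        exact hS0 (hS.trans (Finset.sum_eq_zero hno))
      have hj1 : a j = 1 := by have := ha1 j hj; omega
      have h1 := hxu j (by omega)
      rw [hj1] at h1
      by_cases hle : ∑ i, a i ^ 2 ≤ e ^ 2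
      · have h5 := SNum_cauchy M a 0 0
        have h7 : (∑ i, M i * a i) ^ 2 < (D * e) ^ 2 := by
          calc (∑ i, M i * a i) ^ 2 ≤ (∑ i, M i ^ 2) * (∑ i, a i ^ 2) := by
                simpa using h5
            _ ≤ (∑ i, M i ^ 2) * e ^ 2 := Nat.mul_le_mul le_rfl hle
            _ < D ^ 2 * e ^ 2 := Nat.mul_lt_mul_of_pos_right (by omega) he2
            _ = (D * e) ^ 2 := (mul_pow D e 2).symm
        have h8 := lt_of_pow_lt_pow_left₀ 2 (Nat.zero_le _) h7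
        rw [hsM, ← hP, ← hQ] at h8
        exact h8
      · have heq : ∑ i, a i ^ 2 = e ^ 2 + 1 := by omega
        by_cases hS2 : 2 ≤ S
        · obtain ⟨i, hi, hij, hi0⟩ : ∃ i ∈ O, i ≠ j ∧ a i ≠ 0 := by
            by_contra hno
            push Not at hno
            have : S = a j := by
              rw [hS]
              refine Finset.sum_eq_single j (fun i hi hij => hno i hi hij) (fun h => absurd hj h)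
            omega
          have hi1 : a i = 1 := by have := ha1 i hi; omega
          have h9 := hts i j hij hi1 hj1 heq
          rw [hsa] at h9
          refine key (S + 1) (by push_cast; omega) ?_
          have : X * S < X * (S + 1) := by nlinarith
          exact lt_of_lt_of_le this (Nat.mul_le_mul hX8 le_rfl)
        · have hS1 : S = 1 := by omega
          have hpar := SNum_parity a
          rw [heq, hsa, hS1] at hpar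
          have hpe : (e ^ 2 + 1) % 2 = (e + 1) % 2 := by
            rcases Nat.mod_two_eq_zero_or_one e with h | h
            · rw [Nat.add_mod, Nat.pow_mod, h, Nat.add_mod e, h]
            · rw [Nat.add_mod, Nat.pow_mod, h, Nat.add_mod e, h]
          rw [hpe] at hpar
          refine key 2 (by push_cast; omega) ?_
          rw [hS1]
          nlinarith

end Pool.MP_70e04f_ag.Strip

end
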