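import Mathlib

/-!
# MP_70e04f_ag, plane linear systems: merged library part M17

Concatenation of smaller files (each in its own section), only to save build time.
-/

/-! ### from `Lib_MP_70e04f_gon.GBin` -/

section

/-!
# Piece GBIN: a prime which divides a binary form divides a linear form
-/

set_option autoImplicit false

namespace Pool.MP_70e04f_ag.Strip

private theorem GBin_shift {A K : Type*} [CommRing A] [Field K] [Algebra K A] (u w : A) (κ : ℕ)
    (c : ℕ → K) : ∑ a ∈ Finset.range (κ + 1), algebraMap K A (c a) * (u ^ a * w ^ (κ + 1 - a)) =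
      w * ∑ a ∈ Finset.range (κ + 1), algebraMap K A (c a) * (u ^ a * w ^ (κ - a)) := by
  rw [Finset.mul_sum]
  refine Finset.sum_congr rfl fun a ha => ?_
  have h1 : κ + 1 - a = (κ - a) + 1 := by
    have := Finset.mem_range.1 ha
    omega
  rw [h1, pow_succ]
  ring

private theorem GBin_fac {A K : Type*} [CommRing A] [Field K] [Algebra K A] (u w : A) (κ : ℕ)
    (c b : ℕ → K) (r : K) (hb : b (κ + 1) = 0) (h0 : c 0 = - (r * b 0))
    (h1 : ∀ a, c (a + 1) = b a - r * b (a + 1)) :
    ∑ a ∈ Finset.range (κ + 1 + 1), algebraMap K A (c a) * (u ^ a * w ^ (κ + 1 - a)) =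
      (u - algebraMap K A r * w) *
        ∑ a ∈ Finset.range (κ + 1), algebraMap K A (b a) * (u ^ a * w ^ (κ - a)) := by
  have h2 : ∑ a ∈ Finset.range (κ + 1 + 1), algebraMap K A (b a) * (u ^ a * w ^ (κ + 1 - a)) =
      w * ∑ a ∈ Finset.range (κ + 1), algebraMap K A (b a) * (u ^ a * w ^ (κ - a)) := by
    rw [Finset.sum_range_succ, hb, map_zero, zero_mul, add_zero, GBin_shift]
  rw [sub_mul, mul_assoc, ← h2,
    Finset.sum_range_succ' (fun a => algebraMap K A (c a) * (u ^ a * w ^ (κ + 1 - a))),
    Finset.sum_range_succ' (fun a => algebraMap K A (b a) * (u ^ a * w ^ (κ + 1 - a))), h0,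
    mul_add, Finset.mul_sum, Finset.mul_sum]
  have h3 : ∀ a, algebraMap K A (c (a + 1)) * (u ^ (a + 1) * w ^ (κ + 1 - (a + 1))) =
      u * (algebraMap K A (b a) * (u ^ a * w ^ (κ - a))) -
      algebraMap K A r * (algebraMap K A (b (a + 1)) * (u ^ (a + 1) * w ^ (κ + 1 - (a + 1)))) := by
    intro a
    have h4 : κ + 1 - (a + 1) = κ - a := by omega
    rw [h1, h4, map_sub, map_mul]
    ring
  rw [Finset.sum_congr rfl fun a _ => h3 a, Finset.sum_sub_distrib, map_neg, map_mul]
  ring

/-- PROOF. Induction on `κ`. `κ = 0`: `F` divides the unit `algebraMap K A (c 0)`: impossible. Step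
`κ + 1`: if `c (κ + 1) = 0` the sum is `w * ∑ a ∈ range (κ + 1), c a u ^ a w ^ (κ - a)`; `F` divides `w`
(take `α = 0, β = 1`) or the other factor (induction; some `c a ≠ 0` with `a ≤ κ`). If `c (κ + 1) ≠ 0` the
polynomial `P = ∑ c a T ^ a ∈ K[T]` has degree `κ + 1`, so it has a root `r` (`IsAlgClosed.exists_root`), and
`P = (T - r) ∑ a ≤ κ, b a T ^ a`, that is `c 0 = - r b 0`, `c (a + 1) = b a - r b (a + 1)` (`b (κ + 1) = 0`),
`b κ = c (κ + 1) ≠ 0`. So the sum is `(u - r w) * ∑ a ∈ range (κ + 1), b a u ^ a w ^ (κ - a)`: `F`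
divides `u - r w` or the other factor (induction). -/
theorem prime_dvd_form {A K : Type*} [CommRing A] [Field K] [IsAlgClosed K] [Algebra K A] {F : A}
    (hF : Prime F) (u w : A) (κ : ℕ) (c : ℕ → K) (hc : ∃ a ∈ Finset.range (κ + 1), c a ≠ 0)
    (h : F ∣ ∑ a ∈ Finset.range (κ + 1), algebraMap K A (c a) * (u ^ a * w ^ (κ - a))) :
    ∃ α β : K, (α ≠ 0 ∨ β ≠ 0) ∧ F ∣ algebraMap K A α * u + algebraMap K A β * w := by
  induction κ generalizing c with
  | zero =>
    exfalso
    obtain ⟨a, ha, hca⟩ := hc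
    have ha0 : a = 0 := by
      have := Finset.mem_range.1 ha
      omega
    subst ha0
    rw [Finset.sum_range_one, pow_zero, Nat.sub_zero, pow_zero, mul_one, mul_one] at h
    exact hF.not_isUnit (isUnit_of_dvd_unit h ((IsUnit.mk0 _ hca).map (algebraMap K A)))
  | succ κ ih =>
    by_cases hk : c (κ + 1) = 0
    · rw [Finset.sum_range_succ, hk, map_zero, zero_mul, add_zero, GBin_shift] at h
      rcases hF.dvd_or_dvd h with h1 | h1
      · refine ⟨0, 1, Or.inr one_ne_zero, ?_⟩
        rwa [map_zero, zero_mul, zero_add, map_one, one_mul]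
      · refine ih c ?_ h1
        obtain ⟨a, ha, hca⟩ := hc
        refine ⟨a, ?_, hca⟩
        rw [Finset.mem_range] at ha ⊢
        rcases Nat.lt_succ_iff_lt_or_eq.1 ha with h2 | h2
        · exact h2
        · rw [h2] at hca; exact absurd hk hca
    · set P : Polynomial K := ∑ a ∈ Finset.range (κ + 1 + 1), Polynomial.C (c a) * Polynomial.X ^ a
        with hP
      have hcoef : ∀ n, P.coeff n = if n < κ + 1 + 1 then c n else 0 := by
        intro n
        rw [hP, Polynomial.finsetSum_coeff]
        simp only [Polynomial.coeff_C_mul, Polynomial.coeff_X_pow, mul_ite, mul_one, mul_zero]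
        rw [Finset.sum_ite_eq (Finset.range (κ + 1 + 1)) n c]
        simp only [Finset.mem_range]
      have hPk : P.coeff (κ + 1) ≠ 0 := by
        rw [hcoef, if_pos (Nat.lt_succ_self _)]
        exact hk
      have hP0 : P ≠ 0 := by
        intro h0
        rw [h0, Polynomial.coeff_zero] at hPk
        exact hPk rfl
      have hdle : P.natDegree ≤ κ + 1 := by
        rw [Polynomial.natDegree_le_iff_coeff_eq_zero]
        intro n hn
        rw [hcoef, if_neg (by omega)]
      have hdge : κ + 1 ≤ P.natDegree := Polynomial.le_natDegree_of_ne_zero hPk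
      have hdeg : P.degree ≠ 0 := by
        intro h0
        have := Polynomial.natDegree_eq_zero_iff_degree_le_zero.2 h0.le
        omega
      obtain ⟨r, hr⟩ := IsAlgClosed.exists_root P hdeg
      obtain ⟨Q, hQ⟩ := Polynomial.dvd_iff_isRoot.2 hr
      have hQ0 : Q ≠ 0 := by
        rintro rfl
        exact hP0 (by rw [hQ, mul_zero])
      have hQd : Q.natDegree + 1 = P.natDegree := by
        rw [hQ, Polynomial.natDegree_mul (Polynomial.X_sub_C_ne_zero r) hQ0,
          Polynomial.natDegree_X_sub_C, add_comm]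
      have hQk : Q.coeff (κ + 1) = 0 := Polynomial.coeff_eq_zero_of_natDegree_lt (by omega)
      have hrel0 : P.coeff 0 = - (r * Q.coeff 0) := by
        rw [hQ, Polynomial.mul_coeff_zero, Polynomial.coeff_sub, Polynomial.coeff_X_zero,
          Polynomial.coeff_C_zero]
        ring
      have hrel : ∀ a, P.coeff (a + 1) = Q.coeff a - r * Q.coeff (a + 1) := by
        intro a
        rw [hQ, sub_mul, Polynomial.coeff_sub, Polynomial.coeff_X_mul, Polynomial.coeff_C_mul]
      have hsum : ∑ a ∈ Finset.range (κ + 1 + 1), algebraMap K A (c a) * (u ^ a * w ^ (κ + 1 - a)) =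
          (u - algebraMap K A r * w) * ∑ a ∈ Finset.range (κ + 1),
            algebraMap K A (Q.coeff a) * (u ^ a * w ^ (κ - a)) := by
        rw [← GBin_fac u w κ (fun a => P.coeff a) (fun a => Q.coeff a) r hQk hrel0 hrel]
        refine Finset.sum_congr rfl fun a ha => ?_
        rw [hcoef, if_pos (Finset.mem_range.1 ha)]
      rw [hsum] at h
      rcases hF.dvd_or_dvd h with h1 | h1
      · refine ⟨1, -r, Or.inl one_ne_zero, ?_⟩
        rwa [map_one, one_mul, map_neg, neg_mul, ← sub_eq_add_neg]
      · refine ih (fun a => Q.coeff a) ⟨κ, Finset.self_mem_range_succ κ, ?_⟩ h1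
        have hlead : Q.coeff Q.natDegree ≠ 0 := Polynomial.leadingCoeff_ne_zero.2 hQ0
        have : Q.natDegree = κ := by omega
        rwa [this] at hlead

end Pool.MP_70e04f_ag.Strip

end
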