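import Pool.Agent.Lib_MP_70e04f_m.M03
import Pool.Agent.Lib_MP_70e04f_m.M17

/-!
# MP_70e04f_ag, plane linear systems: merged library part M18

Concatenation of smaller files (each in its own section), only to save build time.
-/

/-! ### from `Lib_MP_70e04f_strip.SDefs` -/

section

/-!
# The strip theorem (SHGH outside a strip around the light cone): definitions

Everything happens in the polynomial ring `A2 k = k[x, y]` of a field `k`.  `mp q` is the maximal
ideal of the point `q`, `Pt k t` the space of polynomials of degree `≤ t`, `Iz p β` the ideal of the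
polynomials with multiplicity `≥ β i` at `p i`, `pr F` the principal ideal of `F`.  For an ideal `a`
of finite codimension `Ind t a` says that the conditions of `a` are independent on `Pt k t`, and
`cod t a` is the defect (`Ind t a ↔ cod t a = 0`).  See `Blueprint.md`.
-/

set_option autoImplicit false

namespace Pool.MP_70e04f_ag.Strip

open MvPolynomial

variable {k : Type*} [Field k]

/-- polynomials in two variables -/
abbrev A2 (k : Type*) [Field k] : Type _ := MvPolynomial (Fin 2) k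

/-- the maximal ideal of the point `q` -/
noncomputable def mp (q : Fin 2 → k) : Ideal (A2 k) := RingHom.ker (MvPolynomial.eval q)

/-- polynomials of degree `≤ t` -/
noncomputable def Pt (k : Type*) [Field k] (t : ℕ) : Submodule k (A2 k) :=
  restrictTotalDegree (Fin 2) k t

/-- an ideal as a subspace -/
noncomputable def sp (a : Ideal (A2 k)) : Submodule k (A2 k) := a.restrictScalars k

/-- the principal ideal of `F` -/
noncomputable def pr (F : A2 k) : Ideal (A2 k) := Ideal.span {F}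

/-- polynomials with multiplicity `≥ β i` at `p i` -/
noncomputable def Iz {n : ℕ} (p : Fin n → Fin 2 → k) (β : Fin n → ℕ) : Ideal (A2 k) :=
  ⨅ i, mp (p i) ^ β i

/-- `P_t + a` -/
noncomputable def PA (t : ℕ) (a : Ideal (A2 k)) : Submodule k (A2 k) := Pt k t ⊔ sp a

/-- the conditions of the ideal `a` are independent on the polynomials of degree `≤ t` -/
def Ind (t : ℕ) (a : Ideal (A2 k)) : Prop := PA t a = ⊤

/-- the number of conditions of `a` -/
noncomputable def len (a : Ideal (A2 k)) : ℕ := Module.finrank k (A2 k ⧸ sp a)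

/-- the defect of the conditions of `a` on the polynomials of degree `≤ t` -/
noncomputable def cod (t : ℕ) (a : Ideal (A2 k)) : ℕ := Module.finrank k (A2 k ⧸ PA t a)

/-- `a` has finite codimension -/
def FinC (a : Ideal (A2 k)) : Prop := Module.Finite k (A2 k ⧸ sp a)

/-- the number of elements of `a` of degree `≤ t` which are independent modulo `F` -/
noncomputable def sec (t : ℕ) (a : Ideal (A2 k)) (F : A2 k) : ℕ :=
  Module.finrank k ↥((Pt k t ⊓ sp a).map (sp (pr F)).mkQ)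

/-- the multiplicity of `F` at `q` -/
noncomputable def mu (q : Fin 2 → k) (F : A2 k) : ℕ := sSup {a | F ∈ mp q ^ a}

/-- the intersection number of the class `(D; M)` with the curve `F` -/
noncomputable def dotp {n : ℕ} (D : ℕ) (M : Fin n → ℕ) (p : Fin n → Fin 2 → k) (F : A2 k) : ℤ :=
  (D : ℤ) * F.totalDegree - ∑ i, (M i : ℤ) * mu (p i) F

/-! ### trivial lemmas -/

theorem mem_Pt {t : ℕ} {f : A2 k} : f ∈ Pt k t ↔ f.totalDegree ≤ t :=
  mem_restrictTotalDegree (Fin 2) t f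

theorem Pt_mono {s t : ℕ} (h : s ≤ t) : Pt k s ≤ Pt k t := fun _ hf =>
  mem_Pt.2 ((mem_Pt.1 hf).trans h)

theorem mul_mem_Pt {s t : ℕ} {f g : A2 k} (hf : f ∈ Pt k s) (hg : g ∈ Pt k t) :
    f * g ∈ Pt k (s + t) :=
  mem_Pt.2 ((totalDegree_mul f g).trans (Nat.add_le_add (mem_Pt.1 hf) (mem_Pt.1 hg)))

instance (t : ℕ) : Module.Finite k ↥(Pt k t) := by
  unfold Pt; infer_instance

theorem mem_sp {a : Ideal (A2 k)} {f : A2 k} : f ∈ sp a ↔ f ∈ a := Iff.rfl

theorem sp_mono {a b : Ideal (A2 k)} (h : a ≤ b) : sp a ≤ sp b := fun _ hf => h hf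

theorem sp_sup (a b : Ideal (A2 k)) : sp (a ⊔ b) = sp a ⊔ sp b := by
  ext f
  rw [mem_sp, Submodule.mem_sup, Submodule.mem_sup]
  rfl

theorem mem_pr {F f : A2 k} : f ∈ pr F ↔ F ∣ f := Ideal.mem_span_singleton

theorem self_mem_pr (F : A2 k) : F ∈ pr F := mem_pr.2 dvd_rfl

theorem mem_Iz {n : ℕ} {p : Fin n → Fin 2 → k} {β : Fin n → ℕ} {f : A2 k} :
    f ∈ Iz p β ↔ ∀ i, f ∈ mp (p i) ^ β i := by
  unfold Iz; rw [Ideal.mem_iInf]

theorem Iz_mono {n : ℕ} {p : Fin n → Fin 2 → k} {β γ : Fin n → ℕ} (h : ∀ i, γ i ≤ β i) :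
    Iz p β ≤ Iz p γ := fun _ hf => mem_Iz.2 fun i => Ideal.pow_le_pow_right (h i) (mem_Iz.1 hf i)

theorem Iz_mul_mem {n : ℕ} {p : Fin n → Fin 2 → k} {β γ : Fin n → ℕ} {f g : A2 k}
    (hf : f ∈ Iz p β) (hg : g ∈ Iz p γ) : f * g ∈ Iz p (fun i => β i + γ i) := by
  rw [mem_Iz] at *
  intro i
  rw [pow_add]
  exact Ideal.mul_mem_mul (hf i) (hg i)

/-- membership by Taylor coefficients -/
theorem mem_mp_pow {q : Fin 2 → k} {m : ℕ} {f : A2 k} :
    f ∈ mp q ^ m ↔ ∀ a b : ℕ, a + b < m → coeff (mon a b) (shift q f) = 0 := by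
  unfold mp
  rw [mem_ker_pow_iff]
  constructor
  · intro h a b hab
    exact h (a, b) (mem_tri.2 hab)
  · intro h r hr
    exact h r.1 r.2 (mem_tri.1 hr)

theorem mem_mp {q : Fin 2 → k} {f : A2 k} : f ∈ mp q ↔ eval q f = 0 := RingHom.mem_ker

theorem PA_mono {s t : ℕ} {a b : Ideal (A2 k)} (h : s ≤ t) (hab : a ≤ b) : PA s a ≤ PA t b :=
  sup_le_sup (Pt_mono h) (sp_mono hab)

theorem Ind.mono {s t : ℕ} {a b : Ideal (A2 k)} (hi : Ind s a) (h : s ≤ t) (hab : a ≤ b) :
    Ind t b := by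
  unfold Ind at *
  rw [eq_top_iff] at *
  exact hi.trans (PA_mono h hab)

theorem Ind.exists {t : ℕ} {a : Ideal (A2 k)} (hi : Ind t a) (f : A2 k) :
    ∃ g ∈ Pt k t, ∃ h ∈ a, g + h = f := by
  have : f ∈ PA t a := by rw [hi]; trivial
  unfold PA at this
  rw [Submodule.mem_sup] at this
  obtain ⟨g, hg, h, hh, e⟩ := this
  exact ⟨g, hg, h, hh, e⟩

theorem ind_iff {t : ℕ} {a : Ideal (A2 k)} :
    Ind t a ↔ ∀ f : A2 k, ∃ g ∈ Pt k t, ∃ h ∈ a, g + h = f := by
  constructor
  · exact fun h f => h.exists f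
  · intro h
    unfold Ind
    rw [eq_top_iff]
    intro f _
    obtain ⟨g, hg, h', hh, e⟩ := h f
    unfold PA
    rw [← e]
    exact Submodule.add_mem_sup hg hh

theorem FinC.mono {a b : Ideal (A2 k)} (ha : FinC a) (h : a ≤ b) : FinC b := by
  unfold FinC at *
  exact Module.Finite.of_surjective (Submodule.factor (sp_mono h)) (Submodule.factor_surjective _)

theorem FinC.cod_finite {a : Ideal (A2 k)} (ha : FinC a) (t : ℕ) :
    Module.Finite k (A2 k ⧸ PA t a) := by
  unfold FinC at ha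
  have h : sp a ≤ PA t a := le_sup_right
  exact Module.Finite.of_surjective (Submodule.factor h) (Submodule.factor_surjective _)

theorem FinC.cod_eq_zero {a : Ideal (A2 k)} (ha : FinC a) (t : ℕ) : cod t a = 0 ↔ Ind t a := by
  have := ha.cod_finite t
  unfold cod Ind
  rw [Module.finrank_zero_iff, Submodule.Quotient.subsingleton_iff]

end Pool.MP_70e04f_ag.Strip

end

/-! ### from `Lib_MP_70e04f_strip.SMu` -/

section

/-!
# Piece SMU: multiplicities

Everything follows from the Taylor coefficients (`mem_mp_pow`): `F ∈ mp q ^ a` iff all coefficients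
of degree `< a` of `shift q F` vanish.  `shift q` is an automorphism (`shift_shift_neg`) and does not
raise the total degree.
-/

set_option autoImplicit false

namespace Pool.MP_70e04f_ag.Strip

open MvPolynomial

variable {k : Type*} [Field k]

/-- the order of the Taylor series -/
noncomputable def SMu_o (q : Fin 2 → k) (F : A2 k) : ℕ∞ :=
  MvPowerSeries.order ((shift q F : A2 k) : MvPowerSeries (Fin 2) k)

theorem SMu_mem_iff {q : Fin 2 → k} {F : A2 k} {a : ℕ} :
    F ∈ mp q ^ a ↔ (a : ℕ∞) ≤ SMu_o q F := by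
  unfold SMu_o
  rw [mem_mp_pow]
  constructor
  · intro h
    apply MvPowerSeries.nat_le_order
    intro s hs
    rw [MvPolynomial.coeff_coe, ← mon_eta s]
    apply h
    rw [← mon_eta s, degree_mon] at hs
    exact hs
  · intro h b c hbc
    rw [← MvPolynomial.coeff_coe]
    apply MvPowerSeries.coeff_of_lt_order
    rw [degree_mon]
    exact lt_of_lt_of_le (by exact_mod_cast hbc) h

theorem SMu_shift_ne {q : Fin 2 → k} {F : A2 k} (hF : F ≠ 0) : shift q F ≠ 0 := by
  intro h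
  apply hF
  rw [← shift_shift_neg q F, h, map_zero]

theorem SMu_deg_shift {q : Fin 2 → k} (F : A2 k) :
    (shift q F).totalDegree ≤ F.totalDegree := by
  unfold shift
  rw [MvPolynomial.aeval_def, MvPolynomial.eval₂_eq]
  refine (totalDegree_finset_sum _ _).trans ?_
  apply Finset.sup_le
  intro s hs
  refine (totalDegree_mul _ _).trans ?_
  have h1 : (algebraMap k (A2 k) (coeff s F)).totalDegree = 0 := by
    rw [MvPolynomial.algebraMap_eq, totalDegree_C]
  rw [h1, zero_add]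
  refine (totalDegree_finset_prod _ _).trans ?_
  refine le_trans (Finset.sum_le_sum (g := fun i => s i) ?_) ?_
  · intro i _
    refine (totalDegree_pow _ _).trans ?_
    have : (X i + C (q i) : A2 k).totalDegree ≤ 1 := by
      refine (totalDegree_add _ _).trans ?_
      rw [totalDegree_C]
      simp [totalDegree_X]
    calc s i * (X i + C (q i) : A2 k).totalDegree ≤ s i * 1 := Nat.mul_le_mul_left _ this
      _ = s i := mul_one _
  · exact le_totalDegree hs

/-- the powers of `mp q` which contain `F ≠ 0` are bounded by the degree. -/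
theorem le_deg_of_mem {q : Fin 2 → k} {F : A2 k} (hF : F ≠ 0) {a : ℕ} (h : F ∈ mp q ^ a) :
    a ≤ F.totalDegree := by
  by_contra hcon
  push Not at hcon
  apply SMu_shift_ne (q := q) hF
  ext s
  rw [coeff_zero]
  by_cases hs : s.degree < a
  · rw [mem_mp_pow] at h
    rw [← mon_eta s, degree_mon] at hs
    rw [← mon_eta s]
    exact h _ _ hs
  · apply coeff_eq_zero_of_totalDegree_lt
    refine lt_of_le_of_lt (SMu_deg_shift F) (hcon.trans_le ?_)
    push Not at hs
    exact hs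

/-- PROOF. `mu q F` is the supremum of a nonempty (`a = 0`) set, bounded by `le_deg_of_mem`, which is
closed downwards (`Ideal.pow_le_pow_right`); `Nat.sSup_mem`. -/
theorem mem_iff_le_mu {q : Fin 2 → k} {F : A2 k} (hF : F ≠ 0) (a : ℕ) :
    F ∈ mp q ^ a ↔ a ≤ mu q F := by
  have hb : BddAbove {a | F ∈ mp q ^ a} := ⟨F.totalDegree, fun a ha => le_deg_of_mem hF ha⟩
  constructor
  · intro h
    exact le_csSup hb h
  · intro h
    have h1 : mu q F ∈ {a | F ∈ mp q ^ a} := Nat.sSup_mem ⟨0, by simp⟩ hb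
    exact Ideal.pow_le_pow_right h h1

theorem mu_le_deg {q : Fin 2 → k} {F : A2 k} (hF : F ≠ 0) : mu q F ≤ F.totalDegree :=
  le_deg_of_mem hF ((mem_iff_le_mu hF _).2 le_rfl)

theorem SMu_o_eq {q : Fin 2 → k} {F : A2 k} (hF : F ≠ 0) : SMu_o q F = (mu q F : ℕ∞) := by
  apply le_antisymm
  · by_contra hcon
    push Not at hcon
    have h1 : ((mu q F + 1 : ℕ) : ℕ∞) ≤ SMu_o q F := by
      push_cast
      exact Order.add_one_le_of_lt hcon
    have h2 := (mem_iff_le_mu hF _).1 (SMu_mem_iff.2 h1)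
    omega
  · exact SMu_mem_iff.1 ((mem_iff_le_mu hF _).2 le_rfl)

theorem mu_mul {q : Fin 2 → k} {F G : A2 k} (hF : F ≠ 0) (hG : G ≠ 0) :
    mu q (F * G) = mu q F + mu q G := by
  have h : SMu_o q (F * G) = SMu_o q F + SMu_o q G := by
    unfold SMu_o
    rw [map_mul, MvPolynomial.coe_mul, MvPowerSeries.order_mul]
  rw [SMu_o_eq hF, SMu_o_eq hG, SMu_o_eq (mul_ne_zero hF hG)] at h
  exact_mod_cast h

/-- PROOF. trivial for `g = 0`; otherwise `mem_iff_le_mu` and `mu_mul`. -/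
theorem mem_of_mul_mem {q : Fin 2 → k} {F g : A2 k} (hF : F ≠ 0) {b : ℕ}
    (h : F * g ∈ mp q ^ b) : g ∈ mp q ^ (b - mu q F) := by
  by_cases hg : g = 0
  · rw [hg]; exact Ideal.zero_mem _
  rw [mem_iff_le_mu (mul_ne_zero hF hg), mu_mul hF hg] at h
  rw [mem_iff_le_mu hg]
  omega

theorem one_le_mu {q : Fin 2 → k} {F : A2 k} (hF : F ≠ 0) : 1 ≤ mu q F ↔ F ∈ mp q := by
  rw [← mem_iff_le_mu hF, pow_one]

/-- a nonzero constant has multiplicity zero -/
theorem mu_C {q : Fin 2 → k} {c : k} (hc : c ≠ 0) : mu q (C c : A2 k) = 0 := by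
  have h := mu_le_deg (q := q) (F := (C c : A2 k)) (by rwa [Ne, C_eq_zero])
  rw [totalDegree_C] at h
  omega

/-- some coefficient of degree `mu q F` of `shift q F` is not zero -/
theorem exists_coeff_ne {q : Fin 2 → k} {F : A2 k} (hF : F ≠ 0) :
    ∃ a b : ℕ, a + b = mu q F ∧ coeff (mon a b) (shift q F) ≠ 0 := by
  by_contra hcon
  push Not at hcon
  have h : F ∈ mp q ^ (mu q F + 1) := by
    rw [mem_mp_pow]
    intro a b hab
    rcases Nat.lt_or_ge (a + b) (mu q F) with h1 | h1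
    · exact mem_mp_pow.1 ((mem_iff_le_mu hF _).2 le_rfl) a b h1
    · exact hcon a b (by omega)
  have := (mem_iff_le_mu hF _).1 h
  omega

end Pool.MP_70e04f_ag.Strip

end

/-! ### from `Lib_MP_70e04f_nine.Deg` -/

section

/-!
# The self-intersection is large when the degree is
-/

namespace Pool.MP_70e04f_ag.Nine

lemma sq_of_deg {ν : ℕ → ℕ} (hν : Antitone ν) {m d : ℕ} (hm9 : m ≤ ν 8)
    (hd : ν 0 + ν 1 + ν 2 ≤ d)
    (hK : ν 0 + ν 1 + ν 2 + ν 3 + ν 4 + ν 5 + ν 6 + ν 7 + ν 8 + 18 * m < 3 * d)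
    (hbig : 780 * m ^ 2 ≤ d) :
    ν 0 ^ 2 + ν 1 ^ 2 + ν 2 ^ 2 + ν 3 ^ 2 + ν 4 ^ 2 + ν 5 ^ 2 + ν 6 ^ 2 + ν 7 ^ 2 +
      ν 8 ^ 2 + 3100 * m ^ 3 ≤ d ^ 2 := by
  have a0 := hν (show 0 ≤ 1 by norm_num)
  have a1 := hν (show 1 ≤ 2 by norm_num)
  have h := fun j (hj : 2 ≤ j) => hν hj
  obtain ⟨S, hS⟩ : ∃ S, S = ν 2 := ⟨_, rfl⟩
  have key : ∀ j, 2 ≤ j → ν j ^ 2 + (S - ν j) * S ≤ S ^ 2 := by
    intro j hj
    have h1 := h j hj
    rw [← hS] at h1
    obtain ⟨p, hp⟩ : ∃ p, S = ν j + p := ⟨S - ν j, by omega⟩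
    rw [hp, Nat.add_sub_cancel_left]
    have e : (ν j + p) ^ 2 = ν j ^ 2 + p * (ν j + p) + ν j * p := by ring
    rw [e]
    exact Nat.le_add_right _ _
  have k3 := key 3 (by norm_num)
  have k4 := key 4 (by norm_num)
  have k5 := key 5 (by norm_num)
  have k6 := key 6 (by norm_num)
  have k7 := key 7 (by norm_num)
  have k8 := key 8 (by norm_num)
  have l3 := h 3 (by norm_num)
  have l4 := h 4 (by norm_num)
  have l5 := h 5 (by norm_num)
  have l6 := h 6 (by norm_num)
  have l7 := h 7 (by norm_num)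
  have l8 := h 8 (by norm_num)
  rw [← hS] at l3 l4 l5 l6 l7 l8 a1 hd hK
  obtain ⟨k, hk⟩ : ∃ k, k = (S - ν 3) + (S - ν 4) + (S - ν 5) + (S - ν 6) + (S - ν 7) +
    (S - ν 8) := ⟨_, rfl⟩
  have k9 : ν 3 ^ 2 + ν 4 ^ 2 + ν 5 ^ 2 + ν 6 ^ 2 + ν 7 ^ 2 + ν 8 ^ 2 + k * S ≤ 6 * S ^ 2 := by
    have e : k * S = (S - ν 3) * S + (S - ν 4) * S + (S - ν 5) * S + (S - ν 6) * S +
        (S - ν 7) * S + (S - ν 8) * S := by rw [hk]; ring
    omega
  have k10 : ν 3 + ν 4 + ν 5 + ν 6 + ν 7 + ν 8 + k = 6 * S := by omega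
  obtain ⟨b, hb⟩ : ∃ b, ν 1 = S + b := ⟨ν 1 - S, by omega⟩
  obtain ⟨a, ha⟩ : ∃ a, ν 0 = S + b + a := ⟨ν 0 - ν 1, by omega⟩
  obtain ⟨g, hg⟩ : ∃ g, d = ν 0 + ν 1 + S + g := ⟨d - (ν 0 + ν 1 + S), by omega⟩
  have hmS : m ≤ S := by omega
  have hdd : d = 3 * S + (a + 2 * b + g) := by omega
  have hκ : 18 * m < 3 * g + 2 * a + 4 * b + k := by omega
  have hD : ν 0 ^ 2 + ν 1 ^ 2 + S ^ 2 + 6 * S ^ 2 + 4 * (a + 2 * b + g) * S ≤ d ^ 2 := by
    rw [hg, ha, hb]
    have e : (S + b + a + (S + b) + S + g) ^ 2 = (S + b + a) ^ 2 + (S + b) ^ 2 + S ^ 2 +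
        6 * S ^ 2 + 4 * (a + 2 * b + g) * S +
        (g ^ 2 + 2 * g * S + 4 * g * b + 2 * g * a + 2 * b ^ 2 + 2 * a * b) := by ring
    rw [e]
    exact Nat.le_add_right _ _
  rw [← hS]
  clear key hν h k3 k4 k5 k6 k7 k8
  suffices hmain : 3100 * m ^ 3 ≤ 4 * (a + 2 * b + g) * S + k * S by omega
  obtain ⟨u, hu⟩ : ∃ u, u = a + 2 * b + g := ⟨_, rfl⟩
  rw [← hu] at hdd ⊢
  rcases Nat.lt_or_ge S (173 * m ^ 2) with hlt | hge
  · have h1 : 780 * m ^ 2 ≤ 3 * S + u := by omega
    have h2 : 3100 * m ^ 3 ≤ 4 * u * S := by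
      zify at *
      have h3 : (0 : ℤ) ≤ ((S : ℤ) - m) * (173 * (m : ℤ) ^ 2 - S) :=
        mul_nonneg (by linarith) (by linarith)
      have h4 : (780 * (m : ℤ) ^ 2 - 3 * S) * S ≤ u * S :=
        mul_le_mul_of_nonneg_right (by linarith) (by positivity)
      have h5 : (0 : ℤ) ≤ ((S : ℤ) - m) * (261 * (m : ℤ) ^ 2 - 3 * m) := by
        apply mul_nonneg (by linarith)
        have h8 : (m : ℤ) ≤ (m : ℤ) ^ 2 := by
          exact_mod_cast Nat.le_self_pow (by norm_num) m
        have h9 : (0 : ℤ) ≤ (m : ℤ) ^ 2 := by positivity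
        linarith
      have h6 : (m : ℤ) ^ 2 ≤ (m : ℤ) ^ 3 := by
        rcases Nat.eq_zero_or_pos m with h0 | h0
        · rw [h0]; norm_num
        · exact pow_le_pow_right₀ (by exact_mod_cast h0) (by norm_num)
      have h7 : (0 : ℤ) ≤ (m : ℤ) ^ 3 := by positivity
      have e1 : (780 * (m : ℤ) ^ 2 - 3 * S) * S = 3 * (((S : ℤ) - m) * (173 * (m : ℤ) ^ 2 - S)) +
          ((S : ℤ) - m) * (261 * (m : ℤ) ^ 2 - 3 * m) + 780 * (m : ℤ) ^ 3 - 3 * (m : ℤ) ^ 2 := by
        ring
      have e2 : 4 * (u : ℤ) * S = 4 * (u * S) := by ring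
      rw [e2]
      linarith
    exact h2.trans (Nat.le_add_right _ _)
  · have h1 : 18 * m * (173 * m ^ 2) ≤ (4 * u + k) * S := Nat.mul_le_mul (by omega) hge
    have h2 : (4 * u + k) * S = 4 * u * S + k * S := by ring
    have h3 : 18 * m * (173 * m ^ 2) = 3114 * m ^ 3 := by ring
    omega

end Pool.MP_70e04f_ag.Nine

end

/-! ### from `Lib_MP_70e04f_strip.SDerA` -/

section

/-!
# Piece SDERA: derivations of the coefficients and Taylor expansions

`R` is a commutative ring, `δ` a derivation of `R`. `mapDer δ` applies `δ` to the coefficients of a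
polynomial in two variables over `R`.
-/

set_option autoImplicit false

namespace Pool.MP_70e04f_ag.Strip

open MvPolynomial

variable {R : Type*} [CommRing R]

/-- apply `δ` to the coefficients -/
noncomputable def mapDer (δ : Derivation ℤ R R) (f : MvPolynomial (Fin 2) R) :
    MvPolynomial (Fin 2) R :=
  ∑ s ∈ f.support, monomial s (δ (coeff s f))

theorem coeff_mapDer (δ : Derivation ℤ R R) (f : MvPolynomial (Fin 2) R) (s : Fin 2 →₀ ℕ) :
    coeff s (mapDer δ f) = δ (coeff s f) := by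
  classical
  unfold mapDer
  rw [coeff_sum]
  simp only [coeff_monomial]
  rw [Finset.sum_ite_eq']
  split_ifs with h
  · rfl
  · rw [notMem_support_iff.1 h, map_zero]

theorem mapDer_add (δ : Derivation ℤ R R) (f g : MvPolynomial (Fin 2) R) :
    mapDer δ (f + g) = mapDer δ f + mapDer δ g := by
  ext s
  simp only [coeff_mapDer, coeff_add, map_add]

/-- PROOF. Compare coefficients (`coeff_mul`). -/
theorem mapDer_mul (δ : Derivation ℤ R R) (f g : MvPolynomial (Fin 2) R) :
    mapDer δ (f * g) = mapDer δ f * g + f * mapDer δ g := by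
  classical
  ext s
  rw [coeff_mapDer, coeff_add, coeff_mul, coeff_mul, coeff_mul, map_sum,
    ← Finset.sum_add_distrib]
  refine Finset.sum_congr rfl fun x _ => ?_
  rw [coeff_mapDer, coeff_mapDer, Derivation.leibniz, smul_eq_mul, smul_eq_mul]
  ring

theorem SDerA_mapDer_C (δ : Derivation ℤ R R) (r : R) :
    mapDer δ (C r : MvPolynomial (Fin 2) R) = C (δ r) := by
  classical
  ext s
  rw [coeff_mapDer, coeff_C, coeff_C]
  split_ifs <;> simp

theorem SDerA_mapDer_X (δ : Derivation ℤ R R) (i : Fin 2) :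
    mapDer δ (X i : MvPolynomial (Fin 2) R) = 0 := by
  classical
  ext s
  rw [coeff_mapDer, coeff_X]
  split_ifs <;> simp

theorem totalDegree_mapDer_le (δ : Derivation ℤ R R) (f : MvPolynomial (Fin 2) R) :
    (mapDer δ f).totalDegree ≤ f.totalDegree := by
  apply totalDegree_le_of_support_subset
  intro s hs
  rw [mem_support_iff] at hs ⊢
  intro h
  apply hs
  rw [coeff_mapDer, h, map_zero]

/-- The chain rule: derivative of a Taylor expansion with moving center.
PROOF. Both sides are additive in `f`, and if the formula holds for `f` and `g` it holds for `f g`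
(`mapDer_mul`, Leibniz for `pderiv`, `shift q (f g) = shift q f * shift q g`). So it is enough to check it
for constants `C r` (`mapDer δ (C r) = C (δ r)`, `pderiv` is zero) and for `X c`
(`shift q (X c) = X c + C (q c)`, `mapDer δ (X c) = 0`). `MvPolynomial.induction_on`. -/
theorem mapDer_shift (δ : Derivation ℤ R R) (q : Fin 2 → R) (f : MvPolynomial (Fin 2) R) :
    mapDer δ (shift q f) = shift q (mapDer δ f) + C (δ (q 0)) * pderiv 0 (shift q f)
      + C (δ (q 1)) * pderiv 1 (shift q f) := by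
  have hC : ∀ a : R, shift q (C a : MvPolynomial (Fin 2) R) = C a := fun a => by
    simp [shift]
  have hX : ∀ i, shift q (X i : MvPolynomial (Fin 2) R) = X i + C (q i) := fun i => by
    simp [shift]
  induction f using MvPolynomial.induction_on with
  | C a =>
    rw [hC, SDerA_mapDer_C, hC, pderiv_C, pderiv_C]
    ring
  | add f g hf hg =>
    rw [map_add, mapDer_add, hf, hg, mapDer_add, map_add, map_add, map_add]
    ring
  | mul_X f i hf =>
    rw [map_mul, mapDer_mul, hf, mapDer_mul, SDerA_mapDer_X, mul_zero, add_zero, map_mul, hX,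
      mapDer_add, SDerA_mapDer_X, SDerA_mapDer_C, pderiv_mul, pderiv_mul, map_add, map_add,
      pderiv_C, pderiv_C]
    fin_cases i
    · simp only [Fin.zero_eta, pderiv_X_self, pderiv_X_of_ne (show (0 : Fin 2) ≠ 1 by decide)]
      ring
    · simp only [Fin.mk_one, pderiv_X_self, pderiv_X_of_ne (show (1 : Fin 2) ≠ 0 by decide)]
      ring

/-- PROOF. `coeff_pderiv`-type computation on monomials. -/
theorem coeff_pderiv_zero (f : MvPolynomial (Fin 2) R) (a b : ℕ) :
    coeff (mon a b) (pderiv 0 f) = ((a : R) + 1) * coeff (mon (a + 1) b) f := by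
  rw [coeff_pderiv]
  have h1 : mon a b + Finsupp.single 0 1 = mon (a + 1) b := by
    unfold mon
    rw [Finsupp.single_add]
    abel
  rw [h1, mon_zero']
  ring

theorem coeff_pderiv_one (f : MvPolynomial (Fin 2) R) (a b : ℕ) :
    coeff (mon a b) (pderiv 1 f) = ((b : R) + 1) * coeff (mon a (b + 1)) f := by
  rw [coeff_pderiv]
  have h1 : mon a b + Finsupp.single 1 1 = mon a (b + 1) := by
    unfold mon
    rw [Finsupp.single_add]
    abel
  rw [h1, mon_one']
  ring

end Pool.MP_70e04f_ag.Strip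

end

/-! ### from `Lib_MP_70e04f_strip.SDer` -/

section

/-!
# Piece SDER: generic points over the prime field, and derivatives of a curve

`RR n ℓ` is the polynomial ring over `ZMod ℓ` in the coordinates of `n` generic points, `KK n ℓ` its
fraction field and `gp n ℓ i` the `i`-th generic point.
-/

set_option autoImplicit false

namespace Pool.MP_70e04f_ag.Strip

open MvPolynomial

/-- the ring of the coordinates of `n` generic points -/
abbrev RR (n ℓ : ℕ) : Type := MvPolynomial (Fin n × Fin 2) (ZMod ℓ)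

/-- its fraction field -/
abbrev KK (n ℓ : ℕ) [Fact ℓ.Prime] : Type := FractionRing (RR n ℓ)

/-- the generic points -/
noncomputable def gp (n ℓ : ℕ) [Fact ℓ.Prime] (i : Fin n) (c : Fin 2) : KK n ℓ :=
  algebraMap (RR n ℓ) (KK n ℓ) (X (i, c))

theorem gp_inj (n ℓ : ℕ) [Fact ℓ.Prime] : Function.Injective (gp n ℓ) := by
  intro i j h
  have h1 := congrFun h 0
  unfold gp at h1
  have h2 := IsFractionRing.injective (RR n ℓ) (KK n ℓ) h1
  have h3 := MvPolynomial.X_injective h2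
  exact congrArg Prod.fst h3

/-- PROOF. `ZMod ℓ` embeds into `KK n ℓ`. -/
theorem charP_KK (n ℓ : ℕ) [Fact ℓ.Prime] : CharP (KK n ℓ) ℓ := by
  exact charP_of_injective_algebraMap (IsFractionRing.injective (RR n ℓ) (KK n ℓ)) ℓ

/-- PROOF. The powers of `gp n ℓ i 0` are different. -/
theorem infinite_KK {n : ℕ} (ℓ : ℕ) [Fact ℓ.Prime] (hn : 0 < n) : Infinite (KK n ℓ) := by
  have : Nonempty (Fin n × Fin 2) := ⟨(⟨0, hn⟩, 0)⟩
  exact Infinite.of_injective _ (IsFractionRing.injective (RR n ℓ) (KK n ℓ))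

/-- PROOF. `CharP.cast_eq_zero_iff`. -/
theorem cast_ne_zero_KK {n ℓ : ℕ} [Fact ℓ.Prime] {a : ℕ} (h1 : 1 ≤ a) (h2 : a < ℓ) :
    (a : KK n ℓ) ≠ 0 := by
  have := charP_KK n ℓ
  rw [Ne, CharP.cast_eq_zero_iff (KK n ℓ) ℓ]
  intro h
  have := Nat.le_of_dvd (by omega) h
  omega

/-- Common denominators.
PROOF. `IsLocalization.exist_integer_multiples_of_finset` (or `_of_finite`) for the coefficients. -/
theorem clear_denom {n ℓ : ℕ} [Fact ℓ.Prime] (F : A2 (KK n ℓ)) :
    ∃ (c : RR n ℓ) (f : MvPolynomial (Fin 2) (RR n ℓ)), c ≠ 0 ∧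
      map (algebraMap (RR n ℓ) (KK n ℓ)) f = C (algebraMap (RR n ℓ) (KK n ℓ) c) * F := by
  classical
  obtain ⟨b, hb⟩ := IsLocalization.exist_integer_multiples_of_finset (nonZeroDivisors (RR n ℓ))
    (F.support.image fun s => coeff s F)
  have h1 : ∀ s : Fin 2 →₀ ℕ, ∃ r : RR n ℓ, algebraMap (RR n ℓ) (KK n ℓ) r =
      algebraMap (RR n ℓ) (KK n ℓ) b * coeff s F := by
    intro s
    by_cases hs : s ∈ F.support
    · obtain ⟨r, hr⟩ := hb _ (Finset.mem_image_of_mem _ hs)
      exact ⟨r, by rw [hr, Algebra.smul_def]⟩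
    · rw [notMem_support_iff] at hs
      exact ⟨0, by rw [hs, mul_zero, map_zero]⟩
  choose r hr using h1
  refine ⟨b, ∑ s ∈ F.support, monomial s (r s), nonZeroDivisors.ne_zero b.2, ?_⟩
  rw [map_sum]
  conv_rhs => rw [F.as_sum, Finset.mul_sum]
  refine Finset.sum_congr rfl fun s _ => ?_
  rw [map_monomial, hr, C_mul_monomial]

private noncomputable def SDer_d {n : ℕ} (ℓ : ℕ) (j : Fin n) (w : Fin 2) :
    Derivation ℤ (RR n ℓ) (RR n ℓ) :=
  (pderiv (R := ZMod ℓ) (j, w)).restrictScalars ℤ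

private theorem SDer_d_ne {n ℓ : ℕ} {i j : Fin n} (h : i ≠ j) {w c : Fin 2} :
    SDer_d ℓ j w (X (i, c)) = 0 := by
  have h1 : SDer_d ℓ j w (X (i, c)) = pderiv (R := ZMod ℓ) (j, w) (X (i, c)) := rfl
  rw [h1, pderiv_X_of_ne]
  intro he
  exact h (congrArg Prod.fst he)

private theorem SDer_d_eq {n ℓ : ℕ} {j : Fin n} {w c : Fin 2} :
    SDer_d ℓ j w (X (j, c)) = if w = c then 1 else 0 := by
  have h1 : SDer_d ℓ j w (X (j, c)) = pderiv (R := ZMod ℓ) (j, w) (X (j, c)) := rfl
  rw [h1]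
  split_ifs with h
  · rw [h, pderiv_X_self]
  · rw [pderiv_X_of_ne]
    intro he
    exact h (congrArg Prod.snd he).symm

private theorem SDer_shift_C {R : Type*} [CommRing R] (q : Fin 2 → R) (r : R) :
    shift q (C r) = C r := by
  unfold shift
  rw [aeval_C]
  rfl

private theorem SDer_map_shift {R S : Type*} [CommRing R] [CommRing S] (φ : R →+* S) (q : Fin 2 → R)
    (f : MvPolynomial (Fin 2) R) :
    map φ (shift q f) = shift (fun c => φ (q c)) (map φ f) := by
  induction f using MvPolynomial.induction_on with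
  | C a => rw [SDer_shift_C, map_C, SDer_shift_C]
  | add p q hp hq => simp only [map_add, hp, hq]
  | mul_X p i hp =>
    rw [map_mul, map_mul, hp, map_mul, map_mul, map_X]
    congr 1
    unfold shift
    rw [aeval_X, aeval_X, map_add, map_X, map_C]

private theorem SDer_deg_map {R S : Type*} [CommRing R] [CommRing S] (φ : R →+* S)
    (f : MvPolynomial (Fin 2) R) : (map φ f).totalDegree ≤ f.totalDegree := by
  unfold totalDegree
  exact Finset.sup_mono (support_map_subset _ _)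

/-- The derivative of the curve `F` along the movement of the point `j` in the direction `v`.
PROOF. Let `φ = algebraMap`, `c, f` as in `clear_denom`. For `w = 0, 1` let `δ w` be the derivation
`pderiv (j, w)` of `RR n ℓ` (restrict scalars to `ℤ`) and `g w = mapDer (δ w) f`. Put
`G = C (φ c)⁻¹ * (C (v 0) * map φ (g 0) + C (v 1) * map φ (g 1))`; `deg G ≤ deg F`
(`totalDegree_mapDer_le`, and `deg f = deg F`). By `mapDer_shift` with `q = X (i, ·)`:
for `i ≠ j`: `mapDer (δ w) (shift (X (i, ·)) f) = shift (X (i, ·)) (g w)`; all coefficients of degree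
`< mu (gp i) F` of `shift (X (i, ·)) f` vanish, since `map φ` of it is `C (φ c) * shift (gp i) F` (`shift`
commutes with `map φ`, `φ` is injective), so they vanish for `shift (X (i, ·)) (g w)`, and
`map φ (g w) ∈ mp (gp i) ^ mu (gp i) F` (`mem_mp_pow`). For `i = j`, `a + b < mu (gp j) F`:
`0 = δ 0 (coeff (a, b)) = coeff (a, b) (shift (g 0)) + (a + 1) coeff (a + 1, b) (shift f)`
(`coeff_pderiv_zero`; `δ 0 (X (j, 0)) = 1`, `δ 0 (X (j, 1)) = 0`), similarly for `w = 1`. -/
theorem der {n ℓ : ℕ} [Fact ℓ.Prime] {F : A2 (KK n ℓ)} (hF : F ≠ 0) (j : Fin n)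
    (v : Fin 2 → KK n ℓ) :
    ∃ G : A2 (KK n ℓ), G.totalDegree ≤ F.totalDegree ∧
      (∀ i, i ≠ j → G ∈ mp (gp n ℓ i) ^ mu (gp n ℓ i) F) ∧
      ∀ a b : ℕ, a + b < mu (gp n ℓ j) F → coeff (mon a b) (shift (gp n ℓ j) G) =
        - (v 0 * (((a : KK n ℓ) + 1) * coeff (mon (a + 1) b) (shift (gp n ℓ j) F))
          + v 1 * (((b : KK n ℓ) + 1) * coeff (mon a (b + 1)) (shift (gp n ℓ j) F))) := by
  obtain ⟨c, f, hc, hf⟩ := clear_denom F
  set φ := algebraMap (RR n ℓ) (KK n ℓ) with hφ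
  have hinj : Function.Injective φ := IsFractionRing.injective (RR n ℓ) (KK n ℓ)
  have hc0 : φ c ≠ 0 := fun h => hc (hinj (by rw [h, map_zero]))
  obtain ⟨g, hg⟩ : ∃ g : Fin 2 → MvPolynomial (Fin 2) (RR n ℓ),
      ∀ w, g w = mapDer (SDer_d ℓ j w) f := ⟨_, fun _ => rfl⟩
  have hgi : ∀ i, gp n ℓ i = fun c => φ (X (i, c)) := fun i => rfl
  -- the coefficients of `F` and of `f`
  have hcf : ∀ (i : Fin n) (s : Fin 2 →₀ ℕ), φ (coeff s (shift (fun c => (X (i, c) : RR n ℓ)) f)) =
      φ c * coeff s (shift (gp n ℓ i) F) := by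
    intro i s
    rw [← coeff_map, SDer_map_shift, ← hgi, hf, map_mul, SDer_shift_C, coeff_C_mul]
  have hvan : ∀ (i : Fin n) (a b : ℕ), a + b < mu (gp n ℓ i) F →
      coeff (mon a b) (shift (fun c => (X (i, c) : RR n ℓ)) f) = 0 := by
    intro i a b hab
    have h1 : F ∈ mp (gp n ℓ i) ^ mu (gp n ℓ i) F := (mem_iff_le_mu hF _).2 le_rfl
    have h2 := mem_mp_pow.1 h1 a b hab
    apply hinj
    rw [hcf, h2, mul_zero, map_zero]
  have hmain : ∀ (i : Fin n) (w : Fin 2) (a b : ℕ), a + b < mu (gp n ℓ i) F →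
      coeff (mon a b) (shift (fun c => (X (i, c) : RR n ℓ)) (g w)) =
      -(SDer_d ℓ j w (X (i, 0)) * (((a : RR n ℓ) + 1) *
          coeff (mon (a + 1) b) (shift (fun c => (X (i, c) : RR n ℓ)) f)) +
        SDer_d ℓ j w (X (i, 1)) * (((b : RR n ℓ) + 1) *
          coeff (mon a (b + 1)) (shift (fun c => (X (i, c) : RR n ℓ)) f))) := by
    intro i w a b hab
    have h1 := congrArg (coeff (mon a b))
      (mapDer_shift (SDer_d ℓ j w) (fun c => (X (i, c) : RR n ℓ)) f)
    rw [coeff_mapDer, hvan i a b hab, map_zero, coeff_add, coeff_add, coeff_C_mul, coeff_C_mul,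
      coeff_pderiv_zero, coeff_pderiv_one, ← hg] at h1
    linear_combination -h1
  obtain ⟨G, hG⟩ : ∃ G : A2 (KK n ℓ), G = C (φ c)⁻¹ * (C (v 0) * map φ (g 0) + C (v 1) * map φ (g 1)) :=
    ⟨_, rfl⟩
  have hGc : ∀ (i : Fin n) (s : Fin 2 →₀ ℕ), coeff s (shift (gp n ℓ i) G) =
      (φ c)⁻¹ * (v 0 * φ (coeff s (shift (fun c => (X (i, c) : RR n ℓ)) (g 0))) +
        v 1 * φ (coeff s (shift (fun c => (X (i, c) : RR n ℓ)) (g 1)))) := by
    intro i s
    rw [hG, map_mul, map_add, map_mul, map_mul, SDer_shift_C, SDer_shift_C, SDer_shift_C, coeff_C_mul,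
      coeff_add, coeff_C_mul, coeff_C_mul, hgi, ← SDer_map_shift, ← SDer_map_shift, coeff_map, coeff_map]
  refine ⟨G, ?_, ?_, ?_⟩
  · have hfd : f.totalDegree ≤ F.totalDegree := by
      have h1 : f.totalDegree = (map φ f).totalDegree := by
        unfold totalDegree
        rw [support_map_of_injective f hinj]
      rw [h1, hf]
      refine (totalDegree_mul _ _).trans ?_
      rw [totalDegree_C, zero_add]
    have hgd : ∀ w, (map φ (g w)).totalDegree ≤ F.totalDegree := by
      intro w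
      refine (SDer_deg_map φ (g w)).trans (le_trans ?_ hfd)
      rw [hg]
      exact totalDegree_mapDer_le _ _
    rw [hG]
    refine (totalDegree_mul _ _).trans ?_
    rw [totalDegree_C, zero_add]
    refine (totalDegree_add _ _).trans (max_le ?_ ?_)
    · refine (totalDegree_mul _ _).trans ?_
      rw [totalDegree_C, zero_add]
      exact hgd 0
    · refine (totalDegree_mul _ _).trans ?_
      rw [totalDegree_C, zero_add]
      exact hgd 1
  · intro i hij
    rw [mem_mp_pow]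
    intro a b hab
    rw [hGc, hmain i 0 a b hab, hmain i 1 a b hab, SDer_d_ne hij, SDer_d_ne hij, SDer_d_ne hij,
      SDer_d_ne hij]
    simp
  · intro a b hab
    rw [hGc, hmain j 0 a b hab, hmain j 1 a b hab, SDer_d_eq, SDer_d_eq, SDer_d_eq, SDer_d_eq]
    simp only [map_neg, map_add, map_mul, map_natCast, map_one, hcf, zero_ne_one, one_ne_zero,
      if_true, if_false, one_mul, zero_mul, add_zero, zero_add]
    field_simp
    ring

/-- PROOF. Immediate from the last property of `der`: for `a + b < mu - 1` the coefficients of degree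
`a + b + 1 < mu` of `shift (gp j) F` vanish. -/
theorem der_mem {n ℓ : ℕ} [Fact ℓ.Prime] {F G : A2 (KK n ℓ)} (hF : F ≠ 0) (j : Fin n)
    (v : Fin 2 → KK n ℓ)
    (h : ∀ a b : ℕ, a + b < mu (gp n ℓ j) F → coeff (mon a b) (shift (gp n ℓ j) G) =
        - (v 0 * (((a : KK n ℓ) + 1) * coeff (mon (a + 1) b) (shift (gp n ℓ j) F))
          + v 1 * (((b : KK n ℓ) + 1) * coeff (mon a (b + 1)) (shift (gp n ℓ j) F)))) :
    G ∈ mp (gp n ℓ j) ^ (mu (gp n ℓ j) F - 1) := by
  rw [mem_mp_pow]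
  intro a b hab
  have h1 : F ∈ mp (gp n ℓ j) ^ mu (gp n ℓ j) F := (mem_iff_le_mu hF _).2 le_rfl
  rw [h a b (by omega), mem_mp_pow.1 h1 (a + 1) b (by omega), mem_mp_pow.1 h1 a (b + 1) (by omega)]
  simp

end Pool.MP_70e04f_ag.Strip

end

/-! ### from `Lib_MP_70e04f_strip.SKill` -/

section

/-!
# Piece SKILL: the defect decreases when there are many multipliers
-/

set_option autoImplicit false

namespace Pool.MP_70e04f_ag.Strip

open MvPolynomial

variable {k : Type*} [Field k]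

theorem SKill_le {t r : ℕ} {a a' : Ideal (A2 k)} {s : A2 k} (hsr : s ∈ Pt k r)
    (hmul : ∀ g ∈ a, s * g ∈ a') :
    PA t a ≤ (PA (t + r) a').comap (LinearMap.mulLeft k s) := by
  unfold PA
  refine sup_le ?_ ?_
  · intro f hf
    rw [Submodule.mem_comap, LinearMap.mulLeft_apply]
    refine Submodule.mem_sup_left ?_
    rw [Nat.add_comm]
    exact mul_mem_Pt hsr hf
  · intro f hf
    rw [Submodule.mem_comap, LinearMap.mulLeft_apply]
    exact Submodule.mem_sup_right (mem_sp.2 (hmul f (mem_sp.1 hf)))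

/-- multiplication by `s` on the quotients -/
noncomputable def SKill_map {t r : ℕ} {a a' : Ideal (A2 k)} (s : A2 k) (hsr : s ∈ Pt k r)
    (hmul : ∀ g ∈ a, s * g ∈ a') : (A2 k ⧸ PA t a) →ₗ[k] (A2 k ⧸ PA (t + r) a') :=
  Submodule.mapQ (PA t a) (PA (t + r) a') (LinearMap.mulLeft k s) (SKill_le hsr hmul)

theorem SKill_map_mk {t r : ℕ} {a a' : Ideal (A2 k)} (s : A2 k) (hsr : s ∈ Pt k r)
    (hmul : ∀ g ∈ a, s * g ∈ a') (f : A2 k) :
    SKill_map (t := t) s hsr hmul (Submodule.Quotient.mk f) = Submodule.Quotient.mk (s * f) := rfl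

theorem SKill_surj {t r : ℕ} {a a' : Ideal (A2 k)} {s : A2 k} (hsr : s ∈ Pt k r)
    (hmul : ∀ g ∈ a, s * g ∈ a') (hs : Ind (t + r) (a' ⊔ pr s)) :
    Function.Surjective (SKill_map (t := t) s hsr hmul) := by
  intro y
  obtain ⟨f, rfl⟩ := Submodule.Quotient.mk_surjective _ y
  obtain ⟨g, hg, h, hh, e⟩ := hs.exists f
  rw [Submodule.mem_sup] at hh
  obtain ⟨h', hh', h'', hh'', e'⟩ := hh
  rw [mem_pr] at hh''
  obtain ⟨f', rfl⟩ := hh''
  refine ⟨Submodule.Quotient.mk f', ?_⟩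
  rw [SKill_map_mk, Submodule.Quotient.eq]
  have e2 : s * f' - f = -g + -h' := by
    rw [← e, ← e']; ring
  rw [e2]
  unfold PA
  exact Submodule.add_mem_sup (neg_mem hg) (neg_mem (mem_sp.2 hh'))

/-- PROOF. Multiplication by `s` induces a linear map `A2 k ⧸ PA t a → A2 k ⧸ PA (t + r) a'`
(`mul_mem_Pt`, `hmul`). It is surjective: by `Ind (t + r) (a' ⊔ pr s)` every `f` is `g + h` with
`g ∈ Pt k (t + r)`, `h = h' + s f'`, `h' ∈ a'`. The source is finite dimensional (`FinC.cod_finite`). -/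
theorem step_le {t r : ℕ} {a a' : Ideal (A2 k)} {s : A2 k} (hsr : s ∈ Pt k r)
    (hmul : ∀ g ∈ a, s * g ∈ a') (hs : Ind (t + r) (a' ⊔ pr s)) (hfin : FinC a) :
    cod (t + r) a' ≤ cod t a := by
  have hf := hfin.cod_finite t
  unfold cod
  exact LinearMap.finrank_le_finrank_of_surjective (SKill_surj (t := t) hsr hmul hs)

/-- PROOF. Let `V = A2 k ⧸ PA t a`, `V' = A2 k ⧸ PA (t + r) a'`. For every `s ∈ W` we have the map
`V → V'` of `step_le`, linear in `s`, surjective for `s ≠ 0` (there is such an `s`, as `finrank W > 0`);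
so `V'` is finite dimensional and `finrank V' ≤ finrank V`. If `V = 0` then `V' = 0`: second
alternative. Otherwise suppose that `finrank V' = finrank V`. Then all the maps with `s ≠ 0` are
injective. Take `x ∈ V`, `x ≠ 0`: the linear map `W → V'`, `s ↦ s x` is not injective, since
`finrank V' = finrank V < finrank W` (`W` is finite dimensional, `W ≤ Pt k r`). So `s x = 0` for some
`s ≠ 0`, a contradiction. -/
theorem step_lt {t r : ℕ} {a a' : Ideal (A2 k)} (W : Submodule k (A2 k)) (hW : W ≤ Pt k r)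
    (hmul : ∀ s ∈ W, ∀ g ∈ a, s * g ∈ a') (hs : ∀ s ∈ W, s ≠ 0 → Ind (t + r) (a' ⊔ pr s))
    (hfin : FinC a) (hcard : cod t a < Module.finrank k ↥W) :
    cod (t + r) a' < cod t a ∨ cod (t + r) a' = 0 ∧ cod t a = 0 := by
  have hf := hfin.cod_finite t
  have hWfin : Module.Finite k ↥W := Submodule.finiteDimensional_of_le hW
  -- a nonzero element of `W`
  have hpos : 0 < Module.finrank k ↥W := by omega
  obtain ⟨⟨s0, hs0⟩, hs00⟩ : ∃ w : ↥W, w ≠ 0 := by
    have := Module.finrank_pos_iff_exists_ne_zero.1 hpos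
    exact this
  have hs0' : s0 ≠ 0 := fun h => hs00 (Subtype.ext h)
  have hf' : Module.Finite k (A2 k ⧸ PA (t + r) a') :=
    Module.Finite.of_surjective _ (SKill_surj (t := t) (hW hs0) (hmul s0 hs0) (hs s0 hs0 hs0'))
  have hle : cod (t + r) a' ≤ cod t a :=
    step_le (hW hs0) (hmul s0 hs0) (hs s0 hs0 hs0') hfin
  by_cases h0 : cod t a = 0
  · right; omega
  left
  by_contra hnot
  have heq : cod (t + r) a' = cod t a := by omega
  unfold cod at heq hcard h0
  have hposV : 0 < Module.finrank k (A2 k ⧸ PA t a) := by omega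
  obtain ⟨x, hx⟩ : ∃ x : A2 k ⧸ PA t a, x ≠ 0 := Module.finrank_pos_iff_exists_ne_zero.1 hposV
  obtain ⟨f, rfl⟩ := Submodule.Quotient.mk_surjective _ x
  -- the map `W → V'`
  let L : ↥W →ₗ[k] (A2 k ⧸ PA (t + r) a') :=
    ((PA (t + r) a').mkQ).comp ((LinearMap.mulRight k f).comp W.subtype)
  have hL : ∀ w : ↥W, L w = Submodule.Quotient.mk ((w : A2 k) * f) := fun w => rfl
  have hnotinj : ¬ Function.Injective L := by
    intro hinj
    have := LinearMap.finrank_le_finrank_of_injective hinj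
    omega
  rw [← LinearMap.ker_eq_bot, Submodule.eq_bot_iff] at hnotinj
  push Not at hnotinj
  obtain ⟨⟨s, hsW⟩, hsker, hsne⟩ := hnotinj
  have hsne' : s ≠ 0 := fun h => hsne (Subtype.ext h)
  rw [LinearMap.mem_ker, hL] at hsker
  have hsurj := SKill_surj (t := t) (hW hsW) (hmul s hsW) (hs s hsW hsne')
  have hinj : Function.Injective (SKill_map (t := t) s (hW hsW) (hmul s hsW)) :=
    (LinearMap.injective_iff_surjective_of_finrank_eq_finrank heq.symm).2 hsurj
  apply hx
  apply hinj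
  rw [SKill_map_mk, map_zero]
  exact hsker

end Pool.MP_70e04f_ag.Strip

end

/-! ### from `Lib_MP_70e04f_strip.SChain` -/

section

/-!
# Piece SCHAIN: from irreducible curves to all curves
-/

set_option autoImplicit false

namespace Pool.MP_70e04f_ag.Strip

open MvPolynomial

variable {k : Type*} [Field k] {n : ℕ} {p : Fin n → Fin 2 → k}

/-- One more component.
PROOF. Let `f` be a polynomial. By `hF`, `f = g1 + (h1 + F u)` with `g1 ∈ Pt k (t + deg (F s))` and
`h1 ∈ Iz p (β + mu (F s))`. By `hs`, `u = g2 + (h2 + s v)` with `g2 ∈ Pt k (t + deg s)`,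
`h2 ∈ Iz p (β + mu s)`. Then `F u = F g2 + F h2 + F s v`, `F g2 ∈ Pt k (t + deg (F s))`
(`totalDegree_mul_of_isDomain`), `F h2 ∈ Iz p (β + mu (F s))` (`Iz_mul_mem`, `mu_mul`). -/
theorem chain_step {F s : A2 k} (hF0 : F ≠ 0) (hs0 : s ≠ 0) (t : ℕ) (β : Fin n → ℕ)
    (hF : Ind (t + (F * s).totalDegree) (Iz p (fun i => β i + mu (p i) (F * s)) ⊔ pr F))
    (hs : Ind (t + s.totalDegree) (Iz p (fun i => β i + mu (p i) s) ⊔ pr s)) :
    Ind (t + (F * s).totalDegree) (Iz p (fun i => β i + mu (p i) (F * s)) ⊔ pr (F * s)) := by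
  rw [ind_iff] at hF hs ⊢
  intro f
  obtain ⟨g1, hg1, w1, hw1, e1⟩ := hF f
  obtain ⟨h1, hh1, w2, hw2, e2⟩ := Submodule.mem_sup.mp hw1
  obtain ⟨u, rfl⟩ := mem_pr.mp hw2
  obtain ⟨g2, hg2, w3, hw3, e3⟩ := hs u
  obtain ⟨h2, hh2, w4, hw4, e4⟩ := Submodule.mem_sup.mp hw3
  obtain ⟨v, rfl⟩ := mem_pr.mp hw4
  have hdeg : (F * s).totalDegree = F.totalDegree + s.totalDegree :=
    totalDegree_mul_of_isDomain hF0 hs0
  refine ⟨g1 + F * g2, ?_, (h1 + F * h2) + F * s * v, ?_, ?_⟩
  · refine Submodule.add_mem _ hg1 ?_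
    have := mul_mem_Pt (mem_Pt.2 (le_refl F.totalDegree)) hg2
    refine Pt_mono ?_ this
    rw [hdeg]
    omega
  · refine Submodule.add_mem_sup ?_ ?_
    · refine Ideal.add_mem _ hh1 ?_
      have hFm : F ∈ Iz p (fun i => mu (p i) F) :=
        mem_Iz.2 fun i => (mem_iff_le_mu hF0 _).2 (le_refl _)
      have := Iz_mul_mem hFm hh2
      refine Iz_mono (fun i => ?_) this
      rw [mu_mul hF0 hs0]
      omega
    · exact mem_pr.2 (Dvd.intro v rfl)
  · rw [← e1, ← e2, ← e3, ← e4]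
    ring

/-- All components.
PROOF. Induction on the factorization of `s` into irreducible polynomials
(`WfDvdMonoid.induction_on_irreducible` or `UniqueFactorizationMonoid.induction_on_prime`), with the
statement for all divisors of the given polynomial. For a unit `s` we have `pr s = ⊤`. For
`F * s` use `chain_step`; the hypothesis `h` is used for `F` with `t1 = t + deg (F s)`,
`β1 = β + mu (F s)`: `t ≤ t1 ≤ t + E`, `β i ≤ β1 i ≤ β i + E` (`mu_le_deg`). -/
theorem chain (E t : ℕ) (β : Fin n → ℕ)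
    (h : ∀ F : A2 k, Irreducible F → F.totalDegree ≤ E → ∀ (t1 : ℕ) (β1 : Fin n → ℕ), t ≤ t1 →
      t1 ≤ t + E → (∀ i, β i ≤ β1 i) → (∀ i, β1 i ≤ β i + E) → Ind t1 (Iz p β1 ⊔ pr F))
    (s : A2 k) (hs0 : s ≠ 0) (hsE : s.totalDegree ≤ E) :
    Ind (t + s.totalDegree) (Iz p (fun i => β i + mu (p i) s) ⊔ pr s) := by
  revert hs0 hsE
  refine WfDvdMonoid.induction_on_irreducible (motive := fun s : A2 k => s ≠ 0 →
    s.totalDegree ≤ E → Ind (t + s.totalDegree) (Iz p (fun i => β i + mu (p i) s) ⊔ pr s))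
    s ?_ ?_ ?_
  · intro h0
    exact absurd rfl h0
  · intro u hu _ _
    have hp : pr u = ⊤ := by
      unfold pr
      exact Ideal.span_singleton_eq_top.mpr hu
    rw [hp, sup_top_eq]
    unfold Ind PA
    have : sp (⊤ : Ideal (A2 k)) = ⊤ := by
      ext f
      simp [mem_sp]
    rw [this, sup_top_eq]
  · intro a F ha0 hF ih _ hE
    have hF0 : F ≠ 0 := hF.ne_zero
    have hdeg : (F * a).totalDegree = F.totalDegree + a.totalDegree :=
      totalDegree_mul_of_isDomain hF0 ha0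
    have hFa : F * a ≠ 0 := mul_ne_zero hF0 ha0
    refine chain_step hF0 ha0 t β ?_ (ih ha0 (by omega))
    refine h F hF (by omega) _ _ (by omega) (by omega) (fun i => by omega) (fun i => ?_)
    have := mu_le_deg (q := p i) hFa
    show β i + mu (p i) (F * a) ≤ β i + E
    omega

end Pool.MP_70e04f_ag.Strip

end

/-! ### from `Lib_MP_70e04f_strip.STraceA` -/

section

/-!
# Piece STRACEA: the Frobenius trace. The linear map `tr q` sends the monomial
`x ^ (q i + q - 1) y ^ (q j + q - 1)` to `x ^ i y ^ j` and all other monomials to zero.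
-/

set_option autoImplicit false

namespace Pool.MP_70e04f_ag.Strip

open MvPolynomial

variable {k : Type*} [Field k]

/-- the Frobenius trace (values on monomials) -/
noncomputable def tr (q : ℕ) : A2 k →ₗ[k] A2 k :=
  (basisMonomials (Fin 2) k).constr k (fun s =>
    if q ∣ s 0 + 1 ∧ q ∣ s 1 + 1 then monomial (mon ((s 0 + 1) / q - 1) ((s 1 + 1) / q - 1)) 1
    else 0)

theorem tr_monomial (q : ℕ) (s : Fin 2 →₀ ℕ) :
    tr q (monomial s (1 : k)) =
      if q ∣ s 0 + 1 ∧ q ∣ s 1 + 1 then monomial (mon ((s 0 + 1) / q - 1) ((s 1 + 1) / q - 1)) 1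
      else 0 := by
  have h := (basisMonomials (Fin 2) k).constr_basis k (fun s : Fin 2 →₀ ℕ =>
    if q ∣ s 0 + 1 ∧ q ∣ s 1 + 1 then
      (monomial (mon ((s 0 + 1) / q - 1) ((s 1 + 1) / q - 1)) 1 : A2 k)
    else 0) s
  rw [coe_basisMonomials] at h
  exact h

theorem STraceA_aux {q : ℕ} (hq : 1 ≤ q) (s a : ℕ) :
    (q ∣ s + 1 ∧ (s + 1) / q - 1 = a) ↔ s = q * a + (q - 1) := by
  constructor
  · rintro ⟨⟨u, hu⟩, h⟩
    rw [hu, Nat.mul_div_cancel_left u hq] at h
    have hu1 : 1 ≤ u := by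
      rcases Nat.eq_zero_or_pos u with h0 | h0
      · rw [h0] at hu; omega
      · exact h0
    have hua : u = a + 1 := by omega
    rw [hua, mul_add, mul_one] at hu
    omega
  · intro h
    have e : s + 1 = q * (a + 1) := by rw [h, mul_add, mul_one]; omega
    refine ⟨⟨a + 1, e⟩, ?_⟩
    rw [e, Nat.mul_div_cancel_left _ hq]
    omega

theorem STraceA_sum (a b : ℕ) : ((mon a b).sum fun _ e => e) = a + b := by
  rw [← degree_mon a b, Finsupp.degree_eq_sum]
  rw [Finsupp.sum_fintype _ _ (fun _ => rfl)]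

theorem STraceA_X (q : ℕ) (hq : 1 ≤ q) (i : Fin 2) (f : A2 k) :
    tr q (X i ^ q * f) = X i * tr q f := by
  classical
  have h : (tr q).comp (LinearMap.mulLeft k (X i ^ q : A2 k)) =
      (LinearMap.mulLeft k (X i : A2 k)).comp (tr q) := by
    refine (basisMonomials (Fin 2) k).ext fun s => ?_
    rw [coe_basisMonomials, LinearMap.comp_apply, LinearMap.comp_apply, LinearMap.mulLeft_apply,
      LinearMap.mulLeft_apply, X_pow_eq_monomial, monomial_mul, one_mul, tr_monomial, tr_monomial]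
    have key : ∀ t : ℕ, q ∣ t + 1 → (q + t + 1) / q - 1 = 1 + ((t + 1) / q - 1) := by
      rintro t ⟨u, hu⟩
      have hu1 : 1 ≤ u := by
        rcases Nat.eq_zero_or_pos u with h0 | h0
        · rw [h0] at hu; omega
        · exact h0
      have e : q + t + 1 = q * (u + 1) := by rw [mul_add, mul_one, ← hu]; omega
      rw [e, hu, Nat.mul_div_cancel_left _ hq, Nat.mul_div_cancel_left _ hq]
      omega
    have key2 : ∀ t : ℕ, q ∣ q + t + 1 ↔ q ∣ t + 1 := by
      intro t
      rw [add_assoc]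
      exact (Nat.dvd_add_right dvd_rfl)
    fin_cases i
    · have e0 : (Finsupp.single (0 : Fin 2) q + s) 0 = q + s 0 := by simp
      have e1 : (Finsupp.single (0 : Fin 2) q + s) 1 = s 1 := by simp
      change (if q ∣ (Finsupp.single (0 : Fin 2) q + s) 0 + 1 ∧
        q ∣ (Finsupp.single (0 : Fin 2) q + s) 1 + 1 then
        (monomial (mon (((Finsupp.single (0 : Fin 2) q + s) 0 + 1) / q - 1)
          (((Finsupp.single (0 : Fin 2) q + s) 1 + 1) / q - 1)) 1 : A2 k) else 0) =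
        (X (0 : Fin 2) : A2 k) * _
      simp only [e0, e1, key2]
      by_cases hc : q ∣ s 0 + 1 ∧ q ∣ s 1 + 1
      · rw [if_pos hc, if_pos hc, key _ hc.1, X, monomial_mul, one_mul]
        congr 1
        simp only [mon, Finsupp.single_add]
        rw [add_assoc]
      · rw [if_neg hc, if_neg hc, mul_zero]
    · have e0 : (Finsupp.single (1 : Fin 2) q + s) 0 = s 0 := by simp
      have e1 : (Finsupp.single (1 : Fin 2) q + s) 1 = q + s 1 := by simp
      change (if q ∣ (Finsupp.single (1 : Fin 2) q + s) 0 + 1 ∧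
        q ∣ (Finsupp.single (1 : Fin 2) q + s) 1 + 1 then
        (monomial (mon (((Finsupp.single (1 : Fin 2) q + s) 0 + 1) / q - 1)
          (((Finsupp.single (1 : Fin 2) q + s) 1 + 1) / q - 1)) 1 : A2 k) else 0) =
        (X (1 : Fin 2) : A2 k) * _
      simp only [e0, e1, key2]
      by_cases hc : q ∣ s 0 + 1 ∧ q ∣ s 1 + 1
      · rw [if_pos hc, if_pos hc, key _ hc.2, X, monomial_mul, one_mul]
        congr 1
        simp only [mon, Finsupp.single_add]
        abel
      · rw [if_neg hc, if_neg hc, mul_zero]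
  exact congrArg (fun L : A2 k →ₗ[k] A2 k => L f) h

theorem STraceA_expand (q : ℕ) (hq : 1 ≤ q) (g f : A2 k) :
    tr q (expand q g * f) = g * tr q f := by
  induction g using MvPolynomial.induction_on generalizing f with
  | C a =>
    rw [expand_C, ← MvPolynomial.smul_eq_C_mul, ← MvPolynomial.smul_eq_C_mul, map_smul]
  | add g1 g2 h1 h2 => rw [map_add, add_mul, map_add, h1, h2, add_mul]
  | mul_X g i h =>
    rw [map_mul (expand q) g (X i), expand_X, mul_assoc, h, STraceA_X q hq, mul_assoc]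

/-- PROOF. Both sides are linear in `f`; check on monomials (`tr_monomial`):
`q ∣ s 0 + 1` and `(s 0 + 1) / q - 1 = a` iff `s 0 = q a + (q - 1)`. -/
theorem coeff_tr (q : ℕ) (hq : 1 ≤ q) (f : A2 k) (a b : ℕ) :
    coeff (mon a b) (tr q f) = coeff (mon (q * a + (q - 1)) (q * b + (q - 1))) f := by
  classical
  have h : (lcoeff k (mon a b)).comp (tr q) =
      lcoeff k (mon (q * a + (q - 1)) (q * b + (q - 1))) := by
    refine (basisMonomials (Fin 2) k).ext fun s => ?_
    rw [coe_basisMonomials, LinearMap.comp_apply, tr_monomial, lcoeff_apply, lcoeff_apply,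
      coeff_monomial]
    have h0 := STraceA_aux hq (s 0) a
    have h1 := STraceA_aux hq (s 1) b
    by_cases hs : s = mon (q * a + (q - 1)) (q * b + (q - 1))
    · have e0 : s 0 = q * a + (q - 1) := by rw [hs, mon_zero']
      have e1 : s 1 = q * b + (q - 1) := by rw [hs, mon_one']
      obtain ⟨c0, d0⟩ := h0.2 e0
      obtain ⟨c1, d1⟩ := h1.2 e1
      rw [if_pos ⟨c0, c1⟩, if_pos hs, d0, d1, coeff_monomial, if_pos rfl]
    · rw [if_neg hs]
      by_cases hc : q ∣ s 0 + 1 ∧ q ∣ s 1 + 1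
      · rw [if_pos hc, coeff_monomial, if_neg]
        intro he
        obtain ⟨c0, c1⟩ := mon_inj.1 he
        apply hs
        rw [← mon_eta s, mon_inj]
        exact ⟨h0.1 ⟨hc.1, c0⟩, h1.1 ⟨hc.2, c1⟩⟩
      · rw [if_neg hc, coeff_zero]
  exact congrArg (fun L : A2 k →ₗ[k] k => L f) h

/-- PROOF. If `x ^ (q i + q - 1) y ^ (q j + q - 1)` occurs in `f` then
`q (i + j) + 2 (q - 1) ≤ q (d + 3) - 3`, so `q (i + j) ≤ q d + q - 1` and `i + j ≤ d`. -/
theorem tr_Pt (q : ℕ) (hq : 1 ≤ q) (d : ℕ) {f : A2 k} (hf : f ∈ Pt k (q * (d + 3) - 3)) :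
    tr q f ∈ Pt k d := by
  rw [mem_Pt] at hf ⊢
  unfold totalDegree
  refine Finset.sup_le fun s hs => ?_
  rw [mem_support_iff, ← mon_eta s, coeff_tr q hq, ← mem_support_iff] at hs
  have h := (le_totalDegree hs).trans hf
  rw [← mon_eta s, STraceA_sum]
  rw [STraceA_sum] at h
  have h2 : q * (s 0 + s 1) + 2 * (q - 1) ≤ q * (d + 3) - 3 := by
    refine le_trans (le_of_eq ?_) h
    ring
  by_contra hlt
  have h3 : d + 1 ≤ s 0 + s 1 := by omega
  have h4 : q * (d + 1) ≤ q * (s 0 + s 1) := Nat.mul_le_mul_left q h3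
  have h5 : q * (d + 3) = q * (d + 1) + 2 * q := by ring
  have h6 : d + 3 ≤ q * (d + 3) := Nat.le_mul_of_pos_left (d + 3) hq
  omega

/-- PROOF. `tr q (x ^ (q - 1) y ^ (q - 1) f (x ^ q, y ^ q)) = f` (`MvPolynomial.expand`, or
`Finsupp.mapDomain`). -/
theorem tr_surj (q : ℕ) (hq : 1 ≤ q) : Function.Surjective (tr q : A2 k →ₗ[k] A2 k) := by
  intro f
  refine ⟨expand q f * monomial (mon (q - 1) (q - 1)) 1, ?_⟩
  have e : (q - 1) + 1 = q := by omega
  rw [STraceA_expand q hq, tr_monomial, mon_zero', mon_one', e, if_pos ⟨dvd_rfl, dvd_rfl⟩,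
    Nat.div_self hq]
  have : mon (1 - 1) (1 - 1) = 0 := by simp [mon]
  rw [this, ← C_apply, C_1, mul_one]

/-- PROOF. `expand q g` is `g (x ^ q, y ^ q)`; both sides are linear in `g`, `f`: check on monomials. -/
theorem tr_expand (q : ℕ) (hq : 1 ≤ q) (g f : A2 k) :
    tr q (expand q g * f) = g * tr q f := by
  exact STraceA_expand q hq g f

end Pool.MP_70e04f_ag.Strip

end

/-! ### from `Lib_MP_70e04f_strip.STrace` -/

section

/-!
# Piece STRACE: the Frobenius trace and multiplicities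
-/

set_option autoImplicit false

namespace Pool.MP_70e04f_ag.Strip

open MvPolynomial

variable {k : Type*} [Field k]

theorem STrace_mem (p : Fin 2 → k) (c : Fin 2) : (X c - C (p c) : A2 k) ∈ mp p := by
  rw [mem_mp]; simp

theorem STrace_shift (p : Fin 2 → k) (s : Fin 2 →₀ ℕ) (a : k) :
    shift (fun c => - p c) (monomial s a) =
      a • ((X 0 - C (p 0)) ^ s 0 * (X 1 - C (p 1)) ^ s 1 : A2 k) := by
  have h1 : (monomial s a : A2 k) = C a * (X 0 ^ s 0 * X 1 ^ s 1) := by
    rw [monomial_eq]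
    congr 1
    rw [Finsupp.prod_fintype _ _ (fun _ => pow_zero _), Fin.prod_univ_two]
  rw [h1, MvPolynomial.smul_eq_C_mul]
  simp only [shift, map_mul, map_pow, aeval_X, aeval_C, MvPolynomial.algebraMap_eq, map_neg]
  rw [sub_eq_add_neg, sub_eq_add_neg]

theorem STrace_pow (ℓ e : ℕ) [Fact ℓ.Prime] [CharP k ℓ] (c : Fin 2) (x : k) (a : ℕ) :
    (X c - C x : A2 k) ^ a =
      expand (ℓ ^ e) ((X c - C (x ^ ℓ ^ e)) ^ (a / ℓ ^ e)) * (X c - C x) ^ (a % ℓ ^ e) := by
  have h1 : expand (ℓ ^ e) (X c - C (x ^ ℓ ^ e) : A2 k) = (X c - C x) ^ (ℓ ^ e) := by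
    rw [map_sub, expand_X, expand_C, sub_pow_char_pow, C_pow]
  rw [map_pow, h1, ← pow_mul, ← pow_add, Nat.div_add_mod]

theorem STrace_mono (ℓ e : ℕ) [Fact ℓ.Prime] [CharP k ℓ] (m : ℕ) (p : Fin 2 → k) (a b : ℕ)
    (hab : ℓ ^ e * (m + 1) - 1 ≤ a + b) :
    tr (ℓ ^ e) ((X 0 - C (p 0)) ^ a * (X 1 - C (p 1)) ^ b : A2 k) ∈
      mp (fun c => p c ^ (ℓ ^ e)) ^ m := by
  have hq : 1 ≤ ℓ ^ e := Nat.one_le_pow _ _ (Fact.out : ℓ.Prime).pos
  have ha := Nat.div_add_mod a (ℓ ^ e)
  have hb := Nat.div_add_mod b (ℓ ^ e)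
  have ha' := Nat.mod_lt a hq
  have hb' := Nat.mod_lt b hq
  have e1 : ((X 0 - C (p 0)) ^ a * (X 1 - C (p 1)) ^ b : A2 k) =
      expand (ℓ ^ e) ((X 0 - C (p 0 ^ ℓ ^ e)) ^ (a / ℓ ^ e) *
        (X 1 - C (p 1 ^ ℓ ^ e)) ^ (b / ℓ ^ e)) *
      ((X 0 - C (p 0)) ^ (a % ℓ ^ e) * (X 1 - C (p 1)) ^ (b % ℓ ^ e)) := by
    rw [STrace_pow ℓ e 0 (p 0) a, STrace_pow ℓ e 1 (p 1) b, map_mul]
    ring
  rw [e1, tr_expand _ hq]
  refine Ideal.mul_mem_right _ _ ?_
  set i := a / ℓ ^ e
  set j := b / ℓ ^ e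
  have hij : m ≤ i + j := by
    by_contra hlt
    rw [not_le] at hlt
    have h2 : ℓ ^ e * (i + j + 1) ≤ ℓ ^ e * m := Nat.mul_le_mul_left _ hlt
    have h3 : ℓ ^ e * (i + j + 1) = ℓ ^ e * i + ℓ ^ e * j + ℓ ^ e := by ring
    have h4 : ℓ ^ e * (m + 1) = ℓ ^ e * m + ℓ ^ e := by ring
    omega
  refine Ideal.pow_le_pow_right hij ?_
  rw [pow_add]
  exact Ideal.mul_mem_mul
    (Ideal.pow_mem_pow (STrace_mem (fun c => p c ^ (ℓ ^ e)) 0) _)
    (Ideal.pow_mem_pow (STrace_mem (fun c => p c ^ (ℓ ^ e)) 1) _)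

/-- PROOF. Let `N = q (m + 1) - 1`, `ξ = p 0`, `η = p 1`. `mp p` is spanned by `X 0 - C ξ`, `X 1 - C η`, so
`mp p ^ N` is the ideal generated by the products `(X 0 - C ξ) ^ a (X 1 - C η) ^ b`, `a + b = N` (or use
`mem_mp_pow` and the expansion of `f` in powers of `X 0 - C ξ`, `X 1 - C η`, i.e.
`f = shift (-p) (shift p f)`). Write `a = q i + a'`, `b = q j + b'` with `a', b' < q`; then
`q (i + j) ≥ N - 2 (q - 1) = q (m - 1) + 1` (if `m ≥ 1`), so `i + j ≥ m`. In characteristic `ℓ`,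
`(X 0 - C ξ) ^ q = X 0 ^ q - C (ξ ^ q) = expand q (X 0 - C (ξ ^ q))` (`sub_pow_char_pow`), so
`(X 0 - C ξ) ^ a (X 1 - C η) ^ b u = expand q ((X 0 - C (ξ^q)) ^ i (X 1 - C (η^q)) ^ j) * u'` and
`tr_expand` applies. -/
theorem tr_mp (ℓ e : ℕ) [Fact ℓ.Prime] [CharP k ℓ] (m : ℕ) (p : Fin 2 → k)
    {f : A2 k} (hf : f ∈ mp p ^ (ℓ ^ e * (m + 1) - 1)) :
    tr (ℓ ^ e) f ∈ mp (fun c => p c ^ (ℓ ^ e)) ^ m := by
  classical
  have hq : 1 ≤ ℓ ^ e := Nat.one_le_pow _ _ (Fact.out : ℓ.Prime).pos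
  rw [mem_mp_pow] at hf
  set h := shift p f with hh
  have hfe : f = shift (fun c => - p c) h := (shift_shift_neg p f).symm
  have hsum : shift (fun c => - p c) h =
      ∑ s ∈ h.support, coeff s h • ((X 0 - C (p 0)) ^ s 0 * (X 1 - C (p 1)) ^ s 1 : A2 k) := by
    conv_lhs => rw [h.as_sum]
    rw [map_sum]
    refine Finset.sum_congr rfl fun s _ => ?_
    exact STrace_shift p s _
  rw [hfe, hsum, map_sum]
  refine Ideal.sum_mem _ fun s hs => ?_
  rw [map_smul, MvPolynomial.smul_eq_C_mul]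
  refine Ideal.mul_mem_left _ _ ?_
  rw [mem_support_iff] at hs
  have hdeg : ℓ ^ e * (m + 1) - 1 ≤ s 0 + s 1 := by
    by_contra hlt
    rw [not_le] at hlt
    have := hf (s 0) (s 1) hlt
    rw [mon_eta] at this
    exact hs this
  exact STrace_mono ℓ e m p (s 0) (s 1) hdeg

/-- Independence for large multiples implies independence.
PROOF. Let `f` be given and `f' ` with `tr f' = f` (`tr_surj`). `f' = g + h` with
`g ∈ Pt k (q (d + 3) - 3)`, `h ∈ Iz p (q (m + 1) - 1)`; apply `tr`, `tr_Pt`, `tr_mp`. -/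
theorem trace_ind (ℓ e : ℕ) [Fact ℓ.Prime] [CharP k ℓ] {n : ℕ} (p : Fin n → Fin 2 → k) (d : ℕ)
    (m : Fin n → ℕ)
    (h : Ind (ℓ ^ e * (d + 3) - 3) (Iz p (fun i => ℓ ^ e * (m i + 1) - 1))) :
    Ind d (Iz (fun i c => p i c ^ (ℓ ^ e)) m) := by
  have hq : 1 ≤ ℓ ^ e := Nat.one_le_pow _ _ (Fact.out : ℓ.Prime).pos
  rw [ind_iff] at h ⊢
  intro f
  obtain ⟨f', hf'⟩ := tr_surj (k := k) (ℓ ^ e) hq f
  obtain ⟨g, hg, u, hu, e1⟩ := h f'
  refine ⟨tr (ℓ ^ e) g, tr_Pt (ℓ ^ e) hq d hg, tr (ℓ ^ e) u, ?_, ?_⟩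
  · rw [mem_Iz] at hu ⊢
    intro i
    exact tr_mp ℓ e (m i) (p i) (hu i)
  · rw [← map_add, e1, hf']

end Pool.MP_70e04f_ag.Strip

end

/-! ### from `Lib_MP_70e04f_thin.TDefs` -/

section

/-!
# The thin strip (SHGH): effective classes

`Eff0 e a`: for all configurations of complex points there is a curve of degree `≤ e` with
multiplicities `≥ a`. `EffL n ℓ e a`: the same for the generic points `gp n ℓ` in characteristic `ℓ`.
See `Blueprint.md`.
-/

set_option autoImplicit false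

namespace Pool.MP_70e04f_ag.Strip

open MvPolynomial

/-- the class `(e; a)` is effective for all complex configurations -/
def Eff0 {n : ℕ} (e : ℕ) (a : Fin n → ℕ) : Prop :=
  ∀ p : Fin n → Fin 2 → ℂ, ∃ f : A2 ℂ, f ≠ 0 ∧ f ∈ Pt ℂ e ∧ f ∈ Iz p a

/-- the class `(e; a)` is effective for the generic points in characteristic `ℓ` -/
def EffL (n ℓ : ℕ) [Fact ℓ.Prime] (e : ℕ) (a : Fin n → ℕ) : Prop :=
  ∃ f : A2 (KK n ℓ), f ≠ 0 ∧ f ∈ Pt (KK n ℓ) e ∧ f ∈ Iz (gp n ℓ) a

/-- the points outside of the nine points `α` -/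
def Sm {n : ℕ} (α : Fin 9 → Fin n) : Finset (Fin n) := (Finset.univ.image α)ᶜ

theorem mem_Sm {n : ℕ} {α : Fin 9 → Fin n} {i : Fin n} : i ∈ Sm α ↔ i ∉ Set.range α := by
  unfold Sm
  rw [Finset.mem_compl, Finset.mem_image]
  simp

theorem sum_Sm {n : ℕ} {α : Fin 9 → Fin n} (hα : Function.Injective α) (f : Fin n → ℕ) :
    ∑ i, f i = ∑ s, f (α s) + ∑ i ∈ Sm α, f i := by
  unfold Sm
  rw [← Finset.sum_add_sum_compl (Finset.univ.image α) f, Finset.sum_image (fun a _ b _ h => hα h)]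

end Pool.MP_70e04f_ag.Strip

end

/-! ### from `Lib_MP_70e04f_thin.TEffA` -/

section

/-!
# Piece TEFFA: minors of an integral matrix

Let `Bz n N a` be the matrix `condMat N a` of the generic configuration with integral coefficients.
-/

set_option autoImplicit false

namespace Pool.MP_70e04f_ag.Strip

open MvPolynomial

/-- the matrix of the conditions at the generic configuration, over `ℤ` -/
noncomputable def Bz (n N : ℕ) (a : Fin n → ℕ) :
    Matrix (Σ i : Fin n, ↥(tri (a i))) ↥(tri N) (MvPolynomial (Fin n × Fin 2) ℤ) :=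
  condMat N a (fun i c => X (i, c))

/-- PROOF. `condMat_map` (see `SGExp_map` in `Lib_MP_70e04f_strip/SGExp.lean`). -/
theorem Bz_map {n N : ℕ} {a : Fin n → ℕ} {S : Type*} [CommRing S] (p : Fin n → Fin 2 → S) :
    (Bz n N a).map (eval₂Hom (Int.castRingHom S) (fun q : Fin n × Fin 2 => p q.1 q.2)) =
      condMat N a p := by
  unfold Bz
  rw [condMat_map]
  congr 1
  funext i c
  simp

/-- PROOF. `Bz_map`, `RingHom.map_det`, `Matrix.submatrix_map`. -/
theorem minor_map {n N : ℕ} {a : Fin n → ℕ} {S : Type*} [CommRing S] (p : Fin n → Fin 2 → S)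
    (f : ↥(tri N) → (Σ i : Fin n, ↥(tri (a i)))) :
    eval₂Hom (Int.castRingHom S) (fun q : Fin n × Fin 2 => p q.1 q.2)
      (((Bz n N a).submatrix f id).det) = ((condMat N a p).submatrix f id).det := by
  rw [RingHom.map_det, ← Bz_map]
  rfl

/-- A nonzero integral polynomial is not zero at some complex configuration.
PROOF. `map (Int.castRingHom ℂ) g ≠ 0` and `MvPolynomial.funext`. -/
theorem exists_eval_ne {σ : Type*} {g : MvPolynomial σ ℤ} (hg : g ≠ 0) :
    ∃ x : σ → ℂ, eval₂Hom (Int.castRingHom ℂ) x g ≠ 0 := by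
  by_contra hcon
  push Not at hcon
  apply hg
  have h2 : Function.Injective (Int.castRingHom ℂ) := Int.cast_injective
  apply map_injective (Int.castRingHom ℂ) h2
  rw [map_zero]
  apply MvPolynomial.funext
  intro x
  rw [eval_map, map_zero]
  exact hcon x

/-- A nonzero integral polynomial does not vanish at the generic configuration in large
characteristic.
PROOF. Let `c ≠ 0` be a coefficient of `g` and `B = |c|`. For `ℓ > B`,
`map (Int.castRingHom (ZMod ℓ)) g ≠ 0` (its coefficient `(c : ZMod ℓ)` is not zero), and evaluation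
at `gp` of an integral polynomial is the composition of `map (Int.castRingHom (ZMod ℓ))` with the map
`algebraMap (RR n ℓ) (KK n ℓ)`, which is injective (`gp` is the image of the variables). -/
theorem eval_gp_ne {n : ℕ} {g : MvPolynomial (Fin n × Fin 2) ℤ} (hg : g ≠ 0) :
    ∃ B : ℕ, ∀ ℓ : ℕ, ∀ [Fact ℓ.Prime], B < ℓ →
      eval₂Hom (Int.castRingHom (KK n ℓ)) (fun q : Fin n × Fin 2 => gp n ℓ q.1 q.2) g ≠ 0 := by
  obtain ⟨m, hm⟩ := MvPolynomial.ne_zero_iff.1 hg
  refine ⟨(coeff m g).natAbs, fun ℓ _ hl => ?_⟩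
  have h1 : map (Int.castRingHom (ZMod ℓ)) g ≠ 0 := by
    intro h0
    have h2 := congrArg (coeff m) h0
    rw [coeff_map, coeff_zero, eq_intCast, ZMod.intCast_zmod_eq_zero_iff_dvd] at h2
    have h3 : ℓ ∣ (coeff m g).natAbs := Int.natCast_dvd.1 h2
    have h4 := Nat.le_of_dvd (Int.natAbs_pos.2 hm) h3
    omega
  have h2 : eval₂Hom (Int.castRingHom (KK n ℓ)) (fun q : Fin n × Fin 2 => gp n ℓ q.1 q.2) =
      (algebraMap (RR n ℓ) (KK n ℓ)).comp (map (Int.castRingHom (ZMod ℓ))) := by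
    apply MvPolynomial.ringHom_ext
    · intro r
      simp
    · intro q
      simp [gp]
  rw [h2, RingHom.comp_apply]
  intro h3
  exact h1 ((IsFractionRing.injective (RR n ℓ) (KK n ℓ)) (by rw [h3, map_zero]))

end Pool.MP_70e04f_ag.Strip

end

/-! ### from `Lib_MP_70e04f_gon.GDefs` -/

section

/-!
# The strip of width one seventh (SHGH): definitions

See `Blueprint.md`.
-/

set_option autoImplicit false

namespace Pool.MP_70e04f_ag.Strip

open MvPolynomial

/-- geometric irreducibility -/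
def GIrr {k : Type} [Field k] (F : A2 k) : Prop :=
  Irreducible (MvPolynomial.map (algebraMap k (AlgebraicClosure k)) F)

end Pool.MP_70e04f_ag.Strip

end

/-! ### from `Lib_MP_70e04f_gon.GDesc` -/

section

/-!
# Piece GDESC: descent of a linear relation modulo a curve
-/

set_option autoImplicit false

namespace Pool.MP_70e04f_ag.Strip

open MvPolynomial

theorem GDesc_coeff {k K : Type*} [Field k] [Field K] [Algebra k K] (f : K →ₗ[k] k) :
    ∃ Λ : A2 K → A2 k, ∀ H s, coeff s (Λ H) = f (coeff s H) := by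
  classical
  refine ⟨fun H => ∑ s ∈ H.support, monomial s (f (coeff s H)), fun H s => ?_⟩
  simp only [coeff_sum, coeff_monomial]
  rw [Finset.sum_ite_eq']
  split_ifs with h
  · rfl
  · rw [notMem_support_iff.1 h, map_zero]

/-- PROOF. Suppose `α ≠ 0` (the other case is symmetric). There is a `k`-linear functional
`f : K → k` with `f α ≠ 0` (`Module.exists_dual_forall_apply_ne_zero`-type lemma, e.g.
`Module.forall_dual_apply_eq_zero_iff`). Let `Λ : A2 K → A2 k` apply `f` to the coefficients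
(`Finsupp.mapRange.linearMap`, or `∑ s ∈ support, monomial s (f (coeff s g))`). Then
`Λ (map φ g * H) = g * Λ H` for `g : A2 k` (additivity and monomials: compare coefficients with
`coeff_mul`). From `C α * map φ u + C β * map φ w = map φ F * H`:
`C (f α) * u + C (f β) * w = F * Λ H`. -/
theorem descent {k K : Type*} [Field k] [Field K] [Algebra k K] {F u w : A2 k} {α β : K}
    (h0 : α ≠ 0 ∨ β ≠ 0)
    (h : map (algebraMap k K) F ∣ C α * map (algebraMap k K) u + C β * map (algebraMap k K) w) :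
    ∃ α' β' : k, (α' ≠ 0 ∨ β' ≠ 0) ∧ F ∣ C α' * u + C β' * w := by
  classical
  obtain ⟨H, hH⟩ := h
  have sm : ∀ (f : K →ₗ[k] k) (a : k) (b : K), f (algebraMap k K a * b) = a * f b := by
    intro f a b
    rw [← Algebra.smul_def, map_smul, smul_eq_mul]
  have main : ∀ f : K →ₗ[k] k, F ∣ C (f α) * u + C (f β) * w := by
    intro f
    obtain ⟨Λ, hΛ⟩ := GDesc_coeff f
    refine ⟨Λ H, ?_⟩
    ext s
    have h1 := congrArg (fun p => f (coeff s p)) hH
    simp only [coeff_add, coeff_C_mul, coeff_map, map_add] at h1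
    rw [mul_comm α, mul_comm β, sm, sm, coeff_mul, map_sum] at h1
    simp only [coeff_map] at h1
    rw [coeff_add, coeff_C_mul, coeff_C_mul, coeff_mul, mul_comm (f α), mul_comm (f β), h1]
    refine Finset.sum_congr rfl fun x _ => ?_
    rw [sm, hΛ]
  have ex : ∀ γ : K, γ ≠ 0 → ∃ f : K →ₗ[k] k, f γ ≠ 0 := by
    intro γ hγ
    by_contra hcon
    push Not at hcon
    exact hγ ((Module.forall_dual_apply_eq_zero_iff k γ).1 hcon)
  rcases h0 with h0 | h0
  · obtain ⟨f, hf⟩ := ex α h0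
    exact ⟨f α, f β, Or.inl hf, main f⟩
  · obtain ⟨f, hf⟩ := ex β h0
    exact ⟨f α, f β, Or.inr hf, main f⟩

end Pool.MP_70e04f_ag.Strip

end

/-! ### from `Lib_MP_70e04f_gon.GInd` -/

section

/-!
# Piece GIND: independence of the monomials in two independent sections
-/

set_option autoImplicit false

namespace Pool.MP_70e04f_ag.Strip

open MvPolynomial

/-- PROOF. Suppose that `c a ≠ 0` for some `a ≤ κ`. Apply `map (algebraMap k K)`,
`K = AlgebraicClosure k`, to the divisibility: `prime_dvd_form` (`A = A2 K`, the prime `map _ F`,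
`hG.prime`) and `descent` give `α, β ∈ k`, not both zero, with `F ∣ C α * u + C β * w`. -/
theorem monomials_indep2 {k : Type} [Field k] {F u w : A2 k} (hG : GIrr F)
    (h : ∀ α β : k, F ∣ C α * u + C β * w → α = 0 ∧ β = 0) (κ : ℕ) (c : ℕ → k)
    (hc : F ∣ ∑ a ∈ Finset.range (κ + 1), C (c a) * (u ^ a * w ^ (κ - a))) :
    ∀ a ∈ Finset.range (κ + 1), c a = 0 := by
  by_contra hcon
  push Not at hcon
  obtain ⟨a0, ha0, hca⟩ := hcon
  have h1 := map_dvd (MvPolynomial.map (algebraMap k (AlgebraicClosure k))) hc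
  rw [map_sum] at h1
  have h2 : MvPolynomial.map (algebraMap k (AlgebraicClosure k)) F ∣
      ∑ a ∈ Finset.range (κ + 1), algebraMap (AlgebraicClosure k) (A2 (AlgebraicClosure k))
        (algebraMap k (AlgebraicClosure k) (c a)) *
        (MvPolynomial.map (algebraMap k (AlgebraicClosure k)) u ^ a *
          MvPolynomial.map (algebraMap k (AlgebraicClosure k)) w ^ (κ - a)) := by
    refine h1.trans (dvd_of_eq ?_)
    refine Finset.sum_congr rfl fun a _ => ?_
    rw [map_mul, map_mul, map_pow, map_pow, map_C]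
    rfl
  obtain ⟨α, β, h0, h3⟩ := prime_dvd_form hG.prime _ _ κ
    (fun a => algebraMap k (AlgebraicClosure k) (c a))
    ⟨a0, ha0, fun h => hca ((algebraMap k (AlgebraicClosure k)).injective (by rw [h, map_zero]))⟩ h2
  obtain ⟨α', β', h4, h5⟩ := descent h0 h3
  obtain ⟨h6, h7⟩ := h α' β' h5
  rcases h4 with h4 | h4
  · exact h4 h6
  · exact h4 h7

end Pool.MP_70e04f_ag.Strip

end
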