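import Pool.Agent.Lib_MP_70e04f_m.M05
import Pool.Agent.Lib_MP_70e04f_m.M15
import Pool.Agent.Lib_MP_70e04f_m.M18

/-!
# MP_70e04f_ag, plane linear systems: merged library part M19

Concatenation of smaller files (each in its own section), only to save build time.
-/

/-! ### from `Lib_MP_70e04f_strip.SJet` -/

section

/-!
# Piece SJET: interpolation of jets, and the number of conditions of fat points
-/

set_option autoImplicit false

namespace Pool.MP_70e04f_ag.Strip

open MvPolynomial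

variable {k : Type*} [Field k] {n : ℕ} {p : Fin n → Fin 2 → k}

theorem SJet_max (q : Fin 2 → k) : (mp q).IsMaximal :=
  RingHom.ker_isMaximal_of_surjective (MvPolynomial.eval q) (fun c => ⟨C c, by simp⟩)

theorem SJet_ne (hp : Function.Injective p) {i j : Fin n} (hij : i ≠ j) :
    mp (p i) ≠ mp (p j) := by
  intro h
  apply hij
  apply hp
  funext c
  have h1 : (X c - C (p i c) : A2 k) ∈ mp (p i) := mem_mp.2 (by simp)
  rw [h] at h1
  have h2 := mem_mp.1 h1
  rw [map_sub, eval_X, eval_C] at h2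
  exact (sub_eq_zero.1 h2).symm

theorem SJet_shift (q : Fin 2 → k) (f : A2 k) : shift q (shift (fun i => - q i) f) = f := by
  have h := shift_shift_neg (fun i => - q i) f
  simp only [neg_neg] at h
  exact h

/-- Powers of the maximal ideals of different points are comaximal.
PROOF. `mp (p i)` and `mp (p j)` are different maximal ideals (kernels of surjective evaluations; if
`p i c ≠ p j c` then `X c - C (p i c)` is in the first and not in the second); powers of comaximal
ideals are comaximal (`IsCoprime.pow` / `Ideal.pow_sup_pow_eq_top`). -/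
theorem mp_coprime (hp : Function.Injective p) {i j : Fin n} (hij : i ≠ j) (a b : ℕ) :
    IsCoprime (mp (p i) ^ a) (mp (p j) ^ b) := by
  have := SJet_max (p i)
  have := SJet_max (p j)
  exact (Ideal.isCoprime_of_isMaximal (SJet_ne hp hij)).pow

/-- Chinese remainder theorem for the points `p i`.
PROOF. `Ideal.quotientInfToPiQuotient_surj` (or `Ideal.exists_forall_sub_mem_ideal`) for the pairwise
comaximal ideals `mp (p i) ^ β i`. -/
theorem crt (hp : Function.Injective p) (β : Fin n → ℕ) (g : Fin n → A2 k) :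
    ∃ f : A2 k, ∀ i, f - g i ∈ mp (p i) ^ β i := by
  exact Ideal.exists_forall_sub_mem_ideal (I := fun i => mp (p i) ^ β i)
    (fun i j hij => mp_coprime hp hij _ _) g

/-- Interpolation of jets.
PROOF. `g i := shift (-p i)` of the polynomial `∑ r ∈ tri (β i), c i r • (X 0 ^ r.1 * X 1 ^ r.2)`, then
`crt`, and `mem_mp_pow` for the difference. -/
theorem jets (hp : Function.Injective p) (β : Fin n → ℕ) (c : Fin n → ℕ → ℕ → k) :
    ∃ f : A2 k, ∀ i a b, a + b < β i → coeff (mon a b) (shift (p i) f) = c i a b := by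
  obtain ⟨f, hf⟩ := crt hp β (fun i => shift (fun j => - p i j)
    (toPoly k (β i) (fun q => c i q.1.1 q.1.2)))
  refine ⟨f, fun i a b hab => ?_⟩
  have h1 := mem_mp_pow.1 (hf i) a b hab
  rw [map_sub, coeff_sub, SJet_shift] at h1
  have h2 := coeff_toPoly (K := k) (N := β i) (fun q => c i q.1.1 q.1.2)
    ⟨(a, b), mem_tri.2 hab⟩
  rw [sub_eq_zero.1 h1]
  exact h2

/-- the Taylor coefficients at all points -/
noncomputable def SJet_T (p : Fin n → Fin 2 → k) (β : Fin n → ℕ) :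
    A2 k →ₗ[k] ((i : Fin n) → (↥(tri (β i)) → k)) where
  toFun f := fun i q => coeff (mon q.1.1 q.1.2) (shift (p i) f)
  map_add' f g := by
    funext i q
    rw [map_add, coeff_add]
    rfl
  map_smul' c f := by
    funext i q
    rw [map_smul, coeff_smul]
    rfl

theorem SJet_T_apply (p : Fin n → Fin 2 → k) (β : Fin n → ℕ) (f : A2 k) (i : Fin n)
    (q : ↥(tri (β i))) : SJet_T p β f i q = coeff (mon q.1.1 q.1.2) (shift (p i) f) := rfl

theorem SJet_T_ker (p : Fin n → Fin 2 → k) (β : Fin n → ℕ) :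
    LinearMap.ker (SJet_T p β) = sp (Iz p β) := by
  ext f
  rw [LinearMap.mem_ker, mem_sp, mem_Iz]
  constructor
  · intro h i
    rw [mem_mp_pow]
    intro a b hab
    have h1 := congrFun (congrFun h i) ⟨(a, b), mem_tri.2 hab⟩
    exact h1
  · intro h
    funext i q
    exact mem_mp_pow.1 (h i) q.1.1 q.1.2 (mem_tri.1 q.2)

theorem SJet_T_surj (hp : Function.Injective p) (β : Fin n → ℕ) :
    Function.Surjective (SJet_T p β) := by
  classical
  intro v
  obtain ⟨f, hf⟩ := jets hp β (fun i a b =>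
    if h : (a, b) ∈ tri (β i) then v i ⟨(a, b), h⟩ else 0)
  refine ⟨f, ?_⟩
  funext i q
  rw [SJet_T_apply, hf i q.1.1 q.1.2 (mem_tri.1 q.2)]
  exact dif_pos q.2

/-- the quotient by the ideal of the points -/
noncomputable def SJet_equiv (hp : Function.Injective p) (β : Fin n → ℕ) :
    (A2 k ⧸ sp (Iz p β)) ≃ₗ[k] ((i : Fin n) → (↥(tri (β i)) → k)) :=
  (Submodule.quotEquivOfEq _ _ (SJet_T_ker p β).symm).trans
    ((SJet_T p β).quotKerEquivOfSurjective (SJet_T_surj hp β))

/-- PROOF. The `k`-linear map `A2 k → Π i, (tri (β i) → k)` given by the Taylor coefficients at the points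
`p i` is surjective (`jets`) with kernel `sp (Iz p β)` (`mem_Iz`, `mem_mp_pow`), so
`A2 k ⧸ sp (Iz p β)` is isomorphic to the right side (`LinearMap.quotKerEquivOfSurjective`). -/
theorem finC_Iz (hp : Function.Injective p) (β : Fin n → ℕ) : FinC (Iz p β) := by
  unfold FinC
  exact Module.Finite.equiv (SJet_equiv hp β).symm

/-- PROOF. See `finC_Iz`; the cardinality of `tri m` is `m (m + 1) / 2` (`two_card_tri` in
`Lib_MP_70e04f_ag/Count.lean`, which may be imported). -/
theorem len_Iz (hp : Function.Injective p) (β : Fin n → ℕ) :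
    2 * len (Iz p β) = ∑ i, β i * (β i + 1) := by
  have h : len (Iz p β) = ∑ i, (tri (β i)).card := by
    unfold len
    rw [(SJet_equiv hp β).finrank_eq, Module.finrank_pi_fintype]
    refine Finset.sum_congr rfl fun i _ => ?_
    rw [Module.finrank_fintype_fun_eq_card, Fintype.card_coe]
  rw [h, Finset.mul_sum]
  exact Finset.sum_congr rfl fun i _ => two_card_tri (β i)

/-- A polynomial which does not vanish at the points `p i` is a unit modulo `Iz p β`.
PROOF. `w ∉ mp (p i)`, which is maximal, so `(w)` is comaximal with `mp (p i)` and with its powers: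
choose `g i` with `w * g i - 1 ∈ mp (p i) ^ β i`; apply `crt` to `g`. -/
theorem unit_mod (hp : Function.Injective p) (β : Fin n → ℕ) (w : A2 k)
    (hw : ∀ i, w ∉ mp (p i)) : ∃ w' : A2 k, w * w' - 1 ∈ Iz p β := by
  have h : ∀ i, ∃ g : A2 k, w * g - 1 ∈ mp (p i) ^ β i := by
    intro i
    obtain ⟨y, z, hz, hyz⟩ := (SJet_max (p i)).exists_inv (hw i)
    have hc : IsCoprime (pr w) (mp (p i)) := by
      rw [Ideal.isCoprime_iff_exists]
      exact ⟨y * w, mem_pr.2 (dvd_mul_left _ _), z, hz, hyz⟩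
    have hc2 : IsCoprime (pr w) (mp (p i) ^ β i) := hc.pow_right
    rw [Ideal.isCoprime_iff_exists] at hc2
    obtain ⟨u, hu, v, hv, huv⟩ := hc2
    obtain ⟨g, rfl⟩ := mem_pr.1 hu
    refine ⟨g, ?_⟩
    have e : w * g - 1 = -v := by rw [← huv]; ring
    rw [e]
    exact neg_mem hv
  choose g hg using h
  obtain ⟨f, hf⟩ := crt hp β g
  refine ⟨f, mem_Iz.2 fun i => ?_⟩
  have e : w * f - 1 = w * (f - g i) + (w * g i - 1) := by ring
  rw [e]
  exact add_mem (Ideal.mul_mem_left _ _ (hf i)) (hg i)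

end Pool.MP_70e04f_ag.Strip

end

/-! ### from `Lib_MP_70e04f_strip.SLen` -/

section

/-!
# Piece SLEN: the number of conditions of fat points on a curve
-/

set_option autoImplicit false

namespace Pool.MP_70e04f_ag.Strip

open MvPolynomial

variable {k : Type*} [Field k] {n : ℕ} {p : Fin n → Fin 2 → k}

/-- the kernel of the multiplication by `F` modulo `Iz p β` -/
theorem slen_ker {F : A2 k} (hF : F ≠ 0) (β : Fin n → ℕ) :
    LinearMap.ker ((sp (Iz p β)).mkQ ∘ₗ LinearMap.mulLeft k F) =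
      sp (Iz p (fun i => β i - mu (p i) F)) := by
  ext g
  rw [LinearMap.mem_ker, LinearMap.comp_apply, Submodule.mkQ_apply,
    Submodule.Quotient.mk_eq_zero, LinearMap.mulLeft_apply, mem_sp, mem_sp, mem_Iz, mem_Iz]
  constructor
  · intro h i
    exact mem_of_mul_mem hF (h i)
  · intro h i
    have h1 : F ∈ mp (p i) ^ mu (p i) F := (mem_iff_le_mu hF _).2 le_rfl
    have h2 := Ideal.mul_mem_mul h1 (h i)
    rw [← pow_add] at h2
    exact Ideal.pow_le_pow_right (by omega) h2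

/-- the image of `Iz p β ⊔ pr F` modulo `Iz p β` -/
theorem slen_map {F : A2 k} (β : Fin n → ℕ) :
    (sp (Iz p β ⊔ pr F)).map (sp (Iz p β)).mkQ =
      LinearMap.range ((sp (Iz p β)).mkQ ∘ₗ LinearMap.mulLeft k F) := by
  rw [LinearMap.range_comp, sp_sup, Submodule.map_sup]
  have h1 : (sp (Iz p β)).map (sp (Iz p β)).mkQ = ⊥ := by
    rw [eq_bot_iff, Submodule.map_le_iff_le_comap, Submodule.comap_bot, Submodule.ker_mkQ]
  have h2 : sp (pr F) = LinearMap.range (LinearMap.mulLeft k F) := by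
    ext g
    rw [mem_sp, mem_pr, LinearMap.mem_range]
    constructor
    · rintro ⟨c, hc⟩
      exact ⟨c, by rw [LinearMap.mulLeft_apply, hc]⟩
    · rintro ⟨c, hc⟩
      exact ⟨c, by rw [← hc, LinearMap.mulLeft_apply]⟩
  rw [h1, h2, bot_sup_eq]

/-- the exact sequence -/
theorem slen_add (hp : Function.Injective p) {F : A2 k} (hF : F ≠ 0) (β : Fin n → ℕ) :
    len (Iz p β ⊔ pr F) + len (Iz p (fun i => β i - mu (p i) F)) = len (Iz p β) := by
  have hfin : Module.Finite k (A2 k ⧸ sp (Iz p β)) := finC_Iz hp β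
  have hle : sp (Iz p β) ≤ sp (Iz p β ⊔ pr F) := sp_mono le_sup_left
  have h1 := Submodule.finrank_quotient_add_finrank
    ((sp (Iz p β ⊔ pr F)).map (sp (Iz p β)).mkQ)
  have h2 := (Submodule.quotientQuotientEquivQuotient (sp (Iz p β)) (sp (Iz p β ⊔ pr F))
    hle).finrank_eq
  have h3 := (LinearMap.quotKerEquivRange
    ((sp (Iz p β)).mkQ ∘ₗ LinearMap.mulLeft k F)).finrank_eq
  rw [slen_ker hF, ← slen_map] at h3
  unfold len
  rw [← h2, h3, h1]

/-- PROOF. Let `γ i = β i - mu (p i) F` (truncated). Multiplication by `F` is a linear map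
`A2 k ⧸ sp (Iz p γ) → A2 k ⧸ sp (Iz p β)` (well defined since `F ∈ mp (p i) ^ mu (p i) F`), injective by
`mem_of_mul_mem`, and its range is the kernel of `A2 k ⧸ sp (Iz p β) → A2 k ⧸ sp (Iz p β ⊔ pr F)`. So
`len (Iz p β ⊔ pr F) = len (Iz p β) - len (Iz p γ)`, and by `len_Iz`
`2 len = ∑ β i (β i + 1) - γ i (γ i + 1)`. If `a = mu (p i) F ≤ β i` then
`β (β + 1) - (β - a) (β - a + 1) = 2 a β - a (a - 1)`; if `a = β + 1` both sides are `a (a - 1)`. -/
theorem len_curve (hp : Function.Injective p) {F : A2 k} (hF : F ≠ 0) (β : Fin n → ℕ)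
    (hβ : ∀ i, mu (p i) F ≤ β i + 1) :
    2 * (len (Iz p β ⊔ pr F) : ℤ) =
      ∑ i, (2 * (mu (p i) F : ℤ) * β i - (mu (p i) F : ℤ) * ((mu (p i) F : ℤ) - 1)) := by
  have h1 := slen_add hp hF β
  have h2 := len_Iz hp β
  have h3 := len_Iz hp (fun i => β i - mu (p i) F)
  have h1' : (len (Iz p β ⊔ pr F) : ℤ) = (len (Iz p β) : ℤ) -
      (len (Iz p (fun i => β i - mu (p i) F)) : ℤ) := by
    have := congrArg (fun x : ℕ => (x : ℤ)) h1
    push_cast at this
    linarith
  have h2' : 2 * (len (Iz p β) : ℤ) = ∑ i, (β i : ℤ) * ((β i : ℤ) + 1) := by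
    have := congrArg (fun x : ℕ => (x : ℤ)) h2
    push_cast at this
    exact this
  have h3' : 2 * (len (Iz p (fun i => β i - mu (p i) F)) : ℤ) =
      ∑ i, ((β i - mu (p i) F : ℕ) : ℤ) * (((β i - mu (p i) F : ℕ) : ℤ) + 1) := by
    have := congrArg (fun x : ℕ => (x : ℤ)) h3
    simp only [Nat.cast_mul, Nat.cast_sum, Nat.cast_add, Nat.cast_one, Nat.cast_ofNat] at this
    exact this
  rw [h1', mul_sub, h2', h3', ← Finset.sum_sub_distrib]
  refine Finset.sum_congr rfl fun i _ => ?_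
  have hi := hβ i
  rcases Nat.lt_or_ge (β i) (mu (p i) F) with h | h
  · have e : mu (p i) F = β i + 1 := by omega
    rw [Nat.sub_eq_zero_of_le h.le, e]
    push_cast
    ring
  · rw [Nat.cast_sub h]
    ring

end Pool.MP_70e04f_ag.Strip

end

/-! ### from `Lib_MP_70e04f_strip.SDim` -/

section

/-!
# Piece SDIM: dimension formulas (linear algebra)
-/

set_option autoImplicit false

namespace Pool.MP_70e04f_ag.Strip

open MvPolynomial

variable {k : Type*} [Field k]

/-- PROOF. `Pt k t` is the range of the injective map `toPoly k (t + 1)` from `↥(tri (t + 1)) → k`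
(`mem_range_toPoly`, `toPoly_injective`), and `two_card_tri`. -/
theorem two_finrank_Pt (t : ℕ) : 2 * Module.finrank k ↥(Pt k t) = (t + 1) * (t + 2) := by
  have h1 : Pt k t = LinearMap.range (toPoly k (t + 1)) := by
    ext f
    rw [LinearMap.mem_range]
    exact mem_range_toPoly t f
  rw [h1, LinearMap.finrank_range_of_inj (toPoly_injective k (t + 1)),
    Module.finrank_fintype_fun_eq_card, Fintype.card_coe, two_card_tri]

/-- PROOF. The map `Pt k t → A2 k ⧸ sp a` has kernel `Pt k t ⊓ sp a` and the quotient of the target by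
its range is `A2 k ⧸ (Pt k t ⊔ sp a)`: rank nullity twice. -/
theorem cod_add {a : Ideal (A2 k)} (ha : FinC a) (t : ℕ) :
    cod t a + Module.finrank k ↥(Pt k t) = len a + Module.finrank k ↥(Pt k t ⊓ sp a) := by
  have hfin : Module.Finite k (A2 k ⧸ sp a) := ha
  -- the map from `Pt` to the quotient
  let φ : ↥(Pt k t) →ₗ[k] (A2 k ⧸ sp a) := (sp a).mkQ.comp (Pt k t).subtype
  have h1 := LinearMap.finrank_range_add_finrank_ker φ
  have hr : LinearMap.range φ = (Pt k t).map (sp a).mkQ := by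
    rw [LinearMap.range_comp, Submodule.range_subtype]
  have hk : Module.finrank k ↥(LinearMap.ker φ) = Module.finrank k ↥(Pt k t ⊓ sp a) := by
    have e : LinearMap.ker φ = (Pt k t ⊓ sp a).comap (Pt k t).subtype := by
      ext f
      rw [LinearMap.mem_ker, LinearMap.comp_apply, Submodule.mkQ_apply,
        Submodule.Quotient.mk_eq_zero, Submodule.mem_comap, Submodule.mem_inf]
      exact ⟨fun h => ⟨f.2, h⟩, fun h => h.2⟩
    rw [e]
    exact (Submodule.comapSubtypeEquivOfLe (inf_le_left : Pt k t ⊓ sp a ≤ Pt k t)).finrank_eq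
  rw [hr, hk] at h1
  have h2 := Submodule.finrank_quotient_add_finrank ((Pt k t).map (sp a).mkQ)
  have h3 : Module.finrank k ((A2 k ⧸ sp a) ⧸ (Pt k t).map (sp a).mkQ) = cod t a := by
    have e : (PA t a).map (sp a).mkQ = (Pt k t).map (sp a).mkQ := by
      unfold PA
      rw [Submodule.map_sup, Submodule.mkQ_map_self, sup_bot_eq]
    have hle : sp a ≤ PA t a := le_sup_right
    unfold cod
    rw [← e]
    exact (Submodule.quotientQuotientEquivQuotient (sp a) (PA t a) hle).finrank_eq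
  have h4 : len a = Module.finrank k (A2 k ⧸ sp a) := rfl
  omega

/-- PROOF. Multiplication by `F` is an isomorphism from `Pt k s` to `Pt k (s + deg F) ⊓ sp (pr F)`
(`totalDegree_mul_of_isDomain`). -/
theorem finrank_inf_pr {F : A2 k} (hF : F ≠ 0) (s : ℕ) :
    Module.finrank k ↥(Pt k (s + F.totalDegree) ⊓ sp (pr F)) = Module.finrank k ↥(Pt k s) := by
  have hinj : Function.Injective (LinearMap.mulLeft k F) := by
    intro f g h
    exact mul_left_cancel₀ hF h
  have e : Pt k (s + F.totalDegree) ⊓ sp (pr F) = (Pt k s).map (LinearMap.mulLeft k F) := by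
    ext f
    rw [Submodule.mem_inf, mem_sp, mem_pr, Submodule.mem_map]
    constructor
    · rintro ⟨h1, g, rfl⟩
      refine ⟨g, ?_, rfl⟩
      by_cases hg : g = 0
      · rw [hg]
        exact zero_mem _
      · rw [mem_Pt, totalDegree_mul_of_isDomain hF hg] at h1
        exact mem_Pt.2 (by omega)
    · rintro ⟨g, hg, rfl⟩
      refine ⟨?_, g, rfl⟩
      rw [LinearMap.mulLeft_apply, mul_comm]
      exact mul_mem_Pt hg (mem_Pt.2 le_rfl)
  rw [e]
  exact ((Submodule.equivMapOfInjective _ hinj (Pt k s)).finrank_eq).symm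

/-- PROOF. `F g` has degree `≥ deg F` unless `g = 0`. -/
theorem inf_pr_eq_bot {F : A2 k} {t : ℕ} (ht : t < F.totalDegree) :
    Pt k t ⊓ sp (pr F) = ⊥ := by
  rw [eq_bot_iff]
  intro f hf
  rw [Submodule.mem_inf, mem_sp, mem_pr] at hf
  obtain ⟨h1, g, rfl⟩ := hf
  rw [Submodule.mem_bot]
  have hF : F ≠ 0 := by
    rintro rfl
    rw [totalDegree_zero] at ht
    omega
  by_cases hg : g = 0
  · rw [hg, mul_zero]
  · rw [mem_Pt, totalDegree_mul_of_isDomain hF hg] at h1
    omega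

/-- PROOF. `sec t a F` is the dimension of the image of `Pt k t ⊓ sp a` in `A2 k ⧸ sp (pr F)`, the kernel
is `(Pt k t ⊓ sp a) ⊓ sp (pr F) = Pt k t ⊓ sp (pr F)`. -/
theorem sec_add {F : A2 k} {a : Ideal (A2 k)} (ha : pr F ≤ a) (t : ℕ) :
    Module.finrank k ↥(Pt k t ⊓ sp a) = Module.finrank k ↥(Pt k t ⊓ sp (pr F)) + sec t a F := by
  have hfin : Module.Finite k ↥(Pt k t ⊓ sp a) :=
    Submodule.finiteDimensional_of_le (inf_le_left : Pt k t ⊓ sp a ≤ Pt k t)
  let φ : ↥(Pt k t ⊓ sp a) →ₗ[k] (A2 k ⧸ sp (pr F)) :=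
    (sp (pr F)).mkQ.comp (Pt k t ⊓ sp a).subtype
  have h1 := LinearMap.finrank_range_add_finrank_ker φ
  have hr : LinearMap.range φ = (Pt k t ⊓ sp a).map (sp (pr F)).mkQ := by
    rw [LinearMap.range_comp, Submodule.range_subtype]
  have hle : Pt k t ⊓ sp (pr F) ≤ Pt k t ⊓ sp a := inf_le_inf le_rfl (sp_mono ha)
  have hk : Module.finrank k ↥(LinearMap.ker φ) = Module.finrank k ↥(Pt k t ⊓ sp (pr F)) := by
    have e : LinearMap.ker φ = (Pt k t ⊓ sp (pr F)).comap (Pt k t ⊓ sp a).subtype := by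
      ext f
      rw [LinearMap.mem_ker, LinearMap.comp_apply, Submodule.mkQ_apply,
        Submodule.Quotient.mk_eq_zero, Submodule.mem_comap, Submodule.mem_inf]
      exact ⟨fun h => ⟨(Submodule.mem_inf.1 f.2).1, h⟩, fun h => h.2⟩
    rw [e]
    exact (Submodule.comapSubtypeEquivOfLe hle).finrank_eq
  rw [hr, hk] at h1
  have h4 : sec t a F = Module.finrank k ↥((Pt k t ⊓ sp a).map (sp (pr F)).mkQ) := rfl
  omega

/-- a complement of the multiples of `F`.
PROOF. `Submodule.exists_isCompl` in `↥(Pt k t ⊓ sp a)`, mapped to `A2 k`, and `sec_add`. -/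
theorem exists_sections {F : A2 k} {a : Ideal (A2 k)} (ha : pr F ≤ a) (t : ℕ) :
    ∃ W : Submodule k (A2 k), W ≤ Pt k t ∧ (∀ s ∈ W, s ∈ a) ∧ (∀ s ∈ W, s ≠ 0 → ¬ F ∣ s) ∧
      Module.finrank k ↥W = sec t a F := by
  have hfin : Module.Finite k ↥(Pt k t ⊓ sp a) :=
    Submodule.finiteDimensional_of_le (inf_le_left : Pt k t ⊓ sp a ≤ Pt k t)
  have hle : Pt k t ⊓ sp (pr F) ≤ Pt k t ⊓ sp a := inf_le_inf le_rfl (sp_mono ha)
  obtain ⟨W', hW'⟩ := Submodule.exists_isCompl
    ((Pt k t ⊓ sp (pr F)).comap (Pt k t ⊓ sp a).subtype)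
  have hmem : ∀ s ∈ W'.map (Pt k t ⊓ sp a).subtype, s ∈ Pt k t ⊓ sp a := by
    rintro s ⟨f, _, rfl⟩
    exact f.2
  refine ⟨W'.map (Pt k t ⊓ sp a).subtype, fun s hs => (Submodule.mem_inf.1 (hmem s hs)).1,
    fun s hs => (Submodule.mem_inf.1 (hmem s hs)).2, ?_, ?_⟩
  · rintro s ⟨f, hf, rfl⟩ hs0 hdvd
    apply hs0
    have h1 : f ∈ (Pt k t ⊓ sp (pr F)).comap (Pt k t ⊓ sp a).subtype := by
      rw [Submodule.mem_comap, Submodule.mem_inf]
      exact ⟨(Submodule.mem_inf.1 f.2).1, mem_pr.2 hdvd⟩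
    have h2 := Submodule.disjoint_def.1 hW'.disjoint f h1 hf
    rw [h2]
    rfl
  · have h1 := Submodule.finrank_add_eq_of_isCompl hW'
    have h2 := (Submodule.comapSubtypeEquivOfLe hle).finrank_eq
    have h3 := sec_add ha t
    have h4 := ((Submodule.equivMapOfInjective _ (Submodule.injective_subtype (Pt k t ⊓ sp a))
      W').finrank_eq).symm
    omega

theorem cod_le_len {a : Ideal (A2 k)} (ha : FinC a) (t : ℕ) : cod t a ≤ len a := by
  have hfin : Module.Finite k (A2 k ⧸ sp a) := ha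
  have hle : sp a ≤ PA t a := le_sup_right
  exact LinearMap.finrank_le_finrank_of_surjective (Submodule.factor_surjective hle)

end Pool.MP_70e04f_ag.Strip

end

/-! ### from `Lib_MP_70e04f_strip.SBez` -/

section

/-!
# Piece SBEZ: the theorem of Bezout by dimension counting
-/

set_option autoImplicit false

namespace Pool.MP_70e04f_ag.Strip

open MvPolynomial

variable {k : Type*} [Field k]

/-- an increasing exhausting sequence of finite dimensional subspaces of bounded dimension -/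
theorem SBez_exhaust {V : Type*} [AddCommGroup V] [Module k V] (B : ℕ → Submodule k V)
    (hfd : ∀ t, Module.Finite k ↥(B t)) (hmono : ∀ s t, s ≤ t → B s ≤ B t)
    (hex : ∀ v : V, ∃ t, v ∈ B t) (N : ℕ) (hN : ∀ t, Module.finrank k ↥(B t) ≤ N) :
    Module.Finite k V ∧ Module.finrank k V ≤ N := by
  obtain ⟨_, ⟨t0, rfl⟩, hmin⟩ := (wellFounded_lt (α := ℕ)).has_min
    (Set.range fun t => N - Module.finrank k ↥(B t)) ⟨_, 0, rfl⟩
  have hmax : ∀ t, Module.finrank k ↥(B t) ≤ Module.finrank k ↥(B t0) := by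
    intro t
    have h1 := hmin _ ⟨t, rfl⟩
    have h2 := hN t
    have h3 := hN t0
    simp only at h1
    omega
  have htop : B t0 = ⊤ := by
    rw [eq_top_iff]
    intro v _
    obtain ⟨t, ht⟩ := hex v
    have h1 : B t0 ≤ B (max t t0) := hmono _ _ (le_max_right _ _)
    have := hfd (max t t0)
    have h2 : B t0 = B (max t t0) := Submodule.eq_of_le_of_finrank_le h1 (hmax _)
    rw [h2]
    exact hmono _ _ (le_max_left _ _) ht
  have := hfd t0
  refine ⟨Module.Finite.equiv (LinearEquiv.ofTop (B t0) htop), ?_⟩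
  rw [← (LinearEquiv.ofTop (B t0) htop).finrank_eq]
  exact hN t0

/-- rank and nullity for the image of `Pt k t` in a quotient -/
theorem SBez_rank (t : ℕ) (J : Submodule k (A2 k)) :
    Module.finrank k ↥((Pt k t).map J.mkQ) + Module.finrank k ↥(Pt k t ⊓ J) =
      Module.finrank k ↥(Pt k t) := by
  have h1 := LinearMap.finrank_range_add_finrank_ker (J.mkQ ∘ₗ (Pt k t).subtype)
  have h2 : LinearMap.range (J.mkQ ∘ₗ (Pt k t).subtype) = (Pt k t).map J.mkQ := by
    rw [LinearMap.range_comp, Submodule.range_subtype]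
  have h3 : LinearMap.ker (J.mkQ ∘ₗ (Pt k t).subtype) = J.comap (Pt k t).subtype := by
    rw [LinearMap.ker_comp, Submodule.ker_mkQ]
  have h4 : Module.finrank k ↥(J.comap (Pt k t).subtype) = Module.finrank k ↥(Pt k t ⊓ J) := by
    have e := Submodule.equivSubtypeMap (Pt k t) (J.comap (Pt k t).subtype)
    rw [e.finrank_eq, Submodule.map_comap_subtype]
  rw [h2, h3, h4] at h1
  exact h1

/-- the combination map `(u, v) ↦ F u + G v` -/
noncomputable def SBez_psi (F G : A2 k) (a b : ℕ) : (↥(Pt k a) × ↥(Pt k b)) →ₗ[k] A2 k :=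
  LinearMap.coprod (LinearMap.mulLeft k F ∘ₗ (Pt k a).subtype)
    (LinearMap.mulLeft k G ∘ₗ (Pt k b).subtype)

theorem SBez_psi_apply (F G : A2 k) (a b : ℕ) (u : ↥(Pt k a)) (v : ↥(Pt k b)) :
    SBez_psi F G a b (u, v) = F * u + G * v := by
  simp [SBez_psi]

/-- the syzygies `w ↦ (G w, - F w)` -/
noncomputable def SBez_theta (F G : A2 k) (s : ℕ) :
    ↥(Pt k s) →ₗ[k] ↥(Pt k (G.totalDegree + s)) × ↥(Pt k (F.totalDegree + s)) :=
  LinearMap.prod
    ((LinearMap.mulLeft k G ∘ₗ (Pt k s).subtype).codRestrict (Pt k (G.totalDegree + s))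
      (fun w => mul_mem_Pt (mem_Pt.2 le_rfl) w.2))
    ((LinearMap.mulLeft k (-F) ∘ₗ (Pt k s).subtype).codRestrict (Pt k (F.totalDegree + s))
      (fun w => mul_mem_Pt (mem_Pt.2 (totalDegree_neg F).le) w.2))

theorem SBez_ker {F G : A2 k} (hF : F ≠ 0) (h : IsRelPrime F G) (s : ℕ) :
    Module.finrank k ↥(LinearMap.ker (SBez_psi F G (G.totalDegree + s) (F.totalDegree + s))) ≤
      Module.finrank k ↥(Pt k s) := by
  have h1 : LinearMap.ker (SBez_psi F G (G.totalDegree + s) (F.totalDegree + s)) ≤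
      LinearMap.range (SBez_theta F G s) := by
    rintro ⟨u, v⟩ huv
    rw [LinearMap.mem_ker, SBez_psi_apply] at huv
    have h2 : F ∣ G * (v : A2 k) := ⟨-u, by linear_combination huv⟩
    have h3 : F ∣ (v : A2 k) := h.dvd_of_dvd_mul_left h2
    obtain ⟨w, hw⟩ := h3
    have h4 : (u : A2 k) = G * (-w) := by
      have h5 : F * ((u : A2 k) + G * w) = 0 := by
        rw [hw] at huv
        linear_combination huv
      rcases mul_eq_zero.1 h5 with h6 | h6
      · exact absurd h6 hF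
      · linear_combination h6
    have h7 : (-w) ∈ Pt k s := by
      rw [mem_Pt, totalDegree_neg]
      by_cases hw0 : w = 0
      · rw [hw0]; simp
      · have h8 := mem_Pt.1 v.2
        rw [hw, totalDegree_mul_of_isDomain hF hw0] at h8
        omega
    refine ⟨⟨-w, h7⟩, ?_⟩
    unfold SBez_theta
    rw [LinearMap.prod_apply]
    refine Prod.ext ?_ ?_
    · apply Subtype.ext
      simp [h4]
    · apply Subtype.ext
      simp [hw]
  exact (Submodule.finrank_mono h1).trans (LinearMap.finrank_range_le _)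

theorem SBez_bound {F G : A2 k} (hF : F ≠ 0) (h : IsRelPrime F G) (s : ℕ) :
    Module.finrank k ↥((Pt k (s + F.totalDegree + G.totalDegree)).map (sp (pr F ⊔ pr G)).mkQ) ≤
      F.totalDegree * G.totalDegree := by
  have h1 := SBez_rank (s + F.totalDegree + G.totalDegree) (sp (pr F ⊔ pr G))
  have h2 := LinearMap.finrank_range_add_finrank_ker
    (SBez_psi F G (G.totalDegree + s) (F.totalDegree + s))
  rw [Module.finrank_prod] at h2
  have h3 := SBez_ker hF h s
  have h4 : LinearMap.range (SBez_psi F G (G.totalDegree + s) (F.totalDegree + s)) ≤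
      Pt k (s + F.totalDegree + G.totalDegree) ⊓ sp (pr F ⊔ pr G) := by
    rintro _ ⟨⟨u, v⟩, rfl⟩
    rw [SBez_psi_apply]
    constructor
    · refine Submodule.add_mem _ ?_ ?_
      · have h5 := mul_mem_Pt (mem_Pt.2 (le_refl F.totalDegree)) u.2
        refine Pt_mono ?_ h5
        omega
      · have h5 := mul_mem_Pt (mem_Pt.2 (le_refl G.totalDegree)) v.2
        refine Pt_mono ?_ h5
        omega
    · show F * (u : A2 k) + G * (v : A2 k) ∈ pr F ⊔ pr G
      exact Submodule.add_mem_sup (mem_pr.2 ⟨u, rfl⟩) (mem_pr.2 ⟨v, rfl⟩)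
  have h5 : Module.Finite k ↥(Pt k (s + F.totalDegree + G.totalDegree) ⊓ sp (pr F ⊔ pr G)) :=
    Submodule.finiteDimensional_of_le inf_le_left
  have h6 := Submodule.finrank_mono h4
  have h7 := two_finrank_Pt (k := k) (s + F.totalDegree + G.totalDegree)
  have h8 := two_finrank_Pt (k := k) (G.totalDegree + s)
  have h9 := two_finrank_Pt (k := k) (F.totalDegree + s)
  have h10 := two_finrank_Pt (k := k) s
  generalize F.totalDegree = e at *
  generalize G.totalDegree = f at *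
  nlinarith

/-- PROOF. Let `e = deg F`, `f = deg G` and `t ≥ e + f`. The linear map
`Pt k (t - e) × Pt k (t - f) → Pt k t`, `(u, v) ↦ u F + v G` has kernel `{(G w, - F w) : w ∈ Pt k (t-e-f)}`:
if `u F = - v G` then `F ∣ v` (`F`, `G` relatively prime in the UFD `A2 k`), `v = - F w`, `u = G w` and
`deg w ≤ t - e - f`. So by `two_finrank_Pt` the image has codimension `e f` in `Pt k t`, and the image
`B t` of `Pt k t` in `A2 k ⧸ sp (pr F ⊔ pr G)` has dimension `≤ e f`, for all `t ≥ e + f` and then for all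
`t` (`B t` is increasing). `A2 k ⧸ sp (..)` is the union of the increasing sequence `B t`, so it is
finite dimensional of dimension `≤ e f`. -/
theorem bez {F G : A2 k} (hF : F ≠ 0) (hG : G ≠ 0) (h : IsRelPrime F G) :
    FinC (pr F ⊔ pr G) ∧ len (pr F ⊔ pr G) ≤ F.totalDegree * G.totalDegree := by
  have _ := hG
  unfold FinC len
  have hmono : ∀ s t, s ≤ t → (Pt k s).map (sp (pr F ⊔ pr G)).mkQ ≤
      (Pt k t).map (sp (pr F ⊔ pr G)).mkQ := fun s t hst => Submodule.map_mono (Pt_mono hst)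
  refine SBez_exhaust (fun t => (Pt k t).map (sp (pr F ⊔ pr G)).mkQ) (fun t => inferInstance)
    hmono ?_ _ ?_
  · intro v
    obtain ⟨g, rfl⟩ := Submodule.mkQ_surjective _ v
    exact ⟨g.totalDegree, Submodule.mem_map_of_mem (mem_Pt.2 le_rfl)⟩
  · intro t
    refine (Submodule.finrank_mono (hmono t (t + F.totalDegree + G.totalDegree) ?_)).trans
      (SBez_bound hF h t)
    omega

/-- PROOF. An irreducible `F` is relatively prime to everything it does not divide. -/
theorem irr_relPrime {F f : A2 k} (hF : Irreducible F) (hf : ¬ F ∣ f) : IsRelPrime F f := by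
  exact (hF.isRelPrime_iff_not_dvd).2 hf

end Pool.MP_70e04f_ag.Strip

end

/-! ### from `Lib_MP_70e04f_strip.SMB` -/

section

/-!
# Piece SMB: Bezout with multiplicities
-/

set_option autoImplicit false

namespace Pool.MP_70e04f_ag.Strip

open MvPolynomial

variable {k : Type*} [Field k] {n : ℕ} {p : Fin n → Fin 2 → k}

/-- the map of quotients given by `(u, v) ↦ F u + g v` -/
noncomputable def SMB_phi {A B C : Submodule k (A2 k)} (F g : A2 k)
    (hA : A ≤ C.comap (LinearMap.mulLeft k F)) (hB : B ≤ C.comap (LinearMap.mulLeft k g)) :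
    ((A2 k ⧸ A) × (A2 k ⧸ B)) →ₗ[k] (A2 k ⧸ C) :=
  LinearMap.coprod (Submodule.mapQ A C (LinearMap.mulLeft k F) hA)
    (Submodule.mapQ B C (LinearMap.mulLeft k g) hB)

/-- PROOF. Let `J = pr F ⊔ pr g ⊔ Iz p (a + β)`; `len J ≤ len (pr F ⊔ pr g)` (surjection of finite
dimensional spaces). The kernel of `A2 k ⧸ sp (Iz p (a + β)) → A2 k ⧸ sp J` is the image of
`(u, v) ↦ u F + v g`; since `F ∈ Iz p a` and `g ∈ Iz p β`, the class of `u F` only depends on
`u` modulo `Iz p β` and the class of `v g` only on `v` modulo `Iz p a`. So this kernel is the image of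
`(A2 k ⧸ sp (Iz p β)) × (A2 k ⧸ sp (Iz p a))`, of dimension `≤ len (Iz p β) + len (Iz p a)`, and
`len J ≥ len (Iz p (a + β)) - len (Iz p β) - len (Iz p a) = ∑ a i * β i` by `len_Iz`. -/
theorem len_pair_ge (hp : Function.Injective p) {F g : A2 k} {a β : Fin n → ℕ} (hF : F ∈ Iz p a)
    (hg : g ∈ Iz p β) (hfin : FinC (pr F ⊔ pr g)) :
    ∑ i, a i * β i ≤ len (pr F ⊔ pr g) := by
  obtain ⟨L, hL⟩ : ∃ L : Ideal (A2 k), L = Iz p (fun i => a i + β i) := ⟨_, rfl⟩
  have hLc : FinC L := hL ▸ finC_Iz hp _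
  have ha : FinC (Iz p a) := finC_Iz hp _
  have hb : FinC (Iz p β) := finC_Iz hp _
  obtain ⟨J, hJ⟩ : ∃ J : Ideal (A2 k), J = (pr F ⊔ pr g) ⊔ L := ⟨_, rfl⟩
  have h1 : pr F ⊔ pr g ≤ J := hJ ▸ le_sup_left
  have h2 : L ≤ J := hJ ▸ le_sup_right
  have hJc : FinC J := hLc.mono h2
  have hA : sp (Iz p β) ≤ (sp L).comap (LinearMap.mulLeft k F) := by
    intro u hu
    rw [hL]
    exact Iz_mul_mem hF hu
  have hB : sp (Iz p a) ≤ (sp L).comap (LinearMap.mulLeft k g) := by
    intro u hu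
    rw [hL]
    have h3 : u * g ∈ Iz p (fun i => a i + β i) := Iz_mul_mem hu hg
    show g * u ∈ Iz p (fun i => a i + β i)
    rw [mul_comm]
    exact h3
  unfold FinC at hLc ha hb hJc hfin
  have h3 : len J ≤ len (pr F ⊔ pr g) := by
    unfold len
    exact LinearMap.finrank_le_finrank_of_surjective (Submodule.factor_surjective (sp_mono h1))
  have h4 := LinearMap.finrank_range_add_finrank_ker (Submodule.factor (sp_mono h2))
  rw [LinearMap.range_eq_top.2 (Submodule.factor_surjective (sp_mono h2)), finrank_top] at h4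
  have h5 : LinearMap.ker (Submodule.factor (sp_mono h2)) ≤ LinearMap.range (SMB_phi F g hA hB) := by
    intro z hz
    obtain ⟨x, rfl⟩ := Submodule.mkQ_surjective _ z
    rw [LinearMap.mem_ker, Submodule.factor_mk] at hz
    have h6 : x ∈ J := (Submodule.Quotient.mk_eq_zero _).1 hz
    rw [hJ] at h6
    obtain ⟨y, hy, l, hl, e⟩ := Submodule.mem_sup.1 h6
    obtain ⟨y1, hy1, y2, hy2, e2⟩ := Submodule.mem_sup.1 hy
    obtain ⟨u, hu⟩ := mem_pr.1 hy1
    obtain ⟨v, hv⟩ := mem_pr.1 hy2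
    refine ⟨((sp (Iz p β)).mkQ u, (sp (Iz p a)).mkQ v), ?_⟩
    have h7 : SMB_phi F g hA hB ((sp (Iz p β)).mkQ u, (sp (Iz p a)).mkQ v) =
        (sp L).mkQ (F * u + g * v) := by
      unfold SMB_phi
      rw [LinearMap.coprod_apply, Submodule.mkQ_apply, Submodule.mkQ_apply, Submodule.mapQ_apply,
        Submodule.mapQ_apply, map_add]
      rfl
    rw [h7, ← sub_eq_zero, ← map_sub]
    refine (Submodule.Quotient.mk_eq_zero _).2 ?_
    have h8 : F * u + g * v - x = -l := by
      rw [← e, ← e2, hu, hv]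
      ring
    rw [h8]
    exact L.neg_mem hl
  have h6 : Module.finrank k ↥(LinearMap.ker (Submodule.factor (sp_mono h2))) ≤
      len (Iz p β) + len (Iz p a) := by
    refine (Submodule.finrank_mono h5).trans ((LinearMap.finrank_range_le _).trans ?_)
    rw [Module.finrank_prod]
    exact le_rfl
  have h7 := len_Iz hp (fun i => a i + β i)
  have h8 := len_Iz hp a
  have h9 := len_Iz hp β
  rw [← hL] at h7
  have h10 : ∑ i, (a i + β i) * (a i + β i + 1) =
      ∑ i, a i * (a i + 1) + ∑ i, β i * (β i + 1) + 2 * ∑ i, a i * β i := by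
    rw [Finset.mul_sum, ← Finset.sum_add_distrib, ← Finset.sum_add_distrib]
    refine Finset.sum_congr rfl fun i _ => ?_
    ring
  have h11 : len J + Module.finrank k ↥(LinearMap.ker (Submodule.factor (sp_mono h2))) = len L := h4
  omega

/-- Bezout with multiplicities.
PROOF. `f = g + F h` with `g ∈ Iz p β`, so `pr F ⊔ pr f = pr F ⊔ pr g`. By `bez` (`irr_relPrime`;
`f ≠ 0` since `F ∣ 0`) this ideal has `len ≤ deg F * deg f`; apply `len_pair_ge` with
`a i = mu (p i) F`. -/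
theorem mulbez (hp : Function.Injective p) {F f : A2 k} (hF : Irreducible F) (hf : ¬ F ∣ f)
    (β : Fin n → ℕ) (h : f ∈ Iz p β ⊔ pr F) :
    ∑ i, mu (p i) F * β i ≤ F.totalDegree * f.totalDegree := by
  obtain ⟨g, hg, y, hy, e⟩ := Submodule.mem_sup.1 h
  have hf0 : f ≠ 0 := by
    rintro rfl
    exact hf (dvd_zero F)
  obtain ⟨h1, h2⟩ := bez hF.ne_zero hf0 (irr_relPrime hF hf)
  have h3 : pr F ⊔ pr f = pr F ⊔ pr g := by
    apply le_antisymm
    · refine sup_le le_sup_left ?_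
      unfold pr
      rw [Ideal.span_singleton_le_iff_mem, ← e]
      exact Ideal.add_mem _ (Ideal.mem_sup_right (self_mem_pr g)) (Ideal.mem_sup_left hy)
    · refine sup_le le_sup_left ?_
      have h4 : g = f - y := by rw [← e]; ring
      have h5 : g ∈ pr F ⊔ pr f := by
        rw [h4]
        exact Ideal.sub_mem _ (Ideal.mem_sup_right (self_mem_pr f)) (Ideal.mem_sup_left hy)
      exact (Ideal.span_singleton_le_iff_mem _).2 h5
  rw [h3] at h1 h2
  have h4 : F ∈ Iz p (fun i => mu (p i) F) :=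
    mem_Iz.2 fun i => (mem_iff_le_mu hF.ne_zero _).2 le_rfl
  exact (len_pair_ge hp h4 hg h1).trans h2

end Pool.MP_70e04f_ag.Strip

end

/-! ### from `Lib_MP_70e04f_strip.SExp` -/

section

/-!
# Piece SEXP: the expected dimension at given points
-/

set_option autoImplicit false

namespace Pool.MP_70e04f_ag.Strip

open MvPolynomial

/-- the system has (at most) the expected dimension at the points `p` -/
def EXP {k : Type*} [Field k] {n : ℕ} (d : ℕ) (m : Fin n → ℕ) (p : Fin n → Fin 2 → k) : Prop :=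
  2 * (Module.finrank k ↥(Pt k d ⊓ sp (Iz p m)) : ℤ) ≤
    max 0 (((d : ℤ) + 1) * ((d : ℤ) + 2) - ∑ i, (m i : ℤ) * ((m i : ℤ) + 1))

/-- PROOF. `cod_add` with `cod = 0` (`FinC.cod_eq_zero`), `two_finrank_Pt`, `len_Iz`, `finC_Iz`. -/
theorem EXP.of_ind {k : Type*} [Field k] {n : ℕ} {d : ℕ} {m : Fin n → ℕ} {p : Fin n → Fin 2 → k}
    (hp : Function.Injective p) (h : Ind d (Iz p m)) : EXP d m p := by
  have h1 := cod_add (finC_Iz hp m) d
  rw [((finC_Iz hp m).cod_eq_zero d).2 h] at h1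
  have h2 := two_finrank_Pt (k := k) d
  have h3 := len_Iz hp m
  unfold EXP
  refine le_max_of_le_right ?_
  have h4 : ((2 * len (Iz p m) : ℕ) : ℤ) = ∑ i, (m i : ℤ) * ((m i : ℤ) + 1) := by
    rw [h3]; push_cast; rfl
  have h5 : ((2 * Module.finrank k ↥(Pt k d) : ℕ) : ℤ) = ((d : ℤ) + 1) * ((d : ℤ) + 2) := by
    rw [h2]; push_cast; rfl
  rw [← h4, ← h5]
  push_cast
  omega

theorem EXP.of_bot {k : Type*} [Field k] {n : ℕ} {d : ℕ} {m : Fin n → ℕ} {p : Fin n → Fin 2 → k}
    (h : Pt k d ⊓ sp (Iz p m) = ⊥) : EXP d m p := by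
  unfold EXP
  rw [h, finrank_bot]
  simp

theorem SExp_system {k : Type*} [Field k] {n : ℕ} (d : ℕ) (m : Fin n → ℕ) (p : Fin n → Fin 2 → k) :
    Pt k d ⊓ sp (Iz p m) = system k d m p := by
  ext f
  unfold system Pt
  rw [Submodule.mem_inf, Submodule.mem_inf, mem_sp, mem_Iz, Submodule.mem_iInf]
  rfl

/-- PROOF. `Pt k d ⊓ sp (Iz p m)` is `system k d m p` (`Lib_MP_70e04f_ag/Mat.lean`); `finrank_system`,
`two_card_tri` (`Fintype.card` of a sigma type). -/
theorem EXP.good {k : Type*} [Field k] {n : ℕ} {d : ℕ} {m : Fin n → ℕ} {p : Fin n → Fin 2 → k}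
    (h : EXP d m p) : Good (condMat (d + 1) m p) := by
  unfold EXP at h
  rw [SExp_system, finrank_system] at h
  unfold Good
  have h5 : ((2 * Fintype.card ↥(tri (d + 1)) : ℕ) : ℤ) = ((d : ℤ) + 1) * ((d : ℤ) + 2) := by
    rw [Fintype.card_coe, two_card_tri]
    push_cast; ring
  have h6 : ((2 * Fintype.card (Σ i : Fin n, ↥(tri (m i))) : ℕ) : ℤ) =
      ∑ i, (m i : ℤ) * ((m i : ℤ) + 1) := by
    rw [Fintype.card_sigma, Finset.mul_sum]
    push_cast
    refine Finset.sum_congr rfl fun i _ => ?_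
    have := two_card_tri (m i)
    rw [Fintype.card_coe]
    exact_mod_cast this
  rw [← h5, ← h6] at h
  push_cast at h
  omega

end Pool.MP_70e04f_ag.Strip

end

/-! ### from `Lib_MP_70e04f_strip.SSimp` -/

section

/-!
# Piece SSIMP: adding simple points
-/

set_option autoImplicit false

namespace Pool.MP_70e04f_ag.Strip

open MvPolynomial

/-- One more simple point.
PROOF. `Iz (update p j q) (update m j 1) = Iz p m ⊓ mp q` since `m j = 0`. Let
`V = Pt k d ⊓ sp (Iz p m)`. If `V = ⊥` take any `q`. Otherwise take `f ∈ V`, `f ≠ 0`, and `q` with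
`eval q f ≠ 0` (`k` infinite: `MvPolynomial.funext`). Evaluation at `q` is a nonzero functional on `V`, so the
dimension of its kernel is `finrank V - 1`, and `2 (finrank V - 1) ≤ max 0 (..) - 2`, while `∑ m (m + 1)`
increases by `2` (note `finrank V ≥ 1` so the `max` is the second argument, which is even or
positive). -/
theorem EXP.add_point {k : Type*} [Field k] [Infinite k] {n : ℕ} {d : ℕ} {m : Fin n → ℕ}
    {p : Fin n → Fin 2 → k} (h : EXP d m p) (j : Fin n) (hj : m j = 0) :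
    ∃ q : Fin 2 → k, EXP d (Function.update m j 1) (Function.update p j q) := by
  classical
  -- membership in the new ideal
  have hmem : ∀ (q : Fin 2 → k) (f : A2 k),
      f ∈ Iz (Function.update p j q) (Function.update m j 1) ↔ f ∈ Iz p m ∧ eval q f = 0 := by
    intro q f
    rw [mem_Iz, mem_Iz]
    constructor
    · intro hf
      refine ⟨fun i => ?_, ?_⟩
      · by_cases hi : i = j
        · subst hi
          rw [hj, pow_zero, Ideal.one_eq_top]
          trivial
        · have := hf i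
          rwa [Function.update_of_ne hi, Function.update_of_ne hi] at this
      · have := hf j
        rw [Function.update_self, Function.update_self, pow_one] at this
        exact mem_mp.1 this
    · rintro ⟨hf, hq⟩ i
      by_cases hi : i = j
      · subst hi
        rw [Function.update_self, Function.update_self, pow_one]
        exact mem_mp.2 hq
      · rw [Function.update_of_ne hi, Function.update_of_ne hi]
        exact hf i
  have hle : ∀ q : Fin 2 → k,
      Pt k d ⊓ sp (Iz (Function.update p j q) (Function.update m j 1)) ≤ Pt k d ⊓ sp (Iz p m) :=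
    fun q f hf => ⟨hf.1, ((hmem q f).1 hf.2).1⟩
  have hsum : ∑ i, ((Function.update m j 1 i : ℕ) : ℤ) *
      (((Function.update m j 1 i : ℕ) : ℤ) + 1) = ∑ i, (m i : ℤ) * ((m i : ℤ) + 1) + 2 := by
    rw [← Finset.add_sum_erase _ _ (Finset.mem_univ j),
      ← Finset.add_sum_erase Finset.univ (fun i => (m i : ℤ) * ((m i : ℤ) + 1))
        (Finset.mem_univ j)]
    have h1 : ∑ i ∈ Finset.univ.erase j, ((Function.update m j 1 i : ℕ) : ℤ) *
        (((Function.update m j 1 i : ℕ) : ℤ) + 1) =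
        ∑ i ∈ Finset.univ.erase j, (m i : ℤ) * ((m i : ℤ) + 1) := by
      refine Finset.sum_congr rfl fun i hi => ?_
      rw [Function.update_of_ne (Finset.ne_of_mem_erase hi)]
    rw [h1, Function.update_self, hj]
    push_cast
    ring
  have hfinP : Module.Finite k ↥(Pt k d) := inferInstance
  have hfin : Module.Finite k ↥(Pt k d ⊓ sp (Iz p m)) :=
    Submodule.finiteDimensional_of_le (inf_le_left : Pt k d ⊓ sp (Iz p m) ≤ Pt k d)
  unfold EXP at h ⊢
  by_cases hV : Pt k d ⊓ sp (Iz p m) = ⊥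
  · refine ⟨0, ?_⟩
    have h0 : Pt k d ⊓ sp (Iz (Function.update p j 0) (Function.update m j 1)) = ⊥ :=
      le_bot_iff.1 ((hle 0).trans hV.le)
    rw [h0, finrank_bot]
    simp
  · obtain ⟨f, hf, hf0⟩ := Submodule.exists_mem_ne_zero_of_ne_bot hV
    obtain ⟨q, hq⟩ : ∃ q : Fin 2 → k, eval q f ≠ 0 := by
      by_contra hcon
      push Not at hcon
      exact hf0 (MvPolynomial.funext fun q => by rw [hcon q, map_zero])
    refine ⟨q, ?_⟩
    have hlt : Pt k d ⊓ sp (Iz (Function.update p j q) (Function.update m j 1)) <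
        Pt k d ⊓ sp (Iz p m) := by
      refine lt_of_le_of_ne (hle q) fun heq => hq ?_
      rw [← heq] at hf
      exact ((hmem q f).1 hf.2).2
    have h1 := Submodule.finrank_lt_finrank_of_lt hlt
    rw [hsum]
    set a := Module.finrank k ↥(Pt k d ⊓ sp (Iz p m)) with ha
    set b := Module.finrank k
      ↥(Pt k d ⊓ sp (Iz (Function.update p j q) (Function.update m j 1))) with hb
    set s := ∑ i, (m i : ℤ) * ((m i : ℤ) + 1) with hs
    set c := ((d : ℤ) + 1) * ((d : ℤ) + 2) with hc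
    omega

theorem SSimp_base {k : Type*} [Field k] {n r : ℕ} {d : ℕ} {m : Fin n → ℕ}
    (ι : Fin r → Fin n) (hι : Function.Injective ι) (hm : ∀ i, i ∉ Set.range ι → m i = 0)
    {p' : Fin r → Fin 2 → k} (h : EXP d (fun a => m (ι a)) p') :
    ∃ p : Fin n → Fin 2 → k, EXP d m p := by
  classical
  refine ⟨fun i => if h : ∃ a, ι a = i then p' h.choose else 0, ?_⟩
  set p : Fin n → Fin 2 → k := fun i => if h : ∃ a, ι a = i then p' h.choose else 0 with hp
  have hpι : ∀ a, p (ι a) = p' a := by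
    intro a
    have hex : ∃ b, ι b = ι a := ⟨a, rfl⟩
    simp only [hp, dif_pos hex]
    exact congrArg p' (hι hex.choose_spec)
  have hI : Iz p m = Iz p' (fun a => m (ι a)) := by
    ext f
    rw [mem_Iz, mem_Iz]
    constructor
    · intro hf a
      have := hf (ι a)
      rwa [hpι] at this
    · intro hf i
      by_cases hi : i ∈ Set.range ι
      · obtain ⟨a, rfl⟩ := hi
        rw [hpι]
        exact hf a
      · rw [hm i hi, pow_zero, Ideal.one_eq_top]
        trivial
  have hsum : ∑ a, (m (ι a) : ℤ) * ((m (ι a) : ℤ) + 1) = ∑ i, (m i : ℤ) * ((m i : ℤ) + 1) := by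
    refine Finset.sum_of_injOn ι hι.injOn (fun _ _ => Finset.mem_coe.2 (Finset.mem_univ _))
      (fun i _ hi => ?_) (fun _ _ => rfl)
    have hi' : i ∉ Set.range ι := by
      intro h
      apply hi
      simpa using h
    rw [hm i hi']
    simp
  unfold EXP at h ⊢
  rw [hI, ← hsum]
  exact h

/-- PROOF. First for `m' i = m i` on the range of `ι` and `0` elsewhere, with `p (ι a) = p' a` and `p i = 0`
elsewhere: `Iz p m' = Iz p' (m ∘ ι)` and the sums agree (`Finset.sum` over the range of an injective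
map). Then add the points `i ∉ range ι` with `m i = 1` one by one (`EXP.add_point`, induction on a finite
set of indices). -/
theorem EXP.extend {k : Type*} [Field k] [Infinite k] {n r : ℕ} {d : ℕ} {m : Fin n → ℕ}
    (ι : Fin r → Fin n) (hι : Function.Injective ι) (hm : ∀ i, i ∉ Set.range ι → m i ≤ 1)
    {p' : Fin r → Fin 2 → k} (h : EXP d (fun a => m (ι a)) p') :
    ∃ p : Fin n → Fin 2 → k, EXP d m p := by
  classical
  have key : ∀ S : Finset (Fin n), ∃ p : Fin n → Fin 2 → k,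
      EXP d (fun i => if i ∈ Set.range ι ∨ i ∈ S then m i else 0) p := by
    intro S
    induction S using Finset.induction_on with
    | empty =>
      refine SSimp_base ι hι (fun i hi => ?_) (p' := p') ?_
      · rw [if_neg]
        simpa using hi
      · have : (fun a => if ι a ∈ Set.range ι ∨ ι a ∈ (∅ : Finset (Fin n)) then m (ι a) else 0)
            = fun a => m (ι a) := by
          funext a
          rw [if_pos (Or.inl ⟨a, rfl⟩)]
        rw [this]
        exact h
    | insert i S hi ih =>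
      obtain ⟨p, hp⟩ := ih
      by_cases hir : i ∈ Set.range ι ∨ m i = 0
      · refine ⟨p, ?_⟩
        have : (fun i' => if i' ∈ Set.range ι ∨ i' ∈ insert i S then m i' else 0)
            = fun i' => if i' ∈ Set.range ι ∨ i' ∈ S then m i' else 0 := by
          funext i'
          by_cases hii : i' = i
          · subst hii
            rcases hir with h1 | h1
            · rw [if_pos (Or.inl h1), if_pos (Or.inl h1)]
            · rw [h1, ite_self, ite_self]
          · have : i' ∈ insert i S ↔ i' ∈ S := by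
              rw [Finset.mem_insert]
              exact or_iff_right hii
            simp only [this]
        rw [this]
        exact hp
      · rw [not_or] at hir
        have h1 : m i = 1 := by
          have := hm i hir.1
          have := hir.2
          omega
        obtain ⟨q, hq⟩ := EXP.add_point hp i (by
          rw [if_neg]
          rw [not_or]
          exact ⟨hir.1, hi⟩)
        refine ⟨Function.update p i q, ?_⟩
        have : (fun i' => if i' ∈ Set.range ι ∨ i' ∈ insert i S then m i' else 0)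
            = Function.update (fun i' => if i' ∈ Set.range ι ∨ i' ∈ S then m i' else 0) i 1 := by
          funext i'
          by_cases hii : i' = i
          · subst hii
            rw [Function.update_self, if_pos (Or.inr (Finset.mem_insert_self _ _)), h1]
          · rw [Function.update_of_ne hii]
            have : i' ∈ insert i S ↔ i' ∈ S := by
              rw [Finset.mem_insert]
              exact or_iff_right hii
            simp only [this]
        rw [this]
        exact hq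
  obtain ⟨p, hp⟩ := key Finset.univ
  refine ⟨p, ?_⟩
  have : (fun i => if i ∈ Set.range ι ∨ i ∈ Finset.univ then m i else 0) = m := by
    funext i
    rw [if_pos (Or.inr (Finset.mem_univ i))]
  rw [this] at hp
  exact hp

end Pool.MP_70e04f_ag.Strip

end

/-! ### from `Lib_MP_70e04f_strip.SXu` -/

section

/-!
# Piece SXU: the lemma of Xu for curves through generic points
-/

set_option autoImplicit false

namespace Pool.MP_70e04f_ag.Strip

open MvPolynomial

variable {n ℓ : ℕ} [Fact ℓ.Prime]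

theorem SXu_core {F : A2 (KK n ℓ)} (hF : Irreducible F) (j : Fin n) (v : Fin 2 → KK n ℓ) {a b : ℕ}
    (hab : a + b + 1 = mu (gp n ℓ j) F)
    (hne : v 0 * (((a : KK n ℓ) + 1) * coeff (mon (a + 1) b) (shift (gp n ℓ j) F))
          + v 1 * (((b : KK n ℓ) + 1) * coeff (mon a (b + 1)) (shift (gp n ℓ j) F)) ≠ 0) :
    ∃ G : A2 (KK n ℓ), G.totalDegree ≤ F.totalDegree ∧ ¬ F ∣ G ∧
      (∀ i, i ≠ j → G ∈ mp (gp n ℓ i) ^ mu (gp n ℓ i) F) ∧
      G ∈ mp (gp n ℓ j) ^ (mu (gp n ℓ j) F - 1) ∧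
      (mu (gp n ℓ j) F = 1 → G ∉ mp (gp n ℓ j)) := by
  obtain ⟨G, hG1, hG2, hG3⟩ := der hF.ne_zero j v
  have hG : G ∉ mp (gp n ℓ j) ^ mu (gp n ℓ j) F := by
    intro h
    have h1 := mem_mp_pow.1 h a b (by omega)
    rw [hG3 a b (by omega), neg_eq_zero] at h1
    exact hne h1
  refine ⟨G, hG1, ?_, hG2, der_mem hF.ne_zero j v hG3, ?_⟩
  · intro hd
    obtain ⟨h, rfl⟩ := hd
    exact hG (Ideal.mul_mem_right _ _ ((mem_iff_le_mu hF.ne_zero _).2 le_rfl))
  · intro h1 h2
    rw [h1, pow_one] at hG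
    exact hG h2

/-- PROOF. Let `μ = mu (gp j) F`. Choose `a0 + b0 = μ` with `coeff (mon a0 b0) (shift (gp j) F) ≠ 0`
(`exists_coeff_ne`). One of `a0, b0` is positive, say `a0` (the other case is symmetric): take
`v = (1, 0)` in `der` (resp. `(0, 1)`). The coefficient `(a0 - 1, b0)` of `shift (gp j) G` is
`- a0 * coeff (mon a0 b0) ≠ 0` (`cast_ne_zero_KK`, `a0 ≤ μ ≤ deg F < ℓ` by `mu_le_deg`), so
`G ∉ mp (gp j) ^ μ` (`mem_mp_pow`); in particular `G ≠ 0`. If `F ∣ G`, `G = F * h`, then by degrees `h` is a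
constant, so `G ∈ mp (gp j) ^ μ` since `F` is: contradiction. `der_mem` gives the fourth property, and if
`μ = 1` the last one is `G ∉ mp (gp j) ^ μ`. -/
theorem xu_der {F : A2 (KK n ℓ)} (hF : Irreducible F) (hdeg : F.totalDegree < ℓ) (j : Fin n)
    (hj : 1 ≤ mu (gp n ℓ j) F) :
    ∃ G : A2 (KK n ℓ), G.totalDegree ≤ F.totalDegree ∧ ¬ F ∣ G ∧
      (∀ i, i ≠ j → G ∈ mp (gp n ℓ i) ^ mu (gp n ℓ i) F) ∧
      G ∈ mp (gp n ℓ j) ^ (mu (gp n ℓ j) F - 1) ∧
      (mu (gp n ℓ j) F = 1 → G ∉ mp (gp n ℓ j)) := by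
  obtain ⟨a0, b0, hab, hne⟩ := exists_coeff_ne (q := gp n ℓ j) hF.ne_zero
  have hle : mu (gp n ℓ j) F ≤ F.totalDegree := mu_le_deg hF.ne_zero
  rcases Nat.eq_zero_or_pos a0 with ha | ha
  · subst ha
    obtain ⟨b, rfl⟩ : ∃ b, b0 = b + 1 := ⟨b0 - 1, by omega⟩
    refine SXu_core hF j ![0, 1] (a := 0) (b := b) (by omega) ?_
    have h1 : ((b + 1 : ℕ) : KK n ℓ) ≠ 0 := cast_ne_zero_KK (by omega) (by omega)
    rw [Nat.cast_add, Nat.cast_one] at h1
    simpa using And.intro h1 hne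
  · obtain ⟨a, rfl⟩ : ∃ a, a0 = a + 1 := ⟨a0 - 1, by omega⟩
    refine SXu_core hF j ![1, 0] (a := a) (b := b0) (by omega) ?_
    have h1 : ((a + 1 : ℕ) : KK n ℓ) ≠ 0 := cast_ne_zero_KK (by omega) (by omega)
    rw [Nat.cast_add, Nat.cast_one] at h1
    simpa using And.intro h1 hne

/-- Xu's lemma.
PROOF. `G` from `xu_der`, and `mulbez` for `β i = mu (gp i) F` (`i ≠ j`), `β j = mu (gp j) F - 1`:
`∑ mu ^ 2 - mu_j = ∑ mu i * β i ≤ deg F * deg G ≤ (deg F) ^ 2`. -/
theorem xu {F : A2 (KK n ℓ)} (hF : Irreducible F) (hdeg : F.totalDegree < ℓ) (j : Fin n)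
    (hj : 1 ≤ mu (gp n ℓ j) F) :
    ∑ i, mu (gp n ℓ i) F ^ 2 ≤ F.totalDegree ^ 2 + mu (gp n ℓ j) F := by
  obtain ⟨G, hG1, hG2, hG3, hG4, -⟩ := xu_der hF hdeg j hj
  have hI : G ∈ Iz (gp n ℓ) (fun i => if i = j then mu (gp n ℓ j) F - 1 else mu (gp n ℓ i) F) := by
    rw [mem_Iz]
    intro i
    by_cases hi : i = j
    · subst hi
      rw [if_pos rfl]
      exact hG4
    · rw [if_neg hi]
      exact hG3 i hi
  have hb := mulbez (gp_inj n ℓ) hF hG2 _ (Ideal.mem_sup_left hI)
  have hs : ∑ i, mu (gp n ℓ i) F ^ 2 =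
      ∑ i, mu (gp n ℓ i) F * (if i = j then mu (gp n ℓ j) F - 1 else mu (gp n ℓ i) F)
        + mu (gp n ℓ j) F := by
    have h1 : ∀ i ∈ Finset.univ, mu (gp n ℓ i) F ^ 2 =
        mu (gp n ℓ i) F * (if i = j then mu (gp n ℓ j) F - 1 else mu (gp n ℓ i) F)
          + (if i = j then mu (gp n ℓ j) F else 0) := by
      intro i _
      by_cases hi : i = j
      · subst hi
        rw [if_pos rfl, if_pos rfl]
        obtain ⟨m, hm⟩ : ∃ m, mu (gp n ℓ i) F = m + 1 := ⟨mu (gp n ℓ i) F - 1, by omega⟩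
        rw [hm, Nat.add_sub_cancel]
        ring
      · rw [if_neg hi, if_neg hi, add_zero, sq]
    rw [Finset.sum_congr rfl h1, Finset.sum_add_distrib, Finset.sum_ite_eq' Finset.univ j,
      if_pos (Finset.mem_univ j)]
  rw [hs, sq]
  exact Nat.add_le_add_right (hb.trans (Nat.mul_le_mul_left _ hG1)) _

end Pool.MP_70e04f_ag.Strip

end

/-! ### from `Lib_MP_70e04f_strip.SLeadA` -/

section

/-!
# Piece SLEADA: leading forms. `lf q r τ f` is the value at the direction `τ` of the form of degree `r`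
in the Taylor expansion of `f` at `q`.
-/

set_option autoImplicit false

namespace Pool.MP_70e04f_ag.Strip

open MvPolynomial

variable {k : Type*} [Field k]

/-- the form of degree `r` of `f` at `q`, evaluated at `τ` -/
noncomputable def lf (q : Fin 2 → k) (r : ℕ) (τ : Fin 2 → k) (f : A2 k) : k :=
  ∑ a ∈ Finset.range (r + 1), coeff (mon a (r - a)) (shift q f) * (τ 0 ^ a * τ 1 ^ (r - a))

/-- the tangent direction of `F` at `q` -/
noncomputable def tgt (q : Fin 2 → k) (F : A2 k) : Fin 2 → k :=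
  ![coeff (mon 0 1) (shift q F), - coeff (mon 1 0) (shift q F)]

theorem lf_add (q : Fin 2 → k) (r : ℕ) (τ : Fin 2 → k) (f g : A2 k) :
    lf q r τ (f + g) = lf q r τ f + lf q r τ g := by
  unfold lf
  rw [← Finset.sum_add_distrib]
  refine Finset.sum_congr rfl fun a _ => ?_
  rw [map_add, coeff_add, add_mul]

/-- PROOF. `mem_mp_pow`. -/
theorem lf_eq_zero {q : Fin 2 → k} {r : ℕ} (τ : Fin 2 → k) {f : A2 k} (h : f ∈ mp q ^ (r + 1)) :
    lf q r τ f = 0 := by
  unfold lf
  refine Finset.sum_eq_zero fun a ha => ?_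
  have h1 : a + (r - a) < r + 1 := by
    rw [Finset.mem_range] at ha
    omega
  rw [mem_mp_pow.1 h a (r - a) h1, zero_mul]

/-- the restriction to the line through the origin of direction `τ` -/
noncomputable def SLeadA_line (τ : Fin 2 → k) : A2 k →ₐ[k] Polynomial k :=
  aeval (fun i => Polynomial.C (τ i) * Polynomial.X)

theorem SLeadA_coeff (τ : Fin 2 → k) (P : A2 k) (n : ℕ) :
    (SLeadA_line τ P).coeff n =
      ∑ a ∈ Finset.range (n + 1), coeff (mon a (n - a)) P * (τ 0 ^ a * τ 1 ^ (n - a)) := by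
  induction P using MvPolynomial.induction_on' with
  | monomial s x =>
    have h2 : SLeadA_line τ (monomial s x) =
        Polynomial.C (x * (τ 0 ^ s 0 * τ 1 ^ s 1)) * Polynomial.X ^ (s 0 + s 1) := by
      unfold SLeadA_line
      rw [aeval_monomial, Finsupp.prod_fintype _ _ (fun i => pow_zero _), Fin.prod_univ_two]
      simp only [mul_pow, map_mul, map_pow, pow_add, Polynomial.algebraMap_eq]
      ring
    rw [h2, Polynomial.coeff_C_mul_X_pow]
    by_cases hn : n = s 0 + s 1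
    · rw [if_pos hn, Finset.sum_eq_single (s 0)]
      · have h3 : n - s 0 = s 1 := by omega
        rw [h3, mon_eta, coeff_monomial, if_pos rfl]
      · intro a _ ha
        rw [coeff_monomial, if_neg, zero_mul]
        intro h
        rw [h, mon_zero'] at ha
        exact ha rfl
      · intro h
        rw [Finset.mem_range] at h
        omega
    · rw [if_neg hn]
      symm
      refine Finset.sum_eq_zero fun a ha => ?_
      rw [Finset.mem_range] at ha
      rw [coeff_monomial, if_neg, zero_mul]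
      intro h
      rw [h, mon_zero', mon_one'] at hn
      omega
  | add P Q ihP ihQ =>
    rw [map_add, Polynomial.coeff_add, ihP, ihQ, ← Finset.sum_add_distrib]
    refine Finset.sum_congr rfl fun a _ => ?_
    rw [coeff_add, add_mul]

theorem SLeadA_lf (q : Fin 2 → k) (r : ℕ) (τ : Fin 2 → k) (f : A2 k) :
    lf q r τ f = (SLeadA_line τ (shift q f)).coeff r := by
  rw [SLeadA_coeff]
  rfl

theorem SLeadA_dvd {q : Fin 2 → k} {r : ℕ} (τ : Fin 2 → k) {f : A2 k} (hf : f ∈ mp q ^ r) :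
    Polynomial.X ^ r ∣ SLeadA_line τ (shift q f) := by
  rw [Polynomial.X_pow_dvd_iff]
  intro d hd
  rw [SLeadA_coeff]
  refine Finset.sum_eq_zero fun a ha => ?_
  rw [Finset.mem_range] at ha
  rw [mem_mp_pow.1 hf a (d - a) (by omega), zero_mul]

/-- PROOF. `shift q (f g) = shift q f * shift q g`; the coefficients of degree `r + s` of the product
are the convolutions of the coefficients of degree `r` and `s` (the lower ones vanish,
`mem_mp_pow`), and `τ ^ (a + a') = τ ^ a τ ^ a'`. (Or: `lf q r τ f` is the value at `τ` of the homogeneous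
component of degree `r` of `shift q f`.) -/
theorem lf_mul {q : Fin 2 → k} {r s : ℕ} (τ : Fin 2 → k) {f g : A2 k} (hf : f ∈ mp q ^ r)
    (hg : g ∈ mp q ^ s) : lf q (r + s) τ (f * g) = lf q r τ f * lf q s τ g := by
  obtain ⟨P, hP⟩ := SLeadA_dvd τ hf
  obtain ⟨Q, hQ⟩ := SLeadA_dvd τ hg
  have h0 : ∀ (n : ℕ) (R : Polynomial k), (Polynomial.X ^ n * R).coeff n = R.coeff 0 := by
    intro n R
    have h := Polynomial.coeff_X_pow_mul R n 0
    rwa [zero_add] at h
  have h1 : Polynomial.X ^ r * P * (Polynomial.X ^ s * Q) = Polynomial.X ^ (r + s) * (P * Q) := by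
    ring
  rw [SLeadA_lf, SLeadA_lf, SLeadA_lf, map_mul, map_mul, hP, hQ, h1, h0, h0, h0,
    Polynomial.mul_coeff_zero]

/-- PROOF. `λ 0 * λ 1 - λ 1 * λ 0 = 0` where `λ 0, λ 1` are the coefficients of degree one. -/
theorem lf_self (q : Fin 2 → k) (F : A2 k) : lf q 1 (tgt q F) F = 0 := by
  unfold lf tgt
  rw [Finset.sum_range_succ, Finset.sum_range_one]
  simp only [Matrix.cons_val_zero, Matrix.cons_val_one, pow_zero, pow_one, Nat.sub_zero,
    Nat.sub_self, one_mul, mul_one]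
  ring

/-- Euler's formula.
PROOF. Both sides are linear in the coefficients `c a b` of degree `r + 1` of `shift q F`, and the
coefficient of `c a b` (`a + b = r + 1`) is `- (a + b) (v 0) ^ a (v 1) ^ b` on both sides. (Split the sum of
the left side in two, shift the index in the first one.) -/
theorem lf_euler {q : Fin 2 → k} (r : ℕ) (v : Fin 2 → k) {F G : A2 k}
    (h : ∀ a b : ℕ, a + b = r → coeff (mon a b) (shift q G) =
      - (v 0 * (((a : k) + 1) * coeff (mon (a + 1) b) (shift q F))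
        + v 1 * (((b : k) + 1) * coeff (mon a (b + 1)) (shift q F)))) :
    lf q r v G = - ((r : k) + 1) * lf q (r + 1) v F := by
  have h1 : lf q r v G = - (∑ a ∈ Finset.range (r + 1), (((a + 1 : ℕ) : k) *
      coeff (mon (a + 1) (r + 1 - (a + 1))) (shift q F) *
        (v 0 ^ (a + 1) * v 1 ^ (r + 1 - (a + 1)))) +
      ∑ a ∈ Finset.range (r + 1), ((((r : k) + 1) - (a : k)) *
        coeff (mon a (r + 1 - a)) (shift q F) * (v 0 ^ a * v 1 ^ (r + 1 - a)))) := by
    unfold lf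
    rw [← Finset.sum_add_distrib, ← Finset.sum_neg_distrib]
    refine Finset.sum_congr rfl fun a ha => ?_
    have ha' : a ≤ r := by
      rw [Finset.mem_range] at ha
      omega
    obtain ⟨b, rfl⟩ := Nat.exists_eq_add_of_le ha'
    have e1 : a + b - a = b := by omega
    have e2 : a + b + 1 - (a + 1) = b := by omega
    have e3 : a + b + 1 - a = b + 1 := by omega
    rw [e1, e2, e3, h a b rfl]
    push_cast
    ring
  have h2 : ∑ a ∈ Finset.range (r + 1), (((a + 1 : ℕ) : k) *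
      coeff (mon (a + 1) (r + 1 - (a + 1))) (shift q F) *
        (v 0 ^ (a + 1) * v 1 ^ (r + 1 - (a + 1)))) =
      ∑ a ∈ Finset.range (r + 2), ((a : k) *
        coeff (mon a (r + 1 - a)) (shift q F) * (v 0 ^ a * v 1 ^ (r + 1 - a))) := by
    rw [Finset.sum_range_succ' _ (r + 1)]
    rw [Nat.cast_zero, zero_mul, zero_mul, add_zero]
  have h3 : ∑ a ∈ Finset.range (r + 1), ((((r : k) + 1) - (a : k)) *
        coeff (mon a (r + 1 - a)) (shift q F) * (v 0 ^ a * v 1 ^ (r + 1 - a))) =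
      ∑ a ∈ Finset.range (r + 2), ((((r : k) + 1) - (a : k)) *
        coeff (mon a (r + 1 - a)) (shift q F) * (v 0 ^ a * v 1 ^ (r + 1 - a))) := by
    rw [Finset.sum_range_succ _ (r + 1)]
    push_cast
    rw [sub_self, zero_mul, zero_mul, add_zero]
  rw [h1, h2, h3, ← Finset.sum_add_distrib]
  unfold lf
  rw [neg_mul, Finset.mul_sum]
  congr 1
  refine Finset.sum_congr rfl fun a _ => ?_
  ring

end Pool.MP_70e04f_ag.Strip

end

/-! ### from `Lib_MP_70e04f_strip.SLead` -/

section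

/-!
# Piece SLEAD: the order at a smooth point. Let `mu q F = 1`. The ideals `I r = mp q ^ r ⊔ pr F`
define the order of a polynomial on the curve `F` at `q`.
-/

set_option autoImplicit false

namespace Pool.MP_70e04f_ag.Strip

open MvPolynomial

variable {k : Type*} [Field k]

/-- local coordinate -/
noncomputable def SLead_u (q : Fin 2 → k) (i : Fin 2) : A2 k := X i - C (q i)

theorem SLead_u_mem (q : Fin 2 → k) (i : Fin 2) : SLead_u q i ∈ mp q := by
  rw [mem_mp]
  unfold SLead_u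
  rw [map_sub, eval_X, eval_C, sub_self]

theorem SLead_shift_u (q : Fin 2 → k) (i : Fin 2) : shift q (SLead_u q i) = X i := by
  unfold SLead_u shift
  rw [map_sub, aeval_X, aeval_C]
  show X i + C (q i) - C (q i) = X i
  ring

theorem SLead_coeff (q : Fin 2 → k) (c : k) (a b a' b' : ℕ) :
    coeff (mon a' b') (shift q (C c * (SLead_u q 0 ^ a * SLead_u q 1 ^ b))) =
      if a = a' ∧ b = b' then c else 0 := by
  classical
  have h0 : shift q (C c : A2 k) = C c := by
    unfold shift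
    rw [aeval_C]
    rfl
  rw [map_mul, map_mul, map_pow, map_pow, SLead_shift_u, SLead_shift_u, h0]
  have h1 : (C c * (X 0 ^ a * X 1 ^ b) : A2 k) = monomial (mon a b) c := by
    rw [monomial_eq, Finsupp.prod_fintype _ _ (fun i => pow_zero _), Fin.prod_univ_two, mon_zero',
      mon_one']
  rw [h1, coeff_monomial]
  by_cases h : a = a' ∧ b = b'
  · rw [if_pos h, if_pos (mon_inj.2 h)]
  · rw [if_neg h, if_neg fun e => h (mon_inj.1 e)]

theorem SLead_taylor {q : Fin 2 → k} {r : ℕ} {f : A2 k} (hf : f ∈ mp q ^ r) :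
    f - ∑ a ∈ Finset.range (r + 1), C (coeff (mon a (r - a)) (shift q f)) *
      (SLead_u q 0 ^ a * SLead_u q 1 ^ (r - a)) ∈ mp q ^ (r + 1) := by
  rw [mem_mp_pow]
  intro a' b' hab
  rw [map_sub, coeff_sub, map_sum, coeff_sum]
  simp only [SLead_coeff]
  by_cases h : a' + b' < r
  · rw [mem_mp_pow.1 hf a' b' h, zero_sub, neg_eq_zero]
    refine Finset.sum_eq_zero fun a ha => ?_
    rw [Finset.mem_range] at ha
    rw [if_neg]
    rintro ⟨rfl, h2⟩
    omega
  · have h1 : a' + b' = r := by omega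
    rw [Finset.sum_eq_single a']
    · have h2 : r - a' = b' := by omega
      rw [h2, if_pos ⟨rfl, rfl⟩, sub_self]
    · intro a _ ha
      rw [if_neg fun e => ha e.1]
    · intro ha
      rw [Finset.mem_range] at ha
      omega

theorem SLead_mul {q : Fin 2 → k} {F : A2 k} {i j : ℕ} {a z : A2 k} (ha : a ∈ mp q ^ i)
    (hz : z ∈ mp q ^ j ⊔ pr F) : a * z ∈ mp q ^ (i + j) ⊔ pr F := by
  rw [Submodule.mem_sup] at hz ⊢
  obtain ⟨y, hy, w, hw, rfl⟩ := hz
  refine ⟨a * y, ?_, a * w, Ideal.mul_mem_left _ _ hw, by ring⟩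
  rw [pow_add]
  exact Ideal.mul_mem_mul ha hy

theorem SLead_pow {q : Fin 2 → k} {F v w : A2 k} (c : k) (hv : v ∈ mp q) (hw : w ∈ mp q)
    (h : v - C c * w ∈ mp q ^ 2 ⊔ pr F) (b : ℕ) :
    v ^ b - (C c * w) ^ b ∈ mp q ^ (b + 1) ⊔ pr F := by
  induction b with
  | zero => rw [pow_zero, pow_zero, sub_self]; exact Submodule.zero_mem _
  | succ b ih =>
    have e : v ^ (b + 1) - (C c * w) ^ (b + 1) =
        v * (v ^ b - (C c * w) ^ b) + (C c * w) ^ b * (v - C c * w) := by ring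
    rw [e]
    refine Submodule.add_mem _ ?_ ?_
    · have h1 := SLead_mul (F := F) (i := 1) (a := v) (by rwa [pow_one]) ih
      have e2 : 1 + (b + 1) = b + 1 + 1 := by omega
      rwa [e2] at h1
    · have h1 := SLead_mul (F := F) (i := b) (a := (C c * w) ^ b)
        (Ideal.pow_mem_pow (Ideal.mul_mem_left _ _ hw) b) h
      have e2 : b + 2 = b + 1 + 1 := by omega
      rwa [e2] at h1

theorem SLead_mono {q : Fin 2 → k} {F v w : A2 k} (c : k) (hv : v ∈ mp q) (hw : w ∈ mp q)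
    (h : v - C c * w ∈ mp q ^ 2 ⊔ pr F) (a b : ℕ) :
    w ^ a * v ^ b - C (c ^ b) * w ^ (a + b) ∈ mp q ^ (a + b + 1) ⊔ pr F := by
  have h1 := SLead_mul (F := F) (i := a) (a := w ^ a) (Ideal.pow_mem_pow hw a)
    (SLead_pow c hv hw h b)
  have e : w ^ a * (v ^ b - (C c * w) ^ b) = w ^ a * v ^ b - C (c ^ b) * w ^ (a + b) := by
    rw [mul_pow, C_pow, pow_add]
    ring
  rw [e] at h1
  exact h1

/-- PROOF. (→) `f = g + F h` with `g ∈ mp q ^ (r + 1)`, so `lf f = lf (F h)` (`lf_add`, `lf_eq_zero`). If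
`r = 0` then `F h ∈ mp q`, `lf = 0`. If `r = s + 1`: `F h = f - g ∈ mp q ^ r`, so `h ∈ mp q ^ s`
(`mem_of_mul_mem`), and `lf (F h) = lf q 1 F * lf q s h = 0` (`lf_mul`, `lf_self`).
(←) Let `λ 0, λ 1` be the coefficients of degree one of `shift q F`, not both zero (`exists_coeff_ne`),
say `λ 1 ≠ 0` (the other case is symmetric). Put `u c = X c - C (q c) ∈ mp q`,
`L = λ 0 u 0 + λ 1 u 1`. `F - L ∈ mp q ^ 2`, so `L mp q ^ (r - 1) ⊆ mp q ^ (r + 1) ⊔ pr F` (for `r ≥ 1`). Modulo
`mp q ^ (r + 1)`, `f` is `∑ c a b u 0 ^ a u 1 ^ b`, `a + b = r` (`c a b` the coefficients of degree `r` of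
`shift q f`). And `u 0 ^ a u 1 ^ b - (- λ 0 / λ 1) ^ b u 0 ^ r` is `L` times an element of
`mp q ^ (r - 1)` (induction on `b`), so modulo `mp q ^ (r + 1) ⊔ pr F`
`f = (∑ c a b (- λ 0 / λ 1) ^ b) u 0 ^ r = λ 1 ^ (- r) (lf q r (tgt q F) f) u 0 ^ r = 0`. -/
theorem lead_iff {q : Fin 2 → k} {F : A2 k} (hF0 : F ≠ 0) (h : mu q F = 1) {r : ℕ} {f : A2 k}
    (hf : f ∈ mp q ^ r) :
    f ∈ mp q ^ (r + 1) ⊔ pr F ↔ lf q r (tgt q F) f = 0 := by
  have hF1 : F ∈ mp q ^ 1 := (mem_iff_le_mu hF0 1).2 h.ge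
  constructor
  · intro hmem
    rw [Submodule.mem_sup] at hmem
    obtain ⟨g, hg, w, hw, hgw⟩ := hmem
    obtain ⟨u, rfl⟩ := mem_pr.1 hw
    rw [← hgw, lf_add, lf_eq_zero _ hg, zero_add]
    rcases r with _ | s
    · exact lf_eq_zero _ (Ideal.mul_mem_right _ _ (by rwa [zero_add]))
    · have h1 : F * u ∈ mp q ^ (s + 1) := by
        have h2 : F * u = f - g := by rw [← hgw]; ring
        rw [h2]
        exact Ideal.sub_mem _ hf (Ideal.pow_le_pow_right (Nat.le_succ _) hg)
      have h2 := mem_of_mul_mem hF0 h1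
      rw [h, Nat.add_sub_cancel] at h2
      have h3 := lf_mul (tgt q F) hF1 h2
      rw [lf_self, zero_mul, add_comm 1 s] at h3
      exact h3
  · intro hlf
    obtain ⟨c0, hc0⟩ : ∃ c0, c0 = coeff (mon 1 0) (shift q F) := ⟨_, rfl⟩
    obtain ⟨c1, hc1⟩ : ∃ c1, c1 = coeff (mon 0 1) (shift q F) := ⟨_, rfl⟩
    have hL : C c0 * SLead_u q 0 + C c1 * SLead_u q 1 ∈ mp q ^ 2 ⊔ pr F := by
      have h1 := SLead_taylor hF1
      rw [Finset.sum_range_succ, Finset.sum_range_one] at h1
      simp only [pow_zero, pow_one, Nat.sub_zero, Nat.sub_self, one_mul, mul_one] at h1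
      rw [← hc0, ← hc1] at h1
      have h2 : C c0 * SLead_u q 0 + C c1 * SLead_u q 1 =
          -(F - (C c1 * SLead_u q 1 + C c0 * SLead_u q 0)) + F := by ring
      rw [h2]
      exact Submodule.add_mem _ (Submodule.neg_mem _ (Submodule.mem_sup_left h1))
        (Submodule.mem_sup_right (self_mem_pr F))
    have hne : c0 ≠ 0 ∨ c1 ≠ 0 := by
      obtain ⟨a, b, hab, hcne⟩ := exists_coeff_ne (q := q) hF0
      rw [h] at hab
      have h1 : (a = 1 ∧ b = 0) ∨ (a = 0 ∧ b = 1) := by omega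
      rcases h1 with ⟨rfl, rfl⟩ | ⟨rfl, rfl⟩
      · exact Or.inl (by rw [hc0]; exact hcne)
      · exact Or.inr (by rw [hc1]; exact hcne)
    have hu0 := SLead_u_mem q 0
    have hu1 := SLead_u_mem q 1
    have ht := SLead_taylor hf
    obtain ⟨co, hco⟩ : ∃ co : ℕ → k, co = fun a => coeff (mon a (r - a)) (shift q f) := ⟨_, rfl⟩
    have hlf' : ∑ a ∈ Finset.range (r + 1), co a * (c1 ^ a * (-c0) ^ (r - a)) = 0 := by
      rw [← hlf, hco, hc0, hc1]
      rfl
    have ht' : f - ∑ a ∈ Finset.range (r + 1), C (co a) *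
        (SLead_u q 0 ^ a * SLead_u q 1 ^ (r - a)) ∈ mp q ^ (r + 1) ⊔ pr F := by
      rw [hco]
      exact Submodule.mem_sup_left ht
    -- it is enough to have a common factor
    have key : ∀ (w : A2 k) (e : ℕ → k), (∑ a ∈ Finset.range (r + 1), co a * e a = 0) →
        (∀ a ∈ Finset.range (r + 1), SLead_u q 0 ^ a * SLead_u q 1 ^ (r - a) - C (e a) * w ^ r ∈
          mp q ^ (r + 1) ⊔ pr F) → f ∈ mp q ^ (r + 1) ⊔ pr F := by
      intro w e he hmem
      have h1 : ∑ a ∈ Finset.range (r + 1), C (co a) *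
          (SLead_u q 0 ^ a * SLead_u q 1 ^ (r - a) - C (e a) * w ^ r) ∈
            mp q ^ (r + 1) ⊔ pr F :=
        Submodule.sum_mem _ fun a ha => Ideal.mul_mem_left _ _ (hmem a ha)
      have h2 : ∑ a ∈ Finset.range (r + 1), C (co a) *
          (SLead_u q 0 ^ a * SLead_u q 1 ^ (r - a) - C (e a) * w ^ r) =
          ∑ a ∈ Finset.range (r + 1), C (co a) *
            (SLead_u q 0 ^ a * SLead_u q 1 ^ (r - a)) := by
        have h3 : ∀ a, C (co a) * (SLead_u q 0 ^ a * SLead_u q 1 ^ (r - a) - C (e a) * w ^ r) =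
            C (co a) * (SLead_u q 0 ^ a * SLead_u q 1 ^ (r - a)) - C (co a * e a) * w ^ r := by
          intro a
          rw [C_mul]
          ring
        simp only [h3]
        rw [Finset.sum_sub_distrib, ← Finset.sum_mul, ← map_sum, he, C_0, zero_mul, sub_zero]
      rw [h2] at h1
      have h4 := Submodule.add_mem _ ht' h1
      rwa [sub_add_cancel] at h4
    by_cases h1 : c1 = 0
    · have h0 : c0 ≠ 0 := hne.resolve_right (not_not.2 h1)
      -- `u 0 ≡ c u 1`
      have hcong : SLead_u q 0 - C (-(c1 / c0)) * SLead_u q 1 ∈ mp q ^ 2 ⊔ pr F := by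
        have h2 := Ideal.mul_mem_left _ (C c0⁻¹) hL
        have h3 : C c0⁻¹ * (C c0 * SLead_u q 0 + C c1 * SLead_u q 1) =
            SLead_u q 0 - C (-(c1 / c0)) * SLead_u q 1 := by
          have h4 : (C c0⁻¹ * C c0 : A2 k) = 1 := by rw [← C_mul, inv_mul_cancel₀ h0, C_1]
          have h5 : (C (-(c1 / c0)) : A2 k) = -(C c0⁻¹ * C c1) := by
            rw [← C_mul, ← C_neg, div_eq_inv_mul]
          rw [h5]
          linear_combination (SLead_u q 0) * h4
        rw [h3] at h2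
        exact h2
      refine key (SLead_u q 1) (fun a => (-(c1 / c0)) ^ a) ?_ ?_
      · have h2 : ∀ a ∈ Finset.range (r + 1), co a * (c1 ^ a * (-c0) ^ (r - a)) =
            (-c0) ^ r * (co a * (-(c1 / c0)) ^ a) := by
          intro a ha
          rw [Finset.mem_range] at ha
          have h3 : (-c0) ^ r = (-c0) ^ a * (-c0) ^ (r - a) := by
            rw [← pow_add]
            congr 1
            omega
          have h4 : c1 ^ a = (-c0) ^ a * (-(c1 / c0)) ^ a := by
            rw [← mul_pow]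
            congr 1
            field_simp
          rw [h3, h4]
          ring
        rw [Finset.sum_congr rfl h2, ← Finset.mul_sum] at hlf'
        exact (mul_eq_zero.1 hlf').resolve_left (pow_ne_zero _ (neg_ne_zero.2 h0))
      · intro a ha
        rw [Finset.mem_range] at ha
        have h2 := SLead_mono _ hu0 hu1 hcong (r - a) a
        have h3 : r - a + a = r := by omega
        rw [h3, mul_comm (SLead_u q 1 ^ (r - a))] at h2
        exact h2
    · have hcong : SLead_u q 1 - C (-(c0 / c1)) * SLead_u q 0 ∈ mp q ^ 2 ⊔ pr F := by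
        have h2 := Ideal.mul_mem_left _ (C c1⁻¹) hL
        have h3 : C c1⁻¹ * (C c0 * SLead_u q 0 + C c1 * SLead_u q 1) =
            SLead_u q 1 - C (-(c0 / c1)) * SLead_u q 0 := by
          have h4 : (C c1⁻¹ * C c1 : A2 k) = 1 := by rw [← C_mul, inv_mul_cancel₀ h1, C_1]
          have h5 : (C (-(c0 / c1)) : A2 k) = -(C c1⁻¹ * C c0) := by
            rw [← C_mul, ← C_neg, div_eq_inv_mul]
          rw [h5]
          linear_combination (SLead_u q 1) * h4
        rw [h3] at h2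
        exact h2
      refine key (SLead_u q 0) (fun a => (-(c0 / c1)) ^ (r - a)) ?_ ?_
      · have h2 : ∀ a ∈ Finset.range (r + 1), co a * (c1 ^ a * (-c0) ^ (r - a)) =
            c1 ^ r * (co a * (-(c0 / c1)) ^ (r - a)) := by
          intro a ha
          rw [Finset.mem_range] at ha
          have h3 : c1 ^ r = c1 ^ a * c1 ^ (r - a) := by
            rw [← pow_add]
            congr 1
            omega
          have h4 : (-c0) ^ (r - a) = c1 ^ (r - a) * (-(c0 / c1)) ^ (r - a) := by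
            rw [← mul_pow]
            congr 1
            field_simp
          rw [h3, h4]
          ring
        rw [Finset.sum_congr rfl h2, ← Finset.mul_sum] at hlf'
        exact (mul_eq_zero.1 hlf').resolve_left (pow_ne_zero _ h1)
      · intro a ha
        rw [Finset.mem_range] at ha
        have h2 := SLead_mono _ hu1 hu0 hcong a (r - a)
        have h3 : a + (r - a) = r := by omega
        rw [h3] at h2
        exact h2

/-- The order is additive.
PROOF. `f = f' + F u`, `g = g' + F v` with `f' ∈ mp q ^ r`, `g' ∈ mp q ^ s`. `f g - f' g' ∈ pr F`; by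
`lead_iff` `lf f' ≠ 0`, `lf g' ≠ 0`, so `lf (f' g') ≠ 0` (`lf_mul`) and `f' g' ∉ mp q ^ (r + s + 1) ⊔ pr F`. -/
theorem ord_mul {q : Fin 2 → k} {F : A2 k} (hF0 : F ≠ 0) (h : mu q F = 1) {r s : ℕ} {f g : A2 k}
    (hf : f ∈ mp q ^ r ⊔ pr F) (hf' : f ∉ mp q ^ (r + 1) ⊔ pr F)
    (hg : g ∈ mp q ^ s ⊔ pr F) (hg' : g ∉ mp q ^ (s + 1) ⊔ pr F) :
    f * g ∈ mp q ^ (r + s) ⊔ pr F ∧ f * g ∉ mp q ^ (r + s + 1) ⊔ pr F := by
  obtain ⟨f', hf1, w, hw, rfl⟩ := Submodule.mem_sup.1 hf
  obtain ⟨g', hg1, v, hv, rfl⟩ := Submodule.mem_sup.1 hg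
  have e1 : f' ∉ mp q ^ (r + 1) ⊔ pr F := fun h1 =>
    hf' (Submodule.add_mem _ h1 (Submodule.mem_sup_right hw))
  have e2 : g' ∉ mp q ^ (s + 1) ⊔ pr F := fun h1 =>
    hg' (Submodule.add_mem _ h1 (Submodule.mem_sup_right hv))
  rw [lead_iff hF0 h hf1] at e1
  rw [lead_iff hF0 h hg1] at e2
  have hm : f' * g' ∈ mp q ^ (r + s) := by
    rw [pow_add]
    exact Ideal.mul_mem_mul hf1 hg1
  have e3 : f' * g' ∉ mp q ^ (r + s + 1) ⊔ pr F := by
    rw [lead_iff hF0 h hm, lf_mul _ hf1 hg1]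
    exact mul_ne_zero e1 e2
  have e4 : (f' + w) * (g' + v) = f' * g' + (f' * v + (g' + v) * w) := by ring
  have e5 : f' * v + (g' + v) * w ∈ pr F :=
    Ideal.add_mem _ (Ideal.mul_mem_left _ _ hv) (Ideal.mul_mem_left _ _ hw)
  rw [e4]
  refine ⟨Submodule.add_mem _ (Submodule.mem_sup_left hm) (Submodule.mem_sup_right e5), ?_⟩
  intro h1
  apply e3
  have h2 := Submodule.sub_mem _ h1 (Submodule.mem_sup_right (S := mp q ^ (r + s + 1)) e5)
  rwa [add_sub_cancel_right] at h2

/-- PROOF. Induction on `a` with `ord_mul`; for `a = 0`: `1 ∉ mp q ⊔ pr F = mp q`. -/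
theorem ord_pow {q : Fin 2 → k} {F : A2 k} (hF0 : F ≠ 0) (h : mu q F = 1) {r : ℕ} {f : A2 k}
    (hf : f ∈ mp q ^ r ⊔ pr F) (hf' : f ∉ mp q ^ (r + 1) ⊔ pr F) (a : ℕ) :
    f ^ a ∈ mp q ^ (a * r) ⊔ pr F ∧ f ^ a ∉ mp q ^ (a * r + 1) ⊔ pr F := by
  induction a with
  | zero =>
    rw [pow_zero, zero_mul, zero_add, pow_zero, pow_one]
    refine ⟨Submodule.mem_sup_left (by rw [Ideal.one_eq_top]; trivial), fun h1 => ?_⟩
    have h2 : mp q ⊔ pr F ≤ mp q := by
      refine sup_le le_rfl ?_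
      unfold pr
      rw [Ideal.span_singleton_le_iff_mem]
      exact (one_le_mu hF0).1 h.ge
    have h3 := mem_mp.1 (h2 h1)
    rw [map_one] at h3
    exact one_ne_zero h3
  | succ a ih =>
    have h1 := ord_mul hF0 h ih.1 ih.2 hf hf'
    rw [pow_succ, add_mul, one_mul]
    exact h1

end Pool.MP_70e04f_ag.Strip

end

/-! ### from `Lib_MP_70e04f_strip.SGonA` -/

section

/-!
# Piece SGONA: independence of the monomials in two sections of different order
-/

set_option autoImplicit false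

namespace Pool.MP_70e04f_ag.Strip

open MvPolynomial

theorem SGonA_mono {k : Type*} [Field k] {q : Fin 2 → k} {F f : A2 k} {a b : ℕ} (h : b ≤ a)
    (hf : f ∈ mp q ^ a ⊔ pr F) : f ∈ mp q ^ b ⊔ pr F := by
  have h1 : mp q ^ a ⊔ pr F ≤ mp q ^ b ⊔ pr F := sup_le_sup (Ideal.pow_le_pow_right h) le_rfl
  exact h1 hf

/-- the order at a smooth point is finite.
PROOF. `f ∈ mp q ^ 0 ⊔ pr F = ⊤`. If `f ∈ mp q ^ r ⊔ pr F` then `mulbez` (one point, `β = r`) gives
`mu q F * r ≤ deg F * deg f`. So there is a largest `r` (`Nat.find` for the complement). -/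
theorem exists_ord {k : Type*} [Field k] {q : Fin 2 → k} {F : A2 k} (hF : Irreducible F)
    (h : mu q F = 1) {f : A2 k} (hf : ¬ F ∣ f) :
    ∃ r : ℕ, f ∈ mp q ^ r ⊔ pr F ∧ f ∉ mp q ^ (r + 1) ⊔ pr F := by
  by_contra hc
  push Not at hc
  have hall : ∀ r : ℕ, f ∈ mp q ^ r ⊔ pr F := by
    intro r
    induction r with
    | zero => rw [pow_zero, Ideal.one_eq_top, top_sup_eq]; trivial
    | succ r ih => exact hc r ih
  have hb := mulbez (k := k) (n := 1) (p := fun _ => q) (fun a b _ => Subsingleton.elim a b) hF hf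
    (fun _ => F.totalDegree * f.totalDegree + 1) (by
      have h1 : Iz (n := 1) (fun _ => q) (fun _ => F.totalDegree * f.totalDegree + 1)
          = mp q ^ (F.totalDegree * f.totalDegree + 1) := by
        unfold Iz
        exact iInf_const
      rw [h1]
      exact hall _)
  rw [Fin.sum_univ_one, h, one_mul] at hb
  omega

/-- The monomials in `u, w` of degree `κ` are independent modulo `F`.
PROOF. `w ∉ mp q ^ r ⊔ pr F` implies `¬ F ∣ w`. Let `s`, `r'` be the orders of `w`, `u` (`exists_ord`); then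
`s < r ≤ r'` (`Ideal.pow_le_pow_right`). Suppose `F ∣ ∑ c a u ^ a w ^ (κ - a)` and not all `c a` are zero;
let `a0` be minimal with `c a0 ≠ 0`. By `ord_pow`, `ord_mul`, `u ^ a w ^ (κ - a)` is in
`mp q ^ (a r' + (κ - a) s) ⊔ pr F`, and for `a = a0` not in `mp q ^ (a0 r' + (κ - a0) s + 1) ⊔ pr F`. For
`a > a0`, `a r' + (κ - a) s ≥ a0 r' + (κ - a0) s + 1`. Contradiction. -/
theorem monomials_indep {k : Type*} [Field k] {q : Fin 2 → k} {F : A2 k} (hF : Irreducible F)
    (h : mu q F = 1) {u w : A2 k} (hu : ¬ F ∣ u) {r : ℕ} (h1 : u ∈ mp q ^ r ⊔ pr F)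
    (h2 : w ∉ mp q ^ r ⊔ pr F) (κ : ℕ) (c : ℕ → k)
    (hc : F ∣ ∑ a ∈ Finset.range (κ + 1), C (c a) * (u ^ a * w ^ (κ - a))) :
    ∀ a ∈ Finset.range (κ + 1), c a = 0 := by
  have hF0 : F ≠ 0 := hF.ne_zero
  have hw : ¬ F ∣ w := fun hd => h2 (Ideal.mem_sup_right (mem_pr.2 hd))
  obtain ⟨s, hs1, hs2⟩ := exists_ord hF h hw
  obtain ⟨r', hr1, hr2⟩ := exists_ord hF h hu
  have hsr : s < r := by
    by_contra hlt
    exact h2 (SGonA_mono (not_lt.1 hlt) hs1)
  have hrr : r ≤ r' := by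
    by_contra hlt
    exact hr2 (SGonA_mono (by omega) h1)
  have hterm : ∀ a : ℕ, u ^ a * w ^ (κ - a) ∈ mp q ^ (a * r' + (κ - a) * s) ⊔ pr F ∧
      u ^ a * w ^ (κ - a) ∉ mp q ^ (a * r' + (κ - a) * s + 1) ⊔ pr F := by
    intro a
    have e1 := ord_pow hF0 h hr1 hr2 a
    have e2 := ord_pow hF0 h hs1 hs2 (κ - a)
    exact ord_mul hF0 h e1.1 e1.2 e2.1 e2.2
  by_contra hne
  push Not at hne
  classical
  have hex : ∃ a, a ∈ Finset.range (κ + 1) ∧ c a ≠ 0 := hne
  have hm := Nat.find_spec hex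
  have hmin : ∀ b, b < Nat.find hex → c b = 0 := by
    intro b hb
    by_contra hcb
    refine Nat.find_min hex hb ⟨?_, hcb⟩
    have := Finset.mem_range.1 hm.1
    exact Finset.mem_range.2 (by omega)
  set a0 := Nat.find hex with ha0
  have ha0k : a0 < κ + 1 := Finset.mem_range.1 hm.1
  have hI : ∀ a ∈ (Finset.range (κ + 1)).erase a0,
      C (c a) * (u ^ a * w ^ (κ - a)) ∈ mp q ^ (a0 * r' + (κ - a0) * s + 1) ⊔ pr F := by
    intro a ha
    rw [Finset.mem_erase, Finset.mem_range] at ha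
    rcases lt_or_gt_of_ne ha.1 with hlt | hgt
    · rw [hmin a hlt, C_0, zero_mul]
      exact Ideal.zero_mem _
    · refine Ideal.mul_mem_left _ _ (SGonA_mono ?_ (hterm a).1)
      obtain ⟨d, hd⟩ := Nat.exists_eq_add_of_lt hgt
      obtain ⟨e, he⟩ := Nat.exists_eq_add_of_le (show a ≤ κ by omega)
      have h3 : κ - a = e := by omega
      have h4 : κ - a0 = e + (d + 1) := by omega
      rw [h3, h4, hd]
      have h5 : s + 1 ≤ r' := by omega
      have h6 : (d + 1) * (s + 1) ≤ (d + 1) * r' := Nat.mul_le_mul_left _ h5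
      nlinarith
  have hsum : ∑ a ∈ (Finset.range (κ + 1)).erase a0, C (c a) * (u ^ a * w ^ (κ - a)) ∈
      mp q ^ (a0 * r' + (κ - a0) * s + 1) ⊔ pr F := Ideal.sum_mem _ hI
  have htot : ∑ a ∈ Finset.range (κ + 1), C (c a) * (u ^ a * w ^ (κ - a)) ∈
      mp q ^ (a0 * r' + (κ - a0) * s + 1) ⊔ pr F := Ideal.mem_sup_right (mem_pr.2 hc)
  rw [← Finset.add_sum_erase _ _ hm.1] at htot
  have h7 := (Ideal.add_mem_iff_left _ hsum).1 htot
  have h8 : C (c a0)⁻¹ * (C (c a0) * (u ^ a0 * w ^ (κ - a0))) ∈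
      mp q ^ (a0 * r' + (κ - a0) * s + 1) ⊔ pr F := Ideal.mul_mem_left _ _ h7
  rw [← mul_assoc, ← C_mul, inv_mul_cancel₀ hm.2, C_1, one_mul] at h8
  exact (hterm a0).2 h8

end Pool.MP_70e04f_ag.Strip

end

/-! ### from `Lib_MP_70e04f_strip.SSec` -/

section

/-!
# Piece SSEC: the number of sections on a curve grows slowly
-/

set_option autoImplicit false

namespace Pool.MP_70e04f_ag.Strip

open MvPolynomial

variable {k : Type*} [Field k] {n : ℕ} {p : Fin n → Fin 2 → k}

/-- restriction to the line `x = c` -/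
noncomputable def SSec_res (c : k) : A2 k →ₐ[k] Polynomial k :=
  aeval (![Polynomial.C c, Polynomial.X] : Fin 2 → Polynomial k)

/-- a polynomial in `y` -/
noncomputable def SSec_inc : Polynomial k →ₐ[k] A2 k := Polynomial.aeval (X 1 : A2 k)

theorem SSec_dvd (c : k) (f : A2 k) (hf : SSec_res c f = 0) : (X 0 - C c : A2 k) ∣ f := by
  set I : Ideal (A2 k) := Ideal.span {X 0 - C c} with hI
  have h1 : ((Ideal.Quotient.mkₐ k I).comp (SSec_inc.comp (SSec_res c)))
      = Ideal.Quotient.mkₐ k I := by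
    apply MvPolynomial.algHom_ext
    intro i
    fin_cases i
    · have : (X 0 - C c : A2 k) ∈ I := Ideal.subset_span rfl
      have h2 : Ideal.Quotient.mkₐ k I (C c) = Ideal.Quotient.mkₐ k I (X 0) := by
        rw [eq_comm]
        exact (Ideal.Quotient.eq).2 this
      simp only [SSec_res, SSec_inc, AlgHom.comp_apply, aeval_X, Fin.zero_eta,
        Matrix.cons_val_zero, Polynomial.aeval_C]
      exact h2
    · simp [SSec_res, SSec_inc]
  have h3 := congrArg (fun ψ : A2 k →ₐ[k] (A2 k ⧸ I) => ψ f) h1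
  simp only [AlgHom.comp_apply, hf, map_zero] at h3
  have h4 : f ∈ I := by
    rw [← Ideal.Quotient.eq_zero_iff_mem]
    exact h3.symm
  exact Ideal.mem_span_singleton.1 h4

theorem SSec_deg (c : k) (t : ℕ) (f : A2 k) (hf : f ∈ Pt k t) :
    SSec_res c f ∈ Polynomial.degreeLT k (t + 1) := by
  obtain ⟨v, rfl⟩ := (mem_range_toPoly t f).1 hf
  rw [toPoly_apply, map_sum]
  refine Submodule.sum_mem _ fun q _ => ?_
  rw [map_smul]
  refine Submodule.smul_mem _ _ ?_
  rw [Polynomial.mem_degreeLT]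
  have h1 : SSec_res c (X 0 ^ q.1.1 * X 1 ^ q.1.2 : A2 k)
      = Polynomial.C (c ^ q.1.1) * Polynomial.X ^ q.1.2 := by
    simp [SSec_res]
  rw [h1]
  refine lt_of_le_of_lt (Polynomial.degree_C_mul_X_pow_le _ _) ?_
  have := mem_tri.1 q.2
  exact_mod_cast (by omega : q.1.2 < t + 1)

theorem SSec_tdeg (c : k) (t : ℕ) (g : A2 k)
    (h : (X 0 - C c : A2 k) * g ∈ Pt k (t + 1)) : g ∈ Pt k t := by
  rw [mem_Pt] at *
  by_cases hg : g = 0
  · subst hg; simp
  have hw : (X 0 - C c : A2 k) ≠ 0 := by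
    intro h0
    have := congrArg (eval (fun _ => c + 1)) h0
    simp at this
  rw [totalDegree_mul_of_isDomain hw hg] at h
  have h1 : 1 ≤ (X 0 - C c : A2 k).totalDegree := by
    by_contra h0
    have h2 : (X 0 - C c : A2 k).totalDegree = 0 := by omega
    rw [totalDegree_eq_zero_iff_eq_C] at h2
    have h3 := congrArg (eval (fun _ => c + 1)) h2
    have h4 := congrArg (eval (fun _ => c)) h2
    simp only [map_sub, eval_X, eval_C] at h3 h4
    rw [← h3] at h4
    simp at h4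
  omega

theorem SSec_growth [Infinite k] (hp : Function.Injective p) (β : Fin n → ℕ) (a : Ideal (A2 k))
    (ha : Iz p β ≤ a) (t : ℕ) :
    Module.finrank k ↥(Pt k (t + 1) ⊓ sp a) ≤ Module.finrank k ↥(Pt k t ⊓ sp a) + (t + 2) := by
  classical
  obtain ⟨c, hc⟩ := Infinite.exists_notMem_finset (Finset.univ.image fun i => p i 0)
  have hc' : ∀ i, p i 0 ≠ c := by
    intro i hi
    exact hc (Finset.mem_image.2 ⟨i, Finset.mem_univ _, hi⟩)
  set w : A2 k := X 0 - C c with hw
  obtain ⟨w', hw'⟩ := unit_mod hp β w (fun i => by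
    rw [mem_mp, hw]
    simp only [map_sub, eval_X, eval_C]
    exact sub_ne_zero.2 (hc' i))
  have hfinA : ∀ s, Module.Finite k ↥(Pt k s ⊓ sp a) := fun s =>
    Submodule.finiteDimensional_of_le (inf_le_left : Pt k s ⊓ sp a ≤ Pt k s)
  have := hfinA (t + 1)
  have := hfinA t
  set V := Pt k (t + 1) ⊓ sp a with hV
  let φ : ↥V →ₗ[k] ↥(Polynomial.degreeLT k (t + 1 + 1)) :=
    LinearMap.codRestrict _ ((SSec_res c).toLinearMap.domRestrict V)
      (fun f => SSec_deg c (t + 1) f.1 f.2.1)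
  have h1 := LinearMap.finrank_range_add_finrank_ker φ
  have h2 : Module.finrank k ↥(LinearMap.range φ) ≤ t + 2 := by
    have e1 : Module.finrank k ↥(Polynomial.degreeLT k (t + 1 + 1)) = t + 2 := by
      rw [(Polynomial.degreeLTEquiv k (t + 1 + 1)).finrank_eq, Module.finrank_fin_fun]
    have : Module.Finite k ↥(Polynomial.degreeLT k (t + 1 + 1)) :=
      Module.Finite.equiv (Polynomial.degreeLTEquiv k (t + 1 + 1)).symm
    exact (Submodule.finrank_le _).trans e1.le
  have h3 : Module.finrank k ↥(LinearMap.ker φ) ≤ Module.finrank k ↥(Pt k t ⊓ sp a) := by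
    have e1 : (LinearMap.ker φ).map V.subtype ≤
        (Pt k t ⊓ sp a).map (LinearMap.mulLeft k w) := by
      rintro f ⟨⟨g, hg⟩, hgk, rfl⟩
      have hk : SSec_res c g = 0 := by
        have := LinearMap.mem_ker.1 hgk
        exact congrArg Subtype.val this
      obtain ⟨u, hu⟩ := SSec_dvd c g hk
      refine ⟨u, ⟨?_, ?_⟩, ?_⟩
      · apply SSec_tdeg c t u
        rw [← hu]
        exact hg.1
      · have hga : w * u ∈ a := by
          rw [hw, ← hu]
          exact hg.2
        have e2 : u = w' * (w * u) - (w * w' - 1) * u := by ring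
        rw [e2]
        exact Ideal.sub_mem _ (Ideal.mul_mem_left _ _ hga) (Ideal.mul_mem_right _ _ (ha hw'))
      · rw [hw]
        exact hu.symm
    have e2 : Module.finrank k ↥((LinearMap.ker φ).map V.subtype)
        = Module.finrank k ↥(LinearMap.ker φ) :=
      (LinearEquiv.finrank_eq (Submodule.equivMapOfInjective _ V.subtype_injective _)).symm
    rw [← e2]
    exact (Submodule.finrank_mono e1).trans (Submodule.finrank_map_le _ _)
  omega

/-- PROOF. Choose `c` different from all `p i 0` (`k` infinite) and `w = X 0 - C c`, a unit modulo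
`Iz p β` (`unit_mod`). The map `f ↦ f (c, y)` from `Pt k (t + 1) ⊓ sp a` (`a = Iz p β ⊔ pr F`) to the
univariate polynomials of degree `≤ t + 1` (dimension `t + 2`) has kernel contained in
`w * (Pt k t ⊓ sp a)`: if `f (c, y) = 0` then `f = w g` with `deg g ≤ t`, and `w g ∈ a` implies `g ∈ a`
since `w` is a unit modulo `Iz p β`. So
`finrank (Pt k (t + 1) ⊓ sp a) ≤ finrank (Pt k t ⊓ sp a) + (t + 2)`. Now use `sec_add` and
`finrank_inf_pr`, `inf_pr_eq_bot`, `two_finrank_Pt` (`e = deg F`): the dimension of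
`Pt k s ⊓ sp (pr F)` is `(s - e + 1) (s - e + 2) / 2` for `s ≥ e` and `0` for `s < e`. If `t ≥ e` it
increases by `t - e + 2`, so `sec` increases by at most `e`; if `t + 1 = e` it increases by `1`, and
`t + 2 - 1 = e`; if `t + 1 < e` then `t + 2 ≤ e`. -/
theorem sec_succ [Infinite k] (hp : Function.Injective p) {F : A2 k} (hF : F ≠ 0)
    (β : Fin n → ℕ) (t : ℕ) :
    sec (t + 1) (Iz p β ⊔ pr F) F ≤ sec t (Iz p β ⊔ pr F) F + F.totalDegree := by
  have h1 := SSec_growth hp β (Iz p β ⊔ pr F) le_sup_left t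
  have h2 := sec_add (F := F) (a := Iz p β ⊔ pr F) le_sup_right t
  have h3 := sec_add (F := F) (a := Iz p β ⊔ pr F) le_sup_right (t + 1)
  rcases lt_trichotomy (t + 1) F.totalDegree with h | h | h
  · have e1 : Module.finrank k ↥(Pt k t ⊓ sp (pr F)) = 0 := by
      rw [inf_pr_eq_bot (by omega)]; exact finrank_bot k _
    have e2 : Module.finrank k ↥(Pt k (t + 1) ⊓ sp (pr F)) = 0 := by
      rw [inf_pr_eq_bot h]; exact finrank_bot k _
    omega
  · have e1 : Module.finrank k ↥(Pt k t ⊓ sp (pr F)) = 0 := by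
      rw [inf_pr_eq_bot (by omega)]; exact finrank_bot k _
    have e2 := finrank_inf_pr hF 0
    have e3 := two_finrank_Pt (k := k) 0
    rw [zero_add, ← h] at e2
    omega
  · obtain ⟨s, hs⟩ : ∃ s, t = s + F.totalDegree := ⟨t - F.totalDegree, by omega⟩
    have e1 := finrank_inf_pr hF s
    have e2 := finrank_inf_pr hF (s + 1)
    have e3 := two_finrank_Pt (k := k) s
    have e4 := two_finrank_Pt (k := k) (s + 1)
    rw [← hs] at e1
    rw [show s + 1 + F.totalDegree = t + 1 by omega] at e2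
    have e5 : (s + 1 + 1) * (s + 1 + 2) = (s + 1) * (s + 2) + 2 * (s + 2) := by ring
    omega

end Pool.MP_70e04f_ag.Strip

end

/-! ### from `Lib_MP_70e04f_strip.SSecB` -/

section

/-!
# Piece SSECB: few sections on an irreducible curve, and Riemann-Roch
-/

set_option autoImplicit false

namespace Pool.MP_70e04f_ag.Strip

open MvPolynomial

variable {k : Type*} [Field k] {n : ℕ} {p : Fin n → Fin 2 → k}

theorem SSecB_deg_pos {F : A2 k} (hF : Irreducible F) : 1 ≤ F.totalDegree := by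
  by_contra h
  have h0 : F.totalDegree = 0 := by omega
  rw [totalDegree_eq_zero_iff_eq_C] at h0
  apply hF.not_isUnit
  have : coeff 0 F ≠ 0 := by
    intro hc
    apply hF.ne_zero
    rw [h0, hc, C_0]
  rw [h0]
  exact (IsUnit.mk0 _ this).map C

theorem SSecB_zero (hp : Function.Injective p) {F : A2 k} (hF : Irreducible F)
    (β : Fin n → ℕ) (t : ℕ)
    (h : (t : ℤ) * F.totalDegree - ∑ i, (mu (p i) F : ℤ) * β i < 0) :
    sec t (Iz p β ⊔ pr F) F = 0 := by
  obtain ⟨W, hW1, hW2, hW3, hW4⟩ := exists_sections (F := F) (a := Iz p β ⊔ pr F) le_sup_right t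
  rw [← hW4]
  by_contra hne
  have hW : W ≠ ⊥ := by
    rintro rfl
    apply hne
    exact finrank_bot k _
  obtain ⟨s, hs, hs0⟩ := Submodule.exists_mem_ne_zero_of_ne_bot hW
  have h1 := mulbez hp hF (hW3 s hs hs0) β (hW2 s hs)
  have h2 : s.totalDegree ≤ t := mem_Pt.1 (hW1 hs)
  have h3 : F.totalDegree * s.totalDegree ≤ F.totalDegree * t := Nat.mul_le_mul_left _ h2
  have h4 : ((∑ i, mu (p i) F * β i : ℕ) : ℤ) ≤ ((F.totalDegree * t : ℕ) : ℤ) := by
    exact_mod_cast h1.trans h3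
  push_cast at h4
  linarith

theorem SSecB_one (a : Ideal (A2 k)) (F : A2 k) (ha : pr F ≤ a) : sec 0 a F ≤ 1 := by
  have h1 := sec_add (k := k) ha 0
  have h2 := two_finrank_Pt (k := k) 0
  have h3 : Module.finrank k ↥(Pt k 0 ⊓ sp a) ≤ Module.finrank k ↥(Pt k 0) :=
    Submodule.finrank_mono inf_le_left
  omega

/-- PROOF. Let `e = deg F ≥ 1`, `a i = mu (p i) F`, `δ t = t e - ∑ a i * β i`. If `δ t < 0` then
`sec t = 0`: an `f ∈ Pt k t`, `f ∈ Iz p β ⊔ pr F`, `¬ F ∣ f` would give `∑ a i * β i ≤ e * deg f ≤ e t`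
(`mulbez`). Induction on `t`. `t = 0`: `Pt k 0` is one dimensional (constants), so `sec 0 ≤ 1`, and if
`sec 0 = 1` then `δ 0 ≥ 0` by the first remark, so the right side is `≥ e ≥ 1`. Step: if `δ (t + 1) < 0`
then `sec (t + 1) = 0`. Otherwise
`sec (t + 1) ≤ sec t + e ≤ max 0 (δ t + e) + e = max e (δ (t + 1) + e) = δ (t + 1) + e`. -/
theorem sec_le [Infinite k] (hp : Function.Injective p) {F : A2 k} (hF : Irreducible F)
    (β : Fin n → ℕ) (t : ℕ) :
    (sec t (Iz p β ⊔ pr F) F : ℤ) ≤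
      max 0 ((t : ℤ) * F.totalDegree - ∑ i, (mu (p i) F : ℤ) * β i + F.totalDegree) := by
  have he := SSecB_deg_pos hF
  have he' : (1 : ℤ) ≤ F.totalDegree := by exact_mod_cast he
  induction t with
  | zero =>
    by_cases h : ((0 : ℕ) : ℤ) * F.totalDegree - ∑ i, (mu (p i) F : ℤ) * β i < 0
    · rw [SSecB_zero hp hF β 0 h]
      exact le_max_left _ _
    · push Not at h
      have h1 := SSecB_one (Iz p β ⊔ pr F) F le_sup_right
      have h2 : ((sec 0 (Iz p β ⊔ pr F) F : ℕ) : ℤ) ≤ 1 := by exact_mod_cast h1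
      refine le_trans ?_ (le_max_right _ _)
      linarith
  | succ t ih =>
    by_cases h : ((t + 1 : ℕ) : ℤ) * F.totalDegree - ∑ i, (mu (p i) F : ℤ) * β i < 0
    · rw [SSecB_zero hp hF β (t + 1) h]
      exact le_max_left _ _
    · push Not at h
      have h1 := sec_succ hp hF.ne_zero β t
      have h2 : ((sec (t + 1) (Iz p β ⊔ pr F) F : ℕ) : ℤ) ≤
          (sec t (Iz p β ⊔ pr F) F : ℕ) + (F.totalDegree : ℤ) := by exact_mod_cast h1
      refine le_trans ?_ (le_max_right _ _)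
      push_cast at h ⊢
      have h3 : (sec t (Iz p β ⊔ pr F) F : ℤ) ≤
          ((t : ℤ) + 1) * F.totalDegree - ∑ i, (mu (p i) F : ℤ) * β i := by
        refine ih.trans (max_le h ?_)
        linarith
      linarith

/-- Riemann-Roch on the curve `F` (no irreducibility).
PROOF. `cod_add`, `sec_add`, `finrank_inf_pr` (with `s = t - e`), `two_finrank_Pt`, `len_curve`:
`2 cod = 2 len - (t + 1) (t + 2) + (t - e + 1) (t - e + 2) + 2 sec` and
`(t + 1) (t + 2) - (t - e + 1) (t - e + 2) = 2 t e - e (e - 3)`. (`FinC` from `finC_Iz` and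
`FinC.mono`.) -/
theorem rr (hp : Function.Injective p) {F : A2 k} (hF : F ≠ 0) (β : Fin n → ℕ)
    (hβ : ∀ i, mu (p i) F ≤ β i + 1) {t : ℕ} (ht : F.totalDegree ≤ t) :
    2 * (cod t (Iz p β ⊔ pr F) : ℤ) =
      - 2 * ((t : ℤ) * F.totalDegree - ∑ i, (mu (p i) F : ℤ) * β i)
      + ((F.totalDegree : ℤ) * (F.totalDegree - 3)
          - ∑ i, (mu (p i) F : ℤ) * ((mu (p i) F : ℤ) - 1))
      + 2 * sec t (Iz p β ⊔ pr F) F := by
  obtain ⟨s, rfl⟩ := Nat.exists_eq_add_of_le' ht
  have hfin : FinC (Iz p β ⊔ pr F) := (finC_Iz hp β).mono le_sup_left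
  have h1 := cod_add hfin (s + F.totalDegree)
  have h2 := sec_add (F := F) (a := Iz p β ⊔ pr F) le_sup_right (s + F.totalDegree)
  have h3 := finrank_inf_pr hF s
  have h4 := two_finrank_Pt (k := k) s
  have h5 := two_finrank_Pt (k := k) (s + F.totalDegree)
  have h6 := len_curve hp hF β hβ
  rw [h3] at h2
  zify at h1 h2 h4 h5
  rw [Finset.sum_sub_distrib] at h6
  have h7 : ∑ i, 2 * (mu (p i) F : ℤ) * β i = 2 * ∑ i, (mu (p i) F : ℤ) * β i := by
    rw [Finset.mul_sum]
    exact Finset.sum_congr rfl fun i _ => by ring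
  rw [h7] at h6
  push_cast
  nlinarith [h1, h2, h4, h5, h6]

/-- PROOF. `rr` and `sec_le` (the `max` is the second argument). -/
theorem cod_le_sq [Infinite k] (hp : Function.Injective p) {F : A2 k} (hF : Irreducible F)
    (β : Fin n → ℕ) (hβ : ∀ i, mu (p i) F ≤ β i + 1) {t : ℕ} (ht : F.totalDegree ≤ t)
    (hδ : ∑ i, (mu (p i) F : ℤ) * β i ≤ (t : ℤ) * F.totalDegree) :
    cod t (Iz p β ⊔ pr F) ≤ F.totalDegree ^ 2 := by
  have h1 := rr hp hF.ne_zero β hβ ht
  have h2 := sec_le hp hF β t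
  have he : (0 : ℤ) ≤ F.totalDegree := by positivity
  rw [max_eq_right (by linarith)] at h2
  have h3 : (0 : ℤ) ≤ ∑ i, (mu (p i) F : ℤ) * ((mu (p i) F : ℤ) - 1) := by
    apply Finset.sum_nonneg
    intro i _
    rcases Nat.eq_zero_or_pos (mu (p i) F) with h | h
    · rw [h]; simp
    · have : (1 : ℤ) ≤ mu (p i) F := by exact_mod_cast h
      nlinarith
  zify
  nlinarith

end Pool.MP_70e04f_ag.Strip

end

/-! ### from `Lib_MP_70e04f_strip.SBezI` -/

section

/-!
# Piece SBEZI: independence in large degree for a complete intersection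
-/

set_option autoImplicit false

namespace Pool.MP_70e04f_ag.Strip

open MvPolynomial

variable {k : Type*} [Field k]

theorem SBezI_mono_mem {s : Fin 2 →₀ ℕ} {t : ℕ} (h : s 0 + s 1 ≤ t) (c : k) :
    (monomial s c : A2 k) ∈ Pt k t := by
  rw [mem_Pt]
  by_cases hc : c = 0
  · rw [hc]; simp
  · rw [totalDegree_monomial s hc, Finsupp.sum_fintype _ _ (fun _ => rfl), Fin.sum_univ_two]
    exact h

theorem SBezI_step {J : Ideal (A2 k)} {t : ℕ} (h : PA (t + 1) J ≤ PA t J) :
    PA (t + 2) J ≤ PA (t + 1) J := by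
  unfold PA at *
  refine sup_le ?_ le_sup_right
  intro g hg
  rw [mem_Pt] at hg
  rw [g.as_sum]
  refine Submodule.sum_mem _ fun s hs => ?_
  have h1 : s 0 + s 1 ≤ t + 2 := by
    have h2 := (le_totalDegree hs).trans hg
    rw [Finsupp.sum_fintype _ _ (fun _ => rfl), Fin.sum_univ_two] at h2
    exact h2
  obtain ⟨c, hc⟩ : ∃ c, c = coeff s g := ⟨_, rfl⟩
  rw [← hc]
  by_cases hd : s 0 + s 1 ≤ t + 1
  · exact Submodule.mem_sup_left (SBezI_mono_mem hd c)
  · have h3 : ∃ i, s i ≠ 0 := by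
      by_contra hcon
      push Not at hcon
      rw [hcon 0, hcon 1] at hd
      omega
    obtain ⟨i, hi⟩ := h3
    have h4 : Finsupp.single i 1 ≤ s := by
      rw [Finsupp.single_le_iff]
      omega
    have e : (monomial s c : A2 k) = X i * monomial (s - Finsupp.single i 1) c := by
      rw [X, monomial_mul, one_mul, add_comm, tsub_add_cancel_of_le h4]
    have h5 : (s - Finsupp.single i 1 : Fin 2 →₀ ℕ) 0 + (s - Finsupp.single i 1 : Fin 2 →₀ ℕ) 1 ≤
        t + 1 := by
      rw [Finsupp.tsub_apply, Finsupp.tsub_apply]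
      fin_cases i
      · have h6 : s 0 ≠ 0 := hi
        simp
        omega
      · have h6 : s 1 ≠ 0 := hi
        simp
        omega
    have h6 := h (Submodule.mem_sup_left (SBezI_mono_mem h5 c))
    obtain ⟨m, hm, j, hj, e2⟩ := Submodule.mem_sup.1 h6
    rw [e, ← e2, mul_add]
    refine Submodule.add_mem _ (Submodule.mem_sup_left ?_) (Submodule.mem_sup_right ?_)
    · have h7 := mul_mem_Pt (mem_Pt.2 (totalDegree_X (R := k) i).le) hm
      refine Pt_mono ?_ h7
      omega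
    · exact J.mul_mem_left _ hj

theorem SBezI_stable {J : Ideal (A2 k)} {t : ℕ} (h : PA (t + 1) J ≤ PA t J) : Ind t J := by
  have h1 : ∀ n, PA (t + n + 1) J ≤ PA (t + n) J := by
    intro n
    induction n with
    | zero => exact h
    | succ n ih => exact SBezI_step ih
  have h2 : ∀ n, PA (t + n) J ≤ PA t J := by
    intro n
    induction n with
    | zero => exact le_rfl
    | succ n ih => exact (h1 n).trans ih
  unfold Ind
  rw [eq_top_iff]
  intro f _
  have h3 : f ∈ PA (t + f.totalDegree) J :=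
    Submodule.mem_sup_left (mem_Pt.2 (Nat.le_add_left _ _))
  exact h2 _ h3

theorem SBezI_lt {J : Ideal (A2 k)} (hJ : FinC J) {t : ℕ} (h : cod t J ≤ cod (t + 1) J) :
    Ind t J := by
  refine SBezI_stable ?_
  have hf1 := hJ.cod_finite t
  have hf2 := hJ.cod_finite (t + 1)
  have hle : PA t J ≤ PA (t + 1) J := PA_mono (Nat.le_succ t) le_rfl
  have hs : Function.Surjective (Submodule.factor hle) := Submodule.factor_surjective hle
  have heq : Module.finrank k (A2 k ⧸ PA t J) = Module.finrank k (A2 k ⧸ PA (t + 1) J) :=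
    le_antisymm h (LinearMap.finrank_le_finrank_of_surjective hs)
  have hi : Function.Injective (Submodule.factor hle) :=
    (LinearMap.injective_iff_surjective_of_finrank_eq_finrank heq).2 hs
  intro x hx
  have h1 : Submodule.factor hle ((PA t J).mkQ x) = 0 := by
    rw [Submodule.factor_mk]
    exact (Submodule.Quotient.mk_eq_zero _).2 hx
  have h2 : (PA t J).mkQ x = 0 := hi (by rw [h1, map_zero])
  exact (Submodule.Quotient.mk_eq_zero _).1 h2

theorem SBezI_count {J : Ideal (A2 k)} (hJ : FinC J) (t : ℕ) : Ind t J ∨ cod t J + t ≤ len J := by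
  induction t with
  | zero => exact Or.inr (cod_le_len hJ 0)
  | succ t ih =>
    rcases ih with h | h
    · exact Or.inl (h.mono (Nat.le_succ t) le_rfl)
    · by_cases hi : Ind t J
      · exact Or.inl (hi.mono (Nat.le_succ t) le_rfl)
      · right
        have h1 : cod (t + 1) J < cod t J := by
          by_contra hcon
          exact hi (SBezI_lt hJ (not_lt.1 hcon))
        omega

/-- PROOF. Let `B t` be the image of `Pt k t` in `A2 k ⧸ sp (pr F ⊔ pr G)`. If `B t = B (t + 1)` then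
`B (t + 1) = B (t + 2)`, because `Pt k (t + 2)` is spanned by `Pt k (t + 1)`, `X 0 * Pt k (t + 1)` and
`X 1 * Pt k (t + 1)`; so `B t` is everything. The dimensions of the `B t` increase strictly until
`B t` is everything, and `dim B 0 ≥ 1` (if the quotient is not zero), so `dim B t ≥ min (t + 1) (dim)`. So
`B (e f)` is everything. -/
theorem bez_ind {F G : A2 k} (hF : F ≠ 0) (hG : G ≠ 0) (h : IsRelPrime F G) :
    Ind (F.totalDegree * G.totalDegree) (pr F ⊔ pr G) := by
  obtain ⟨h1, h2⟩ := bez hF hG h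
  rcases SBezI_count h1 (len (pr F ⊔ pr G)) with h3 | h3
  · exact h3.mono h2 le_rfl
  · have h4 : Ind (len (pr F ⊔ pr G)) (pr F ⊔ pr G) := by
      rw [← h1.cod_eq_zero]
      omega
    exact h4.mono h2 le_rfl

end Pool.MP_70e04f_ag.Strip

end

/-! ### from `Lib_MP_70e04f_strip.SCurveA` -/

section

/-!
# Piece SCURVEA: one step of the vanishing on irreducible curves
-/

set_option autoImplicit false

namespace Pool.MP_70e04f_ag.Strip

open MvPolynomial

theorem SCurveA_E_le (E : ℕ) : E ≤ 2 * E ^ 2 + 2 := by nlinarith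

/-- One step.
PROOF. `r = κ D`, `γ i = κ M i`, `κ = 2 E ^ 2 + 2`. `D ≥ 1` (else `dotp ≤ 0`), `e = deg F ≥ 1`. By
`exists_sections` there is `W ≤ Pt k r` in `Iz p γ ⊔ pr F`, `W ∩ pr F = 0`, of dimension
`sec r (Iz p γ ⊔ pr F) F`. By `rr` (`e ≤ E ≤ κ ≤ r`; `mu (p i) F ≤ γ i + 1`: if `M i = 0` by `hM`, else
`γ i ≥ κ ≥ E`) and `cod ≥ 0`:
`2 finrank W ≥ 2 κ dotp - e (e - 3) + ∑ a (a - 1) ≥ 2 κ - E ^ 2`, so `finrank W > E ^ 2`. Apply `step_lt`
with `a = Iz p β ⊔ pr F`, `a' = Iz p (β + γ) ⊔ pr F`: `hmul`: product of two sums (`Iz_mul_mem`).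
`hs`: by `bez_ind` for `F` and `s` (`irr_relPrime`), `Ind.mono` (`e * deg s ≤ E * r ≤ t`). `hcard`:
`cod_le_sq` (`cod ≤ e ^ 2 ≤ E ^ 2`). `FinC`: `finC_Iz`, `FinC.mono`. -/
theorem curve_step {n : ℕ} (D E : ℕ) (M : Fin n → ℕ) {k : Type} [Field k] [Infinite k]
    {p : Fin n → Fin 2 → k} (hp : Function.Injective p) {F : A2 k} (hF : Irreducible F)
    (hE : F.totalDegree ≤ E) (hM : ∀ i, M i = 0 → mu (p i) F ≤ 1) (hN : 1 ≤ dotp D M p F)
    (t : ℕ) (β : Fin n → ℕ) (hβ : ∀ i, mu (p i) F ≤ β i + 1)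
    (ht : E + E * ((2 * E ^ 2 + 2) * D) ≤ t)
    (hδ : ∑ i, (mu (p i) F : ℤ) * β i ≤ (t : ℤ) * F.totalDegree) :
    let t' := t + (2 * E ^ 2 + 2) * D
    let β' := fun i => β i + (2 * E ^ 2 + 2) * M i
    cod t' (Iz p β' ⊔ pr F) < cod t (Iz p β ⊔ pr F) ∨
      cod t' (Iz p β' ⊔ pr F) = 0 ∧ cod t (Iz p β ⊔ pr F) = 0 := by
  intro t' β'
  set κ : ℕ := 2 * E ^ 2 + 2 with hκ
  have ha := SCurveA_E_le E
  rw [← hκ] at ha
  set e := F.totalDegree with he
  have hmue : ∀ i, mu (p i) F ≤ e := fun i => mu_le_deg hF.ne_zero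
  have hN' : 1 ≤ (D : ℤ) * e - ∑ i, (M i : ℤ) * mu (p i) F := hN
  have hsum0 : 0 ≤ ∑ i, (M i : ℤ) * mu (p i) F :=
    Finset.sum_nonneg fun i _ => mul_nonneg (Int.natCast_nonneg _) (Int.natCast_nonneg _)
  have hD : 1 ≤ D := by
    rcases Nat.eq_zero_or_pos D with h | h
    · rw [h] at hN'
      push_cast at hN'
      linarith
    · exact h
  have her : e ≤ κ * D := hE.trans (ha.trans (Nat.le_mul_of_pos_right _ hD))
  have hγ : ∀ i, mu (p i) F ≤ κ * M i + 1 := by
    intro i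
    rcases Nat.eq_zero_or_pos (M i) with h | h
    · have := hM i h
      omega
    · have h1 : κ ≤ κ * M i := Nat.le_mul_of_pos_right _ h
      have := hmue i
      omega
  obtain ⟨W, hWP, hWa, hWF, hWd⟩ := exists_sections (F := F)
    (a := Iz p (fun i => κ * M i) ⊔ pr F) le_sup_right (κ * D)
  have hrr := rr hp hF.ne_zero (fun i => κ * M i) hγ her
  have hdot : ((κ * D : ℕ) : ℤ) * e - ∑ i, (mu (p i) F : ℤ) * ((κ * M i : ℕ) : ℤ) =
      (κ : ℤ) * ((D : ℤ) * e - ∑ i, (M i : ℤ) * mu (p i) F) := by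
    push_cast
    rw [mul_sub, Finset.mul_sum, mul_assoc]
    congr 1
    refine Finset.sum_congr rfl fun i _ => ?_
    ring
  have hmm : 0 ≤ ∑ i, (mu (p i) F : ℤ) * ((mu (p i) F : ℤ) - 1) := by
    refine Finset.sum_nonneg fun i _ => ?_
    rcases Nat.eq_zero_or_pos (mu (p i) F) with h | h
    · rw [h]; simp
    · have h1 : (1 : ℤ) ≤ (mu (p i) F : ℤ) := by exact_mod_cast h
      exact mul_nonneg (by linarith) (by linarith)
  have hcodn : (0 : ℤ) ≤ (cod (κ * D) (Iz p (fun i => κ * M i) ⊔ pr F) : ℤ) :=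
    Int.natCast_nonneg _
  have hκz : (κ : ℤ) = 2 * (E : ℤ) ^ 2 + 2 := by rw [hκ]; push_cast; ring
  have heE : (e : ℤ) ≤ E := by exact_mod_cast hE
  have he0 : (0 : ℤ) ≤ e := Int.natCast_nonneg _
  have hsec : (E : ℤ) ^ 2 < (Module.finrank k ↥W : ℤ) := by
    rw [hWd]
    rw [← he, hdot] at hrr
    have h1 : (κ : ℤ) * 1 ≤ (κ : ℤ) * ((D : ℤ) * e - ∑ i, (M i : ℤ) * mu (p i) F) :=
      mul_le_mul_of_nonneg_left hN' (Int.natCast_nonneg _)
    have h2 : (e : ℤ) ^ 2 ≤ (E : ℤ) ^ 2 := pow_le_pow_left₀ he0 heE 2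
    nlinarith
  have hcardE : cod t (Iz p β ⊔ pr F) ≤ e ^ 2 :=
    cod_le_sq hp hF β hβ (by rw [← he]; omega) hδ
  have hcard : cod t (Iz p β ⊔ pr F) < Module.finrank k ↥W := by
    have h1 : e ^ 2 ≤ E ^ 2 := Nat.pow_le_pow_left hE 2
    have h2 : E ^ 2 < Module.finrank k ↥W := by exact_mod_cast hsec
    omega
  refine step_lt W hWP ?_ ?_ ((finC_Iz hp β).mono le_sup_left) hcard
  · intro s hs g hg
    have hs' := hWa s hs
    rw [Submodule.mem_sup] at hs' hg ⊢
    obtain ⟨s1, hs1, s2, hs2, rfl⟩ := hs'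
    obtain ⟨g1, hg1, g2, hg2, rfl⟩ := hg
    refine ⟨g1 * s1, Iz_mul_mem hg1 hs1, s1 * g2 + s2 * (g1 + g2), ?_, by ring⟩
    exact Ideal.add_mem _ (Ideal.mul_mem_left _ _ hg2) (Ideal.mul_mem_right _ _ hs2)
  · intro s hs hs0
    have h1 := bez_ind hF.ne_zero hs0 (irr_relPrime hF (hWF s hs hs0))
    refine h1.mono ?_ (sup_le_sup_right le_sup_right _)
    have h2 : s.totalDegree ≤ κ * D := mem_Pt.1 (hWP hs)
    have h3 : F.totalDegree * s.totalDegree ≤ E * (κ * D) := Nat.mul_le_mul hE h2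
    omega

end Pool.MP_70e04f_ag.Strip

end

/-! ### from `Lib_MP_70e04f_strip.SCurve` -/

section

/-!
# Piece SCURVE: uniform vanishing on irreducible curves
-/

set_option autoImplicit false

namespace Pool.MP_70e04f_ag.Strip

open MvPolynomial

/-- the hypotheses of `curve_step` -/
theorem SCurve_cond {n : ℕ} (D E T : ℕ) (M : Fin n → ℕ) {k : Type} [Field k]
    (p : Fin n → Fin 2 → k) {F : A2 k} (hF0 : F ≠ 0) (hE : F.totalDegree ≤ E)
    (hM : ∀ i, M i = 0 → mu (p i) F ≤ 1) (hN : 1 ≤ dotp D M p F) (j t : ℕ) (β : Fin n → ℕ)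
    (hj : T * ((n + 1) * E) + T + E + E * ((2 * E ^ 2 + 2) * D) + 1 ≤ j) (h1 : j * D ≤ t + T)
    (h3 : ∀ i, j * M i ≤ β i + T) (h4 : ∀ i, β i ≤ j * M i + T) :
    (∀ i, mu (p i) F ≤ β i + 1) ∧ E + E * ((2 * E ^ 2 + 2) * D) ≤ t ∧
      ∑ i, (mu (p i) F : ℤ) * β i ≤ (t : ℤ) * F.totalDegree := by
  have hD : 1 ≤ D := by
    by_contra h
    have h0 : D = 0 := by omega
    subst h0
    unfold dotp at hN
    have h5 : 0 ≤ ∑ i, (M i : ℤ) * mu (p i) F := Finset.sum_nonneg fun i _ => by positivity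
    rw [Nat.cast_zero, zero_mul] at hN
    linarith
  have hjD : j ≤ j * D := Nat.le_mul_of_pos_right _ hD
  have hmu : ∀ i, mu (p i) F ≤ E := fun i => (mu_le_deg hF0).trans hE
  refine ⟨fun i => ?_, by omega, ?_⟩
  · rcases Nat.eq_zero_or_pos (M i) with h | h
    · have := hM i h
      omega
    · have h5 : j ≤ j * M i := Nat.le_mul_of_pos_right _ h
      have := h3 i
      have := hmu i
      omega
  · have s1 : ∑ i, (mu (p i) F : ℤ) * β i ≤ ∑ i, (mu (p i) F : ℤ) * (j * M i + T) :=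
      Finset.sum_le_sum fun i _ => mul_le_mul_of_nonneg_left (by exact_mod_cast h4 i)
        (Int.natCast_nonneg _)
    have s2 : ∑ i, (mu (p i) F : ℤ) * (j * M i + T) =
        j * ∑ i, (M i : ℤ) * mu (p i) F + T * ∑ i, (mu (p i) F : ℤ) := by
      rw [Finset.mul_sum, Finset.mul_sum, ← Finset.sum_add_distrib]
      refine Finset.sum_congr rfl fun i _ => ?_
      ring
    have s3 : ∑ i, (mu (p i) F : ℤ) ≤ n * E := by
      calc ∑ i, (mu (p i) F : ℤ) ≤ ∑ _i : Fin n, (E : ℤ) :=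
            Finset.sum_le_sum fun i _ => by exact_mod_cast hmu i
        _ = n * E := by simp
    have s4 : ((j : ℤ) * D - T) * F.totalDegree ≤ t * F.totalDegree := by
      refine mul_le_mul_of_nonneg_right ?_ (Int.natCast_nonneg _)
      have : (j : ℤ) * D ≤ t + T := by exact_mod_cast h1
      linarith
    have s5 : (j : ℤ) ≤ j * dotp D M p F := le_mul_of_one_le_right (Int.natCast_nonneg _) hN
    unfold dotp at s5
    have s6 : (T : ℤ) * F.totalDegree ≤ T * E :=
      mul_le_mul_of_nonneg_left (by exact_mod_cast hE) (Int.natCast_nonneg _)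
    have s7 : (T : ℤ) * ∑ i, (mu (p i) F : ℤ) ≤ T * (n * E) :=
      mul_le_mul_of_nonneg_left s3 (Int.natCast_nonneg _)
    have s8 : (T : ℤ) * ((n + 1) * E) ≤ j := by
      have : T * ((n + 1) * E) ≤ j := by omega
      exact_mod_cast this
    linarith

/-- Uniform vanishing: the class `(t; β)` is at distance `≤ T` from `j` times a class `(D; M)` which is
positive on `F`.
PROOF. Let `κ = 2 E ^ 2 + 2`, `m = E ^ 2 + 1`, `J0 = T (n + 1) E + T + E + E κ D + 1`, `J = J0 + κ m`.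
`D ≥ 1`, `1 ≤ e = deg F ≤ E`, `a i = mu (p i) F ≤ e ≤ E`.
(i) If `(t; β)` is at distance `≤ T` from `j (D; M)` and `j ≥ J0` then the hypotheses of `curve_step`
hold: `t ≥ j D - T ≥ j - T ≥ E + E κ D`; if `M i = 0` then `a i ≤ 1 ≤ β i + 1`, otherwise
`β i ≥ j M i - T ≥ j - T ≥ E`; and
`t e - ∑ a i β i ≥ j dotp - T (e + ∑ a i) ≥ j - T (n + 1) E ≥ 0`.
(ii) For `j ≥ J` write `t = t0 + m κ D`, `β i = β0 i + m κ M i` (possible: `t ≥ j D - T ≥ m κ D`, and
`β i ≥ j M i - T ≥ m κ M i` if `M i ≥ 1`). Then `(t0; β0)` is at distance `≤ T` from `(j - κ m) (D; M)`,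
and `(t0 + l κ D; β0 + l κ M)` at distance `≤ T` from `(j - κ m + l κ) (D; M)`. By `cod_le_sq`
`cod (t0; β0) ≤ E ^ 2 < m`, and by `curve_step` `cod` decreases at every step until it is zero, and
then stays zero. So `cod (t; β) = 0`, which is `Ind` (`FinC.cod_eq_zero`). -/
theorem curve_van (n D E T : ℕ) (M : Fin n → ℕ) : ∃ J : ℕ, ∀ (k : Type) [Field k] [Infinite k]
    (p : Fin n → Fin 2 → k), Function.Injective p → ∀ F : A2 k, Irreducible F →
    F.totalDegree ≤ E → (∀ i, M i = 0 → mu (p i) F ≤ 1) → 1 ≤ dotp D M p F →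
    ∀ (j t : ℕ) (β : Fin n → ℕ), J ≤ j → j * D ≤ t + T → t ≤ j * D + T →
    (∀ i, j * M i ≤ β i + T) → (∀ i, β i ≤ j * M i + T) → Ind t (Iz p β ⊔ pr F) := by
  refine ⟨T * ((n + 1) * E) + T + E + E * ((2 * E ^ 2 + 2) * D) + 1 +
    (2 * E ^ 2 + 2) * (E ^ 2 + 1), ?_⟩
  intro k _ _ p hp F hF hE hM hN j t β hj h1 h2 h3 h4
  have hF0 : F ≠ 0 := hF.ne_zero
  set κ := 2 * E ^ 2 + 2 with hκ
  set m := E ^ 2 + 1 with hm
  set J0 := T * ((n + 1) * E) + T + E + E * (κ * D) + 1 with hJ0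
  have hD : 1 ≤ D := by
    by_contra h
    have h0 : D = 0 := by omega
    subst h0
    unfold dotp at hN
    have h5 : 0 ≤ ∑ i, (M i : ℤ) * mu (p i) F := Finset.sum_nonneg fun i _ => by positivity
    rw [Nat.cast_zero, zero_mul] at hN
    linarith
  -- subtract `m κ` times the class
  obtain ⟨j0, hj0⟩ : ∃ j0, j = j0 + κ * m := ⟨j - κ * m, by omega⟩
  have hj0' : J0 ≤ j0 := by omega
  obtain ⟨t0, ht0⟩ : ∃ t0, t = t0 + m * (κ * D) := by
    refine ⟨t - m * (κ * D), ?_⟩
    have q1 : j * D = j0 * D + m * (κ * D) := by rw [hj0]; ring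
    have q2 : j0 ≤ j0 * D := Nat.le_mul_of_pos_right _ hD
    omega
  have hβ0 : ∀ i, ∃ b, β i = b + m * (κ * M i) := by
    intro i
    refine ⟨β i - m * (κ * M i), ?_⟩
    rcases Nat.eq_zero_or_pos (M i) with h | h
    · rw [h]
      simp
    · have q1 : j * M i = j0 * M i + m * (κ * M i) := by rw [hj0]; ring
      have q2 : j0 ≤ j0 * M i := Nat.le_mul_of_pos_right _ h
      have := h3 i
      omega
  choose β0 hβ0 using hβ0
  have hdist : ∀ l : ℕ, (j0 + l * κ) * D ≤ (t0 + l * (κ * D)) + T ∧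
      (∀ i, (j0 + l * κ) * M i ≤ (β0 i + l * (κ * M i)) + T) ∧
      (∀ i, (β0 i + l * (κ * M i)) ≤ (j0 + l * κ) * M i + T) := by
    intro l
    have e1 : (j0 + l * κ) * D = j0 * D + l * (κ * D) := by ring
    have e2 : j * D = j0 * D + m * (κ * D) := by rw [hj0]; ring
    refine ⟨by omega, fun i => ?_, fun i => ?_⟩
    · have e3 : (j0 + l * κ) * M i = j0 * M i + l * (κ * M i) := by ring
      have e4 : j * M i = j0 * M i + m * (κ * M i) := by rw [hj0]; ring
      have := h3 i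
      have := hβ0 i
      omega
    · have e3 : (j0 + l * κ) * M i = j0 * M i + l * (κ * M i) := by ring
      have e4 : j * M i = j0 * M i + m * (κ * M i) := by rw [hj0]; ring
      have := h4 i
      have := hβ0 i
      omega
  have hcond : ∀ l : ℕ, (∀ i, mu (p i) F ≤ (β0 i + l * (κ * M i)) + 1) ∧
      E + E * (κ * D) ≤ t0 + l * (κ * D) ∧
      ∑ i, (mu (p i) F : ℤ) * ((β0 i + l * (κ * M i) : ℕ) : ℤ) ≤
        ((t0 + l * (κ * D) : ℕ) : ℤ) * F.totalDegree := by
    intro l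
    obtain ⟨d1, d2, d3⟩ := hdist l
    exact SCurve_cond D E T M p hF0 hE hM hN (j0 + l * κ) (t0 + l * (κ * D))
      (fun i => β0 i + l * (κ * M i)) (by rw [← hκ]; omega) d1 d2 d3
  set f : ℕ → ℕ := fun l => cod (t0 + l * (κ * D)) (Iz p (fun i => β0 i + l * (κ * M i)) ⊔ pr F)
    with hf
  have hstep : ∀ l, f (l + 1) < f l ∨ f (l + 1) = 0 ∧ f l = 0 := by
    intro l
    obtain ⟨c1, c2, c3⟩ := hcond l
    have h := curve_step D E M hp hF hE hM hN (t0 + l * (κ * D)) (fun i => β0 i + l * (κ * M i))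
      c1 c2 c3
    have e1 : t0 + (l + 1) * (κ * D) = t0 + l * (κ * D) + (2 * E ^ 2 + 2) * D := by
      rw [← hκ]; ring
    have e2 : (fun i => β0 i + (l + 1) * (κ * M i)) =
        fun i => β0 i + l * (κ * M i) + (2 * E ^ 2 + 2) * M i := by
      funext i
      rw [← hκ]; ring
    simp only [hf]
    rw [e1, e2]
    exact h
  have h0 : f 0 ≤ E ^ 2 := by
    obtain ⟨c1, c2, c3⟩ := hcond 0
    refine (cod_le_sq hp hF _ c1 ?_ c3).trans (Nat.pow_le_pow_left hE 2)
    exact hE.trans (le_trans (Nat.le_add_right _ _) c2)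
  have hind : ∀ l, f l = 0 ∨ f l + l ≤ E ^ 2 := by
    intro l
    induction l with
    | zero => right; omega
    | succ l ih =>
      have := hstep l
      omega
  have hfm : f m = 0 := by
    rcases hind m with h | h
    · exact h
    · omega
  have hfin : FinC (Iz p β ⊔ pr F) := (finC_Iz hp β).mono le_sup_left
  rw [← hfin.cod_eq_zero]
  have e3 : β = fun i => β0 i + m * (κ * M i) := funext hβ0
  rw [e3, ht0]
  exact hfm

end Pool.MP_70e04f_ag.Strip

end

/-! ### from `Lib_MP_70e04f_strip.SGon` -/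

section

/-!
# Piece SGON: two sections of a class of degree one force the arithmetic genus to be negative
-/

set_option autoImplicit false

namespace Pool.MP_70e04f_ag.Strip

open MvPolynomial

theorem SGon_pow_Pt {k : Type*} [Field k] {t : ℕ} {u : A2 k} (hu : u ∈ Pt k t) (a : ℕ) :
    u ^ a ∈ Pt k (a * t) := by
  induction a with
  | zero => rw [pow_zero]; exact mem_Pt.2 (by simp)
  | succ a ih => rw [pow_succ, Nat.succ_mul]; exact mul_mem_Pt ih hu

theorem SGon_pow_Iz {k : Type*} [Field k] {n : ℕ} {p : Fin n → Fin 2 → k} {β : Fin n → ℕ}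
    {u : A2 k} (hu : u ∈ Iz p β) (a : ℕ) : u ^ a ∈ Iz p (fun i => a * β i) := by
  rw [mem_Iz] at *
  intro i
  rw [mul_comm, pow_mul]
  exact Ideal.pow_mem_pow (hu i) a

/-- PROOF. The `κ + 1` classes of `u ^ a w ^ (κ - a)` in `(Pt k (κ t) ⊓ sp a).map mkQ`,
`a = Iz p (κ β) ⊔ pr F`, are linearly independent by `monomials_indep`;
`LinearIndependent.fintype_card_le_finrank`. -/
theorem sec_pow_ge {k : Type*} [Field k] {n : ℕ} {p : Fin n → Fin 2 → k} {F : A2 k}
    (hF : Irreducible F) (t : ℕ) (β : Fin n → ℕ) {u w : A2 k} (hu : u ∈ Pt k t) (hw : w ∈ Pt k t)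
    (huβ : u ∈ Iz p β) (hwβ : w ∈ Iz p β) (hFu : ¬ F ∣ u) {q : Fin 2 → k} (hq : mu q F = 1) {r : ℕ}
    (h1 : u ∈ mp q ^ r ⊔ pr F) (h2 : w ∉ mp q ^ r ⊔ pr F) (κ : ℕ) :
    κ + 1 ≤ sec (κ * t) (Iz p (fun i => κ * β i) ⊔ pr F) F := by
  have hmem : ∀ j : Fin (κ + 1), u ^ (j : ℕ) * w ^ (κ - (j : ℕ)) ∈
      Pt k (κ * t) ⊓ sp (Iz p (fun i => κ * β i) ⊔ pr F) := by
    intro j
    have hj : (j : ℕ) + (κ - (j : ℕ)) = κ := by have := j.2; omega
    refine ⟨?_, ?_⟩
    · have h3 := mul_mem_Pt (SGon_pow_Pt hu (j : ℕ)) (SGon_pow_Pt hw (κ - (j : ℕ)))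
      rwa [← add_mul, hj] at h3
    · refine Ideal.mem_sup_left ?_
      have h3 := Iz_mul_mem (SGon_pow_Iz huβ (j : ℕ)) (SGon_pow_Iz hwβ (κ - (j : ℕ)))
      have he : (fun i => (j : ℕ) * β i + (κ - (j : ℕ)) * β i) = fun i => κ * β i := by
        funext i; rw [← add_mul, hj]
      rwa [he] at h3
  unfold sec
  have hfin : Module.Finite k ↥(Pt k (κ * t) ⊓ sp (Iz p (fun i => κ * β i) ⊔ pr F)) :=
    Submodule.finiteDimensional_inf_left _ _
  let v : Fin (κ + 1) →
      ↥((Pt k (κ * t) ⊓ sp (Iz p (fun i => κ * β i) ⊔ pr F)).map (sp (pr F)).mkQ) := fun j =>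
    ⟨(sp (pr F)).mkQ (u ^ (j : ℕ) * w ^ (κ - (j : ℕ))), Submodule.mem_map_of_mem (hmem j)⟩
  have hv : LinearIndependent k v := by
    rw [Fintype.linearIndependent_iff]
    intro g hg j
    set c : ℕ → k := fun a => if h : a < κ + 1 then g ⟨a, h⟩ else 0 with hc
    have hcj : ∀ i : Fin (κ + 1), c (i : ℕ) = g i := by
      intro i
      show (if h : (i : ℕ) < κ + 1 then g ⟨i, h⟩ else 0) = g i
      rw [dif_pos i.2]
    have h3 := congrArg Subtype.val hg
    rw [Submodule.coe_sum] at h3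
    have h4 : (sp (pr F)).mkQ (∑ i : Fin (κ + 1), C (g i) * (u ^ (i : ℕ) * w ^ (κ - (i : ℕ))))
        = 0 := by
      have h4' : (sp (pr F)).mkQ (∑ i : Fin (κ + 1), C (g i) * (u ^ (i : ℕ) * w ^ (κ - (i : ℕ))))
          = ∑ i, ((g i • v i : ↥((Pt k (κ * t) ⊓ sp (Iz p (fun i => κ * β i) ⊔ pr F)).map
            (sp (pr F)).mkQ)) : A2 k ⧸ sp (pr F)) := by
        rw [map_sum]
        refine Finset.sum_congr rfl fun i _ => ?_
        rw [← smul_eq_C_mul, map_smul]
        rfl
      rw [h4', h3]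
      rfl
    have h5 : F ∣ ∑ a ∈ Finset.range (κ + 1), C (c a) * (u ^ a * w ^ (κ - a)) := by
      rw [Finset.sum_range]
      simp_rw [hcj]
      rw [Submodule.mkQ_apply, Submodule.Quotient.mk_eq_zero] at h4
      exact mem_pr.1 h4
    rw [← hcj j]
    exact monomials_indep hF hq hFu h1 h2 κ c h5 _ (Finset.mem_range.2 j.2)
  have h6 := hv.fintype_card_le_finrank
  rwa [Fintype.card_fin] at h6

/-- PROOF. `curve_van n t (deg F) 0 β` gives `J`; take `κ = max J (deg F + 1)`, so that `Ind (κ t)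
(Iz p (κ β) ⊔ pr F)` and `cod = 0` (`FinC.cod_eq_zero`). (Its hypothesis `β i = 0 → mu ≤ 1` is `hβ`.) `t ≥ 1`
since `dotp = 1 > 0`, so `deg F ≤ κ t`; `mu (p i) F ≤ κ β i + 1` by `hβ` if `β i = 0`, and by
`mu ≤ deg F ≤ κ` otherwise. By `rr` for `(κ t; κ β)`:
`0 = - 2 κ + (e (e - 3) - ∑ mu (mu - 1)) + 2 sec ≥ - 2 κ + (..) + 2 (κ + 1)`. -/
theorem gon {k : Type} [Field k] [Infinite k] {n : ℕ} {p : Fin n → Fin 2 → k}
    (hp : Function.Injective p) {F : A2 k} (hF : Irreducible F) (t : ℕ) (β : Fin n → ℕ)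
    (hβ : ∀ i, mu (p i) F ≤ β i + 1) (hδ : dotp t β p F = 1) {u w : A2 k} (hu : u ∈ Pt k t)
    (hw : w ∈ Pt k t) (huβ : u ∈ Iz p β) (hwβ : w ∈ Iz p β) (hFu : ¬ F ∣ u) {q : Fin 2 → k}
    (hq : mu q F = 1) {r : ℕ} (h1 : u ∈ mp q ^ r ⊔ pr F) (h2 : w ∉ mp q ^ r ⊔ pr F) :
    (F.totalDegree : ℤ) * (F.totalDegree - 3) <
      ∑ i, (mu (p i) F : ℤ) * ((mu (p i) F : ℤ) - 1) := by
  obtain ⟨J, hJ⟩ := curve_van n t F.totalDegree 0 β
  have ht1 : 1 ≤ t := by
    by_contra ht
    have ht0 : t = 0 := by omega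
    unfold dotp at hδ
    rw [ht0, Nat.cast_zero, zero_mul] at hδ
    have : 0 ≤ ∑ i, (β i : ℤ) * mu (p i) F := Finset.sum_nonneg fun i _ => by positivity
    omega
  obtain ⟨κ, hκ⟩ : ∃ κ, κ = max J (F.totalDegree + 1) := ⟨_, rfl⟩
  have hκJ : J ≤ κ := hκ ▸ le_max_left _ _
  have hκe : F.totalDegree + 1 ≤ κ := hκ ▸ le_max_right _ _
  have hind : Ind (κ * t) (Iz p (fun i => κ * β i) ⊔ pr F) :=
    hJ k p hp F hF le_rfl (fun i hi => by have := hβ i; omega) (by rw [hδ]) κ (κ * t)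
      (fun i => κ * β i) hκJ le_rfl le_rfl (fun _ => le_rfl) (fun _ => le_rfl)
  have hfin : FinC (Iz p (fun i => κ * β i) ⊔ pr F) := (finC_Iz hp _).mono le_sup_left
  have hcod : cod (κ * t) (Iz p (fun i => κ * β i) ⊔ pr F) = 0 := (hfin.cod_eq_zero _).2 hind
  have hdeg : F.totalDegree ≤ κ * t := by
    calc F.totalDegree ≤ κ * 1 := by omega
      _ ≤ κ * t := Nat.mul_le_mul_left _ ht1
  have hβ' : ∀ i, mu (p i) F ≤ κ * β i + 1 := by
    intro i
    rcases Nat.eq_zero_or_pos (β i) with h0 | h0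
    · have := hβ i
      rw [h0] at this ⊢
      simpa using this
    · have h3 : mu (p i) F ≤ F.totalDegree := mu_le_deg hF.ne_zero
      have h4 : κ * 1 ≤ κ * β i := Nat.mul_le_mul_left _ h0
      omega
  have hrr := rr hp hF.ne_zero (fun i => κ * β i) hβ' hdeg
  rw [hcod] at hrr
  have hsec := sec_pow_ge hF t β hu hw huβ hwβ hFu hq h1 h2 κ
  have hdot : ((κ * t : ℕ) : ℤ) * F.totalDegree - ∑ i, (mu (p i) F : ℤ) * ((κ * β i : ℕ) : ℤ)
      = κ := by
    have h3 : ((κ * t : ℕ) : ℤ) * F.totalDegree - ∑ i, (mu (p i) F : ℤ) * ((κ * β i : ℕ) : ℤ)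
        = κ * dotp t β p F := by
      unfold dotp
      rw [mul_sub, Finset.mul_sum]
      congr 1
      · push_cast; ring
      · refine Finset.sum_congr rfl fun i _ => ?_
        push_cast; ring
    rw [h3, hδ, mul_one]
  rw [hdot] at hrr
  have hsec' : ((κ : ℤ) + 1) ≤ (sec (κ * t) (Iz p (fun i => κ * β i) ⊔ pr F) F : ℤ) := by
    exact_mod_cast hsec
  push_cast at hrr
  linarith

end Pool.MP_70e04f_ag.Strip

end

/-! ### from `Lib_MP_70e04f_strip.STwo` -/

section

/-!
# Piece STWO: curves of self intersection `-1` with two simple generic points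
-/

set_option autoImplicit false

namespace Pool.MP_70e04f_ag.Strip

open MvPolynomial

/-- PROOF. Let `e = deg F`, `μ s = mu (gp s) F`, `Gi`, `Gj` from `xu_der` for `i` and `j`. Let `β s = μ s` for
`s ≠ i, j`, `β i = β j = 0`. Then `Gi, Gj ∈ Iz (gp) β`, of degree `≤ e`, and
`dotp e β = e ^ 2 - (∑ μ ^ 2 - 2) = 1`. With `q = gp j`, `r = 1`: `Gi ∈ mp (gp j)` (`μ j = 1`), `Gj ∉ mp (gp j)`,
and `mp (gp j) ^ 1 ⊔ pr F = mp (gp j)`. `gon` (`t = e`, `infinite_KK`, `gp_inj`) gives
`e (e - 3) < ∑ μ (μ - 1) = e ^ 2 + 1 - ∑ μ`, so `∑ μ ≤ 3 e`. Since `μ ^ 2 ≡ μ` modulo 2,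
`∑ μ ≡ ∑ μ ^ 2 = e ^ 2 + 1 ≡ 3 e + 1` modulo 2, so `∑ μ ≠ 3 e`. -/
theorem two_simple {n ℓ : ℕ} [Fact ℓ.Prime] {F : A2 (KK n ℓ)} (hF : Irreducible F)
    (hdeg : F.totalDegree < ℓ) {i j : Fin n} (hij : i ≠ j) (hi : mu (gp n ℓ i) F = 1)
    (hj : mu (gp n ℓ j) F = 1) (hs : ∑ s, mu (gp n ℓ s) F ^ 2 = F.totalDegree ^ 2 + 1) :
    ∑ s, mu (gp n ℓ s) F + 1 ≤ 3 * F.totalDegree := by
  classical
  obtain ⟨Gi, i1, i2, i3, i4, i5⟩ := xu_der hF hdeg i (by omega)
  obtain ⟨Gj, j1, j2, j3, j4, j5⟩ := xu_der hF hdeg j (by omega)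
  have hn : 0 < n := lt_of_le_of_lt (Nat.zero_le _) i.2
  have hinf : Infinite (KK n ℓ) := infinite_KK ℓ hn
  set β : Fin n → ℕ := fun s => if s = i ∨ s = j then 0 else mu (gp n ℓ s) F with hβdef
  have hβ : ∀ s, mu (gp n ℓ s) F ≤ β s + 1 := by
    intro s
    rw [hβdef]
    simp only
    split_ifs with h
    · rcases h with rfl | rfl <;> omega
    · omega
  have hsum : ∑ s, mu (gp n ℓ s) F ^ 2 = ∑ s, β s * mu (gp n ℓ s) F + 2 := by
    have h1 : ∀ s, mu (gp n ℓ s) F ^ 2 = β s * mu (gp n ℓ s) F +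
        ((if s = i then 1 else 0) + (if s = j then 1 else 0)) := by
      intro s
      rw [hβdef]
      simp only
      by_cases h1 : s = i
      · subst h1
        simp [hi, hij]
      · by_cases h2 : s = j
        · subst h2
          simp [hj, h1]
        · simp [h1, h2, sq]
    rw [Finset.sum_congr rfl fun s _ => h1 s, Finset.sum_add_distrib, Finset.sum_add_distrib]
    simp
  have hδ : dotp F.totalDegree β (gp n ℓ) F = 1 := by
    unfold dotp
    have h1 : ((∑ s, β s * mu (gp n ℓ s) F + 2 : ℕ) : ℤ) = ((F.totalDegree ^ 2 + 1 : ℕ) : ℤ) := by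
      rw [← hsum, hs]
    push_cast at h1
    linarith
  have hG : ∀ (a : Fin n) (G : A2 (KK n ℓ)), (a = i ∨ a = j) →
      (∀ s, s ≠ a → G ∈ mp (gp n ℓ s) ^ mu (gp n ℓ s) F) → G ∈ Iz (gp n ℓ) β := by
    intro a G ha h
    rw [mem_Iz]
    intro s
    by_cases h1 : s = i ∨ s = j
    · have : β s = 0 := by rw [hβdef]; simp only; rw [if_pos h1]
      rw [this, pow_zero, Ideal.one_eq_top]
      trivial
    · have : β s = mu (gp n ℓ s) F := by rw [hβdef]; simp only; rw [if_neg h1]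
      rw [this]
      apply h
      rintro rfl
      exact h1 ha
  have hFj : F ∈ mp (gp n ℓ j) := (one_le_mu hF.ne_zero).1 (by omega)
  have hg := gon (gp_inj n ℓ) hF F.totalDegree β hβ hδ (mem_Pt.2 i1) (mem_Pt.2 j1)
    (hG i Gi (Or.inl rfl) i3) (hG j Gj (Or.inr rfl) j3) i2 hj (r := 1)
    (by
      apply Ideal.mem_sup_left
      have := i3 j (Ne.symm hij)
      rw [hj] at this
      exact this)
    (by
      rw [pow_one]
      have : mp (gp n ℓ j) ⊔ pr F = mp (gp n ℓ j) := by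
        apply sup_eq_left.2
        unfold pr
        rw [Ideal.span_singleton_le_iff_mem]
        exact hFj
      rw [this]
      exact j5 hj)
  have h1 : ∑ s, (mu (gp n ℓ s) F : ℤ) * ((mu (gp n ℓ s) F : ℤ) - 1) =
      (F.totalDegree : ℤ) ^ 2 + 1 - ∑ s, (mu (gp n ℓ s) F : ℤ) := by
    have h2 : ((∑ s, mu (gp n ℓ s) F ^ 2 : ℕ) : ℤ) = ((F.totalDegree ^ 2 + 1 : ℕ) : ℤ) := by
      rw [hs]
    push_cast at h2
    rw [← h2, ← Finset.sum_sub_distrib]
    exact Finset.sum_congr rfl fun s _ => by ring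
  rw [h1] at hg
  have h3 : ((∑ s, mu (gp n ℓ s) F : ℕ) : ℤ) < 3 * F.totalDegree + 1 := by
    push_cast
    nlinarith
  have h4 : (∑ s, mu (gp n ℓ s) F) % 2 = (∑ s, mu (gp n ℓ s) F ^ 2) % 2 := by
    rw [Finset.sum_nat_mod, Finset.sum_nat_mod (f := fun s => mu (gp n ℓ s) F ^ 2)]
    congr 1
    apply Finset.sum_congr rfl
    intro s _
    rcases Nat.mod_two_eq_zero_or_one (mu (gp n ℓ s) F) with h | h <;> simp [Nat.pow_mod, h]
  have h5 : (F.totalDegree ^ 2) % 2 = F.totalDegree % 2 := by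
    rcases Nat.mod_two_eq_zero_or_one F.totalDegree with h | h <;> simp [Nat.pow_mod, h]
  rw [hs] at h4
  have h6 : ∑ s, mu (gp n ℓ s) F < 3 * F.totalDegree + 1 := by exact_mod_cast h3
  omega

end Pool.MP_70e04f_ag.Strip

end

/-! ### from `Lib_MP_70e04f_strip.SGen` -/

section

/-!
# Piece SGEN: generic points impose independent conditions
-/

set_option autoImplicit false

namespace Pool.MP_70e04f_ag.Strip

open MvPolynomial

/-- The generalized Vandermonde determinant is not zero.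
PROOF. `det = ∑ σ, sign σ * ∏ r, X (s (σ r), 0) ^ (c r).1 * X (s (σ r), 1) ^ (c r).2` (or the transpose).
Since the exponents `c r` and the indices `s r` are different for different `r`, the monomials of the
different permutations are different, so the coefficient of the monomial of `σ = 1` is `1`. -/
theorem genvan_det_ne {n ℓ N : ℕ} [Fact ℓ.Prime] (s : Fin N → Fin n) (hs : Function.Injective s)
    (c : Fin N → ℕ × ℕ) (hc : Function.Injective c) :
    (Matrix.of (fun i r : Fin N =>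
      (X (s i, 0) ^ (c r).1 * X (s i, 1) ^ (c r).2 : RR n ℓ))).det ≠ 0 := by
  classical
  intro h0
  obtain ⟨E, hE⟩ : ∃ E : Equiv.Perm (Fin N) → (Fin n × Fin 2 →₀ ℕ), ∀ σ, E σ =
      ∑ r, (Finsupp.single (s (σ r), (0 : Fin 2)) (c r).1 +
        Finsupp.single (s (σ r), (1 : Fin 2)) (c r).2) := ⟨_, fun _ => rfl⟩
  have hterm : ∀ σ : Equiv.Perm (Fin N),
      (∏ r, (X (s (σ r), 0) ^ (c r).1 * X (s (σ r), 1) ^ (c r).2 : RR n ℓ)) =
        monomial (E σ) 1 := by
    intro σ
    rw [hE, monomial_sum_one]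
    refine Finset.prod_congr rfl fun r _ => ?_
    rw [X_pow_eq_monomial, X_pow_eq_monomial, monomial_mul, one_mul]
  have hE0 : ∀ (σ : Equiv.Perm (Fin N)) (i : Fin N), E σ (s i, 0) = (c (σ.symm i)).1 := by
    intro σ i
    rw [hE, Finsupp.finsetSum_apply, Finset.sum_eq_single (σ.symm i)]
    · simp
    · intro r _ hr
      have : s (σ r) ≠ s i := fun h => hr (by rw [← hs h]; simp)
      simp [this]
    · intro h
      exact absurd (Finset.mem_univ _) h
  have hE1 : ∀ (σ : Equiv.Perm (Fin N)) (i : Fin N), E σ (s i, 1) = (c (σ.symm i)).2 := by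
    intro σ i
    rw [hE, Finsupp.finsetSum_apply, Finset.sum_eq_single (σ.symm i)]
    · simp
    · intro r _ hr
      have : s (σ r) ≠ s i := fun h => hr (by rw [← hs h]; simp)
      simp [this]
    · intro h
      exact absurd (Finset.mem_univ _) h
  have hne : ∀ σ : Equiv.Perm (Fin N), σ ≠ 1 → E σ ≠ E 1 := by
    intro σ hσ h
    apply hσ
    have h2 : ∀ i, σ.symm i = i := by
      intro i
      apply hc
      have e0 := hE0 σ i
      have e1 := hE1 σ i
      rw [h, hE0] at e0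
      rw [h, hE1] at e1
      have : (1 : Equiv.Perm (Fin N)).symm i = i := rfl
      rw [this] at e0 e1
      exact Prod.ext e0.symm e1.symm
    ext i
    have := h2 (σ i)
    rw [Equiv.symm_apply_apply] at this
    rw [← this]
    rfl
  have h1 := congrArg (coeff (E 1)) h0
  rw [Matrix.det_apply, coeff_sum, Finset.sum_eq_single 1] at h1
  · simp only [Matrix.of_apply, Equiv.Perm.sign_one, one_smul] at h1
    rw [hterm, coeff_monomial, if_pos rfl, coeff_zero] at h1
    exact one_ne_zero h1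
  · intro σ _ hσ
    simp only [Matrix.of_apply]
    rw [hterm, Units.smul_def, coeff_smul, coeff_monomial, if_neg (hne σ hσ), smul_zero]
  · intro h
    exact absurd (Finset.mem_univ _) h

/-- PROOF. `G = ∑ c ∈ tri (δ + 1), coeff c * x ^ c.1 y ^ c.2`. Let `N = (tri (δ + 1)).card`, so
`2 N = (δ + 1) (δ + 2)` (`two_card_tri` of `Lib_MP_70e04f_ag/Count.lean`) and `N ≤ S.card`; choose
`s : Fin N → Fin n` injective with values in `S` and an enumeration `c` of `tri (δ + 1)`. The vector of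
the coefficients of `G` is in the kernel of the matrix of `genvan_det_ne` mapped to `KK n ℓ`, whose
determinant is not zero. -/
theorem gen_vanish {n ℓ : ℕ} [Fact ℓ.Prime] (S : Finset (Fin n)) (δ : ℕ)
    (hS : (δ + 1) * (δ + 2) ≤ 2 * S.card) {G : A2 (KK n ℓ)} (hG : G.totalDegree ≤ δ)
    (h : ∀ i ∈ S, G ∈ mp (gp n ℓ i)) : G = 0 := by
  classical
  obtain ⟨v, hv⟩ := (mem_range_toPoly δ G).1 ((mem_restrictTotalDegree (Fin 2) δ G).2 hG)
  have hN : (tri (δ + 1)).card ≤ S.card := by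
    have := two_card_tri (δ + 1)
    have h2 : (δ + 1) * (δ + 1 + 1) = (δ + 1) * (δ + 2) := rfl
    omega
  obtain ⟨s, hs⟩ : ∃ s : Fin (tri (δ + 1)).card → Fin n,
      ∀ i, s i = (S.equivFin.symm (Fin.castLE hN i) : Fin n) := ⟨_, fun _ => rfl⟩
  have hsi : Function.Injective s := by
    intro i j hij
    rw [hs, hs] at hij
    exact Fin.castLE_injective hN (S.equivFin.symm.injective (Subtype.ext hij))
  have hsS : ∀ i, s i ∈ S := by
    intro i
    rw [hs]
    exact Subtype.coe_prop _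
  obtain ⟨c, hc⟩ : ∃ c : Fin (tri (δ + 1)).card ≃ ↥(tri (δ + 1)), c = (tri (δ + 1)).equivFin.symm :=
    ⟨_, rfl⟩
  have hci : Function.Injective (fun r => ((c r : ↥(tri (δ + 1))) : ℕ × ℕ)) := fun i j hij =>
    c.injective (Subtype.ext hij)
  have hdet := genvan_det_ne (ℓ := ℓ) s hsi _ hci
  set M : Matrix (Fin (tri (δ + 1)).card) (Fin (tri (δ + 1)).card) (RR n ℓ) :=
    Matrix.of (fun i r =>
      (X (s i, 0) ^ ((c r : ↥(tri (δ + 1))) : ℕ × ℕ).1 *
        X (s i, 1) ^ ((c r : ↥(tri (δ + 1))) : ℕ × ℕ).2 : RR n ℓ)) with hM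
  have hdet' : ((algebraMap (RR n ℓ) (KK n ℓ)).mapMatrix M).det ≠ 0 := by
    rw [← RingHom.map_det]
    intro h0
    exact hdet ((IsFractionRing.injective (RR n ℓ) (KK n ℓ)) (by rw [h0, map_zero]))
  have hker : ((algebraMap (RR n ℓ) (KK n ℓ)).mapMatrix M).mulVec (fun r => v (c r)) = 0 := by
    funext i
    have h1 := h (s i) (hsS i)
    rw [mem_mp, ← hv, toPoly_apply, map_sum] at h1
    rw [Pi.zero_apply, ← h1]
    unfold Matrix.mulVec dotProduct
    rw [← Equiv.sum_comp c]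
    refine Finset.sum_congr rfl fun r _ => ?_
    rw [smul_eval, map_mul, map_pow, map_pow, eval_X, eval_X]
    simp only [hM, RingHom.mapMatrix_apply, Matrix.map_apply, Matrix.of_apply, map_mul, map_pow]
    unfold gp
    ring
  have hw := Matrix.eq_zero_of_mulVec_eq_zero hdet' hker
  have hv0 : v = 0 := by
    funext q
    have := congrFun hw (c.symm q)
    simpa using this
  rw [← hv, hv0, map_zero]

end Pool.MP_70e04f_ag.Strip

end

/-! ### from `Lib_MP_70e04f_strip.SCub` -/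

section

/-!
# Piece SCUB: the cubic through nine generic points
-/

set_option autoImplicit false

namespace Pool.MP_70e04f_ag.Strip

open MvPolynomial

/-- PROOF. `Pt k 3` has dimension `10` (`two_finrank_Pt`), so there is a nonzero polynomial in it which
vanishes at nine given points. -/
theorem exists_cubic_aux {k : Type*} [Field k] (q : Fin 9 → Fin 2 → k) :
    ∃ Γ : A2 k, Γ ≠ 0 ∧ Γ.totalDegree ≤ 3 ∧ ∀ s, Γ ∈ mp (q s) := by
  have h10 : Module.finrank k ↥(Pt k 3) = 10 := by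
    have := two_finrank_Pt (k := k) 3
    omega
  let f : ↥(Pt k 3) →ₗ[k] (Fin 9 → k) :=
    (LinearMap.pi fun s => (MvPolynomial.aeval (q s)).toLinearMap).comp (Pt k 3).subtype
  have hlt : Module.finrank k (Fin 9 → k) < Module.finrank k ↥(Pt k 3) := by
    rw [h10, Module.finrank_fin_fun]
    norm_num
  have hker := LinearMap.ker_ne_bot_of_finrank_lt (f := f) hlt
  obtain ⟨Γ, hΓ, hne⟩ := Submodule.exists_mem_ne_zero_of_ne_bot hker
  refine ⟨Γ, fun h => hne (Subtype.ext h), mem_Pt.1 Γ.2, fun s => ?_⟩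
  rw [mem_mp]
  have h1 := congrFun (LinearMap.mem_ker.1 hΓ) s
  have h2 : f Γ s = MvPolynomial.eval (q s) (Γ : A2 k) := by
    show MvPolynomial.aeval (q s) (Γ : A2 k) = _
    rw [MvPolynomial.aeval_eq_eval]
  rw [← h2, h1]
  rfl

theorem SCub_card {n ℓ : ℕ} [Fact ℓ.Prime] {H : A2 (KK n ℓ)} (hH : H ≠ 0) {δ : ℕ}
    (hd : H.totalDegree ≤ δ) (T : Finset (Fin n)) (hT : ∀ i ∈ T, H ∈ mp (gp n ℓ i)) :
    2 * T.card < (δ + 1) * (δ + 2) := by
  by_contra h
  exact hH (gen_vanish T δ (not_lt.1 h) hd hT)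

theorem SCub_mp_ne_top {k : Type*} [Field k] (q : Fin 2 → k) {F : A2 k} (hF : F ∈ mp q) :
    ¬ IsUnit F := by
  intro hu
  rw [mem_mp] at hF
  have h1 : IsUnit (MvPolynomial.eval q F) := hu.map (MvPolynomial.eval q)
  rw [hF] at h1
  exact not_isUnit_zero h1

theorem SCub_unit {k : Type*} [Field k] {F : A2 k} (hF : F ≠ 0) (h : F.totalDegree = 0) :
    IsUnit F := by
  rw [MvPolynomial.totalDegree_eq_zero_iff_eq_C] at h
  rw [h]
  refine IsUnit.map _ (isUnit_iff_ne_zero.2 fun h0 => hF ?_)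
  rw [h, h0, C_0]

theorem SCub_count {n ℓ : ℕ} [Fact ℓ.Prime] {A B : A2 (KK n ℓ)} (hA0 : A ≠ 0) (hB0 : B ≠ 0)
    (hA : A.totalDegree ≤ 1) (hB : B.totalDegree ≤ 2) (α : Fin 9 → Fin n)
    (hα : Function.Injective α) (h : ∀ s, A * B ∈ mp (gp n ℓ (α s))) : False := by
  classical
  let TA : Finset (Fin 9) := Finset.univ.filter fun s => A ∈ mp (gp n ℓ (α s))
  let TB : Finset (Fin 9) := Finset.univ.filter fun s => B ∈ mp (gp n ℓ (α s))
  have h1 := SCub_card hA0 hA (TA.image α) (by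
    intro i hi
    obtain ⟨s, hs, rfl⟩ := Finset.mem_image.1 hi
    exact (Finset.mem_filter.1 hs).2)
  have h2 := SCub_card hB0 hB (TB.image α) (by
    intro i hi
    obtain ⟨s, hs, rfl⟩ := Finset.mem_image.1 hi
    exact (Finset.mem_filter.1 hs).2)
  rw [Finset.card_image_of_injective _ hα] at h1 h2
  have h3 : (Finset.univ : Finset (Fin 9)) ⊆ TA ∪ TB := by
    intro s _
    have h4 := h s
    rw [mem_mp, map_mul, mul_eq_zero] at h4
    rw [Finset.mem_union]
    rcases h4 with h4 | h4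
    · exact Or.inl (Finset.mem_filter.2 ⟨Finset.mem_univ _, mem_mp.2 h4⟩)
    · exact Or.inr (Finset.mem_filter.2 ⟨Finset.mem_univ _, mem_mp.2 h4⟩)
  have h5 := (Finset.card_le_card h3).trans (Finset.card_union_le _ _)
  rw [Finset.card_univ, Fintype.card_fin] at h5
  omega

/-- PROOF. Let `Γ` be as in `exists_cubic_aux` for `gp (α s)`. By `gen_vanish` a nonzero polynomial of
degree `0`, `≤ 1`, `≤ 2`, `≤ 3` vanishes at at most `0`, `2`, `5`, `9` of the generic points. So
`deg Γ = 3`. If `Γ = A B` with `A, B` not constant then (degrees `1` and `2`) every `α s` is a zero of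
`A` or of `B`, so `9 ≤ 2 + 5`; so `Γ` is irreducible (units are the nonzero constants). All the
`mu (gp (α s)) Γ` are `≥ 1` (`one_le_mu`). By `xu` (`deg = 3 < ℓ`) `∑ mu ^ 2 ≤ 9 + mu (gp (α s)) Γ`, and
`∑ mu ^ 2 ≥ 8 + mu (gp (α s)) ^ 2`, so `mu (gp (α s)) Γ = 1`. If `i` is not one of the `α s` and
`mu (gp i) Γ ≥ 1` then `Γ` vanishes at ten generic points: contradiction to `gen_vanish`. -/
theorem exists_cubic {n ℓ : ℕ} [Fact ℓ.Prime] (hℓ : 3 < ℓ) (α : Fin 9 → Fin n)
    (hα : Function.Injective α) :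
    ∃ Γ : A2 (KK n ℓ), Irreducible Γ ∧ Γ.totalDegree = 3 ∧ (∀ s, mu (gp n ℓ (α s)) Γ = 1) ∧
      ∀ i, i ∉ Set.range α → mu (gp n ℓ i) Γ = 0 := by
  classical
  obtain ⟨Γ, hΓ0, hΓd, hΓ⟩ := exists_cubic_aux (fun s => gp n ℓ (α s))
  have hIm : ((Finset.univ : Finset (Fin 9)).image α).card = 9 := by
    rw [Finset.card_image_of_injective _ hα, Finset.card_univ, Fintype.card_fin]
  have hmem : ∀ i ∈ (Finset.univ : Finset (Fin 9)).image α, Γ ∈ mp (gp n ℓ i) := by
    intro i hi
    obtain ⟨s, _, rfl⟩ := Finset.mem_image.1 hi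
    exact hΓ s
  have hdeg : Γ.totalDegree = 3 := by
    by_contra h
    have h1 := SCub_card hΓ0 (δ := 2) (by omega) _ hmem
    rw [hIm] at h1
    omega
  have hirr : Irreducible Γ := by
    refine ⟨SCub_mp_ne_top _ (hΓ 0), ?_⟩
    intro A B hAB
    have hA0 : A ≠ 0 := by
      rintro rfl
      rw [zero_mul] at hAB
      exact hΓ0 hAB
    have hB0 : B ≠ 0 := by
      rintro rfl
      rw [mul_zero] at hAB
      exact hΓ0 hAB
    have hd := totalDegree_mul_of_isDomain hA0 hB0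
    rw [← hAB, hdeg] at hd
    by_contra hcon
    rw [not_or] at hcon
    have hA1 : A.totalDegree ≠ 0 := fun h => hcon.1 (SCub_unit hA0 h)
    have hB1 : B.totalDegree ≠ 0 := fun h => hcon.2 (SCub_unit hB0 h)
    by_cases hA2 : A.totalDegree ≤ 1
    · exact SCub_count hA0 hB0 hA2 (by omega) α hα (fun s => hAB ▸ hΓ s)
    · exact SCub_count hB0 hA0 (by omega) (by omega) α hα (fun s => by
        rw [mul_comm, ← hAB]; exact hΓ s)
  have hmu1 : ∀ s, 1 ≤ mu (gp n ℓ (α s)) Γ := fun s => (one_le_mu hΓ0).2 (hΓ s)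
  refine ⟨Γ, hirr, hdeg, fun s => ?_, fun i hi => ?_⟩
  · have hx := xu hirr (by rw [hdeg]; exact hℓ) (α s) (hmu1 s)
    have h1 : ∑ s', mu (gp n ℓ (α s')) Γ ^ 2 ≤ ∑ i, mu (gp n ℓ i) Γ ^ 2 := by
      rw [← Finset.sum_image (f := fun i => mu (gp n ℓ i) Γ ^ 2) (s := Finset.univ) (g := α)
        (fun x _ y _ h => hα h)]
      exact Finset.sum_le_sum_of_subset (Finset.subset_univ _)
    have h2 : mu (gp n ℓ (α s)) Γ ^ 2 + 8 ≤ ∑ s', mu (gp n ℓ (α s')) Γ ^ 2 := by
      rw [← Finset.add_sum_erase _ _ (Finset.mem_univ s)]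
      refine Nat.add_le_add_left ?_ _
      have h3 : ∑ s' ∈ (Finset.univ : Finset (Fin 9)).erase s, 1 ≤
          ∑ s' ∈ (Finset.univ : Finset (Fin 9)).erase s, mu (gp n ℓ (α s')) Γ ^ 2 :=
        Finset.sum_le_sum fun s' _ => Nat.one_le_pow _ _ (hmu1 s')
      rw [Finset.sum_const, Finset.card_erase_of_mem (Finset.mem_univ s), Finset.card_univ,
        Fintype.card_fin, smul_eq_mul] at h3
      exact h3
    rw [hdeg] at hx
    have h4 := hmu1 s
    have h5 : mu (gp n ℓ (α s)) Γ ^ 2 ≤ 1 + mu (gp n ℓ (α s)) Γ := by omega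
    nlinarith
  · by_contra h
    have h1 : Γ ∈ mp (gp n ℓ i) := (one_le_mu hΓ0).1 (Nat.one_le_iff_ne_zero.2 h)
    have hi' : i ∉ (Finset.univ : Finset (Fin 9)).image α := by
      intro h2
      obtain ⟨s, _, hs⟩ := Finset.mem_image.1 h2
      exact hi ⟨s, hs⟩
    have h2 := SCub_card hΓ0 hΓd (insert i ((Finset.univ : Finset (Fin 9)).image α)) (by
      intro j hj
      rcases Finset.mem_insert.1 hj with rfl | hj
      · exact h1
      · exact hmem j hj)
    rw [Finset.card_insert_of_notMem hi', hIm] at h2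
    omega

end Pool.MP_70e04f_ag.Strip

end

/-! ### from `Lib_MP_70e04f_strip.SNine` -/

section

/-!
# Piece SNINE: curves through nine generic points
-/

set_option autoImplicit false

namespace Pool.MP_70e04f_ag.Strip

open MvPolynomial

/-- Higher contact with `Γ` at `gp j`.
PROOF. `F = g + Γ h` with `g ∈ mp (gp j) ^ (mu (gp j) F + 1)`. By `crt` there is `h'` with
`h' - h ∈ mp (gp j) ^ (mu (gp j) F + 1)` and `h' ∈ mp (gp i) ^ mu (gp i) F` for `i ≠ j`. Then
`F - Γ h' ∈ Iz (gp) β` for `β j = mu (gp j) F + 1` and `β i = mu (gp i) F` (`i ≠ j`). -/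
theorem contact {n ℓ : ℕ} [Fact ℓ.Prime] {F Γ : A2 (KK n ℓ)} (hF : F ≠ 0) (j : Fin n)
    (h : F ∈ mp (gp n ℓ j) ^ (mu (gp n ℓ j) F + 1) ⊔ pr Γ) :
    F ∈ Iz (gp n ℓ) (fun i => if i = j then mu (gp n ℓ j) F + 1 else mu (gp n ℓ i) F) ⊔ pr Γ := by
  obtain ⟨g, hg, y, hy, e⟩ := Submodule.mem_sup.1 h
  rw [mem_pr] at hy
  obtain ⟨h₀, rfl⟩ := hy
  obtain ⟨h', hh'⟩ := crt (gp_inj n ℓ)
    (fun i => if i = j then mu (gp n ℓ j) F + 1 else mu (gp n ℓ i) F)
    (fun i => if i = j then h₀ else 0)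
  have hmem : F - Γ * h' ∈ Iz (gp n ℓ)
      (fun i => if i = j then mu (gp n ℓ j) F + 1 else mu (gp n ℓ i) F) := by
    rw [mem_Iz]
    intro i
    have h1 := hh' i
    by_cases hij : i = j
    · subst hij
      simp only [if_true] at h1 ⊢
      have h2 : F - Γ * h' = g - Γ * (h' - h₀) := by
        rw [← e]
        ring
      rw [h2]
      exact Ideal.sub_mem _ hg (Ideal.mul_mem_left _ _ h1)
    · simp only [if_neg hij, sub_zero] at h1 ⊢
      exact Ideal.sub_mem _ ((mem_iff_le_mu hF _).2 le_rfl) (Ideal.mul_mem_left _ _ h1)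
  have h3 := Submodule.add_mem_sup hmem (mem_pr.2 (dvd_mul_right Γ h') : Γ * h' ∈ pr Γ)
  rwa [sub_add_cancel] at h3

private theorem SNine_sum {n m : ℕ} (α : Fin m → Fin n) (hα : Function.Injective α)
    (μ β : Fin n → ℕ) (h1 : ∀ s, μ (α s) = 1) (h0 : ∀ i, i ∉ Set.range α → μ i = 0) :
    ∑ i, μ i * β i = ∑ s, β (α s) := by
  classical
  have h2 : ∑ i, μ i * β i = ∑ i ∈ Finset.univ.image α, μ i * β i := by
    symm
    apply Finset.sum_subset (Finset.subset_univ _)
    intro i _ hi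
    rw [h0 i, zero_mul]
    rintro ⟨s, rfl⟩
    exact hi (Finset.mem_image_of_mem _ (Finset.mem_univ s))
  rw [h2, Finset.sum_image (fun a _ b _ h => hα h)]
  apply Finset.sum_congr rfl
  intro s _
  rw [h1, one_mul]

private theorem SNine_deg_pos {k : Type*} [Field k] {F : A2 k} (hF : Irreducible F) :
    1 ≤ F.totalDegree := by
  by_contra h
  have h0 : F.totalDegree = 0 := by omega
  rw [totalDegree_eq_zero_iff_eq_C] at h0
  have hc : coeff 0 F ≠ 0 := by
    intro hc
    rw [hc, C_0] at h0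
    exact hF.ne_zero h0
  apply hF.not_isUnit
  rw [h0]
  exact (IsUnit.mk0 _ hc).map C

/-- PROOF. Let `e = deg F`, `μ i = mu (gp i) F`, `q s = gp (α s)`. `mulbez` for the irreducible curve `Γ`, the
polynomial `F` and `β = μ` gives `∑ s, μ (α s) ≤ 3 e` (the sum over all `i` has only the nine terms
`i = α s` by `h1`, `h0`). Suppose that equality holds. `e ≥ 1`, so `μ (α s) ≥ 1` for some `s`; let `j = α s`,
`r = μ j`, `q = gp j` (then `mu q Γ = 1`). If `F ∈ mp q ^ (r + 1) ⊔ pr Γ` then `contact` and `mulbez` give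
`∑ s, μ (α s) + 1 ≤ 3 e`: contradiction. So `lf q r τ F ≠ 0`, `τ = tgt q Γ`, by `lead_iff`. Let `G` be as in
`der` for `F`, `j`, `v = τ`. By `lf_euler` (degree `r - 1`) `lf q (r - 1) τ G = - r * lf q r τ F ≠ 0`
(`cast_ne_zero_KK`, `r ≤ e < ℓ`), so by `lead_iff` (`G ∈ mp q ^ (r - 1)` by `der_mem`)
`G ∉ mp q ^ r ⊔ pr Γ`. Apply `gon` to the curve `Γ`, `t = e`, `β i = μ i` (`i ≠ j`), `β j = r - 1`
(`dotp = 3 e - (3 e - 1) = 1`), `u = F`, `w = G`, and `r`: `F ∈ mp q ^ r`, `¬ Γ ∣ F`. It gives `3 * 0 < 0`,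
since all `mu (gp i) Γ` are `0` or `1`. -/
theorem nine {n ℓ : ℕ} [Fact ℓ.Prime] (α : Fin 9 → Fin n) (hα : Function.Injective α)
    {Γ : A2 (KK n ℓ)} (hΓ : Irreducible Γ) (hd : Γ.totalDegree = 3)
    (h1 : ∀ s, mu (gp n ℓ (α s)) Γ = 1) (h0 : ∀ i, i ∉ Set.range α → mu (gp n ℓ i) Γ = 0)
    {F : A2 (KK n ℓ)} (hF : Irreducible F) (hdeg : F.totalDegree < ℓ) (hFΓ : ¬ Γ ∣ F) :
    ∑ s, mu (gp n ℓ (α s)) F + 1 ≤ 3 * F.totalDegree := by
  classical
  have hF0 := hF.ne_zero
  have hΓ0 := hΓ.ne_zero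
  set e := F.totalDegree with he
  have hmulb : ∀ β : Fin n → ℕ, F ∈ Iz (gp n ℓ) β ⊔ pr Γ → ∑ s, β (α s) ≤ 3 * e := by
    intro β hβ
    have h2 := mulbez (gp_inj n ℓ) hΓ hFΓ β hβ
    rw [SNine_sum α hα (fun i => mu (gp n ℓ i) Γ) β h1 h0, hd] at h2
    exact h2
  have hFI : F ∈ Iz (gp n ℓ) (fun i => mu (gp n ℓ i) F) :=
    mem_Iz.2 fun i => (mem_iff_le_mu hF0 _).2 le_rfl
  have hA := hmulb _ (Ideal.mem_sup_left hFI)
  by_contra hcon
  have hEq : ∑ s, mu (gp n ℓ (α s)) F = 3 * e := by omega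
  have he1 : 1 ≤ e := SNine_deg_pos hF
  have hex : ∃ s, 1 ≤ mu (gp n ℓ (α s)) F := by
    by_contra hno
    push Not at hno
    have : ∑ s, mu (gp n ℓ (α s)) F = 0 := Finset.sum_eq_zero fun s _ => by
      have := hno s
      omega
    omega
  obtain ⟨s₀, hs₀⟩ := hex
  set j := α s₀ with hj
  set q := gp n ℓ j with hq
  have hqΓ : mu q Γ = 1 := h1 s₀
  have hFq : F ∈ mp q ^ mu q F := (mem_iff_le_mu hF0 _).2 le_rfl
  have hnot : F ∉ mp q ^ (mu q F + 1) ⊔ pr Γ := by
    intro hmem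
    have h2 := hmulb _ (contact hF0 j hmem)
    have h3 : ∑ s, (if α s = j then mu (gp n ℓ j) F + 1 else mu (gp n ℓ (α s)) F) =
        ∑ s, mu (gp n ℓ (α s)) F + 1 := by
      have h4 : ∀ s, (if α s = j then mu (gp n ℓ j) F + 1 else mu (gp n ℓ (α s)) F) =
          mu (gp n ℓ (α s)) F + if s = s₀ then 1 else 0 := by
        intro s
        by_cases hs : s = s₀
        · subst hs
          simp [hj]
        · have : α s ≠ j := fun h => hs (hα (h.trans hj))
          rw [if_neg this, if_neg hs, add_zero]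
      rw [Finset.sum_congr rfl fun s _ => h4 s, Finset.sum_add_distrib]
      simp
    rw [h3] at h2
    omega
  obtain ⟨r, hr⟩ : ∃ r, mu q F = r + 1 := ⟨mu q F - 1, by omega⟩
  have hlf : lf q (r + 1) (tgt q Γ) F ≠ 0 := by
    intro h2
    apply hnot
    rw [hr]
    rw [hr] at hFq
    exact (lead_iff hΓ0 hqΓ hFq).2 h2
  obtain ⟨G, hGd, hGi, hGc⟩ := der hF0 j (tgt q Γ)
  have hGq : G ∈ mp q ^ r := by
    have := der_mem hF0 j (tgt q Γ) hGc
    rw [← hq, hr, Nat.add_sub_cancel] at this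
    exact this
  have heuler : lf q r (tgt q Γ) G = - (((r : KK n ℓ)) + 1) * lf q (r + 1) (tgt q Γ) F :=
    lf_euler r (tgt q Γ) fun a b hab => hGc a b (by rw [← hq, hr]; omega)
  have hrℓ : ((r : KK n ℓ)) + 1 ≠ 0 := by
    have h2 : r + 1 ≤ e := by
      rw [← hr]
      exact mu_le_deg hF0
    have := cast_ne_zero_KK (n := n) (ℓ := ℓ) (a := r + 1) (by omega) (by omega)
    push_cast at this
    exact this
  have hGnot : G ∉ mp q ^ (r + 1) ⊔ pr Γ := by
    intro h2
    have h3 := (lead_iff hΓ0 hqΓ hGq).1 h2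
    rw [heuler] at h3
    exact mul_ne_zero (neg_ne_zero.2 hrℓ) hlf h3
  have hn : 0 < n := lt_of_le_of_lt (Nat.zero_le _) j.2
  have := infinite_KK ℓ hn
  have hμ01 : ∀ i, mu (gp n ℓ i) Γ = 0 ∨ mu (gp n ℓ i) Γ = 1 := by
    intro i
    by_cases hi : i ∈ Set.range α
    · obtain ⟨s, rfl⟩ := hi
      exact Or.inr (h1 s)
    · exact Or.inl (h0 i hi)
  set β : Fin n → ℕ := fun i => if i = j then r else mu (gp n ℓ i) F with hβ
  have hβsum : ∑ s, β (α s) + 1 = 3 * e := by
    rw [← hEq]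
    have h4 : ∀ s, mu (gp n ℓ (α s)) F = β (α s) + if s = s₀ then 1 else 0 := by
      intro s
      rw [hβ]
      simp only
      by_cases hs : s = s₀
      · subst hs
        rw [if_pos hj.symm, if_pos rfl]
        exact hr
      · have : α s ≠ j := fun h => hs (hα (h.trans hj))
        rw [if_neg this, if_neg hs, add_zero]
    rw [Finset.sum_congr rfl fun s _ => h4 s, Finset.sum_add_distrib]
    simp
  have hsumβ : ∑ i, mu (gp n ℓ i) Γ * β i = ∑ s, β (α s) :=
    SNine_sum α hα (fun i => mu (gp n ℓ i) Γ) β h1 h0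
  have hdot : dotp e β (gp n ℓ) Γ = 1 := by
    unfold dotp
    rw [hd]
    have h5 : ∑ i, (β i : ℤ) * (mu (gp n ℓ i) Γ : ℤ) = ((∑ i, mu (gp n ℓ i) Γ * β i : ℕ) : ℤ) := by
      push_cast
      exact Finset.sum_congr rfl fun i _ => mul_comm _ _
    rw [h5, hsumβ]
    have h6 : ((∑ s, β (α s) : ℕ) : ℤ) + 1 = 3 * (e : ℤ) := by exact_mod_cast hβsum
    push_cast at h6 ⊢
    linarith
  have hg := gon (gp_inj n ℓ) hΓ e β (fun i => by rcases hμ01 i with h | h <;> omega) hdot
    (u := F) (w := G) (mem_Pt.2 le_rfl) (mem_Pt.2 hGd)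
    (Iz_mono (fun i => by
      rw [hβ]
      simp only
      split_ifs with hi
      · rw [hi, ← hq, hr]
        exact Nat.le_succ r
      · exact le_rfl) hFI)
    (mem_Iz.2 fun i => by
      rw [hβ]
      simp only
      split_ifs with hi
      · rw [hi]
        exact hGq
      · exact hGi i hi) hFΓ hqΓ (r := r + 1)
    (Ideal.mem_sup_left (by rw [← hr]; exact hFq)) hGnot
  rw [hd] at hg
  have hz : ∑ i, (mu (gp n ℓ i) Γ : ℤ) * ((mu (gp n ℓ i) Γ : ℤ) - 1) = 0 := by
    apply Finset.sum_eq_zero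
    intro i _
    rcases hμ01 i with h | h <;> rw [h] <;> simp
  rw [hz] at hg
  norm_num at hg

end Pool.MP_70e04f_ag.Strip

end

/-! ### from `Lib_MP_70e04f_strip.SPos` -/

section

/-!
# Piece SPOS: positivity on irreducible curves through generic points
-/

set_option autoImplicit false

namespace Pool.MP_70e04f_ag.Strip

open MvPolynomial

/-- an irreducible polynomial is not constant -/
theorem spos_deg {k : Type*} [Field k] {F : A2 k} (hF : Irreducible F) : 1 ≤ F.totalDegree := by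
  by_contra h
  have h0 : F.totalDegree = 0 := by omega
  rw [totalDegree_eq_zero_iff_eq_C] at h0
  have hc : coeff 0 F ≠ 0 := by
    intro hc
    rw [hc, C_0] at h0
    exact hF.ne_zero h0
  apply hF.not_isUnit
  rw [h0]
  exact (Ne.isUnit hc).map C

/-- the sum of the squares over nine of the points -/
theorem spos_sq {n : ℕ} (M : Fin n → ℕ) (α : Fin 9 → Fin n) (hα : Function.Injective α) :
    ∑ s, M (α s) ^ 2 ≤ ∑ i, M i ^ 2 := by
  have h : ∑ s, M (α s) ^ 2 = ∑ i ∈ Finset.univ.map ⟨α, hα⟩, M i ^ 2 := by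
    rw [Finset.sum_map]
    rfl
  rw [h]
  exact Finset.sum_le_sum_of_subset (Finset.subset_univ _)

/-- the case of the cubic -/
theorem spos_cubic {n D X : ℕ} (M : Fin n → ℕ) (α : Fin 9 → Fin n) (hα : Function.Injective α)
    (hsq : ∑ i, M i ^ 2 + X ^ 2 < D ^ 2) : ∑ s, (M (α s) : ℤ) < 3 * D := by
  have h1 : (∑ s, (M (α s) : ℤ)) ^ 2 ≤ 9 * ∑ s, (M (α s) : ℤ) ^ 2 := by
    have := sq_sum_le_card_mul_sum_sq (s := (Finset.univ : Finset (Fin 9)))
      (f := fun s => (M (α s) : ℤ))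
    simpa using this
  have h2 : (∑ s, (M (α s) : ℤ) ^ 2) ≤ ∑ i, (M i : ℤ) ^ 2 := by
    exact_mod_cast spos_sq M α hα
  have h3 : (∑ i, (M i : ℤ) ^ 2) + (X : ℤ) ^ 2 < (D : ℤ) ^ 2 := by exact_mod_cast hsq
  by_contra h
  have h4 : 3 * (D : ℤ) ≤ ∑ s, (M (α s) : ℤ) := not_lt.1 h
  have h5 : (0 : ℤ) ≤ D := Int.natCast_nonneg D
  have h6 : (0 : ℤ) ≤ (X : ℤ) ^ 2 := sq_nonneg _
  nlinarith

/-- PROOF. Let `Γ` be the cubic of `exists_cubic`. If `Γ ∣ F` then `F = Γ * h` with `h` a unit (`F`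
irreducible), a constant, so `deg F = 3` and `mu (gp i) F = mu (gp i) Γ` (`mu_mul`, `mu_C`), and `dotp` is
`3 D - ∑ s, M (α s)`, positive since `(∑ s, M (α s)) ^ 2 ≤ 9 ∑ M ^ 2 < 9 D ^ 2` (Cauchy). Otherwise apply
`num` with `e = deg F ≥ 1`, `a i = mu (gp i) F ≤ e` (`mu_le_deg`), `xu`, `nine`, `two_simple`. -/
theorem pos {n ℓ : ℕ} [Fact ℓ.Prime] (hℓ : 3 < ℓ) (D X : ℕ) (M : Fin n → ℕ) (α : Fin 9 → Fin n)
    (hα : Function.Injective α) (hanti : Antitone (fun s => M (α s))) (hX : 1 ≤ X)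
    (hX8 : X ≤ M (α 8)) (hother : ∀ i, i ∉ Set.range α → M i ≤ X)
    (hstd : M (α 0) + M (α 1) + M (α 2) ≤ D) (hsq : ∑ i, M i ^ 2 + X ^ 2 < D ^ 2)
    {F : A2 (KK n ℓ)} (hF : Irreducible F) (hdeg : F.totalDegree < ℓ) :
    1 ≤ dotp D M (gp n ℓ) F := by
  obtain ⟨Γ, hΓ, hd3, hΓ1, hΓ0⟩ := exists_cubic hℓ α hα
  have hF0 : F ≠ 0 := hF.ne_zero
  by_cases hdvd : Γ ∣ F
  · obtain ⟨h, hh⟩ := hdvd
    have hu : IsUnit h := (hF.isUnit_or_isUnit hh).resolve_left hΓ.not_isUnit
    obtain ⟨c, hc, hc'⟩ := MvPolynomial.isUnit_iff_eq_C_of_isReduced.1 hu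
    have hc0 : c ≠ 0 := hc.ne_zero
    have hh0 : h ≠ 0 := hu.ne_zero
    have hdF : F.totalDegree = 3 := by
      rw [hh, totalDegree_mul_of_isDomain hΓ.ne_zero hh0, hd3, hc', totalDegree_C]
    have hmu : ∀ i, mu (gp n ℓ i) F = mu (gp n ℓ i) Γ := by
      intro i
      rw [hh, mu_mul hΓ.ne_zero hh0, hc', mu_C hc0, add_zero]
    have hsum : ∑ s, (M (α s) : ℤ) = ∑ i, (M i : ℤ) * mu (gp n ℓ i) F := by
      refine Fintype.sum_of_injective α hα _ _ ?_ ?_
      · intro i hi
        rw [hmu, hΓ0 i hi]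
        simp
      · intro s
        rw [hmu, hΓ1 s]
        simp
    unfold dotp
    rw [← hsum, hdF]
    have := spos_cubic M α hα hsq
    push_cast
    linarith
  · have hnum := num F.totalDegree D X (fun i => mu (gp n ℓ i) F) M α hα (spos_deg hF)
      (fun i => mu_le_deg hF0) (fun j hj => xu hF hdeg j hj)
      (nine α hα hΓ hd3 hΓ1 hΓ0 hF hdeg hdvd)
      (fun i j hij hi hj hs => two_simple hF hdeg hij hi hj hs) hanti hX hX8 hother hstd hsq
    unfold dotp
    have h1 : (∑ i, (M i : ℤ) * mu (gp n ℓ i) F) < (D : ℤ) * F.totalDegree := by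
      exact_mod_cast hnum
    linarith

end Pool.MP_70e04f_ag.Strip

end

/-! ### from `Lib_MP_70e04f_strip.SSurfA` -/

section

/-!
# Piece SSURFA: multiplication by a curve
-/

set_option autoImplicit false

namespace Pool.MP_70e04f_ag.Strip

open MvPolynomial

/-- many curves in a big class.
PROOF. `Pt k (κ D) → A2 k ⧸ sp (Iz p (κ M))` has kernel `Pt k (κ D) ⊓ sp (..)`, so the dimension of the
kernel is at least `finrank Pt - len`; `two_finrank_Pt`, `len_Iz` (or `cod_add`). -/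
theorem finrank_sys_ge {n : ℕ} {k : Type} [Field k] {p : Fin n → Fin 2 → k}
    (hp : Function.Injective p) (t : ℕ) (β : Fin n → ℕ) :
    ((t : ℤ) + 1) * (t + 2) - ∑ i, (β i : ℤ) * (β i + 1) ≤
      2 * (Module.finrank k ↥(Pt k t ⊓ sp (Iz p β)) : ℤ) := by
  have h1 := cod_add (finC_Iz hp β) t
  have h2 : (2 * Module.finrank k ↥(Pt k t) : ℤ) = ((t : ℤ) + 1) * (t + 2) := by
    exact_mod_cast two_finrank_Pt (k := k) t
  have h3 : (2 * len (Iz p β) : ℤ) = ∑ i, (β i : ℤ) * (β i + 1) := by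
    exact_mod_cast len_Iz hp β
  have h4 : (cod t (Iz p β) : ℤ) + Module.finrank k ↥(Pt k t) =
      len (Iz p β) + Module.finrank k ↥(Pt k t ⊓ sp (Iz p β)) := by
    exact_mod_cast h1
  have h5 : (0 : ℤ) ≤ cod t (Iz p β) := Int.natCast_nonneg _
  linarith

/-- many curves, numerical form.
PROOF. `(κ D + 1) (κ D + 2) - ∑ κ M i (κ M i + 1) = κ ^ 2 (D ^ 2 - ∑ M i ^ 2) + κ (3 D - ∑ M i) + 2
≥ κ ^ 2 - κ ∑ M i`, which is `> 2 B` for `κ = ∑ M i + 2 B + 1`. -/
theorem exists_kappa {n : ℕ} (D B : ℕ) (M : Fin n → ℕ) (hsq : ∑ i, M i ^ 2 < D ^ 2) :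
    ∃ κ : ℕ, 1 ≤ κ ∧ 2 * (B : ℤ) < ((κ * D : ℕ) + 1 : ℤ) * ((κ * D : ℕ) + 2)
      - ∑ i, ((κ * M i : ℕ) : ℤ) * ((κ * M i : ℕ) + 1) := by
  refine ⟨∑ i, M i + 2 * B + 1, Nat.le_add_left 1 _, ?_⟩
  set κ : ℕ := ∑ i, M i + 2 * B + 1 with hκ
  have h0 : (κ : ℤ) = ∑ i, (M i : ℤ) + 2 * B + 1 := by
    rw [hκ]
    push_cast
    ring
  have h1 : ∑ i, ((κ * M i : ℕ) : ℤ) * ((κ * M i : ℕ) + 1) =
      (κ : ℤ) ^ 2 * ∑ i, (M i : ℤ) ^ 2 + κ * ∑ i, (M i : ℤ) := by
    rw [Finset.mul_sum, Finset.mul_sum, ← Finset.sum_add_distrib]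
    refine Finset.sum_congr rfl fun i _ => ?_
    push_cast
    ring
  have h2 : (∑ i, (M i : ℤ) ^ 2) + 1 ≤ (D : ℤ) ^ 2 := by
    have : (∑ i, (M i : ℤ) ^ 2) < (D : ℤ) ^ 2 := by exact_mod_cast hsq
    linarith
  rw [h1]
  push_cast
  have h3 : (0 : ℤ) ≤ B := Int.natCast_nonneg _
  have h4 : (0 : ℤ) ≤ D := Int.natCast_nonneg _
  have h5 : (0 : ℤ) ≤ ∑ i, (M i : ℤ) := Finset.sum_nonneg fun i _ => Int.natCast_nonneg _
  set S1 : ℤ := ∑ i, (M i : ℤ)
  set S2 : ℤ := ∑ i, (M i : ℤ) ^ 2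
  have h6 : (κ : ℤ) ^ 2 * (S2 + 1) ≤ (κ : ℤ) ^ 2 * (D : ℤ) ^ 2 :=
    mul_le_mul_of_nonneg_left h2 (sq_nonneg _)
  have h7 : (1 : ℤ) ≤ κ := by linarith
  have h8 : (κ : ℤ) * (κ - S1) = κ * (2 * B + 1) := by
    rw [h0]
    ring
  have h9 : (2 * B + 1 : ℤ) ≤ κ * (2 * B + 1) := by
    nlinarith
  have h10 : (0 : ℤ) ≤ κ * D := by positivity
  nlinarith

/-- Serre vanishing, one multiplication step.
PROOF. Let `s ∈ Pt k (κ D) ⊓ sp (Iz p (κ M))`, `s ≠ 0`. `curve_van n D (κ D) (κ D + 3) M` gives `J`. For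
`j ≥ J + 3` let `t = j D - 3`, `β i = j M i - 1`. For every irreducible `F` of degree `≤ κ D` and
`t ≤ t1 ≤ t + κ D`, `β ≤ β1 ≤ β + κ D` the class `(t1; β1)` is at distance `≤ κ D + 3` from `j (D; M)`, so
`Ind t1 (Iz p β1 ⊔ pr F)` (`M i = 0` does not occur). By `chain` with `E = κ D`,
`Ind (t + deg s) (Iz p (β + mu s) ⊔ pr s)`, and by `Ind.mono` (`deg s ≤ κ D`, `mu (p i) s ≥ κ M i` by
`mem_iff_le_mu`) `Ind (t + κ D) (Iz p (β + κ M) ⊔ pr s)`. (`D ≥ 1`: `∑ M i ^ 2 < D ^ 2`.) -/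
theorem surf_mul {n : ℕ} (D κ : ℕ) (M : Fin n → ℕ) (hM : ∀ i, 1 ≤ M i) (hD : 1 ≤ D) :
    ∃ J : ℕ, ∀ (k : Type) [Field k] [Infinite k] (p : Fin n → Fin 2 → k), Function.Injective p →
    (∀ F : A2 k, Irreducible F → F.totalDegree ≤ κ * D → 1 ≤ dotp D M p F) →
    ∀ s : A2 k, s ≠ 0 → s ∈ Pt k (κ * D) → s ∈ Iz p (fun i => κ * M i) → ∀ j, J ≤ j →
    Ind (j * D - 3 + κ * D) (Iz p (fun i => j * M i - 1 + κ * M i) ⊔ pr s) := by
  obtain ⟨J, hJ⟩ := curve_van n D (κ * D) (κ * D + 3) M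
  refine ⟨J + 3, fun k _ _ p hp hpos s hs0 hsP hsI j hj => ?_⟩
  have key := chain (p := p) (κ * D) (j * D - 3) (fun i => j * M i - 1) (fun F hF hdeg t1 β1 h1 h2 h3 h4 =>
    hJ k p hp F hF hdeg (fun i hi => absurd hi (by have := hM i; omega)) (hpos F hF hdeg) j t1 β1
      (by omega) (by omega) (by omega) (fun i => by have := h3 i; omega)
      (fun i => by have := h4 i; omega)) s hs0 (mem_Pt.1 hsP)
  refine key.mono (Nat.add_le_add_left (mem_Pt.1 hsP) _) (sup_le_sup_right (Iz_mono fun i => ?_) _)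
  exact Nat.add_le_add_left ((mem_iff_le_mu hs0 _).1 (mem_Iz.1 hsI i)) _

end Pool.MP_70e04f_ag.Strip

end

/-! ### from `Lib_MP_70e04f_strip.SSurf` -/

section

/-!
# Piece SSURF: Serre vanishing on the plane
-/

set_option autoImplicit false

namespace Pool.MP_70e04f_ag.Strip

open MvPolynomial

private theorem SSurf_idx {D j κ : ℕ} (hD : 1 ≤ D) (hj : 3 ≤ j) :
    (j + κ) * D - 3 = j * D - 3 + κ * D := by
  have h : 3 ≤ j * D := by nlinarith
  rw [Nat.add_mul]
  omega

private theorem SSurf_idx2 {m j κ : ℕ} (hm : 1 ≤ m) (hj : 3 ≤ j) :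
    (j + κ) * m - 1 = j * m - 1 + κ * m := by
  have h : 1 ≤ j * m := by nlinarith
  rw [Nat.add_mul]
  omega

private theorem SSurf_mul_mem {n : ℕ} {k : Type} [Field k] {p : Fin n → Fin 2 → k}
    {β γ : Fin n → ℕ} {f g : A2 k} (hf : f ∈ Iz p γ) (hg : g ∈ Iz p β) :
    f * g ∈ Iz p (fun i => β i + γ i) := by
  rw [mul_comm]
  exact Iz_mul_mem hg hf

/-- Serre vanishing.
PROOF. Write `v j = cod (j D - 3) (Iz p (j M - 1))`. By `exists_kappa` (`B = 0`) and `finrank_sys_ge`
there is `κ0 ≥ 1`, depending only on `D, M`, with a nonzero element of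
`Pt k (κ0 D) ⊓ sp (Iz p (κ0 M))`, for all `k, p`. Let `J1 ≥ 3` be at least the `J` of `surf_mul` for
`κ0`. For `j ≥ J1`, `v (j + κ0) ≤ v j` (`step_le`; note `(j + κ0) D - 3 = j D - 3 + κ0 D` since
`j D ≥ 3`, and `(j + κ0) M i - 1 = j M i - 1 + κ0 M i`). Since `v j ≤ len ≤ ∑ (j M i) ^ 2` (`cod_le_len`,
`len_Iz`), for all `j ≥ J1`: `v j ≤ B := ∑ ((J1 + κ0) * M i) ^ 2` (write `j` as an element of
`[J1, J1 + κ0)` plus a multiple of `κ0`). Choose `κ` for this `B` by `exists_kappa`, let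
`E = max (κ0 D) (κ D)` and `J2 ≥ J1` at least the `J` of `surf_mul` for `κ`. For `j ≥ J2`, `step_lt` with
`W = Pt k (κ D) ⊓ sp (Iz p (κ M))` (`finrank W > B ≥ v j`): `v (j + κ) < v j` or `v (j + κ) = v j = 0`. So
`v j = 0` for `j ≥ J2 + κ (B + 1)`, and `FinC.cod_eq_zero`. -/
theorem surf_van (n D : ℕ) (M : Fin n → ℕ) (hM : ∀ i, 1 ≤ M i) (hsq : ∑ i, M i ^ 2 < D ^ 2) :
    ∃ E : ℕ, ∀ (k : Type) [Field k] [Infinite k] (p : Fin n → Fin 2 → k), Function.Injective p →
    (∀ F : A2 k, Irreducible F → F.totalDegree ≤ E → 1 ≤ dotp D M p F) →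
    ∃ J : ℕ, ∀ j, J ≤ j → Ind (j * D - 3) (Iz p (fun i => j * M i - 1)) := by
  have hD : 1 ≤ D := by
    rcases Nat.eq_zero_or_pos D with h | h
    · rw [h] at hsq
      simp at hsq
    · exact h
  obtain ⟨κ0, hκ0, hκ0'⟩ := exists_kappa D 0 M hsq
  obtain ⟨Ja, hJa⟩ := surf_mul D κ0 M hM hD
  obtain ⟨J1, hJ1a, hJ13⟩ : ∃ J1, Ja ≤ J1 ∧ 3 ≤ J1 := ⟨max Ja 3, le_max_left _ _, le_max_right _ _⟩
  obtain ⟨B, hB⟩ : ∃ B, B = ∑ i, ((J1 + κ0) * M i) ^ 2 := ⟨_, rfl⟩
  obtain ⟨κ, hκ, hκ'⟩ := exists_kappa D B M hsq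
  obtain ⟨Jb, hJb⟩ := surf_mul D κ M hM hD
  obtain ⟨J2, hJ2b, hJ21⟩ : ∃ J2, Jb ≤ J2 ∧ J1 ≤ J2 := ⟨max Jb J1, le_max_left _ _, le_max_right _ _⟩
  refine ⟨max (κ0 * D) (κ * D), fun k _ _ p hp hpos => ?_⟩
  obtain ⟨v, hv⟩ : ∃ v : ℕ → ℕ, ∀ j, v j = cod (j * D - 3) (Iz p (fun i => j * M i - 1)) :=
    ⟨_, fun _ => rfl⟩
  -- a nonzero element for `κ0`
  have hW0 := finrank_sys_ge hp (κ0 * D) (fun i => κ0 * M i)
  have hW0' : 0 < Module.finrank k ↥(Pt k (κ0 * D) ⊓ sp (Iz p (fun i => κ0 * M i))) := by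
    have : (0 : ℤ) < 2 * (Module.finrank k ↥(Pt k (κ0 * D) ⊓ sp (Iz p (fun i => κ0 * M i))) : ℤ) := by
      refine lt_of_lt_of_le ?_ hW0
      simpa using hκ0'
    omega
  obtain ⟨s0, hs0⟩ : ∃ s0 : ↥(Pt k (κ0 * D) ⊓ sp (Iz p (fun i => κ0 * M i))), s0 ≠ 0 := by
    haveI := Module.nontrivial_of_finrank_pos hW0'
    exact exists_ne 0
  have hs0P : (s0 : A2 k) ∈ Pt k (κ0 * D) := (Submodule.mem_inf.1 s0.2).1
  have hs0I : (s0 : A2 k) ∈ Iz p (fun i => κ0 * M i) := (Submodule.mem_inf.1 s0.2).2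
  have hs0n : (s0 : A2 k) ≠ 0 := fun h => hs0 (Subtype.ext h)
  have hstep0 : ∀ j, J1 ≤ j → v (j + κ0) ≤ v j := by
    intro j hj
    rw [hv, hv, SSurf_idx hD (by omega)]
    have he : (fun i => (j + κ0) * M i - 1) = fun i => j * M i - 1 + κ0 * M i := by
      funext i
      exact SSurf_idx2 (hM i) (by omega)
    rw [he]
    refine step_le hs0P (fun g hg => SSurf_mul_mem hs0I hg) ?_ (finC_Iz hp _)
    exact hJa k p hp (fun F hF hdeg => hpos F hF (hdeg.trans (le_max_left _ _))) _ hs0n hs0P hs0I j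
      (by omega)
  have hbound : ∀ j, J1 ≤ j → v j ≤ B := by
    intro j
    induction j using Nat.strong_induction_on with
    | _ j ih =>
      intro hj
      by_cases hlt : j < J1 + κ0
      · rw [hv]
        refine (cod_le_len (finC_Iz hp _) _).trans ?_
        have h3 := len_Iz hp (fun i => j * M i - 1)
        have h4 : ∑ i, (j * M i - 1) * (j * M i - 1 + 1) ≤ B := by
          rw [hB]
          refine Finset.sum_le_sum fun i _ => ?_
          have h5 : j * M i - 1 ≤ (J1 + κ0) * M i :=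
            (Nat.sub_le _ _).trans (Nat.mul_le_mul_right _ (by omega))
          have h6 : j * M i - 1 + 1 ≤ (J1 + κ0) * M i := by
            have h7 : 1 ≤ j * M i := Nat.mul_pos (by omega) (hM i)
            have h8 : j * M i ≤ (J1 + κ0) * M i := Nat.mul_le_mul_right _ (by omega)
            omega
          calc (j * M i - 1) * (j * M i - 1 + 1) ≤ ((J1 + κ0) * M i) * ((J1 + κ0) * M i) :=
                Nat.mul_le_mul h5 h6
            _ = ((J1 + κ0) * M i) ^ 2 := (sq _).symm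
        omega
      · have h1 := ih (j - κ0) (by omega) (by omega)
        have h2 := hstep0 (j - κ0) (by omega)
        rw [Nat.sub_add_cancel (by omega)] at h2
        exact h2.trans h1
  have hW := finrank_sys_ge hp (κ * D) (fun i => κ * M i)
  have hW' : B < Module.finrank k ↥(Pt k (κ * D) ⊓ sp (Iz p (fun i => κ * M i))) := by
    have : 2 * (B : ℤ) <
        2 * (Module.finrank k ↥(Pt k (κ * D) ⊓ sp (Iz p (fun i => κ * M i))) : ℤ) :=
      lt_of_lt_of_le hκ' hW
    omega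
  have hstep : ∀ j, J2 ≤ j → v (j + κ) < v j ∨ v (j + κ) = 0 ∧ v j = 0 := by
    intro j hj
    rw [hv (j + κ), SSurf_idx hD (by omega)]
    have he : (fun i => (j + κ) * M i - 1) = fun i => j * M i - 1 + κ * M i := by
      funext i
      exact SSurf_idx2 (hM i) (by omega)
    have hvB := hbound j (by omega)
    rw [he]
    rw [hv] at hvB ⊢
    refine step_lt (Pt k (κ * D) ⊓ sp (Iz p (fun i => κ * M i))) inf_le_left
      (fun s hs g hg => SSurf_mul_mem (Submodule.mem_inf.1 hs).2 hg) (fun s hs hsn => ?_)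
      (finC_Iz hp _) (lt_of_le_of_lt hvB hW')
    exact hJb k p hp (fun F hF hdeg => hpos F hF (hdeg.trans (le_max_right _ _))) s hsn
      (Submodule.mem_inf.1 hs).1 (Submodule.mem_inf.1 hs).2 j (by omega)
  have hdec : ∀ m j, J2 ≤ j → v (j + κ * m) ≤ B - m := by
    intro m
    induction m with
    | zero =>
      intro j hj
      simpa using hbound j (by omega)
    | succ m ih =>
      intro j hj
      have h1 := ih j hj
      have h2 := hstep (j + κ * m) (by omega)
      have h3 : j + κ * m + κ = j + κ * (m + 1) := by ring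
      rw [h3] at h2
      omega
  refine ⟨J2 + κ * (B + 1), fun j hj => ?_⟩
  have h1 := hdec (B + 1) (j - κ * (B + 1)) (by omega)
  have h2 : j - κ * (B + 1) + κ * (B + 1) = j := Nat.sub_add_cancel (by omega)
  rw [h2] at h1
  have h3 : v j = 0 := by omega
  rw [hv] at h3
  exact (FinC.cod_eq_zero (finC_Iz hp _) _).1 h3

end Pool.MP_70e04f_ag.Strip

end

/-! ### from `Lib_MP_70e04f_strip.SInd` -/

section

/-!
# Piece SIND: independence for suitable points in large characteristic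
-/

set_option autoImplicit false

namespace Pool.MP_70e04f_ag.Strip

open MvPolynomial

/-- PROOF. Let `D = d + 3`, `M i = m i + 1`, `X = m (α 9) + 1`. `surf_van n D M` gives `E`. Let `ℓ` be a
prime larger than `E` and `3` and `k = KK n ℓ`. `pos` for the first nine of the ten points
(`α ∘ Fin.castSucc`; the tenth one has `M = X`) shows that `(D; M)` is positive on every irreducible
curve of degree `≤ E`. So there is `J` with `Ind (j D - 3) (Iz (gp) (j M - 1))` for `j ≥ J`; take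
`j = ℓ ^ e ≥ J` and apply `trace_ind` (`charP_KK`). The points `(gp i) ^ (ℓ ^ e)` are different, since
`x ↦ x ^ (ℓ ^ e)` is injective (`frobenius_inj`/`iterateFrobenius`). -/
theorem ind_gen {n : ℕ} (d : ℕ) (m : Fin n → ℕ) (α : Fin 10 → Fin n)
    (hα : Function.Injective α) (hanti : Antitone (fun s => m (α s)))
    (hother : ∀ i, i ∉ Set.range α → m i ≤ m (α 9)) (hstd : m (α 0) + m (α 1) + m (α 2) ≤ d)
    (hsq : ∑ i, (m i + 1) ^ 2 + (m (α 9) + 1) ^ 2 < (d + 3) ^ 2) :
    ∃ (k : Type) (_ : Field k) (_ : Infinite k) (p : Fin n → Fin 2 → k),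
      Function.Injective p ∧ Ind d (Iz p m) := by
  obtain ⟨E, hE⟩ := surf_van n (d + 3) (fun i => m i + 1) (fun i => by omega) (by omega)
  obtain ⟨ℓ, hℓ, hprime⟩ := Nat.exists_infinite_primes (E + 4)
  have : Fact ℓ.Prime := ⟨hprime⟩
  have : CharP (KK n ℓ) ℓ := charP_KK n ℓ
  have hn : 0 < n := lt_of_le_of_lt (Nat.zero_le _) (α 0).2
  have hinf : Infinite (KK n ℓ) := infinite_KK ℓ hn
  have hpos : ∀ F : A2 (KK n ℓ), Irreducible F → F.totalDegree ≤ E →
      1 ≤ dotp (d + 3) (fun i => m i + 1) (gp n ℓ) F := by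
    intro F hF hFE
    refine pos (by omega) (d + 3) (m (α 9) + 1) (fun i => m i + 1) (fun s => α s.castSucc)
      (hα.comp (Fin.castSucc_injective _)) ?_ (by omega) ?_ ?_ ?_ hsq hF (by omega)
    · intro a b hab
      have := hanti (Fin.castSucc_le_castSucc_iff.2 hab)
      simp only at this ⊢
      omega
    · have := hanti (show (8 : Fin 9).castSucc ≤ (9 : Fin 10) from by decide)
      simp only at this ⊢
      omega
    · intro i hi
      by_cases h9 : i = α 9
      · rw [h9]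
      · have := hother i (by
          rintro ⟨s, hs⟩
          rcases Fin.eq_castSucc_or_eq_last s with ⟨s', rfl⟩ | rfl
          · exact hi ⟨s', hs⟩
          · exact h9 hs.symm)
        omega
    · have e0 : (0 : Fin 9).castSucc = (0 : Fin 10) := rfl
      have e1 : (1 : Fin 9).castSucc = (1 : Fin 10) := rfl
      have e2 : (2 : Fin 9).castSucc = (2 : Fin 10) := rfl
      rw [e0, e1, e2]
      omega
  obtain ⟨J, hJ⟩ := hE (KK n ℓ) (gp n ℓ) (gp_inj n ℓ) hpos
  have hJe : J ≤ ℓ ^ J := (Nat.lt_pow_self hprime.one_lt).le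
  have h1 := hJ (ℓ ^ J) hJe
  have h2 := trace_ind ℓ J (gp n ℓ) d m h1
  refine ⟨KK n ℓ, inferInstance, hinf, _, ?_, h2⟩
  intro i j hij
  apply gp_inj n ℓ
  funext c
  have h3 := congrFun hij c
  exact iterateFrobenius_inj (KK n ℓ) ℓ J h3

end Pool.MP_70e04f_ag.Strip

end

/-! ### from `Lib_MP_70e04f_strip.SIndA` -/

section

/-!
# Piece SINDA: emptiness for generic points in large characteristic
-/

set_option autoImplicit false

namespace Pool.MP_70e04f_ag.Strip

open MvPolynomial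

/-- PROOF. Induction on the factorization of `G` into irreducible factors: `dotp` is additive
(`mu_mul`, `totalDegree_mul_of_isDomain`), a unit has `dotp = 0`. -/
theorem dotp_pos {k : Type*} [Field k] {n : ℕ} (D : ℕ) (M : Fin n → ℕ) (p : Fin n → Fin 2 → k)
    (E : ℕ) (h : ∀ F : A2 k, Irreducible F → F.totalDegree ≤ E → 1 ≤ dotp D M p F) {G : A2 k}
    (hG : G ≠ 0) (hE : G.totalDegree ≤ E) (h1 : 1 ≤ G.totalDegree) : 1 ≤ dotp D M p G := by
  have key : ∀ G : A2 k, G ≠ 0 → G.totalDegree ≤ E →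
      0 ≤ dotp D M p G ∧ (1 ≤ G.totalDegree → 1 ≤ dotp D M p G) := by
    intro G
    induction G using WfDvdMonoid.induction_on_irreducible with
    | zero => intro h0; exact absurd rfl h0
    | unit u hu =>
      intro _ _
      obtain ⟨c, hc, rfl⟩ := isUnit_iff_eq_C_of_isReduced.1 hu
      have hc0 : c ≠ 0 := hc.ne_zero
      constructor
      · unfold dotp
        simp only [totalDegree_C, mu_C hc0]
        simp
      · intro h2
        rw [totalDegree_C] at h2
        omega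
    | mul a i ha hi iha =>
      intro _ hdeg
      have hi0 : i ≠ 0 := hi.ne_zero
      have hd : (i * a).totalDegree = i.totalDegree + a.totalDegree :=
        totalDegree_mul_of_isDomain hi0 ha
      have h2 := (iha ha (by omega)).1
      have h3 := h i hi (by omega)
      have h4 : dotp D M p (i * a) = dotp D M p i + dotp D M p a := by
        unfold dotp
        rw [hd]
        have h5 : ∀ j, (M j : ℤ) * mu (p j) (i * a)
            = (M j : ℤ) * mu (p j) i + (M j : ℤ) * mu (p j) a := by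
          intro j
          rw [mu_mul hi0 ha]
          push_cast
          ring
        rw [Finset.sum_congr rfl fun j _ => h5 j, Finset.sum_add_distrib]
        push_cast
        ring
      rw [h4]
      exact ⟨by omega, fun _ => by omega⟩
  exact (key G hG hE).2 h1

/-- PROOF. Let `S = ∑ m i ^ 2`, `M i = d * m i`, `X = d * m (α 9)`. `d ≥ 1`, `m (α 9) ≥ 1`, `S > d ^ 2`. Then
`∑ M i ^ 2 + X ^ 2 = d ^ 2 (S + m (α 9) ^ 2) < S ^ 2`: `S ^ 2 - d ^ 2 S = S (S - d ^ 2) ≥ S m (α 9) ^ 2 >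
d ^ 2 m (α 9) ^ 2`. And `M (α 0) + M (α 1) + M (α 2) ≤ d ^ 2 ≤ S`. Choose a prime `ℓ > max d 3`,
`k = KK n ℓ`, `p = gp`. By `pos` (`α ∘ Fin.castSucc`) and `dotp_pos`, every nonzero `G` of degree
between `1` and `d` has `S * deg G > d ∑ m i * mu (gp i) G`. If `G ∈ Iz p m` then the right side is
`≥ d S` (`mem_iff_le_mu`), so `deg G > d`. A nonzero constant is not in `Iz p m`. -/
theorem empty_gen {n : ℕ} (d : ℕ) (m : Fin n → ℕ) (h1 : ∀ i, 1 ≤ m i) (α : Fin 10 → Fin n)
    (hα : Function.Injective α) (hanti : Antitone (fun s => m (α s)))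
    (hother : ∀ i, i ∉ Set.range α → m i ≤ m (α 9)) (hstd : m (α 0) + m (α 1) + m (α 2) ≤ d)
    (hsq : d ^ 2 + m (α 9) ^ 2 ≤ ∑ i, m i ^ 2) :
    ∃ (k : Type) (_ : Field k) (_ : Infinite k) (p : Fin n → Fin 2 → k),
      Function.Injective p ∧ Pt k d ⊓ sp (Iz p m) = ⊥ := by
  obtain ⟨ℓ, hℓ, hℓp⟩ := Nat.exists_infinite_primes (d + 4)
  haveI : Fact ℓ.Prime := ⟨hℓp⟩
  set S : ℕ := ∑ i, m i ^ 2 with hS
  have m0 := h1 (α 0)
  have m9 := h1 (α 9)
  have m1 := h1 (α 1)
  have hd : 1 ≤ d := by omega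
  have hn : 0 < n := (α 0).pos
  have hpos : ∀ F : A2 (KK n ℓ), Irreducible F → F.totalDegree ≤ d →
      1 ≤ dotp S (fun i => d * m i) (gp n ℓ) F := by
    intro F hF hFd
    refine pos (by omega) S (d * m (α 9)) (fun i => d * m i) (α ∘ Fin.castSucc)
      (hα.comp (Fin.castSucc_injective 9)) ?_ ?_ ?_ ?_ ?_ ?_ hF (by omega)
    · intro a b hab
      exact Nat.mul_le_mul_left d (hanti (show Fin.castSucc a ≤ Fin.castSucc b from hab))
    · exact Nat.mul_pos hd m9
    · exact Nat.mul_le_mul_left d (hanti (show Fin.castSucc 8 ≤ (9 : Fin 10) by decide))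
    · intro i hi
      refine Nat.mul_le_mul_left d ?_
      by_cases h : i ∈ Set.range α
      · obtain ⟨j, rfl⟩ := h
        rcases Fin.eq_castSucc_or_eq_last j with ⟨j', rfl⟩ | rfl
        · exact absurd ⟨j', rfl⟩ hi
        · exact le_refl _
      · exact hother i h
    · have e1 : d * m (α 0) + d * m (α 1) + d * m (α 2) = d * (m (α 0) + m (α 1) + m (α 2)) := by
        ring
      have e2 : d * (m (α 0) + m (α 1) + m (α 2)) ≤ d * d := Nat.mul_le_mul_left d hstd
      have e3 : d * d = d ^ 2 := by ring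
      change d * m (α 0) + d * m (α 1) + d * m (α 2) ≤ S
      omega
    · have e1 : ∑ i, (d * m i) ^ 2 = d ^ 2 * S := by
        rw [hS, Finset.mul_sum]
        exact Finset.sum_congr rfl fun i _ => by ring
      rw [e1]
      have e2 : 1 ≤ m (α 9) ^ 2 := Nat.one_le_pow _ _ m9
      set T := m (α 9) ^ 2 with hT
      have e3 : (d * m (α 9)) ^ 2 = d ^ 2 * T := by rw [hT]; ring
      rw [e3]
      obtain ⟨u, hu⟩ := Nat.exists_eq_add_of_le hsq
      rw [hu]
      generalize d ^ 2 = D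
      nlinarith [Nat.zero_le (D * u), Nat.zero_le (T * u), Nat.zero_le (u * u),
        Nat.zero_le (D * T), Nat.zero_le (D * D), Nat.mul_pos e2 e2]
  refine ⟨KK n ℓ, inferInstance, infinite_KK ℓ hn, gp n ℓ, gp_inj n ℓ, ?_⟩
  rw [eq_bot_iff]
  rintro G ⟨hG1, hG2⟩
  rw [Submodule.mem_bot]
  by_contra hG0
  have hdeg : G.totalDegree ≤ d := mem_Pt.1 hG1
  have hmu : ∀ i, m i ≤ mu (gp n ℓ i) G := fun i =>
    (mem_iff_le_mu hG0 (m i)).1 (mem_Iz.1 hG2 i)
  by_cases h2 : 1 ≤ G.totalDegree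
  · have h3 := dotp_pos S (fun i => d * m i) (gp n ℓ) d hpos hG0 hdeg h2
    unfold dotp at h3
    have h4 : (d : ℤ) * S ≤ ∑ i, ((d * m i : ℕ) : ℤ) * (mu (gp n ℓ i) G : ℤ) := by
      have e1 : (d : ℤ) * S = ∑ i, ((d * m i : ℕ) : ℤ) * (m i : ℤ) := by
        rw [hS]
        push_cast
        rw [Finset.mul_sum]
        exact Finset.sum_congr rfl fun i _ => by ring
      rw [e1]
      refine Finset.sum_le_sum fun i _ => ?_
      exact mul_le_mul_of_nonneg_left (by exact_mod_cast hmu i) (by positivity)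
    have h5 : (S : ℤ) * G.totalDegree ≤ S * d :=
      mul_le_mul_of_nonneg_left (by exact_mod_cast hdeg) (by positivity)
    nlinarith [h3, h4, h5]
  · have h3 : G.totalDegree = 0 := by omega
    rw [totalDegree_eq_zero_iff_eq_C] at h3
    have h4 : coeff 0 G ≠ 0 := by
      intro h0
      rw [h0, C_0] at h3
      exact hG0 h3
    have h5 := hmu (α 0)
    rw [h3, mu_C h4] at h5
    omega

end Pool.MP_70e04f_ag.Strip

end

/-! ### from `Lib_MP_70e04f_thin.TEffB` -/

section

/-!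
# Piece TEFFB: curves and maximal minors
-/

set_option autoImplicit false

namespace Pool.MP_70e04f_ag.Strip

open MvPolynomial

/-- No curve at `p` iff some maximal minor does not vanish at `p`.
PROOF. (→) If there is no nonzero `f ∈ Pt k e` in `Iz p a` then the kernel of `condMat (e + 1) a p` is
zero (`toPoly_mem_iff`, `mem_range_toPoly` and the injectivity of `toPoly`), so the rank of the matrix
is the number of the columns (it is `Good` and
`Fintype.card ↥(tri (e + 1)) ≤ Fintype.card (Σ i, ↥(tri (a i)))`); `exists_minor_left`. (←) If the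
minor with the rows `f` is not zero then the kernel is zero, and every `g ∈ Pt k e`, `g ∈ Iz p a` is
`toPoly v` with `(condMat (e + 1) a p).mulVec v = 0`, so `g = 0`. Compare the proof of `EXP.good`
(`Lib_MP_70e04f_strip/SExp.lean`). -/
theorem no_curve_iff {k : Type*} [Field k] {n : ℕ} (e : ℕ) (a : Fin n → ℕ) (p : Fin n → Fin 2 → k) :
    (¬ ∃ f : A2 k, f ≠ 0 ∧ f ∈ Pt k e ∧ f ∈ Iz p a) ↔
      ∃ f : ↥(tri (e + 1)) → (Σ i : Fin n, ↥(tri (a i))),
        ((condMat (e + 1) a p).submatrix f id).det ≠ 0 := by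
  have hsys : ∀ g : A2 k, (g ∈ Pt k e ∧ g ∈ Iz p a) ↔
      ∃ v, (condMat (e + 1) a p).mulVec v = 0 ∧ toPoly k (e + 1) v = g := by
    intro g
    have h1 : g ∈ Pt k e ⊓ sp (Iz p a) ↔ (g ∈ Pt k e ∧ g ∈ Iz p a) := by
      rw [Submodule.mem_inf, mem_sp]
    rw [← h1, SExp_system, system_eq_map, Submodule.mem_map]
    constructor
    · rintro ⟨v, hv, rfl⟩
      exact ⟨v, by simpa using hv, rfl⟩
    · rintro ⟨v, hv, rfl⟩
      exact ⟨v, by simpa using hv, rfl⟩
  constructor
  · intro h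
    have hker : LinearMap.ker (condMat (e + 1) a p).mulVecLin = ⊥ := by
      rw [LinearMap.ker_eq_bot']
      intro v hv
      rw [Matrix.mulVecLin_apply] at hv
      by_contra hv0
      apply h
      refine ⟨toPoly k (e + 1) v, ?_, (hsys _).2 ⟨v, hv, rfl⟩⟩
      intro h0
      apply hv0
      apply toPoly_injective k (e + 1)
      rw [h0, map_zero]
    have hgood : Good (condMat (e + 1) a p) := by
      unfold Good
      rw [hker, finrank_bot]
      exact Nat.zero_le _
    have hcard := LinearMap.finrank_le_finrank_of_injective (LinearMap.ker_eq_bot.1 hker)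
    rw [Module.finrank_fintype_fun_eq_card, Module.finrank_fintype_fun_eq_card] at hcard
    classical
    obtain ⟨f, hf⟩ := exists_minor_left hgood hcard
    refine ⟨f, ?_⟩
    intro h0
    apply hf
    rw [← h0]
  · rintro ⟨f, hf⟩ ⟨g, hg0, hg⟩
    obtain ⟨v, hv, rfl⟩ := (hsys g).1 hg
    apply hg0
    have h1 : ((condMat (e + 1) a p).submatrix f id).mulVec v = 0 := by
      funext i
      exact congrFun hv (f i)
    rw [Matrix.eq_zero_of_mulVec_eq_zero hf h1, map_zero]

end Pool.MP_70e04f_ag.Strip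

end

/-! ### from `Lib_MP_70e04f_thin.TEff` -/

section

/-!
# Piece TEFF: effectivity in characteristic zero and in large characteristic
-/

set_option autoImplicit false

namespace Pool.MP_70e04f_ag.Strip

open MvPolynomial

theorem TEff_gp {n N : ℕ} {a : Fin n → ℕ} {S : Type*} [CommRing S] (p : Fin n → Fin 2 → S)
    (f : ↥(tri N) → (Σ i : Fin n, ↥(tri (a i))))
    (h : ((condMat N a p).submatrix f id).det ≠ 0) : ((Bz n N a).submatrix f id).det ≠ 0 := by
  intro h0
  apply h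
  rw [← minor_map p f, h0, map_zero]

/-- PROOF. If the class is not effective at `gp n ℓ` then (`no_curve_iff`, `minor_map`) a maximal
minor of `Bz` is a nonzero polynomial; it does not vanish at some complex configuration
(`exists_eval_ne`), where the class is not effective. -/
theorem Eff0.effL {n : ℕ} {e : ℕ} {a : Fin n → ℕ} (h : Eff0 e a) (ℓ : ℕ) [Fact ℓ.Prime] :
    EffL n ℓ e a := by
  by_contra hcon
  obtain ⟨f, hf⟩ := (no_curve_iff e a (gp n ℓ)).1 hcon
  obtain ⟨x, hx⟩ := exists_eval_ne (TEff_gp _ f hf)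
  have h1 := minor_map (fun (i : Fin n) (c : Fin 2) => x (i, c)) f
  exact (no_curve_iff e a (fun (i : Fin n) (c : Fin 2) => x (i, c))).2 ⟨f, by
    rw [← h1]
    exact hx⟩ (h _)

/-- PROOF. Trivial if `Eff0 e a`. Otherwise there is a complex configuration where the class is not
effective, so some maximal minor of `Bz` is not the zero polynomial; `eval_gp_ne`. -/
theorem eff_large {n : ℕ} (e : ℕ) (a : Fin n → ℕ) :
    ∃ B : ℕ, ∀ ℓ : ℕ, ∀ [Fact ℓ.Prime], B < ℓ → EffL n ℓ e a → Eff0 e a := by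
  by_cases h : Eff0 e a
  · exact ⟨0, fun ℓ _ _ _ => h⟩
  · unfold Eff0 at h
    push Not at h
    obtain ⟨p, hp⟩ := h
    obtain ⟨f, hf⟩ := (no_curve_iff e a p).1 (by
      rintro ⟨g, h1, h2, h3⟩
      exact hp g h1 h2 h3)
    obtain ⟨B, hB⟩ := eval_gp_ne (TEff_gp _ f hf)
    refine ⟨B, fun ℓ _ hℓ heff => ?_⟩
    have h1 := hB ℓ hℓ
    rw [minor_map (gp n ℓ) f] at h1
    exact absurd heff ((no_curve_iff e a (gp n ℓ)).2 ⟨f, h1⟩)

/-- PROOF. `eff_large` for the finitely many classes (`choose`, and the maximum of the bounds over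
`Finset.range (E + 1) ×ˢ Fintype.piFinset (fun _ => Finset.range (E + 1))`, e.g. the sum of the
bounds). -/
theorem eff_large_all (n E : ℕ) :
    ∃ B : ℕ, ∀ ℓ : ℕ, ∀ [Fact ℓ.Prime], B < ℓ → ∀ (e : ℕ) (a : Fin n → ℕ), e ≤ E →
      (∀ i, a i ≤ E) → EffL n ℓ e a → Eff0 e a := by
  classical
  choose B hB using fun (x : ℕ × (Fin n → ℕ)) => eff_large (n := n) x.1 x.2
  refine ⟨∑ x ∈ Finset.range (E + 1) ×ˢ Fintype.piFinset (fun _ => Finset.range (E + 1)), B x,
    fun ℓ _ hℓ e a he ha h => ?_⟩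
  refine hB (e, a) ℓ (lt_of_le_of_lt ?_ hℓ) h
  refine Finset.single_le_sum (f := B) (fun _ _ => Nat.zero_le _) ?_
  rw [Finset.mem_product, Finset.mem_range, Fintype.mem_piFinset]
  exact ⟨Nat.lt_succ_of_le he, fun i => Finset.mem_range.2 (Nat.lt_succ_of_le (ha i))⟩

end Pool.MP_70e04f_ag.Strip

end

/-! ### from `Lib_MP_70e04f_thin.TFactC` -/

section

/-!
# Piece TFACTC: components with nonpositive intersection
-/

set_option autoImplicit false

namespace Pool.MP_70e04f_ag.Strip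

open MvPolynomial

/-- A class with negative intersection has a component with nonpositive intersection.
PROOF. Let `D * e' ≤ ∑ M i * a' i`, `G ≠ 0` in `Pt k e'` and `Iz p a'`, `a' i0 ≥ 1`. `dotp D M p G ≤ 0` (the
degree of `G` is `≤ e'` and `mu (p i) G ≥ a' i` by `mem_iff_le_mu`), `deg G ≥ 1` since `G (p i0) = 0`. If all
irreducible `F` of degree `≤ e'` had `1 ≤ dotp` then `1 ≤ dotp D M p G` by `dotp_pos`. -/
theorem exists_component {k : Type*} [Field k] {n : ℕ} (D : ℕ) (M : Fin n → ℕ)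
    (p : Fin n → Fin 2 → k) (e' : ℕ) (a' : Fin n → ℕ) (hNF : D * e' ≤ ∑ i, M i * a' i)
    {G : A2 k} (hG : G ≠ 0) (hGe : G ∈ Pt k e') (hGa : G ∈ Iz p a') (i0 : Fin n)
    (hi0 : 1 ≤ a' i0) :
    ∃ F : A2 k, Irreducible F ∧ F.totalDegree ≤ e' ∧ dotp D M p F ≤ 0 := by
  by_contra hcon
  push Not at hcon
  have hdeg : G.totalDegree ≤ e' := mem_Pt.1 hGe
  have hmu : ∀ i, a' i ≤ mu (p i) G := fun i => (mem_iff_le_mu hG (a' i)).1 (mem_Iz.1 hGa i)
  have h1 : 1 ≤ G.totalDegree := by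
    have h2 := hmu i0
    have h3 := mu_le_deg (q := p i0) hG
    omega
  have h2 := dotp_pos D M p e' (fun F hF hd => by have := hcon F hF hd; omega) hG hdeg h1
  unfold dotp at h2
  have h3 : (D : ℤ) * G.totalDegree ≤ D * e' :=
    mul_le_mul_of_nonneg_left (by exact_mod_cast hdeg) (by positivity)
  have h4 : ((D : ℤ) * e') ≤ ∑ i, (M i : ℤ) * a' i := by exact_mod_cast hNF
  have h5 : ∑ i, (M i : ℤ) * a' i ≤ ∑ i, (M i : ℤ) * mu (p i) G :=
    Finset.sum_le_sum fun i _ =>
      mul_le_mul_of_nonneg_left (by exact_mod_cast hmu i) (by positivity)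
  linarith

end Pool.MP_70e04f_ag.Strip

end

/-! ### from `Lib_MP_70e04f_thin.TNumF` -/

section

/-!
# Piece TNUMF: numerical positivity if the small multiplicities are at most one
-/

set_option autoImplicit false

namespace Pool.MP_70e04f_ag.Strip

/-- All small multiplicities of `F` are at most `1`. PROOF. This is part (2) of the proof of `num` in
`Lib_MP_70e04f_strip/SNum.lean` (which does not use `X` in the hypothesis on the squares). -/
theorem num_one {n : ℕ} (e D X : ℕ) (a M : Fin n → ℕ) (α : Fin 9 → Fin n)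
    (hα : Function.Injective α) (he : 1 ≤ e) (hae : ∀ i, a i ≤ e)
    (hxu : ∀ j, 1 ≤ a j → ∑ i, a i ^ 2 ≤ e ^ 2 + a j)
    (hnine : ∑ s, a (α s) + 1 ≤ 3 * e)
    (hts : ∀ i j, i ≠ j → a i = 1 → a j = 1 → ∑ s, a s ^ 2 = e ^ 2 + 1 → ∑ s, a s + 1 ≤ 3 * e)
    (hanti : Antitone (fun s => M (α s))) (hX : 1 ≤ X) (hX8 : X ≤ M (α 8))
    (hother : ∀ i, i ∉ Set.range α → M i ≤ X) (hstd : M (α 0) + M (α 1) + M (α 2) ≤ D)
    (hsq : ∑ i, M i ^ 2 < D ^ 2) (h1 : ∀ i, i ∉ Set.range α → a i ≤ 1) :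
    ∑ i, M i * a i < D * e := by
  have he2 : 0 < e ^ 2 := by positivity
  have hcase : ∀ i, i ∉ Set.range α → a i < 2 := fun i hi => by have := h1 i hi; omega
  set O := (Finset.univ.map ⟨α, hα⟩)ᶜ with hO
  have memO : ∀ i, i ∈ O → i ∉ Set.range α := by
    rintro i hi ⟨s, hs⟩
    rw [hO, Finset.mem_compl] at hi
    exact hi (Finset.mem_map.2 ⟨s, Finset.mem_univ s, hs⟩)
  have ha1 : ∀ i ∈ O, a i ≤ 1 := fun i hi => by
    have := hcase i (memO i hi)
    omega
  have hsa := SNum_split α hα a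
  have hsM := SNum_split α hα (fun i => M i * a i)
  rw [← hO] at hsa hsM
  have hOM : ∑ i ∈ O, M i * a i ≤ X * ∑ i ∈ O, a i := by
    rw [Finset.mul_sum]
    exact Finset.sum_le_sum fun i hi => Nat.mul_le_mul (hother i (memO i hi)) le_rfl
  have hab := abel_nine (e : ℤ) (D : ℤ) (fun s => (a (α s) : ℤ)) (fun s => (M (α s) : ℤ))
    (fun s => Int.natCast_nonneg _) (fun s => by exact_mod_cast hae (α s))
    (by have : ∑ s, a (α s) ≤ 3 * e := by omega
        exact_mod_cast this)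
    (fun s t hst => Int.ofNat_le.2 (hanti hst)) (by exact_mod_cast hstd)
  obtain ⟨T, hT⟩ : ∃ T, T = ∑ s, a (α s) := ⟨_, rfl⟩
  obtain ⟨S, hS⟩ : ∃ S, S = ∑ i ∈ O, a i := ⟨_, rfl⟩
  obtain ⟨P, hP⟩ : ∃ P, P = ∑ s, M (α s) * a (α s) := ⟨_, rfl⟩
  obtain ⟨Q, hQ⟩ : ∃ Q, Q = ∑ i ∈ O, M i * a i := ⟨_, rfl⟩
  have hab' : (P : ℤ) + (M (α 8) : ℤ) * (3 * e - T) ≤ D * e := by
    rw [hP, hT]
    push_cast
    exact hab
  rw [hsM, ← hP, ← hQ]
  rw [← hQ, ← hS] at hOM
  rw [← hT, ← hS] at hsa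
  rw [← hT] at hnine
  have hsum_eq := hsM
  have key : ∀ w : ℕ, (w : ℤ) ≤ 3 * e - T → X * S < M (α 8) * w → P + Q < D * e := by
    intro w hw hlt
    have h1 : (M (α 8) : ℤ) * w ≤ (M (α 8) : ℤ) * (3 * e - T) :=
      mul_le_mul_of_nonneg_left hw (Int.natCast_nonneg _)
    have h2 : ((X * S : ℕ) : ℤ) < ((M (α 8) * w : ℕ) : ℤ) := by exact_mod_cast hlt
    have h3 : (Q : ℤ) ≤ ((X * S : ℕ) : ℤ) := by exact_mod_cast hOM
    push_cast at h2 h3
    have h4 : (P : ℤ) + Q < D * e := by linarith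
    exact_mod_cast h4
  by_cases hS0 : S = 0
  · refine key 1 (by push_cast; omega) ?_
    rw [hS0]
    omega
  · -- an index outside with value one
    obtain ⟨j, hj, hj0⟩ : ∃ j ∈ O, a j ≠ 0 := by
      by_contra hno
      push Not at hno
      exact hS0 (hS.trans (Finset.sum_eq_zero hno))
    have hj1 : a j = 1 := by have := ha1 j hj; omega
    have h1 := hxu j (by omega)
    rw [hj1] at h1
    by_cases hle : ∑ i, a i ^ 2 ≤ e ^ 2
    · have h5 := SNum_cauchy M a 0 0
      have h7 : (∑ i, M i * a i) ^ 2 < (D * e) ^ 2 := by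
        calc (∑ i, M i * a i) ^ 2 ≤ (∑ i, M i ^ 2) * (∑ i, a i ^ 2) := by
              simpa using h5
          _ ≤ (∑ i, M i ^ 2) * e ^ 2 := Nat.mul_le_mul le_rfl hle
          _ < D ^ 2 * e ^ 2 := Nat.mul_lt_mul_of_pos_right (by omega) he2
          _ = (D * e) ^ 2 := (mul_pow D e 2).symm
      have h8 := lt_of_pow_lt_pow_left₀ 2 (Nat.zero_le _) h7
      rw [hsM, ← hP, ← hQ] at h8
      exact h8
    · have heq : ∑ i, a i ^ 2 = e ^ 2 + 1 := by omega
      by_cases hS2 : 2 ≤ S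
      · obtain ⟨i, hi, hij, hi0⟩ : ∃ i ∈ O, i ≠ j ∧ a i ≠ 0 := by
          by_contra hno
          push Not at hno
          have : S = a j := by
            rw [hS]
            refine Finset.sum_eq_single j (fun i hi hij => hno i hi hij) (fun h => absurd hj h)
          omega
        have hi1 : a i = 1 := by have := ha1 i hi; omega
        have h9 := hts i j hij hi1 hj1 heq
        rw [hsa] at h9
        refine key (S + 1) (by push_cast; omega) ?_
        have : X * S < X * (S + 1) := by nlinarith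
        exact lt_of_lt_of_le this (Nat.mul_le_mul hX8 le_rfl)
      · have hS1 : S = 1 := by omega
        have hpar := SNum_parity a
        rw [heq, hsa, hS1] at hpar
        have hpe : (e ^ 2 + 1) % 2 = (e + 1) % 2 := by
          rcases Nat.mod_two_eq_zero_or_one e with h | h
          · rw [Nat.add_mod, Nat.pow_mod, h, Nat.add_mod e, h]
          · rw [Nat.add_mod, Nat.pow_mod, h, Nat.add_mod e, h]
        rw [hpe] at hpar
        refine key 2 (by push_cast; omega) ?_
        rw [hS1]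
        nlinarith

end Pool.MP_70e04f_ag.Strip

end

/-! ### from `Lib_MP_70e04f_thin.TNumG` -/

section

/-!
# Piece TNUMG: the sum of three multiplicities
-/

set_option autoImplicit false

namespace Pool.MP_70e04f_ag.Strip

theorem TNumG_ind {n : ℕ} {ι : Fin 3 → Fin n} (hι : Function.Injective ι) (x : Fin n) (c : ℕ) :
    ∑ j, (if ι j = x then c else 0) ≤ c := by
  by_cases h : ∃ j, ι j = x
  · obtain ⟨j, rfl⟩ := h
    rw [Finset.sum_eq_single j]
    · simp
    · intro b _ hb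
      rw [if_neg (fun h => hb (hι h))]
    · intro h
      exact absurd (Finset.mem_univ j) h
  · push Not at h
    rw [Finset.sum_eq_zero]
    · exact Nat.zero_le _
    · intro j _
      rw [if_neg (h j)]

/-- three points have at most the sum of the three largest multiplicities.
PROOF. `M (ι j)` is at most `M (α 0)`, ...; let `V` be the image of `ι`, three indices. Every `i` outside
of `range α` has `M i ≤ X ≤ M (α 8)`. (E.g. compare with the sorted sequence, or: the `j`-th largest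
of the three is at most `M (α j)` by counting.) -/
theorem three_le {n : ℕ} (D X : ℕ) (M : Fin n → ℕ) (α : Fin 9 → Fin n)
    (hα : Function.Injective α) (hanti : Antitone (fun s => M (α s))) (hX8 : X ≤ M (α 8))
    (hother : ∀ i, i ∉ Set.range α → M i ≤ X) (hstd : M (α 0) + M (α 1) + M (α 2) ≤ D)
    (ι : Fin 3 → Fin n) (hι : Function.Injective ι) : ∑ j, M (ι j) ≤ D := by
  have _ := hα
  have h01 : M (α 1) ≤ M (α 0) := hanti (show (0 : Fin 9) ≤ 1 by decide)
  have h12 : M (α 2) ≤ M (α 1) := hanti (show (1 : Fin 9) ≤ 2 by decide)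
  have h28 : M (α 8) ≤ M (α 2) := hanti (show (2 : Fin 9) ≤ 8 by decide)
  have h1 : ∀ j, M (ι j) ≤ M (α 2) + (if ι j = α 0 then M (α 0) - M (α 2) else 0) +
      (if ι j = α 1 then M (α 1) - M (α 2) else 0) := by
    intro j
    by_cases h0 : ι j = α 0
    · rw [if_pos h0, h0]
      omega
    by_cases h1 : ι j = α 1
    · rw [if_neg h0, if_pos h1, h1]
      omega
    rw [if_neg h0, if_neg h1]
    by_cases h : ι j ∈ Set.range α
    · obtain ⟨s, hs⟩ := h
      rw [← hs] at h0 h1 ⊢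
      have : (2 : Fin 9) ≤ s := by
        by_contra hc
        have hc' : s < 2 := not_le.1 hc
        have h3 : s = 0 ∨ s = 1 := (show ∀ s : Fin 9, s < 2 → s = 0 ∨ s = 1 by decide) s hc'
        rcases h3 with rfl | rfl
        · exact h0 rfl
        · exact h1 rfl
      have := hanti this
      simp only at this
      omega
    · have := hother _ h
      omega
  have h2 := Finset.sum_le_sum (fun j (_ : j ∈ (Finset.univ : Finset (Fin 3))) => h1 j)
  rw [Finset.sum_add_distrib, Finset.sum_add_distrib] at h2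
  have h3 := TNumG_ind hι (α 0) (M (α 0) - M (α 2))
  have h4 := TNumG_ind hι (α 1) (M (α 1) - M (α 2))
  have h5 : ∑ _j : Fin 3, M (α 2) = 3 * M (α 2) := by
    rw [Finset.sum_const]
    simp
  omega

end Pool.MP_70e04f_ag.Strip

end

/-! ### from `Lib_MP_70e04f_thin.TFactB` -/

section

/-!
# Piece TFACTB: two multiplicities of a curve
-/

set_option autoImplicit false

namespace Pool.MP_70e04f_ag.Strip

open MvPolynomial

theorem TFactB_line {k : Type*} [Field k] (q : Fin 2 → Fin 2 → k) :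
    ∃ G : A2 k, G ≠ 0 ∧ G.totalDegree ≤ 1 ∧ ∀ s, G ∈ mp (q s) := by
  have h10 : Module.finrank k ↥(Pt k 1) = 3 := by
    have := two_finrank_Pt (k := k) 1
    omega
  let f : ↥(Pt k 1) →ₗ[k] (Fin 2 → k) :=
    (LinearMap.pi fun s => (MvPolynomial.aeval (q s)).toLinearMap).comp (Pt k 1).subtype
  have hlt : Module.finrank k (Fin 2 → k) < Module.finrank k ↥(Pt k 1) := by
    rw [h10, Module.finrank_fin_fun]
    norm_num
  have hker := LinearMap.ker_ne_bot_of_finrank_lt (f := f) hlt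
  obtain ⟨Γ, hΓ, hne⟩ := Submodule.exists_mem_ne_zero_of_ne_bot hker
  refine ⟨Γ.1, fun h => hne (Subtype.ext h), mem_Pt.1 Γ.2, fun s => ?_⟩
  have h1 := congrFun (LinearMap.mem_ker.1 hΓ) s
  rw [mem_mp]
  exact h1

/-- Two multiplicities.
PROOF. `Pt k 1` has dimension `3` (`two_finrank_Pt`), so there is `G ≠ 0`, `deg G ≤ 1`, vanishing at `p i` and
`p j`. `F` does not divide `G` (degrees), so by `mulbez` with `β = 1` at `i` and `j`, `0` elsewhere,
`mu (p i) F + mu (p j) F ≤ deg F * deg G ≤ deg F`. -/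
theorem pair_le {k : Type*} [Field k] {n : ℕ} {p : Fin n → Fin 2 → k}
    (hp : Function.Injective p) {F : A2 k} (hF : Irreducible F) (h2 : 2 ≤ F.totalDegree)
    {i j : Fin n} (hij : i ≠ j) : mu (p i) F + mu (p j) F ≤ F.totalDegree := by
  classical
  obtain ⟨G, hG, hGd, hGm⟩ := TFactB_line (k := k) ![p i, p j]
  have hGi : G ∈ mp (p i) := hGm 0
  have hGj : G ∈ mp (p j) := hGm 1
  have hdvd : ¬ F ∣ G := by
    rintro ⟨h, hh⟩
    have hh0 : h ≠ 0 := by
      rintro rfl
      rw [mul_zero] at hh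
      exact hG hh
    have := totalDegree_mul_of_isDomain hF.ne_zero hh0
    rw [← hh] at this
    omega
  have h := mulbez hp hF hdvd (fun s => if s = i ∨ s = j then 1 else 0)
    (Ideal.mem_sup_left (mem_Iz.2 fun s => by
      by_cases hs : s = i ∨ s = j
      · rw [if_pos hs, pow_one]
        rcases hs with rfl | rfl
        · exact hGi
        · exact hGj
      · rw [if_neg hs, pow_zero, Ideal.one_eq_top]
        exact Submodule.mem_top (R := A2 k)))
  have h1 : ∑ s, mu (p s) F * (if s = i ∨ s = j then 1 else 0) = mu (p i) F + mu (p j) F := by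
    rw [← Finset.sum_pair (f := fun s => mu (p s) F) hij]
    symm
    rw [← Finset.sum_subset (Finset.subset_univ {i, j})]
    · refine Finset.sum_congr rfl fun s hs => ?_
      rw [Finset.mem_insert, Finset.mem_singleton] at hs
      rw [if_pos hs, mul_one]
    · intro s _ hs
      rw [Finset.mem_insert, Finset.mem_singleton] at hs
      rw [if_neg hs, mul_zero]
  rw [h1] at h
  calc _ ≤ F.totalDegree * G.totalDegree := h
    _ ≤ F.totalDegree * 1 := Nat.mul_le_mul_left _ hGd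
    _ = _ := mul_one _

end Pool.MP_70e04f_ag.Strip

end

/-! ### from `Lib_MP_70e04f_thin.TIndB` -/

section

/-!
# Piece TINDB: emptiness from positivity
-/

set_option autoImplicit false

namespace Pool.MP_70e04f_ag.Strip

open MvPolynomial

/-- PROOF. As `empty_gen` (`Lib_MP_70e04f_strip/SIndA.lean`), with `hpos` instead of `pos`. (`d = 0` is
trivial: a nonzero constant is not in `Iz p m`.) -/
theorem empty_of_pos {n : ℕ} (hn : 0 < n) (d : ℕ) (m : Fin n → ℕ) (h1 : ∀ i, 1 ≤ m i)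
    (hpos : ∃ B : ℕ, ∀ ℓ : ℕ, ∀ [Fact ℓ.Prime], B < ℓ → ∀ F : A2 (KK n ℓ),
      Irreducible F → F.totalDegree ≤ d →
      1 ≤ dotp (∑ i, m i ^ 2) (fun i => d * m i) (gp n ℓ) F) :
    ∃ (k : Type) (_ : Field k) (_ : Infinite k) (p : Fin n → Fin 2 → k),
      Function.Injective p ∧ Pt k d ⊓ sp (Iz p m) = ⊥ := by
  obtain ⟨B, hB⟩ := hpos
  obtain ⟨ℓ, hℓ, hℓp⟩ := Nat.exists_infinite_primes (B + 1)
  have : Fact ℓ.Prime := ⟨hℓp⟩
  set S : ℕ := ∑ i, m i ^ 2 with hS
  refine ⟨KK n ℓ, inferInstance, infinite_KK ℓ hn, gp n ℓ, gp_inj n ℓ, ?_⟩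
  rw [eq_bot_iff]
  rintro G ⟨hG1, hG2⟩
  rw [Submodule.mem_bot]
  by_contra hG0
  have hdeg : G.totalDegree ≤ d := mem_Pt.1 hG1
  have hmu : ∀ i, m i ≤ mu (gp n ℓ i) G := fun i =>
    (mem_iff_le_mu hG0 (m i)).1 (mem_Iz.1 hG2 i)
  by_cases h2 : 1 ≤ G.totalDegree
  · have h3 := dotp_pos S (fun i => d * m i) (gp n ℓ) d (hB ℓ (by omega)) hG0 hdeg h2
    unfold dotp at h3
    have h4 : (d : ℤ) * S ≤ ∑ i, ((d * m i : ℕ) : ℤ) * (mu (gp n ℓ i) G : ℤ) := by
      have e1 : (d : ℤ) * S = ∑ i, ((d * m i : ℕ) : ℤ) * (m i : ℤ) := by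
        rw [hS]
        push_cast
        rw [Finset.mul_sum]
        exact Finset.sum_congr rfl fun i _ => by ring
      rw [e1]
      refine Finset.sum_le_sum fun i _ => ?_
      exact mul_le_mul_of_nonneg_left (by exact_mod_cast hmu i) (by positivity)
    have h5 : (S : ℤ) * G.totalDegree ≤ S * d :=
      mul_le_mul_of_nonneg_left (by exact_mod_cast hdeg) (by positivity)
    nlinarith [h3, h4, h5]
  · have h3 : G.totalDegree = 0 := by omega
    rw [totalDegree_eq_zero_iff_eq_C] at h3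
    have h4 : coeff 0 G ≠ 0 := by
      intro h0
      rw [h0, C_0] at h3
      exact hG0 h3
    have h5 := hmu ⟨0, hn⟩
    rw [h3, mu_C h4] at h5
    have := h1 ⟨0, hn⟩
    omega

end Pool.MP_70e04f_ag.Strip

end

/-! ### from `Lib_MP_70e04f_gon.GDerA` -/

section

/-!
# Piece GDERA: extension of a derivation to the fraction field
-/

set_option autoImplicit false

namespace Pool.MP_70e04f_ag.Strip

theorem GDerA_fst {K : Type*} [Field K] (a b : K) :
    ((TrivSqZeroExt.inl a + TrivSqZeroExt.inr b : TrivSqZeroExt K K)).fst = a := by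
  rw [TrivSqZeroExt.fst_add, TrivSqZeroExt.fst_inl, TrivSqZeroExt.fst_inr, add_zero]

theorem GDerA_snd {K : Type*} [Field K] (a b : K) :
    ((TrivSqZeroExt.inl a + TrivSqZeroExt.inr b : TrivSqZeroExt K K)).snd = b := by
  rw [TrivSqZeroExt.snd_add, TrivSqZeroExt.snd_inl, TrivSqZeroExt.snd_inr, zero_add]

/-- the ring homomorphism into the dual numbers attached to a derivation -/
noncomputable def GDerA_hom {R K : Type*} [CommRing R] [Field K] [Algebra R K]
    (δ : Derivation ℤ R R) : R →+* TrivSqZeroExt K K where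
  toFun r := TrivSqZeroExt.inl (algebraMap R K r) + TrivSqZeroExt.inr (algebraMap R K (δ r))
  map_one' := by
    apply TrivSqZeroExt.ext
    · rw [GDerA_fst, map_one, TrivSqZeroExt.fst_one]
    · rw [GDerA_snd, Derivation.map_one_eq_zero, map_zero, TrivSqZeroExt.snd_one]
  map_zero' := by
    apply TrivSqZeroExt.ext
    · rw [GDerA_fst, map_zero, TrivSqZeroExt.fst_zero]
    · rw [GDerA_snd, map_zero, map_zero, TrivSqZeroExt.snd_zero]
  map_add' a b := by
    apply TrivSqZeroExt.ext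
    · rw [GDerA_fst, TrivSqZeroExt.fst_add, GDerA_fst, GDerA_fst, map_add]
    · rw [GDerA_snd, TrivSqZeroExt.snd_add, GDerA_snd, GDerA_snd, map_add, map_add]
  map_mul' a b := by
    apply TrivSqZeroExt.ext
    · rw [GDerA_fst, TrivSqZeroExt.fst_mul, GDerA_fst, GDerA_fst, map_mul]
    · rw [GDerA_snd, TrivSqZeroExt.snd_mul, GDerA_fst, GDerA_fst, GDerA_snd, GDerA_snd,
        Derivation.leibniz, map_add, smul_eq_mul, smul_eq_mul, map_mul, map_mul, smul_eq_mul,
        op_smul_eq_mul]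
      ring

/-- PROOF. Let `φ = algebraMap R K`. The map `r ↦ (φ r, φ (δ r))` is a ring homomorphism from `R` to
`TrivSqZeroExt K K` which sends nonzero `r` to units; it extends to `Φ : K →+* TrivSqZeroExt K K`
(`IsLocalization.lift`), `(Φ x).fst = x` (both are extensions of `φ`: `IsLocalization.ringHom_ext`), and
`d x = (Φ x).snd` is a derivation which extends `δ`. -/
theorem exists_der_frac {R K : Type*} [CommRing R] [IsDomain R] [Field K] [Algebra R K]
    [IsFractionRing R K] (δ : Derivation ℤ R R) :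
    ∃ d : Derivation ℤ K K, ∀ r, d (algebraMap R K r) = algebraMap R K (δ r) := by
  have hg : ∀ y : nonZeroDivisors R, IsUnit (GDerA_hom (K := K) δ y) := by
    intro y
    rw [TrivSqZeroExt.isUnit_iff_isUnit_fst]
    have h : (GDerA_hom (K := K) δ (y : R)).fst = algebraMap R K (y : R) := GDerA_fst _ _
    rw [h]
    exact IsLocalization.map_units K y
  let Φ : K →+* TrivSqZeroExt K K := IsLocalization.lift hg
  have hΦ : ∀ r, Φ (algebraMap R K r) = GDerA_hom δ r := fun r => IsLocalization.lift_eq hg r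
  have hfst : ∀ x, (Φ x).fst = x := by
    have h : ((TrivSqZeroExt.fstHom ℤ K K).toRingHom.comp Φ) = RingHom.id K := by
      apply IsLocalization.ringHom_ext (nonZeroDivisors R)
      refine RingHom.ext (fun r => ?_)
      change (Φ (algebraMap R K r)).fst = algebraMap R K r
      rw [hΦ]
      exact GDerA_fst _ _
    intro x
    exact RingHom.congr_fun h x
  refine ⟨Derivation.mk' ({ toFun := fun x => (Φ x).snd
                            map_zero' := by simp
                            map_add' := fun x y => by simp } : K →+ K).toIntLinearMap ?_, ?_⟩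
  · intro a b
    simp [hfst, mul_comm]
  · intro r
    change (Φ (algebraMap R K r)).snd = _
    rw [hΦ]
    exact GDerA_snd _ _

end Pool.MP_70e04f_ag.Strip

end

/-! ### from `Lib_MP_70e04f_gon.GGon` -/

section

/-!
# Piece GGON: two independent sections of a class of degree at most one
-/

set_option autoImplicit false

namespace Pool.MP_70e04f_ag.Strip

open MvPolynomial

/-- PROOF. As `sec_pow_ge` (`Lib_MP_70e04f_strip/SGon.lean`), with `monomials_indep2` instead of
`monomials_indep`. -/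
theorem sec_pow_ge2 {k : Type} [Field k] {n : ℕ} {p : Fin n → Fin 2 → k} {F : A2 k}
    (hG : GIrr F) (t : ℕ) (β : Fin n → ℕ) {u w : A2 k} (hu : u ∈ Pt k t) (hw : w ∈ Pt k t)
    (huβ : u ∈ Iz p β) (hwβ : w ∈ Iz p β)
    (h : ∀ α γ : k, F ∣ C α * u + C γ * w → α = 0 ∧ γ = 0) (κ : ℕ) :
    κ + 1 ≤ sec (κ * t) (Iz p (fun i => κ * β i) ⊔ pr F) F := by
  have hmem : ∀ j : Fin (κ + 1), u ^ (j : ℕ) * w ^ (κ - (j : ℕ)) ∈
      Pt k (κ * t) ⊓ sp (Iz p (fun i => κ * β i) ⊔ pr F) := by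
    intro j
    have hj : (j : ℕ) + (κ - (j : ℕ)) = κ := by have := j.2; omega
    refine ⟨?_, ?_⟩
    · have h3 := mul_mem_Pt (SGon_pow_Pt hu (j : ℕ)) (SGon_pow_Pt hw (κ - (j : ℕ)))
      rwa [← add_mul, hj] at h3
    · refine Ideal.mem_sup_left ?_
      have h3 := Iz_mul_mem (SGon_pow_Iz huβ (j : ℕ)) (SGon_pow_Iz hwβ (κ - (j : ℕ)))
      have he : (fun i => (j : ℕ) * β i + (κ - (j : ℕ)) * β i) = fun i => κ * β i := by
        funext i; rw [← add_mul, hj]
      rwa [he] at h3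
  unfold sec
  have hfin : Module.Finite k ↥(Pt k (κ * t) ⊓ sp (Iz p (fun i => κ * β i) ⊔ pr F)) :=
    Submodule.finiteDimensional_inf_left _ _
  let v : Fin (κ + 1) →
      ↥((Pt k (κ * t) ⊓ sp (Iz p (fun i => κ * β i) ⊔ pr F)).map (sp (pr F)).mkQ) := fun j =>
    ⟨(sp (pr F)).mkQ (u ^ (j : ℕ) * w ^ (κ - (j : ℕ))), Submodule.mem_map_of_mem (hmem j)⟩
  have hv : LinearIndependent k v := by
    rw [Fintype.linearIndependent_iff]
    intro g hg j
    set c : ℕ → k := fun a => if h' : a < κ + 1 then g ⟨a, h'⟩ else 0 with hc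
    have hcj : ∀ i : Fin (κ + 1), c (i : ℕ) = g i := by
      intro i
      show (if h' : (i : ℕ) < κ + 1 then g ⟨i, h'⟩ else 0) = g i
      rw [dif_pos i.2]
    have h3 := congrArg Subtype.val hg
    rw [Submodule.coe_sum] at h3
    have h4 : (sp (pr F)).mkQ (∑ i : Fin (κ + 1), C (g i) * (u ^ (i : ℕ) * w ^ (κ - (i : ℕ))))
        = 0 := by
      have h4' : (sp (pr F)).mkQ (∑ i : Fin (κ + 1), C (g i) * (u ^ (i : ℕ) * w ^ (κ - (i : ℕ))))
          = ∑ i, ((g i • v i : ↥((Pt k (κ * t) ⊓ sp (Iz p (fun i => κ * β i) ⊔ pr F)).map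
            (sp (pr F)).mkQ)) : A2 k ⧸ sp (pr F)) := by
        rw [map_sum]
        refine Finset.sum_congr rfl fun i _ => ?_
        rw [← smul_eq_C_mul, map_smul]
        rfl
      rw [h4', h3]
      rfl
    have h5 : F ∣ ∑ a ∈ Finset.range (κ + 1), C (c a) * (u ^ a * w ^ (κ - a)) := by
      rw [Finset.sum_range]
      simp_rw [hcj]
      rw [Submodule.mkQ_apply, Submodule.Quotient.mk_eq_zero] at h4
      exact mem_pr.1 h4
    rw [← hcj j]
    exact monomials_indep2 hG h κ c h5 _ (Finset.mem_range.2 j.2)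
  have h6 := hv.fintype_card_le_finrank
  rwa [Fintype.card_fin] at h6

/-- PROOF. `sec_pow_ge2` and `sec_le` for `(κ t; κ β)`: `κ + 1 ≤ max 0 (κ * 0 + deg F) = deg F` for all
`κ`. -/
theorem gon_zero {k : Type} [Field k] [Infinite k] {n : ℕ} {p : Fin n → Fin 2 → k}
    (hp : Function.Injective p) {F : A2 k} (hF : Irreducible F) (hG : GIrr F) (t : ℕ)
    (β : Fin n → ℕ) (hδ : dotp t β p F = 0) {u w : A2 k} (hu : u ∈ Pt k t) (hw : w ∈ Pt k t)
    (huβ : u ∈ Iz p β) (hwβ : w ∈ Iz p β)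
    (h : ∀ α γ : k, F ∣ C α * u + C γ * w → α = 0 ∧ γ = 0) : False := by
  have hsec := sec_pow_ge2 hG t β hu hw huβ hwβ h F.totalDegree
  have hle := sec_le hp hF (fun i => F.totalDegree * β i) (F.totalDegree * t)
  have hdot : ((F.totalDegree * t : ℕ) : ℤ) * F.totalDegree -
      ∑ i, (mu (p i) F : ℤ) * ((F.totalDegree * β i : ℕ) : ℤ) = 0 := by
    have h3 : ((F.totalDegree * t : ℕ) : ℤ) * F.totalDegree -
        ∑ i, (mu (p i) F : ℤ) * ((F.totalDegree * β i : ℕ) : ℤ)
        = F.totalDegree * dotp t β p F := by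
      unfold dotp
      rw [mul_sub, Finset.mul_sum]
      congr 1
      · push_cast; ring
      · refine Finset.sum_congr rfl fun i _ => ?_
        push_cast; ring
    rw [h3, hδ, mul_zero]
  rw [hdot, zero_add, max_eq_right (Int.natCast_nonneg _)] at hle
  have hsec' : ((F.totalDegree : ℤ) + 1) ≤
      (sec (F.totalDegree * t) (Iz p (fun i => F.totalDegree * β i) ⊔ pr F) F : ℤ) := by
    exact_mod_cast hsec
  omega

/-- PROOF. As `gon` (`Lib_MP_70e04f_strip/SGon.lean`), with `sec_pow_ge2`. -/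
theorem gon_one {k : Type} [Field k] [Infinite k] {n : ℕ} {p : Fin n → Fin 2 → k}
    (hp : Function.Injective p) {F : A2 k} (hF : Irreducible F) (hG : GIrr F) (t : ℕ)
    (β : Fin n → ℕ) (hβ : ∀ i, mu (p i) F ≤ β i + 1) (hδ : dotp t β p F = 1) {u w : A2 k}
    (hu : u ∈ Pt k t) (hw : w ∈ Pt k t) (huβ : u ∈ Iz p β) (hwβ : w ∈ Iz p β)
    (h : ∀ α γ : k, F ∣ C α * u + C γ * w → α = 0 ∧ γ = 0) :
    (F.totalDegree : ℤ) * (F.totalDegree - 3) <
      ∑ i, (mu (p i) F : ℤ) * ((mu (p i) F : ℤ) - 1) := by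
  obtain ⟨J, hJ⟩ := curve_van n t F.totalDegree 0 β
  have ht1 : 1 ≤ t := by
    by_contra ht
    have ht0 : t = 0 := by omega
    unfold dotp at hδ
    rw [ht0, Nat.cast_zero, zero_mul] at hδ
    have : 0 ≤ ∑ i, (β i : ℤ) * mu (p i) F := Finset.sum_nonneg fun i _ => by positivity
    omega
  obtain ⟨κ, hκ⟩ : ∃ κ, κ = max J (F.totalDegree + 1) := ⟨_, rfl⟩
  have hκJ : J ≤ κ := hκ ▸ le_max_left _ _
  have hκe : F.totalDegree + 1 ≤ κ := hκ ▸ le_max_right _ _
  have hind : Ind (κ * t) (Iz p (fun i => κ * β i) ⊔ pr F) :=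
    hJ k p hp F hF le_rfl (fun i hi => by have := hβ i; omega) (by rw [hδ]) κ (κ * t)
      (fun i => κ * β i) hκJ le_rfl le_rfl (fun _ => le_rfl) (fun _ => le_rfl)
  have hfin : FinC (Iz p (fun i => κ * β i) ⊔ pr F) := (finC_Iz hp _).mono le_sup_left
  have hcod : cod (κ * t) (Iz p (fun i => κ * β i) ⊔ pr F) = 0 := (hfin.cod_eq_zero _).2 hind
  have hdeg : F.totalDegree ≤ κ * t := by
    calc F.totalDegree ≤ κ * 1 := by omega
      _ ≤ κ * t := Nat.mul_le_mul_left _ ht1
  have hβ' : ∀ i, mu (p i) F ≤ κ * β i + 1 := by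
    intro i
    rcases Nat.eq_zero_or_pos (β i) with h0 | h0
    · have := hβ i
      rw [h0] at this ⊢
      simpa using this
    · have h3 : mu (p i) F ≤ F.totalDegree := mu_le_deg hF.ne_zero
      have h4 : κ * 1 ≤ κ * β i := Nat.mul_le_mul_left _ h0
      omega
  have hrr := rr hp hF.ne_zero (fun i => κ * β i) hβ' hdeg
  rw [hcod] at hrr
  have hsec := sec_pow_ge2 hG t β hu hw huβ hwβ h κ
  have hdot : ((κ * t : ℕ) : ℤ) * F.totalDegree - ∑ i, (mu (p i) F : ℤ) * ((κ * β i : ℕ) : ℤ)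
      = κ := by
    have h3 : ((κ * t : ℕ) : ℤ) * F.totalDegree - ∑ i, (mu (p i) F : ℤ) * ((κ * β i : ℕ) : ℤ)
        = κ * dotp t β p F := by
      unfold dotp
      rw [mul_sub, Finset.mul_sum]
      congr 1
      · push_cast; ring
      · refine Finset.sum_congr rfl fun i _ => ?_
        push_cast; ring
    rw [h3, hδ, mul_one]
  rw [hdot] at hrr
  have hsec' : ((κ : ℤ) + 1) ≤ (sec (κ * t) (Iz p (fun i => κ * β i) ⊔ pr F) F : ℤ) := by
    exact_mod_cast hsec
  push_cast at hrr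
  linarith

end Pool.MP_70e04f_ag.Strip

end

/-! ### from `Lib_MP_70e04f_gon.GMap` -/

section

/-!
# Piece GMAP: extension of the base field
-/

set_option autoImplicit false

namespace Pool.MP_70e04f_ag.Strip

open MvPolynomial

private theorem GMap_shift_C {R : Type*} [CommRing R] (q : Fin 2 → R) (r : R) :
    shift q (C r) = C r := by
  unfold shift
  rw [aeval_C]
  rfl

private theorem GMap_map_shift {R S : Type*} [CommRing R] [CommRing S] (φ : R →+* S) (q : Fin 2 → R)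
    (f : MvPolynomial (Fin 2) R) :
    map φ (shift q f) = shift (fun c => φ (q c)) (map φ f) := by
  induction f using MvPolynomial.induction_on with
  | C a => rw [GMap_shift_C, map_C, GMap_shift_C]
  | add p q hp hq => simp only [map_add, hp, hq]
  | mul_X p i hp =>
    rw [map_mul, map_mul, hp, map_mul, map_mul, map_X]
    congr 1
    unfold shift
    rw [aeval_X, aeval_X, map_add, map_X, map_C]

/-- PROOF. `map φ F ∈ mp (φ q) ^ a ↔ F ∈ mp q ^ a` for all `a`, by `mem_mp_pow` (`shift` commutes with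
`map`, see `SDer_map_shift`; `φ` is injective). So the two sets in the definition of `mu` are equal. -/
theorem mu_map {k K : Type*} [Field k] [Field K] (φ : k →+* K) (q : Fin 2 → k) (F : A2 k) :
    mu (fun c => φ (q c)) (map φ F) = mu q F := by
  unfold mu
  congr 1
  ext a
  simp only [Set.mem_ofPred_eq]
  rw [mem_mp_pow, mem_mp_pow, ← GMap_map_shift]
  constructor
  · intro h u v huv
    have h1 := h u v huv
    rw [coeff_map] at h1
    exact (map_eq_zero φ).1 h1
  · intro h u v huv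
    rw [coeff_map, h u v huv, map_zero]

/-- A class which is effective over a larger field is effective.
PROOF. `no_curve_iff` over both fields: the minors over `K` are the images of the minors over `k`
(`condMat_map`, `RingHom.map_det`, `Matrix.submatrix_map`), and `φ` is injective. -/
theorem eff_desc {k K : Type*} [Field k] [Field K] (φ : k →+* K) {n : ℕ} (p : Fin n → Fin 2 → k)
    (e : ℕ) (a : Fin n → ℕ)
    (h : ∃ f : A2 K, f ≠ 0 ∧ f ∈ Pt K e ∧ f ∈ Iz (fun i c => φ (p i c)) a) :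
    ∃ f : A2 k, f ≠ 0 ∧ f ∈ Pt k e ∧ f ∈ Iz p a := by
  by_contra hn
  obtain ⟨f, hf⟩ := (no_curve_iff e a p).1 hn
  have h1 := (no_curve_iff e a (fun i c => φ (p i c))).2
  refine h1 ⟨f, ?_⟩ h
  rw [← condMat_map, Matrix.submatrix_map]
  have h2 := RingHom.map_det φ ((condMat (e + 1) a p).submatrix f id)
  rw [RingHom.mapMatrix_apply] at h2
  rw [← h2]
  intro h3
  exact hf ((map_eq_zero φ).1 h3)

/-- PROOF. Induction on the factorization (compare `dotp_pos` in `Lib_MP_70e04f_strip/SIndA.lean`): if all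
irreducible factors of `H` have `dotp ≥ 1` then `dotp H ≥ 0`, and `≥ 1` if `deg H ≥ 1`. -/
theorem exists_factor {k : Type*} [Field k] {n : ℕ} (D : ℕ) (M : Fin n → ℕ)
    (p : Fin n → Fin 2 → k) {H : A2 k} (hH : H ≠ 0) (h1 : 1 ≤ H.totalDegree)
    (hdot : dotp D M p H ≤ 0) : ∃ G : A2 k, Irreducible G ∧ G ∣ H ∧ dotp D M p G ≤ 0 := by
  by_contra hcon
  push Not at hcon
  have key : ∀ G : A2 k, G ≠ 0 → G ∣ H →
      0 ≤ dotp D M p G ∧ (1 ≤ G.totalDegree → 1 ≤ dotp D M p G) := by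
    intro G
    induction G using WfDvdMonoid.induction_on_irreducible with
    | zero => intro h0; exact absurd rfl h0
    | unit u hu =>
      intro _ _
      obtain ⟨c, hc, rfl⟩ := isUnit_iff_eq_C_of_isReduced.1 hu
      have hc0 : c ≠ 0 := hc.ne_zero
      constructor
      · unfold dotp
        simp only [totalDegree_C, mu_C hc0]
        simp
      · intro h2
        rw [totalDegree_C] at h2
        omega
    | mul a i ha hi iha =>
      intro _ hdvd
      have hi0 : i ≠ 0 := hi.ne_zero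
      have hd : (i * a).totalDegree = i.totalDegree + a.totalDegree :=
        totalDegree_mul_of_isDomain hi0 ha
      have h2 := (iha ha ((dvd_mul_left a i).trans hdvd)).1
      have h3 := hcon i hi ((dvd_mul_right i a).trans hdvd)
      have h4 : dotp D M p (i * a) = dotp D M p i + dotp D M p a := by
        unfold dotp
        rw [hd]
        have h5 : ∀ j, (M j : ℤ) * mu (p j) (i * a)
            = (M j : ℤ) * mu (p j) i + (M j : ℤ) * mu (p j) a := by
          intro j
          rw [mu_mul hi0 ha]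
          push_cast
          ring
        rw [Finset.sum_congr rfl fun j _ => h5 j, Finset.sum_add_distrib]
        push_cast
        ring
      rw [h4]
      exact ⟨by omega, fun _ => by omega⟩
  have h2 := (key H hH dvd_rfl).2 h1
  omega

end Pool.MP_70e04f_ag.Strip

end
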