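import Pool.Agent.Lib_MP_70e04f_m.M05
import Pool.Agent.Lib_MP_70e04f_m.M18

/-!
# MP_70e04f_ag, plane linear systems: merged library part M20

Concatenation of smaller files (each in its own section), only to save build time.
-/

/-! ### from `Lib_MP_70e04f_strip.SGExp` -/

section

/-!
# Piece SGEXP: from one configuration over any field to general complex points
-/

set_option autoImplicit false

namespace Pool.MP_70e04f_ag.Strip

open MvPolynomial

/-- The expected dimension at general complex points. -/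
def GExp {n : ℕ} (d : ℕ) (mm : Fin n → ℕ) : Prop :=
  ∃ g : MvPolynomial (Fin n × Fin 2) ℂ, g ≠ 0 ∧
    ∀ p : Fin n → Fin 2 → ℂ,
      MvPolynomial.eval (fun q : Fin n × Fin 2 => p q.1 q.2) g ≠ 0 →
        ((2 : ℤ) * ((Module.finrank ℂ
            ↥(MvPolynomial.restrictTotalDegree (Fin 2) ℂ d ⊓
              ⨅ i : Fin n, Submodule.restrictScalars ℂ
                ((RingHom.ker (MvPolynomial.eval (p i)) :
                    Ideal (MvPolynomial (Fin 2) ℂ)) ^ mm i)) : ℕ) : ℤ)
          = max 0 (((d : ℤ) + 1) * ((d : ℤ) + 2) -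
              ∑ i, (mm i : ℤ) * ((mm i : ℤ) + 1)))

private theorem SGExp_fin {n : ℕ} (d : ℕ) (m : Fin n → ℕ) (p : Fin n → Fin 2 → ℂ)
    (h1 : Good (condMat (d + 1) m p)) :
    ((2 : ℤ) * ((Module.finrank ℂ
            ↥(MvPolynomial.restrictTotalDegree (Fin 2) ℂ d ⊓
              ⨅ i : Fin n, Submodule.restrictScalars ℂ
                ((RingHom.ker (MvPolynomial.eval (p i)) :
                    Ideal (MvPolynomial (Fin 2) ℂ)) ^ m i)) : ℕ) : ℤ)
          = max 0 (((d : ℤ) + 1) * ((d : ℤ) + 2) - ∑ i, (m i : ℤ) * ((m i : ℤ) + 1))) := by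
  classical
  have h2 := h1.finrank_eq
  have h3 := finrank_system ℂ d m p
  have h4 : Module.finrank ℂ ↥(MvPolynomial.restrictTotalDegree (Fin 2) ℂ d ⊓
              ⨅ i : Fin n, Submodule.restrictScalars ℂ
                ((RingHom.ker (MvPolynomial.eval (p i)) :
                    Ideal (MvPolynomial (Fin 2) ℂ)) ^ m i)) =
      Fintype.card ↥(tri (d + 1)) - Fintype.card (Σ i : Fin n, ↥(tri (m i))) := by
    rw [← h2, ← h3]; rfl
  rw [h4]
  have h5 : ((2 * Fintype.card ↥(tri (d + 1)) : ℕ) : ℤ) = ((d : ℤ) + 1) * ((d : ℤ) + 2) := by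
    rw [Fintype.card_coe, two_card_tri]
    push_cast; ring
  have h6 : ((2 * Fintype.card (Σ i : Fin n, ↥(tri (m i))) : ℕ) : ℤ) =
      ∑ i, (m i : ℤ) * ((m i : ℤ) + 1) := by
    rw [Fintype.card_sigma, Finset.mul_sum]
    push_cast
    refine Finset.sum_congr rfl fun i _ => ?_
    have := two_card_tri (m i)
    rw [Fintype.card_coe]
    exact_mod_cast this
  rw [← h5, ← h6]
  push_cast
  omega

/-- the universal matrix of conditions -/
private noncomputable def SGExp_B {n : ℕ} (N : ℕ) (m : Fin n → ℕ) :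
    Matrix (Σ i : Fin n, ↥(tri (m i))) ↥(tri N) (MvPolynomial (Fin n × Fin 2) ℤ) :=
  condMat N m (fun i c => (X (i, c) : MvPolynomial (Fin n × Fin 2) ℤ))

private theorem SGExp_map {S : Type*} [CommRing S] {n : ℕ} (N : ℕ) (m : Fin n → ℕ)
    (p : Fin n → Fin 2 → S) :
    (SGExp_B N m).map (eval₂Hom (Int.castRingHom S) (fun q : Fin n × Fin 2 => p q.1 q.2)) =
      condMat N m p := by
  unfold SGExp_B
  rw [condMat_map]
  congr 1
  funext i c
  simp

private theorem SGExp_eval {n : ℕ} (g : MvPolynomial (Fin n × Fin 2) ℤ) (p : Fin n → Fin 2 → ℂ) :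
    eval (fun q : Fin n × Fin 2 => p q.1 q.2) (map (Int.castRingHom ℂ) g) =
      eval₂Hom (Int.castRingHom ℂ) (fun q : Fin n × Fin 2 => p q.1 q.2) g := by
  rw [eval_map]
  rfl

private theorem SGExp_core {K : Type*} [Field K] {n : ℕ} (d : ℕ) (m : Fin n → ℕ)
    (p : Fin n → Fin 2 → K) (g0 : MvPolynomial (Fin n × Fin 2) ℤ)
    (h0 : eval₂Hom (Int.castRingHom K) (fun q : Fin n × Fin 2 => p q.1 q.2) g0 ≠ 0)
    (h1 : ∀ p : Fin n → Fin 2 → ℂ,
      eval₂Hom (Int.castRingHom ℂ) (fun q : Fin n × Fin 2 => p q.1 q.2) g0 ≠ 0 →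
        Good (condMat (d + 1) m p)) : GExp d m := by
  refine ⟨map (Int.castRingHom ℂ) g0, ?_, ?_⟩
  · intro h
    have h2 : Function.Injective (Int.castRingHom ℂ) := Int.cast_injective
    have h3 : g0 = 0 := map_injective (Int.castRingHom ℂ) h2 (by rw [h, map_zero])
    rw [h3, map_zero] at h0
    exact h0 rfl
  · intro p hp
    rw [SGExp_eval] at hp
    exact SGExp_fin d m p (h1 p hp)

/-- PROOF. Let `B = condMat (d + 1) m (fun i c => X (i, c))` over `MvPolynomial (Fin n × Fin 2) ℤ`. For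
every commutative ring `S` and all points `p` over `S`, `condMat (d + 1) m p` is `B` mapped by
`eval₂Hom (Int.castRingHom S) (fun q => p q.1 q.2)` (`condMat_map`). By `exists_minor_left` or
`exists_minor_right` (compare the cardinalities) a maximal minor `g0` of `B` has a nonzero image in
`K`, so `g0 ≠ 0`; `g = map (Int.castRingHom ℂ) g0 ≠ 0` (`MvPolynomial.map_injective`). If `g` does not
vanish at a complex `p` then `condMat (d + 1) m p` is good (`good_of_minor_left`), and the end of the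
proof of `generic_of_real` (`Lib_MP_70e04f_ag/General.lean`) gives the formula. -/
theorem gexp_of_good {K : Type*} [Field K] {n : ℕ} (d : ℕ) (m : Fin n → ℕ)
    (p : Fin n → Fin 2 → K) (h : Good (condMat (d + 1) m p)) : GExp d m := by
  classical
  rcases le_total (Fintype.card ↥(tri (d + 1))) (Fintype.card (Σ i : Fin n, ↥(tri (m i)))) with hc | hc
  · obtain ⟨f, hf⟩ := exists_minor_left h hc
    have key : ∀ (S : Type _) [CommRing S] (p : Fin n → Fin 2 → S),
        eval₂Hom (Int.castRingHom S) (fun q : Fin n × Fin 2 => p q.1 q.2)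
          ((SGExp_B (d + 1) m).submatrix f id).det = ((condMat (d + 1) m p).submatrix f id).det := by
      intro S _ p
      rw [RingHom.map_det, ← SGExp_map]
      rfl
    refine SGExp_core d m p ((SGExp_B (d + 1) m).submatrix f id).det ?_ ?_
    · rw [key]
      exact hf
    · intro p hp
      have key2 : eval₂Hom (Int.castRingHom ℂ) (fun q : Fin n × Fin 2 => p q.1 q.2)
          ((SGExp_B (d + 1) m).submatrix f id).det = ((condMat (d + 1) m p).submatrix f id).det := by
        rw [RingHom.map_det, ← SGExp_map]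
        rfl
      rw [key2] at hp
      exact good_of_minor_left f hp
  · obtain ⟨f, hf⟩ := exists_minor_right h hc
    have key : ∀ (S : Type _) [CommRing S] (p : Fin n → Fin 2 → S),
        eval₂Hom (Int.castRingHom S) (fun q : Fin n × Fin 2 => p q.1 q.2)
          ((SGExp_B (d + 1) m).submatrix id f).det = ((condMat (d + 1) m p).submatrix id f).det := by
      intro S _ p
      rw [RingHom.map_det, ← SGExp_map]
      rfl
    refine SGExp_core d m p ((SGExp_B (d + 1) m).submatrix id f).det ?_ ?_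
    · rw [key]
      exact hf
    · intro p hp
      have key2 : eval₂Hom (Int.castRingHom ℂ) (fun q : Fin n × Fin 2 => p q.1 q.2)
          ((SGExp_B (d + 1) m).submatrix id f).det = ((condMat (d + 1) m p).submatrix id f).det := by
        rw [RingHom.map_det, ← SGExp_map]
        rfl
      rw [key2] at hp
      exact good_of_minor_right f hp

/-- Emptiness in degree `d` gives emptiness in smaller degrees.
PROOF. See `GenExp.le` in `Lib_MP_70e04f_hex/Generic.lean`:
both sides of the formula are zero for `d`, and the space in degree `D` is contained in the space in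
degree `d`. -/
theorem GExp.le {n : ℕ} {d D : ℕ} {mm : Fin n → ℕ} (h : GExp d mm) (hD : D ≤ d)
    (hT : (d + 1) * (d + 2) ≤ ∑ i, mm i * (mm i + 1)) : GExp D mm := by
  obtain ⟨g, hg0, hg⟩ := h
  refine ⟨g, hg0, fun p hp => ?_⟩
  have h1 := hg p hp
  have hT' : (((d + 1) * (d + 2) : ℕ) : ℤ) ≤ ∑ i, (mm i : ℤ) * ((mm i : ℤ) + 1) := by
    have : (((d + 1) * (d + 2) : ℕ) : ℤ) ≤ ((∑ i, mm i * (mm i + 1) : ℕ) : ℤ) := by
      exact_mod_cast hT
    push_cast at this ⊢
    exact this
  have e2 : ((d : ℤ) + 1) * ((d : ℤ) + 2) - ∑ i, (mm i : ℤ) * ((mm i : ℤ) + 1) ≤ 0 := by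
    push_cast at hT'
    linarith
  rw [max_eq_left e2] at h1
  have hle : MvPolynomial.restrictTotalDegree (Fin 2) ℂ D ⊓
      ⨅ i : Fin n, Submodule.restrictScalars ℂ
        ((RingHom.ker (MvPolynomial.eval (p i)) :
          Ideal (MvPolynomial (Fin 2) ℂ)) ^ mm i) ≤
      MvPolynomial.restrictTotalDegree (Fin 2) ℂ d ⊓
      ⨅ i : Fin n, Submodule.restrictScalars ℂ
        ((RingHom.ker (MvPolynomial.eval (p i)) :
          Ideal (MvPolynomial (Fin 2) ℂ)) ^ mm i) := by
    apply inf_le_inf_right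
    intro f hf
    rw [MvPolynomial.mem_restrictTotalDegree] at hf ⊢
    omega
  have : Module.Finite ℂ ↥(MvPolynomial.restrictTotalDegree (Fin 2) ℂ d ⊓
      ⨅ i : Fin n, Submodule.restrictScalars ℂ
        ((RingHom.ker (MvPolynomial.eval (p i)) :
          Ideal (MvPolynomial (Fin 2) ℂ)) ^ mm i)) :=
    Submodule.finiteDimensional_inf_left _ _
  have h2 := Submodule.finrank_mono hle
  have e3 : ((D : ℤ) + 1) * ((D : ℤ) + 2) - ∑ i, (mm i : ℤ) * ((mm i : ℤ) + 1) ≤ 0 := by
    have h3 : (D + 1) * (D + 2) ≤ (d + 1) * (d + 2) := Nat.mul_le_mul (by omega) (by omega)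
    have h4 : (((D + 1) * (D + 2) : ℕ) : ℤ) ≤ (((d + 1) * (d + 2) : ℕ) : ℤ) := by exact_mod_cast h3
    push_cast at h4 hT'
    linarith
  rw [max_eq_left e3]
  omega

end Pool.MP_70e04f_ag.Strip

end

/-! ### from `Lib_MP_70e04f_ag.FrontPot` -/

section

/-!
The front patterns come from the potentials `w j = B ^ j`.
-/

namespace Pool.MP_70e04f_ag

/-- The order of the rows. -/
lemma front_order (N μ b c : ℕ) (hc : c ≤ b + 1) (hb : b ≤ N) (j0 j : ℕ) (hj0 : j0 < N)
    (hj : j < N) (h : vp μ b c j < vp μ b c j0) :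
    (2 * (N : ℝ) + 4) ^ (b + 1) / ((b : ℝ) + 3 / 2 - c) * j - (2 * (N : ℝ) + 4) ^ j <
      (2 * (N : ℝ) + 4) ^ (b + 1) / ((b : ℝ) + 3 / 2 - c) * j0 - (2 * (N : ℝ) + 4) ^ j0 := by
  set B : ℝ := 2 * (N : ℝ) + 4 with hB
  set d : ℝ := (b : ℝ) + 3 / 2 - c with hd
  set s : ℝ := B ^ (b + 1) / d with hs
  have hN0 : (0 : ℝ) ≤ N := Nat.cast_nonneg N
  have hB0 : 0 < B := by rw [hB]; linarith
  have hB1 : 1 ≤ B := by rw [hB]; linarith
  have hc' : (c : ℝ) ≤ b + 1 := by exact_mod_cast hc
  have hc0 : (0 : ℝ) ≤ c := Nat.cast_nonneg c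
  have hb' : (b : ℝ) ≤ N := by exact_mod_cast hb
  have hd0 : 1 / 2 ≤ d := by rw [hd]; linarith
  have hdp : 0 < d := by linarith
  have hdN : d ≤ N + 3 / 2 := by rw [hd]; linarith
  have hP : 0 < B ^ b := pow_pos hB0 b
  have hPB : B ^ (b + 1) = B * B ^ b := pow_succ' B b
  have hsd : s * d = B ^ (b + 1) := by rw [hs]; field_simp
  have hs0 : 0 < s := by rw [hs]; positivity
  have hs1 : B ^ b < s := by
    rw [hs, lt_div_iff₀ hdp, hPB]
    nlinarith
  have hs2 : s ≤ 2 * B ^ (b + 1) := by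
    rw [← hsd]; nlinarith
  have hmono : ∀ i i' : ℕ, i ≤ i' → B ^ i ≤ B ^ i' := fun i i' h => pow_le_pow_right₀ hB1 h
  -- rows up to `b`
  have c1 : ∀ i i' : ℕ, i < i' → i' ≤ b → s * i - B ^ i < s * i' - B ^ i' := by
    intro i i' h1 h2
    have h3 : (i : ℝ) + 1 ≤ i' := by exact_mod_cast h1
    have h4 := hmono i' b h2
    have h5 : 0 < B ^ i := pow_pos hB0 i
    nlinarith
  -- the row `b + 1` below the rows from `c` on
  have c2 : ∀ i : ℕ, c ≤ i → i ≤ b → s * ((b + 1 : ℕ) : ℝ) - B ^ (b + 1) < s * i - B ^ i := by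
    intro i h1 h2
    have h3 : (c : ℝ) ≤ i := by exact_mod_cast h1
    have h4 := hmono i b h2
    push_cast
    have h5 : s * ((b : ℝ) + 1 - i) ≤ s * (d - 1 / 2) := by
      apply mul_le_mul_of_nonneg_left _ hs0.le
      rw [hd]; linarith
    have h6 : s * (d - 1 / 2) = B ^ (b + 1) - s / 2 := by rw [← hsd]; ring
    have h7 : B ^ b < s / 2 := by
      rw [hs, div_div, lt_div_iff₀ (by positivity), hPB]
      nlinarith
    nlinarith
  -- the row `b + 1` above the rows before `c`
  have c3 : ∀ i : ℕ, i < c → s * i - B ^ i < s * ((b + 1 : ℕ) : ℝ) - B ^ (b + 1) := by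
    intro i h1
    have h3 : (i : ℝ) + 1 ≤ c := by exact_mod_cast h1
    have h5 : 0 < B ^ i := pow_pos hB0 i
    push_cast
    have h6 : s * (d + 1 / 2) ≤ s * ((b : ℝ) + 1 - i) := by
      apply mul_le_mul_of_nonneg_left _ hs0.le
      rw [hd]; linarith
    have h7 : s * (d + 1 / 2) = B ^ (b + 1) + s / 2 := by rw [← hsd]; ring
    nlinarith
  -- the rows above `b + 1`
  have c4 : ∀ i i' : ℕ, i < i' → b + 2 ≤ i' → i' < N → s * i' - B ^ i' < s * i - B ^ i := by
    intro i i' h1 h2 h3
    obtain ⟨p, rfl⟩ : ∃ p, i' = p + 1 := ⟨i' - 1, by omega⟩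
    have h4 := hmono (b + 1) p (by omega)
    have h5 := hmono i p (by omega)
    have h6 : (i : ℝ) ≥ 0 := Nat.cast_nonneg i
    have h7 : ((p + 1 : ℕ) : ℝ) ≤ N := by exact_mod_cast h3.le
    have h8 : B ^ (p + 1) = B * B ^ p := pow_succ' B p
    have h9 : s * (((p + 1 : ℕ) : ℝ) - i) ≤ 2 * B ^ (b + 1) * N := by
      have h10 : ((p + 1 : ℕ) : ℝ) - i ≤ N := by linarith
      calc s * (((p + 1 : ℕ) : ℝ) - i) ≤ s * N := mul_le_mul_of_nonneg_left h10 hs0.le
        _ ≤ 2 * B ^ (b + 1) * N := mul_le_mul_of_nonneg_right hs2 hN0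
    have h11 : 0 < B ^ p := pow_pos hB0 p
    have h12 : 2 * B ^ (b + 1) * N ≤ 2 * B ^ p * N := by
      apply mul_le_mul_of_nonneg_right _ hN0
      linarith
    rw [h8]
    nlinarith
  unfold vp at h
  rcases Nat.lt_or_ge j0 (b + 1) with h0 | h0
  · rw [if_pos (show j0 ≤ b by omega)] at h
    rcases Nat.lt_or_ge j (b + 1) with h1 | h1
    · rw [if_pos (show j ≤ b by omega)] at h
      apply c1 j j0 _ (by omega)
      split_ifs at h <;> omega
    · rw [if_neg (show ¬ j ≤ b by omega)] at h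
      rcases Nat.eq_or_lt_of_le h1 with h2 | h2
      · subst h2
        rw [if_pos rfl] at h
        apply c2 j0 _ (by omega)
        split_ifs at h <;> omega
      · exact c4 j0 j (by omega) (by omega) hj
  · rw [if_neg (show ¬ j0 ≤ b by omega)] at h
    rcases Nat.eq_or_lt_of_le h0 with h1 | h1
    · subst h1
      rw [if_pos rfl] at h
      rcases Nat.lt_or_ge j (b + 1) with h2 | h2
      · rw [if_pos (show j ≤ b by omega)] at h
        apply c3
        split_ifs at h <;> omega
      · rw [if_neg (show ¬ j ≤ b by omega)] at h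
        rcases Nat.eq_or_lt_of_le h2 with h3 | h3
        · exfalso
          rw [if_pos h3.symm] at h
          omega
        · exact c4 (b + 1) j (by omega) (by omega) hj
    · rw [if_neg (show ¬ j0 = b + 1 by omega)] at h
      rcases Nat.lt_or_ge j (b + 1) with h2 | h2
      · exfalso
        rw [if_pos (show j ≤ b by omega)] at h
        split_ifs at h <;> omega
      · rw [if_neg (show ¬ j ≤ b by omega)] at h
        rcases Nat.eq_or_lt_of_le h2 with h3 | h3
        · exfalso
          rw [if_pos h3.symm] at h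
          omega
        · rw [if_neg (show ¬ j = b + 1 by omega)] at h
          exact c4 j0 j (by omega) (by omega) hj

section
open Polynomial

/-- The dimension bound given by front positions. -/
theorem finrank_of_front {n : ℕ} (k N : ℕ) (hk : 0 < k) (m b c : Fin n → ℕ)
    (hc : ∀ i, c i ≤ b i + 1) (hb : ∀ i, b i ≤ N) (t : ℕ → ℕ)
    (hcap : ∀ j, nrow k N j ≤ (∑ i, vp (m i) (b i) (c i) j) + t j) :
    ∃ u : Fin n → ℝ, Module.finrank ℝ (LinearMap.ker (degMat k N m xpos u 0).mulVecLin) ≤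
      ∑ j ∈ Finset.range N, t j := by
  classical
  obtain ⟨u, hu⟩ := pot_pos k N hk m (fun i => vp (m i) (b i) (c i))
    (fun j => (2 * (N : ℝ) + 4) ^ j)
    (fun i => (2 * (N : ℝ) + 4) ^ (b i + 1) / ((b i : ℝ) + 3 / 2 - c i))
    (fun i => patOK_vp (m i) (b i) (c i) (hc i))
    (fun i j0 j hj0 hj h => front_order N (m i) (b i) (c i) (hc i) (hb i) j0 j hj0 hj h) t hcap
  refine ⟨u, ?_⟩
  let θ : (↥(tri N) → ℝ) →ₗ[ℝ] ((Σ j : Fin N, Fin (t j)) → ℝ) :=
    { toFun := fun v c => (taylor 1 (rowPoly k N v c.1)).coeff c.2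
      map_add' := by
        intro v w
        funext c
        simp only [taylor_rowPoly, Pi.add_apply]
        rw [← Finset.sum_add_distrib]
        refine Finset.sum_congr rfl fun q _ => ?_
        split_ifs <;> ring
      map_smul' := by
        intro a v
        funext c
        simp only [taylor_rowPoly, Pi.smul_apply, smul_eq_mul, RingHom.id_apply, Finset.mul_sum]
        refine Finset.sum_congr rfl fun q _ => ?_
        split_ifs <;> ring }
  have hcard : Fintype.card (Σ j : Fin N, Fin (t j)) = ∑ j ∈ Finset.range N, t j := by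
    rw [Fintype.card_sigma, Finset.sum_range]
    simp
  rw [← hcard]
  apply finrank_ker_le _ θ
  intro v hv hθ
  have hT : ∀ j, rowPoly k N v j = 0 := by
    apply hu v
    · intro j
      rw [pow_dvd_iff_taylor]
      intro d hd
      by_cases hj : j < N
      · exact congrFun hθ ⟨⟨j, hj⟩, ⟨d, hd⟩⟩
      · rw [rowPoly_eq_zero k N v j (by omega)]; simp
    · intro i al be hab
      have hc := congrFun hv ⟨i, ⟨(al, be), mem_tri.2 hab⟩⟩
      rw [degMat_zero_mulVec] at hc
      exact hc
  funext q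
  rw [← coeff_rowPoly k N hk v q, hT]
  simp

lemma nrow_eq_zero (k N j : ℕ) (hk : 0 < k) (hj : N ≤ k * j) : nrow k N j = 0 := by
  rw [nrow_eq k N j hk]
  have h2 : N - k * j = 0 := by omega
  rw [h2]
  have := S_small k 0 (Nat.zero_le _)
  omega

/-- The front certificate for emptiness and independence. -/
theorem good_of_front {n : ℕ} (k N : ℕ) (hk : 0 < k) (m b c : Fin n → ℕ)
    (hc : ∀ i, c i ≤ b i + 1) (hb : ∀ i, b i ≤ N)
    (hcap : (∀ j, nrow k N j ≤ ∑ i, vp (m i) (b i) (c i) j) ∨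
      (∀ j, ∑ i, vp (m i) (b i) (c i) j ≤ nrow k N j)) :
    ∃ u : Fin n → ℝ, Good (degMat k N m xpos u 0) := by
  rcases hcap with hcap | hcap
  · obtain ⟨u, hu⟩ := finrank_of_front k N hk m b c hc hb (fun _ => 0) hcap
    refine ⟨u, ?_⟩
    unfold Good
    rw [Finset.sum_const_zero] at hu
    omega
  · obtain ⟨u, hu⟩ := finrank_of_front k N hk m b c hc hb
      (fun j => nrow k N j - ∑ i, vp (m i) (b i) (c i) j) (fun j => by have := hcap j; omega)
    refine ⟨u, ?_⟩
    have h1 : ∑ j ∈ Finset.range N, (nrow k N j - ∑ i, vp (m i) (b i) (c i) j) +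
        ∑ j ∈ Finset.range N, ∑ i, vp (m i) (b i) (c i) j = (tri N).card := by
      rw [← sum_nrow k, ← Finset.sum_add_distrib]
      refine Finset.sum_congr rfl fun j _ => ?_
      have := hcap j
      omega
    have h0 : ∀ j, N ≤ j → nrow k N j = 0 := by
      intro j hj
      apply nrow_eq_zero k N j hk
      have := Nat.le_mul_of_pos_left j hk
      omega
    have h2 : ∑ j ∈ Finset.range N, ∑ i, vp (m i) (b i) (c i) j =
        Fintype.card (Σ i : Fin n, ↥(tri (m i))) := by
      rw [Finset.sum_comm, Fintype.card_sigma]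
      refine Finset.sum_congr rfl fun i _ => ?_
      have hz : ∀ j, N ≤ j → vp (m i) (b i) (c i) j = 0 := by
        intro j hj
        have h4 := hcap j
        rw [h0 j hj, Nat.le_zero] at h4
        exact (Finset.sum_eq_zero_iff.1 h4) i (Finset.mem_univ i)
      have h3 := sum_vp (m i) (b i) (c i) (N + b i + 2 + m i) (hc i) (by omega) (by omega)
      have h6 : ∑ j ∈ Finset.range (N + b i + 2 + m i), vp (m i) (b i) (c i) j =
          ∑ j ∈ Finset.range N, vp (m i) (b i) (c i) j := by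
        symm
        apply Finset.sum_subset (Finset.range_subset_range.2 (by omega))
        intro j _ hj
        rw [Finset.mem_range, not_lt] at hj
        exact hz j hj
      rw [h6] at h3
      have h5 := two_card_tri (m i)
      rw [Fintype.card_coe]
      omega
    unfold Good
    rw [Fintype.card_coe]
    omega

end

end Pool.MP_70e04f_ag

end

/-! ### from `Lib_MP_70e04f_ag.Rows` -/

section

/-!
The sizes of the rows, and the truncated ramp.
-/

namespace Pool.MP_70e04f_ag

lemma S_step_ge (k w : ℕ) (h : k ≤ w) : 2 * S k (w - k) + k * (k + 1) ≤ 2 * S k w := by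
  have h1 := sum_sub_range k k le_rfl
  have h2 : S k (w - k) + ∑ r ∈ Finset.range k, (k - r) ≤ S k w := by
    unfold S
    rw [← Finset.sum_add_distrib]
    apply Finset.sum_le_sum
    intro r hr
    rw [Finset.mem_range] at hr
    omega
  omega

lemma S_step_eq (k w : ℕ) (h : 2 * k ≤ w + 1) : S k w = S k (w - k) + k ^ 2 := by
  unfold S
  have h1 : ∀ r ∈ Finset.range k, w - r = (w - k - r) + k := by
    intro r hr
    rw [Finset.mem_range] at hr
    omega
  rw [Finset.sum_congr rfl h1, Finset.sum_add_distrib, Finset.sum_const, Finset.card_range,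
    smul_eq_mul, sq]

section
variable (k N : ℕ) (hk : 0 < k)
include hk

lemma nrow_step_ge (j : ℕ) (h : k * (j + 1) ≤ N) :
    k * (k + 1) + 2 * nrow k N (j + 1) ≤ 2 * nrow k N j := by
  rw [nrow_eq k N j hk, nrow_eq k N (j + 1) hk]
  have h1 : k * (j + 1) = k * j + k := by ring
  have h2 := S_step_ge k (N - k * j) (by omega)
  have h3 : N - k * (j + 1) = N - k * j - k := by omega
  rw [h3]
  omega

lemma nrow_step_eq (j : ℕ) (h : k * (j + 2) ≤ N + 1) :
    nrow k N j = nrow k N (j + 1) + k ^ 2 := by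
  rw [nrow_eq k N j hk, nrow_eq k N (j + 1) hk]
  have h1 : k * (j + 1) = k * j + k := by ring
  have h4 : k * (j + 2) = k * j + 2 * k := by ring
  have h2 := S_step_eq k (N - k * j) (by omega)
  have h3 : N - k * (j + 1) = N - k * j - k := by omega
  rw [h3]
  exact h2

/-- The total of the rows. -/
lemma sum_nrow_range (L : ℕ) (hL : N ≤ k * L) :
    2 * ∑ j ∈ Finset.range L, nrow k N j = N * (N + 1) := by
  have h1 := sum_nrow k N
  have h2 := two_card_tri N
  have h3 : ∑ j ∈ Finset.range L, nrow k N j = ∑ j ∈ Finset.range (L + N), nrow k N j := by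
    apply Finset.sum_subset (Finset.range_subset_range.2 (by omega))
    intro j _ hj
    rw [Finset.mem_range, not_lt] at hj
    apply nrow_eq_zero k N j hk
    exact hL.trans (Nat.mul_le_mul_left k hj)
  have h4 : ∑ j ∈ Finset.range N, nrow k N j = ∑ j ∈ Finset.range (L + N), nrow k N j := by
    apply Finset.sum_subset (Finset.range_subset_range.2 (by omega))
    intro j _ hj
    rw [Finset.mem_range, not_lt] at hj
    apply nrow_eq_zero k N j hk
    exact hj.trans (Nat.le_mul_of_pos_left j hk)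
  omega

lemma nrow_shift (x j : ℕ) : nrow k N (x + j) = nrow k (N - k * x) j := by
  rw [nrow_eq k N _ hk, nrow_eq k _ j hk]
  congr 1
  rw [Nat.mul_add]
  omega

/-- The total of the first rows. -/
lemma sum_nrow_low (x L : ℕ) (hx : x ≤ L) (hL : N ≤ k * L) :
    2 * ∑ j ∈ Finset.range x, nrow k N j + (N - k * x) * (N - k * x + 1) = N * (N + 1) := by
  obtain ⟨y, rfl⟩ := Nat.exists_eq_add_of_le hx
  have h1 := sum_nrow_range k N hk (x + y) hL
  rw [Finset.sum_range_add] at h1
  have h2 : ∀ j ∈ Finset.range y, nrow k N (x + j) = nrow k (N - k * x) j :=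
    fun j _ => nrow_shift k N hk x j
  have h3 := sum_nrow_range k (N - k * x) hk y (by rw [Nat.mul_add] at hL; omega)
  have h4 : ∑ j ∈ Finset.range y, nrow k N (x + j) =
      ∑ j ∈ Finset.range y, nrow k (N - k * x) j := Finset.sum_congr rfl h2
  omega

end

/-- The truncated ramp: the ramp of height `ν` with peak at `b0`, and one more unit in the last
`p` rows. -/
def ramp (b0 ν p j : ℕ) : ℕ :=
  if j ≤ b0 then (ν + j - b0) + (if b0 < j + p then 1 else 0) else 0

lemma exists_tri (t : ℕ) : ∃ ν p : ℕ, p ≤ ν ∧ 2 * t = ν * (ν + 1) + 2 * p := by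
  induction t with
  | zero => exact ⟨0, 0, le_rfl, rfl⟩
  | succ t ih =>
    obtain ⟨ν, p, h1, h2⟩ := ih
    rcases Nat.eq_or_lt_of_le h1 with h | h
    · refine ⟨ν + 1, 0, Nat.zero_le _, ?_⟩
      subst h
      nlinarith
    · exact ⟨ν, p + 1, h, by omega⟩

section
variable (b0 ν p μ : ℕ) (hp : p ≤ ν) (hν : ν < μ) (hb : μ ≤ b0)
include hp hν hb

set_option linter.unusedSectionVars false

lemma ramp_mono (j : ℕ) (hj : j + 1 ≤ b0) : ramp b0 ν p j ≤ ramp b0 ν p (j + 1) := by
  unfold ramp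
  rw [if_pos (show j ≤ b0 by omega), if_pos hj]
  split_ifs <;> omega

lemma ramp_low (j : ℕ) (hj : j + μ ≤ b0) : ramp b0 ν p j = 0 := by
  unfold ramp
  split_ifs <;> omega

lemma ramp_le (j : ℕ) : ramp b0 ν p j ≤ μ := by
  unfold ramp
  split_ifs <;> omega

lemma ramp_le_vp (j : ℕ) : ramp b0 ν p j ≤ vp μ b0 0 j := by
  unfold ramp vp
  split_ifs <;> omega

lemma sum_ramp (L : ℕ) (hL : b0 + 2 ≤ L) :
    2 * ∑ j ∈ Finset.range L, ramp b0 ν p j = ν * (ν + 1) + 2 * p := by
  have h1 : ∀ j ∈ Finset.range L, ramp b0 ν p j = vp ν b0 0 j +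
      (if b0 - p < j ∧ j ≤ b0 then 1 else 0) := by
    intro j _
    unfold ramp vp
    split_ifs <;> omega
  rw [Finset.sum_congr rfl h1, Finset.sum_add_distrib, mul_add, sum_vp ν b0 0 L (by omega) hL
    (by omega), ← Finset.sum_filter, Finset.sum_const, smul_eq_mul, mul_one]
  have h2 : Finset.filter (fun j => b0 - p < j ∧ j ≤ b0) (Finset.range L) =
      Finset.Ioc (b0 - p) b0 := by
    ext j
    rw [Finset.mem_filter, Finset.mem_range, Finset.mem_Ioc]
    omega
  rw [h2, Nat.card_Ioc]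
  omega

end

end Pool.MP_70e04f_ag

end

/-! ### from `Lib_MP_70e04f_thin.TEffC` -/

section

/-!
# Piece TEFFC: classes of expected dimension zero are not effective
-/

set_option autoImplicit false

namespace Pool.MP_70e04f_ag.Strip

open MvPolynomial

/-- PROOF. Choose `p` with `eval p g ≠ 0` (`g` from `GExp`, `MvPolynomial.funext`). The dimension of
the space in `GExp` is `0` as `(e + 1) (e + 2) - ∑ a (a + 1) ≤ 0`, and a curve given by `Eff0` is a
nonzero element of it. -/
theorem GExp.not_eff0 {n : ℕ} {e : ℕ} {a : Fin n → ℕ} (h : GExp e a)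
    (hχ : (e + 1) * (e + 2) ≤ ∑ i, a i * (a i + 1)) : ¬ Eff0 e a := by
  intro heff
  obtain ⟨g, hg, h⟩ := h
  obtain ⟨x, hx⟩ : ∃ x : Fin n × Fin 2 → ℂ, MvPolynomial.eval x g ≠ 0 := by
    by_contra hcon
    push Not at hcon
    exact hg (MvPolynomial.funext fun x => by rw [hcon x, map_zero])
  have h1 := h (fun i c => x (i, c)) hx
  obtain ⟨f, hf, hfe, hfa⟩ := heff (fun i c => x (i, c))
  have h2 : (((e + 1) * (e + 2) : ℕ) : ℤ) ≤ ((∑ i, a i * (a i + 1) : ℕ) : ℤ) := by
    exact_mod_cast hχ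
  push_cast at h2
  rw [max_eq_left (by linarith)] at h1
  set V : Submodule ℂ (MvPolynomial (Fin 2) ℂ) := MvPolynomial.restrictTotalDegree (Fin 2) ℂ e ⊓
    ⨅ i : Fin n, Submodule.restrictScalars ℂ
      ((RingHom.ker (MvPolynomial.eval ((fun i c => x (i, c)) i)) :
        Ideal (MvPolynomial (Fin 2) ℂ)) ^ a i) with hV
  have hfin : Module.Finite ℂ ↥V := Submodule.finiteDimensional_inf_left _ _
  have h3 : Module.finrank ℂ ↥V = 0 := by
    have : (2 : ℤ) * (Module.finrank ℂ ↥V : ℕ) = 0 := h1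
    omega
  have h4 : V = ⊥ := Submodule.finrank_eq_zero.1 h3
  apply hf
  rw [← Submodule.mem_bot ℂ, ← h4, hV]
  refine Submodule.mem_inf.2 ⟨hfe, ?_⟩
  rw [Submodule.mem_iInf]
  intro i
  exact mem_Iz.1 hfa i

end Pool.MP_70e04f_ag.Strip

end
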