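import Pool.Agent.Lib_MP_70e04f_m.M07
import Pool.Agent.Lib_MP_70e04f_m.M14
import Pool.Agent.Lib_MP_70e04f_m.M20

/-!
# MP_70e04f_ag, plane linear systems: merged library part M21

Concatenation of smaller files (each in its own section), only to save build time.
-/

namespace Pool.MP_70e04f_ag.Hex
end Pool.MP_70e04f_ag.Hex

namespace Pool.MP_70e04f_ag.Add
end Pool.MP_70e04f_ag.Add

/-! ### from `Lib_MP_70e04f_hex.PotQ` -/

section

/-!
# Certificates by potentials for a general set of exponents (piece POTQ)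

This is `Pot.lean` (with the parts of `Mono.lean`, `Scale.lean`, `Cert.lean` it uses) for the
basis `x ^ q.1 * u ^ q.2`, `q ∈ Q`, instead of the special basis of `degMat`. HOW TO: copy
`pot_pos`, `off_dvd`, `mem_divSub`, `divSub`, `offSub`, `sc`, `sc_mem_offSub`, `rowPoly_sc`,
`taylor_rowPoly`, `card_support_rowPoly`, `coeff_rowPoly`, `row_zero'`, replacing `tri N` by `Q`,
`rowPoly k N v j` by `rowQ Q v j`, `q.1 / k` by `q.2`, `q.1 % k + k * q.2` by `q.1`, `nrow k N j`
by `rowc Q j`. `exists_interp`, `descartes`, `row_zero`, `pow_dvd_iff_taylor`, `PatOK`, `xpos`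
are reused unchanged.
-/

namespace Pool.MP_70e04f_ag.Hex

open Polynomial Filter Topology

/-- The rows of a coefficient vector. -/
noncomputable def rowQ (Q : Finset (ℕ × ℕ)) (v : ↥Q → ℝ) (j : ℕ) : ℝ[X] :=
  ∑ q : ↥Q, if q.1.2 = j then C (v q) * X ^ q.1.1 else 0

section
variable (Q : Finset (ℕ × ℕ))

lemma taylor_rowQ (v : ↥Q → ℝ) (j : ℕ) (x : ℝ) (α : ℕ) :
    (taylor x (rowQ Q v j)).coeff α = ∑ q : ↥Q, if q.1.2 = j then
      v q * ((X + C x) ^ q.1.1 : ℝ[X]).coeff α else 0 := by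
  rw [rowQ, map_sum, Polynomial.finsetSum_coeff]
  refine Finset.sum_congr rfl fun q _ => ?_
  split_ifs with h
  · rw [Polynomial.taylor_apply, mul_comp, C_comp, pow_comp, X_comp, coeff_C_mul]
  · simp

lemma rowQ_eq_zero (N : ℕ) (hN : ∀ q ∈ Q, q.2 < N) (v : ↥Q → ℝ) (j : ℕ) (hj : N ≤ j) :
    rowQ Q v j = 0 := by
  rw [rowQ]
  apply Finset.sum_eq_zero
  intro q _
  rw [if_neg]
  intro h
  have := hN q.1 q.2
  omega

lemma card_support_rowQ (v : ↥Q → ℝ) (j : ℕ) : (rowQ Q v j).support.card ≤ rowc Q j := by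
  classical
  unfold rowc
  have hsub : (rowQ Q v j).support ⊆ (Q.filter (fun q => q.2 = j)).image (fun q => q.1) := by
    intro s hs
    rw [Polynomial.mem_support_iff, rowQ, Polynomial.finsetSum_coeff] at hs
    obtain ⟨q, _, hq⟩ := Finset.exists_ne_zero_of_sum_ne_zero hs
    rw [Finset.mem_image]
    by_cases h : q.1.2 = j
    · refine ⟨q.1, Finset.mem_filter.2 ⟨q.2, h⟩, ?_⟩
      rw [if_pos h, coeff_C_mul, coeff_X_pow] at hq
      by_contra hne
      apply hq
      rw [if_neg (fun h' => hne h'.symm), mul_zero]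
    · rw [if_neg h] at hq
      simp at hq
  exact (Finset.card_le_card hsub).trans Finset.card_image_le

lemma coeff_rowQ (v : ↥Q → ℝ) (q : ↥Q) : (rowQ Q v q.1.2).coeff q.1.1 = v q := by
  rw [rowQ, Polynomial.finsetSum_coeff, Finset.sum_eq_single q]
  · rw [if_pos rfl, coeff_C_mul, coeff_X_pow, if_pos rfl, mul_one]
  · intro r _ hr
    split_ifs with h
    · rw [coeff_C_mul, coeff_X_pow, if_neg, mul_zero]
      intro he
      apply hr
      exact Subtype.ext (Prod.ext he.symm h)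
    · simp
  · intro h; exact absurd (Finset.mem_univ q) h

/-- Scaling the rows. -/
def scQ (s : ℕ → ℝ) (v : ↥Q → ℝ) : ↥Q → ℝ := fun q => s q.1.2 * v q

lemma rowQ_scQ (s : ℕ → ℝ) (v : ↥Q → ℝ) (j : ℕ) :
    rowQ Q (scQ Q s v) j = C (s j) * rowQ Q v j := by
  rw [rowQ, rowQ, Finset.mul_sum]
  refine Finset.sum_congr rfl fun q _ => ?_
  split_ifs with h
  · rw [scQ, h, C_mul, mul_assoc]
  · simp

/-- The rows as linear maps. -/
noncomputable def rowLinQ (j : ℕ) : (↥Q → ℝ) →ₗ[ℝ] ℝ[X] where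
  toFun v := rowQ Q v j
  map_add' v w := by
    simp only [rowQ, ← Finset.sum_add_distrib]
    refine Finset.sum_congr rfl fun q _ => ?_
    split_ifs
    · rw [Pi.add_apply, C_add, add_mul]
    · simp
  map_smul' a v := by
    simp only [rowQ, RingHom.id_apply, Finset.smul_sum]
    refine Finset.sum_congr rfl fun q _ => ?_
    split_ifs
    · rw [Pi.smul_apply, smul_eq_mul, C_mul, smul_eq_C_mul, mul_assoc]
    · simp

lemma rowLinQ_apply (j : ℕ) (v : ↥Q → ℝ) : rowLinQ Q j v = rowQ Q v j := rfl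

/-- The vectors whose row `j` is divisible by `(X - x) ^ c`. -/
noncomputable def divSubQ (x : ℝ) (c j : ℕ) : Submodule ℝ (↥Q → ℝ) :=
  ((Ideal.span {(X - C x) ^ c}).restrictScalars ℝ).comap (rowLinQ Q j)

lemma mem_divSubQ (x : ℝ) (c j : ℕ) (v : ↥Q → ℝ) :
    v ∈ divSubQ Q x c j ↔ (X - C x) ^ c ∣ rowQ Q v j := by
  rw [divSubQ, Submodule.mem_comap, Submodule.restrictScalars_mem, Ideal.mem_span_singleton]
  rfl

/-- Vanishing to order `m` at the point `(x, u)`. -/
def OffQ (N m : ℕ) (x u : ℝ) (v : ↥Q → ℝ) : Prop :=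
  ∀ al be, al + be < m → ∑ j ∈ Finset.range N,
    (taylor x (rowQ Q v j)).coeff al * ((X + C u : ℝ[X]) ^ j).coeff be = 0

lemma scQ_mem_OffQ (N m : ℕ) (x u c : ℝ) (v : ↥Q → ℝ) (s : ℕ → ℝ)
    (hs : ∀ j, s j = c * u ^ j) (hv : OffQ Q N m x u v) :
    OffQ Q N m x 1 (scQ Q s v) := by
  intro al be h
  have h1 := hv al be h
  rw [← mul_zero (c * u ^ be), ← h1, Finset.mul_sum]
  refine Finset.sum_congr rfl fun j _ => ?_
  rw [rowQ_scQ, taylor_mul, taylor_C, coeff_C_mul, hs, coeff_X_add_C_pow, coeff_X_add_C_pow,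
    one_pow, one_mul]
  rcases Nat.lt_or_ge j be with hj | hj
  · rw [Nat.choose_eq_zero_of_lt hj]; simp
  · obtain ⟨e, rfl⟩ := Nat.exists_eq_add_of_le hj
    rw [Nat.add_sub_cancel_left, pow_add]
    ring

/-- The vanishing conditions in terms of one polynomial for each order in `x`. -/
lemma off_dvdQ (N m : ℕ) (x : ℝ) (v : ↥Q → ℝ) (hv : OffQ Q N m x 1 v) (al : ℕ) :
    (X - C (1 : ℝ)) ^ (m - al) ∣
      ∑ j ∈ Finset.range N, C ((taylor x (rowQ Q v j)).coeff al) * X ^ j := by
  rw [Polynomial.X_sub_C_pow_dvd_iff, Polynomial.X_pow_dvd_iff]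
  intro d hd
  rw [Polynomial.sum_comp, Polynomial.finsetSum_coeff]
  have h := hv al d (by omega)
  rw [← h]
  refine Finset.sum_congr rfl fun j _ => ?_
  simp only [mul_comp, C_comp, pow_comp, X_comp, coeff_C_mul]

end

/-- The conditions in terms of the rows. -/
theorem condP_mulVec {ι : Type*} (Q : Finset (ℕ × ℕ)) (N : ℕ) (hN : ∀ q ∈ Q, q.2 < N)
    (m : ι → ℕ) (p : ι → Fin 2 → ℝ) (v : ↥Q → ℝ) (c : Σ i : ι, ↥(tri (m i))) :
    (condP Q m p).mulVec v c = ∑ j ∈ Finset.range N,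
      (taylor (p c.1 0) (rowQ Q v j)).coeff c.2.1.1 *
        ((X + C (p c.1 1)) ^ j : ℝ[X]).coeff c.2.1.2 := by
  have h2 : (condP Q m p).mulVec v c = ∑ q : ↥Q, condP Q m p c q * v q := rfl
  rw [h2]
  simp only [taylor_rowQ, Finset.sum_mul]
  rw [Finset.sum_comm]
  refine Finset.sum_congr rfl fun q _ => ?_
  rw [Finset.sum_eq_single q.1.2]
  · rw [if_pos rfl]; unfold condP ec; ring
  · intro j _ hj
    rw [if_neg (Ne.symm hj), zero_mul]
  · intro h
    exfalso
    apply h
    rw [Finset.mem_range]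
    exact hN q.1 q.2

/-- The limit argument. -/
theorem pot_posQ {n : ℕ} (Q : Finset (ℕ × ℕ)) (N : ℕ) (hN : ∀ q ∈ Q, q.2 < N)
    (m : Fin n → ℕ) (V : Fin n → ℕ → ℕ) (w : ℕ → ℝ)
    (s : Fin n → ℝ) (hV : ∀ i, PatOK (m i) (V i))
    (hθ : ∀ i j0 j, j0 < N → j < N → V i j < V i j0 → s i * j - w j < s i * j0 - w j0)
    (t : ℕ → ℕ) (hcap : ∀ j, rowc Q j ≤ (∑ i, V i j) + t j) :
    ∃ u : Fin n → ℝ, ∀ v : ↥Q → ℝ, (∀ j, (X - C (1 : ℝ)) ^ (t j) ∣ rowQ Q v j) →
      (∀ i al be, al + be < m i → ∑ j ∈ Finset.range N,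
        (taylor (xpos i) (rowQ Q v j)).coeff al * ((X + C (u i) : ℝ[X]) ^ j).coeff be = 0) →
      v = 0 := by
  classical
  by_contra hcon
  push Not at hcon
  have hpos : ∀ p : ℕ, (0 : ℝ) < ((p : ℝ) + 1) := fun p => by positivity
  have h1 : ∀ p : ℕ, ∃ z : ↥Q → ℝ, ‖z‖ = 1 ∧
      (∀ j, (X - C (1 : ℝ)) ^ (t j) ∣ rowQ Q z j) ∧
      ∀ i, OffQ Q N (m i) (xpos i) 1 (scQ Q (fun j => ((p : ℝ) + 1) ^ (s i * j - w j)) z) := by
    intro p
    obtain ⟨v, hv1, hv2, hj⟩ := hcon (fun i => ((p : ℝ) + 1) ^ (s i))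
    set v' := scQ Q (fun j => ((p : ℝ) + 1) ^ (w j)) v with hv'
    have hv0 : v' ≠ 0 := by
      intro h0
      apply hj
      funext q
      have h2 := congrFun h0 q
      rw [hv'] at h2
      simp only [scQ, Pi.zero_apply] at h2
      rcases mul_eq_zero.1 h2 with h4 | h4
      · exact absurd h4 (Real.rpow_pos_of_pos (hpos p) _).ne'
      · exact h4
    refine ⟨‖v'‖⁻¹ • v', ?_, ?_, ?_⟩
    · rw [norm_smul, norm_inv, norm_norm, inv_mul_cancel₀ (norm_ne_zero_iff.2 hv0)]
    · intro j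
      rw [← mem_divSubQ]
      apply Submodule.smul_mem
      rw [mem_divSubQ, hv', rowQ_scQ]
      exact (hv1 j).mul_left _
    · intro i
      have h2 : scQ Q (fun j => ((p : ℝ) + 1) ^ (s i * j - w j)) (‖v'‖⁻¹ • v') =
          scQ Q (fun j => ‖v'‖⁻¹ * (((p : ℝ) + 1) ^ (s i)) ^ j) v := by
        funext q
        simp only [scQ, Pi.smul_apply, smul_eq_mul, hv']
        rw [← Real.rpow_natCast, ← Real.rpow_mul (hpos p).le, Real.rpow_sub (hpos p)]
        have := (Real.rpow_pos_of_pos (hpos p) (w q.1.2)).ne'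
        field_simp
      rw [h2]
      exact scQ_mem_OffQ Q N (m i) (xpos i) (((p : ℝ) + 1) ^ (s i)) ‖v'‖⁻¹ v _ (fun j => rfl)
        (hv2 i)
  choose z hz1 hz2 hz3 using h1
  obtain ⟨a, ha, φ, hφ, hlim⟩ := (isCompact_sphere (0 : ↥Q → ℝ) 1).tendsto_subseq
    (x := z) (fun p => by rw [mem_sphere_zero_iff_norm]; exact hz1 p)
  have ha0 : a ≠ 0 := by
    rintro rfl
    rw [mem_sphere_zero_iff_norm, norm_zero] at ha
    exact zero_ne_one ha
  apply ha0
  have hat : ∀ j, (X - C (1 : ℝ)) ^ (t j) ∣ rowQ Q a j := by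
    intro j
    rw [← mem_divSubQ]
    have hc : IsClosed (divSubQ Q 1 (t j) j : Set (↥Q → ℝ)) :=
      Submodule.closed_of_finiteDimensional _
    exact hc.mem_of_tendsto hlim
      (Eventually.of_forall fun p => (mem_divSubQ Q 1 (t j) j _).2 (hz2 (φ p) j))
  have hlam : Tendsto (fun p : ℕ => (((φ p : ℕ) : ℝ) + 1)) atTop atTop :=
    (tendsto_atTop_add_const_right _ _ tendsto_natCast_atTop_atTop).comp hφ.tendsto_atTop
  have hcoef : ∀ (x : ℝ) (j al : ℕ), Tendsto
      (fun p => (taylor x (rowQ Q (z (φ p)) j)).coeff al) atTop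
      (𝓝 ((taylor x (rowQ Q a j)).coeff al)) := by
    intro x j al
    simp only [taylor_rowQ]
    apply tendsto_finsetSum
    intro q _
    split_ifs
    · exact ((tendsto_pi_nhds.1 hlim) q).mul_const _
    · exact tendsto_const_nhds
  have hdiv : ∀ i j0, (X - C (xpos i)) ^ (V i j0) ∣ rowQ Q a j0 := by
    intro i j0
    by_cases hj0 : j0 < N
    swap
    · rw [rowQ_eq_zero Q N hN a j0 (by omega)]; exact dvd_zero _
    rw [pow_dvd_iff_taylor]
    intro al hal
    obtain ⟨g, hg⟩ := exists_interp N (m i - al) ((Finset.range N).filter (fun j => al < V i j))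
      (hV i al _ (fun j hj => (Finset.mem_filter.1 hj).2)) j0
    have h2 : ∀ p, (taylor (xpos i) (rowQ Q (z (φ p)) j0)).coeff al =
        ∑ j ∈ Finset.range N \ (Finset.range N).filter (fun j => al < V i j),
          g j * ((taylor (xpos i) (rowQ Q (z (φ p)) j)).coeff al *
            ((((φ p : ℕ) : ℝ) + 1) ^ (-((s i * j0 - w j0) - (s i * j - w j))))) := by
      intro p
      have h3 := off_dvdQ Q N (m i) (xpos i) _ (hz3 (φ p) i) al
      have h4 := hg _ h3 (by
        intro j hj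
        rw [Polynomial.finsetSum_coeff]
        apply Finset.sum_eq_zero
        intro r hr
        rw [Finset.mem_range] at hr
        rw [coeff_C_mul, coeff_X_pow, if_neg (by omega), mul_zero])
      have h5 : ∀ j < N, (∑ r ∈ Finset.range N, C ((taylor (xpos i) (rowQ Q
          (scQ Q (fun j => (((φ p : ℕ) : ℝ) + 1) ^ (s i * j - w j)) (z (φ p))) r)).coeff al) *
            X ^ r : ℝ[X]).coeff j = (((φ p : ℕ) : ℝ) + 1) ^ (s i * j - w j) *
            (taylor (xpos i) (rowQ Q (z (φ p)) j)).coeff al := by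
        intro j hj
        rw [Polynomial.finsetSum_coeff]
        simp only [coeff_C_mul, coeff_X_pow, mul_ite, mul_one, mul_zero]
        rw [Finset.sum_ite_eq, if_pos (Finset.mem_range.2 hj), rowQ_scQ, taylor_mul, taylor_C,
          coeff_C_mul]
      rw [h5 j0 hj0] at h4
      have h6 := (Real.rpow_pos_of_pos (hpos (φ p)) (s i * j0 - w j0)).ne'
      have h7 : (taylor (xpos i) (rowQ Q (z (φ p)) j0)).coeff al =
          ((((φ p : ℕ) : ℝ) + 1) ^ (s i * j0 - w j0))⁻¹ *
          ∑ j ∈ Finset.range N \ (Finset.range N).filter (fun j => al < V i j),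
            g j * (∑ r ∈ Finset.range N, C ((taylor (xpos i) (rowQ Q
          (scQ Q (fun j => (((φ p : ℕ) : ℝ) + 1) ^ (s i * j - w j)) (z (φ p))) r)).coeff al) *
            X ^ r : ℝ[X]).coeff j := by
        rw [← h4, ← mul_assoc, inv_mul_cancel₀ h6, one_mul]
      rw [h7, Finset.mul_sum]
      refine Finset.sum_congr rfl fun j hj => ?_
      rw [Finset.mem_sdiff, Finset.mem_range] at hj
      rw [h5 j hj.1, neg_sub, Real.rpow_sub (hpos (φ p)) (s i * j - w j) (s i * j0 - w j0)]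
      field_simp
    have h3 : Tendsto (fun p => ∑ j ∈ Finset.range N \ (Finset.range N).filter
        (fun j => al < V i j), g j * ((taylor (xpos i) (rowQ Q (z (φ p)) j)).coeff al *
            ((((φ p : ℕ) : ℝ) + 1) ^ (-((s i * j0 - w j0) - (s i * j - w j)))))) atTop
        (𝓝 (∑ j ∈ Finset.range N \ (Finset.range N).filter (fun j => al < V i j),
          g j * ((taylor (xpos i) (rowQ Q a j)).coeff al * 0))) := by
      apply tendsto_finsetSum
      intro j hj
      rw [Finset.mem_sdiff, Finset.mem_range, Finset.mem_filter, Finset.mem_range, not_and,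
        not_lt] at hj
      refine ((hcoef (xpos i) j al).mul ?_).const_mul _
      have h4 := hθ i j0 j hj0 hj.1 (lt_of_le_of_lt (hj.2 hj.1) hal)
      exact (tendsto_rpow_neg_atTop (by linarith)).comp hlam
    simp only [mul_zero, Finset.sum_const_zero] at h3
    exact tendsto_nhds_unique ((hcoef (xpos i) j0 al).congr fun p => h2 p) h3
  have hzero : ∀ j, rowQ Q a j = 0 := by
    intro j
    exact row_zero xpos xpos_pos xpos_inj 1 one_pos xpos_ne _ Finset.univ (fun i => V i j)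
      (fun i _ => hdiv i j) (t j) (hat j) ((card_support_rowQ Q a j).trans (hcap j))
  funext q
  rw [← coeff_rowQ Q a q, hzero]
  simp

end Pool.MP_70e04f_ag.Hex

end

/-! ### from `Lib_MP_70e04f_hex.FrontQ` -/

section

/-!
# Front positions for a general set of exponents (piece FRONTQ)

HOW TO: this is `finrank_of_front` and `good_of_front` of `FrontPot.lean` with `condP Q m p`,
`p i = ![xpos i, u i]`, instead of `degMat k N m xpos u 0`, with `pot_posQ` instead of `pot_pos`
and `condP_mulVec` instead of `degMat_zero_mulVec`. `front_order` is reused with an `N` so large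
that `b i ≤ N` for all `i` and `q.2 < N` for all `q ∈ Q` (also `m i + b i + 2 ≤ N` if useful).
One needs `∑ j < N, rowc Q j = Q.card` (`Finset.card_eq_sum_card_fiberwise`).
-/

namespace Pool.MP_70e04f_ag.Hex

open Polynomial

lemma sum_rowc (Q : Finset (ℕ × ℕ)) (N : ℕ) (hN : ∀ q ∈ Q, q.2 < N) :
    ∑ j ∈ Finset.range N, rowc Q j = Q.card := by
  classical
  unfold rowc
  symm
  apply Finset.card_eq_sum_card_fiberwise
  intro q hq
  exact Finset.mem_coe.2 (Finset.mem_range.2 (hN q hq))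

lemma rowc_eq_zero (Q : Finset (ℕ × ℕ)) (N : ℕ) (hN : ∀ q ∈ Q, q.2 < N) (j : ℕ) (hj : N ≤ j) :
    rowc Q j = 0 := by
  unfold rowc
  rw [Finset.card_eq_zero, Finset.filter_eq_empty_iff]
  intro q hq h
  have := hN q hq
  omega

/-- The dimension bound given by front positions. -/
theorem finrank_of_frontQ {n : ℕ} (Q : Finset (ℕ × ℕ)) (N : ℕ) (hN : ∀ q ∈ Q, q.2 < N)
    (m b c : Fin n → ℕ) (hc : ∀ i, c i ≤ b i + 1) (hb : ∀ i, b i ≤ N) (t : ℕ → ℕ)
    (hcap : ∀ j, rowc Q j ≤ (∑ i, vp (m i) (b i) (c i) j) + t j) :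
    ∃ p : Fin n → Fin 2 → ℝ, Module.finrank ℝ (LinearMap.ker (condP Q m p).mulVecLin) ≤
      ∑ j ∈ Finset.range N, t j := by
  classical
  obtain ⟨u, hu⟩ := pot_posQ Q N hN m (fun i => vp (m i) (b i) (c i))
    (fun j => (2 * (N : ℝ) + 4) ^ j)
    (fun i => (2 * (N : ℝ) + 4) ^ (b i + 1) / ((b i : ℝ) + 3 / 2 - c i))
    (fun i => patOK_vp (m i) (b i) (c i) (hc i))
    (fun i j0 j hj0 hj h => front_order N (m i) (b i) (c i) (hc i) (hb i) j0 j hj0 hj h) t hcap
  refine ⟨fun i => ![xpos i, u i], ?_⟩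
  let θ : (↥Q → ℝ) →ₗ[ℝ] ((Σ j : Fin N, Fin (t j)) → ℝ) :=
    { toFun := fun v c => (taylor 1 (rowQ Q v c.1)).coeff c.2
      map_add' := by
        intro v w
        funext c
        simp only [taylor_rowQ, Pi.add_apply]
        rw [← Finset.sum_add_distrib]
        refine Finset.sum_congr rfl fun q _ => ?_
        split_ifs <;> ring
      map_smul' := by
        intro a v
        funext c
        simp only [taylor_rowQ, Pi.smul_apply, smul_eq_mul, RingHom.id_apply, Finset.mul_sum]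
        refine Finset.sum_congr rfl fun q _ => ?_
        split_ifs <;> ring }
  have hcard : Fintype.card (Σ j : Fin N, Fin (t j)) = ∑ j ∈ Finset.range N, t j := by
    rw [Fintype.card_sigma, Finset.sum_range]
    simp
  rw [← hcard]
  apply finrank_ker_le _ θ
  intro v hv hθ
  apply hu v
  · intro j
    rw [pow_dvd_iff_taylor]
    intro d hd
    by_cases hj : j < N
    · exact congrFun hθ ⟨⟨j, hj⟩, ⟨d, hd⟩⟩
    · rw [rowQ_eq_zero Q N hN v j (by omega)]; simp
  · intro i al be hab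
    have hc := congrFun hv ⟨i, ⟨(al, be), mem_tri.2 hab⟩⟩
    rw [condP_mulVec Q N hN] at hc
    exact hc

/-- Front positions that fill or do not overfill the rows of `Q`. -/
theorem OK.of_front {n : ℕ} (Q : Finset (ℕ × ℕ)) (m b c : Fin n → ℕ) (hc : ∀ i, c i ≤ b i + 1)
    (hcap : (∀ j, rowc Q j ≤ ∑ i, vp (m i) (b i) (c i) j) ∨
      (∀ j, ∑ i, vp (m i) (b i) (c i) j ≤ rowc Q j)) : OK Q m := by
  obtain ⟨N, hN, hb⟩ : ∃ N : ℕ, (∀ q ∈ Q, q.2 < N) ∧ ∀ i, b i ≤ N := by
    refine ⟨(∑ q ∈ Q, (q.2 + 1)) + ∑ i, b i, ?_, ?_⟩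
    · intro q hq
      have := Finset.single_le_sum (f := fun q : ℕ × ℕ => q.2 + 1) (fun _ _ => Nat.zero_le _) hq
      omega
    · intro i
      have := Finset.single_le_sum (f := b) (fun _ _ => Nat.zero_le _) (Finset.mem_univ i)
      omega
  rcases hcap with hcap | hcap
  · obtain ⟨p, hp⟩ := finrank_of_frontQ Q N hN m b c hc hb (fun _ => 0) hcap
    refine ⟨p, ?_⟩
    unfold Good
    rw [Finset.sum_const_zero] at hp
    omega
  · obtain ⟨p, hp⟩ := finrank_of_frontQ Q N hN m b c hc hb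
      (fun j => rowc Q j - ∑ i, vp (m i) (b i) (c i) j) (fun j => by have := hcap j; omega)
    refine ⟨p, ?_⟩
    have h1 : ∑ j ∈ Finset.range N, (rowc Q j - ∑ i, vp (m i) (b i) (c i) j) +
        ∑ j ∈ Finset.range N, ∑ i, vp (m i) (b i) (c i) j = Q.card := by
      rw [← sum_rowc Q N hN, ← Finset.sum_add_distrib]
      refine Finset.sum_congr rfl fun j _ => ?_
      have := hcap j
      omega
    have h0 : ∀ j, N ≤ j → rowc Q j = 0 := rowc_eq_zero Q N hN
    have h2 : ∑ j ∈ Finset.range N, ∑ i, vp (m i) (b i) (c i) j =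
        Fintype.card (Σ i : Fin n, ↥(tri (m i))) := by
      rw [Finset.sum_comm, Fintype.card_sigma]
      refine Finset.sum_congr rfl fun i _ => ?_
      have hz : ∀ j, N ≤ j → vp (m i) (b i) (c i) j = 0 := by
        intro j hj
        have h4 := hcap j
        rw [h0 j hj, Nat.le_zero] at h4
        exact (Finset.sum_eq_zero_iff.1 h4) i (Finset.mem_univ i)
      have h3 := sum_vp (m i) (b i) (c i) (N + b i + 2 + m i) (hc i) (by omega) (by omega)
      have h6 : ∑ j ∈ Finset.range (N + b i + 2 + m i), vp (m i) (b i) (c i) j =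
          ∑ j ∈ Finset.range N, vp (m i) (b i) (c i) j := by
        symm
        apply Finset.sum_subset (Finset.range_subset_range.2 (by omega))
        intro j _ hj
        rw [Finset.mem_range, not_lt] at hj
        exact hz j hj
      rw [h6] at h3
      have h5 := two_card_tri (m i)
      rw [Fintype.card_coe]
      omega
    unfold Good
    rw [Fintype.card_coe]
    omega

end Pool.MP_70e04f_ag.Hex

end

/-! ### from `Lib_MP_70e04f_nine.Fact` -/

section

/-!
# Multiples of the curve (piece FACT)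

PAPER PROOFS. `mul_mem_Lsys2`: degrees add (if `N = 0` or `N' = 0` a factor is zero,
`eq_zero_of_mem_Lsys_zero` in `Lib_MP_70e04f_add/Filt.lean`), `I ^ a * I ^ b ⊆ I ^ (a + b)`.
`curve_mul_iff`: from right to left `mul_mem_Lsys2` and `Lsys_anti` (if `N < k` then `G = 0`). From
left to right: if `G ≠ 0` then `totalDegree (f * G) = k + totalDegree G`
(`totalDegree_mul_of_isDomain`, `mem_range_tri`), and `mem_pow_sub` at every `q t`.
`row_mul_mem`: `mul_mem_Lsys2` and `Lsys_anti`; if `N < (j + 1) * k` then `G = 0`.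
`finrank_br`: rank-nullity for the restriction of `br P lam η` to `Lsys N m q`; its kernel is the
space of multiples of `f` in `Lsys N m q`, which is the image of `Lsys (N - k) (m - c) q` under the
injective multiplication by `f` (`curve_mul_iff`).
-/

namespace Pool.MP_70e04f_ag.Nine

open MvPolynomial Pool.MP_70e04f_ag.Hex Pool.MP_70e04f_ag.Add

theorem Lsys_anti {τ : Type*} {N N' : ℕ} {m m' : τ → ℕ} {q : τ → Fin 2 → ℝ} (h : N ≤ N')
    (h' : ∀ t, m' t ≤ m t) : Lsys N m q ≤ Lsys N' m' q := by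
  intro F hF
  obtain ⟨h1, h2⟩ := Submodule.mem_inf.1 hF
  refine Submodule.mem_inf.2 ⟨?_, ?_⟩
  · rw [mem_range_toPS] at h1 ⊢
    intro s hs
    have := mem_tri.1 (h1 s hs)
    exact mem_tri.2 (this.trans_le h)
  · rw [mem_vanish] at h2 ⊢
    intro t
    exact Ideal.pow_le_pow_right (h' t) (h2 t)

theorem mul_mem_Lsys2 {τ : Type*} {N N' : ℕ} {m m' : τ → ℕ} {q : τ → Fin 2 → ℝ}
    {A G : MvPolynomial (Fin 2) ℝ} (hA : A ∈ Lsys N m q) (hG : G ∈ Lsys N' m' q) :
    A * G ∈ Lsys (N + N' - 1) (fun t => m t + m' t) q := by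
  rcases Nat.eq_zero_or_pos N with h0 | h0
  · subst h0
    rw [eq_zero_of_mem_Lsys_zero hA, zero_mul]
    exact Submodule.zero_mem _
  rcases Nat.eq_zero_or_pos N' with h0' | h0'
  · subst h0'
    rw [eq_zero_of_mem_Lsys_zero hG, mul_zero]
    exact Submodule.zero_mem _
  obtain ⟨n, rfl⟩ : ∃ n, N = n + 1 := ⟨N - 1, by omega⟩
  obtain ⟨n', rfl⟩ : ∃ n', N' = n' + 1 := ⟨N' - 1, by omega⟩
  obtain ⟨hA1, hA2⟩ := Submodule.mem_inf.1 hA
  obtain ⟨hG1, hG2⟩ := Submodule.mem_inf.1 hG
  refine Submodule.mem_inf.2 ⟨?_, ?_⟩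
  · rw [mem_range_tri] at hA1 hG1
    rw [show n + 1 + (n' + 1) - 1 = n + n' + 1 by omega, mem_range_tri]
    exact (totalDegree_mul _ _).trans (add_le_add hA1 hG1)
  · rw [mem_vanish] at hA2 hG2 ⊢
    intro t
    rw [pow_add]
    exact Ideal.mul_mem_mul (hA2 t) (hG2 t)

/-- Multiples of the curve. -/
theorem curve_mul_iff {τ : Type*} {k N : ℕ} {m c : τ → ℕ} {q : τ → Fin 2 → ℝ}
    {f G : MvPolynomial (Fin 2) ℝ} {P : Fin 2 → ℝ} (hf : IsCurve k c q f P) :
    f * G ∈ Lsys N m q ↔ G ∈ Lsys (N - k) (fun t => m t - c t) q := by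
  constructor
  · intro h
    by_cases hG0 : G = 0
    · rw [hG0]
      exact Submodule.zero_mem _
    obtain ⟨h1, h2⟩ := Submodule.mem_inf.1 h
    have hf0 : f ≠ 0 := hf.irr.ne_zero
    have hN : 1 ≤ N := by
      rcases Nat.eq_zero_or_pos N with h0 | h0
      · subst h0
        exact absurd (eq_zero_of_mem_Lsys_zero h) (mul_ne_zero hf0 hG0)
      · exact h0
    obtain ⟨n, rfl⟩ : ∃ n, N = n + 1 := ⟨N - 1, by omega⟩
    rw [mem_range_tri, totalDegree_mul_of_isDomain hf0 hG0, hf.deg] at h1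
    refine Submodule.mem_inf.2 ⟨?_, ?_⟩
    · rw [show n + 1 - k = (n - k) + 1 by omega, mem_range_tri]
      omega
    · rw [mem_vanish] at h2 ⊢
      intro t
      exact mem_pow_sub (hf.exact t) (h2 t)
  · intro h
    rcases Nat.lt_or_ge k N with hk | hk
    · refine Lsys_anti (by omega) (fun t => ?_) (mul_mem_Lsys2 hf.mem h)
      show m t ≤ c t + (m t - c t)
      omega
    · have h0 : N - k = 0 := by omega
      rw [h0] at h
      rw [eq_zero_of_mem_Lsys_zero h, mul_zero]
      exact Submodule.zero_mem _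

/-- Products with elements of the system of the curve. -/
theorem row_mul_mem {τ : Type*} {k N j : ℕ} {m c : τ → ℕ} {q : τ → Fin 2 → ℝ}
    {H G : MvPolynomial (Fin 2) ℝ} (hH : H ∈ Lsys (k + 1) c q)
    (hG : G ∈ Lsys (N - (j + 1) * k) (fun t => m t - (j + 1) * c t) q) :
    H * G ∈ Lsys (N - j * k) (fun t => m t - j * c t) q := by
  have e1 : (j + 1) * k = j * k + k := by ring
  rcases Nat.lt_or_ge ((j + 1) * k) N with hk | hk
  · refine Lsys_anti (by omega) (fun t => ?_) (mul_mem_Lsys2 hH hG)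
    show m t - j * c t ≤ c t + (m t - (j + 1) * c t)
    have e2 : (j + 1) * c t = j * c t + c t := by ring
    omega
  · have h0 : N - (j + 1) * k = 0 := by omega
    rw [h0] at hG
    rw [eq_zero_of_mem_Lsys_zero hG, mul_zero]
    exact Submodule.zero_mem _

/-- The dimension of the restriction to the curve. -/
theorem finrank_br {τ : Type*} {k N : ℕ} {m c : τ → ℕ} {q : τ → Fin 2 → ℝ}
    {f : MvPolynomial (Fin 2) ℝ} {P : Fin 2 → ℝ} (hf : IsCurve k c q f P) {lam : ℝ}
    {η : PowerSeries ℝ} (hbr : ∀ G, br P lam η G = 0 ↔ f ∣ G) :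
    Module.finrank ℝ ↥((Lsys N m q).map (br P lam η).toLinearMap) +
      hT (N - k) (fun t => m t - c t) q = hT N m q := by
  have hf0 : f ≠ 0 := hf.irr.ne_zero
  set W := Lsys N m q with hW
  have : Module.Finite ℝ ↥W := by
    have h1 : Module.Finite ℝ ↥(LinearMap.range (toPS (tri N))) := inferInstance
    rw [hW, Lsys]
    exact Submodule.finiteDimensional_inf_left _ _
  let M : MvPolynomial (Fin 2) ℝ →ₗ[ℝ] MvPolynomial (Fin 2) ℝ := LinearMap.mulLeft ℝ f
  have hM : Function.Injective M := fun G G' h => mul_left_cancel₀ hf0 h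
  have h7 := LinearMap.finrank_range_add_finrank_ker ((br P lam η).toLinearMap.domRestrict W)
  rw [LinearMap.range_domRestrict] at h7
  have hmap : (LinearMap.ker ((br P lam η).toLinearMap.domRestrict W)).map W.subtype =
      (Lsys (N - k) (fun t => m t - c t) q).map M := by
    ext F
    constructor
    · rintro ⟨x, hx, rfl⟩
      have h1 : br P lam η x.1 = 0 := hx
      obtain ⟨G, hG⟩ := (hbr x.1).1 h1
      refine ⟨G, ?_, hG.symm⟩
      have h2 : x.1 ∈ Lsys N m q := x.2
      rw [hG] at h2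
      exact (curve_mul_iff hf).1 h2
    · rintro ⟨G, hG, rfl⟩
      have h1 : f * G ∈ W := (curve_mul_iff hf).2 hG
      refine ⟨⟨f * G, h1⟩, ?_, rfl⟩
      exact (hbr (f * G)).2 (dvd_mul_right f G)
  have h8 := (Submodule.equivMapOfInjective W.subtype W.injective_subtype
    (LinearMap.ker ((br P lam η).toLinearMap.domRestrict W))).finrank_eq
  have h9 := (Submodule.equivMapOfInjective M hM
    (Lsys (N - k) (fun t => m t - c t) q)).finrank_eq
  rw [hmap, ← h9] at h8
  rw [h8] at h7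
  exact h7

end Pool.MP_70e04f_ag.Nine

end

/-! ### from `Lib_MP_70e04f_std.First` -/

section

/-!
# The first difference of `F2`
-/

namespace Pool.MP_70e04f_ag.Std3

open Pool.MP_70e04f_ag.Hex

lemma dT_nonneg (g l : ℤ) (hg : 0 ≤ g) (hl : 1 ≤ l) : T2 (g + l) - T2 g = 2 * l * g + l ^ 2 + l := by
  rw [T2_of_nonneg (by omega), T2_of_nonneg hg]
  ring

lemma dT_neg (g l : ℤ) (hg : g < 0) (hl : 1 ≤ l) : T2 (g + l) - T2 g ≤ l ^ 2 - l := by
  rw [T2_of_nonpos hg.le]
  rcases le_or_gt 0 (g + l) with h | h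
  · rw [T2_of_nonneg h]
    nlinarith
  · rw [T2_of_nonpos h.le]
    nlinarith

lemma cT_le (y r : ℤ) (hr : 1 ≤ r) : T2 y - T2 (y - r) ≤ 2 * r * max 0 y := by
  rcases le_or_gt y 0 with h | h
  · rw [T2_of_nonpos h, T2_of_nonpos (by omega), max_eq_left h]
    simp
  · rw [T2_of_nonneg h.le, max_eq_right h.le]
    rcases le_or_gt 0 (y - r) with h1 | h1
    · rw [T2_of_nonneg h1]
      nlinarith
    · rw [T2_of_nonpos h1.le]
      nlinarith

/-- The first difference of `F2`. -/
lemma first_diff (X Y g e l r : ℤ) (hX : 0 ≤ X) (hY : 0 ≤ Y) (hl : 1 ≤ l) (hr : 1 ≤ r)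
    (hg : g ≤ Y) (he : e ≤ Y) (hge : g + e ≤ X + Y - 1) :
    2 * l * r ≤ F2 (X - 1 + (l + r)) (Y - 1 + l) (g + l) (e + l) - F2 (X - 1) (Y - 1) g e := by
  unfold F2
  rw [show g + l - (X - 1 + (l + r)) - 1 = g - X - r by ring,
    show e + l - (X - 1 + (l + r)) - 1 = e - X - r by ring,
    show g - (X - 1) - 1 = g - X by ring, show e - (X - 1) - 1 = e - X by ring]
  have c1 := cT_le (g - X) r hr
  have c2 := cT_le (e - X) r hr
  have hXl : 0 ≤ X * l := mul_nonneg hX (by omega)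
  have hlr : 0 ≤ l * r := mul_nonneg (by omega) (by omega)
  have hYr : 0 ≤ Y * r := mul_nonneg hY (by omega)
  rcases lt_or_ge g 0 with h1 | h1
  · have d1 := dT_neg g l h1 hl
    rw [max_eq_left (by omega : g - X ≤ 0)] at c1
    rcases lt_or_ge e 0 with h2 | h2
    · have d2 := dT_neg e l h2 hl
      rw [max_eq_left (by omega : e - X ≤ 0)] at c2
      nlinarith
    · have d2 := dT_nonneg e l h2 hl
      have h3 : max 0 (e - X) ≤ Y := max_le hY (by omega)
      have h4 : 2 * r * max 0 (e - X) ≤ 2 * r * Y := mul_le_mul_of_nonneg_left h3 (by omega)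
      have h5 : 2 * l * e ≤ 2 * l * Y := mul_le_mul_of_nonneg_left he (by omega)
      nlinarith
  · have d1 := dT_nonneg g l h1 hl
    rcases lt_or_ge e 0 with h2 | h2
    · have d2 := dT_neg e l h2 hl
      rw [max_eq_left (by omega : e - X ≤ 0)] at c2
      have h3 : max 0 (g - X) ≤ Y := max_le hY (by omega)
      have h4 : 2 * r * max 0 (g - X) ≤ 2 * r * Y := mul_le_mul_of_nonneg_left h3 (by omega)
      have h5 : 2 * l * g ≤ 2 * l * Y := mul_le_mul_of_nonneg_left hg (by omega)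
      nlinarith
    · have d2 := dT_nonneg e l h2 hl
      have h3 : max 0 (g - X) + max 0 (e - X) ≤ Y := by
        rcases le_or_gt (g - X) 0 with h | h
        · rw [max_eq_left h]
          have : max 0 (e - X) ≤ Y := max_le hY (by omega)
          omega
        · rcases le_or_gt (e - X) 0 with h' | h'
          · rw [max_eq_left h']
            have : max 0 (g - X) ≤ Y := max_le hY (by omega)
            omega
          · rw [max_eq_right h.le, max_eq_right h'.le]
            omega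
      have h4 : 2 * r * (max 0 (g - X) + max 0 (e - X)) ≤ 2 * r * Y :=
        mul_le_mul_of_nonneg_left h3 (by omega)
      have h5 : 2 * l * (g + e) ≤ 2 * l * (X + Y - 1) := mul_le_mul_of_nonneg_left hge (by omega)
      nlinarith

end Pool.MP_70e04f_ag.Std3

end
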