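import Pool.Agent.Lib_MP_70e04f_m.M14
import Pool.Agent.Lib_MP_70e04f_m.M16
import Pool.Agent.Lib_MP_70e04f_m.M20

/-!
# MP_70e04f_ag, plane linear systems: merged library part M22

Concatenation of smaller files (each in its own section), only to save build time.
-/

/-! ### from `Lib_MP_70e04f_ag.Mix4` -/

section

/-!
The expected dimension for arbitrary multiplicities in large degree.
-/

open MvPolynomial

namespace Pool.MP_70e04f_ag

/-- Sorting a family of multiplicities. -/
lemma exists_sorted {n : ℕ} (mm : Fin n → ℕ) : ∃ lam : ℕ → ℕ, ∃ σ : Equiv.Perm (Fin n),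
    Antitone lam ∧ (∀ i : Fin n, lam i = mm (σ i)) ∧ ∀ i, n ≤ i → lam i = 0 := by
  classical
  set σ := Tuple.sort (fun i => OrderDual.toDual (mm i)) with hσ
  have hmono : ∀ i j : Fin n, i ≤ j → mm (σ j) ≤ mm (σ i) := by
    intro i j hij
    have := Tuple.monotone_sort (fun i => OrderDual.toDual (mm i)) hij
    exact this
  refine ⟨fun i => if h : i < n then mm (σ ⟨i, h⟩) else 0, σ, ?_, ?_, ?_⟩
  · intro i j hij
    simp only
    split_ifs with h1 h2
    · exact hmono _ _ hij
    · omega
    · exact Nat.zero_le _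
    · exact le_rfl
  · intro i
    simp only
    rw [dif_pos i.2]
  · intro i hi
    simp only
    rw [dif_neg (by omega)]

/-- The exact filling of the rows. -/
theorem core_mix (k N m n : ℕ) (mm : Fin n → ℕ) (hk7 : 7 * m < k ^ 2) (hm0 : 0 < m)
    (hmm : ∀ i, mm i ≤ m) (ν p : ℕ) (hp : p ≤ ν) (hν : ν < m) (hN : k * (2 * m + 1) ≤ N)
    (htot : ∑ i, mm i * (mm i + 1) + (ν * (ν + 1) + 2 * p) = N * (N + 1)) :
    ∃ b c : Fin n → ℕ, (∀ i, c i ≤ b i + 1) ∧ (∀ i, b i ≤ N) ∧
      ∀ j, ∑ i, vp (mm i) (b i) (c i) j + ramp (2 * m) ν p j = nrow k N j := by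
  classical
  have hk : 0 < k := by
    rcases Nat.eq_zero_or_pos k with h | h
    · subst h; simp at hk7
    · exact h
  have hkk : 7 * m + 1 + k ≤ k * (k + 1) := by
    have : k * (k + 1) = k ^ 2 + k := by ring
    omega
  set β := (N - 1) / k with hβ
  have e0 : k * (2 * m + 1) = k * (2 * m) + k := by ring
  have hβ1 : k * β < N := by
    have := Nat.mul_div_le (N - 1) k
    rw [← hβ] at this
    omega
  have hβ2 : N ≤ k * (β + 1) := by
    have := Nat.lt_mul_div_succ (N - 1) hk
    rw [← hβ] at this
    omega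
  have hβ3 : 2 * m ≤ β := by
    by_contra hcon
    have h1 : k * (β + 1) ≤ k * (2 * m) := Nat.mul_le_mul_left k (by omega)
    omega
  have hβN : β ≤ N := by
    have := Nat.le_mul_of_pos_left β hk
    omega
  obtain ⟨lam, σ, hanti, hlam, hlam0⟩ := exists_sorted mm
  have hlm : ∀ i, lam i ≤ m := by
    intro i
    rcases Nat.lt_or_ge i n with h | h
    · have := hlam ⟨i, h⟩
      simp only at this
      rw [this]
      exact hmm _
    · rw [hlam0 i h]; exact Nat.zero_le _
  set r : ℕ → ℤ := fun j => (nrow k N j : ℤ) - ramp (2 * m) ν p j with hr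
  have hrle := ramp_le (2 * m) ν p m hp hν (by omega)
  have hzero : ∀ j, β < j → r j = 0 := by
    intro j hj
    have h1 : k * (β + 1) ≤ k * j := Nat.mul_le_mul_left k hj
    have h2 : ramp (2 * m) ν p j = 0 := by
      unfold ramp; rw [if_neg (by omega)]
    simp only [hr]
    rw [nrow_eq_zero k N j hk (by omega), h2]
    rfl
  have hsum : ∑ i ∈ Finset.range n, (lam i : ℤ) * (lam i + 1) =
      ((∑ i, mm i * (mm i + 1) : ℕ) : ℤ) := by
    rw [Finset.sum_range, ← Equiv.sum_comp σ (fun i => mm i * (mm i + 1))]
    push_cast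
    refine Finset.sum_congr rfl fun i _ => ?_
    rw [hlam i]
  have htr : 2 * ∑ j ∈ Finset.range (β + 2), r j =
      ∑ i ∈ Finset.range n, (lam i : ℤ) * (lam i + 1) := by
    have h1 : k * (β + 1) ≤ k * (β + 2) := Nat.mul_le_mul_left k (by omega)
    have h2 := sum_nrow_range k N hk (β + 2) (by omega)
    have h3 := sum_ramp (2 * m) ν p m hp hν (by omega) (β + 2) (by omega)
    have h4 : (2 : ℤ) * ∑ j ∈ Finset.range (β + 2), (nrow k N j : ℤ) = ((N * (N + 1) : ℕ) : ℤ) := by
      exact_mod_cast h2
    have h5 : (2 : ℤ) * ∑ j ∈ Finset.range (β + 2), (ramp (2 * m) ν p j : ℤ) =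
        ((ν * (ν + 1) + 2 * p : ℕ) : ℤ) := by exact_mod_cast h3
    have h6 : ((∑ i, mm i * (mm i + 1) : ℕ) : ℤ) + ((ν * (ν + 1) + 2 * p : ℕ) : ℤ) =
        ((N * (N + 1) : ℕ) : ℤ) := by exact_mod_cast htot
    simp only [hr]
    rw [Finset.sum_sub_distrib, mul_sub, h4, h5, hsum]
    linarith
  obtain ⟨b, c, g1, g2, g3⟩ := mix_fill lam n m β r hanti hlm hβ3 htr hzero
    (by
      simp only [hr]
      have h1 := hrle β
      rcases Nat.eq_or_lt_of_le hβ3 with h2 | h2
      · have h3 := nrow_step_ge k N hk β (by rw [← h2]; exact hN)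
        omega
      · have h3 : ramp (2 * m) ν p β = 0 := by
          unfold ramp; rw [if_neg (by omega)]
        omega)
    (fun s hs => by
      have h1 : k * (s + 1) ≤ k * β := Nat.mul_le_mul_left k hs
      have h2 := nrow_step_ge k N hk s (by omega)
      have h3 := hrle s
      simp only [hr]
      omega)
    (fun s hs => by
      have h1 : k * (s + 2) ≤ k * (2 * m + 1) := Nat.mul_le_mul_left k (by omega)
      have h2 := nrow_step_eq k N hk s (by omega)
      have h3 := ramp_mono (2 * m) ν p m hp hν (by omega) s (by omega)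
      simp only [hr]
      omega)
    ((k ^ 2 : ℕ) : ℤ)
    (fun s hs => by
      have h1 : k * (s + 2) ≤ k * (2 * m + 1) := Nat.mul_le_mul_left k (by omega)
      have h2 := nrow_step_eq k N hk s (by omega)
      have h3 := ramp_low (2 * m) ν p m hp hν (by omega) s (by omega)
      have h4 := ramp_low (2 * m) ν p m hp hν (by omega) (s + 1) (by omega)
      simp only [hr]
      rw [h3, h4]
      omega)
  refine ⟨fun i => b (σ.symm i), fun i => c (σ.symm i), fun i => g1 _,
    fun i => (g2 _).trans hβN, ?_⟩
  intro j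
  have h1 := g3 j
  have h2 : ∑ i, vp (mm i) (b (σ.symm i)) (c (σ.symm i)) j =
      ∑ i : Fin n, vp (lam i) (b i) (c i) j := by
    rw [← Equiv.sum_comp σ (fun i => vp (mm i) (b (σ.symm i)) (c (σ.symm i)) j)]
    refine Finset.sum_congr rfl fun i _ => ?_
    rw [Equiv.symm_apply_apply, hlam i]
  rw [Finset.sum_range] at h1
  simp only [hr] at h1
  have h3 : ((∑ i : Fin n, vp (lam i) (b i) (c i) j + ramp (2 * m) ν p j : ℕ) : ℤ) =
      (nrow k N j : ℤ) := by
    push_cast
    linarith
  beta_reduce
  rw [h2]
  exact_mod_cast h3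

/-- Front positions for the rows. -/
theorem main_mix (k N m n : ℕ) (mm : Fin n → ℕ) (hk7 : 7 * m < k ^ 2)
    (hmm : ∀ i, mm i ≤ m) (hN : k * (2 * m + 1) ≤ N) :
    ∃ b c : Fin n → ℕ, (∀ i, c i ≤ b i + 1) ∧ (∀ i, b i ≤ N) ∧
      ((∀ j, nrow k N j ≤ ∑ i, vp (mm i) (b i) (c i) j) ∨
        (∀ j, ∑ i, vp (mm i) (b i) (c i) j ≤ nrow k N j)) := by
  classical
  have hk : 0 < k := by
    rcases Nat.eq_zero_or_pos k with h | h
    · subst h; simp at hk7
    · exact h
  rcases Nat.eq_zero_or_pos m with hm0 | hm0
  · refine ⟨fun _ => 0, fun _ => 0, fun _ => by omega, fun _ => Nat.zero_le _, Or.inr ?_⟩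
    intro j
    rw [Finset.sum_eq_zero]
    · exact Nat.zero_le _
    · intro i _
      have := hmm i
      unfold vp
      split_ifs <;> omega
  have hmN : 2 * m + 1 ≤ N := (Nat.le_mul_of_pos_left _ hk).trans hN
  have hpar : ∀ x : ℕ, x * (x + 1) % 2 = 0 := fun x => Nat.even_iff.1 (Nat.even_mul_succ_self x)
  have hpars : ∀ {n : ℕ} (mm : Fin n → ℕ), (∑ i, mm i * (mm i + 1)) % 2 = 0 := by
    intro n mm
    apply Nat.even_iff.1
    apply Finset.even_sum
    intro i _
    exact Nat.even_mul_succ_self _
  rcases Nat.le_total (∑ i, mm i * (mm i + 1)) (N * (N + 1)) with hcase | hcase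
  · -- few points
    obtain ⟨x, hx⟩ : ∃ x, ∑ i, mm i * (mm i + 1) + 2 * x = N * (N + 1) :=
      ⟨(N * (N + 1) - ∑ i, mm i * (mm i + 1)) / 2, by
        have := hpar N
        have := hpars mm
        omega⟩
    obtain ⟨b, c, g1, g2, g3⟩ := core_mix k N m (n + x) (Fin.append mm (fun _ => 1)) hk7 hm0
      (by
        intro i
        refine Fin.addCases (fun i => ?_) (fun i => ?_) i
        · rw [Fin.append_left]; exact hmm i
        · rw [Fin.append_right]; omega) 0 0 le_rfl hm0 hN
      (by
        rw [Fin.sum_univ_add]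
        simp only [Fin.append_left, Fin.append_right, Finset.sum_const, Finset.card_univ,
          Fintype.card_fin, smul_eq_mul]
        omega)
    refine ⟨fun i => b (Fin.castAdd x i), fun i => c (Fin.castAdd x i), fun i => g1 _,
      fun i => g2 _, Or.inr ?_⟩
    intro j
    have h1 := g3 j
    rw [Fin.sum_univ_add] at h1
    simp only [Fin.append_left] at h1
    beta_reduce
    omega
  · -- many points
    set P : ℕ → Prop := fun a => ∑ i ∈ Finset.univ.filter (fun i : Fin n => (i : ℕ) < a),
      mm i * (mm i + 1) ≤ N * (N + 1) with hP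
    set A := Nat.findGreatest P n with hA
    have hP0 : P 0 := by
      simp only [hP]
      rw [Finset.filter_false_of_mem]
      · simp
      · intro i _; omega
    have hAn : A ≤ n := Nat.findGreatest_le n
    have hPA : P A := Nat.findGreatest_spec (Nat.zero_le n) hP0
    -- the sum over the first points
    have hfirst : ∀ (f : Fin n → ℕ), ∑ i ∈ Finset.univ.filter (fun i : Fin n => (i : ℕ) < A), f i =
        ∑ i : Fin A, f (Fin.castLE hAn i) := by
      intro f
      symm
      apply Finset.sum_bij (fun i _ => Fin.castLE hAn i)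
      · intro i _
        rw [Finset.mem_filter]
        exact ⟨Finset.mem_univ _, i.2⟩
      · intro i _ j _ hij
        exact Fin.castLE_injective hAn hij
      · intro i hi
        rw [Finset.mem_filter] at hi
        exact ⟨⟨i, hi.2⟩, Finset.mem_univ _, rfl⟩
      · intro i _; rfl
    have hPA' : ∑ i : Fin A, mm (Fin.castLE hAn i) * (mm (Fin.castLE hAn i) + 1) ≤
        N * (N + 1) := by
      rw [← hfirst (fun i => mm i * (mm i + 1))]
      exact hPA
    obtain ⟨x, hx⟩ : ∃ x, ∑ i : Fin A, mm (Fin.castLE hAn i) * (mm (Fin.castLE hAn i) + 1) +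
        2 * x = N * (N + 1) :=
      ⟨(N * (N + 1) - ∑ i : Fin A, mm (Fin.castLE hAn i) * (mm (Fin.castLE hAn i) + 1)) / 2, by
        have := hpar N
        have := hpars (fun i : Fin A => mm (Fin.castLE hAn i))
        omega⟩
    rcases Nat.eq_zero_or_pos x with hx0 | hx0
    · -- exact
      obtain ⟨b, c, g1, g2, g3⟩ := core_mix k N m A (fun i => mm (Fin.castLE hAn i)) hk7 hm0
        (fun i => hmm _) 0 0 le_rfl hm0 hN (by omega)
      refine ⟨fun i => if h : (i : ℕ) < A then b ⟨i, h⟩ else 0,
        fun i => if h : (i : ℕ) < A then c ⟨i, h⟩ else 0, ?_, ?_, Or.inl ?_⟩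
      · intro i
        simp only
        split_ifs
        · exact g1 _
        · omega
      · intro i
        simp only
        split_ifs
        · exact g2 _
        · omega
      · intro j
        have h1 := g3 j
        have h2 : ramp (2 * m) 0 0 j = 0 := by
          unfold ramp; split_ifs <;> omega
        rw [← h1, h2, add_zero]
        have h3 := hfirst (fun i => vp (mm i) (if h : (i : ℕ) < A then b ⟨i, h⟩ else 0)
          (if h : (i : ℕ) < A then c ⟨i, h⟩ else 0) j)
        have h4 : ∑ i : Fin A, vp (mm (Fin.castLE hAn i))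
            (if h : ((Fin.castLE hAn i : Fin n) : ℕ) < A then b ⟨(Fin.castLE hAn i : Fin n), h⟩ else 0)
            (if h : ((Fin.castLE hAn i : Fin n) : ℕ) < A then c ⟨(Fin.castLE hAn i : Fin n), h⟩ else 0)
            j = ∑ i : Fin A, vp (mm (Fin.castLE hAn i)) (b i) (c i) j := by
          refine Finset.sum_congr rfl fun i _ => ?_
          rw [dif_pos (show ((Fin.castLE hAn i : Fin n) : ℕ) < A from i.2),
            dif_pos (show ((Fin.castLE hAn i : Fin n) : ℕ) < A from i.2)]
          rfl
        rw [← h4, ← h3]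
        exact Finset.sum_le_sum_of_subset (Finset.filter_subset _ _)
    · -- one more point is needed
      have hAlt : A < n := by
        rcases Nat.eq_or_lt_of_le hAn with h | h
        · exfalso
          have h1 := hfirst (fun i => mm i * (mm i + 1))
          have h2 : Finset.univ.filter (fun i : Fin n => (i : ℕ) < A) = Finset.univ := by
            apply Finset.filter_true_of_mem
            intro i _
            rw [h]; exact i.2
          rw [h2] at h1
          omega
        · exact h
      set a : Fin n := ⟨A, hAlt⟩ with ha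
      have hover : N * (N + 1) < ∑ i : Fin A, mm (Fin.castLE hAn i) *
          (mm (Fin.castLE hAn i) + 1) + mm a * (mm a + 1) := by
        have h1 : ¬ P (A + 1) :=
          Nat.findGreatest_is_greatest (P := P) (k := A + 1) (n := n) (Nat.lt_succ_self A) hAlt
        simp only [hP, not_le] at h1
        have h2 : Finset.univ.filter (fun i : Fin n => (i : ℕ) < A + 1) =
            insert a (Finset.univ.filter (fun i : Fin n => (i : ℕ) < A)) := by
          ext i
          rw [Finset.mem_insert, Finset.mem_filter, Finset.mem_filter, Fin.ext_iff]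
          simp only [Finset.mem_univ, true_and, ha]
          omega
        rw [h2, Finset.sum_insert (by rw [Finset.mem_filter]; simp [ha]),
          hfirst (fun i => mm i * (mm i + 1))] at h1
        omega
      obtain ⟨ν, p, hp, hνp⟩ := exists_tri x
      have hν : ν < mm a := by
        by_contra hcon
        have : mm a * (mm a + 1) ≤ ν * (ν + 1) := Nat.mul_le_mul (by omega) (by omega)
        omega
      have hma := hmm a
      obtain ⟨b, c, g1, g2, g3⟩ := core_mix k N m A (fun i => mm (Fin.castLE hAn i)) hk7 hm0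
        (fun i => hmm _) ν p hp (by omega) hN (by omega)
      refine ⟨fun i => if h : (i : ℕ) < A then b ⟨i, h⟩ else if i = a then 2 * m else 0,
        fun i => if h : (i : ℕ) < A then c ⟨i, h⟩ else 0, ?_, ?_, Or.inl ?_⟩
      · intro i
        simp only
        split_ifs
        · exact g1 _
        · omega
        · omega
      · intro i
        simp only
        split_ifs
        · exact g2 _
        · omega
        · omega
      · intro j
        have h1 := g3 j
        have h2 := ramp_le_vp (2 * m) ν p (mm a) hp hν (by omega) j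
        rw [← h1]
        have h3 := hfirst (fun i => vp (mm i)
          (if h : (i : ℕ) < A then b ⟨i, h⟩ else if i = a then 2 * m else 0)
          (if h : (i : ℕ) < A then c ⟨i, h⟩ else 0) j)
        have h4 : ∑ i : Fin A, vp (mm (Fin.castLE hAn i))
            (if h : ((Fin.castLE hAn i : Fin n) : ℕ) < A then b ⟨(Fin.castLE hAn i : Fin n), h⟩
              else if Fin.castLE hAn i = a then 2 * m else 0)
            (if h : ((Fin.castLE hAn i : Fin n) : ℕ) < A then c ⟨(Fin.castLE hAn i : Fin n), h⟩ else 0)
            j = ∑ i : Fin A, vp (mm (Fin.castLE hAn i)) (b i) (c i) j := by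
          refine Finset.sum_congr rfl fun i _ => ?_
          rw [dif_pos (show ((Fin.castLE hAn i : Fin n) : ℕ) < A from i.2),
            dif_pos (show ((Fin.castLE hAn i : Fin n) : ℕ) < A from i.2)]
          rfl
        rw [← h4, ← h3]
        have h5 : vp (mm a) (2 * m) 0 j = vp (mm a)
          (if h : (a : ℕ) < A then b ⟨a, h⟩ else if a = a then 2 * m else 0)
          (if h : (a : ℕ) < A then c ⟨a, h⟩ else 0) j := by
          rw [dif_neg (show ¬ (a : ℕ) < A from lt_irrefl A), if_pos rfl,
            dif_neg (show ¬ (a : ℕ) < A from lt_irrefl A)]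
        have h6 : a ∉ Finset.univ.filter (fun i : Fin n => (i : ℕ) < A) := by
          rw [Finset.mem_filter]
          simp [ha]
        refine (Nat.add_le_add_left h2 _).trans ?_
        rw [h5, add_comm, ← Finset.sum_insert h6 (f := fun i => vp (mm i)
          (if h : (i : ℕ) < A then b ⟨i, h⟩ else if i = a then 2 * m else 0)
          (if h : (i : ℕ) < A then c ⟨i, h⟩ else 0) j)]
        exact Finset.sum_le_sum_of_subset (Finset.subset_univ _)

end Pool.MP_70e04f_ag

end

/-! ### from `Lib_MP_70e04f_hex.Fill` -/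

section

/-!
The exact filling of abstract row lengths by points of arbitrary multiplicities, with some large
points at rest.
-/

namespace Pool.MP_70e04f_ag.Hex

/-- The conditions on the row lengths `r0` (after the large points have been removed). -/
structure RowOK (c0 m be : ℕ) (r0 : ℕ → ℕ) : Prop where
  hbe : 2 * m ≤ be
  zero : ∀ j, be < j → r0 j = 0
  peak : m ≤ r0 (2 * m)
  slope : ∀ j, j < be → r0 (j + 1) + 2 * m ≤ r0 j
  slope7 : ∀ j, j < 2 * m → r0 (j + 1) + ((7 + c0) * m + 1) ≤ r0 j
  conc : ∀ j, j + 1 < m → r0 j + r0 (j + 2) ≤ 2 * r0 (j + 1) + c0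

/-- The exact filling of the rows. -/
theorem core_fill {c0 m be : ℕ} {r0 : ℕ → ℕ} (h : RowOK c0 m be r0) (n : ℕ) (mm : Fin n → ℕ)
    (hm0 : 0 < m) (hmm : ∀ i, mm i ≤ m) (ν p : ℕ) (hp : p ≤ ν) (hν : ν < m)
    (htot : ∑ i, mm i * (mm i + 1) + (ν * (ν + 1) + 2 * p) =
      2 * ∑ j ∈ Finset.range (be + 2), r0 j) :
    ∃ b c : Fin n → ℕ, (∀ i, c i ≤ b i + 1) ∧ (∀ i, b i ≤ be) ∧
      ∀ j, ∑ i, vp (mm i) (b i) (c i) j + ramp (2 * m) ν p j = r0 j := by
  classical
  obtain ⟨hβ3, hz, hpk, hsl, hsl7, hcc⟩ := h
  obtain ⟨lam, σ, hanti, hlam, hlam0⟩ := exists_sorted mm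
  have hlm : ∀ i, lam i ≤ m := by
    intro i
    rcases Nat.lt_or_ge i n with h | h
    · have := hlam ⟨i, h⟩
      simp only at this
      rw [this]
      exact hmm _
    · rw [hlam0 i h]; exact Nat.zero_le _
  set r : ℕ → ℤ := fun j => (r0 j : ℤ) - ramp (2 * m) ν p j with hr
  have hrle := ramp_le (2 * m) ν p m hp hν (by omega)
  have hrz : ∀ j, 2 * m < j → ramp (2 * m) ν p j = 0 := by
    intro j hj
    unfold ramp; rw [if_neg (by omega)]
  have hzero : ∀ j, be < j → r j = 0 := by
    intro j hj
    simp only [hr]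
    rw [hz j hj, hrz j (by omega)]
    rfl
  have hsum : ∑ i ∈ Finset.range n, (lam i : ℤ) * (lam i + 1) =
      ((∑ i, mm i * (mm i + 1) : ℕ) : ℤ) := by
    rw [Finset.sum_range, ← Equiv.sum_comp σ (fun i => mm i * (mm i + 1))]
    push_cast
    refine Finset.sum_congr rfl fun i _ => ?_
    rw [hlam i]
  have htr : 2 * ∑ j ∈ Finset.range (be + 2), r j =
      ∑ i ∈ Finset.range n, (lam i : ℤ) * (lam i + 1) := by
    have h3 := sum_ramp (2 * m) ν p m hp hν (by omega) (be + 2) (by omega)
    have h5 : (2 : ℤ) * ∑ j ∈ Finset.range (be + 2), (ramp (2 * m) ν p j : ℤ) =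
        ((ν * (ν + 1) + 2 * p : ℕ) : ℤ) := by exact_mod_cast h3
    have h6 : ((∑ i, mm i * (mm i + 1) : ℕ) : ℤ) + ((ν * (ν + 1) + 2 * p : ℕ) : ℤ) =
        ((2 * ∑ j ∈ Finset.range (be + 2), r0 j : ℕ) : ℤ) := by exact_mod_cast htot
    simp only [hr]
    rw [Finset.sum_sub_distrib, mul_sub, h5, hsum]
    push_cast at h6 ⊢
    linarith
  obtain ⟨b, c, g1, g2, g3⟩ := mix_fill c0 lam n m be r hanti hlm hβ3 htr hzero
    (by
      simp only [hr]
      have h1 := hrle be
      rcases Nat.eq_or_lt_of_le hβ3 with h2 | h2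
      · rw [← h2] at h1 ⊢
        omega
      · rw [hrz be h2]
        simp)
    (fun s hs => by
      have h2 := hsl s hs
      have h3 := hrle s
      simp only [hr]
      omega)
    (fun s hs => by
      have h2 := hsl7 s hs
      have h3 := ramp_mono (2 * m) ν p m hp hν (by omega) s (by omega)
      have h4 : ((r0 (s + 1) + ((7 + c0) * m + 1) : ℕ) : ℤ) ≤ ((r0 s : ℕ) : ℤ) := by
        exact_mod_cast h2
      push_cast at h4
      simp only [hr]
      have h5 : ((ramp (2 * m) ν p s : ℕ) : ℤ) ≤ ((ramp (2 * m) ν p (s + 1) : ℕ) : ℤ) := by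
        exact_mod_cast h3
      linarith)
    (fun s hs => by
      have h2 := hcc s hs
      have h3 := ramp_low (2 * m) ν p m hp hν (by omega) s (by omega)
      have h4 := ramp_low (2 * m) ν p m hp hν (by omega) (s + 1) (by omega)
      have h5 := ramp_low (2 * m) ν p m hp hν (by omega) (s + 2) (by omega)
      simp only [hr]
      rw [h3, h4, h5]
      omega)
  refine ⟨fun i => b (σ.symm i), fun i => c (σ.symm i), fun i => g1 _, fun i => g2 _, ?_⟩
  intro j
  have h1 := g3 j
  have h2 : ∑ i, vp (mm i) (b (σ.symm i)) (c (σ.symm i)) j =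
      ∑ i : Fin n, vp (lam i) (b i) (c i) j := by
    rw [← Equiv.sum_comp σ (fun i => vp (mm i) (b (σ.symm i)) (c (σ.symm i)) j)]
    refine Finset.sum_congr rfl fun i _ => ?_
    rw [Equiv.symm_apply_apply, hlam i]
  rw [Finset.sum_range] at h1
  simp only [hr] at h1
  have h3 : ((∑ i : Fin n, vp (lam i) (b i) (c i) j + ramp (2 * m) ν p j : ℕ) : ℤ) =
      (r0 j : ℤ) := by
    push_cast
    linarith
  beta_reduce
  rw [h2]
  exact_mod_cast h3

/-- Front positions for the rows. -/
theorem main_fill {c0 m be : ℕ} {r0 : ℕ → ℕ} (h : RowOK c0 m be r0) (n : ℕ) (mm : Fin n → ℕ)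
    (hmm : ∀ i, mm i ≤ m) :
    ∃ b c : Fin n → ℕ, (∀ i, c i ≤ b i + 1) ∧ (∀ i, b i ≤ be) ∧
      ((∀ j, r0 j ≤ ∑ i, vp (mm i) (b i) (c i) j) ∨
        (∀ j, ∑ i, vp (mm i) (b i) (c i) j ≤ r0 j)) := by
  classical
  have hβ3 := h.hbe
  set T := ∑ j ∈ Finset.range (be + 2), r0 j with hT
  rcases Nat.eq_zero_or_pos m with hm0 | hm0
  · refine ⟨fun _ => 0, fun _ => 0, fun _ => by omega, fun _ => Nat.zero_le _, Or.inr ?_⟩
    intro j
    rw [Finset.sum_eq_zero]
    · exact Nat.zero_le _
    · intro i _
      have := hmm i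
      unfold vp
      split_ifs <;> omega
  have hpars : ∀ {n : ℕ} (mm : Fin n → ℕ), (∑ i, mm i * (mm i + 1)) % 2 = 0 := by
    intro n mm
    apply Nat.even_iff.1
    apply Finset.even_sum
    intro i _
    exact Nat.even_mul_succ_self _
  rcases Nat.le_total (∑ i, mm i * (mm i + 1)) (2 * T) with hcase | hcase
  · -- few points
    obtain ⟨x, hx⟩ : ∃ x, ∑ i, mm i * (mm i + 1) + 2 * x = 2 * T :=
      ⟨(2 * T - ∑ i, mm i * (mm i + 1)) / 2, by
        have := hpars mm
        omega⟩
    obtain ⟨b, c, g1, g2, g3⟩ := core_fill h (n + x) (Fin.append mm (fun _ => 1)) hm0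
      (by
        intro i
        refine Fin.addCases (fun i => ?_) (fun i => ?_) i
        · rw [Fin.append_left]; exact hmm i
        · rw [Fin.append_right]; omega) 0 0 le_rfl hm0
      (by
        rw [Fin.sum_univ_add]
        simp only [Fin.append_left, Fin.append_right, Finset.sum_const, Finset.card_univ,
          Fintype.card_fin, smul_eq_mul]
        omega)
    refine ⟨fun i => b (Fin.castAdd x i), fun i => c (Fin.castAdd x i), fun i => g1 _,
      fun i => g2 _, Or.inr ?_⟩
    intro j
    have h1 := g3 j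
    rw [Fin.sum_univ_add] at h1
    simp only [Fin.append_left] at h1
    beta_reduce
    omega
  · -- many points
    set P : ℕ → Prop := fun a => ∑ i ∈ Finset.univ.filter (fun i : Fin n => (i : ℕ) < a),
      mm i * (mm i + 1) ≤ 2 * T with hP
    set A := Nat.findGreatest P n with hA
    have hP0 : P 0 := by
      simp only [hP]
      rw [Finset.filter_false_of_mem]
      · simp
      · intro i _; omega
    have hAn : A ≤ n := Nat.findGreatest_le n
    have hPA : P A := Nat.findGreatest_spec (Nat.zero_le n) hP0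
    -- the sum over the first points
    have hfirst : ∀ (f : Fin n → ℕ), ∑ i ∈ Finset.univ.filter (fun i : Fin n => (i : ℕ) < A), f i =
        ∑ i : Fin A, f (Fin.castLE hAn i) := by
      intro f
      symm
      apply Finset.sum_bij (fun i _ => Fin.castLE hAn i)
      · intro i _
        rw [Finset.mem_filter]
        exact ⟨Finset.mem_univ _, i.2⟩
      · intro i _ j _ hij
        exact Fin.castLE_injective hAn hij
      · intro i hi
        rw [Finset.mem_filter] at hi
        exact ⟨⟨i, hi.2⟩, Finset.mem_univ _, rfl⟩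
      · intro i _; rfl
    have hPA' : ∑ i : Fin A, mm (Fin.castLE hAn i) * (mm (Fin.castLE hAn i) + 1) ≤
        2 * T := by
      rw [← hfirst (fun i => mm i * (mm i + 1))]
      exact hPA
    obtain ⟨x, hx⟩ : ∃ x, ∑ i : Fin A, mm (Fin.castLE hAn i) * (mm (Fin.castLE hAn i) + 1) +
        2 * x = 2 * T :=
      ⟨(2 * T - ∑ i : Fin A, mm (Fin.castLE hAn i) * (mm (Fin.castLE hAn i) + 1)) / 2, by
        have := hpars (fun i : Fin A => mm (Fin.castLE hAn i))
        omega⟩
    rcases Nat.eq_zero_or_pos x with hx0 | hx0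
    · -- exact
      obtain ⟨b, c, g1, g2, g3⟩ := core_fill h A (fun i => mm (Fin.castLE hAn i)) hm0
        (fun i => hmm _) 0 0 le_rfl hm0 (by omega)
      refine ⟨fun i => if h : (i : ℕ) < A then b ⟨i, h⟩ else 0,
        fun i => if h : (i : ℕ) < A then c ⟨i, h⟩ else 0, ?_, ?_, Or.inl ?_⟩
      · intro i
        simp only
        split_ifs
        · exact g1 _
        · omega
      · intro i
        simp only
        split_ifs
        · exact g2 _
        · omega
      · intro j
        have h1 := g3 j
        have h2 : ramp (2 * m) 0 0 j = 0 := by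
          unfold ramp; split_ifs <;> omega
        rw [← h1, h2, add_zero]
        have h3 := hfirst (fun i => vp (mm i) (if h : (i : ℕ) < A then b ⟨i, h⟩ else 0)
          (if h : (i : ℕ) < A then c ⟨i, h⟩ else 0) j)
        have h4 : ∑ i : Fin A, vp (mm (Fin.castLE hAn i))
            (if h : ((Fin.castLE hAn i : Fin n) : ℕ) < A then b ⟨(Fin.castLE hAn i : Fin n), h⟩ else 0)
            (if h : ((Fin.castLE hAn i : Fin n) : ℕ) < A then c ⟨(Fin.castLE hAn i : Fin n), h⟩ else 0)
            j = ∑ i : Fin A, vp (mm (Fin.castLE hAn i)) (b i) (c i) j := by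
          refine Finset.sum_congr rfl fun i _ => ?_
          rw [dif_pos (show ((Fin.castLE hAn i : Fin n) : ℕ) < A from i.2),
            dif_pos (show ((Fin.castLE hAn i : Fin n) : ℕ) < A from i.2)]
          rfl
        rw [← h4, ← h3]
        exact Finset.sum_le_sum_of_subset (Finset.filter_subset _ _)
    · -- one more point is needed
      have hAlt : A < n := by
        rcases Nat.eq_or_lt_of_le hAn with h | h
        · exfalso
          have h1 := hfirst (fun i => mm i * (mm i + 1))
          have h2 : Finset.univ.filter (fun i : Fin n => (i : ℕ) < A) = Finset.univ := by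
            apply Finset.filter_true_of_mem
            intro i _
            rw [h]; exact i.2
          rw [h2] at h1
          omega
        · exact h
      set a : Fin n := ⟨A, hAlt⟩ with ha
      have hover : 2 * T < ∑ i : Fin A, mm (Fin.castLE hAn i) *
          (mm (Fin.castLE hAn i) + 1) + mm a * (mm a + 1) := by
        have h1 : ¬ P (A + 1) :=
          Nat.findGreatest_is_greatest (P := P) (k := A + 1) (n := n) (Nat.lt_succ_self A) hAlt
        simp only [hP, not_le] at h1
        have h2 : Finset.univ.filter (fun i : Fin n => (i : ℕ) < A + 1) =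
            insert a (Finset.univ.filter (fun i : Fin n => (i : ℕ) < A)) := by
          ext i
          rw [Finset.mem_insert, Finset.mem_filter, Finset.mem_filter, Fin.ext_iff]
          simp only [Finset.mem_univ, true_and, ha]
          omega
        rw [h2, Finset.sum_insert (by rw [Finset.mem_filter]; simp [ha]),
          hfirst (fun i => mm i * (mm i + 1))] at h1
        omega
      obtain ⟨ν, p, hp, hνp⟩ := exists_tri x
      have hν : ν < mm a := by
        by_contra hcon
        have : mm a * (mm a + 1) ≤ ν * (ν + 1) := Nat.mul_le_mul (by omega) (by omega)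
        omega
      have hma := hmm a
      obtain ⟨b, c, g1, g2, g3⟩ := core_fill h A (fun i => mm (Fin.castLE hAn i)) hm0
        (fun i => hmm _) ν p hp (by omega) (by omega)
      refine ⟨fun i => if h : (i : ℕ) < A then b ⟨i, h⟩ else if i = a then 2 * m else 0,
        fun i => if h : (i : ℕ) < A then c ⟨i, h⟩ else 0, ?_, ?_, Or.inl ?_⟩
      · intro i
        simp only
        split_ifs
        · exact g1 _
        · omega
        · omega
      · intro i
        simp only
        split_ifs
        · exact g2 _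
        · omega
        · omega
      · intro j
        have h1 := g3 j
        have h2 := ramp_le_vp (2 * m) ν p (mm a) hp hν (by omega) j
        rw [← h1]
        have h3 := hfirst (fun i => vp (mm i)
          (if h : (i : ℕ) < A then b ⟨i, h⟩ else if i = a then 2 * m else 0)
          (if h : (i : ℕ) < A then c ⟨i, h⟩ else 0) j)
        have h4 : ∑ i : Fin A, vp (mm (Fin.castLE hAn i))
            (if h : ((Fin.castLE hAn i : Fin n) : ℕ) < A then b ⟨(Fin.castLE hAn i : Fin n), h⟩
              else if Fin.castLE hAn i = a then 2 * m else 0)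
            (if h : ((Fin.castLE hAn i : Fin n) : ℕ) < A then c ⟨(Fin.castLE hAn i : Fin n), h⟩ else 0)
            j = ∑ i : Fin A, vp (mm (Fin.castLE hAn i)) (b i) (c i) j := by
          refine Finset.sum_congr rfl fun i _ => ?_
          rw [dif_pos (show ((Fin.castLE hAn i : Fin n) : ℕ) < A from i.2),
            dif_pos (show ((Fin.castLE hAn i : Fin n) : ℕ) < A from i.2)]
          rfl
        rw [← h4, ← h3]
        have h5 : vp (mm a) (2 * m) 0 j = vp (mm a)
          (if h : (a : ℕ) < A then b ⟨a, h⟩ else if a = a then 2 * m else 0)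
          (if h : (a : ℕ) < A then c ⟨a, h⟩ else 0) j := by
          rw [dif_neg (show ¬ (a : ℕ) < A from lt_irrefl A), if_pos rfl,
            dif_neg (show ¬ (a : ℕ) < A from lt_irrefl A)]
        have h6 : a ∉ Finset.univ.filter (fun i : Fin n => (i : ℕ) < A) := by
          rw [Finset.mem_filter]
          simp [ha]
        refine (Nat.add_le_add_left h2 _).trans ?_
        rw [h5, add_comm, ← Finset.sum_insert h6 (f := fun i => vp (mm i)
          (if h : (i : ℕ) < A then b ⟨i, h⟩ else if i = a then 2 * m else 0)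
          (if h : (i : ℕ) < A then c ⟨i, h⟩ else 0) j)]
        exact Finset.sum_le_sum_of_subset (Finset.subset_univ _)

/-- a point of multiplicity `0` has no conditions -/
lemma vp_zero (b c j : ℕ) (hc : c ≤ b + 1) : vp 0 b c j = 0 := by
  unfold vp
  split_ifs <;> omega

/-- a point at rest -/
lemma vp_rest (μ j : ℕ) : vp μ 0 0 j = μ - j := by
  unfold vp
  split_ifs <;> omega

/-- The filling with large points at rest; `c0` is a defect of concavity. -/
theorem fill_abstract_defect {n : ℕ} (c0 : ℕ) (mm : Fin n → ℕ) (m be : ℕ) (nr : ℕ → ℕ)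
    (hbe : 2 * m ≤ be) (hle : ∀ i, mm i ≤ be) (hzero : ∀ j, be < j → nr j = 0)
    (hpeak : m + ∑ i ∈ Finset.univ.filter (fun i => m < mm i), (mm i - 2 * m) ≤ nr (2 * m))
    (hslope : ∀ j, j < be → nr (j + 1) + 2 * m +
      (Finset.univ.filter (fun i => m < mm i ∧ j < mm i)).card ≤ nr j)
    (hslope7 : ∀ j, j < 2 * m → nr (j + 1) + ((7 + c0) * m + 1) +
      (Finset.univ.filter (fun i => m < mm i ∧ j < mm i)).card ≤ nr j)
    (hconc : ∀ j, j + 1 < m → nr j + nr (j + 2) ≤ 2 * nr (j + 1) + c0) :
    ∃ b c : Fin n → ℕ, (∀ i, c i ≤ b i + 1) ∧ (∀ i, b i ≤ be) ∧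
      ((∀ j, nr j ≤ ∑ i, vp (mm i) (b i) (c i) j) ∨
        (∀ j, ∑ i, vp (mm i) (b i) (c i) j ≤ nr j)) := by
  classical
  set big : Finset (Fin n) := Finset.univ.filter (fun i => m < mm i) with hbig
  set B : ℕ → ℕ := fun j => ∑ i ∈ big, (mm i - j) with hB
  have hBstep : ∀ j, B j = B (j + 1) + (Finset.univ.filter (fun i => m < mm i ∧ j < mm i)).card := by
    intro j
    simp only [hB]
    rw [Finset.card_eq_sum_ones, Finset.sum_filter, hbig, Finset.sum_filter, Finset.sum_filter,
      ← Finset.sum_add_distrib]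
    refine Finset.sum_congr rfl fun i _ => ?_
    split_ifs <;> omega
  have hBz : ∀ j, be ≤ j → B j = 0 := by
    intro j hj
    simp only [hB]
    apply Finset.sum_eq_zero
    intro i _
    have := hle i
    omega
  -- the large points fit
  have hfit : ∀ x ≤ be, B (be - x) ≤ nr (be - x) := by
    intro x
    induction x with
    | zero => intro _; rw [hBz _ (by omega)]; exact Nat.zero_le _
    | succ x ih =>
      intro hx
      have h1 := ih (by omega)
      have h2 := hBstep (be - (x + 1))
      have h3 := hslope (be - (x + 1)) (by omega)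
      rw [show be - (x + 1) + 1 = be - x by omega] at h2 h3
      omega
  have hfit' : ∀ j, B j ≤ nr j := by
    intro j
    rcases Nat.lt_or_ge be j with hj | hj
    · rw [hBz j hj.le]; exact Nat.zero_le _
    · have := hfit (be - j) (by omega)
      rwa [show be - (be - j) = j by omega] at this
  set r0 : ℕ → ℕ := fun j => nr j - B j with hr0
  have hOK : RowOK c0 m be r0 := by
    refine ⟨hbe, ?_, ?_, ?_, ?_, ?_⟩
    · intro j hj
      simp only [hr0]
      rw [hzero j hj, Nat.zero_sub]
    · simp only [hr0, hB]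
      omega
    · intro j hj
      have h1 := hBstep j
      have h2 := hslope j hj
      have h3 := hfit' j
      have h4 := hfit' (j + 1)
      simp only [hr0]
      omega
    · intro j hj
      have h1 := hBstep j
      have h2 := hslope7 j hj
      have h3 := hfit' j
      have h4 := hfit' (j + 1)
      simp only [hr0]
      omega
    · intro j hj
      have h1 := hBstep j
      have h2 := hBstep (j + 1)
      have h3 := hfit' j
      have h4 := hfit' (j + 1)
      have h5 := hfit' (j + 2)
      have h6 := hconc j hj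
      have h7 : (Finset.univ.filter (fun i => m < mm i ∧ j < mm i)).card =
          (Finset.univ.filter (fun i => m < mm i ∧ j + 1 < mm i)).card := by
        congr 1
        ext i
        simp only [Finset.mem_filter, Finset.mem_univ, true_and]
        omega
      have e : j + 1 + 1 = j + 2 := rfl
      rw [e] at h2
      simp only [hr0]
      omega
  obtain ⟨b, c, g1, g2, g3⟩ := main_fill hOK n (fun i => if mm i ≤ m then mm i else 0)
    (fun i => by split_ifs <;> omega)
  have hsplit : ∀ j, ∑ i, vp (mm i) (if mm i ≤ m then b i else 0) (if mm i ≤ m then c i else 0) j =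
      ∑ i, vp (if mm i ≤ m then mm i else 0) (b i) (c i) j + B j := by
    intro j
    simp only [hB]
    rw [hbig, Finset.sum_filter, ← Finset.sum_add_distrib]
    refine Finset.sum_congr rfl fun i _ => ?_
    by_cases hi : mm i ≤ m
    · rw [if_pos hi, if_pos hi, if_pos hi, if_neg (by omega), add_zero]
    · rw [if_neg hi, if_neg hi, if_neg hi, if_pos (by omega), vp_rest, vp_zero _ _ _ (g1 i),
        zero_add]
  refine ⟨fun i => if mm i ≤ m then b i else 0, fun i => if mm i ≤ m then c i else 0, ?_, ?_, ?_⟩
  · intro i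
    have := g1 i
    simp only
    split_ifs <;> omega
  · intro i
    have := g2 i
    simp only
    split_ifs <;> omega
  · rcases g3 with g3 | g3
    · left
      intro j
      have h1 := g3 j
      have h2 := hsplit j
      have h3 := hfit' j
      simp only [hr0] at h1
      rw [h2]
      omega
    · right
      intro j
      have h1 := g3 j
      have h2 := hsplit j
      have h3 := hfit' j
      simp only [hr0] at h1
      rw [h2]
      omega

/-- The filling with large points at rest. -/
theorem fill_abstract {n : ℕ} (mm : Fin n → ℕ) (m be : ℕ) (nr : ℕ → ℕ)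
    (hbe : 2 * m ≤ be) (hle : ∀ i, mm i ≤ be) (hzero : ∀ j, be < j → nr j = 0)
    (hpeak : m + ∑ i ∈ Finset.univ.filter (fun i => m < mm i), (mm i - 2 * m) ≤ nr (2 * m))
    (hslope : ∀ j, j < be → nr (j + 1) + 2 * m +
      (Finset.univ.filter (fun i => m < mm i ∧ j < mm i)).card ≤ nr j)
    (hslope7 : ∀ j, j < 2 * m → nr (j + 1) + (7 * m + 1) +
      (Finset.univ.filter (fun i => m < mm i ∧ j < mm i)).card ≤ nr j)
    (hconc : ∀ j, j + 1 < m → nr j + nr (j + 2) ≤ 2 * nr (j + 1)) :
    ∃ b c : Fin n → ℕ, (∀ i, c i ≤ b i + 1) ∧ (∀ i, b i ≤ be) ∧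
      ((∀ j, nr j ≤ ∑ i, vp (mm i) (b i) (c i) j) ∨
        (∀ j, ∑ i, vp (mm i) (b i) (c i) j ≤ nr j)) := by
  apply fill_abstract_defect 0 mm m be nr hbe hle hzero hpeak hslope
  · intro j hj
    have := hslope7 j hj
    simpa using this
  · intro j hj
    have := hconc j hj
    simpa using this

end Pool.MP_70e04f_ag.Hex

end
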