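import Pool.Agent.Lib_MP_70e04f_m.M10
import Pool.Agent.Lib_MP_70e04f_m.M11
import Pool.Agent.Lib_MP_70e04f_m.M12
import Pool.Agent.Lib_MP_70e04f_m.M13
import Pool.Agent.Lib_MP_70e04f_m.M21
import Pool.Agent.Lib_MP_70e04f_m.M22

/-!
# MP_70e04f_ag, plane linear systems: merged library part M23

Concatenation of smaller files (each in its own section), only to save build time.
-/

/-! ### from `Lib_MP_70e04f_hex.HexOK` -/

section

/-!
# The hexagon with many points
-/

namespace Pool.MP_70e04f_ag.Hex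

/-- Front positions for the hexagon. -/
theorem hex_front {n : ℕ} (k l k' l' : ℕ) (hkl : l * k' = k * l' + 1) (A B g e : ℕ)
    (mm b c : Fin n → ℕ) (hc : ∀ i, c i ≤ b i + 1) (nr : ℕ → ℕ)
    (hnr : ∀ j, nr j + (hexJ k l A B g e (j + 1)).card = (hexJ k l A B g e j).card)
    (hcap : (∀ j, nr j ≤ ∑ i, vp (mm i) (b i) (c i) j) ∨
      (∀ j, ∑ i, vp (mm i) (b i) (c i) j ≤ nr j)) : OK (hex A B g e) mm := by
  obtain ⟨r0, c0, P, Q, φ, h1, h2, h3, h4⟩ := exists_fibres k l k' l' hkl A B g e
  have hrow : ∀ j, rowc Q j = nr j := by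
    intro j
    have := h4 j
    have := hnr j
    omega
  have hQ : OK Q mm := by
    apply OK.of_front Q mm b c hc
    simp only [hrow]
    exact hcap
  have hP : OK P mm := OK.compress r0 c0 h2 h3 hQ
  refine OK.change φ 0 l k 0 l' k' ?_ ?_ hP
  · intro q
    rw [(h1 q).1]
    push_cast
    ring
  · intro q
    rw [(h1 q).2]
    push_cast
    ring

end Pool.MP_70e04f_ag.Hex

end

/-! ### from `Lib_MP_70e04f_hex.HexThree` -/

section

/-!
# The hexagon with the curve `y ^ (p + 1) = x ^ (2 p + 1)`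
-/

namespace Pool.MP_70e04f_ag.Hex

/-- The number of large points that are still active in the row `j`. -/
def act {n : ℕ} (mm : Fin n → ℕ) (m j : ℕ) : ℕ :=
  (Finset.univ.filter (fun i => m < mm i ∧ j < mm i)).card

lemma act_le {n : ℕ} (mm : Fin n → ℕ) (m j s : ℕ)
    (hs : (Finset.univ.filter (fun i => m < mm i)).card ≤ s) : act mm m j ≤ s := by
  refine (Finset.card_le_card ?_).trans hs
  intro i hi
  rw [Finset.mem_filter] at hi ⊢
  exact ⟨hi.1, hi.2.1⟩

lemma sum_big_step {n : ℕ} (mm : Fin n → ℕ) (m x : ℕ) :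
    ∑ i ∈ Finset.univ.filter (fun i => m < mm i), (mm i - x) =
      act mm m x + ∑ i ∈ Finset.univ.filter (fun i => m < mm i), (mm i - (x + 1)) := by
  have h1 : act mm m x = ∑ i ∈ Finset.univ.filter (fun i => m < mm i),
      if x < mm i then 1 else 0 := by
    rw [act, Finset.sum_ite, Finset.sum_const_zero, add_zero, Finset.sum_const, smul_eq_mul,
      mul_one, Finset.filter_filter]
  rw [h1, ← Finset.sum_add_distrib]
  refine Finset.sum_congr rfl fun i _ => ?_
  split_ifs <;> omega

/-- Summing the slopes. -/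
lemma peak_aux {n : ℕ} (mm : Fin n → ℕ) (m be : ℕ) (nr : ℕ → ℕ) (x : ℕ)
    (h : ∀ j, x ≤ j → j < be → nr (j + 1) + act mm m j ≤ nr j) (hle : ∀ i, mm i ≤ be) :
    ∀ y, ∀ x', x ≤ x' → x' + y = be →
      nr be + ∑ i ∈ Finset.univ.filter (fun i => m < mm i), (mm i - x') ≤ nr x' := by
  intro y
  induction y with
  | zero =>
    intro x' _ h2
    rw [Finset.sum_eq_zero]
    · rw [show x' = be by omega, add_zero]
    · intro i _
      have := hle i
      omega
  | succ y ih =>
    intro x' h1 h2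
    have h3 := ih (x' + 1) (by omega) (by omega)
    have h4 := h x' h1 (by omega)
    rw [sum_big_step]
    omega

/-- The hexagon with small points outside. -/
theorem hex_three {n : ℕ} (p m s M A B g e : ℕ) (mm : Fin n → ℕ)
    (h7 : 7 * m + s < 2 * p * (p + 1)) (hM : 2 * m + 1 ≤ M) (hmm : ∀ i, mm i ≤ M)
    (hs : (Finset.univ.filter (fun i => m < mm i)).card ≤ s) (hAB : A ≤ B)
    (hA : (2 * p + 1) * M ≤ A) (hge : g + e ≤ A + 1) : OK (hex A B g e) mm := by
  obtain ⟨k, hk⟩ : ∃ k, k = 2 * p + 1 := ⟨_, rfl⟩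
  obtain ⟨l, hl⟩ : ∃ l, l = p + 1 := ⟨_, rfl⟩
  rw [← hk] at hA
  have hk0 : 0 < k := by omega
  obtain ⟨J, hJ⟩ : ∃ J, J = A / k := ⟨_, rfl⟩
  have hJ1 : J * k ≤ A := by rw [hJ]; exact Nat.div_mul_le_self A k
  have hJ2 : A < (J + 1) * k := by
    rw [hJ, mul_comm]; exact Nat.lt_mul_div_succ A hk0
  have hMJ : M ≤ J := by
    rw [hJ, Nat.le_div_iff_mul_le hk0, mul_comm]; exact hA
  set H : ℕ → ℕ := fun j => (hexJ k l A B g e j).card with hH
  have hkl : l * 2 = k * 1 + 1 := by omega
  obtain ⟨r0, c0, P, Q, φ, -, -, -, h4⟩ := exists_fibres k l 2 1 hkl A B g e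
  have hanti : ∀ j, H (j + 1) ≤ H j := by
    intro j
    have := h4 j
    simp only [hH]
    omega
  set nr : ℕ → ℕ := fun j => H j - H (j + 1) with hnr
  have hnr' : ∀ j, nr j + H (j + 1) = H j := by
    intro j
    have := hanti j
    simp only [hnr]
    omega
  have hval : ∀ j, j ≤ J → 2 * (H j : ℤ) =
      F2 ((A : ℤ) - j * k) ((B : ℤ) - j * l) ((g : ℤ) - j * l) ((e : ℤ) - j * l) := by
    intro j hj
    have h1 : j * k ≤ J * k := Nat.mul_le_mul_right k hj
    have h2 : j * k = j * l + j * p := by rw [hk, hl]; ring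
    exact two_card_hexJ k l A B g e j (by omega) hAB (by omega) (by omega) (by omega)
      (by omega)
  have hval0 : ∀ j, J < j → H j = 0 := by
    intro j hj
    apply card_hexJ_zero
    have h1 : (J + 1) * k ≤ j * k := Nat.mul_le_mul_right k hj
    omega
  -- the slopes
  have hmid : ∀ j, j + 2 ≤ J → 2 * ((nr j : ℤ) - nr (j + 1)) =
      S2 k l ((A : ℤ) - j * k) ((B : ℤ) - j * l) ((g : ℤ) - j * l) ((e : ℤ) - j * l) := by
    intro j hj
    have h1 := hval j (by omega)
    have h2 := hval (j + 1) (by omega)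
    have h3 := hval (j + 2) hj
    have h5 : (nr j : ℤ) + H (j + 1) = H j := by exact_mod_cast hnr' j
    have h6 : (nr (j + 1) : ℤ) + H (j + 2) = H (j + 1) := by exact_mod_cast hnr' (j + 1)
    unfold S2
    push_cast at h2 h3
    rw [show (A : ℤ) - j * k - k = A - (j + 1) * k by ring,
      show (B : ℤ) - j * l - l = B - (j + 1) * l by ring,
      show (g : ℤ) - j * l - l = g - (j + 1) * l by ring,
      show (e : ℤ) - j * l - l = e - (j + 1) * l by ring,
      show (A : ℤ) - j * k - 2 * k = A - (j + 2) * k by ring,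
      show (B : ℤ) - j * l - 2 * l = B - (j + 2) * l by ring,
      show (g : ℤ) - j * l - 2 * l = g - (j + 2) * l by ring,
      show (e : ℤ) - j * l - 2 * l = e - (j + 2) * l by ring, ← h1, ← h2, ← h3]
    linarith
  have hslope : ∀ j, j < J → nr (j + 1) + 2 * p * (p + 1) ≤ nr j := by
    intro j hj
    rcases Nat.lt_or_ge (j + 1) J with h1 | h1
    · have h2 := hmid j (by omega)
      have h3 := S2_ge k l ((A : ℤ) - j * k) ((B : ℤ) - j * l) ((g : ℤ) - j * l)
        ((e : ℤ) - j * l) (by omega) (by omega)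
      have h4 : (4 : ℤ) * l * (k - l) = 2 * (2 * p * (p + 1)) := by
        rw [hk, hl]; push_cast; ring
      rw [h4, ← h2] at h3
      have h5 : ((nr (j + 1) + 2 * p * (p + 1) : ℕ) : ℤ) ≤ nr j := by
        push_cast
        linarith
      exact_mod_cast h5
    · have hJj : J = j + 1 := by omega
      rw [hJj] at hJ1 hJ2
      have h2 := hval j (by omega)
      have h3 := hval (j + 1) (by omega)
      have h5 : (nr j : ℤ) + H (j + 1) = H j := by exact_mod_cast hnr' j
      have h6 : (nr (j + 1) : ℤ) + H (j + 2) = H (j + 1) := by exact_mod_cast hnr' (j + 1)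
      rw [hval0 (j + 2) (by omega)] at h6
      have hJ1' : ((j : ℤ) + 1) * k ≤ A := by exact_mod_cast hJ1
      have hJ2' : (A : ℤ) < (j + 1 + 1) * k := by exact_mod_cast hJ2
      have hkz : (k : ℤ) = 2 * p + 1 := by rw [hk]; push_cast; ring
      have hlz : (l : ℤ) = p + 1 := by rw [hl]; push_cast; ring
      have hABz : (A : ℤ) ≤ B := by exact_mod_cast hAB
      have hgez : (g : ℤ) + e ≤ A + 1 := by exact_mod_cast hge
      have hg0 : (0 : ℤ) ≤ g := Int.natCast_nonneg g
      have he0 : (0 : ℤ) ≤ e := Int.natCast_nonneg e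
      have hj0 : (0 : ℤ) ≤ j := Int.natCast_nonneg j
      have hp0 : (0 : ℤ) ≤ p := Int.natCast_nonneg p
      have hjp : 0 ≤ (j : ℤ) * p := mul_nonneg hj0 hp0
      have h7 := end_slopeA p ((A : ℤ) - (j + 1) * k + 1) ((B : ℤ) - (j + 1) * l + 1)
        ((g : ℤ) - (j + 1) * l) ((e : ℤ) - (j + 1) * l) hp0 (by linarith)
        (by rw [hkz] at hJ2' ⊢; linarith) (by rw [hkz] at hJ1' ⊢; rw [hlz]; linarith)
        (by linarith) (by linarith) (by rw [hkz, hlz]; linarith)
      push_cast at h3
      rw [show (A : ℤ) - (j + 1) * k + 1 - 1 + (2 * p + 1) = A - j * k by rw [hkz]; ring,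
        show (B : ℤ) - (j + 1) * l + 1 - 1 + (p + 1) = B - j * l by rw [hlz]; ring,
        show (g : ℤ) - (j + 1) * l + (p + 1) = g - j * l by rw [hlz]; ring,
        show (e : ℤ) - (j + 1) * l + (p + 1) = e - j * l by rw [hlz]; ring,
        show (A : ℤ) - (j + 1) * k + 1 - 1 = A - (j + 1) * k by ring,
        show (B : ℤ) - (j + 1) * l + 1 - 1 = B - (j + 1) * l by ring, ← h2, ← h3] at h7
      have h8 : ((nr (j + 1) + 2 * p * (p + 1) : ℕ) : ℤ) ≤ nr j := by
        push_cast
        push_cast at h6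
        linarith
      exact_mod_cast h8
  have hact := fun j => act_le mm m j s hs
  obtain ⟨b, c, g1, -, g3⟩ := fill_abstract mm m J nr (by omega) (fun i => (hmm i).trans hMJ)
    (by
      intro j hj
      simp only [hnr]
      rw [hval0 j hj, Nat.zero_sub])
    (by
      have h1 := peak_aux mm m J nr (2 * m + 1) (fun j _ hj => by
          have := hslope j hj
          have := hact j
          omega) (fun i => (hmm i).trans hMJ) (J - (2 * m + 1)) (2 * m + 1) le_rfl (by omega)
      have h2 := hslope (2 * m) (by omega)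
      have h3 := hact (2 * m)
      have h4 := sum_big_step mm m (2 * m)
      omega)
    (by
      intro j hj
      have h1 := hslope j hj
      have h2 := hact j
      unfold act at h2
      omega)
    (by
      intro j hj
      have h1 := hslope j (by omega)
      have h2 := hact j
      unfold act at h2
      omega)
    (by
      intro j hj
      have h1 := hmid j (by omega)
      have h2 := hmid (j + 1) (by omega)
      have h3 := S2_mono k l ((A : ℤ) - j * k) ((B : ℤ) - j * l) ((g : ℤ) - j * l)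
        ((e : ℤ) - j * l) (by omega) (by omega)
      push_cast at h2
      rw [show (A : ℤ) - j * k - k = A - (j + 1) * k by ring,
        show (B : ℤ) - j * l - l = B - (j + 1) * l by ring,
        show (g : ℤ) - j * l - l = g - (j + 1) * l by ring,
        show (e : ℤ) - j * l - l = e - (j + 1) * l by ring, ← h1, ← h2] at h3
      have e : j + 1 + 1 = j + 2 := rfl
      rw [e] at h3
      have h8 : ((nr j + nr (j + 2) : ℕ) : ℤ) ≤ ((2 * nr (j + 1) : ℕ) : ℤ) := by
        push_cast
        linarith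
      exact_mod_cast h8)
  exact hex_front k l 2 1 hkl A B g e mm b c g1 nr hnr' g3

end Pool.MP_70e04f_ag.Hex

end

/-! ### from `Lib_MP_70e04f_hex.Three` -/

section

/-!
# Three arbitrary multiplicities
-/

namespace Pool.MP_70e04f_ag.Hex

section
variable {n : ℕ} (p m s M d : ℕ) (mm : Fin n → ℕ)
  (h7 : 7 * m + s < 2 * p * (p + 1)) (hM : 2 * m + 1 ≤ M) (hmm : ∀ i, mm i ≤ M)
  (hs : (Finset.univ.filter (fun i => m < mm i)).card ≤ s)
include h7 hM hmm hs

lemma zed_sorted (al be ga : ℕ) (h1 : be ≤ al) (h2 : ga ≤ be)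
    (hA : (2 * p + 1) * M + al ≤ d) (h12 : al + be ≤ d + 1) :
    OK (zed d al be ga) mm := by
  rw [zed_eq_hex (by omega) (by omega)]
  apply hex_three p m s M (d - al) (d - be) ga (d - al - be) mm h7 hM hmm hs
  · omega
  · omega
  · omega

lemma zed_three (al be ga : ℕ) (hA : (2 * p + 1) * M + al ≤ d) (hB : (2 * p + 1) * M + be ≤ d)
    (hC : (2 * p + 1) * M + ga ≤ d) (h12 : al + be ≤ d + 1) (h13 : al + ga ≤ d + 1)
    (h23 : be + ga ≤ d + 1) : OK (zed d al be ga) mm := by
  have key := zed_sorted p m s M d mm h7 hM hmm hs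
  rcases Nat.le_total be al with h1 | h1
  · rcases Nat.le_total ga be with h2 | h2
    · exact key al be ga h1 h2 hA h12
    · rcases Nat.le_total ga al with h3 | h3
      · exact zed_swap2 (key al ga be h3 h2 hA h13)
      · exact zed_swap1 (zed_swap2 (key ga al be h3 h1 hC (by omega)))
  · rcases Nat.le_total ga al with h2 | h2
    · exact zed_swap1 (zed_swap2 (zed_swap1 (key be al ga h1 h2 hB (by omega))))
    · rcases Nat.le_total ga be with h3 | h3
      · exact zed_swap2 (zed_swap1 (key be ga al h3 h2 hB h23))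
      · exact zed_swap1 (key ga be al h3 h1 hC (by omega))

end

/-- Three arbitrary multiplicities. -/
theorem tri_three {n : ℕ} (p m s M d : ℕ) (mm : Fin n → ℕ) (T : Finset (Fin n))
    (hT : T.card ≤ 3) (h7 : 7 * m + s < 2 * p * (p + 1)) (hM : 2 * m + 1 ≤ M)
    (hmm : ∀ i, i ∉ T → mm i ≤ M)
    (hs : (Finset.univ.filter (fun i => i ∉ T ∧ m < mm i)).card ≤ s)
    (hd : (2 * p + 1) * M ≤ d) (hdT : ∀ i ∈ T, mm i + (2 * p + 1) * M ≤ d)
    (hpair : ∀ i ∈ T, ∀ j ∈ T, i ≠ j → mm i + mm j ≤ d + 1) :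
    OK (tri (d + 1)) mm := by
  classical
  obtain ⟨f⟩ : Nonempty (↥T ↪ Fin 3) := by
    apply Function.Embedding.nonempty_of_card_le
    simpa using hT
  have hdT' : ∀ i ∈ T, mm i ≤ d + 1 := fun i hi => by have := hdT i hi; omega
  apply tri_of_emb mm T f d hdT' hpair
  have key : ∀ j, (2 * p + 1) * M + slotv mm T f j ≤ d := by
    intro j
    have := slotv_le mm T f (d - (2 * p + 1) * M) (fun i hi => by have := hdT i hi; omega) j
    omega
  have hpr := slotv_pair mm T f (d + 1) hdT' hpair
  apply zed_three p m s M d _ h7 hM _ _ _ _ _ (key 0) (key 1) (key 2) (hpr 0 1 (by decide))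
    (hpr 0 2 (by decide)) (hpr 1 2 (by decide))
  · intro i
    split_ifs with h
    · exact Nat.zero_le _
    · exact hmm i h
  · refine le_trans (Finset.card_le_card ?_) hs
    intro i hi
    rw [Finset.mem_filter] at hi ⊢
    have h2 := hi.2
    split_ifs at h2 with h
    · omega
    · exact ⟨hi.1, h, h2⟩

end Pool.MP_70e04f_ag.Hex

end
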