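import Pool.Agent.Lib_MP_70e04f_m.M06
import Pool.Agent.Lib_MP_70e04f_m.M23

/-!
# MP_70e04f_ag, plane linear systems: merged library part M24

Concatenation of smaller files (each in its own section), only to save build time.
-/

/-! ### from `Lib_MP_70e04f_hex.HexTwo` -/

section

/-!
# The hexagon with the curve `y = x ^ k`
-/

namespace Pool.MP_70e04f_ag.Hex

/-- The hexagon of two coordinate points with small points outside. -/
theorem hex_two {n : ℕ} (k m s t M A d g : ℕ) (mm : Fin n → ℕ)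
    (h7 : 7 * m + s + t < k ^ 2) (ht : g = 0 ∨ 1 ≤ t) (hM : 2 * m ≤ M) (hmm : ∀ i, mm i ≤ M)
    (hs : (Finset.univ.filter (fun i => m < mm i)).card ≤ s)
    (hA : k * (M + 1) ≤ A + 1) (hAd : g + A ≤ d) : OK (hex A d g A) mm := by
  have hk0 : 0 < k := by
    rcases Nat.eq_zero_or_pos k with h | h
    · subst h; simp at h7
    · exact h
  obtain ⟨J, hJ⟩ : ∃ J, J = A / k := ⟨_, rfl⟩
  have hJ1 : J * k ≤ A := by rw [hJ]; exact Nat.div_mul_le_self A k
  have hJ2 : A < (J + 1) * k := by
    rw [hJ, mul_comm]; exact Nat.lt_mul_div_succ A hk0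
  have hMJ : M ≤ J := by
    by_contra hcon
    have h1 : (J + 1 + 1) * k ≤ (M + 1) * k := Nat.mul_le_mul_right k (by omega)
    have h2 : (J + 1 + 1) * k = (J + 1) * k + k := by ring
    have h3 : (M + 1) * k = k * (M + 1) := by ring
    omega
  have hMX : J ≤ M → A = J * k + (k - 1) := by
    intro h
    obtain rfl : J = M := by omega
    have h3 : k * (J + 1) = J * k + k := by ring
    have h4 : (J + 1) * k = J * k + k := by ring
    omega
  set H : ℕ → ℕ := fun j => (hexJ k 1 A d g A j).card with hH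
  have hkl : 1 * 1 = k * 0 + 1 := by omega
  obtain ⟨r0, c0, P, Q, φ, -, -, -, h4⟩ := exists_fibres k 1 1 0 hkl A d g A
  have hanti : ∀ j, H (j + 1) ≤ H j := by
    intro j
    have := h4 j
    simp only [hH]
    omega
  set nr : ℕ → ℕ := fun j => H j - H (j + 1) with hnr
  have hnr' : ∀ j, nr j + H (j + 1) = H j := by
    intro j
    have := hanti j
    simp only [hnr]
    omega
  have hval : ∀ j, j ≤ J → 2 * (H j : ℤ) =
      F2 ((A : ℤ) - j * k) ((d : ℤ) - j) ((g : ℤ) - j) ((A : ℤ) - j) := by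
    intro j hj
    have h1 : j * k ≤ J * k := Nat.mul_le_mul_right k hj
    have := two_card_hexJ k 1 A d g A j (by omega) (by omega) (by omega) (by omega) (by omega)
      (by omega)
    push_cast at this
    rw [mul_one] at this
    exact this
  have hval0 : ∀ j, J < j → H j = 0 := by
    intro j hj
    apply card_hexJ_zero
    have h1 : (J + 1) * k ≤ j * k := Nat.mul_le_mul_right k hj
    omega
  have hk1 : (1 : ℤ) ≤ k := by exact_mod_cast hk0
  -- the middle slopes
  have hmid : ∀ j, j + 2 ≤ J → 2 * ((nr j : ℤ) - nr (j + 1)) =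
      S2 k 1 ((A : ℤ) - j * k) ((d : ℤ) - j) ((g : ℤ) - j) ((A : ℤ) - j) := by
    intro j hj
    have h1 := hval j (by omega)
    have h2 := hval (j + 1) (by omega)
    have h3 := hval (j + 2) hj
    have h5 : (nr j : ℤ) + H (j + 1) = H j := by exact_mod_cast hnr' j
    have h6 : (nr (j + 1) : ℤ) + H (j + 2) = H (j + 1) := by exact_mod_cast hnr' (j + 1)
    unfold S2
    push_cast at h2 h3
    rw [show (A : ℤ) - j * k - k = A - (j + 1) * k by ring,
      show (d : ℤ) - j - 1 = d - (j + 1) by ring,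
      show (g : ℤ) - j - 1 = g - (j + 1) by ring,
      show (A : ℤ) - j - 1 = A - (j + 1) by ring,
      show (A : ℤ) - j * k - 2 * k = A - (j + 2) * k by ring,
      show (d : ℤ) - j - 2 * 1 = d - (j + 2) by ring,
      show (g : ℤ) - j - 2 * 1 = g - (j + 2) by ring,
      show (A : ℤ) - j - 2 * 1 = A - (j + 2) by ring, ← h1, ← h2, ← h3]
    linarith
  have hslm : ∀ j, j + 2 ≤ J → nr (j + 1) + (7 * m + s + 1) ≤ nr j := by
    intro j hj
    have h2 := hmid j hj
    obtain ⟨h3, h5⟩ := midL k A d g j hk1 (Int.natCast_nonneg j)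
    have h6 : ((nr (j + 1) + (7 * m + s + 1) : ℕ) : ℤ) ≤ nr j := by
      have h7' : (7 * (m : ℤ) + s + t) < k ^ 2 := by exact_mod_cast h7
      push_cast
      rcases ht with hg | ht
      · have := h5 (by rw [hg]; push_cast; omega)
        have ht0 : (0 : ℤ) ≤ t := Int.natCast_nonneg t
        linarith
      · have ht1 : (1 : ℤ) ≤ t := by exact_mod_cast ht
        linarith
    exact_mod_cast h6
  -- the end slope
  have hend : ∀ j, J = j + 1 → 4 * m + 2 * nr (j + 1) ≤ 2 * nr j ∧
      (J ≤ M → nr (j + 1) + (7 * m + s + 1) ≤ nr j) := by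
    intro j hJj
    have hMX' : J ≤ M → (A : ℤ) - (j + 1) * k + 1 = k := by
      intro h
      have h1 := hMX h
      rw [hJj] at h1
      have h2 : (A : ℤ) = ((j : ℤ) + 1) * k + ((k - 1 : ℕ) : ℤ) := by
        exact_mod_cast h1
      have h3 : ((k - 1 : ℕ) : ℤ) = (k : ℤ) - 1 := by omega
      rw [h3] at h2
      linarith
    rw [hJj] at hJ1 hJ2
    have h2 := hval j (by omega)
    have h3 := hval (j + 1) (by omega)
    have h5 : (nr j : ℤ) + H (j + 1) = H j := by exact_mod_cast hnr' j
    have h6 : (nr (j + 1) : ℤ) + H (j + 2) = H (j + 1) := by exact_mod_cast hnr' (j + 1)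
    rw [hval0 (j + 2) (by omega)] at h6
    push_cast at h6
    have hJ1' : ((j : ℤ) + 1) * k ≤ A := by exact_mod_cast hJ1
    have hJ2' : (A : ℤ) < (j + 1 + 1) * k := by exact_mod_cast hJ2
    have hAdz : (g : ℤ) + A ≤ d := by exact_mod_cast hAd
    have hg0 : (0 : ℤ) ≤ g := Int.natCast_nonneg g
    have hj0 : (0 : ℤ) ≤ j := Int.natCast_nonneg j
    have hjk : 0 ≤ (j : ℤ) * (k - 1) := mul_nonneg hj0 (by linarith)
    obtain ⟨e1, e2, e3⟩ := end_slopeL k ((A : ℤ) - (j + 1) * k + 1)
      ((d : ℤ) - (j + 1) * k + 1) ((j + 1) * (k - 1)) ((g : ℤ) - (j + 1)) hk1 (by linarith)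
      (by linarith) (by linarith) (by linarith) (by linarith)
    push_cast at h3
    rw [show (A : ℤ) - (j + 1) * k + 1 - 1 + k = A - j * k by ring,
      show (d : ℤ) - (j + 1) * k + 1 - 1 + (j + 1) * (k - 1) + 1 = d - j by ring,
      show (g : ℤ) - (j + 1) + 1 = g - j by ring,
      show (A : ℤ) - (j + 1) * k + 1 - 1 + (j + 1) * (k - 1) + 1 = A - j by ring,
      show (A : ℤ) - (j + 1) * k + 1 - 1 = A - (j + 1) * k by ring,
      show (d : ℤ) - (j + 1) * k + 1 - 1 + (j + 1) * (k - 1) = d - (j + 1) by ring,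
      show (A : ℤ) - (j + 1) * k + (j + 1) * (k - 1) = A - (j + 1) by ring,
      ← h2, ← h3] at e1 e2 e3
    have h7' : (7 * (m : ℤ) + s + t) < k ^ 2 := by exact_mod_cast h7
    have ht0 : (0 : ℤ) ≤ t := Int.natCast_nonneg t
    have hs0 : (0 : ℤ) ≤ s := Int.natCast_nonneg s
    constructor
    · have h8 : ((4 * m + 2 * nr (j + 1) : ℕ) : ℤ) ≤ ((2 * nr j : ℕ) : ℤ) := by
        push_cast
        nlinarith
      exact_mod_cast h8
    · intro hJM
      have hX := hMX' hJM
      have h8 : ((nr (j + 1) + (7 * m + s + 1) : ℕ) : ℤ) ≤ nr j := by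
        push_cast
        rcases ht with hg | ht
        · have := e3 hX (by rw [hg]; push_cast; linarith)
          linarith
        · have ht1 : (1 : ℤ) ≤ t := by exact_mod_cast ht
          have := e2 hX
          linarith
      exact_mod_cast h8
  have hact := fun j => act_le mm m j s hs
  have hact0 : ∀ j, M ≤ j → act mm m j = 0 := by
    intro j hj
    unfold act
    rw [Finset.card_eq_zero, Finset.filter_eq_empty_iff]
    intro i _ h
    have := hmm i
    omega
  have hlow : ∀ j, j < M → nr (j + 1) + (7 * m + s + 1) ≤ nr j := by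
    intro j hj
    rcases Nat.lt_or_ge (j + 1) J with h1 | h1
    · exact hslm j h1
    · exact (hend j (by omega)).2 (by omega)
  have hslope : ∀ j, j < J → nr (j + 1) + 2 * m + act mm m j ≤ nr j := by
    intro j hj
    rcases Nat.lt_or_ge j M with h1 | h1
    · have := hlow j h1
      have := hact j
      omega
    · rw [hact0 j h1]
      rcases Nat.lt_or_ge (j + 1) J with h2 | h2
      · have := hslm j h2
        omega
      · have := (hend j (by omega)).1
        omega
  obtain ⟨b, c, g1, -, g3⟩ := fill_abstract mm m J nr (by omega) (fun i => (hmm i).trans hMJ)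
    (by
      intro j hj
      simp only [hnr]
      rw [hval0 j hj, Nat.zero_sub])
    (by
      have h1 := peak_aux mm m M nr (2 * m) (fun j _ hj => by
          have := hlow j hj
          have := hact j
          omega) hmm (M - 2 * m) (2 * m) le_rfl (by omega)
      rcases Nat.lt_or_ge M J with h2 | h2
      · have h3 := hslope M h2
        omega
      · -- the last row is complete
        have hX := hMX h2
        obtain rfl : J = M := by omega
        have h3 := hval J le_rfl
        have h6 := hnr' J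
        rw [hval0 (J + 1) (by omega)] at h6
        have hXz : (A : ℤ) = (J : ℤ) * k + (k - 1) := by
          have h5 : (A : ℤ) = (J : ℤ) * k + ((k - 1 : ℕ) : ℤ) := by exact_mod_cast hX
          have h7 : ((k - 1 : ℕ) : ℤ) = (k : ℤ) - 1 := by omega
          rw [h7] at h5
          exact h5
        have hAdz : (g : ℤ) + A ≤ d := by exact_mod_cast hAd
        have hg0 : (0 : ℤ) ≤ g := Int.natCast_nonneg g
        have hj0 : (0 : ℤ) ≤ J := Int.natCast_nonneg J
        have hjk : 0 ≤ (J : ℤ) * (k - 1) := mul_nonneg hj0 (by linarith)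
        have h8 : m ≤ nr J := by
          rcases Nat.eq_zero_or_pos m with hm0 | hm0
          · omega
          have hJ1z : (1 : ℤ) ≤ J := by
            have : 1 ≤ J := by omega
            exact_mod_cast this
          have e1 := lastL k ((d : ℤ) - J * k + 1) (J * (k - 1)) ((g : ℤ) - J) hk1 hjk
            (by linarith) (by linarith)
          rw [show (k : ℤ) - 1 = A - J * k by linarith,
            show (d : ℤ) - J * k + 1 - 1 + J * (A - J * k) = d - J by
              rw [show (A : ℤ) - J * k = k - 1 by linarith]; ring,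
            show (A : ℤ) - J * k + J * (A - J * k) = A - J by
              rw [show (A : ℤ) - J * k = k - 1 by linarith, hXz]; ring, ← h3] at e1
          have h7' : (7 * (m : ℤ) + s + t) < k ^ 2 := by exact_mod_cast h7
          have ht0 : (0 : ℤ) ≤ t := Int.natCast_nonneg t
          have hs0 : (0 : ℤ) ≤ s := Int.natCast_nonneg s
          have hm1 : (0 : ℤ) ≤ m := Int.natCast_nonneg m
          have h9 : (m : ℤ) ≤ (nr J : ℕ) := by
            have h10 : (nr J : ℤ) = H J := by
              have : nr J = H J := by omega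
              exact_mod_cast this
            rw [h10]
            nlinarith
          exact_mod_cast h9
        omega)
    (by
      intro j hj
      have h1 := hslope j hj
      unfold act at h1
      omega)
    (by
      intro j hj
      have h1 := hlow j (by omega)
      have h2 := hact j
      unfold act at h2
      omega)
    (by
      intro j hj
      have h1 := hmid j (by omega)
      have h2 := hmid (j + 1) (by omega)
      have h3 := S2_mono k 1 ((A : ℤ) - j * k) ((d : ℤ) - j) ((g : ℤ) - j)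
        ((A : ℤ) - j) (by omega) (by omega)
      push_cast at h2
      rw [show (A : ℤ) - j * k - k = A - (j + 1) * k by ring,
        show (d : ℤ) - j - 1 = d - (j + 1) by ring,
        show (g : ℤ) - j - 1 = g - (j + 1) by ring,
        show (A : ℤ) - j - 1 = A - (j + 1) by ring, ← h1, ← h2] at h3
      have e : j + 1 + 1 = j + 2 := rfl
      rw [e] at h3
      have h8 : ((nr j + nr (j + 2) : ℕ) : ℤ) ≤ ((2 * nr (j + 1) : ℕ) : ℤ) := by
        push_cast
        linarith
      exact_mod_cast h8)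
  exact hex_front k 1 1 0 hkl A d g A mm b c g1 nr hnr' g3

end Pool.MP_70e04f_ag.Hex

end

/-! ### from `Lib_MP_70e04f_hex.Two` -/

section

/-!
# Two arbitrary multiplicities
-/

namespace Pool.MP_70e04f_ag.Hex

/-- Two arbitrary multiplicities. -/
theorem tri_two {n : ℕ} (k m s M d : ℕ) (mm : Fin n → ℕ) (T : Finset (Fin n))
    (hT : T.card ≤ 2) (h7 : 7 * m + s < k ^ 2) (h7' : 7 * m + s + T.card ≤ k ^ 2)
    (hM : 2 * m ≤ M) (hmm : ∀ i, i ∉ T → mm i ≤ M)
    (hs : (Finset.univ.filter (fun i => i ∉ T ∧ m < mm i)).card ≤ s)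
    (hd : k * (M + 1) ≤ d + 1) (hdT : ∀ i ∈ T, mm i + k * (M + 1) ≤ d + 1)
    (hpair : ∀ i ∈ T, ∀ j ∈ T, i ≠ j → mm i + mm j ≤ d + 1) :
    OK (tri (d + 1)) mm := by
  classical
  have hk0 : 0 < k := by
    rcases Nat.eq_zero_or_pos k with h | h
    · subst h; simp at h7
    · exact h
  have hkM : 1 ≤ k * (M + 1) := Nat.one_le_iff_ne_zero.2 (by positivity)
  obtain ⟨f'⟩ : Nonempty (↥T ↪ Fin 2) := by
    apply Function.Embedding.nonempty_of_card_le
    simpa using hT
  let f : ↥T ↪ Fin 3 := f'.trans ⟨![0, 2], by decide⟩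
  have hdT' : ∀ i ∈ T, mm i ≤ d + 1 := fun i hi => by have := hdT i hi; omega
  have hf1 : slotv mm T f 1 = 0 := by
    apply slotv_zero
    intro t ht
    have h1 : f t = ![0, 2] (f' t) := rfl
    rw [h1] at ht
    revert ht
    generalize f' t = a
    fin_cases a <;> decide
  have hboth : slotv mm T f 0 ≠ 0 → slotv mm T f 2 ≠ 0 → 2 ≤ T.card := by
    intro h0 h2
    have e0 : ∃ t, f t = 0 := by
      by_contra hcon
      push Not at hcon
      exact h0 (slotv_zero mm T f 0 hcon)
    have e2 : ∃ t, f t = 2 := by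
      by_contra hcon
      push Not at hcon
      exact h2 (slotv_zero mm T f 2 hcon)
    obtain ⟨t0, ht0⟩ := e0
    obtain ⟨t2, ht2⟩ := e2
    have hne : t0.1 ≠ t2.1 := by
      intro h
      have : t0 = t2 := Subtype.ext h
      rw [this, ht2] at ht0
      exact absurd ht0 (by decide)
    exact Finset.one_lt_card.2 ⟨t0.1, t0.2, t2.1, t2.2, hne⟩
  apply tri_of_emb mm T f d hdT' hpair
  rw [hf1]
  have key : ∀ j, k * (M + 1) + slotv mm T f j ≤ d + 1 := by
    intro j
    have := slotv_le mm T f (d + 1 - k * (M + 1)) (fun i hi => by have := hdT i hi; omega) j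
    omega
  -- the auxiliary constant
  obtain ⟨t, ht1, ht2⟩ : ∃ t, 7 * m + s + t < k ^ 2 ∧
      (slotv mm T f 0 = 0 ∨ slotv mm T f 2 = 0 ∨ 1 ≤ t) := by
    by_cases h0 : slotv mm T f 0 = 0
    · exact ⟨0, h7, Or.inl h0⟩
    by_cases h2 : slotv mm T f 2 = 0
    · exact ⟨0, h7, Or.inr (Or.inl h2)⟩
    · have := hboth h0 h2
      exact ⟨1, by omega, Or.inr (Or.inr le_rfl)⟩
  have main : ∀ al ga : ℕ, ga ≤ al → k * (M + 1) + al ≤ d + 1 → (ga = 0 ∨ 1 ≤ t) →
      OK (zed d al 0 ga) (fun i => if i ∈ T then 0 else mm i) := by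
    intro al ga h1 h2 h3
    rw [zed_eq_hex (by omega) (Nat.zero_le d)]
    have e1 : d - al - 0 = d - al := rfl
    have e2 : d - 0 = d := rfl
    rw [e1, e2]
    apply hex_two k m s t M (d - al) d ga _ ht1 h3 hM
    · intro i
      split_ifs with h
      · exact Nat.zero_le _
      · exact hmm i h
    · refine le_trans (Finset.card_le_card ?_) hs
      intro i hi
      rw [Finset.mem_filter] at hi ⊢
      have h2 := hi.2
      split_ifs at h2 with h
      · omega
      · exact ⟨hi.1, h, h2⟩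
    · omega
    · omega
  rcases Nat.le_total (slotv mm T f 2) (slotv mm T f 0) with h | h
  · exact main _ _ h (key 0) (by omega)
  · exact zed_swap1 (main _ _ h (key 2) (by omega))

end Pool.MP_70e04f_ag.Hex

end

/-! ### from `Lib_MP_70e04f_hex.Generic` -/

section

/-!
# From real points to general complex points, and smaller degrees
-/

open MvPolynomial

namespace Pool.MP_70e04f_ag.Hex

/-- The expected dimension at general points. -/
def GenExp {n : ℕ} (d : ℕ) (mm : Fin n → ℕ) : Prop :=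
  ∃ g : MvPolynomial (Fin n × Fin 2) ℂ, g ≠ 0 ∧
    ∀ p : Fin n → Fin 2 → ℂ,
      MvPolynomial.eval (fun q : Fin n × Fin 2 => p q.1 q.2) g ≠ 0 →
        ((2 : ℤ) * ((Module.finrank ℂ
            ↥(MvPolynomial.restrictTotalDegree (Fin 2) ℂ d ⊓
              ⨅ i : Fin n, Submodule.restrictScalars ℂ
                ((RingHom.ker (MvPolynomial.eval (p i)) :
                    Ideal (MvPolynomial (Fin 2) ℂ)) ^ mm i)) : ℕ) : ℤ)
          = max 0 (((d : ℤ) + 1) * ((d : ℤ) + 2) -
              ∑ i, (mm i : ℤ) * ((mm i : ℤ) + 1)))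

lemma genExp_of_OK {n : ℕ} (d : ℕ) (mm : Fin n → ℕ) (h : OK (tri (d + 1)) mm) : GenExp d mm := by
  apply generic_of_real
  obtain ⟨p, hp⟩ := h
  exact ⟨p, hp⟩

/-- Emptiness in degree `d` gives emptiness in smaller degrees. -/
lemma GenExp.le {n : ℕ} {d D : ℕ} {mm : Fin n → ℕ} (h : GenExp d mm) (hD : D ≤ d)
    (hT : (d + 1) * (d + 2) ≤ ∑ i, mm i * (mm i + 1)) : GenExp D mm := by
  obtain ⟨g, hg0, hg⟩ := h
  refine ⟨g, hg0, fun p hp => ?_⟩
  have h1 := hg p hp
  have hT' : (((d + 1) * (d + 2) : ℕ) : ℤ) ≤ ∑ i, (mm i : ℤ) * ((mm i : ℤ) + 1) := by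
    have : (((d + 1) * (d + 2) : ℕ) : ℤ) ≤ ((∑ i, mm i * (mm i + 1) : ℕ) : ℤ) := by
      exact_mod_cast hT
    push_cast at this ⊢
    exact this
  have e2 : ((d : ℤ) + 1) * ((d : ℤ) + 2) - ∑ i, (mm i : ℤ) * ((mm i : ℤ) + 1) ≤ 0 := by
    push_cast at hT'
    linarith
  rw [max_eq_left e2] at h1
  have hle : MvPolynomial.restrictTotalDegree (Fin 2) ℂ D ⊓
      ⨅ i : Fin n, Submodule.restrictScalars ℂ
        ((RingHom.ker (MvPolynomial.eval (p i)) :
          Ideal (MvPolynomial (Fin 2) ℂ)) ^ mm i) ≤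
      MvPolynomial.restrictTotalDegree (Fin 2) ℂ d ⊓
      ⨅ i : Fin n, Submodule.restrictScalars ℂ
        ((RingHom.ker (MvPolynomial.eval (p i)) :
          Ideal (MvPolynomial (Fin 2) ℂ)) ^ mm i) := by
    apply inf_le_inf_right
    intro f hf
    rw [MvPolynomial.mem_restrictTotalDegree] at hf ⊢
    omega
  have : Module.Finite ℂ ↥(MvPolynomial.restrictTotalDegree (Fin 2) ℂ d ⊓
      ⨅ i : Fin n, Submodule.restrictScalars ℂ
        ((RingHom.ker (MvPolynomial.eval (p i)) :
          Ideal (MvPolynomial (Fin 2) ℂ)) ^ mm i)) :=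
    Submodule.finiteDimensional_inf_left _ _
  have h2 := Submodule.finrank_mono hle
  have e3 : ((D : ℤ) + 1) * ((D : ℤ) + 2) - ∑ i, (mm i : ℤ) * ((mm i : ℤ) + 1) ≤ 0 := by
    have h3 : (D + 1) * (D + 2) ≤ (d + 1) * (d + 2) := Nat.mul_le_mul (by omega) (by omega)
    have h4 : (((D + 1) * (D + 2) : ℕ) : ℤ) ≤ (((d + 1) * (d + 2) : ℕ) : ℤ) := by exact_mod_cast h3
    push_cast at h4 hT'
    linarith
  rw [max_eq_left e3]
  omega

/-- Three arbitrary multiplicities. -/
theorem gen_three (n p m s M d D : ℕ) (mm : Fin n → ℕ) (T : Finset (Fin n))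
    (hT : T.card ≤ 3) (h7 : 7 * m + s < 2 * p * (p + 1)) (hM : 2 * m + 1 ≤ M)
    (hmm : ∀ i, i ∉ T → mm i ≤ M)
    (hs : (Finset.univ.filter (fun i => i ∉ T ∧ m < mm i)).card ≤ s)
    (hd : (2 * p + 1) * M ≤ d) (hdT : ∀ i ∈ T, mm i + (2 * p + 1) * M ≤ d)
    (hpair : ∀ i ∈ T, ∀ j ∈ T, i ≠ j → mm i + mm j ≤ d + 1)
    (hD : D = d ∨ D ≤ d ∧ (d + 1) * (d + 2) ≤ ∑ i, mm i * (mm i + 1)) : GenExp D mm := by
  have h := genExp_of_OK d mm (tri_three p m s M d mm T hT h7 hM hmm hs hd hdT hpair)
  rcases hD with rfl | ⟨h1, h2⟩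
  · exact h
  · exact h.le h1 h2

/-- Two arbitrary multiplicities. -/
theorem gen_two (n k m s M d D : ℕ) (mm : Fin n → ℕ) (T : Finset (Fin n))
    (hT : T.card ≤ 2) (h7 : 7 * m + s < k ^ 2) (h7' : 7 * m + s + T.card ≤ k ^ 2)
    (hM : 2 * m ≤ M) (hmm : ∀ i, i ∉ T → mm i ≤ M)
    (hs : (Finset.univ.filter (fun i => i ∉ T ∧ m < mm i)).card ≤ s)
    (hd : k * (M + 1) ≤ d + 1) (hdT : ∀ i ∈ T, mm i + k * (M + 1) ≤ d + 1)
    (hpair : ∀ i ∈ T, ∀ j ∈ T, i ≠ j → mm i + mm j ≤ d + 1)
    (hD : D = d ∨ D ≤ d ∧ (d + 1) * (d + 2) ≤ ∑ i, mm i * (mm i + 1)) : GenExp D mm := by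
  have h := genExp_of_OK d mm (tri_two k m s M d mm T hT h7 h7' hM hmm hs hd hdT hpair)
  rcases hD with rfl | ⟨h1, h2⟩
  · exact h
  · exact h.le h1 h2

end Pool.MP_70e04f_ag.Hex

end
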