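import Pool.Agent.Lib_MP_70e04f_m.M10
import Pool.Agent.Lib_MP_70e04f_m.M11
import Pool.Agent.Lib_MP_70e04f_m.M13
import Pool.Agent.Lib_MP_70e04f_m.M21

/-!
# MP_70e04f_ag, plane linear systems: merged library part M25

Concatenation of smaller files (each in its own section), only to save build time.
-/

namespace Pool.MP_70e04f_ag.Hex
end Pool.MP_70e04f_ag.Hex

namespace Pool.MP_70e04f_ag.Add
end Pool.MP_70e04f_ag.Add

/-! ### from `Lib_MP_70e04f_nine.Rows2` -/

section

/-!
# The rows of the leading exponents along the curve (piece ROWS)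

PAPER PROOF. Let `lam`, `η` be as in `exists_branch`. Write `W j = Lsys (N - j * k) (m - j * c) q`
(natural subtraction); `W j = ⊥` for `N ≤ j` (`eq_zero_of_mem_Lsys_zero`). Let `A j` be the set of
orders (`exists_orders`) of the space `U j = (W j).map (br P lam η)`; by `finrank_br`
`card (A j) = hT (W j) - hT (W (j + 1))` (note `(N - j k) - k = N - (j + 1) k` and the same for the
multiplicities). Let `Q = {(a, j) | j < N, a ∈ A j}`; then `rowc Q j = card (A j)` for all `j`, and
`Q.card = ∑ j < N, card (A j) = hT N m q` (telescoping, `hT 0 = 0`).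

Sumset: let `B` be the orders of `(Lsys (k + 1) c q).map (br P lam η)`, by `finrank_br` (and
`hT 1 0 = 1`: `Lsys (k + 1 - k) (c - c) q` is the space of constants)
`card B + 1 = hT (k + 1) c q`; `row_mul_mem` and `orders_add` give
`card (A (j + 1)) + card B ≤ card (A j) + 1` if `card (A (j + 1)) ≥ 1` (`card B ≥ 1` is a hypothesis:
`2 ≤ hT (k + 1) c q`).

Points: choose `N0 > ` all `a ∈ A j`, `j < N`, `1 ≤ N0`, and `n = N0 + 1`. For `r = (a, j) ∈ Q`
choose `G r ∈ W j` with `order (br P lam η (G r)) = a`, and put `F r = f ^ j * G r ∈ Lsys N m q` (by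
`row_mul_mem` or `curve_mul_iff`, `j` times) and `H r = phi P lam (trunc n η) (F r)`, so that
`InitMon N0 r (H r)` by `InitMon.pow_mul`, `init_phi_curve` (`br P lam η f = 0`) and `init_phi_mem`.
By `linearIndependent_of_initMon` the `H r`, hence the `F r`, are linearly independent; as
`card Q = finrank (Lsys N m q)` they are a basis: every `F ∈ Lsys N m q` is `∑ r, v r • F r`. If `F`
vanishes to order `mm i` at `phiPt P lam (trunc n η) (p i)` then `phi F = ∑ r, v r • H r` vanishes
to order `mm i` at `p i` (`phi_vanish`). So with `p` from `init_degen2` the space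
`Lsys N m q ⊓ vanish mm (phiPt .. ∘ p)` embeds in `(vanish mm p).comap (linearCombination H)`.
-/

namespace Pool.MP_70e04f_ag.Nine

open MvPolynomial Pool.MP_70e04f_ag.Hex Pool.MP_70e04f_ag.Add

/-- The space of constants. -/
lemma rows2_hT_one {τ : Type*} [Fintype τ] (q : τ → Fin 2 → ℝ) :
    hT 1 (fun _ : τ => 0) q = 1 := by
  rw [hT_eq]
  have h1 : LinearMap.ker (condP (tri 1) (fun _ : τ => 0) q).mulVecLin = ⊤ := by
    rw [eq_top_iff]
    intro v _
    rw [LinearMap.mem_ker]
    funext y
    exfalso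
    have := mem_tri.1 y.2.2
    omega
  rw [h1, finrank_top, Module.finrank_fintype_fun_eq_card, Fintype.card_coe]
  rfl

lemma rows2_hT_zero {τ : Type*} (m : τ → ℕ) (q : τ → Fin 2 → ℝ) : hT 0 m q = 0 := by
  unfold hT
  have h1 : Lsys 0 m q = ⊥ := by
    rw [eq_bot_iff]
    intro G hG
    rw [Submodule.mem_bot]
    exact eq_zero_of_mem_Lsys_zero hG
  rw [h1, finrank_bot]

lemma rows2_sub (N j k : ℕ) : N - j * k - k = N - (j + 1) * k := by
  rw [Nat.sub_sub, Nat.succ_mul]

/-- Multiples of powers of the curve. -/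
lemma rows2_pow_mul {τ : Type*} {k : ℕ} {c : τ → ℕ} {q : τ → Fin 2 → ℝ}
    {f : MvPolynomial (Fin 2) ℝ} {P : Fin 2 → ℝ} (hf : IsCurve k c q f P) (N : ℕ) (m : τ → ℕ)
    (j : ℕ) : ∀ G : MvPolynomial (Fin 2) ℝ, G ∈ Lsys (N - j * k) (fun t => m t - j * c t) q →
      f ^ j * G ∈ Lsys N m q := by
  induction j with
  | zero =>
    intro G hG
    simpa using hG
  | succ j ih =>
    intro G hG
    have h1 : f * G ∈ Lsys (N - j * k) (fun t => m t - j * c t) q := by
      rw [curve_mul_iff hf]
      have e1 : N - j * k - k = N - (j + 1) * k := rows2_sub N j k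
      have e2 : (fun t => m t - j * c t - c t) = (fun t => m t - (j + 1) * c t) := by
        funext t
        exact rows2_sub (m t) j (c t)
      rw [e1, e2]
      exact hG
    have h2 := ih _ h1
    rw [pow_succ, mul_assoc]
    exact h2

/-- The rows of the leading exponents along the curve. -/
theorem exists_rows2 {τ : Type*} [Fintype τ] {k N : ℕ} (hk : 1 ≤ k) {m c : τ → ℕ}
    {q : τ → Fin 2 → ℝ} {f : MvPolynomial (Fin 2) ℝ} {P : Fin 2 → ℝ} (hf : IsCurve k c q f P)
    (hC : 2 ≤ hT (k + 1) c q) :
    ∃ Q : Finset (ℕ × ℕ), Q.card = hT N m q ∧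
      (∀ j, rowc Q j + hT (N - (j + 1) * k) (fun t => m t - (j + 1) * c t) q =
        hT (N - j * k) (fun t => m t - j * c t) q) ∧
      (∀ j, 1 ≤ rowc Q (j + 1) → rowc Q (j + 1) + hT (k + 1) c q ≤ rowc Q j + 2) ∧
      (∀ (n : ℕ) (mm : Fin n → ℕ), OK Q mm → ∃ p : Fin n → Fin 2 → ℝ,
        Module.finrank ℝ ↥(Lsys N m q ⊓ vanish mm p) ≤
          hT N m q - Fintype.card (Σ i : Fin n, ↥(tri (mm i)))) := by
  classical
  obtain ⟨lam, η, hη, hd, hbr⟩ := exists_branch hk hf
  -- the orders of the restrictions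
  have hex : ∀ j : ℕ, ∃ A : Finset ℕ, A.card = Module.finrank ℝ
      ↥((Lsys (N - j * k) (fun t => m t - j * c t) q).map (br P lam η).toLinearMap) ∧
      ∀ a : ℕ, a ∈ A ↔ ∃ w ∈ (Lsys (N - j * k) (fun t => m t - j * c t) q).map
        (br P lam η).toLinearMap, PowerSeries.order w = (a : ℕ∞) := fun j =>
    exists_orders _
  choose A hAc hAm using hex
  obtain ⟨B, hBc, hBm⟩ := exists_orders ((Lsys (k + 1) c q).map (br P lam η).toLinearMap)
  have hB : B.card + 1 = hT (k + 1) c q := by
    have h1 := finrank_br (N := k + 1) (m := c) hf hbr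
    rw [← hBc] at h1
    have e1 : k + 1 - k = 1 := by omega
    have e2 : (fun t => c t - c t) = (fun _ : τ => 0) := by
      funext t
      exact Nat.sub_self _
    rw [e1, e2, rows2_hT_one] at h1
    exact h1
  have hA : ∀ j, (A j).card + hT (N - (j + 1) * k) (fun t => m t - (j + 1) * c t) q =
      hT (N - j * k) (fun t => m t - j * c t) q := by
    intro j
    have h1 := finrank_br (N := N - j * k) (m := fun t => m t - j * c t) hf hbr
    rw [← hAc] at h1
    have e1 : N - j * k - k = N - (j + 1) * k := rows2_sub N j k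
    have e2 : (fun t => m t - j * c t - c t) = (fun t => m t - (j + 1) * c t) := by
      funext t
      exact rows2_sub (m t) j (c t)
    rw [e1, e2] at h1
    exact h1
  have hA0 : ∀ j, N ≤ j → A j = ∅ := by
    intro j hj
    have h1 := hA j
    have e1 : N - j * k = 0 := by
      have : j * 1 ≤ j * k := Nat.mul_le_mul_left j hk
      omega
    rw [e1, rows2_hT_zero] at h1
    rw [← Finset.card_eq_zero]
    omega
  set Q : Finset (ℕ × ℕ) := (Finset.range N).biUnion (fun j => (A j).image (fun a => (a, j)))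
    with hQ
  have hQm : ∀ r : ℕ × ℕ, r ∈ Q ↔ r.1 ∈ A r.2 := by
    intro r
    rw [hQ, Finset.mem_biUnion]
    constructor
    · rintro ⟨j, _, hj⟩
      obtain ⟨a, ha, rfl⟩ := Finset.mem_image.1 hj
      exact ha
    · intro h
      refine ⟨r.2, ?_, Finset.mem_image.2 ⟨r.1, h, rfl⟩⟩
      rw [Finset.mem_range]
      by_contra hcon
      rw [hA0 r.2 (not_lt.1 hcon)] at h
      exact absurd h (Finset.notMem_empty _)
  have hQN : ∀ r ∈ Q, r.2 < N := by
    intro r hr
    rw [hQm] at hr
    by_contra hcon
    rw [hA0 r.2 (not_lt.1 hcon)] at hr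
    exact absurd hr (Finset.notMem_empty _)
  have hrow : ∀ j, rowc Q j = (A j).card := by
    intro j
    unfold rowc
    have : Q.filter (fun q => q.2 = j) = (A j).image (fun a => (a, j)) := by
      ext r
      rw [Finset.mem_filter, hQm, Finset.mem_image]
      constructor
      · rintro ⟨h1, h2⟩
        exact ⟨r.1, h2 ▸ h1, Prod.ext rfl h2.symm⟩
      · rintro ⟨a, ha, rfl⟩
        exact ⟨ha, rfl⟩
    rw [this, Finset.card_image_of_injective]
    intro a b hab
    exact (Prod.ext_iff.1 hab).1
  have hcard : Q.card = hT N m q := by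
    rw [← sum_rowc Q N hQN]
    have h1 : ∀ n : ℕ, ∑ j ∈ Finset.range n, rowc Q j +
        hT (N - n * k) (fun t => m t - n * c t) q = hT N m q := by
      intro n
      induction n with
      | zero => simp
      | succ n ih =>
        rw [Finset.sum_range_succ, add_assoc, hrow n, hA n]
        exact ih
    have h2 := h1 N
    have e1 : N - N * k = 0 := by
      have : N * 1 ≤ N * k := Nat.mul_le_mul_left N hk
      omega
    rw [e1, rows2_hT_zero, add_zero] at h2
    exact h2
  refine ⟨Q, hcard, ?_, ?_, ?_⟩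
  · intro j
    rw [hrow]
    exact hA j
  · intro j h1
    rw [hrow] at h1
    rw [hrow, hrow]
    have h2 := orders_add (hAm (j + 1)) hBm (hAm j) (by
      rintro u ⟨G, hG, rfl⟩ v ⟨H, hH, rfl⟩
      refine ⟨H * G, row_mul_mem hH hG, ?_⟩
      change br P lam η (H * G) = br P lam η G * br P lam η H
      rw [map_mul, mul_comm]) h1 (by omega)
    omega
  · intro n mm hOK
    set N0 : ℕ := Q.sup Prod.fst + 1 with hN0
    have hN0' : ∀ r ∈ Q, r.1 < N0 := by
      intro r hr
      have := Finset.le_sup (f := Prod.fst) hr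
      omega
    have hG : ∀ r : ↥Q, ∃ G ∈ Lsys (N - r.1.2 * k) (fun t => m t - r.1.2 * c t) q,
        PowerSeries.order (br P lam η G) = (r.1.1 : ℕ∞) := by
      intro r
      have h1 := (hQm r.1).1 r.2
      rw [hAm] at h1
      obtain ⟨w, ⟨G, hG, rfl⟩, hw⟩ := h1
      exact ⟨G, hG, hw⟩
    choose G hGm hGo using hG
    set F : ↥Q → MvPolynomial (Fin 2) ℝ := fun r => f ^ r.1.2 * G r with hF
    have hFm : ∀ r, F r ∈ Lsys N m q := fun r => rows2_pow_mul hf N m r.1.2 (G r) (hGm r)
    set η0 : Polynomial ℝ := PowerSeries.trunc (N0 + 1) η with hη0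
    set H : ↥Q → MvPolynomial (Fin 2) ℝ := fun r => phi P lam η0 (F r) with hH
    have hbrf : br P lam η f = 0 := (hbr f).2 dvd_rfl
    have hHI : ∀ r : ↥Q, InitMon N0 r.1 (H r) := by
      intro r
      have h1 : InitMon N0 (0, 1) (phi P lam η0 f) :=
        init_phi_curve hη hbrf hd (Nat.lt_succ_self _) (by omega)
      have h2 : InitMon N0 (r.1.1, 0) (phi P lam η0 (G r)) :=
        init_phi_mem (hGo r) ((hN0' r.1 r.2).trans (Nat.lt_succ_self _)) (hN0' r.1 r.2)
      have h3 := h1.pow_mul h2 r.1.2
      have e1 : H r = phi P lam η0 f ^ r.1.2 * phi P lam η0 (G r) := by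
        rw [hH]
        simp only [hF]
        rw [map_mul, map_pow]
      rw [e1]
      exact h3
    have hLI : LinearIndependent ℝ H := linearIndependent_of_initMon hN0' H hHI
    have hLF : LinearIndependent ℝ F := by
      apply LinearIndependent.of_comp (phi P lam η0).toLinearMap
      exact hLI
    have hspan : Submodule.span ℝ (Set.range F) = Lsys N m q := by
      apply Submodule.eq_of_le_of_finrank_eq
      · rw [Submodule.span_le]
        rintro _ ⟨r, rfl⟩
        exact hFm r
      · rw [finrank_span_eq_card hLF, Fintype.card_coe, hcard]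
        rfl
    obtain ⟨p0, hp0⟩ := init_degen2 H hHI hOK
    rw [hcard] at hp0
    refine ⟨fun i => phiPt P lam η0 (p0 i), le_trans ?_ hp0⟩
    have hle : Lsys N m q ⊓ vanish mm (fun i => phiPt P lam η0 (p0 i)) ≤
        ((vanish mm p0).comap (Fintype.linearCombination ℝ H)).map
          (Fintype.linearCombination ℝ F) := by
      rintro Z ⟨hZ1, hZ2⟩
      rw [SetLike.mem_coe, ← hspan, ← Fintype.range_linearCombination] at hZ1
      obtain ⟨v, rfl⟩ := hZ1
      refine ⟨v, ?_, rfl⟩
      rw [SetLike.mem_coe, Submodule.mem_comap]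
      have e1 : Fintype.linearCombination ℝ H v =
          phi P lam η0 (Fintype.linearCombination ℝ F v) := by
        rw [Fintype.linearCombination_apply, Fintype.linearCombination_apply, map_sum]
        refine Finset.sum_congr rfl fun r _ => ?_
        rw [map_smul]
      rw [e1, mem_vanish]
      intro i
      exact phi_vanish (mem_vanish.1 hZ2 i)
    exact (Submodule.finrank_mono hle).trans (Submodule.finrank_map_le _ _)

end Pool.MP_70e04f_ag.Nine

end
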