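import Pool.Agent.Lib_MP_70e04f_m.M09
import Pool.Agent.Lib_MP_70e04f_m.M24
import Pool.Agent.Lib_MP_70e04f_m.M26

/-!
# MP_70e04f_ag, plane linear systems: merged library part M27

Concatenation of smaller files (each in its own section), only to save build time.
-/

namespace Pool.MP_70e04f_ag.Hex
end Pool.MP_70e04f_ag.Hex

namespace Pool.MP_70e04f_ag.Add
end Pool.MP_70e04f_ag.Add

/-! ### from `Lib_MP_70e04f_add.Many` -/

section

/-!
# Arbitrary large multiplicities in standard position, and small ones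
-/

namespace Pool.MP_70e04f_ag.Add

open MvPolynomial Pool.MP_70e04f_ag.Hex

/-- Joining the large points and the others. -/
lemma tri_of_sum {n : ℕ} (N : ℕ) (mm : Fin n → ℕ) (T : Finset (Fin n))
    (h : OK (tri N) (Sum.elim (fun t : ↥T => mm t.1) (fun i : Fin n => if i ∈ T then 0 else mm i))) :
    OK (tri N) mm := by
  classical
  refine OK.restrict (fun i : Fin n => if h : i ∈ T then Sum.inl (⟨i, h⟩ : ↥T) else Sum.inr i)
    ?_ ?_ ?_ h
  · intro i i' hii
    simp only at hii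
    by_cases hi : i ∈ T
    · by_cases hi' : i' ∈ T
      · rw [dif_pos hi, dif_pos hi'] at hii
        have := Sum.inl_injective hii
        exact congrArg Subtype.val this
      · rw [dif_pos hi, dif_neg hi'] at hii
        exact absurd hii (by simp)
    · by_cases hi' : i' ∈ T
      · rw [dif_neg hi, dif_pos hi'] at hii
        exact absurd hii (by simp)
      · rw [dif_neg hi, dif_neg hi'] at hii
        exact Sum.inr_injective hii
  · intro i
    by_cases hi : i ∈ T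
    · simp only [dif_pos hi, Sum.elim_inl]
    · simp only [dif_neg hi, Sum.elim_inr]
      rw [if_neg hi]
  · rintro (t | i) ho
    · exfalso
      apply ho
      exact ⟨t.1, by simp only [dif_pos t.2]⟩
    · by_cases hi : i ∈ T
      · simp [hi]
      · exfalso
        apply ho
        exact ⟨i, by simp only [dif_neg hi]⟩

/-- Arbitrary multiplicities in standard position, and small ones. -/
theorem tri_many {n : ℕ} (k m s M d : ℕ) (mm : Fin n → ℕ) (T : Finset (Fin n))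
    (h7 : 7 * m + s < k ^ 2) (hM : 2 * m ≤ M) (hmm : ∀ i, i ∉ T → mm i ≤ M)
    (hs : (Finset.univ.filter (fun i => i ∉ T ∧ m < mm i)).card ≤ s)
    (hT3 : ∀ U ⊆ T, U.card ≤ 3 → ∑ i ∈ U, mm i + k * (M + 1) ≤ d)
    (hTs : ∑ i ∈ T, mm i + 3 * (k * (M + 1)) ≤ 3 * d) : OK (tri (d + 1)) mm := by
  classical
  apply tri_of_sum (d + 1) mm T
  have hkM : (M + 1) * k = k * (M + 1) := Nat.mul_comm _ _
  have h0 := hT3 ∅ (by simp) (by simp)
  rw [Finset.sum_empty, Nat.zero_add] at h0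
  have hstd : Std (d + 1 - (M + 1) * k) (fun t : ↥T => mm t.1) := by
    constructor
    · intro U hU
      have h1 := hT3 (U.map (Function.Embedding.subtype _)) (by
        intro i hi
        rw [Finset.mem_map] at hi
        obtain ⟨t, _, rfl⟩ := hi
        exact t.2) (by rw [Finset.card_map]; exact hU)
      rw [Finset.sum_map] at h1
      simp only [Function.Embedding.subtype_apply] at h1
      change ∑ t ∈ U, mm t.1 + 1 ≤ _
      omega
    · have h1 : ∑ t : ↥T, mm t.1 = ∑ i ∈ T, mm i := Finset.sum_coe_sort T mm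
      rw [h1]
      omega
  let e : ↥T → ℝ := fun t => ((t.1 : ℕ) : ℝ) + 2
  have he : Function.Injective e := by
    intro a b hab
    have h1 : ((a.1 : ℕ) : ℝ) = ((b.1 : ℕ) : ℝ) := by simpa [e] using hab
    exact Subtype.ext (Fin.ext (Nat.cast_injective h1))
  have he1 : ∀ t, 1 < e t := by
    intro t
    have : (0 : ℝ) ≤ ((t.1 : ℕ) : ℝ) := Nat.cast_nonneg _
    simp only [e]
    linarith
  have he0 : ∀ t, 0 < e t := fun t => by have := he1 t; linarith
  have hj : ∀ j, j ≤ M + 1 → Std (d + 1 - j * k) (fun t : ↥T => mm t.1) := by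
    intro j hj
    apply hstd.mono
    have : j * k ≤ (M + 1) * k := Nat.mul_le_mul_right k hj
    omega
  apply add_small k m s M (d + 1) (fun t : ↥T => mm t.1) (cpt e) _ h7 hM
  · intro i
    split_ifs with h
    · exact Nat.zero_le _
    · exact hmm i h
  · refine le_trans (Finset.card_le_card ?_) hs
    intro i hi
    rw [Finset.mem_filter] at hi ⊢
    have h2 := hi.2
    split_ifs at h2 with h
    · omega
    · exact ⟨hi.1, h, h2⟩
  · intro t h
    have h1 : e t ^ 3 = (e t ^ 2) ^ k := h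
    rw [← pow_mul] at h1
    have := pow_right_injective₀ (he0 t) (he1 t).ne' h1
    omega
  · intro j hj'
    have h1 := (hj j hj').hT_le he he0
    have h2 := hT_ge (d + 1 - j * k) (fun t : ↥T => mm t.1) (cpt e)
    omega
  · have h1 := hstd.chi_pos
    have h2 := hT_ge (d + 1 - (M + 1) * k) (fun t : ↥T => mm t.1) (cpt e)
    omega

/-- Arbitrary multiplicities in standard position, and small ones: general complex points. -/
theorem gen_many (n k m s M d D : ℕ) (mm : Fin n → ℕ) (T : Finset (Fin n))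
    (h7 : 7 * m + s < k ^ 2) (hM : 2 * m ≤ M) (hmm : ∀ i, i ∉ T → mm i ≤ M)
    (hs : (Finset.univ.filter (fun i => i ∉ T ∧ m < mm i)).card ≤ s)
    (hT3 : ∀ U ⊆ T, U.card ≤ 3 → ∑ i ∈ U, mm i + k * (M + 1) ≤ d)
    (hTs : ∑ i ∈ T, mm i + 3 * (k * (M + 1)) ≤ 3 * d)
    (hD : D = d ∨ D ≤ d ∧ (d + 1) * (d + 2) ≤ ∑ i, mm i * (mm i + 1)) : GenExp D mm := by
  have h := genExp_of_OK d mm (tri_many k m s M d mm T h7 hM hmm hs hT3 hTs)
  rcases hD with rfl | ⟨h1, h2⟩
  · exact h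
  · exact h.le h1 h2

end Pool.MP_70e04f_ag.Add

end

/-! ### from `Lib_MP_70e04f_nine.ClassT` -/

section

/-!
# Large multiplicities in standard position plus a multiple of a standard class
-/

namespace Pool.MP_70e04f_ag.Nine

open MvPolynomial Pool.MP_70e04f_ag.Hex Pool.MP_70e04f_ag.Add

/-- Sums of standard classes. -/
lemma Std.addClass {τ : Type*} [Fintype τ] {N k : ℕ} {x c : τ → ℕ} (h : Std N x)
    (h3 : ∀ U : Finset τ, U.card ≤ 3 → ∑ t ∈ U, c t ≤ k) (hK : ∑ t, c t ≤ 3 * k) (i : ℕ) :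
    Std (N + i * k) (fun t => x t + i * c t) := by
  constructor
  · intro U hU
    have h1 := h.1 U hU
    have h2 := Nat.mul_le_mul_left i (h3 U hU)
    rw [Finset.sum_add_distrib, ← Finset.mul_sum]
    omega
  · have h1 := h.2
    have h2 := Nat.mul_le_mul_left i hK
    have h3 : i * (3 * k) = 3 * (i * k) := by ring
    rw [Finset.sum_add_distrib, ← Finset.mul_sum]
    omega

/-- The second difference of the dimension. -/
lemma second_diff {τ : Type*} [Fintype τ] (k σ N : ℕ) (x c : τ → ℕ)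
    (hσ : σ + ∑ t, c t ^ 2 = k ^ 2) (a0 a1 a2 : ℕ)
    (h0 : 2 * a0 + ∑ t, x t * (x t + 1) = N * (N + 1))
    (h1 : 2 * a1 + ∑ t, (x t + c t) * (x t + c t + 1) = (N + k) * (N + k + 1))
    (h2 : 2 * a2 + ∑ t, (x t + 2 * c t) * (x t + 2 * c t + 1) = (N + 2 * k) * (N + 2 * k + 1)) :
    a2 + a0 = 2 * a1 + σ := by
  have e : ∑ t, (x t + 2 * c t) * (x t + 2 * c t + 1) + ∑ t, x t * (x t + 1) =
      2 * ∑ t, (x t + c t) * (x t + c t + 1) + 2 * ∑ t, c t ^ 2 := by
    rw [Finset.mul_sum, Finset.mul_sum, ← Finset.sum_add_distrib, ← Finset.sum_add_distrib]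
    refine Finset.sum_congr rfl fun t _ => ?_
    ring
  nlinarith

/-- Large multiplicities `(M + 1) C + F`, and small ones. -/
theorem tri_class {n : ℕ} (k m s M d : ℕ) (mm cc : Fin n → ℕ) (T : Finset (Fin n))
    (h7 : 7 * m + s + ∑ i ∈ T, cc i ^ 2 < k ^ 2) (hM : 2 * m ≤ M) (hmm : ∀ i, i ∉ T → mm i ≤ M)
    (hs : (Finset.univ.filter (fun i => i ∉ T ∧ m < mm i)).card ≤ s)
    (hC3 : ∀ U ⊆ T, U.card ≤ 3 → ∑ i ∈ U, cc i ≤ k) (hCK : ∑ i ∈ T, cc i + 1 ≤ 3 * k)
    (hFm : ∀ i ∈ T, (M + 1) * cc i ≤ mm i)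
    (hF3 : ∀ U ⊆ T, U.card ≤ 3 → ∑ i ∈ U, mm i + (M + 1) * k ≤ d + (M + 1) * ∑ i ∈ U, cc i)
    (hFK : ∑ i ∈ T, mm i + 3 * ((M + 1) * k) ≤ 3 * d + (M + 1) * ∑ i ∈ T, cc i) :
    OK (tri (d + 1)) mm := by
  classical
  apply tri_of_sum (d + 1) mm T
  obtain ⟨σ, hσ⟩ : ∃ σ, σ + ∑ i ∈ T, cc i ^ 2 = k ^ 2 := ⟨k ^ 2 - ∑ i ∈ T, cc i ^ 2, by omega⟩
  have hk : 1 ≤ k := by
    rcases Nat.eq_zero_or_pos k with h | h
    · subst h; simp at h7
    · exact h
  -- sums over the subtype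
  have sumU : ∀ (U : Finset ↥T) (g : Fin n → ℕ), ∑ t ∈ U, g t.1 =
      ∑ i ∈ U.map (Function.Embedding.subtype _), g i := by
    intro U g
    rw [Finset.sum_map]
    rfl
  have subU : ∀ U : Finset ↥T, U.map (Function.Embedding.subtype _) ⊆ T := by
    intro U i hi
    rw [Finset.mem_map] at hi
    obtain ⟨t, _, rfl⟩ := hi
    exact t.2
  have sumT : ∀ g : Fin n → ℕ, ∑ t : ↥T, g t.1 = ∑ i ∈ T, g i :=
    fun g => Finset.sum_coe_sort T g
  set c : ↥T → ℕ := fun t => cc t.1 with hc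
  set x : ↥T → ℕ := fun t => mm t.1 - (M + 1) * cc t.1 with hx
  have hxm : ∀ t : ↥T, x t + (M + 1) * c t = mm t.1 := fun t => Nat.sub_add_cancel (hFm t.1 t.2)
  have hC3' : ∀ U : Finset ↥T, U.card ≤ 3 → ∑ t ∈ U, c t ≤ k := by
    intro U hU
    rw [hc, sumU U cc]
    exact hC3 _ (subU U) (by rw [Finset.card_map]; exact hU)
  have hCK' : ∑ t, c t + 1 ≤ 3 * k := by rw [hc, sumT cc]; exact hCK
  have hsq : ∑ t, c t ^ 2 = ∑ i ∈ T, cc i ^ 2 := sumT (fun i => cc i ^ 2)
  have hxU : ∀ U : Finset ↥T, ∑ t ∈ U, x t + (M + 1) * ∑ t ∈ U, c t = ∑ t ∈ U, mm t.1 := by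
    intro U
    rw [Finset.mul_sum, ← Finset.sum_add_distrib]
    exact Finset.sum_congr rfl fun t _ => hxm t
  have h0 := hF3 ∅ (by simp) (by simp)
  simp only [Finset.sum_empty, Nat.mul_zero, Nat.zero_add, Nat.add_zero] at h0
  obtain ⟨N, hN⟩ : ∃ N, N + (M + 1) * k = d + 1 := ⟨d + 1 - (M + 1) * k, by omega⟩
  have hstd : Std N x := by
    constructor
    · intro U hU
      have h1 := hF3 _ (subU U) (by rw [Finset.card_map]; exact hU)
      rw [← sumU U mm, ← sumU U cc] at h1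
      have h2 := hxU U
      have h3 : ∑ t ∈ U, c t = ∑ t ∈ U, cc t.1 := rfl
      rw [h3] at h2
      omega
    · have h2 := hxU Finset.univ
      rw [sumT mm] at h2
      have h3 : ∑ t, c t = ∑ i ∈ T, cc i := sumT cc
      rw [h3] at h2
      omega
  let e : ↥T → ℝ := fun t => ((t.1 : ℕ) : ℝ) + 2
  have he : Function.Injective e := by
    intro a b hab
    have h1 : ((a.1 : ℕ) : ℝ) = ((b.1 : ℕ) : ℝ) := by simpa [e] using hab
    exact Subtype.ext (Fin.ext (Nat.cast_injective h1))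
  have he1 : ∀ t, 1 < e t := by
    intro t
    have : (0 : ℝ) ≤ ((t.1 : ℕ) : ℝ) := Nat.cast_nonneg _
    simp only [e]
    linarith
  have he0 : ∀ t, 0 < e t := fun t => by have := he1 t; linarith
  obtain ⟨f, P, hf⟩ := exists_curve he he1 (k := k) (c := c) hC3' hCK' (by rw [hsq]; omega)
  -- exact dimensions
  have hex : ∀ i, 2 * hT (N + i * k) (fun t => x t + i * c t) (cpt e) +
      ∑ t, (x t + i * c t) * (x t + i * c t + 1) = (N + i * k) * (N + i * k + 1) := by
    intro i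
    have h1 := (Std.addClass hstd hC3' (by omega) i).hT_le he he0
    have h2 := hT_ge (N + i * k) (fun t => x t + i * c t) (cpt e)
    omega
  have hrow : ∀ j i, j + i = M + 1 → hT (d + 1 - j * k) (fun t : ↥T => mm t.1 - j * c t) (cpt e) =
      hT (N + i * k) (fun t => x t + i * c t) (cpt e) := by
    intro j i hji
    have e1 : d + 1 - j * k = N + i * k := by
      have : (M + 1) * k = j * k + i * k := by rw [← hji]; ring
      omega
    have e2 : (fun t : ↥T => mm t.1 - j * c t) = fun t => x t + i * c t := by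
      funext t
      have h1 := hxm t
      have : (M + 1) * c t = j * c t + i * c t := by rw [← hji]; ring
      omega
    rw [e1, e2]
  have hC : 2 * m + 2 ≤ hT (k + 1) c (cpt e) := by
    have h1 := hT_ge (k + 1) c (cpt e)
    have h2 : ∑ t, c t * (c t + 1) = ∑ t, c t ^ 2 + ∑ t, c t := by
      rw [← Finset.sum_add_distrib]
      refine Finset.sum_congr rfl fun t _ => ?_
      ring
    rw [h2, hsq] at h1
    nlinarith
  apply class_small k m s M (d + 1) σ (fun t : ↥T => mm t.1) c (cpt e) f P hf _ hk (by omega) hM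
  · intro i
    split_ifs with h
    · exact Nat.zero_le _
    · exact hmm i h
  · refine le_trans (Finset.card_le_card ?_) hs
    intro i hi
    rw [Finset.mem_filter] at hi ⊢
    have h2 := hi.2
    split_ifs at h2 with h
    · omega
    · exact ⟨hi.1, h, h2⟩
  · exact hC
  · intro j hj
    obtain ⟨i, hi⟩ : ∃ i, j + 2 + i = M + 1 := ⟨M + 1 - (j + 2), by omega⟩
    rw [hrow j (i + 2) (by omega), hrow (j + 1) (i + 1) (by omega), hrow (j + 2) i (by omega)]
    have a0 := hex i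
    have a1 := hex (i + 1)
    have a2 := hex (i + 2)
    have e1 : ∀ t, x t + (i + 1) * c t = x t + i * c t + c t := fun t => by ring
    have e2 : ∀ t, x t + (i + 2) * c t = x t + i * c t + 2 * c t := fun t => by ring
    have e3 : N + (i + 1) * k = N + i * k + k := by ring
    have e4 : N + (i + 2) * k = N + i * k + 2 * k := by ring
    simp only [e1, e3] at a1 ⊢
    simp only [e2, e4] at a2 ⊢
    exact second_diff k σ (N + i * k) (fun t => x t + i * c t) c (by rw [hsq]; exact hσ)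
      _ _ _ a0 a1 a2
  · have := hstd.pos
    omega
  · rw [hrow (M + 1) 0 (by omega)]
    have h1 := hex 0
    simp only [Nat.zero_mul, Nat.add_zero] at h1 ⊢
    have h2 := hstd.chi_pos
    omega
  · have h1 := hex (M + 1)
    have h2 := hrow 0 (M + 1) (by omega)
    simp only [Nat.zero_mul, Nat.sub_zero] at h2
    rw [← h2] at h1
    have e1 : ∑ t : ↥T, (x t + (M + 1) * c t) * (x t + (M + 1) * c t + 1) =
        ∑ t : ↥T, mm t.1 * (mm t.1 + 1) := Finset.sum_congr rfl fun t _ => by rw [hxm t]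
    rw [e1, hN] at h1
    exact h1

/-- General complex points. -/
theorem gen_class (n k m s M d D : ℕ) (mm cc : Fin n → ℕ) (T : Finset (Fin n))
    (h7 : 7 * m + s + ∑ i ∈ T, cc i ^ 2 < k ^ 2) (hM : 2 * m ≤ M) (hmm : ∀ i, i ∉ T → mm i ≤ M)
    (hs : (Finset.univ.filter (fun i => i ∉ T ∧ m < mm i)).card ≤ s)
    (hC3 : ∀ U ⊆ T, U.card ≤ 3 → ∑ i ∈ U, cc i ≤ k) (hCK : ∑ i ∈ T, cc i + 1 ≤ 3 * k)
    (hFm : ∀ i ∈ T, (M + 1) * cc i ≤ mm i)
    (hF3 : ∀ U ⊆ T, U.card ≤ 3 → ∑ i ∈ U, mm i + (M + 1) * k ≤ d + (M + 1) * ∑ i ∈ U, cc i)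
    (hFK : ∑ i ∈ T, mm i + 3 * ((M + 1) * k) ≤ 3 * d + (M + 1) * ∑ i ∈ T, cc i)
    (hD : D = d ∨ D ≤ d ∧ (d + 1) * (d + 2) ≤ ∑ i, mm i * (mm i + 1)) : GenExp D mm := by
  have h := genExp_of_OK d mm (tri_class k m s M d mm cc T h7 hM hmm hs hC3 hCK hFm hF3 hFK)
  rcases hD with rfl | ⟨h1, h2⟩
  · exact h
  · exact h.le h1 h2

end Pool.MP_70e04f_ag.Nine

end

/-! ### from `Lib_MP_70e04f_nine.Floor` -/

section

/-!
# The general theorem for nine points ordered by their multiplicities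
-/

namespace Pool.MP_70e04f_ag.Nine

open Pool.MP_70e04f_ag.Hex Pool.MP_70e04f_ag.Add

/-- Three of nine decreasing numbers. -/
lemma three_le {γ : ℕ → ℕ} (hγ : Antitone γ) (V : Finset (Fin 9)) (hV : V.card ≤ 3) :
    ∑ j ∈ V, γ j ≤ γ 0 + γ 1 + γ 2 := by
  classical
  have hS : (({0, 1, 2} : Finset (Fin 9))).card = 3 := by decide
  set S : Finset (Fin 9) := {0, 1, 2} with hSd
  have hsum : ∑ j ∈ S, γ j = γ 0 + γ 1 + γ 2 := by
    rw [hSd]
    rw [Finset.sum_insert (by decide), Finset.sum_insert (by decide), Finset.sum_singleton]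
    simp [add_assoc]
  have h1 : ∑ j ∈ V \ S, γ (j : ℕ) ≤ (V \ S).card * γ 2 := by
    rw [← smul_eq_mul]
    apply Finset.sum_le_card_nsmul
    intro j hj
    apply hγ
    rw [Finset.mem_sdiff] at hj
    by_contra hcon
    apply hj.2
    have hj2 : (j : ℕ) < 2 := by omega
    rw [hSd]
    simp only [Finset.mem_insert, Finset.mem_singleton]
    rcases Nat.lt_or_ge (j : ℕ) 1 with h | h
    · left; exact Fin.ext (by simp; omega)
    · right; left; exact Fin.ext (by simp; omega)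
  have h2 : (S \ V).card * γ 2 ≤ ∑ j ∈ S \ V, γ (j : ℕ) := by
    rw [← smul_eq_mul]
    apply Finset.card_nsmul_le_sum
    intro j hj
    apply hγ
    rw [Finset.mem_sdiff, hSd] at hj
    have := hj.1
    simp only [Finset.mem_insert, Finset.mem_singleton] at this
    rcases this with h | h | h <;> rw [h] <;> simp
  have h3 : (V \ S).card ≤ (S \ V).card := by
    have e1 := Finset.card_sdiff_add_card_inter V S
    have e2 := Finset.card_sdiff_add_card_inter S V
    rw [Finset.inter_comm] at e2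
    omega
  have h4 := Finset.sum_inter_add_sum_sdiff V S (fun j : Fin 9 => γ (j : ℕ))
  have h5 := Finset.sum_inter_add_sum_sdiff S V (fun j : Fin 9 => γ (j : ℕ))
  rw [Finset.inter_comm] at h5
  have h6 := Nat.mul_le_mul_right (γ 2) h3
  omega

/-- Nine decreasing numbers. -/
lemma nine_le {γ : ℕ → ℕ} (hγ : Antitone γ) : ∑ j : Fin 9, γ j ≤ 3 * (γ 0 + γ 1 + γ 2) := by
  have h : ∀ j, 2 ≤ j → γ j ≤ γ 2 := fun j hj => hγ hj
  have h1 := hγ (show 1 ≤ 2 by norm_num)
  have h2 := hγ (show 0 ≤ 1 by norm_num)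
  have a3 := h 3 (by norm_num)
  have a4 := h 4 (by norm_num)
  have a5 := h 5 (by norm_num)
  have a6 := h 6 (by norm_num)
  have a7 := h 7 (by norm_num)
  have a8 := h 8 (by norm_num)
  simp only [Fin.sum_univ_succ, Fin.val_zero, Fin.val_succ, Finset.univ_unique,
    Finset.sum_singleton, Fin.default_eq_zero]
  norm_num
  omega

/-- The general theorem for ordered points. -/
theorem tri_floor {n : ℕ} (m d r : ℕ) (mm : Fin n → ℕ) (α : Fin 9 → Fin n)
    (hα : Function.Injective α) (γ β : ℕ → ℕ) (hγ : Antitone γ)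
    (hβ : Antitone β) (k f : ℕ) (hd : d = (2 * m + 1) * k + f)
    (hμ : ∀ j : Fin 9, (j : ℕ) < r → mm (α j) = (2 * m + 1) * γ j + β j)
    (hγ0 : ∀ j, r ≤ j → γ j = 0) (hβ0 : ∀ j, r ≤ j → β j = 0)
    (hk : γ 0 + γ 1 + γ 2 ≤ k) (hf : β 0 + β 1 + β 2 ≤ f)
    (hsmall : ∀ j : Fin 9, r ≤ (j : ℕ) → mm (α j) ≤ 2 * m)
    (hother : ∀ i, i ∉ Set.range α → mm i ≤ m)
    (h7 : 7 * m + (9 - r) + ∑ j : Fin 9, γ j ^ 2 < k ^ 2) : OK (tri (d + 1)) mm := by
  classical
  set T : Finset (Fin n) := (Finset.univ.filter (fun j : Fin 9 => (j : ℕ) < r)).image α with hT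
  set cc : Fin n → ℕ := fun i => ∑ j : Fin 9, if α j = i then γ j else 0 with hcc
  have hccα : ∀ j : Fin 9, cc (α j) = γ j := by
    intro j
    rw [hcc]
    simp only
    rw [Finset.sum_eq_single j]
    · simp
    · intro b _ hb
      rw [if_neg]
      intro h
      exact hb (hα h)
    · intro h
      exact absurd (Finset.mem_univ j) h
  have memT : ∀ j : Fin 9, α j ∈ T ↔ (j : ℕ) < r := by
    intro j
    rw [hT, Finset.mem_image]
    constructor
    · rintro ⟨j', hj', h⟩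
      rw [hα h] at hj'
      exact (Finset.mem_filter.1 hj').2
    · intro h
      exact ⟨j, Finset.mem_filter.2 ⟨Finset.mem_univ j, h⟩, rfl⟩
  -- subsets of `T`
  have hsub : ∀ U ⊆ T, ∃ V : Finset (Fin 9), V.card = U.card ∧ (∀ j ∈ V, (j : ℕ) < r) ∧
      ∀ g : Fin n → ℕ, ∑ i ∈ U, g i = ∑ j ∈ V, g (α j) := by
    intro U hU
    have hUim : (Finset.univ.filter (fun j : Fin 9 => α j ∈ U)).image α = U := by
      ext i
      rw [Finset.mem_image]
      constructor
      · rintro ⟨j, hj, rfl⟩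
        exact (Finset.mem_filter.1 hj).2
      · intro hi
        obtain ⟨j, _, rfl⟩ := Finset.mem_image.1 (hU hi)
        exact ⟨j, Finset.mem_filter.2 ⟨Finset.mem_univ j, hi⟩, rfl⟩
    refine ⟨Finset.univ.filter (fun j : Fin 9 => α j ∈ U), ?_, ?_, ?_⟩
    · conv_rhs => rw [← hUim]
      rw [Finset.card_image_of_injective _ hα]
    · intro j hj
      exact (memT j).1 (hU (Finset.mem_filter.1 hj).2)
    · intro g
      conv_lhs => rw [← hUim]
      rw [Finset.sum_image (fun x _ y _ h => hα h)]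
  have hsumT : ∀ g : Fin n → ℕ, (∀ j : Fin 9, r ≤ (j : ℕ) → g (α j) = 0) →
      ∑ i ∈ T, g i = ∑ j : Fin 9, g (α j) := by
    intro g hg
    rw [hT, Finset.sum_image (fun x _ y _ h => hα h)]
    apply Finset.sum_subset (Finset.subset_univ _)
    intro j _ hj
    apply hg
    by_contra hcon
    exact hj (Finset.mem_filter.2 ⟨Finset.mem_univ j, by omega⟩)
  have hccT : ∑ i ∈ T, cc i = ∑ j : Fin 9, γ j := by
    rw [hsumT cc (fun j hj => by rw [hccα]; exact hγ0 j hj)]
    exact Finset.sum_congr rfl fun j _ => hccα j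
  have hsqT : ∑ i ∈ T, cc i ^ 2 = ∑ j : Fin 9, γ j ^ 2 := by
    rw [hsumT (fun i => cc i ^ 2) (fun j hj => by
      show cc (α j) ^ 2 = 0
      rw [hccα, hγ0 j hj]; norm_num)]
    exact Finset.sum_congr rfl fun j _ => by rw [hccα j]
  have hnine := nine_le hγ
  apply tri_class k m (9 - r) (2 * m) d mm cc T
  · rw [hsqT]; exact h7
  · exact le_rfl
  · intro i hi
    by_cases h : i ∈ Set.range α
    · obtain ⟨j, rfl⟩ := h
      apply hsmall
      by_contra hcon
      exact hi ((memT j).2 (by omega))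
    · have := hother i h
      omega
  · have h1 : (Finset.univ.filter (fun i => i ∉ T ∧ m < mm i)) ⊆
        (Finset.univ.filter (fun j : Fin 9 => r ≤ (j : ℕ))).image α := by
      intro i hi
      rw [Finset.mem_filter] at hi
      rw [Finset.mem_image]
      have h2 : i ∈ Set.range α := by
        by_contra hcon
        have := hother i hcon
        omega
      obtain ⟨j, rfl⟩ := h2
      refine ⟨j, Finset.mem_filter.2 ⟨Finset.mem_univ j, ?_⟩, rfl⟩
      by_contra hcon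
      exact hi.2.1 ((memT j).2 (by omega))
    refine (Finset.card_le_card h1).trans ?_
    rw [Finset.card_image_of_injective _ hα]
    have h3 : (Finset.univ.filter (fun j : Fin 9 => r ≤ (j : ℕ))) =
        (Finset.univ.filter (fun j : Fin 9 => (j : ℕ) < r))ᶜ := by
      ext j
      simp
    rw [h3, Finset.card_compl, Fintype.card_fin]
    rcases Nat.lt_or_ge r 10 with hr | hr
    · have h4 : (Finset.univ.filter (fun j : Fin 9 => (j : ℕ) < r)).card = r := by
        rw [Fin.card_filter_val_lt]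
        omega
      omega
    · have h4 : (Finset.univ.filter (fun j : Fin 9 => (j : ℕ) < r)) = Finset.univ := by
        ext j
        simp only [Finset.mem_filter, Finset.mem_univ, true_and, iff_true]
        omega
      rw [h4, Finset.card_univ, Fintype.card_fin]
      omega
  · intro U hU hc
    obtain ⟨V, h1, h2, h3⟩ := hsub U hU
    rw [h3 cc]
    have h4 := three_le hγ V (by omega)
    have h5 : ∑ j ∈ V, cc (α j) = ∑ j ∈ V, γ j := Finset.sum_congr rfl fun j _ => hccα j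
    omega
  · rw [hccT]
    by_contra hcon
    -- equality in Cauchy
    have h1 : 3 * k ≤ ∑ j : Fin 9, γ j := by omega
    have h2 : (∑ j : Fin 9, γ j) ^ 2 ≤ 9 * ∑ j : Fin 9, γ j ^ 2 := by
      have := sq_sum_le_card_mul_sum_sq (s := (Finset.univ : Finset (Fin 9)))
        (f := fun j : Fin 9 => γ (j : ℕ))
      simpa using this
    have h3 : (3 * k) ^ 2 ≤ (∑ j : Fin 9, γ j) ^ 2 := Nat.pow_le_pow_left h1 2
    have h4 : (3 * k) ^ 2 = 9 * k ^ 2 := by ring
    omega
  · intro i hi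
    obtain ⟨j, hj, rfl⟩ := Finset.mem_image.1 hi
    rw [hccα, hμ j (Finset.mem_filter.1 hj).2]
    omega
  · intro U hU hc
    obtain ⟨V, h1, h2, h3⟩ := hsub U hU
    rw [h3 cc, h3 mm]
    have h4 := three_le hβ V (by omega)
    have h5 : ∑ j ∈ V, cc (α j) = ∑ j ∈ V, γ j := Finset.sum_congr rfl fun j _ => hccα j
    have h6 : ∑ j ∈ V, mm (α j) = (2 * m + 1) * ∑ j ∈ V, γ j + ∑ j ∈ V, β j := by
      rw [Finset.mul_sum, ← Finset.sum_add_distrib]
      exact Finset.sum_congr rfl fun j hj => hμ j (h2 j hj)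
    rw [h5, h6, hd]
    omega
  · have h4 := nine_le hβ
    have h5 : ∑ i ∈ T, mm i = (2 * m + 1) * ∑ i ∈ T, cc i + ∑ j : Fin 9, β j := by
      have e1 : ∑ j : Fin 9, β j = ∑ i ∈ T, (∑ j : Fin 9, if α j = i then β j else 0) := by
        rw [hsumT (fun i => ∑ j : Fin 9, if α j = i then β j else 0)]
        · refine Finset.sum_congr rfl fun j _ => ?_
          rw [Finset.sum_eq_single j]
          · simp
          · intro b _ hb
            rw [if_neg]
            intro h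
            exact hb (hα h)
          · intro h
            exact absurd (Finset.mem_univ j) h
        · intro j hj
          rw [Finset.sum_eq_single j]
          · simp [hβ0 j hj]
          · intro b _ hb
            rw [if_neg]
            intro h
            exact hb (hα h)
          · intro h
            exact absurd (Finset.mem_univ j) h
      rw [e1, Finset.mul_sum, ← Finset.sum_add_distrib]
      refine Finset.sum_congr rfl fun i hi => ?_
      obtain ⟨j, hj, rfl⟩ := Finset.mem_image.1 hi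
      rw [hccα, hμ j (Finset.mem_filter.1 hj).2]
      congr 1
      rw [Finset.sum_eq_single j]
      · simp
      · intro b _ hb
        rw [if_neg]
        intro h
        exact hb (hα h)
      · intro h
        exact absurd (Finset.mem_univ j) h
    rw [h5, hd]
    have h6 : 3 * ((2 * m + 1) * k) + 3 * f = 3 * ((2 * m + 1) * k + f) := by ring
    omega

end Pool.MP_70e04f_ag.Nine

end

/-! ### from `Lib_MP_70e04f_nine.Core` -/

section

/-!
# Rounding down in the standard cone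
-/

namespace Pool.MP_70e04f_ag.Nine

open Pool.MP_70e04f_ag.Hex Pool.MP_70e04f_ag.Add

lemma tele {ν : ℕ → ℕ} (hν : Antitone ν) : ∀ t j, j + t = 9 →
    ∑ i ∈ Finset.Ico j 9, (ν i - ν (i + 1)) + ν 9 = ν j := by
  intro t
  induction t with
  | zero =>
    intro j hj
    have : j = 9 := by omega
    subst this
    simp
  | succ t ih =>
    intro j hj
    rw [Finset.sum_eq_sum_Ico_succ_bot (by omega)]
    have h1 := ih (j + 1) (by omega)
    have h2 := hν (Nat.le_succ j)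
    have e : j.succ = j + 1 := rfl
    rw [e] at h2
    omega

lemma antitone_sum (g : ℕ → ℕ) : Antitone (fun j => ∑ i ∈ Finset.Ico j 9, g i) := by
  intro a b hab
  exact Finset.sum_le_sum_of_subset (Finset.Ico_subset_Ico_left hab)

lemma ico_sums (g : ℕ → ℕ) :
    (∑ i ∈ Finset.Ico 0 9, g i = g 0 + g 1 + g 2 + g 3 + g 4 + g 5 + g 6 + g 7 + g 8) ∧
    (∑ i ∈ Finset.Ico 1 9, g i = g 1 + g 2 + g 3 + g 4 + g 5 + g 6 + g 7 + g 8) ∧
    (∑ i ∈ Finset.Ico 2 9, g i = g 2 + g 3 + g 4 + g 5 + g 6 + g 7 + g 8) ∧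
    (∑ i ∈ Finset.Ico 3 9, g i = g 3 + g 4 + g 5 + g 6 + g 7 + g 8) ∧
    (∑ i ∈ Finset.Ico 4 9, g i = g 4 + g 5 + g 6 + g 7 + g 8) ∧
    (∑ i ∈ Finset.Ico 5 9, g i = g 5 + g 6 + g 7 + g 8) ∧
    (∑ i ∈ Finset.Ico 6 9, g i = g 6 + g 7 + g 8) ∧
    (∑ i ∈ Finset.Ico 7 9, g i = g 7 + g 8) ∧
    (∑ i ∈ Finset.Ico 8 9, g i = g 8) := by
  refine ⟨?_, ?_, ?_, ?_, ?_, ?_, ?_, ?_, ?_⟩ <;>
    simp [Finset.sum_Ico_eq_sum_range, Finset.sum_range_succ]

/-- The general theorem with the class obtained by rounding down. -/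
theorem nine_core {n : ℕ} (m d r : ℕ) (mm : Fin n → ℕ) (α : Fin 9 → Fin n)
    (hα : Function.Injective α) (ν : ℕ → ℕ) (hν : Antitone ν) (hν0 : ∀ j, r ≤ j → ν j = 0)
    (hr : r ≤ 9) (hμ : ∀ j : Fin 9, (j : ℕ) < r → mm (α j) = ν j)
    (hsmall : ∀ j : Fin 9, r ≤ (j : ℕ) → mm (α j) ≤ 2 * m)
    (hother : ∀ i, i ∉ Set.range α → mm i ≤ m) (hd : ν 0 + ν 1 + ν 2 ≤ d)
    (hP : 7 * m + (9 - r) < PP ((d - (ν 0 + ν 1 + ν 2)) / (2 * m + 1))
      ((ν 0 - ν 1) / (2 * m + 1)) ((ν 1 - ν 2) / (2 * m + 1)) ((ν 2 - ν 3) / (2 * m + 1))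
      ((ν 3 - ν 4) / (2 * m + 1)) ((ν 4 - ν 5) / (2 * m + 1)) ((ν 5 - ν 6) / (2 * m + 1))
      ((ν 6 - ν 7) / (2 * m + 1)) ((ν 7 - ν 8) / (2 * m + 1)) (ν 8 / (2 * m + 1))) :
    OK (tri (d + 1)) mm := by
  have h9 : ν 9 = 0 := hν0 9 hr
  obtain ⟨γ, hγ⟩ : ∃ γ : ℕ → ℕ, γ = fun j => ∑ i ∈ Finset.Ico j 9,
    (ν i - ν (i + 1)) / (2 * m + 1) := ⟨_, rfl⟩
  obtain ⟨β, hβ⟩ : ∃ β : ℕ → ℕ, β = fun j => ∑ i ∈ Finset.Ico j 9,
    (ν i - ν (i + 1)) % (2 * m + 1) := ⟨_, rfl⟩
  have hγa : Antitone γ := by rw [hγ]; exact antitone_sum _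
  have hβa : Antitone β := by rw [hβ]; exact antitone_sum _
  have hsum : ∀ j, j ≤ 9 → ν j = (2 * m + 1) * γ j + β j := by
    intro j hj
    have h1 := tele hν (9 - j) j (by omega)
    rw [h9, Nat.add_zero] at h1
    rw [hγ, hβ, ← h1, Finset.mul_sum, ← Finset.sum_add_distrib]
    exact Finset.sum_congr rfl fun i _ => (Nat.div_add_mod _ _).symm
  have hz : ∀ j, r ≤ j → γ j = 0 ∧ β j = 0 := by
    intro j hj
    rw [hγ, hβ]
    constructor
    · apply Finset.sum_eq_zero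
      intro i hi
      rw [Finset.mem_Ico] at hi
      rw [hν0 i (by omega)]
      simp
    · apply Finset.sum_eq_zero
      intro i hi
      rw [Finset.mem_Ico] at hi
      rw [hν0 i (by omega)]
      simp
  obtain ⟨c0, hc0⟩ : ∃ c0, c0 = (d - (ν 0 + ν 1 + ν 2)) / (2 * m + 1) := ⟨_, rfl⟩
  obtain ⟨b0, hb0⟩ : ∃ b0, b0 = (d - (ν 0 + ν 1 + ν 2)) % (2 * m + 1) := ⟨_, rfl⟩
  have hdm : (2 * m + 1) * c0 + b0 = d - (ν 0 + ν 1 + ν 2) := by
    rw [hc0, hb0]; exact Nat.div_add_mod _ _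
  apply tri_floor m d r mm α hα γ β hγa hβa (c0 + γ 0 + γ 1 + γ 2) (b0 + β 0 + β 1 + β 2)
  · have h0 := hsum 0 (by norm_num)
    have h1 := hsum 1 (by norm_num)
    have h2 := hsum 2 (by norm_num)
    have e : (2 * m + 1) * (c0 + γ 0 + γ 1 + γ 2) = (2 * m + 1) * c0 + (2 * m + 1) * γ 0 +
      (2 * m + 1) * γ 1 + (2 * m + 1) * γ 2 := by ring
    omega
  · intro j hj
    rw [hμ j hj]
    exact hsum j (by omega)
  · intro j hj
    exact (hz j hj).1
  · intro j hj
    exact (hz j hj).2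
  · omega
  · omega
  · exact hsmall
  · exact hother
  · rw [← hc0] at hP
    have e8 : (ν 8 - ν 9) / (2 * m + 1) = ν 8 / (2 * m + 1) := by rw [h9, Nat.sub_zero]
    rw [← e8] at hP
    obtain ⟨g, hg⟩ : ∃ g : ℕ → ℕ, g = fun i => (ν i - ν (i + 1)) / (2 * m + 1) := ⟨_, rfl⟩
    have q0 : (ν 0 - ν 1) / (2 * m + 1) = g 0 := by rw [hg]
    have q1 : (ν 1 - ν 2) / (2 * m + 1) = g 1 := by rw [hg]
    have q2 : (ν 2 - ν 3) / (2 * m + 1) = g 2 := by rw [hg]
    have q3 : (ν 3 - ν 4) / (2 * m + 1) = g 3 := by rw [hg]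
    have q4 : (ν 4 - ν 5) / (2 * m + 1) = g 4 := by rw [hg]
    have q5 : (ν 5 - ν 6) / (2 * m + 1) = g 5 := by rw [hg]
    have q6 : (ν 6 - ν 7) / (2 * m + 1) = g 6 := by rw [hg]
    have q7 : (ν 7 - ν 8) / (2 * m + 1) = g 7 := by rw [hg]
    have q8 : (ν 8 - ν 9) / (2 * m + 1) = g 8 := by rw [hg]
    rw [q0, q1, q2, q3, q4, q5, q6, q7, q8] at hP
    obtain ⟨g0, g1, g2, g3, g4, g5, g6, g7, g8⟩ := ico_sums g
    have hγ' : ∀ j, γ j = ∑ i ∈ Finset.Ico j 9, g i := by
      intro j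
      rw [hγ, hg]
    have hk := PP_eq c0 (g 0) (g 1) (g 2) (g 3) (g 4) (g 5) (g 6) (g 7) (g 8)
    have hs : ∑ j : Fin 9, γ j ^ 2 = γ 0 ^ 2 + γ 1 ^ 2 + γ 2 ^ 2 + γ 3 ^ 2 + γ 4 ^ 2 +
        γ 5 ^ 2 + γ 6 ^ 2 + γ 7 ^ 2 + γ 8 ^ 2 := by
      simp only [Fin.sum_univ_succ, Fin.val_zero, Fin.val_succ, Finset.univ_unique,
        Finset.sum_singleton, Fin.default_eq_zero]
      ring
    rw [hs, hγ' 0, hγ' 1, hγ' 2, hγ' 3, hγ' 4, hγ' 5, hγ' 6, hγ' 7, hγ' 8, g0, g1, g2, g3, g4, g5,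
      g6, g7, g8]
    omega

end Pool.MP_70e04f_ag.Nine

end

/-! ### from `Lib_MP_70e04f_nine.Ext` -/

section

/-!
# Two more classes: multiples of the anticanonical class plus `E9` or `H - E1`
-/

namespace Pool.MP_70e04f_ag.Nine

open Pool.MP_70e04f_ag.Hex Pool.MP_70e04f_ag.Add

/-- Sums of decreasing numbers over two sets of indices. -/
lemma top_le {x : ℕ → ℕ} (hx : Antitone x) (S V : Finset (Fin 9)) (hc : V.card ≤ S.card)
    (h : ∀ j ∈ V \ S, ∀ i ∈ S \ V, i ≤ j) : ∑ j ∈ V, x j ≤ ∑ j ∈ S, x j := by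
  classical
  have h4 := Finset.sum_inter_add_sum_sdiff V S (fun j : Fin 9 => x (j : ℕ))
  have h5 := Finset.sum_inter_add_sum_sdiff S V (fun j : Fin 9 => x (j : ℕ))
  rw [Finset.inter_comm] at h5
  have h3 : (V \ S).card ≤ (S \ V).card := by
    have e1 := Finset.card_sdiff_add_card_inter V S
    have e2 := Finset.card_sdiff_add_card_inter S V
    rw [Finset.inter_comm] at e2
    omega
  have h6 : ∑ j ∈ V \ S, x (j : ℕ) ≤ ∑ j ∈ S \ V, x (j : ℕ) := by
    rcases (V \ S).eq_empty_or_nonempty with h0 | h0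
    · rw [h0, Finset.sum_empty]
      exact Nat.zero_le _
    · obtain ⟨j, hj, hmax⟩ := (V \ S).exists_max_image (fun j : Fin 9 => x (j : ℕ)) h0
      have h1 : ∑ j ∈ V \ S, x (j : ℕ) ≤ (V \ S).card * x j := by
        rw [← smul_eq_mul]
        exact Finset.sum_le_card_nsmul _ _ _ hmax
      have h2 : (S \ V).card * x j ≤ ∑ j ∈ S \ V, x (j : ℕ) := by
        rw [← smul_eq_mul]
        apply Finset.card_nsmul_le_sum
        intro i hi
        exact hx (h j hj i hi)
      exact h1.trans ((Nat.mul_le_mul_right _ h3).trans h2)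
  omega

lemma sum3 (x : ℕ → ℕ) : ∑ j ∈ ({0, 1, 2} : Finset (Fin 9)), x j = x 0 + x 1 + x 2 := by
  rw [Finset.sum_insert (by decide), Finset.sum_insert (by decide), Finset.sum_singleton]
  simp [add_assoc]

lemma sum3' (x : ℕ → ℕ) : ∑ j ∈ ({1, 2, 3} : Finset (Fin 9)), x j = x 1 + x 2 + x 3 := by
  rw [Finset.sum_insert (by decide), Finset.sum_insert (by decide), Finset.sum_singleton]
  have e1 : ((1 : Fin 9) : ℕ) = 1 := rfl
  have e2 : ((2 : Fin 9) : ℕ) = 2 := rfl
  have e3 : ((3 : Fin 9) : ℕ) = 3 := rfl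
  rw [e1, e2, e3, add_assoc]

lemma sum2 (x : ℕ → ℕ) : ∑ j ∈ ({0, 1} : Finset (Fin 9)), x j = x 0 + x 1 := by
  rw [Finset.sum_insert (by decide), Finset.sum_singleton]
  simp

lemma three_le' {x : ℕ → ℕ} (hx : Antitone x) (V : Finset (Fin 9)) (hV : V.card ≤ 3) :
    ∑ j ∈ V, x j ≤ x 0 + x 1 + x 2 := by
  rw [← sum3]
  apply top_le hx
  · rw [show (({0, 1, 2} : Finset (Fin 9))).card = 3 by decide]; exact hV
  · intro j hj i hi
    rw [Finset.mem_sdiff] at hj hi
    have h1 := hj.2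
    have h2 := hi.1
    simp only [Finset.mem_insert, Finset.mem_singleton] at h1 h2
    rcases h2 with rfl | rfl | rfl <;> omega

lemma three_le_pos {x : ℕ → ℕ} (hx : Antitone x) (V : Finset (Fin 9)) (hV : V.card ≤ 3)
    (h0 : (0 : Fin 9) ∉ V) : ∑ j ∈ V, x j ≤ x 1 + x 2 + x 3 := by
  rw [← sum3']
  apply top_le hx
  · rw [show (({1, 2, 3} : Finset (Fin 9))).card = 3 by decide]; exact hV
  · intro j hj i hi
    rw [Finset.mem_sdiff] at hj hi
    have h1 := hj.2
    have h2 := hi.1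
    have h3 : j ≠ 0 := fun h => h0 (h ▸ hj.1)
    simp only [Finset.mem_insert, Finset.mem_singleton] at h1 h2
    rcases h2 with rfl | rfl | rfl <;> omega

lemma two_le {x : ℕ → ℕ} (hx : Antitone x) (V : Finset (Fin 9)) (hV : V.card ≤ 2) :
    ∑ j ∈ V, x j ≤ x 0 + x 1 := by
  rw [← sum2]
  apply top_le hx
  · rw [show (({0, 1} : Finset (Fin 9))).card = 2 by decide]; exact hV
  · intro j hj i hi
    rw [Finset.mem_sdiff] at hj hi
    have h1 := hj.2
    have h2 := hi.1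
    simp only [Finset.mem_insert, Finset.mem_singleton] at h1 h2
    rcases h2 with rfl | rfl <;> omega

lemma sum9 (x : ℕ → ℕ) : ∑ j : Fin 9, x j = x 0 + x 1 + x 2 + x 3 + x 4 + x 5 + x 6 + x 7 + x 8 := by
  simp only [Fin.sum_univ_succ, Fin.val_zero, Fin.val_succ, Finset.univ_unique,
    Finset.sum_singleton, Fin.default_eq_zero]
  ring

/-- The general theorem for nine large points. -/
theorem tri_all {n : ℕ} (m d : ℕ) (mm : Fin n → ℕ) (α : Fin 9 → Fin n)
    (hα : Function.Injective α) (γ β : ℕ → ℕ) (k f : ℕ) (hd : d = (2 * m + 1) * k + f)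
    (hμ : ∀ j : Fin 9, mm (α j) = (2 * m + 1) * γ j + β j)
    (hγ3 : ∀ V : Finset (Fin 9), V.card ≤ 3 → ∑ j ∈ V, γ j ≤ k)
    (hγ9 : ∑ j : Fin 9, γ j + 1 ≤ 3 * k)
    (hβ3 : ∀ V : Finset (Fin 9), V.card ≤ 3 → ∑ j ∈ V, β j ≤ f)
    (hβ9 : ∑ j : Fin 9, β j ≤ 3 * f)
    (hother : ∀ i, i ∉ Set.range α → mm i ≤ m)
    (h7 : 7 * m + ∑ j : Fin 9, γ j ^ 2 < k ^ 2) : OK (tri (d + 1)) mm := by
  classical
  obtain ⟨T, hT⟩ : ∃ T : Finset (Fin n), T = Finset.univ.image α := ⟨_, rfl⟩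
  have ext : ∀ g : ℕ → ℕ, ∃ cc : Fin n → ℕ, ∀ j : Fin 9, cc (α j) = g j := by
    intro g
    refine ⟨fun i => ∑ j : Fin 9, if α j = i then g j else 0, fun j => ?_⟩
    simp only
    rw [Finset.sum_eq_single j]
    · simp
    · intro b _ hb
      rw [if_neg]
      intro h
      exact hb (hα h)
    · intro h
      exact absurd (Finset.mem_univ j) h
  obtain ⟨cc, hcc⟩ := ext γ
  have hsub : ∀ U ⊆ T, ∃ V : Finset (Fin 9), V.card = U.card ∧
      ∀ g : Fin n → ℕ, ∑ i ∈ U, g i = ∑ j ∈ V, g (α j) := by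
    intro U hU
    have hUim : (Finset.univ.filter (fun j : Fin 9 => α j ∈ U)).image α = U := by
      ext i
      rw [Finset.mem_image]
      constructor
      · rintro ⟨j, hj, rfl⟩
        exact (Finset.mem_filter.1 hj).2
      · intro hi
        have h1 := hU hi
        rw [hT] at h1
        obtain ⟨j, _, rfl⟩ := Finset.mem_image.1 h1
        exact ⟨j, Finset.mem_filter.2 ⟨Finset.mem_univ j, hi⟩, rfl⟩
    refine ⟨Finset.univ.filter (fun j : Fin 9 => α j ∈ U), ?_, ?_⟩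
    · conv_rhs => rw [← hUim]
      rw [Finset.card_image_of_injective _ hα]
    · intro g
      conv_lhs => rw [← hUim]
      rw [Finset.sum_image (fun x _ y _ h => hα h)]
  have hsumT : ∀ g : Fin n → ℕ, ∑ i ∈ T, g i = ∑ j : Fin 9, g (α j) := by
    intro g
    rw [hT, Finset.sum_image (fun x _ y _ h => hα h)]
  have hccT : ∑ i ∈ T, cc i = ∑ j : Fin 9, γ j := by
    rw [hsumT]
    exact Finset.sum_congr rfl fun j _ => hcc j
  have hnotT : ∀ i, i ∉ T → i ∉ Set.range α := by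
    rintro i hi ⟨j, rfl⟩
    apply hi
    rw [hT]
    exact Finset.mem_image_of_mem _ (Finset.mem_univ j)
  apply tri_class k m 0 (2 * m) d mm cc T
  · rw [hsumT, Finset.sum_congr rfl fun j _ => by rw [hcc j]]
    exact h7
  · exact le_rfl
  · intro i hi
    have := hother i (hnotT i hi)
    omega
  · rw [Nat.le_zero, Finset.card_eq_zero, Finset.filter_eq_empty_iff]
    rintro i _ ⟨h1, h2⟩
    have := hother i (hnotT i h1)
    omega
  · intro U hU hc
    obtain ⟨V, h1, h3⟩ := hsub U hU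
    rw [h3 cc]
    have h4 := hγ3 V (by omega)
    have h5 : ∑ j ∈ V, cc (α j) = ∑ j ∈ V, γ j := Finset.sum_congr rfl fun j _ => hcc j
    omega
  · rw [hccT]; exact hγ9
  · intro i hi
    rw [hT] at hi
    obtain ⟨j, hj, rfl⟩ := Finset.mem_image.1 hi
    rw [hcc, hμ j]
    omega
  · intro U hU hc
    obtain ⟨V, h1, h3⟩ := hsub U hU
    rw [h3 cc, h3 mm]
    have h4 := hβ3 V (by omega)
    have h5 : ∑ j ∈ V, cc (α j) = ∑ j ∈ V, γ j := Finset.sum_congr rfl fun j _ => hcc j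
    have h6 : ∑ j ∈ V, mm (α j) = (2 * m + 1) * ∑ j ∈ V, γ j + ∑ j ∈ V, β j := by
      rw [Finset.mul_sum, ← Finset.sum_add_distrib]
      exact Finset.sum_congr rfl fun j _ => hμ j
    rw [h5, h6, hd]
    omega
  · have h5 : ∑ i ∈ T, mm i = (2 * m + 1) * ∑ i ∈ T, cc i + ∑ j : Fin 9, β j := by
      rw [hsumT, hsumT, Finset.mul_sum, ← Finset.sum_add_distrib]
      exact Finset.sum_congr rfl fun j _ => by rw [hμ, hcc]
    rw [h5, hd]
    have h6 : 3 * ((2 * m + 1) * k) + 3 * f = 3 * ((2 * m + 1) * k + f) := by ring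
    omega

/-- Sums of nine decreasing numbers, one of them changed. -/
lemma sum_if (x : ℕ → ℕ) (i : Fin 9) (y : ℕ) :
    ∑ j : Fin 9, (if j = i then y else x j) + x i = ∑ j : Fin 9, x j + y := by
  classical
  have h1 := Finset.add_sum_erase Finset.univ (fun j : Fin 9 => if j = i then y else x j)
    (Finset.mem_univ i)
  have h2 := Finset.add_sum_erase Finset.univ (fun j : Fin 9 => x j) (Finset.mem_univ i)
  have h3 : ∑ j ∈ Finset.univ.erase i, (if j = i then y else x j) =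
      ∑ j ∈ Finset.univ.erase i, x j := by
    apply Finset.sum_congr rfl
    intro j hj
    rw [if_neg (Finset.ne_of_mem_erase hj)]
  simp only [if_pos] at h1 h2
  omega

/-- All coefficients but that of the anticanonical class are small: the class `E9`. -/
theorem ext_E {n : ℕ} (m d : ℕ) (mm : Fin n → ℕ) (α : Fin 9 → Fin n)
    (hα : Function.Injective α) (ν : ℕ → ℕ) (hν : Antitone ν) (hμ : ∀ j : Fin 9, mm (α j) = ν j)
    (hm : 1 ≤ m) (hother : ∀ i, i ∉ Set.range α → mm i ≤ m) (hd : ν 0 + ν 1 + ν 2 ≤ d)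
    (hK : ν 0 + ν 1 + ν 2 + ν 3 + ν 4 + ν 5 + ν 6 + ν 7 + ν 8 + (2 * m + 1) ≤ 3 * d)
    (hE : ν 0 + ν 1 + ν 8 + (2 * m + 1) ≤ d) (hbig : 14 * m ^ 2 + 13 * m + 1 < 2 * ν 8) :
    OK (tri (d + 1)) mm := by
  classical
  obtain ⟨R, hR⟩ : ∃ R, R = 2 * m + 1 := ⟨_, rfl⟩
  obtain ⟨c, hc⟩ : ∃ c, c = ν 8 / R := ⟨_, rfl⟩
  have hc1 : R * c ≤ ν 8 := by rw [hc]; exact Nat.mul_div_le _ _
  have hc2 : ν 8 ≤ R * c + 2 * m := by
    have h1 := Nat.div_add_mod (ν 8) R
    have h2 := Nat.mod_lt (ν 8) (show 0 < R by omega)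
    rw [← hc] at h1
    omega
  have hc3 : 7 * m + 1 < 2 * c := by
    by_contra hcon
    have h1 : R * (2 * c) ≤ R * (7 * m + 1) := Nat.mul_le_mul_left _ (by omega)
    have h2 : R * (2 * c) = 2 * (R * c) := by ring
    have h3 : R * (7 * m + 1) = 14 * m ^ 2 + 9 * m + 1 := by rw [hR]; ring
    omega
  have hνle : ∀ j : Fin 9, R * c ≤ ν j := by
    intro j
    have := hν (show (j : ℕ) ≤ 8 by omega)
    omega
  obtain ⟨x, hx⟩ : ∃ x : ℕ → ℕ, x = fun j => ν j - R * c := ⟨_, rfl⟩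
  have hxa : Antitone x := by
    intro a b hab
    rw [hx]
    have := hν hab
    simp only
    omega
  have hxj : ∀ j : Fin 9, x j + R * c = ν j := by
    intro j
    have := hνle j
    rw [hx]
    simp only
    omega
  have x0 := hxj 0
  have x1 := hxj 1
  have x2 := hxj 2
  have x8 := hxj 8
  have e0 : ((0 : Fin 9) : ℕ) = 0 := rfl
  have e1 : ((1 : Fin 9) : ℕ) = 1 := rfl
  have e2 : ((2 : Fin 9) : ℕ) = 2 := rfl
  have e8 : ((8 : Fin 9) : ℕ) = 8 := rfl
  rw [e0] at x0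
  rw [e1] at x1
  rw [e2] at x2
  rw [e8] at x8
  have hk : R * (3 * c) = 3 * (R * c) := by ring
  obtain ⟨f, hf⟩ : ∃ f, f = d - R * (3 * c) := ⟨_, rfl⟩
  have h28 := hν (show 2 ≤ 8 by norm_num)
  apply tri_all m d mm α hα (fun j => if j = 8 then c - 1 else c)
    (fun j => if j = 8 then x 8 + R else x j) (3 * c) f
  · rw [← hR]; omega
  · intro j
    rw [hμ, ← hR]
    by_cases hj : (j : ℕ) = 8
    · rw [if_pos hj, if_pos hj, hj]
      obtain ⟨b, rfl⟩ : ∃ b, c = b + 1 := ⟨c - 1, by omega⟩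
      have : R * (b + 1) = R * b + R := by ring
      rw [Nat.add_sub_cancel]
      omega
    · rw [if_neg hj, if_neg hj]
      have := hxj j
      omega
  · intro V hV
    calc ∑ j ∈ V, (if (j : ℕ) = 8 then c - 1 else c) ≤ ∑ _j ∈ V, c :=
          Finset.sum_le_sum fun j _ => by split_ifs <;> omega
      _ = V.card * c := by rw [Finset.sum_const, smul_eq_mul]
      _ ≤ 3 * c := Nat.mul_le_mul_right _ hV
  · rw [sum9 (fun j => if j = 8 then c - 1 else c)]
    norm_num
    omega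
  · intro V hV
    by_cases h8 : (8 : Fin 9) ∈ V
    · rw [← Finset.add_sum_erase V _ h8]
      have h1 : ∑ j ∈ V.erase 8, (if (j : ℕ) = 8 then x 8 + R else x j) =
          ∑ j ∈ V.erase 8, x j := by
        apply Finset.sum_congr rfl
        intro j hj
        rw [if_neg]
        intro h
        exact Finset.ne_of_mem_erase hj (Fin.ext h)
      have h2 := two_le hxa (V.erase 8) (by rw [Finset.card_erase_of_mem h8]; omega)
      rw [h1]
      simp only [e8, if_pos]
      omega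
    · have h1 : ∑ j ∈ V, (if (j : ℕ) = 8 then x 8 + R else x j) = ∑ j ∈ V, x j := by
        apply Finset.sum_congr rfl
        intro j hj
        rw [if_neg]
        intro h
        exact h8 ((Fin.ext h : j = 8) ▸ hj)
      have h2 := three_le' hxa V hV
      rw [h1]
      omega
  · rw [sum9 (fun j => if j = 8 then x 8 + R else x j)]
    have x3 := hxj 3
    have x4 := hxj 4
    have x5 := hxj 5
    have x6 := hxj 6
    have x7 := hxj 7
    have e3 : ((3 : Fin 9) : ℕ) = 3 := rfl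
    have e4 : ((4 : Fin 9) : ℕ) = 4 := rfl
    have e5 : ((5 : Fin 9) : ℕ) = 5 := rfl
    have e6 : ((6 : Fin 9) : ℕ) = 6 := rfl
    have e7 : ((7 : Fin 9) : ℕ) = 7 := rfl
    rw [e3] at x3
    rw [e4] at x4
    rw [e5] at x5
    rw [e6] at x6
    rw [e7] at x7
    norm_num
    omega
  · exact hother
  · have h1 := sum9 (fun j => (if j = 8 then c - 1 else c) ^ 2)
    simp only at h1
    rw [h1]
    norm_num
    obtain ⟨b, rfl⟩ : ∃ b, c = b + 1 := ⟨c - 1, by omega⟩
    rw [Nat.add_sub_cancel]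
    nlinarith

/-- All coefficients but that of the anticanonical class are small: the class `H - E1`. -/
theorem ext_L {n : ℕ} (m d : ℕ) (mm : Fin n → ℕ) (α : Fin 9 → Fin n)
    (hα : Function.Injective α) (ν : ℕ → ℕ) (hν : Antitone ν) (hμ : ∀ j : Fin 9, mm (α j) = ν j)
    (hm : 1 ≤ m) (hother : ∀ i, i ∉ Set.range α → mm i ≤ m) (hd : ν 0 + ν 1 + ν 2 ≤ d)
    (hK : ν 0 + ν 1 + ν 2 + ν 3 + ν 4 + ν 5 + ν 6 + ν 7 + ν 8 + (4 * m + 2) ≤ 3 * d)
    (hE : ν 1 + ν 2 + ν 3 + (2 * m + 1) ≤ d) (hbig : 14 * m ^ 2 + 23 * m + 4 < 4 * ν 8) :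
    OK (tri (d + 1)) mm := by
  classical
  obtain ⟨R, hR⟩ : ∃ R, R = 2 * m + 1 := ⟨_, rfl⟩
  obtain ⟨c, hc⟩ : ∃ c, c = ν 8 / R - 1 := ⟨_, rfl⟩
  have hc0 : 7 * m + 4 < 4 * (ν 8 / R) := by
    by_contra hcon
    have h0 : ν 8 ≤ R * (ν 8 / R) + 2 * m := by
      have h1 := Nat.div_add_mod (ν 8) R
      have h2 := Nat.mod_lt (ν 8) (show 0 < R by omega)
      omega
    have h1 : R * (4 * (ν 8 / R)) ≤ R * (7 * m + 4) := Nat.mul_le_mul_left _ (by omega)
    have h2 : R * (4 * (ν 8 / R)) = 4 * (R * (ν 8 / R)) := by ring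
    have h3 : R * (7 * m + 4) = 14 * m ^ 2 + 15 * m + 4 := by rw [hR]; ring
    omega
  have hc1 : R * (c + 1) ≤ ν 8 := by
    rw [hc, show ν 8 / R - 1 + 1 = ν 8 / R by omega]
    exact Nat.mul_div_le _ _
  have hc3 : 7 * m < 4 * c := by omega
  have hRc : R * (c + 1) = R * c + R := by ring
  have hνle : ∀ j : Fin 9, R * c + R ≤ ν j := by
    intro j
    have := hν (show (j : ℕ) ≤ 8 by omega)
    omega
  obtain ⟨x, hx⟩ : ∃ x : ℕ → ℕ, x = fun j => ν j - R * c := ⟨_, rfl⟩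
  have hxa : Antitone x := by
    intro a b hab
    rw [hx]
    have := hν hab
    simp only
    omega
  have hxj : ∀ j : Fin 9, x j + R * c = ν j := by
    intro j
    have := hνle j
    rw [hx]
    simp only
    omega
  have hxR : ∀ j : Fin 9, R ≤ x j := by
    intro j
    have := hνle j
    have := hxj j
    omega
  have x0 := hxj 0
  have x1 := hxj 1
  have x2 := hxj 2
  have x3 := hxj 3
  have y0 := hxR 0
  have e0 : ((0 : Fin 9) : ℕ) = 0 := rfl
  have e1 : ((1 : Fin 9) : ℕ) = 1 := rfl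
  have e2 : ((2 : Fin 9) : ℕ) = 2 := rfl
  have e3 : ((3 : Fin 9) : ℕ) = 3 := rfl
  rw [e0] at x0 y0
  rw [e1] at x1
  rw [e2] at x2
  rw [e3] at x3
  have hk : R * (3 * c + 1) = 3 * (R * c) + R := by ring
  obtain ⟨f, hf⟩ : ∃ f, f = d - R * (3 * c + 1) := ⟨_, rfl⟩
  apply tri_all m d mm α hα (fun j => if j = 0 then c + 1 else c)
    (fun j => if j = 0 then x 0 - R else x j) (3 * c + 1) f
  · rw [← hR]; omega
  · intro j
    rw [hμ, ← hR]
    by_cases hj : (j : ℕ) = 0
    · rw [if_pos hj, if_pos hj, hj]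
      omega
    · rw [if_neg hj, if_neg hj]
      have := hxj j
      omega
  · intro V hV
    by_cases h0 : (0 : Fin 9) ∈ V
    · rw [← Finset.add_sum_erase V _ h0]
      have h1 : ∑ j ∈ V.erase 0, (if (j : ℕ) = 0 then c + 1 else c) =
          ∑ _j ∈ V.erase 0, c := by
        apply Finset.sum_congr rfl
        intro j hj
        rw [if_neg]
        intro h
        exact Finset.ne_of_mem_erase hj (Fin.ext h)
      have h2 : (V.erase 0).card ≤ 2 := by rw [Finset.card_erase_of_mem h0]; omega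
      have h3 := Nat.mul_le_mul_right c h2
      rw [h1, Finset.sum_const, smul_eq_mul]
      simp only [e0, if_pos]
      omega
    · have h1 : ∑ j ∈ V, (if (j : ℕ) = 0 then c + 1 else c) = ∑ _j ∈ V, c := by
        apply Finset.sum_congr rfl
        intro j hj
        rw [if_neg]
        intro h
        exact h0 ((Fin.ext h : j = 0) ▸ hj)
      have h3 := Nat.mul_le_mul_right c hV
      rw [h1, Finset.sum_const, smul_eq_mul]
      omega
  · rw [sum9 (fun j => if j = 0 then c + 1 else c)]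
    norm_num
    omega
  · intro V hV
    by_cases h0 : (0 : Fin 9) ∈ V
    · have h2 := three_le' hxa V hV
      rw [← Finset.add_sum_erase V _ h0] at h2
      rw [← Finset.add_sum_erase V _ h0]
      have h1 : ∑ j ∈ V.erase 0, (if (j : ℕ) = 0 then x 0 - R else x j) =
          ∑ j ∈ V.erase 0, x j := by
        apply Finset.sum_congr rfl
        intro j hj
        rw [if_neg]
        intro h
        exact Finset.ne_of_mem_erase hj (Fin.ext h)
      rw [h1]
      simp only [e0, if_pos] at h2 ⊢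
      omega
    · have h1 : ∑ j ∈ V, (if (j : ℕ) = 0 then x 0 - R else x j) = ∑ j ∈ V, x j := by
        apply Finset.sum_congr rfl
        intro j hj
        rw [if_neg]
        intro h
        exact h0 ((Fin.ext h : j = 0) ▸ hj)
      have h2 := three_le_pos hxa V hV h0
      rw [h1]
      omega
  · rw [sum9 (fun j => if j = 0 then x 0 - R else x j)]
    have x4 := hxj 4
    have x5 := hxj 5
    have x6 := hxj 6
    have x7 := hxj 7
    have x8 := hxj 8
    have e4 : ((4 : Fin 9) : ℕ) = 4 := rfl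
    have e5 : ((5 : Fin 9) : ℕ) = 5 := rfl
    have e6 : ((6 : Fin 9) : ℕ) = 6 := rfl
    have e7 : ((7 : Fin 9) : ℕ) = 7 := rfl
    have e8 : ((8 : Fin 9) : ℕ) = 8 := rfl
    rw [e4] at x4
    rw [e5] at x5
    rw [e6] at x6
    rw [e7] at x7
    rw [e8] at x8
    norm_num
    omega
  · exact hother
  · have h1 := sum9 (fun j => (if j = 0 then c + 1 else c) ^ 2)
    simp only at h1
    rw [h1]
    norm_num
    nlinarith

/-- All coefficients but that of the anticanonical class are small. -/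
theorem ext9 {n : ℕ} (m d : ℕ) (mm : Fin n → ℕ) (α : Fin 9 → Fin n)
    (hα : Function.Injective α) (ν : ℕ → ℕ) (hν : Antitone ν) (hμ : ∀ j : Fin 9, mm (α j) = ν j)
    (hm : 1 ≤ m) (hother : ∀ i, i ∉ Set.range α → mm i ≤ m) (hd : ν 0 + ν 1 + ν 2 ≤ d)
    (hK : ν 0 + ν 1 + ν 2 + ν 3 + ν 4 + ν 5 + ν 6 + ν 7 + ν 8 + 18 * m < 3 * d)
    (hbig : 3100 * m ^ 2 ≤ 120 * ν 8 + 1360 * m) : OK (tri (d + 1)) mm := by
  classical
  have a0 := hν (show 0 ≤ 1 by norm_num)
  have a1 := hν (show 1 ≤ 2 by norm_num)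
  have a2 := hν (show 2 ≤ 3 by norm_num)
  have a3 := hν (show 3 ≤ 4 by norm_num)
  have a4 := hν (show 4 ≤ 5 by norm_num)
  have a5 := hν (show 5 ≤ 6 by norm_num)
  have a6 := hν (show 6 ≤ 7 by norm_num)
  have a7 := hν (show 7 ≤ 8 by norm_num)
  have hm2 : m ≤ m ^ 2 := by nlinarith
  by_cases hE : ν 0 + ν 1 + ν 8 + (2 * m + 1) ≤ d
  · exact ext_E m d mm α hα ν hν hμ hm hother hd (by omega) hE (by omega)
  · exact ext_L m d mm α hα ν hν hμ hm hother hd (by omega) (by omega) (by omega)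

end Pool.MP_70e04f_ag.Nine

end
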