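import Mathlib.Combinatorics.Additive.CauchyDavenport
import Pool.Agent.Lib_MP_70e04f_m.M01
import Pool.Agent.Lib_MP_70e04f_m.M24

/-!
# MP_70e04f_ag, plane linear systems: merged library part M28

Concatenation of smaller files (each in its own section), only to save build time.
-/

namespace Pool.MP_70e04f_ag.Hex
end Pool.MP_70e04f_ag.Hex

namespace Pool.MP_70e04f_ag.Std3
end Pool.MP_70e04f_ag.Std3

/-! ### from `Lib_MP_70e04f_std.Sumset` -/

section

/-!
# The slopes beyond the regular range: a sumset bound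
-/

namespace Pool.MP_70e04f_ag.Std3

open Pool.MP_70e04f_ag.Hex
open scoped Pointwise

/-- The exponents of the sections of the class of the curve, without one vertex. -/
def dl (k l : ℕ) : Finset (ℕ × ℕ) :=
  (Finset.range k ×ˢ Finset.range (l + 1)).filter (fun p => l ≤ p.1 + p.2 ∧ p.1 + p.2 ≤ k)

lemma mem_dl {k l : ℕ} {p : ℕ × ℕ} :
    p ∈ dl k l ↔ p.1 < k ∧ p.2 ≤ l ∧ l ≤ p.1 + p.2 ∧ p.1 + p.2 ≤ k := by
  unfold dl
  rw [Finset.mem_filter, Finset.mem_product, Finset.mem_range, Finset.mem_range]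
  omega

lemma card_dl (k l : ℕ) (hlk : l ≤ k) : (l + 1) * (k - l + 1) ≤ (dl k l).card + 1 := by
  have h : (((Finset.range (l + 1)) ×ˢ (Finset.range (k - l + 1))).erase (0, k - l)).card ≤
      (dl k l).card := by
    apply Finset.card_le_card_of_injOn (fun p => (l - p.1 + p.2, p.1))
    · intro p hp
      rw [Finset.mem_coe, Finset.mem_erase, Finset.mem_product, Finset.mem_range,
        Finset.mem_range] at hp
      rw [Finset.mem_coe, mem_dl]
      dsimp only
      have h1 : ¬ (p.1 = 0 ∧ p.2 = k - l) := by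
        rintro ⟨h1, h2⟩
        exact hp.1 (Prod.ext h1 h2)
      omega
    · rintro ⟨a, b⟩ ha ⟨c, d⟩ hc h
      simp only [Prod.mk.injEq] at h ⊢
      omega
  rw [Finset.card_erase_of_mem (by simp), Finset.card_product, Finset.card_range,
    Finset.card_range] at h
  omega

lemma dl_inj (k l k' l' : ℕ) (hkl : l * k' = k * l' + 1) {p q : ℕ × ℕ} (hp : p ∈ dl k l)
    (hq : q ∈ dl k l) (h : l * p.1 + k * p.2 = l * q.1 + k * q.2) : p = q := by
  rw [mem_dl] at hp hq
  have h1 : (l : ℤ) * ((p.1 : ℤ) - q.1) = k * ((q.2 : ℤ) - p.2) := by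
    have : ((l * p.1 + k * p.2 : ℕ) : ℤ) = ((l * q.1 + k * q.2 : ℕ) : ℤ) := by exact_mod_cast h
    push_cast at this
    linarith
  have h2 : (l : ℤ) * k' = k * l' + 1 := by exact_mod_cast hkl
  have h3 : (p.1 : ℤ) - q.1 = k * (k' * ((q.2 : ℤ) - p.2) - l' * ((p.1 : ℤ) - q.1)) := by
    linear_combination (k' : ℤ) * h1 - ((p.1 : ℤ) - q.1) * h2
  obtain ⟨z, hz⟩ : ∃ z : ℤ, z = k' * ((q.2 : ℤ) - p.2) - l' * ((p.1 : ℤ) - q.1) := ⟨_, rfl⟩
  rw [← hz] at h3
  have hk : (0 : ℤ) < k := by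
    have : 0 < k := by omega
    exact_mod_cast this
  have h4 : z = 0 := by
    rcases lt_trichotomy z 0 with h5 | h5 | h5
    · exfalso
      have : (k : ℤ) * z ≤ -k := by nlinarith
      have h6 : (q.1 : ℤ) < k := by exact_mod_cast hq.1
      have h7 : (0 : ℤ) ≤ p.1 := Int.natCast_nonneg _
      linarith
    · exact h5
    · exfalso
      have : (k : ℤ) ≤ (k : ℤ) * z := by nlinarith
      have h6 : (p.1 : ℤ) < k := by exact_mod_cast hp.1
      have h7 : (0 : ℤ) ≤ q.1 := Int.natCast_nonneg _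
      linarith
  rw [h4, mul_zero] at h3
  have h5 : p.1 = q.1 := by omega
  have hk0 : 0 < k := by exact_mod_cast hk
  have h6 : p.2 = q.2 := by
    rw [h5] at h
    have : k * p.2 = k * q.2 := by omega
    exact Nat.eq_of_mul_eq_mul_left hk0 this
  exact Prod.ext h5 h6

/-- The sumset bound for the rows. -/
theorem rows_sumset {k l k' l' : ℕ} (hkl : l * k' = k * l' + 1) (hlk : l ≤ k) {A B g e : ℕ}
    {r0 c : ℕ → ℕ} {P Q : Finset (ℕ × ℕ)} {φ : ↥(hex A B g e) ≃ ↥P}
    (h1 : ∀ q : ↥(hex A B g e), (φ q).1.1 = l * q.1.1 + k * q.1.2 ∧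
        (φ q).1.2 = l' * q.1.1 + k' * q.1.2)
    (h2 : ∀ t r, (t, r) ∈ P ↔ r0 t ≤ r ∧ r < r0 t + c t)
    (h3 : ∀ t j, (t, j) ∈ Q ↔ j < c t) (j : ℕ) (hj : 1 ≤ rowc Q (j + 1)) :
    rowc Q (j + 1) + (l + 1) * (k - l + 1) ≤ rowc Q j + 2 := by
  classical
  have h2z : (l : ℤ) * k' = k * l' + 1 := by exact_mod_cast hkl
  -- the rows as sets of fibres
  set F : ℕ → Finset ℕ := fun j => (Q.filter (fun q => q.2 = j)).image Prod.fst with hF
  have hFc : ∀ j, (F j).card = rowc Q j := by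
    intro j
    rw [hF]
    simp only
    rw [Finset.card_image_of_injOn]
    · rfl
    · rintro ⟨a, b⟩ ha ⟨c, d⟩ hc h
      rw [Finset.mem_coe, Finset.mem_filter] at ha hc
      have e1 : b = j := ha.2
      have e2 : d = j := hc.2
      have e3 : a = c := h
      rw [e1, e2, e3]
  have memF : ∀ j t, t ∈ F j ↔ j < c t := by
    intro j t
    rw [hF]
    simp only
    rw [Finset.mem_image]
    constructor
    · rintro ⟨q, hq, rfl⟩
      rw [Finset.mem_filter] at hq
      rw [← h3, ← hq.2]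
      exact hq.1
    · intro h
      exact ⟨(t, j), Finset.mem_filter.2 ⟨(h3 t j).2 h, rfl⟩, rfl⟩
  have hA : ∀ j t, t ∈ F j → ∃ q ∈ hexJ k l A B g e j, l * q.1 + k * q.2 = t := by
    intro j t ht
    rw [memF] at ht
    have p0 : (t, r0 t) ∈ P := (h2 t _).2 ⟨le_rfl, by omega⟩
    have p1 : (t, r0 t + j) ∈ P := (h2 t _).2 ⟨by omega, by omega⟩
    obtain ⟨q0, hq0⟩ := φ.surjective ⟨_, p0⟩
    obtain ⟨q1, hq1⟩ := φ.surjective ⟨_, p1⟩
    have a0 := h1 q0
    have a1 := h1 q1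
    rw [hq0] at a0
    rw [hq1] at a1
    obtain ⟨b0, c0⟩ := a0
    obtain ⟨b1, c1⟩ := a1
    dsimp only at b0 c0 b1 c1
    have e1 : (l : ℤ) * ((q1.1.1 : ℤ) - q0.1.1) + k * ((q1.1.2 : ℤ) - q0.1.2) = 0 := by
      have x0 : (t : ℤ) = l * q0.1.1 + k * q0.1.2 := by exact_mod_cast b0
      have x1 : (t : ℤ) = l * q1.1.1 + k * q1.1.2 := by exact_mod_cast b1
      linarith
    have e2 : (l' : ℤ) * ((q1.1.1 : ℤ) - q0.1.1) + k' * ((q1.1.2 : ℤ) - q0.1.2) = j := by
      have x0 : (r0 t : ℤ) = l' * q0.1.1 + k' * q0.1.2 := by exact_mod_cast c0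
      have x1 : (r0 t : ℤ) + j = l' * q1.1.1 + k' * q1.1.2 := by exact_mod_cast c1
      linarith
    have e3 : (q1.1.1 : ℤ) - q0.1.1 = -(j * k) := by
      linear_combination k' * e1 - k * e2 - ((q1.1.1 : ℤ) - q0.1.1) * h2z
    have e4 : (q1.1.2 : ℤ) - q0.1.2 = j * l := by
      linear_combination (-(l' : ℤ)) * e1 + l * e2 - ((q1.1.2 : ℤ) - q0.1.2) * h2z
    have e3' : q0.1.1 = q1.1.1 + j * k := by
      have : (q0.1.1 : ℤ) = ((q1.1.1 + j * k : ℕ) : ℤ) := by push_cast; linarith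
      exact_mod_cast this
    have e4' : q1.1.2 = q0.1.2 + j * l := by
      have : (q1.1.2 : ℤ) = ((q0.1.2 + j * l : ℕ) : ℤ) := by push_cast; linarith
      exact_mod_cast this
    refine ⟨q0.1, ?_, b0.symm⟩
    unfold hexJ
    rw [Finset.mem_filter]
    refine ⟨q0.2, by omega, ?_⟩
    have e5 : (q0.1.1 - j * k, q0.1.2 + j * l) = q1.1 := by
      apply Prod.ext
      · dsimp only; omega
      · dsimp only; omega
    rw [e5]
    exact q1.2
  have hB : ∀ j, ∀ q ∈ hexJ k l A B g e j, l * q.1 + k * q.2 ∈ F j := by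
    intro j q hq
    unfold hexJ at hq
    rw [Finset.mem_filter] at hq
    obtain ⟨hq0, hq1, hq2⟩ := hq
    have p0 := (φ ⟨q, hq0⟩).2
    have p1 := (φ ⟨_, hq2⟩).2
    have a0 := h1 ⟨q, hq0⟩
    have a1 := h1 ⟨_, hq2⟩
    dsimp only at a0 a1
    have e0 : (φ ⟨q, hq0⟩).1 = (l * q.1 + k * q.2, l' * q.1 + k' * q.2) := Prod.ext a0.1 a0.2
    have e1 : (φ ⟨_, hq2⟩).1 = (l * q.1 + k * q.2, l' * q.1 + k' * q.2 + j) := by
      apply Prod.ext
      · rw [a1.1]
        dsimp only
        have : (((l * (q.1 - j * k) + k * (q.2 + j * l) : ℕ)) : ℤ) =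
            ((l * q.1 + k * q.2 : ℕ) : ℤ) := by
          push_cast [Nat.cast_sub hq1]
          ring
        exact_mod_cast this
      · rw [a1.2]
        dsimp only
        have : (((l' * (q.1 - j * k) + k' * (q.2 + j * l) : ℕ)) : ℤ) =
            ((l' * q.1 + k' * q.2 + j : ℕ) : ℤ) := by
          push_cast [Nat.cast_sub hq1]
          linear_combination (j : ℤ) * h2z
        exact_mod_cast this
    rw [e0, h2] at p0
    rw [e1, h2] at p1
    rw [memF]
    omega
  -- the sumset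
  set Y : Finset ℕ := (dl k l).image (fun p => l * p.1 + k * p.2) with hY
  have hYc : Y.card = (dl k l).card := by
    rw [hY]
    apply Finset.card_image_of_injOn
    intro p hp q hq h
    exact dl_inj k l k' l' hkl (Finset.mem_coe.1 hp) (Finset.mem_coe.1 hq) h
  have hXne : (F (j + 1)).Nonempty := by
    rw [← Finset.card_pos, hFc]; omega
  have hYne : Y.Nonempty := by
    rw [← Finset.card_pos, hYc]
    have h5 := card_dl k l hlk
    have hl0 : 0 < l := by
      rcases Nat.eq_zero_or_pos l with h | h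
      · subst h; simp at hkl
      · exact h
    nlinarith [Nat.zero_le (k - l)]
  have hcd := cauchy_davenport_add_of_linearOrder_isCancelAdd hXne hYne
  have hsub : ∀ s ∈ F (j + 1) + Y, l * k ≤ s ∧ s - l * k ∈ F j := by
    intro s hs
    rw [Finset.mem_add] at hs
    obtain ⟨t, ht, y, hy, rfl⟩ := hs
    rw [hY, Finset.mem_image] at hy
    obtain ⟨p, hp, rfl⟩ := hy
    rw [mem_dl] at hp
    obtain ⟨q, hq, rfl⟩ := hA (j + 1) t ht
    unfold hexJ at hq
    rw [Finset.mem_filter, mem_hex, mem_hex] at hq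
    dsimp only at hq
    rw [Nat.succ_mul, Nat.succ_mul] at hq
    have hjl : j * l ≤ j * k := Nat.mul_le_mul_left j hlk
    have hq1 : k ≤ q.1 := by omega
    have hq2 : l * k ≤ l * q.1 := Nat.mul_le_mul_left l hq1
    refine ⟨by omega, ?_⟩
    have hq' : (q.1 + p.1 - k, q.2 + p.2) ∈ hexJ k l A B g e j := by
      unfold hexJ
      rw [Finset.mem_filter, mem_hex, mem_hex]
      dsimp only
      omega
    have h5 := hB j _ hq'
    dsimp only at h5
    have h6 : l * (q.1 + p.1 - k) + k * (q.2 + p.2) =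
        l * q.1 + k * q.2 + (l * p.1 + k * p.2) - l * k := by
      have h7 : l * (q.1 + p.1 - k) + l * k = l * (q.1 + p.1) := by
        rw [← mul_add]; congr 1; omega
      have h8 : l * (q.1 + p.1) = l * q.1 + l * p.1 := mul_add _ _ _
      have h9 : k * (q.2 + p.2) = k * q.2 + k * p.2 := mul_add _ _ _
      omega
    rw [← h6]
    exact h5
  have hle : (F (j + 1) + Y).card ≤ (F j).card := by
    apply Finset.card_le_card_of_injOn (fun s => s - l * k)
    · intro s hs
      exact (hsub s hs).2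
    · intro a ha b hb h
      have h5 := (hsub a ha).1
      have h6 := (hsub b hb).1
      simp only at h
      omega
  have h5 := card_dl k l hlk
  rw [hYc, hFc] at hcd
  rw [hFc] at hle
  omega

end Pool.MP_70e04f_ag.Std3

end

/-! ### from `Lib_MP_70e04f_std.HexStd` -/

section

/-!
# The hexagon with the curve `y ^ u = x ^ (u + v)`, general roles of the three corners
-/

namespace Pool.MP_70e04f_ag.Std3

open Pool.MP_70e04f_ag.Hex

lemma exists_bezout {u v : ℕ} (hu : 1 ≤ u) (hv : 1 ≤ v) (hcop : Nat.Coprime u v) :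
    ∃ k' l' : ℕ, u * k' = (u + v) * l' + 1 := by
  have h1 : Nat.Coprime u (u + v) := by
    rw [Nat.coprime_self_add_right]; exact hcop
  obtain ⟨a, -, ha⟩ := Nat.exists_mul_mod_eq_one_of_coprime h1 (by omega)
  refine ⟨a, u * a / (u + v), ?_⟩
  have := Nat.div_add_mod (u * a) (u + v)
  omega

/-- The hexagon with small points outside. -/
theorem hex_std {n : ℕ} (u v m s M A B g e : ℕ) (mm : Fin n → ℕ) (hu : 1 ≤ u) (hv : 1 ≤ v)
    (hcop : Nat.Coprime u v) (h7 : 7 * m + s < 2 * (u * v)) (hM : 2 * m ≤ M)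
    (hmm : ∀ i, mm i ≤ M) (hs : (Finset.univ.filter (fun i => m < mm i)).card ≤ s)
    (hA : (u + v) * (M + 1) ≤ A + 1) (hB : u * (M + 1) ≤ B + 1)
    (hV : g + e + v * (M + 1) ≤ A + B + 1) (hg : g ≤ B + 1) (he : e ≤ B + 1) :
    OK (hex A B g e) mm := by
  obtain ⟨k', l', hkl⟩ := exists_bezout hu hv hcop
  obtain ⟨k, hk⟩ : ∃ k, k = u + v := ⟨_, rfl⟩
  rw [← hk] at hkl hA
  have huk : u ≤ k := by omega
  obtain ⟨r0, c0, P, Q, φ, f1, f2, f3, f4⟩ := exists_fibres k u k' l' hkl A B g e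
  obtain ⟨H, hH⟩ : ∃ H : ℕ → ℕ, H = fun j => (hexJ k u A B g e j).card := ⟨_, rfl⟩
  obtain ⟨nr, hnr⟩ : ∃ nr : ℕ → ℕ, nr = fun j => rowc Q j := ⟨_, rfl⟩
  have hnr' : ∀ j, nr j + H (j + 1) = H j := by
    intro j
    rw [hnr, hH]
    exact f4 j
  have huv : 1 ≤ u * v := Nat.mul_pos hu hv
  -- the sumset bound
  have hdown : ∀ j, 1 ≤ nr (j + 1) → nr (j + 1) + (u * v + u + v) ≤ nr j + 1 := by
    intro j hj
    rw [hnr] at hj ⊢
    have h1 := rows_sumset hkl huk f1 f2 f3 j hj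
    rw [show k - u + 1 = v + 1 by omega] at h1
    have h2 : (u + 1) * (v + 1) = u * v + u + v + 1 := by ring
    rw [h2] at h1
    simp only at hj ⊢
    omega
  have hzero : ∀ j, A < j → nr j = 0 := by
    intro j hj
    have h1 : H j = 0 := by
      rw [hH]
      apply card_hexJ_zero
      have : j * 1 ≤ j * k := Nat.mul_le_mul_left j (by omega)
      omega
    have := hnr' j
    omega
  -- the values for `j ≤ M + 1`
  have hval : ∀ j, j ≤ M + 1 → 2 * (H j : ℤ) =
      F2 ((A : ℤ) - j * k) ((B : ℤ) - j * u) ((g : ℤ) - j * u) ((e : ℤ) - j * u) := by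
    intro j hj
    rw [hH]
    have h1 : j * k ≤ (M + 1) * k := Nat.mul_le_mul_right k hj
    have h2 : j * u ≤ (M + 1) * u := Nat.mul_le_mul_right u hj
    have h3 : j * v ≤ (M + 1) * v := Nat.mul_le_mul_right v hj
    have h4 : j * k = j * u + j * v := by rw [hk]; ring
    have e1 : (M + 1) * k = k * (M + 1) := Nat.mul_comm _ _
    have e2 : (M + 1) * u = u * (M + 1) := Nat.mul_comm _ _
    have e3 : (M + 1) * v = v * (M + 1) := Nat.mul_comm _ _
    exact two_card_hexJ' k u A B g e j huk (by omega) (by omega) hg he (by omega)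
  have hmid : ∀ j, j + 1 ≤ M → 2 * ((nr j : ℤ) - nr (j + 1)) =
      S2 k u ((A : ℤ) - j * k) ((B : ℤ) - j * u) ((g : ℤ) - j * u) ((e : ℤ) - j * u) := by
    intro j hj
    have h1 := hval j (by omega)
    have h2 := hval (j + 1) (by omega)
    have h3 := hval (j + 2) (by omega)
    have h5 : (nr j : ℤ) + H (j + 1) = H j := by exact_mod_cast hnr' j
    have h6 : (nr (j + 1) : ℤ) + H (j + 2) = H (j + 1) := by exact_mod_cast hnr' (j + 1)
    unfold S2
    push_cast at h2 h3
    rw [show (A : ℤ) - j * k - k = A - (j + 1) * k by ring,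
      show (B : ℤ) - j * u - u = B - (j + 1) * u by ring,
      show (g : ℤ) - j * u - u = g - (j + 1) * u by ring,
      show (e : ℤ) - j * u - u = e - (j + 1) * u by ring,
      show (A : ℤ) - j * k - 2 * k = A - (j + 2) * k by ring,
      show (B : ℤ) - j * u - 2 * u = B - (j + 2) * u by ring,
      show (g : ℤ) - j * u - 2 * u = g - (j + 2) * u by ring,
      show (e : ℤ) - j * u - 2 * u = e - (j + 2) * u by ring, ← h1, ← h2, ← h3]
    linarith
  have hslope1 : ∀ j, j < M → nr (j + 1) + 2 * (u * v) ≤ nr j := by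
    intro j hj
    have h2 := hmid j (by omega)
    have h3 := S2_ge k u ((A : ℤ) - j * k) ((B : ℤ) - j * u) ((g : ℤ) - j * u)
      ((e : ℤ) - j * u) (by omega) (by omega)
    have h4 : (4 : ℤ) * u * (k - u) = 2 * (2 * (u * v)) := by
      rw [hk]; push_cast; ring
    rw [h4, ← h2] at h3
    have h5 : ((nr (j + 1) + 2 * (u * v) : ℕ) : ℤ) ≤ nr j := by
      push_cast
      linarith
    exact_mod_cast h5
  -- the row `M`
  have hrowM : u * v ≤ nr M := by
    have h1 := hval M (by omega)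
    have h2 := hval (M + 1) le_rfl
    have h5 : (nr M : ℤ) + H (M + 1) = H M := by exact_mod_cast hnr' M
    have hAz : ((u : ℤ) + v) * (M + 1) ≤ A + 1 := by
      rw [hk] at hA
      exact_mod_cast hA
    have hBz : (u : ℤ) * (M + 1) ≤ B + 1 := by exact_mod_cast hB
    have hVz : (g : ℤ) + e + v * (M + 1) ≤ A + B + 1 := by exact_mod_cast hV
    have hgz : (g : ℤ) ≤ B + 1 := by exact_mod_cast hg
    have hez : (e : ℤ) ≤ B + 1 := by exact_mod_cast he
    have hkz : (k : ℤ) = u + v := by rw [hk]; push_cast; ring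
    have huz : (1 : ℤ) ≤ u := by exact_mod_cast hu
    have hvz : (1 : ℤ) ≤ v := by exact_mod_cast hv
    have h7 := first_diff ((A : ℤ) - (M + 1) * k + 1) ((B : ℤ) - (M + 1) * u + 1)
      ((g : ℤ) - (M + 1) * u) ((e : ℤ) - (M + 1) * u) u v (by rw [hkz]; linarith) (by linarith)
      huz hvz (by linarith) (by linarith) (by rw [hkz]; linarith)
    push_cast at h2
    rw [show (A : ℤ) - (M + 1) * k + 1 - 1 + (u + v) = A - M * k by rw [hkz]; ring,
      show (B : ℤ) - (M + 1) * u + 1 - 1 + u = B - M * u by ring,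
      show (g : ℤ) - (M + 1) * u + u = g - M * u by ring,
      show (e : ℤ) - (M + 1) * u + u = e - M * u by ring,
      show (A : ℤ) - (M + 1) * k + 1 - 1 = A - (M + 1) * k by ring,
      show (B : ℤ) - (M + 1) * u + 1 - 1 = B - (M + 1) * u by ring, ← h1, ← h2] at h7
    have h8 : ((u * v : ℕ) : ℤ) ≤ nr M := by
      push_cast
      linarith
    exact_mod_cast h8
  -- the last row
  obtain ⟨be, hbe⟩ : ∃ be, be = Nat.findGreatest (fun j => 1 ≤ nr j) A := ⟨_, rfl⟩
  have hMA : M ≤ A := by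
    by_contra hcon
    have := hzero M (by omega)
    omega
  have hMbe : M ≤ be := by
    rw [hbe]
    apply Nat.le_findGreatest hMA
    omega
  have hbe1 : 1 ≤ nr be := by
    have h1 : 1 ≤ nr M := by omega
    have := Nat.findGreatest_spec (P := fun j => 1 ≤ nr j) hMA h1
    rwa [← hbe] at this
  have hbe2 : ∀ j, be < j → nr j = 0 := by
    intro j hj
    rcases Nat.lt_or_ge A j with h | h
    · exact hzero j h
    · rw [hbe] at hj
      have := Nat.findGreatest_is_greatest hj h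
      omega
  have hpos : ∀ x, ∀ j, j + x = be → 1 ≤ nr j := by
    intro x
    induction x with
    | zero => intro j hj; rw [show j = be by omega]; exact hbe1
    | succ x ih =>
      intro j hj
      have h1 := ih (j + 1) (by omega)
      have h2 := hdown j h1
      omega
  have hact := fun j => act_le mm m j s hs
  have hact0 : ∀ j, M ≤ j → act mm m j = 0 := by
    intro j hj
    unfold act
    rw [Finset.card_eq_zero, Finset.filter_eq_empty_iff]
    intro i _ h
    have := hmm i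
    omega
  obtain ⟨b, c, g1, -, g3⟩ := fill_abstract mm m be nr (by omega) (fun i => (hmm i).trans hMbe)
    hbe2
    (by
      have h1 := peak_aux mm m M nr (2 * m) (fun j _ hj => by
          have := hslope1 j hj
          have := hact j
          omega) hmm (M - 2 * m) (2 * m) le_rfl (by omega)
      omega)
    (by
      intro j hj
      have h2 := hact j
      rcases Nat.lt_or_ge j M with h | h
      · have h1 := hslope1 j h
        unfold act at h2
        omega
      · have h1 := hdown j (hpos (be - (j + 1)) (j + 1) (by omega))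
        have h3 := hact0 j h
        unfold act at h3
        omega)
    (by
      intro j hj
      have h1 := hslope1 j (by omega)
      have h2 := hact j
      unfold act at h2
      omega)
    (by
      intro j hj
      have h1 := hmid j (by omega)
      have h2 := hmid (j + 1) (by omega)
      have h3 := S2_mono k u ((A : ℤ) - j * k) ((B : ℤ) - j * u) ((g : ℤ) - j * u)
        ((e : ℤ) - j * u) (by omega) (by omega)
      push_cast at h2
      rw [show (A : ℤ) - j * k - k = A - (j + 1) * k by ring,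
        show (B : ℤ) - j * u - u = B - (j + 1) * u by ring,
        show (g : ℤ) - j * u - u = g - (j + 1) * u by ring,
        show (e : ℤ) - j * u - u = e - (j + 1) * u by ring, ← h1, ← h2] at h3
      have e : j + 1 + 1 = j + 2 := rfl
      rw [e] at h3
      have h8 : ((nr j + nr (j + 2) : ℕ) : ℤ) ≤ ((2 * nr (j + 1) : ℕ) : ℤ) := by
        push_cast
        linarith
      exact_mod_cast h8)
  refine hex_front k u k' l' hkl A B g e mm b c g1 nr ?_ g3
  intro j
  have := hnr' j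
  rw [hH] at this
  exact this

end Pool.MP_70e04f_ag.Std3

end

/-! ### from `Lib_MP_70e04f_std.Std` -/

section

/-!
# Three arbitrary multiplicities in different roles; systems in standard form
-/

namespace Pool.MP_70e04f_ag.Std3

open Pool.MP_70e04f_ag.Hex

/-- Three arbitrary multiplicities, with different roles. -/
theorem tri_std {n : ℕ} (u v m s M d : ℕ) (mm : Fin n → ℕ) (α β γ : Fin n) (hαβ : α ≠ β)
    (hαγ : α ≠ γ) (hβγ : β ≠ γ) (hu : 1 ≤ u) (hv : 1 ≤ v) (hcop : Nat.Coprime u v)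
    (h7 : 7 * m + s < 2 * (u * v)) (hM : 2 * m ≤ M)
    (hmm : ∀ i, i ≠ α → i ≠ β → i ≠ γ → mm i ≤ M)
    (hs : (Finset.univ.filter (fun i => i ≠ α ∧ i ≠ β ∧ i ≠ γ ∧ m < mm i)).card ≤ s)
    (h1 : u * (M + 1) + mm α ≤ d + 1) (h2 : v * (M + 1) + mm β ≤ d)
    (h3 : (u + v) * (M + 1) + mm γ ≤ d + 1) (p12 : mm α + mm β ≤ d + 1)
    (p13 : mm α + mm γ ≤ d + 1) (p23 : mm β + mm γ ≤ d + 1) : OK (tri (d + 1)) mm := by
  classical
  have hu0 : 1 ≤ u * (M + 1) := Nat.mul_pos hu (by omega)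
  have hv0 : 1 ≤ v * (M + 1) := Nat.mul_pos hv (by omega)
  have e0 : (u + v) * (M + 1) = u * (M + 1) + v * (M + 1) := by ring
  obtain ⟨T, hT⟩ : ∃ T : Finset (Fin n), T = {α, β, γ} := ⟨_, rfl⟩
  have memT : ∀ i, i ∈ T ↔ i = α ∨ i = β ∨ i = γ := by
    intro i
    rw [hT]; simp
  let f : ↥T ↪ Fin 3 :=
    ⟨fun t => if t.1 = γ then 0 else if t.1 = α then 1 else 2, by
      intro a b hab
      have ha := (memT a.1).1 a.2
      have hb := (memT b.1).1 b.2
      apply Subtype.ext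
      simp only at hab
      rcases ha with ha | ha | ha <;> rcases hb with hb | hb | hb <;> rw [ha, hb] at hab ⊢ <;>
        first
          | rfl
          | (exfalso
             revert hab
             simp [hαβ, hαβ.symm, hαγ, hαγ.symm, hβγ, hβγ.symm])⟩
  have hα : α ∈ T := (memT α).2 (Or.inl rfl)
  have hβ : β ∈ T := (memT β).2 (Or.inr (Or.inl rfl))
  have hγ : γ ∈ T := (memT γ).2 (Or.inr (Or.inr rfl))
  have f0 : f ⟨γ, hγ⟩ = 0 := by simp [f]
  have f1 : f ⟨α, hα⟩ = 1 := by simp [f, hαγ]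
  have f2 : f ⟨β, hβ⟩ = 2 := by simp [f, hβγ, hαβ.symm]
  have s0 : slotv mm T f 0 = mm γ := by rw [← f0]; exact slotv_apply mm T f ⟨γ, hγ⟩
  have s1 : slotv mm T f 1 = mm α := by rw [← f1]; exact slotv_apply mm T f ⟨α, hα⟩
  have s2 : slotv mm T f 2 = mm β := by rw [← f2]; exact slotv_apply mm T f ⟨β, hβ⟩
  apply tri_of_emb mm T f d
  · intro i hi
    rcases (memT i).1 hi with h | h | h <;> rw [h] <;> omega
  · intro i hi j hj hij
    rcases (memT i).1 hi with h | h | h <;> rcases (memT j).1 hj with h' | h' | h' <;>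
      rw [h, h'] at hij ⊢ <;> first | omega | exact absurd rfl hij
  · rw [s0, s1, s2, zed_eq_hex (by omega) (by omega)]
    apply hex_std u v m s M (d - mm γ) (d - mm α) (mm β) (d - mm γ - mm α) _ hu hv hcop h7 hM
    · intro i
      split_ifs with h
      · exact Nat.zero_le _
      · rw [memT] at h
        push Not at h
        exact hmm i h.1 h.2.1 h.2.2
    · refine le_trans (Finset.card_le_card ?_) hs
      intro i hi
      rw [Finset.mem_filter] at hi ⊢
      have h4 := hi.2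
      split_ifs at h4 with h
      · omega
      · rw [memT] at h
        push Not at h
        exact ⟨hi.1, h.1, h.2.1, h.2.2, h4⟩
    · omega
    · omega
    · omega
    · omega
    · omega

/-- Three arbitrary multiplicities: general complex points. -/
theorem gen_std (n u v m s M d D : ℕ) (mm : Fin n → ℕ) (α β γ : Fin n) (hαβ : α ≠ β)
    (hαγ : α ≠ γ) (hβγ : β ≠ γ) (hu : 1 ≤ u) (hv : 1 ≤ v) (hcop : Nat.Coprime u v)
    (h7 : 7 * m + s < 2 * (u * v)) (hM : 2 * m ≤ M)
    (hmm : ∀ i, i ≠ α → i ≠ β → i ≠ γ → mm i ≤ M)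
    (hs : (Finset.univ.filter (fun i => i ≠ α ∧ i ≠ β ∧ i ≠ γ ∧ m < mm i)).card ≤ s)
    (h1 : u * (M + 1) + mm α ≤ d + 1) (h2 : v * (M + 1) + mm β ≤ d)
    (h3 : (u + v) * (M + 1) + mm γ ≤ d + 1) (p12 : mm α + mm β ≤ d + 1)
    (p13 : mm α + mm γ ≤ d + 1) (p23 : mm β + mm γ ≤ d + 1)
    (hD : D = d ∨ D ≤ d ∧ (d + 1) * (d + 2) ≤ ∑ i, mm i * (mm i + 1)) : GenExp D mm := by
  have h := genExp_of_OK d mm (tri_std u v m s M d mm α β γ hαβ hαγ hβγ hu hv hcop h7 hM hmm hs
    h1 h2 h3 p12 p13 p23)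
  rcases hD with rfl | ⟨h4, h5⟩
  · exact h
  · exact h.le h4 h5

/-- Standard form, sorted. -/
lemma gen_sorted (n m d : ℕ) (mm : Fin n → ℕ) (α β γ : Fin n) (hαβ : α ≠ β)
    (hαγ : α ≠ γ) (hβγ : β ≠ γ) (hm : 1 ≤ m) (h12 : mm β ≤ mm α) (h23 : mm γ ≤ mm β)
    (hγ : m ≤ mm γ) (hmm : ∀ i, i ≠ α → i ≠ β → i ≠ γ → mm i ≤ m)
    (hstd : mm α + mm β + mm γ ≤ d) (hd : 14 * m ^ 2 + 10 * m + 2 ≤ d) : GenExp d mm := by
  obtain ⟨v, hv⟩ : ∃ v, v = (7 * m + 2) / 2 := ⟨_, rfl⟩
  have hv1 : 7 * m + 1 ≤ 2 * v := by omega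
  have hv2 : 2 * v ≤ 7 * m + 2 := by omega
  have hv3 : 2 * v * (2 * m + 1) ≤ 14 * m ^ 2 + 11 * m + 2 :=
    (Nat.mul_le_mul_right _ hv2).trans (le_of_eq (by ring))
  have e1 : 2 * v * (2 * m + 1) = 2 * (v * (2 * m + 1)) := by ring
  have e2 : (1 + v) * (2 * m + 1) = 2 * m + 1 + v * (2 * m + 1) := by ring
  have hmsq : m ≤ m ^ 2 := by nlinarith
  apply gen_std n 1 v m 0 (2 * m) d d mm α β γ hαβ hαγ hβγ le_rfl (by omega)
    (Nat.coprime_one_left v) (by omega) le_rfl
  · intro i a b c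
    have := hmm i a b c
    omega
  · rw [Nat.le_zero, Finset.card_eq_zero, Finset.filter_eq_empty_iff]
    rintro i _ ⟨a, b, c, h⟩
    have := hmm i a b c
    omega
  · omega
  · omega
  · omega
  · omega
  · omega
  · omega
  · exact Or.inl rfl

/-- Standard form. -/
theorem gen_standard (n m d : ℕ) (mm : Fin n → ℕ) (α β γ : Fin n) (hαβ : α ≠ β)
    (hαγ : α ≠ γ) (hβγ : β ≠ γ) (hm : 1 ≤ m) (hα : m ≤ mm α) (hβ : m ≤ mm β)
    (hγ : m ≤ mm γ) (hmm : ∀ i, i ≠ α → i ≠ β → i ≠ γ → mm i ≤ m)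
    (hstd : mm α + mm β + mm γ ≤ d) (hd : 14 * m ^ 2 + 10 * m + 2 ≤ d) : GenExp d mm := by
  rcases Nat.le_total (mm β) (mm α) with h1 | h1
  · rcases Nat.le_total (mm γ) (mm β) with h2 | h2
    · exact gen_sorted n m d mm α β γ hαβ hαγ hβγ hm h1 h2 hγ hmm hstd hd
    · rcases Nat.le_total (mm γ) (mm α) with h3 | h3
      · exact gen_sorted n m d mm α γ β hαγ hαβ hβγ.symm hm h3 h2 hβ
          (fun i a b c => hmm i a c b) (by omega) hd
      · exact gen_sorted n m d mm γ α β hαγ.symm hβγ.symm hαβ hm h3 h1 hβ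
          (fun i a b c => hmm i b c a) (by omega) hd
  · rcases Nat.le_total (mm γ) (mm α) with h2 | h2
    · exact gen_sorted n m d mm β α γ hαβ.symm hβγ hαγ hm h1 h2 hγ
        (fun i a b c => hmm i b a c) (by omega) hd
    · rcases Nat.le_total (mm γ) (mm β) with h3 | h3
      · exact gen_sorted n m d mm β γ α hβγ hαβ.symm hαγ.symm hm h3 h2 hα
          (fun i a b c => hmm i c a b) (by omega) hd
      · exact gen_sorted n m d mm γ β α hβγ.symm hαγ.symm hαβ.symm hm h3 h1 hα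
          (fun i a b c => hmm i c b a) (by omega) hd

end Pool.MP_70e04f_ag.Std3

end

/-! ### from `Lib_MP_70e04f_lit.LInv` -/

section

/-!
# The number `(L - K) ^ 2` does not decrease under quadratic transformations
-/

set_option autoImplicit false

namespace Pool.MP_70e04f_ag.Cre

variable {n d d' δ : ℕ} {m : Fin n → ℕ} {ι : Fin 3 → Fin n}

theorem TT_cm (hι : Function.Injective ι) (hd : d' + δ = d) (hsum : ∑ j, m (ι j) = d + δ)
    (hlow : ∀ j, δ ≤ m (ι j) + 1) (h2 : ∀ j, 2 ≤ m (ι j)) {c : ℕ}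
    (h : 7 * ∑ i with 2 ≤ m i, (m i + 1) ^ 2 + c < 7 * (d + 3) ^ 2) :
    7 * ∑ i with 2 ≤ cm m ι δ i, (cm m ι δ i + 1) ^ 2 + c < 7 * (d' + 3) ^ 2 := by
  have key : ∀ j, (if 2 ≤ cm m ι δ (ι j) then (((cm m ι δ (ι j) : ℕ) : ℤ) + 1) ^ 2 else 0) ≤
      ((m (ι j) : ℤ) + 1 - δ) ^ 2 := by
    intro j
    have h1 := hlow j
    split_ifs with h3
    · rw [cm_ι] at h3 ⊢
      have h4 : ((m (ι j) - δ : ℕ) : ℤ) = (m (ι j) : ℤ) - δ := by
        push_cast [Nat.cast_sub (by omega : δ ≤ m (ι j))]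
        ring
      rw [h4]
      exact le_of_eq (by ring)
    · positivity
  have e1 : ((∑ i with 2 ≤ m i, (m i + 1) ^ 2 : ℕ) : ℤ) =
      ∑ i, (if 2 ≤ m i then ((m i : ℤ) + 1) ^ 2 else 0) := by
    rw [Finset.sum_filter]
    push_cast
    rfl
  have e2 : ((∑ i with 2 ≤ cm m ι δ i, (cm m ι δ i + 1) ^ 2 : ℕ) : ℤ) =
      ∑ i, (if 2 ≤ cm m ι δ i then (((cm m ι δ i : ℕ) : ℤ) + 1) ^ 2 else 0) := by
    rw [Finset.sum_filter]
    push_cast
    rfl
  have h' : 7 * ((∑ i with 2 ≤ m i, (m i + 1) ^ 2 : ℕ) : ℤ) + c < 7 * ((d : ℤ) + 3) ^ 2 := by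
    exact_mod_cast h
  have goal : 7 * ((∑ i with 2 ≤ cm m ι δ i, (cm m ι δ i + 1) ^ 2 : ℕ) : ℤ) + c <
      7 * ((d' : ℤ) + 3) ^ 2 := by
    rw [e1, sum_split hι] at h'
    rw [e2, sum_split hι]
    have s1 : ∑ i ∈ (Finset.univ.image ι)ᶜ,
        (if 2 ≤ cm m ι δ i then (((cm m ι δ i : ℕ) : ℤ) + 1) ^ 2 else 0) =
        ∑ i ∈ (Finset.univ.image ι)ᶜ, (if 2 ≤ m i then ((m i : ℤ) + 1) ^ 2 else 0) :=
      Finset.sum_congr rfl fun i hi => by rw [cm_of_notMem (Finset.mem_compl.1 hi)]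
    rw [s1]
    rw [if_pos (h2 0), if_pos (h2 1), if_pos (h2 2)] at h'
    have k0 := key 0
    have k1 := key 1
    have k2 := key 2
    rw [Fin.sum_univ_three] at hsum
    have q0 : (m (ι 0) : ℤ) + m (ι 1) + m (ι 2) = d + δ := by exact_mod_cast hsum
    have q1 : (d : ℤ) = d' + δ := by rw [← hd]; push_cast; ring
    have h4 : ((m (ι 0) : ℤ) + 1 - δ) ^ 2 + ((m (ι 1) : ℤ) + 1 - δ) ^ 2 +
        ((m (ι 2) : ℤ) + 1 - δ) ^ 2 =
        ((m (ι 0) : ℤ) + 1) ^ 2 + ((m (ι 1) : ℤ) + 1) ^ 2 + ((m (ι 2) : ℤ) + 1) ^ 2 -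
          2 * δ * (d + δ + 3) + 3 * (δ : ℤ) ^ 2 := by
      rw [← q0]; ring
    have h5 : ((d : ℤ) + 3) ^ 2 - 2 * δ * (d + δ + 3) + 3 * (δ : ℤ) ^ 2 = ((d' : ℤ) + 3) ^ 2 := by
      rw [q1]; ring
    linarith
  exact_mod_cast goal

end Pool.MP_70e04f_ag.Cre

end

/-! ### from `Lib_MP_70e04f_thin.TPosA` -/

section

/-!
# Piece TPOSA: numerical lemmas for the reduction
-/

set_option autoImplicit false

namespace Pool.MP_70e04f_ag.Strip

open MvPolynomial

theorem TPosA_low {n e δ : ℕ} {a : Fin n → ℕ} {ι : Fin 3 → Fin n}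
    (hsum : ∑ j, a (ι j) = e + δ) (hpair : ∀ j k, j ≠ k → a (ι j) + a (ι k) ≤ e) :
    ∀ j, δ ≤ a (ι j) := by
  have hs3 : ∑ j, a (ι j) = a (ι 0) + a (ι 1) + a (ι 2) := Fin.sum_univ_three _
  have h01 := hpair 0 1 (by decide)
  have h02 := hpair 0 2 (by decide)
  have h12 := hpair 1 2 (by decide)
  intro j
  fin_cases j
  · change δ ≤ a (ι 0); omega
  · change δ ≤ a (ι 1); omega
  · change δ ≤ a (ι 2); omega

/-- The numerical part of the reduction to standard form.
PROOF. All `a (ι j) ≥ δ` (`hsum`, `hpair`), so `cm` is an honest subtraction and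
`∑ M (cm a ι δ) = ∑ M a - δ ∑ j, M (ι j)`. So
`D e' - ∑ M (cm a ι δ) = (D e - ∑ M a) - δ (D - ∑ j, M (ι j)) ≤ 0`. -/
theorem cm_nonpos {n : ℕ} (D e e' δ : ℕ) (a M : Fin n → ℕ) (ι : Fin 3 → Fin n)
    (hι : Function.Injective ι) (hd : e' + δ = e) (hsum : ∑ j, a (ι j) = e + δ)
    (hpair : ∀ j k, j ≠ k → a (ι j) + a (ι k) ≤ e) (hM : ∑ j, M (ι j) ≤ D)
    (hNF : D * e ≤ ∑ i, M i * a i) : D * e' ≤ ∑ i, M i * Cre.cm a ι δ i := by
  classical
  have hlow := TPosA_low hsum hpair
  have h1 : ∀ i, M i * a i = M i * Cre.cm a ι δ i +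
      (if i ∈ Finset.univ.image ι then M i * δ else 0) := by
    intro i
    unfold Cre.cm
    split_ifs with h
    · obtain ⟨j, _, rfl⟩ := Finset.mem_image.1 h
      rw [← Nat.mul_add, Nat.sub_add_cancel (hlow j)]
    · rfl
  have h2 : ∑ i, M i * a i = ∑ i, M i * Cre.cm a ι δ i + (∑ j, M (ι j)) * δ := by
    rw [Finset.sum_congr rfl fun i _ => h1 i, Finset.sum_add_distrib]
    congr 1
    rw [← Finset.sum_filter, Finset.filter_mem_eq_inter, Finset.univ_inter,
      Finset.sum_image (fun a _ b _ h => hι h), Finset.sum_mul]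
  have h3 : (∑ j, M (ι j)) * δ ≤ D * δ := Nat.mul_le_mul_right _ hM
  have h4 : D * e = D * e' + D * δ := by rw [← hd]; ring
  omega

/-- PROOF. If `cm a ι δ = 0` then `a` vanishes outside of the `ι j` and `a (ι j) = δ` for all `j` (as
`δ ≤ a (ι j)`), so `3 δ = e + δ`, `e = 2 δ` and `∑ a ^ 2 = 3 δ ^ 2 ≤ 4 δ ^ 2 = e ^ 2`. -/
theorem cm_ne_zero {n : ℕ} (e δ : ℕ) (a : Fin n → ℕ) (ι : Fin 3 → Fin n)
    (hι : Function.Injective ι) (hsum : ∑ j, a (ι j) = e + δ)
    (hpair : ∀ j k, j ≠ k → a (ι j) + a (ι k) ≤ e) (hneg : e ^ 2 < ∑ i, a i ^ 2) :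
    ∃ i, 1 ≤ Cre.cm a ι δ i := by
  classical
  by_contra hcon
  push Not at hcon
  have hlow := TPosA_low hsum hpair
  have h0 : ∀ i, Cre.cm a ι δ i = 0 := fun i => by have := hcon i; omega
  have hmem : ∀ j, ι j ∈ Finset.univ.image ι := fun j =>
    Finset.mem_image_of_mem ι (Finset.mem_univ j)
  have h1 : ∀ j, a (ι j) = δ := by
    intro j
    have h := h0 (ι j)
    unfold Cre.cm at h
    rw [if_pos (hmem j)] at h
    have := hlow j
    omega
  have h2 : ∑ i, a i ^ 2 = ∑ j, a (ι j) ^ 2 := by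
    rw [← Finset.sum_image (f := fun i => a i ^ 2) (fun a _ b _ h => hι h)]
    symm
    apply Finset.sum_subset (Finset.subset_univ _)
    intro i _ hi
    have h := h0 i
    unfold Cre.cm at h
    rw [if_neg hi] at h
    rw [h]
    rfl
  rw [h2] at hneg
  simp only [h1, Fin.sum_univ_three] at hneg hsum
  have h3 : e = 2 * δ := by omega
  rw [h3] at hneg
  nlinarith

/-- `χ ≤ 0` for the class of a curve with `F ^ 2 < 0` and `K F ≥ 0`.
PROOF. `e ^ 2 + 1 ≤ ∑ a ^ 2`, `3 e ≤ ∑ a`, so `e ^ 2 + 3 e + 1 ≤ ∑ a (a + 1)`; the right side is even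
(`Nat.even_mul_succ_self`) and `e ^ 2 + 3 e` is even. -/
theorem chi_le {n : ℕ} (e : ℕ) (a : Fin n → ℕ) (hneg : e ^ 2 < ∑ i, a i ^ 2)
    (hK : 3 * e ≤ ∑ i, a i) : (e + 1) * (e + 2) ≤ ∑ i, a i * (a i + 1) := by
  have h1 : ∑ i, a i * (a i + 1) = ∑ i, a i ^ 2 + ∑ i, a i := by
    rw [← Finset.sum_add_distrib]
    exact Finset.sum_congr rfl fun i _ => by ring
  have h2 : Even (∑ i, a i * (a i + 1)) :=
    Finset.even_sum _ fun i _ => Nat.even_mul_succ_self (a i)
  have h3 : Even ((e + 1) * (e + 2)) := Nat.even_mul_succ_self (e + 1)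
  have h4 : (e + 1) * (e + 2) = e ^ 2 + 3 * e + 2 := by ring
  obtain ⟨u, hu⟩ := h2
  obtain ⟨v, hv⟩ := h3
  omega

end Pool.MP_70e04f_ag.Strip

end

/-! ### from `Lib_MP_70e04f_thin.TNum` -/

section

/-!
# Piece TNUM: curves which are not positive have many small points or large degree
-/

set_option autoImplicit false

namespace Pool.MP_70e04f_ag.Strip

/-- A curve with a small point of multiplicity `m ≥ 2` which is not positive.
PROOF. Let `q` be defined by `∑ a ^ 2 = e ^ 2 + q`: `1 ≤ q` by `hneg` and `q ≤ m` by `hxu` at the point `i0` of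
multiplicity `m`. `D > 0` since `ν > 0`. Apply `close`, `close_one` (at `i0`), `close_norm` (`T = Sm α`), and
`thin_real` (with `l = e / D`, `A = ∑ i ∈ Sm α, a i ^ 2`, `S = ∑ i ∈ Sm α, M i ^ 2`), resp.
`thin_real2` (`l D = e`). -/
theorem thin_num {n : ℕ} (e D X ν m : ℕ) (a M : Fin n → ℕ) (α : Fin 9 → Fin n) (hX : 1 ≤ X)
    (hother : ∀ i ∈ Sm α, M i ≤ X) (hν : ∑ i, M i ^ 2 + ν = D ^ 2) (hν0 : 0 < ν)
    (hνX : ν ≤ X ^ 2)
    (hthin : 100000 * X ^ 4 ≤ ν * ∑ i ∈ Sm α, M i ^ 2 ∨ 1000000 * X ^ 5 ≤ ν ^ 2 * D)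
    (hxu : ∀ j, 1 ≤ a j → ∑ i, a i ^ 2 ≤ e ^ 2 + a j) (hneg : e ^ 2 < ∑ i, a i ^ 2)
    (hNF : D * e ≤ ∑ i, M i * a i) (h2 : 2 ≤ m) (i0 : Fin n) (hi0 : i0 ∈ Sm α) (hai0 : a i0 = m) :
    3110 * m ^ 3 ≤ ∑ i ∈ Sm α, a i ^ 2 ∨ 9400 * m ^ 3 ≤ e := by
  obtain ⟨q, hq⟩ : ∃ q, ∑ i, a i ^ 2 = e ^ 2 + q := ⟨∑ i, a i ^ 2 - e ^ 2, by omega⟩
  have hq1 : 1 ≤ q := by omega
  have hqm : q ≤ m := by
    have := hxu i0 (by omega)
    omega
  have hD : 0 < D := by
    rcases Nat.eq_zero_or_pos D with h | h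
    · subst h
      simp at hν
      omega
    · exact h
  obtain ⟨l, hl⟩ : ∃ l : ℝ, l = (e : ℝ) / D := ⟨_, rfl⟩
  have hD' : (D : ℝ) ≠ 0 := by positivity
  have hlD : l * D = e := by rw [hl]; field_simp
  have hl0 : 0 ≤ l := by rw [hl]; positivity
  have k1 := close e D ν q a M hD hν hq hNF
  have k2 := close_one e D ν q X a M hD hν hq hNF i0 (hother i0 hi0)
  have k3 := close_norm e D ν q a M hD hν hq hNF (Sm α)
  rw [← hl] at k1 k2 k3
  rw [hai0] at k2
  have k4 : 0 ≤ ∑ i, (l * M i - a i) ^ 2 := Finset.sum_nonneg fun i _ => sq_nonneg _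
  have hX' : (0 : ℝ) < X := by exact_mod_cast hX
  have hν0' : (0 : ℝ) < ν := by exact_mod_cast hν0
  have hq1' : (1 : ℝ) ≤ q := by exact_mod_cast hq1
  have hqm' : (q : ℝ) ≤ m := by exact_mod_cast hqm
  have hνX' : (ν : ℝ) ≤ (X : ℝ) ^ 2 := by exact_mod_cast hνX
  rcases hthin with h | h
  · left
    have h' : (100000 : ℝ) * (X : ℝ) ^ 4 ≤ ν * ∑ i ∈ Sm α, (M i : ℝ) ^ 2 := by exact_mod_cast h
    have := thin_real m l X ν (∑ i ∈ Sm α, (M i : ℝ) ^ 2) q (∑ i ∈ Sm α, (a i : ℝ) ^ 2) h2 hl0 hX'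
      hν0' (Finset.sum_nonneg fun i _ => sq_nonneg _) hq1' hqm'
      (Finset.sum_nonneg fun i _ => sq_nonneg _) (by linarith) hνX' h' k2 k3
    exact_mod_cast this
  · right
    have h' : (1000000 : ℝ) * (X : ℝ) ^ 5 ≤ (ν : ℝ) ^ 2 * D := by exact_mod_cast h
    have := thin_real2 m l X ν D q h2 hl0 hX' hν0' (Nat.cast_nonneg D) hq1' hqm' (by linarith)
      hνX' h' k2
    rw [hlD] at this
    exact_mod_cast this

end Pool.MP_70e04f_ag.Strip

end

/-! ### from `Lib_MP_70e04f_gon.GSec` -/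

section

/-!
# Piece GSEC: the derivative of a curve along the movement of a point
-/

set_option autoImplicit false

namespace Pool.MP_70e04f_ag.Strip

open MvPolynomial

private theorem GSec_shift_mapDer {k : Type*} [Field k] (q : Fin 2 → k) (F : A2 k)
    (D : Derivation ℤ k k) :
    shift q (mapDer D F) = mapDer D (shift q F) - C (D (q 0)) * pderiv 0 (shift q F)
      - C (D (q 1)) * pderiv 1 (shift q F) := by
  rw [mapDer_shift D q F]
  ring

private theorem GSec_coeff {k : Type*} [Field k] (q : Fin 2 → k) (F : A2 k)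
    (D : Derivation ℤ k k) (a b : ℕ) :
    coeff (mon a b) (shift q (mapDer D F)) = D (coeff (mon a b) (shift q F))
      - D (q 0) * (((a : k) + 1) * coeff (mon (a + 1) b) (shift q F))
      - D (q 1) * (((b : k) + 1) * coeff (mon a (b + 1)) (shift q F)) := by
  rw [GSec_shift_mapDer, coeff_sub, coeff_sub, coeff_C_mul, coeff_C_mul, coeff_mapDer,
    coeff_pderiv_zero, coeff_pderiv_one]

/-- PROOF. `totalDegree_mapDer_le`. For a point `i` let `f = shift (p i) F`, so `coeff (mon a b) f = 0` for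
`a + b < mu (p i) F` (`mem_mp_pow`, `mem_iff_le_mu`). `mapDer_shift` with `q = p i`:
`shift (p i) (mapDer D F) = mapDer D f - C (D (p i 0)) * pderiv 0 f - C (D (p i 1)) * pderiv 1 f`. The
coefficients of `mapDer D f` of degree `< mu` vanish (`coeff_mapDer`), the ones of `pderiv c f` of degree
`< mu - 1` (`coeff_pderiv_zero`, `coeff_pderiv_one`), and `D (p i c) = 0` for `i ≠ j`. -/
theorem mapDer_sec {k : Type*} [Field k] {n : ℕ} (p : Fin n → Fin 2 → k) {F : A2 k} (hF : F ≠ 0)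
    (j : Fin n) (D : Derivation ℤ k k) (hD : ∀ i c, i ≠ j → D (p i c) = 0) :
    mapDer D F ∈ Pt k F.totalDegree ∧
      mapDer D F ∈ Iz p (fun i => if i = j then mu (p i) F - 1 else mu (p i) F) := by
  refine ⟨mem_Pt.2 (totalDegree_mapDer_le D F), mem_Iz.2 fun i => ?_⟩
  have hv : ∀ a b : ℕ, a + b < mu (p i) F → coeff (mon a b) (shift (p i) F) = 0 :=
    mem_mp_pow.1 ((mem_iff_le_mu hF _).2 le_rfl)
  rw [mem_mp_pow]
  intro a b hab
  rw [GSec_coeff]
  by_cases hij : i = j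
  · simp only [hij, if_true] at hab
    rw [← hij] at hab
    rw [hv a b (by omega), hv (a + 1) b (by omega), hv a (b + 1) (by omega)]
    simp
  · simp only [hij, if_false] at hab
    rw [hv a b hab, hD i 0 hij, hD i 1 hij]
    simp

end Pool.MP_70e04f_ag.Strip

end

/-! ### from `Lib_MP_70e04f_gon.GSingA` -/

section

/-!
# Piece GSINGA: ideals which are stable under a derivation
-/

set_option autoImplicit false

namespace Pool.MP_70e04f_ag.Strip

open MvPolynomial

/-- applying a derivation to the coefficients commutes with the substitution `T = X c` -/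
private theorem GSingA_aeval {k : Type*} [Field k] [Differential k] (c : Fin 2)
    (f : Polynomial k) :
    mapDer Differential.deriv (Polynomial.aeval (X c : A2 k) f) =
      Polynomial.aeval (X c : A2 k) (Differential.mapCoeffs f) := by
  have hpow : ∀ n : ℕ, mapDer (Differential.deriv : Derivation ℤ k k) ((X c : A2 k) ^ n) = 0 := by
    intro n
    induction n with
    | zero =>
      have h1 : ((X c : A2 k) ^ 0) = C 1 := by rw [pow_zero, C_1]
      rw [h1, SDerA_mapDer_C, Derivation.map_one_eq_zero, C_0]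
    | succ n ih => rw [pow_succ, mapDer_mul, ih, SDerA_mapDer_X, zero_mul, mul_zero, add_zero]
  induction f using Polynomial.induction_on' with
  | add p q hp hq => rw [map_add, mapDer_add, hp, hq, map_add, map_add]
  | monomial n a =>
    rw [Differential.mapCoeffs_monomial, Polynomial.aeval_monomial, Polynomial.aeval_monomial,
      mapDer_mul, hpow, mul_zero, add_zero, MvPolynomial.algebraMap_eq, SDerA_mapDer_C]

/-- A zero of an ideal of finite codimension which is stable under a derivation of the constants is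
constant.
PROOF. Let `χ` be the minimal polynomial over `k` of the class `x` of `X c` in the algebra `A2 k ⧸ J`
(integral since the algebra is finite dimensional, `FinC`, `sp J` has the same underlying set as `J`);
its degree is at most `len J`. Let `D χ` be the polynomial with the coefficients `D (coeff i χ)`
(`Derivation.mapCoeffs` for the derivation `D` of `k`, or by hand). Since `χ` is monic, `D χ` has smaller
degree. `mapDer D (aeval (X c) χ) = aeval (X c) (D χ)` (`mapDer D (X c) = 0`: `SDerA_mapDer_X`; on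
monomials) is in `J` by `hJ`, so `aeval x (D χ) = 0` and `D χ = 0` (`minpoly.degree_le_of_ne_zero`). As
`aeval (X c) χ ∈ J ≤ mp p`, `χ (p c) = 0`. Write `χ = (T - p c) ^ s * ψ` with `ψ (p c) ≠ 0`
(`Polynomial.exists_eq_pow_rootMultiplicity_mul_and_not_dvd`), `1 ≤ s ≤ len J`. Apply `D`:
`0 = - s (D (p c)) (T - p c) ^ (s - 1) ψ + (T - p c) ^ s D ψ`; divide by `(T - p c) ^ (s - 1)` and
evaluate at `p c`: `s (D (p c)) ψ (p c) = 0`. -/
theorem der_const {k : Type*} [Field k] (D : Derivation ℤ k k) {J : Ideal (A2 k)} (hfin : FinC J)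
    (hJ : ∀ f ∈ J, mapDer D f ∈ J) {p : Fin 2 → k} (hp : J ≤ mp p)
    (hchar : ∀ s : ℕ, 1 ≤ s → s ≤ len J → (s : k) ≠ 0) (c : Fin 2) : D (p c) = 0 := by
  classical
  let _ : Differential k := ⟨D⟩
  have hD : (Differential.deriv : Derivation ℤ k k) = D := rfl
  have e : (A2 k ⧸ sp J) ≃ₗ[k] (A2 k ⧸ J) := Submodule.Quotient.restrictScalarsEquiv k J
  have hf1 : Module.Finite k (A2 k ⧸ sp J) := hfin
  have hf2 : Module.Finite k (A2 k ⧸ J) := Module.Finite.equiv e
  have hlen : len J = Module.finrank k (A2 k ⧸ J) := e.finrank_eq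
  set x : A2 k ⧸ J := Ideal.Quotient.mk J (X c) with hx
  have haev : ∀ f : Polynomial k, Polynomial.aeval x f =
      Ideal.Quotient.mk J (Polynomial.aeval (X c : A2 k) f) := by
    intro f
    have h1 := Polynomial.aeval_algHom_apply (Ideal.Quotient.mkₐ k J) (X c : A2 k) f
    exact h1
  have hint : IsIntegral k x := Algebra.IsIntegral.isIntegral x
  set χ := minpoly k x with hχ
  have hmon : χ.Monic := minpoly.monic hint
  have hne : χ ≠ 0 := hmon.ne_zero
  have hdeg : χ.natDegree ≤ len J := by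
    rw [hlen]
    exact minpoly.natDegree_le x
  have hmem : Polynomial.aeval (X c : A2 k) χ ∈ J := by
    rw [← Ideal.Quotient.eq_zero_iff_mem, ← haev]
    exact minpoly.aeval k x
  -- the derivative of the minimal polynomial vanishes
  have hder : Differential.mapCoeffs χ = 0 := by
    by_contra h
    have h1 : Polynomial.aeval x (Differential.mapCoeffs χ) = 0 := by
      rw [haev, Ideal.Quotient.eq_zero_iff_mem, ← GSingA_aeval]
      exact hJ _ hmem
    have h2 := minpoly.degree_le_of_ne_zero k x h h1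
    have h3 : (Differential.mapCoeffs χ).degree < χ.degree := by
      rw [Polynomial.degree_eq_natDegree hne, Polynomial.degree_lt_iff_coeff_zero]
      intro m hm
      rw [Differential.coeff_mapCoeffs]
      rcases Nat.lt_or_ge χ.natDegree m with h4 | h4
      · rw [Polynomial.coeff_eq_zero_of_natDegree_lt h4, map_zero]
      · have h5 : m = χ.natDegree := le_antisymm h4 hm
        rw [h5, hmon.coeff_natDegree, Derivation.map_one_eq_zero]
    exact absurd h2 (not_le.2 h3)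
  -- `p c` is a root
  have hroot : χ.eval (p c) = 0 := by
    have h1 : eval p (Polynomial.aeval (X c : A2 k) χ) = 0 := hp hmem
    have h2 : eval p (Polynomial.aeval (X c : A2 k) χ) = χ.eval (p c) := by
      have h3 := Polynomial.aeval_algHom_apply (MvPolynomial.aeval p : A2 k →ₐ[k] k) (X c : A2 k) χ
      rw [MvPolynomial.aeval_X] at h3
      rw [← Polynomial.coe_aeval_eq_eval, h3]
      rfl
    rw [← h2, h1]
  obtain ⟨ψ, hψ, hψ'⟩ := Polynomial.exists_eq_pow_rootMultiplicity_mul_and_not_dvd χ hne (p c)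
  set s := χ.rootMultiplicity (p c) with hs
  have hs1 : 1 ≤ s := (Polynomial.rootMultiplicity_pos hne).2 hroot
  have hs2 : s ≤ len J := by
    refine le_trans ?_ hdeg
    have h1 : ((Polynomial.X - Polynomial.C (p c)) ^ s * ψ).natDegree = s + ψ.natDegree := by
      rw [Polynomial.natDegree_mul (pow_ne_zero _ (Polynomial.X_sub_C_ne_zero _)),
        Polynomial.natDegree_pow, Polynomial.natDegree_X_sub_C, mul_one]
      rintro rfl
      exact hψ' (dvd_zero _)
    rw [hψ, h1]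
    exact Nat.le_add_right _ _
  clear_value s
  obtain ⟨t, rfl⟩ : ∃ t, s = t + 1 := ⟨s - 1, by omega⟩
  have hψ0 : ψ.eval (p c) ≠ 0 := fun h => hψ' (Polynomial.dvd_iff_isRoot.2 h)
  set L : Polynomial k := Polynomial.X - Polynomial.C (p c) with hL
  have hL0 : L ≠ 0 := Polynomial.X_sub_C_ne_zero _
  have hLD : Differential.mapCoeffs L = - Polynomial.C (D (p c)) := by
    rw [hL, map_sub, Differential.mapCoeffs_X, Differential.mapCoeffs_C, zero_sub]
    rfl
  have h1 : L ^ t * (((t + 1 : ℕ) : Polynomial k) * (- Polynomial.C (D (p c))) * ψ +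
      L * Differential.mapCoeffs ψ) = 0 := by
    have h2 := hder
    rw [hψ, Derivation.leibniz, Derivation.leibniz_pow, hLD] at h2
    simp only [smul_eq_mul, nsmul_eq_mul, Nat.add_sub_cancel] at h2
    rw [← h2]
    ring
  have h3 := (mul_eq_zero.1 h1).resolve_left (pow_ne_zero _ hL0)
  have h4 := congrArg (Polynomial.eval (p c)) h3
  have h5 : L.eval (p c) = 0 := by simp [hL]
  simp only [Polynomial.eval_add, Polynomial.eval_mul, Polynomial.eval_neg, Polynomial.eval_C,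
    Polynomial.eval_natCast, Polynomial.eval_zero, h5, zero_mul, add_zero] at h4
  have h6 := hchar (t + 1) hs1 hs2
  rcases mul_eq_zero.1 h4 with h7 | h7
  · rcases mul_eq_zero.1 h7 with h8 | h8
    · exact absurd h8 h6
    · exact neg_eq_zero.1 h8
  · exact absurd h7 hψ0

end Pool.MP_70e04f_ag.Strip

end

/-! ### from `Lib_MP_70e04f_dich.Three` -/

section

/-!
# Three arbitrary multiplicities
-/

namespace Pool.MP_70e04f_ag.Dich

open Pool.MP_70e04f_ag.Hex Pool.MP_70e04f_ag.Std3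

/-- Three arbitrary multiplicities, in decreasing order. -/
lemma three_sorted (n m d : ℕ) (mm : Fin n → ℕ) (α β γ : Fin n) (hαβ : α ≠ β)
    (hαγ : α ≠ γ) (hβγ : β ≠ γ) (h12 : mm β ≤ mm α) (h23 : mm γ ≤ mm β)
    (hmm : ∀ i, i ≠ α → i ≠ β → i ≠ γ → mm i ≤ m) (ha : mm α + 2 * m ≤ d)
    (p12 : mm α + mm β ≤ d + 1) (hd : 14 * m ^ 2 + 15 * m + 3 ≤ d) : GenExp d mm := by
  obtain ⟨v, hv⟩ : ∃ v, v = (7 * m + 2) / 2 := ⟨_, rfl⟩
  have hv1 : 7 * m + 1 ≤ 2 * v := by omega
  have hv2 : 2 * v ≤ 7 * m + 2 := by omega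
  have e1 : v * (2 * m + 1) * 2 ≤ 14 * m ^ 2 + 11 * m + 2 := by
    calc v * (2 * m + 1) * 2 = 2 * v * (2 * m + 1) := by ring
      _ ≤ (7 * m + 2) * (2 * m + 1) := Nat.mul_le_mul_right _ hv2
      _ = 14 * m ^ 2 + 11 * m + 2 := by ring
  have e2 : (1 + v) * (2 * m + 1) = (2 * m + 1) + v * (2 * m + 1) := by ring
  apply gen_std n 1 v m 0 (2 * m) d d mm α β γ hαβ hαγ hβγ le_rfl (by omega)
    (Nat.coprime_one_left v) (by omega) le_rfl
  · intro i a b c
    have := hmm i a b c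
    omega
  · rw [Nat.le_zero, Finset.card_eq_zero, Finset.filter_eq_empty_iff]
    rintro i _ ⟨a, b, c, h⟩
    have := hmm i a b c
    omega
  · omega
  · omega
  · omega
  · omega
  · omega
  · omega
  · exact Or.inl rfl

/-- Three arbitrary multiplicities. -/
theorem gen_three (n m d : ℕ) (mm : Fin n → ℕ) (α β γ : Fin n) (hαβ : α ≠ β)
    (hαγ : α ≠ γ) (hβγ : β ≠ γ)
    (hmm : ∀ i, i ≠ α → i ≠ β → i ≠ γ → mm i ≤ m) (ha : mm α + 2 * m ≤ d)
    (hb : mm β + 2 * m ≤ d) (hc : mm γ + 2 * m ≤ d)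
    (p12 : mm α + mm β ≤ d + 1) (p13 : mm α + mm γ ≤ d + 1) (p23 : mm β + mm γ ≤ d + 1)
    (hd : 14 * m ^ 2 + 15 * m + 3 ≤ d) : GenExp d mm := by
  rcases Nat.le_total (mm β) (mm α) with h1 | h1
  · rcases Nat.le_total (mm γ) (mm β) with h2 | h2
    · exact three_sorted n m d mm α β γ hαβ hαγ hβγ h1 h2 hmm ha p12 hd
    · rcases Nat.le_total (mm γ) (mm α) with h3 | h3
      · exact three_sorted n m d mm α γ β hαγ hαβ hβγ.symm h3 h2
          (fun i a b c => hmm i a c b) ha p13 hd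
      · exact three_sorted n m d mm γ α β hαγ.symm hβγ.symm hαβ h3 h1
          (fun i a b c => hmm i b c a) hc (by omega) hd
  · rcases Nat.le_total (mm γ) (mm α) with h2 | h2
    · exact three_sorted n m d mm β α γ hαβ.symm hβγ hαγ h1 h2
        (fun i a b c => hmm i b a c) hb (by omega) hd
    · rcases Nat.le_total (mm γ) (mm β) with h3 | h3
      · exact three_sorted n m d mm β γ α hβγ hαβ.symm hαγ.symm h3 h2
          (fun i a b c => hmm i c a b) hb p23 hd
      · exact three_sorted n m d mm γ β α hβγ.symm hαγ.symm hαβ.symm h3 h1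
          (fun i a b c => hmm i c b a) hc (by omega) hd

/-- Expected dimension implies the alternative. -/
lemma shgh_of_genExp {n D : ℕ} {mm : Fin n → ℕ} (h : GenExp D mm) : SHGH D mm := by
  obtain ⟨g, hg, h⟩ := h
  exact ⟨g, hg, fun p hp => Or.inl (h p hp)⟩

/-- The SHGH alternative for three arbitrary multiplicities, and the expected dimension when no
two of them have sum greater than `d + 1`. -/
theorem shgh_three (n m d D : ℕ) (mm : Fin n → ℕ) (α β γ : Fin n) (hαβ : α ≠ β)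
    (hαγ : α ≠ γ) (hβγ : β ≠ γ)
    (hmm : ∀ i, i ≠ α → i ≠ β → i ≠ γ → mm i ≤ m) (ha : mm α + 2 * m ≤ d)
    (hb : mm β + 2 * m ≤ d) (hc : mm γ + 2 * m ≤ d) (hd : 14 * m ^ 2 + 15 * m + 3 ≤ d)
    (hD : D = d ∨ D ≤ d ∧ (d + 1) * (d + 2) ≤ ∑ i, mm i * (mm i + 1)) :
    SHGH D mm ∧ (mm α + mm β ≤ d + 1 → mm α + mm γ ≤ d + 1 → mm β + mm γ ≤ d + 1 →
      GenExp D mm) := by
  have key : mm α + mm β ≤ d + 1 → mm α + mm γ ≤ d + 1 → mm β + mm γ ≤ d + 1 →
      GenExp D mm := by
    intro p12 p13 p23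
    have h := gen_three n m d mm α β γ hαβ hαγ hβγ hmm ha hb hc p12 p13 p23 hd
    rcases hD with rfl | ⟨h1, h2⟩
    · exact h
    · exact h.le h1 h2
  have hDd : D ≤ d := by
    rcases hD with h | h
    · exact h.le
    · exact h.1
  refine ⟨?_, key⟩
  by_cases p12 : mm α + mm β ≤ d + 1
  · by_cases p13 : mm α + mm γ ≤ d + 1
    · by_cases p23 : mm β + mm γ ≤ d + 1
      · exact shgh_of_genExp (key p12 p13 p23)
      · exact line_alt mm β γ hβγ (by omega)
    · exact line_alt mm α γ hαγ (by omega)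
  · exact line_alt mm α β hαβ (by omega)

end Pool.MP_70e04f_ag.Dich

end
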