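import Pool.Agent.Lib_MP_70e04f_m.M19
import Pool.Agent.Lib_MP_70e04f_m.M28

/-!
# MP_70e04f_ag, plane linear systems: merged library part M29

Concatenation of smaller files (each in its own section), only to save build time.
-/

/-! ### from `Lib_MP_70e04f_lit.LLight` -/

section

/-!
# A `(-1)`-curve which meets an effective system negatively does not pass through the points of
multiplicity zero
-/

set_option autoImplicit false

namespace Pool.MP_70e04f_ag.Strip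

open MvPolynomial

/-- If a system which contains a curve meets the `(-1)`-curve `f` in at most `-2`, then `f` does not
pass through the points of multiplicity zero of the system: write the curve as `f ^ k * H`, `f ∤ H`;
then `∑ a_i mult_i(H) ≤ e deg H`, and `d e - ∑ a_i m_i ≥ k (e ^ 2 - ∑_{i ≠ j} a_i ^ 2) =
k (a_j ^ 2 - 1) ≥ 0`. -/
theorem light_eff {n d e : ℕ} {m a : Fin n → ℕ} {p : Fin n → Fin 2 → ℂ}
    (hp : Function.Injective p) {f G : A2 ℂ} (hf : Irreducible f) (he : f.totalDegree = e)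
    (ha : ∀ i, f ∈ mp (p i) ^ a i ∧ f ∉ mp (p i) ^ (a i + 1)) (hG : G ≠ 0)
    (hGd : G.totalDegree ≤ d) (hGm : ∀ i, G ∈ mp (p i) ^ m i) (h : Cre.Neg d m e a) {j : Fin n}
    (hj : m j = 0) : a j = 0 := by
  by_contra hne
  obtain ⟨h1, -, h3⟩ := h
  have hmu : ∀ i, mu (p i) f = a i := by
    intro i
    have e1 := (mem_iff_le_mu hf.ne_zero _).1 (ha i).1
    have e2 : ¬ a i + 1 ≤ mu (p i) f := fun hh => (ha i).2 ((mem_iff_le_mu hf.ne_zero _).2 hh)
    omega
  have hfin : FiniteMultiplicity f G := FiniteMultiplicity.of_prime_left hf.prime hG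
  obtain ⟨H, hH, hfH⟩ := hfin.exists_eq_pow_mul_and_not_dvd
  set k := multiplicity f G with hk
  have hH0 : H ≠ 0 := by
    rintro rfl
    exact hfH (dvd_zero f)
  have hfk : f ^ k ≠ 0 := pow_ne_zero _ hf.ne_zero
  have hmupow : ∀ (i : Fin n) (r : ℕ), mu (p i) (f ^ r) = r * a i := by
    intro i r
    induction r with
    | zero =>
      rw [pow_zero, Nat.zero_mul]
      have := mu_C (q := p i) (c := (1 : ℂ)) one_ne_zero
      rwa [C_1] at this
    | succ r ih =>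
      rw [pow_succ, mu_mul (pow_ne_zero _ hf.ne_zero) hf.ne_zero, ih, hmu]
      ring
  have hmuG : ∀ i, m i ≤ k * a i + mu (p i) H := by
    intro i
    have e1 := (mem_iff_le_mu hG _).1 (hGm i)
    rw [hH, mu_mul hfk hH0, hmupow] at e1
    exact e1
  have hdegpow : ∀ r : ℕ, (f ^ r).totalDegree = r * e := by
    intro r
    induction r with
    | zero => rw [pow_zero, Nat.zero_mul, totalDegree_one]
    | succ r ih =>
      rw [pow_succ, totalDegree_mul_of_isDomain (pow_ne_zero _ hf.ne_zero) hf.ne_zero, ih, he]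
      ring
  have hdeg : k * e + H.totalDegree ≤ d := by
    have e1 : (f ^ k * H).totalDegree = k * e + H.totalDegree := by
      rw [totalDegree_mul_of_isDomain hfk hH0, hdegpow]
    rw [← hH] at e1
    omega
  have hbez := mulbez hp hf hfH (fun i => mu (p i) H)
    (Ideal.mem_sup_left (mem_Iz.2 fun i => (mem_iff_le_mu hH0 _).2 le_rfl))
  rw [he] at hbez
  have hbez' : ∑ i, (a i : ℤ) * (mu (p i) H : ℤ) ≤ (e : ℤ) * H.totalDegree := by
    have : ∑ i, a i * mu (p i) H ≤ e * H.totalDegree := by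
      refine le_trans (le_of_eq ?_) hbez
      exact Finset.sum_congr rfl fun i _ => by rw [hmu]
    exact_mod_cast this
  -- compare the sums
  have hsum : ∑ i, (a i : ℤ) * (m i : ℤ) ≤
      ∑ i, (a i : ℤ) * (mu (p i) H : ℤ) + k * (∑ i, (a i : ℤ) ^ 2 - (a j : ℤ) ^ 2) := by
    rw [← Finset.add_sum_erase _ _ (Finset.mem_univ j),
      ← Finset.add_sum_erase Finset.univ (fun i => (a i : ℤ) * (mu (p i) H : ℤ))
        (Finset.mem_univ j),
      ← Finset.add_sum_erase Finset.univ (fun i => (a i : ℤ) ^ 2) (Finset.mem_univ j)]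
    have e1 : ∑ i ∈ Finset.univ.erase j, (a i : ℤ) * (m i : ℤ) ≤
        ∑ i ∈ Finset.univ.erase j, (a i : ℤ) * (mu (p i) H : ℤ) +
          k * ∑ i ∈ Finset.univ.erase j, (a i : ℤ) ^ 2 := by
      rw [Finset.mul_sum, ← Finset.sum_add_distrib]
      refine Finset.sum_le_sum fun i _ => ?_
      have e2 : (m i : ℤ) ≤ k * a i + mu (p i) H := by exact_mod_cast hmuG i
      have e3 : (0 : ℤ) ≤ a i := Int.natCast_nonneg _
      nlinarith [mul_le_mul_of_nonneg_left e2 e3]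
    have e4 : (0 : ℤ) ≤ (a j : ℤ) * (mu (p j) H : ℤ) := by positivity
    rw [hj]
    push_cast
    linarith
  have haj : (1 : ℤ) ≤ a j := by
    have : 1 ≤ a j := Nat.one_le_iff_ne_zero.2 hne
    exact_mod_cast this
  have hdeg' : (k : ℤ) * e + H.totalDegree ≤ d := by exact_mod_cast hdeg
  have he0 : (0 : ℤ) ≤ e := Int.natCast_nonneg _
  have hk0 : (0 : ℤ) ≤ k := Int.natCast_nonneg _
  have e5 : (e : ℤ) * ((k : ℤ) * e + H.totalDegree) ≤ e * d := mul_le_mul_of_nonneg_left hdeg' he0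
  have e6 : (0 : ℤ) ≤ k * ((a j : ℤ) ^ 2 - 1) := mul_nonneg hk0 (by nlinarith)
  have e7 : (k : ℤ) * (∑ i, (a i : ℤ) ^ 2) = k * ((e : ℤ) ^ 2 + 1) := by
    have : ∑ i, (a i : ℤ) ^ 2 = (e : ℤ) ^ 2 + 1 := by linarith
    rw [this]
  nlinarith

/-- The dimension is at least the expected one. -/
theorem low_dim {n d : ℕ} {m : Fin n → ℕ} {p : Fin n → Fin 2 → ℂ} (hp : Function.Injective p) :
    ((d : ℤ) + 1) * ((d : ℤ) + 2) - ∑ i, (m i : ℤ) * ((m i : ℤ) + 1) ≤
      2 * (Module.finrank ℂ ↥(Pt ℂ d ⊓ sp (Iz p m)) : ℤ) := by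
  have h1 := cod_add (finC_Iz hp m) d
  have h2 := two_finrank_Pt (k := ℂ) d
  have h3 := len_Iz hp m
  have h4 : ((2 * len (Iz p m) : ℕ) : ℤ) = ∑ i, (m i : ℤ) * ((m i : ℤ) + 1) := by
    rw [h3]; push_cast; rfl
  have h5 : ((2 * Module.finrank ℂ ↥(Pt ℂ d) : ℕ) : ℤ) = ((d : ℤ) + 1) * ((d : ℤ) + 2) := by
    rw [h2]; push_cast; rfl
  rw [← h4, ← h5]
  push_cast
  omega

end Pool.MP_70e04f_ag.Strip

end

/-! ### from `Lib_MP_70e04f_thin.TCre` -/

section

/-!
# Piece TCRE: quadratic transformations of effective classes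
-/

set_option autoImplicit false

namespace Pool.MP_70e04f_ag.Strip

open MvPolynomial

/-- PROOF. `Cre.V d m p` is `Pt ℂ d ⊓ sp (Iz p m)` (`mem_Iz`); a finite dimensional space contains a
nonzero vector iff its dimension is not zero. -/
theorem exists_curve_iff {n : ℕ} (d : ℕ) (m : Fin n → ℕ) (p : Fin n → Fin 2 → ℂ) :
    (∃ f : A2 ℂ, f ≠ 0 ∧ f ∈ Pt ℂ d ∧ f ∈ Iz p m) ↔
      Module.finrank ℂ ↥(Cre.V d m p) ≠ 0 := by
  have hfin : Module.Finite ℂ ↥(Cre.V d m p) := Submodule.finiteDimensional_inf_left _ _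
  have hmem : ∀ f : A2 ℂ, f ∈ Cre.V d m p ↔ f ∈ Pt ℂ d ∧ f ∈ Iz p m := by
    intro f
    unfold Cre.V
    rw [Submodule.mem_inf, Submodule.mem_iInf, mem_Iz]
    exact Iff.rfl
  rw [Ne, Submodule.finrank_eq_zero, Submodule.eq_bot_iff]
  push Not
  constructor
  · rintro ⟨f, hf, h1, h2⟩
    exact ⟨f, (hmem f).2 ⟨h1, h2⟩, hf⟩
  · rintro ⟨f, h1, hf⟩
    exact ⟨f, hf, (hmem f).1 h1⟩

/-- PROOF. Suppose that the class `(e'; cm a ι δ)` is not effective at some complex configuration.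
By `no_curve_iff`, `minor_map` some maximal minor of `Bz` is a nonzero polynomial; let `g'` be its
image in `MvPolynomial (Fin n × Fin 2) ℂ` (`map (Int.castRingHom ℂ)`), `g' ≠ 0`.
`Cre.exists_generic ι hι g'` gives `g ≠ 0`; let `p` be a configuration with `g p ≠ 0`: it is good and
`g' (crm ι p) ≠ 0`, so the class is not effective at `crm ι p` (`no_curve_iff`), the dimension of
`V e' (cm a ι δ) (crm ι p)` is zero, by `finrank_V_crm` so is the one of `V e a p`: contradiction to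
`Eff0 e a`. (`hlow`: from `hpair`.) -/
theorem Eff0.cremona {n e e' δ : ℕ} {a : Fin n → ℕ} {ι : Fin 3 → Fin n}
    (hι : Function.Injective ι) (hd : e' + δ = e) (hsum : ∑ j, a (ι j) = e + δ)
    (hpair : ∀ j k, j ≠ k → a (ι j) + a (ι k) ≤ e + 1) (hup : ∀ j, a (ι j) ≤ e)
    (h : Eff0 e a) : Eff0 e' (Cre.cm a ι δ) := by
  intro p0
  by_contra hcon
  have hlow : ∀ j, δ ≤ a (ι j) + 1 := by
    have hs3 : ∑ j, a (ι j) = a (ι 0) + a (ι 1) + a (ι 2) := Fin.sum_univ_three _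
    have h01 := hpair 0 1 (by decide)
    have h02 := hpair 0 2 (by decide)
    have h12 := hpair 1 2 (by decide)
    intro j
    fin_cases j
    · change δ ≤ a (ι 0) + 1; omega
    · change δ ≤ a (ι 1) + 1; omega
    · change δ ≤ a (ι 2) + 1; omega
  obtain ⟨f, hf⟩ := (no_curve_iff e' (Cre.cm a ι δ) p0).1 hcon
  obtain ⟨g0, hg0⟩ : ∃ g0, g0 = ((Bz n (e' + 1) (Cre.cm a ι δ)).submatrix f id).det := ⟨_, rfl⟩
  have hev : ∀ p : Fin n → Fin 2 → ℂ, MvPolynomial.eval (fun q : Fin n × Fin 2 => p q.1 q.2)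
      (MvPolynomial.map (Int.castRingHom ℂ) g0) =
        ((condMat (e' + 1) (Cre.cm a ι δ) p).submatrix f id).det := by
    intro p
    rw [← minor_map p f, hg0, eval_map]
    rfl
  have hne : MvPolynomial.map (Int.castRingHom ℂ) g0 ≠ 0 := by
    intro h0
    have h1 := hev p0
    rw [h0, map_zero] at h1
    exact hf h1.symm
  obtain ⟨g, hg, hg2⟩ := Cre.exists_generic ι hι _ hne
  obtain ⟨x, hx⟩ : ∃ x : Fin n × Fin 2 → ℂ, MvPolynomial.eval x g ≠ 0 := by
    by_contra hc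
    push Not at hc
    exact hg (MvPolynomial.funext fun x => by rw [hc x, map_zero])
  obtain ⟨hgood, h2⟩ := hg2 (fun i c => x (i, c)) hx
  rw [hev] at h2
  have h3 := (no_curve_iff e' (Cre.cm a ι δ) _).2 ⟨f, h2⟩
  rw [exists_curve_iff, not_not, Cre.finrank_V_crm hι hd hsum hlow hup hgood] at h3
  exact (exists_curve_iff e a _).1 (h _) h3

end Pool.MP_70e04f_ag.Strip

end

/-! ### from `Lib_MP_70e04f_thin.TPosB` -/

section

/-!
# Piece TPOSB: a curve of smaller degree from a quadratic transformation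
-/

set_option autoImplicit false

namespace Pool.MP_70e04f_ag.Strip

open MvPolynomial

/-- PROOF. Let `δ = ∑ j, a (ι j) - e > 0`, `δ ≤ e` (`2 ∑ j, a (ι j) ≤ 3 e` by `hpair`) and `e' = e - δ`.
`Eff0 e' (cm a ι δ)` (`Eff0.cremona`), so `EffL n ℓ e' (cm a ι δ)` (`Eff0.effL`). By `cm_nonpos`,
`cm_ne_zero` and `exists_component` there is an irreducible curve of degree `≤ e' < e` with
`dotp ≤ 0`. -/
theorem exists_smaller {n ℓ : ℕ} [Fact ℓ.Prime] (D e : ℕ) (a M : Fin n → ℕ) (heff : Eff0 e a)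
    (hneg : e ^ 2 < ∑ i, a i ^ 2) (hpair : ∀ i j, i ≠ j → a i + a j ≤ e)
    (hNF : D * e ≤ ∑ i, M i * a i) (ι : Fin 3 → Fin n) (hι : Function.Injective ι)
    (hM : ∑ j, M (ι j) ≤ D) (h3 : e < ∑ j, a (ι j)) :
    ∃ F : A2 (KK n ℓ), Irreducible F ∧ F.totalDegree < e ∧ dotp D M (gp n ℓ) F ≤ 0 := by
  have hpair' : ∀ j k, j ≠ k → a (ι j) + a (ι k) ≤ e := fun j k hjk =>
    hpair _ _ (fun h => hjk (hι h))
  have hs3 : ∑ j, a (ι j) = a (ι 0) + a (ι 1) + a (ι 2) := Fin.sum_univ_three _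
  have h01 := hpair' 0 1 (by decide)
  have h02 := hpair' 0 2 (by decide)
  have h12 := hpair' 1 2 (by decide)
  obtain ⟨δ, hδ⟩ : ∃ δ, ∑ j, a (ι j) = e + δ := ⟨∑ j, a (ι j) - e, by omega⟩
  obtain ⟨e', he'⟩ : ∃ e', e' + δ = e := ⟨e - δ, by omega⟩
  have hup : ∀ j, a (ι j) ≤ e := by
    intro j
    fin_cases j
    · exact (Nat.le_add_right _ _).trans h01
    · exact (Nat.le_add_left _ _).trans h01
    · exact (Nat.le_add_left _ _).trans h02
  have heff' : Eff0 e' (Cre.cm a ι δ) := heff.cremona hι he' hδ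
    (fun j k hjk => (hpair' j k hjk).trans (Nat.le_succ e)) hup
  obtain ⟨G, hG, hGe, hGa⟩ := heff'.effL ℓ
  obtain ⟨i0, hi0⟩ := cm_ne_zero e δ a ι hι hδ hpair' hneg
  obtain ⟨F, hF, hdeg, hdot⟩ := exists_component D M (gp n ℓ) e' (Cre.cm a ι δ)
    (cm_nonpos D e e' δ a M ι hι he' hδ hpair' hM hNF) hG hGe hGa i0 hi0
  exact ⟨F, hF, by omega, hdot⟩

end Pool.MP_70e04f_ag.Strip

end
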