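import Pool.Agent.Lib_MP_70e04f_m.M29

/-!
# MP_70e04f_ag, plane linear systems: merged library part M30

Concatenation of smaller files (each in its own section), only to save build time.
-/

/-! ### from `Lib_MP_70e04f_lit.LHom` -/

section

/-!
# Quadratic transformations: the alternative with arbitrary properties
-/

set_option autoImplicit false

namespace Pool.MP_70e04f_ag.Cre

open MvPolynomial

/-- The dimension has the property `R`, or there is an irreducible curve with a class with the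
property `P`. -/
def SQ {n : ℕ} (R : ℕ → Prop) (P : ℕ → (Fin n → ℕ) → Prop) (d : ℕ) (m : Fin n → ℕ)
    (p : Fin n → Fin 2 → ℂ) : Prop :=
  R (Module.finrank ℂ ↥(V d m p)) ∨
    ∃ f : R2, ∃ e : ℕ, ∃ a : Fin n → ℕ, Irreducible f ∧ f.totalDegree = e ∧
      (∀ i, f ∈ mi (p i) ^ a i ∧ f ∉ mi (p i) ^ (a i + 1)) ∧ P e a

/-- The same with homogeneous coordinates. -/
def HSQ {n : ℕ} (R : ℕ → Prop) (P : ℕ → (Fin n → ℕ) → Prop) (d : ℕ) (m : Fin n → ℕ)
    (q : Fin n → Fin 3 → ℂ) : Prop :=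
  R (Module.finrank ℂ ↥(W d m q)) ∨
    ∃ F : R3, ∃ e : ℕ, ∃ a : Fin n → ℕ, Irreducible F ∧ F.IsHomogeneous e ∧
      (∀ i, F ∈ mi (q i) ^ a i ∧ F ∉ mi (q i) ^ (a i + 1)) ∧ P e a

theorem HSQ_of_SQ {n d : ℕ} {R : ℕ → Prop} {P : ℕ → (Fin n → ℕ) → Prop} {m : Fin n → ℕ}
    {p : Fin n → Fin 2 → ℂ} (h : SQ R P d m p) : HSQ R P d m (fun i => hat (p i)) := by
  rcases h with h | ⟨f, e, a, hf, he, ha, hneg⟩
  · left
    rw [finrank_W_hat]
    exact h
  · right
    refine ⟨hom e f, e, a, hom_irreducible hf he, hom_isHomogeneous he.le, fun i => ?_, hneg⟩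
    rw [CRHS_hom_mem_iff he.le, CRHS_hom_mem_iff he.le]
    exact ha i

theorem S_of_HSQ {n d : ℕ} {R : ℕ → Prop} {m : Fin n → ℕ} {p : Fin n → Fin 2 → ℂ}
    (h : HSQ R (Neg d m) d m (fun i => hat (p i))) : SQ R (Neg d m) d m p := by
  rcases h with h | ⟨F, e, a, hF, he, ha, hneg⟩
  · left
    rw [finrank_W_hat] at h
    exact h
  · right
    obtain ⟨h1, h2⟩ := deh_irreducible hF he (CRHS_not_dvd hF he (fun i => (ha i).1) hneg)
    refine ⟨deh F, e, a, h1, h2, fun i => ?_, hneg⟩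
    rw [CRHS_deh_mem_iff he, CRHS_deh_mem_iff he]
    exact ha i

/-- The alternative depends only on the ideals. -/
theorem HSQ.transfer {n d : ℕ} {R : ℕ → Prop} {P : ℕ → (Fin n → ℕ) → Prop} {m : Fin n → ℕ}
    {q q' : Fin n → Fin 3 → ℂ}
    (φ : R3 ≃ₐ[ℂ] R3) (h1 : ∀ F : R3, ∀ e, (φ F).IsHomogeneous e ↔ F.IsHomogeneous e)
    (h2 : ∀ F : R3, ∀ e, F.IsHomogeneous e → ∀ i j, φ F ∈ mi (q' i) ^ j ↔ F ∈ mi (q i) ^ j)
    (h : HSQ R P d m q) : HSQ R P d m q' := by
  rcases h with h | ⟨F, e, a, hF, he, ha, hneg⟩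
  · left
    have e1 : W d m q' = (W d m q).map (φ.toLinearEquiv : R3 →ₗ[ℂ] R3) := by
      ext G
      rw [Submodule.mem_map, CRLIN_mem_W]
      constructor
      · rintro ⟨hG, hG'⟩
        refine ⟨φ.symm G, ?_, φ.apply_symm_apply G⟩
        have h3 : (φ.symm G).IsHomogeneous d := by
          rw [← h1, φ.apply_symm_apply]
          exact hG
        refine CRLIN_mem_W.mpr ⟨h3, fun i => ?_⟩
        rw [← h2 _ d h3, φ.apply_symm_apply]
        exact hG' i
      · rintro ⟨F, hF, rfl⟩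
        obtain ⟨hF1, hF2⟩ := CRLIN_mem_W.mp hF
        exact ⟨(h1 F d).mpr hF1, fun i => (h2 F d hF1 i _).mpr (hF2 i)⟩
    rw [e1, LinearEquiv.finrank_map_eq]
    exact h
  · right
    refine ⟨φ F, e, a, (MulEquiv.irreducible_iff (φ : R3 ≃* R3)).mpr hF, (h1 F e).mpr he,
      fun i => ⟨(h2 F e he i _).mpr (ha i).1, fun h3 => (ha i).2 ((h2 F e he i _).mp h3)⟩, hneg⟩

theorem HSQ.smul {n d : ℕ} {R : ℕ → Prop} {P : ℕ → (Fin n → ℕ) → Prop} {m : Fin n → ℕ}
    {q : Fin n → Fin 3 → ℂ} (c : Fin n → ℂ)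
    (hc : ∀ i, c i ≠ 0) (h : HSQ R P d m q) : HSQ R P d m (fun i => c i • q i) := by
  refine HSQ.transfer AlgEquiv.refl (fun F e => Iff.rfl) (fun F e he i j => ?_) h
  show F ∈ mi (c i • q i) ^ j ↔ F ∈ mi (q i) ^ j
  constructor
  · intro h1
    have h2 := mem_mi_smul (inv_ne_zero (hc i)) he h1
    rwa [smul_smul, inv_mul_cancel₀ (hc i), one_smul] at h2
  · exact mem_mi_smul (hc i) he

theorem HSQ.mat {n d : ℕ} {R : ℕ → Prop} {P : ℕ → (Fin n → ℕ) → Prop} {m : Fin n → ℕ}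
    {q : Fin n → Fin 3 → ℂ} (A : Matrix (Fin 3) (Fin 3) ℂ)
    (hA : A.det ≠ 0) (h : HSQ R P d m q) : HSQ R P d m (fun i => A.mulVec (q i)) := by
  have hu : IsUnit A.det := isUnit_iff_ne_zero.mpr hA
  have h1 : A * A⁻¹ = 1 := Matrix.mul_nonsing_inv A hu
  have h2 : A⁻¹ * A = 1 := Matrix.nonsing_inv_mul A hu
  let φ : R3 ≃ₐ[ℂ] R3 := AlgEquiv.ofAlgHom (lin A⁻¹) (lin A)
    (AlgHom.ext fun F => CRLIN_lin_lin h1 F) (AlgHom.ext fun F => CRLIN_lin_lin h2 F)
  have hφ : ∀ F, φ F = lin A⁻¹ F := fun F => rfl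
  refine HSQ.transfer φ (fun F e => ⟨fun h3 => ?_, fun h3 => ?_⟩)
    (fun F e he i j => ⟨fun h3 => ?_, fun h3 => ?_⟩) h
  · have h4 := CRLIN_hom A h3
    rwa [hφ, CRLIN_lin_lin h2] at h4
  · rw [hφ]
    exact CRLIN_hom _ h3
  · have h4 := mem_pow_map (q' := q i) (lin A) (fun G => eval_lin A G (q i)) h3
    rwa [hφ, CRLIN_lin_lin h2] at h4
  · rw [hφ]
    refine mem_pow_map (lin A⁻¹) (fun G => ?_) h3
    rw [eval_lin, Matrix.mulVec_mulVec, h2, Matrix.one_mulVec]

end Pool.MP_70e04f_ag.Cre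

end

/-! ### from `Lib_MP_70e04f_lit.LAlt` -/

section

/-!
# The second alternative after a quadratic transformation, for curves which do not pass through the
points of multiplicity zero

The proofs are the ones of `Lib_MP_70e04f_cre/Num.lean` and `Lib_MP_70e04f_cre/RevAlt.lean`.
-/

set_option autoImplicit false

namespace Pool.MP_70e04f_ag.Cre

open MvPolynomial

section

variable {n d d' δ : ℕ} {m : Fin n → ℕ} {ι : Fin 3 → Fin n}

lemma cm_mul' (hlow : ∀ j, δ ≤ m (ι j) + 1) {a' : Fin n → ℕ}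
    (hl : ∀ i, cm m ι δ i = 0 → a' i = 0) (j : Fin 3) :
    (a' (ι j) : ℤ) * (cm m ι δ (ι j) : ℤ) = a' (ι j) * ((m (ι j) : ℤ) - δ) := by
  rcases Nat.lt_or_ge (m (ι j)) δ with h1 | h1
  · have h3 : cm m ι δ (ι j) = 0 := by rw [cm_ι]; omega
    rw [hl _ h3, h3]
    simp
  · rw [cm_ι]
    push_cast [Nat.cast_sub h1]
    ring

theorem neg_cm' (hι : Function.Injective ι) (hd : d' + δ = d) (hsum : ∑ j, m (ι j) = d + δ)
    (hlow : ∀ j, δ ≤ m (ι j) + 1) {e e' : ℕ}
    {a a' : Fin n → ℕ} (hl : ∀ i, cm m ι δ i = 0 → a' i = 0) (h : Neg d' (cm m ι δ) e' a') (he : e + ∑ j, a' (ι j) = 2 * e')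
    (ha : ∀ j, a (ι j) + ∑ k, a' (ι k) = e' + a' (ι j))
    (ha' : ∀ l, l ∉ Finset.univ.image ι → a l = a' l) : Neg d m e a := by
  have hmul := cm_mul' hlow hl
  obtain ⟨h1, h2, h3⟩ := h
  rw [sum_split hι] at h1 h2 h3
  beta_reduce at h1 h2 h3
  rw [hmul 0, hmul 1, hmul 2] at h3
  have s3 : ∑ i ∈ (Finset.univ.image ι)ᶜ, (a' i : ℤ) * (cm m ι δ i : ℤ) =
      ∑ i ∈ (Finset.univ.image ι)ᶜ, (a i : ℤ) * (m i : ℤ) :=
    Finset.sum_congr rfl fun i hi => by
      rw [cm_of_notMem (Finset.mem_compl.1 hi), ha' i (Finset.mem_compl.1 hi)]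
  have s2 : ∑ i ∈ (Finset.univ.image ι)ᶜ, (a' i : ℤ) = ∑ i ∈ (Finset.univ.image ι)ᶜ, (a i : ℤ) :=
    Finset.sum_congr rfl fun i hi => by rw [ha' i (Finset.mem_compl.1 hi)]
  have s1 : ∑ i ∈ (Finset.univ.image ι)ᶜ, (a' i : ℤ) ^ 2 =
      ∑ i ∈ (Finset.univ.image ι)ᶜ, (a i : ℤ) ^ 2 :=
    Finset.sum_congr rfl fun i hi => by rw [ha' i (Finset.mem_compl.1 hi)]
  rw [s1] at h1
  rw [s2] at h2
  rw [s3] at h3
  rw [Fin.sum_univ_three] at hsum he
  have ha0 := ha 0
  have ha1 := ha 1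
  have ha2 := ha 2
  rw [Fin.sum_univ_three] at ha0 ha1 ha2
  have q0 : (m (ι 2) : ℤ) = d + δ - m (ι 0) - m (ι 1) := by
    have : (m (ι 0) : ℤ) + m (ι 1) + m (ι 2) = d + δ := by exact_mod_cast hsum
    linarith
  have q1 : (d' : ℤ) = d - δ := by rw [← hd]; push_cast; ring
  have q2 : (e : ℤ) = 2 * e' - (a' (ι 0) + a' (ι 1) + a' (ι 2)) := by
    have : (e : ℤ) + (a' (ι 0) + a' (ι 1) + a' (ι 2)) = 2 * e' := by exact_mod_cast he
    linarith
  have r0 : (a (ι 0) : ℤ) = e' - a' (ι 1) - a' (ι 2) := by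
    have : (a (ι 0) : ℤ) + (a' (ι 0) + a' (ι 1) + a' (ι 2)) = e' + a' (ι 0) := by
      exact_mod_cast ha0
    linarith
  have r1 : (a (ι 1) : ℤ) = e' - a' (ι 0) - a' (ι 2) := by
    have : (a (ι 1) : ℤ) + (a' (ι 0) + a' (ι 1) + a' (ι 2)) = e' + a' (ι 1) := by
      exact_mod_cast ha1
    linarith
  have r2 : (a (ι 2) : ℤ) = e' - a' (ι 0) - a' (ι 1) := by
    have : (a (ι 2) : ℤ) + (a' (ι 0) + a' (ι 1) + a' (ι 2)) = e' + a' (ι 2) := by
      exact_mod_cast ha2
    linarith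
  refine ⟨?_, ?_, ?_⟩
  · rw [sum_split hι]
    beta_reduce
    rw [r0, r1, r2, q2]
    linear_combination h1
  · rw [sum_split hι]
    beta_reduce
    rw [r0, r1, r2, q2]
    linear_combination h2
  · rw [sum_split hι]
    beta_reduce
    rw [r0, r1, r2, q2]
    rw [q1, q0] at h3
    rw [q0]
    linarith [h3]

theorem not_line' (hι : Function.Injective ι) (hd : d' + δ = d) (hsum : ∑ j, m (ι j) = d + δ)
    (hlow : ∀ j, δ ≤ m (ι j) + 1) {a' : Fin n → ℕ}
    (hl : ∀ i, cm m ι δ i = 0 → a' i = 0) (j0 : Fin 3) (h0 : a' (ι j0) = 0) (h1 : ∀ j, j ≠ j0 → a' (ι j) = 1)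
    (h2 : ∀ l, l ∉ Finset.univ.image ι → a' l = 0) : ¬ Neg d' (cm m ι δ) 1 a' := by
  intro h
  have hmul := cm_mul' hlow hl
  obtain ⟨-, -, h3⟩ := h
  rw [sum_split hι] at h3
  beta_reduce at h3
  rw [hmul 0, hmul 1, hmul 2] at h3
  have s3 : ∑ i ∈ (Finset.univ.image ι)ᶜ, (a' i : ℤ) * (cm m ι δ i : ℤ) = 0 :=
    Finset.sum_eq_zero fun i hi => by rw [h2 i (Finset.mem_compl.1 hi)]; simp
  rw [s3] at h3
  rw [Fin.sum_univ_three] at hsum
  have q0 : (m (ι 0) : ℤ) + m (ι 1) + m (ι 2) = d + δ := by exact_mod_cast hsum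
  have q1 : (d' : ℤ) = d - δ := by rw [← hd]; push_cast; ring
  fin_cases j0
  · have e0 : a' (ι 0) = 0 := h0
    have e1 := h1 1 (by decide)
    have e2 := h1 2 (by decide)
    rw [e0, e1, e2] at h3
    push_cast at h3
    omega
  · have e0 : a' (ι 1) = 0 := h0
    have e1 := h1 0 (by decide)
    have e2 := h1 2 (by decide)
    rw [e0, e1, e2] at h3
    push_cast at h3
    omega
  · have e0 : a' (ι 2) = 0 := h0
    have e1 := h1 0 (by decide)
    have e2 := h1 1 (by decide)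
    rw [e0, e1, e2] at h3
    push_cast at h3
    omega

end

theorem alt_not_dvd' {n d d' δ : ℕ} {m : Fin n → ℕ} {ι : Fin 3 → Fin n}
    (hι : Function.Injective ι) (hd : d' + δ = d) (hsum : ∑ j, m (ι j) = d + δ)
    (hlow : ∀ j, δ ≤ m (ι j) + 1)
    {q q' : Fin n → Fin 3 → ℂ}
    (hq' : ∀ j, q' (ι j) = Pi.single j 1)
    (hx : ∀ l, l ∉ Finset.univ.image ι → (∀ c, q l c ≠ 0) ∧ q' l = sg (q l))
    {G : R3} {e' : ℕ} {a' : Fin n → ℕ} (hG : Irreducible G) (he : G.IsHomogeneous e')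
    (ha : ∀ i, G ∈ mi (q' i) ^ a' i ∧ G ∉ mi (q' i) ^ (a' i + 1))
    (hl : ∀ i, cm m ι δ i = 0 → a' i = 0)
    (hneg : Neg d' (cm m ι δ) e' a') (j0 : Fin 3) : ¬ (X j0 : R3) ∣ G := by
  rintro ⟨K, hK⟩
  have hXu : ¬ IsUnit (X j0 : R3) := (MvPolynomial.X_prime (R := ℂ) (i := j0)).not_isUnit
  have hKu : IsUnit K := (hG.isUnit_or_isUnit hK).resolve_left hXu
  rw [MvPolynomial.isUnit_iff_eq_C_of_isReduced] at hKu
  obtain ⟨c, hc, rfl⟩ := hKu
  have hc0 : c ≠ 0 := hc.ne_zero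
  have hGm : G = monomial (Finsupp.single j0 1) c := by
    rw [hK, mul_comm, MvPolynomial.C_mul_X_eq_monomial]
  have hsupp : Finsupp.single j0 1 ∈ G.support := by
    rw [MvPolynomial.mem_support_iff, hGm, MvPolynomial.coeff_monomial, if_pos rfl]
    exact hc0
  have honly : ∀ s ∈ G.support, s = Finsupp.single j0 1 := by
    intro s hs
    rw [MvPolynomial.mem_support_iff, hGm, MvPolynomial.coeff_monomial] at hs
    by_contra h
    exact hs (if_neg (fun h' => h h'.symm))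
  have he1 : e' = 1 := by
    have := alt_degree he hsupp
    rw [← this]
    fin_cases j0 <;> simp
  subst he1
  have hmul : ∀ j, (Finsupp.single j0 1 : Fin 3 →₀ ℕ) j + a' (ι j) = 1 := by
    intro j
    obtain ⟨h1, h2⟩ := ha (ι j)
    rw [hq' j] at h1 h2
    obtain ⟨-, s, hs, h3⟩ := alt_mult he h1 h2
    rw [honly s hs] at h3
    exact h3
  refine not_line' hι hd hsum hlow hl j0 ?_ ?_ ?_ hneg
  · have := hmul j0
    rw [Finsupp.single_eq_same] at this
    omega
  · intro j hj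
    have := hmul j
    rw [Finsupp.single_eq_of_ne hj] at this
    omega
  · intro l hl
    obtain ⟨h1, h2⟩ := hx l hl
    by_contra h3
    have h4 : G ∈ mi (q' l) := by
      have := Ideal.pow_le_pow_right (I := mi (q' l)) (Nat.one_le_iff_ne_zero.2 h3) (ha l).1
      rwa [pow_one] at this
    rw [RingHom.mem_ker, h2, hK, map_mul, MvPolynomial.eval_X, MvPolynomial.eval_C] at h4
    rcases mul_eq_zero.1 h4 with h5 | h5
    · fin_cases j0
      · exact mul_ne_zero (h1 1) (h1 2) h5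
      · exact mul_ne_zero (h1 0) (h1 2) h5
      · exact mul_ne_zero (h1 0) (h1 1) h5
    · exact hc0 h5

theorem alt_cremona' {n d d' δ : ℕ} {m : Fin n → ℕ} {ι : Fin 3 → Fin n}
    (hι : Function.Injective ι) (hd : d' + δ = d) (hsum : ∑ j, m (ι j) = d + δ)
    (hlow : ∀ j, δ ≤ m (ι j) + 1)
    {q q' : Fin n → Fin 3 → ℂ}
    (hq : ∀ j, q (ι j) = Pi.single j 1) (hq' : ∀ j, q' (ι j) = Pi.single j 1)
    (hx : ∀ l, l ∉ Finset.univ.image ι → (∀ c, q l c ≠ 0) ∧ q' l = sg (q l))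
    {G : R3} {e' : ℕ} {a' : Fin n → ℕ} (hG : Irreducible G) (he : G.IsHomogeneous e')
    (ha : ∀ i, G ∈ mi (q' i) ^ a' i ∧ G ∉ mi (q' i) ^ (a' i + 1))
    (hl : ∀ i, cm m ι δ i = 0 → a' i = 0)
    (hneg : Neg d' (cm m ι δ) e' a') :
    ∃ F : R3, ∃ e : ℕ, ∃ a : Fin n → ℕ, Irreducible F ∧ F.IsHomogeneous e ∧
      (∀ i, F ∈ mi (q i) ^ a i ∧ F ∉ mi (q i) ^ (a i + 1)) ∧ Neg d m e a := by
  have hX := fun j => alt_not_dvd' hι hd hsum hlow hq' hx hG he ha hl hneg j
  have hG0 : G ≠ 0 := hG.ne_zero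
  have hmul : ∀ j, (∀ s ∈ G.support, s j + a' (ι j) ≤ e') ∧
      ∃ s ∈ G.support, s j + a' (ι j) = e' := by
    intro j
    obtain ⟨h1, h2⟩ := ha (ι j)
    rw [hq' j] at h1 h2
    exact alt_mult he h1 h2
  obtain ⟨ν, hνdef⟩ : ∃ ν : Fin 3 →₀ ℕ, ∀ j, ν j + a' (ι j) = e' := by
    refine ⟨Finsupp.equivFunOnFinite.symm fun j => e' - a' (ι j), fun j => ?_⟩
    obtain ⟨s, hs, h⟩ := (hmul j).2
    simp only [Finsupp.equivFunOnFinite_symm_apply_apply]
    omega
  have hν : ∀ s ∈ G.support, s ≤ ν := by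
    intro s hs j
    have := (hmul j).1 s hs
    have := hνdef j
    omega
  have hmax : ∀ j, ∃ s ∈ G.support, s j = ν j := by
    intro j
    obtain ⟨s, hs, h⟩ := (hmul j).2
    have := hνdef j
    exact ⟨s, hs, by omega⟩
  have hzero : ∀ j, ∃ s ∈ G.support, s j = 0 := by
    intro j
    by_contra h
    push Not at h
    exact hX j (alt_dvd h)
  obtain ⟨e, hee⟩ : ∃ e, e' + e = ν 0 + ν 1 + ν 2 := by
    obtain ⟨s, hs, -⟩ := hzero 0
    have h1 := alt_degree he hs
    have h2 := hν s hs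
    have := h2 0
    have := h2 1
    have := h2 2
    exact ⟨ν 0 + ν 1 + ν 2 - e', by omega⟩
  obtain ⟨hFirr, -⟩ := rev_irreducible hee hG he hν hmax hX
  have hFhom : (rev ν G).IsHomogeneous e := rev_isHomogeneous hee he hν
  have hFν : ∀ s ∈ (rev ν G).support, s ≤ ν := support_rev_le
  have hFmax : ∀ j, ∃ s ∈ (rev ν G).support, s j = ν j := by
    intro j
    obtain ⟨s, hs, h⟩ := hzero j
    refine ⟨ν - s, ?_, ?_⟩
    · rw [MvPolynomial.mem_support_iff, coeff_rev hν _ tsub_le_self,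
        tsub_tsub_cancel_of_le (hν s hs)]
      exact MvPolynomial.mem_support_iff.1 hs
    · rw [Finsupp.tsub_apply, h, Nat.sub_zero]
  have hνe : ∀ j, ν j ≤ e := by
    intro j
    obtain ⟨s, hs, h⟩ := hFmax j
    have := alt_degree hFhom hs
    rw [← h]
    fin_cases j
    · show s 0 ≤ e
      omega
    · show s 1 ≤ e
      omega
    · show s 2 ≤ e
      omega
  have hsumν : e + ∑ j, a' (ι j) = 2 * e' := by
    rw [Fin.sum_univ_three]
    have := hνdef 0
    have := hνdef 1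
    have := hνdef 2
    omega
  refine ⟨rev ν G, e, fun i => if i ∈ Finset.univ.image ι then e + a' i - e' else a' i,
    hFirr, hFhom, ?_, ?_⟩
  · intro i
    by_cases hi : i ∈ Finset.univ.image ι
    · obtain ⟨j, -, rfl⟩ := Finset.mem_image.1 hi
      simp only [if_pos hi]
      rw [hq j]
      have h1 := hνdef j
      have h2 := hνe j
      constructor
      · rw [mem_mi_single_iff hFhom]
        intro s hs
        have := hFν s hs j
        omega
      · rw [mem_mi_single_iff hFhom]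
        intro h
        obtain ⟨s, hs, h3⟩ := hFmax j
        have := h s hs
        omega
    · simp only [if_neg hi]
      obtain ⟨h1, h2⟩ := hx i hi
      obtain ⟨h3, h4⟩ := ha i
      rw [h2] at h3 h4
      refine ⟨rev_mem he hν h1 h3, fun h => h4 ?_⟩
      have := rev_mem' hFhom hFν h1 h
      rwa [rev_rev hν] at this
  · refine neg_cm' hι hd hsum hlow hl hneg hsumν ?_ ?_
    · intro j
      have hi : ι j ∈ Finset.univ.image ι := Finset.mem_image_of_mem ι (Finset.mem_univ j)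
      simp only [if_pos hi]
      have h1 := hνdef j
      have h2 := hνe j
      omega
    · intro l hl
      simp only [if_neg hl]

end Pool.MP_70e04f_ag.Cre

end

/-! ### from `Lib_MP_70e04f_lit.LConf` -/

section

/-!
# Invariance of the conjecture under quadratic transformations, without a condition on the
self-intersection

The proof of `SQ.cremona` is the one of `Lib_MP_70e04f_cre/ConfS.lean`.
-/

set_option autoImplicit false

namespace Pool.MP_70e04f_ag.Cre

open MvPolynomial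

/-- The standard quadratic transformation. -/
theorem HSQ.cremona {n d d' δ : ℕ} {R : ℕ → Prop} {P : ℕ → (Fin n → ℕ) → Prop} {m : Fin n → ℕ}
    {ι : Fin 3 → Fin n}
    (hι : Function.Injective ι) (hd : d' + δ = d) (hsum : ∑ j, m (ι j) = d + δ)
    (hlow : ∀ j, δ ≤ m (ι j) + 1) (hup : ∀ j, m (ι j) ≤ d)
    (hP : ∀ e a, P e a → Neg d' (cm m ι δ) e a ∧ ∀ i, cm m ι δ i = 0 → a i = 0)
    {q q' : Fin n → Fin 3 → ℂ}
    (hq : ∀ j, q (ι j) = Pi.single j 1) (hq' : ∀ j, q' (ι j) = Pi.single j 1)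
    (hx : ∀ l, l ∉ Finset.univ.image ι → (∀ c, q l c ≠ 0) ∧ q' l = sg (q l))
    (h : HSQ R P d' (cm m ι δ) q') : HSQ R (Neg d m) d m q := by
  rcases h with h | ⟨G, e', a', hG, he, ha, hneg⟩
  · left
    rw [finrank_cremona hι hd hsum hlow hup hq hq' hx] at h
    exact h
  · right
    obtain ⟨h1, h2⟩ := hP e' a' hneg
    exact alt_cremona' hι hd hsum hlow hq hq' hx hG he ha h2 h1

theorem SQ.cremona {n d d' δ : ℕ} {R : ℕ → Prop} {P : ℕ → (Fin n → ℕ) → Prop} {m : Fin n → ℕ}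
    {ι : Fin 3 → Fin n}
    (hι : Function.Injective ι) (hd : d' + δ = d) (hsum : ∑ j, m (ι j) = d + δ)
    (hlow : ∀ j, δ ≤ m (ι j) + 1) (hup : ∀ j, m (ι j) ≤ d)
    (hP : ∀ e a, P e a → Neg d' (cm m ι δ) e a ∧ ∀ i, cm m ι δ i = 0 → a i = 0)
    {p : Fin n → Fin 2 → ℂ} (hp : Good ι p) (h : SQ R P d' (cm m ι δ) (crm ι p)) :
    SQ R (Neg d m) d m p := by
  classical
  obtain ⟨hD, hl⟩ := hp
  have h2 := (HSQ_of_SQ h).mat (mat ι p).adjugate (by
    rw [Matrix.det_adjugate]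
    exact pow_ne_zero _ hD)
  let c1 : Fin n → ℂ := fun i => if i ∈ Finset.univ.image ι then (mat ι p).det⁻¹ else
    img ι p i 2 / (mat ι p).det
  have hc1 : ∀ i, c1 i ≠ 0 := by
    intro i
    change (if i ∈ Finset.univ.image ι then (mat ι p).det⁻¹ else
      img ι p i 2 / (mat ι p).det) ≠ 0
    by_cases hi : i ∈ Finset.univ.image ι
    · rw [if_pos hi]
      exact inv_ne_zero hD
    · rw [if_neg hi]
      exact div_ne_zero (hl i hi).2 hD
  have h3 := h2.smul c1 hc1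
  let c2 : Fin n → ℂ := fun i => if i ∈ Finset.univ.image ι then (mat ι p).det⁻¹ else 1
  have hc2 : ∀ i, c2 i ≠ 0 := by
    intro i
    change (if i ∈ Finset.univ.image ι then (mat ι p).det⁻¹ else (1 : ℂ)) ≠ 0
    by_cases hi : i ∈ Finset.univ.image ι
    · rw [if_pos hi]
      exact inv_ne_zero hD
    · rw [if_neg hi]
      exact one_ne_zero
  have hmem : ∀ j, ι j ∈ Finset.univ.image ι := fun j =>
    Finset.mem_image_of_mem ι (Finset.mem_univ j)
  have h4 := HSQ.cremona hι hd hsum hlow hup hP (q := fun i => c2 i • bar ι p i)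
    (q' := fun i => c1 i • (mat ι p).adjugate.mulVec (hat (crm ι p i)))
    (by
      intro j
      change (if ι j ∈ Finset.univ.image ι then (mat ι p).det⁻¹ else (1 : ℂ)) • bar ι p (ι j) = _
      rw [if_pos (hmem j), confS_col, smul_smul, inv_mul_cancel₀ hD, one_smul])
    (by
      intro j
      change (if ι j ∈ Finset.univ.image ι then (mat ι p).det⁻¹ else
        img ι p (ι j) 2 / (mat ι p).det) • (mat ι p).adjugate.mulVec (hat (crm ι p (ι j))) = _
      have e1 : crm ι p (ι j) = p (ι j) := by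
        unfold crm
        rw [if_pos (hmem j)]
      rw [if_pos (hmem j), e1]
      have e2 := confS_col ι p j
      unfold bar at e2
      rw [e2, smul_smul, inv_mul_cancel₀ hD, one_smul])
    (by
      intro l hl'
      obtain ⟨k1, k2⟩ := hl l hl'
      have e0 : c2 l • bar ι p l = bar ι p l := by
        change (if l ∈ Finset.univ.image ι then (mat ι p).det⁻¹ else (1 : ℂ)) • bar ι p l = _
        rw [if_neg hl', one_smul]
      have e1 : hat (crm ι p l) = (img ι p l 2)⁻¹ • img ι p l := by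
        unfold crm
        rw [if_neg hl']
        funext c
        fin_cases c
        · change img ι p l 0 / img ι p l 2 = (img ι p l 2)⁻¹ * img ι p l 0
          rw [div_eq_inv_mul]
        · change img ι p l 1 / img ι p l 2 = (img ι p l 2)⁻¹ * img ι p l 1
          rw [div_eq_inv_mul]
        · change (1 : ℂ) = (img ι p l 2)⁻¹ * img ι p l 2
          rw [inv_mul_cancel₀ k2]
      refine ⟨fun c => ?_, ?_⟩
      · change (c2 l • bar ι p l) c ≠ 0
        rw [e0]
        exact k1 c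
      · change c1 l • (mat ι p).adjugate.mulVec (hat (crm ι p l)) = sg (c2 l • bar ι p l)
        rw [e0, e1, Matrix.mulVec_smul]
        have e3 : (mat ι p).adjugate.mulVec (img ι p l) = (mat ι p).det • sg (bar ι p l) := by
          unfold img
          rw [Matrix.mulVec_mulVec, Matrix.adjugate_mul, Matrix.smul_mulVec, Matrix.one_mulVec]
        change (if l ∈ Finset.univ.image ι then (mat ι p).det⁻¹ else
          img ι p l 2 / (mat ι p).det) • _ = _
        rw [if_neg hl', e3, smul_smul, smul_smul]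
        have e4 : img ι p l 2 / (mat ι p).det * (img ι p l 2)⁻¹ * (mat ι p).det = 1 := by
          field_simp
        rw [e4, one_smul]) h3
  have h5 := h4.mat (mat ι p) hD
  have h6 := h5.smul (fun i => (c2 i * (mat ι p).det)⁻¹)
    (fun i => inv_ne_zero (mul_ne_zero (hc2 i) hD))
  apply S_of_HSQ
  have e : (fun i => hat (p i)) = (fun i => (fun i => (c2 i * (mat ι p).det)⁻¹) i •
      (fun i => (mat ι p).mulVec ((fun i => c2 i • bar ι p i) i)) i) := by
    funext i
    change hat (p i) = (c2 i * (mat ι p).det)⁻¹ • (mat ι p).mulVec (c2 i • bar ι p i)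
    have e3 : (mat ι p).mulVec (bar ι p i) = (mat ι p).det • hat (p i) := by
      unfold bar
      rw [Matrix.mulVec_mulVec, Matrix.mul_adjugate, Matrix.smul_mulVec, Matrix.one_mulVec]
    rw [Matrix.mulVec_smul, e3, smul_smul, smul_smul, mul_assoc,
      inv_mul_cancel₀ (mul_ne_zero (hc2 i) hD), one_smul]
  rw [e]
  exact h6

/-- The conjecture at a configuration of points follows from the conjecture at the transformed
configuration. -/
theorem S.cremona' {n d d' δ : ℕ} {m : Fin n → ℕ} {ι : Fin 3 → Fin n}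
    (hι : Function.Injective ι) (hd : d' + δ = d) (hsum : ∑ j, m (ι j) = d + δ)
    (hlow : ∀ j, δ ≤ m (ι j) + 1) (hup : ∀ j, m (ι j) ≤ d)
    {p : Fin n → Fin 2 → ℂ} (hp : Good ι p) (hinj : Function.Injective p)
    (hinj' : Function.Injective (crm ι p)) (h : S d' (cm m ι δ) (crm ι p)) : S d m p := by
  rcases h with h | ⟨f, e, a, hf, he, ha, hneg⟩
  · have h1 : SQ (Dim d' (cm m ι δ)) (fun _ _ => False) d' (cm m ι δ) (crm ι p) := Or.inl h
    rcases h1.cremona hι hd hsum hlow hup (fun _ _ h => h.elim) hp with h2 | h2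
    · exact Or.inl ((dim_cm hι hd hsum hlow _).1 h2)
    · exact Or.inr h2
  · by_cases hl : ∀ i, cm m ι δ i = 0 → a i = 0
    · have h1 : SQ (fun _ => False)
          (fun e a => Neg d' (cm m ι δ) e a ∧ ∀ i, cm m ι δ i = 0 → a i = 0) d' (cm m ι δ)
          (crm ι p) := Or.inr ⟨f, e, a, hf, he, ha, hneg, hl⟩
      rcases h1.cremona hι hd hsum hlow hup (fun _ _ h => h) hp with h2 | h2
      · exact h2.elim
      · exact Or.inr h2
    · push Not at hl
      obtain ⟨i, hi, hai⟩ := hl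
      have hbot : V d' (cm m ι δ) (crm ι p) = ⊥ := by
        rw [Submodule.eq_bot_iff]
        intro G hG
        by_contra hG0
        obtain ⟨h1, h2⟩ := CRHS_mem_V.1 hG
        exact hai (Strip.light_eff hinj' hf he ha hG0 h1 h2 hneg hi)
      have h1 : SQ (fun N => N = 0) (fun _ _ => False) d' (cm m ι δ) (crm ι p) := by
        left
        rw [hbot, finrank_bot]
      rcases h1.cremona hι hd hsum hlow hup (fun _ _ h => h.elim) hp with h2 | h2
      · left
        have h3 := Strip.low_dim (d := d) (m := m) hinj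
        have h4 : Strip.Pt ℂ d ⊓ Strip.sp (Strip.Iz p m) = V d m p := by
          ext g
          rw [CRHS_mem_V, Submodule.mem_inf, Strip.mem_Pt, Strip.mem_sp, Strip.mem_Iz]
          rfl
        rw [h4, h2] at h3
        rw [h2]
        unfold Dim
        rw [max_eq_left]
        · simp
        · simpa using h3
      · exact Or.inr h2

end Pool.MP_70e04f_ag.Cre

end

/-! ### from `Lib_MP_70e04f_lit.LShgh` -/

section

/-!
# Invariance of the conjecture under quadratic transformations, and degenerate systems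
-/

set_option autoImplicit false

namespace Pool.MP_70e04f_ag.Cre

open MvPolynomial

/-- the product of the differences of the first coordinates -/
noncomputable def disc (n : ℕ) : MvPolynomial (Fin n × Fin 2) ℂ :=
  ∏ i : Fin n, ∏ j ∈ Finset.univ.erase i, (X (i, 0) - X (j, 0))

theorem disc_ne (n : ℕ) : disc n ≠ 0 := by
  unfold disc
  rw [Finset.prod_ne_zero_iff]
  intro i _
  rw [Finset.prod_ne_zero_iff]
  intro j hj
  rw [sub_ne_zero]
  intro h
  have h1 := MvPolynomial.X_injective h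
  rw [Prod.mk.injEq] at h1
  exact (Finset.ne_of_mem_erase hj) h1.1.symm

theorem inj_of_disc {n : ℕ} {p : Fin n → Fin 2 → ℂ}
    (h : MvPolynomial.eval (fun q : Fin n × Fin 2 => p q.1 q.2) (disc n) ≠ 0) :
    Function.Injective p := by
  intro i j hij
  by_contra hne
  apply h
  unfold disc
  rw [map_prod]
  refine Finset.prod_eq_zero (Finset.mem_univ i) ?_
  rw [map_prod]
  refine Finset.prod_eq_zero (Finset.mem_erase.2 ⟨fun h => hne h.symm, Finset.mem_univ j⟩) ?_
  rw [map_sub, eval_X, eval_X]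
  show p i 0 - p j 0 = 0
  rw [hij, sub_self]

/-- Invariance of the conjecture under quadratic transformations. -/
theorem shgh_cremona' {n d d' δ : ℕ} {m : Fin n → ℕ} {ι : Fin 3 → Fin n}
    (hι : Function.Injective ι) (hd : d' + δ = d) (hsum : ∑ j, m (ι j) = d + δ)
    (hpair : ∀ j k, j ≠ k → m (ι j) + m (ι k) ≤ d + 1) (hup : ∀ j, m (ι j) ≤ d)
    (h : Dich.SHGH d' (cm m ι δ)) : Dich.SHGH d m := by
  rw [shgh_iff] at h ⊢
  obtain ⟨g', hg', h'⟩ := h
  obtain ⟨g, hg, h2⟩ := exists_generic ι hι (g' * disc n) (mul_ne_zero hg' (disc_ne n))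
  have hlow : ∀ j, δ ≤ m (ι j) + 1 := by
    intro j
    rw [Fin.sum_univ_three] at hsum
    have h01 := hpair 0 1 (by decide)
    have h02 := hpair 0 2 (by decide)
    have h12 := hpair 1 2 (by decide)
    fin_cases j
    · change δ ≤ m (ι 0) + 1; omega
    · change δ ≤ m (ι 1) + 1; omega
    · change δ ≤ m (ι 2) + 1; omega
  refine ⟨g * disc n, mul_ne_zero hg (disc_ne n), fun p hp => ?_⟩
  rw [map_mul] at hp
  obtain ⟨hgood, hne⟩ := h2 p (left_ne_zero_of_mul hp)
  rw [map_mul] at hne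
  exact S.cremona' hι hd hsum hlow hup hgood (inj_of_disc (right_ne_zero_of_mul hp))
    (inj_of_disc (right_ne_zero_of_mul hne)) (h' _ (left_ne_zero_of_mul hne))

/-- One point, of multiplicity `d + 1`. -/
theorem shgh_one {n d : ℕ} {m : Fin n → ℕ} (i0 : Fin n) (h0 : m i0 = d + 1)
    (h1 : ∀ i, i ≠ i0 → m i = 0) : Dich.SHGH d m := by
  rw [shgh_iff]
  refine ⟨1, one_ne_zero, fun p _ => Or.inl ?_⟩
  have hbot : V d m p = ⊥ := by
    rw [Submodule.eq_bot_iff]
    intro G hG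
    by_contra hG0
    obtain ⟨h2, h3⟩ := CRHS_mem_V.1 hG
    have h4 := Strip.le_deg_of_mem hG0 (h3 i0)
    omega
  rw [hbot, finrank_bot]
  unfold Dim
  have h5 : ∑ i, (m i : ℤ) * ((m i : ℤ) + 1) = ((d : ℤ) + 1) * ((d : ℤ) + 2) := by
    rw [Finset.sum_eq_single i0 (fun i _ hi => by rw [h1 i hi]; simp)
      (fun h => absurd (Finset.mem_univ i0) h), h0]
    push_cast
    ring
  rw [h5, sub_self]
  simp

/-- Simple points. -/
theorem shgh_simple {n d : ℕ} {m : Fin n → ℕ} (h1 : ∀ i, m i ≤ 1) : Dich.SHGH d m := by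
  have h0 : Strip.EXP d (fun a : Fin 0 => m (Fin.elim0 a)) (fun _ _ => (0 : ℂ)) := by
    unfold Strip.EXP
    refine le_max_of_le_right ?_
    have h2 := Strip.two_finrank_Pt (k := ℂ) d
    have h3 : Module.finrank ℂ ↥(Strip.Pt ℂ d ⊓ Strip.sp
        (Strip.Iz (fun _ _ => (0 : ℂ)) (fun a : Fin 0 => m (Fin.elim0 a)))) ≤
        Module.finrank ℂ ↥(Strip.Pt ℂ d) := Submodule.finrank_mono inf_le_left
    have h4 : ((2 * Module.finrank ℂ ↥(Strip.Pt ℂ d) : ℕ) : ℤ) =
        ((d : ℤ) + 1) * ((d : ℤ) + 2) := by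
      rw [h2]; push_cast; rfl
    rw [← h4]
    push_cast
    simp only [Finset.univ_eq_empty, Finset.sum_empty, sub_zero]
    exact_mod_cast Nat.mul_le_mul_left 2 h3
  obtain ⟨p, hp⟩ := h0.extend (fun a : Fin 0 => Fin.elim0 a) (fun a => Fin.elim0 a)
    (fun i _ => h1 i)
  obtain ⟨g, hg, h⟩ := Strip.gexp_of_good d m p hp.good
  exact ⟨g, hg, fun p hp => Or.inl (h p hp)⟩

end Pool.MP_70e04f_ag.Cre

end
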