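import Pool.Agent.Lib_MP_70e04f_m.M08
import Pool.Agent.Lib_MP_70e04f_m.M21
import Pool.Agent.Lib_MP_70e04f_m.M22

/-!
# MP_70e04f_ag, plane linear systems: merged library part M31

Concatenation of smaller files (each in its own section), only to save build time.
-/

namespace Pool.MP_70e04f_ag.Hex
end Pool.MP_70e04f_ag.Hex

namespace Pool.MP_70e04f_ag.Add
end Pool.MP_70e04f_ag.Add

namespace Pool.MP_70e04f_ag.Nine
end Pool.MP_70e04f_ag.Nine

/-! ### from `Lib_MP_70e04f_hal.NodC` -/

section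

/-!
# The dimension of the restricted system (piece NODC)

PAPER PROOF. Let `D = 3 (N - 1)`, `F ∈ Lsys N m (npt s)`; then `natDegree (nod F) ≤ D`
(`natDegree_nod_le`, `mem_range_tri` for `N ≥ 1`; `F = 0` for `N = 0`), `nod F = lin s m * Q` with
`natDegree Q ≤ D - ∑ m t` (or `Q = 0`), and `0 = nv (nod F) = im (z * Q (i))` where
`z = aeval I (lin s m) ≠ 0`. `finrank_nod`: the space of such `Q` is the kernel of the linear
functional `Q ↦ im (z * aeval I Q)` on `Polynomial.degreeLT ℝ (D - ∑ m t + 1)`, of dimension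
`D - ∑ m t + 1`; the functional is not zero, because its values at `1` and at `X` (degree
`≤ D - ∑ m t` by hypothesis) are `im z` and `im (z i) = re z`, and `z ≠ 0`. So the kernel has
dimension `≤ D - ∑ m t` and the image of `Lsys N m` is contained in `lin s m * kernel`
(`Submodule.map` of the kernel by `LinearMap.mulLeft`, `Submodule.finrank_map_le`).
`nod_eq_lin`: if `∑ m t = D` then `Q` is a constant. `nod_eq_zero`: and `c * im z = 0`, so `c = 0`.
-/

namespace Pool.MP_70e04f_ag.Hal

open MvPolynomial Pool.MP_70e04f_ag.Hex Pool.MP_70e04f_ag.Add Pool.MP_70e04f_ag.Nine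

namespace NodC

lemma natDegree_le {τ : Type*} {s : τ → ℝ} {N : ℕ} {m : τ → ℕ} {F : MvPolynomial (Fin 2) ℝ}
    (hF : F ∈ Lsys N m (npt s)) : (nod F).natDegree ≤ 3 * (N - 1) := by
  have hF1 := (Submodule.mem_inf.1 hF).1
  rcases Nat.eq_zero_or_pos N with h0 | h0
  · subst h0
    have hF0 : F = 0 := by
      obtain ⟨v, rfl⟩ := hF1
      rw [toPS, Fintype.linearCombination_apply]
      apply Finset.sum_eq_zero
      intro q _
      have := mem_tri.1 q.2
      omega
    rw [hF0, map_zero, Polynomial.natDegree_zero]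
  · obtain ⟨N', rfl⟩ : ∃ N', N = N' + 1 := ⟨N - 1, by omega⟩
    have h1 := mem_range_tri.1 hF1
    refine (natDegree_nod_le F).trans ?_
    rw [Nat.add_sub_cancel]
    exact Nat.mul_le_mul_left 3 h1

/-- The quotient by `lin s m`. -/
lemma exists_quot {τ : Type*} [Fintype τ] {s : τ → ℝ} (hs : Function.Injective s) {N : ℕ}
    {m : τ → ℕ} {F : MvPolynomial (Fin 2) ℝ} (hF : F ∈ Lsys N m (npt s)) :
    ∃ Q : Polynomial ℝ, nod F = lin s m * Q ∧
      (Q.natDegree + ∑ t, m t ≤ 3 * (N - 1) ∨ Q = 0) := by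
  obtain ⟨Q, hQ⟩ := lin_dvd_nod hs hF
  refine ⟨Q, hQ, ?_⟩
  by_cases h0 : Q = 0
  · exact Or.inr h0
  · left
    have h1 := natDegree_le hF
    rw [hQ, Polynomial.natDegree_mul (lin_monic s m).ne_zero h0, natDegree_lin] at h1
    omega

/-- The condition at the node as a linear functional. -/
noncomputable def phi (z : ℂ) : Polynomial ℝ →ₗ[ℝ] ℝ :=
  Complex.imLm ∘ₗ (LinearMap.mulLeft ℝ z) ∘ₗ (Polynomial.aeval Complex.I).toLinearMap

lemma phi_apply (z : ℂ) (Q : Polynomial ℝ) :
    phi z Q = (z * Polynomial.aeval Complex.I Q).im := rfl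

lemma finrank_lt (n : ℕ) : Module.finrank ℝ ↥(Polynomial.degreeLT ℝ n) = n := by
  rw [(Polynomial.degreeLTEquiv ℝ n).finrank_eq, Module.finrank_fin_fun]

lemma finite_lt (n : ℕ) : Module.Finite ℝ ↥(Polynomial.degreeLT ℝ n) :=
  Module.Finite.equiv (Polynomial.degreeLTEquiv ℝ n).symm

lemma finrank_inf {z : ℂ} (hz : z ≠ 0) {K : ℕ} (hK : 1 ≤ K) :
    Module.finrank ℝ ↥(Polynomial.degreeLT ℝ (K + 1) ⊓ LinearMap.ker (phi z)) ≤ K := by
  have := finite_lt (K + 1)
  have h1 : Polynomial.degreeLT ℝ (K + 1) ⊓ LinearMap.ker (phi z) <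
      Polynomial.degreeLT ℝ (K + 1) := by
    refine lt_of_le_of_ne inf_le_left ?_
    intro h
    have h2 : Polynomial.degreeLT ℝ (K + 1) ≤ LinearMap.ker (phi z) := inf_eq_left.1 h
    have h3 : (1 : Polynomial ℝ) ∈ Polynomial.degreeLT ℝ (K + 1) := by
      rw [Polynomial.mem_degreeLT]
      refine Polynomial.degree_one_le.trans_lt ?_
      exact_mod_cast Nat.succ_pos K
    have h4 : (Polynomial.X : Polynomial ℝ) ∈ Polynomial.degreeLT ℝ (K + 1) := by
      rw [Polynomial.mem_degreeLT]
      refine Polynomial.degree_X_le.trans_lt ?_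
      exact_mod_cast (by omega : 1 < K + 1)
    have h5 : phi z 1 = 0 := h2 h3
    have h6 : phi z Polynomial.X = 0 := h2 h4
    rw [phi_apply, map_one, mul_one] at h5
    rw [phi_apply, Polynomial.aeval_X, Complex.mul_im, Complex.I_re, Complex.I_im] at h6
    apply hz
    apply Complex.ext
    · simpa using h6
    · simpa using h5
  have h2 := Submodule.finrank_lt_finrank_of_lt h1
  rw [finrank_lt] at h2
  omega

end NodC

open NodC

/-- The dimension of the restricted system. -/
theorem finrank_nod {τ : Type*} [Fintype τ] {s : τ → ℝ} (hs : Function.Injective s) {N : ℕ}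
    {m : τ → ℕ} (h : ∑ t, m t + 1 ≤ 3 * (N - 1)) :
    Module.finrank ℝ ↥((Lsys N m (npt s)).map nod.toLinearMap) + ∑ t, m t ≤ 3 * (N - 1) := by
  obtain ⟨K, hK⟩ : ∃ K, 3 * (N - 1) = ∑ t, m t + K := ⟨3 * (N - 1) - ∑ t, m t, by omega⟩
  have hK1 : 1 ≤ K := by omega
  set z := Polynomial.aeval Complex.I (lin s m) with hz
  have hz0 : z ≠ 0 := aeval_lin_ne s m
  have hle : (Lsys N m (npt s)).map nod.toLinearMap ≤
      (Polynomial.degreeLT ℝ (K + 1) ⊓ LinearMap.ker (phi z)).map
        (LinearMap.mulLeft ℝ (lin s m)) := by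
    rintro _ ⟨F, hF, rfl⟩
    obtain ⟨Q, hQ, hQ2⟩ := exists_quot hs hF
    refine ⟨Q, Submodule.mem_inf.2 ⟨?_, ?_⟩, hQ.symm⟩
    · rw [Polynomial.mem_degreeLT]
      rcases hQ2 with h1 | h1
      · refine (Polynomial.degree_le_natDegree).trans_lt ?_
        exact_mod_cast (by omega : Q.natDegree < K + 1)
      · rw [h1, Polynomial.degree_zero]
        exact WithBot.bot_lt_coe _
    · rw [LinearMap.mem_ker, phi_apply, hz, ← map_mul, ← hQ]
      exact nv_nod F
  have := finite_lt (K + 1)
  have hfin : Module.Finite ℝ ↥(Polynomial.degreeLT ℝ (K + 1) ⊓ LinearMap.ker (phi z)) :=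
    Submodule.finiteDimensional_inf_left _ _
  have h1 := Submodule.finrank_mono hle
  have h2 := Submodule.finrank_map_le (LinearMap.mulLeft ℝ (lin s m))
    (Polynomial.degreeLT ℝ (K + 1) ⊓ LinearMap.ker (phi z))
  have h3 := finrank_inf hz0 hK1
  omega

theorem nod_eq_lin {τ : Type*} [Fintype τ] {s : τ → ℝ} (hs : Function.Injective s) {N : ℕ}
    {m : τ → ℕ} (h : ∑ t, m t = 3 * (N - 1)) {F : MvPolynomial (Fin 2) ℝ}
    (hF : F ∈ Lsys N m (npt s)) : ∃ c : ℝ, nod F = Polynomial.C c * lin s m := by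
  obtain ⟨Q, hQ, h1 | h1⟩ := exists_quot hs hF
  · have h2 : Q.natDegree = 0 := by omega
    obtain ⟨c, hc⟩ := Polynomial.natDegree_eq_zero.1 h2
    exact ⟨c, by rw [hQ, ← hc, mul_comm]⟩
  · exact ⟨0, by rw [hQ, h1, mul_zero, map_zero, zero_mul]⟩

theorem nod_eq_zero {τ : Type*} [Fintype τ] {s : τ → ℝ} (hs : Function.Injective s) {N : ℕ}
    {m : τ → ℕ} (h : ∑ t, m t = 3 * (N - 1)) (hv : nv (lin s m) ≠ 0)
    {F : MvPolynomial (Fin 2) ℝ} (hF : F ∈ Lsys N m (npt s)) : nod F = 0 := by
  obtain ⟨c, hc⟩ := nod_eq_lin hs h hF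
  have h1 := nv_nod F
  rw [hc, nv, map_mul, Polynomial.aeval_C, Complex.coe_algebraMap, Complex.im_ofReal_mul] at h1
  rcases mul_eq_zero.1 h1 with h2 | h2
  · rw [hc, h2, map_zero, zero_mul]
  · exact absurd h2 hv

end Pool.MP_70e04f_ag.Hal

end

/-! ### from `Lib_MP_70e04f_hal.Flat1` -/

section

/-!
# Filling rows of constant length exactly (piece FLAT1)

HOW TO: this is `mix_fill` of `Lib_MP_70e04f_hex/Fill1.lean` with weaker hypotheses on the slopes
(the rows may have constant length, if they are long). `StageK`, `StageK.total`, `StageK.enough`,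
`StageK.stepB` are used unchanged. The only new ingredient is a better version of `StageK.stepA`:

`stepA2`: if `lam q ≤ j` then `m * L ≤ m * (r (j + 1) + D + 2) - r (j + 1)`, where
`L = ∑ i < n, vp (lam i) (R i - 1) (c i) j` and
`D = ∑ i ∈ (range q).filter (R i = j + 1), (j + 1 - c i)`. Proof: let `A` be the set of `i < q` with
`vp (lam i) (R i - 1) (c i) (j + 1) ≠ 0` and `B` the set of `i < q` with `R i = j + 1`,
`c i < j + 1`; `card B ≤ 2` (`StageK.two`). For all `i < n`
`vp .. j + (1 if i ∈ A) ≤ vp .. (j + 1) + (j + 1 - c i if i < q and R i = j + 1) + (1 if i ∈ B)`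
(unfold `vp`, `omega`; for `i ≥ q` both sides are `0`), so `L + card A ≤ r (j + 1) + D + 2` (as in
`stepA`), and `r (j + 1) ≤ m * card A` because `vp (lam i) b c s ≤ lam i ≤ m`.

The proof of `StageK.step` then changes only in these places:
* `j = β`: use the old `stepA` (`D = 0`, `r (β + 1) = 0`), so `r j - L ≥ r β ≥ 0`;
* `2 m ≤ j < β`: `m (r j - L) ≥ m (r j - r (j + 1)) + r (j + 1) - m D - 2 m ≥ 0` by `hslope` and
  `D ≤ m`, so `r j - L ≥ 0` (`0 < m`);
* `j < 2 m`, `lam q ≤ j`: `m (r j - L) ≥ m ((7 + c0) m + 3) - m D - 2 m ≥ m ((6 + c0) m + 1)`, so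
  `(6 + c0) m + 1 ≤ r j - L` (this is `hA7` of the old proof);
* `hmono` is now a hypothesis.
-/

namespace Pool.MP_70e04f_ag.Hal

open Pool.MP_70e04f_ag.Hex

section
variable (c0 : ℕ) (lam : ℕ → ℕ) (n m β : ℕ) (r : ℕ → ℤ) (hlam : Antitone lam) (hm : ∀ i, lam i ≤ m)
  (hβ : 2 * m ≤ β) (htot : 2 * ∑ s ∈ Finset.range (β + 2), r s =
    ∑ i ∈ Finset.range n, (lam i : ℤ) * (lam i + 1))
include hlam hm hβ htot

set_option linter.unusedSectionVars false

/-- The load of the row `j` when the remaining multiplicities are at most `j`, better version. -/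
lemma flat1_stepA2 (j q : ℕ) (R c : ℕ → ℕ) (h : StageK c0 lam n m β r j q R c)
    (hj : lam q ≤ j) :
    (m : ℤ) * ∑ i ∈ Finset.range n, (vp (lam i) (R i - 1) (c i) j : ℤ) ≤
    m * (r (j + 1) + ((∑ i ∈ (Finset.range q).filter (fun i => R i = j + 1), (j + 1 - c i) : ℕ) : ℤ)
      + 2) - r (j + 1) := by
  classical
  have h1 : ((∑ i ∈ (Finset.range q).filter (fun i => R i = j + 1), (j + 1 - c i) : ℕ) : ℤ) =
      ∑ i ∈ Finset.range n, if i < q ∧ R i = j + 1 then ((j + 1 - c i : ℕ) : ℤ) else 0 := by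
    rw [← Finset.sum_filter]
    push_cast
    refine Finset.sum_congr ?_ fun _ _ => rfl
    ext i
    have := h.hq
    rw [Finset.mem_filter, Finset.mem_filter, Finset.mem_range, Finset.mem_range]
    constructor
    · rintro ⟨h2, h3⟩
      exact ⟨by omega, h2, h3⟩
    · rintro ⟨_, h2, h3⟩
      exact ⟨h2, h3⟩
  have hB : ∑ i ∈ Finset.range n, (if i < q ∧ R i = j + 1 ∧ c i < j + 1 then (1 : ℤ) else 0) ≤ 2 := by
    rw [← Finset.sum_filter, Finset.sum_const, nsmul_one]
    have h2 := h.two (j + 1) (by omega)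
    have h3 : ((Finset.range n).filter (fun i => i < q ∧ R i = j + 1 ∧ c i < j + 1)).card ≤ 2 := by
      refine (Finset.card_le_card ?_).trans h2
      intro i hi
      rw [Finset.mem_filter, Finset.mem_range] at hi
      rw [Finset.mem_filter, Finset.mem_range]
      exact ⟨hi.2.1, hi.2.2⟩
    exact_mod_cast h3
  have hsum : ∑ i ∈ Finset.range n, (vp (lam i) (R i - 1) (c i) j : ℤ) +
      ∑ i ∈ Finset.range n, (if vp (lam i) (R i - 1) (c i) (j + 1) = 0 then (0 : ℤ) else 1) ≤
      ∑ i ∈ Finset.range n, (vp (lam i) (R i - 1) (c i) (j + 1) : ℤ) +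
      ∑ i ∈ Finset.range n, (if i < q ∧ R i = j + 1 then ((j + 1 - c i : ℕ) : ℤ) else 0) +
      ∑ i ∈ Finset.range n, (if i < q ∧ R i = j + 1 ∧ c i < j + 1 then (1 : ℤ) else 0) := by
    rw [← Finset.sum_add_distrib, ← Finset.sum_add_distrib, ← Finset.sum_add_distrib]
    apply Finset.sum_le_sum
    intro i _
    rcases Nat.lt_or_ge i q with h4 | h4
    · obtain ⟨g1, g2, g3, g4⟩ := h.row i h4
      unfold vp
      split_ifs <;> omega
    · obtain ⟨g1, g2⟩ := h.un i h4
      have g3 := hlam h4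
      rw [g1, g2]
      unfold vp
      split_ifs <;> omega
  have hA : r (j + 1) ≤ m * ∑ i ∈ Finset.range n,
      (if vp (lam i) (R i - 1) (c i) (j + 1) = 0 then (0 : ℤ) else 1) := by
    rw [← h.exact (j + 1) (by omega), Finset.mul_sum]
    apply Finset.sum_le_sum
    intro i _
    have h5 := hm i
    have h6 : vp (lam i) (R i - 1) (c i) (j + 1) ≤ m := by
      rcases Nat.lt_or_ge i q with h4 | h4
      · obtain ⟨g1, g2, g3, g4⟩ := h.row i h4
        unfold vp
        split_ifs <;> omega
      · obtain ⟨g1, g2⟩ := h.un i h4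
        rw [g1, g2]
        unfold vp
        split_ifs <;> omega
    split_ifs with h7
    · rw [h7]; simp
    · rw [mul_one]; exact_mod_cast h6
  rw [← h1, h.exact (j + 1) (by omega)] at hsum
  set L := ∑ i ∈ Finset.range n, (vp (lam i) (R i - 1) (c i) j : ℤ)
  set A := ∑ i ∈ Finset.range n, (if vp (lam i) (R i - 1) (c i) (j + 1) = 0 then (0 : ℤ) else 1)
  set D := ((∑ i ∈ (Finset.range q).filter (fun i => R i = j + 1), (j + 1 - c i) : ℕ) : ℤ)
  have h8 : L ≤ r (j + 1) + D + 2 - A := by linarith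
  have h9 : (m : ℤ) * L ≤ m * (r (j + 1) + D + 2 - A) :=
    mul_le_mul_of_nonneg_left h8 (by positivity)
  have h10 : (m : ℤ) * (r (j + 1) + D + 2 - A) = m * (r (j + 1) + D + 2) - m * A := by ring
  linarith

/-- Filling one more row. -/
lemma flat1_step (hm0 : 0 < m) (j q : ℕ) (R c : ℕ → ℕ) (h : StageK c0 lam n m β r j q R c)
    (hj : 1 ≤ j) (hjβ : j ≤ β) (hr0 : r (β + 1) = 0) (hrβ : 0 ≤ r β)
    (hmono' : ∀ s, s < β → r (s + 1) ≤ r s)
    (hslope : ∀ s, s < β → (m : ℤ) * (m + 2) ≤ m * (r s - r (s + 1)) + r (s + 1))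
    (hslope7 : ∀ s, s < 2 * m →
      (m : ℤ) * ((7 + c0) * m + 3) ≤ m * (r s - r (s + 1)) + r (s + 1))
    (hconc : ∀ t, t + 1 < m → r t + r (t + 2) ≤ 2 * r (t + 1) + c0) :
    ∃ q' R' c', StageK c0 lam n m β r (j - 1) q' R' c' := by
  classical
  set L : ℤ := ∑ i ∈ Finset.range n, (vp (lam i) (R i - 1) (c i) j : ℤ) with hL
  -- the deficiency of the previous row
  have hD := h.defi (j + 1) (by omega)
  set D := ∑ i ∈ (Finset.range q).filter (fun i => R i = j + 1), (j + 1 - c i) with hDdef
  have hDβ : j = β → D = 0 := by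
    intro h1
    rw [hDdef, Finset.sum_filter]
    apply Finset.sum_eq_zero
    intro i hi
    rw [Finset.mem_range] at hi
    rw [if_neg]
    have := (h.row i hi).2.1
    omega
  have hDm : (D : ℤ) ≤ m := by
    have : D ≤ m := hD.trans (Nat.min_le_right _ _)
    exact_mod_cast this
  have hmz : (0 : ℤ) < m := by exact_mod_cast hm0
  have hmD : (m : ℤ) * D ≤ m * m := mul_le_mul_of_nonneg_left hDm hmz.le
  -- the case of small multiplicities
  have hA2 : lam q ≤ j → (m : ℤ) * (r j - r (j + 1)) + r (j + 1) - m * m - 2 * m ≤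
      m * (r j - L) := by
    intro h1
    have h2 := flat1_stepA2 c0 lam n m β r hlam hm hβ htot j q R c h h1
    rw [← hL, ← hDdef] at h2
    linarith
  have hA7 : j < 2 * m → lam q ≤ j → (6 + (c0 : ℤ)) * m + 1 ≤ r j - L := by
    intro h1 h2
    have h3 := hA2 h2
    have h4 := hslope7 j h1
    have h5 : (m : ℤ) * ((6 + (c0 : ℤ)) * m + 1) ≤ m * (r j - L) := by
      have h6 : (m : ℤ) * ((6 + (c0 : ℤ)) * m + 1) =
          (m : ℤ) * ((7 + c0) * m + 3) - m * m - 2 * m := by ring
      linarith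
    exact le_of_mul_le_mul_left h5 hmz
  have hc0m : 0 ≤ (c0 : ℤ) * m := by positivity
  have hc6 : 6 * (m : ℤ) ≤ (6 + (c0 : ℤ)) * m := by rw [add_mul]; omega
  have hg0 : 0 ≤ r j - L := by
    rcases Nat.lt_or_ge j (2 * m) with h1 | h1
    · rcases Nat.lt_or_ge j (lam q) with h2 | h2
      · have := h.stepB c0 lam n m β r hlam hm hβ htot j q R c hconc hj h2
        omega
      · have := hA7 h1 h2
        nlinarith
    · have h2 : lam q ≤ j := (hm q).trans (by omega)
      rcases Nat.eq_or_lt_of_le hjβ with h3 | h3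
      · have h4 := h.stepA c0 lam n m β r hlam hm hβ htot j q R c h2
        rw [← hL, ← hDdef, hDβ h3, h3, hr0] at h4
        rw [h3]
        push_cast at h4
        omega
      · have h4 := hslope j h3
        have h5 := hA2 h2
        have h6 : (m : ℤ) * 0 ≤ m * (r j - L) := by
          rw [mul_zero]
          have h7 : (m : ℤ) * (m + 2) = m * m + 2 * m := by ring
          linarith
        exact le_of_mul_le_mul_left h6 hmz
  obtain ⟨g, hg⟩ : ∃ g : ℕ, (g : ℤ) = r j - L := ⟨(r j - L).toNat, Int.toNat_of_nonneg hg0⟩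
  have hmono : ∀ s, s < j → r j ≤ r s := by
    intro s hs
    have key : ∀ x, s + x ≤ β → r (s + x) ≤ r s := by
      intro x
      induction x with
      | zero => intro _; exact le_rfl
      | succ x ih =>
        intro hx
        have h1 := ih (by omega)
        have h2 := hmono' (s + x) (by omega)
        have e : s + (x + 1) = s + x + 1 := rfl
        rw [e]
        omega
    have := key (j - s) (by omega)
    rwa [show s + (j - s) = j by omega] at this
  have henough := h.enough c0 lam n m β r hlam hm hβ htot j q R c hj hjβ hmono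
  rw [← hL, ← hg] at henough
  have henough' : g ≤ ∑ i ∈ Finset.Ico q n, min j (lam i) := by exact_mod_cast henough
  have hf : 2 * m ≤ j ∨ min j (lam q) ≤ 2 * g ∨ g = 0 := by
    rcases Nat.lt_or_ge j (2 * m) with h1 | h1
    · right; left
      rcases Nat.lt_or_ge j (lam q) with h2 | h2
      · have := h.stepB c0 lam n m β r hlam hm hβ htot j q R c hconc hj h2
        omega
      · have := hA7 h1 h2
        have := hm q
        omega
    · exact Or.inl h1
  obtain ⟨q', d, g1, g2, g3, g4, g5, g6, g7⟩ := row_fill (fun i => min j (lam i))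
    (fun a b hab => by have := hlam hab; simp only; omega) q n h.hq g henough' (2 * m ≤ j) hf
  set R' : ℕ → ℕ := fun i => if q ≤ i ∧ i < q' then j else R i with hR'
  set c' : ℕ → ℕ := fun i => if q ≤ i ∧ i < q' then j - d i else c i with hc'
  have hRold : ∀ i, i < q → R' i = R i ∧ c' i = c i := by
    intro i hi
    simp only [hR', hc']
    rw [if_neg (by omega), if_neg (by omega)]
    exact ⟨rfl, rfl⟩
  have hRnew : ∀ i, q ≤ i → i < q' → R' i = j ∧ c' i = j - d i := by
    intro i hi hi'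
    simp only [hR', hc']
    rw [if_pos ⟨hi, hi'⟩, if_pos ⟨hi, hi'⟩]
    exact ⟨rfl, rfl⟩
  have hRrest : ∀ i, q' ≤ i → R' i = 1 ∧ c' i = 0 := by
    intro i hi
    simp only [hR', hc']
    rw [if_neg (by omega), if_neg (by omega)]
    exact h.un i (by omega)
  refine ⟨q', R', c', ?_, hRrest, ?_, ?_, ?_, ?_, ?_, ?_⟩
  · exact g2
  · intro i hi
    rcases Nat.lt_or_ge i q with h1 | h1
    · rw [(hRold i h1).1, (hRold i h1).2]
      have := h.row i h1
      omega
    · rw [(hRnew i h1 hi).1, (hRnew i h1 hi).2]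
      have := g3 i
      omega
  · intro i hi
    rcases Nat.lt_or_ge i q with h1 | h1
    · rw [(hRold i h1).1, (hRold i h1).2]
      exact h.half i h1
    · rw [(hRnew i h1 hi).1, (hRnew i h1 hi).2]
      have h3 := g3 i
      have h4 := hm i
      rcases g4 with g4 | g4
      · right; omega
      · left
        have := g4 i
        omega
  · -- at most two incomplete points
    intro B hB
    rcases Nat.eq_or_lt_of_le (show j ≤ B by omega) with h1 | h1
    · subst h1
      refine (Finset.card_le_card ?_).trans g6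
      intro i hi
      rw [Finset.mem_filter, Finset.mem_range] at hi
      rw [Finset.mem_filter, Finset.mem_Ico]
      have h2 : q ≤ i := by
        by_contra hcon
        have h3 := (hRold i (by omega)).1
        have h4 := (h.row i (by omega)).1
        omega
      have h3 := (hRnew i h2 hi.1).2
      exact ⟨⟨h2, hi.1⟩, by omega⟩
    · refine (Finset.card_le_card ?_).trans (h.two B h1)
      intro i hi
      rw [Finset.mem_filter, Finset.mem_range] at hi
      rw [Finset.mem_filter, Finset.mem_range]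
      have h2 : i < q := by
        by_contra hcon
        have h3 := (hRnew i (by omega) hi.1).1
        omega
      rw [(hRold i h2).1, (hRold i h2).2] at hi
      exact ⟨h2, hi.2⟩
  · -- the deficiencies
    intro B hB
    rcases Nat.eq_or_lt_of_le (show j ≤ B by omega) with h1 | h1
    · subst h1
      have e1 : (Finset.range q').filter (fun i => R' i = j) = Finset.Ico q q' := by
        ext i
        rw [Finset.mem_filter, Finset.mem_range, Finset.mem_Ico]
        constructor
        · rintro ⟨h2, h3⟩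
          refine ⟨?_, h2⟩
          by_contra hcon
          have h4 := (hRold i (by omega)).1
          have h5 := (h.row i (by omega)).1
          omega
        · rintro ⟨h2, h3⟩
          exact ⟨h3, (hRnew i h2 h3).1⟩
      rw [e1]
      have e2 : ∑ i ∈ Finset.Ico q q', (j - c' i) = ∑ i ∈ Finset.Ico q q', d i := by
        refine Finset.sum_congr rfl fun i hi => ?_
        rw [Finset.mem_Ico] at hi
        rw [(hRnew i hi.1 hi.2).2]
        have := g3 i
        omega
      rw [e2]
      refine g7.trans ?_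
      have := hm q
      omega
    · have e1 : (Finset.range q').filter (fun i => R' i = B) =
          (Finset.range q).filter (fun i => R i = B) := by
        ext i
        rw [Finset.mem_filter, Finset.mem_filter, Finset.mem_range, Finset.mem_range]
        constructor
        · rintro ⟨h2, h3⟩
          have h4 : i < q := by
            by_contra hcon
            have := (hRnew i (by omega) h2).1
            omega
          rw [(hRold i h4).1] at h3
          exact ⟨h4, h3⟩
        · rintro ⟨h2, h3⟩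
          refine ⟨by omega, ?_⟩
          rw [(hRold i h2).1]
          exact h3
      rw [e1]
      refine le_trans (le_of_eq ?_) (h.defi B h1)
      refine Finset.sum_congr rfl fun i hi => ?_
      rw [Finset.mem_filter, Finset.mem_range] at hi
      rw [(hRold i hi.1).2]
  · -- exactness
    intro s hs
    rcases Nat.eq_or_lt_of_le (show j ≤ s by omega) with h1 | h1
    · subst h1
      have e1 : ∑ i ∈ Finset.range n, (vp (lam i) (R' i - 1) (c' i) j : ℤ) = L + g := by
        have e2 : (g : ℤ) = ∑ i ∈ Finset.range n,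
            if q ≤ i ∧ i < q' then ((min j (lam i) - d i : ℕ) : ℤ) else 0 := by
          rw [← g5, ← Finset.sum_filter]
          push_cast
          refine Finset.sum_congr ?_ fun _ _ => rfl
          ext i
          rw [Finset.mem_filter, Finset.mem_Ico, Finset.mem_range]
          omega
        rw [e2, hL, ← Finset.sum_add_distrib]
        refine Finset.sum_congr rfl fun i _ => ?_
        rcases Nat.lt_or_ge i q with h2 | h2
        · rw [(hRold i h2).1, (hRold i h2).2, if_neg (by omega), add_zero]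
        · rcases Nat.lt_or_ge i q' with h3 | h3
          · rw [(hRnew i h2 h3).1, (hRnew i h2 h3).2, if_pos ⟨h2, h3⟩, (h.un i h2).1,
              (h.un i h2).2]
            have h4 := g3 i
            unfold vp
            split_ifs <;> omega
          · rw [(hRrest i h3).1, (hRrest i h3).2, if_neg (by omega), add_zero, (h.un i h2).1,
              (h.un i h2).2]
      rw [e1]
      linarith
    · rw [← h.exact s h1]
      refine Finset.sum_congr rfl fun i _ => ?_
      rcases Nat.lt_or_ge i q with h2 | h2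
      · rw [(hRold i h2).1, (hRold i h2).2]
      · rcases Nat.lt_or_ge i q' with h3 | h3
        · rw [(hRnew i h2 h3).1, (hRnew i h2 h3).2, (h.un i h2).1, (h.un i h2).2]
          unfold vp
          split_ifs <;> omega
        · rw [(hRrest i h3).1, (hRrest i h3).2, (h.un i h2).1, (h.un i h2).2]
  · -- the crossings
    intro t ht htm hcr
    rcases Nat.lt_or_ge j (t + lam q) with h1 | h1
    · refine (h.cross t ht htm h1).trans (Finset.card_le_card ?_)
      intro i hi
      rw [Finset.mem_filter, Finset.mem_range] at hi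
      rw [Finset.mem_filter, Finset.mem_range, (hRold i hi.1).1]
      exact ⟨by omega, hi.2⟩
    · have h2 : lam q' ≤ lam q := hlam g1
      have h3 : lam q' = lam q := by omega
      have h4 : j = t + lam q := by omega
      have h5 : lam q ≤ m := hm q
      have h6 := hA7 (by omega) (by omega)
      rw [← hg] at h6
      have h7 : ∀ i ∈ Finset.Ico q q', lam i = lam q := by
        intro i hi
        rw [Finset.mem_Ico] at hi
        have := hlam hi.1
        have := hlam hi.2.le
        omega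
      have h8 : g ≤ (q' - q) * m := by
        rw [← g5]
        have h9 : ∀ i ∈ Finset.Ico q q', min j (lam i) - d i ≤ m := by
          intro i _
          have := hm i
          omega
        refine (Finset.sum_le_sum h9).trans ?_
        rw [Finset.sum_const, Nat.card_Ico, smul_eq_mul]
      have h9 : 7 + c0 ≤ q' - q := by
        by_contra hcon
        have h10 : (q' - q) * m ≤ (6 + c0) * m := Nat.mul_le_mul_right m (by omega)
        have h11 : ((g : ℕ) : ℤ) ≤ (((6 + c0) * m : ℕ) : ℤ) := by exact_mod_cast h8.trans h10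
        push_cast at h11
        linarith
      have h10 : Finset.Ico q q' ⊆ (Finset.range q').filter (fun i => R' i = lam i + t) := by
        intro i hi
        have h11 := h7 i hi
        rw [Finset.mem_Ico] at hi
        rw [Finset.mem_filter, Finset.mem_range, (hRnew i hi.1 hi.2).1, h11]
        exact ⟨hi.2, by omega⟩
      have h11 := Finset.card_le_card h10
      rw [Nat.card_Ico] at h11
      omega

end

/-- The exact filling of a profile by points of arbitrary multiplicities, flat version. -/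
theorem mix_fill_flat (c0 : ℕ) (lam : ℕ → ℕ) (n m β : ℕ) (r : ℕ → ℤ) (hlam : Antitone lam)
    (hm0 : 0 < m) (hm : ∀ i, lam i ≤ m) (hβ : 2 * m ≤ β)
    (htot : 2 * ∑ s ∈ Finset.range (β + 2), r s =
      ∑ i ∈ Finset.range n, (lam i : ℤ) * (lam i + 1))
    (hr : ∀ s, β < s → r s = 0) (hrβ : 0 ≤ r β) (hmono : ∀ s, s < β → r (s + 1) ≤ r s)
    (hslope : ∀ s, s < β → (m : ℤ) * (m + 2) ≤ m * (r s - r (s + 1)) + r (s + 1))
    (hslope7 : ∀ s, s < 2 * m →
      (m : ℤ) * ((7 + c0) * m + 3) ≤ m * (r s - r (s + 1)) + r (s + 1))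
    (hconc : ∀ t, t + 1 < m → r t + r (t + 2) ≤ 2 * r (t + 1) + c0) :
    ∃ b c : ℕ → ℕ, (∀ i, c i ≤ b i + 1) ∧ (∀ i, b i ≤ β) ∧
      ∀ s, ∑ i ∈ Finset.range n, (vp (lam i) (b i) (c i) s : ℤ) = r s := by
  have key : ∀ x ≤ β, ∃ q R c, StageK c0 lam n m β r (β - x) q R c := by
    intro x
    induction x with
    | zero =>
      intro _
      refine ⟨0, fun _ => 1, fun _ => 0, Nat.zero_le n, fun _ _ => ⟨rfl, rfl⟩,
        fun i hi => absurd hi (Nat.not_lt_zero i), fun i hi => absurd hi (Nat.not_lt_zero i),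
        fun B _ => by simp, fun B _ => by simp, ?_, ?_⟩
      · intro s hs
        rw [hr s (by omega)]
        apply Finset.sum_eq_zero
        intro i _
        have := hm i
        unfold vp
        split_ifs <;> omega
      · intro t _ h1 h2
        have := hm 0
        omega
    | succ x ih =>
      intro hx
      obtain ⟨q, R, c, h⟩ := ih (by omega)
      obtain ⟨q', R', c', h'⟩ := flat1_step c0 lam n m β r hlam hm hβ htot hm0 (β - x) q R c h
        (by omega) (by omega) (hr (β + 1) (by omega)) hrβ hmono hslope hslope7 hconc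
      refine ⟨q', R', c', ?_⟩
      rwa [show β - (x + 1) = β - x - 1 by omega]
  obtain ⟨q, R, c, h⟩ := key β le_rfl
  rw [Nat.sub_self] at h
  refine ⟨fun i => R i - 1, c, ?_, ?_, ?_⟩
  · intro i
    rcases Nat.lt_or_ge i q with h1 | h1
    · have := h.row i h1
      simp only
      omega
    · rw [(h.un i h1).2]; omega
  · intro i
    rcases Nat.lt_or_ge i q with h1 | h1
    · have := h.row i h1
      simp only
      omega
    · simp only
      rw [(h.un i h1).1]; omega
  · intro s
    rcases Nat.eq_zero_or_pos s with h0 | h0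
    · subst h0
      have h1 := h.total c0 lam n m β r hlam hm hβ htot 0 q R c
      rw [show β + 2 = (β + 1) + 1 from rfl, Finset.sum_range_succ', Finset.sum_range_succ' r] at h1
      have h2 : ∑ s ∈ Finset.range (β + 1), ∑ i ∈ Finset.range n,
          (vp (lam i) (R i - 1) (c i) (s + 1) : ℤ) = ∑ s ∈ Finset.range (β + 1), r (s + 1) :=
        Finset.sum_congr rfl fun s _ => h.exact (s + 1) (by omega)
      linarith
    · exact h.exact s h0

end Pool.MP_70e04f_ag.Hal

end

/-! ### from `Lib_MP_70e04f_hal.Flat2` -/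

section

/-!
# Filling rows of constant length (piece FLAT2)

HOW TO: compare `core_fill` and `main_fill` in `Lib_MP_70e04f_hex/Fill.lean` (sorting with
`exists_sorted`). Let `T = ∑ j ∈ range (β + 2), r0 j`.

`core_flat` (exact): if `∑ i, mm i * (mm i + 1) = 2 * ∑ j ∈ range (β + 2), r j` for a row function
`r` with the hypotheses of `mix_fill_flat` for `c0 = 1`, then there are `b c` with
`∑ i, vp (mm i) (b i) (c i) j = r j` (transport `mix_fill_flat` from the sorted `lam`).

Few points, `∑ i, mm i * (mm i + 1) ≤ 2 * T`: append `x = T - (∑ i, mm i * (mm i + 1)) / 2` points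
of multiplicity `1` (`Fin.append`), apply `core_flat` with `r = r0`, forget the new points.

Many points: let `x = (∑ i, mm i * (mm i + 1)) / 2 - T` and
`e j = if j < 2 * m then x / (2 * m) + (if j < x % (2 * m) then 1 else 0) else 0`; then
`∑ j < 2 m, e j = x`, `e` is antitone and `e j + e (j + 2) ≤ 2 * e (j + 1) + 1` for `j + 1 < m`. Apply
`core_flat` to ALL points with `r = r0 + e`: the hypotheses `hslope`, `hslope7` are preserved, because
`m * (e j - e (j + 1)) + e (j + 1) ≥ 0`. So `r0 j ≤ ∑ i, vp (mm i) (b i) (c i) j`.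
-/

namespace Pool.MP_70e04f_ag.Hal

open Pool.MP_70e04f_ag.Hex

/-- The exact filling, unsorted version. -/
theorem core_flat {n m β : ℕ} (mm : Fin n → ℕ) (r : ℕ → ℕ) (hm0 : 0 < m) (hmm : ∀ i, mm i ≤ m)
    (hβ : 2 * m ≤ β) (hz : ∀ j, β < j → r j = 0) (hmono : ∀ j, r (j + 1) ≤ r j)
    (hslope : ∀ j, j < β → m * (m + 2) + m * r (j + 1) ≤ m * r j + r (j + 1))
    (hslope7 : ∀ j, j < 2 * m → m * (8 * m + 3) + m * r (j + 1) ≤ m * r j + r (j + 1))
    (hconc : ∀ j, j + 1 < m → r j + r (j + 2) ≤ 2 * r (j + 1) + 1)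
    (htot : ∑ i, mm i * (mm i + 1) = 2 * ∑ j ∈ Finset.range (β + 2), r j) :
    ∃ b c : Fin n → ℕ, (∀ i, c i ≤ b i + 1) ∧ (∀ i, b i ≤ β) ∧
      ∀ j, ∑ i, vp (mm i) (b i) (c i) j = r j := by
  classical
  obtain ⟨lam, σ, hanti, hlam, hlam0⟩ := exists_sorted mm
  have hlm : ∀ i, lam i ≤ m := by
    intro i
    rcases Nat.lt_or_ge i n with h | h
    · have := hlam ⟨i, h⟩
      simp only at this
      rw [this]
      exact hmm _
    · rw [hlam0 i h]; exact Nat.zero_le _
  have hsum : ∑ i ∈ Finset.range n, (lam i : ℤ) * (lam i + 1) =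
      ((∑ i, mm i * (mm i + 1) : ℕ) : ℤ) := by
    rw [Finset.sum_range, ← Equiv.sum_comp σ (fun i => mm i * (mm i + 1))]
    push_cast
    refine Finset.sum_congr rfl fun i _ => ?_
    rw [hlam i]
  obtain ⟨b, c, g1, g2, g3⟩ := mix_fill_flat 1 lam n m β (fun j => (r j : ℤ)) hanti hm0 hlm hβ
    (by
      rw [hsum, htot]
      push_cast
      rfl)
    (fun s hs => by
      rw [hz s hs]
      rfl)
    (by exact Int.natCast_nonneg _)
    (fun s _ => by
      exact_mod_cast hmono s)
    (fun s hs => by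
      have h1 := hslope s hs
      have h2 : ((m * (m + 2) + m * r (s + 1) : ℕ) : ℤ) ≤ ((m * r s + r (s + 1) : ℕ) : ℤ) := by
        exact_mod_cast h1
      push_cast at h2
      linarith)
    (fun s hs => by
      have h1 := hslope7 s hs
      have h2 : ((m * (8 * m + 3) + m * r (s + 1) : ℕ) : ℤ) ≤
          ((m * r s + r (s + 1) : ℕ) : ℤ) := by
        exact_mod_cast h1
      push_cast at h2
      push_cast
      linarith)
    (fun s hs => by
      have h1 := hconc s hs
      push_cast
      omega)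
  refine ⟨fun i => b (σ.symm i), fun i => c (σ.symm i), fun i => g1 _, fun i => g2 _, ?_⟩
  intro j
  have h1 := g3 j
  have h2 : ∑ i, vp (mm i) (b (σ.symm i)) (c (σ.symm i)) j =
      ∑ i : Fin n, vp (lam i) (b i) (c i) j := by
    rw [← Equiv.sum_comp σ (fun i => vp (mm i) (b (σ.symm i)) (c (σ.symm i)) j)]
    refine Finset.sum_congr rfl fun i _ => ?_
    rw [Equiv.symm_apply_apply, hlam i]
  rw [Finset.sum_range] at h1
  beta_reduce
  rw [h2]
  exact_mod_cast h1

/-- the excess -/
private def exc (m x j : ℕ) : ℕ :=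
  if j < 2 * m then x / (2 * m) + (if j < x % (2 * m) then 1 else 0) else 0

private lemma exc_anti (m x j : ℕ) : exc m x (j + 1) ≤ exc m x j := by
  unfold exc
  generalize x / (2 * m) = q
  generalize x % (2 * m) = R
  split_ifs <;> omega

private lemma exc_zero (m x j : ℕ) (h : 2 * m ≤ j) : exc m x j = 0 := by
  unfold exc
  rw [if_neg (by omega)]

private lemma exc_conc (m x j : ℕ) (h : j + 1 < m) :
    exc m x j + exc m x (j + 2) ≤ 2 * exc m x (j + 1) + 1 := by
  unfold exc
  generalize x / (2 * m) = q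
  generalize x % (2 * m) = R
  rw [if_pos (show j < 2 * m by omega), if_pos (show j + 2 < 2 * m by omega),
    if_pos (show j + 1 < 2 * m by omega)]
  split_ifs <;> omega

private lemma exc_sum (m x B : ℕ) (hm : 0 < m) (hB : 2 * m ≤ B) :
    ∑ j ∈ Finset.range B, exc m x j = x := by
  have h1 : ∑ j ∈ Finset.range B, exc m x j = ∑ j ∈ Finset.range (2 * m), exc m x j := by
    symm
    apply Finset.sum_subset (Finset.range_subset_range.2 hB)
    intro j _ hj
    rw [Finset.mem_range, not_lt] at hj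
    exact exc_zero m x j hj
  rw [h1]
  have h2 : ∑ j ∈ Finset.range (2 * m), exc m x j =
      ∑ j ∈ Finset.range (2 * m), (x / (2 * m) + (if j < x % (2 * m) then 1 else 0)) := by
    refine Finset.sum_congr rfl fun j hj => ?_
    rw [Finset.mem_range] at hj
    unfold exc
    rw [if_pos hj]
  have hlt : x % (2 * m) < 2 * m := Nat.mod_lt _ (by omega)
  rw [h2, Finset.sum_add_distrib, Finset.sum_const, Finset.card_range, smul_eq_mul,
    ← Finset.card_filter]
  have h3 : (Finset.range (2 * m)).filter (fun j => j < x % (2 * m)) =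
      Finset.range (x % (2 * m)) := by
    ext j
    rw [Finset.mem_filter, Finset.mem_range, Finset.mem_range]
    omega
  rw [h3, Finset.card_range]
  exact Nat.div_add_mod x (2 * m)

/-- Front positions for long rows. -/
theorem main_flat {n m β : ℕ} (mm : Fin n → ℕ) (r0 : ℕ → ℕ) (hm0 : 0 < m) (hmm : ∀ i, mm i ≤ m)
    (hβ : 2 * m ≤ β) (hz : ∀ j, β < j → r0 j = 0) (hmono : ∀ j, r0 (j + 1) ≤ r0 j)
    (hslope : ∀ j, j < β → m * (m + 2) + m * r0 (j + 1) ≤ m * r0 j + r0 (j + 1))
    (hslope7 : ∀ j, j < 2 * m → m * (8 * m + 3) + m * r0 (j + 1) ≤ m * r0 j + r0 (j + 1))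
    (hconc : ∀ j, j + 1 < m → r0 j + r0 (j + 2) ≤ 2 * r0 (j + 1)) :
    ∃ b c : Fin n → ℕ, (∀ i, c i ≤ b i + 1) ∧ (∀ i, b i ≤ β) ∧
      ((∀ j, r0 j ≤ ∑ i, vp (mm i) (b i) (c i) j) ∨
        (∀ j, ∑ i, vp (mm i) (b i) (c i) j ≤ r0 j)) := by
  classical
  set T := ∑ j ∈ Finset.range (β + 2), r0 j with hT
  have hpars : (∑ i, mm i * (mm i + 1)) % 2 = 0 := by
    apply Nat.even_iff.1
    apply Finset.even_sum
    intro i _
    exact Nat.even_mul_succ_self _
  rcases Nat.le_total (∑ i, mm i * (mm i + 1)) (2 * T) with hcase | hcase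
  · -- few points
    obtain ⟨x, hx⟩ : ∃ x, ∑ i, mm i * (mm i + 1) + 2 * x = 2 * T :=
      ⟨(2 * T - ∑ i, mm i * (mm i + 1)) / 2, by omega⟩
    obtain ⟨b, c, g1, g2, g3⟩ := core_flat (n := n + x) (Fin.append mm (fun _ => 1)) r0 hm0
      (by
        intro i
        refine Fin.addCases (fun i => ?_) (fun i => ?_) i
        · rw [Fin.append_left]; exact hmm i
        · rw [Fin.append_right]; omega) hβ hz hmono hslope hslope7
      (fun j hj => (hconc j hj).trans (Nat.le_succ _))
      (by
        rw [Fin.sum_univ_add]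
        simp only [Fin.append_left, Fin.append_right, Finset.sum_const, Finset.card_univ,
          Fintype.card_fin, smul_eq_mul]
        omega)
    refine ⟨fun i => b (Fin.castAdd x i), fun i => c (Fin.castAdd x i), fun i => g1 _,
      fun i => g2 _, Or.inr ?_⟩
    intro j
    have h1 := g3 j
    rw [Fin.sum_univ_add] at h1
    simp only [Fin.append_left] at h1
    beta_reduce
    omega
  · -- many points
    obtain ⟨x, hx⟩ : ∃ x, ∑ i, mm i * (mm i + 1) = 2 * (T + x) :=
      ⟨(∑ i, mm i * (mm i + 1)) / 2 - T, by omega⟩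
    have hex : ∀ (j D : ℕ), D + m * r0 (j + 1) ≤ m * r0 j + r0 (j + 1) →
        D + m * (r0 (j + 1) + exc m x (j + 1)) ≤
          m * (r0 j + exc m x j) + (r0 (j + 1) + exc m x (j + 1)) := by
      intro j D h
      have h1 : m * exc m x (j + 1) ≤ m * exc m x j := Nat.mul_le_mul_left _ (exc_anti m x j)
      rw [Nat.mul_add, Nat.mul_add]
      omega
    obtain ⟨b, c, g1, g2, g3⟩ := core_flat mm (fun j => r0 j + exc m x j) hm0 hmm hβ
      (fun j hj => by
        rw [hz j hj, exc_zero m x j (by omega)])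
      (fun j => Nat.add_le_add (hmono j) (exc_anti m x j))
      (fun j hj => hex j _ (hslope j hj))
      (fun j hj => hex j _ (hslope7 j hj))
      (fun j hj => by
        have h1 := hconc j hj
        have h2 := exc_conc m x j hj
        omega)
      (by
        rw [Finset.sum_add_distrib, exc_sum m x (β + 2) hm0 (by omega), hx])
    refine ⟨b, c, g1, g2, Or.inl ?_⟩
    intro j
    rw [g3 j]
    exact Nat.le_add_right _ _

end Pool.MP_70e04f_ag.Hal

end

/-! ### from `Lib_MP_70e04f_hal.Flat3` -/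

section

/-!
# A set of exponents with constant rows (piece FLAT3)

PAPER PROOF. Apply `main_flat` to `r0 j = rowc Q j` with `β = W + 1` if `rowc Q (W + 1) ≠ 0` and
`β = W` otherwise, then `OK.of_front` (as at the end of `ok_of_rows` in
`Lib_MP_70e04f_nine/Class.lean`). The slopes: for `j + 1 < W` both rows are `L` and
`L ≥ 8 m ^ 2 + 3 m = m (8 m + 3) ≥ m (m + 2)`. For `j = W - 1`: with `y = rowc Q W ≤ L` one has
`m (L - y) + y ≥ L` or `≥ m L`: precisely `m L + y ≥ m y + L` (as `(m - 1)(L - y) ≥ 0`), so the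
claim follows from the bound for `L`. For `j = W` (only if `β = W + 1`):
`m (rowc Q W - rowc Q (W + 1)) ≥ m (m + 2)`. In `hslope7` only `j ≤ 2 m - 1 ≤ W - 1` occurs.
Concavity: rows `j`, `j + 1`, `j + 2` with `j + 2 ≤ m < W` are all `L`.
-/

namespace Pool.MP_70e04f_ag.Hal

open Pool.MP_70e04f_ag.Hex Pool.MP_70e04f_ag.Add Pool.MP_70e04f_ag.Nine

/-- A set of exponents with constant rows. -/
theorem ok_flat {n : ℕ} (m W L : ℕ) (Q : Finset (ℕ × ℕ)) (mm : Fin n → ℕ) (hm0 : 0 < m)
    (hmm : ∀ i, mm i ≤ m) (hW : 2 * m ≤ W) (hL : 8 * m ^ 2 + 3 * m ≤ L)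
    (hrow : ∀ j, j < W → rowc Q j = L) (hz : ∀ j, W + 2 ≤ j → rowc Q j = 0)
    (h1 : rowc Q W ≤ L) (h2 : rowc Q (W + 1) = 0 ∨ rowc Q (W + 1) + m + 2 ≤ rowc Q W) :
    OK Q mm := by
  have hlast : ∀ y, y ≤ L → ∀ B, B ≤ L → B + m * y ≤ m * L + y := by
    intro y hy B hB
    obtain ⟨x, hx⟩ : ∃ x, L = y + x := ⟨L - y, by omega⟩
    obtain ⟨m', hm'⟩ : ∃ m', m = m' + 1 := ⟨m - 1, by omega⟩
    rw [hx, hm']
    rw [hx] at hB
    have e : (m' + 1) * (y + x) + y = (y + x) + (m' + 1) * y + m' * x := by ring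
    rw [e]
    omega
  have hLa : m * (m + 2) ≤ L := by
    have e : 8 * m ^ 2 + 3 * m = m * (m + 2) + (7 * m ^ 2 + m) := by ring
    omega
  have hLb : m * (8 * m + 3) ≤ L := by
    have e : 8 * m ^ 2 + 3 * m = m * (8 * m + 3) := by ring
    omega
  have hstep : ∀ B, B ≤ L → ∀ j, j < W →
      B + m * rowc Q (j + 1) ≤ m * rowc Q j + rowc Q (j + 1) := by
    intro B hB j hj
    rcases Nat.lt_or_ge (j + 1) W with h | h
    · rw [hrow j hj, hrow (j + 1) h]
      omega
    · rw [hrow j hj]
      have e : j + 1 = W := by omega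
      rw [e]
      exact hlast _ h1 B hB
  have hmono : ∀ j, rowc Q (j + 1) ≤ rowc Q j := by
    intro j
    rcases Nat.lt_or_ge j W with h | h
    · rw [hrow j h]
      rcases Nat.lt_or_ge (j + 1) W with h' | h'
      · rw [hrow _ h']
      · rw [show j + 1 = W by omega]
        exact h1
    · rcases Nat.lt_or_ge W j with h' | h'
      · rw [hz (j + 1) (by omega)]
        exact Nat.zero_le _
      · rw [show j = W by omega]
        omega
  have hslope7 : ∀ j, j < 2 * m →
      m * (8 * m + 3) + m * rowc Q (j + 1) ≤ m * rowc Q j + rowc Q (j + 1) :=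
    fun j hj => hstep _ hLb j (by omega)
  have hconc : ∀ j, j + 1 < m → rowc Q j + rowc Q (j + 2) ≤ 2 * rowc Q (j + 1) := by
    intro j hj
    rw [hrow j (by omega), hrow (j + 1) (by omega), hrow (j + 2) (by omega)]
    omega
  by_cases h0 : rowc Q (W + 1) = 0
  · obtain ⟨b, c, g1, -, g3⟩ := main_flat (β := W) mm (rowc Q) hm0 hmm hW
      (by
        intro j hj
        rcases Nat.lt_or_ge (W + 1) j with h | h
        · exact hz j (by omega)
        · rw [show j = W + 1 by omega]
          exact h0)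
      hmono (fun j hj => hstep _ hLa j hj) hslope7 hconc
    exact OK.of_front Q mm b c g1 g3
  · have h3 : rowc Q (W + 1) + m + 2 ≤ rowc Q W := by
      rcases h2 with h | h
      · exact absurd h h0
      · exact h
    obtain ⟨b, c, g1, -, g3⟩ := main_flat (β := W + 1) mm (rowc Q) hm0 hmm (by omega)
      (fun j hj => hz j (by omega)) hmono
      (by
        intro j hj
        rcases Nat.lt_or_ge j W with h | h
        · exact hstep _ hLa j h
        · rw [show j = W by omega]
          have h4 : m * (rowc Q (W + 1) + (m + 2)) ≤ m * rowc Q W :=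
            Nat.mul_le_mul_left m (by omega)
          have e : m * (rowc Q (W + 1) + (m + 2)) = m * rowc Q (W + 1) + m * (m + 2) := by ring
          omega)
      hslope7 hconc
    exact OK.of_front Q mm b c g1 g3

end Pool.MP_70e04f_ag.Hal

end

/-! ### from `Lib_MP_70e04f_gon.GRat` -/

section

/-!
# Piece GRAT: numerical bound for the classes of rational curves
-/

set_option autoImplicit false

namespace Pool.MP_70e04f_ag.Strip

/-- PROOF. Let `τ = ∑ a (β s)`, `T = a (β 8)`, `σ = ∑ i ∈ Sm β, a i`, `κ = 3 e - τ`. By `hK`, `hK2`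
(`sum_Sm`): `κ ≤ σ` and `σ + 2 ≤ κ + q`. `abel_nine` for `a (β s) - T`, `e - 3 T` (both for `a` and `M`; the sum is
`τ - 9 T ≤ 3 (e - 3 T)`, and the last `M` is zero): `∑ (a (β s) - T) ^ 2 ≤ (e - 3 T) ^ 2`, that is
`∑ a (β s) ^ 2 + 2 T κ ≤ e ^ 2`. So `q + 2 T κ ≤ ∑ i ∈ Sm β, a i ^ 2 ≤ T σ`. `κ ≥ 1` (`hnine`), so `σ ≥ 1`, `T ≥ 1`
(some `a i ≥ 1` in `Sm β`, and `a i ≤ T`), and `2 κ < σ`, so `2 (σ + 2 - q) < σ`, `σ + 4 < 2 q`. All the
nonzero `a i` with `i ∈ Sm β` are `≥ q + 1` (`hxu`), so there is exactly one of them, `a i0 = σ ≥ q + 1`, so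
`q + 5 < 2 q`, `q ≥ 6` and `m ≥ a i0 ≥ 7`. -/
theorem num_rat {n : ℕ} (e q m : ℕ) (a : Fin n → ℕ) (β : Fin 9 → Fin n)
    (hβ : Function.Injective β) (hanti : Antitone (fun j => a (β j)))
    (hother : ∀ i, i ∉ Set.range β → a i ≤ a (β 8)) (hstd : a (β 0) + a (β 1) + a (β 2) ≤ e)
    (hnine : ∑ s, a (β s) + 1 ≤ 3 * e) (hq : ∑ i, a i ^ 2 = e ^ 2 + q)
    (hxu : ∀ i, 1 ≤ a i → q + 1 ≤ a i) (hK : 3 * e ≤ ∑ i, a i) (hK2 : ∑ i, a i + 2 ≤ 3 * e + q)
    (hm : ∀ i, i ∉ Set.range β → a i ≤ m) : 7 ≤ m := by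
  have hmem : ∀ i, i ∈ Sm β → i ∉ Set.range β := fun i hi => mem_Sm.1 hi
  have s1 := sum_Sm hβ a
  have s2 := sum_Sm hβ (fun i => a i ^ 2)
  have h08 : ∀ s, a (β 8) ≤ a (β s) := fun s => hanti (Fin.le_last s)
  have h00 : ∀ s, a (β s) ≤ a (β 0) := fun s => hanti (Fin.zero_le s)
  have hab := abel_nine ((e : ℤ) - 3 * a (β 8)) ((e : ℤ) - 3 * a (β 8))
    (fun s => (a (β s) : ℤ) - a (β 8)) (fun s => (a (β s) : ℤ) - a (β 8))
    (fun s => by have := h08 s; omega)
    (fun s => by
      have e1 := h00 s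
      have e2 := h08 1
      have e3 := h08 2
      omega)
    (by
      rw [Finset.sum_sub_distrib]
      simp only [Finset.sum_const, Finset.card_univ, Fintype.card_fin, nsmul_eq_mul]
      have h2 : ((∑ s, a (β s) : ℕ) : ℤ) + 1 ≤ 3 * e := by exact_mod_cast hnine
      rw [Nat.cast_sum] at h2
      push_cast
      linarith)
    (fun s t hst => by
      have : a (β t) ≤ a (β s) := hanti hst
      show (a (β t) : ℤ) - a (β 8) ≤ a (β s) - a (β 8)
      omega)
    (by omega)
  obtain ⟨T, hT⟩ : ∃ T, T = a (β 8) := ⟨a (β 8), rfl⟩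
  rw [← hT] at hab hother h08
  obtain ⟨σ, hσ⟩ : ∃ t : ℕ, t = ∑ i ∈ Sm β, a i := ⟨_, rfl⟩
  obtain ⟨τ, hτ⟩ : ∃ t : ℕ, t = ∑ s, a (β s) := ⟨_, rfl⟩
  rw [← hσ, ← hτ] at s1
  rw [← hτ] at hnine
  rw [s1] at hK hK2
  rw [s2] at hq
  have hsq : ∑ i ∈ Sm β, a i ^ 2 ≤ T * σ := by
    rw [hσ, Finset.mul_sum]
    refine Finset.sum_le_sum fun i hi => ?_
    rw [pow_two]
    exact Nat.mul_le_mul_right _ (hother i (hmem i hi))
  have hexp : (∑ s, ((a (β s) : ℤ) - T) * ((a (β s) : ℤ) - T)) = ((∑ s, a (β s) ^ 2 : ℕ) : ℤ) - 2 * T * τ + 9 * T ^ 2 := by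
    have : ∀ s, ((a (β s) : ℤ) - T) * ((a (β s) : ℤ) - T)
        = (a (β s) : ℤ) ^ 2 - 2 * T * a (β s) + T ^ 2 := fun s => by ring
    rw [Finset.sum_congr rfl fun s _ => this s, Finset.sum_add_distrib, Finset.sum_sub_distrib,
      ← Finset.mul_sum, hτ]
    simp only [Finset.sum_const, Finset.card_univ, Fintype.card_fin, nsmul_eq_mul]
    push_cast
    ring
  generalize (∑ s, a (β s) ^ 2) = τ2 at s2 hq hexp
  generalize (∑ i ∈ Sm β, a i ^ 2) = ρ2 at s2 hq hsq
  have hkey : (τ2 : ℤ) + 2 * T * (3 * e - τ) ≤ e ^ 2 := by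
    rw [hexp] at hab
    rw [sub_self, zero_mul, add_zero] at hab
    linarith [hab]
  -- q + 2 T κ ≤ T σ
  have hmain : (q : ℤ) + 2 * T * (3 * e - τ) ≤ T * σ := by
    have h1 : (τ2 : ℤ) + ρ2 = e ^ 2 + q := by exact_mod_cast hq
    have h2 : (ρ2 : ℤ) ≤ T * σ := by exact_mod_cast hsq
    linarith
  have hT0 : 1 ≤ T := by
    by_contra hcon
    have hT00 : T = 0 := by omega
    have hσ0 : σ = 0 := by
      rw [hσ]
      refine Finset.sum_eq_zero fun i hi => ?_
      have := hother i (hmem i hi)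
      omega
    omega
  have hq1 : 1 ≤ q := by
    by_contra hcon
    have hq0 : q = 0 := by omega
    omega
  have h2k : 2 * (3 * (e : ℤ) - τ) < σ := by
    by_contra hcon
    push Not at hcon
    have hqq : (1 : ℤ) ≤ q := by exact_mod_cast hq1
    have h3 := mul_le_mul_of_nonneg_left hcon (show (0 : ℤ) ≤ T by omega)
    linarith [h3]
  have hσq : σ + 4 < 2 * q := by omega
  have hσ1 : 1 ≤ σ := by omega
  obtain ⟨i0, hi0, hi1⟩ : ∃ i ∈ Sm β, 1 ≤ a i := by
    by_contra hcon
    push Not at hcon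
    have h0 : σ = 0 := by
      rw [hσ]
      exact Finset.sum_eq_zero fun i hi => Nat.lt_one_iff.1 (hcon i hi)
    rw [h0] at hσ1
    exact absurd hσ1 (by norm_num)
  have hge : a i0 ≤ σ := by
    rw [hσ]
    exact Finset.single_le_sum (f := a) (fun _ _ => Nat.zero_le _) hi0
  have hx := hxu i0 hi1
  have hm0 := hm i0 (hmem i0 hi0)
  -- only one nonzero
  have heq : σ = a i0 := by
    rw [hσ]
    refine Finset.sum_eq_single_of_mem i0 hi0 fun j hj hji => ?_
    by_contra hne
    have hj1 : 1 ≤ a j := by omega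
    have hxj := hxu j hj1
    have h2 : a i0 + a j ≤ σ := by
      rw [hσ, ← Finset.sum_pair (f := a) (Ne.symm hji)]
      refine Finset.sum_le_sum_of_subset ?_
      intro x hx
      rw [Finset.mem_insert, Finset.mem_singleton] at hx
      rcases hx with rfl | rfl
      · exact hi0
      · exact hj
    omega
  omega

end Pool.MP_70e04f_ag.Strip

end
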