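import Pool.Agent.Lib_MP_70e04f_m.M09
import Pool.Agent.Lib_MP_70e04f_m.M25
import Pool.Agent.Lib_MP_70e04f_m.M31

/-!
# MP_70e04f_ag, plane linear systems: merged library part M32

Concatenation of smaller files (each in its own section), only to save build time.
-/

namespace Pool.MP_70e04f_ag.Hex
end Pool.MP_70e04f_ag.Hex

namespace Pool.MP_70e04f_ag.Add
end Pool.MP_70e04f_ag.Add

namespace Pool.MP_70e04f_ag.Nine
end Pool.MP_70e04f_ag.Nine

/-! ### from `Lib_MP_70e04f_hal.NodD` -/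

section

/-!
# Exact dimensions for points on the acnodal cubic (piece NODD)

PAPER PROOF. `sum_eight`: split `Z` into `Z1`, `Z2` (three elements each or all remaining ones) and
the rest `Z3` with at most two elements; `∑ Z ≤ 3 D`, with equality only if all three sums are `D`;
then for `w ∈ Z1` the set `Z3 ∪ {w}` has at most three elements, so `f w = 0`; hence the sum over
`Z1` is `0 = D`, a contradiction (compare `sum_nine` in `Lib_MP_70e04f_add/Cubic.lean`).

`hT_nod`: induction on `N` as in `Std.hT_le` (`Lib_MP_70e04f_add/Cubic.lean`), with `Std.sub`,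
`sum_sub_one`. Let `Z` be the set of `t` with `m t ≠ 0`. If `card Z < 3`: `hT_two` (the points
`npt s t` are distinct). Otherwise `4 ≤ N` and `Std (N - 3) (m - 1)`; by hypothesis
`∑ m t + 4 ≤ 3 N`. The induction hypothesis applies: if `N - 3 = 1` nothing has to be checked; if
`card Z ≥ 9` then `∑ (m t - 1) + 4 ≤ ∑ m t - 9 + 4 ≤ 3 (N - 3)`; if `card Z ≤ 8` and `N - 3 ≥ 2` use
`sum_eight` with `D = N - 4 ≥ 1` and `f = m - 1`. Then `hT N m ≤ (3 (N - 1) - ∑ m t) +
hT (N - 3) (m - 1)` by `hT_le_nod`, `finrank_nod`, `finrank_nod_ker`.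

`hT_small`: induction on `j`. `j = 0`: `hT_nod` with `N = 1` (or `rows2_hT_one`). `j + 1 < ν`:
`nod F = 0` for all `F ∈ Lsys (3 (j + 1) + 1) (j + 1)` by `nod_eq_zero` and `Tors.only`
(`0 < j + 1 < ν`, so neither all are `0` nor all are `ν`), so the image has dimension `0`, and
the kernel has dimension at most `hT (3 j + 1) j`.
-/

namespace Pool.MP_70e04f_ag.Hal

open MvPolynomial Pool.MP_70e04f_ag.Hex Pool.MP_70e04f_ag.Add Pool.MP_70e04f_ag.Nine

/-- Eight numbers. -/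
lemma sum_eight {τ : Type*} [DecidableEq τ] (Z : Finset τ) (hZ : Z.card ≤ 8) (f : τ → ℕ) (D : ℕ)
    (hD : 1 ≤ D) (h : ∀ U : Finset τ, U.card ≤ 3 → ∑ t ∈ U, f t ≤ D) :
    ∑ t ∈ Z, f t + 1 ≤ 3 * D := by
  have key : ∀ Z : Finset τ, ∃ Z1 ⊆ Z, Z1.card ≤ 3 ∧ (Z \ Z1).card ≤ Z.card - 3 := by
    intro Z
    rcases Nat.lt_or_ge Z.card 3 with h | h
    · exact ⟨Z, subset_rfl, by omega, by simp⟩
    · obtain ⟨Z1, h1, h2⟩ := Finset.exists_subset_card_eq h
      exact ⟨Z1, h1, by omega, by rw [Finset.card_sdiff_of_subset h1]; omega⟩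
  obtain ⟨Z1, a1, b1, c1⟩ := key Z
  obtain ⟨Z2, a2, b2, c2⟩ := key (Z \ Z1)
  have e1 := Finset.sum_sdiff a1 (f := f)
  have e2 := Finset.sum_sdiff a2 (f := f)
  have h1 := h Z1 b1
  have h2 := h Z2 b2
  have h3 := h ((Z \ Z1) \ Z2) (by omega)
  by_contra hcon
  have h4 : ∑ t ∈ Z1, f t = D := by omega
  have h5 : ∑ t ∈ (Z \ Z1) \ Z2, f t = D := by omega
  have h6 : ∀ w ∈ Z1, f w = 0 := by
    intro w hw
    have hw2 : w ∉ (Z \ Z1) \ Z2 := by
      intro h7
      exact (Finset.mem_sdiff.1 (Finset.mem_sdiff.1 h7).1).2 hw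
    have h8 := h (insert w ((Z \ Z1) \ Z2)) (by
      rw [Finset.card_insert_of_notMem hw2]
      omega)
    rw [Finset.sum_insert hw2] at h8
    omega
  have h9 := Finset.sum_eq_zero h6
  omega

namespace NodD

lemma npt_injective {τ : Type*} {s : τ → ℝ} (hs : Function.Injective s) :
    Function.Injective (npt s) := by
  intro t t' h
  apply hs
  have h0 : s t ^ 2 + 1 = s t' ^ 2 + 1 := congrFun h 0
  have h1 : s t * (s t ^ 2 + 1) = s t' * (s t' ^ 2 + 1) := congrFun h 1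
  rw [← h0] at h1
  exact mul_right_cancel₀ (by positivity) h1

lemma card_eq_sum {τ : Type*} (Z : Finset τ) (m : τ → ℕ) (h : ∀ t ∈ Z, 1 ≤ m t) :
    ∑ t ∈ Z, (m t - 1) + Z.card = ∑ t ∈ Z, m t := by
  rw [Finset.card_eq_sum_ones, ← Finset.sum_add_distrib]
  refine Finset.sum_congr rfl fun t ht => ?_
  have := h t ht
  omega

end NodD

open NodD

/-- The dimension is at most the expected one. -/
theorem hT_nod {τ : Type*} [Fintype τ] {s : τ → ℝ} (hs : Function.Injective s) {N : ℕ}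
    {m : τ → ℕ} (h : Std N m) (hK : ∑ t, m t + 4 ≤ 3 * N ∨ N = 1) :
    2 * hT N m (npt s) + ∑ t, m t * (m t + 1) ≤ N * (N + 1) := by
  classical
  have hq : Function.Injective (npt s) := npt_injective hs
  induction N using Nat.strong_induction_on generalizing m with
  | _ N ih =>
    rcases Nat.lt_or_ge (Finset.univ.filter (fun t => m t ≠ 0)).card 3 with h3 | h3
    · apply hT_two hq N m _ (Nat.le_of_lt_succ h3)
      · intro t ht
        by_contra hcon
        apply ht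
        rw [Finset.mem_filter]
        exact ⟨Finset.mem_univ t, hcon⟩
      · have := h.1 _ (show (Finset.univ.filter (fun t => m t ≠ 0)).card ≤ 3 by omega)
        omega
    · obtain ⟨hN, hstd⟩ := h.sub h3
      have hK' : ∑ t, m t + 4 ≤ 3 * N := by omega
      set Z := Finset.univ.filter (fun t => m t ≠ 0) with hZ
      have hZm : ∀ t ∈ Z, 1 ≤ m t := by
        intro t ht
        rw [hZ, Finset.mem_filter] at ht
        omega
      have hsumZ : ∀ g : ℕ → ℕ, g 0 = 0 → ∑ t, g (m t) = ∑ t ∈ Z, g (m t) := by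
        intro g hg
        symm
        apply Finset.sum_subset (Finset.subset_univ _)
        intro t _ ht
        have : m t = 0 := by
          by_contra hcon
          apply ht
          rw [hZ, Finset.mem_filter]
          exact ⟨Finset.mem_univ t, hcon⟩
        rw [this, hg]
      have hs1 : ∑ t, (m t - 1) = ∑ t ∈ Z, (m t - 1) := hsumZ (fun x => x - 1) rfl
      have hs2 : ∑ t, m t = ∑ t ∈ Z, m t := hsumZ (fun x => x) rfl
      have hs3 := card_eq_sum Z m hZm
      have hK2 : ∑ t, (m t - 1) + 4 ≤ 3 * (N - 3) ∨ N - 3 = 1 := by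
        rcases Nat.lt_or_ge (N - 3) 2 with h2 | h2
        · right; omega
        · left
          rcases Nat.lt_or_ge Z.card 9 with h9 | h9
          · have h10 : ∑ t ∈ Z, (m t - 1) + 1 ≤ 3 * (N - 4) :=
              sum_eight Z (by omega) (fun t => m t - 1) (N - 4) (by omega) (fun U hU => by
                have h11 := hstd.1 U hU
                change ∑ t ∈ U, (m t - 1) ≤ N - 4
                change ∑ t ∈ U, (m t - 1) + 1 ≤ N - 3 at h11
                omega)
            rw [hs1]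
            omega
          · omega
      have h1 := ih (N - 3) (by omega) hstd hK2
      have h2 := h.2
      have h4 := finrank_nod hs (N := N) (m := m) (by omega)
      have h5 := finrank_nod_ker (s := s) (N := N) m
      have h6 := hT_le_nod s N m
      rw [sum_sub_one m]
      obtain ⟨x, hx⟩ : ∃ x, N = x + 4 := ⟨N - 4, by omega⟩
      subst hx
      rw [show x + 4 - 3 = x + 1 by omega] at h1 h5
      have h9 : x + 4 - 1 = x + 3 := rfl
      rw [h9] at h4
      nlinarith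

/-- Small multiples of the anticanonical class. -/
theorem hT_small {ν : ℕ} {s : Fin 9 → ℝ} (h : Tors ν s) {j : ℕ} (hj : j < ν) :
    hT (3 * j + 1) (fun _ => j) (npt s) ≤ 1 := by
  induction j with
  | zero =>
    have h1 := hT_nod (N := 1) (m := fun _ : Fin 9 => 0) h.inj ⟨by
      intro U _
      simp, by simp⟩ (Or.inr rfl)
    simp only [zero_add, mul_one, Finset.sum_const_zero, add_zero, Nat.mul_zero] at h1 ⊢
    omega
  | succ j ih =>
    have h1 := ih (by omega)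
    have hsum : ∑ _t : Fin 9, (j + 1) = 3 * (3 * (j + 1) + 1 - 1) := by
      rw [Finset.sum_const, Finset.card_univ, Fintype.card_fin, smul_eq_mul]
      omega
    have hv : nv (lin s (fun _ => j + 1)) ≠ 0 := by
      intro h2
      rcases h.only (fun _ => j + 1) (fun _ => hj.le) h2 with h3 | h3
      · exact absurd (h3 0) (Nat.succ_ne_zero j)
      · exact absurd (h3 0) hj.ne
    have hmap : (Lsys (3 * (j + 1) + 1) (fun _ => j + 1) (npt s)).map nod.toLinearMap = ⊥ := by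
      rw [eq_bot_iff]
      rintro _ ⟨F, hF, rfl⟩
      rw [Submodule.mem_bot]
      exact nod_eq_zero h.inj hsum hv hF
    have h2 := hT_le_nod s (3 * (j + 1) + 1) (fun _ : Fin 9 => j + 1)
    rw [hmap, finrank_bot, zero_add] at h2
    have h3 := finrank_nod_ker (s := s) (N := 3 * (j + 1) + 1) (fun _ : Fin 9 => j + 1)
    have h4 : 3 * (j + 1) + 1 - 3 = 3 * j + 1 := by omega
    rw [h4] at h3
    simp only [Nat.add_sub_cancel] at h3
    exact h2.trans (h3.trans h1)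

end Pool.MP_70e04f_ag.Hal

end

/-! ### from `Lib_MP_70e04f_hal.NodG` -/

section

/-!
# An irreducible curve with a smooth real point (piece NODG)

PAPER PROOF. (1) There is `f ∈ Lsys (3 ν + 1) ν` with `nod f ≠ 0`: otherwise
`Lsys (3 ν + 1) ν ⊓ ker nod = Lsys (3 ν + 1) ν`, of dimension `≥ 2` (`two_le_hT`), but
`finrank_nod_ker` and `hT_small` (`j = ν - 1`) give the bound `1`. By `nod_eq_lin`
`nod f = C c * lin s ν`, `c ≠ 0`.

(2) The polynomial `B = ncu * pderiv 1 f - ν * f * pderiv 1 ncu` is not zero: `nod B =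
- ν * nod f * nod (2 y) = - 2 ν * nod f * (X (X ^ 2 + 1)) ≠ 0` (`nod_ncu`, `pderiv 1 ncu = 2 y`).
So `ncu * B ≠ 0` and there is a point `P` with `eval P (ncu * B) ≠ 0` (`MvPolynomial.funext`).

(3) Let `u = eval P ncu ≠ 0`, `w = eval P f`, `g = C (u ^ ν) * f - C w * ncu ^ ν`. Then
`g ∈ Lsys (3 ν + 1) ν` (`ncu ^ ν` has degree `3 ν` and is in `pt (npt s t) ^ ν` by `ncu_mem`),
`nod g = C (u ^ ν * c) * lin s ν`, so `halphen_irr` applies to `g`, and `eval P g = 0`. Finally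
`eval P (pderiv 1 g) = u ^ ν * eval P (pderiv 1 f) - w * ν * u ^ (ν - 1) * eval P (pderiv 1 ncu) =
u ^ (ν - 1) * eval P B ≠ 0`.
-/

namespace Pool.MP_70e04f_ag.Hal

open MvPolynomial Pool.MP_70e04f_ag.Hex Pool.MP_70e04f_ag.Add Pool.MP_70e04f_ag.Nine

private lemma nodg_exists_ne {ν : ℕ} {s : Fin 9 → ℝ} (h : Tors ν s) (hν : 1 ≤ ν) :
    ∃ f ∈ Lsys (3 * ν + 1) (fun _ => ν) (npt s), nod f ≠ 0 := by
  by_contra hcon
  push Not at hcon
  have h1 : Lsys (3 * ν + 1) (fun _ => ν) (npt s) ⊓ LinearMap.ker nod.toLinearMap =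
      Lsys (3 * ν + 1) (fun _ => ν) (npt s) := by
    apply inf_eq_left.2
    intro f hf
    rw [LinearMap.mem_ker]
    exact hcon f hf
  have h2 := finrank_nod_ker (s := s) (N := 3 * ν + 1) (fun _ => ν)
  rw [h1] at h2
  have h3 := two_le_hT h hν
  have h4 := hT_small h (j := ν - 1) (by omega)
  have h5 : 3 * ν + 1 - 3 = 3 * (ν - 1) + 1 := by omega
  rw [h5] at h2
  unfold hT at h3
  exact absurd (h3.trans (h2.trans h4)) (by norm_num)

private lemma nodg_pderiv_ncu : pderiv 1 ncu = C 2 * X 1 := by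
  unfold ncu
  rw [map_add, map_sub, pderiv_pow, pderiv_pow, pderiv_pow, pderiv_X_self, pderiv_X_of_ne (by decide)]
  simp only [mul_zero, sub_zero, add_zero, Nat.cast_ofNat, Nat.add_one_sub_one, pow_one, mul_one]
  rw [map_ofNat C 2]

private lemma nodg_nod_X1 : nod (X 1) = Polynomial.X * (Polynomial.X ^ 2 + 1) := by
  unfold nod
  rw [aeval_X]
  rfl

private lemma nodg_ncu_pow {ν : ℕ} (s : Fin 9 → ℝ) :
    ncu ^ ν ∈ Lsys (3 * ν + 1) (fun _ => ν) (npt s) := by
  unfold Lsys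
  rw [Submodule.mem_inf]
  constructor
  · rw [mem_range_tri]
    refine (totalDegree_pow _ _).trans ?_
    rw [totalDegree_ncu]
    omega
  · rw [mem_vanish]
    intro t
    exact Ideal.pow_mem_pow (ncu_mem s t) ν

/-- An irreducible member of the Halphen pencil with a smooth real point. -/
theorem exists_halphen {ν : ℕ} {s : Fin 9 → ℝ} (h : Tors ν s) (hν : 1 ≤ ν) :
    ∃ (f : MvPolynomial (Fin 2) ℝ) (P : Fin 2 → ℝ), IsCurve (3 * ν) (fun _ => ν) (npt s) f P := by
  obtain ⟨f, hf, hnf⟩ := nodg_exists_ne h hν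
  have hsum : ∑ _t : Fin 9, ν = 3 * (3 * ν + 1 - 1) := by
    rw [Finset.sum_const, Finset.card_univ, Fintype.card_fin, smul_eq_mul]
    omega
  obtain ⟨c, hc⟩ := nod_eq_lin h.inj hsum hf
  have hc0 : c ≠ 0 := by
    rintro rfl
    rw [Polynomial.C_0, zero_mul] at hc
    exact hnf hc
  have hν0 : (ν : ℝ) ≠ 0 := by
    have : ν ≠ 0 := by omega
    exact_mod_cast this
  -- the auxiliary polynomial
  obtain ⟨B, hB⟩ : ∃ B : MvPolynomial (Fin 2) ℝ,
      B = ncu * pderiv 1 f - C (ν : ℝ) * f * pderiv 1 ncu := ⟨_, rfl⟩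
  have hB0 : B ≠ 0 := by
    intro h0
    have h1 : nod B = 0 := by rw [h0, map_zero]
    rw [hB, map_sub, map_mul, map_mul, map_mul, nod_ncu, zero_mul, zero_sub, nodg_pderiv_ncu,
      map_mul, nodg_nod_X1] at h1
    have h2 : nod (C (ν : ℝ)) = Polynomial.C (ν : ℝ) := by
      have := nod.commutes (ν : ℝ)
      exact this
    have h3 : nod (C (2 : ℝ)) = Polynomial.C (2 : ℝ) := by
      have := nod.commutes (2 : ℝ)
      exact this
    rw [h2, h3, neg_eq_zero] at h1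
    have h4 : (Polynomial.X ^ 2 + 1 : Polynomial ℝ) ≠ 0 := by
      have h5 : (Polynomial.X ^ 2 + 1 : Polynomial ℝ).eval 0 = 1 := by simp
      intro h6
      rw [h6, Polynomial.eval_zero] at h5
      exact zero_ne_one h5
    refine mul_ne_zero (mul_ne_zero ?_ hnf) (mul_ne_zero ?_ (mul_ne_zero Polynomial.X_ne_zero h4)) h1
    · exact Polynomial.C_ne_zero.2 hν0
    · exact Polynomial.C_ne_zero.2 two_ne_zero
  obtain ⟨P, hP⟩ : ∃ P : Fin 2 → ℝ, eval P (ncu * B) ≠ 0 := by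
    by_contra hcon
    push Not at hcon
    apply mul_ne_zero ncu_ne_zero hB0
    apply MvPolynomial.funext
    intro x
    rw [hcon x, map_zero]
  rw [map_mul] at hP
  have hu : eval P ncu ≠ 0 := left_ne_zero_of_mul hP
  have hBP : eval P B ≠ 0 := right_ne_zero_of_mul hP
  set u : ℝ := eval P ncu with hu_def
  set w : ℝ := eval P f with hw_def
  obtain ⟨g, hg⟩ : ∃ g : MvPolynomial (Fin 2) ℝ, g = C (u ^ ν) * f - C w * ncu ^ ν := ⟨_, rfl⟩
  have hgm : g ∈ Lsys (3 * ν + 1) (fun _ => ν) (npt s) := by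
    rw [hg, C_mul', C_mul']
    exact Submodule.sub_mem _ (Submodule.smul_mem _ _ hf) (Submodule.smul_mem _ _ (nodg_ncu_pow s))
  have hgn : nod g = Polynomial.C (u ^ ν * c) * lin s (fun _ => ν) := by
    have h1 : nod (C (u ^ ν)) = Polynomial.C (u ^ ν) := nod.commutes (u ^ ν)
    rw [hg, map_sub, map_mul, map_mul, map_pow nod ncu ν, nod_ncu, zero_pow (by omega), mul_zero, sub_zero,
      h1, hc, ← mul_assoc, ← Polynomial.C_mul]
  obtain ⟨hirr, hdeg, htop, hex⟩ := halphen_irr h hν hgm (mul_ne_zero (pow_ne_zero _ hu) hc0) hgn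
  refine ⟨g, P, ⟨hgm, hirr, hdeg, htop, hex, ?_, Or.inr ?_⟩⟩
  · rw [hg]
    simp only [map_sub, map_mul, map_pow, eval_C]
    rw [← hu_def, ← hw_def]
    ring
  · have h1 : eval P (pderiv 1 g) = u ^ (ν - 1) * eval P B := by
      rw [hg, hB, map_sub, pderiv_C_mul, pderiv_C_mul, pderiv_pow]
      simp only [map_sub, map_mul, map_pow, eval_C, map_natCast]
      rw [← hu_def, ← hw_def]
      have h2 : u ^ ν = u ^ (ν - 1) * u := by
        rw [← pow_succ]
        congr 1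
        omega
      rw [h2]
      ring
    rw [h1]
    exact mul_ne_zero (pow_ne_zero _ hu) hBP

end Pool.MP_70e04f_ag.Hal

end

/-! ### from `Lib_MP_70e04f_hal.HNum` -/

section

/-!
# The numerical estimates (piece HNUM)

PAPER PROOF.

`exists_nu`: let `A = max (8 m ^ 2 + 3 m) ((3 κ ^ 2 + κ + 2 m + 6 + 1) / 2)` and `ν = (A + κ - 1) / κ`
(the least `ν` with `A ≤ ν κ`); then `ν κ < A + κ`, and with `κ ≤ 18 m`:
`(3 κ ^ 2 + κ + 2 m + 7) / 2 + κ ≤ 486 m ^ 2 + 28 m + 4 ≤ 518 m ^ 2`.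

`deg_le`: the eight numbers `x t`, `t ≠ t0`, have any three of sum `≤ g`; adding up the eight cyclic
triples `3 ∑ x t ≤ 8 g`; so `3 (3 g - κ) ≤ 8 g`. In Lean: `fin_cases t0`, eight instances of `h3` (for
`t0 = 8`: `{0,1,2}, {1,2,3}, ..., {7,0,1}`), `Finset.sum_insert`, `Fin.sum_univ_succ` (or
`sum9`-like expansion), `omega`.

`sq_le`: `(∑ x t) ^ 2 ≤ 8 ∑ x t ^ 2` (Cauchy-Schwarz for the eight numbers,
`sq_sum_le_card_mul_sum_sq` or `Finset.sum_mul_sq_le_sq_mul_sq`), `∑ x t = 3 g - κ`, and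
`8 g ^ 2 ≤ (3 g - κ) ^ 2 + 8 κ ^ 2` because `(g - 3 κ) ^ 2 ≥ 0`.

`sq_of_deg2`: as `sq_of_deg` in `Lib_MP_70e04f_nine/Deg.lean`: with `S = ν 2`, `ν 1 = S + b`,
`ν 0 = S + b + a`, `d = ν 0 + ν 1 + S + g`, `u = a + 2 b + g`,
`k = (S - ν 3) + ... + (S - ν 8)` one has `d = 3 S + u`, `κ = 3 g + 2 a + 4 b + k ≤ 4 u + k` and
`∑ ν j ^ 2 + 4 u S + k S ≤ d ^ 2`; it is enough that `4 u S + k S ≥ 3100 m ^ 3`.
Case `d ≤ 100 u`: `4 u S ≥ 3100 m ^ 3`: if `S ≥ 100 m ^ 2` then
`400 u S ≥ 4 d S ≥ 4 * 780 m ^ 2 * 100 m ^ 2`; if `m ≤ S ≤ 100 m ^ 2` then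
`u S = (d - 3 S) S ≥ (780 m ^ 2 - 3 S) S`, and the concave function `(780 m ^ 2 - 3 S) S` of `S`
is at least the minimum of its values at `m` and at `100 m ^ 2`, i.e. of
`780 m ^ 3 - 3 m ^ 2 ≥ 777 m ^ 3` and `48000 m ^ 4`; and `4 * 777 = 3108`.
Case `100 u < d`: `300 S = 100 d - 100 u > 99 d`, so
`(4 u + k) S ≥ κ S` and `300 κ S ≥ 99 κ d ≥ 99 * 9400 m ^ 3 ≥ 300 * 3100 m ^ 3`.
-/

namespace Pool.MP_70e04f_ag.Hal

/-- The index of the pencil. -/
lemma exists_nu {m κ : ℕ} (hm : 1 ≤ m) (hκ : 1 ≤ κ) (hκm : κ ≤ 18 * m) :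
    ∃ ν, 8 * m ^ 2 + 3 * m ≤ ν * κ ∧ 3 * κ ^ 2 + κ + 2 * m + 6 ≤ 2 * (ν * κ) ∧
      ν * κ ≤ 518 * m ^ 2 := by
  obtain ⟨A, hA⟩ : ∃ A, A = max (8 * m ^ 2 + 3 * m) ((3 * κ ^ 2 + κ + 2 * m + 7) / 2) := ⟨_, rfl⟩
  have hA1 : 8 * m ^ 2 + 3 * m ≤ A := by rw [hA]; exact le_max_left _ _
  have hA2 : (3 * κ ^ 2 + κ + 2 * m + 7) / 2 ≤ A := by rw [hA]; exact le_max_right _ _
  have hk2 : κ ^ 2 ≤ 324 * m ^ 2 := by
    have := Nat.pow_le_pow_left hκm 2
    have e : (18 * m) ^ 2 = 324 * m ^ 2 := by ring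
    omega
  have hmm : m ≤ m ^ 2 := Nat.le_self_pow (by norm_num) m
  have hA3 : A + κ ≤ 518 * m ^ 2 := by
    rw [hA]
    rcases le_total (8 * m ^ 2 + 3 * m) ((3 * κ ^ 2 + κ + 2 * m + 7) / 2) with h | h
    · rw [max_eq_right h]; omega
    · rw [max_eq_left h]; omega
  have h1 := Nat.div_add_mod A κ
  have h2 := Nat.mod_lt A (show 0 < κ by omega)
  have h3 : (A / κ + 1) * κ = κ * (A / κ) + κ := by ring
  refine ⟨A / κ + 1, ?_, ?_, ?_⟩
  · rw [h3]; omega
  · rw [h3]; omega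
  · rw [h3]; omega

lemma nine_cases : ∀ t : Fin 9, t = 0 ∨ t = 1 ∨ t = 2 ∨ t = 3 ∨ t = 4 ∨ t = 5 ∨ t = 6 ∨ t = 7 ∨
    t = 8 := by decide

lemma nine_sum (x : Fin 9 → ℕ) : ∑ t, x t = x 0 + x 1 + x 2 + x 3 + x 4 + x 5 + x 6 + x 7 + x 8 := by
  rw [Fin.sum_univ_castSucc, Fin.sum_univ_eight]
  rfl

/-- The degree of a standard class of small anticanonical degree on eight points. -/
lemma deg_le {g κ : ℕ} {x : Fin 9 → ℕ} {t0 : Fin 9} (h0 : x t0 = 0)
    (h3 : ∀ U : Finset (Fin 9), U.card ≤ 3 → ∑ t ∈ U, x t ≤ g) (hκ : ∑ t, x t + κ = 3 * g) :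
    g ≤ 3 * κ := by
  have h3' : ∀ a b c : Fin 9, a ≠ b → a ≠ c → b ≠ c → x a + x b + x c ≤ g := by
    intro a b c hab hac hbc
    have h := h3 {a, b, c} Finset.card_le_three
    rw [Finset.sum_insert (by simp [hab, hac]), Finset.sum_insert (by simp [hbc]),
      Finset.sum_singleton] at h
    omega
  rw [nine_sum] at hκ
  rcases nine_cases t0 with rfl | rfl | rfl | rfl | rfl | rfl | rfl | rfl | rfl
  · have z := h0
    have e0 := h3' 1 2 3 (by decide) (by decide) (by decide)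
    have e1 := h3' 2 3 4 (by decide) (by decide) (by decide)
    have e2 := h3' 3 4 5 (by decide) (by decide) (by decide)
    have e3 := h3' 4 5 6 (by decide) (by decide) (by decide)
    have e4 := h3' 5 6 7 (by decide) (by decide) (by decide)
    have e5 := h3' 6 7 8 (by decide) (by decide) (by decide)
    have e6 := h3' 7 8 1 (by decide) (by decide) (by decide)
    have e7 := h3' 8 1 2 (by decide) (by decide) (by decide)
    omega
  · have z := h0
    have e0 := h3' 0 2 3 (by decide) (by decide) (by decide)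
    have e1 := h3' 2 3 4 (by decide) (by decide) (by decide)
    have e2 := h3' 3 4 5 (by decide) (by decide) (by decide)
    have e3 := h3' 4 5 6 (by decide) (by decide) (by decide)
    have e4 := h3' 5 6 7 (by decide) (by decide) (by decide)
    have e5 := h3' 6 7 8 (by decide) (by decide) (by decide)
    have e6 := h3' 7 8 0 (by decide) (by decide) (by decide)
    have e7 := h3' 8 0 2 (by decide) (by decide) (by decide)
    omega
  · have z := h0
    have e0 := h3' 0 1 3 (by decide) (by decide) (by decide)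
    have e1 := h3' 1 3 4 (by decide) (by decide) (by decide)
    have e2 := h3' 3 4 5 (by decide) (by decide) (by decide)
    have e3 := h3' 4 5 6 (by decide) (by decide) (by decide)
    have e4 := h3' 5 6 7 (by decide) (by decide) (by decide)
    have e5 := h3' 6 7 8 (by decide) (by decide) (by decide)
    have e6 := h3' 7 8 0 (by decide) (by decide) (by decide)
    have e7 := h3' 8 0 1 (by decide) (by decide) (by decide)
    omega
  · have z := h0
    have e0 := h3' 0 1 2 (by decide) (by decide) (by decide)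
    have e1 := h3' 1 2 4 (by decide) (by decide) (by decide)
    have e2 := h3' 2 4 5 (by decide) (by decide) (by decide)
    have e3 := h3' 4 5 6 (by decide) (by decide) (by decide)
    have e4 := h3' 5 6 7 (by decide) (by decide) (by decide)
    have e5 := h3' 6 7 8 (by decide) (by decide) (by decide)
    have e6 := h3' 7 8 0 (by decide) (by decide) (by decide)
    have e7 := h3' 8 0 1 (by decide) (by decide) (by decide)
    omega
  · have z := h0
    have e0 := h3' 0 1 2 (by decide) (by decide) (by decide)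
    have e1 := h3' 1 2 3 (by decide) (by decide) (by decide)
    have e2 := h3' 2 3 5 (by decide) (by decide) (by decide)
    have e3 := h3' 3 5 6 (by decide) (by decide) (by decide)
    have e4 := h3' 5 6 7 (by decide) (by decide) (by decide)
    have e5 := h3' 6 7 8 (by decide) (by decide) (by decide)
    have e6 := h3' 7 8 0 (by decide) (by decide) (by decide)
    have e7 := h3' 8 0 1 (by decide) (by decide) (by decide)
    omega
  · have z := h0
    have e0 := h3' 0 1 2 (by decide) (by decide) (by decide)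
    have e1 := h3' 1 2 3 (by decide) (by decide) (by decide)
    have e2 := h3' 2 3 4 (by decide) (by decide) (by decide)
    have e3 := h3' 3 4 6 (by decide) (by decide) (by decide)
    have e4 := h3' 4 6 7 (by decide) (by decide) (by decide)
    have e5 := h3' 6 7 8 (by decide) (by decide) (by decide)
    have e6 := h3' 7 8 0 (by decide) (by decide) (by decide)
    have e7 := h3' 8 0 1 (by decide) (by decide) (by decide)
    omega
  · have z := h0
    have e0 := h3' 0 1 2 (by decide) (by decide) (by decide)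
    have e1 := h3' 1 2 3 (by decide) (by decide) (by decide)
    have e2 := h3' 2 3 4 (by decide) (by decide) (by decide)
    have e3 := h3' 3 4 5 (by decide) (by decide) (by decide)
    have e4 := h3' 4 5 7 (by decide) (by decide) (by decide)
    have e5 := h3' 5 7 8 (by decide) (by decide) (by decide)
    have e6 := h3' 7 8 0 (by decide) (by decide) (by decide)
    have e7 := h3' 8 0 1 (by decide) (by decide) (by decide)
    omega
  · have z := h0
    have e0 := h3' 0 1 2 (by decide) (by decide) (by decide)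
    have e1 := h3' 1 2 3 (by decide) (by decide) (by decide)
    have e2 := h3' 2 3 4 (by decide) (by decide) (by decide)
    have e3 := h3' 3 4 5 (by decide) (by decide) (by decide)
    have e4 := h3' 4 5 6 (by decide) (by decide) (by decide)
    have e5 := h3' 5 6 8 (by decide) (by decide) (by decide)
    have e6 := h3' 6 8 0 (by decide) (by decide) (by decide)
    have e7 := h3' 8 0 1 (by decide) (by decide) (by decide)
    omega
  · have z := h0
    have e0 := h3' 0 1 2 (by decide) (by decide) (by decide)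
    have e1 := h3' 1 2 3 (by decide) (by decide) (by decide)
    have e2 := h3' 2 3 4 (by decide) (by decide) (by decide)
    have e3 := h3' 3 4 5 (by decide) (by decide) (by decide)
    have e4 := h3' 4 5 6 (by decide) (by decide) (by decide)
    have e5 := h3' 5 6 7 (by decide) (by decide) (by decide)
    have e6 := h3' 6 7 0 (by decide) (by decide) (by decide)
    have e7 := h3' 7 0 1 (by decide) (by decide) (by decide)
    omega

/-- The Hodge index inequality on eight points. -/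
lemma sq_le {g κ : ℕ} {x : Fin 9 → ℕ} {t0 : Fin 9} (h0 : x t0 = 0)
    (hκ : ∑ t, x t + κ = 3 * g) : g ^ 2 ≤ ∑ t, x t ^ 2 + κ ^ 2 := by
  have e1 : ∑ t ∈ Finset.univ.erase t0, x t = ∑ t, x t := by
    rw [← Finset.add_sum_erase Finset.univ x (Finset.mem_univ t0), h0, Nat.zero_add]
  have e2 : ∑ t ∈ Finset.univ.erase t0, x t ^ 2 = ∑ t, x t ^ 2 := by
    rw [← Finset.add_sum_erase Finset.univ (fun t => x t ^ 2) (Finset.mem_univ t0)]
    simp [h0]
  have hcs : (∑ t ∈ Finset.univ.erase t0, (x t : ℤ)) ^ 2 ≤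
      ((Finset.univ.erase t0).card : ℤ) * ∑ t ∈ Finset.univ.erase t0, (x t : ℤ) ^ 2 :=
    sq_sum_le_card_mul_sum_sq
  have hc : (Finset.univ.erase t0).card = 8 := by
    rw [Finset.card_erase_of_mem (Finset.mem_univ t0)]
    simp
  have e3 : ∑ t ∈ Finset.univ.erase t0, (x t : ℤ) = 3 * (g : ℤ) - κ := by
    have : ((∑ t ∈ Finset.univ.erase t0, x t : ℕ) : ℤ) = 3 * (g : ℤ) - κ := by
      rw [e1]
      omega
    rw [← this]
    push_cast
    rfl
  have e4 : ∑ t ∈ Finset.univ.erase t0, (x t : ℤ) ^ 2 = ((∑ t, x t ^ 2 : ℕ) : ℤ) := by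
    rw [← e2]
    push_cast
    rfl
  rw [e3, e4, hc] at hcs
  obtain ⟨B, hB⟩ : ∃ B : ℕ, B = ∑ t, x t ^ 2 := ⟨_, rfl⟩
  rw [← hB] at hcs ⊢
  zify
  push_cast at hcs
  nlinarith [sq_nonneg ((g : ℤ) - 3 * κ)]

/-- The self-intersection is large when the degree is. -/
lemma sq_of_deg2 {ν : ℕ → ℕ} (hν : Antitone ν) {m d κ : ℕ} (hm : 1 ≤ m) (hm9 : m ≤ ν 8)
    (hd : ν 0 + ν 1 + ν 2 ≤ d)
    (hK : ν 0 + ν 1 + ν 2 + ν 3 + ν 4 + ν 5 + ν 6 + ν 7 + ν 8 + κ = 3 * d)
    (hbig : 780 * m ^ 2 ≤ d) (hκ : 9400 * m ^ 3 ≤ κ * d) :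
    ν 0 ^ 2 + ν 1 ^ 2 + ν 2 ^ 2 + ν 3 ^ 2 + ν 4 ^ 2 + ν 5 ^ 2 + ν 6 ^ 2 + ν 7 ^ 2 +
      ν 8 ^ 2 + 3100 * m ^ 3 ≤ d ^ 2 := by
  have a0 := hν (show 0 ≤ 1 by norm_num)
  have a1 := hν (show 1 ≤ 2 by norm_num)
  have h := fun j (hj : 2 ≤ j) => hν hj
  obtain ⟨S, hS⟩ : ∃ S, S = ν 2 := ⟨_, rfl⟩
  have key : ∀ j, 2 ≤ j → ν j ^ 2 + (S - ν j) * S ≤ S ^ 2 := by
    intro j hj
    have h1 := h j hj
    rw [← hS] at h1
    obtain ⟨p, hp⟩ : ∃ p, S = ν j + p := ⟨S - ν j, by omega⟩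
    rw [hp, Nat.add_sub_cancel_left]
    have e : (ν j + p) ^ 2 = ν j ^ 2 + p * (ν j + p) + ν j * p := by ring
    rw [e]
    exact Nat.le_add_right _ _
  have k3 := key 3 (by norm_num)
  have k4 := key 4 (by norm_num)
  have k5 := key 5 (by norm_num)
  have k6 := key 6 (by norm_num)
  have k7 := key 7 (by norm_num)
  have k8 := key 8 (by norm_num)
  have l3 := h 3 (by norm_num)
  have l4 := h 4 (by norm_num)
  have l5 := h 5 (by norm_num)
  have l6 := h 6 (by norm_num)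
  have l7 := h 7 (by norm_num)
  have l8 := h 8 (by norm_num)
  rw [← hS] at l3 l4 l5 l6 l7 l8 a1 hd hK
  obtain ⟨k, hk⟩ : ∃ k, k = (S - ν 3) + (S - ν 4) + (S - ν 5) + (S - ν 6) + (S - ν 7) +
    (S - ν 8) := ⟨_, rfl⟩
  have k9 : ν 3 ^ 2 + ν 4 ^ 2 + ν 5 ^ 2 + ν 6 ^ 2 + ν 7 ^ 2 + ν 8 ^ 2 + k * S ≤ 6 * S ^ 2 := by
    have e : k * S = (S - ν 3) * S + (S - ν 4) * S + (S - ν 5) * S + (S - ν 6) * S +
        (S - ν 7) * S + (S - ν 8) * S := by rw [hk]; ring
    omega
  have k10 : ν 3 + ν 4 + ν 5 + ν 6 + ν 7 + ν 8 + k = 6 * S := by omega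
  obtain ⟨b, hb⟩ : ∃ b, ν 1 = S + b := ⟨ν 1 - S, by omega⟩
  obtain ⟨a, ha⟩ : ∃ a, ν 0 = S + b + a := ⟨ν 0 - ν 1, by omega⟩
  obtain ⟨g, hg⟩ : ∃ g, d = ν 0 + ν 1 + S + g := ⟨d - (ν 0 + ν 1 + S), by omega⟩
  have hmS : m ≤ S := by omega
  have hdd : d = 3 * S + (a + 2 * b + g) := by omega
  have hκ2 : κ = 3 * g + 2 * a + 4 * b + k := by omega
  have hD : ν 0 ^ 2 + ν 1 ^ 2 + S ^ 2 + 6 * S ^ 2 + 4 * (a + 2 * b + g) * S ≤ d ^ 2 := by
    rw [hg, ha, hb]
    have e : (S + b + a + (S + b) + S + g) ^ 2 = (S + b + a) ^ 2 + (S + b) ^ 2 + S ^ 2 +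
        6 * S ^ 2 + 4 * (a + 2 * b + g) * S +
        (g ^ 2 + 2 * g * S + 4 * g * b + 2 * g * a + 2 * b ^ 2 + 2 * a * b) := by ring
    rw [e]
    exact Nat.le_add_right _ _
  rw [← hS]
  clear key hν h k3 k4 k5 k6 k7 k8
  suffices hmain : 3100 * m ^ 3 ≤ 4 * (a + 2 * b + g) * S + k * S by omega
  obtain ⟨u, hu⟩ : ∃ u, u = a + 2 * b + g := ⟨_, rfl⟩
  rw [← hu] at hdd ⊢
  have h8 : (m : ℤ) ≤ (m : ℤ) ^ 2 := by exact_mod_cast Nat.le_self_pow (by norm_num) m
  have h9 : (0 : ℤ) ≤ (m : ℤ) ^ 2 := by positivity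
  have h7 : (0 : ℤ) ≤ (m : ℤ) ^ 3 := by positivity
  have h6 : (m : ℤ) ^ 2 ≤ (m : ℤ) ^ 3 := pow_le_pow_right₀ (by exact_mod_cast hm) (by norm_num)
  have h5 : (m : ℤ) ^ 3 ≤ (m : ℤ) ^ 4 := pow_le_pow_right₀ (by exact_mod_cast hm) (by norm_num)
  rcases Nat.lt_or_ge (100 * u) d with hlt | hge
  · -- d large compared with u
    have hS1 : 99 * d ≤ 300 * S := by omega
    have hk4 : κ ≤ 4 * u + k := by omega
    have f1 : κ * S ≤ (4 * u + k) * S := Nat.mul_le_mul_right S hk4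
    have f2 : κ * (99 * d) ≤ κ * (300 * S) := Nat.mul_le_mul_left κ hS1
    have f3 : (4 * u + k) * S = 4 * u * S + k * S := by ring
    have f4 : κ * (99 * d) = 99 * (κ * d) := by ring
    have f5 : κ * (300 * S) = 300 * (κ * S) := by ring
    omega
  · have h2 : 3100 * m ^ 3 ≤ 4 * u * S := by
      rcases Nat.lt_or_ge S (100 * m ^ 2) with hS1 | hS1
      · zify at *
        have h3 : (0 : ℤ) ≤ ((S : ℤ) - m) * (100 * (m : ℤ) ^ 2 - S) :=
          mul_nonneg (by linarith) (by linarith)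
        have h4 : (780 * (m : ℤ) ^ 2 - 3 * S) * S ≤ u * S :=
          mul_le_mul_of_nonneg_right (by linarith) (by positivity)
        have h5 : (0 : ℤ) ≤ ((S : ℤ) - m) * (480 * (m : ℤ) ^ 2 - 3 * m) :=
          mul_nonneg (by linarith) (by linarith)
        have e1 : (780 * (m : ℤ) ^ 2 - 3 * S) * S = 3 * (((S : ℤ) - m) * (100 * (m : ℤ) ^ 2 - S)) +
            ((S : ℤ) - m) * (480 * (m : ℤ) ^ 2 - 3 * m) + 780 * (m : ℤ) ^ 3 - 3 * (m : ℤ) ^ 2 := by
          ring
        have e2 : 4 * (u : ℤ) * S = 4 * (u * S) := by ring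
        rw [e2]
        linarith
      · have f1 : d * (100 * m ^ 2) ≤ 100 * u * S := Nat.mul_le_mul hge hS1
        have f2 : 780 * m ^ 2 * (100 * m ^ 2) ≤ d * (100 * m ^ 2) :=
          Nat.mul_le_mul_right _ hbig
        have f3 : 780 * m ^ 2 * (100 * m ^ 2) = 78000 * m ^ 4 := by ring
        have f4 : 100 * u * S = 100 * (u * S) := by ring
        have f5 : m ^ 3 ≤ m ^ 4 := Nat.pow_le_pow_right hm (by norm_num)
        have f6 : 4 * u * S = 4 * (u * S) := by ring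
        omega
    exact h2.trans (Nat.le_add_right _ _)

end Pool.MP_70e04f_ag.Hal

end

/-! ### from `Lib_MP_70e04f_hal.HClass` -/

section

/-!
# Adding small points along a Halphen pencil
-/

namespace Pool.MP_70e04f_ag.Hal

open MvPolynomial Pool.MP_70e04f_ag.Hex Pool.MP_70e04f_ag.Add Pool.MP_70e04f_ag.Nine

/-- Fewer conditions. -/
lemma hT_anti {τ : Type*} {N : ℕ} {m m' : τ → ℕ} (q : τ → Fin 2 → ℝ) (h : ∀ t, m t ≤ m' t) :
    hT N m' q ≤ hT N m q := by
  unfold hT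
  apply Submodule.finrank_mono
  intro F hF
  refine ⟨hF.1, ?_⟩
  have h1 := hF.2
  rw [SetLike.mem_coe, mem_vanish] at h1 ⊢
  intro t
  exact Ideal.pow_le_pow_right (h t) (h1 t)

section
variable {d κ c : ℕ} {mT : Fin 9 → ℕ}

lemma sum_sub_nine (hc : ∀ t, c ≤ mT t) : ∑ t, (mT t - c) + 9 * c = ∑ t, mT t := by
  have h1 : ∑ t : Fin 9, c = 9 * c := by simp
  rw [← h1, ← Finset.sum_add_distrib]
  exact Finset.sum_congr rfl fun t _ => Nat.sub_add_cancel (hc t)

/-- Subtracting a multiple of the anticanonical class. -/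
lemma cls (h3 : ∀ U : Finset (Fin 9), U.card ≤ 3 → ∑ t ∈ U, mT t ≤ d)
    (hκ : ∑ t, mT t + κ = 3 * d) (hκ1 : 1 ≤ κ) (hc : ∀ t, c ≤ mT t) :
    3 * c ≤ d ∧ (∀ U : Finset (Fin 9), U.card ≤ 3 → ∑ t ∈ U, (mT t - c) ≤ d - 3 * c) ∧
      Std (d + 1 - 3 * c) (fun t => mT t - c) ∧
      ∑ t, (mT t - c) + κ + 3 = 3 * (d + 1 - 3 * c) := by
  have hs := sum_sub_nine hc
  have h0 : 3 * c ≤ d := by
    have h1 := h3 {0, 1, 2} (by decide)
    rw [Finset.sum_insert (by decide), Finset.sum_insert (by decide), Finset.sum_singleton] at h1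
    have a0 := hc 0
    have a1 := hc 1
    have a2 := hc 2
    omega
  have hU : ∀ U : Finset (Fin 9), U.card ≤ 3 → ∑ t ∈ U, (mT t - c) ≤ d - 3 * c := by
    intro U hU
    obtain ⟨V, hUV, hV⟩ := Finset.exists_superset_card_eq hU (by simp)
    have h1 := h3 V hV.le
    have h2 : ∑ t ∈ V, (mT t - c) + V.card * c = ∑ t ∈ V, mT t := by
      rw [← smul_eq_mul, ← Finset.sum_const, ← Finset.sum_add_distrib]
      exact Finset.sum_congr rfl fun t _ => Nat.sub_add_cancel (hc t)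
    rw [hV] at h2
    have h4 : ∑ t ∈ U, (mT t - c) ≤ ∑ t ∈ V, (mT t - c) := Finset.sum_le_sum_of_subset hUV
    omega
  refine ⟨h0, hU, ⟨?_, ?_⟩, ?_⟩
  · intro U h
    have h1 := hU U h
    change ∑ t ∈ U, (mT t - c) + 1 ≤ _
    omega
  · change ∑ t, (mT t - c) + 3 ≤ _
    omega
  · omega

/-- The exact dimension. -/
lemma cls_ex {s : Fin 9 → ℝ} (hs : Function.Injective s)
    (h3 : ∀ U : Finset (Fin 9), U.card ≤ 3 → ∑ t ∈ U, mT t ≤ d)
    (hκ : ∑ t, mT t + κ = 3 * d) (hκ1 : 1 ≤ κ) (hc : ∀ t, c ≤ mT t) :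
    2 * hT (d + 1 - 3 * c) (fun t => mT t - c) (npt s) +
      ∑ t, (mT t - c) * (mT t - c + 1) = (d + 1 - 3 * c) * (d + 1 - 3 * c + 1) := by
  obtain ⟨-, -, h1, h2⟩ := cls h3 hκ hκ1 hc
  have h4 := hT_nod hs h1 (Or.inl (by omega))
  have h5 := hT_ge (d + 1 - 3 * c) (fun t => mT t - c) (npt s)
  exact le_antisymm h4 h5

/-- Adding a multiple of the anticanonical class. -/
lemma cls_diff {s : Fin 9 → ℝ} (hs : Function.Injective s)
    (h3 : ∀ U : Finset (Fin 9), U.card ≤ 3 → ∑ t ∈ U, mT t ≤ d)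
    (hκ : ∑ t, mT t + κ = 3 * d) (hκ1 : 1 ≤ κ) (hc : ∀ t, c ≤ mT t) (a c1 : ℕ)
    (hac : c1 + a = c) :
    hT (d + 1 - 3 * c1) (fun t => mT t - c1) (npt s) =
      hT (d + 1 - 3 * c) (fun t => mT t - c) (npt s) + a * κ := by
  have hc1 : ∀ t, c1 ≤ mT t := fun t => by have := hc t; omega
  have e0 := cls_ex hs h3 hκ hκ1 hc
  have e1 := cls_ex hs h3 hκ hκ1 hc1
  obtain ⟨h0, -, -, hK⟩ := cls h3 hκ hκ1 hc
  generalize hT (d + 1 - 3 * c1) (fun t => mT t - c1) (npt s) = E1 at *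
  generalize hT (d + 1 - 3 * c) (fun t => mT t - c) (npt s) = E0 at *
  obtain ⟨N, hN⟩ : ∃ N, d + 1 - 3 * c = N := ⟨_, rfl⟩
  have hN1 : d + 1 - 3 * c1 = N + 3 * a := by omega
  rw [hN] at e0 hK
  rw [hN1] at e1
  have e2 : ∑ t, (mT t - c1) * (mT t - c1 + 1) = ∑ t, (mT t - c) * (mT t - c + 1) +
      2 * a * ∑ t, (mT t - c) + 9 * (a * (a + 1)) := by
    have h9 : 9 * (a * (a + 1)) = ∑ t : Fin 9, a * (a + 1) := by simp
    rw [h9, Finset.mul_sum, ← Finset.sum_add_distrib, ← Finset.sum_add_distrib]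
    refine Finset.sum_congr rfl fun t _ => ?_
    have h1 := hc t
    obtain ⟨y, hy⟩ : ∃ y, mT t - c = y := ⟨_, rfl⟩
    have h2 : mT t - c1 = y + a := by omega
    rw [h2, hy]
    ring
  rw [e2] at e1
  generalize ∑ t, (mT t - c) * (mT t - c + 1) = A at *
  generalize ∑ t, (mT t - c) = B at *
  have e3 : 2 * a * B + 2 * a * κ + 6 * a = 6 * a * N := by
    have : 2 * a * (B + κ + 3) = 2 * a * (3 * N) := by rw [hK]
    linarith
  have e4 : 2 * E1 = 2 * (E0 + a * κ) := by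
    zify at *
    linarith
  omega

end

/-- Adding small points along a Halphen pencil. -/
theorem tri_halphen {n : ℕ} (m ν κ c d : ℕ) (mT : Fin 9 → ℕ) (mm : Fin n → ℕ) (hm : 1 ≤ m)
    (hmm : ∀ i, mm i ≤ m) (h3 : ∀ U : Finset (Fin 9), U.card ≤ 3 → ∑ t ∈ U, mT t ≤ d)
    (hκ : ∑ t, mT t + κ = 3 * d) (hκ1 : 1 ≤ κ) (hc : ∀ t, c ≤ mT t) (t0 : Fin 9)
    (ht0 : mT t0 = c) (hL : 8 * m ^ 2 + 3 * m ≤ ν * κ)
    (hL2 : 3 * κ ^ 2 + κ + 2 * m + 6 ≤ 2 * (ν * κ)) (hW : 2 * m * ν ≤ c) :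
    OK (tri (d + 1)) (Sum.elim mT mm) := by
  classical
  have hν : 1 ≤ ν := by
    rcases Nat.eq_zero_or_pos ν with h | h
    · subst h; omega
    · exact h
  have hνκ : κ + 1 ≤ ν := by
    by_contra hcon
    have h1 : ν * κ ≤ κ * κ := Nat.mul_le_mul_right κ (by omega)
    nlinarith
  obtain ⟨s, hs⟩ := exists_tors ν hν
  obtain ⟨f, P, hf⟩ := exists_halphen hs hν
  have hC := two_le_hT hs hν
  obtain ⟨Q, -, hQ1, hQ2, hQ3⟩ := exists_rows2 (N := d + 1) (k := 3 * ν) (by omega) (m := mT) hf hC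
  -- the dimensions
  obtain ⟨X, hX⟩ : ∃ X : ℕ → ℕ, X = fun c1 => hT (d + 1 - 3 * c1) (fun t => mT t - c1) (npt s) :=
    ⟨_, rfl⟩
  have hrow : ∀ j, rowc Q j + X ((j + 1) * ν) = X (j * ν) := by
    intro j
    have h1 := hQ1 j
    have e1 : ∀ j, j * (3 * ν) = 3 * (j * ν) := fun j => by ring
    rw [e1, e1] at h1
    rw [hX]
    exact h1
  have hdiff : ∀ a c1 c2, c2 ≤ c → c1 + a = c2 → X c1 = X c2 + a * κ := by
    intro a c1 c2 h2 h1
    rw [hX]
    exact cls_diff hs.inj h3 hκ hκ1 (fun t => h2.trans (hc t)) a c1 h1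
  -- the class without multiples of the anticanonical class
  obtain ⟨g, hg⟩ : ∃ g, d = 3 * c + g := by
    obtain ⟨h0, -⟩ := cls h3 hκ hκ1 hc
    exact ⟨d - 3 * c, by omega⟩
  obtain ⟨x, hx⟩ : ∃ x : Fin 9 → ℕ, x = fun t => mT t - c := ⟨_, rfl⟩
  obtain ⟨-, hx3, hxStd, hxK⟩ := cls h3 hκ hκ1 hc
  have eg : d - 3 * c = g := by omega
  have eg1 : d + 1 - 3 * c = g + 1 := by omega
  rw [eg] at hx3
  rw [eg1] at hxK hxStd
  have hxκ : ∑ t, x t + κ = 3 * g := by rw [hx]; simp only; omega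
  have hx0 : x t0 = 0 := by rw [hx]; simp only; omega
  have hgκ : g ≤ 3 * κ := deg_le hx0 (by rw [hx]; exact hx3) hxκ
  have hsq : g ^ 2 ≤ ∑ t, x t ^ 2 + κ ^ 2 := sq_le hx0 hxκ
  have hXc : 2 * X c ≤ κ ^ 2 + κ + 2 := by
    have h1 := cls_ex hs.inj h3 hκ hκ1 hc
    rw [eg1] at h1
    have h2 : X c = hT (g + 1) (fun t => mT t - c) (npt s) := by rw [hX]; simp only; rw [eg1]
    rw [← h2] at h1
    have h4 : ∑ t, (mT t - c) * (mT t - c + 1) = ∑ t, x t ^ 2 + ∑ t, x t := by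
      rw [← Finset.sum_add_distrib, hx]
      exact Finset.sum_congr rfl fun t _ => by ring
    rw [h4] at h1
    have h5 : (g + 1) * (g + 1 + 1) = g ^ 2 + 3 * g + 2 := by ring
    rw [h5] at h1
    omega
  -- the number of long rows
  obtain ⟨W, hWdef⟩ : ∃ W, W = c / ν := ⟨_, rfl⟩
  have hW1 : W * ν ≤ c := by rw [hWdef]; exact Nat.div_mul_le_self c ν
  have hW2 : c < (W + 1) * ν := by
    rw [hWdef, mul_comm]
    exact Nat.lt_mul_div_succ c hν
  have hW3 : 2 * m ≤ W := by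
    rw [hWdef]
    exact (Nat.le_div_iff_mul_le hν).2 hW
  obtain ⟨b, hb⟩ : ∃ b, (W + 1) * ν = c + b := ⟨(W + 1) * ν - c, by omega⟩
  have hb1 : 1 ≤ b := by omega
  have eW : (W + 1) * ν = W * ν + ν := by ring
  have eW2 : (W + 1 + 1) * ν = W * ν + 2 * ν := by ring
  -- the long rows
  have hlong : ∀ j, j < W → rowc Q j = ν * κ := by
    intro j hj
    have h1 := hrow j
    have h2 : (j + 1) * ν ≤ W * ν := Nat.mul_le_mul_right ν hj
    have h4 := hdiff ν (j * ν) ((j + 1) * ν) (by omega) (by ring)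
    omega
  -- the last rows
  have hXW : X (W * ν) = X c + (ν - b) * κ := hdiff (ν - b) (W * ν) c le_rfl (by omega)
  have hz2 : ∀ y, (W + 2) * ν ≤ y → X y = 0 := by
    intro y hy
    have e1 : (W + 2) * ν = W * ν + 2 * ν := by ring
    have h1 : d + 1 - 3 * y = 0 := by omega
    rw [hX]
    simp only
    rw [h1]
    exact rows2_hT_zero _ _
  have hη : X ((W + 1) * ν) = 0 ∨ X ((W + 1) * ν) ≤ X c ∧ b ≤ κ := by
    rcases Nat.lt_or_ge (3 * b) (g + 1) with hlt | hge
    · right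
      refine ⟨?_, by omega⟩
      rw [hX]
      simp only
      have h1 := hT_ncu_mul s (d + 1 - 3 * ((W + 1) * ν)) (fun t => mT t - (W + 1) * ν) b
      refine h1.trans ?_
      have e1 : d + 1 - 3 * ((W + 1) * ν) + 3 * b = d + 1 - 3 * c := by omega
      rw [e1]
      apply hT_anti
      intro t
      omega
    · left
      rw [hX]
      simp only
      have e1 : d + 1 - 3 * ((W + 1) * ν) = 0 := by omega
      rw [e1]
      exact rows2_hT_zero _ _
  have hrowW := hrow W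
  have hrowW1 := hrow (W + 1)
  have hzW2 := hz2 ((W + 1 + 1) * ν) (by rw [show W + 2 = W + 1 + 1 from rfl])
  rw [hzW2, Nat.add_zero] at hrowW1
  have hOK : OK Q mm := by
    apply ok_flat m W (ν * κ) Q mm hm hmm hW3 hL hlong
    · intro j hj
      have h1 := hrow j
      rw [hz2 (j * ν) (Nat.mul_le_mul_right ν hj)] at h1
      omega
    · -- the row `W` is not longer
      rcases Nat.eq_zero_or_pos (rowc Q W) with h0 | h0
      · omega
      · obtain ⟨W', rfl⟩ : ∃ W', W = W' + 1 := ⟨W - 1, by omega⟩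
        have h1 := hQ2 W' h0
        have h2 := hlong W' (by omega)
        omega
    · rcases hη with h0 | ⟨h1, h2⟩
      · left
        omega
      · right
        -- the difference of the last two rows
        have h4 : (ν - b) * κ + κ * κ ≥ ν * κ := by
          have : (ν - b) * κ + κ * κ = (ν - b + κ) * κ := by ring
          rw [this]
          exact Nat.mul_le_mul_right κ (by omega)
        have e1 : κ ^ 2 = κ * κ := sq κ
        omega
  obtain ⟨p, hp⟩ := hQ3 n mm hOK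
  have hex := cls_ex (c := 0) hs.inj h3 hκ hκ1 (fun t => Nat.zero_le _)
  simp only [Nat.mul_zero, Nat.sub_zero] at hex
  exact sum_ok mm hex p hp

end Pool.MP_70e04f_ag.Hal

end
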