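import Pool.Agent.Lib_MP_70e04f_m.M27
import Pool.Agent.Lib_MP_70e04f_m.M28
import Pool.Agent.Lib_MP_70e04f_m.M32

/-!
# MP_70e04f_ag, plane linear systems: merged library part M33

Concatenation of smaller files (each in its own section), only to save build time.
-/

namespace Pool.MP_70e04f_ag.Hex
end Pool.MP_70e04f_ag.Hex

namespace Pool.MP_70e04f_ag.Add
end Pool.MP_70e04f_ag.Add

namespace Pool.MP_70e04f_ag.Std3
end Pool.MP_70e04f_ag.Std3

namespace Pool.MP_70e04f_ag.Nine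
end Pool.MP_70e04f_ag.Nine

/-! ### from `Lib_MP_70e04f_nine.Nine` -/

section

/-!
# The nine point theorem: assembly
-/

namespace Pool.MP_70e04f_ag.Nine

open Pool.MP_70e04f_ag.Hex Pool.MP_70e04f_ag.Add Pool.MP_70e04f_ag.Std3

lemma big1 {m a0 a1 : ℕ} (hm : 1 ≤ m) (h0 : 2 * m + 1 ≤ a0) (h1 : 2 * m + 1 ≤ a1)
    (hsq : 3100 * m ^ 3 ≤ a0 ^ 2 + 2 * a0 * a1) :
    7 * m + 8 < (a0 / (2 * m + 1)) ^ 2 + 2 * (a0 / (2 * m + 1)) * (a1 / (2 * m + 1)) := by
  have hdiv : ∀ a, 2 * m + 1 ≤ a → a ≤ 2 * (2 * m + 1) * (a / (2 * m + 1)) := by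
    intro a ha
    have h2 := Nat.div_add_mod a (2 * m + 1)
    have h3 := Nat.mod_lt a (show 0 < 2 * m + 1 by omega)
    have h4 : 1 ≤ a / (2 * m + 1) := (Nat.one_le_div_iff (by omega)).2 ha
    have h5 : (2 * m + 1) * 1 ≤ (2 * m + 1) * (a / (2 * m + 1)) := Nat.mul_le_mul_left _ h4
    have h6 : 2 * (2 * m + 1) * (a / (2 * m + 1)) = 2 * ((2 * m + 1) * (a / (2 * m + 1))) := by
      ring
    omega
  have e0 := hdiv a0 h0
  have e1 := hdiv a1 h1
  generalize a0 / (2 * m + 1) = c0 at *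
  generalize a1 / (2 * m + 1) = c1 at *
  by_contra hcon
  push Not at hcon
  have h2 : a0 ^ 2 + 2 * a0 * a1 ≤ (2 * (2 * m + 1) * c0) ^ 2 +
      2 * (2 * (2 * m + 1) * c0) * (2 * (2 * m + 1) * c1) := by gcongr
  have h3 : (2 * (2 * m + 1) * c0) ^ 2 + 2 * (2 * (2 * m + 1) * c0) * (2 * (2 * m + 1) * c1) =
      4 * (2 * m + 1) ^ 2 * (c0 ^ 2 + 2 * c0 * c1) := by ring
  have h4 : 4 * (2 * m + 1) ^ 2 * (c0 ^ 2 + 2 * c0 * c1) ≤ 4 * (2 * m + 1) ^ 2 * (7 * m + 8) :=
    Nat.mul_le_mul_left _ hcon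
  obtain ⟨x, rfl⟩ : ∃ x, m = x + 1 := ⟨m - 1, by omega⟩
  have h5 : 4 * (2 * (x + 1) + 1) ^ 2 * (7 * (x + 1) + 8) < 3100 * (x + 1) ^ 3 := by
    ring_nf
    nlinarith [Nat.zero_le x, Nat.zero_le (x ^ 2), Nat.zero_le (x ^ 3)]
  omega

lemma big0 {m d : ℕ} (hm : 1 ≤ m) (hsq : 3100 * m ^ 3 ≤ d ^ 2) :
    7 * m + 9 < (d / (2 * m + 1)) ^ 2 := by
  have h2 := Nat.div_add_mod d (2 * m + 1)
  have h3 := Nat.mod_lt d (show 0 < 2 * m + 1 by omega)
  generalize d / (2 * m + 1) = c at *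
  by_contra hcon
  push Not at hcon
  have h4 : d ≤ (2 * m + 1) * (c + 1) := by
    have : (2 * m + 1) * (c + 1) = (2 * m + 1) * c + (2 * m + 1) := by ring
    omega
  have h5 : d ^ 2 ≤ ((2 * m + 1) * (c + 1)) ^ 2 := Nat.pow_le_pow_left h4 2
  have h6 : (c + 1) ^ 2 ≤ 2 * (7 * m + 9) + 2 := by nlinarith [sq_nonneg ((c : ℤ) - 1)]
  have h7 : ((2 * m + 1) * (c + 1)) ^ 2 = (2 * m + 1) ^ 2 * (c + 1) ^ 2 := by ring
  have h8 : (2 * m + 1) ^ 2 * (c + 1) ^ 2 ≤ (2 * m + 1) ^ 2 * (2 * (7 * m + 9) + 2) :=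
    Nat.mul_le_mul_left _ h6
  obtain ⟨x, rfl⟩ : ∃ x, m = x + 1 := ⟨m - 1, by omega⟩
  have h9 : (2 * (x + 1) + 1) ^ 2 * (2 * (7 * (x + 1) + 9) + 2) < 3100 * (x + 1) ^ 3 := by
    ring_nf
    nlinarith [Nat.zero_le x, Nat.zero_le (x ^ 2), Nat.zero_le (x ^ 3)]
  omega

/-- The nine point theorem. -/
theorem gen_nine {n : ℕ} (m d : ℕ) (mm : Fin n → ℕ) (α : Fin 9 → Fin n)
    (hα : Function.Injective α) (hanti : Antitone fun j => mm (α j)) (hm : 1 ≤ m)
    (hm9 : m ≤ mm (α 8)) (hother : ∀ i, i ∉ Set.range α → mm i ≤ m)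
    (hstd : mm (α 0) + mm (α 1) + mm (α 2) ≤ d)
    (hK : ∑ j, mm (α j) + 18 * m < 3 * d)
    (hsq : ∑ j, mm (α j) ^ 2 + 3100 * m ^ 3 ≤ d ^ 2) : GenExp d mm := by
  classical
  obtain ⟨μ, hμ⟩ : ∃ μ : ℕ → ℕ, μ = fun j => if h : j < 9 then mm (α ⟨j, h⟩) else 0 := ⟨_, rfl⟩
  have hμα : ∀ j : Fin 9, μ j = mm (α j) := by
    intro j
    rw [hμ]
    simp only [j.2, dif_pos]
  have hμa : Antitone μ := by
    intro a b hab
    rw [hμ]
    simp only
    by_cases hb : b < 9
    · rw [dif_pos hb, dif_pos (lt_of_le_of_lt hab hb)]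
      exact hanti (show (⟨a, lt_of_le_of_lt hab hb⟩ : Fin 9) ≤ ⟨b, hb⟩ from hab)
    · rw [dif_neg hb]
      exact Nat.zero_le _
  have hμ9 : ∀ j, 9 ≤ j → μ j = 0 := by
    intro j hj
    rw [hμ]
    simp only
    rw [dif_neg (by omega)]
  have hsum : ∀ g : ℕ → ℕ, ∑ j : Fin 9, g (mm (α j)) = g (μ 0) + g (μ 1) + g (μ 2) + g (μ 3) +
      g (μ 4) + g (μ 5) + g (μ 6) + g (μ 7) + g (μ 8) := by
    intro g
    have h1 : ∑ j : Fin 9, g (mm (α j)) = ∑ j : Fin 9, g (μ j) :=
      Finset.sum_congr rfl fun j _ => by rw [hμα]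
    rw [h1]
    simp only [Fin.sum_univ_succ, Fin.val_zero, Fin.val_succ, Finset.univ_unique,
      Finset.sum_singleton, Fin.default_eq_zero]
    ring
  have hK' := hsum (fun x => x)
  have hsq' := hsum (fun x => x ^ 2)
  rw [hK'] at hK
  rw [hsq'] at hsq
  have m0 : mm (α 0) = μ 0 := (hμα 0).symm
  have m1 : mm (α 1) = μ 1 := (hμα 1).symm
  have m2 : mm (α 2) = μ 2 := (hμα 2).symm
  have m8 : mm (α 8) = μ 8 := (hμα 8).symm
  rw [m0, m1, m2] at hstd
  rw [m8] at hm9
  -- the number of large multiplicities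
  have hex : ∃ r, μ r ≤ 2 * m := ⟨9, by rw [hμ9 9 le_rfl]; omega⟩
  obtain ⟨r, hr⟩ : ∃ r, r = Nat.find hex := ⟨_, rfl⟩
  have hr1 : μ r ≤ 2 * m := by rw [hr]; exact Nat.find_spec hex
  have hr2 : ∀ j, j < r → 2 * m + 1 ≤ μ j := by
    intro j hj
    rw [hr] at hj
    have := Nat.find_min hex hj
    omega
  have hr9 : r ≤ 9 := by
    by_contra hcon
    have := hr2 9 (by omega)
    rw [hμ9 9 le_rfl] at this
    omega
  obtain ⟨ν, hν⟩ : ∃ ν : ℕ → ℕ, ν = fun j => if j < r then μ j else 0 := ⟨_, rfl⟩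
  have hνlt : ∀ j, j < r → ν j = μ j := by
    intro j hj
    rw [hν]
    simp only
    rw [if_pos hj]
  have hνge : ∀ j, r ≤ j → ν j = 0 := by
    intro j hj
    rw [hν]
    simp only
    rw [if_neg (by omega)]
  have hνa : Antitone ν := by
    intro a b hab
    rcases Nat.lt_or_ge b r with h | h
    · rw [hνlt b h, hνlt a (by omega)]
      exact hμa hab
    · rw [hνge b h]
      exact Nat.zero_le _
  have hνle : ∀ j, ν j ≤ μ j := by
    intro j
    rcases Nat.lt_or_ge j r with h | h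
    · rw [hνlt j h]
    · rw [hνge j h]
      exact Nat.zero_le _
  have hνstd : ν 0 + ν 1 + ν 2 ≤ d := by
    have h0 := hνle 0
    have h1 := hνle 1
    have h2 := hνle 2
    omega
  have hνsq : ν 0 ^ 2 + ν 1 ^ 2 + ν 2 ^ 2 + ν 3 ^ 2 + ν 4 ^ 2 + ν 5 ^ 2 + ν 6 ^ 2 + ν 7 ^ 2 +
      ν 8 ^ 2 + 3100 * m ^ 3 ≤ d ^ 2 := by
    have h := fun j => Nat.pow_le_pow_left (hνle j) 2
    have b0 := h 0
    have b1 := h 1
    have b2 := h 2
    have b3 := h 3
    have b4 := h 4
    have b5 := h 5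
    have b6 := h 6
    have b7 := h 7
    have b8 := h 8
    omega
  have core := fun hP => genExp_of_OK d mm (nine_core m d r mm α hα ν hνa hνge hr9
    (fun j hj => by rw [hνlt j hj, hμα]) (fun j hj => by
      have := hμa hj
      rw [hμα] at this
      omega) hother hνstd hP)
  rcases (show r = 0 ∨ r = 1 ∨ r = 2 ∨ r = 3 ∨ r = 4 ∨ r = 5 ∨ r = 6 ∨ r = 7 ∨ r = 8 ∨ r = 9 by
    omega) with h | h | h | h | h | h | h | h | h | h
  · -- no large multiplicity
    subst h
    apply core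
    have z := fun j => hνge j (Nat.zero_le j)
    have h1 := big0 (m := m) (d := d) hm (by
      have := z 0
      omega)
    simp only [z, Nat.sub_zero, Nat.zero_sub, Nat.zero_div, Nat.add_zero]
    unfold PP
    ring_nf
    ring_nf at h1
    omega
  · subst h
    have z1 := hνge 1 le_rfl
    have z2 := hνge 2 (by norm_num)
    have z3 := hνge 3 (by norm_num)
    have z4 := hνge 4 (by norm_num)
    have z5 := hνge 5 (by norm_num)
    have z6 := hνge 6 (by norm_num)
    have z7 := hνge 7 (by norm_num)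
    have z8 := hνge 8 (by norm_num)
    have y0 := hνlt 0 (by norm_num)
    have y1 := hr2 0 (by norm_num)
    have a2 := hμa (show 2 ≤ 8 by norm_num)
    have a1 := hμa (show 1 ≤ 2 by norm_num)
    rcases Nat.lt_or_ge (d - μ 0) (2 * m + 1) with hlt | hge
    · -- the boundary case
      have h01 : α 0 ≠ α 1 := fun h => by simpa using hα h
      have h02 : α 0 ≠ α 2 := fun h => by simpa using hα h
      have h12 : α 1 ≠ α 2 := fun h => by simpa using hα h
      apply gen_standard n m d mm (α 0) (α 1) (α 2) h01 h02 h12 hm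
      · rw [m0]; omega
      · rw [m1]; omega
      · rw [m2]; omega
      · intro i i0 i1 i2
        by_cases hi : i ∈ Set.range α
        · obtain ⟨j, rfl⟩ := hi
          have hj : 2 ≤ (j : ℕ) := by
            by_contra hcon
            rcases (show (j : ℕ) = 0 ∨ (j : ℕ) = 1 by omega) with h | h
            · exact i0 (by rw [show j = 0 from Fin.ext h])
            · exact i1 (by rw [show j = 1 from Fin.ext h])
          have := hμa hj
          rw [hμα] at this
          omega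
        · exact hother i hi
      · rw [m0, m1, m2]; exact hstd
      · have h1 : 3100 * m ^ 3 ≤ 4 * m * μ 0 + 4 * m ^ 2 := by
          have h2 : d ^ 2 ≤ (μ 0 + 2 * m) ^ 2 := Nat.pow_le_pow_left (by omega) 2
          have h3 : (μ 0 + 2 * m) ^ 2 = μ 0 ^ 2 + 4 * m * μ 0 + 4 * m ^ 2 := by ring
          omega
        have h2 : m * (3100 * m ^ 2) ≤ m * (4 * μ 0 + 4 * m) := by
          have e1 : m * (3100 * m ^ 2) = 3100 * m ^ 3 := by ring
          have e2 : m * (4 * μ 0 + 4 * m) = 4 * m * μ 0 + 4 * m ^ 2 := by ring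
          omega
        have h3 := Nat.le_of_mul_le_mul_left h2 (by omega)
        have h4 : m ≤ m ^ 2 := Nat.le_self_pow (by norm_num) m
        omega
    · apply core
      have h1 := big1 (m := m) (a0 := d - μ 0) (a1 := μ 0) hm hge y1 (by
        obtain ⟨x, hx⟩ : ∃ x, d = μ 0 + x := ⟨d - μ 0, by omega⟩
        have e1 : d - μ 0 = x := by omega
        rw [e1]
        rw [hx] at hνsq
        rw [y0] at hνsq
        have e2 : (μ 0 + x) ^ 2 = μ 0 ^ 2 + (x ^ 2 + 2 * x * μ 0) := by ring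
        omega)
      simp only [z1, z2, z3, z4, z5, z6, z7, z8, y0, Nat.sub_zero, Nat.zero_sub, Nat.zero_div,
        Nat.add_zero, Nat.sub_self]
      unfold PP
      ring_nf
      ring_nf at h1
      omega
  · subst h
    exact core (big2 hνa hm hνstd (by rw [hνlt 1 (by norm_num)]; exact hr2 1 (by norm_num)) hνge
      hνsq)
  · subst h
    exact core (big3 hνa hm hνstd (by rw [hνlt 2 (by norm_num)]; exact hr2 2 (by norm_num)) hνge
      hνsq)
  · subst h
    exact core (big4 hνa hm hνstd (by rw [hνlt 3 (by norm_num)]; exact hr2 3 (by norm_num)) hνge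
      hνsq)
  · subst h
    exact core (big5 hνa hm hνstd (by rw [hνlt 4 (by norm_num)]; exact hr2 4 (by norm_num)) hνge
      hνsq)
  · subst h
    exact core (big6 hνa hm hνstd (by rw [hνlt 5 (by norm_num)]; exact hr2 5 (by norm_num)) hνge
      hνsq)
  · subst h
    exact core (big7 hνa hm hνstd (by rw [hνlt 6 (by norm_num)]; exact hr2 6 (by norm_num)) hνge
      hνsq)
  · subst h
    exact core (big8 hνa hm hνstd (by rw [hνlt 7 (by norm_num)]; exact hr2 7 (by norm_num)) hνge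
      hνsq)
  · subst h
    by_cases hs : 1 ≤ (d - (ν 0 + ν 1 + ν 2)) / (2 * m + 1) + (ν 0 - ν 1) / (2 * m + 1) + (ν 1 - ν 2) / (2 * m + 1) + (ν 2 - ν 3) / (2 * m + 1) + (ν 3 - ν 4) / (2 * m + 1) + (ν 4 - ν 5) / (2 * m + 1) + (ν 5 - ν 6) / (2 * m + 1) + (ν 6 - ν 7) / (2 * m + 1) + (ν 7 - ν 8) / (2 * m + 1)
    · exact core (big9 hνa hm hνstd (by rw [hνlt 8 (by norm_num)]; exact hr2 8 (by norm_num)) hs
        hνsq)
    · have hb := big9' hνa hm hνstd hs hνsq
      apply genExp_of_OK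
      apply ext9 m d mm α hα ν hνa (fun j => by rw [hνlt j j.2, hμα]) hm hother hνstd _ hb
      have b0 := hνle 0
      have b1 := hνle 1
      have b2 := hνle 2
      have b3 := hνle 3
      have b4 := hνle 4
      have b5 := hνle 5
      have b6 := hνle 6
      have b7 := hνle 7
      have b8 := hνle 8
      omega

end Pool.MP_70e04f_ag.Nine

end

/-! ### from `Lib_MP_70e04f_nine.Final` -/

section

/-!
# The nine point theorem: final form
-/

namespace Pool.MP_70e04f_ag.Nine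

open Pool.MP_70e04f_ag.Hex Pool.MP_70e04f_ag.Add

/-- The nine point theorem, with a bound for the degree or for the self-intersection. -/
theorem gen_nine_final {n : ℕ} (m d D : ℕ) (mm : Fin n → ℕ) (α : Fin 9 → Fin n)
    (hα : Function.Injective α) (hanti : Antitone fun j => mm (α j)) (hm : 1 ≤ m)
    (hm9 : m ≤ mm (α 8)) (hother : ∀ i, i ∉ Set.range α → mm i ≤ m)
    (hstd : mm (α 0) + mm (α 1) + mm (α 2) ≤ d)
    (hK : ∑ j, mm (α j) + 18 * m < 3 * d)
    (hsq : ∑ j, mm (α j) ^ 2 + 3100 * m ^ 3 ≤ d ^ 2 ∨ 780 * m ^ 2 ≤ d)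
    (hD : D = d ∨ D ≤ d ∧ (d + 1) * (d + 2) ≤ ∑ i, mm i * (mm i + 1)) : GenExp D mm := by
  have hsq' : ∑ j, mm (α j) ^ 2 + 3100 * m ^ 3 ≤ d ^ 2 := by
    rcases hsq with h | h
    · exact h
    · obtain ⟨μ, hμ⟩ : ∃ μ : ℕ → ℕ, μ = fun j => if h : j < 9 then mm (α ⟨j, h⟩) else 0 :=
        ⟨_, rfl⟩
      have hμα : ∀ j : Fin 9, mm (α j) = μ j := by
        intro j
        rw [hμ]
        simp only [j.2, dif_pos]
      have hμa : Antitone μ := by
        intro a b hab
        rw [hμ]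
        simp only
        by_cases hb : b < 9
        · rw [dif_pos hb, dif_pos (lt_of_le_of_lt hab hb)]
          exact hanti (show (⟨a, lt_of_le_of_lt hab hb⟩ : Fin 9) ≤ ⟨b, hb⟩ from hab)
        · rw [dif_neg hb]
          exact Nat.zero_le _
      have e1 : ∑ j, mm (α j) = ∑ j : Fin 9, μ j := Finset.sum_congr rfl fun j _ => hμα j
      have e2 : ∑ j, mm (α j) ^ 2 = ∑ j : Fin 9, μ j ^ 2 :=
        Finset.sum_congr rfl fun j _ => by rw [hμα]
      have e3 := sum9 (fun j => μ j ^ 2)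
      rw [e1, sum9] at hK
      rw [e2, e3]
      have m0 := hμα 0
      have m1 := hμα 1
      have m2 := hμα 2
      have m8 := hμα 8
      have f0 : ((0 : Fin 9) : ℕ) = 0 := rfl
      have f1 : ((1 : Fin 9) : ℕ) = 1 := rfl
      have f2 : ((2 : Fin 9) : ℕ) = 2 := rfl
      have f8 : ((8 : Fin 9) : ℕ) = 8 := rfl
      rw [f0] at m0
      rw [f1] at m1
      rw [f2] at m2
      rw [f8] at m8
      exact sq_of_deg hμa (by omega) (by omega) hK h
  have h := gen_nine m d mm α hα hanti hm hm9 hother hstd hK hsq'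
  rcases hD with rfl | ⟨h1, h2⟩
  · exact h
  · exact h.le h1 h2

end Pool.MP_70e04f_ag.Nine

end

/-! ### from `Lib_MP_70e04f_hal.HFinal` -/

section

/-!
# All systems in standard form of large degree
-/

namespace Pool.MP_70e04f_ag.Hal

open MvPolynomial Pool.MP_70e04f_ag.Hex Pool.MP_70e04f_ag.Add Pool.MP_70e04f_ag.Nine

/-- Nine large points and the others. -/
lemma tri_of_nine {n : ℕ} (N : ℕ) (mm : Fin n → ℕ) (α : Fin 9 → Fin n)
    (hα : Function.Injective α)
    (h : OK (tri N) (Sum.elim (fun t => mm (α t))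
      (fun i : Fin n => if i ∈ Finset.univ.image α then 0 else mm i))) : OK (tri N) mm := by
  classical
  have hex : ∀ i : Fin n, i ∈ Finset.univ.image α → ∃ t, α t = i := by
    intro i hi
    rw [Finset.mem_image] at hi
    obtain ⟨t, _, ht⟩ := hi
    exact ⟨t, ht⟩
  refine OK.restrict (fun i : Fin n => if h : i ∈ Finset.univ.image α then
    Sum.inl (hex i h).choose else Sum.inr i) ?_ ?_ ?_ h
  · intro i i' hii
    simp only at hii
    by_cases hi : i ∈ Finset.univ.image α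
    · by_cases hi' : i' ∈ Finset.univ.image α
      · rw [dif_pos hi, dif_pos hi'] at hii
        have h1 := Sum.inl_injective hii
        rw [← (hex i hi).choose_spec, ← (hex i' hi').choose_spec, h1]
      · rw [dif_pos hi, dif_neg hi'] at hii
        exact absurd hii (by simp)
    · by_cases hi' : i' ∈ Finset.univ.image α
      · rw [dif_neg hi, dif_pos hi'] at hii
        exact absurd hii (by simp)
      · rw [dif_neg hi, dif_neg hi'] at hii
        exact Sum.inr_injective hii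
  · intro i
    by_cases hi : i ∈ Finset.univ.image α
    · simp only [dif_pos hi, Sum.elim_inl]
      rw [(hex i hi).choose_spec]
    · simp only [dif_neg hi, Sum.elim_inr]
      rw [if_neg hi]
  · rintro (t | i) ho
    · exfalso
      apply ho
      have hi : α t ∈ Finset.univ.image α := Finset.mem_image_of_mem α (Finset.mem_univ t)
      refine ⟨α t, ?_⟩
      simp only [dif_pos hi]
      congr 1
      exact hα (hex (α t) hi).choose_spec
    · by_cases hi : i ∈ Finset.univ.image α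
      · simp only [Sum.elim_inr, if_pos hi]
      · exfalso
        apply ho
        exact ⟨i, by simp only [dif_neg hi]⟩

/-- Multiples of the anticanonical class. -/
theorem tri_anti {n : ℕ} (c : ℕ) (mT : Fin 9 → ℕ) (mm : Fin n → ℕ) (hT : ∀ t, mT t = c) :
    OK (tri (3 * c + 1)) (Sum.elim mT mm) := by
  have h1 : mT = fun _ => c := funext hT
  subst h1
  let e : Fin 9 → ℝ := fun t => ((t : ℕ) : ℝ) + 2
  have he : Function.Injective e := by
    intro a b hab
    have h1 : ((a : ℕ) : ℝ) = ((b : ℕ) : ℝ) := by simpa [e] using hab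
    exact Fin.ext (Nat.cast_injective h1)
  have he0 : ∀ t, 0 < e t := by
    intro t
    have : (0 : ℝ) ≤ ((t : ℕ) : ℝ) := Nat.cast_nonneg _
    simp only [e]
    linarith
  have hstd : Std (3 * c + 1) (fun _ : Fin 9 => c) := by
    constructor
    · intro U hU
      rw [Finset.sum_const, smul_eq_mul]
      have := Nat.mul_le_mul_right c hU
      omega
    · simp
      omega
  have h2 := hstd.hT_le he he0
  have h3 := hT_ge (3 * c + 1) (fun _ : Fin 9 => c) (cpt e)
  have h4 : ∑ _t : Fin 9, c * (c + 1) = 9 * (c * (c + 1)) := by simp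
  rw [h4] at h2 h3
  have h5 : (3 * c + 1) * (3 * c + 1 + 1) = 9 * (c * (c + 1)) + 2 := by ring
  apply ok_of_le_one (q := cpt e) mm
  · rw [h4]
    omega
  · omega

/-- All systems in standard form of large degree. -/
theorem gen_nine_all {n : ℕ} (m d D κ : ℕ) (mm : Fin n → ℕ) (α : Fin 9 → Fin n)
    (hα : Function.Injective α) (hanti : Antitone fun j => mm (α j)) (hm : 1 ≤ m)
    (hm9 : m ≤ mm (α 8)) (hother : ∀ i, i ∉ Set.range α → mm i ≤ m)
    (hstd : mm (α 0) + mm (α 1) + mm (α 2) ≤ d) (hκ : ∑ j, mm (α j) + κ = 3 * d)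
    (hbig : ∑ j, mm (α j) ^ 2 + 3100 * m ^ 3 ≤ d ^ 2 ∨
      780 * m ^ 2 ≤ d ∧ 9400 * m ^ 3 ≤ κ * d ∨ 9400 * m ^ 3 ≤ d)
    (hD : D = d ∨ D ≤ d ∧ (d + 1) * (d + 2) ≤ ∑ i, mm i * (mm i + 1)) : GenExp D mm := by
  classical
  obtain ⟨μ, hμ⟩ : ∃ μ : ℕ → ℕ, μ = fun j => if h : j < 9 then mm (α ⟨j, h⟩) else 0 := ⟨_, rfl⟩
  have hμα : ∀ j : Fin 9, mm (α j) = μ j := by
    intro j
    rw [hμ]
    simp only [j.2, dif_pos]
  have hμa : Antitone μ := by
    intro a b hab
    rw [hμ]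
    simp only
    by_cases hb : b < 9
    · rw [dif_pos hb, dif_pos (lt_of_le_of_lt hab hb)]
      exact hanti (show (⟨a, lt_of_le_of_lt hab hb⟩ : Fin 9) ≤ ⟨b, hb⟩ from hab)
    · rw [dif_neg hb]
      exact Nat.zero_le _
  have m0 : mm (α 0) = μ 0 := hμα 0
  have m1 : mm (α 1) = μ 1 := hμα 1
  have m2 : mm (α 2) = μ 2 := hμα 2
  have m8 : mm (α 8) = μ 8 := hμα 8
  have e1 : ∑ j, mm (α j) = ∑ j : Fin 9, μ j := Finset.sum_congr rfl fun j _ => hμα j
  have e2 : ∑ j, mm (α j) ^ 2 = ∑ j : Fin 9, μ j ^ 2 :=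
    Finset.sum_congr rfl fun j _ => by rw [hμα]
  have e3 := sum9 μ
  have e4 := sum9 (fun j => μ j ^ 2)
  beta_reduce at e4
  have hstd' : μ 0 + μ 1 + μ 2 ≤ d := by omega
  have h3 : ∀ U : Finset (Fin 9), U.card ≤ 3 → ∑ t ∈ U, mm (α t) ≤ d := by
    intro U hU
    have h1 : ∑ t ∈ U, mm (α t) = ∑ t ∈ U, μ t := Finset.sum_congr rfl fun j _ => hμα j
    rw [h1]
    exact (three_le hμa U hU).trans hstd'
  have hgen : OK (tri (d + 1)) mm → GenExp D mm := by
    intro hOK
    have h := genExp_of_OK d mm hOK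
    rcases hD with rfl | ⟨h1, h2⟩
    · exact h
    · exact h.le h1 h2
  rcases Nat.eq_zero_or_pos κ with h0 | hκ1
  · -- multiples of the anticanonical class
    subst h0
    apply hgen
    have a0 := hμa (show 0 ≤ 1 by norm_num)
    have a1 := hμa (show 1 ≤ 2 by norm_num)
    have a2 := hμa (show 2 ≤ 3 by norm_num)
    have a3 := hμa (show 3 ≤ 4 by norm_num)
    have a4 := hμa (show 4 ≤ 5 by norm_num)
    have a5 := hμa (show 5 ≤ 6 by norm_num)
    have a6 := hμa (show 6 ≤ 7 by norm_num)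
    have a7 := hμa (show 7 ≤ 8 by norm_num)
    have hd : d = 3 * μ 8 := by omega
    apply tri_of_nine (d + 1) mm α hα
    rw [hd]
    apply tri_anti (μ 8) _ _
    intro t
    rw [hμα]
    have h1 : μ 8 ≤ μ t := hμa (by omega)
    have h2 : μ t ≤ μ 0 := hμa (by omega)
    omega
  · have hsq : ∑ j, mm (α j) ^ 2 + 3100 * m ^ 3 ≤ d ^ 2 := by
      rcases hbig with h | h | h
      · exact h
      · have h1 := sq_of_deg2 hμa hm (by omega) hstd' (by omega) h.1 h.2
        rw [e2, e4]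
        exact h1
      · have h4 : 780 * m ^ 2 ≤ 9400 * m ^ 3 := by
          have : m ^ 2 ≤ m ^ 3 := Nat.pow_le_pow_right hm (by norm_num)
          omega
        have h5 : d ≤ κ * d := Nat.le_mul_of_pos_left d hκ1
        have h1 := sq_of_deg2 hμa hm (κ := κ) (by omega) hstd' (by omega) (h4.trans h) (h.trans h5)
        rw [e2, e4]
        exact h1
    rcases Nat.lt_or_ge (18 * m) κ with hbigκ | hsmallκ
    · exact gen_nine_final m d D mm α hα hanti hm hm9 hother hstd (by omega) (Or.inl hsq) hD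
    · apply hgen
      apply tri_of_nine (d + 1) mm α hα
      obtain ⟨ν, hν1, hν2, hν3⟩ := exists_nu hm hκ1 hsmallκ
      have hc : ∀ t : Fin 9, μ 8 ≤ mm (α t) := by
        intro t
        rw [hμα]
        exact hμa (by omega)
      apply tri_halphen m ν κ (μ 8) d (fun t => mm (α t)) _ hm _ h3 hκ hκ1 hc 8 m8 hν1 hν2
      · -- the size of the ninth multiplicity
        obtain ⟨g, hg⟩ : ∃ g, d = 3 * μ 8 + g := by
          obtain ⟨h0, -⟩ := cls h3 hκ hκ1 hc
          exact ⟨d - 3 * μ 8, by omega⟩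
        obtain ⟨x, hx⟩ : ∃ x : Fin 9 → ℕ, x = fun t => mm (α t) - μ 8 := ⟨_, rfl⟩
        have hs := sum_sub_nine hc
        have hxκ : ∑ t, x t + κ = 3 * g := by rw [hx]; simp only; omega
        have hsq2 : g ^ 2 ≤ ∑ t, x t ^ 2 + κ ^ 2 :=
          sq_le (t0 := 8) (by rw [hx]; simp only; omega) hxκ
        have e5 : ∑ j, mm (α j) ^ 2 = ∑ t, x t ^ 2 + 2 * μ 8 * ∑ t, x t + 9 * μ 8 ^ 2 := by
          have h9 : 9 * μ 8 ^ 2 = ∑ t : Fin 9, μ 8 ^ 2 := by simp
          rw [h9, Finset.mul_sum, ← Finset.sum_add_distrib, ← Finset.sum_add_distrib]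
          refine Finset.sum_congr rfl fun t _ => ?_
          have h1 := hc t
          obtain ⟨y, hy⟩ : ∃ y, mm (α t) = μ 8 + y := ⟨mm (α t) - μ 8, by omega⟩
          rw [hx]
          simp only
          rw [hy, Nat.add_sub_cancel_left]
          ring
        have e6 : 3100 * m ^ 3 ≤ 2 * (μ 8 * κ) + κ ^ 2 := by
          rw [e5, hg] at hsq
          have e7 : (3 * μ 8 + g) ^ 2 = 9 * μ 8 ^ 2 + 2 * μ 8 * (3 * g) + g ^ 2 := by ring
          rw [e7, ← hxκ] at hsq
          have e8 : 2 * μ 8 * (∑ t, x t + κ) = 2 * μ 8 * ∑ t, x t + 2 * (μ 8 * κ) := by ring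
          omega
        have e7 : κ ^ 2 ≤ 324 * m ^ 3 := by
          have h1 : κ ^ 2 ≤ (18 * m) ^ 2 := Nat.pow_le_pow_left hsmallκ 2
          have h2 : m ^ 2 ≤ m ^ 3 := Nat.pow_le_pow_right hm (by norm_num)
          have h4 : (18 * m) ^ 2 = 324 * m ^ 2 := by ring
          omega
        have e8 : 2 * m * ν * κ ≤ μ 8 * κ := by
          have h1 : 2 * m * (ν * κ) ≤ 2 * m * (518 * m ^ 2) := Nat.mul_le_mul_left _ hν3
          have h2 : 2 * m * (518 * m ^ 2) = 1036 * m ^ 3 := by ring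
          have h4 : 2 * m * ν * κ = 2 * m * (ν * κ) := by ring
          omega
        exact Nat.le_of_mul_le_mul_right e8 hκ1
      · intro i
        split_ifs with h
        · omega
        · apply hother
          intro hi
          apply h
          obtain ⟨t, rfl⟩ := hi
          exact Finset.mem_image_of_mem α (Finset.mem_univ t)

end Pool.MP_70e04f_ag.Hal

end

/-! ### from `Lib_MP_70e04f_cre.BaseZ` -/

section

/-!
# Systems with at most nine points
-/

namespace Pool.MP_70e04f_ag.Cre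

open MvPolynomial Pool.MP_70e04f_ag.Hex Pool.MP_70e04f_ag.Add Pool.MP_70e04f_ag.Nine
  Pool.MP_70e04f_ag.Hal

lemma card_three_le {n d : ℕ} (mm : Fin n → ℕ) (β : Fin 9 → Fin n) (hβ : Function.Injective β)
    (h3 : ∀ ι : Fin 3 → Fin n, Function.Injective ι → ∑ j, mm (ι j) ≤ d) (U : Finset (Fin 9))
    (hU : U.card ≤ 3) : ∑ t ∈ U, mm (β t) ≤ d := by
  obtain ⟨V, hUV, hV⟩ := Finset.exists_superset_card_eq hU (by simp)
  refine (Finset.sum_le_sum_of_subset hUV).trans ?_
  have h1 := h3 (fun j => β (V.orderEmbOfFin hV j))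
    (fun a b hab => (V.orderEmbOfFin hV).injective (hβ hab))
  refine le_trans (le_of_eq ?_) h1
  rw [← Finset.sum_coe_sort V]
  exact (Fintype.sum_equiv (V.orderIsoOfFin hV).toEquiv _ _ (fun j => rfl)).symm

lemma ok_zero {τ : Type*} [Fintype τ] {n N : ℕ} {mT : τ → ℕ} {q : τ → Fin 2 → ℝ}
    (h0 : 2 * hT N mT q + ∑ t, mT t * (mT t + 1) = N * (N + 1)) :
    OK (tri N) (Sum.elim mT (fun _ : Fin n => 0)) := by
  apply sum_ok (q := q) _ h0 (fun _ _ => 0)
  have hfd : FiniteDimensional ℝ ↥(Lsys N mT q) := by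
    unfold Lsys
    infer_instance
  have h9 : Fintype.card (Σ _i : Fin n, ↥(tri 0)) = 0 := by
    rw [Fintype.card_eq_zero_iff]
    constructor
    rintro ⟨i, x⟩
    exact absurd (mem_tri.1 x.2) (Nat.not_lt_zero _)
  rw [h9, Nat.sub_zero]
  unfold hT
  exact Submodule.finrank_mono inf_le_left

/-- Nine points, standard form. -/
theorem base_nine {n d : ℕ} (mm : Fin n → ℕ) (β : Fin 9 → Fin n) (hβ : Function.Injective β)
    (hother : ∀ i, i ∉ Set.range β → mm i = 0)
    (h3 : ∀ ι : Fin 3 → Fin n, Function.Injective ι → ∑ j, mm (ι j) ≤ d) : GenExp d mm := by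
  classical
  apply genExp_of_OK
  apply tri_of_nine (d + 1) mm β hβ
  have h4 := card_three_le mm β hβ h3
  let e : Fin 9 → ℝ := fun t => ((t : ℕ) : ℝ) + 2
  have he : Function.Injective e := by
    intro a b hab
    have h1 : ((a : ℕ) : ℝ) = ((b : ℕ) : ℝ) := by simpa [e] using hab
    exact Fin.ext (Nat.cast_injective h1)
  have he0 : ∀ t, 0 < e t := by
    intro t
    have : (0 : ℝ) ≤ ((t : ℕ) : ℝ) := Nat.cast_nonneg _
    simp only [e]
    linarith
  have hstd : Std (d + 1) (fun t : Fin 9 => mm (β t)) := by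
    constructor
    · intro U hU
      change ∑ t ∈ U, mm (β t) + 1 ≤ d + 1
      have := h4 U hU
      omega
    · change ∑ t, mm (β t) + 3 ≤ 3 * (d + 1)
      have := sum_nine (Finset.univ : Finset (Fin 9)) (by simp) (fun t => mm (β t)) d h4
      change ∑ t, mm (β t) ≤ 3 * d at this
      omega
  have h5 := hstd.hT_le he he0
  have h6 := hT_ge (d + 1) (fun t : Fin 9 => mm (β t)) (cpt e)
  have h7 := le_antisymm h5 h6
  have h8 : (fun i : Fin n => if i ∈ Finset.univ.image β then 0 else mm i) = fun _ => 0 := by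
    funext i
    split_ifs with h
    · rfl
    · apply hother
      rintro ⟨t, rfl⟩
      exact h (Finset.mem_image_of_mem β (Finset.mem_univ t))
  rw [h8]
  exact ok_zero h7

end Pool.MP_70e04f_ag.Cre

end

/-! ### from `Lib_MP_70e04f_cre.Base` -/

section

/-!
# Systems in standard form
-/

namespace Pool.MP_70e04f_ag.Cre

open MvPolynomial Pool.MP_70e04f_ag.Hex Pool.MP_70e04f_ag.Add Pool.MP_70e04f_ag.Nine
  Pool.MP_70e04f_ag.Hal

/-- The nine largest multiplicities. -/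
theorem exists_sorted {n : ℕ} (mm : Fin n → ℕ) (α : Fin 9 → Fin n) (hα : Function.Injective α) :
    ∃ β : Fin 9 → Fin n, Function.Injective β ∧ Antitone (fun j => mm (β j)) ∧
      ∀ i, i ∉ Set.range β → mm i ≤ mm (β 8) := by
  have hn : 9 ≤ n := by simpa using Fintype.card_le_of_injective α hα
  obtain ⟨σ, hσ⟩ : ∃ σ : Equiv.Perm (Fin n), Antitone (fun i => mm (σ i)) := by
    refine ⟨Tuple.sort (fun i => OrderDual.toDual (mm i)), ?_⟩
    intro a b hab
    exact Tuple.monotone_sort (fun i => OrderDual.toDual (mm i)) hab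
  refine ⟨fun j => σ (Fin.castLE hn j), ?_, ?_, ?_⟩
  · intro a b hab
    exact Fin.castLE_injective hn (σ.injective hab)
  · intro a b hab
    exact hσ (show Fin.castLE hn a ≤ Fin.castLE hn b from hab)
  · intro i hi
    obtain ⟨k, rfl⟩ := σ.surjective i
    apply hσ
    by_contra hcon
    apply hi
    rw [Fin.le_def, not_le] at hcon
    have hk : (k : ℕ) < 8 := hcon
    exact ⟨⟨k, by omega⟩, rfl⟩

/-- Systems in standard form. -/
theorem base {n m d : ℕ} (mm : Fin n → ℕ) (α : Fin 9 → Fin n) (hα : Function.Injective α)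
    (hother : ∀ i, i ∉ Set.range α → mm i ≤ m)
    (h3 : ∀ ι : Fin 3 → Fin n, Function.Injective ι → ∑ j, mm (ι j) ≤ d)
    (hsq : ∑ i, mm i ^ 2 + 3100 * m ^ 3 ≤ d ^ 2) : GenExp d mm := by
  classical
  obtain ⟨β, hβ, hanti, hβ8⟩ := exists_sorted mm α hα
  by_cases hz : ∀ i, i ∉ Set.range β → mm i = 0
  · exact base_nine mm β hβ hz h3
  push Not at hz
  obtain ⟨i1, hi1, hi1'⟩ := hz
  obtain ⟨i0, hi0, hmax⟩ := Finset.exists_max_image (Finset.univ.filter fun i => i ∉ Set.range β)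
    mm ⟨i1, by simpa using hi1⟩
  have hi0' : i0 ∉ Set.range β := (Finset.mem_filter.1 hi0).2
  have hmax' : ∀ i, i ∉ Set.range β → mm i ≤ mm i0 := fun i hi =>
    hmax i (Finset.mem_filter.2 ⟨Finset.mem_univ i, hi⟩)
  have hpos : 1 ≤ mm i0 := (Nat.one_le_iff_ne_zero.2 hi1').trans (hmax' i1 hi1)
  have h08 : mm i0 ≤ mm (β 8) := hβ8 i0 hi0'
  -- the tenth multiplicity is at most `m`
  have hm : mm i0 ≤ m := by
    by_contra hcon
    push Not at hcon
    have hin : ∀ i, mm i0 ≤ mm i → i ∈ Finset.univ.image α := by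
      intro i hi
      by_contra h
      have h1 := hother i (by
        rintro ⟨t, rfl⟩
        exact h (Finset.mem_image_of_mem α (Finset.mem_univ t)))
      omega
    have hsub : insert i0 (Finset.univ.image β) ⊆ Finset.univ.image α := by
      intro i hi
      rw [Finset.mem_insert, Finset.mem_image] at hi
      apply hin
      rcases hi with rfl | ⟨t, _, rfl⟩
      · exact le_rfl
      · exact h08.trans (hanti (show t ≤ 8 by omega))
    have hc := Finset.card_le_card hsub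
    rw [Finset.card_insert_of_notMem (by
      intro h
      rw [Finset.mem_image] at h
      obtain ⟨t, _, ht⟩ := h
      exact hi0' ⟨t, ht⟩), Finset.card_image_of_injective _ hβ,
      Finset.card_image_of_injective _ hα] at hc
    simp at hc
  have h9 : ∑ j, mm (β j) ≤ 3 * d :=
    sum_nine (Finset.univ : Finset (Fin 9)) (by simp) (fun t => mm (β t)) d
      (card_three_le mm β hβ h3)
  obtain ⟨κ, hκ⟩ : ∃ κ, ∑ j, mm (β j) + κ = 3 * d := ⟨3 * d - ∑ j, mm (β j), by omega⟩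
  refine gen_nine_all (mm i0) d d κ mm β hβ hanti hpos h08 hmax' ?_ hκ (Or.inl ?_) (Or.inl rfl)
  · have h := h3 ![β 0, β 1, β 2] (by
      intro a b hab
      fin_cases a <;> fin_cases b <;> first | rfl | (exfalso; simp [hβ.eq_iff] at hab))
    rw [Fin.sum_univ_three] at h
    exact h
  · have h1 : ∑ j, mm (β j) ^ 2 ≤ ∑ i, mm i ^ 2 := by
      rw [← Finset.sum_image (f := fun i => mm i ^ 2) (fun a _ b _ hab => hβ hab)]
      exact Finset.sum_le_sum_of_subset (Finset.subset_univ _)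
    have h2 : mm i0 ^ 3 ≤ m ^ 3 := Nat.pow_le_pow_left hm 3
    omega

end Pool.MP_70e04f_ag.Cre

end

/-! ### from `Lib_MP_70e04f_thin.TStd` -/

section

/-!
# Piece TSTD: classes in standard form with many small points, or of large degree
-/

set_option autoImplicit false

namespace Pool.MP_70e04f_ag.Strip

open MvPolynomial

/-- splitting a sum over the nine points and the others -/
theorem TStd_split {n : ℕ} (β : Fin 9 → Fin n) (hβ : Function.Injective β) (f : Fin n → ℕ) :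
    ∑ i, f i = ∑ j, f (β j) + ∑ i ∈ Sm β, f i := sum_Sm hβ f

/-- the sum of the squares over `Sm α` is at most `9 m ^ 2` plus the sum over `Sm β` -/
theorem TStd_sum {n m : ℕ} (a : Fin n → ℕ) (α β : Fin 9 → Fin n)
    (hm : ∀ i ∈ Sm α, a i ≤ m) :
    ∑ i ∈ Sm α, a i ^ 2 ≤ 9 * m ^ 2 + ∑ i ∈ Sm β, a i ^ 2 := by
  classical
  have h1 : Sm α ⊆ (Sm α ∩ Finset.univ.image β) ∪ Sm β := by
    intro i hi
    rw [Finset.mem_union, Finset.mem_inter]
    by_cases hb : i ∈ Finset.univ.image β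
    · exact Or.inl ⟨hi, hb⟩
    · right
      unfold Sm
      rw [Finset.mem_compl]
      exact hb
  have h2 : ∑ i ∈ Sm α, a i ^ 2 ≤
      ∑ i ∈ (Sm α ∩ Finset.univ.image β) ∪ Sm β, a i ^ 2 :=
    Finset.sum_le_sum_of_subset h1
  have h3 : ∑ i ∈ (Sm α ∩ Finset.univ.image β) ∪ Sm β, a i ^ 2 ≤
      ∑ i ∈ Sm α ∩ Finset.univ.image β, a i ^ 2 + ∑ i ∈ Sm β, a i ^ 2 := by
    have := Finset.sum_union_inter (s₁ := Sm α ∩ Finset.univ.image β) (s₂ := Sm β)
      (f := fun i => a i ^ 2)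
    omega
  have h4 : ∑ i ∈ Sm α ∩ Finset.univ.image β, a i ^ 2 ≤
      (Sm α ∩ Finset.univ.image β).card • m ^ 2 := by
    apply Finset.sum_le_card_nsmul
    intro i hi
    exact Nat.pow_le_pow_left (hm i (Finset.mem_inter.1 hi).1) 2
  have h5 : (Sm α ∩ Finset.univ.image β).card ≤ 9 := by
    calc (Sm α ∩ Finset.univ.image β).card ≤ (Finset.univ.image β).card :=
          Finset.card_le_card Finset.inter_subset_right
      _ ≤ (Finset.univ : Finset (Fin 9)).card := Finset.card_image_le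
      _ = 9 := by simp
  have h6 : (Sm α ∩ Finset.univ.image β).card • m ^ 2 ≤ 9 * m ^ 2 := by
    rw [smul_eq_mul]
    exact Nat.mul_le_mul_right _ h5
  omega

/-- PROOF. Follow the proof of `Cre.base` (`Lib_MP_70e04f_cre/Base.lean`): `exists_sorted` gives the nine
largest ones `β`; if all the others are zero `base_nine`; otherwise let `a i0` be the largest one
outside of `β`, `1 ≤ a i0 ≤ m` (the tenth multiplicity is at most `m`, as there), and apply
`Hal.gen_nine_all` with `m = a i0`, with the third alternative if `9400 m ^ 3 ≤ e`. In the other case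
with the first one: as `∑ a ^ 2 ≤ e ^ 2 + m` it is enough that
`3100 (a i0) ^ 3 + m ≤ ∑ i ∉ range β, a i ^ 2`. The indices `i ∉ range α` which are in `range β` are at
most nine and have `a i ≤ m`, so
`∑ i ∉ range β, a i ^ 2 ≥ ∑ i ∈ Sm α, a i ^ 2 - 9 m ^ 2 ≥ 3110 m ^ 3 - 9 m ^ 2 ≥ 3100 m ^ 3 + m`.
(`GExp` and `Hex.GenExp` have the same body.) -/
theorem gexp_std {n e m : ℕ} (a : Fin n → ℕ) (α : Fin 9 → Fin n) (hα : Function.Injective α)
    (hm : ∀ i ∈ Sm α, a i ≤ m)
    (h3 : ∀ ι : Fin 3 → Fin n, Function.Injective ι → ∑ j, a (ι j) ≤ e)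
    (hbig : (3110 * m ^ 3 ≤ ∑ i ∈ Sm α, a i ^ 2 ∧ ∑ i, a i ^ 2 ≤ e ^ 2 + m) ∨
      9400 * m ^ 3 ≤ e) : GExp e a := by
  classical
  obtain ⟨β, hβ, hanti, hβ8⟩ := Cre.exists_sorted a α hα
  by_cases hz : ∀ i, i ∉ Set.range β → a i = 0
  · exact Cre.base_nine a β hβ hz h3
  push Not at hz
  obtain ⟨i1, hi1, hi1'⟩ := hz
  obtain ⟨i0, hi0, hmax⟩ := Finset.exists_max_image (Finset.univ.filter fun i => i ∉ Set.range β)
    a ⟨i1, by simpa using hi1⟩
  have hi0' : i0 ∉ Set.range β := (Finset.mem_filter.1 hi0).2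
  have hmax' : ∀ i, i ∉ Set.range β → a i ≤ a i0 := fun i hi =>
    hmax i (Finset.mem_filter.2 ⟨Finset.mem_univ i, hi⟩)
  have hpos : 1 ≤ a i0 := (Nat.one_le_iff_ne_zero.2 hi1').trans (hmax' i1 hi1)
  have h08 : a i0 ≤ a (β 8) := hβ8 i0 hi0'
  -- the tenth multiplicity is at most `m`
  have hm0 : a i0 ≤ m := by
    by_contra hcon
    push Not at hcon
    have hin : ∀ i, a i0 ≤ a i → i ∈ Finset.univ.image α := by
      intro i hi
      by_contra h
      have h1 := hm i (mem_Sm.2 (by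
        rintro ⟨t, rfl⟩
        exact h (Finset.mem_image_of_mem α (Finset.mem_univ t))))
      omega
    have hsub : insert i0 (Finset.univ.image β) ⊆ Finset.univ.image α := by
      intro i hi
      rw [Finset.mem_insert, Finset.mem_image] at hi
      apply hin
      rcases hi with rfl | ⟨t, _, rfl⟩
      · exact le_rfl
      · exact h08.trans (hanti (show t ≤ 8 by omega))
    have hc := Finset.card_le_card hsub
    rw [Finset.card_insert_of_notMem (by
      intro h
      rw [Finset.mem_image] at h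
      obtain ⟨t, _, ht⟩ := h
      exact hi0' ⟨t, ht⟩), Finset.card_image_of_injective _ hβ,
      Finset.card_image_of_injective _ hα] at hc
    simp at hc
  have h9 : ∑ j, a (β j) ≤ 3 * e :=
    Add.sum_nine (Finset.univ : Finset (Fin 9)) (by simp) (fun t => a (β t)) e
      (Cre.card_three_le a β hβ h3)
  obtain ⟨κ, hκ⟩ : ∃ κ, ∑ j, a (β j) + κ = 3 * e := ⟨3 * e - ∑ j, a (β j), by omega⟩
  have hcube : a i0 ^ 3 ≤ m ^ 3 := Nat.pow_le_pow_left hm0 3
  refine Hal.gen_nine_all (a i0) e e κ a β hβ hanti hpos h08 hmax' ?_ hκ ?_ (Or.inl rfl)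
  · have h := h3 ![β 0, β 1, β 2] (by
      intro a b hab
      fin_cases a <;> fin_cases b <;> first | rfl | (exfalso; simp [hβ.eq_iff] at hab))
    rw [Fin.sum_univ_three] at h
    exact h
  · rcases hbig with ⟨hb1, hb2⟩ | hb
    · left
      have hs1 := TStd_split β hβ (fun i => a i ^ 2)
      have hs2 := TStd_sum a α β hm
      have hm1 : 1 ≤ m := hpos.trans hm0
      have hc1 : m * m ≤ m * m * m := Nat.le_mul_of_pos_right _ hm1
      have hc2 : m ≤ m * m := Nat.le_mul_of_pos_right _ hm1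
      have hcomp : 9 * m ^ 2 + m ≤ 10 * m ^ 3 := by
        have e1 : m ^ 2 = m * m := by ring
        have e2 : m ^ 3 = m * m * m := by ring
        rw [e1, e2]
        omega
      omega
    · right; right
      omega

end Pool.MP_70e04f_ag.Strip

end

/-! ### from `Lib_MP_70e04f_thin.TPosC` -/

section

/-!
# Piece TPOSC: a class in standard form which is not positive is not effective
-/

set_option autoImplicit false

namespace Pool.MP_70e04f_ag.Strip

open MvPolynomial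

/-- PROOF. Let `m = a i0`, `i0 ∈ Sm α`, be the largest one of the multiplicities in `Sm α`
(`Finset.exists_max_image`), `2 ≤ m`. By `thin_num` and `gexp_std` (`∑ a ^ 2 ≤ e ^ 2 + m` by `hxu`),
`GExp e a`. By `chi_le` and `GExp.not_eff0`, `¬ Eff0 e a`. -/
theorem not_eff0_std {n : ℕ} (e D X ν : ℕ) (a M : Fin n → ℕ) (α : Fin 9 → Fin n)
    (hα : Function.Injective α) (hX : 1 ≤ X) (hother : ∀ i ∈ Sm α, M i ≤ X)
    (hν : ∑ i, M i ^ 2 + ν = D ^ 2) (hν0 : 0 < ν) (hνX : ν ≤ X ^ 2)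
    (hthin : 100000 * X ^ 4 ≤ ν * ∑ i ∈ Sm α, M i ^ 2 ∨ 1000000 * X ^ 5 ≤ ν ^ 2 * D)
    (hxu : ∀ j, 1 ≤ a j → ∑ i, a i ^ 2 ≤ e ^ 2 + a j) (hneg : e ^ 2 < ∑ i, a i ^ 2)
    (hK : 3 * e ≤ ∑ i, a i) (hNF : D * e ≤ ∑ i, M i * a i) (h2 : ∃ i ∈ Sm α, 2 ≤ a i)
    (h3 : ∀ ι : Fin 3 → Fin n, Function.Injective ι → ∑ j, a (ι j) ≤ e) : ¬ Eff0 e a := by
  obtain ⟨i1, hi1, h2⟩ := h2
  obtain ⟨i0, hi0, hmax⟩ := Finset.exists_max_image (Sm α) a ⟨i1, hi1⟩
  have hm : 2 ≤ a i0 := h2.trans (hmax i1 hi1)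
  have h4 := thin_num e D X ν (a i0) a M α hX hother hν hν0 hνX hthin hxu hneg hNF hm i0 hi0 rfl
  have h5 := hxu i0 (by omega)
  refine (gexp_std (m := a i0) a α hα hmax h3 ?_).not_eff0 (chi_le e a hneg hK)
  rcases h4 with h | h
  · exact Or.inl ⟨h, h5⟩
  · exact Or.inr h

end Pool.MP_70e04f_ag.Strip

end
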