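import Pool.Agent.Lib_MP_70e04f_m.M06
import Pool.Agent.Lib_MP_70e04f_m.M13
import Pool.Agent.Lib_MP_70e04f_m.M19
import Pool.Agent.Lib_MP_70e04f_m.M20

/-!
# MP_70e04f_ag, plane linear systems: merged library part M35

Concatenation of smaller files (each in its own section), only to save build time.
-/

/-! ### from `Lib_MP_70e04f_strip.SFinal` -/

section

/-!
# The strip theorem: assembly
-/

set_option autoImplicit false

namespace Pool.MP_70e04f_ag.Strip

open MvPolynomial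

/-- an enumeration of a set of indices which contains the ten largest ones -/
theorem exists_enum {n : ℕ} (S : Finset (Fin n)) (α : Fin 10 → Fin n)
    (hα : Function.Injective α) (hS : ∀ j, α j ∈ S) :
    ∃ (ι : Fin S.card → Fin n) (α' : Fin 10 → Fin S.card), Function.Injective ι ∧
      Set.range ι = ↑S ∧ (∀ j, ι (α' j) = α j) ∧ Function.Injective α' := by
  refine ⟨S.orderEmbOfFin rfl, fun j => (S.orderIsoOfFin rfl).symm ⟨α j, hS j⟩,
    (S.orderEmbOfFin rfl).injective, Finset.range_orderEmbOfFin S rfl, ?_, ?_⟩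
  · intro j
    rw [← Finset.coe_orderIsoOfFin_apply, OrderIso.apply_symm_apply]
  · intro j j' h
    have h1 := (S.orderIsoOfFin rfl).symm.injective h
    exact hα (Subtype.ext_iff.1 h1)

theorem sum_enum {n r : ℕ} (S : Finset (Fin n)) (ι : Fin r → Fin n) (hι : Function.Injective ι)
    (hr : Set.range ι = ↑S) (f : Fin n → ℕ) : ∑ a, f (ι a) = ∑ i ∈ S, f i := by
  classical
  have h : S = Finset.univ.map ⟨ι, hι⟩ := by
    ext i
    rw [← Finset.mem_coe, ← hr]
    simp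
  rw [h, Finset.sum_map]
  rfl

/-- The strip theorem. -/
theorem gen_strip (n d D : ℕ) (mult : Fin n → ℕ) (α : Fin 10 → Fin n)
    (hα : Function.Injective α) (hanti : Antitone (fun j => mult (α j)))
    (h2 : 2 ≤ mult (α 9)) (hother : ∀ i, i ∉ Set.range α → mult i ≤ mult (α 9))
    (hstd : mult (α 0) + mult (α 1) + mult (α 2) ≤ d)
    (hbig : ∑ i with 2 ≤ mult i, (mult i + 1) ^ 2 + (mult (α 9) + 1) ^ 2 < (d + 3) ^ 2 ∨
      d ^ 2 + mult (α 9) ^ 2 ≤ ∑ i, mult i ^ 2)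
    (hD : D = d ∨ D ≤ d ∧ (d + 1) * (d + 2) ≤ ∑ i, mult i * (mult i + 1)) : GExp D mult := by
  classical
  have h9 : ∀ j, mult (α 9) ≤ mult (α j) := fun j => hanti (Fin.le_last j)
  have key : GExp d mult := by
    rcases hbig with hb | hb
    · obtain ⟨ι, α', hι, hr, hια, hα'⟩ := exists_enum (Finset.univ.filter (fun i => 2 ≤ mult i)) α hα
        (fun j => by
          rw [Finset.mem_filter]
          exact ⟨Finset.mem_univ _, h2.trans (h9 j)⟩)
      obtain ⟨k, _, _, p, hp, hind⟩ := ind_gen d (fun a => mult (ι a)) α' hα'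
        (fun a b hab => by
          have := hanti hab
          simp only [hια] at this ⊢
          exact this)
        (fun i hi => by
          rw [hια]
          apply hother
          rintro ⟨j, hj⟩
          exact hi ⟨j, hι (by rw [hια, hj])⟩)
        (by simp only [hια]; exact hstd)
        (by
          have := sum_enum _ ι hι hr (fun i => (mult i + 1) ^ 2)
          rw [this, hια]
          exact hb)
      obtain ⟨p2, hp2⟩ := (EXP.of_ind hp hind).extend ι hι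
        (fun i hi => by
          by_contra hcon
          apply hi
          have : i ∈ (↑(Finset.univ.filter (fun i => 2 ≤ mult i)) : Set (Fin n)) := by
            rw [Finset.mem_coe, Finset.mem_filter]
            exact ⟨Finset.mem_univ _, by omega⟩
          rw [← hr] at this
          exact this)
      exact gexp_of_good d mult p2 hp2.good
    · obtain ⟨ι, α', hι, hr, hια, hα'⟩ := exists_enum (Finset.univ.filter (fun i => 1 ≤ mult i)) α hα
        (fun j => by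
          rw [Finset.mem_filter]
          exact ⟨Finset.mem_univ _, by have := h9 j; omega⟩)
      obtain ⟨k, _, _, p, hp, hbot⟩ := empty_gen d (fun a => mult (ι a))
        (fun a => by
          have : ι a ∈ (↑(Finset.univ.filter (fun i => 1 ≤ mult i)) : Set (Fin n)) := by
            rw [← hr]; exact ⟨a, rfl⟩
          rw [Finset.mem_coe, Finset.mem_filter] at this
          exact this.2) α' hα'
        (fun a b hab => by
          have := hanti hab
          simp only [hια] at this ⊢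
          exact this)
        (fun i hi => by
          rw [hια]
          apply hother
          rintro ⟨j, hj⟩
          exact hi ⟨j, hι (by rw [hια, hj])⟩)
        (by simp only [hια]; exact hstd)
        (by
          have := sum_enum _ ι hι hr (fun i => mult i ^ 2)
          rw [this, hια]
          refine hb.trans (le_of_eq ?_)
          symm
          apply Finset.sum_subset (Finset.subset_univ _)
          intro i _ hi
          rw [Finset.mem_filter] at hi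
          have : mult i = 0 := by
            by_contra h0
            exact hi ⟨Finset.mem_univ _, by omega⟩
          rw [this]; rfl)
      obtain ⟨p2, hp2⟩ := (EXP.of_bot hbot).extend ι hι
        (fun i hi => by
          by_contra hcon
          apply hi
          have : i ∈ (↑(Finset.univ.filter (fun i => 1 ≤ mult i)) : Set (Fin n)) := by
            rw [Finset.mem_coe, Finset.mem_filter]
            exact ⟨Finset.mem_univ _, by omega⟩
          rw [← hr] at this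
          exact this)
      exact gexp_of_good d mult p2 hp2.good
  rcases hD with rfl | ⟨h3, h4⟩
  · exact key
  · exact key.le h3 h4

end Pool.MP_70e04f_ag.Strip

end

/-! ### from `Lib_MP_70e04f_thin.TFacts` -/

section

/-!
# Piece TFACTS: the nine points
-/

set_option autoImplicit false

namespace Pool.MP_70e04f_ag.Strip

open MvPolynomial

/-- PROOF. See `pos` in `Lib_MP_70e04f_strip/SPos.lean`: let `Γ` be the cubic of `exists_cubic`. If
`Γ ∣ F` the first alternative (`spos_cubic` with `X = 0`), otherwise `nine`. -/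
theorem nine_or {n ℓ : ℕ} [Fact ℓ.Prime] (hℓ : 3 < ℓ) (D : ℕ) (M : Fin n → ℕ)
    (α : Fin 9 → Fin n) (hα : Function.Injective α) (hsq : ∑ i, M i ^ 2 < D ^ 2)
    {F : A2 (KK n ℓ)} (hF : Irreducible F) (hdeg : F.totalDegree < ℓ) :
    1 ≤ dotp D M (gp n ℓ) F ∨ ∑ s, mu (gp n ℓ (α s)) F + 1 ≤ 3 * F.totalDegree := by
  obtain ⟨Γ, hΓ, hd3, hΓ1, hΓ0⟩ := exists_cubic hℓ α hα
  by_cases hdvd : Γ ∣ F
  · left
    obtain ⟨h, hh⟩ := hdvd
    have hu : IsUnit h := (hF.isUnit_or_isUnit hh).resolve_left hΓ.not_isUnit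
    obtain ⟨c, hc, hc'⟩ := MvPolynomial.isUnit_iff_eq_C_of_isReduced.1 hu
    have hc0 : c ≠ 0 := hc.ne_zero
    have hh0 : h ≠ 0 := hu.ne_zero
    have hdF : F.totalDegree = 3 := by
      rw [hh, totalDegree_mul_of_isDomain hΓ.ne_zero hh0, hd3, hc', totalDegree_C]
    have hmu : ∀ i, mu (gp n ℓ i) F = mu (gp n ℓ i) Γ := by
      intro i
      rw [hh, mu_mul hΓ.ne_zero hh0, hc', mu_C hc0, add_zero]
    have hsum : ∑ s, (M (α s) : ℤ) = ∑ i, (M i : ℤ) * mu (gp n ℓ i) F := by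
      refine Fintype.sum_of_injective α hα _ _ ?_ ?_
      · intro i hi
        rw [hmu, hΓ0 i hi]
        simp
      · intro s
        rw [hmu, hΓ1 s]
        simp
    unfold dotp
    rw [← hsum, hdF]
    have := spos_cubic (X := 0) M α hα (by simpa using hsq)
    push_cast
    linarith
  · right
    exact nine α hα hΓ hd3 hΓ1 hΓ0 hF hdeg hdvd

end Pool.MP_70e04f_ag.Strip

end

/-! ### from `Lib_MP_70e04f_gon.GIrrM` -/

section

/-!
# Piece GIRRM: a minimal curve is geometrically irreducible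
-/

set_option autoImplicit false

namespace Pool.MP_70e04f_ag.Strip

open MvPolynomial

private theorem GIrrM_deg {k K : Type*} [Field k] [Field K] (φ : k →+* K) (F : A2 k) :
    (MvPolynomial.map φ F).totalDegree = F.totalDegree := by
  unfold MvPolynomial.totalDegree
  rw [MvPolynomial.support_map_of_injective F φ.injective]

private theorem GIrrM_dotp {k K : Type*} [Field k] [Field K] (φ : k →+* K) {n : ℕ} (D : ℕ)
    (M : Fin n → ℕ) (p : Fin n → Fin 2 → k) (F : A2 k) :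
    dotp D M (fun i c => φ (p i c)) (MvPolynomial.map φ F) = dotp D M p F := by
  unfold dotp
  rw [GIrrM_deg φ F]
  congr 1
  apply Finset.sum_congr rfl
  intro i _
  rw [mu_map φ (p i) F]

/-- PROOF. Let `K` be the algebraic closure, `φ = algebraMap`, `F' = map φ F`, of degree `e = deg F ≥ 1`
(`φ` injective), `p' i c = φ (gp i c)`. `dotp D M p' F' = dotp D M gp F ≤ 0` (`mu_map`), so `exists_factor`
gives an irreducible `G ∣ F'` with `dotp D M p' G ≤ 0`; let `e1 = deg G ≤ e`, `b i = mu (p' i) G`. Suppose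
`e1 < e`. `G` shows that `(e1; b)` is effective over `K` (`mem_iff_le_mu`), by `eff_desc` it is effective over
`KK n ℓ`; `D * e1 ≤ ∑ M b` and `D * e1 ≥ 1` (`e1 ≥ 1`: `spos_deg`), so some `b i0 ≥ 1` and
`exists_component` gives an irreducible curve of degree `≤ e1 < e` with `dotp ≤ 0`: contradiction to `hmin`.
So `e1 = e`, `F' = G * H` with `H` constant, and `F'` is irreducible. -/
theorem girr_min {n ℓ : ℕ} [Fact ℓ.Prime] (D : ℕ) (hD : 0 < D) (M : Fin n → ℕ)
    {F : A2 (KK n ℓ)} (hF : Irreducible F) (hdot : dotp D M (gp n ℓ) F ≤ 0)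
    (hmin : ∀ F' : A2 (KK n ℓ), Irreducible F' → F'.totalDegree < F.totalDegree →
      1 ≤ dotp D M (gp n ℓ) F') : GIrr F := by
  unfold GIrr
  set φ : KK n ℓ →+* AlgebraicClosure (KK n ℓ) := algebraMap _ _ with hφ
  have hF0 : F ≠ 0 := hF.ne_zero
  have hF1 : 1 ≤ F.totalDegree := spos_deg hF
  have hF'0 : MvPolynomial.map φ F ≠ 0 := by
    intro h
    apply hF0
    apply MvPolynomial.map_injective φ φ.injective
    rw [h, map_zero]
  have hdeg : (MvPolynomial.map φ F).totalDegree = F.totalDegree := GIrrM_deg φ F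
  obtain ⟨G, hG, hGF, hGd⟩ := exists_factor D M (fun i c => φ (gp n ℓ i c)) hF'0
    (by rw [hdeg]; exact hF1) (by rw [GIrrM_dotp]; exact hdot)
  obtain ⟨H, hH⟩ := hGF
  have hG0 : G ≠ 0 := hG.ne_zero
  have hH0 : H ≠ 0 := by
    rintro rfl
    rw [mul_zero] at hH
    exact hF'0 hH
  have hsum : F.totalDegree = G.totalDegree + H.totalDegree := by
    rw [← hdeg, hH, totalDegree_mul_of_isDomain hG0 hH0]
  have hG1 : 1 ≤ G.totalDegree := spos_deg hG
  by_cases hlt : G.totalDegree < F.totalDegree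
  · exfalso
    obtain ⟨f, hf0, hfe, hfa⟩ := eff_desc φ (gp n ℓ) G.totalDegree
      (fun i => mu (fun c => φ (gp n ℓ i c)) G)
      ⟨G, hG0, mem_Pt.2 le_rfl, mem_Iz.2 fun i => (mem_iff_le_mu hG0 _).2 le_rfl⟩
    have hNF : D * G.totalDegree ≤ ∑ i, M i * mu (fun c => φ (gp n ℓ i c)) G := by
      unfold dotp at hGd
      have h1 : ((D * G.totalDegree : ℕ) : ℤ) ≤
          ((∑ i, M i * mu (fun c => φ (gp n ℓ i c)) G : ℕ) : ℤ) := by
        push_cast
        linarith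
      exact_mod_cast h1
    have hpos : 0 < ∑ i, M i * mu (fun c => φ (gp n ℓ i c)) G :=
      lt_of_lt_of_le (Nat.mul_pos hD hG1) hNF
    obtain ⟨i0, -, hi0⟩ := Finset.exists_ne_zero_of_sum_ne_zero hpos.ne'
    have hb : 1 ≤ mu (fun c => φ (gp n ℓ i0 c)) G :=
      Nat.one_le_iff_ne_zero.2 (right_ne_zero_of_mul hi0)
    obtain ⟨F1, hF1i, hF1d, hF1n⟩ := exists_component D M (gp n ℓ) G.totalDegree
      (fun i => mu (fun c => φ (gp n ℓ i c)) G) hNF hf0 hfe hfa i0 hb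
    have := hmin F1 hF1i (lt_of_le_of_lt hF1d hlt)
    omega
  · have hH1 : H.totalDegree = 0 := by omega
    have hHu : IsUnit H := by
      rw [totalDegree_eq_zero_iff_eq_C] at hH1
      rw [hH1]
      have hc : coeff 0 H ≠ 0 := by
        intro h
        rw [h, map_zero] at hH1
        exact hH0 hH1
      exact (Ne.isUnit hc).map C
    rw [hH]
    exact (irreducible_mul_isUnit hHu).2 hG

end Pool.MP_70e04f_ag.Strip

end

/-! ### from `Lib_MP_70e04f_gon.GNum` -/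

section

/-!
# Piece GNUM: curves which are not positive have many small points or large degree
-/

set_option autoImplicit false

namespace Pool.MP_70e04f_ag.Strip

/-- PROOF. As `close_norm` (`Lib_MP_70e04f_thin/TNumA.lean`), keeping the term `l ^ 2 ν` of `close`. -/
theorem close_norm2 {n : ℕ} (e D ν q : ℕ) (a M : Fin n → ℕ) (hD : 0 < D)
    (hν : ∑ i, M i ^ 2 + ν = D ^ 2) (hq : ∑ i, a i ^ 2 = e ^ 2 + q)
    (hNF : D * e ≤ ∑ i, M i * a i) (T : Finset (Fin n)) :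
    (e : ℝ) / D * Real.sqrt (∑ i ∈ T, (M i : ℝ) ^ 2) ≤
      Real.sqrt (∑ i ∈ T, (a i : ℝ) ^ 2) + Real.sqrt (q - ((e : ℝ) / D) ^ 2 * ν) := by
  have h1 := close e D ν q a M hD hν hq hNF
  obtain ⟨l, hl⟩ : ∃ l : ℝ, l = (e : ℝ) / D := ⟨_, rfl⟩
  have hl0 : 0 ≤ l := by rw [hl]; positivity
  rw [← hl] at h1 ⊢
  have h2 : ∑ i ∈ T, (l * M i - a i) ^ 2 ≤ ∑ i, (l * M i - a i) ^ 2 :=
    Finset.sum_le_sum_of_subset_of_nonneg (Finset.subset_univ T) (fun _ _ _ => sq_nonneg _)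
  set A : ℝ := ∑ i ∈ T, (a i : ℝ) ^ 2 with hA
  set C : ℝ := ∑ i ∈ T, (l * M i - a i) ^ 2 with hC
  have hA0 : 0 ≤ A := Finset.sum_nonneg fun i _ => sq_nonneg _
  have hC0 : 0 ≤ C := Finset.sum_nonneg fun i _ => sq_nonneg _
  have hCq : Real.sqrt C ≤ Real.sqrt (q - l ^ 2 * ν) := Real.sqrt_le_sqrt (by linarith)
  have hcs : ∑ i ∈ T, (a i : ℝ) * (l * M i - a i) ≤ Real.sqrt A * Real.sqrt C :=
    Real.sum_mul_le_sqrt_mul_sqrt T _ _
  have h4 : l ^ 2 * ∑ i ∈ T, (M i : ℝ) ^ 2 =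
      A + 2 * ∑ i ∈ T, (a i : ℝ) * (l * M i - a i) + C := by
    rw [hA, hC, Finset.mul_sum, Finset.mul_sum, ← Finset.sum_add_distrib,
      ← Finset.sum_add_distrib]
    exact Finset.sum_congr rfl fun i _ => by ring
  have h5 : l * Real.sqrt (∑ i ∈ T, (M i : ℝ) ^ 2) =
      Real.sqrt (l ^ 2 * ∑ i ∈ T, (M i : ℝ) ^ 2) := by
    rw [Real.sqrt_mul (sq_nonneg l), Real.sqrt_sq hl0]
  rw [h5]
  have h6 : l ^ 2 * ∑ i ∈ T, (M i : ℝ) ^ 2 ≤ (Real.sqrt A + Real.sqrt C) ^ 2 := by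
    rw [h4, add_sq, Real.sq_sqrt hA0, Real.sq_sqrt hC0]
    linarith
  have h7 : Real.sqrt (l ^ 2 * ∑ i ∈ T, (M i : ℝ) ^ 2) ≤ Real.sqrt A + Real.sqrt C :=
    Real.sqrt_le_iff.2 ⟨by positivity, h6⟩
  linarith

/-- PROOF. `D > 0` since `ν > 0`. Let `l = e / D`, `x = l X`, `y = l M i0 ≤ x`, `A = l ^ 2 ν > 0` (`e ≥ 1`).
`close` gives `(m - y) ^ 2 + A ≤ q`. (1) `X ^ 2 < 7 ν`: `x ^ 2 < 7 A` (`l > 0`), `real_seven`: contradiction.
(2) `5000 X ^ 4 ≤ ν S`: multiply by `l ^ 4`, `5000 x ^ 4 ≤ A T`, `T = l ^ 2 S`, `√T = l √S`; `close_norm2` for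
`Sm α`, `real_thin`. (3) `15000 X ^ 5 ≤ ν ^ 2 D`: multiply by `l ^ 5`, `15000 x ^ 5 ≤ A ^ 2 e`; `real_deg`.
Compare `thin_num` (`Lib_MP_70e04f_thin/TNum.lean`). -/
theorem thin_num2 {n : ℕ} (e D X ν m q : ℕ) (a M : Fin n → ℕ) (α : Fin 9 → Fin n) (he : 1 ≤ e)
    (hX : 1 ≤ X) (hother : ∀ i ∈ Sm α, M i ≤ X) (hν : ∑ i, M i ^ 2 + ν = D ^ 2) (hν0 : 0 < ν)
    (hthin : X ^ 2 < 7 * ν ∨ 5000 * X ^ 4 ≤ ν * ∑ i ∈ Sm α, M i ^ 2 ∨
      15000 * X ^ 5 ≤ ν ^ 2 * D)
    (hq : ∑ i, a i ^ 2 = e ^ 2 + q) (hm : 3 ≤ m) (hqm : q + 2 ≤ m ∨ (q + 1 ≤ m ∧ 7 ≤ m))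
    (hNF : D * e ≤ ∑ i, M i * a i) (i0 : Fin n) (hi0 : i0 ∈ Sm α) (hai0 : a i0 = m) :
    3110 * m ^ 3 ≤ ∑ i ∈ Sm α, a i ^ 2 ∨ 9400 * m ^ 3 ≤ e := by
  have hD : 0 < D := by
    rcases Nat.eq_zero_or_pos D with h | h
    · subst h
      simp at hν
      omega
    · exact h
  obtain ⟨l, hl⟩ : ∃ l : ℝ, l = (e : ℝ) / D := ⟨_, rfl⟩
  have hD' : (0 : ℝ) < D := by exact_mod_cast hD
  have he' : (0 : ℝ) < e := by exact_mod_cast he
  have hlD : l * D = e := by rw [hl]; field_simp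
  have hl0 : 0 < l := by rw [hl]; positivity
  have k1 := close e D ν q a M hD hν hq hNF
  have k3 := close_norm2 e D ν q a M hD hν hq hNF (Sm α)
  rw [← hl] at k1 k3
  have k4 : (l * M i0 - a i0) ^ 2 ≤ ∑ i, (l * M i - a i) ^ 2 :=
    Finset.single_le_sum (f := fun i => (l * M i - a i) ^ 2) (fun _ _ => sq_nonneg _)
      (Finset.mem_univ i0)
  have hν0' : (0 : ℝ) < ν := by exact_mod_cast hν0
  have k5 : ((m : ℝ) - l * M i0) ^ 2 + l ^ 2 * ν ≤ q := by
    have h1 : ((m : ℝ) - l * M i0) ^ 2 = (l * M i0 - a i0) ^ 2 := by rw [hai0]; ring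
    rw [h1]
    linarith
  have hy : 0 ≤ l * (M i0 : ℝ) := by positivity
  have hyx : l * (M i0 : ℝ) ≤ l * X :=
    mul_le_mul_of_nonneg_left (by exact_mod_cast hother i0 hi0) hl0.le
  have ha : 0 < l ^ 2 * (ν : ℝ) := by positivity
  have hqc : (q : ℝ) ≤ m - 2 ∨ ((q : ℝ) ≤ m - 1 ∧ 7 ≤ m) := by
    rcases hqm with h | ⟨h, h'⟩
    · left
      have : (q : ℝ) + 2 ≤ m := by exact_mod_cast h
      linarith
    · right
      have : (q : ℝ) + 1 ≤ m := by exact_mod_cast h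
      exact ⟨by linarith, h'⟩
  have hS0 : (0 : ℝ) ≤ ∑ i ∈ Sm α, (M i : ℝ) ^ 2 := Finset.sum_nonneg fun i _ => sq_nonneg _
  have hA0 : (0 : ℝ) ≤ ∑ i ∈ Sm α, (a i : ℝ) ^ 2 := Finset.sum_nonneg fun i _ => sq_nonneg _
  rcases hthin with h | h | h
  · exfalso
    have h' : (X : ℝ) ^ 2 < 7 * ν := by exact_mod_cast h
    refine real_seven m q (l * X) (l * M i0) (l ^ 2 * ν) hy hyx k5 ?_ ?_
    · rcases hqc with h1 | ⟨h1, h2⟩
      · exact Or.inl h1
      · exact Or.inr ⟨h1, by exact_mod_cast h2⟩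
    · have h1 : (l * (X : ℝ)) ^ 2 = l ^ 2 * (X : ℝ) ^ 2 := by ring
      have h2 : 7 * (l ^ 2 * (ν : ℝ)) = l ^ 2 * (7 * ν) := by ring
      rw [h1, h2]
      exact mul_lt_mul_of_pos_left h' (by positivity)
  · left
    have h' : (5000 : ℝ) * (X : ℝ) ^ 4 ≤ ν * ∑ i ∈ Sm α, (M i : ℝ) ^ 2 := by exact_mod_cast h
    have h1 : 5000 * (l * (X : ℝ)) ^ 4 ≤ (l ^ 2 * ν) * (l ^ 2 * ∑ i ∈ Sm α, (M i : ℝ) ^ 2) := by
      have e1 : 5000 * (l * (X : ℝ)) ^ 4 = l ^ 4 * (5000 * (X : ℝ) ^ 4) := by ring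
      have e2 : (l ^ 2 * ν) * (l ^ 2 * ∑ i ∈ Sm α, (M i : ℝ) ^ 2) =
          l ^ 4 * (ν * ∑ i ∈ Sm α, (M i : ℝ) ^ 2) := by ring
      rw [e1, e2]
      exact mul_le_mul_of_nonneg_left h' (by positivity)
    have h2 : Real.sqrt (l ^ 2 * ∑ i ∈ Sm α, (M i : ℝ) ^ 2) ≤
        Real.sqrt (∑ i ∈ Sm α, (a i : ℝ) ^ 2) + Real.sqrt (q - l ^ 2 * ν) := by
      rw [Real.sqrt_mul (sq_nonneg l), Real.sqrt_sq hl0.le]
      exact k3
    have hT0 : (0 : ℝ) ≤ l ^ 2 * ∑ i ∈ Sm α, (M i : ℝ) ^ 2 := mul_nonneg (sq_nonneg l) hS0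
    generalize (l ^ 2 * ∑ i ∈ Sm α, (M i : ℝ) ^ 2) = T at h1 h2 hT0
    have h3 : 3110 * (m : ℝ) ^ 3 ≤ ∑ i ∈ Sm α, (a i : ℝ) ^ 2 := by
      generalize (∑ i ∈ Sm α, (a i : ℝ) ^ 2) = A at h2 hA0
      exact real_thin m q (l * X) (l * M i0) (l ^ 2 * ν) T A hm hy hyx ha k5 hqc hA0 hT0 h1 h2
    exact_mod_cast h3
  · right
    have h' : (15000 : ℝ) * (X : ℝ) ^ 5 ≤ (ν : ℝ) ^ 2 * D := by exact_mod_cast h
    have h1 : 15000 * (l * (X : ℝ)) ^ 5 ≤ (l ^ 2 * ν) ^ 2 * e := by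
      have e1 : 15000 * (l * (X : ℝ)) ^ 5 = l ^ 5 * (15000 * (X : ℝ) ^ 5) := by ring
      have e2 : (l ^ 2 * (ν : ℝ)) ^ 2 * e = l ^ 5 * ((ν : ℝ) ^ 2 * D) := by
        rw [← hlD]; ring
      rw [e1, e2]
      exact mul_le_mul_of_nonneg_left h' (by positivity)
    have h3 := real_deg m q (l * X) (l * M i0) (l ^ 2 * ν) e hm hy hyx ha k5 hqc h1
    exact_mod_cast h3

end Pool.MP_70e04f_ag.Strip

end
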