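import Pool.Agent.Lib_MP_70e04f_m.M29
import Pool.Agent.Lib_MP_70e04f_m.M33
import Pool.Agent.Lib_MP_70e04f_m.M35
import Pool.Agent.Lib_MP_70e04f_m.M36

/-!
# MP_70e04f_ag, plane linear systems: merged library part M37

Concatenation of smaller files (each in its own section), only to save build time.
-/

/-! ### from `Lib_MP_70e04f_thin.TPos` -/

section

/-!
# Piece TPOS: positivity in the thin strip
-/

set_option autoImplicit false

namespace Pool.MP_70e04f_ag.Strip

open MvPolynomial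

/-- Positivity in the thin strip.
PROOF. Let `B` be the maximum of `E`, `3` and the bound of `eff_large_all n E`. Let `ℓ > B`. Strong
induction on the degree `e ≤ E` of `F`: suppose that `dotp ≤ 0` and that the claim is true for all the
irreducible curves of smaller degree. Let `a i = mu (gp i) F ≤ e` (`mu_le_deg`), so
`D e ≤ ∑ M a`. By `nine_or`, `xu`, `two_simple`, `num_sq`, `num_K`, `num_one`: `e ^ 2 < ∑ a ^ 2`,
`3 e ≤ ∑ a`, and some point of `Sm α` has `a i ≥ 2`. So `e ≥ 2` and `pair_le` holds. `EffL n ℓ e a`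
(by `F`, `mem_iff_le_mu`), so `Eff0 e a` by the choice of `ℓ`.
(1) `F` is in standard form: `∑ j, a (ι j) ≤ e` for all injective `ι`. Otherwise `exists_smaller`
(`three_le`) gives an irreducible curve of smaller degree with `dotp ≤ 0`: contradiction.
(2) `not_eff0_std`: contradiction to `Eff0 e a`. -/
theorem pos_thin {n : ℕ} (D X ν : ℕ) (M : Fin n → ℕ) (α : Fin 9 → Fin n)
    (hα : Function.Injective α) (hanti : Antitone (fun s => M (α s))) (hX : 1 ≤ X)
    (hX8 : X ≤ M (α 8)) (hother : ∀ i, i ∉ Set.range α → M i ≤ X)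
    (hstd : M (α 0) + M (α 1) + M (α 2) ≤ D) (hν : ∑ i, M i ^ 2 + ν = D ^ 2) (hν0 : 0 < ν)
    (hνX : ν ≤ X ^ 2)
    (hthin : 100000 * X ^ 4 ≤ ν * ∑ i ∈ Sm α, M i ^ 2 ∨ 1000000 * X ^ 5 ≤ ν ^ 2 * D) (E : ℕ) :
    ∃ B : ℕ, ∀ ℓ : ℕ, ∀ [Fact ℓ.Prime], B < ℓ → ∀ F : A2 (KK n ℓ), Irreducible F →
      F.totalDegree ≤ E → 1 ≤ dotp D M (gp n ℓ) F := by
  obtain ⟨B0, hB0⟩ := eff_large_all n E
  refine ⟨B0 + E + 3, fun ℓ _ hℓ => ?_⟩
  have hsq : ∑ i, M i ^ 2 < D ^ 2 := by omega
  have key : ∀ e : ℕ, ∀ F : A2 (KK n ℓ), Irreducible F → F.totalDegree = e → e ≤ E →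
      1 ≤ dotp D M (gp n ℓ) F := by
    intro e
    induction e using Nat.strong_induction_on with
    | _ e ih =>
      intro F hF hFe hE
      by_contra hcon
      have hF0 : F ≠ 0 := hF.ne_zero
      have hdeg : F.totalDegree < ℓ := by omega
      rcases nine_or (by omega) D M α hα hsq hF hdeg with h9 | h9
      · exact hcon h9
      obtain ⟨a, ha⟩ : ∃ a : Fin n → ℕ, a = fun i => mu (gp n ℓ i) F := ⟨_, rfl⟩
      have hai : ∀ i, mu (gp n ℓ i) F = a i := fun i => by rw [ha]
      have hNF : D * e ≤ ∑ i, M i * a i := by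
        unfold dotp at hcon
        simp only [hai, hFe] at hcon
        have h1 : (D : ℤ) * e ≤ ∑ i, (M i : ℤ) * a i := by linarith
        exact_mod_cast h1
      have hxu : ∀ j, 1 ≤ a j → ∑ i, a i ^ 2 ≤ e ^ 2 + a j := by
        intro j hj
        have h := xu hF hdeg j (by rw [hai]; exact hj)
        simp only [hai, hFe] at h
        exact h
      have hts : ∀ i j, i ≠ j → a i = 1 → a j = 1 → ∑ s, a s ^ 2 = e ^ 2 + 1 →
          ∑ s, a s + 1 ≤ 3 * e := by
        intro i j hij hi hj hs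
        have h := two_simple hF hdeg hij (by rw [hai]; exact hi) (by rw [hai]; exact hj)
          (by simp only [hai, hFe]; exact hs)
        simp only [hai, hFe] at h
        exact h
      have hae : ∀ i, a i ≤ e := by
        intro i
        rw [← hai, ← hFe]
        exact mu_le_deg hF0
      have he : 1 ≤ e := by rw [← hFe]; exact spos_deg hF
      have hnine : ∑ s, a (α s) + 1 ≤ 3 * e := by
        simp only [hai, hFe] at h9
        exact h9
      have hneg : e ^ 2 < ∑ i, a i ^ 2 := by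
        by_contra h
        have := num_sq e D a M he hsq (not_lt.1 h)
        omega
      have hK : 3 * e ≤ ∑ i, a i := by
        by_contra h
        have := num_K e D X a M α hα hae (by omega) hanti hX hX8 hother hstd
        omega
      have h1 : ∃ i ∈ Sm α, 2 ≤ a i := by
        by_contra h
        push Not at h
        have := num_one e D X a M α hα he hae hxu hnine hts hanti hX hX8 hother hstd hsq
          (fun i hi => by have := h i (mem_Sm.2 hi); omega)
        omega
      have heff : Eff0 e a := by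
        refine hB0 ℓ (by omega) e a hE (fun i => (hae i).trans hE) ?_
        refine ⟨F, hF0, mem_Pt.2 hFe.le, mem_Iz.2 fun i => ?_⟩
        rw [mem_iff_le_mu hF0, hai]
      have h2 : 2 ≤ F.totalDegree := by
        obtain ⟨i, _, hi⟩ := h1
        have := hae i
        omega
      by_cases h3 : ∀ ι : Fin 3 → Fin n, Function.Injective ι → ∑ j, a (ι j) ≤ e
      · exact not_eff0_std e D X ν a M α hα hX (fun i hi => hother i (mem_Sm.1 hi)) hν hν0 hνX
          hthin hxu hneg hK hNF h1 h3 heff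
      · push Not at h3
        obtain ⟨ι, hι, h3⟩ := h3
        obtain ⟨F', hF', hdeg', hdot⟩ := exists_smaller (ℓ := ℓ) D e a M heff hneg
          (fun i j hij => by
            have := pair_le (gp_inj n ℓ) hF h2 hij
            rw [hai, hai, hFe] at this
            exact this) hNF ι hι
          (three_le D X M α hα hanti hX8 hother hstd ι hι) h3
        have := ih F'.totalDegree hdeg' F' hF' rfl (by omega)
        omega
  intro F hF hE
  exact key _ F hF rfl hE

end Pool.MP_70e04f_ag.Strip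

end

/-! ### from `Lib_MP_70e04f_thin.TGen` -/

section

/-!
# Piece TGEN: positivity in the two cases
-/

set_option autoImplicit false

namespace Pool.MP_70e04f_ag.Strip

open MvPolynomial

/-- PROOF. If `X ^ 2 < ν` take `B = max E 3` and apply `pos`; otherwise `pos_thin`. -/
theorem pos_all {n : ℕ} (D X ν : ℕ) (M : Fin n → ℕ) (α : Fin 9 → Fin n)
    (hα : Function.Injective α) (hanti : Antitone (fun s => M (α s))) (hX : 1 ≤ X)
    (hX8 : X ≤ M (α 8)) (hother : ∀ i, i ∉ Set.range α → M i ≤ X)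
    (hstd : M (α 0) + M (α 1) + M (α 2) ≤ D) (hν : ∑ i, M i ^ 2 + ν = D ^ 2) (hν0 : 0 < ν)
    (hthin : X ^ 2 < ν ∨ 100000 * X ^ 4 ≤ ν * ∑ i ∈ Sm α, M i ^ 2 ∨
      1000000 * X ^ 5 ≤ ν ^ 2 * D) (E : ℕ) :
    ∃ B : ℕ, ∀ ℓ : ℕ, ∀ [Fact ℓ.Prime], B < ℓ → ∀ F : A2 (KK n ℓ), Irreducible F →
      F.totalDegree ≤ E → 1 ≤ dotp D M (gp n ℓ) F := by
  by_cases h : X ^ 2 < ν
  · refine ⟨E + 3, fun ℓ _ hℓ F hF hE => ?_⟩
    exact pos (by omega) D X M α hα hanti hX hX8 hother hstd (by omega) hF (by omega)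
  · exact pos_thin D X ν M α hα hanti hX hX8 hother hstd hν hν0 (not_lt.1 h)
      (hthin.resolve_left h) E

/-- The class `(∑ m i ^ 2; d * m i)`, with `X = d * m (α 9)`.
PROOF. Let `S = ∑ m i ^ 2 = d ^ 2 + N`, `M i = d * m i`, `X = d * x`, `ν = S * N`: `∑ M i ^ 2 + ν =
d ^ 2 S + S N = S ^ 2`. `N ≥ x ^ 2` gives `ν = S N > d ^ 2 x ^ 2` (`S > d ^ 2`, `x ≥ 1`).
`100000 x ^ 4 ≤ N * ∑ m i ^ 2` (over `Sm α`) gives `100000 d ^ 4 x ^ 4 ≤ d ^ 4 N ∑ m i ^ 2 ≤ ν ∑ M i ^ 2`.
`1000000 x ^ 5 ≤ N ^ 2 d` gives `1000000 d ^ 5 x ^ 5 ≤ d ^ 6 N ^ 2 ≤ S ^ 3 N ^ 2 = ν ^ 2 S`. Then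
`pos_all`. -/
theorem pos_neg {n : ℕ} (d x N : ℕ) (m : Fin n → ℕ) (α : Fin 9 → Fin n)
    (hα : Function.Injective α) (hanti : Antitone (fun s => m (α s))) (hx : 1 ≤ x)
    (hx8 : x ≤ m (α 8)) (hother : ∀ i, i ∉ Set.range α → m i ≤ x)
    (hstd : m (α 0) + m (α 1) + m (α 2) ≤ d) (hN : ∑ i, m i ^ 2 = d ^ 2 + N) (hN0 : 0 < N)
    (hthin : x ^ 2 ≤ N ∨ 100000 * x ^ 4 ≤ N * ∑ i ∈ Sm α, m i ^ 2 ∨
      1000000 * x ^ 5 ≤ N ^ 2 * d) (E : ℕ) :
    ∃ B : ℕ, ∀ ℓ : ℕ, ∀ [Fact ℓ.Prime], B < ℓ → ∀ F : A2 (KK n ℓ), Irreducible F →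
      F.totalDegree ≤ E → 1 ≤ dotp (∑ i, m i ^ 2) (fun i => d * m i) (gp n ℓ) F := by
  have hd : 1 ≤ d := by
    have h0 : m (α 8) ≤ m (α 0) := hanti (Fin.zero_le 8)
    omega
  have hM : ∀ T : Finset (Fin n), ∑ i ∈ T, (d * m i) ^ 2 = d ^ 2 * ∑ i ∈ T, m i ^ 2 := by
    intro T
    rw [Finset.mul_sum]
    exact Finset.sum_congr rfl fun i _ => by ring
  have hSS : d ^ 2 ≤ ∑ i, m i ^ 2 := by omega
  refine pos_all (∑ i, m i ^ 2) (d * x) ((∑ i, m i ^ 2) * N) (fun i => d * m i) α hα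
    (fun a b hab => Nat.mul_le_mul_left d (hanti hab)) (Nat.mul_pos hd hx)
    (Nat.mul_le_mul_left d hx8) (fun i hi => Nat.mul_le_mul_left d (hother i hi)) ?_ ?_ ?_ ?_ E
  · calc d * m (α 0) + d * m (α 1) + d * m (α 2) = d * (m (α 0) + m (α 1) + m (α 2)) := by ring
      _ ≤ d * d := Nat.mul_le_mul_left d hstd
      _ = d ^ 2 := by ring
      _ ≤ _ := hSS
  · rw [hM, hN]
    ring
  · exact Nat.mul_pos (by have : 1 ≤ d ^ 2 := Nat.one_le_pow _ _ hd; omega) hN0
  · rcases hthin with h | h | h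
    · left
      have h1 : 1 ≤ x ^ 2 := Nat.one_le_pow _ _ hx
      calc (d * x) ^ 2 = d ^ 2 * x ^ 2 := by ring
        _ < (∑ i, m i ^ 2) * x ^ 2 := Nat.mul_lt_mul_of_pos_right (by omega) h1
        _ ≤ (∑ i, m i ^ 2) * N := Nat.mul_le_mul_left _ h
    · right; left
      rw [hM]
      calc 100000 * (d * x) ^ 4 = d ^ 4 * (100000 * x ^ 4) := by ring
        _ ≤ d ^ 4 * (N * ∑ i ∈ Sm α, m i ^ 2) := Nat.mul_le_mul_left _ h
        _ = d ^ 2 * N * (d ^ 2 * ∑ i ∈ Sm α, m i ^ 2) := by ring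
        _ ≤ (∑ i, m i ^ 2) * N * (d ^ 2 * ∑ i ∈ Sm α, m i ^ 2) :=
          Nat.mul_le_mul_right _ (Nat.mul_le_mul_right _ hSS)
    · right; right
      calc 1000000 * (d * x) ^ 5 = d ^ 5 * (1000000 * x ^ 5) := by ring
        _ ≤ d ^ 5 * (N ^ 2 * d) := Nat.mul_le_mul_left _ h
        _ = (d ^ 2) ^ 3 * N ^ 2 := by ring
        _ ≤ (∑ i, m i ^ 2) ^ 3 * N ^ 2 := Nat.mul_le_mul_right _ (Nat.pow_le_pow_left hSS 3)
        _ = ((∑ i, m i ^ 2) * N) ^ 2 * ∑ i, m i ^ 2 := by ring

end Pool.MP_70e04f_ag.Strip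

end

/-! ### from `Lib_MP_70e04f_thin.TFinal` -/

section

/-!
# Piece TFINAL: the thin strip, assembly
-/

set_option autoImplicit false

namespace Pool.MP_70e04f_ag.Strip

open MvPolynomial

theorem TFinal_sum {n r : ℕ} (S : Finset (Fin n)) (ι : Fin r → Fin n)
    (hι : Function.Injective ι) (hr : Set.range ι = ↑S) (β : Fin 9 → Fin n) (β' : Fin 9 → Fin r)
    (h : ∀ j, ι (β' j) = β j) (f : Fin n → ℕ) :
    ∑ a ∈ Sm β', f (ι a) = ∑ i ∈ S.filter (fun i => ∀ j, i ≠ β j), f i := by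
  have h1 : S.filter (fun i => ∀ j, i ≠ β j) = (Sm β').map ⟨ι, hι⟩ := by
    ext i
    rw [Finset.mem_filter, Finset.mem_map, ← Finset.mem_coe, ← hr]
    constructor
    · rintro ⟨⟨a, rfl⟩, hb⟩
      refine ⟨a, ?_, rfl⟩
      rw [mem_Sm]
      rintro ⟨j, rfl⟩
      exact hb j (h j)
    · rintro ⟨a, ha, rfl⟩
      refine ⟨⟨a, rfl⟩, ?_⟩
      intro j hj
      rw [mem_Sm] at ha
      apply ha
      refine ⟨j, hι ?_⟩
      rw [h]
      exact hj.symm
  rw [h1, Finset.sum_map]
  rfl

/-- The thin strip theorem. (The small points are the ones outside of the first nine of the ten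
points `α`.)
PROOF. As `gen_strip` (`Lib_MP_70e04f_strip/SFinal.lean`) with `exists_enum`, `sum_enum`, and `pos_all`,
`ind_of_pos`, resp. `pos_neg`, `empty_of_pos`. -/
theorem gen_thin (n d D N : ℕ) (mult : Fin n → ℕ) (α : Fin 10 → Fin n)
    (hα : Function.Injective α) (hanti : Antitone (fun j => mult (α j)))
    (h2 : 2 ≤ mult (α 9)) (hother : ∀ i, i ∉ Set.range α → mult i ≤ mult (α 9))
    (hstd : mult (α 0) + mult (α 1) + mult (α 2) ≤ d) (hN : 0 < N)
    (hbig : (∑ i with 2 ≤ mult i, (mult i + 1) ^ 2 + N = (d + 3) ^ 2 ∧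
        ((mult (α 9) + 1) ^ 2 < N ∨
          100000 * (mult (α 9) + 1) ^ 4 ≤
            N * ∑ i with 2 ≤ mult i ∧ ∀ j : Fin 9, i ≠ α j.castSucc, (mult i + 1) ^ 2 ∨
          1000000 * (mult (α 9) + 1) ^ 5 ≤ N ^ 2 * (d + 3))) ∨
      (∑ i, mult i ^ 2 = d ^ 2 + N ∧
        (mult (α 9) ^ 2 ≤ N ∨
          100000 * mult (α 9) ^ 4 ≤
            N * ∑ i with ∀ j : Fin 9, i ≠ α j.castSucc, mult i ^ 2 ∨
          1000000 * mult (α 9) ^ 5 ≤ N ^ 2 * d)))
    (hD : D = d ∨ D ≤ d ∧ (d + 1) * (d + 2) ≤ ∑ i, mult i * (mult i + 1)) : GExp D mult := by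
  classical
  have h9 : ∀ j, mult (α 9) ≤ mult (α j) := fun j => hanti (Fin.le_last j)
  have hn : 0 < n := lt_of_le_of_lt (Nat.zero_le _) (α 0).2
  -- facts on the enumerated family
  have hfam : ∀ {r : ℕ} (ι : Fin r → Fin n) (α' : Fin 10 → Fin r), Function.Injective ι →
      (∀ j, ι (α' j) = α j) → Antitone (fun s : Fin 9 => mult (ι (α' s.castSucc))) ∧
      mult (α 9) ≤ mult (ι (α' (8 : Fin 9).castSucc)) ∧
      (∀ i, i ∉ Set.range (fun s : Fin 9 => α' s.castSucc) → mult (ι i) ≤ mult (α 9)) ∧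
      mult (ι (α' (0 : Fin 9).castSucc)) + mult (ι (α' (1 : Fin 9).castSucc)) +
        mult (ι (α' (2 : Fin 9).castSucc)) ≤ d := by
    intro r ι α' hι hια
    refine ⟨?_, ?_, ?_, ?_⟩
    · intro a b hab
      simp only [hια]
      exact hanti (Fin.castSucc_le_castSucc_iff.2 hab)
    · rw [hια]
      exact h9 _
    · intro i hi
      by_cases h : ι i ∈ Set.range α
      · obtain ⟨j, hj⟩ := h
        rw [← hj]
        rcases Fin.eq_castSucc_or_eq_last j with ⟨j', rfl⟩ | rfl
        · exfalso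
          apply hi
          refine ⟨j', hι ?_⟩
          simp only
          rw [hια, hj]
        · exact le_refl _
      · exact hother _ h
    · simp only [hια]
      exact hstd
  have key : GExp d mult := by
    rcases hbig with ⟨hb, ht⟩ | ⟨hb, ht⟩
    · obtain ⟨ι, α', hι, hr, hια, hα'⟩ := exists_enum (Finset.univ.filter (fun i => 2 ≤ mult i)) α hα
        (fun j => by
          rw [Finset.mem_filter]
          exact ⟨Finset.mem_univ _, h2.trans (h9 j)⟩)
      obtain ⟨f1, f2, f3, f4⟩ := hfam ι α' hι hια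
      have hs := sum_enum _ ι hι hr (fun i => (mult i + 1) ^ 2)
      have hs2 := TFinal_sum _ ι hι hr (fun j : Fin 9 => α j.castSucc)
        (fun j : Fin 9 => α' j.castSucc) (fun j => hια _) (fun i => (mult i + 1) ^ 2)
      rw [Finset.filter_filter] at hs2
      obtain ⟨k, _, _, p, hp, hind⟩ := ind_of_pos (α' 0).pos d (fun a => mult (ι a)) (by rw [hs]; omega)
        (pos_all (d + 3) (mult (α 9) + 1) N (fun a => mult (ι a) + 1)
          (fun s : Fin 9 => α' s.castSucc) (hα'.comp (Fin.castSucc_injective _))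
          (fun a b hab => Nat.add_le_add_right (f1 hab) 1) (by omega) (Nat.add_le_add_right f2 1)
          (fun i hi => Nat.add_le_add_right (f3 i hi) 1) (by omega)
          (by rw [hs]; exact hb) hN (by rw [hs2]; exact ht))
      obtain ⟨p2, hp2⟩ := (EXP.of_ind hp hind).extend ι hι
        (fun i hi => by
          by_contra hcon
          apply hi
          have : i ∈ (↑(Finset.univ.filter (fun i => 2 ≤ mult i)) : Set (Fin n)) := by
            rw [Finset.mem_coe, Finset.mem_filter]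
            exact ⟨Finset.mem_univ _, by omega⟩
          rw [← hr] at this
          exact this)
      exact gexp_of_good d mult p2 hp2.good
    · obtain ⟨ι, α', hι, hr, hια, hα'⟩ := exists_enum (Finset.univ.filter (fun i => 1 ≤ mult i)) α hα
        (fun j => by
          rw [Finset.mem_filter]
          exact ⟨Finset.mem_univ _, by have := h9 j; omega⟩)
      obtain ⟨f1, f2, f3, f4⟩ := hfam ι α' hι hια
      have hs := sum_enum _ ι hι hr (fun i => mult i ^ 2)
      have hs' : ∑ i ∈ Finset.univ.filter (fun i => 1 ≤ mult i), mult i ^ 2 = ∑ i, mult i ^ 2 := by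
        apply Finset.sum_subset (Finset.subset_univ _)
        intro i _ hi
        rw [Finset.mem_filter] at hi
        have : mult i = 0 := by
          by_contra h0
          exact hi ⟨Finset.mem_univ _, by omega⟩
        rw [this]; rfl
      have hs2 := TFinal_sum _ ι hι hr (fun j : Fin 9 => α j.castSucc)
        (fun j : Fin 9 => α' j.castSucc) (fun j => hια _) (fun i => mult i ^ 2)
      have hs2' : ∑ i ∈ (Finset.univ.filter (fun i => 1 ≤ mult i)).filter
          (fun i => ∀ j : Fin 9, i ≠ α j.castSucc), mult i ^ 2 =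
          ∑ i with ∀ j : Fin 9, i ≠ α j.castSucc, mult i ^ 2 := by
        apply Finset.sum_subset
        · intro i hi
          rw [Finset.mem_filter] at hi ⊢
          exact ⟨Finset.mem_univ _, hi.2⟩
        · intro i hi1 hi
          rw [Finset.mem_filter] at hi1
          rw [Finset.mem_filter, Finset.mem_filter] at hi
          have : mult i = 0 := by
            by_contra h0
            exact hi ⟨⟨Finset.mem_univ _, by omega⟩, hi1.2⟩
          rw [this]; rfl
      obtain ⟨k, _, _, p, hp, hbot⟩ := empty_of_pos (α' 0).pos d (fun a => mult (ι a))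
        (fun a => by
          have : ι a ∈ (↑(Finset.univ.filter (fun i => 1 ≤ mult i)) : Set (Fin n)) := by
            rw [← hr]; exact ⟨a, rfl⟩
          rw [Finset.mem_coe, Finset.mem_filter] at this
          exact this.2)
        (pos_neg d (mult (α 9)) N (fun a => mult (ι a)) (fun s : Fin 9 => α' s.castSucc)
          (hα'.comp (Fin.castSucc_injective _)) f1 (by omega) f2 f3 f4
          (by rw [hs, hs']; exact hb) hN (by rw [hs2, hs2']; exact ht) d)
      obtain ⟨p2, hp2⟩ := (EXP.of_bot hbot).extend ι hι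
        (fun i hi => by
          by_contra hcon
          apply hi
          have : i ∈ (↑(Finset.univ.filter (fun i => 1 ≤ mult i)) : Set (Fin n)) := by
            rw [Finset.mem_coe, Finset.mem_filter]
            exact ⟨Finset.mem_univ _, by omega⟩
          rw [← hr] at this
          exact this)
      exact gexp_of_good d mult p2 hp2.good
  rcases hD with rfl | ⟨h3, h4⟩
  · exact key
  · exact key.le h3 h4

end Pool.MP_70e04f_ag.Strip

end
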