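import Pool.Agent.Lib_MP_70e04f_m.M19
import Pool.Agent.Lib_MP_70e04f_m.M28

/-!
# MP_70e04f_ag, plane linear systems: merged library part M38

Concatenation of smaller files (each in its own section), only to save build time.
-/

/-! ### from `Lib_MP_70e04f_gon.GSing` -/

section

/-!
# Piece GSING: a curve does not move along with one of its singular points
-/

set_option autoImplicit false

namespace Pool.MP_70e04f_ag.Strip

open MvPolynomial

theorem GSing_coeff {k : Type*} [Field k] (f : A2 k) (i : Fin 2) (m : Fin 2 →₀ ℕ) :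
    coeff m (pderiv i f) = coeff (m + Finsupp.single i 1) f * ((m i : k) + 1) := by
  rw [coeff_pderiv]

theorem GSing_comm {k : Type*} [Field k] (D : Derivation ℤ k k) (f : A2 k) (i : Fin 2) :
    mapDer D (pderiv i f) = pderiv i (mapDer D f) := by
  ext m
  rw [coeff_mapDer, GSing_coeff, GSing_coeff, coeff_mapDer, Derivation.leibniz, smul_eq_mul,
    smul_eq_mul]
  have h : D ((m i : k) + 1) = 0 := by
    have := D.map_natCast (m i + 1)
    rwa [Nat.cast_add, Nat.cast_one] at this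
  rw [h]
  ring

theorem GSing_mem {k : Type*} [Field k] {p : Fin 2 → k} {f : A2 k} (hp : f ∈ mp p ^ 2)
    (i : Fin 2) : pderiv i f ∈ mp p := by
  rw [pow_two] at hp
  induction hp using Submodule.mul_induction_on' with
  | mem_mul_mem a ha b hb =>
    rw [pderiv_mul]
    exact add_mem (Ideal.mul_mem_left _ _ hb) (Ideal.mul_mem_right _ _ ha)
  | add a _ b _ ha hb =>
    rw [map_add]
    exact add_mem ha hb

theorem GSing_exists {k : Type*} [Field k] {f : A2 k} (hf : Irreducible f)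
    (hchar : ∀ s : ℕ, 1 ≤ s → s ≤ f.totalDegree ^ 2 → (s : k) ≠ 0) :
    ∃ i : Fin 2, pderiv i f ≠ 0 := by
  classical
  have h1 : ∃ s ∈ f.support, s ≠ 0 := by
    by_contra hcon
    push Not at hcon
    have h2 : f = C (coeff 0 f) := by
      ext s
      rw [coeff_C]
      split_ifs with h
      · rw [h]
      · by_contra h3
        exact h ((hcon s (mem_support_iff.2 h3)).symm)
    have h3 : coeff 0 f ≠ 0 := by
      intro h4
      rw [h4, C_0] at h2
      exact hf.ne_zero h2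
    apply hf.not_isUnit
    rw [h2]
    exact (isUnit_iff_ne_zero.2 h3).map C
  obtain ⟨s, hs, hs0⟩ := h1
  obtain ⟨i, hi⟩ := Finsupp.ne_iff.1 hs0
  have hi : s i ≠ 0 := hi
  refine ⟨i, fun h => ?_⟩
  have h2 := GSing_coeff f i (s - Finsupp.single i 1)
  have h3 : s - Finsupp.single i 1 + Finsupp.single i 1 = s := by
    apply tsub_add_cancel_of_le
    rw [Finsupp.single_le_iff]
    omega
  rw [h, coeff_zero, h3] at h2
  have h4 : (((s - Finsupp.single i 1 : Fin 2 →₀ ℕ) i : ℕ) : k) + 1 = (s i : k) := by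
    have h5 : (s - Finsupp.single i 1 : Fin 2 →₀ ℕ) i + 1 = s i := by
      rw [Finsupp.tsub_apply, Finsupp.single_eq_same]
      omega
    rw [← h5, Nat.cast_add, Nat.cast_one]
  rw [h4] at h2
  have h5 : s i ≤ f.totalDegree := by
    refine le_trans ?_ (le_totalDegree hs)
    rw [Finsupp.sum_fintype _ _ (fun _ => rfl)]
    exact Finset.single_le_sum (f := fun j => s j) (fun _ _ => Nat.zero_le _) (Finset.mem_univ i)
  have h6 := hchar (s i) (by omega) (h5.trans (by nlinarith))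
  exact mul_ne_zero (mem_support_iff.1 hs) h6 h2.symm

theorem GSing_deg {k : Type*} [Field k] {f : A2 k} {i : Fin 2} (h : pderiv i f ≠ 0) :
    (pderiv i f).totalDegree < f.totalDegree := by
  obtain ⟨m, hm, hm2⟩ : ∃ m ∈ (pderiv i f).support, (pderiv i f).totalDegree = m.sum fun _ e => e := by
    rw [totalDegree_eq]
    have hne : (pderiv i f).support.Nonempty := by
      rw [support_nonempty]
      exact h
    obtain ⟨m, hm, e⟩ := Finset.exists_mem_eq_sup _ hne (fun m => Multiset.card m.toMultiset)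
    refine ⟨m, hm, ?_⟩
    rw [e, Finsupp.card_toMultiset]
    rfl
  have h2 : m + Finsupp.single i 1 ∈ f.support := by
    rw [mem_support_iff] at hm ⊢
    rw [GSing_coeff] at hm
    exact left_ne_zero_of_mul hm
  have h3 := le_totalDegree h2
  rw [Finsupp.sum_add_index' (fun _ => rfl) (fun _ _ _ => rfl), Finsupp.sum_single_index rfl] at h3
  omega

/-- A singular point of a curve which is constant up to a factor is constant.
PROOF. `e = deg f ≥ 1`. Some variable `X c` occurs in a monomial of `f` with an exponent `1 ≤ s ≤ e`, and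
`(s : k) ≠ 0` (`hchar`, `e ≤ e ^ 2`), so `g = pderiv c f ≠ 0`; `deg g ≤ e - 1`, so `f` does not divide `g` and
`bez` (`irr_relPrime`) shows that `J = pr f ⊔ pr g` has `FinC` and `len J ≤ e (e - 1) ≤ e ^ 2`. `J` is stable:
`mapDer D f = C h * f`, `mapDer D g = pderiv c (mapDer D f) = C h * g` (compare coefficients, or
`mapDer` commutes with `pderiv`), and `mapDer_add`, `mapDer_mul`. `J ≤ mp p` since `f ∈ mp p ^ 2` and
`g ∈ mp p` (`mem_mp_pow`: the coefficients of degree `≤ 1` of `shift p f` vanish; `shift` commutes with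
`pderiv`). `der_const`. -/
theorem der_sing {k : Type*} [Field k] (D : Derivation ℤ k k) {f : A2 k} (hf : Irreducible f)
    {h : k} (hD : mapDer D f = C h * f) {p : Fin 2 → k} (hp : f ∈ mp p ^ 2)
    (hchar : ∀ s : ℕ, 1 ≤ s → s ≤ f.totalDegree ^ 2 → (s : k) ≠ 0) (c : Fin 2) : D (p c) = 0 := by
  obtain ⟨i, hi⟩ := GSing_exists hf hchar
  have hdeg := GSing_deg hi
  have hnd : ¬ f ∣ pderiv i f := fun h1 => by
    have := totalDegree_le_of_dvd_of_isDomain h1 hi
    omega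
  obtain ⟨hfin, hlen⟩ := bez hf.ne_zero hi (irr_relPrime hf hnd)
  refine der_const D hfin ?_ ?_ (fun s hs1 hs2 => hchar s hs1 ?_) c
  · intro x hx
    obtain ⟨y, hy, z, hz, rfl⟩ := Submodule.mem_sup.1 hx
    obtain ⟨a, rfl⟩ := mem_pr.1 hy
    obtain ⟨b, rfl⟩ := mem_pr.1 hz
    rw [mapDer_add, mapDer_mul, mapDer_mul, GSing_comm, hD, pderiv_C_mul]
    apply add_mem
    · apply Ideal.mem_sup_left
      rw [mem_pr]
      exact ⟨C h * a + mapDer D a, by ring⟩
    · apply Ideal.mem_sup_right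
      rw [mem_pr]
      exact ⟨C h * b + mapDer D b, by ring⟩
  · rw [sup_le_iff]
    refine ⟨?_, ?_⟩
    · intro x hx
      obtain ⟨a, rfl⟩ := mem_pr.1 hx
      exact Ideal.mul_mem_right _ _ (Ideal.pow_le_self two_ne_zero hp)
    · intro x hx
      obtain ⟨a, rfl⟩ := mem_pr.1 hx
      exact Ideal.mul_mem_right _ _ (GSing_mem hp i)
  · refine hs2.trans (hlen.trans ?_)
    rw [pow_two]
    exact Nat.mul_le_mul_left _ hdeg.le

end Pool.MP_70e04f_ag.Strip

end

/-! ### from `Lib_MP_70e04f_gon.GTwo` -/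

section

/-!
# Piece GTWO: two independent sections given by the movement of a singular point
-/

set_option autoImplicit false

namespace Pool.MP_70e04f_ag.Strip

open MvPolynomial

/-- PROOF. `u = mapDer d0 F`, `w = mapDer d1 F`; `mapDer_sec`. Suppose `F ∣ C α * u + C γ * w`; this is
`mapDer D F` with `D = α • d0 + γ • d1` (`coeff_mapDer`), of degree `≤ deg F`, so it is `C h * F`. By
`der_sing` (`F ∈ mp (p j) ^ 2`) `D (p j c) = 0` for `c = 0, 1`, and `D (p j 0) = α`, `D (p j 1) = γ`. -/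
theorem two_sec {k : Type*} [Field k] {n : ℕ} (p : Fin n → Fin 2 → k) (j : Fin n)
    (d0 d1 : Derivation ℤ k k) (h0 : ∀ i c, d0 (p i c) = if i = j ∧ c = 0 then 1 else 0)
    (h1 : ∀ i c, d1 (p i c) = if i = j ∧ c = 1 then 1 else 0) {F : A2 k} (hF : Irreducible F)
    (hj : 2 ≤ mu (p j) F)
    (hchar : ∀ s : ℕ, 1 ≤ s → s ≤ F.totalDegree ^ 2 → (s : k) ≠ 0) :
    ∃ u w : A2 k, u ∈ Pt k F.totalDegree ∧ w ∈ Pt k F.totalDegree ∧
      u ∈ Iz p (fun i => if i = j then mu (p i) F - 1 else mu (p i) F) ∧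
      w ∈ Iz p (fun i => if i = j then mu (p i) F - 1 else mu (p i) F) ∧
      ∀ α γ : k, F ∣ C α * u + C γ * w → α = 0 ∧ γ = 0 := by
  have hF0 : F ≠ 0 := hF.ne_zero
  obtain ⟨u1, u2⟩ := mapDer_sec p hF0 j d0 (fun i c hi => by
    rw [h0, if_neg (fun h => hi h.1)])
  obtain ⟨w1, w2⟩ := mapDer_sec p hF0 j d1 (fun i c hi => by
    rw [h1, if_neg (fun h => hi h.1)])
  refine ⟨mapDer d0 F, mapDer d1 F, u1, w1, u2, w2, fun α γ hdvd => ?_⟩
  have e1 : C α * mapDer d0 F + C γ * mapDer d1 F = mapDer (α • d0 + γ • d1) F := by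
    ext s
    rw [coeff_add, coeff_C_mul, coeff_C_mul, coeff_mapDer, coeff_mapDer, coeff_mapDer]
    simp
  rw [e1] at hdvd
  have h3 : mapDer (α • d0 + γ • d1) F ∈ Pt k F.totalDegree :=
    mem_Pt.2 (totalDegree_mapDer_le _ _)
  obtain ⟨h, hh⟩ : ∃ h : k, mapDer (α • d0 + γ • d1) F = C h * F := by
    obtain ⟨H, hH⟩ := hdvd
    by_cases hH0 : H = 0
    · exact ⟨0, by rw [hH, hH0, mul_zero, C_0, zero_mul]⟩
    · have h4 := totalDegree_mul_of_isDomain hF0 hH0
      rw [← hH] at h4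
      have h5 := mem_Pt.1 h3
      have h6 : H.totalDegree = 0 := by omega
      rw [totalDegree_eq_zero_iff_eq_C] at h6
      refine ⟨coeff 0 H, ?_⟩
      rw [hH, mul_comm]
      conv_lhs => rw [h6]
  have h4 : F ∈ mp (p j) ^ 2 := (mem_iff_le_mu hF0 2).2 hj
  have h5 := der_sing (α • d0 + γ • d1) hF hh h4 hchar
  have h6 := h5 0
  have h7 := h5 1
  rw [Derivation.add_apply, Derivation.smul_apply, Derivation.smul_apply, h0, h1] at h6 h7
  simp at h6 h7
  exact ⟨h6, h7⟩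

end Pool.MP_70e04f_ag.Strip

end

/-! ### from `Lib_MP_70e04f_gon.GXu` -/

section

/-!
# Piece GXU: the refined lemma of Xu
-/

set_option autoImplicit false

namespace Pool.MP_70e04f_ag.Strip

open MvPolynomial

variable {n ℓ : ℕ} [Fact ℓ.Prime]

/-- Two independent sections given by the movement of a singular point.
PROOF. `two_sec` with the extensions (`exists_der_frac`) of the derivations `pderiv (j, 0)`,
`pderiv (j, 1)` of `RR n ℓ` (restricted to `ℤ`), and `cast_ne_zero_KK`. -/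
theorem exists_two_sec {F : A2 (KK n ℓ)} (hF : Irreducible F) (hdeg : F.totalDegree ^ 2 < ℓ)
    {j : Fin n} (hj : 2 ≤ mu (gp n ℓ j) F) :
    ∃ u w : A2 (KK n ℓ), u ∈ Pt (KK n ℓ) F.totalDegree ∧ w ∈ Pt (KK n ℓ) F.totalDegree ∧
      u ∈ Iz (gp n ℓ) (fun i => if i = j then mu (gp n ℓ i) F - 1 else mu (gp n ℓ i) F) ∧
      w ∈ Iz (gp n ℓ) (fun i => if i = j then mu (gp n ℓ i) F - 1 else mu (gp n ℓ i) F) ∧
      ∀ α γ : KK n ℓ, F ∣ C α * u + C γ * w → α = 0 ∧ γ = 0 := by
  classical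
  obtain ⟨d0, hd0⟩ := exists_der_frac (K := KK n ℓ)
    ((pderiv (R := ZMod ℓ) (j, (0 : Fin 2))).restrictScalars ℤ)
  obtain ⟨d1, hd1⟩ := exists_der_frac (K := KK n ℓ)
    ((pderiv (R := ZMod ℓ) (j, (1 : Fin 2))).restrictScalars ℤ)
  refine two_sec (gp n ℓ) j d0 d1 ?_ ?_ hF hj
    (fun s h1 h2 => cast_ne_zero_KK h1 (lt_of_le_of_lt h2 hdeg))
  · intro i c
    have h1 : d0 (gp n ℓ i c) = algebraMap (RR n ℓ) (KK n ℓ)
        (pderiv (R := ZMod ℓ) (j, (0 : Fin 2)) (X (i, c))) := hd0 _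
    rw [h1, pderiv_X]
    by_cases h : i = j ∧ c = 0
    · rw [if_pos h, h.1, h.2, Pi.single_eq_same, map_one]
    · rw [if_neg h, Pi.single_eq_of_ne, map_zero]
      intro he
      exact h ⟨congrArg Prod.fst he, congrArg Prod.snd he⟩
  · intro i c
    have h1 : d1 (gp n ℓ i c) = algebraMap (RR n ℓ) (KK n ℓ)
        (pderiv (R := ZMod ℓ) (j, (1 : Fin 2)) (X (i, c))) := hd1 _
    rw [h1, pderiv_X]
    by_cases h : i = j ∧ c = 1
    · rw [if_pos h, h.1, h.2, Pi.single_eq_same, map_one]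
    · rw [if_neg h, Pi.single_eq_of_ne, map_zero]
      intro he
      exact h ⟨congrArg Prod.fst he, congrArg Prod.snd he⟩

theorem GXu_dotp (F : A2 (KK n ℓ)) {j : Fin n} (hj : 2 ≤ mu (gp n ℓ j) F) :
    dotp F.totalDegree (fun i => if i = j then mu (gp n ℓ i) F - 1 else mu (gp n ℓ i) F)
      (gp n ℓ) F =
      (F.totalDegree : ℤ) ^ 2 - ((∑ i, mu (gp n ℓ i) F ^ 2 : ℕ) : ℤ) + mu (gp n ℓ j) F := by
  classical
  unfold dotp
  have h1 : ∀ i, ((if i = j then mu (gp n ℓ i) F - 1 else mu (gp n ℓ i) F : ℕ) : ℤ) *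
      mu (gp n ℓ i) F = ((mu (gp n ℓ i) F ^ 2 : ℕ) : ℤ) -
        (if i = j then (mu (gp n ℓ j) F : ℤ) else 0) := by
    intro i
    by_cases h : i = j
    · subst h
      rw [if_pos rfl, if_pos rfl, Nat.cast_sub (by omega)]
      push_cast
      ring
    · rw [if_neg h, if_neg h]
      push_cast
      ring
  rw [Finset.sum_congr rfl fun i _ => h1 i, Finset.sum_sub_distrib, Finset.sum_ite_eq']
  simp only [Finset.mem_univ, if_true]
  push_cast
  ring

/-- PROOF. With `β` as in `exists_two_sec`, `dotp e β F = e ^ 2 - ∑ mu ^ 2 + mu j =: δ`, and `δ ≥ 0` by `xu`. If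
`δ = 0`: `gon_zero` (`gp_inj`, `infinite_KK`). -/
theorem xu_one {F : A2 (KK n ℓ)} (hF : Irreducible F) (hG : GIrr F)
    (hdeg : F.totalDegree ^ 2 < ℓ) {j : Fin n} (hj : 2 ≤ mu (gp n ℓ j) F) :
    ∑ i, mu (gp n ℓ i) F ^ 2 + 1 ≤ F.totalDegree ^ 2 + mu (gp n ℓ j) F := by
  have he : 1 ≤ F.totalDegree := spos_deg hF
  have hlt : F.totalDegree < ℓ := by nlinarith
  have h0 := xu hF hlt j (by omega)
  by_contra hcon
  have heq : ∑ i, mu (gp n ℓ i) F ^ 2 = F.totalDegree ^ 2 + mu (gp n ℓ j) F := by omega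
  obtain ⟨u, w, hu, hw, huβ, hwβ, hind⟩ := exists_two_sec hF hdeg hj
  have hn : 0 < n := lt_of_le_of_lt (Nat.zero_le _) j.2
  have := infinite_KK ℓ hn
  refine gon_zero (gp_inj n ℓ) hF hG F.totalDegree _ ?_ hu hw huβ hwβ hind
  rw [GXu_dotp F hj, heq]
  push_cast
  ring

/-- PROOF. As `xu_one`, and `gon_one` for `δ = 1`. -/
theorem xu_two {F : A2 (KK n ℓ)} (hF : Irreducible F) (hG : GIrr F)
    (hdeg : F.totalDegree ^ 2 < ℓ) {j : Fin n} (hj : 2 ≤ mu (gp n ℓ j) F)
    (hgen : ∑ i, (mu (gp n ℓ i) F : ℤ) * ((mu (gp n ℓ i) F : ℤ) - 1) ≤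
      (F.totalDegree : ℤ) * (F.totalDegree - 3)) :
    ∑ i, mu (gp n ℓ i) F ^ 2 + 2 ≤ F.totalDegree ^ 2 + mu (gp n ℓ j) F := by
  have h0 := xu_one hF hG hdeg hj
  by_contra hcon
  have heq : ∑ i, mu (gp n ℓ i) F ^ 2 + 1 = F.totalDegree ^ 2 + mu (gp n ℓ j) F := by omega
  obtain ⟨u, w, hu, hw, huβ, hwβ, hind⟩ := exists_two_sec hF hdeg hj
  have hn : 0 < n := lt_of_le_of_lt (Nat.zero_le _) j.2
  have := infinite_KK ℓ hn
  have h1 := gon_one (gp_inj n ℓ) hF hG F.totalDegree _ (fun i => by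
    by_cases h : i = j
    · rw [if_pos h]; omega
    · rw [if_neg h]; omega) (by
      rw [GXu_dotp F hj]
      have h2 : ((∑ i, mu (gp n ℓ i) F ^ 2 : ℕ) : ℤ) + 1 =
          (F.totalDegree : ℤ) ^ 2 + mu (gp n ℓ j) F := by exact_mod_cast heq
      linarith) hu hw huβ hwβ hind
  linarith

end Pool.MP_70e04f_ag.Strip

end
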