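import Pool.Agent.Lib_MP_70e04f_m.M29
import Pool.Agent.Lib_MP_70e04f_m.M33
import Pool.Agent.Lib_MP_70e04f_m.M35
import Pool.Agent.Lib_MP_70e04f_m.M38

/-!
# MP_70e04f_ag, plane linear systems: merged library part M39

Concatenation of smaller files (each in its own section), only to save build time.
-/

/-! ### from `Lib_MP_70e04f_lit.LBase` -/

section

/-!
# Systems in standard form with at most nine multiple points and simple points
-/

set_option autoImplicit false

namespace Pool.MP_70e04f_ag.Strip

open MvPolynomial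

theorem GExp.exists_EXP {n : ℕ} {d : ℕ} {m : Fin n → ℕ} (h : GExp d m) :
    ∃ p : Fin n → Fin 2 → ℂ, EXP d m p := by
  obtain ⟨g, hg, h⟩ := h
  obtain ⟨x, hx⟩ : ∃ x : Fin n × Fin 2 → ℂ, MvPolynomial.eval x g ≠ 0 := by
    by_contra hcon
    push Not at hcon
    exact hg (MvPolynomial.funext fun x => by rw [hcon x, map_zero])
  refine ⟨fun i c => x (i, c), ?_⟩
  have h1 := h (fun i c => x (i, c)) hx
  unfold EXP
  have h2 : Pt ℂ d ⊓ sp (Iz (fun i c => x (i, c)) m) =
      MvPolynomial.restrictTotalDegree (Fin 2) ℂ d ⊓
        ⨅ i : Fin n, Submodule.restrictScalars ℂ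
          ((RingHom.ker (MvPolynomial.eval ((fun i c => x (i, c)) i)) :
            Ideal (MvPolynomial (Fin 2) ℂ)) ^ m i) := by
    ext f
    rw [Submodule.mem_inf, Submodule.mem_inf, mem_sp, mem_Iz, Submodule.mem_iInf]
    rfl
  rw [h2]
  exact h1.le

/-- Systems in standard form with at most nine multiple points and simple points. -/
theorem gexp_simple {n d : ℕ} (mm : Fin n → ℕ) (α : Fin 9 → Fin n) (hα : Function.Injective α)
    (h1 : ∀ i, i ∉ Set.range α → mm i ≤ 1)
    (h3 : ∀ ι : Fin 3 → Fin n, Function.Injective ι → ∑ j, mm (ι j) ≤ d) : GExp d mm := by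
  have h9 : GExp d (fun a : Fin 9 => mm (α a)) :=
    Cre.base_nine (fun a : Fin 9 => mm (α a)) id Function.injective_id
      (fun i hi => absurd ⟨i, rfl⟩ hi) (fun ι hι => h3 (fun j => α (ι j)) (hα.comp hι))
  obtain ⟨p', hp'⟩ := h9.exists_EXP
  obtain ⟨p, hp⟩ := hp'.extend α hα h1
  exact gexp_of_good d mm p hp.good

end Pool.MP_70e04f_ag.Strip

end

/-! ### from `Lib_MP_70e04f_gon.GPos` -/

section

/-!
# Piece GPOS: positivity outside of the strip of width one seventh
-/

set_option autoImplicit false

namespace Pool.MP_70e04f_ag.Strip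

open MvPolynomial

/-- the tenth multiplicity is at most the largest one outside of nine points -/
theorem GPos_le {n m : ℕ} (a : Fin n → ℕ) (α β : Fin 9 → Fin n) (hα : Function.Injective α)
    (hβ : Function.Injective β) (hanti : Antitone (fun j => a (β j)))
    (hβ8 : ∀ i, i ∉ Set.range β → a i ≤ a (β 8)) (hm : ∀ i ∈ Sm α, a i ≤ m) :
    ∀ i, i ∉ Set.range β → a i ≤ m := by
  classical
  intro i0 hi0
  by_contra hcon
  push Not at hcon
  have hin : ∀ i, a i0 ≤ a i → i ∈ Finset.univ.image α := by
    intro i hi
    by_contra h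
    have h1 := hm i (mem_Sm.2 (by
      rintro ⟨t, rfl⟩
      exact h (Finset.mem_image_of_mem α (Finset.mem_univ t))))
    omega
  have hsub : insert i0 (Finset.univ.image β) ⊆ Finset.univ.image α := by
    intro i hi
    rw [Finset.mem_insert, Finset.mem_image] at hi
    apply hin
    rcases hi with rfl | ⟨t, _, rfl⟩
    · exact le_rfl
    · exact (hβ8 i0 hi0).trans (hanti (show t ≤ 8 by omega))
  have hc := Finset.card_le_card hsub
  rw [Finset.card_insert_of_notMem (by
    intro h
    rw [Finset.mem_image] at h
    obtain ⟨t, _, ht⟩ := h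
    exact hi0 ⟨t, ht⟩), Finset.card_image_of_injective _ hβ,
    Finset.card_image_of_injective _ hα] at hc
  simp at hc

/-- Positivity outside of the strip of width one seventh, and in the thin strip. -/
theorem pos_thin2 {n : ℕ} (D X ν : ℕ) (M : Fin n → ℕ) (α : Fin 9 → Fin n)
    (hα : Function.Injective α) (hanti : Antitone (fun s => M (α s))) (hX : 1 ≤ X)
    (hX8 : X ≤ M (α 8)) (hother : ∀ i, i ∉ Set.range α → M i ≤ X)
    (hstd : M (α 0) + M (α 1) + M (α 2) ≤ D) (hν : ∑ i, M i ^ 2 + ν = D ^ 2) (hν0 : 0 < ν)
    (hthin : X ^ 2 < 7 * ν ∨ 5000 * X ^ 4 ≤ ν * ∑ i ∈ Sm α, M i ^ 2 ∨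
      15000 * X ^ 5 ≤ ν ^ 2 * D) (E : ℕ) :
    ∃ B : ℕ, ∀ ℓ : ℕ, ∀ [Fact ℓ.Prime], B < ℓ → ∀ F : A2 (KK n ℓ), Irreducible F →
      F.totalDegree ≤ E → 1 ≤ dotp D M (gp n ℓ) F := by
  obtain ⟨B0, hB0⟩ := eff_large_all n E
  refine ⟨B0 + E ^ 2 + E + 3, fun ℓ _ hℓ => ?_⟩
  have hsq : ∑ i, M i ^ 2 < D ^ 2 := by omega
  have hD : 0 < D := by
    rcases Nat.eq_zero_or_pos D with h | h
    · subst h
      simp at hsq
    · exact h
  have key : ∀ e : ℕ, ∀ F : A2 (KK n ℓ), Irreducible F → F.totalDegree = e → e ≤ E →
      1 ≤ dotp D M (gp n ℓ) F := by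
    intro e
    induction e using Nat.strong_induction_on with
    | _ e ih =>
      intro F hF hFe hE
      by_contra hcon
      have hF0 : F ≠ 0 := hF.ne_zero
      have hdeg : F.totalDegree < ℓ := by omega
      have hdeg2 : F.totalDegree ^ 2 < ℓ := by
        have : F.totalDegree ^ 2 ≤ E ^ 2 := Nat.pow_le_pow_left (by omega) 2
        omega
      rcases nine_or (by omega) D M α hα hsq hF hdeg with h9 | h9
      · exact hcon h9
      have hG : GIrr F := girr_min D hD M hF (by omega) (fun F' hF' hd =>
        ih F'.totalDegree (by omega) F' hF' rfl (by omega))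
      obtain ⟨a, ha⟩ : ∃ a : Fin n → ℕ, a = fun i => mu (gp n ℓ i) F := ⟨_, rfl⟩
      have hai : ∀ i, mu (gp n ℓ i) F = a i := fun i => by rw [ha]
      have hNF : D * e ≤ ∑ i, M i * a i := by
        unfold dotp at hcon
        simp only [hai, hFe] at hcon
        have h1 : (D : ℤ) * e ≤ ∑ i, (M i : ℤ) * a i := by linarith
        exact_mod_cast h1
      have hxu : ∀ j, 1 ≤ a j → ∑ i, a i ^ 2 ≤ e ^ 2 + a j := by
        intro j hj
        have h := xu hF hdeg j (by rw [hai]; exact hj)
        simp only [hai, hFe] at h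
        exact h
      have hts : ∀ i j, i ≠ j → a i = 1 → a j = 1 → ∑ s, a s ^ 2 = e ^ 2 + 1 →
          ∑ s, a s + 1 ≤ 3 * e := by
        intro i j hij hi hj hs
        have h := two_simple hF hdeg hij (by rw [hai]; exact hi) (by rw [hai]; exact hj)
          (by simp only [hai, hFe]; exact hs)
        simp only [hai, hFe] at h
        exact h
      have hae : ∀ i, a i ≤ e := by
        intro i
        rw [← hai, ← hFe]
        exact mu_le_deg hF0
      have he : 1 ≤ e := by rw [← hFe]; exact spos_deg hF
      have hnine : ∑ s, a (α s) + 1 ≤ 3 * e := by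
        simp only [hai, hFe] at h9
        exact h9
      have hneg : e ^ 2 < ∑ i, a i ^ 2 := by
        by_contra h
        have := num_sq e D a M he hsq (not_lt.1 h)
        omega
      have hK : 3 * e ≤ ∑ i, a i := by
        by_contra h
        have := num_K e D X a M α hα hae (by omega) hanti hX hX8 hother hstd
        omega
      have h1 : ∃ i ∈ Sm α, 2 ≤ a i := by
        by_contra h
        push Not at h
        have := num_one e D X a M α hα he hae hxu hnine hts hanti hX hX8 hother hstd hsq
          (fun i hi => by have := h i (mem_Sm.2 hi); omega)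
        omega
      have heff : Eff0 e a := by
        refine hB0 ℓ (by omega) e a hE (fun i => (hae i).trans hE) ?_
        refine ⟨F, hF0, mem_Pt.2 hFe.le, mem_Iz.2 fun i => ?_⟩
        rw [mem_iff_le_mu hF0, hai]
      have h2 : 2 ≤ F.totalDegree := by
        obtain ⟨i, _, hi⟩ := h1
        have := hae i
        omega
      by_cases h3 : ∀ ι : Fin 3 → Fin n, Function.Injective ι → ∑ j, a (ι j) ≤ e
      · obtain ⟨i1, hi1, h12⟩ := h1
        obtain ⟨i0, hi0, hmax⟩ := Finset.exists_max_image (Sm α) a ⟨i1, hi1⟩
        have hm : 2 ≤ a i0 := h12.trans (hmax i1 hi1)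
        obtain ⟨q, hq⟩ : ∃ q, ∑ i, a i ^ 2 = e ^ 2 + q := ⟨∑ i, a i ^ 2 - e ^ 2, by omega⟩
        have hqm : q + 2 ≤ a i0 ∨ (q + 1 ≤ a i0 ∧ 7 ≤ a i0) := by
          by_cases hgen : ∑ i, (mu (gp n ℓ i) F : ℤ) * ((mu (gp n ℓ i) F : ℤ) - 1) ≤
              (F.totalDegree : ℤ) * (F.totalDegree - 3)
          · left
            have h := xu_two hF hG hdeg2 (j := i0) (by rw [hai]; exact hm) hgen
            simp only [hai, hFe] at h
            omega
          · right
            have hx1 : ∀ j, 2 ≤ a j → q + 1 ≤ a j := by
              intro j hj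
              have h := xu_one hF hG hdeg2 (j := j) (by rw [hai]; exact hj)
              simp only [hai, hFe] at h
              omega
            refine ⟨hx1 i0 hm, ?_⟩
            simp only [hai, hFe] at hgen
            have e1 : ∑ i, (a i : ℤ) * ((a i : ℤ) - 1) = ((∑ i, a i ^ 2 : ℕ) : ℤ) -
                ((∑ i, a i : ℕ) : ℤ) := by
              push_cast
              rw [← Finset.sum_sub_distrib]
              exact Finset.sum_congr rfl fun i _ => by ring
            rw [e1, hq] at hgen
            push_cast at hgen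
            have e2 : ((∑ i, a i : ℕ) : ℤ) < 3 * e + q := by
              push_cast
              nlinarith
            have e3 : ∑ i, a i < 3 * e + q := by exact_mod_cast e2
            have hpar := SNum_parity a
            rw [hq] at hpar
            have hpe : (e ^ 2 + q) % 2 = (e + q) % 2 := by
              rcases Nat.mod_two_eq_zero_or_one e with h | h
              · rw [Nat.add_mod, Nat.pow_mod, h, Nat.add_mod e, h]
              · rw [Nat.add_mod, Nat.pow_mod, h, Nat.add_mod e, h]
            rw [hpe] at hpar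
            have hK2 : ∑ i, a i + 2 ≤ 3 * e + q := by omega
            obtain ⟨β, hβ, hβa, hβ8⟩ := Cre.exists_sorted a α hα
            have hnine' : ∑ s, a (β s) + 1 ≤ 3 * e := by
              rcases nine_or (by omega) D M β hβ hsq hF hdeg with h | h
              · exact absurd h hcon
              · simp only [hai, hFe] at h
                exact h
            refine num_rat e q (a i0) a β hβ hβa hβ8 ?_ hnine' hq ?_ hK hK2
              (GPos_le a α β hα hβ hβa hβ8 hmax)
            · have h := h3 ![β 0, β 1, β 2] (by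
                intro a b hab
                fin_cases a <;> fin_cases b <;> first | rfl | (exfalso; simp [hβ.eq_iff] at hab))
              rw [Fin.sum_univ_three] at h
              exact h
            · intro i hi
              by_cases hi2 : 2 ≤ a i
              · exact hx1 i hi2
              · have := hxu i hi
                omega
        have h4 := thin_num2 e D X ν (a i0) q a M α he hX
          (fun i hi => hother i (mem_Sm.1 hi)) hν hν0 hthin hq (by omega) hqm hNF i0 hi0 rfl
        have h5 := hxu i0 (by omega)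
        refine (gexp_std (m := a i0) a α hα hmax h3 ?_).not_eff0 (chi_le e a hneg hK) heff
        rcases h4 with h | h
        · exact Or.inl ⟨h, h5⟩
        · exact Or.inr h
      · push Not at h3
        obtain ⟨ι, hι, h3⟩ := h3
        obtain ⟨F', hF', hdeg', hdot⟩ := exists_smaller (ℓ := ℓ) D e a M heff hneg
          (fun i j hij => by
            have := pair_le (gp_inj n ℓ) hF h2 hij
            rw [hai, hai, hFe] at this
            exact this) hNF ι hι
          (three_le D X M α hα hanti hX8 hother hstd ι hι) h3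
        have := ih F'.totalDegree hdeg' F' hF' rfl (by omega)
        omega
  intro F hF hE
  exact key _ F hF rfl hE

end Pool.MP_70e04f_ag.Strip

end
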