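import Pool.Agent.Lib_MP_70e04f_m.M30
import Pool.Agent.Lib_MP_70e04f_m.M34
import Pool.Agent.Lib_MP_70e04f_m.M37
import Pool.Agent.Lib_MP_70e04f_m.M39

/-!
# MP_70e04f_ag, plane linear systems: merged library part M40

Concatenation of smaller files (each in its own section), only to save build time.
-/

/-! ### from `Lib_MP_70e04f_gon.GFinal` -/

section

/-!
# Assembly: the strip theorem with width one seventh
-/

set_option autoImplicit false

namespace Pool.MP_70e04f_ag.Strip

open MvPolynomial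

/-- The class `(∑ m i ^ 2; d * m i)`, with `X = d * m (α 9)`: see `pos_neg` in
`Lib_MP_70e04f_thin/TGen.lean`. -/
theorem pos_neg2 {n : ℕ} (d x N : ℕ) (m : Fin n → ℕ) (α : Fin 9 → Fin n)
    (hα : Function.Injective α) (hanti : Antitone (fun s => m (α s))) (hx : 1 ≤ x)
    (hx8 : x ≤ m (α 8)) (hother : ∀ i, i ∉ Set.range α → m i ≤ x)
    (hstd : m (α 0) + m (α 1) + m (α 2) ≤ d) (hN : ∑ i, m i ^ 2 = d ^ 2 + N) (hN0 : 0 < N)
    (hthin : x ^ 2 ≤ 7 * N ∨ 5000 * x ^ 4 ≤ N * ∑ i ∈ Sm α, m i ^ 2 ∨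
      15000 * x ^ 5 ≤ N ^ 2 * d) (E : ℕ) :
    ∃ B : ℕ, ∀ ℓ : ℕ, ∀ [Fact ℓ.Prime], B < ℓ → ∀ F : A2 (KK n ℓ), Irreducible F →
      F.totalDegree ≤ E → 1 ≤ dotp (∑ i, m i ^ 2) (fun i => d * m i) (gp n ℓ) F := by
  have hd : 1 ≤ d := by
    have h0 : m (α 8) ≤ m (α 0) := hanti (Fin.zero_le 8)
    omega
  have hM : ∀ T : Finset (Fin n), ∑ i ∈ T, (d * m i) ^ 2 = d ^ 2 * ∑ i ∈ T, m i ^ 2 := by
    intro T
    rw [Finset.mul_sum]
    exact Finset.sum_congr rfl fun i _ => by ring
  have hSS : d ^ 2 ≤ ∑ i, m i ^ 2 := by omega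
  refine pos_thin2 (∑ i, m i ^ 2) (d * x) ((∑ i, m i ^ 2) * N) (fun i => d * m i) α hα
    (fun a b hab => Nat.mul_le_mul_left d (hanti hab)) (Nat.mul_pos hd hx)
    (Nat.mul_le_mul_left d hx8) (fun i hi => Nat.mul_le_mul_left d (hother i hi)) ?_ ?_ ?_ ?_ E
  · calc d * m (α 0) + d * m (α 1) + d * m (α 2) = d * (m (α 0) + m (α 1) + m (α 2)) := by ring
      _ ≤ d * d := Nat.mul_le_mul_left d hstd
      _ = d ^ 2 := by ring
      _ ≤ _ := hSS
  · rw [hM, hN]
    ring
  · exact Nat.mul_pos (by have : 1 ≤ d ^ 2 := Nat.one_le_pow _ _ hd; omega) hN0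
  · rcases hthin with h | h | h
    · left
      have h1 : 1 ≤ x ^ 2 := Nat.one_le_pow _ _ hx
      calc (d * x) ^ 2 = d ^ 2 * x ^ 2 := by ring
        _ < (∑ i, m i ^ 2) * x ^ 2 := Nat.mul_lt_mul_of_pos_right (by omega) h1
        _ ≤ (∑ i, m i ^ 2) * (7 * N) := Nat.mul_le_mul_left _ h
        _ = 7 * ((∑ i, m i ^ 2) * N) := by ring
    · right; left
      rw [hM]
      calc 5000 * (d * x) ^ 4 = d ^ 4 * (5000 * x ^ 4) := by ring
        _ ≤ d ^ 4 * (N * ∑ i ∈ Sm α, m i ^ 2) := Nat.mul_le_mul_left _ h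
        _ = d ^ 2 * N * (d ^ 2 * ∑ i ∈ Sm α, m i ^ 2) := by ring
        _ ≤ (∑ i, m i ^ 2) * N * (d ^ 2 * ∑ i ∈ Sm α, m i ^ 2) :=
          Nat.mul_le_mul_right _ (Nat.mul_le_mul_right _ hSS)
    · right; right
      calc 15000 * (d * x) ^ 5 = d ^ 5 * (15000 * x ^ 5) := by ring
        _ ≤ d ^ 5 * (N ^ 2 * d) := Nat.mul_le_mul_left _ h
        _ = (d ^ 2) ^ 3 * N ^ 2 := by ring
        _ ≤ (∑ i, m i ^ 2) ^ 3 * N ^ 2 := Nat.mul_le_mul_right _ (Nat.pow_le_pow_left hSS 3)
        _ = ((∑ i, m i ^ 2) * N) ^ 2 * ∑ i, m i ^ 2 := by ring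

/-- The strip theorem with width one seventh, and the thin strip. (The small points are the ones
outside of the first nine of the ten points `α`.) -/
theorem gen_thin2 (n d D N : ℕ) (mult : Fin n → ℕ) (α : Fin 10 → Fin n)
    (hα : Function.Injective α) (hanti : Antitone (fun j => mult (α j)))
    (h2 : 2 ≤ mult (α 9)) (hother : ∀ i, i ∉ Set.range α → mult i ≤ mult (α 9))
    (hstd : mult (α 0) + mult (α 1) + mult (α 2) ≤ d) (hN : 0 < N)
    (hbig : (∑ i with 2 ≤ mult i, (mult i + 1) ^ 2 + N = (d + 3) ^ 2 ∧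
        ((mult (α 9) + 1) ^ 2 < 7 * N ∨
          5000 * (mult (α 9) + 1) ^ 4 ≤
            N * ∑ i with 2 ≤ mult i ∧ ∀ j : Fin 9, i ≠ α j.castSucc, (mult i + 1) ^ 2 ∨
          15000 * (mult (α 9) + 1) ^ 5 ≤ N ^ 2 * (d + 3))) ∨
      (∑ i, mult i ^ 2 = d ^ 2 + N ∧
        (mult (α 9) ^ 2 ≤ 7 * N ∨
          5000 * mult (α 9) ^ 4 ≤
            N * ∑ i with ∀ j : Fin 9, i ≠ α j.castSucc, mult i ^ 2 ∨
          15000 * mult (α 9) ^ 5 ≤ N ^ 2 * d)))
    (hD : D = d ∨ D ≤ d ∧ (d + 1) * (d + 2) ≤ ∑ i, mult i * (mult i + 1)) : GExp D mult := by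
  classical
  have h9 : ∀ j, mult (α 9) ≤ mult (α j) := fun j => hanti (Fin.le_last j)
  have hn : 0 < n := lt_of_le_of_lt (Nat.zero_le _) (α 0).2
  -- facts on the enumerated family
  have hfam : ∀ {r : ℕ} (ι : Fin r → Fin n) (α' : Fin 10 → Fin r), Function.Injective ι →
      (∀ j, ι (α' j) = α j) → Antitone (fun s : Fin 9 => mult (ι (α' s.castSucc))) ∧
      mult (α 9) ≤ mult (ι (α' (8 : Fin 9).castSucc)) ∧
      (∀ i, i ∉ Set.range (fun s : Fin 9 => α' s.castSucc) → mult (ι i) ≤ mult (α 9)) ∧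
      mult (ι (α' (0 : Fin 9).castSucc)) + mult (ι (α' (1 : Fin 9).castSucc)) +
        mult (ι (α' (2 : Fin 9).castSucc)) ≤ d := by
    intro r ι α' hι hια
    refine ⟨?_, ?_, ?_, ?_⟩
    · intro a b hab
      simp only [hια]
      exact hanti (Fin.castSucc_le_castSucc_iff.2 hab)
    · rw [hια]
      exact h9 _
    · intro i hi
      by_cases h : ι i ∈ Set.range α
      · obtain ⟨j, hj⟩ := h
        rw [← hj]
        rcases Fin.eq_castSucc_or_eq_last j with ⟨j', rfl⟩ | rfl
        · exfalso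
          apply hi
          refine ⟨j', hι ?_⟩
          simp only
          rw [hια, hj]
        · exact le_refl _
      · exact hother _ h
    · simp only [hια]
      exact hstd
  have key : GExp d mult := by
    rcases hbig with ⟨hb, ht⟩ | ⟨hb, ht⟩
    · obtain ⟨ι, α', hι, hr, hια, hα'⟩ := exists_enum (Finset.univ.filter (fun i => 2 ≤ mult i)) α hα
        (fun j => by
          rw [Finset.mem_filter]
          exact ⟨Finset.mem_univ _, h2.trans (h9 j)⟩)
      obtain ⟨f1, f2, f3, f4⟩ := hfam ι α' hι hια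
      have hs := sum_enum _ ι hι hr (fun i => (mult i + 1) ^ 2)
      have hs2 := TFinal_sum _ ι hι hr (fun j : Fin 9 => α j.castSucc)
        (fun j : Fin 9 => α' j.castSucc) (fun j => hια _) (fun i => (mult i + 1) ^ 2)
      rw [Finset.filter_filter] at hs2
      obtain ⟨k, _, _, p, hp, hind⟩ := ind_of_pos (α' 0).pos d (fun a => mult (ι a)) (by rw [hs]; omega)
        (pos_thin2 (d + 3) (mult (α 9) + 1) N (fun a => mult (ι a) + 1)
          (fun s : Fin 9 => α' s.castSucc) (hα'.comp (Fin.castSucc_injective _))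
          (fun a b hab => Nat.add_le_add_right (f1 hab) 1) (by omega) (Nat.add_le_add_right f2 1)
          (fun i hi => Nat.add_le_add_right (f3 i hi) 1) (by omega)
          (by rw [hs]; exact hb) hN (by rw [hs2]; exact ht))
      obtain ⟨p2, hp2⟩ := (EXP.of_ind hp hind).extend ι hι
        (fun i hi => by
          by_contra hcon
          apply hi
          have : i ∈ (↑(Finset.univ.filter (fun i => 2 ≤ mult i)) : Set (Fin n)) := by
            rw [Finset.mem_coe, Finset.mem_filter]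
            exact ⟨Finset.mem_univ _, by omega⟩
          rw [← hr] at this
          exact this)
      exact gexp_of_good d mult p2 hp2.good
    · obtain ⟨ι, α', hι, hr, hια, hα'⟩ := exists_enum (Finset.univ.filter (fun i => 1 ≤ mult i)) α hα
        (fun j => by
          rw [Finset.mem_filter]
          exact ⟨Finset.mem_univ _, by have := h9 j; omega⟩)
      obtain ⟨f1, f2, f3, f4⟩ := hfam ι α' hι hια
      have hs := sum_enum _ ι hι hr (fun i => mult i ^ 2)
      have hs' : ∑ i ∈ Finset.univ.filter (fun i => 1 ≤ mult i), mult i ^ 2 = ∑ i, mult i ^ 2 := by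
        apply Finset.sum_subset (Finset.subset_univ _)
        intro i _ hi
        rw [Finset.mem_filter] at hi
        have : mult i = 0 := by
          by_contra h0
          exact hi ⟨Finset.mem_univ _, by omega⟩
        rw [this]; rfl
      have hs2 := TFinal_sum _ ι hι hr (fun j : Fin 9 => α j.castSucc)
        (fun j : Fin 9 => α' j.castSucc) (fun j => hια _) (fun i => mult i ^ 2)
      have hs2' : ∑ i ∈ (Finset.univ.filter (fun i => 1 ≤ mult i)).filter
          (fun i => ∀ j : Fin 9, i ≠ α j.castSucc), mult i ^ 2 =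
          ∑ i with ∀ j : Fin 9, i ≠ α j.castSucc, mult i ^ 2 := by
        apply Finset.sum_subset
        · intro i hi
          rw [Finset.mem_filter] at hi ⊢
          exact ⟨Finset.mem_univ _, hi.2⟩
        · intro i hi1 hi
          rw [Finset.mem_filter] at hi1
          rw [Finset.mem_filter, Finset.mem_filter] at hi
          have : mult i = 0 := by
            by_contra h0
            exact hi ⟨⟨Finset.mem_univ _, by omega⟩, hi1.2⟩
          rw [this]; rfl
      obtain ⟨k, _, _, p, hp, hbot⟩ := empty_of_pos (α' 0).pos d (fun a => mult (ι a))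
        (fun a => by
          have : ι a ∈ (↑(Finset.univ.filter (fun i => 1 ≤ mult i)) : Set (Fin n)) := by
            rw [← hr]; exact ⟨a, rfl⟩
          rw [Finset.mem_coe, Finset.mem_filter] at this
          exact this.2)
        (pos_neg2 d (mult (α 9)) N (fun a => mult (ι a)) (fun s : Fin 9 => α' s.castSucc)
          (hα'.comp (Fin.castSucc_injective _)) f1 (by omega) f2 f3 f4
          (by rw [hs, hs']; exact hb) hN (by rw [hs2, hs2']; exact ht) d)
      obtain ⟨p2, hp2⟩ := (EXP.of_bot hbot).extend ι hι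
        (fun i hi => by
          by_contra hcon
          apply hi
          have : i ∈ (↑(Finset.univ.filter (fun i => 1 ≤ mult i)) : Set (Fin n)) := by
            rw [Finset.mem_coe, Finset.mem_filter]
            exact ⟨Finset.mem_univ _, by omega⟩
          rw [← hr] at this
          exact this)
      exact gexp_of_good d mult p2 hp2.good
  rcases hD with rfl | ⟨h3, h4⟩
  · exact key
  · exact key.le h3 h4

end Pool.MP_70e04f_ag.Strip

end

/-! ### from `Lib_MP_70e04f_lit.LMain` -/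

section

/-!
# The conjecture for all systems outside of the strip (literal form)
-/

set_option autoImplicit false

namespace Pool.MP_70e04f_ag.Cre

open MvPolynomial

/-- the three indices with the largest multiplicities -/
theorem inj_three {n : ℕ} (β : Fin 9 → Fin n) (hβ : Function.Injective β) :
    Function.Injective (fun j : Fin 3 => β (Fin.castLE (by omega) j)) := by
  intro a b hab
  exact Fin.castLE_injective _ (hβ hab)

theorem lit_step {n d : ℕ} {mm : Fin n → ℕ} {ι : Fin 3 → Fin n} (hι : Function.Injective ι)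
    (hp : ∀ i j, i ≠ j → mm i + mm j < d + 2) (hb : ∀ i, mm i ≤ d) (hs : ¬ ∀ i, mm i ≤ 1)
    (h3 : d < ∑ j, mm (ι j)) :
    ∃ δ d' : ℕ, 0 < δ ∧ d' + δ = d ∧ ∑ j, mm (ι j) = d + δ ∧ (∀ j, δ ≤ mm (ι j) + 1) ∧
      (Dich.SHGH d' (cm mm ι δ) → Dich.SHGH d mm) := by
  push Not at hs
  obtain ⟨i0, hi0⟩ := hs
  have hd2 : 2 ≤ d := by have := hb i0; omega
  obtain ⟨δ, hδ⟩ : ∃ δ, ∑ j, mm (ι j) = d + δ := ⟨∑ j, mm (ι j) - d, by omega⟩
  have hpair : ∀ j k, j ≠ k → mm (ι j) + mm (ι k) ≤ d + 1 := by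
    intro j k hjk
    have := hp (ι j) (ι k) (fun h => hjk (hι h))
    omega
  have p01 := hpair 0 1 (by decide)
  have p02 := hpair 0 2 (by decide)
  have p12 := hpair 1 2 (by decide)
  have hδ' := hδ
  rw [Fin.sum_univ_three] at hδ'
  have hlow : ∀ j, δ ≤ mm (ι j) + 1 := by
    intro j
    fin_cases j <;> simp <;> omega
  refine ⟨δ, d - δ, by omega, by omega, hδ, hlow, fun h => ?_⟩
  exact shgh_cremona' hι (by omega) hδ hpair (fun j => hb _) h

/-- Systems in standard form. -/
theorem lit_std {n X d : ℕ} (mm : Fin n → ℕ) (α : Fin 9 → Fin n) (hα : Function.Injective α)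
    (hX : ∀ i, i ∉ Set.range α → mm i + 1 ≤ X)
    (hT : 7 * ∑ i with 2 ≤ mm i, (mm i + 1) ^ 2 + X ^ 2 < 7 * (d + 3) ^ 2)
    (h3 : ∀ ι : Fin 3 → Fin n, Function.Injective ι → ∑ j, mm (ι j) ≤ d) : Strip.GExp d mm := by
  classical
  obtain ⟨β, hβ, hanti, hβ8⟩ := exists_sorted mm α hα
  by_cases hz : ∀ i, i ∉ Set.range β → mm i ≤ 1
  · exact Strip.gexp_simple mm β hβ hz h3
  push Not at hz
  obtain ⟨i1, hi1, hi1'⟩ := hz
  obtain ⟨i0, hi0, hmax⟩ := Finset.exists_max_image (Finset.univ.filter fun i => i ∉ Set.range β)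
    mm ⟨i1, by simpa using hi1⟩
  have hi0' : i0 ∉ Set.range β := (Finset.mem_filter.1 hi0).2
  have hmax' : ∀ i, i ∉ Set.range β → mm i ≤ mm i0 := fun i hi =>
    hmax i (Finset.mem_filter.2 ⟨Finset.mem_univ i, hi⟩)
  have h20 : 2 ≤ mm i0 := by have := hmax' i1 hi1; omega
  have h08 : mm i0 ≤ mm (β 8) := hβ8 i0 hi0'
  have hm : mm i0 + 1 ≤ X := by
    have hX1 : 1 ≤ X := by
      obtain ⟨i, hi⟩ : ∃ i, i ∉ Set.range α := by
        by_contra hcon
        push Not at hcon
        have hsurj : Finset.univ.image α = Finset.univ := by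
          ext i
          rw [Finset.mem_image]
          constructor
          · intro _
            exact Finset.mem_univ _
          · intro _
            obtain ⟨j, hj⟩ := hcon i
            exact ⟨j, Finset.mem_univ _, hj⟩
        have hc : (Finset.univ.image α).card = 9 := by
          rw [Finset.card_image_of_injective _ hα]; simp
        have hc2 : (insert i0 (Finset.univ.image β)).card = 10 := by
          rw [Finset.card_insert_of_notMem (by
            intro h
            rw [Finset.mem_image] at h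
            obtain ⟨t, _, ht⟩ := h
            exact hi0' ⟨t, ht⟩), Finset.card_image_of_injective _ hβ]
          simp
        have hc3 := Finset.card_le_card (Finset.subset_univ (insert i0 (Finset.univ.image β)))
        rw [← hsurj] at hc3
        omega
      have := hX i hi
      omega
    have := Strip.GPos_le (m := X - 1) mm α β hα hβ hanti hβ8 (fun i hi => by
      have := hX i (Strip.mem_Sm.1 hi)
      omega) i0 hi0'
    omega
  -- the ten indices
  obtain ⟨γ, hγ⟩ : ∃ γ : Fin 10 → Fin n, γ = Fin.snoc (α := fun _ => Fin n) β i0 := ⟨_, rfl⟩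
  have hγc : ∀ j : Fin 9, γ j.castSucc = β j := by
    intro j
    rw [hγ]
    exact Fin.snoc_castSucc (α := fun _ => Fin n) i0 β j
  have hγl : γ (Fin.last 9) = i0 := by
    rw [hγ]
    exact Fin.snoc_last (α := fun _ => Fin n) i0 β
  have hγl' : γ 9 = i0 := hγl
  have hγinj : Function.Injective γ := by
    intro a b hab
    rcases Fin.eq_castSucc_or_eq_last a with ⟨a', rfl⟩ | rfl <;>
      rcases Fin.eq_castSucc_or_eq_last b with ⟨b', rfl⟩ | rfl
    · rw [hγc, hγc] at hab
      rw [hβ hab]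
    · rw [hγc, hγl] at hab
      exact absurd ⟨a', hab⟩ hi0'
    · rw [hγc, hγl] at hab
      exact absurd ⟨b', hab.symm⟩ hi0'
    · rfl
  have hγanti : Antitone (fun j => mm (γ j)) := by
    intro a b hab
    simp only
    rcases Fin.eq_castSucc_or_eq_last a with ⟨a', rfl⟩ | rfl <;>
      rcases Fin.eq_castSucc_or_eq_last b with ⟨b', rfl⟩ | rfl
    · rw [hγc, hγc]
      exact hanti (Fin.castSucc_le_castSucc_iff.1 hab)
    · rw [hγc, hγl]
      exact h08.trans (hanti (show a' ≤ 8 by omega))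
    · exfalso
      have := Fin.castSucc_lt_last b'
      exact absurd hab (not_le.2 this)
    · exact le_rfl
  have hlt : ∑ i with 2 ≤ mm i, (mm i + 1) ^ 2 < (d + 3) ^ 2 := by omega
  obtain ⟨N, hN⟩ : ∃ N, ∑ i with 2 ≤ mm i, (mm i + 1) ^ 2 + N = (d + 3) ^ 2 :=
    ⟨_, Nat.add_sub_of_le hlt.le⟩
  refine Strip.gen_thin2 n d d N mm γ hγinj hγanti (by rw [hγl']; exact h20) ?_ ?_ (by omega)
    (Or.inl ⟨hN, Or.inl ?_⟩) (Or.inl rfl)
  · intro i hi
    rw [hγl']
    apply hmax'
    rintro ⟨j, rfl⟩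
    exact hi ⟨j.castSucc, hγc j⟩
  · have e0 : γ 0 = β 0 := hγc 0
    have e1 : γ 1 = β 1 := hγc 1
    have e2 : γ 2 = β 2 := hγc 2
    have h := h3 _ (inj_three β hβ)
    rw [Fin.sum_univ_three] at h
    rw [e0, e1, e2]
    exact h
  · rw [hγl']
    have : (mm i0 + 1) ^ 2 ≤ X ^ 2 := Nat.pow_le_pow_left hm 2
    omega

/-- The conjecture, with both alternatives, for all systems with `7 (L - K) ^ 2 > X ^ 2`, where all
but nine multiplicities are less than `X`; and for all systems with at most nine multiple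
points. -/
theorem shgh_strip7 {n X : ℕ} (d : ℕ) (mm : Fin n → ℕ) (α : Fin 9 → Fin n)
    (hα : Function.Injective α)
    (h : (∀ i, i ∉ Set.range α → mm i ≤ 1) ∨ (∀ i, i ∉ Set.range α → mm i + 1 ≤ X) ∧
      7 * ∑ i with 2 ≤ mm i, (mm i + 1) ^ 2 + X ^ 2 < 7 * (d + 3) ^ 2) : Dich.SHGH d mm := by
  classical
  induction d using Nat.strong_induction_on generalizing mm α with
  | _ d ih =>
    by_cases hp : ∃ i j, i ≠ j ∧ d + 2 ≤ mm i + mm j
    · obtain ⟨i, j, hij, h⟩ := hp
      exact Dich.line_alt mm i j hij h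
    push Not at hp
    by_cases hs : ∀ i, mm i ≤ 1
    · exact shgh_simple hs
    by_cases hb : ∃ i, d + 1 ≤ mm i
    · obtain ⟨i0, hi0⟩ := hb
      obtain ⟨i1, hi1⟩ : ∃ i1, i1 ≠ i0 := by
        by_cases h0 : α 0 = i0
        · exact ⟨α 1, fun h1 => absurd (hα (h1.trans h0.symm)) (by decide)⟩
        · exact ⟨α 0, h0⟩
      have h1 := hp i1 i0 hi1
      refine shgh_one i0 (by omega) (fun i hi => ?_)
      have h2 := hp i i0 hi
      omega
    push Not at hb
    have hb' : ∀ i, mm i ≤ d := fun i => by have := hb i; omega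
    by_cases h3 : ∀ ι : Fin 3 → Fin n, Function.Injective ι → ∑ j, mm (ι j) ≤ d
    · have : Strip.GExp d mm := by
        rcases h with h | ⟨hX, hT⟩
        · exact Strip.gexp_simple mm α hα h h3
        · exact lit_std mm α hα hX hT h3
      obtain ⟨g, hg, h⟩ := this
      exact ⟨g, hg, fun p hp => Or.inl (h p hp)⟩
    have hle : ∀ {ι : Fin 3 → Fin n} {δ : ℕ} (i : Fin n), cm mm ι δ i ≤ mm i := by
      intro ι δ i
      unfold cm
      split_ifs
      · exact Nat.sub_le _ _
      · exact le_rfl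
    -- systems with at most nine multiple points
    have case1 : ∀ α' : Fin 9 → Fin n, Function.Injective α' →
        (∀ i, i ∉ Set.range α' → mm i ≤ 1) → Dich.SHGH d mm := by
      intro α' hα' h1
      push Not at h3
      obtain ⟨ι, hι, h3⟩ := h3
      obtain ⟨δ, d', hδ, hd, hsum, hlow, hstep⟩ := lit_step hι hp hb' hs h3
      exact hstep (ih d' (by omega) _ α' hα' (Or.inl fun i hi => (hle i).trans (h1 i hi)))
    rcases h with h | ⟨hX, hT⟩
    · exact case1 α hα h
    obtain ⟨β, hβ, hanti, hβ8⟩ := exists_sorted mm α hα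
    by_cases h22 : 2 ≤ mm (β 2)
    · have hviol : d < ∑ j : Fin 3, mm (β (Fin.castLE (by omega) j)) := by
        by_contra hcon
        apply h3
        intro ι hι
        refine Strip.three_le d (mm (β 8)) mm β hβ hanti le_rfl hβ8 ?_ ι hι
        rw [Fin.sum_univ_three, not_lt] at hcon
        exact hcon
      obtain ⟨δ, d', hδ, hd, hsum, hlow, hstep⟩ :=
        lit_step (inj_three β hβ) hp hb' hs hviol
      have hge : ∀ j : Fin 3, 2 ≤ mm (β (Fin.castLE (by omega) j)) := by
        intro j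
        refine h22.trans (hanti ?_)
        rw [Fin.le_def]
        show (j : ℕ) ≤ 2
        omega
      refine hstep (ih d' (by omega) _ α hα (Or.inr ⟨fun i hi => ?_, ?_⟩))
      · have h4 := hX i hi
        have h5 := hle (ι := fun j : Fin 3 => β (Fin.castLE (by omega) j)) (δ := δ) i
        omega
      · exact TT_cm (inj_three β hβ) hd hsum hlow hge hT
    · refine case1 β hβ (fun i hi => ?_)
      have h1 := hβ8 i hi
      have h2 : mm (β 8) ≤ mm (β 2) := hanti (by decide)
      omega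

end Pool.MP_70e04f_ag.Cre

end

/-! ### from `Lib_MP_70e04f_lit.LFinal` -/

section

/-!
# The conjecture outside of the strip of width one seventh: all systems of the first side (with both
alternatives), and the systems in standard form of the other side and of the thin strip
-/

set_option autoImplicit false

namespace Pool.MP_70e04f_ag.Cre

open MvPolynomial

/-- Three points have at most the sum of the three largest multiplicities. -/
theorem three_le10 {n d : ℕ} (mult : Fin n → ℕ) (α : Fin 10 → Fin n)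
    (hα : Function.Injective α) (hanti : Antitone (fun j => mult (α j)))
    (hother : ∀ i, i ∉ Set.range α → mult i ≤ mult (α 9))
    (hstd : mult (α 0) + mult (α 1) + mult (α 2) ≤ d) (ι : Fin 3 → Fin n)
    (hι : Function.Injective ι) : ∑ j, mult (ι j) ≤ d := by
  refine Strip.three_le d (mult (α (8 : Fin 9).castSucc)) mult (fun s : Fin 9 => α s.castSucc)
    (hα.comp (Fin.castSucc_injective _))
    (fun a b hab => hanti (Fin.castSucc_le_castSucc_iff.2 hab)) le_rfl ?_ hstd ι hι
  intro i hi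
  have h89 : mult (α 9) ≤ mult (α (8 : Fin 9).castSucc) := hanti (by decide)
  by_cases h : i ∈ Set.range α
  · obtain ⟨j, rfl⟩ := h
    rcases Fin.eq_castSucc_or_eq_last j with ⟨j', rfl⟩ | rfl
    · exact absurd ⟨j', rfl⟩ hi
    · exact h89
  · exact (hother _ h).trans h89

theorem seventh (n d D : ℕ) (mult : Fin n → ℕ) (α : Fin 10 → Fin n)
    (hα : Function.Injective α) (hanti : Antitone (fun j => mult (α j)))
    (hother : ∀ i, i ∉ Set.range α → mult i ≤ mult (α 9))
    (h : mult (α 9) ≤ 1 ∨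
      7 * ∑ i with 2 ≤ mult i, (mult i + 1) ^ 2 + (mult (α 9) + 1) ^ 2 < 7 * (d + 3) ^ 2 ∨
      mult (α 0) + mult (α 1) + mult (α 2) ≤ d ∧ ∃ N, 0 < N ∧
        ((∑ i with 2 ≤ mult i, (mult i + 1) ^ 2 + N = (d + 3) ^ 2 ∧
          (5000 * (mult (α 9) + 1) ^ 4 ≤
              N * ∑ i with 2 ≤ mult i ∧ ∀ j : Fin 9, i ≠ α j.castSucc, (mult i + 1) ^ 2 ∨
            15000 * (mult (α 9) + 1) ^ 5 ≤ N ^ 2 * (d + 3))) ∨
        (∑ i, mult i ^ 2 = d ^ 2 + N ∧
          (mult (α 9) ^ 2 ≤ 7 * N ∨
            5000 * mult (α 9) ^ 4 ≤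
              N * ∑ i with ∀ j : Fin 9, i ≠ α j.castSucc, mult i ^ 2 ∨
            15000 * mult (α 9) ^ 5 ≤ N ^ 2 * d))))
    (hD : D = d ∨ D ≤ d ∧ (d + 1) * (d + 2) ≤ ∑ i, mult i * (mult i + 1)) :
    Dich.SHGH D mult ∧ (mult (α 0) + mult (α 1) + mult (α 2) ≤ d → Strip.GExp D mult) := by
  classical
  have hα9 : Function.Injective (fun s : Fin 9 => α s.castSucc) :=
    hα.comp (Fin.castSucc_injective _)
  have hout : ∀ i, i ∉ Set.range (fun s : Fin 9 => α s.castSucc) → mult i ≤ mult (α 9) := by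
    intro i hi
    by_cases h : i ∈ Set.range α
    · obtain ⟨j, rfl⟩ := h
      rcases Fin.eq_castSucc_or_eq_last j with ⟨j', rfl⟩ | rfl
      · exact absurd ⟨j', rfl⟩ hi
      · exact le_refl _
    · exact hother _ h
  have hle : ∀ {mm : Fin n → ℕ}, Strip.GExp d mm →
      (D = d ∨ D ≤ d ∧ (d + 1) * (d + 2) ≤ ∑ i, mm i * (mm i + 1)) → Strip.GExp D mm := by
    intro mm hg hD
    rcases hD with rfl | ⟨h3, h4⟩
    · exact hg
    · exact hg.le h3 h4
  have hsh : Strip.GExp D mult → Dich.SHGH D mult := by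
    rintro ⟨g, hg, h⟩
    exact ⟨g, hg, fun p hp => Or.inl (h p hp)⟩
  -- the expected dimension in standard form
  have hE : mult (α 0) + mult (α 1) + mult (α 2) ≤ d → Strip.GExp D mult := by
    intro hstd
    by_cases h1 : mult (α 9) ≤ 1
    · exact hle (Strip.gexp_simple mult _ hα9 (fun i hi => (hout i hi).trans h1)
        (three_le10 mult α hα hanti hother hstd)) hD
    rcases h with h | h | ⟨-, N, hN, h⟩
    · exact absurd h h1
    · obtain ⟨N, hN⟩ : ∃ N, ∑ i with 2 ≤ mult i, (mult i + 1) ^ 2 + N = (d + 3) ^ 2 :=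
        ⟨_, Nat.add_sub_of_le (by omega)⟩
      exact Strip.gen_thin2 n d D N mult α hα hanti (by omega) hother hstd (by
        rcases Nat.eq_zero_or_pos N with h0 | h0
        · subst h0
          omega
        · exact h0) (Or.inl ⟨hN, Or.inl (by omega)⟩) hD
    · refine Strip.gen_thin2 n d D N mult α hα hanti (by omega) hother hstd hN ?_ hD
      rcases h with ⟨h2, h3⟩ | h
      · exact Or.inl ⟨h2, Or.inr h3⟩
      · exact Or.inr h
  refine ⟨?_, hE⟩
  -- the conjecture for systems of the first side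
  have hA : ((∀ i, i ∉ Set.range (fun s : Fin 9 => α s.castSucc) → mult i ≤ 1) ∨
      (∀ i, i ∉ Set.range (fun s : Fin 9 => α s.castSucc) → mult i + 1 ≤ mult (α 9) + 1) ∧
      7 * ∑ i with 2 ≤ mult i, (mult i + 1) ^ 2 + (mult (α 9) + 1) ^ 2 < 7 * (d + 3) ^ 2) →
      Dich.SHGH D mult := by
    intro h'
    have hd := shgh_strip7 d mult _ hα9 h'
    rcases hD with rfl | ⟨h3, h4⟩
    · exact hd
    · exact shgh_le hd h3 h4
  rcases h with h | h | ⟨hstd, -⟩
  · exact hA (Or.inl fun i hi => (hout i hi).trans h)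
  · exact hA (Or.inr ⟨fun i hi => Nat.succ_le_succ (hout i hi), h⟩)
  · exact hsh (hE hstd)

end Pool.MP_70e04f_ag.Cre

end
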